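import Pool.Agent.E5f.GrpDefs

/-! Words, and the action of the figure-eight group on the lattice of Hermitian matrices. -/

set_option autoImplicit false

namespace Pool.Agent.E5f.Ar

section Words
variable {G ι : Type} [Group G] (s : ι → G)

/-- The value of a letter. -/
def lv (e : ι × Bool) : G := if e.2 = true then s e.1 else (s e.1)⁻¹

theorem wev_nil : wev s [] = 1 := rfl

theorem wev_cons (e : ι × Bool) (l : List (ι × Bool)) : wev s (e :: l) = lv s e * wev s l := by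
  simp [wev, lv]

theorem wev_append (l l' : List (ι × Bool)) : wev s (l ++ l') = wev s l * wev s l' := by
  simp [wev]

/-- The inverse word. -/
def winv (l : List (ι × Bool)) : List (ι × Bool) := (l.map fun e => (e.1, !e.2)).reverse

theorem lv_not (e : ι × Bool) : lv s (e.1, !e.2) = (lv s e)⁻¹ := by
  rcases e with ⟨i, _ | _⟩ <;> simp [lv]

theorem wev_winv (l : List (ι × Bool)) : wev s (winv l) = (wev s l)⁻¹ := by
  induction l with
  | nil => simp [winv, wev]
  | cons e l ih =>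
    have : winv (e :: l) = winv l ++ [(e.1, !e.2)] := by simp [winv]
    rw [this, wev_append, ih, wev_cons, wev_cons, wev_nil, mul_one, lv_not, mul_inv_rev]

/-- The elements that are values of words. -/
def wsub : Subgroup G where
  carrier := {g | ∃ l, wev s l = g}
  one_mem' := ⟨[], rfl⟩
  mul_mem' := by
    rintro _ _ ⟨l, rfl⟩ ⟨l', rfl⟩
    exact ⟨l ++ l', wev_append s l l'⟩
  inv_mem' := by
    rintro _ ⟨l, rfl⟩
    exact ⟨winv l, wev_winv s l⟩

theorem mem_wsub (i : ι) : s i ∈ wsub s := ⟨[(i, true)], by simp [wev]⟩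

theorem gens_of {α : Type} {rels : Set (FreeGroup α)} (t : ι → PresentedGroup rels)
    (h : ∀ a, PresentedGroup.of a ∈ wsub t) : Gens t :=
  fun g => PresentedGroup.generated_by rels (wsub t) h g

variable {s}

theorem wl_le (l : List (ι × Bool)) : wl s (wev s l) ≤ l.length := Nat.sInf_le ⟨l, rfl, rfl⟩

theorem wl_spec (hs : Gens s) (g : G) : ∃ l, l.length = wl s g ∧ wev s l = g := by
  obtain ⟨l, hl⟩ := hs g
  exact Nat.sInf_mem (s := {m : ℕ | ∃ l : List (ι × Bool), l.length = m ∧ wev s l = g})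
    ⟨_, l, rfl, hl⟩

theorem wl_mul (hs : Gens s) (g h : G) : wl s (g * h) ≤ wl s g + wl s h := by
  obtain ⟨l, h1, h2⟩ := wl_spec hs g
  obtain ⟨l', h3, h4⟩ := wl_spec hs h
  have := wl_le (s := s) (l ++ l')
  rwa [wev_append, h2, h4, List.length_append, h1, h3] at this

theorem wl_gen (hs : Gens s) (i : ι) (g : G) : wl s (s i * g) ≤ wl s g + 1 := by
  obtain ⟨l, h1, h2⟩ := wl_spec hs g
  have := wl_le (s := s) ((i, true) :: l)
  rwa [wev_cons, h2, List.length_cons, h1] at this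

theorem wl_desc (hs : Gens s) {g : G} (hg : g ≠ 1) :
    ∃ e : ι × Bool, wl s ((lv s e)⁻¹ * g) < wl s g := by
  obtain ⟨l, h1, h2⟩ := wl_spec hs g
  rcases l with _ | ⟨e, l⟩
  · exact absurd h2.symm hg
  · refine ⟨e, ?_⟩
    rw [← h1, ← h2, wev_cons, inv_mul_cancel_left]
    exact Nat.lt_succ_of_le (wl_le l)

end Words

/-- The lattice of Hermitian two by two matrices over the Eisenstein integers. -/
abbrev V : Type := ℤ × ℤ × ℤ × ℤ

/-- The invariant bilinear form. -/
def bt (x y : V) : ℤ := x.1 * y.2.2.2 + x.2.2.2 * y.1 -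
  (2 * x.2.1 * y.2.1 - x.2.1 * y.2.2.1 - x.2.2.1 * y.2.1 + 2 * x.2.2.1 * y.2.2.1)

theorem bt_comm (x y : V) : bt x y = bt y x := by
  simp only [bt]; ring

theorem bt_lc (a b : ℤ) (x y z : V) : bt (a • x + b • y) z = a * bt x z + b * bt y z := by
  simp only [bt, Prod.fst_add, Prod.snd_add, Prod.smul_fst, Prod.smul_snd, smul_eq_mul]; ring

theorem bt_lc' (a b : ℤ) (x y z : V) : bt z (a • x + b • y) = a * bt z x + b * bt z y := by
  rw [bt_comm, bt_lc, bt_comm x, bt_comm y]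

theorem bt_smul (a : ℤ) (x z : V) : bt z (a • x) = a * bt z x := by
  simp only [bt, Prod.smul_fst, Prod.smul_snd, smul_eq_mul]; ring

theorem bt_neg (x z : V) : bt z (-x) = -bt z x := by
  simp only [bt, Prod.fst_neg, Prod.snd_neg]; ring

theorem rcs (x y : V) (hy : 0 < bt y y) : bt x x * bt y y ≤ bt x y ^ 2 := by
  have h0 : ∀ w : V, w.1 = 0 → bt w w ≤ 0 := fun w h => by
    simp only [bt, h]
    nlinarith [sq_nonneg (w.2.1 - w.2.2.1), sq_nonneg w.2.1, sq_nonneg w.2.2.1]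
  have h1 : y.1 ≠ 0 := fun h => absurd (h0 y h) (not_le.2 hy)
  have h2 := h0 (y.1 • x + (-x.1) • y) (by simp; ring)
  rw [bt_lc, bt_lc', bt_lc', bt_comm y x] at h2
  have h3 : 0 < y.1 ^ 2 := by positivity
  by_contra h4
  have h5 := mul_pos h3 (sub_pos.2 (not_le.1 h4))
  nlinarith [sq_nonneg (x.1 * bt y y - y.1 * bt x y), mul_nonneg hy.le (neg_nonneg.2 h2)]

/-- The base point. -/
def pO : V := (1, 0, 0, 2)

/-- The normal vector of the invariant plane. -/
def eO : V := (1, 0, 0, -2)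

/-- The cusp. -/
def nO : V := (1, 0, 0, 0)

/-- The forward cone. -/
def Fw (x : V) : Prop := 0 ≤ bt x x ∧ 0 < bt x pO

theorem fw_key {x y : V} : bt y pO ^ 2 * bt x x + bt x pO ^ 2 * bt y y ≤
    2 * (bt x pO * bt y pO) * bt x y := by
  have h := rcs (bt y pO • x + (-bt x pO) • y) pO (by decide)
  rw [bt_lc, bt_lc', bt_lc', bt_lc, bt_comm y x, show bt pO pO = 4 by decide] at h
  nlinarith

theorem fw_nonneg {x y : V} (hx : Fw x) (hy : Fw y) : 0 ≤ bt x y := by
  have h := fw_key (x := x) (y := y)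
  have h1 := mul_pos hx.2 hy.2
  have h2 := mul_nonneg (sq_nonneg (bt y pO)) hx.1
  have h3 := mul_nonneg (sq_nonneg (bt x pO)) hy.1
  by_contra h4
  nlinarith [mul_pos h1 (neg_pos.2 (not_le.1 h4))]

theorem fw_pos {x y : V} (hx : Fw x) (hy : Fw y) (h0 : 0 < bt y y) : 0 < bt x y := by
  have h := fw_key (x := x) (y := y)
  have h1 := mul_pos hx.2 hy.2
  have h2 := mul_nonneg (sq_nonneg (bt y pO)) hx.1
  have h3 := mul_pos (pow_pos hx.2 2) h0
  by_contra h4
  nlinarith [mul_nonneg h1.le (neg_nonneg.2 (not_lt.1 h4))]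

theorem fw_tri {x y z : V} (hx : Fw x) (hy : Fw y) (hz : Fw z) (h0 : 0 < bt y y) :
    bt x z * bt y y ≤ 2 * (bt x y * bt z y) := by
  have h := rcs (bt z y • x + bt x y • z) y h0
  rw [bt_lc, bt_lc', bt_lc', bt_lc, bt_comm z x] at h
  have h1 := mul_pos (fw_pos hx hy h0) (fw_pos hz hy h0)
  have h2 := mul_nonneg (mul_nonneg (sq_nonneg (bt z y)) hx.1) h0.le
  have h3 := mul_nonneg (mul_nonneg (sq_nonneg (bt x y)) hz.1) h0.le
  by_contra h4
  nlinarith [mul_pos h1 (sub_pos.2 (not_le.1 h4))]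

theorem aniso (N : ℕ) : ∀ A u v : ℤ, A.natAbs ≤ N → u ^ 2 - u * v + v ^ 2 = 2 * A ^ 2 → A = 0 := by
  induction N with
  | zero => intro A u v h _; omega
  | succ N ih =>
    intro A u v h e
    obtain ⟨u, rfl | rfl⟩ := Int.even_or_odd' u <;> obtain ⟨v, rfl | rfl⟩ := Int.even_or_odd' v
    · obtain ⟨A, rfl | rfl⟩ := Int.even_or_odd' A
      · by_contra h0
        exact h0 (by rw [ih A u v (by omega) (by linarith), mul_zero])
      · have : 2 * (u ^ 2 - u * v + v ^ 2 - 2 * A ^ 2 - 2 * A) = 1 := by linarith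
        omega
    · have : 2 * (A ^ 2 - 2 * u ^ 2 + 2 * u * v + u - 2 * v ^ 2 - 2 * v) = 1 := by linarith
      omega
    · have : 2 * (A ^ 2 - 2 * u ^ 2 + 2 * u * v + v - 2 * v ^ 2 - 2 * u) = 1 := by linarith
      omega
    · have : 2 * (A ^ 2 - 2 * u ^ 2 + 2 * u * v - 2 * v ^ 2 - u - v) = 1 := by linarith
      omega

theorem null_ne {x : V} (hx : Fw x) (h0 : bt x x = 0) : bt x eO ≠ 0 := by
  obtain ⟨A, u, v, C⟩ := x
  intro h
  have h1 := hx.2
  simp only [bt, eO, pO] at h h0 h1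
  have h2 : C = 2 * A := by omega
  subst h2
  have := aniso _ A u v le_rfl (by linarith)
  omega

/-- The action of the generators and of their inverses. -/
def gen (e : Fin 3 × Bool) (x : V) : V :=
  match e with
  | (0, true) => (x.1 - x.2.1 + 2 * x.2.2.1 + x.2.2.2, -x.2.2.1 - x.2.2.2, x.1 + x.2.2.1,
      x.1 + x.2.1 + x.2.2.1 + x.2.2.2)
  | (0, false) => (x.1 + 2 * x.2.1 - x.2.2.1 + x.2.2.2, -x.1 - x.2.1 + x.2.2.1,
      -x.1 - 2 * x.2.1 + 2 * x.2.2.1 - x.2.2.2, x.1 + x.2.1 - 2 * x.2.2.1 + x.2.2.2)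
  | (1, true) => (3 * x.1 - 3 * x.2.1 + 3 * x.2.2.1 + x.2.2.2, -x.1 + x.2.1,
      -2 * x.1 + x.2.1 - x.2.2.1, x.1)
  | (1, false) => (x.2.2.2, x.2.1 + x.2.2.2, x.2.1 - x.2.2.1 - x.2.2.2,
      x.1 + 3 * x.2.2.1 + 3 * x.2.2.2)
  | (2, true) => (x.1 + 2 * x.2.1 - x.2.2.1 + x.2.2.2, x.2.1 + x.2.2.2, x.2.2.1, x.2.2.2)
  | (2, false) => (x.1 - 2 * x.2.1 + x.2.2.1 + x.2.2.2, x.2.1 - x.2.2.2, x.2.2.1, x.2.2.2)

theorem gen_inv (e : Fin 3 × Bool) (x : V) : gen (e.1, !e.2) (gen e x) = x := by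
  obtain ⟨i, b⟩ := e
  fin_cases i <;> cases b <;> refine Prod.ext ?_ (Prod.ext ?_ (Prod.ext ?_ ?_)) <;>
    simp only [gen, Bool.not_true, Bool.not_false, Fin.zero_eta, Fin.mk_one, Fin.reduceFinMk] <;>
    omega

theorem gen_bt (e : Fin 3 × Bool) (x y : V) : bt (gen e x) (gen e y) = bt x y := by
  obtain ⟨i, b⟩ := e
  fin_cases i <;> cases b <;>
    simp only [gen, bt] <;> ring

theorem gen_fw (e : Fin 3 × Bool) {x : V} (hx : Fw x) : Fw (gen e x) := by
  have h1 : ∀ e : Fin 3 × Bool, 0 < bt (gen e pO) pO := by decide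
  refine ⟨by rw [gen_bt]; exact hx.1, ?_⟩
  rw [← gen_bt (e.1, !e.2), gen_inv]
  have h2 : 0 < bt (gen (e.1, !e.2) pO) (gen (e.1, !e.2) pO) := by rw [gen_bt]; decide
  exact fw_pos hx ⟨h2.le, h1 _⟩ h2

/-- The generators as permutations. -/
def genP (i : Fin 3) : Equiv.Perm V :=
  ⟨gen (i, true), gen (i, false), gen_inv (i, true), gen_inv (i, false)⟩

/-- The representation. -/
def R : G8 →* Equiv.Perm V :=
  PresentedGroup.toGroup (f := genP) (by
    intro r hr
    rcases hr with rfl | rfl <;> simp only [map_mul, map_inv, FreeGroup.lift_apply_of] <;>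
      rw [mul_inv_eq_one, mul_inv_eq_iff_eq_mul] <;> ext x <;>
      simp only [Equiv.Perm.mul_apply, genP, Equiv.coe_fn_mk, gen] <;> omega)

/-- The standard generators of the figure-eight group. -/
def g8 : Fin 3 → G8 := fun i => PresentedGroup.of i

/-- The action of a word. -/
def actW (l : List (Fin 3 × Bool)) (x : V) : V := l.foldr gen x

theorem R_lv (e : Fin 3 × Bool) (x : V) : R (lv g8 e) x = gen e x := by
  have h : ∀ i, R (g8 i) = genP i := fun i => PresentedGroup.toGroup.of _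
  rcases e with ⟨i, _ | _⟩
  · simp only [lv, Bool.false_eq_true, if_false, map_inv, h]; rfl
  · simp only [lv, if_true, h]; rfl

theorem R_wev (l : List (Fin 3 × Bool)) (x : V) : R (wev g8 l) x = actW l x := by
  induction l with
  | nil => simp [wev_nil, actW]
  | cons e l ih => rw [wev_cons, map_mul, Equiv.Perm.mul_apply, ih, R_lv]; rfl

theorem g8_gens : Gens g8 := gens_of g8 (mem_wsub g8)

theorem R_bt (g : G8) (x y : V) : bt (R g x) (R g y) = bt x y := by
  obtain ⟨l, rfl⟩ := g8_gens g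
  rw [R_wev, R_wev]
  induction l with
  | nil => rfl
  | cons e l ih => exact (gen_bt e _ _).trans ih

theorem R_fw (g : G8) {x : V} (hx : Fw x) : Fw (R g x) := by
  obtain ⟨l, rfl⟩ := g8_gens g
  rw [R_wev]
  induction l with
  | nil => exact hx
  | cons e l ih => exact gen_fw e ih

end Pool.Agent.E5f.Ar
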