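import Pool.Agent.E5f.ArithMainAuxA

/-! A twelve-sided polygon with even corners: the sign theorem, and growth by descent. -/

set_option autoImplicit false

namespace Pool.Agent.E5f.Ar

/-- The step of the index when one turns around a vertex. -/
def stp (ε : Bool) : Fin 12 := if ε = true then 5 else 7

/-- The neighbouring side. -/
def nb (ε : Bool) : Fin 12 := if ε = true then 1 else 11

/-- The word of `k` steps around a vertex. -/
def uw {G : Type} [Group G] (s : Fin 12 → G) (ε : Bool) : ℕ → Fin 12 → G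
  | 0, _ => 1
  | k + 1, m => s m * uw s ε k (m + stp ε)

/-- The normal vectors of the lines through a vertex. -/
def ww (act : Fin 12 → V → V) (n : Fin 12 → V) (ε : Bool) : ℕ → Fin 12 → V
  | 0, m => n m
  | k + 1, m => act m (ww act n ε k (m + stp ε))

/-- `z` is a nonnegative combination of `x` and `y`. -/
def PosC (x y z : V) : Prop :=
  0 < bt x x * bt y y - bt x y ^ 2 ∧ 0 ≤ bt z x * bt y y - bt z y * bt x y ∧
    0 ≤ bt z y * bt x x - bt z x * bt x y ∧
    0 < (bt z x * bt y y - bt z y * bt x y) + (bt z y * bt x x - bt z x * bt x y) ∧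
    (bt x x * bt y y - bt x y ^ 2) • z =
      (bt z x * bt y y - bt z y * bt x y) • x + (bt z y * bt x x - bt z x * bt x y) • y

instance decPosC (x y z : V) : Decidable (PosC x y z) := by unfold PosC; infer_instance

theorem PosC.neg {x y z w : V} (h : PosC x y z) (hx : bt w x < 0) (hy : bt w y < 0) :
    bt w z < 0 := by
  obtain ⟨h1, h2, h3, h4, h5⟩ := h
  have h6 := congrArg (bt w) h5
  rw [bt_smul, bt_lc'] at h6
  generalize bt x x * bt y y - bt x y ^ 2 = c at *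
  generalize bt z x * bt y y - bt z y * bt x y = a at *
  generalize bt z y * bt x x - bt z x * bt x y = b at *
  by_contra h7
  nlinarith [mul_nonneg h1.le (not_lt.1 h7), mul_nonneg h2 (Int.le_sub_one_of_lt (neg_pos.2 hx)),
    mul_nonneg h3 (Int.le_sub_one_of_lt (neg_pos.2 hy))]

/-- The half-planes beyond the lines with normal vectors `x`, `y` are disjoint. -/
def Disj (x y : V) : Prop :=
  bt x x < 0 ∧ 0 < bt x y ∧ bt x x * bt y y < bt x y ^ 2 ∧ bt x pO < 0 ∧ bt y pO < 0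

instance decDisj (x y : V) : Decidable (Disj x y) := by unfold Disj; infer_instance

theorem Disj.neg {x y w : V} (h : Disj x y) (hw : Fw w) (hy : 0 < bt w y) : bt w x < 0 := by
  obtain ⟨h1, h2, h3, h4, h5⟩ := h
  have h6 : 0 < bt ((-bt x y) • x + bt x x • y) ((-bt x y) • x + bt x x • y) := by
    rw [bt_lc, bt_lc', bt_lc', bt_comm y x]
    nlinarith [mul_pos (neg_pos.2 h1) (sub_pos.2 h3)]
  have h7 := fw_pos hw ⟨h6.le, by
    rw [bt_lc]
    nlinarith [mul_pos h2 (neg_pos.2 h4), mul_pos (neg_pos.2 h1) (neg_pos.2 h5)]⟩ h6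
  rw [bt_lc'] at h7
  by_contra h8
  nlinarith [mul_nonneg h2.le (not_lt.1 h8), mul_pos (neg_pos.2 h1) hy]

/-- The finite conditions on the polygon. -/
def Poly (act : Fin 12 → V → V) (n : Fin 12 → V) : Prop :=
  (∀ j, act j (n (j + 6)) = -n j) ∧ (∀ i, bt pO (n i) < 0) ∧
    (∀ i j, i = j ∨ (∃ ε, i = j + nb ε) ∨ Disj (n i) (n j)) ∧
    (∀ ε m, ww act n ε 5 m = n (m + nb ε)) ∧
    ∀ ε m, ∀ k : Fin 6, PosC (n m) (n (m + nb ε)) (ww act n ε k m)

section Sign
variable {G : Type} [Group G] {s : Fin 12 → G}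

theorem uw_len (hs : Gens s) (ε : Bool) (k : ℕ) (m : Fin 12) (g : G) :
    wl s (uw s ε k m * g) ≤ wl s g + k := by
  induction k generalizing m with
  | zero => simp [uw]
  | succ k ih =>
    rw [uw, mul_assoc]
    exact (wl_gen hs _ _).trans (Nat.succ_le_succ (ih _))

theorem rel_all (h6 : ∀ i, s (i + 6) = (s i)⁻¹)
    (h0 : s 0 * s 5 * s 10 * s 3 * s 8 * s 1 = s 1 * s 8 * s 3 * s 10 * s 5 * s 0) (ε : Bool)
    (m : Fin 12) : uw s ε 6 m = uw s (!ε) 6 (m + nb ε) := by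
  let Q : Fin 12 → Prop := fun m => s m * s (m + 5) * s (m + 10) * s (m + 3) * s (m + 8) *
    s (m + 1) = s (m + 1) * s (m + 8) * s (m + 3) * s (m + 10) * s (m + 5) * s m
  have step : ∀ m, Q m → Q (m + 5) := fun m h => by
    simp only [Q, add_assoc, Fin.reduceAdd, h6] at h ⊢
    calc _ = (s m)⁻¹ * (s m * s (m + 5) * s (m + 10) * s (m + 3) * s (m + 8) * s (m + 1)) *
          (s m)⁻¹ := by group
      _ = _ := by rw [h]; group
  have all : ∀ m, Q m := by
    have q0 : Q 0 := h0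
    have q5 : Q 5 := step 0 q0
    have q10 : Q 10 := step 5 q5
    have q3 : Q 3 := step 10 q10
    have q8 : Q 8 := step 3 q3
    have q1 : Q 1 := step 8 q8
    have q6 : Q 6 := step 1 q1
    have q11 : Q 11 := step 6 q6
    have q4 : Q 4 := step 11 q11
    have q9 : Q 9 := step 4 q4
    have q2 : Q 2 := step 9 q9
    have q7 : Q 7 := step 2 q2
    intro m
    fin_cases m
    exacts [q0, q1, q2, q3, q4, q5, q6, q7, q8, q9, q10, q11]
  cases ε
  · have := all (m + 11)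
    simp only [Q, add_assoc, Fin.reduceAdd, add_zero] at this
    simp only [uw, stp, nb, add_assoc, Fin.reduceAdd, Bool.not_false, if_true, Bool.false_eq_true,
      if_false, mul_one, add_zero, ← mul_assoc]
    exact this.symm
  · have := all m
    simp only [uw, stp, nb, add_assoc, Fin.reduceAdd, Bool.not_true, if_true, Bool.false_eq_true,
      if_false, mul_one, add_zero, ← mul_assoc]
    exact this

theorem sign (hs : Gens s) (h6 : ∀ i, s (i + 6) = (s i)⁻¹)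
    (h0 : s 0 * s 5 * s 10 * s 3 * s 8 * s 1 = s 1 * s 8 * s 3 * s 10 * s 5 * s 0)
    (ρ : G →* Equiv.Perm V) (hb : ∀ g x y, bt (ρ g x) (ρ g y) = bt x y)
    (hf : ∀ g, Fw (ρ g pO)) {act : Fin 12 → V → V} (ha : ∀ i x, ρ (s i) x = act i x)
    {n : Fin 12 → V} (hP : Poly act n) (N : ℕ) : ∀ g, wl s g < N →
      (∀ i, wl s g ≤ wl s ((s i)⁻¹ * g) → bt (ρ g pO) (n i) < 0) ∧
      ∀ ε (k : ℕ) m, k ≤ 5 → wl s g < wl s ((uw s ε (k + 1) m)⁻¹ * g) + (k + 1) →
        wl s g ≤ wl s ((s (m + nb ε))⁻¹ * g) → bt (ρ g pO) (ww act n ε k m) < 0 := by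
  obtain ⟨p1, p2, p3, p4, p5⟩ := hP
  have i6 : ∀ ε (m : Fin 12), m + stp ε + nb ε = m + 6 := by decide
  have mv : ∀ j g y, bt (ρ g pO) (act j y) = bt (ρ ((s j)⁻¹ * g) pO) y := fun j g y => by
    rw [← ha, ← hb (s j) (ρ ((s j)⁻¹ * g) pO), ← Equiv.Perm.mul_apply, ← map_mul,
      mul_inv_cancel_left]
  induction N with
  | zero => exact fun g h => absurd h (Nat.not_lt_zero _)
  | succ N ih =>
    intro g hg
    have turn : ∀ ε (k : ℕ) j, k ≤ 4 → wl s ((s j)⁻¹ * g) < wl s g →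
        wl s g < wl s ((uw s ε (k + 2) j)⁻¹ * g) + (k + 2) →
        bt (ρ g pO) (ww act n ε (k + 1) j) < 0 := by
      intro ε k j hk h1 h2
      have h3 := wl_gen hs j ((s j)⁻¹ * g)
      rw [mul_inv_cancel_left] at h3
      rw [ww, mv]
      refine (ih _ (by omega)).2 ε k _ (by omega) ?_ ?_
      · rw [uw, mul_inv_rev, mul_assoc] at h2
        omega
      · rw [i6, h6, inv_inv, mul_inv_cancel_left]
        exact h1.le
    have A : ∀ i, wl s g ≤ wl s ((s i)⁻¹ * g) → bt (ρ g pO) (n i) < 0 := by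
      intro i hi
      rcases eq_or_ne g 1 with rfl | h1
      · rw [map_one]
        exact p2 i
      obtain ⟨j, hj⟩ : ∃ j, wl s ((s j)⁻¹ * g) < wl s g := by
        obtain ⟨⟨j, _ | _⟩, hj⟩ := wl_desc hs h1
        · exact ⟨j + 6, by rw [h6]; exact hj⟩
        · exact ⟨j, hj⟩
      rcases p3 i j with rfl | ⟨ε, rfl⟩ | h2
      · omega
      · rw [← p4]
        refine turn ε 4 j le_rfl hj ?_
        have h3 := uw_len hs (!ε) 5 (j + nb ε + stp (!ε)) ((uw s ε 6 j)⁻¹ * g)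
        have h4 : uw s ε 6 j = s (j + nb ε) * uw s (!ε) 5 (j + nb ε + stp (!ε)) :=
          rel_all h6 h0 ε j
        rw [eq_inv_mul_iff_mul_eq.2 h4.symm, mul_assoc, mul_inv_cancel_left] at h3
        change wl s g < wl s ((uw s ε 6 j)⁻¹ * g) + 6
        omega
      · refine h2.neg (hf g) ?_
        have h3 := (ih ((s j)⁻¹ * g) (by omega)).1 (j + 6) (by
          rw [h6, inv_inv, mul_inv_cancel_left]
          exact hj.le)
        rw [← mv, p1, bt_neg] at h3
        omega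
    refine ⟨A, fun ε k m hk h1 h2 => ?_⟩
    by_cases h3 : wl s g ≤ wl s ((s m)⁻¹ * g)
    · exact (p5 ε m ⟨k, by omega⟩).neg (A _ h3) (A _ h2)
    · rcases k with _ | k
      · rw [uw, uw, mul_one] at h1
        omega
      · exact turn ε k m (by omega) (not_le.1 h3) h1

theorem free_of (hs : Gens s) (h6 : ∀ i, s (i + 6) = (s i)⁻¹)
    (h0 : s 0 * s 5 * s 10 * s 3 * s 8 * s 1 = s 1 * s 8 * s 3 * s 10 * s 5 * s 0)
    (ρ : G →* Equiv.Perm V) (hb : ∀ g x y, bt (ρ g x) (ρ g y) = bt x y)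
    (hf : ∀ g, Fw (ρ g pO)) {act : Fin 12 → V → V} (ha : ∀ i x, ρ (s i) x = act i x)
    {n : Fin 12 → V} (hP : Poly act n) : Function.Injective fun g => ρ g pO := by
  have key : ∀ g, ρ g pO = pO → g = 1 := by
    intro g hg
    by_contra h1
    obtain ⟨j, hj⟩ : ∃ j, wl s ((s j)⁻¹ * g) < wl s g := by
      obtain ⟨⟨j, _ | _⟩, hj⟩ := wl_desc hs h1
      · exact ⟨j + 6, by rw [h6]; exact hj⟩
      · exact ⟨j, hj⟩
    have h3 := (sign hs h6 h0 ρ hb hf ha hP _ ((s j)⁻¹ * g) hj).1 (j + 6) (by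
      rw [h6, inv_inv, mul_inv_cancel_left]
      exact hj.le)
    rw [← hb (s j), ← Equiv.Perm.mul_apply, ← map_mul, mul_inv_cancel_left, hg, ha, hP.1,
      bt_neg] at h3
    have := hP.2.1 j
    omega
  intro g g' h
  refine (inv_mul_eq_one.1 (key _ ?_)).symm
  rw [map_mul, Equiv.Perm.mul_apply, show ρ g pO = ρ g' pO from h, ← Equiv.Perm.mul_apply,
    ← map_mul, inv_mul_cancel, map_one, Equiv.Perm.one_apply]

end Sign

theorem low_of {G ι : Type} [Group G] {s : ι → G} (hs : Gens s) (f : G → ℤ) (hf : ∀ g, 1 ≤ f g)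
    (C : ℤ) (hfin : {g | f g ≤ C}.Finite) (d : Fin 16 → G)
    (hd : ∀ g, C < f g → ∃ k, 20 * f ((d k)⁻¹ * g) ≤ 19 * f g) :
    ∃ K : ℝ, 0 ≤ K ∧ ∀ g, (wl s g : ℝ) ≤ K * Real.log (f g) + K := by
  obtain ⟨W, hW⟩ := (hfin.image (wl s)).bddAbove
  obtain ⟨B, hB⟩ := (Set.finite_range fun k => wl s (d k)).bddAbove
  have hc : 0 < Real.log (20 / 19) := Real.log_pos (by norm_num)
  have hK : (0 : ℝ) ≤ W + B / Real.log (20 / 19) := by positivity
  refine ⟨_, hK, fun g => ?_⟩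
  induction hN : (f g).toNat using Nat.strong_induction_on generalizing g with
  | _ N ih =>
    have h1 : (1 : ℝ) ≤ f g := by exact_mod_cast hf g
    have h2 := mul_nonneg hK (Real.log_nonneg h1)
    have h3 : (0 : ℝ) ≤ B / Real.log (20 / 19) := by positivity
    by_cases h : f g ≤ C
    · have : (wl s g : ℝ) ≤ W := by exact_mod_cast hW ⟨g, h, rfl⟩
      linarith
    obtain ⟨k, hk⟩ := hd g (not_le.1 h)
    have h4 := hf ((d k)⁻¹ * g)
    have h5 := ih _ (by have := hf g; omega) ((d k)⁻¹ * g) rfl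
    have h6 := wl_mul hs (d k) ((d k)⁻¹ * g)
    rw [mul_inv_cancel_left] at h6
    have h7 : (wl s g : ℝ) ≤ B + wl s ((d k)⁻¹ * g) := by
      exact_mod_cast h6.trans (Nat.add_le_add_right (hB ⟨k, rfl⟩) _)
    have h8 : (0 : ℝ) < f ((d k)⁻¹ * g) := by exact_mod_cast h4
    have h9 : Real.log (20 / 19) + Real.log (f ((d k)⁻¹ * g)) ≤ Real.log (f g) := by
      rw [← Real.log_mul (by norm_num) h8.ne']
      refine Real.log_le_log (by positivity) ?_
      have : (20 : ℝ) * f ((d k)⁻¹ * g) ≤ 19 * f g := by exact_mod_cast hk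
      linarith
    have h10 := mul_le_mul_of_nonneg_left h9 hK
    have h11 : B / Real.log (20 / 19) * Real.log (20 / 19) = B := div_mul_cancel₀ _ hc.ne'
    have h12 : (0 : ℝ) ≤ W * Real.log (20 / 19) := by positivity
    nlinarith

/-- The conditions on one sector. -/
def Sect (P : V) (z z' : ℤ × ℤ) : Prop :=
  P.2.2.2 = 2 * P.1 ∧ 1 ≤ P.1 ∧ 0 < z.1 * z'.2 - z.2 * z'.1 ∧
    (80 * P.1 - 76) * 200 ≤ 20 * (2 * P.2.1 - P.2.2.1) * z.1 + 20 * (2 * P.2.2.1 - P.2.1) * z.2 ∧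
    (80 * P.1 - 76) * 200 ≤ 20 * (2 * P.2.1 - P.2.2.1) * z'.1 + 20 * (2 * P.2.2.1 - P.2.1) * z'.2 ∧
    z.1 ^ 2 - z.1 * z.2 + z.2 ^ 2 ≤ 79933 ∧ z'.1 ^ 2 - z'.1 * z'.2 + z'.2 ^ 2 ≤ 79933

instance decSect (P : V) (z z' : ℤ × ℤ) : Decidable (Sect P z z') := by
  unfold Sect; infer_instance

theorem Sect.bound {P : V} {z z' : ℤ × ℤ} (h : Sect P z z') {t u v : ℤ} (ht : 0 < t)
    (h1 : 0 ≤ z.1 * v - z.2 * u) (h2 : z'.1 * v - z'.2 * u ≤ 0)
    (h3 : 19 * (4 * t) < 20 * bt (t, u, v, 2 * t) P) (h4 : u ^ 2 - u * v + v ^ 2 = 2 * t ^ 2 - 2) :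
    t ≤ 35 := by
  obtain ⟨a, b, c, d⟩ := P
  obtain ⟨p, q⟩ := z
  obtain ⟨p', q'⟩ := z'
  obtain ⟨k0, k1, k2, k3, k4, k5, k6⟩ := h
  simp only [bt] at *
  subst k0
  obtain ⟨l, hl⟩ : ∃ l, l = q' * u - p' * v := ⟨_, rfl⟩
  obtain ⟨m, hm⟩ : ∃ m, m = p * v - q * u := ⟨_, rfl⟩
  obtain ⟨D, hD⟩ : ∃ D, D = p * q' - q * p' := ⟨_, rfl⟩
  have l0 : 0 ≤ l := by omega
  have m0 : 0 ≤ m := by omega
  have D0 : 0 < D := by omega
  have e1 : D * u = l * p + m * p' := by rw [hl, hm, hD]; ring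
  have e2 : D * v = l * q + m * q' := by rw [hl, hm, hD]; ring
  have a0 : 0 < 80 * a - 76 := by omega
  have f1 : (80 * a - 76) * (200 * (l + m)) ≤ (80 * a - 76) * (D * t) := by
    have g1 := mul_le_mul_of_nonneg_left k3 l0
    have g2 := mul_le_mul_of_nonneg_left k4 m0
    have g3 : 20 * (2 * b - c) * u + 20 * (2 * c - b) * v ≤ (80 * a - 76) * t := by linarith
    have g4 := mul_le_mul_of_nonneg_left g3 D0.le
    have g5 : D * (20 * (2 * b - c) * u + 20 * (2 * c - b) * v) =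
        20 * (2 * b - c) * (D * u) + 20 * (2 * c - b) * (D * v) := by ring
    rw [g5, e1, e2] at g4
    linarith
  have f2 : 200 * (l + m) ≤ D * t := le_of_mul_le_mul_left f1 a0
  have f3 : D ^ 2 * (2 * t ^ 2 - 2) ≤ (l + m) ^ 2 * 79933 := by
    have g1 : D ^ 2 * (u ^ 2 - u * v + v ^ 2) = (D * u) ^ 2 - (D * u) * (D * v) + (D * v) ^ 2 := by
      ring
    rw [← h4, g1, e1, e2]
    have g2 := mul_le_mul_of_nonneg_left k5 (mul_nonneg l0 (add_nonneg l0 m0))
    have g3 := mul_le_mul_of_nonneg_left k6 (mul_nonneg m0 (add_nonneg l0 m0))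
    have g4 : 0 ≤ (p - p') ^ 2 - (p - p') * (q - q') + (q - q') ^ 2 := by
      nlinarith [sq_nonneg (p - p' - (q - q')), sq_nonneg (p - p'), sq_nonneg (q - q')]
    nlinarith [mul_nonneg (mul_nonneg l0 m0) g4]
  have f4 : (200 * (l + m)) ^ 2 ≤ (D * t) ^ 2 := pow_le_pow_left₀ (by positivity) f2 2
  have f5 : D ^ 2 * (67 * t ^ 2) ≤ D ^ 2 * 80000 := by nlinarith
  have f6 := le_of_mul_le_mul_left f5 (by positivity)
  nlinarith

end Pool.Agent.E5f.Ar
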