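import Pool.Agent.E5f.ArithMainAuxB

/-! The surface group of genus three in the figure-eight group. -/

set_option autoImplicit false

namespace Pool.Agent.E5f.Ar

/-- Words in the generators of the figure-eight group. -/
abbrev Wd : Type := List (Fin 3 × Bool)

/-- Put a letter in front, with cancellation. -/
def cr (e : Fin 3 × Bool) : Wd → Wd
  | [] => [e]
  | e' :: l => if e' = (e.1, !e.2) then l else e :: e' :: l

theorem wev_cr (e : Fin 3 × Bool) (l : Wd) : wev g8 (cr e l) = lv g8 e * wev g8 l := by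
  rcases l with _ | ⟨e', l⟩
  · exact wev_cons _ _ _
  · rw [cr]
    split_ifs with h
    · rw [h, wev_cons, lv_not, mul_inv_cancel_left]
    · exact wev_cons _ _ _

/-- Conjugation of a letter by the third generator or by its inverse. -/
def al (b : Bool) (e : Fin 3 × Bool) : Wd :=
  match b, e with
  | true, (0, true) => [(0, true), (1, true)]
  | true, (0, false) => [(1, false), (0, false)]
  | true, (1, true) => [(1, true), (0, true), (1, true)]
  | true, (1, false) => [(1, false), (0, false), (1, false)]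
  | false, (0, true) => [(0, true), (0, true), (1, false)]
  | false, (0, false) => [(1, true), (0, false), (0, false)]
  | false, (1, true) => [(1, true), (0, false)]
  | false, (1, false) => [(0, true), (1, false)]
  | _, (2, c) => [(2, c)]

theorem rel_a : g8 2 * g8 0 * (g8 2)⁻¹ = g8 0 * g8 1 := by
  have := PresentedGroup.one_of_mem (rels := rel8) (Or.inl rfl)
  simp only [map_mul, map_inv] at this
  exact mul_inv_eq_one.1 this

theorem rel_b : g8 2 * g8 1 * (g8 2)⁻¹ = g8 1 * g8 0 * g8 1 := by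
  have := PresentedGroup.one_of_mem (rels := rel8) (Or.inr rfl)
  simp only [map_mul, map_inv] at this
  exact mul_inv_eq_one.1 this

theorem wev_al (b : Bool) (e : Fin 3 × Bool) :
    wev g8 (al b e) = lv g8 (2, b) * lv g8 e * (lv g8 (2, b))⁻¹ := by
  have ha := rel_a
  have hb := rel_b
  have hb' : g8 1 * (g8 0)⁻¹ = (g8 2)⁻¹ * g8 1 * g8 2 := by
    calc _ = (g8 2)⁻¹ * ((g8 2 * g8 1 * (g8 2)⁻¹) * (g8 2 * g8 0 * (g8 2)⁻¹)⁻¹) * g8 2 := by group
      _ = _ := by rw [ha, hb]; group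
  have ha' : g8 0 * g8 0 * (g8 1)⁻¹ = (g8 2)⁻¹ * g8 0 * g8 2 := by
    calc _ = (g8 2)⁻¹ * ((g8 2 * g8 0 * (g8 2)⁻¹) * (g8 2 * g8 0 * (g8 2)⁻¹) *
          (g8 2 * g8 1 * (g8 2)⁻¹)⁻¹) * g8 2 := by group
      _ = _ := by rw [ha, hb]; group
  have inv : ∀ {x y t : G8}, x = t * y * t⁻¹ → x⁻¹ = t * y⁻¹ * t⁻¹ := fun h => by rw [h]; group
  obtain ⟨i, c⟩ := e
  fin_cases i <;> cases b <;> cases c <;>
    simp only [al, wev_cons, wev_nil, lv, if_true, Bool.false_eq_true, if_false, mul_one,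
      Fin.zero_eta, Fin.mk_one, Fin.reduceFinMk, ← mul_assoc]
  · exact Eq.trans (by group) (inv (ha'.trans (by rw [inv_inv])))
  · exact ha'.trans (by rw [inv_inv])
  · exact Eq.trans (by group) (inv ha.symm)
  · exact ha.symm
  · exact Eq.trans (by group) (inv (hb'.trans (by rw [inv_inv])))
  · exact hb'.trans (by rw [inv_inv])
  · exact Eq.trans (by group) (inv hb.symm)
  · exact hb.symm
  all_goals group

/-- Conjugation of a word. -/
def sub (b : Bool) (l : Wd) : Wd := l.foldr (fun e acc => (al b e).foldr cr acc) []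

theorem wev_sub (b : Bool) (l : Wd) :
    wev g8 (sub b l) = lv g8 (2, b) * wev g8 l * (lv g8 (2, b))⁻¹ := by
  have h : ∀ l acc : Wd, wev g8 (l.foldr cr acc) = wev g8 l * wev g8 acc := fun l acc => by
    induction l with
    | nil => simp [wev_nil]
    | cons e l ih => rw [List.foldr_cons, wev_cr, ih, wev_cons, mul_assoc]
  induction l with
  | nil => simp [sub, wev_nil]
  | cons e l ih =>
    rw [sub, List.foldr_cons, h, ← sub, ih, wev_al, wev_cons]
    group

/-- Normal form: a word times a power of the third generator. -/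
def nf : Wd → Wd × Wd
  | [] => ([], [])
  | e :: l => if e.1 = 2 then (sub e.2 (nf l).1, cr e (nf l).2) else (cr e (nf l).1, (nf l).2)

theorem wev_nf (l : Wd) : wev g8 l = wev g8 (nf l).1 * wev g8 (nf l).2 := by
  induction l with
  | nil => simp [nf, wev_nil]
  | cons e l ih =>
    rw [wev_cons, ih, nf]
    split_ifs with h
    · obtain ⟨i, c⟩ := e
      obtain rfl : i = 2 := h
      rw [wev_sub, wev_cr]
      group
    · rw [wev_cr, mul_assoc]

def w1 : Wd := [(0, false), (1, true), (2, true), (1, true), (0, true), (2, false), (1, true),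
  (0, false)]
def w2 : Wd := [(0, true), (1, false), (2, true), (1, false), (1, false), (2, true), (2, true),
  (1, true), (0, true)]
def w3 : Wd := [(1, false), (1, false), (2, false), (2, false), (1, true), (2, false), (1, true),
  (0, false)]
def w4 : Wd := [(0, true), (1, false), (0, true), (1, true), (1, true)]
def w5 : Wd := [(0, true), (2, true), (2, true), (2, true), (0, true)]
def w6 : Wd := [(0, false), (1, true), (2, false), (0, false), (0, false), (2, false), (2, false),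
  (0, false)]

theorem rel12 : wev g8 w1 * wev g8 w2 * wev g8 w3 * wev g8 w4 * wev g8 w5 * wev g8 w6 *
    (wev g8 w1)⁻¹ * (wev g8 w2)⁻¹ * (wev g8 w3)⁻¹ * (wev g8 w4)⁻¹ * (wev g8 w5)⁻¹ *
    (wev g8 w6)⁻¹ = 1 := by
  simp only [← wev_winv, ← wev_append]
  rw [wev_nf, show nf (w1 ++ w2 ++ w3 ++ w4 ++ w5 ++ w6 ++ winv w1 ++ winv w2 ++ winv w3 ++
    winv w4 ++ winv w5 ++ winv w6) = ([], []) by decide +kernel]
  exact mul_one _

/-- The images of the standard generators. -/
def img : Fin 3 ⊕ Fin 3 → G8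
  | .inl 0 => wev g8 w1 * wev g8 w2
  | .inr 0 => wev g8 w3 * wev g8 w4 * wev g8 w5 * wev g8 w6 * (wev g8 w1)⁻¹
  | .inl 1 => wev g8 w3 * wev g8 w4
  | .inr 1 => wev g8 w5 * wev g8 w6 * (wev g8 w3)⁻¹
  | .inl 2 => wev g8 w5
  | .inr 2 => wev g8 w6

theorem srel3 {G : Type} [Group G] (φ : FreeGroup (Fin 3 ⊕ Fin 3) →* G) : φ (srel 3) =
    φ (.of (.inl 0)) * φ (.of (.inr 0)) * (φ (.of (.inl 0)))⁻¹ * (φ (.of (.inr 0)))⁻¹ *
    (φ (.of (.inl 1)) * φ (.of (.inr 1)) * (φ (.of (.inl 1)))⁻¹ * (φ (.of (.inr 1)))⁻¹ *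
    (φ (.of (.inl 2)) * φ (.of (.inr 2)) * (φ (.of (.inl 2)))⁻¹ * (φ (.of (.inr 2)))⁻¹)) := by
  simp [srel, List.ofFn_succ]

/-- The embedding. -/
def emb : SG 3 →* G8 :=
  PresentedGroup.toGroup (f := img) (by
    rintro r rfl
    rw [srel3, ← rel12]
    simp only [FreeGroup.lift_apply_of, img]
    group)

theorem emb_of (i : Fin 3 ⊕ Fin 3) : emb (sgen 3 i) = img i := PresentedGroup.toGroup.of _

/-- Twelve elements from six. -/
def mk12 {α : Type} (f : α → α) (a1 a2 a3 a4 a5 a6 : α) : Fin 12 → α :=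
  ![a1, a6, f a5, a4, f a3, a2, f a1, f a6, a5, f a4, a3, f a2]

/-- The side pairings in the surface group. -/
def sp : Fin 12 → SG 3 :=
  mk12 (·⁻¹) ((sgen 3 (.inr 0))⁻¹ * sgen 3 (.inl 1) * sgen 3 (.inl 2) * sgen 3 (.inr 2))
    ((sgen 3 (.inr 2))⁻¹ * (sgen 3 (.inl 2))⁻¹ * (sgen 3 (.inl 1))⁻¹ * sgen 3 (.inr 0) *
      sgen 3 (.inl 0))
    ((sgen 3 (.inr 1))⁻¹ * sgen 3 (.inl 2) * sgen 3 (.inr 2))
    ((sgen 3 (.inr 2))⁻¹ * (sgen 3 (.inl 2))⁻¹ * sgen 3 (.inr 1) * sgen 3 (.inl 1))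
    (sgen 3 (.inl 2)) (sgen 3 (.inr 2))

/-- The side pairings as words. -/
def wd : Fin 12 → Wd := mk12 winv w1 w2 w3 w4 w5 w6

theorem emb_sp (i : Fin 12) : emb (sp i) = wev g8 (wd i) := by
  fin_cases i <;> simp [sp, wd, mk12, emb_of, img, wev_winv, mul_assoc]

theorem sp_six (i : Fin 12) : sp (i + 6) = (sp i)⁻¹ := by
  fin_cases i <;> simp [sp, mk12]

theorem sp_rel : sp 0 * sp 5 * sp 10 * sp 3 * sp 8 * sp 1 =
    sp 1 * sp 8 * sp 3 * sp 10 * sp 5 * sp 0 := by
  have h := PresentedGroup.one_of_mem (rels := {srel 3}) rfl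
  rw [srel3] at h
  refine mul_inv_eq_one.1 (Eq.trans ?_ h)
  change _ = sgen 3 (.inl 0) * sgen 3 (.inr 0) * (sgen 3 (.inl 0))⁻¹ * (sgen 3 (.inr 0))⁻¹ *
    (sgen 3 (.inl 1) * sgen 3 (.inr 1) * (sgen 3 (.inl 1))⁻¹ * (sgen 3 (.inr 1))⁻¹ *
    (sgen 3 (.inl 2) * sgen 3 (.inr 2) * (sgen 3 (.inl 2))⁻¹ * (sgen 3 (.inr 2))⁻¹))
  simp [sp, mk12, mul_assoc]

theorem sp_gens : Gens sp := by
  refine gens_of sp fun a => ?_
  have m := mem_wsub sp
  have e : ∀ {x y : SG 3}, x ∈ wsub sp → x = y → y ∈ wsub sp := fun h e => e ▸ h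
  change sgen 3 a ∈ _
  rcases a with a | a <;> fin_cases a
  · exact e (mul_mem (m 0) (m 5)) (by simp [sp, mk12, mul_assoc])
  · exact e (mul_mem (m 10) (m 3)) (by simp [sp, mk12, mul_assoc])
  · exact m 8
  · exact e (mul_mem (mul_mem (mul_mem (mul_mem (m 10) (m 3)) (m 8)) (m 1)) (m 6))
      (by simp [sp, mk12, mul_assoc])
  · exact e (mul_mem (mul_mem (m 8) (m 1)) (m 4)) (by simp [sp, mk12, mul_assoc])
  · exact m 1

/-- The action of the side pairings. -/
def act (i : Fin 12) (x : V) : V := actW (wd i) x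

/-- The normal vectors of the sides. -/
def nv : Fin 12 → V := ![(-6, 5, 10, -12), (-57, 74, 88, -114), (-15, 26, 16, -30),
  (-21, 32, 4, -42), (-141, 182, -32, -282), (-19, 22, -8, -38), (-18, 19, -10, -36),
  (-111, 94, -88, -222), (-9, -2, -16, -18), (-3, -8, -4, -6), (-27, -14, 32, -54),
  (-5, 2, 8, -10)]

theorem poly : Poly act nv := by
  unfold Poly
  decide +kernel

theorem act_e : ∀ i, act i eO = eO := by decide +kernel

/-- The descent elements. -/
def dw : Fin 16 → List (Fin 12) := ![[9, 4], [9, 4, 11, 3], [8, 1, 6], [8, 1], [8], [7, 2], [3],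
  [2, 7], [2], [1, 8], [0, 7, 2], [11, 4], [10, 3], [10, 5], [9], [9, 5, 10, 3]]

/-- The corners of the descent polygon. -/
def zv : Fin 16 → ℤ × ℤ := ![(325, 162), (250, 304), (212, 321), (109, 321), (54, 304),
  (-163, 162), (-215, 105), (-320, -105), (-325, -163), (-250, -304), (-212, -321), (-109, -321),
  (-54, -304), (162, -163), (215, -105), (320, 105)]

theorem sect : ∀ k, Sect ((dw k).foldr act pO) (zv k) (zv (k + 1)) := by decide +kernel

end Pool.Agent.E5f.Ar
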