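import Pool.Agent.E5f.LsChain

set_option autoImplicit false

namespace Pool.Agent.E5f

open Classical

variable {L κ : Type} [LinearOrder κ]

/-- The product of the generators along a list of labels. -/
def evlLink (w : List L) : W L C2 := ev (w.map (fun l => (l, c2)))

/-- The path of labels attached to a group element and two end labels. -/
noncomputable def dstLink (l m : L) (u : W L C2) : List L :=
  (l :: lab u ++ [m]).destutter (· ≠ ·)

theorem c2_cases_link : ∀ x : C2, x = 1 ∨ x = c2 := by decide

theorem c2_ne_link : c2 ≠ 1 := by decide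

theorem lt_sq_link (l : L) : (lt l c2 : W L C2) * lt l c2 = 1 := by
  rw [← lt_mul, show c2 * c2 = 1 by decide, lt_one]

theorem lt_inv_link (l : L) : (lt l c2 : W L C2)⁻¹ = lt l c2 :=
  inv_eq_of_mul_eq_one_right (lt_sq_link l)

theorem lt_sq_link' (l : L) (u : W L C2) : lt l c2 * (lt l c2 * u) = u := by
  rw [← mul_assoc, lt_sq_link, one_mul]

theorem evl_nil_link : evlLink ([] : List L) = 1 := rfl

theorem evl_cons_link (l : L) (w : List L) : evlLink (l :: w) = lt l c2 * evlLink w := by
  simp [evlLink]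

theorem evl_snoc_link (l : L) (w : List L) : evlLink (w ++ [l]) = evlLink w * lt l c2 := by
  simp [evlLink]

theorem lab_evl_link {w : List L} (h : Rd w) : lab (evlLink w) = w := by
  have h1 : Red (w.map (fun l => (l, c2))) := by
    refine ⟨?_, ?_⟩
    · intro e he
      obtain ⟨l, -, rfl⟩ := List.mem_map.1 he
      exact c2_ne_link
    · rw [List.isChain_map]
      exact h
  unfold lab evlLink
  rw [wd_ev h1, List.map_map]
  simp [Function.comp_def]

theorem rd_lab_link (u : W L C2) : Rd (lab u) := by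
  unfold Rd lab
  rw [List.isChain_map]
  exact (red_wd u).2

theorem evl_lab_link (u : W L C2) : evlLink (lab u) = u := by
  have h : (lab u).map (fun l => (l, c2)) = wd u := by
    unfold lab
    rw [List.map_map]
    conv_rhs => rw [← List.map_id (wd u)]
    apply List.map_congr_left
    intro e he
    have h1 := (red_wd u).1 e he
    have h2 : e.2 = c2 := (c2_cases_link e.2).resolve_left h1
    simp only [Function.comp, id]
    rw [← h2]
  unfold evlLink
  rw [h, ev_wd]

theorem dst_snoc_link (m : L) (w : List L) : ∀ a : L,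
    List.destutter' (· ≠ ·) a (w ++ [m] ++ [m]) = List.destutter' (· ≠ ·) a (w ++ [m]) := by
  induction w with
  | nil =>
    intro a
    by_cases h : a = m
    · subst h
      simp
    · simp [h]
  | cons b w ih =>
    intro a
    simp only [List.cons_append, List.destutter'_cons]
    rw [ih a, ih b]

theorem rd_cons_link {l : L} {w : List L} (h : Rd w) (hl : w.head? ≠ some l) : Rd (l :: w) := by
  cases w with
  | nil => exact List.isChain_singleton _
  | cons b w =>
    refine List.isChain_cons_cons.2 ⟨?_, h⟩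
    rintro rfl
    exact hl rfl

theorem rd_snoc_link {m : L} {w : List L} (h : Rd w) (hm : w.getLast? ≠ some m) :
    Rd (w ++ [m]) := by
  unfold Rd
  rw [List.isChain_append]
  refine ⟨h, List.isChain_singleton _, ?_⟩
  intro x hx y hy
  simp only [List.head?_cons, Option.mem_def, Option.some.injEq] at hy
  subst hy
  rintro rfl
  exact hm hx

theorem rd_tail_link {l : L} {w : List L} (h : Rd (l :: w)) : Rd w := List.IsChain.tail h

theorem rd_init_link {m : L} {w : List L} (h : Rd (w ++ [m])) : Rd w :=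
  (List.isChain_append.1 h).1

theorem dst_left_link (l m : L) (u : W L C2) (x : C2) :
    dstLink l m (lt l x * u) = dstLink l m u := by
  rcases c2_cases_link x with rfl | rfl
  · rw [lt_one, one_mul]
  · by_cases h : (lab u).head? = some l
    · obtain ⟨w, hw⟩ : ∃ w, lab u = l :: w := by
        cases hu : lab u with
        | nil => rw [hu] at h; simp at h
        | cons b w =>
          rw [hu] at h
          simp only [List.head?_cons, Option.some.injEq] at h
          exact ⟨w, by rw [h]⟩
      have h1 : lt l c2 * u = evlLink w := by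
        rw [← evl_lab_link u, hw, evl_cons_link, lt_sq_link']
      have h2 : Rd w := rd_tail_link (hw ▸ rd_lab_link u)
      unfold dstLink
      rw [h1, lab_evl_link h2, hw]
      simp [List.destutter_cons']
    · have h1 : lt l c2 * u = evlLink (l :: lab u) := by rw [evl_cons_link, evl_lab_link]
      unfold dstLink
      rw [h1, lab_evl_link (rd_cons_link (rd_lab_link u) h)]
      simp [List.destutter_cons']

theorem dst_right_link (l m : L) (u : W L C2) (y : C2) :
    dstLink l m (u * lt m y) = dstLink l m u := by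
  rcases c2_cases_link y with rfl | rfl
  · rw [lt_one, mul_one]
  · by_cases h : (lab u).getLast? = some m
    · obtain ⟨w, hw⟩ : ∃ w, lab u = w ++ [m] := List.getLast?_eq_some_iff.1 h
      have h1 : u * lt m c2 = evlLink w := by
        rw [← evl_lab_link u, hw, evl_snoc_link, mul_assoc, lt_sq_link, mul_one]
      have h2 : Rd w := rd_init_link (hw ▸ rd_lab_link u)
      unfold dstLink
      rw [h1, lab_evl_link h2, hw, List.cons_append, List.cons_append, List.destutter_cons',
        List.destutter_cons', dst_snoc_link]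
    · have h1 : u * lt m c2 = evlLink (lab u ++ [m]) := by rw [evl_snoc_link, evl_lab_link]
      unfold dstLink
      rw [h1, lab_evl_link (rd_snoc_link (rd_lab_link u) h), List.cons_append, List.cons_append,
        List.destutter_cons', List.destutter_cons', dst_snoc_link]

theorem dst_evl_link {l m : L} {p : List L} (hp : Rd p) (hl : p.head? = some l)
    (hm : p.getLast? = some m) (x y : C2) : dstLink l m (lt l x * evlLink p * lt m y) = p := by
  rw [dst_right_link, dst_left_link]
  unfold dstLink
  rw [lab_evl_link hp]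
  obtain ⟨q, hq⟩ := List.getLast?_eq_some_iff.1 hm
  have h1 : List.destutter' (· ≠ ·) l (p ++ [m]) = List.destutter' (· ≠ ·) l p := by
    rw [hq, dst_snoc_link]
  rw [List.cons_append, List.destutter_cons', h1]
  cases p with
  | nil => simp at hl
  | cons b t =>
    simp only [List.head?_cons, Option.some.injEq] at hl
    subst hl
    rw [List.destutter'_cons_neg _ (by simp)]
    exact List.destutter'_of_isChain_cons _ _ hp

theorem exists_nf_link (l m : L) (u : W L C2) : ∃ (p : List L) (x y : C2), Rd p ∧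
    p.head? = some l ∧ p.getLast? = some m ∧ u = lt l x * evlLink p * lt m y := by
  have h1 : ∃ (w : List L) (x : C2), Rd w ∧ w.head? = some l ∧ u = lt l x * evlLink w := by
    by_cases h : (lab u).head? = some l
    · exact ⟨lab u, 1, rd_lab_link u, h, by rw [lt_one, one_mul, evl_lab_link]⟩
    · exact ⟨l :: lab u, c2, rd_cons_link (rd_lab_link u) h, rfl, by
        rw [evl_cons_link, lt_sq_link', evl_lab_link]⟩
  obtain ⟨w, x, hw, hl, hu⟩ := h1
  by_cases h : w.getLast? = some m
  · exact ⟨w, x, 1, hw, hl, h, by rw [lt_one, mul_one, hu]⟩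
  · refine ⟨w ++ [m], x, c2, rd_snoc_link hw h, ?_, by simp, ?_⟩
    · rw [List.head?_append, hl]
      rfl
    · rw [evl_snoc_link, mul_assoc, mul_assoc, lt_sq_link, mul_one, hu]

theorem cpl_nf_link (P Q : L × W L C2) : ∃ x y : C2, Rd (cpl P Q) ∧
    (cpl P Q).head? = some P.1 ∧ (cpl P Q).getLast? = some Q.1 ∧
    P.2⁻¹ * Q.2 = lt P.1 x * evlLink (cpl P Q) * lt Q.1 y := by
  obtain ⟨p, x, y, hp, hl, hm, hu⟩ := exists_nf_link P.1 Q.1 (P.2⁻¹ * Q.2)
  have h : cpl P Q = p := by
    have h1 : cpl P Q = dstLink P.1 Q.1 (P.2⁻¹ * Q.2) := rfl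
    rw [h1, hu, dst_evl_link hp hl hm]
  rw [h]
  exact ⟨x, y, hp, hl, hm, hu⟩

theorem mem_dst_link (x : L) (w : List L) : ∀ a : L,
    x ∈ List.destutter' (· ≠ ·) a w ↔ x = a ∨ x ∈ w := by
  induction w with
  | nil => intro a; simp
  | cons b w ih =>
    intro a
    by_cases h : a = b
    · subst h
      rw [List.destutter'_cons_neg _ (by simp), ih]
      simp
    · rw [List.destutter'_cons_pos _ h, List.mem_cons, ih, List.mem_cons]

theorem var_dst_link (ρ : L → ℝ) (w : List L) : ∀ a : L,
    (∃ t, List.destutter' (· ≠ ·) a w = a :: t) ∧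
    Var ((List.destutter' (· ≠ ·) a w).map ρ) = Var ((a :: w).map ρ) := by
  induction w with
  | nil => intro a; exact ⟨⟨[], rfl⟩, rfl⟩
  | cons b w ih =>
    intro a
    by_cases h : a = b
    · subst h
      rw [List.destutter'_cons_neg _ (by simp)]
      refine ⟨(ih a).1, ?_⟩
      rw [(ih a).2]
      simp [Var]
    · rw [List.destutter'_cons_pos _ h]
      refine ⟨⟨_, rfl⟩, ?_⟩
      obtain ⟨⟨t, ht⟩, h2⟩ := ih b
      rw [ht] at h2 ⊢
      simp only [List.map_cons, Var] at h2 ⊢
      rw [h2]

/-- The correction factor of the swap map. -/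
noncomputable def epsLink (a b x : L) : W L C2 := if x = b then lt a c2 else 1

theorem sw_lt_link (a b l : L) (x : C2) :
    sw a b c2 (lt l x) = epsLink a b l * lt l x * (epsLink a b l)⁻¹ := by
  rw [sw_lt]
  unfold epsLink
  split_ifs with h
  · rw [h]
  · simp

theorem sw_step_link (a b x y : L) (r : List L) (e : W L C2) :
    (epsLink a b x)⁻¹ * sw a b c2 (evlLink (x :: r)) * e =
      lt x c2 * ((epsLink a b x)⁻¹ * epsLink a b y) *
        ((epsLink a b y)⁻¹ * sw a b c2 (evlLink r) * e) := by
  rw [evl_cons_link, map_mul, sw_lt_link]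
  group

theorem sw_evl_link {a b : L} (hab : a ≠ b) (m : L) (p : List L) : Rd p → ∀ x0 : L,
    p.head? = some x0 → p.getLast? = some m → ∃ s t : C2, (x0 ≠ a → s = 1) ∧
      (epsLink a b x0)⁻¹ * sw a b c2 (evlLink p) * epsLink a b m =
        lt x0 s * evlLink (swL a b p) * lt m t := by
  have ea : epsLink a b a = 1 := if_neg hab
  have e1 : ∀ x z : L, (x = b ↔ z = b) → epsLink a b x = epsLink a b z := fun x z h => by
    unfold epsLink
    by_cases hx : x = b
    · rw [if_pos hx, if_pos (h.1 hx)]
    · rw [if_neg hx, if_neg (fun hz => hx (h.2 hz))]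
  have e2 : ∀ x z : L, ¬ (x = b ↔ z = b) →
      (epsLink a b x)⁻¹ * epsLink a b z = lt a c2 := fun x z h => by
    unfold epsLink
    by_cases hx : x = b
    · rw [if_pos hx, if_neg (fun hz => h ⟨fun _ => hz, fun _ => hx⟩), mul_one, lt_inv_link]
    · have hz : z = b := by
        by_contra hz
        exact h ⟨fun h1 => absurd h1 hx, fun h1 => absurd h1 hz⟩
      rw [if_neg hx, if_pos hz, inv_one, one_mul]
  have e3 : ∀ z : L, ∃ s : C2, epsLink a b z = lt a s := fun z => by
    unfold epsLink
    split_ifs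
    · exact ⟨c2, rfl⟩
    · exact ⟨1, (lt_one a).symm⟩
  have e4 : ∀ x z : L, (epsLink a b x)⁻¹ * lt a c2 * epsLink a b z =
      lt a c2 * ((epsLink a b x)⁻¹ * epsLink a b z) := fun x z => by
    obtain ⟨s, hs⟩ := e3 x
    rw [hs, ← lt_inv, ← lt_mul, ← mul_assoc, ← lt_mul, mul_comm c2]
  induction p using swL.induct a b with
  | case1 y z l ih =>
    intro hp x0 hx hm
    simp only [List.head?_cons, Option.some.injEq] at hx
    subst hx
    have hy : y ≠ a := (List.isChain_cons_cons.1 hp).1.symm
    obtain ⟨s, t, hs, h⟩ := ih (rd_tail_link hp) y rfl (by simpa using hm)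
    obtain ⟨s', hs'⟩ := e3 y
    refine ⟨s', t, fun h => absurd rfl h, ?_⟩
    rw [sw_step_link a b a y, h, hs hy, lt_one, one_mul, ea, inv_one, one_mul, hs', swL,
      if_pos rfl, evl_cons_link, ← lt_mul, mul_comm c2, lt_mul]
    simp only [mul_assoc]
  | case2 x z l hxa hxz ih =>
    intro hp x0 hx hm
    simp only [List.head?_cons, Option.some.injEq] at hx
    subst hx
    have hz : z ≠ a := (List.isChain_cons_cons.1 (rd_tail_link hp)).1.symm
    obtain ⟨s, t, hs, h⟩ := ih (rd_tail_link (rd_tail_link hp)) z rfl (by simpa using hm)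
    refine ⟨1, t, fun _ => rfl, ?_⟩
    have h5 := e4 x z
    rw [e1 x z hxz, inv_mul_cancel, mul_one] at h5
    rw [sw_step_link a b x a, sw_step_link a b a z, h, hs hz, ea, swL, if_neg hxa, if_pos rfl,
      if_pos hxz, evl_cons_link, evl_cons_link, e1 x z hxz, lt_one, lt_one]
    simp only [one_mul, mul_one, inv_one, ← mul_assoc]
    rw [mul_assoc (lt x c2) _ (lt a c2), mul_assoc (lt x c2) _ (epsLink a b z), h5]
  | case3 x z l hxa hxz ih =>
    intro hp x0 hx hm
    simp only [List.head?_cons, Option.some.injEq] at hx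
    subst hx
    have hz : z ≠ a := (List.isChain_cons_cons.1 (rd_tail_link hp)).1.symm
    obtain ⟨s, t, hs, h⟩ := ih (rd_tail_link (rd_tail_link hp)) z rfl (by simpa using hm)
    refine ⟨1, t, fun _ => rfl, ?_⟩
    have h5 := e4 x z
    rw [e2 x z hxz, lt_sq_link] at h5
    rw [sw_step_link a b x a, sw_step_link a b a z, h, hs hz, ea, swL, if_neg hxa, if_pos rfl,
      if_neg hxz, evl_cons_link, lt_one, lt_one]
    simp only [one_mul, mul_one, inv_one, ← mul_assoc]
    rw [mul_assoc (lt x c2) _ (lt a c2), mul_assoc (lt x c2) _ (epsLink a b z), h5, mul_one]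
  | case4 x y z l hxa hya hxy ih =>
    intro hp x0 hx hm
    simp only [List.head?_cons, Option.some.injEq] at hx
    subst hx
    obtain ⟨s, t, hs, h⟩ := ih (rd_tail_link hp) y rfl (by simpa using hm)
    refine ⟨1, t, fun _ => rfl, ?_⟩
    rw [sw_step_link a b x y, h, hs hya, swL, if_neg hxa, if_neg hya, if_pos hxy, evl_cons_link,
      e1 x y hxy, inv_mul_cancel, lt_one, lt_one]
    simp only [one_mul, mul_one, mul_assoc]
  | case5 x y z l hxa hya hxy ih =>
    intro hp x0 hx hm
    simp only [List.head?_cons, Option.some.injEq] at hx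
    subst hx
    obtain ⟨s, t, hs, h⟩ := ih (rd_tail_link hp) y rfl (by simpa using hm)
    refine ⟨1, t, fun _ => rfl, ?_⟩
    rw [sw_step_link a b x y, h, hs hya, swL, if_neg hxa, if_neg hya, if_neg hxy, evl_cons_link,
      evl_cons_link, e2 x y hxy, lt_one, lt_one]
    simp only [one_mul, mul_assoc]
  | case6 x y hc =>
    intro hp x0 hx hm
    simp only [List.head?_cons, Option.some.injEq] at hx
    subst hx
    have hmy : y = m := by simpa using hm
    subst hmy
    have h0 : (epsLink a b x)⁻¹ * sw a b c2 (evlLink [x, y]) * epsLink a b y =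
        lt x c2 * ((epsLink a b x)⁻¹ * epsLink a b y) * lt y c2 := by
      rw [evl_cons_link, evl_cons_link, evl_nil_link, mul_one, map_mul, sw_lt_link, sw_lt_link]
      group
    rw [h0, swL, if_pos hc, evl_cons_link, evl_cons_link, evl_nil_link, mul_one]
    by_cases hxy : (x = b ↔ y = b)
    · refine ⟨1, 1, fun _ => rfl, ?_⟩
      rw [e1 x y hxy, inv_mul_cancel, lt_one, lt_one]
      simp only [one_mul, mul_one]
    · rw [e2 x y hxy]
      rcases hc with rfl | rfl | hc
      · exact ⟨c2, 1, fun h => absurd rfl h, by rw [lt_one, mul_one, mul_assoc]⟩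
      · exact ⟨1, c2, fun _ => rfl, by rw [lt_one, one_mul]⟩
      · exact absurd hc hxy
  | case7 x y hc =>
    intro hp x0 hx hm
    simp only [List.head?_cons, Option.some.injEq] at hx
    subst hx
    have hmy : y = m := by simpa using hm
    subst hmy
    have h0 : (epsLink a b x)⁻¹ * sw a b c2 (evlLink [x, y]) * epsLink a b y =
        lt x c2 * ((epsLink a b x)⁻¹ * epsLink a b y) * lt y c2 := by
      rw [evl_cons_link, evl_cons_link, evl_nil_link, mul_one, map_mul, sw_lt_link, sw_lt_link]
      group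
    refine ⟨1, 1, fun _ => rfl, ?_⟩
    rw [h0, swL, if_neg hc, evl_cons_link, evl_cons_link, evl_cons_link, evl_nil_link,
      e2 x y (fun h => hc (Or.inr (Or.inr h))), lt_one, lt_one]
    simp only [one_mul, mul_one, mul_assoc]
  | case8 l h1 h2 =>
    intro hp x0 hx hm
    match l, h1, h2, hx, hm with
    | [], _, _, hx, _ => simp at hx
    | [x], _, _, hx, hm =>
      simp only [List.head?_cons, Option.some.injEq] at hx
      subst hx
      have hmy : x = m := by simpa using hm
      subst hmy
      refine ⟨1, 1, fun _ => rfl, ?_⟩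
      have h3 : swL a b [x] = [x] := by simp [swL]
      rw [h3, evl_cons_link, evl_nil_link, mul_one, sw_lt_link, lt_one]
      group
    | [x, y], _, h2, _, _ => exact absurd rfl (h2 x y)
    | x :: y :: z :: l, h1, _, _, _ => exact absurd rfl (h1 x y z l)

theorem cpl_rd (P Q : L × W L C2) : Rd (cpl P Q) ∧ cpl P Q ≠ [] ∧ (cpl P Q).head? = some P.1 ∧
    (cpl P Q).getLast? = some Q.1 := by
  obtain ⟨x, y, h1, h2, h3, -⟩ := cpl_nf_link P Q
  refine ⟨h1, fun h => ?_, h2, h3⟩
  rw [h] at h2
  simp at h2

theorem cpl_mem (P Q : L × W L C2) (x : L) :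
    x ∈ cpl P Q ↔ x = P.1 ∨ x = Q.1 ∨ x ∈ lab (P.2⁻¹ * Q.2) := by
  unfold cpl
  rw [List.cons_append, List.destutter_cons', mem_dst_link, List.mem_append, List.mem_singleton]
  tauto

theorem cpl_var (P Q : L × W L C2) (ρ : L → ℝ) :
    Var ((cpl P Q).map ρ) = Var ((P.1 :: lab (P.2⁻¹ * Q.2) ++ [Q.1]).map ρ) := by
  unfold cpl
  rw [List.cons_append, List.destutter_cons']
  exact (var_dst_link ρ _ _).2

/-- The path does not depend on the representatives. -/
theorem cpl_rep (l m : L) (g h : W L C2) (x y : C2) :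
    cpl (l, g * lt l x) (m, h * lt m y) = cpl (l, g) (m, h) := by
  have h1 : (g * lt l x)⁻¹ * (h * lt m y) = lt l x⁻¹ * (g⁻¹ * h) * lt m y := by
    rw [lt_inv]
    group
  show dstLink l m ((g * lt l x)⁻¹ * (h * lt m y)) = dstLink l m (g⁻¹ * h)
  rw [h1, dst_right_link, dst_left_link]

theorem cpl_left (u : W L C2) (l m : L) (g h : W L C2) :
    cpl (l, u * g) (m, u * h) = cpl (l, g) (m, h) := by
  have h1 : (u * g)⁻¹ * (u * h) = g⁻¹ * h := by group
  show dstLink l m ((u * g)⁻¹ * (u * h)) = dstLink l m (g⁻¹ * h)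
  rw [h1]

/-- Every reduced path is a path between pointed letters. -/
theorem cpl_surj {p : List L} (hp : Rd p) (hne : p ≠ []) : ∃ P Q : L × W L C2, cpl P Q = p := by
  refine ⟨(p.head hne, 1), (p.getLast hne, evlLink p), ?_⟩
  have h := dst_evl_link hp (List.head?_eq_some_head hne) (List.getLast?_eq_some_getLast hne) 1 1
  rw [lt_one, lt_one, one_mul, mul_one] at h
  show dstLink (p.head hne) (p.getLast hne) (1⁻¹ * evlLink p) = p
  rw [inv_one, one_mul, h]

theorem cpl_tp {a b : L} (hab : a ≠ b) (P Q : L × W L C2) :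
    cpl (tp a b P) (tp a b Q) = swL a b (cpl P Q) := by
  obtain ⟨x, y, h1, h2, h3, h4⟩ := cpl_nf_link P Q
  have hne : cpl P Q ≠ [] := (cpl_rd P Q).2.1
  obtain ⟨s, t, -, h5⟩ := sw_evl_link hab Q.1 (cpl P Q) h1 P.1 h2 h3
  have h6 : Rd (swL a b (cpl P Q)) :=
    (swL_pth (S := Set.univ) (Set.mem_univ a) hab ⟨h1, hne, fun _ _ => Set.mem_univ _⟩).rd
  have h7 : (sw a b c2 P.2 * epsLink a b P.1)⁻¹ * (sw a b c2 Q.2 * epsLink a b Q.1) =
      lt P.1 (x * s) * evlLink (swL a b (cpl P Q)) * lt Q.1 (t * y) := by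
    have h8 : (sw a b c2 P.2 * epsLink a b P.1)⁻¹ * (sw a b c2 Q.2 * epsLink a b Q.1) =
        (epsLink a b P.1)⁻¹ * sw a b c2 (P.2⁻¹ * Q.2) * epsLink a b Q.1 := by
      rw [map_mul, map_inv]
      group
    have h9 : (epsLink a b P.1)⁻¹ * sw a b c2 (lt P.1 x * evlLink (cpl P Q) * lt Q.1 y) *
        epsLink a b Q.1 = lt P.1 x * ((epsLink a b P.1)⁻¹ * sw a b c2 (evlLink (cpl P Q)) *
          epsLink a b Q.1) * lt Q.1 y := by
      rw [map_mul, map_mul, sw_lt_link, sw_lt_link]
      group
    rw [h8, h4, h9, h5, lt_mul, lt_mul]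
    simp only [mul_assoc]
  show dstLink P.1 Q.1 ((sw a b c2 P.2 * epsLink a b P.1)⁻¹ *
    (sw a b c2 Q.2 * epsLink a b Q.1)) = _
  rw [h7]
  exact dst_evl_link h6 (by rw [swL_head, h2]) (by rw [swL_last, h3]) _ _

/-- The swap map on conjugates of letters. -/
theorem sw_conj (a b : L) (P : L × W L C2) :
    sw a b c2 (P.2 * lt P.1 c2 * P.2⁻¹) = (tp a b P).2 * lt P.1 c2 * (tp a b P).2⁻¹ := by
  show _ = sw a b c2 P.2 * epsLink a b P.1 * lt P.1 c2 * (sw a b c2 P.2 * epsLink a b P.1)⁻¹
  rw [map_mul, map_mul, map_inv, sw_lt_link]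
  group

/-- A conjugate of a letter determines the label and the coset. -/
theorem conj_lt_inj {l m : L} {g h : W L C2} (e : g * lt l c2 * g⁻¹ = h * lt m c2 * h⁻¹) :
    l = m ∧ ∃ x : C2, h = g * lt l x := by
  have hlm : l = m := by
    have h1 := congrArg (expo l) e
    simp only [map_mul, map_inv, expo_lt, if_true, mul_inv_cancel_comm] at h1
    by_contra hne
    rw [if_neg (fun h2 => hne h2.symm)] at h1
    exact c2_ne_link h1
  subst hlm
  refine ⟨rfl, ?_⟩
  obtain ⟨p, x, y, hp, hl, hm, hu⟩ := exists_nf_link l l (g⁻¹ * h)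
  have hc : ∀ z : C2, (lt l c2 : W L C2) * lt l z = lt l z * lt l c2 := fun z => by
    rw [← lt_mul, ← lt_mul, mul_comm]
  have h1 : lt l c2 * (g⁻¹ * h) = g⁻¹ * h * lt l c2 := by
    have : lt l c2 * (g⁻¹ * h) = g⁻¹ * (g * lt l c2 * g⁻¹) * h := by group
    rw [this, e]
    group
  have h2 : lt l c2 * evlLink p = evlLink p * lt l c2 := by
    have h3 : lt l x * (lt l c2 * evlLink p) * lt l y = lt l x * (evlLink p * lt l c2) * lt l y :=
      calc lt l x * (lt l c2 * evlLink p) * lt l y
          = (lt l x * lt l c2) * evlLink p * lt l y := by simp only [mul_assoc]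
        _ = lt l c2 * (g⁻¹ * h) := by rw [← hc, hu]; simp only [mul_assoc]
        _ = lt l x * evlLink p * (lt l y * lt l c2) := by rw [h1, hu]; simp only [mul_assoc]
        _ = _ := by rw [← hc]; simp only [mul_assoc]
    exact mul_left_cancel (mul_right_cancel h3)
  obtain ⟨q, hq⟩ := List.getLast?_eq_some_iff.1 hm
  cases p with
  | nil => simp at hl
  | cons b r =>
    simp only [List.head?_cons, Option.some.injEq] at hl
    subst hl
    have h3 : evlLink r = evlLink q := by
      rw [← lt_sq_link' b (evlLink r), ← evl_cons_link, h2, hq, evl_snoc_link, mul_assoc,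
        lt_sq_link, mul_one]
    have h4 : r = q := by
      rw [← lab_evl_link (rd_tail_link hp), h3, lab_evl_link (rd_init_link (hq ▸ hp))]
    subst h4
    cases r with
    | nil =>
      refine ⟨x * c2 * y, ?_⟩
      rw [evl_cons_link, evl_nil_link, mul_one, ← lt_mul, ← lt_mul] at hu
      rw [← hu]
      group
    | cons z r =>
      exfalso
      simp only [List.cons_append, List.cons.injEq] at hq
      exact (List.isChain_cons_cons.1 hp).1 hq.1

end Pool.Agent.E5f
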