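import Pool.Agent.E5f.MoOp

/-!
Box words: closure properties, labels outside the box, normal form, attainment of the distance.
-/

set_option autoImplicit false

namespace Pool.Agent.E5f

open Filter

section
variable {L C : Type} [CommGroup C]

theorem pj_stp (c : C) (X : Od L) (S : Finset L) (R R' D : Set L) :
    pj S (stp c X R R' D) = op X c (cut S (R ∩ D)) * (op X c (cut S (R' ∩ D)))⁻¹ := by
  simp [stp]

theorem stp_self (c : C) (X : Od L) (R D : Set L) : stp c X R R D = 1 := by simp [stp]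

theorem stp_inv (c : C) (X : Od L) (R R' D : Set L) : (stp c X R R' D)⁻¹ = stp c X R' R D := by
  simp [stp]

theorem stp_mul (c : C) (X : Od L) (R R' R'' D : Set L) :
    stp c X R R' D * stp c X R' R'' D = stp c X R R'' D := by simp [stp]

theorem InB.mono {ρ : L → ℝ} {lo hi lo' hi' : ℝ} {R : Set L} (h : InB ρ lo hi R) (h1 : lo' ≤ lo)
    (h2 : hi ≤ hi') : InB ρ lo' hi' R :=
  fun l => ⟨fun h3 => (h l).1 (lt_of_le_of_lt h2 h3), fun h3 => (h l).2 (lt_of_lt_of_le h3 h1)⟩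

theorem Cfg.X_lt (Z : Cfg L) {l m : L} (h : Z.x l < Z.x m) : Z.X l < Z.X m := by
  have := Prod.Lex.toLex_lt_toLex (x := ofLex (Z.X l)) (y := ofLex (Z.X m))
  simp only [toLex_ofLex] at this
  exact this.2 (Or.inl h)

theorem Cfg.x_le (Z : Cfg L) {l m : L} (h : Z.X l ≤ Z.X m) : Z.x l ≤ Z.x m := by
  by_contra h1
  exact absurd (Z.X_lt (not_le.1 h1)) (not_lt.2 h)

theorem Cfg.up_Rs (Z : Cfg L) (u : Mk) : Up Z.X (Rs Z.x u) := by
  intro l m hl hlm
  have h := Z.x_le hlm.le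
  rcases hl with hl | hl
  · exact Or.inl (lt_of_lt_of_le hl h)
  · rcases h.lt_or_eq with h | h
    · exact Or.inl (hl.1 ▸ h)
    · exact Or.inr ⟨hl.1.trans h, hl.2⟩

theorem at_Rs (ρ : L → ℝ) (u : Mk) : At ρ (Rs ρ u) u.1 := by
  intro l
  refine ⟨fun h => ?_, fun h => ?_⟩
  · rcases h with h | h
    · exact h.le
    · exact h.1.le
  · by_contra h1
    exact h (Or.inl (not_le.1 h1))

theorem At.inB {ρ : L → ℝ} {R : Set L} {a lo hi : ℝ} (h : At ρ R a) (h1 : lo ≤ a) (h2 : a ≤ hi) :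
    InB ρ lo hi R := by
  intro l
  refine ⟨fun h3 => ?_, fun h3 h4 => ?_⟩
  · by_contra h4
    have := (h l).2 h4
    linarith
  · have := (h l).1 h4
    linarith

theorem Cfg.at_Rl (Z : Cfg L) (l : L) : At Z.x (Rl Z.X l) (Z.x l) := fun _ =>
  ⟨fun h => Z.x_le (le_of_lt h), fun h => Z.x_le (not_lt.1 h)⟩

theorem Cfg.bl_fin (Z : Cfg L) (b : Bx) : (Z.bl b).Finite := by
  refine (Z.fin (|b.x0| + |b.x1| + |b.y0| + |b.y1|)).subset ?_
  rintro l ⟨h1, h2, h3, h4⟩
  have e1 := abs_nonneg b.x0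
  have e2 := abs_nonneg b.x1
  have e3 := abs_nonneg b.y0
  have e4 := abs_nonneg b.y1
  have f1 := neg_abs_le b.x0
  have f2 := le_abs_self b.x1
  have f3 := neg_abs_le b.y0
  have f4 := le_abs_self b.y1
  exact ⟨abs_le.2 ⟨by change _ ≤ Z.x l; linarith, by change Z.x l ≤ _; linarith⟩,
    abs_le.2 ⟨by change _ ≤ Z.y l; linarith, by change Z.y l ≤ _; linarith⟩⟩

theorem Cfg.bl_tr (Z : Cfg L) (b : Bx) : Z.tr.bl b.tr = Z.bl b := by
  ext l
  exact ⟨fun h => ⟨h.2.2.1, h.2.2.2, h.1, h.2.1⟩, fun h => ⟨h.2.2.1, h.2.2.2, h.1, h.2.1⟩⟩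

theorem Bx.Mem.tr {b : Bx} {s t : ℝ} (h : b.Mem s t) : b.tr.Mem t s :=
  ⟨h.2.2.1, h.2.2.2, h.1, h.2.1⟩

theorem Bx.Mem.mono {b b' : Bx} {s t : ℝ} (h : b.Mem s t) (hb : b.Sub b') : b'.Mem s t :=
  ⟨hb.1.trans h.1, h.2.1.trans hb.2.1, hb.2.2.1.trans h.2.2.1, h.2.2.2.trans hb.2.2.2⟩

theorem Bx.Sub.tr {b b' : Bx} (h : b.Sub b') : b.tr.Sub b'.tr := ⟨h.2.2.1, h.2.2.2, h.1, h.2.1⟩

theorem Bx.Sub.refl (b : Bx) : b.Sub b := ⟨le_rfl, le_rfl, le_rfl, le_rfl⟩

theorem Bx.Sub.trans {b b' b'' : Bx} (h : b.Sub b') (h' : b'.Sub b'') : b.Sub b'' :=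
  ⟨h'.1.trans h.1, h.2.1.trans h'.2.1, h'.2.2.1.trans h.2.2.1, h.2.2.2.trans h'.2.2.2⟩

/-- The smallest box containing two boxes. -/
noncomputable def Bx.sup (b b' : Bx) : Bx :=
  ⟨min b.x0 b'.x0, max b.x1 b'.x1, min b.y0 b'.y0, max b.y1 b'.y1⟩

theorem Bx.sub_sup_left (b b' : Bx) : b.Sub (b.sup b') :=
  ⟨min_le_left _ _, le_max_left _ _, min_le_left _ _, le_max_left _ _⟩

theorem Bx.sub_sup_right (b b' : Bx) : b'.Sub (b.sup b') :=
  ⟨min_le_right _ _, le_max_right _ _, min_le_right _ _, le_max_right _ _⟩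

theorem Cfg.bl_mono (Z : Cfg L) {b b' : Bx} (h : b.Sub b') : Z.bl b ⊆ Z.bl b' :=
  fun _ hl => Bx.Mem.mono hl h

variable {c : C} {Z : Cfg L} {b : Bx}

theorem BoxW.left {R R' : Set L} {ω : WL L C} (h : BoxW c Z b R R' ω) :
    Up Z.X R ∧ InB Z.x b.x0 b.x1 R := by
  induction h with
  | refl h1 h2 => exact ⟨h1, h2⟩
  | step _ _ _ _ ih => exact ih

theorem BoxW.right {R R' : Set L} {ω : WL L C} (h : BoxW c Z b R R' ω) :
    Up Z.X R' ∧ InB Z.x b.x0 b.x1 R' := by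
  cases h with
  | refl h1 h2 => exact ⟨h1, h2⟩
  | step _ h1 h2 _ => exact ⟨h1, h2⟩

theorem BoxW.single {R R' D : Set L} (h1 : Up Z.X R) (h2 : InB Z.x b.x0 b.x1 R) (h3 : Up Z.X R')
    (h4 : InB Z.x b.x0 b.x1 R') (h5 : InB Z.y b.y0 b.y1 D) :
    BoxW c Z b R R' (stp c Z.X R R' D) := by
  have := (BoxW.refl (c := c) h1 h2).step h3 h4 h5
  rwa [one_mul] at this

theorem BoxW.trans {R R' R'' : Set L} {ω ω' : WL L C} (h : BoxW c Z b R R' ω)
    (h' : BoxW c Z b R' R'' ω') : BoxW c Z b R R'' (ω * ω') := by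
  induction h' with
  | refl _ _ => rwa [mul_one]
  | step _ h1 h2 h3 ih => rw [← mul_assoc]; exact ih.step h1 h2 h3

theorem BoxW.symm {R R' : Set L} {ω : WL L C} (h : BoxW c Z b R R' ω) :
    BoxW c Z b R' R ω⁻¹ := by
  induction h with
  | refl h1 h2 => rw [inv_one]; exact BoxW.refl h1 h2
  | step h0 h1 h2 h3 ih =>
    rw [mul_inv_rev, stp_inv]
    exact (BoxW.single h1 h2 h0.right.1 h0.right.2 h3).trans ih

theorem BoxW.mono {b' : Bx} {R R' : Set L} {ω : WL L C} (h : BoxW c Z b R R' ω)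
    (hb : b.Sub b') : BoxW c Z b' R R' ω := by
  induction h with
  | refl h1 h2 => exact BoxW.refl h1 (h2.mono hb.1 hb.2.1)
  | step _ h1 h2 h3 ih => exact ih.step h1 (h2.mono hb.1 hb.2.1) (h3.mono hb.2.2.1 hb.2.2.2)

theorem op_cut_split (c : C) (X : Od L) (S : Finset L) (A : Set L) (ν : L) :
    op X c (cut S A) = op X c (cut S (A ∩ {m | X m < X ν})) *
      op X c (cut S (A ∩ {m | X ν ≤ X m})) := by
  refine op_split c X.injective.injOn (fun l => ?_) (fun a ha b hb => ?_)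
  · simp only [mem_cut, Set.mem_inter_iff, Set.mem_setOf_eq]
    rcases lt_or_ge (X l) (X ν) with h | h
    · simp [h, not_le.2 h]
    · simp [h, not_lt.2 h]
  · exact lt_of_lt_of_le (mem_cut.1 ha).2.2 (mem_cut.1 hb).2.2

theorem cut_add {S S' : Finset L} {ν : L} (hS : ∀ l, l ∈ S' ↔ l = ν ∨ l ∈ S) {A : Set L}
    (h : ν ∉ A) : cut S' A = cut S A := by
  ext l
  simp only [mem_cut, hS]
  constructor
  · rintro ⟨rfl | h1, h2⟩
    · exact absurd h2 h
    · exact ⟨h1, h2⟩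
  · exact fun h1 => ⟨Or.inr h1.1, h1.2⟩

/-- Labels that are low or outside do not occur. -/
theorem BoxW.out {R R' : Set L} {ω : WL L C} (h : BoxW c Z b R R' ω) {S S' : Finset L} {ν : L}
    (hS : ∀ l, l ∈ S' ↔ l = ν ∨ l ∈ S)
    (hν : Z.x ν < b.x0 ∨ b.x1 < Z.x ν ∨ Z.y ν < b.y0) : pj S' ω = pj S ω := by
  induction h with
  | refl _ _ => simp
  | @step R1 R2 D ω h0 h1 h2 h3 ih =>
    rw [map_mul, map_mul, ih, pj_stp, pj_stp]
    congr 1
    rcases hν with hν | hν | hν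
    · rw [cut_add hS (fun h => (h0.right.2 ν).2 hν h.1), cut_add hS (fun h => (h2 ν).2 hν h.1)]
    · have key : ∀ R : Set L, Up Z.X R → InB Z.x b.x0 b.x1 R →
          R ∩ D ∩ {m | Z.X ν ≤ Z.X m} = D ∩ {m | Z.X ν ≤ Z.X m} := by
        intro R u1 u2
        ext m
        simp only [Set.mem_inter_iff, Set.mem_setOf_eq]
        refine ⟨fun h => ⟨h.1.2, h.2⟩, fun h => ⟨⟨?_, h.1⟩, h.2⟩⟩
        exact (u2 m).1 (lt_of_lt_of_le hν (Z.x_le h.2))
      have hn : ∀ A : Set L, ν ∉ A ∩ {m | Z.X m < Z.X ν} := fun A h => lt_irrefl (Z.X ν) h.2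
      rw [op_cut_split c Z.X S' (R1 ∩ D) ν, op_cut_split c Z.X S' (R2 ∩ D) ν,
        op_cut_split c Z.X S (R1 ∩ D) ν, op_cut_split c Z.X S (R2 ∩ D) ν,
        key R1 h0.right.1 h0.right.2, key R2 h1 h2, cut_add hS (hn _), cut_add hS (hn _)]
      group
    · rw [cut_add hS (fun h => (h3 ν).2 hν h.2), cut_add hS (fun h => (h3 ν).2 hν h.2)]

open Classical in
theorem ins_lt (c : C) (X : Od L) (ν l : L) (x : C) :
    ins c X ν (lt l x) = if X l < X ν then (lt ν c)⁻¹ * lt l x * lt ν c else lt l x := by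
  unfold ins; rw [lf_lt]; split_ifs <;> simp

theorem ins_low (c : C) (X : Od L) (ν : L) {g : W L C} (h : Sup {l | X l < X ν} g) :
    ins c X ν g = (lt ν c)⁻¹ * g * lt ν c := by
  have := W_ext_sup (f := ins c X ν) (f' := (MulAut.conj (lt ν c : W L C)⁻¹).toMonoidHom)
    (S := {l | X l < X ν}) (fun l hl x => by rw [ins_lt, if_pos (show X l < X ν from hl)]; simp) h
  simpa using this

theorem ins_high (c : C) (X : Od L) (ν : L) {g : W L C} (h : Sup {l | X ν ≤ X l} g) :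
    ins c X ν g = g :=
  W_ext_sup (f := ins c X ν) (f' := MonoidHom.id _) (S := {l | X ν ≤ X l})
    (fun l hl x => by rw [ins_lt, if_neg (not_lt.2 hl)]; rfl) h

theorem op_ins (c : C) (X : Od L) {S S' : Finset L} {ν : L} (hS : ∀ l, l ∈ S' ↔ l = ν ∨ l ∈ S)
    (hν : ν ∉ S) {R D : Set L} (hR : Up X R) (hD : ν ∈ D) :
    op X c (cut S' (R ∩ D)) = jj c ν R * ins c X ν (op X c (cut S (R ∩ D))) := by
  classical
  rw [op_cut_split c X S' (R ∩ D) ν, op_cut_split c X S (R ∩ D) ν, map_mul,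
    ins_low c X ν (sup_op c (fun l hl => (mem_cut.1 hl).2.2)),
    ins_high c X ν (sup_op c (fun l hl => (mem_cut.1 hl).2.2)),
    cut_add hS (A := R ∩ D ∩ {m | X m < X ν}) (fun h => lt_irrefl (X ν) h.2)]
  unfold jj
  by_cases h : ν ∈ R
  · rw [if_pos h, op_min c (D := cut S' (R ∩ D ∩ {m | X ν ≤ X m}))
      (D' := cut S (R ∩ D ∩ {m | X ν ≤ X m})) (l := ν) X.injective.injOn]
    · group
    · intro m
      simp only [mem_cut, hS]
      constructor
      · rintro ⟨h1 | h1, h2⟩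
        · exact Or.inl h1
        · exact Or.inr ⟨h1, h2⟩
      · rintro (rfl | h1)
        · exact ⟨Or.inl rfl, ⟨h, hD⟩, le_refl (X m)⟩
        · exact ⟨Or.inr h1.1, h1.2⟩
    · intro a ha
      rw [mem_cut] at ha
      exact lt_of_le_of_ne ha.2.2 (fun he => hν (X.injective he ▸ ha.1))
  · have e : cut S (R ∩ D ∩ {m | X m < X ν}) = ∅ := by
      ext m
      simp only [mem_cut, Finset.notMem_empty, iff_false]
      exact fun h1 => h (hR m ν h1.2.1.1 h1.2.2)
    rw [if_neg h, e, cut_add hS (fun h1 => h h1.1.1)]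
    simp


/-- Insertion of a high label. -/
theorem BoxW.high {R R' : Set L} {ω : WL L C} (h : BoxW c Z b R R' ω) {S S' : Finset L} {ν : L}
    (hS : ∀ l, l ∈ S' ↔ l = ν ∨ l ∈ S) (hν : ν ∉ S) (hy : b.y1 < Z.y ν) :
    pj S' ω = jj c ν R * ins c Z.X ν (pj S ω) * (jj c ν R')⁻¹ := by
  induction h with
  | refl _ _ => simp
  | @step R1 R2 D ω h0 h1 h2 h3 ih =>
    rw [map_mul, map_mul, ih, pj_stp, pj_stp, op_ins c Z.X hS hν h0.right.1 ((h3 ν).1 hy),
      op_ins c Z.X hS hν h1 ((h3 ν).1 hy), map_mul, map_mul, map_inv]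
    group

/-- Adding labels one at a time. -/
theorem add_ind {p : Finset L → Prop} {S : Finset L} (h0 : p S)
    (h : ∀ (S1 S' : Finset L) (ν : L), S ⊆ S1 → ν ∉ S1 → (∀ l, l ∈ S' ↔ l = ν ∨ l ∈ S1) → p S1 →
      p S') : ∀ S', S ⊆ S' → p S' := by
  classical
  have key : ∀ T : Finset L, p (S ∪ T) := by
    intro T
    induction T using Finset.induction_on with
    | empty => simpa using h0
    | insert ν T _ ih =>
      by_cases h1 : ν ∈ S ∪ T
      · rw [Finset.union_insert, Finset.insert_eq_of_mem h1]; exact ih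
      · exact h (S ∪ T) _ ν Finset.subset_union_left h1 (fun l => by
          rw [Finset.union_insert, Finset.mem_insert]) ih
  intro S' hS'
  have := key S'
  rwa [Finset.union_eq_right.2 hS'] at this

theorem Cfg.not_bl (Z : Cfg L) {b : Bx} {ν : L} (h : ν ∉ Z.bl b) :
    (Z.x ν < b.x0 ∨ b.x1 < Z.x ν ∨ Z.y ν < b.y0) ∨ b.y1 < Z.y ν := by
  by_contra h1
  push Not at h1
  exact h ⟨h1.1.1, h1.1.2.1, h1.1.2.2, h1.2⟩

theorem WL_ext_of {ω ω' : WL L C} (S : Finset L) (h : ∀ S', S ⊆ S' → pj S' ω = pj S' ω') :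
    ω = ω' := by
  classical
  refine WL_ext fun T => ?_
  rw [← ret_pj (Finset.subset_union_right (s₁ := S)) ω,
    ← ret_pj (Finset.subset_union_right (s₁ := S)) ω', h _ Finset.subset_union_left]

/-- Normal form: a box word is determined by its level at the labels of the box. -/
theorem BoxW.nf {R R' : Set L} {ω ω' : WL L C} (h : BoxW c Z b R R' ω) (h' : BoxW c Z b R R' ω')
    {S : Finset L} (hS : Z.bl b ⊆ S) (he : pj S ω = pj S ω') : ω = ω' := by
  refine WL_ext_of S (add_ind (p := fun S' => pj S' ω = pj S' ω') he ?_)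
  intro S1 S' ν h1 h2 h3 ih
  rcases Z.not_bl (fun h4 => h2 (h1 (hS h4))) with h4 | h4
  · rw [h.out h3 h4, h'.out h3 h4, ih]
  · rw [h.high h3 h2 h4, h'.high h3 h2 h4, ih]

open Classical in
theorem ev_wv (c : C) (ν : L) (s t : Prop) :
    ev (wv c ν s t) = (if s then lt ν c else 1) * (if t then lt ν c else 1)⁻¹ := by
  unfold wv
  by_cases hs : s <;> by_cases ht : t <;> simp [hs, ht, lt_inv]

open Classical in
theorem ev_weave (c : C) (X : Od L) (ν : L) : ∀ (w : List (L × C)) (s t : Prop),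
    ev (weave c X ν s w t) =
      (if s then lt ν c else 1) * ins c X ν (ev w) * (if t then lt ν c else 1)⁻¹
  | [], s, t => by simp [weave, ev_wv]
  | e :: w, s, t => by
    rw [weave, ev_append, ev_cons, ev_weave c X ν w, ev_wv, ev_cons, map_mul, ins_lt]
    split_ifs <;> group

theorem wv_cases (c : C) (ν : L) (s t : Prop) :
    ((s ↔ t) ∧ wv c ν s t = []) ∨ (¬ (s ↔ t) ∧ ∃ x, (x = c ∨ x = c⁻¹) ∧ wv c ν s t = [(ν, x)]) := by
  unfold wv
  by_cases h : s ↔ t
  · exact Or.inl ⟨h, if_pos h⟩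
  · refine Or.inr ⟨h, _, ?_, if_neg h⟩
    split_ifs
    · exact Or.inl rfl
    · exact Or.inr rfl

theorem head_weave (c : C) (X : Od L) (ν : L) (w : List (L × C)) (s t : Prop) :
    ∀ e ∈ (weave c X ν s w t).head?, e.1 = ν ∨ e ∈ w.head? := by
  intro e he
  cases w with
  | nil =>
    rcases wv_cases c ν s t with h | ⟨-, x, -, h⟩
    · simp [weave, h.2] at he
    · simp only [weave, h, List.head?_cons, Option.mem_def, Option.some.injEq] at he
      exact Or.inl (by rw [← he])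
  | cons a w =>
    rcases wv_cases c ν s (X a.1 < X ν) with h | ⟨-, x, -, h⟩
    · simp only [weave, h.2, List.nil_append, List.head?_cons] at he
      exact Or.inr he
    · simp only [weave, h, List.cons_append, List.head?_cons, Option.mem_def,
        Option.some.injEq] at he
      exact Or.inl (by rw [← he])

theorem red_weave {c : C} (hc : c ≠ 1) (X : Od L) (ν : L) : ∀ (w : List (L × C)) (s t : Prop),
    Red w → (∀ e ∈ w, e.1 ≠ ν) → Red (weave c X ν s w t)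
  | [], s, t, _, _ => by
    rcases wv_cases c ν s t with h | ⟨-, x, hx, h⟩
    · rw [weave, h.2]; exact ⟨by simp, by simp⟩
    · rw [weave, h]
      refine ⟨?_, by simp⟩
      rcases hx with rfl | rfl <;> simpa using hc
  | e :: w, s, t, hr, hn => by
    have ih := red_weave hc X ν w (X e.1 < X ν) t hr.tail
      (fun a ha => hn a (List.mem_cons_of_mem _ ha))
    have h1 : Red (e :: weave c X ν (X e.1 < X ν) w t) := by
      refine ih.cons (hr.1 e (by simp)) (fun a ha => ?_)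
      rcases head_weave c X ν w _ t a ha with h | h
      · rw [h]; exact hn e (by simp)
      · exact (List.isChain_cons.1 hr.2).1 a h
    rw [weave]
    rcases wv_cases c ν s (X e.1 < X ν) with h | ⟨-, x, hx, h⟩
    · rw [h.2]; exact h1
    · rw [h]
      refine h1.cons ?_ ?_
      · rcases hx with rfl | rfl <;> simpa using hc
      · intro a ha
        simp only [List.head?_cons, Option.mem_def, Option.some.injEq] at ha
        subst ha
        exact (hn _ (by simp)).symm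

/-- The reduced word after the insertion of a high label. -/
theorem BoxW.wd_high (hc : c ≠ 1) {R R' : Set L} {ω : WL L C} (h : BoxW c Z b R R' ω)
    {S S' : Finset L} {ν : L} (hS : ∀ l, l ∈ S' ↔ l = ν ∨ l ∈ S) (hν : ν ∉ S)
    (hy : b.y1 < Z.y ν) : wd (pj S' ω) = weave c Z.X ν (ν ∈ R) (wd (pj S ω)) (ν ∈ R') := by
  rw [← wd_ev (red_weave hc Z.X ν (wd (pj S ω)) (ν ∈ R) (ν ∈ R') (red_wd _) ?_), ev_weave, ev_wd,
    h.high hS hν hy]
  · rfl
  · intro e he h1
    exact hν (h1 ▸ sup_pj S ω e.1 (List.mem_map_of_mem he))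

theorem Var_wv (ρ : L → ℝ) (c : C) (ν : L) {s t : Prop} {a a' : ℝ} (l : List ℝ)
    (hs : (s → a ≤ ρ ν) ∧ (¬ s → ρ ν ≤ a)) (ht : (t → a' ≤ ρ ν) ∧ (¬ t → ρ ν ≤ a')) :
    Var (a :: (wv c ν s t).map (fun e => ρ e.1) ++ a' :: l) = Var (a :: a' :: l) := by
  rcases wv_cases c ν s t with h | ⟨h0, x, -, h⟩
  · rw [h.2]; rfl
  · rw [h]
    simp only [List.map_cons, List.map_nil, List.cons_append, List.nil_append, Var_cons2]
    by_cases h1 : s
    · have e1 := hs.1 h1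
      have e2 := ht.2 (fun h2 => h0 ⟨fun _ => h2, fun _ => h1⟩)
      rw [abs_of_nonneg (by linarith), abs_of_nonneg (by linarith), abs_of_nonneg (by linarith)]
      ring
    · have e1 := hs.2 h1
      have e2 : a' ≤ ρ ν := ht.1 (by
        by_contra h2
        exact h0 ⟨fun h3 => absurd h3 h1, fun h3 => absurd h3 h2⟩)
      rw [abs_of_nonpos (by linarith), abs_of_nonpos (by linarith), abs_of_nonpos (by linarith)]
      ring

theorem Var_weave (Z : Cfg L) (c : C) (ν : L) : ∀ (w : List (L × C)) (s t : Prop) (a a' : ℝ),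
    ((s → a ≤ Z.x ν) ∧ (¬ s → Z.x ν ≤ a)) → ((t → a' ≤ Z.x ν) ∧ (¬ t → Z.x ν ≤ a')) →
    Var (a :: (weave c Z.X ν s w t).map (fun e => Z.x e.1) ++ [a']) =
      Var (a :: w.map (fun e => Z.x e.1) ++ [a'])
  | [], s, t, a, a', hs, ht => Var_wv Z.x c ν [] hs ht
  | e :: w, s, t, a, a', hs, ht => by
    have he : (Z.X e.1 < Z.X ν → Z.x e.1 ≤ Z.x ν) ∧ (¬ Z.X e.1 < Z.X ν → Z.x ν ≤ Z.x e.1) :=
      ⟨fun h => Z.x_le h.le, fun h => Z.x_le (not_lt.1 h)⟩
    have ih := Var_weave Z c ν w (Z.X e.1 < Z.X ν) t (Z.x e.1) a' he ht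
    have h2 := Var_wv Z.x c ν
      ((weave c Z.X ν (Z.X e.1 < Z.X ν) w t).map (fun e => Z.x e.1) ++ [a']) hs he
    simp only [weave, List.map_append, List.map_cons, List.cons_append, List.append_assoc,
      Var_cons2] at ih h2 ⊢
    rw [h2, ih]

theorem dT_ret_le (ρ : L → ℝ) (S : Set L) (a b : ℝ) (g : W L C) :
    dT ρ a (ret S g) b ≤ dT ρ a g b := by
  classical
  have key : ∀ (w : List (L × C)) (a : ℝ),
      dT ρ a (ret S (ev w)) b ≤ Var (a :: w.map (fun e => ρ e.1) ++ [b]) := by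
    intro w
    induction w with
    | nil => intro a; simp [Var_cons2]
    | cons e w ih =>
      intro a
      have := ih (ρ e.1)
      simp only [ev_cons, map_mul, ret_lt, List.map_cons, List.cons_append, Var_cons2] at this ⊢
      split_ifs
      · have := dT_lt_mul_le ρ a b e.1 e.2 (ret S (ev w))
        linarith
      · have := dT_le_left ρ a (ρ e.1) (ret S (ev w)) b
        rw [one_mul]
        linarith
  have := key (wd g) a
  rwa [ev_wd, ← dT_wd] at this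

theorem BoxW.dT_eq {R R' : Set L} {ω : WL L C} (h : BoxW c Z b R R' ω) {a a' : ℝ}
    (ha : At Z.x R a) (ha' : At Z.x R' a') {S : Finset L} (hS : Z.bl b ⊆ S) :
    ∀ S', S ⊆ S' → dT Z.x a (pj S' ω) a' = dT Z.x a (pj S ω) a' := by
  classical
  refine add_ind (p := fun S' => dT Z.x a (pj S' ω) a' = dT Z.x a (pj S ω) a') rfl ?_
  intro S1 S' ν h1 h2 h3 ih
  rw [← ih]
  rcases Z.not_bl (fun h4 => h2 (h1 (hS h4))) with h4 | h4
  · rw [h.out h3 h4]
  · refine le_antisymm ?_ ?_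
    · have e : pj S' ω = ev (weave c Z.X ν (ν ∈ R) (wd (pj S1 ω)) (ν ∈ R')) := by
        rw [ev_weave, ev_wd, h.high h3 h2 h4]; rfl
      rw [e, dT_wd Z.x a a' (pj S1 ω), ← Var_weave Z c ν _ (ν ∈ R) (ν ∈ R') a a' (ha ν) (ha' ν)]
      exact dT_ev_le _ _ _ _
    · rw [← ret_pj (S := S1) (S' := S') (fun l hl => (h3 l).2 (Or.inr hl))]
      exact dT_ret_le _ _ _ _ _

theorem dW_eq {ρ : L → ℝ} {a a' v : ℝ} {ω : WL L C} (S : Finset L)
    (h : ∀ S', S ⊆ S' → dT ρ a (pj S' ω) a' = v) : dW ρ a ω a' = v := by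
  classical
  unfold dW
  refine Filter.Tendsto.limUnder_eq (tendsto_const_nhds.congr' ?_)
  exact (eventually_ge_atTop S).mono (fun S' hS' => (h S' hS').symm)

/-- The distance is attained at every level that contains the labels of the box. -/
theorem BoxW.att {R R' : Set L} {ω : WL L C} (h : BoxW c Z b R R' ω) {a a' : ℝ}
    (ha : At Z.x R a) (ha' : At Z.x R' a') {S : Finset L} (hS : Z.bl b ⊆ S) :
    dW Z.x a ω a' = dT Z.x a (pj S ω) a' := dW_eq S (h.dT_eq ha ha' hS)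

/-- The initial exponent of a label adjacent to the starting cut does not depend on the level. -/
theorem BoxW.hd_eq (hc : c ≠ 1) {R R' : Set L} {ω : WL L C} (h : BoxW c Z b R R' ω) {a : L}
    (ha : ∀ ν, ν ≠ a → (ν ∈ R ↔ Z.X a < Z.X ν)) {S : Finset L} (hS : Z.bl b ⊆ S) (haS : a ∈ S) :
    ∀ S', S ⊆ S' → hd a (pj S' ω) = hd a (pj S ω) := by
  classical
  refine add_ind (p := fun S' => hd a (pj S' ω) = hd a (pj S ω)) rfl ?_
  intro S1 S' ν h1 h2 h3 ih
  rw [← ih]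
  have hne : ν ≠ a := fun h4 => h2 (h4 ▸ h1 haS)
  rcases Z.not_bl (fun h4 => h2 (h1 (hS h4))) with h4 | h4
  · rw [h.out h3 h4]
  · unfold hd
    rw [h.wd_high hc h3 h2 h4]
    cases wd (pj S1 ω) with
    | nil =>
      rcases wv_cases c ν (ν ∈ R) (ν ∈ R') with h5 | ⟨-, x, -, h5⟩
      · rw [weave, h5.2]
      · rw [weave, h5]; simp [hne]
    | cons e w =>
      rcases wv_cases c ν (ν ∈ R) (Z.X e.1 < Z.X ν) with h5 | ⟨h6, x, -, h5⟩
      · rw [weave, h5.2]; rfl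
      · rw [weave, h5]
        have : e.1 ≠ a := fun h7 => h6 (h7 ▸ ha ν hne)
        simp [hne, this]

end

end Pool.Agent.E5f
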