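import Pool.Agent.E5f.BrDefs
import Pool.Agent.E5f.PlBox
import Pool.Agent.E5f.LsLink

set_option autoImplicit false

namespace Pool.Agent.E5f

open Classical Filter

section Wov
variable {L κ : Type} [LinearOrder κ] {k : L → κ} {ν : L}

/-- The label `ν` occurs exactly between consecutive entries on different sides of `ν`. -/
inductive WovBrBox (k : L → κ) (ν : L) : L → List L → Prop
  | nil (a : L) : WovBrBox k ν a []
  | same (a b : L) (w : List L) : b ≠ ν → (k a < k ν ↔ k b < k ν) → WovBrBox k ν b w →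
      WovBrBox k ν a (b :: w)
  | cross (a b : L) (w : List L) : b ≠ ν → ¬ (k a < k ν ↔ k b < k ν) → WovBrBox k ν b w →
      WovBrBox k ν a (ν :: b :: w)

theorem dst_BrBox {a : L} {w : List L} (h : WovBrBox k ν a w) (ha : a ≠ ν) :
    ∃ t, List.destutter' (· ≠ ·) a w = a :: t ∧ WovBrBox k ν a t := by
  induction h with
  | nil a => exact ⟨[], rfl, .nil a⟩
  | same a b w hb h _ ih =>
    obtain ⟨t, h1, h2⟩ := ih hb
    by_cases e : a = b
    · subst e
      exact ⟨t, (List.destutter'_cons_neg _ (not_not.2 rfl)).trans h1, h2⟩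
    · exact ⟨b :: t, by rw [List.destutter'_cons_pos _ e, h1], .same a b t hb h h2⟩
  | cross a b w hb h _ ih =>
    obtain ⟨t, h1, h2⟩ := ih hb
    exact ⟨ν :: b :: t, by
      rw [List.destutter'_cons_pos _ ha, List.destutter'_cons_pos _ hb.symm, h1],
      .cross a b t hb h h2⟩

theorem skip_cons_BrBox {a : L} {w : List L} (h : Skip k (a :: w) ν) :
    (∃ c B, w = c :: B ∧ ((k a < k ν ∧ k ν < k c) ∨ (k c < k ν ∧ k ν < k a))) ∨ Skip k w ν := by
  obtain ⟨A, B, a', c, e, h⟩ := h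
  cases A with
  | nil =>
    obtain ⟨rfl, rfl⟩ := List.cons.inj e
    exact Or.inl ⟨c, B, rfl, h⟩
  | cons x A => exact Or.inr ⟨A, B, a', c, (List.cons.inj e).2, h⟩

theorem turn_cons_BrBox {a : L} {w : List L} (h : TurnAt k (a :: w) ν) :
    (∃ c B, w = ν :: c :: B ∧ ¬ (k a < k ν ↔ k ν < k c)) ∨ TurnAt k w ν := by
  obtain ⟨A, B, a', c, e, h⟩ := h
  cases A with
  | nil =>
    obtain ⟨rfl, rfl⟩ := List.cons.inj e
    exact Or.inl ⟨c, B, rfl, h⟩
  | cons x A => exact Or.inr ⟨A, B, a', c, (List.cons.inj e).2, h⟩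

theorem not_BrBox (hk : Function.Injective k) {a : L} {w : List L} (h : WovBrBox k ν a w) :
    ¬ TurnAt k (a :: w) ν ∧ ¬ Skip k (a :: w) ν := by
  induction h with
  | nil a =>
    constructor <;> rintro ⟨A, B, a', c, e, -⟩ <;>
    · have := congrArg List.length e
      simp only [List.length_cons, List.length_nil, List.length_append] at this
      omega
  | same a b w hb h _ ih =>
    refine ⟨fun t => ?_, fun t => ?_⟩
    · rcases turn_cons_BrBox t with ⟨c, B, e, -⟩ | t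
      · exact hb (List.cons.inj e).1
      · exact ih.1 t
    · rcases skip_cons_BrBox t with ⟨c, B, e, t⟩ | t
      · obtain ⟨rfl, -⟩ := List.cons.inj e
        rcases t with t | t
        · exact lt_asymm (h.1 t.1) t.2
        · exact lt_asymm (h.2 t.1) t.2
      · exact ih.2 t
  | cross a b w hb h _ ih =>
    refine ⟨fun t => ?_, fun t => ?_⟩
    · rcases turn_cons_BrBox t with ⟨c, B, e, t⟩ | t
      · obtain ⟨rfl, -⟩ := List.cons.inj (List.cons.inj e).2
        have : k ν < k b ↔ ¬ k b < k ν :=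
          ⟨lt_asymm, fun x => lt_of_le_of_ne (not_lt.1 x) (hk.ne hb.symm)⟩
        tauto
      · rcases turn_cons_BrBox t with ⟨c, B, e, -⟩ | t
        · exact hb (List.cons.inj e).1
        · exact ih.1 t
    · rcases skip_cons_BrBox t with ⟨c, B, e, t⟩ | t
      · obtain ⟨rfl, -⟩ := List.cons.inj e
        exact t.elim (fun t => lt_irrefl _ t.2) fun t => lt_irrefl _ t.1
      · rcases skip_cons_BrBox t with ⟨c, B, -, t⟩ | t
        · exact t.elim (fun t => lt_irrefl _ t.1) fun t => lt_irrefl _ t.2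
        · exact ih.2 t

end Wov

section Weave
variable {L C : Type} [CommGroup C]

theorem wv_BrBox (c : C) (X : Od L) {ν b : L} (a : L) {w : List L} (hb : b ≠ ν)
    (h : WovBrBox X ν b w) :
    WovBrBox X ν a ((wv c ν (X a < X ν) (X b < X ν)).map Prod.fst ++ b :: w) := by
  rcases wv_cases c ν (X a < X ν) (X b < X ν) with h1 | ⟨h1, x, -, h2⟩
  · rw [h1.2]
    exact .same a b w hb h1.1 h
  · rw [h2]
    exact .cross a b w hb h1 h

theorem weave_BrBox (c : C) (X : Od L) {ν m : L} (hm : m ≠ ν) : ∀ (w : List (L × C)) (a : L),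
    (∀ e ∈ w, e.1 ≠ ν) →
      WovBrBox X ν a ((weave c X ν (X a < X ν) w (X m < X ν)).map Prod.fst ++ [m])
  | [], a, _ => wv_BrBox c X a hm (.nil m)
  | e :: w, a, h => by
    rw [weave, List.map_append, List.append_assoc]
    exact wv_BrBox c X a (h e List.mem_cons_self)
      (weave_BrBox c X hm w e.1 fun e' he => h e' (List.mem_cons_of_mem _ he))

end Weave

section Key
variable {L : Type} {Z : Cfg L} {b : Bx} {l m ν : L} {g h : WL L C2} {S : Finset L}

theorem erase_BrBox (hν : ν ∈ S) (x : L) : x ∈ S ↔ x = ν ∨ x ∈ S.erase ν := by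
  rw [← Finset.mem_insert, Finset.insert_erase hν]

theorem high_BrBox (hb : BoxW c2 Z b (Rl Z.X l) (Rl Z.X m) (g⁻¹ * h)) (hν : ν ∈ S) (hl : l ≠ ν)
    (hm : m ≠ ν) (hy : b.y1 < Z.y ν) : ¬ TurnAt Z.X (cpl (l, pj S g) (m, pj S h)) ν ∧
      ¬ Skip Z.X (cpl (l, pj S g) (m, pj S h)) ν := by
  have h1 := weave_BrBox c2 Z.X hm (wd (pj (S.erase ν) (g⁻¹ * h))) l fun e he h1 =>
    (Finset.mem_erase.1 (sup_pj _ _ e.1 (List.mem_map_of_mem he))).1 h1
  have h2 := hb.wd_high c2_ne_link (erase_BrBox hν) (Finset.notMem_erase ν S) hy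
  obtain ⟨t, h3, h4⟩ := dst_BrBox h1 hl
  have e : cpl (l, pj S g) (m, pj S h) = l :: t := by
    rw [← h3, cpl, List.cons_append, List.destutter_cons', ← map_inv, ← map_mul, lab, h2]
    rfl
  rw [e]
  exact not_BrBox Z.X.injective h4

theorem mem_BrBox (hb : BoxW c2 Z b (Rl Z.X l) (Rl Z.X m) (g⁻¹ * h))
    (hν : ν ∈ cpl (l, pj S g) (m, pj S h)) (hl : l ≠ ν) (hm : m ≠ ν) (hn : ν ∉ Z.bl b) :
    ν ∈ S ∧ b.y1 < Z.y ν := by
  rw [cpl_mem, ← map_inv, ← map_mul] at hν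
  have h1 := (hν.resolve_left hl.symm).resolve_left hm.symm
  have h2 : ν ∈ S := sup_pj S _ ν h1
  refine ⟨h2, (Z.not_bl hn).resolve_left fun h3 => ?_⟩
  rw [hb.out (erase_BrBox h2) h3] at h1
  exact Finset.notMem_erase ν S (sup_pj _ _ ν h1)

end Key

namespace Fam
variable {E : Emb} {Q P : Type} (F : Fam E Q P)

theorem ev_BrBox (q : Q) (x y : P) : ∀ᶠ S : Finset Lam in atTop,
    F.dv q x y = dL (E.pos (F.B.u q).1) (E.pos (F.B.u q).1 (F.lb x), pj S (F.gv q x))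
      (E.pos (F.B.u q).1 (F.lb y), pj S (F.gv q y)) := by
  obtain ⟨b, hb⟩ := F.cv q x y
  refine (eventually_ge_atTop ((F.Z q).bl_fin b).toFinset).mono fun S hS => ?_
  rw [dL, ← map_inv, ← map_mul]
  exact hb.att ((F.Z q).at_Rl _) ((F.Z q).at_Rl _)
    fun l hl => hS (((F.Z q).bl_fin b).mem_toFinset.2 hl)

theorem br_ev (q : Q) (x y : P) : ∀ᶠ S : Finset Lam in atTop,
    F.dv q x y = Var ((F.path q S x y).map (E.lat.pos (F.B.stpI.px q))) := by
  refine (F.ev_BrBox q x y).mono fun S h => ?_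
  rw [h, Fam.path, cpl_var, E.lat_pos, List.map_append, List.map_cons]
  rfl

theorem br_pm (q : Q) : PM (F.dv q) := by
  have pm := dL_pm (C := C2) (E.pos (F.B.u q).1)
  refine ⟨fun x => ?_, fun x y => ?_, fun x y z => ?_⟩
  · obtain ⟨S, h⟩ := (F.ev_BrBox q x x).exists
    rw [h, pm.self]
  · obtain ⟨S, h1, h2⟩ := ((F.ev_BrBox q x y).and (F.ev_BrBox q y x)).exists
    rw [h1, h2, pm.symm]
  · obtain ⟨S, h1, h2, h3⟩ :=
      ((F.ev_BrBox q x z).and ((F.ev_BrBox q x y).and (F.ev_BrBox q y z))).exists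
    rw [h1, h2, h3]
    exact pm.tri _ _ _

theorem br_box (q : Q) (x y : P) : ∃ (T : Finset Lam) (Y : ℝ), ∀ᶠ S : Finset Lam in atTop,
    (∀ ν, EndT (E.lat.key (F.B.stpI.ux q)) (F.path q S x y) ν → ν ∈ T) ∧
    (∀ ν ∈ F.path q S x y, -Y ≤ E.lat.η ν.2) ∧
    (∀ ν ∈ S, Y < E.lat.η ν.2 → ¬ Skip (E.lat.key (F.B.stpI.ux q)) (F.path q S x y) ν) := by
  obtain ⟨b, hb⟩ := F.cv q x y
  obtain ⟨T, hT⟩ : ∃ T : Finset Lam, ∀ ν, ν ∉ T →
      F.lb x ≠ ν ∧ F.lb y ≠ ν ∧ ν ∉ (F.Z q).bl b :=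
    ⟨insert (F.lb x) (insert (F.lb y) ((F.Z q).bl_fin b).toFinset), fun ν h => by
      simp only [Finset.mem_insert, Set.Finite.mem_toFinset, not_or] at h
      exact ⟨Ne.symm h.1, Ne.symm h.2.1, h.2.2⟩⟩
  have hk : E.lat.key (F.B.stpI.ux q) = (F.Z q).X := E.lat_key _
  have hs : ∀ ν ∈ T, |E.η ν.2| ≤ ∑ ν ∈ T, |E.η ν.2| := fun ν h =>
    Finset.single_le_sum (f := fun ν : Lam => |E.η ν.2|) (fun _ _ => abs_nonneg _) h
  have hs0 : 0 ≤ ∑ ν ∈ T, |E.η ν.2| := Finset.sum_nonneg fun _ _ => abs_nonneg _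
  have hy : ∀ ν : Lam, |(F.Z q).y ν - E.η ν.2| ≤ 3 * |(F.B.w q).1| := fun ν => by
    have e : (F.Z q).y ν - E.η ν.2 = E.tr.m ν.1 * (F.B.w q).1 := add_sub_cancel_left _ _
    rw [e, abs_mul, abs_of_nonneg (E.tr.m_nonneg _)]
    exact mul_le_mul_of_nonneg_right (E.tr.m_le _) (abs_nonneg _)
  have a1 := abs_nonneg (F.B.w q).1
  have a2 := le_abs_self b.y1
  have a3 := neg_abs_le b.y1
  refine ⟨T, ∑ ν ∈ T, |E.η ν.2| + 3 * |(F.B.w q).1| + |b.y1|, Eventually.of_forall fun S => ?_⟩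
  rw [hk]
  refine ⟨fun ν h => ?_, fun ν h => ?_, fun ν h h1 => ?_⟩
  · by_contra hn
    obtain ⟨h1, h2, h3⟩ := hT ν hn
    obtain ⟨-, -, e1, e2⟩ := cpl_rd (F.lb x, pj S (F.gv q x)) (F.lb y, pj S (F.gv q y))
    rcases h with h | h | h
    · exact h1 (Option.some.inj (e1.symm.trans h))
    · exact h2 (Option.some.inj (e2.symm.trans h))
    · have h4 : ν ∈ F.path q S x y := by
        obtain ⟨A, B, a, c, e, -⟩ := h
        simp [e]
      obtain ⟨h5, h6⟩ := mem_BrBox hb h4 h1 h2 h3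
      exact (high_BrBox hb h5 h1 h2 h6).1 h
  · rw [E.lat_η]
    by_cases hn : ν ∈ T
    · linarith [hs ν hn, neg_abs_le (E.η ν.2)]
    · obtain ⟨h1, h2, h3⟩ := hT ν hn
      have h4 : b.y1 < (F.Z q).y ν := (mem_BrBox hb h h1 h2 h3).2
      linarith [(abs_le.1 (hy ν)).2]
  · rw [E.lat_η] at h1
    obtain ⟨h2, h3, -⟩ := hT ν fun hn => by linarith [hs ν hn, le_abs_self (E.η ν.2)]
    refine (high_BrBox hb h h2 h3 ?_).2
    change b.y1 < (F.Z q).y ν
    linarith [(abs_le.1 (hy ν)).1]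

end Fam

end Pool.Agent.E5f
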