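import Pool.Agent.E5f.FsBase

set_option autoImplicit false

namespace Pool.Agent.E5f

open Classical Filter

section
variable {O : Type} [AddCommGroup O] {E : Lat O}

theorem fin_BrZig (lo hi : ℝ) (u u' : Mx) :
    {a | E.Cr u u' a ∧ lo ≤ E.η a ∧ E.η a ≤ hi}.Finite := by
  refine (E.disc (|(ofLex u).1| + |(ofLex u').1| + |lo| + |hi|)).subset fun a ha => ?_
  have h1 := abs_le.1 (le_refl |(ofLex u).1|)
  have h2 := abs_le.1 (le_refl |(ofLex u').1|)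
  have h3 := abs_le.1 (le_refl |lo|)
  have h4 := abs_le.1 (le_refl |hi|)
  obtain ⟨h | h, h5, h6⟩ := ha <;> have h7 := fst_FsBase h.1 <;> have h8 := fst_FsBase h.2 <;>
    rw [ofLex_toLex] at h7 h8 <;>
    exact ⟨abs_le.2 ⟨by linarith, by linarith⟩, abs_le.2 ⟨by linarith, by linarith⟩⟩

theorem ord_BrZig (ε : Bool) {a b : O} (h : a ≠ b) :
    Dir ε (toLex (E.ξ a, ε)) (toLex (E.ξ b, !ε)) ∨ Dir ε (toLex (E.ξ b, ε)) (toLex (E.ξ a, !ε)) := by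
  have h1 : E.ξ a ≠ E.ξ b := fun e => by
    have := E.norm _ (sub_ne_zero.2 h)
    rw [map_sub, e, sub_self, abs_zero, zero_mul] at this
    linarith
  rcases h1.lt_or_gt with h2 | h2 <;> cases ε
  · exact Or.inr (Prod.Lex.toLex_le_toLex.2 (Or.inl h2))
  · exact Or.inl (Prod.Lex.toLex_le_toLex.2 (Or.inl h2))
  · exact Or.inl (Prod.Lex.toLex_le_toLex.2 (Or.inl h2))
  · exact Or.inr (Prod.Lex.toLex_le_toLex.2 (Or.inl h2))

theorem lev_BrZig {lo hi : ℝ} {u u' : Mx} {σ : O → Bool} (h : E.Thr lo hi u u' σ)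
    (hs : {a | E.Cr u u' a ∧ lo ≤ E.η a ∧ E.η a ≤ hi}.Subsingleton) :
    ∃ v, ∀ a, E.Cr u u' a → σ a = E.lev v a := by
  have k1 : ∀ a y s, E.η a < y → E.lev (toLex (y, s)) a = true := fun a y s h =>
    decide_eq_true (Prod.Lex.toLex_le_toLex.2 (Or.inl h))
  have k2 : ∀ a y s, y < E.η a → E.lev (toLex (y, s)) a = false := fun a y s h =>
    decide_eq_false (Prod.Lex.toLex_lt_toLex.2 (Or.inl h)).not_ge
  by_cases h0 : ∃ b, E.Cr u u' b ∧ lo ≤ E.η b ∧ E.η b ≤ hi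
  · obtain ⟨b, hb⟩ := h0
    refine ⟨toLex (E.η b, σ b), fun a ha => ?_⟩
    rcases lt_or_ge (E.η a) lo with h1 | h1
    · rw [(h a ha).1 h1, k1 a _ _ (h1.trans_le hb.2.1)]
    rcases lt_or_ge hi (E.η a) with h2 | h2
    · rw [(h a ha).2 h2, k2 a _ _ (hb.2.2.trans_lt h2)]
    rw [hs ⟨ha, h1, h2⟩ hb]
    cases σ b
    · exact (decide_eq_false (lt_FsBase _).not_ge).symm
    · exact (decide_eq_true le_rfl).symm
  · refine ⟨toLex (lo, false), fun a ha => ?_⟩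
    rcases lt_or_ge (E.η a) lo with h1 | h1
    · rw [(h a ha).1 h1, k1 a _ _ h1]
    · rw [(h a ha).2 (not_le.1 fun h2 => h0 ⟨a, ha, h1, h2⟩)]
      have h2 : (toLex (lo, false) : Mx) ≤ toLex (E.η a, false) :=
        Prod.Lex.toLex_le_toLex.2 (h1.lt_or_eq.imp_right fun e => ⟨e, le_rfl⟩)
      exact (decide_eq_false (h2.trans_lt (lt_FsBase _)).not_ge).symm

end

/-- Induction principle: a step is a monotone zigzag of vertical and horizontal moves. -/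
theorem BSys.zig {O : Type} [AddCommGroup O] {E : Lat O} {Q : Type} {dv dh : Q → Q → ℝ}
    {Cu : Q → Prop} (X : BSys E dv dh Cu) (σ : O → Bool) (ε : Bool) (Pr : Q → Q → Prop)
    (hv : ∀ q r, X.St q r σ → X.ux q = X.ux r → Pr q r)
    (hh : ∀ q r, X.St q r (E.lev (X.uy q)) → X.uy q = X.uy r → Dir ε (X.ux q) (X.ux r) →
      (∀ a, E.Cr (X.ux q) (X.ux r) a → σ a = E.lev (X.uy q) a) → Pr q r)
    (ht : ∀ p q r, Dir ε (X.ux p) (X.ux q) → Dir ε (X.ux q) (X.ux r) → Pr p q → Pr q r → Pr p r)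
    {lo hi : ℝ} {q r : Q} (h : X.toStp.DSt lo hi ε q r σ) : Pr q r := by
  induction hn : {a | E.Cr (X.ux q) (X.ux r) a ∧ lo ≤ E.η a ∧ E.η a ≤ hi}.ncard
    using Nat.strong_induction_on generalizing q r with
  | _ n ih =>
  by_cases hs : {a | E.Cr (X.ux q) (X.ux r) a ∧ lo ≤ E.η a ∧ E.η a ≤ hi}.Subsingleton
  · obtain ⟨v, hl⟩ := lev_BrZig h.thr hs
    obtain ⟨q1, a1, a2, a3⟩ := X.vert q v σ
    obtain ⟨r1, b1, b2, b3⟩ := X.vert r v σ
    have d1 : Dir ε (X.ux q1) (X.ux q) := a1 ▸ dir_refl_FsBase ε _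
    have d2 : Dir ε (X.ux q1) (X.ux r) := a1 ▸ h.dir
    have d3 : Dir ε (X.ux r) (X.ux r1) := b1 ▸ dir_refl_FsBase ε _
    have d4 := dir_trans_FsBase d2 d3
    have s1 := X.trans ε _ _ _ σ (X.trans ε _ _ _ σ (X.symm _ _ _ a3) h.st d1 h.dir) b3 d2 d3
    have e : ∀ a, E.Cr (X.ux q1) (X.ux r1) a → σ a = E.lev (X.uy q1) a := by
      rwa [a1, b1, a2]
    exact ht q r1 r (b1 ▸ h.dir) (b1 ▸ dir_refl_FsBase ε _)
      (ht q q1 r1 (a1 ▸ dir_refl_FsBase ε _) d4 (hv _ _ a3 a1.symm)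
        (hh _ _ (X.congr _ _ _ _ s1 fun a ha => (e a ha).symm) (a2.trans b2.symm) d4 e))
      (hv _ _ (X.symm _ _ _ b3) b1)
  · have key : ∀ a b, (E.Cr (X.ux q) (X.ux r) a ∧ lo ≤ E.η a ∧ E.η a ≤ hi) →
        (E.Cr (X.ux q) (X.ux r) b ∧ lo ≤ E.η b ∧ E.η b ≤ hi) →
        Dir ε (toLex (E.ξ a, ε)) (toLex (E.ξ b, !ε)) → Pr q r := by
      intro a b ha hb hd
      have c1 := cr_dir_FsBase h.dir ha.1
      have c2 := cr_dir_FsBase h.dir hb.1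
      have d1 : Dir ε (X.ux q) (toLex (E.ξ a, ε)) := dir_trans_FsBase c1.1 (by
        cases ε <;> exact (lt_FsBase _).le)
      obtain ⟨m, m1, m2, m3⟩ := X.split ε q r σ _ h.st d1 c1.2
      have e1 : E.Cr (X.ux q) (X.ux m) a := dir_cr_FsBase c1.1 (m1 ▸ dir_refl_FsBase ε _)
      have e2 : E.Cr (X.ux m) (X.ux r) b := dir_cr_FsBase (m1 ▸ hd) c2.2
      have d2 := c1.2
      rw [← m1] at d1 d2
      have f1 : ∀ x, E.Cr (X.ux q) (X.ux m) x → E.Cr (X.ux q) (X.ux r) x := fun x hx =>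
        dir_cr_FsBase (cr_dir_FsBase d1 hx).1 (dir_trans_FsBase (cr_dir_FsBase d1 hx).2 d2)
      have f2 : ∀ x, E.Cr (X.ux m) (X.ux r) x → E.Cr (X.ux q) (X.ux r) x := fun x hx =>
        dir_cr_FsBase (dir_trans_FsBase d1 (cr_dir_FsBase d2 hx).1) (cr_dir_FsBase d2 hx).2
      refine ht q m r d1 d2 (ih _ ?_ ⟨m2, d1, fun x hx => h.thr x (f1 x hx)⟩ rfl)
        (ih _ ?_ ⟨m3, d2, fun x hx => h.thr x (f2 x hx)⟩ rfl)
      · exact hn ▸ Set.ncard_lt_ncard ⟨fun x hx => ⟨f1 x hx.1, hx.2⟩,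
          fun hx => cr_not_FsBase d1 d2 (hx hb).1 e2⟩ (fin_BrZig lo hi _ _)
      · exact hn ▸ Set.ncard_lt_ncard ⟨fun x hx => ⟨f2 x hx.1, hx.2⟩,
          fun hx => cr_not_FsBase d1 d2 e1 (hx ha).1⟩ (fin_BrZig lo hi _ _)
    obtain ⟨a, ha, b, hb, hab⟩ := Set.not_subsingleton_iff.1 hs
    exact (ord_BrZig (E := E) ε hab).elim (key a b ha hb) (key b a hb ha)

end Pool.Agent.E5f
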