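import Pool.Agent.E5f.BrRoute
import Pool.Agent.E5f.BrZig
import Pool.Agent.E5f.LsLink

set_option autoImplicit false

namespace Pool.Agent.E5f

open Classical Filter

/-- One adjacent swap acts by the swap map of the upper label on the lower label. -/
theorem swap_BrChain {L : Type} {S : Finset L} (X Y : Od L) {a b : L}
    (hA : Adjc (S : Set L) X a b) (hY : Y b < Y a) {l : L} (hl : l ∈ S) {g : W L C2}
    (hg : Sup (S : Set L) g) :
    kapf c2 Y (odSwap X a b) S l (kapf c2 X Y S l g) = psw a b c2 l g := by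
  rcases lt_trichotomy (X a) (X b) with h | h | h
  · have hw : Swp S X (odSwap X a b) a b := swp_odSwap hA.ha hA.hb h (fun m hm h1 h2 => by
      have n1 : m ≠ a := fun e => by rw [e] at h1; exact lt_irrefl _ h1
      have n2 : m ≠ b := fun e => by rw [e] at h2; exact lt_irrefl _ h2
      exact lt_asymm h1 ((hA.adj m hm n1 n2).2 h2))
    rw [kapf_swap_up c2 Y hw hY hl hg, show c2⁻¹ = c2 by decide]
  · exact absurd (X.injective h) hA.ne
  · have hw : Swp S X (odSwap X b a) b a := swp_odSwap hA.hb hA.ha h (fun m hm h1 h2 => by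
      have n1 : m ≠ b := fun e => by rw [e] at h1; exact lt_irrefl _ h1
      have n2 : m ≠ a := fun e => by rw [e] at h2; exact lt_irrefl _ h2
      exact lt_asymm h1 ((hA.adj m hm n2 n1).1 h2))
    have e : odSwap X a b = odSwap X b a := by
      unfold odSwap
      rw [Equiv.swap_comm]
    rw [e, kapf_swap_down c2 Y hw hY hl hg]

/-- The change of coordinates along a chain of swaps acts on paths by the swap moves. -/
theorem chn_BrChain {L : Type} {S : Finset L} (k0 : L → Key) (X1 Y : Od L) {l m : L} (hl : l ∈ S)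
    (hm : m ∈ S) : ∀ (c : List (L × L)) (X : Od L), Chn (S : Set L) k0 X1 X c →
      (∀ e ∈ c, Y e.2 < Y e.1) →
      (∀ a ∈ (S : Set L), ∀ b ∈ (S : Set L), (kend X c a < kend X c b ↔ X1 a < X1 b)) →
      ∀ g h : W L C2, Sup (S : Set L) g → Sup (S : Set L) h →
      cpl (l, kapf c2 Y X1 S l (kapf c2 X Y S l g)) (m, kapf c2 Y X1 S m (kapf c2 X Y S m h)) =
        act c (cpl (l, g) (m, h))
  | [], X, _, _, he, g, h, hg, hh => by
    rw [kapf_same c2 Y he hl hg, kapf_same c2 Y he hm hh]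
    rfl
  | e :: c, X, hc, hy, he, g, h, hg, hh => by
    obtain ⟨hA, -, -, hc'⟩ := hc
    have hY := hy e (List.mem_cons_self ..)
    have ih := chn_BrChain k0 X1 Y hl hm c (odSwap X e.1 e.2) hc'
      (fun e' h' => hy e' (List.mem_cons_of_mem _ h')) he _ _
      (sup_psw hA.ha e.2 c2 l hg) (sup_psw hA.ha e.2 c2 m hh)
    have h1 := swap_BrChain X Y hA hY hl hg
    have h2 := swap_BrChain X Y hA hY hm hh
    have h3 : cpl (l, psw e.1 e.2 c2 l g) (m, psw e.1 e.2 c2 m h) =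
        swL e.1 e.2 (cpl (l, g) (m, h)) := cpl_tp hA.ne (l, g) (m, h)
    rw [h3, ← h1, ← h2, kapf_kapf, kapf_kapf] at ih
    exact ih

theorem hgt_BrChain {O : Type} [AddCommGroup O] (E : Lat O) (s t : Fin 3) :
    hgt s < hgt t ↔ E.w' s < E.w' t := by
  have h0 := E.w'0
  have h1 := E.w'1
  have h2 := E.w'2
  fin_cases s <;> fin_cases t <;> simp [hgt] <;> linarith

/-- A pair exchanged in a chain between two markers collides at a crossed point. -/
theorem cr_BrChain {O : Type} [AddCommGroup O] (E : Lat O) {ε : Bool} {u u' : Mx}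
    (hd : Dir ε u u') {x y : Fin 3 × O} (hne : x ≠ y)
    (h : E.key u x < E.key u y ↔ E.key u' y < E.key u' x) {a : O} (ha : E.bk a x = E.bk a y) :
    x.1 ≠ y.1 ∧ E.Cr u u' a := by
  have key : ∀ x y : Fin 3 × O, E.bk a x = E.bk a y → E.key u x < E.key u y →
      E.key u' y < E.key u' x → x.1 ≠ y.1 ∧ E.Cr u u' a := by
    intro x y ha h1 h2
    obtain ⟨a', b1, b2, b3⟩ := (E.inv_iff hd x y).1 ⟨h1, h2⟩
    have n : x.1 ≠ y.1 := fun e => by
      have : E.sp x = E.sp y := by unfold Lat.sp; rw [e]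
      rw [this] at b3
      split_ifs at b3 <;> exact lt_irrefl _ b3
    exact ⟨n, by rw [E.col_uniq n ha b1]; exact b2⟩
  by_cases h1 : E.key u x < E.key u y
  · exact key x y ha h1 (h.1 h1)
  · have h2 := (flip_LsChain (E.key_inj u) hne).2 h1
    have h3 := (flip_LsChain (E.key_inj u') hne.symm).2 (fun k => h1 (h.2 k))
    obtain ⟨n, c⟩ := key y x ha.symm h2 h3
    exact ⟨n.symm, c⟩

/-- No pair is inverted twice along a monotone sequence of markers. -/
theorem mono_BrChain {O : Type} [AddCommGroup O] (E : Lat O) {ε : Bool} {u u' u'' : Mx}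
    (hd : Dir ε u u') (hd' : Dir ε u' u'') {x y : Fin 3 × O} (h1 : E.key u x < E.key u y)
    (h2 : E.key u' y < E.key u' x) : E.key u'' y < E.key u'' x := by
  have hne : x ≠ y := fun e => by rw [e] at h1; exact lt_irrefl _ h1
  refine (flip_LsChain (E.key_inj u'') hne).2 (fun h3 => ?_)
  obtain ⟨_, _, _, b⟩ := (E.inv_iff hd x y).1 ⟨h1, h2⟩
  obtain ⟨_, _, _, b'⟩ := (E.inv_iff hd' y x).1 ⟨h2, h3⟩
  split_ifs at b b' <;> exact lt_asymm b b'

/-- The vertical order of two colliding labels gives the status of the collision point. -/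
theorem stat_BrChain (E : Emb) (w : Mk) {x y : Lam} (n : x.1 ≠ y.1) {a : Zl}
    (ha : E.lat.bk a x = E.lat.bk a y) (h : E.tr.key w y < E.tr.key w x) :
    hgt (E.lat.tyl y) < hgt (E.lat.tyl x) ↔ E.lat.lev (toLex w) a = true := by
  have e : ∀ z : Lam, E.lat.w' (E.lat.tyl z) = E.tr.m z.1 := fun z => by
    simp [Lat.tyl, Emb.lat]
  have c1 : E.tr.col x y = a := (E.col_eq_iff n a).2 ha
  have c2 : E.tr.col y x = a := (E.col_eq_iff n.symm a).2 ha.symm
  rw [hgt_BrChain E.lat, e, e, ← Bool.not_eq_false, E.lev_iff]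
  rcases lt_or_gt_of_ne (E.tr.m_ne n) with k | k
  · have := (E.tr.key_lt_fast w k).1 h
    rw [c1] at this
    exact iff_of_false (lt_asymm k) (not_not.2 this)
  · have := (E.tr.key_lt_slow w k).1 h
    rw [c2] at this
    exact iff_of_true k this

namespace Fam
variable {E : Emb} {Q P : Type} (F : Fam E Q P)

theorem ev_BrChain (x y : P) : ∀ᶠ S : Finset Lam in atTop, F.lb x ∈ S ∧ F.lb y ∈ S :=
  (eventually_ge_atTop {F.lb x, F.lb y}).mono fun _ hS => ⟨hS (by simp), hS (by simp)⟩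

theorem br_pth (q : Q) (x y : P) :
    ∀ᶠ S : Finset Lam in atTop, Pth (S : Set Lam) (F.path q S x y) := by
  filter_upwards [F.ev_BrChain x y] with S hS
  refine ⟨(cpl_rd _ _).1, (cpl_rd _ _).2.1, fun z hz => ?_⟩
  rcases (cpl_mem _ _ z).1 hz with rfl | rfl | h
  · exact hS.1
  · exact hS.2
  · have h1 := sup_pj S ((F.gv q x)⁻¹ * F.gv q y)
    rw [map_mul, map_inv] at h1
    exact h1 z h

/-- A horizontal move is a chain of swaps. -/
theorem br_chain_mh {q r : Q} (h : F.B.MH q r) (x y : P) : ∀ᶠ S : Finset Lam in atTop, ∃ c,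
    FCh (S : Set Lam) (E.key (F.B.u q)) (E.key (F.B.u r)) c ∧
    (∀ e ∈ c, E.tr.key (F.B.w q) e.2 < E.tr.key (F.B.w q) e.1) ∧
    F.path r S x y = act c (F.path q S x y) := by
  filter_upwards [F.ev_BrChain x y] with S hS
  obtain ⟨c, hc, hu⟩ := fch_exists S (E.key (F.B.u q)).injective (E.key (F.B.u r)).injective
    (fun a b => E.tr.key (F.B.w q) b < E.tr.key (F.B.w q) a)
  have hy : ∀ e ∈ c, E.tr.key (F.B.w q) e.2 < E.tr.key (F.B.w q) e.1 := fun e he =>
    (hu e he).elim id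
      (flip_LsChain (E.tr.key (F.B.w q)).injective (fch_mem hc he).2.2.1).2
  have hg : ∀ z, pj S (F.gv r z) = kapf c2 (E.tr.key (F.B.w q)) (E.key (F.B.u r)) S (F.lb z)
      (kapf c2 (E.key (F.B.u q)) (E.tr.key (F.B.w q)) S (F.lb z) (pj S (F.gv q z))) := by
    intro z
    rw [F.relh r z, ← F.mh q r z h, F.relv q z, ← h.2, pj_kap, pj_kap]
  refine ⟨c, hc, hy, ?_⟩
  unfold Fam.path
  rw [hg x, hg y]
  exact chn_BrChain _ _ _ hS.1 hS.2 c _ hc.chn hy hc.fin _ _ (sup_pj S _) (sup_pj S _)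

theorem br_chain (q r : Q) (σ : Zl → Bool) (h : F.B.stpI.St q r σ) (x y : P) :
    ∀ᶠ S : Finset Lam in atTop, ∃ c,
    FCh (S : Set Lam) (E.lat.key (F.B.stpI.ux q)) (E.lat.key (F.B.stpI.ux r)) c ∧
    (∀ e ∈ c, ∀ a, E.lat.bk a e.1 = E.lat.bk a e.2 →
      (hgt (E.lat.tyl e.2) < hgt (E.lat.tyl e.1) ↔ σ a = true)) ∧
    F.path r S x y = act c (F.path q S x y) := by
  obtain ⟨lo, hi, ht⟩ := F.B.brs_thr h
  obtain ⟨ε, hd⟩ : ∃ ε, Dir ε (F.B.stpI.ux q) (F.B.stpI.ux r) := by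
    rcases le_total (F.B.stpI.ux q) (F.B.stpI.ux r) with k | k
    · exact ⟨true, by simpa [Dir] using k⟩
    · exact ⟨false, by simpa [Dir] using k⟩
  refine BSys.zig (F.B.bsys (fun _ => True) (fun _ _ _ => trivial)) σ ε
    (fun q r => ∀ᶠ S : Finset Lam in atTop, ∃ c,
      FCh (S : Set Lam) (E.lat.key (F.B.stpI.ux q)) (E.lat.key (F.B.stpI.ux r)) c ∧
      (∀ e ∈ c, ∀ a, E.lat.bk a e.1 = E.lat.bk a e.2 →
        (hgt (E.lat.tyl e.2) < hgt (E.lat.tyl e.1) ↔ σ a = true)) ∧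
      F.path r S x y = act c (F.path q S x y)) ?_ ?_ ?_ (lo := lo) (hi := hi) ⟨h, hd, ht⟩
  · intro q r h1 h2
    have h3 : F.B.stpI.ux q = F.B.stpI.ux r := h2
    have hm := F.B.brs_mv h1 h3
    refine Eventually.of_forall fun S => ⟨[], ⟨E.lat.key_inj _, E.lat.key_inj _, trivial,
      fun a _ b _ => by rw [← h3]; rfl⟩, by simp, ?_⟩
    unfold Fam.path
    rw [F.mv q r x hm, F.mv q r y hm]
    rfl
  · intro q r h1 h2 h3 h4
    filter_upwards [F.br_chain_mh (F.B.brs_mh h1 h2) x y] with S ⟨c, k1, k2, k3⟩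
    rw [← E.lat_key, ← E.lat_key] at k1
    refine ⟨c, k1, fun e he a ha => ?_, k3⟩
    obtain ⟨-, -, n1, n2⟩ := fch_mem k1 he
    obtain ⟨n3, n4⟩ := cr_BrChain E.lat h3 n1 n2 ha
    rw [h4 a n4]
    exact stat_BrChain E (F.B.w q) n3 ha (k2 e he)
  · intro p q r d d' h1 h2
    filter_upwards [h1, h2] with S ⟨c, k1, k2, k3⟩ ⟨c', j1, j2, j3⟩
    refine ⟨c ++ c', fch_append k1 j1 (fun a _ b _ => mono_BrChain E.lat d d'), fun e he => ?_, ?_⟩
    · exact (List.mem_append.1 he).elim (k2 e) (j2 e)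
    · rw [act_append, ← k3, j3]

end Fam

end Pool.Agent.E5f
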