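import Pool.Agent.E5f.GrpDefs

/-!
The abstract base system (two trees on a set `Q` with an action of the figure-eight group), the
class of limit length functionals and the fibre data.
-/

set_option autoImplicit false

namespace Pool.Agent.E5f

/-- One-sided properties of the base. -/
structure Side {Q : Type} [MulAction G8 Q] (dv dh : Q → Q → ℝ) (dg : G8 → ℤ) (P0 : Q) : Prop where
  hor : ∀ (q : Q) (R : ℝ), 0 ≤ R → ∃ qm qp, dh q qm = 0 ∧ dh q qp = 0 ∧ dv q qm = R ∧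
    dv q qp = R ∧ dv qm qp = 2 * R
  ray : ∀ (p0 : Q) (p : ℕ → Q) (B M : ℝ), 0 ≤ M → (∀ k, dh p0 (p k) ≤ B) →
    (∀ k, M ≤ dv p0 (p k)) →
    (∃ r, dv p0 r = M ∧ {k | dv p0 r + dv r (p k) = dv p0 (p k)}.Infinite) ∨
    (∃ γ : G8, dg γ = 0 ∧ ∃ J : Set ℕ, J.Infinite ∧
      ∀ k ∈ J, ∀ l ∈ J, k ≠ l → Btw dv dh (p k) (γ • P0) (p l))

/-- The base system. -/
structure Base (Q : Type) [MulAction G8 Q] where
  lam : ℝ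
  lam1 : 1 < lam
  dv : Q → Q → ℝ
  dh : Q → Q → ℝ
  dg : G8 → ℤ
  dg_mul : ∀ γ γ', dg (γ * γ') = dg γ + dg γ'
  dg_t : dg g8t = 1 ∨ dg g8t = -1
  dg_c : dg g8c = 0
  bi : BiTree dv dh
  nr : ∃ L : ℝ, 0 < L ∧ NoRect dv dh L L
  sv : ∀ (γ : G8) p q, dv (γ • p) (γ • q) = lam ^ (dg γ) * dv p q
  sh : ∀ (γ : G8) p q, dh (γ • p) (γ • q) = lam ^ (-dg γ) * dh p q
  P0 : Q
  fix_c : dv (g8c • P0) P0 = 0 ∧ dh (g8c • P0) P0 = 0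
  fix_t : dv (g8t • P0) P0 = 0 ∧ dh (g8t • P0) P0 = 0
  dense : ∃ R : ℝ, ∀ q, ∃ γ : G8, dg γ = 0 ∧ dv q (γ • P0) + dh q (γ • P0) ≤ R
  elem : ∀ R : ℝ, ∃ (F : Finset G8) (N : ℕ), ∀ γ : G8, dg γ = 0 →
    dv P0 (γ • P0) + dh P0 (γ • P0) ≤ R →
    ∃ l : List (ℤ × G8 × ℤ), l.length ≤ N ∧ (∀ e ∈ l, e.2.1 ∈ F) ∧
      γ = (l.map (fun e => g8c ^ e.1 * e.2.1 * g8c ^ e.2.2)).prod
  sideV : Side dv dh dg P0
  sideH : Side dh dv dg P0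

/-- One-sided properties of a class `FS` of functions on the base: `FS F z` says that `F` is the
relevant component of a functional of the class whose total length at the base point is `z`. -/
structure FSide {Q : Type} [MulAction G8 Q] (dv dh : Q → Q → ℝ) (dg : G8 → ℤ) (P0 : Q)
    (FS : (Q → ℝ) → ℝ → Prop) : Prop where
  zero : ∀ F z, FS F z → ∀ p q, dv p q = 0 → F p = F q
  cvx : ∀ F z, FS F z → ∀ p q r, dv p q + dv q r = dv p r →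
    dv p r * F q ≤ dv q r * F p + dv p q * F r
  b1 : ∀ F z, FS F z → ∀ p p', F p = 0 → F p' = 0 → 0 < dv p p' → z = 0
  b5l : ∀ F z, FS F z → ∀ (σ : ℝ → Q) (c : ℝ), (∀ s s', dv (σ s) (σ s') = |s - s'|) → 0 < c →
    (∀ s, F (σ s) = c) → ∀ R : ℝ, ∃ P : ℝ → Q, ∀ s s', |s| ≤ R → |s'| ≤ R →
      dv (P s) (σ s) = 0 ∧ dh (P s) (P s') = 0
  b5u : ∀ B : ℝ, ∃ R : ℝ, ∀ N : ℝ, ∃ L η : ℝ, N ≤ L ∧ 0 < η ∧ ∀ F z, FS F z →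
    ∀ (p0 p1 p2 p3 : Q) (s : ℝ), dv p0 p1 = 1 → dv p1 p2 = L → dv p2 p3 = 1 →
      dv p0 p2 = L + 1 → dv p1 p3 = L + 1 → dv p0 p3 = L + 2 → dh p1 p2 ≤ B → 0 < s →
      s ≤ F p1 - F p0 → F p3 - F p2 ≤ (1 + η) * s → F p1 ≤ B * s →
      ∃ γ : G8, dg γ = 0 ∧ dv (γ • P0) p1 ≤ R ∧ ∃ P : ℝ → Q, ∀ τ, 1 ≤ τ → τ ≤ N →
        dh (P τ) (γ • P0) = 0 ∧ dv p1 (P τ) = τ ∧ dv (P τ) p2 = L - τ

/-- A class of pairs of length functionals on the base. -/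
structure FClass {Q : Type} [MulAction G8 Q] (S : Base Q) (q0 : Q)
    (FF : Set ((Q → ℝ) × (Q → ℝ))) : Prop where
  nonneg : ∀ Φ ∈ FF, ∀ q, 0 ≤ Φ.1 q ∧ 0 ≤ Φ.2 q
  inv : ∀ Φ ∈ FF, ∀ γ : G8, ((fun q => S.lam ^ (-S.dg γ) * Φ.1 (γ • q)),
    (fun q => S.lam ^ (S.dg γ) * Φ.2 (γ • q))) ∈ FF
  bound : ∀ q, ∃ K : ℝ, ∀ Φ ∈ FF, Φ.1 q + Φ.2 q ≤ K * (Φ.1 q0 + Φ.2 q0)
  sideV : FSide S.dv S.dh S.dg S.P0 (fun F z => ∃ Φ ∈ FF, F = Φ.1 ∧ z = Φ.1 q0 + Φ.2 q0)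
  sideH : FSide S.dh S.dv S.dg S.P0 (fun F z => ∃ Φ ∈ FF, F = Φ.2 ∧ z = Φ.1 q0 + Φ.2 q0)

/-- The length of the functional `Φ` at the orbit point `γ • q0`. -/
noncomputable def ell {Q : Type} [MulAction G8 Q] (S : Base Q) (q0 : Q)
    (Φ : (Q → ℝ) × (Q → ℝ)) (γ : G8) : ℝ :=
  S.lam ^ (-S.dg γ) * Φ.1 (γ • q0) + S.lam ^ (S.dg γ) * Φ.2 (γ • q0)

/-- No bi-infinite geodesic of the surface group carries a functional of bounded length. -/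
def NoBad {Q : Type} [MulAction G8 Q] (S : Base Q) (q0 : Q) (FF : Set ((Q → ℝ) × (Q → ℝ)))
    {h : ℕ} (A : Arith h) : Prop :=
  ∀ (γ : ℤ → SG h) (Φ : (Q → ℝ) × (Q → ℝ)) (Θ : ℝ),
    (∀ i j : ℤ, gd (cay (sgen h)) (γ i) (γ j) = |(i : ℝ) - (j : ℝ)|) → γ 0 = 1 → Φ ∈ FF →
    Φ.1 q0 + Φ.2 q0 = 1 → (∀ j, ell S q0 Φ (A.ι (γ j)) ≤ Θ) → False

/-- Limits of rescaled length functionals of pairs of points. -/
def LimF {Q P : Type} (dv dh : Q → P → P → ℝ) : Set ((Q → ℝ) × (Q → ℝ)) :=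
  {Φ | ∀ (T : Finset Q) (ε : ℝ), 0 < ε → ∃ (x y : P) (t : ℝ), 0 < t ∧ t ≤ ε ∧
    ∀ q ∈ T, |t * dv q x y - Φ.1 q| ≤ ε ∧ |t * dh q x y - Φ.2 q| ≤ ε}

/-- Limits of rescaled length functionals, one component. -/
def LimF1 {Q P : Type} (dv : Q → P → P → ℝ) : Set (Q → ℝ) :=
  {F | ∀ (T : Finset Q) (ε : ℝ), 0 < ε → ∃ (x y : P) (t : ℝ), 0 < t ∧ t ≤ ε ∧
    ∀ q ∈ T, |t * dv q x y - F q| ≤ ε}

/-- A point of the base where the fibre metric is hyperbolic, roughly geodesic and proper. -/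
structure Thick {P : Type} (d : P → P → ℝ) : Prop where
  hyp : ∃ δ, Hyp d δ
  rg : ∃ κ, 0 ≤ κ ∧ RG d κ
  fin : ∀ (x : P) (R : ℝ), {y | d x y ≤ R}.Finite

/-- Fibre data over the base system. -/
structure Fib {Q : Type} [MulAction G8 Q] (S : Base Q) (q0 : Q) (P : Type) where
  dv : Q → P → P → ℝ
  dh : Q → P → P → ℝ
  pv : ∀ q, PM (dv q)
  ph : ∀ q, PM (dh q)
  φ : OG 3 2 →* Equiv.Perm P
  inj : Function.Injective φ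
  s : G8 →* Equiv.Perm P
  norm : ∀ γ o, ∃ o', s γ * φ o * (s γ)⁻¹ = φ o'
  inv_v : ∀ q o x y, dv q (φ o x) (φ o y) = dv q x y
  inv_h : ∀ q o x y, dh q (φ o x) (φ o y) = dh q x y
  eq_v : ∀ (γ : G8) q x y, dv (γ • q) (s γ x) (s γ y) = S.lam ^ (S.dg γ) * dv q x y
  eq_h : ∀ (γ : G8) q x y, dh (γ • q) (s γ x) (s γ y) = S.lam ^ (-S.dg γ) * dh q x y
  thick : Thick (fun x y => dv q0 x y + dh q0 x y)
  ne : Nonempty P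
  orb : ∃ T : Finset P, ∀ x, ∃ o, ∃ y ∈ T, x = φ o y
  stab : ∀ x, {o | φ o x = x}.Finite

end Pool.Agent.E5f
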