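import Pool.Agent.E5f.LsDefs
import Pool.Agent.E5f.SysDefs

/-!
The interface between the model and the one-sided properties of limit functionals:
lattice data, markers, steps, touches, routes, and paths in the fibre.
-/

set_option autoImplicit false

namespace Pool.Agent.E5f

open Classical Filter

/-- Markers: a real number and a side. -/
abbrev Mx : Type := ℝ ×ₗ Bool

/-- Lattice data: two embeddings and three multipliers; `ty i` is the type of the index `i`
(0 slow, 1 middle, 2 fast), `w`, `w'` are the speeds of the types in the two directions. -/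
structure Lat (O : Type) [AddCommGroup O] where
  ξ : O →+ ℝ
  η : O →+ ℝ
  μ : Fin 3 → O →+ O
  ty : Fin 3 ≃ Fin 3
  w : Fin 3 → ℝ
  w' : Fin 3 → ℝ
  ξμ : ∀ i a, ξ (μ i a) = w (ty i) * ξ a
  ημ : ∀ i a, η (μ i a) = w' (ty i) * η a
  w0 : w 0 = 0
  w1 : 0 < w 1
  w2 : w 1 < w 2
  w'0 : w' 0 = 0
  w'2 : 0 < w' 2
  w'1 : w' 2 < w' 1
  unit : ∀ i j, i ≠ j → ∀ d, ∃ a, μ i a - μ j a = d
  norm : ∀ a, a ≠ 0 → 1 ≤ |ξ a| * |η a|
  disc : ∀ R : ℝ, {a | |ξ a| ≤ R ∧ |η a| ≤ R}.Finite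
  densx : ∀ t : ℝ, 0 < t → ∃ H : ℝ, ∀ x y : ℝ, ∃ a, x < ξ a ∧ ξ a < x + t ∧ y < η a ∧ η a < y + H

namespace Lat
variable {O : Type} [AddCommGroup O] (E : Lat O)

/-- The speed of a label. -/
def sp (ν : Fin 3 × O) : ℝ := E.w (E.ty ν.1)

/-- The position of a label over the real coordinate `x`. -/
def pos (x : ℝ) (ν : Fin 3 × O) : ℝ := E.ξ ν.2 + E.sp ν * x

/-- The order of the labels at a marker. -/
noncomputable def key (u : Mx) (ν : Fin 3 × O) : ℝ ×ₗ ℝ :=
  toLex (E.pos (ofLex u).1 ν, if (ofLex u).2 = true then E.sp ν else - E.sp ν)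

/-- The block of a label at the lattice point `a`. -/
def bk (a : O) (ν : Fin 3 × O) : O := ν.2 + E.μ ν.1 a

/-- The type of a label. -/
def tyl (ν : Fin 3 × O) : Fin 3 := E.ty ν.1

/-- The lattice point `a` is crossed between two markers. -/
def Cr (u u' : Mx) (a : O) : Prop :=
  (u ≤ toLex (E.ξ a, false) ∧ toLex (E.ξ a, true) ≤ u') ∨
    (u' ≤ toLex (E.ξ a, false) ∧ toLex (E.ξ a, true) ≤ u)

/-- The status function of a level: true for the points below the level. -/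
noncomputable def lev (v : Mx) (a : O) : Bool := decide (toLex (E.η a, true) ≤ v)

/-- Thresholds for a status function between two markers. -/
def Thr (lo hi : ℝ) (u u' : Mx) (σ : O → Bool) : Prop :=
  ∀ a, E.Cr u u' a → (E.η a < lo → σ a = true) ∧ (hi < E.η a → σ a = false)

end Lat

/-- The markers are in the order given by the direction `ε`. -/
def Dir (ε : Bool) (u u' : Mx) : Prop := if ε = true then u ≤ u' else u' ≤ u

/-- Coordinates and steps on the base. -/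
structure Stp {O : Type} [AddCommGroup O] (E : Lat O) (Q : Type) where
  ux : Q → Mx
  uy : Q → Mx
  St : Q → Q → (O → Bool) → Prop

namespace Stp
variable {O : Type} [AddCommGroup O] {E : Lat O} {Q : Type} (T : Stp E Q)

/-- First coordinate. -/
def px (q : Q) : ℝ := (ofLex (T.ux q)).1

/-- Side of the first coordinate. -/
def sx (q : Q) : Bool := (ofLex (T.ux q)).2

/-- Second coordinate. -/
def py (q : Q) : ℝ := (ofLex (T.uy q)).1

/-- A sequence of `n` passes across `a` with alternating status. -/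
def Mic (a : O) : ℕ → Bool → Q → Q → Prop
  | 0, _, q, q' => q' = q
  | n + 1, σ, q, q' => ∃ q1, T.px q = E.ξ a ∧ T.ux q1 = toLex (E.ξ a, !T.sx q) ∧
      T.St q q1 (fun _ => σ) ∧ Mic a n (!σ) q1 q'

/-- An essential touch at `a`. -/
def Tch (a : O) (q q' : Q) : Prop := ∃ n σ, 2 ≤ n ∧ T.Mic a n σ q q'

/-- A step in direction `ε` with thresholds. -/
structure DSt (lo hi : ℝ) (ε : Bool) (q r : Q) (σ : O → Bool) : Prop where
  st : T.St q r σ
  dir : Dir ε (T.ux q) (T.ux r)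
  thr : E.Thr lo hi (T.ux q) (T.ux r) σ

/-- Routes: start, direction, end, direction, length, number of touches. -/
inductive Rt (lo hi : ℝ) : Q → Bool → Q → Bool → ℝ → ℕ → Prop
  | one (q r : Q) (ε : Bool) (σ : O → Bool) : T.DSt lo hi ε q r σ →
      Rt lo hi q ε r ε |T.px r - T.px q| 0
  | cons (q b b' r : Q) (ε ε' : Bool) (σ : O → Bool) (a : O) (l : ℝ) (n : ℕ) :
      T.DSt lo hi ε q b σ → T.sx b = !ε → T.Tch a b b' → Rt lo hi b' (T.sx b') r ε' l n →
      Rt lo hi q ε r ε' (|T.px b - T.px q| + l) (n + 1)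

/-- The point `z` with direction `e` lies on a route from `p` to `r`. -/
def OnR (lo hi : ℝ) (p : Q) (ε : Bool) (r : Q) (ε' : Bool) (z : Q) (e : Bool) : Prop :=
  (∃ l n, T.Rt lo hi p ε z e l n) ∧ ∃ l n, T.Rt lo hi z e r ε' l n

/-- The point `a` has status `s` in the closed window of the step from `A` to `B`: it is crossed
with status `s`, or it is touched just before `A` or just after `B`. -/
def WS (A B : Q) (ε : Bool) (σ : O → Bool) (s : Bool) (a : O) : Option (Q × Q) → Prop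
  | none => E.Cr (T.ux A) (T.ux B) a ∧ σ a = s
  | some z => T.Tch a z.1 z.2 ∧ ((z.2 = A ∧ T.sx A = ε) ∨ (z.1 = B ∧ T.sx B = !ε))

end Stp

/-- Axioms on the base. -/
structure BSys {O : Type} [AddCommGroup O] (E : Lat O) {Q : Type} (dv dh : Q → Q → ℝ)
    (Cu : Q → Prop) extends Stp E Q where
  pv : PM dv
  ph : PM dh
  hv : Hyp dv 0
  symm : ∀ q r σ, St q r σ → St r q σ
  congr : ∀ q r σ σ', St q r σ → (∀ a, E.Cr (ux q) (ux r) a → σ' a = σ a) → St q r σ'
  trans : ∀ ε p q r σ, St p q σ → St q r σ → Dir ε (ux p) (ux q) → Dir ε (ux q) (ux r) → St p r σ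
  split : ∀ ε p r σ u, St p r σ → Dir ε (ux p) u → Dir ε u (ux r) →
    ∃ q, ux q = u ∧ St p q σ ∧ St q r σ
  det : ∀ p q r σ, St p q σ → St p r σ → ux q = ux r → St q r σ
  st_dv : ∀ q r σ, St q r σ → dv q r = |toStp.px r - toStp.px q|
  st_vert : ∀ q r σ, St q r σ → ux q = ux r → dh q r = |toStp.py r - toStp.py q|
  st_hor : ∀ q r, St q r (E.lev (uy q)) → uy q = uy r → dh q r = 0
  vert : ∀ q v σ, ∃ r, ux r = ux q ∧ uy r = v ∧ St q r σ
  hor : ∀ q u, ∃ r, ux r = u ∧ uy r = uy q ∧ St q r (E.lev (uy q))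
  cusp : ∀ q a, toStp.px q = E.ξ a → toStp.py q = E.η a → ∃ z, Cu z ∧ dv z q = 0 ∧ dh z q = 0
  route : ∀ p r, ∃ ε ε' n,
    toStp.Rt (toStp.py p - dh p r) (toStp.py p + dh p r) p ε r ε' (dv p r) n

/-- Axioms on the base and the fibre. -/
structure FSys {O : Type} [AddCommGroup O] (E : Lat O) {Q P : Type} (dv dh : Q → Q → ℝ)
    (Cu : Q → Prop) (fv fh : Q → P → P → ℝ) extends BSys E dv dh Cu where
  path : Q → Finset (Fin 3 × O) → P → P → List (Fin 3 × O)
  fpm : ∀ q, PM (fv q)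
  fpm' : ∀ q, PM (fh q)
  ev : ∀ q x y, ∀ᶠ S in atTop, fv q x y = Var ((path q S x y).map (E.pos (toStp.px q)))
  pth : ∀ q x y, ∀ᶠ S : Finset (Fin 3 × O) in atTop, Pth (S : Set (Fin 3 × O)) (path q S x y)
  box : ∀ q x y, ∃ (T : Finset (Fin 3 × O)) (Y : ℝ), ∀ᶠ S : Finset (Fin 3 × O) in atTop,
    (∀ ν, EndT (E.key (ux q)) (path q S x y) ν → ν ∈ T) ∧
    (∀ ν ∈ path q S x y, -Y ≤ E.η ν.2) ∧
    (∀ ν ∈ S, Y < E.η ν.2 → ¬ Skip (E.key (ux q)) (path q S x y) ν)
  chain : ∀ q r σ, St q r σ → ∀ x y, ∀ᶠ S : Finset (Fin 3 × O) in atTop, ∃ c,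
    FCh (S : Set (Fin 3 × O)) (E.key (ux q)) (E.key (ux r)) c ∧
    (∀ e ∈ c, ∀ a, E.bk a e.1 = E.bk a e.2 →
      (hgt (E.tyl e.2) < hgt (E.tyl e.1) ↔ σ a = true)) ∧
    path r S x y = act c (path q S x y)
  two : ∀ q r, St q r (E.lev (uy q)) → uy q = uy r → toStp.px q ≠ toStp.px r →
    toStp.px q ∉ Set.range E.ξ → toStp.px r ∉ Set.range E.ξ → toStp.py q ∉ Set.range E.η →
    Thick (fun x y => fv q x y + fh q x y) ∧
      ∃ c C : ℝ, 0 < c ∧ ∀ x y, c * fh q x y - C ≤ fv q x y + fv r x y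

namespace FSys
variable {O : Type} [AddCommGroup O] {E : Lat O} {Q P : Type} {dv dh : Q → Q → ℝ}
  {Cu : Q → Prop} {fv fh : Q → P → P → ℝ} (Y : FSys E dv dh Cu fv fh)

/-- The slope at `q` in direction `ε`. -/
noncomputable def sl (S : Finset (Fin 3 × O)) (x y : P) (q : Q) (ε : Bool) : ℝ :=
  (if ε = true then 1 else -1) * lin (E.key (Y.ux q)) E.sp (Y.path q S x y)

/-- The number of turns at `q`. -/
noncomputable def tu (S : Finset (Fin 3 × O)) (x y : P) (q : Q) : ℝ :=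
  turns (E.key (Y.ux q)) (Y.path q S x y)

/-- The slope gain at a touch from `z` to `z'`. -/
noncomputable def tg (S : Finset (Fin 3 × O)) (x y : P) (z z' : Q) : ℝ :=
  Y.sl S x y z' (Y.toStp.sx z') - Y.sl S x y z (!Y.toStp.sx z)

/-- The chain of a step. -/
structure CH (S : Finset (Fin 3 × O)) (x y : P) (q r : Q) (σ : O → Bool) (c : List ((Fin 3 × O) × (Fin 3 × O))) : Prop where
  fch : FCh (S : Set (Fin 3 × O)) (E.key (Y.ux q)) (E.key (Y.ux r)) c
  stat : ∀ e ∈ c, ∀ a, E.bk a e.1 = E.bk a e.2 →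
    (hgt (E.tyl e.2) < hgt (E.tyl e.1) ↔ σ a = true)
  eq : Y.path r S x y = act c (Y.path q S x y)
  pth : Pth (S : Set (Fin 3 × O)) (Y.path q S x y)

end FSys

end Pool.Agent.E5f
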