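import Pool.Agent.E5f.MoDefs

set_option autoImplicit false

namespace Pool.Agent.E5f

open Filter Classical

section
variable {L C : Type} [CommGroup C]

/-- A configuration which consists of `n` translates of the golden lattice. -/
structure Grid (Z : Cfg L) (n : ℕ) where
  e : L ≃ Fin n × ℤ × ℤ
  ox : Fin n → ℝ
  oy : Fin n → ℝ
  hx : ∀ l, Z.x l = ox (e l).1 + (e l).2.1 + Real.goldenRatio * (e l).2.2
  hy : ∀ l, Z.y l = oy (e l).1 + (e l).2.1 + Real.goldenConj * (e l).2.2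
  ox0 : ∀ i, 0 ≤ ox i
  ox1 : ∀ i, ox i < Real.goldenRatio
  inj : Function.Injective Z.x

namespace Grid
variable {Z : Cfg L} {n : ℕ} (G : Grid Z n)

/-- Translation of labels. -/
def tv (v : ℤ × ℤ) : Equiv.Perm L :=
  (G.e.trans (Equiv.prodCongr (Equiv.refl _) (Equiv.addRight v))).trans G.e.symm

/-- The first generator. -/
noncomputable def pa (c : C) : Big L C :=
  ⟨stp c Z.X (Rs Z.x (0, false)) (Rs Z.x (1, false)) {l | 1 ≤ (G.e l).2.1}, G.tv (1, 0)⟩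

/-- The second generator. -/
noncomputable def pb (c : C) : Big L C :=
  ⟨stp c Z.X (Rs Z.x (0, false)) (Rs Z.x (Real.goldenRatio, false)) {l | 0 ≤ (G.e l).2.1},
    G.tv (0, 1)⟩

/-- The translations which preserve the class of the trivial word at the cut `0`. -/
def Gam (c : C) : Set (Big L C) :=
  {z | ∃ v b, z.right = G.tv v ∧
    BoxW c Z b (Rs Z.x (0, false)) (G.tv v '' Rs Z.x (0, false)) z.left}

end Grid

end

/-- The action of the figure-eight group on a planar model of the base. -/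
structure BAct {Q : Type} [MulAction G8 Q] (B : Plan cz E0.bc Q) (P0 : Q) where
  ρ : G8 →* Big Zl CZ
  e : G8 → Zl
  rt : ∀ γ p, (ρ γ).right p = ((E0.uω ^ (2 * g8deg γ) : Zlˣ) : Zl) * p + e γ
  hg : ∀ γ q, B.g (γ • q) = (ρ γ).left * rlA (ρ γ).right (B.g q)
  hu : ∀ γ q, B.u (γ • q) =
    ((Real.goldenRatio ^ 2) ^ (g8deg γ) * (B.u q).1 + E0.ξ (e γ), (B.u q).2)
  hw : ∀ γ q, B.w (γ • q) =
    ((Real.goldenRatio ^ 2) ^ (-g8deg γ) * (B.w q).1 + E0.η (e γ), (B.w q).2)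
  g0 : B.g P0 = 1
  c0 : B.Cusp 0 P0
  hc : (ρ g8c).left = emb (lt 0 cz⁻¹) ∧ e g8c = 0
  ht : (ρ g8t).left = 1 ∧ e g8t = 0
  cusp : ∀ r a, B.Cusp a r → ∃ γ : G8, g8deg γ = 0 ∧ γ • P0 = r
  free : ∀ γ : G8, g8deg γ = 0 → γ • P0 = P0 → γ = 1

end Pool.Agent.E5f
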