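import Pool.Agent.E5f.MoOp
import Pool.Agent.E5f.MoDefs2
import Pool.Agent.E5f.FsDefs

/-!
The bridge from the model to the interface: lattice data, steps and paths.
-/

set_option autoImplicit false

namespace Pool.Agent.E5f

open Classical

/-- The types sorted by speed. -/
noncomputable def Emb.ty (E : Emb) : Fin 3 ≃ Fin 3 :=
  if E.md = 1 then Equiv.refl _ else Equiv.swap 1 2

theorem Emb.ty_symm (E : Emb) :
    E.ty.symm 0 = 0 ∧ E.ty.symm 1 = E.md ∧ E.ty.symm 2 = E.fs := by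
  have h1 := E.md0
  have h2 := E.fs0
  have h3 := E.mf
  unfold Emb.ty
  split_ifs with h
  · refine ⟨rfl, h.symm, ?_⟩
    show (2 : Fin 3) = E.fs
    omega
  · refine ⟨by decide, ?_, ?_⟩
    · show (2 : Fin 3) = E.md
      omega
    · show (1 : Fin 3) = E.fs
      omega

/-- The lattice data of the interface. -/
noncomputable def Emb.lat (E : Emb) : Lat Zl where
  ξ := E.ξ.toAddMonoidHom
  η := E.η.toAddMonoidHom
  μ := fun i => AddMonoidHom.mulLeft (E.μ i)
  ty := E.ty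
  w := fun j => E.m (E.ty.symm j)
  w' := fun j => E.tr.m (E.ty.symm j)
  ξμ := fun i a => by simp [Emb.m]
  ημ := fun i a => by simp [Emb.m]
  w0 := by rw [E.ty_symm.1, E.m_zero]
  w1 := by rw [E.ty_symm.2.1]; exact E.m_md_pos
  w2 := by rw [E.ty_symm.2.1, E.ty_symm.2.2]; exact E.m_md_lt
  w'0 := by rw [E.ty_symm.1, E.tr.m_zero]
  w'2 := by rw [E.ty_symm.2.2]; exact E.tr.m_md_pos
  w'1 := by rw [E.ty_symm.2.1, E.ty_symm.2.2]; exact E.tr.m_md_lt
  unit := fun i j h d => by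
    obtain ⟨v, hv⟩ := (E.unit_sub h).exists_right_inv
    refine ⟨v * d, ?_⟩
    show E.μ i * (v * d) - E.μ j * (v * d) = d
    linear_combination d * hv
  norm := fun _ ha => E.norm_ge' ha
  disc := E.box_fin
  densx := fun t ht => ⟨27 / t, fun x y => E.den_box x y t (27 / t) ht (by
    rw [mul_div_cancel₀ _ ht.ne'])⟩

@[simp] theorem Emb.lat_ξ (E : Emb) (a : Zl) : E.lat.ξ a = E.ξ a := rfl
@[simp] theorem Emb.lat_η (E : Emb) (a : Zl) : E.lat.η a = E.η a := rfl
@[simp] theorem Emb.lat_sp (E : Emb) (l : Lam) : E.lat.sp l = E.m l.1 := by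
  simp [Lat.sp, Emb.lat]
@[simp] theorem Emb.lat_pos (E : Emb) : E.lat.pos = E.pos := by
  funext x l; simp [Lat.pos, Emb.pos]
theorem Emb.lat_key (E : Emb) (u : Mk) : E.lat.key (toLex u) = E.key u := by
  funext l
  unfold Lat.key
  rw [E.lat_pos, E.lat_sp]
  rfl
theorem Emb.lat_bk (E : Emb) (a : Zl) (l : Lam) : E.lat.bk a l = l.2 + E.μ l.1 * a := rfl

theorem mem_Rs_iff {L : Type} (ρ : L → ℝ) (u : Mk) (l : L) :
    l ∈ Rs ρ u ↔ toLex u ≤ toLex (ρ l, false) := by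
  obtain ⟨x, s⟩ := u
  rw [Prod.Lex.toLex_le_toLex]
  cases s <;> simp [Rs]

theorem not_mem_Rs_iff {L : Type} (ρ : L → ℝ) (u : Mk) (l : L) :
    l ∉ Rs ρ u ↔ toLex (ρ l, true) ≤ toLex u := by
  obtain ⟨x, s⟩ := u
  rw [Prod.Lex.toLex_le_toLex]
  rcases lt_trichotomy x (ρ l) with h | h | h
  · simp [Rs, h, h.not_gt, h.ne']
  · subst h; cases s <;> simp [Rs]
  · simp [Rs, h, h.not_gt, h.ne']

theorem Emb.cr_iff (E : Emb) (u u' : Mk) (a : Zl) : E.lat.Cr (toLex u) (toLex u') a ↔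
    ¬ (a ∈ Rs E.ξ u ↔ a ∈ Rs E.ξ u') := by
  unfold Lat.Cr
  simp only [E.lat_ξ, ← mem_Rs_iff, ← not_mem_Rs_iff]
  tauto

theorem Emb.lev_iff (E : Emb) (v : Mk) (a : Zl) :
    E.lat.lev (toLex v) a = false ↔ a ∈ Rs E.η v := by
  unfold Lat.lev
  simp only [E.lat_η, ← not_mem_Rs_iff, decide_eq_false_iff_not, not_not]

/-- Steps of a planar model of the base in the form of the interface. -/
def Plan.stpI {E : Emb} {Q : Type} (B : Plan cz E.bc Q) : Stp E.lat Q where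
  ux := fun q => toLex (B.u q)
  uy := fun q => toLex (B.w q)
  St := fun q r σ => ∃ D, B.Step D q r ∧
    ∀ a, E.lat.Cr (toLex (B.u q)) (toLex (B.u r)) a → (σ a = true ↔ a ∉ D)

/-- The path of labels between two fibre points at the level `S`. -/
noncomputable def Fam.path {E : Emb} {Q P : Type} (F : Fam E Q P) (q : Q) (S : Finset Lam)
    (x y : P) : List Lam :=
  cpl (F.lb x, pj S (F.gv q x)) (F.lb y, pj S (F.gv q y))

end Pool.Agent.E5f
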