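import Pool.Agent.E5f.HypDefs

/-! Two trees with common geodesics and no big rectangles give a hyperbolic space. -/

set_option autoImplicit false

namespace Pool.Agent.E5f

section Tree

variable {X : Type} {d : X → X → ℝ}

theorem nonneg_HypBi (hd : PM d) (x y : X) : 0 ≤ d x y := by
  have h1 := hd.tri x y x
  have h2 := hd.self x
  have h3 := hd.symm x y
  linarith

theorem congr_HypBi (hd : PM d) {p p' : X} (h : d p p' = 0) (u : X) : d p u = d p' u := by
  have h1 := hd.tri p p' u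
  have h2 := hd.tri p' p u
  have h3 := hd.symm p p'
  linarith

theorem gp_symm_HypBi (hd : PM d) (w x y : X) : gp d w x y = gp d w y x := by
  unfold gp
  rw [hd.symm x y]
  ring

theorem gp_le_HypBi (hd : PM d) (w x y : X) : gp d w x y ≤ d w x ∧ gp d w x y ≤ d w y := by
  unfold gp
  have h1 := hd.tri y x w
  have h2 := hd.tri x y w
  have h3 := hd.symm x y
  have h4 := hd.symm w x
  have h5 := hd.symm w y
  constructor <;> linarith

theorem gp_nonneg_HypBi (hd : PM d) (w x y : X) : 0 ≤ gp d w x y := by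
  unfold gp
  have h1 := hd.tri x w y
  have h5 := hd.symm w y
  linarith

theorem gp_on_HypBi (hd : PM d) {x p y : X} (h : d x p + d p y = d x y) : gp d x p y = d x p := by
  unfold gp
  have h4 := hd.symm x p
  have h5 := hd.symm x y
  linarith

theorem ultra_HypBi (hh : Hyp d 0) {w x y z : X} {s : ℝ} (h1 : s ≤ gp d w x y)
    (h2 : s ≤ gp d w y z) : s ≤ gp d w x z := by
  have h := hh w x y z
  have h3 := le_min h1 h2
  linarith

/-- Points at the same distance on the common part of two geodesics coincide. -/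
theorem same_HypBi (hd : PM d) (hh : Hyp d 0) {x y z p p' : X} (h1 : d x p + d p y = d x y)
    (h2 : d x p' + d p' z = d x z) (h3 : d x p = d x p') (h4 : d x p ≤ gp d x y z) :
    d p p' = 0 := by
  have a1 : d x p ≤ gp d x p y := (gp_on_HypBi hd h1).ge
  have a2 : d x p ≤ gp d x z p' := by rw [gp_symm_HypBi hd, gp_on_HypBi hd h2, h3]
  have a3 := ultra_HypBi hh (ultra_HypBi hh a1 h4) a2
  unfold gp at a3
  have b1 := hd.symm x p
  have b2 := hd.symm x p'
  have b3 := nonneg_HypBi hd p p'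
  linarith

/-- Geodesic segments of a tree are convex. -/
theorem conv_HypBi (hd : PM d) (hh : Hyp d 0) {x z p p' q : X} (h1 : d x p + d p z = d x z)
    (h2 : d x p' + d p' z = d x z) (h3 : d p q + d q p' = d p p') : d x q + d q z = d x z := by
  have a1 : min (d x p) (d x p') ≤ gp d x p z := by
    rw [gp_on_HypBi hd h1]
    exact min_le_left _ _
  have a2 : min (d x p) (d x p') ≤ gp d x z p' := by
    rw [gp_symm_HypBi hd, gp_on_HypBi hd h2]
    exact min_le_right _ _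
  have a3 := ultra_HypBi hh a1 a2
  unfold gp at a3
  have b1 := hd.symm x p
  have b2 := hd.symm x p'
  have b3 := hd.symm p q
  have b4 := hd.symm p' q
  have c1 := hd.tri x q z
  have c2 := hd.tri x p q
  have c3 := hd.tri x p' q
  have c4 := hd.tri q p z
  have c5 := hd.tri q p' z
  rcases min_le_iff.1 a3 with a4 | a4 <;> linarith

/-- Seen from `p` on `[x, y]`, the segment `[x, z]` lies behind the branch point. -/
theorem far_HypBi (hd : PM d) (hh : Hyp d 0) {x y z p e e' : X} (h1 : d x p + d p y = d x y)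
    (h2 : d x e + d e z = d x z) (h3 : d x e' + d e' z = d x z) :
    d x p - gp d x y z ≤ gp d p e e' := by
  have key : ∀ u, d x u + d u z = d x z → d x p - gp d x y z ≤ gp d p x u := by
    intro u hu
    have a1 : gp d x p u ≤ gp d x y p := by
      rw [gp_symm_HypBi hd x y p, gp_on_HypBi hd h1]
      exact (gp_le_HypBi hd x p u).1
    have a2 : gp d x p u ≤ gp d x u z := by
      rw [gp_on_HypBi hd hu]
      exact (gp_le_HypBi hd x p u).2
    have a3 := ultra_HypBi hh (ultra_HypBi hh a1 le_rfl) a2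
    have a4 : gp d p x u = d x p - gp d x p u := by
      unfold gp
      have b1 := hd.symm x p
      have b2 := hd.symm x u
      have b3 := hd.symm p u
      linarith
    linarith
  have a1 := key e h2
  rw [gp_symm_HypBi hd p x e] at a1
  exact ultra_HypBi hh a1 (key e' h3)

theorem gp_add_HypBi (hd : PM d) (x y z : X) : gp d x y z + gp d y x z = d x y := by
  unfold gp
  have b1 := hd.symm x y
  have b2 := hd.symm x z
  have b3 := hd.symm y z
  linarith

end Tree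

theorem BiTree.pm {X : Type} {dv dh : X → X → ℝ} (h : BiTree dv dh) {α β : ℝ} (hα : 0 ≤ α)
    (hβ : 0 ≤ β) : PM (fun p q => α * dv p q + β * dh p q) := by
  refine ⟨fun x => ?_, fun x y => ?_, fun x y z => ?_⟩
  · simp only [h.pv.self, h.ph.self, mul_zero, add_zero]
  · simp only [h.pv.symm x y, h.ph.symm x y]
  · have h1 := mul_le_mul_of_nonneg_left (h.pv.tri x y z) hα
    have h2 := mul_le_mul_of_nonneg_left (h.ph.tri x y z) hβ
    show α * dv x z + β * dh x z ≤ α * dv x y + β * dh x y + (α * dv y z + β * dh y z)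
    linarith

theorem BiTree.rg {X : Type} {dv dh : X → X → ℝ} (h : BiTree dv dh) {α β : ℝ} (hα : 0 ≤ α)
    (hβ : 0 ≤ β) : RG (fun p q => α * dv p q + β * dh p q) 0 := by
  intro x y s hs hs'
  obtain ⟨r, ⟨h1, h2⟩, h3⟩ := h.geo α β x y s hα hβ hs hs'
  refine ⟨r, ?_, ?_⟩
  · show |α * dv x r + β * dh x r - s| ≤ 0
    rw [h3, sub_self, abs_zero]
  · show |α * dv r y + β * dh r y - (α * dv x y + β * dh x y - s)| ≤ 0
    rw [← h1, ← h2, ← h3]
    have e : α * dv r y + β * dh r y -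
      (α * (dv x r + dv r y) + β * (dh x r + dh r y) - (α * dv x r + β * dh x r)) = 0 := by ring
    rw [e, abs_zero]

theorem BiTree.swap {X : Type} {dv dh : X → X → ℝ} (h : BiTree dv dh) : BiTree dh dv := by
  refine ⟨h.ph, h.pv, h.hh, h.hv, fun α β p q s hα hβ hs hs' => ?_⟩
  obtain ⟨r, ⟨h1, h2⟩, h3⟩ := h.geo β α p q s hβ hα hs (by linarith)
  exact ⟨r, ⟨h2, h1⟩, by linarith⟩

section Slim

variable {X : Type} {dv dh : X → X → ℝ} {A B : ℝ}

theorem geoV_HypBi (h : BiTree dv dh) (p q : X) {s : ℝ} (hs : 0 ≤ s) (hs' : s ≤ dv p q) :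
    ∃ r, Btw dv dh p r q ∧ dv p r = s := by
  obtain ⟨r, h1, h2⟩ := h.geo 1 0 p q s zero_le_one le_rfl hs (by linarith)
  exact ⟨r, h1, by linarith⟩

theorem geoH_HypBi (h : BiTree dv dh) (p q : X) {s : ℝ} (hs : 0 ≤ s) (hs' : s ≤ dh p q) :
    ∃ r, Btw dv dh p r q ∧ dh p r = s := by
  obtain ⟨r, h1, h2⟩ := h.geo 0 1 p q s le_rfl zero_le_one hs (by linarith)
  exact ⟨r, h1, by linarith⟩

theorem noRect_swap_HypBi (hn : NoRect dv dh A B) : NoRect dh dv B A :=
  fun p00 p10 p01 p11 h1 h2 h3 h4 h5 h6 => hn p00 p01 p10 p11 h3 h4 h1 h2 h6 h5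

theorem btw_symm_HypBi (h : BiTree dv dh) {x p y : X} (hb : Btw dv dh x p y) : Btw dv dh y p x := by
  obtain ⟨h1, h2⟩ := hb
  constructor
  · rw [h.pv.symm y p, h.pv.symm p x, h.pv.symm y x]
    linarith
  · rw [h.ph.symm y p, h.ph.symm p x, h.ph.symm y x]
    linarith

theorem zero_HypBi {d : X → X → ℝ} (hd : PM d) {p r q : X} (h : d p r + d r q = d p q)
    (h0 : d p q = 0) : d p r = 0 := by
  have h1 := nonneg_HypBi hd p r
  have h2 := nonneg_HypBi hd r q
  linarith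

theorem gp_self_HypBi {d : X → X → ℝ} (hd : PM d) (w x : X) : gp d w x x = d w x := by
  unfold gp
  rw [hd.self, hd.symm w x]
  ring

theorem corner_HypBi (h : BiTree dv dh) (hA : 0 ≤ A) (hB : 0 ≤ B) (hn : NoRect dv dh A B)
    {p p' p'' : X} (h1 : dv p p' = 0) (h2 : dh p p'' = 0) :
    ∃ q, Btw dv dh p' q p'' ∧ dv p q ≤ A ∧ dh p q ≤ B := by
  by_cases ha : dv p p'' ≤ A
  · refine ⟨p'', ⟨?_, ?_⟩, ha, by linarith⟩
    · rw [h.pv.self, add_zero]
    · rw [h.ph.self, add_zero]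
  push Not at ha
  have e1 := congr_HypBi h.pv h1
  have e2 := congr_HypBi h.ph h2
  obtain ⟨q, hq, hq'⟩ := geoV_HypBi h p' p'' hA (by rw [← e1]; exact ha.le)
  by_cases hb : dh p q ≤ B
  · exact ⟨q, hq, by rw [e1, hq'], hb⟩
  push Not at hb
  exfalso
  have hqv : dv p q + dv q p'' = dv p p'' := by rw [e1, e1]; exact hq.1
  have hqh : dh p q + dh q p' = dh p p' := by
    rw [e2, e2]
    exact (btw_symm_HypBi h hq).2
  obtain ⟨c1, hc1, hc1'⟩ := geoV_HypBi h p p'' hA ha.le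
  obtain ⟨c2, hc2, hc2'⟩ := geoH_HypBi h p p' (nonneg_HypBi h.ph p q)
    (by have := nonneg_HypBi h.ph q p'; linarith)
  refine hn p c1 c2 q (zero_HypBi h.ph hc1.2 h2) ?_ (zero_HypBi h.pv hc2.1 h1) ?_ hc1'.ge
    (by linarith)
  · refine same_HypBi h.ph h.hh hc2.2 hqh hc2' ?_
    rw [gp_self_HypBi h.ph]
    have := nonneg_HypBi h.ph c2 p'
    linarith [hc2.2]
  · refine same_HypBi h.pv h.hv hc1.1 hqv (by rw [hc1', e1, hq']) ?_
    rw [gp_self_HypBi h.pv]
    linarith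

theorem btw_conv_HypBi (h : BiTree dv dh) {x z p p' q : X} (h1 : Btw dv dh x p z)
    (h2 : Btw dv dh x p' z) (h3 : Btw dv dh p q p') : Btw dv dh x q z :=
  ⟨conv_HypBi h.pv h.hv h1.1 h2.1 h3.1, conv_HypBi h.ph h.hh h1.2 h2.2 h3.2⟩

/-- A point of `[x, z]` with the same first coordinate as `p`. -/
theorem shadow_HypBi (h : BiTree dv dh) {x y z p : X} (hb : Btw dv dh x p y)
    (hv : dv x p ≤ gp dv x y z) : ∃ p', Btw dv dh x p' z ∧ dv p p' = 0 := by
  obtain ⟨p', h1, h2⟩ := geoV_HypBi h x z (nonneg_HypBi h.pv x p)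
    (hv.trans (gp_le_HypBi h.pv x y z).2)
  exact ⟨p', h1, same_HypBi h.pv h.hv hb.1 h1.1 h2.symm hv⟩

theorem btw_swap_HypBi {x p y : X} (hb : Btw dv dh x p y) : Btw dh dv x p y := ⟨hb.2, hb.1⟩

theorem side_HypBi (h : BiTree dv dh) (hA : 0 ≤ A) (hB : 0 ≤ B) (hn : NoRect dv dh A B)
    {x y z p : X} (hb : Btw dv dh x p y) (hv : dv x p ≤ gp dv x y z)
    (hh : dh x p ≤ gp dh x y z + B) :
    ∃ q, Btw dv dh x q z ∧ dv p q ≤ 2 * A ∧ dh p q ≤ 2 * B := by
  obtain ⟨p', h1, h2⟩ := shadow_HypBi h hb hv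
  by_cases hc : dh x p ≤ gp dh x y z
  · obtain ⟨p'', h3, h4⟩ := shadow_HypBi h.swap (btw_swap_HypBi hb) hc
    obtain ⟨q, hq, hq1, hq2⟩ := corner_HypBi h hA hB hn h2 h4
    exact ⟨q, btw_conv_HypBi h h1 (btw_swap_HypBi h3) hq, by linarith, by linarith⟩
  push Not at hc
  obtain ⟨m, hm, hm'⟩ := geoH_HypBi h x z (gp_nonneg_HypBi h.ph x y z) (gp_le_HypBi h.ph x y z).2
  have f1 := far_HypBi h.ph h.hh hb.2 h1.2 hm.2
  obtain ⟨r, hr, hr'⟩ := geoH_HypBi h p p' (s := dh x p - gp dh x y z) (by linarith)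
    (f1.trans (gp_le_HypBi h.ph p p' m).1)
  have g1 : dh p m = dh x p - gp dh x y z := by
    have a1 : gp dh x y z ≤ gp dh x p y := by
      rw [gp_on_HypBi h.ph hb.2]
      exact hc.le
    have a2 : gp dh x y z ≤ gp dh x z m := by
      rw [gp_symm_HypBi h.ph x z m, gp_on_HypBi h.ph hm.2, hm']
    have a3 := ultra_HypBi h.hh (ultra_HypBi h.hh a1 le_rfl) a2
    have a4 : gp dh x p m = (dh p x + dh m x - dh p m) / 2 := rfl
    have b1 := h.ph.symm x p
    have b2 := h.ph.symm x m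
    have b3 := h.ph.symm p m
    have b4 := h.ph.tri x m p
    linarith
  have g2 : dh r m = 0 :=
    same_HypBi h.ph h.hh hr.2 (by rw [h.ph.self, add_zero]) (by rw [hr', g1]) (by rw [hr']; exact f1)
  have g3 : dv p r = 0 := zero_HypBi h.pv hr.1 h2
  have g4 : dv r p' = 0 := by linarith [hr.1]
  obtain ⟨q, hq, hq1, hq2⟩ := corner_HypBi h hA hB hn g4 g2
  refine ⟨q, btw_conv_HypBi h h1 hm hq, ?_, ?_⟩
  · have := h.pv.tri p r q
    linarith
  · have := h.ph.tri p r q
    linarith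

theorem mixed_HypBi (h : BiTree dv dh) (hA : 0 ≤ A) (hB : 0 ≤ B) (hn : NoRect dv dh A B)
    {x y z p : X} (hb : Btw dv dh x p y) (hv : dv x p + A ≤ gp dv x y z)
    (hh : gp dh x y z + B ≤ dh x p) : False := by
  have hb' := btw_symm_HypBi h hb
  have s1 := gp_add_HypBi h.pv x y z
  have s2 := gp_add_HypBi h.ph x y z
  have s3 := h.pv.symm y p
  have s4 := h.ph.symm y p
  obtain ⟨p', h1, h2⟩ := shadow_HypBi h hb (z := z) (by linarith)
  obtain ⟨p'', h3, h4⟩ := shadow_HypBi h.swap (btw_swap_HypBi hb') (z := z) (by linarith [hb.2])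
  have f1 : A ≤ gp dv p p'' z := by
    have := far_HypBi h.pv h.hv hb'.1 h3.2 (e' := z) (by rw [h.pv.self, add_zero])
    linarith [hb.1]
  have e1 := congr_HypBi h.pv h2
  obtain ⟨c1, hc1, hc1'⟩ := geoV_HypBi h p p'' hA (f1.trans (gp_le_HypBi h.pv p p'' z).1)
  obtain ⟨e, he, he'⟩ := geoV_HypBi h p' z hA
    (by rw [← e1]; exact f1.trans (gp_le_HypBi h.pv p p'' z).2)
  have he2 : Btw dv dh x e z :=
    btw_conv_HypBi h h1 ⟨by rw [h.pv.self, add_zero], by rw [h.ph.self, add_zero]⟩ he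
  have f2 : B ≤ gp dh p p' e := by
    have := far_HypBi h.ph h.hh hb.2 h1.2 he2.2
    linarith
  obtain ⟨c2, hc2, hc2'⟩ := geoH_HypBi h p p' hB (f2.trans (gp_le_HypBi h.ph p p' e).1)
  have g1 : dv c1 e = 0 :=
    same_HypBi h.pv h.hv (z := z) hc1.1 (by rw [e1, e1]; exact he.1) (by rw [hc1', e1, he'])
      (by rw [hc1']; exact f1)
  have g2 : dh p c1 = 0 := zero_HypBi h.ph hc1.2 h4
  have e2 := congr_HypBi h.ph g2
  obtain ⟨f, hf, hf'⟩ := geoH_HypBi h c1 e hB
    (by rw [← e2]; exact f2.trans (gp_le_HypBi h.ph p p' e).2)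
  refine hn p c1 c2 f g2 ?_ (zero_HypBi h.pv hc2.1 h2) (zero_HypBi h.pv hf.1 g1) hc1'.ge hc2'.ge
  exact same_HypBi h.ph h.hh (z := e) hc2.2 (by rw [e2, e2]; exact hf.2) (by rw [hc2', e2, hf'])
    (by rw [hc2']; exact f2)

theorem slim_HypBi (h : BiTree dv dh) (hA : 0 ≤ A) (hB : 0 ≤ B) (hn : NoRect dv dh A B)
    {x y p : X} (hb : Btw dv dh x p y) (z : X) :
    ∃ q, (Btw dv dh x q z ∨ Btw dv dh y q z) ∧ dv p q ≤ 2 * A ∧ dh p q ≤ 2 * B := by
  have hb' := btw_symm_HypBi h hb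
  have hn' := noRect_swap_HypBi hn
  have s1 := gp_add_HypBi h.pv x y z
  have s2 := gp_add_HypBi h.ph x y z
  have s3 := h.pv.symm y p
  have s4 := h.ph.symm y p
  have s5 := hb.1
  have s6 := hb.2
  rcases le_total (dv x p) (gp dv x y z) with hv | hv
  · rcases le_total (dh x p) (gp dh x y z + B) with hh | hh
    · obtain ⟨q, h1, h2⟩ := side_HypBi h hA hB hn hb hv hh
      exact ⟨q, Or.inl h1, h2⟩
    · rcases le_total (dv x p + A) (gp dv x y z) with hv' | hv'
      · exact (mixed_HypBi h hA hB hn hb hv' hh).elim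
      · obtain ⟨q, h1, h2, h3⟩ := side_HypBi h.swap hB hA hn' (btw_swap_HypBi hb') (z := z)
          (by linarith) (by linarith)
        exact ⟨q, Or.inr (btw_swap_HypBi h1), h3, h2⟩
  · rcases le_total (dh y p) (gp dh y x z + B) with hh | hh
    · obtain ⟨q, h1, h2⟩ := side_HypBi h hA hB hn hb' (z := z) (by linarith) hh
      exact ⟨q, Or.inr h1, h2⟩
    · rcases le_total (dv y p + A) (gp dv y x z) with hv' | hv'
      · exact (mixed_HypBi h hA hB hn hb' hv' hh).elim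
      · obtain ⟨q, h1, h2, h3⟩ := side_HypBi h.swap hB hA hn' (btw_swap_HypBi hb) (z := z)
          (by linarith) (by linarith)
        exact ⟨q, Or.inl (btw_swap_HypBi h1), h3, h2⟩

/-- Slim triangles for an abstract betweenness relation. -/
theorem near_abs_HypBi {D : X → X → ℝ} {T : X → X → X → Prop} {σ : ℝ} (hd : PM D)
    (hT : ∀ x p y, T x p y → D x p + D p y = D x y)
    (hg : ∀ x y s, 0 ≤ s → s ≤ D x y → ∃ r, T x r y ∧ D x r = s)
    (hs : ∀ x p y z, T x p y → ∃ q, (T x q z ∨ T y q z) ∧ D p q ≤ σ) (w x y : X) :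
    ∃ v, T x v y ∧ D w v ≤ gp D w x y + 2 * σ := by
  obtain ⟨v, h1, h2⟩ := hg x y _ (gp_nonneg_HypBi hd x y w) (gp_le_HypBi hd x y w).1
  refine ⟨v, h1, ?_⟩
  obtain ⟨q, h3, h4⟩ := hs x v y w h1
  have a1 := hT _ _ _ h1
  unfold gp at h2 ⊢
  have b1 := hd.symm x y
  have b2 := hd.symm x w
  have b3 := hd.symm y w
  have b4 := hd.symm q w
  have b5 := hd.symm q v
  have b6 := hd.symm y v
  have c1 := hd.tri w q v
  have c2 := hd.tri x q v
  have c3 := hd.tri y q v
  rcases h3 with h3 | h3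
  · have a2 := hT _ _ _ h3
    linarith
  · have a2 := hT _ _ _ h3
    linarith

theorem hyp_abs_HypBi {D : X → X → ℝ} {T : X → X → X → Prop} {σ : ℝ} (hd : PM D)
    (hT : ∀ x p y, T x p y → D x p + D p y = D x y)
    (hg : ∀ x y s, 0 ≤ s → s ≤ D x y → ∃ r, T x r y ∧ D x r = s)
    (hs : ∀ x p y z, T x p y → ∃ q, (T x q z ∨ T y q z) ∧ D p q ≤ σ) : Hyp D (3 * σ) := by
  intro w x y z
  obtain ⟨v, h1, h2⟩ := near_abs_HypBi hd hT hg hs w x z
  obtain ⟨q, h3, h4⟩ := hs x v z y h1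
  have key : ∀ a b, T a q b → gp D w a b ≤ D w q := by
    intro a b hab
    have a1 := hT _ _ _ hab
    unfold gp
    have c1 := hd.tri a q w
    have c2 := hd.tri b q w
    have c3 := hd.symm b q
    have c4 := hd.symm q w
    linarith
  have c5 := hd.tri w v q
  rcases h3 with h3 | h3
  · have a1 := key _ _ h3
    have a2 := min_le_left (gp D w x y) (gp D w y z)
    linarith
  · have a1 := key _ _ h3
    rw [gp_symm_HypBi hd w z y] at a1
    have a2 := min_le_right (gp D w x y) (gp D w y z)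
    linarith

theorem btw_add_HypBi (α β : ℝ) (x p y : X) (hb : Btw dv dh x p y) :
    α * dv x p + β * dh x p + (α * dv p y + β * dh p y) = α * dv x y + β * dh x y := by
  rw [← hb.1, ← hb.2]
  ring

theorem slimD_HypBi (h : BiTree dv dh) (hA : 0 ≤ A) (hB : 0 ≤ B) (hn : NoRect dv dh A B)
    {α β : ℝ} (hα : 0 ≤ α) (hβ : 0 ≤ β) (x p y z : X) (hb : Btw dv dh x p y) :
    ∃ q, (Btw dv dh x q z ∨ Btw dv dh y q z) ∧ α * dv p q + β * dh p q ≤ 2 * (α * A + β * B) := by
  obtain ⟨q, h1, h2, h3⟩ := slim_HypBi h hA hB hn hb z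
  have a1 := mul_le_mul_of_nonneg_left h2 hα
  have a2 := mul_le_mul_of_nonneg_left h3 hβ
  exact ⟨q, h1, by linarith⟩

end Slim

theorem BiTree.hyp {X : Type} {dv dh : X → X → ℝ} (h : BiTree dv dh) {A B α β : ℝ}
    (hA : 0 ≤ A) (hB : 0 ≤ B) (hn : NoRect dv dh A B) (hα : 0 ≤ α) (hβ : 0 ≤ β) :
    Hyp (fun p q => α * dv p q + β * dh p q) (9 * (α * A + β * B)) := by
  have h1 := hyp_abs_HypBi (T := Btw dv dh) (h.pm hα hβ) (btw_add_HypBi α β)
    (fun x y s => h.geo α β x y s hα hβ) (slimD_HypBi h hA hB hn hα hβ)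
  intro w x y z
  have h2 := h1 w x y z
  have h3 : 0 ≤ α * A + β * B := by positivity
  linarith

theorem BiTree.near {X : Type} {dv dh : X → X → ℝ} (h : BiTree dv dh) {A B α β : ℝ}
    (hA : 0 ≤ A) (hB : 0 ≤ B) (hn : NoRect dv dh A B) (hα : 0 ≤ α) (hβ : 0 ≤ β) (w x y : X) :
    ∃ v, Btw dv dh x v y ∧ α * dv w v + β * dh w v ≤
      gp (fun p q => α * dv p q + β * dh p q) w x y + 6 * (α * A + β * B) := by
  obtain ⟨v, h1, h2⟩ := near_abs_HypBi (T := Btw dv dh) (h.pm hα hβ) (btw_add_HypBi α β)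
    (fun x y s => h.geo α β x y s hα hβ) (slimD_HypBi h hA hB hn hα hβ) w x y
  have h3 : 0 ≤ α * A + β * B := by positivity
  exact ⟨v, h1, by linarith⟩

end Pool.Agent.E5f
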