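import Pool.Agent.E5f.MoGeo

/-!
Balls of a planar model: bounded words, finiteness, chains of cusps.
-/

set_option autoImplicit false

namespace Pool.Agent.E5f

open Filter Classical

theorem exists_gap {L : Type} (ρ : L → ℝ) (S : Finset L) (h : Set.InjOn ρ S) :
    ∃ δ : ℝ, 0 < δ ∧ ∀ l ∈ S, ∀ l' ∈ S, l ≠ l' → δ ≤ |ρ l' - ρ l| := by
  rcases ((S ×ˢ S).filter (fun e : L × L => e.1 ≠ e.2)).eq_empty_or_nonempty with he | he
  · refine ⟨1, one_pos, fun l hl l' hl' hne => ?_⟩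
    have : (l, l') ∈ (S ×ˢ S).filter (fun e : L × L => e.1 ≠ e.2) := by simp [hl, hl', hne]
    rw [he] at this
    exact absurd this (Finset.notMem_empty _)
  · obtain ⟨e, h1, h2⟩ := Finset.exists_min_image _ (fun e : L × L => |ρ e.2 - ρ e.1|) he
    simp only [Finset.mem_filter, Finset.mem_product] at h1
    refine ⟨_, abs_pos.2 (sub_ne_zero.2 fun h3 => h1.2 (h h1.1.2 h1.1.1 h3).symm),
      fun l hl l' hl' hne => h2 (l, l') (by simp [hl, hl', hne])⟩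

theorem len_le {L C : Type} [CommGroup C] (ρ : L → ℝ) (S : Finset L) (h : Set.InjOn ρ S)
    (T : ℝ) : ∃ N : ℕ, ∀ (g : W L C) (a b : ℝ), Sup (S : Set L) g → dT ρ a g b ≤ T →
      (wd g).length ≤ N := by
  obtain ⟨δ, h0, h1⟩ := exists_gap ρ S h
  have key : ∀ (b : ℝ) (w : List (L × C)) (e : L × C), Red (e :: w) → (∀ z ∈ e :: w, z.1 ∈ S) →
      δ * w.length ≤ Var (ρ e.1 :: w.map (fun z => ρ z.1) ++ [b]) := by
    intro b w
    induction w with
    | nil => intro e _ _; simpa using Var_nonneg _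
    | cons z w ih =>
      intro e hr hs
      have e1 := ih z hr.tail (fun y hy => hs y (List.mem_cons_of_mem _ hy))
      have e2 := h1 e.1 (hs e (by simp)) z.1 (hs z (by simp)) (List.isChain_cons_cons.1 hr.2).1
      simp only [List.map_cons, List.cons_append, Var_cons2, List.length_cons, Nat.cast_add,
        Nat.cast_one] at e1 ⊢
      linarith
  refine ⟨⌈T / δ⌉₊ + 1, fun g a b hg hT => ?_⟩
  have hr := red_wd g
  rw [dT_wd] at hT
  have hs : ∀ z ∈ wd g, z.1 ∈ S := fun z hz => hg z.1 (List.mem_map_of_mem hz)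
  cases hw : wd g with
  | nil => simp
  | cons e w =>
    rw [hw] at hr hs hT
    have e1 := key b w e hr hs
    simp only [List.map_cons, List.cons_append, Var_cons2] at hT e1
    have e2 : (w.length : ℝ) ≤ T / δ := by
      rw [le_div_iff₀' h0]
      linarith [abs_nonneg (ρ e.1 - a)]
    have e3 : w.length ≤ ⌈T / δ⌉₊ := by exact_mod_cast e2.trans (Nat.le_ceil _)
    simpa using e3

theorem words_fin {L C : Type} [CommGroup C] [Finite C] (S : Finset L) (N : ℕ) :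
    {g : W L C | Sup (S : Set L) g ∧ (wd g).length ≤ N}.Finite := by
  refine ((List.finite_length_le (S × C) N).image
    (fun w => ev (w.map (fun e => (e.1.1, e.2))))).subset ?_
  rintro g ⟨h1, h2⟩
  refine ⟨(wd g).pmap (fun e he => (⟨e.1, he⟩, e.2))
    (fun e he => h1 e.1 (List.mem_map_of_mem he)), by simpa using h2, ?_⟩
  simp only [List.map_pmap]
  rw [List.pmap_eq_map]
  simpa using ev_wd g

namespace Plan
variable {L C : Type} [CommGroup C] {c : C} {Z : Cfg L} {Q : Type} (P : Plan c Z Q)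

/-- Words to the points of a ball have boundedly many letters. -/
theorem ball_words (hZ : Z.Gen) (_hc : c ≠ 1) (p : Q) (T : ℝ) :
    ∃ (b : Bx) (S : Finset L) (N : ℕ), (S : Set L) = Z.bl b ∧ ∀ q, P.dv p q + P.dh p q ≤ T →
      P.Box b p q ∧ (wd ((pj S (P.g p))⁻¹ * pj S (P.g q))).length ≤ N := by
  obtain ⟨N, hN⟩ := len_le (C := C) Z.x (Z.bl_fin ((P.pt p).grow T T)).toFinset hZ.1.injOn T
  refine ⟨(P.pt p).grow T T, _, N, Set.Finite.coe_toFinset (Z.bl_fin _), fun q hq => ?_⟩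
  have h1 := P.pv.nn p q
  have h2 := P.ph.nn p q
  have hb := (P.rch_dist hZ p q (A := T) (B := T) (by linarith) (by linarith)).box
  refine ⟨hb, hN _ (P.u p).1 (P.u q).1 (sup_mul (sup_inv (sup_pj _ _)) (sup_pj _ _)) ?_⟩
  rw [← hb.dv_eq (by simp)]
  linarith

/-- For a finite group of letters a ball contains finitely many points adjacent to labels. -/
theorem ball_fin [Finite C] (hZ : Z.Gen) (hc : c ≠ 1) (p : Q) (T : ℝ) :
    {q | P.dv p q + P.dh p q ≤ T ∧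
      ∃ l, P.u q = (Z.x l, true) ∧ P.w q = (Z.y l, true)}.Finite := by
  obtain ⟨b, S, N, hS, h⟩ := P.ball_words hZ hc p T
  refine Set.Finite.of_finite_image
    (f := fun q => ((P.u q, P.w q), (pj S (P.g p))⁻¹ * pj S (P.g q))) ?_ ?_
  · refine (((S.finite_toSet.image
      (fun l => (((Z.x l, true), (Z.y l, true)) : Mk × Mk))).prod (words_fin S N))).subset ?_
    rintro _ ⟨q, ⟨h1, l, h2, h3⟩, rfl⟩
    refine ⟨⟨l, ?_, Prod.ext h2.symm h3.symm⟩,
      sup_mul (sup_inv (sup_pj _ _)) (sup_pj _ _), (h q h1).2⟩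
    have := (h q h1).1.2.1
    rw [h2, h3] at this
    rw [hS]; exact this
  · rintro q ⟨h1, -⟩ q' ⟨h1', -⟩ he
    simp only [Prod.mk.injEq, mul_right_inj] at he
    exact P.ext _ _ (P.g_eq_of_box hS.ge ((h q h1).1.symm.trans (h q' h1').1) he.1.1 he.2)
      he.1.1 he.1.2

theorem Step.box {b : Bx} {D : Set L} {p q : Q} (h : P.Step D p q) (hD : InB Z.y b.y0 b.y1 D)
    (hp : P.In b p) (hq : P.In b q) : P.Box b p q := by
  refine ⟨hp, hq, ?_⟩
  rw [h.2, inv_mul_cancel_left]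
  exact BoxW.single (P.up_R p) hp.inB (P.up_R q) hq.inB hD

theorem Cusp.in {b : Bx} {a : L} {r : Q} (h : P.Cusp a r) (ha : a ∈ Z.bl b) : P.In b r := by
  unfold In
  rw [h.1, h.2]; exact ha

theorem Step.pj_top {b : Bx} {S : Finset L} (hS : (S : Set L) = Z.bl b) {p q : Q}
    (h : P.Step {l | b.y1 < Z.y l} p q) : pj S (P.g q) = pj S (P.g p) := by
  have e : ∀ R : Set L, cut S (R ∩ {l | b.y1 < Z.y l}) = ∅ := by
    intro R
    ext l
    simp only [mem_cut, Finset.notMem_empty, iff_false]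
    rintro ⟨h1, -, h2⟩
    have : l ∈ Z.bl b := hS ▸ h1
    exact absurd this.2.2.2 (not_le.2 h2)
  rw [h.2, map_mul, pj_stp, e, e, mul_inv_cancel, mul_one]

theorem elem_aux (hZ : Z.Gen) (hg : ∀ x : C, ∃ n : ℤ, x = c ^ n) {b : Bx} {S : Finset L}
    (hS : (S : Set L) = Z.bl b) {a : L} {r : Q} (hr : P.Cusp a r) (ha : a ∈ S) :
    ∀ (w : List (L × C)) (a0 : L) (x0 : C) (t0 : Q), (∀ e ∈ w, e.1 ∈ S) → a0 ∈ S →
      P.Cusp a0 t0 → P.Box b t0 r → pj S (P.g r) = pj S (P.g t0) * lt a0 x0 * ev w →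
      ∃ s : ℕ → L × Q, s 0 = (a0, t0) ∧ s (w.length + 1) = (a, r) ∧ ∀ i < w.length + 1,
        ((s (i + 1)).1 ∈ S ∧ P.Cusp (s (i + 1)).1 (s (i + 1)).2) ∧ ∃ x t', P.Cusp (s i).1 t' ∧
          P.Touch (s i).1 x (s i).2 t' ∧ P.Step {l | b.y1 < Z.y l} t' (s (i + 1)).2 := by
  have stage : ∀ (a0 : L) (x0 : C) (t0 : Q) (a1 : L), a0 ∈ S → a1 ∈ S → P.Cusp a0 t0 →
      P.Box b t0 r → ∃ t' t1, P.Cusp a0 t' ∧ P.Touch a0 x0 t0 t' ∧
        P.Step {l | b.y1 < Z.y l} t' t1 ∧ P.Cusp a1 t1 ∧ P.Box b t1 r ∧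
        pj S (P.g t1) = pj S (P.g t0) * lt a0 x0 := by
    intro a0 x0 t0 a1 h0 h1 h2 h3
    have hD : InB Z.y b.y0 b.y1 {l | b.y1 < Z.y l} := fun l => ⟨id, fun k k' =>
      absurd (k.le.trans (h3.1.2.2.1.trans h3.1.2.2.2)) (not_le.2 k')⟩
    have b0 : a0 ∈ Z.bl b := hS ▸ h0
    have b1 : a1 ∈ Z.bl b := hS ▸ h1
    obtain ⟨t', e1, e2, e3⟩ := touch_ex (P := P) hZ hg (by rw [h2.1]) x0 false (Z.y a0, false)
    have c1 : P.Cusp a0 t' := ⟨Prod.ext e1.2.1 e2, e3⟩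
    obtain ⟨t1, f1, f2, f3⟩ := step_ex (P := P) hZ t' ⟨_, _, hD⟩ (Z.x a1, false) (Z.y a1, false)
    have c2 : P.Cusp a1 t1 := ⟨f2, f3⟩
    refine ⟨t', t1, c1, e1, f1, c2, ?_, ?_⟩
    · exact ((e1.box hZ hg b0 h3.1 (c1.in P b0)).trans
        (f1.box P hD (c1.in P b0) (c2.in P b1))).symm.trans h3
    · rw [f1.pj_top P hS, e1.2.2, map_mul, pj_emb_lt h0]
  intro w
  induction w with
  | nil =>
    intro a0 x0 t0 _ h0 h1 h2 h3
    obtain ⟨t', t1, e1, e2, e3, e4, e5, e6⟩ := stage a0 x0 t0 a h0 ha h1 h2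
    have hu : P.u t1 = P.u r := e4.1.trans hr.1.symm
    have : t1 = r := P.ext _ _ (P.g_eq_of_box hS.ge e5 hu (by rw [e6, h3]; simp)) hu
      (e4.2.trans hr.2.symm)
    subst this
    refine ⟨fun i => Nat.casesOn i (a0, t0) (fun _ => (a, t1)), rfl, rfl, fun i hi => ?_⟩
    have : i = 0 := by simpa using hi
    subst this
    exact ⟨⟨ha, hr⟩, x0, t', e1, e2, e3⟩
  | cons e w ih =>
    intro a0 x0 t0 hw h0 h1 h2 h3
    have he : e.1 ∈ S := hw e (by simp)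
    obtain ⟨t', t1, e1, e2, e3, e4, e5, e6⟩ := stage a0 x0 t0 e.1 h0 he h1 h2
    obtain ⟨s, s0, s1, s2⟩ := ih e.1 e.2 t1 (fun z hz => hw z (List.mem_cons_of_mem _ hz)) he e4 e5
      (by rw [h3, e6, ev_cons]; simp only [mul_assoc])
    refine ⟨fun i => Nat.casesOn i (a0, t0) s, rfl, s1, fun i hi => ?_⟩
    cases i with
    | zero =>
      change ((s 0).1 ∈ S ∧ P.Cusp (s 0).1 (s 0).2) ∧ ∃ x t', P.Cusp a0 t' ∧ P.Touch a0 x t0 t' ∧
        P.Step _ t' (s 0).2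
      rw [s0]
      exact ⟨⟨he, e4⟩, x0, t', e1, e2, e3⟩
    | succ i => exact s2 i (Nat.lt_of_succ_lt_succ hi)

/-- Cusps in a ball are reached by boundedly many touches and top level steps. -/
theorem elem (hZ : Z.Gen) (hc : c ≠ 1) (hg : ∀ x : C, ∃ n : ℤ, x = c ^ n) {a0 : L} {r0 : Q}
    (h0 : P.Cusp a0 r0) (T : ℝ) :
    ∃ (S : Finset L) (N : ℕ) (y1 : ℝ), ∀ a r, P.Cusp a r → P.dv r0 r + P.dh r0 r ≤ T →
      ∃ n ≤ N, ∃ (t t' : ℕ → Q) (e : ℕ → L) (x : ℕ → C), t 0 = r0 ∧ t n = r ∧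
        (∀ i ≤ n, e i ∈ S ∧ P.Cusp (e i) (t i)) ∧
        ∀ i < n, P.Cusp (e i) (t' i) ∧ P.Touch (e i) (x i) (t i) (t' i) ∧
          P.Step {l | y1 < Z.y l} (t' i) (t (i + 1)) := by
  obtain ⟨b, S, N, hS, h⟩ := P.ball_words hZ hc r0 T
  refine ⟨S, N + 1, b.y1, fun a r hr hT => ?_⟩
  obtain ⟨h1, h2⟩ := h r hT
  have mem : ∀ {a : L} {r : Q}, P.Cusp a r → P.In b r → a ∈ S := by
    intro a r k1 k2
    unfold In at k2
    rw [k1.1, k1.2] at k2
    have : a ∈ (S : Set L) := by rw [hS]; exact k2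
    exact this
  have ha0 := mem h0 h1.1
  obtain ⟨s, s0, s1, s2⟩ := P.elem_aux hZ hg hS hr (mem hr h1.2.1)
    (wd ((pj S (P.g r0))⁻¹ * pj S (P.g r))) a0 1 r0
    (fun e he => sup_mul (sup_inv (sup_pj S _)) (sup_pj S _) e.1 (List.mem_map_of_mem he))
    ha0 h0 h1 (by rw [ev_wd]; simp)
  haveI : Nonempty Q := ⟨r0⟩
  choose! x t' hx using fun i hi => (s2 i hi).2
  refine ⟨_, Nat.succ_le_succ h2, fun i => (s i).2, t', fun i => (s i).1, x,
    congrArg Prod.snd s0, congrArg Prod.snd s1, fun i hi => ?_, hx⟩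
  cases i with
  | zero => simp only [s0]; exact ⟨ha0, h0⟩
  | succ i => exact (s2 i hi).1

end Plan

end Pool.Agent.E5f
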