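import Pool.Agent.E5f.MoZig

/-!
Common geodesics of a planar model.
-/

set_option autoImplicit false

namespace Pool.Agent.E5f

open Filter Classical

/-- The possible values of the distance to a level in a countable set form a countable set. -/
theorem countable_dT {L C : Type} [CommGroup C] (ρ : L → ℝ) (S : Finset L) (a : ℝ) {T : Set ℝ}
    (hT : T.Countable) : ∃ B : Set ℝ, B.Countable ∧ ∀ (g : W L C) (t : ℝ), Sup (S : Set L) g →
      t ∈ T → dT ρ a g t ∈ B := by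
  haveI := hT.to_subtype
  refine ⟨Set.range (fun z : List S × T => Var (a :: (z.1.map Subtype.val).map ρ ++ [z.2.1])),
    Set.countable_range _, fun g t hg ht => ?_⟩
  obtain ⟨l, hl⟩ : ∃ l : List S, l.map Subtype.val = lab g :=
    ⟨(lab g).pmap Subtype.mk hg, by simp [List.map_pmap]⟩
  exact ⟨(l, ⟨t, ht⟩), by simp only [hl]; rfl⟩

namespace Plan
variable {L C : Type} [CommGroup C] {c : C} {Z : Cfg L} {Q : Type} (P : Plan c Z Q)

theorem seq_of_list : ∀ (l : List Q) (p : Q), (p :: l).IsChain P.Mv →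
    ∃ s : ℕ → Q, s 0 = p ∧ s l.length = (p :: l).getLast (List.cons_ne_nil _ _) ∧
      P.Chain s l.length ∧ P.lenV s l.length = wlen P.dv (p :: l) ∧
      P.lenH s l.length = wlen P.dh (p :: l)
  | [], p, _ => ⟨fun _ => p, rfl, rfl, fun _ h => absurd h (Nat.not_lt_zero _),
      by simp [lenV], by simp [lenH]⟩
  | a :: l, p, h => by
    rw [List.isChain_cons_cons] at h
    obtain ⟨s, h0, h1, h2, h3, h4⟩ := seq_of_list l a h.2
    refine ⟨fun i => Nat.casesOn i p s, rfl, by rw [List.getLast_cons_cons]; exact h1, ?_, ?_, ?_⟩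
    · intro i hi
      cases i with
      | zero => change P.Mv p (s 0); rw [h0]; exact h.1
      | succ i => exact h2 i (Nat.lt_of_succ_lt_succ hi)
    · rw [wlen_cons2, ← h3, P.dv_move h.1, ← h0]
      unfold lenV
      rw [List.length_cons, Finset.sum_range_succ', add_comm]
      rfl
    · rw [wlen_cons2, ← h4, P.dh_move h.1, ← h0]
      unfold lenH
      rw [List.length_cons, Finset.sum_range_succ', add_comm]
      rfl

theorem geo (hZ : Z.Gen) (_hc : c ≠ 1) (p q : Q) :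
    ∃ (s : ℕ → Q) (n : ℕ), s 0 = p ∧ s n = q ∧ P.Chain s n ∧ P.lenV s n = P.dv p q ∧
      P.lenH s n = P.dh p q := by
  obtain ⟨l, e1, e2, e3, e4⟩ := P.geo_list hZ p q
  obtain ⟨s, h0, h1, h2, h3, h4⟩ := P.seq_of_list l p e1
  exact ⟨s, _, h0, h1.trans e2, h2, h3.trans e3, h4.trans e4⟩

theorem biTree (hZ : Z.Gen) (_hc : c ≠ 1) : BiTree P.dv P.dh := P.biTree' hZ

theorem box_dist (hZ : Z.Gen) (_hc : c ≠ 1) (p q : Q) :
    P.Box ⟨(P.u p).1 - P.dv p q, (P.u p).1 + P.dv p q, (P.w p).1 - P.dh p q,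
      (P.w p).1 + P.dh p q⟩ p q := (P.rch_dist hZ p q le_rfl le_rfl).box

/-- Between any two parameters there is a point of a common geodesic at a generic level. -/
theorem geo_gen (hZ : Z.Gen) (_hc : c ≠ 1) (p q : Q) {T : Set ℝ} (hT : T.Countable) {α β : ℝ}
    (h0 : 0 ≤ α) (h1 : α < β) (h2 : β ≤ P.dh p q) :
    ∃ r, Btw P.dv P.dh p r q ∧ α < P.dh p r ∧ P.dh p r < β ∧ (P.w r).1 ∉ T := by
  set b := (P.pt p).grow (P.dv p q) (P.dh p q)
  obtain ⟨B, hB, hB'⟩ := countable_dT (C := C) Z.y (Z.bl_fin b).toFinset (P.w p).1 hT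
  obtain ⟨s, hs, hs1, hs2⟩ := (hB.dense_compl ℝ).exists_between h1
  obtain ⟨r, e1, e2⟩ := geoH_HypBi (P.biTree' hZ) p q (s := s) (by linarith) (by linarith)
  refine ⟨r, e1, e2 ▸ hs1, e2 ▸ hs2, fun ht => hs ?_⟩
  have hr : P.Rch b p r := P.rch_dist hZ p r (by linarith [e1.1, P.pv.nn r q])
    (by linarith [e1.2, P.ph.nn r q])
  have e3 := hr.tr.box.dv_eq (S := (Z.bl_fin b).toFinset) (by rw [Z.bl_tr]; simp)
  rw [← e2]
  change P.tr.dv p r ∈ B
  rw [e3]
  exact hB' _ _ (sup_mul (sup_inv (sup_pj _ _)) (sup_pj _ _)) ht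

end Plan

end Pool.Agent.E5f
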