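import Pool.Agent.E5f.MoGeo

/-!
No large rectangles in a planar model.
-/

set_option autoImplicit false

namespace Pool.Agent.E5f

open Filter Classical

theorem expo_of_sup {L C : Type} [CommGroup C] {ν : L} {g : W L C} (h : ν ∉ lab g) :
    expo ν g = 1 :=
  W_ext_sup (f := expo ν) (f' := 1) (S := {l | l ≠ ν})
    (fun l hl x => by rw [expo_lt, if_neg hl]; rfl) (fun l hl he => h (he ▸ hl))

theorem expo_ret {L C : Type} [CommGroup C] {ν : L} {S : Set L} (h : ν ∈ S) (g : W L C) :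
    expo ν (ret S g) = expo ν g := by
  have : (expo ν).comp (ret S) = (expo ν : W L C →* C) := by
    refine W_ext (fun l x => ?_)
    rw [MonoidHom.comp_apply, ret_lt]
    split_ifs with h1
    · rfl
    · rw [map_one, expo_lt, if_neg (fun h2 : l = ν => h1 (h2 ▸ h))]
  exact DFunLike.congr_fun this g

theorem expo_pj {L C : Type} [CommGroup C] {ν : L} {S : Finset L} (h : ν ∈ S) (ω : WL L C) :
    expo ν (pj S ω) = expo ν (pj {ν} ω) := by
  rw [← ret_pj (Finset.singleton_subset_iff.2 h), expo_ret (by simp)]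

theorem par_tree {X : Type} {d : X → X → ℝ} (hd : PM d) (hh : Hyp d 0) {x y x' y' p p' : X}
    (hx : d x x' = 0) (hy : d y y' = 0) (h1 : d x p + d p y = d x y)
    (h2 : d x' p' + d p' y' = d x' y') (h3 : d x p = d x' p') : d p p' = 0 := by
  have e1 := congr_HypBi hd hx p'
  have e2 := congr_HypBi hd hx y'
  have e3 := congr_HypBi hd hy x
  have e4 := congr_HypBi hd hy p'
  rw [hd.symm y x, hd.symm y' x] at e3
  rw [hd.symm y p', hd.symm y' p'] at e4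
  refine same_HypBi hd hh (z := y) h1 (by linarith) (by linarith) ?_
  rw [gp_self_HypBi hd]
  linarith [hd.nn p y]

theorem Rs_iff_lt {L : Type} {ρ : L → ℝ} {u : Mk} {l : L} (h : ρ l ≠ u.1) :
    l ∈ Rs ρ u ↔ u.1 < ρ l := by
  unfold Rs
  simp [h.symm]

namespace Plan
variable {L C : Type} [CommGroup C] {c : C} {Z : Cfg L} {Q : Type} (P : Plan c Z Q)

theorem one_turn (hZ : Z.Gen) {p q : Q} (h : P.dh p q = 0) :
    P.dv p q = |(P.u q).1 - (P.u p).1| ∨ ∃ l, Z.y l = (P.w p).1 ∧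
      P.dv p q = |Z.x l - (P.u p).1| + |(P.u q).1 - Z.x l| := by
  have hb := (P.rch_dist hZ p q le_rfl h.le).box
  have hl : ∀ l ∈ Z.bl ((P.pt p).grow (P.dv p q) 0), Z.y l = (P.w p).1 := fun l hl =>
    le_antisymm (by simpa [pt, Bx.grow] using hl.2.2.2) (by simpa [pt, Bx.grow] using hl.2.2.1)
  by_cases ha : ∃ a, Z.y a = (P.w p).1
  · obtain ⟨a, ha⟩ := ha
    have e := hb.dv_eq (S := {a}) (fun l h1 => by simpa using hZ.2 ((hl l h1).trans ha.symm))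
    obtain ⟨x, hx⟩ := sup_single (a := a) (g := (pj {a} (P.g p))⁻¹ * pj {a} (P.g q))
      (by simpa using sup_mul (sup_inv (sup_pj {a} (P.g p))) (sup_pj {a} (P.g q)))
    rw [hx] at e
    by_cases h1 : x = 1
    · left; rw [e, h1, lt_one, dT_one]
    · right; exact ⟨a, ha, by rw [e, dT_lt _ _ _ _ h1]⟩
  · left
    have e := hb.dv_eq (S := ∅) (fun l h1 => absurd ⟨l, hl l h1⟩ ha)
    have h1 : ∀ ω : WL L C, pj ∅ ω = 1 := fun ω => by
      apply wd_eq_nil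
      cases hw : wd (pj ∅ ω) with
      | nil => rfl
      | cons e t => simpa using sup_pj ∅ ω e.1 (by unfold lab; rw [hw]; simp)
    rw [e, h1, h1, inv_one, mul_one, dT_one]

theorem w_of_dh {p q : Q} (h : P.dh p q = 0) : (P.w q).1 = (P.w p).1 := by
  have := P.abs_le_dh p q
  rw [h] at this
  exact sub_eq_zero.1 (abs_nonpos_iff.1 this)

theorem u_of_dv {p q : Q} (h : P.dv p q = 0) : (P.u q).1 = (P.u p).1 := P.tr.w_of_dh h

theorem turn_pt (hZ : Z.Gen) {p q : Q} (h : P.dh p q = 0) {l : L} (hl : Z.y l = (P.w p).1)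
    (h1 : |Z.x l - (P.u p).1| ≤ P.dv p q) :
    ∃ r, Btw P.dv P.dh p r q ∧ |(P.u r).1 - (P.u p).1| = |Z.x l - (P.u p).1| := by
  obtain ⟨r, e1, e2⟩ := geoV_HypBi (P.biTree' hZ) p q (abs_nonneg _) h1
  refine ⟨r, e1, ?_⟩
  rcases P.one_turn hZ (zero_HypBi P.ph e1.2 h) with h2 | ⟨l', h2, h3⟩
  · rw [← h2, e2]
  · have : l' = l := hZ.2 (h2.trans hl.symm)
    subst this
    have h4 : |(P.u r).1 - Z.x l'| = 0 := by linarith
    rw [sub_eq_zero.1 (abs_eq_zero.1 h4)]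

theorem half (hZ : Z.Gen) {p q : Q} (h : P.dh p q = 0) :
    ∃ r r', Btw P.dv P.dh p r q ∧ Btw P.dv P.dh p r' q ∧
      P.dv p q ≤ 2 * |(P.u r').1 - (P.u r).1| := by
  have b1 : Btw P.dv P.dh p p q := ⟨by rw [P.pv.self, zero_add], by rw [P.ph.self, zero_add]⟩
  have b2 : Btw P.dv P.dh p q q := ⟨by rw [P.pv.self, add_zero], by rw [P.ph.self, add_zero]⟩
  rcases P.one_turn hZ h with h1 | ⟨l, h1, h2⟩
  · exact ⟨p, q, b1, b2, by linarith [abs_nonneg ((P.u q).1 - (P.u p).1)]⟩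
  have n1 := abs_nonneg (Z.x l - (P.u p).1)
  have n2 := abs_nonneg ((P.u q).1 - Z.x l)
  rcases le_total |(P.u q).1 - Z.x l| |Z.x l - (P.u p).1| with h3 | h3
  · obtain ⟨r, e1, e2⟩ := P.turn_pt hZ h h1 (by linarith)
    exact ⟨p, r, b1, e1, by linarith⟩
  · obtain ⟨r, e1, e2⟩ := P.turn_pt hZ (p := q) (q := p) (by rw [P.ph.symm, h])
      (h1.trans (P.w_of_dh h).symm) (by rw [P.pv.symm, abs_sub_comm]; linarith)
    rw [abs_sub_comm (Z.x l)] at e2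
    exact ⟨q, r, b2, btw_symm_HypBi (P.biTree' hZ) e1, by linarith⟩

theorem half_rect (hZ : Z.Gen) {p00 p10 p01 p11 : Q} (h1 : P.dh p00 p10 = 0)
    (h2 : P.dh p01 p11 = 0) (h3 : P.dv p00 p01 = 0) (h4 : P.dv p10 p11 = 0) :
    ∃ r r' t t', P.dh r r' = 0 ∧ P.dh t t' = 0 ∧ P.dv r t = 0 ∧ P.dv r' t' = 0 ∧
      P.dh p00 r = 0 ∧ P.dh p01 t = 0 ∧ P.dv p00 p10 ≤ 2 * |(P.u r').1 - (P.u r).1| := by
  have e0 : P.dv p01 p11 = P.dv p00 p10 := by
    have e1 := congr_HypBi P.pv h3 p11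
    have e2 := congr_HypBi P.pv h4 p00
    rw [P.pv.symm p10, P.pv.symm p11] at e2
    linarith
  have key : ∀ r, Btw P.dv P.dh p00 r p10 → ∃ t, P.dv r t = 0 ∧ P.dh p01 t = 0 := by
    intro r hr
    obtain ⟨t, e1, e2⟩ := geoV_HypBi (P.biTree' hZ) p01 p11 (P.pv.nn p00 r)
      (by linarith [hr.1, P.pv.nn r p10])
    exact ⟨t, par_tree P.pv P.hv h3 h4 hr.1 e1.1 e2.symm, zero_HypBi P.ph e1.2 h2⟩
  obtain ⟨r, r', a1, a2, a3⟩ := P.half hZ h1
  obtain ⟨t, b1, b2⟩ := key r a1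
  obtain ⟨t', c1, c2⟩ := key r' a2
  have d1 := zero_HypBi P.ph a1.2 h1
  have d2 := zero_HypBi P.ph a2.2 h1
  exact ⟨r, r', t, t', by rw [← congr_HypBi P.ph d1, d2], by rw [← congr_HypBi P.ph b2, c2],
    b1, c1, d1, b2, a3⟩

theorem expo_dv {p q : Q} (h : P.dv p q = 0) {ν : L} (hν : Z.x ν ≠ (P.u p).1) :
    expo ν (pj {ν} (P.g q)) = expo ν (pj {ν} (P.g p)) := by
  obtain ⟨S, h1, h2⟩ := ((P.dv_ev' p q).and (eventually_ge_atTop {ν})).exists
  have hS : ν ∈ S := Finset.singleton_subset_iff.1 h2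
  rw [h] at h1
  have h3 := expo_of_sup (fun h4 => hν ((dT_eq_zero.1 h1.symm).2 ν h4))
  rw [map_mul, map_inv, expo_pj hS, expo_pj hS] at h3
  exact (inv_mul_eq_one.1 h3).symm

theorem expo_rel (q : Q) (ν : L) : expo ν (pj {ν} (P.h q)) = (expo ν (pj {ν} (P.g q)) *
    if ν ∈ Rs Z.x (P.u q) ∧ ν ∈ Rs Z.y (P.w q) then c else 1)⁻¹ := by
  rw [P.relv q, pj_Kh, expo_Kf, map_mul, map_mul, pj_opH, expo_op]
  simp

theorem rect_false (hc : c ≠ 1) {e f e' f' : Q} {ν : L} (h1 : P.dh e f = 0) (h2 : P.dh e' f' = 0)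
    (h3 : P.dv e e' = 0) (h4 : P.dv f f' = 0)
    (hx : ((P.u e).1 < Z.x ν ∧ Z.x ν < (P.u f).1) ∨ ((P.u f).1 < Z.x ν ∧ Z.x ν < (P.u e).1))
    (hy : ((P.w e).1 < Z.y ν ∧ Z.y ν < (P.w e').1) ∨ ((P.w e').1 < Z.y ν ∧ Z.y ν < (P.w e).1)) :
    False := by
  have x1 : Z.x ν ≠ (P.u e).1 := by rcases hx with h | h <;> [exact h.1.ne'; exact h.2.ne]
  have x2 : Z.x ν ≠ (P.u f).1 := by rcases hx with h | h <;> [exact h.2.ne; exact h.1.ne']
  have y1 : Z.y ν ≠ (P.w e).1 := by rcases hy with h | h <;> [exact h.1.ne'; exact h.2.ne]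
  have y2 : Z.y ν ≠ (P.w e').1 := by rcases hy with h | h <;> [exact h.2.ne; exact h.1.ne']
  have a1 := P.expo_dv h3 x1
  have a2 := P.expo_dv h4 x2
  have a3 : expo ν (pj {ν} (P.h f)) = expo ν (pj {ν} (P.h e)) := P.tr.expo_dv h1 y1
  have a4 : expo ν (pj {ν} (P.h f')) = expo ν (pj {ν} (P.h e')) := P.tr.expo_dv h2 y2
  have u1 := P.u_of_dv h3
  have u2 := P.u_of_dv h4
  have w1 := P.w_of_dh h1
  have w2 := P.w_of_dh h2
  rw [P.expo_rel, P.expo_rel, inv_inj] at a3 a4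
  rw [a1, a2] at a4
  rw [Rs_iff_lt x1, Rs_iff_lt x2, Rs_iff_lt y1, Rs_iff_lt (u := P.w f) (w1 ▸ y1), w1] at a3
  rw [Rs_iff_lt (u := P.u e') (u1 ▸ x1), Rs_iff_lt (u := P.u f') (u2 ▸ x2), Rs_iff_lt y2,
    Rs_iff_lt (u := P.w f') (w2 ▸ y2), u1, u2, w2] at a4
  apply hc
  rcases hx with hx | hx <;> rcases hy with hy | hy <;>
    simp only [hx.1, hy.1, hx.2.not_gt, hy.2.not_gt, and_true, and_false, if_true, if_false,
      mul_one] at a3 a4
  · rw [a4] at a3; exact mul_eq_left.1 a3.symm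
  · rw [a3] at a4; exact mul_eq_left.1 a4.symm
  · rw [← a4] at a3; exact mul_eq_left.1 a3
  · rw [← a3] at a4; exact mul_eq_left.1 a4

end Plan

theorem between_of_abs {a b t Λ : ℝ} (h : Λ ≤ |b - a|) (h1 : min a b < t) (h2 : t < min a b + Λ) :
    (a < t ∧ t < b) ∨ (b < t ∧ t < a) := by
  rcases le_total a b with h3 | h3
  · rw [min_eq_left h3] at h1 h2
    rw [abs_of_nonneg (sub_nonneg.2 h3)] at h
    exact Or.inl ⟨h1, by linarith⟩
  · rw [min_eq_right h3] at h1 h2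
    rw [abs_of_nonpos (sub_nonpos.2 h3)] at h
    exact Or.inr ⟨h1, by linarith⟩

theorem Plan.noRect {L C : Type} [CommGroup C] {c : C} {Z : Cfg L} {Q : Type} (P : Plan c Z Q)
    (hZ : Z.Gen) (hc : c ≠ 1) {Λ : ℝ} (hΛ : 0 < Λ) (hD : Z.Den Λ) :
    NoRect P.dv P.dh (4 * Λ) (4 * Λ) := by
  intro p00 p10 p01 p11 h1 h2 h3 h4 h5 h6
  obtain ⟨r, r', t, t', a1, a2, a3, a4, a5, a6, a7⟩ := P.half_rect hZ h1 h2 h3 h4
  obtain ⟨e, e', f, f', b1, b2, b3, b4, b5, b6, b7⟩ :=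
    P.tr.half_rect ⟨hZ.2, hZ.1⟩ (p00 := r) (p10 := t) (p01 := r') (p11 := t') a3 a4 a1 a2
  have e1 : P.dh r t = P.dh p00 p01 := by
    have c1 := congr_HypBi P.ph a5 t
    have c2 := congr_HypBi P.ph a6 p00
    rw [P.ph.symm p01, P.ph.symm t] at c2
    linarith
  change P.dh r t ≤ 2 * |(P.w e').1 - (P.w e).1| at b7
  rw [← P.u_of_dv b5, ← P.u_of_dv b6] at a7
  obtain ⟨ν, n1, n2, n3, n4⟩ := hD (min (P.u e).1 (P.u f).1) (min (P.w e).1 (P.w e').1)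
  exact P.rect_false hc b3 b4 b1 b2 (between_of_abs (by linarith) n1 n2)
    (between_of_abs (by linarith) n3 n4)

end Pool.Agent.E5f
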