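import Pool.Agent.E5f.MoVH
import Pool.Agent.E5f.MoGeo
import Pool.Agent.E5f.MoRect
import Pool.Agent.E5f.MoElem
import Pool.Agent.E5f.HypBi

set_option autoImplicit false

namespace Pool.Agent.E5f

open Filter Classical

theorem c2_ne : c2 ≠ 1 := by decide

theorem c2_gen : ∀ x : C2, ∃ n : ℤ, x = c2 ^ n := fun x => by
  have h : ∀ x : C2, x = 1 ∨ x = c2 := by decide
  rcases h x with h | h
  · exact ⟨0, by rw [h, zpow_zero]⟩
  · exact ⟨1, by rw [h, zpow_one]⟩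

theorem cz_ne : cz ≠ 1 := fun h => one_ne_zero (Multiplicative.ofAdd.injective h)

theorem cz_gen : ∀ x : CZ, ∃ n : ℤ, x = cz ^ n := fun x =>
  ⟨x.toAdd, by unfold cz; rw [← ofAdd_zsmul]; simp⟩

theorem Emb.bc_gen (E : Emb) : E.bc.Gen := ⟨E.ξ_inj, E.η_inj⟩

theorem Emb.bc_den (E : Emb) : E.bc.Den 3 := E.den

theorem Emb.fc_den (E : Emb) (u w : Mk) : (E.fc u w).Den 3 := fun a b =>
  (E.den_lab 0 u.1 w.1 a b).imp fun _ h => h.2

theorem Emb.fc_gen (E : Emb) {u w : Mk} (hu : u.1 ∉ Set.range E.ξ) (hw : w.1 ∉ Set.range E.η) :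
    (E.fc u w).Gen := ⟨E.pos_inj hu, E.tr.pos_inj hw⟩

theorem pos_abs_MoFam (E : Emb) (l : Lam) (s t : ℝ) :
    E.pos s l - 3 * |t - s| ≤ E.pos t l ∧ E.pos t l ≤ E.pos s l + 3 * |t - s| := by
  have h1 := E.m_le l.1
  have h2 := E.m_nonneg l.1
  have h3 := le_abs_self (t - s)
  have h4 := neg_abs_le (t - s)
  have h5 := abs_nonneg (t - s)
  rw [E.pos_move l s t]
  constructor <;> nlinarith

theorem bl_mv_MoFam (E : Emb) (u w w' : Mk) {b : Bx} {l : Lam} (h : l ∈ (E.fc u w).bl b) :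
    l ∈ (E.fc u w').bl (b.grow 0 (3 * |w'.1 - w.1|)) := by
  obtain ⟨h1, h2, h3, h4⟩ := h
  obtain ⟨k1, k2⟩ := pos_abs_MoFam E.tr l w.1 w'.1
  simp only [Emb.fc_x, Emb.fc_y] at h1 h2 h3 h4
  refine ⟨?_, ?_, ?_, ?_⟩ <;> simp only [Bx.grow, Emb.fc_x, Emb.fc_y] <;> linarith

theorem boxW_mv_MoFam (E : Emb) (u w w' : Mk) {b : Bx} {R R' : Set Lam} {ω : WL Lam C2}
    (h : BoxW c2 (E.fc u w) b R R' ω) :
    BoxW c2 (E.fc u w') (b.grow 0 (3 * |w'.1 - w.1|)) R R' ω := by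
  refine h.transfer (fun _ _ _ _ => Iff.rfl)
    (fun T _ hT => hT.mono (sub_zero _).le (add_zero _).ge) fun D hD =>
      ⟨D, fun l => ?_, fun _ _ _ => Iff.rfl⟩
  obtain ⟨k1, k2⟩ := pos_abs_MoFam E.tr l w.1 w'.1
  refine ⟨fun k => (hD l).1 ?_, fun k => (hD l).2 ?_⟩ <;>
    simp only [Bx.grow, Emb.fc_y] at k ⊢ <;> linarith

namespace Fam
variable {E : Emb} {Q P : Type} {F : Fam E Q P} {q q' : Q} {b : Bx} {x y z : P}

theorem box_ex (F : Fam E Q P) (q : Q) (x y : P) : ∃ b, F.Box q b x y := by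
  obtain ⟨b, hb⟩ := F.cv q x y
  let pt : Lam → Bx := fun l => ⟨(F.Z q).x l, (F.Z q).x l, (F.Z q).y l, (F.Z q).y l⟩
  have hp : ∀ l, l ∈ (F.Z q).bl (pt l) := fun l => ⟨le_rfl, le_rfl, le_rfl, le_rfl⟩
  exact ⟨(b.sup (pt (F.lb x))).sup (pt (F.lb y)),
    (F.Z q).bl_mono ((Bx.sub_sup_right _ _).trans (Bx.sub_sup_left _ _)) (hp _),
    (F.Z q).bl_mono (Bx.sub_sup_right _ _) (hp _),
    hb.mono ((Bx.sub_sup_left _ _).trans (Bx.sub_sup_left _ _))⟩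

theorem Box.tr (h : F.Box q b x y) : F.tr.Box q b.tr x y := by
  refine ⟨Bx.Mem.tr h.1, Bx.Mem.tr h.2.1, ?_⟩
  change BoxW c2 (F.Z q).tr b.tr (Rl (F.Z q).Y (F.lb x)) (Rl (F.Z q).Y (F.lb y))
    ((F.gh q x)⁻¹ * F.gh q y)
  rw [F.relv, F.relv]
  exact h.2.2.kap h.1 h.2.1

theorem Box.mono {b' : Bx} (h : F.Box q b x y) (hb : b.Sub b') : F.Box q b' x y :=
  ⟨(F.Z q).bl_mono hb h.1, (F.Z q).bl_mono hb h.2.1, h.2.2.mono hb⟩

theorem Box.mv (h : F.Box q b x y) (hm : F.B.MV q q') :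
    F.Box q' (b.grow 0 (3 * |(F.B.w q').1 - (F.B.w q).1|)) x y := by
  unfold Box Z at h ⊢
  rw [← hm.2, ← F.mv q q' x hm, ← F.mv q q' y hm]
  exact ⟨bl_mv_MoFam E _ _ _ h.1, bl_mv_MoFam E _ _ _ h.2.1, boxW_mv_MoFam E _ _ _ h.2.2⟩

theorem Box.mh (h : F.Box q b x y) (hm : F.B.MH q q') :
    F.Box q' (b.grow (3 * |(F.B.u q').1 - (F.B.u q).1|) 0) x y :=
  (Box.mv (F := F.tr) h.tr hm).tr

theorem Box.move_MoFam (h : F.Box q b x y) (hm : F.B.Mv q q') :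
    F.Box q' (b.grow (3 * F.B.dv q q') (3 * F.B.dh q q')) x y := by
  rcases hm with hm | hm
  · rw [F.B.dv_mv hm, F.B.dh_mv hm, mul_zero]
    exact h.mv hm
  · rw [F.B.dv_mh hm, F.B.dh_mh hm, mul_zero]
    exact h.mh hm

theorem chain_MoFam : ∀ (l : List Q) (q : Q) (b : Bx), F.Box q b x y → (q :: l).IsChain F.B.Mv →
    F.Box ((q :: l).getLast (List.cons_ne_nil _ _))
      (b.grow (3 * wlen F.B.dv (q :: l)) (3 * wlen F.B.dh (q :: l))) x y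
  | [], q, b, h, _ => h.mono (by simp [Bx.Sub, Bx.grow, wlen])
  | a :: l, q, b, h, hc => by
    rw [List.isChain_cons_cons] at hc
    rw [List.getLast_cons_cons, wlen_cons2, wlen_cons2]
    refine (chain_MoFam l a _ (h.move_MoFam hc.1) hc.2).mono ⟨?_, ?_, ?_, ?_⟩ <;>
      simp only [Bx.grow] <;> linarith

/-- Boxes are uniform on balls of the base. -/
theorem Box.ball (h : F.Box q b x y) (q' : Q) :
    F.Box q' (b.grow (3 * F.B.dv q q') (3 * F.B.dh q q')) x y := by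
  obtain ⟨l, e1, e2, e3, e4⟩ := F.B.geo_list E.bc_gen q q'
  have := chain_MoFam l q b h e1
  rwa [e2, e3, e4] at this

theorem dv_eq (h : F.Box q b x y) {S : Finset Lam} (hS : (F.Z q).bl b ⊆ (S : Set Lam)) :
    F.dv q x y = dT (E.pos (F.B.u q).1) (E.pos (F.B.u q).1 (F.lb x))
      ((pj S (F.gv q x))⁻¹ * pj S (F.gv q y)) (E.pos (F.B.u q).1 (F.lb y)) := by
  rw [← map_inv, ← map_mul]
  exact h.2.2.att ((F.Z q).at_Rl _) ((F.Z q).at_Rl _) hS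

theorem dv_ev_MoFam (F : Fam E Q P) (q : Q) (x y : P) : ∀ᶠ S : Finset Lam in atTop,
    F.dv q x y = dL (E.pos (F.B.u q).1) (E.pos (F.B.u q).1 (F.lb x), pj S (F.gv q x))
      (E.pos (F.B.u q).1 (F.lb y), pj S (F.gv q y)) := by
  obtain ⟨b, hb⟩ := F.box_ex q x y
  exact ((F.Z q).bl_ev b).mono fun S hS => dv_eq hb hS

theorem dv_pm (F : Fam E Q P) (q : Q) : PM (F.dv q) := by
  refine ⟨fun x => ?_, fun x y => ?_, fun x y z => ?_⟩
  · obtain ⟨S, h1⟩ := (F.dv_ev_MoFam q x x).exists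
    rw [h1, (dL_pm _).self]
  · obtain ⟨S, h1, h2⟩ := ((F.dv_ev_MoFam q x y).and (F.dv_ev_MoFam q y x)).exists
    rw [h1, h2, (dL_pm _).symm]
  · obtain ⟨S, h1, h2, h3⟩ := ((F.dv_ev_MoFam q x z).and
      ((F.dv_ev_MoFam q x y).and (F.dv_ev_MoFam q y z))).exists
    rw [h1, h2, h3]
    exact (dL_pm _).tri _ _ _

/-- The planar model of a generic fibre. -/
theorem plan (F : Fam E Q P) (q : Q) (hq : (F.Z q).Gen) (x0 : P) :
    ∃ (Q' : Type) (M : Plan c2 (F.Z q) Q') (j : P → Q'),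
      (∀ x, M.g (j x) = F.gv q x ∧ M.h (j x) = F.gh q x ∧
        M.u (j x) = ((F.Z q).x (F.lb x), true) ∧ M.w (j x) = ((F.Z q).y (F.lb x), true)) ∧
      (∀ x y, M.dv (j x) (j y) = F.dv q x y ∧ M.dh (j x) (j y) = F.dh q x y) ∧
      Function.Injective j ∧
      ∀ r l, M.u r = ((F.Z q).x l, true) → M.w r = ((F.Z q).y l, true) → ∃ x, j x = r := by
  obtain ⟨Q', M, r0, g0, u0, -⟩ := plan_ex c2 (F.Z q) (F.gv q x0) ((F.Z q).x (F.lb x0), true)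
    ((F.Z q).y (F.lb x0), true)
  have hR : ∀ r l, M.u r = ((F.Z q).x l, true) → M.R r = Rl (F.Z q).X l := fun r l h => by
    unfold Plan.R
    rw [h, Rs_eq_Rl _ hq.1]
  have ex : ∀ x, ∃ r, M.g r = F.gv q x ∧ M.u r = ((F.Z q).x (F.lb x), true) ∧
      M.w r = ((F.Z q).y (F.lb x), true) := by
    intro x
    obtain ⟨b, hb⟩ := F.box_ex q x0 x
    have h1 := hb.2.2
    rw [← hR r0 _ u0, ← Rs_eq_Rl _ hq.1] at h1
    obtain ⟨r, e1, e2, e3⟩ := Plan.ex_of_box hq r0 h1 ((F.Z q).y (F.lb x), true)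
    exact ⟨r, by rw [e1, g0, mul_inv_cancel_left], e2, e3⟩
  choose j hg hu hw using ex
  have hh : ∀ x, M.h (j x) = F.gh q x := fun x => by
    have e : Rs (F.Z q).y ((F.Z q).y (F.lb x), true) = Rl (F.Z q).Y (F.lb x) :=
      Rs_eq_Rl (F.Z q).tr hq.2 _
    rw [M.relv, F.relv, hg, hu, hw, Rs_eq_Rl _ hq.1, e]
    rfl
  refine ⟨Q', M, j, fun x => ⟨hg x, hh x, hu x, hw x⟩, fun x y => ⟨?_, ?_⟩, fun x y e => ?_,
    fun r l h1 h2 => ?_⟩
  · unfold Plan.dv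
    rw [hg, hg, hu, hu]
    rfl
  · unfold Plan.dh
    rw [hh, hh, hw, hw]
    rfl
  · refine F.ext q x y (hq.1 ?_) (by rw [← hg, ← hg, e])
    have := hu x
    rw [e, hu] at this
    exact (congrArg Prod.fst this).symm
  · obtain ⟨b, hb⟩ := M.box_ex (j x0) r
    have h3 := hb.2.2
    rw [hR _ _ (hu x0), hR r l h1] at h3
    obtain ⟨y, e1, e2⟩ := F.clv q x0 l b _ h3
    exact ⟨y, M.ext _ _ (by rw [hg, e2, hg, mul_inv_cancel_left]) (by rw [hu, e1, h1])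
      (by rw [hw, e1, h2])⟩

theorem thick (F : Fam E Q P) (q : Q) (hq : (F.Z q).Gen) :
    Thick (fun x y => F.dv q x y + F.dh q x y) := by
  rcases isEmpty_or_nonempty P with h0 | ⟨⟨x0⟩⟩
  · exact ⟨⟨0, fun w => isEmptyElim w⟩, ⟨0, le_rfl, fun w => isEmptyElim w⟩,
      fun w => isEmptyElim w⟩
  obtain ⟨Q', M, j, h1, h2, h3, h4⟩ := F.plan q hq x0
  have BT := M.biTree hq c2_ne
  have hden : (F.Z q).Den 3 := E.fc_den _ _
  have hD : ∀ x y, F.dv q x y + F.dh q x y = 1 * M.dv (j x) (j y) + 1 * M.dh (j x) (j y) :=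
    fun x y => by rw [(h2 x y).1, (h2 x y).2, one_mul, one_mul]
  refine ⟨⟨9 * (1 * (4 * 3) + 1 * (4 * 3)), fun w x y z => ?_⟩,
    ⟨6, by norm_num, fun x y s hs hs' => ?_⟩, fun x T => ?_⟩
  · unfold gp
    simp only [hD]
    exact BT.hyp (by norm_num) (by norm_num) (M.noRect hq c2_ne (by norm_num) hden) zero_le_one
      zero_le_one (j w) (j x) (j y) (j z)
  · beta_reduce at hs' ⊢
    obtain ⟨r, e1, e2⟩ := BT.rg zero_le_one zero_le_one (j x) (j y) s hs (by rwa [hD] at hs')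
    obtain ⟨l, l1, l2, l3, l4⟩ := hden (M.u r).1 (M.w r).1
    obtain ⟨r1, m1, k1⟩ := M.ex_mh r ((F.Z q).x l, true)
    obtain ⟨r2, m2, k2⟩ := M.ex_mv r1 ((F.Z q).y l, true)
    obtain ⟨z, rfl⟩ := h4 r2 l (m2.2.symm.trans k1) k2
    have a1 : M.dv r r1 ≤ 3 := by
      rw [M.dv_mh m1, k1]
      exact abs_le.2 ⟨by linarith, by linarith⟩
    have a2 : M.dh r1 (j z) ≤ 3 := by
      rw [M.dh_mv m2, k2, ← m1.2]
      exact abs_le.2 ⟨by linarith, by linarith⟩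
    have a3 : M.dv r (j z) ≤ 3 := by linarith [M.pv.tri r r1 (j z), M.dv_mv m2]
    have a4 : M.dh r (j z) ≤ 3 := by linarith [M.ph.tri r r1 (j z), M.dh_mh m1]
    have b1 := abs_le.1 e1
    have b2 := abs_le.1 e2
    refine ⟨z, ?_⟩
    rw [hD, hD, hD]
    have c1 := M.pv.symm r (j z)
    have c2 := M.ph.symm r (j z)
    refine ⟨abs_le.2 ⟨?_, ?_⟩, abs_le.2 ⟨?_, ?_⟩⟩
    · linarith [M.pv.tri (j x) (j z) r, M.ph.tri (j x) (j z) r]
    · linarith [M.pv.tri (j x) r (j z), M.ph.tri (j x) r (j z)]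
    · linarith [M.pv.tri r (j z) (j y), M.ph.tri r (j z) (j y)]
    · linarith [M.pv.tri (j z) r (j y), M.ph.tri (j z) r (j y)]
  · refine ((M.ball_fin hq c2_ne (j x) T).preimage h3.injOn).subset fun y hy => ⟨?_, ?_⟩
    · rw [(h2 x y).1, (h2 x y).2]
      exact hy
    · exact ⟨_, (h1 y).2.2⟩

end Fam

end Pool.Agent.E5f
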