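import Pool.Agent.E5f.BrStep
import Pool.Agent.E5f.MoFam

set_option autoImplicit false

namespace Pool.Agent.E5f

open Classical Filter

section Words
variable {L C : Type} [CommGroup C] {c : C} {A A' : Cfg L} {b b' : Bx} {R R' : Set L}
  {ω : WL L C} {a a' : ℝ}

theorem step_BrTwo (h : BoxW c A b R R' ω) (ha : At A.x R a) (ha' : At A.x R' a')
    {S S' : Finset L} {ν : L} (h3 : ∀ l, l ∈ S' ↔ l = ν ∨ l ∈ S) (h2 : ν ∉ S)
    (hν : ν ∉ A.bl b) : dT A.x a (pj S' ω) a' = dT A.x a (pj S ω) a' := by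
  rcases A.not_bl hν with h4 | h4
  · rw [h.out h3 h4]
  · refine le_antisymm ?_ ?_
    · have e : pj S' ω = ev (weave c A.X ν (ν ∈ R) (wd (pj S ω)) (ν ∈ R')) := by
        rw [ev_weave, ev_wd, h.high h3 h2 h4]; rfl
      rw [e, dT_wd A.x a a' (pj S ω), ← Var_weave A c ν _ (ν ∈ R) (ν ∈ R') a a' (ha ν) (ha' ν)]
      exact dT_ev_le _ _ _ _
    · rw [← ret_pj (S := S) (S' := S') (fun l hl => (h3 l).2 (Or.inr hl))]
      exact dT_ret_le _ _ _ _ _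

theorem del_BrTwo (h : BoxW c A b R R' ω) (ha : At A.x R a) (ha' : At A.x R' a') (S : Finset L) :
    dT A.x a (pj S ω) a' = dT A.x a (pj (cut S (A.bl b)) ω) a' := by
  refine add_ind (p := fun S' => (∀ l ∈ S', l ∈ A.bl b → l ∈ cut S (A.bl b)) →
    dT A.x a (pj S' ω) a' = dT A.x a (pj (cut S (A.bl b)) ω) a') (fun _ => rfl) ?_ S
    (cut_sub S _) fun l hl hb => mem_cut.2 ⟨hl, hb⟩
  intro S1 S' ν h1 h2 h3 ih h4
  rw [step_BrTwo h ha ha' h3 h2 fun h5 => h2 (h1 (h4 ν ((h3 ν).2 (Or.inl rfl)) h5))]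
  exact ih fun l hl => h4 l ((h3 l).2 (Or.inr hl))

theorem one_BrTwo (hx : A'.x = A.x) (h : BoxW c A b R R' ω) (h' : BoxW c A' b' R R' ω)
    (ha : At A.x R a) (ha' : At A.x R' a')
    (H : ∀ l ∈ A.bl b, l ∈ A'.bl b' → ∀ m ∈ A.bl b, m ∈ A'.bl b' → l = m) :
    dW A.x a ω a' = |a' - a| ∨
      ∃ ν ∈ A.bl b, ν ∈ A'.bl b' ∧ dW A.x a ω a' = |A.x ν - a| + |a' - A.x ν| := by
  have e := del_BrTwo h' (hx ▸ ha) (hx ▸ ha') (A.bl_fin b).toFinset
  rw [hx] at e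
  rw [h.att ha ha' (S := (A.bl_fin b).toFinset) fun l hl => by simpa using hl, e]
  have hs : ∀ l ∈ lab (pj (cut (A.bl_fin b).toFinset (A'.bl b')) ω), l ∈ A.bl b ∧ l ∈ A'.bl b' :=
    fun l hl => by simpa using sup_pj _ _ l hl
  generalize pj (cut (A.bl_fin b).toFinset (A'.bl b')) ω = g at hs
  by_cases h1 : ∃ ν ∈ A.bl b, ν ∈ A'.bl b'
  · obtain ⟨ν, h1, h2⟩ := h1
    obtain ⟨x, rfl⟩ := sup_single (a := ν) (g := g) fun l hl => H l (hs l hl).1 (hs l hl).2 ν h1 h2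
    by_cases hx1 : x = 1
    · exact Or.inl (by rw [hx1, lt_one, dT_one])
    · exact Or.inr ⟨ν, h1, h2, dT_lt _ _ _ _ hx1⟩
  · left
    rw [dT, List.eq_nil_iff_forall_not_mem.2 fun l hl => h1 ⟨l, hs l hl⟩]
    exact add_zero _

theorem sep_BrTwo (hc : c ≠ 1) (h : BoxW c A b R R' ω) (h' : BoxW c A' b' R R' ω) {ν : L}
    (hν : ¬ (ν ∈ R ↔ ν ∈ R')) (h1 : b.y1 < A.y ν) (h2 : A'.y ν < b'.y0) (hb : b'.y0 ≤ b'.y1) :
    False := by
  have e := h.expo_out (fun h => h.2.2.2.not_gt h1) (Finset.mem_singleton_self ν)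
  rw [h'.expo_out (fun h => h.2.2.1.not_gt h2) (Finset.mem_singleton_self ν), if_pos h1,
    if_neg (h2.le.trans hb).not_gt] at e
  by_cases r : ν ∈ R <;> by_cases r' : ν ∈ R'
  · exact hν (iff_of_true r r')
  · rw [if_pos r, if_neg r', inv_one, mul_one] at e
    exact hc e.symm
  · rw [if_neg r, if_pos r', one_mul] at e
    exact hc (inv_eq_one.1 e.symm)
  · exact hν (iff_of_false r r')

end Words

/-- Two configurations with the same first order whose second coordinates are transverse. -/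
structure TwoBrTwo {L : Type} (A A' : Cfg L) (K δ Y : ℝ) : Prop where
  gen : A.Gen
  gen' : A'.Gen
  hX : A'.X = A.X
  δ0 : 0 < δ
  Y0 : 0 ≤ Y
  near : ∀ l, |A'.y l - A.y l| ≤ K
  sep : ∀ α s s', ∃ l, α < A.x l ∧ A.x l < α + Y ∧
    ((s + δ < A.y l ∧ A'.y l < s' - δ) ∨ (A.y l < s - δ ∧ s' + δ < A'.y l))
  uniq : ∀ l m, |A.x l - A.x m| ≤ 4 * Y + 4 → |A.y l - A.y m| ≤ 2 * δ →
    |A'.y l - A'.y m| ≤ 2 * δ → l = m

/-- Matched points. -/
def MatBrTwo {L C : Type} [CommGroup C] {c : C} {A A' : Cfg L} {Q Q' : Type} (N : Plan c A Q)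
    (N' : Plan c A' Q') (z : Q) (z' : Q') : Prop :=
  N'.g z' = N.g z ∧ (N'.u z').1 = (N.u z).1 ∧ N'.R z' = N.R z

namespace TwoBrTwo
variable {L C : Type} [CommGroup C] {c : C} {A A' : Cfg L} {Q Q' : Type} {N : Plan c A Q}
  {N' : Plan c A' Q'} {K δ Y : ℝ} (T : TwoBrTwo A A' K δ Y)

include T

theorem hx : A'.x = A.x := funext fun l => by rw [Cfg.x, T.hX, Cfg.x]

theorem dv {p q : Q} {p' q' : Q'} (hp : MatBrTwo N N' p p') (hq : MatBrTwo N N' q q') :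
    N'.dv p' q' = N.dv p q := by
  rw [Plan.dv, T.hx, hp.1, hq.1, hp.2.1, hq.2.1, Plan.dv]

theorem ex {p : Q} {p' : Q'} (hp : MatBrTwo N N' p p') (q : Q) : ∃ q', MatBrTwo N N' q q' := by
  obtain ⟨b, -, -, hb⟩ := N.box_ex p q
  have h1 := hb.transfer (Z' := A') (b' := b.grow 0 K) (fun _ _ _ _ => by rw [T.hX])
    (fun D _ h => by
      rw [T.hx]
      exact h.mono (sub_zero _).le (add_zero _).ge)
    fun D h => ⟨D, fun l => ⟨fun h1 => (h l).1 ?_, fun h1 => (h l).2 ?_⟩, fun _ _ _ => Iff.rfl⟩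
  · rw [← hp.2.2, Plan.R, Plan.R, ← T.hx] at h1
    obtain ⟨q', e1, e2, -⟩ := N'.ex_of_box T.gen' p' h1 (0, false)
    exact ⟨q', by rw [e1, hp.1, mul_inv_cancel_left], by rw [e2], by
      rw [Plan.R, e2, T.hx, Plan.R]⟩
  · change b.y1 + K < _ at h1
    linarith [(abs_le.1 (T.near l)).2]
  · change _ < b.y0 - K at h1
    linarith [(abs_le.1 (T.near l)).1]

theorem geo {p q r : Q} {p' q' : Q'} (hp : MatBrTwo N N' p p') (hq : MatBrTwo N N' q q')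
    (h : N.dv p r + N.dv r q = N.dv p q) (hr : (N.u r).1 ∉ Set.range A.x) :
    ∃ r', MatBrTwo N N' r r' ∧ Btw N'.dv N'.dh p' r' q' := by
  obtain ⟨z, hz⟩ := T.ex hp r
  obtain ⟨r', h1, h2⟩ := geoV_HypBi (N'.biTree' T.gen') p' q' (nonneg_HypBi N.pv p r) (by
    rw [T.dv hp hq]
    linarith [nonneg_HypBi N.pv r q])
  have h3 : N'.dv z r' = 0 := tree0 N'.pv N'.hv
    (by rw [T.dv hp hz, T.dv hz hq, T.dv hp hq, h]) h1.1 (by rw [T.dv hp hz, h2])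
  obtain ⟨h4, h5⟩ := Plan.dv_zero' T.gen'.1 h3
  have h6 : (N'.u r').1 = (N.u r).1 := h4.symm.trans hz.2.1
  refine ⟨r', ⟨?_, h6, ?_⟩, h1⟩
  · rcases h5 with h5 | ⟨a, x, h5, -⟩
    · exact h5.symm.trans hz.1
    · exact absurd ⟨a, by rw [← T.hx, ← h5, hz.2.1]⟩ hr
  · ext l
    have : (N.u r).1 ≠ A.x l := fun e => hr ⟨l, e.symm⟩
    simp only [Plan.R, Rs, T.hx, h6, Set.mem_ofPred_eq, this, false_and]

theorem same {x x' s s' : ℝ} {l m : L} (hl : l ∈ A.bl ((Bx.mk x x s s).grow (2 * Y + 2) δ))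
    (hl' : l ∈ A'.bl ((Bx.mk x' x' s' s').grow (2 * Y + 2) δ))
    (hm : m ∈ A.bl ((Bx.mk x x s s).grow (2 * Y + 2) δ))
    (hm' : m ∈ A'.bl ((Bx.mk x' x' s' s').grow (2 * Y + 2) δ)) : l = m := by
  simp only [Cfg.bl, Bx.grow, Bx.Mem, Set.mem_ofPred_eq] at hl hl' hm hm'
  refine T.uniq l m ?_ ?_ ?_ <;> rw [abs_le] <;> constructor <;>
    linarith [hl.1, hl.2.1, hl.2.2.1, hl.2.2.2, hl'.2.2.1, hl'.2.2.2, hm.1, hm.2.1, hm.2.2.1,
      hm.2.2.2, hm'.2.2.1, hm'.2.2.2]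

theorem pair (hc : c ≠ 1) {p q : Q} {p' q' : Q'} (hp : MatBrTwo N N' p p')
    (hq : MatBrTwo N N' q q') {x x' s s' : ℝ}
    (h : N.Box ((Bx.mk x x s s).grow (2 * Y + 2) δ) p q)
    (h' : N'.Box ((Bx.mk x' x' s' s').grow (2 * Y + 2) δ) p' q') (hY : Y < N.dv p q) :
    ∃ ν ∈ A.bl ((Bx.mk x x s s).grow (2 * Y + 2) δ),
      ν ∈ A'.bl ((Bx.mk x' x' s' s').grow (2 * Y + 2) δ) ∧
      N.dv p q = |A.x ν - (N.u p).1| + |(N.u q).1 - A.x ν| := by
  have b1 := h.2.2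
  have b2 := h'.2.2
  rw [hp.1, hq.1, hp.2.2, hq.2.2] at b2
  refine (one_BrTwo T.hx b1 b2 (N.at_R p) (N.at_R q)
    fun l h1 h2 m h3 h4 => T.same h1 h2 h3 h4).resolve_left fun e => ?_
  rw [Plan.dv, e] at hY
  obtain ⟨l, h1, h2, h3⟩ := T.sep (min (N.u p).1 (N.u q).1) s s'
  have hδ := T.δ0
  have h4 : ¬ (l ∈ N.R p ↔ l ∈ N.R q) := by
    rcases le_total (N.u p).1 (N.u q).1 with k | k
    · rw [min_eq_left k] at h1 h2
      rw [abs_of_nonneg (sub_nonneg.2 k)] at hY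
      exact fun i => by linarith [(N.at_R q l).1 (i.1 (Or.inl h1))]
    · rw [min_eq_right k] at h1 h2
      rw [abs_of_nonpos (sub_nonpos.2 k)] at hY
      exact fun i => by linarith [(N.at_R p l).1 (i.2 (Or.inl h1))]
  rcases h3 with h3 | h3
  · exact sep_BrTwo hc b1 b2 h4 h3.1 h3.2 (show s' - δ ≤ s' + δ by linarith)
  · exact sep_BrTwo hc b2 b1 h4 h3.2 h3.1 (show s - δ ≤ s + δ by linarith)

theorem loc (hc : c ≠ 1) {p q r : Q} {p' q' r' : Q'} (hp : MatBrTwo N N' p p')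
    (hq : MatBrTwo N N' q q') (hr : MatBrTwo N N' r r') (h : N.dv p q + N.dv q r = N.dv p r)
    (a1 : Y < N.dv p q) (a2 : N.dv p q < Y + 1) (a3 : Y < N.dv q r) (a4 : N.dv q r < Y + 1)
    (hg : (N.u q).1 ∉ Set.range A.x) :
    δ ≤ N.dh p q + N.dh q r + (N'.dh p' q' + N'.dh q' r') := by
  by_contra hn
  have hY := T.Y0
  have n1 := nonneg_HypBi N.ph p q
  have n2 := nonneg_HypBi N.ph q r
  have n3 := nonneg_HypBi N'.ph p' q'
  have n4 := nonneg_HypBi N'.ph q' r'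
  have t1 := N.ph.tri p q r
  have t2 := N'.ph.tri p' q' r'
  have b1 := (N.rch_dist T.gen p q (A := 2 * Y + 2) (B := δ) (by linarith) (by linarith)).box
  have b2 := (N.rch_dist T.gen p r (A := 2 * Y + 2) (B := δ) (by linarith) (by linarith)).box
  have b3 := (N'.rch_dist T.gen' p' q' (A := 2 * Y + 2) (B := δ)
    (by rw [T.dv hp hq]; linarith) (by linarith)).box
  have b4 := (N'.rch_dist T.gen' p' r' (A := 2 * Y + 2) (B := δ)
    (by rw [T.dv hp hr]; linarith) (by linarith)).box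
  obtain ⟨l, l1, l2, l3⟩ := T.pair hc hp hq b1 b3 a1
  obtain ⟨m, m1, m2, m3⟩ := T.pair hc hq hr (b1.symm.trans b2) (b3.symm.trans b4) a3
  obtain ⟨k, k1, k2, k3⟩ := T.pair hc hp hr b2 b4 (by linarith)
  obtain rfl := T.same l1 l2 m1 m2
  obtain rfl := T.same l1 l2 k1 k2
  rw [abs_sub_comm (A.x l)] at m3
  refine hg ⟨l, (sub_eq_zero.1 (abs_eq_zero.1 ?_)).symm⟩
  linarith

theorem glob [Countable L] (hc : c ≠ 1) {e : Q} {e' : Q'} (he : MatBrTwo N N' e e') (n : ℕ) :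
    ∀ z z', MatBrTwo N N' z z' → n * (2 * Y + 2) ≤ N.dv z e →
      n * δ ≤ N.dh z e + N'.dh z' e' := by
  have hY := T.Y0
  induction n with
  | zero =>
    intro z z' _ _
    rw [Nat.cast_zero, zero_mul]
    exact add_nonneg (nonneg_HypBi N.ph _ _) (nonneg_HypBi N'.ph _ _)
  | succ n ih =>
    intro z z' hz h
    rw [Nat.cast_succ, add_mul, one_mul] at h ⊢
    have h0 : 0 ≤ n * (2 * Y + 2) := by positivity
    obtain ⟨q, ⟨q1, q2⟩, q3, q4, q5⟩ := N.tr.geo_gen T.gen.tr hc z e (Set.countable_range A.x) hY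
      (lt_add_one Y) (show Y + 1 ≤ N.dv z e by linarith)
    change N.dh z q + N.dh q e = N.dh z e at q1
    change N.dv z q + N.dv q e = N.dv z e at q2
    change Y < N.dv z q at q3
    change N.dv z q < Y + 1 at q4
    obtain ⟨r, ⟨r1, r2⟩, r3, r4, r5⟩ := N.tr.geo_gen T.gen.tr hc q e (Set.countable_range A.x) hY
      (lt_add_one Y) (show Y + 1 ≤ N.dv q e by linarith)
    change N.dh q r + N.dh r e = N.dh q e at r1
    change N.dv q r + N.dv r e = N.dv q e at r2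
    change Y < N.dv q r at r3
    change N.dv q r < Y + 1 at r4
    obtain ⟨q', hq, -, q6⟩ := T.geo hz he q2 q5
    obtain ⟨r', hr, -, r6⟩ := T.geo hq he r2 r5
    have h1 := T.loc hc hz hq hr (by linarith [N.pv.tri z q r, N.pv.tri z r e]) q3 q4 r3 r4 q5
    have h2 := ih r r' hr (by linarith)
    linarith

theorem fin [Countable L] (hc : c ≠ 1) {z e : Q} {z' e' : Q'} (hz : MatBrTwo N N' z z')
    (he : MatBrTwo N N' e e') : δ / (2 * Y + 2) * N.dv z e - δ ≤ N.dh z e + N'.dh z' e' := by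
  have hY : 0 < 2 * Y + 2 := by linarith [T.Y0]
  have h0 := div_nonneg (nonneg_HypBi N.pv z e) hY.le
  have h1 := T.glob hc he ⌊N.dv z e / (2 * Y + 2)⌋₊ z z' hz ((le_div_iff₀ hY).1 (Nat.floor_le h0))
  have h2 := mul_le_mul_of_nonneg_right (Nat.lt_floor_add_one (N.dv z e / (2 * Y + 2))).le T.δ0.le
  have h3 : δ / (2 * Y + 2) * N.dv z e = N.dv z e / (2 * Y + 2) * δ := by ring
  linarith

end TwoBrTwo

theorem Emb.two_BrTwo (E : Emb) {u u' w : Mk} (hne : u.1 ≠ u'.1) (hu : u.1 ∉ Set.range E.ξ)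
    (hu' : u'.1 ∉ Set.range E.ξ) (hw : w.1 ∉ Set.range E.η) :
    ∃ K δ Y, TwoBrTwo (E.fc u w).tr (E.fc u' w).tr K δ Y := by
  obtain ⟨t, ht, hΔ⟩ : ∃ t : ℝ, 0 < t ∧ |u'.1 - u.1| = 12 * t :=
    ⟨|u'.1 - u.1| / 12, by have := abs_pos.2 (sub_ne_zero.2 hne.symm); positivity, by ring⟩
  have hY : 0 < 27 / t := by positivity
  obtain ⟨δ, d0, d1, d2⟩ : ∃ δ : ℝ, 0 < δ ∧ 2 * δ ≤ t ∧ 2 * δ * (4 * (27 / t) + 4) < 1 := by
    refine ⟨min (t / 2) (1 / (4 * (4 * (27 / t) + 4))), by positivity,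
      by linarith [min_le_left (t / 2) (1 / (4 * (4 * (27 / t) + 4)))], ?_⟩
    have := (le_div_iff₀ (by positivity)).1 (min_le_right (t / 2) (1 / (4 * (4 * (27 / t) + 4))))
    linarith
  have key : ∀ (i : Fin 3) (α s s' : ℝ), 2 * δ + t ≤ |s' - s - E.m i * (u'.1 - u.1)| →
      ∃ l, α < E.tr.pos w.1 l ∧ E.tr.pos w.1 l < α + 27 / t ∧
        ((s + δ < E.pos u.1 l ∧ E.pos u'.1 l < s' - δ) ∨
          (E.pos u.1 l < s - δ ∧ s' + δ < E.pos u'.1 l)) := by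
    intro i α s s' h
    have e : 27 ≤ t * (27 / t) := (mul_div_cancel₀ _ ht.ne').ge
    rcases le_abs.1 h with h | h
    · obtain ⟨l, rfl, a1, a2, a3, a4⟩ := E.den_lab_box i u.1 w.1 (s + δ) α t _ ht e
      exact ⟨l, a3, a4, Or.inl ⟨a1, by linarith [E.pos_move l u.1 u'.1]⟩⟩
    · obtain ⟨l, rfl, a1, a2, a3, a4⟩ := E.den_lab_box i u.1 w.1 (s - δ - t) α t _ ht e
      exact ⟨l, a3, a4, Or.inr ⟨by linarith, by linarith [E.pos_move l u.1 u'.1]⟩⟩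
  refine ⟨3 * |u'.1 - u.1|, δ, 27 / t, (E.fc_gen hu hw).tr, (E.fc_gen hu' hw).tr, rfl, d0, hY.le,
    fun l => ?_, fun α s s' => ?_, fun l m h1 h2 h3 => ?_⟩
  · change |E.pos u'.1 l - E.pos u.1 l| ≤ _
    rw [E.pos_move l u.1 u'.1, add_sub_cancel_left, abs_mul, abs_of_nonneg (E.m_nonneg _)]
    exact mul_le_mul_of_nonneg_right (E.m_le _) (abs_nonneg _)
  · by_cases h : 2 * δ + t ≤ |s' - s - E.m 0 * (u'.1 - u.1)|
    · exact key 0 α s s' h
    · refine key E.md α s s' ?_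
      rw [E.m_zero, zero_mul, sub_zero] at h
      have h1 := abs_sub_abs_le_abs_sub (E.m E.md * (u'.1 - u.1)) (s' - s)
      rw [abs_mul, abs_of_pos E.m_md_pos, hΔ, abs_sub_comm (_ * _)] at h1
      nlinarith [E.m_md_ge]
  · change |E.tr.pos w.1 l - E.tr.pos w.1 m| ≤ _ at h1
    change |E.pos u.1 l - E.pos u.1 m| ≤ _ at h2
    change |E.pos u'.1 l - E.pos u'.1 m| ≤ _ at h3
    have h4 : l.1 = m.1 := by
      by_contra hn
      have e : (E.m l.1 - E.m m.1) * (u'.1 - u.1) =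
          E.pos u'.1 l - E.pos u'.1 m - (E.pos u.1 l - E.pos u.1 m) := by
        rw [E.pos_move l u.1 u'.1, E.pos_move m u.1 u'.1]
        ring
      have h5 := abs_sub (E.pos u'.1 l - E.pos u'.1 m) (E.pos u.1 l - E.pos u.1 m)
      rw [← e, abs_mul, hΔ] at h5
      have h6 : 1 / 3 ≤ |E.m l.1 - E.m m.1| := by
        rcases (E.m_ne hn).lt_or_gt with k | k
        · exact le_abs.2 (Or.inr (by linarith [E.m_gap k]))
        · exact le_abs.2 (Or.inl (by linarith [E.m_gap k]))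
      nlinarith
    rw [E.tr.pos_same h4.symm, ← map_sub] at h1
    rw [E.pos_same h4.symm, ← map_sub] at h2
    refine Prod.ext h4 (sub_eq_zero.1 (E.eq_zero_of_small ?_))
    exact (mul_le_mul h2 h1 (abs_nonneg _) (by linarith)).trans_lt d2

namespace Fam
variable {E : Emb} {Q P : Type} (F : Fam E Q P)

/-- Two generic configurations on a horizontal move control the vertical length. -/
theorem br_two {q r : Q} (h : F.B.MH q r) (hne : (F.B.u q).1 ≠ (F.B.u r).1)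
    (hq : (F.B.u q).1 ∉ Set.range E.ξ) (hr : (F.B.u r).1 ∉ Set.range E.ξ)
    (hw : (F.B.w q).1 ∉ Set.range E.η) :
    ∃ c C : ℝ, 0 < c ∧ ∀ x y, c * F.dh q x y - C ≤ F.dv q x y + F.dv r x y := by
  obtain ⟨K, δ, Y, T⟩ := E.two_BrTwo (w := F.B.w q) hne hq hr hw
  have e : F.Z r = E.fc (F.B.u r) (F.B.w q) := by rw [Fam.Z, h.2]
  rw [← e] at T
  change TwoBrTwo (F.Z q).tr (F.Z r).tr K δ Y at T
  refine ⟨δ / (2 * Y + 2), δ, div_pos T.δ0 (by linarith [T.Y0]), fun x y => ?_⟩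
  obtain ⟨Q1, M, j, a1, a2, -⟩ := F.plan q T.gen.tr x
  obtain ⟨Q2, M', j', b1, b2, -⟩ := F.plan r T.gen'.tr x
  have hy : (F.Z r).y = (F.Z q).y := T.hx
  have m : ∀ z, MatBrTwo M.tr M'.tr (j z) (j' z) := fun z => by
    have e1 : M'.w (j' z) = M.w (j z) := by rw [(a1 z).2.2.2, (b1 z).2.2.2, hy]
    refine ⟨(b1 z).2.1.trans ((F.mh q r z h).symm.trans (a1 z).2.1.symm), congrArg _ e1, ?_⟩
    change Rs (F.Z r).y (M'.w (j' z)) = Rs (F.Z q).y (M.w (j z))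
    rw [e1, hy]
  have := T.fin c2_ne (m x) (m y)
  rwa [M.tr_dv, M.tr_dh, M'.tr_dh, (a2 x y).1, (a2 x y).2, (b2 x y).1] at this

end Fam

end Pool.Agent.E5f
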