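import Pool.Agent.E5f.CombGeo

/-! Elementary facts on the total graph. -/

set_option autoImplicit false

namespace Pool.Agent.E5f.Cb

variable {P B : Type} {G : SimpleGraph B} {D : B → P → P → ℝ} {δ κ K M r : ℝ} {n : ℕ}

theorem adj_CombTot {V : Type} {H : SimpleGraph V} {a b : V} (h : H.Adj a b) : gd H a b = 1 := by
  rw [gd, SimpleGraph.dist_eq_one_iff_adj.2 h, Nat.cast_one]

theorem step_CombTot (h : CombHyp G D δ κ K n M) {b : B} {x y : P} (hx : D b x y ≤ r) :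
    ∃ w : (totG G D r).Walk (x, b) (y, b), (w.length : ℝ) ≤ 1 := by
  by_cases e : x = y
  · subst e
    exact ⟨.nil, by simp⟩
  · have a : (totG G D r).Adj (x, b) (y, b) := ⟨fun e' => e (congrArg Prod.fst e'),
      Or.inl ⟨rfl, hx, ((h.pm b).symm y x).trans_le hx⟩⟩
    exact ⟨.cons a .nil, Nat.cast_one.le⟩

theorem walk_CombTot (h : CombHyp G D δ κ K n M) (hr : 2 * κ + 1 ≤ r) (b : B) (y : P) (N : ℕ) :
    ∀ x, D b x y ≤ N →
      ∃ w : (totG G D r).Walk (x, b) (y, b), (w.length : ℝ) ≤ D b x y + 1 := by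
  have hκ := h.κ0
  have small : ∀ x, D b x y ≤ r →
      ∃ w : (totG G D r).Walk (x, b) (y, b), (w.length : ℝ) ≤ D b x y + 1 := fun x hx => by
    obtain ⟨w, hw⟩ := step_CombTot h hx
    exact ⟨w, by linarith [pm_nonneg (h.pm b) x y]⟩
  induction N with
  | zero => exact fun x hx => small x (by rw [Nat.cast_zero] at hx; linarith)
  | succ N ih =>
    intro x hx
    rcases le_or_gt (D b x y) r with h1 | h1
    · exact small x h1
    obtain ⟨z, a1, a2⟩ := h.rg b x y (r - κ) (by linarith) (by linarith)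
    rw [abs_le] at a1 a2
    rw [Nat.cast_succ] at hx
    obtain ⟨w1, e1⟩ := step_CombTot (r := r) h (show D b x z ≤ r by linarith)
    obtain ⟨w2, e2⟩ := ih z (by linarith)
    refine ⟨w1.append w2, ?_⟩
    rw [SimpleGraph.Walk.length_append, Nat.cast_add]
    linarith

theorem lift_CombTot (h : CombHyp G D δ κ K n M) (r : ℝ) (x : P) (b b' : B) :
    ∃ w : (totG G D r).Walk (x, b) (x, b'), w.length = G.dist b b' := by
  obtain ⟨w, hw⟩ := h.conn.exists_walk_length_eq_dist b b'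
  let f : G →g totG G D r := ⟨fun b => (x, b), fun a =>
    ⟨fun e => a.ne (congrArg Prod.snd e), Or.inr ⟨rfl, a⟩⟩⟩
  exact ⟨w.map f, (w.length_map f).trans hw⟩

theorem tot_conn (h : CombHyp G D δ κ K n M) (hr : 2 * κ + 1 ≤ r) : (totG G D r).Connected := by
  have := h.ne
  have := h.conn.nonempty
  refine ⟨fun ⟨x, b⟩ ⟨y, b'⟩ => ?_⟩
  obtain ⟨w1, -⟩ := walk_CombTot h hr b y _ x (Nat.le_ceil _)
  obtain ⟨w2, -⟩ := lift_CombTot h r y b b'
  exact ⟨w1.append w2⟩

theorem tot_fib (h : CombHyp G D δ κ K n M) (hr : 2 * κ + 1 ≤ r) (b : B) (x y : P) :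
    gd (totG G D r) (x, b) (y, b) ≤ D b x y + 1 := by
  obtain ⟨w, hw⟩ := walk_CombTot h hr b y _ x (Nat.le_ceil _)
  exact (Nat.cast_le.2 (SimpleGraph.dist_le w)).trans hw

theorem tot_base (h : CombHyp G D δ κ K n M) (r : ℝ) (x : P) (b b' : B) :
    gd (totG G D r) (x, b) (x, b') ≤ gd G b b' := by
  obtain ⟨w, hw⟩ := lift_CombTot h r x b b'
  exact Nat.cast_le.2 ((SimpleGraph.dist_le w).trans hw.le)

theorem tot_le (h : CombHyp G D δ κ K n M) (hr : 2 * κ + 1 ≤ r) (X Y : P × B) :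
    gd G X.2 Y.2 ≤ gd (totG G D r) X Y := by
  have pm := gd_pm h.conn
  refine dist_ind (tot_conn h hr) X (fun m Y => gd G X.2 Y.2 ≤ m) (fun m => ?_)
    (fun m Y' Y'' a e => ?_) _ Y le_rfl
  · rw [pm.self]
    exact Nat.cast_nonneg m
  · rw [Nat.cast_succ]
    rcases e.2 with e | e
    · rw [← e.1]
      linarith
    · linarith [pm.tri X.2 Y'.2 Y''.2, adj_CombTot e.2]

theorem tot_near (h : CombHyp G D δ κ K n M) (hr : 2 * κ + 1 ≤ r) (C : ℝ) :
    ∃ C' : ℝ, ∀ X Y : P × B, gd (totG G D r) X Y ≤ C → D X.2 X.1 Y.1 ≤ C' := by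
  have hκ := h.κ0
  have hK := h.K1
  let c : ℕ → ℝ := fun m => Nat.rec 0 (fun _ a => K * a + K + r) m
  have cs : ∀ m, c (m + 1) = K * c m + K + r := fun _ => rfl
  have c0 : ∀ m, 0 ≤ c m := fun m => by
    induction m with
    | zero => exact le_rfl
    | succ m ih =>
      rw [cs]
      nlinarith
  refine ⟨c ⌈C⌉₊, fun X Y hX => ?_⟩
  refine dist_ind (tot_conn h hr) Y (fun m X => D X.2 X.1 Y.1 ≤ c m) (fun m => ?_)
    (fun m X' X'' a e => ?_) _ X ?_
  · rw [(h.pm _).self]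
    exact c0 m
  · rw [cs]
    have := c0 m
    rcases e.2 with e | e
    · rw [← e.1]
      nlinarith [(h.pm X'.2).tri X''.1 X'.1 Y.1, e.2.2]
    · rw [← e.1]
      nlinarith [h.lip _ _ e.2 X'.1 Y.1]
  · rw [(gd_pm (tot_conn h hr)).symm]
    exact hX.trans (Nat.le_ceil C)

theorem tot_sec (h : CombHyp G D δ κ K n M) (hr : 2 * κ + 1 ≤ r) {k : ℝ} (hk : 0 ≤ k)
    {s : B → P} (hs : Sec G D k s) (b b' : B) :
    gd (totG G D r) (s b, b) (s b', b') ≤ (k + 2) * gd G b b' := by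
  have pm := gd_pm (tot_conn h hr)
  refine dist_ind h.conn b (fun m e => gd (totG G D r) (s b, b) (s e, e) ≤ (k + 2) * m)
    (fun m => ?_) (fun m e e' a he => ?_) _ b' le_rfl
  · rw [pm.self]
    positivity
  · have h1 := tot_base h r (s e) e e'
    have h2 := tot_fib h hr e' (s e) (s e')
    have h3 := hs e e' he
    rw [adj_CombTot he] at h1
    rw [Nat.cast_succ]
    linarith [pm.tri (s b, b) (s e, e) (s e', e'), pm.tri (s e, e) (s e, e') (s e', e')]

end Pool.Agent.E5f.Cb
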