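import Pool.Agent.E5f.CombS
import Pool.Agent.E5f.CombTot

/-! The three conditions of the guessing lemma. -/

set_option autoImplicit false

namespace Pool.Agent.E5f.Cb

variable {P B : Type} {G : SimpleGraph B} {D : B → P → P → ℝ} {r : ℝ}

theorem ls_symm (c : Cx G D) {X Y W : P × B} (h : W ∈ c.Ls X Y) : W ∈ c.Ls Y X := by
  obtain ⟨s, a, e, hs, hc, ha, he, hb, hw⟩ := h
  refine ⟨s, e, a, hs, fun b => ?_, he, ha, hb.symm c.h.conn, hw⟩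
  rw [cgp_symm (c.h.pm b)]; exact hc b

/-- A point of a section over a point with small product is near the guessed geodesic. -/
theorem ls_near (c : Cx G D) (hr : 2 * c.κ + 1 ≤ r) (e : ℝ) : ∃ h : ℝ, ∀ s (X Y : P × B) a a' b,
    c.S s → (∀ b', gp (D b') (s b') X.1 Y.1 ≤ c.c0) → c.Pr s X a → c.Pr s Y a' →
    gp (gd G) b a a' ≤ e → ∃ W ∈ c.Ls X Y, gd (totG G D r) (s b, b) W ≤ h := by
  refine ⟨(c.k0 + 2) * (e + 1 + 2 * c.δ), fun s X Y a a' b hs hc ha ha' hb => ?_⟩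
  obtain ⟨y, hy, hd⟩ := near_geo c.h.conn c.h.hypB a a' b
  refine ⟨(s y, y), ⟨s, a, a', hs, hc, ha, ha', hy, rfl⟩, ?_⟩
  refine (tot_sec c.h hr c.k00 hs b y).trans ?_
  have := c.k00
  exact mul_le_mul_of_nonneg_left (by linarith) (by linarith)

theorem far_aux {X : Type} {d : X → X → ℝ} {δ c0 A : ℝ} (hd : PM d) (hh : Hyp d δ)
    {w m x y z : X} (h0 : gp d w x m ≤ c0 + δ) (h1 : gp d m x y ≤ c0)
    (h3 : gp d m x z ≤ c0) (hA : 0 ≤ A) (hf : A + 2 * c0 + 4 * δ < d w m) :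
    gp d w x z ≤ c0 + 2 * δ ∧ A ≤ gp d w y z := by
  have hδ := hyp_nonneg hh w
  have hc : 0 ≤ c0 := (cgp_nonneg hd m x y).trans h1
  have a1 := cgp_add hd w m x
  have a2 := cgp_add hd w m y
  have a3 := cgp_add hd w m z
  have s1 := cgp_symm hd w x m
  have s2 := cgp_symm hd m x w
  have s3 := cgp_symm hd w y m
  have s4 := cgp_symm hd w z m
  have b1 : gp d m w y ≤ c0 + δ := by
    have := hh m x w y
    rcases min_choice (gp d m x w) (gp d m w y) with h | h <;> rw [h] at this <;> linarith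
  have b2 : gp d m w z ≤ c0 + δ := by
    have := hh m x w z
    rcases min_choice (gp d m x w) (gp d m w z) with h | h <;> rw [h] at this <;> linarith
  constructor
  · have := hh w x z m
    rcases min_choice (gp d w x z) (gp d w z m) with h | h <;> rw [h] at this <;> linarith
  · have := hh w y m z
    rcases min_choice (gp d w y m) (gp d w m z) with h | h <;> rw [h] at this <;> linarith

/-- A point between `x` and `y` that is far from the centre. -/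
theorem far_ctr {X : Type} {d : X → X → ℝ} {δ c0 A : ℝ} (hd : PM d) (hh : Hyp d δ)
    {w m x y z : X} (hw : gp d w x y ≤ c0) (h1 : gp d m x y ≤ c0) (h2 : gp d m y z ≤ c0)
    (h3 : gp d m x z ≤ c0) (hA : 0 ≤ A) (hf : A + 2 * c0 + 4 * δ < d w m) :
    (gp d w x z ≤ c0 + 2 * δ ∧ A ≤ gp d w y z) ∨ (gp d w y z ≤ c0 + 2 * δ ∧ A ≤ gp d w x z) := by
  have := hh w x m y
  rcases min_choice (gp d w x m) (gp d w m y) with h | h <;> rw [h] at this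
  · exact Or.inl (far_aux hd hh (by linarith) h1 h3 hA hf)
  · refine Or.inr (far_aux hd hh ?_ ?_ h2 hA hf)
    · rw [cgp_symm hd]; linarith
    · rw [cgp_symm hd]; exact h1

/-- The case of a point far from the centre. -/
theorem ls_far (c : Cx G D) (hr : 2 * c.κ + 1 ≤ r) : ∃ h R9 : ℝ, ∀ s (X Y Z : P × B) a e b,
    c.S s → (∀ b', gp (D b') (s b') X.1 Y.1 ≤ c.c0) → c.Pr s X a → c.Pr s Y e → Bt G a b e →
    gp (D b) (s b) X.1 Z.1 ≤ c.c0 + 2 * c.δ → R9 ≤ gp (D b) (s b) Y.1 Z.1 →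
    ∃ W ∈ c.Ls X Z, gd (totG G D r) (s b, b) W ≤ h := by
  obtain ⟨C3, hC3⟩ := centre_uniq c.δ (c.c0 + 2 * c.δ)
  obtain ⟨cS, R9, h1⟩ := stab c C3
  obtain ⟨n1, hn1⟩ := ls_near c hr cS
  refine ⟨C3 + 1 + n1, R9, fun s X Y Z a e b hs hc ha he hb hx hy => ?_⟩
  obtain ⟨s', hs', hc'⟩ := c.ctr X.1 Z.1 (s b)
  have hδ := c.δ0
  have hc0 := c.c00
  have hp := c.h.pm b
  have hd : D b (s b) (s' b) ≤ C3 := by
    refine hC3 (D b) hp (c.h.hyp b) X.1 Z.1 (s b) (s b) (s' b) hx ?_ ?_ ?_ ?_ ?_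
    · rw [cgp_symm hp, cgp_self hp]; linarith
    · rw [cgp_symm hp, cgp_self hp]; linarith
    · linarith [(hc' b).1]
    · linarith [(hc' b).2.1]
    · linarith [(hc' b).2.2]
  obtain ⟨a', ha'⟩ := pr_ex c hs' X
  obtain ⟨e', he'⟩ := pr_ex c hs' Z
  have h2 := h1 s s' X Y Z a e a' e' b hs hs' hc ha he ha' he' hb hd (Or.inr hy)
  obtain ⟨W, hW, hW'⟩ := hn1 s' X Z a' e' b hs' (fun b' => (hc' b').1) ha' he' h2
  refine ⟨W, hW, ?_⟩
  have h3 := (gd_pm (tot_conn c.h hr)).tri (s b, b) (s' b, b) W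
  have h4 := tot_fib c.h hr b (s b) (s' b)
  linarith

theorem ls_slim (c : Cx G D) (hr : 2 * c.κ + 1 ≤ r) : ∃ h : ℝ, ∀ X Y Z W, W ∈ c.Ls X Y →
    ∃ W', (W' ∈ c.Ls X Z ∨ W' ∈ c.Ls Z Y) ∧ gd (totG G D r) W W' ≤ h := by
  obtain ⟨n1, R9, h1⟩ := ls_far c hr
  obtain ⟨cS, R9', h2⟩ := stab c (max R9 0 + 2 * c.c0 + 4 * c.δ)
  obtain ⟨n2, hn2⟩ := ls_near c hr (cS + c.δ)
  refine ⟨max n1 (max R9 0 + 2 * c.c0 + 4 * c.δ + 1 + n2), fun X Y Z W hW => ?_⟩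
  obtain ⟨w, b⟩ := W
  obtain ⟨s, a, e, hs, hc, ha, he, hb, hw⟩ := hW
  dsimp only at hb hw
  subst hw
  obtain ⟨m, hm, hmc⟩ := c.ctr X.1 Y.1 Z.1
  rcases le_or_gt (D b (s b) (m b)) (max R9 0 + 2 * c.c0 + 4 * c.δ) with hd | hd
  · obtain ⟨a', ha'⟩ := pr_ex c hm X
    obtain ⟨e', he'⟩ := pr_ex c hm Y
    obtain ⟨f, hf⟩ := pr_ex c hm Z
    have h3 := h2 s m X Y Y a e a' e' b hs hm hc ha he ha' he' hb hd (Or.inl rfl)
    have h4 := tot_fib c.h hr b (s b) (m b)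
    have h5 := c.h.hypB b a' f e'
    have h6 := le_max_right n1 (max R9 0 + 2 * c.c0 + 4 * c.δ + 1 + n2)
    rcases min_choice (gp (gd G) b a' f) (gp (gd G) b f e') with h | h <;> rw [h] at h5
    · obtain ⟨W, hW, hW'⟩ := hn2 m X Z a' f b hm (fun b' => (hmc b').2.2) ha' hf (by linarith)
      refine ⟨W, Or.inl hW, ?_⟩
      have h7 := (gd_pm (tot_conn c.h hr)).tri (s b, b) (m b, b) W
      linarith
    · obtain ⟨W, hW, hW'⟩ := hn2 m Z Y f e' b hm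
        (fun b' => by rw [cgp_symm (c.h.pm b')]; exact (hmc b').2.1) hf he' (by linarith)
      refine ⟨W, Or.inr hW, ?_⟩
      have h7 := (gd_pm (tot_conn c.h hr)).tri (s b, b) (m b, b) W
      linarith
  · have h6 := le_max_left n1 (max R9 0 + 2 * c.c0 + 4 * c.δ + 1 + n2)
    have h7 := le_max_left R9 0
    rcases far_ctr (c.h.pm b) (c.h.hyp b) (hc b) (hmc b).1 (hmc b).2.1 (hmc b).2.2
      (le_max_right R9 0) hd with h | h
    · obtain ⟨W, hW, hW'⟩ := h1 s X Y Z a e b hs hc ha he hb h.1 (h7.trans h.2)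
      exact ⟨W, Or.inl hW, hW'.trans h6⟩
    · obtain ⟨W, hW, hW'⟩ := h1 s Y X Z e a b hs
        (fun b' => by rw [cgp_symm (c.h.pm b')]; exact hc b') he ha (hb.symm c.h.conn) h.1
        (h7.trans h.2)
      exact ⟨W, Or.inr (ls_symm c hW), hW'.trans h6⟩

theorem ls_ctr (c : Cx G D) (hr : 2 * c.κ + 1 ≤ r) : ∃ h : ℝ, ∀ X Y Z, ∃ C W1 W2 W3,
    W1 ∈ c.Ls X Y ∧ W2 ∈ c.Ls X Z ∧ W3 ∈ c.Ls Z Y ∧ gd (totG G D r) C W1 ≤ h ∧
      gd (totG G D r) C W2 ≤ h ∧ gd (totG G D r) C W3 ≤ h := by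
  obtain ⟨cB, hcB⟩ := centre_ex c.δ 1
  obtain ⟨n1, hn⟩ := ls_near c hr cB
  refine ⟨n1, fun X Y Z => ?_⟩
  obtain ⟨m, hm, hmc⟩ := c.ctr X.1 Y.1 Z.1
  obtain ⟨a, ha⟩ := pr_ex c hm X
  obtain ⟨e, he⟩ := pr_ex c hm Y
  obtain ⟨f, hf⟩ := pr_ex c hm Z
  obtain ⟨b, b1, b2, b3⟩ := hcB (gd G) c.pmB c.h.hypB (gd_rg c.h.conn) a e f
  obtain ⟨W1, m1, d1⟩ := hn m X Y a e b hm (fun b' => (hmc b').1) ha he b1
  obtain ⟨W2, m2, d2⟩ := hn m X Z a f b hm (fun b' => (hmc b').2.2) ha hf b3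
  obtain ⟨W3, m3, d3⟩ := hn m Z Y f e b hm
    (fun b' => by rw [cgp_symm (c.h.pm b')]; exact (hmc b').2.1) hf he
    (by rw [cgp_symm c.pmB]; exact b2)
  exact ⟨(m b, b), W1, W2, W3, m1, m2, m3, d1, d2, d3⟩

theorem adj_cases (c : Cx G D) (hr : 2 * c.κ + 1 ≤ r) {X Y : P × B}
    (h : gd (totG G D r) X Y ≤ 1) : D X.2 X.1 Y.1 ≤ r ∧ D Y.2 X.1 Y.1 ≤ r := by
  have hκ := c.h.κ0
  have hc := tot_conn c.h hr
  have h1 : (totG G D r).dist X Y ≤ 1 := by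
    unfold gd at h; exact_mod_cast h
  rcases Nat.le_one_iff_eq_zero_or_eq_one.1 h1 with h2 | h2
  · have : X = Y := hc.dist_eq_zero_iff.1 h2
    subst this
    rw [(c.h.pm X.2).self]
    constructor <;> linarith
  · have h3 : (totG G D r).Adj X Y := gd_adj.1 (by unfold gd; rw [h2]; norm_num)
    rcases h3.2 with h4 | h4
    · exact ⟨h4.2.1, h4.1 ▸ h4.2.1⟩
    · rw [h4.1, (c.h.pm X.2).self, (c.h.pm Y.2).self]
      constructor <;> linarith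

theorem pr_eq (c : Cx G D) {s : B → P} {X : P × B} {a : B} (ha : c.Pr s X a)
    (h : D X.2 (s X.2) X.1 ≤ c.R) : X.2 = a := by
  have h1 := ha.2 X.2 (co_of_le c h)
  rw [c.pmB.self] at h1
  exact gd_eq_zero c.h.conn h1

theorem ls_adj (c : Cx G D) (hr : 2 * c.κ + 1 ≤ r) (hR : r + 2 * c.c0 ≤ c.R) : ∃ h : ℝ,
    ∀ X Y W, gd (totG G D r) X Y ≤ 1 → W ∈ c.Ls X Y → gd (totG G D r) X W ≤ h := by
  refine ⟨r + 2 * c.c0 + 1 + (c.k0 + 2), fun X Y W hXY hW => ?_⟩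
  obtain ⟨w, b⟩ := W
  obtain ⟨s, a, e, hs, hc, ha, he, hb, hw⟩ := hW
  dsimp only at hb hw
  subst hw
  obtain ⟨h1, h2⟩ := adj_cases c hr hXY
  have h3 := (tot_le c.h hr X Y).trans hXY
  have hx : D X.2 X.1 (s X.2) ≤ r + 2 * c.c0 := by
    have t1 := hc X.2
    have t2 := pm_nonneg (c.h.pm X.2) Y.1 (s X.2)
    unfold gp at t1; linarith
  have hy : D Y.2 Y.1 (s Y.2) ≤ r + 2 * c.c0 := by
    have t1 := hc Y.2
    have t2 := pm_nonneg (c.h.pm Y.2) X.1 (s Y.2)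
    unfold gp at t1; linarith
  have e1 : X.2 = a := pr_eq c ha (by rw [(c.h.pm X.2).symm]; linarith)
  have e2 : Y.2 = e := pr_eq c he (by rw [(c.h.pm Y.2).symm]; linarith)
  subst e1 e2
  have h4 : gd G X.2 b ≤ 1 := by
    have t1 := pm_nonneg c.pmB b Y.2
    unfold Bt at hb; linarith
  have h5 := (gd_pm (tot_conn c.h hr)).tri X (s X.2, X.2) (s b, b)
  have h6 : gd (totG G D r) X (s X.2, X.2) ≤ D X.2 X.1 (s X.2) + 1 :=
    tot_fib c.h hr X.2 X.1 (s X.2)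
  have h7 := tot_sec c.h hr c.k00 hs X.2 b
  have h8 : (c.k0 + 2) * gd G X.2 b ≤ (c.k0 + 2) * 1 :=
    mul_le_mul_of_nonneg_left h4 (by linarith [c.k00])
  linarith

end Pool.Agent.E5f.Cb
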