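import Pool.Agent.E5f.HypDefs

/-! Graph metrics, slim triangles and the guessing geodesics lemma. -/

set_option autoImplicit false

namespace Pool.Agent.E5f

theorem gd_pm {V : Type} {G : SimpleGraph V} (hG : G.Connected) : PM (gd G) :=
  ⟨fun x => by simp [gd], fun x y => by rw [gd, gd, SimpleGraph.dist_comm],
    fun x y z => by unfold gd; exact_mod_cast hG.dist_triangle⟩

theorem gd_adj {V : Type} {G : SimpleGraph V} {x y : V} : gd G x y = 1 ↔ G.Adj x y := by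
  rw [gd, Nat.cast_eq_one, SimpleGraph.dist_eq_one_iff_adj]

theorem gseg_ex {V : Type} {G : SimpleGraph V} (hG : G.Connected) (x y : V) :
    ∃ γ : ℕ → V, γ 0 = x ∧ γ (G.dist x y) = y ∧ GSeg G γ (G.dist x y) ∧
      ∀ i, i < G.dist x y → G.Adj (γ i) (γ (i + 1)) := by
  obtain ⟨p, hp⟩ := hG.exists_walk_length_eq_dist x y
  have pm := gd_pm hG
  have h1 : ∀ i, i < G.dist x y → G.Adj (p.getVert i) (p.getVert (i + 1)) := fun i hi =>
    p.adj_getVert_succ (hp ▸ hi)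
  have h2 : ∀ i k : ℕ, i + k ≤ G.dist x y → gd G (p.getVert i) (p.getVert (i + k)) ≤ k := by
    intro i k
    induction k with
    | zero => exact fun _ => by simp [gd]
    | succ k ih =>
      intro h
      have := pm.tri (p.getVert i) (p.getVert (i + k)) (p.getVert (i + k + 1))
      rw [gd_adj.2 (h1 (i + k) h)] at this
      have := ih (by omega)
      push_cast
      rw [← add_assoc]
      linarith
  have h3 : ∀ i j : ℕ, i ≤ j → j ≤ G.dist x y → gd G (p.getVert i) (p.getVert j) = j - i := by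
    intro i j hij hj
    obtain ⟨k, rfl⟩ := Nat.exists_eq_add_of_le hij
    obtain ⟨l, hl⟩ := Nat.exists_eq_add_of_le hj
    have e1 := h2 i k hj
    have e2 := h2 0 i (by omega)
    have e3 := h2 (i + k) l hl.ge
    rw [← hl, ← hp, p.getVert_length] at e3
    rw [zero_add, p.getVert_zero] at e2
    have e4 := pm.tri x (p.getVert i) y
    have e5 := pm.tri (p.getVert i) (p.getVert (i + k)) y
    have e6 : gd G x y = i + k + l := by
      rw [gd, hl]
      push_cast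
      rfl
    push_cast
    linarith
  refine ⟨p.getVert, p.getVert_zero, hp ▸ p.getVert_length, fun i j hi hj => ?_, h1⟩
  rcases le_total i j with h | h
  · rw [h3 i j h hj, abs_sub_comm, abs_of_nonneg (sub_nonneg.2 (Nat.cast_le.2 h))]
  · rw [pm.symm, h3 j i h hi, abs_of_nonneg (sub_nonneg.2 (Nat.cast_le.2 h))]

theorem btw_HypGuess {V : Type} {G : SimpleGraph V} {γ : ℕ → V} {x y : V} (h0 : γ 0 = x)
    (h1 : γ (G.dist x y) = y) (h : GSeg G γ (G.dist x y)) {k : ℕ} (hk : k ≤ G.dist x y) :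
    gd G x (γ k) = k ∧ gd G x (γ k) + gd G (γ k) y = gd G x y := by
  have e1 := h 0 k (Nat.zero_le _) hk
  have e2 := h k _ hk le_rfl
  rw [h0, Nat.cast_zero, zero_sub, abs_neg, Nat.abs_cast] at e1
  rw [h1, abs_sub_comm, abs_of_nonneg (sub_nonneg.2 (Nat.cast_le.2 hk))] at e2
  exact ⟨e1, by rw [e1, e2, gd, add_sub_cancel]⟩

theorem pt_HypGuess {V : Type} {G : SimpleGraph V} (hG : G.Connected) (x y : V) {s : ℝ}
    (h0 : 0 ≤ s) (h1 : s ≤ gd G x y) :
    ∃ p, gd G x p + gd G p y = gd G x y ∧ s - 1 ≤ gd G x p ∧ gd G x p ≤ s := by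
  obtain ⟨γ, e0, e1, e2, -⟩ := gseg_ex hG x y
  obtain ⟨e3, e4⟩ := btw_HypGuess e0 e1 e2 (Nat.floor_le_of_le h1)
  exact ⟨_, e4, e3 ▸ (Nat.sub_one_lt_floor s).le, e3 ▸ Nat.floor_le h0⟩

theorem gd_rg {V : Type} {G : SimpleGraph V} (hG : G.Connected) : RG (gd G) 1 := by
  intro x y s h0 h1
  obtain ⟨p, e1, e2, e3⟩ := pt_HypGuess hG x y h0 h1
  exact ⟨p, abs_le.2 ⟨by linarith, by linarith⟩, abs_le.2 ⟨by linarith, by linarith⟩⟩

theorem near_HypGuess {V : Type} {G : SimpleGraph V} (hG : G.Connected) {h : ℝ}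
    (hs : ∀ x y z p, gd G x p + gd G p y = gd G x y →
      ∃ q, (gd G x q + gd G q z = gd G x z ∨ gd G y q + gd G q z = gd G y z) ∧ gd G p q ≤ h)
    (w x z : V) : ∃ p, gd G x p + gd G p z = gd G x z ∧ gd G w p ≤ gp (gd G) w x z + 2 * h + 1 := by
  have pm := gd_pm hG
  have := pm.symm z w
  have := pm.symm x w
  have := pm.symm x z
  obtain ⟨p, e1, e2, e3⟩ := pt_HypGuess hG x z (s := (gd G x z + gd G x w - gd G z w) / 2)
    (by linarith [pm.tri z x w]) (by linarith [pm.tri x z w])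
  obtain ⟨q, e4, e5⟩ := hs x z w p e1
  refine ⟨p, e1, ?_⟩
  have := pm.tri w q p
  have := pm.symm p q
  have := pm.symm w q
  have := pm.symm p z
  unfold gp
  rcases e4 with e4 | e4
  · linarith [pm.tri x q p]
  · linarith [pm.tri z q p]

/-- Slim triangles give hyperbolicity. -/
theorem hyp_of_slim {V : Type} {G : SimpleGraph V} (hG : G.Connected) (h : ℝ)
    (hs : ∀ x y z p, gd G x p + gd G p y = gd G x y →
      ∃ q, (gd G x q + gd G q z = gd G x z ∨ gd G y q + gd G q z = gd G y z) ∧ gd G p q ≤ h) :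
    Hyp (gd G) (3 * h + 3) := by
  intro w x y z
  have pm := gd_pm hG
  obtain ⟨p, e1, e2⟩ := near_HypGuess hG hs w x z
  obtain ⟨q, e3, e4⟩ := hs x z y p e1
  have := pm.tri w p q
  have := pm.symm w q
  have := pm.tri y q w
  have := pm.symm y q
  rcases e3 with e3 | e3
  · refine (sub_le_sub_right (min_le_left _ _) _).trans ?_
    unfold gp at *
    linarith [pm.tri x q w]
  · refine (sub_le_sub_right (min_le_right _ _) _).trans ?_
    unfold gp at *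
    linarith [pm.tri z q w, pm.symm y z]

theorem num_HypGuess (h : ℝ) : ∃ k : ℕ, ∀ m : ℕ, 2 * h * (k + m + 6) < 2 ^ (k + m) := by
  obtain ⟨a, ha⟩ := exists_nat_ge (8 * |h| + 1)
  have h0 := abs_nonneg h
  refine ⟨2 * a, fun m => lt_of_le_of_lt (b := 2 * |h| * ((2 * a : ℕ) + m + 6))
    (by gcongr; exact le_abs_self h) ?_⟩
  induction m with
  | zero =>
    have : ((2 * a ^ 2 + 1 : ℕ) : ℝ) ≤ (2 ^ (2 * a) : ℕ) :=
      Nat.cast_le.2 (Nat.two_mul_sq_add_one_le_two_pow_two_mul a)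
    rw [add_zero (2 * a)]
    push_cast at this ⊢
    nlinarith
  | succ m ih =>
    rw [← add_assoc, pow_succ]
    push_cast at ih ⊢
    nlinarith [mul_nonneg h0 (Nat.cast_nonneg (α := ℝ) a), mul_nonneg h0 (Nat.cast_nonneg (α := ℝ) m)]

/-- Points of the guessed lines stay near a given geodesic. -/
def Fol_HypGuess {V : Type} (G : SimpleGraph V) (Ls : V → V → Set V) (α : ℕ → V) (n : ℕ) (t : ℝ) :
    Prop :=
  ∀ i j W, i ≤ j → j ≤ n → W ∈ Ls (α i) (α j) → ∃ v, i ≤ v ∧ v ≤ j ∧ gd G W (α v) ≤ t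

section
variable {V : Type} {G : SimpleGraph V} {Ls : V → V → Set V} {h : ℝ} {α : ℕ → V} {n : ℕ}
  (hG : G.Connected) (h0 : 0 ≤ h)
  (h1 : ∀ X Y Z W, W ∈ Ls X Y → ∃ W', (W' ∈ Ls X Z ∨ W' ∈ Ls Z Y) ∧ gd G W W' ≤ h)
  (h3 : ∀ X Y W, gd G X Y ≤ 1 → W ∈ Ls X Y → gd G X W ≤ h) (hα : GSeg G α n)

include hG h1 h3 hα

theorem bis_HypGuess (k : ℕ) : ∀ i j W, i ≤ j → j ≤ n → j ≤ i + 2 ^ k → W ∈ Ls (α i) (α j) →
    ∃ v, i ≤ v ∧ v ≤ j ∧ gd G W (α v) ≤ h * (k + 1) := by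
  have pm := gd_pm hG
  induction k with
  | zero =>
    intro i j W e1 e2 e3 e4
    refine ⟨i, le_rfl, e1, ?_⟩
    rw [pm.symm, Nat.cast_zero, zero_add, mul_one]
    refine h3 _ _ _ ?_ e4
    rw [hα i j (e1.trans e2) e2, abs_sub_comm, abs_of_nonneg (sub_nonneg.2 (Nat.cast_le.2 e1)),
      sub_le_iff_le_add']
    exact_mod_cast e3
  | succ k ih =>
    intro i j W e1 e2 e3 e4
    rw [pow_succ] at e3
    obtain ⟨W', e5, e6⟩ := h1 _ _ (α ((i + j) / 2)) W e4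
    obtain ⟨v, e7, e8, e9⟩ : ∃ v, i ≤ v ∧ v ≤ j ∧ gd G W' (α v) ≤ h * (k + 1) := by
      rcases e5 with e5 | e5
      · obtain ⟨v, a, b, c⟩ := ih _ _ _ (by omega) (by omega) (by omega) e5
        exact ⟨v, a, by omega, c⟩
      · obtain ⟨v, a, b, c⟩ := ih _ _ _ (by omega) (by omega) (by omega) e5
        exact ⟨v, by omega, b, c⟩
    refine ⟨v, e7, e8, ?_⟩
    push_cast
    linarith [pm.tri W W' (α v)]

include h0

theorem imp_HypGuess {t : ℝ} {k : ℕ} (ht : 2 * t + 2 * h < 2 ^ k) (hF : Fol_HypGuess G Ls α n t) :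
    Fol_HypGuess G Ls α n (h * (k + 4)) := by
  have pm := gd_pm hG
  intro i j W e1 e2 e3
  have bis := bis_HypGuess hG h1 h3 hα (k + 1)
  rw [pow_succ] at bis
  rw [← Nat.cast_ofNat (n := 2), ← Nat.cast_pow, Nat.cast_ofNat] at ht
  generalize 2 ^ k = r at bis ht
  obtain ⟨v, e4, e5, e6⟩ := hF i j W e1 e2 e3
  have hk := mul_nonneg h0 (Nat.cast_nonneg (α := ℝ) k)
  have far : ∀ u W', u ≤ n → gd G W W' ≤ 2 * h → gd G W' (α u) ≤ t →
      u + r ≤ v ∨ v + r ≤ u → False := fun u W' a b c d => by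
    have f1 := hα v u (e5.trans e2) a
    have f2 : (r : ℝ) ≤ |(v : ℝ) - u| := le_abs.2 (d.imp
      (fun d => le_sub_iff_add_le'.2 (by exact_mod_cast d))
      fun d => by rw [neg_sub]; exact le_sub_iff_add_le'.2 (by exact_mod_cast d))
    linarith [pm.tri (α v) W (α u), pm.tri W W' (α u), pm.symm W (α v)]
  have same : ∀ u W', gd G W W' ≤ 2 * h → W' ∈ Ls (α u) (α u) → gd G W (α u) ≤ h * (k + 4) :=
    fun u W' a b => by
      linarith [h3 _ _ _ ((pm.self _).trans_le zero_le_one) b, pm.tri W W' (α u), pm.symm W' (α u)]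
  obtain ⟨W', e7 | e7, e8⟩ := h1 _ _ (α (max i (v - r))) W e3
  · rcases le_total (v - r) i with a | a
    · rw [max_eq_left a] at e7
      exact ⟨i, le_rfl, e1, same i W' (by linarith) e7⟩
    · rcases a.eq_or_lt with a | a
      · rw [← a, max_self] at e7
        exact ⟨i, le_rfl, e1, same i W' (by linarith) e7⟩
      obtain ⟨u, b, c, d⟩ := hF _ _ _ (le_max_left _ _) (by omega) e7
      exact (far u W' (by omega) (by linarith) d (.inl (by omega))).elim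
  obtain ⟨W'', e9, e10⟩ := h1 _ _ (α (min j (v + r))) W' e7
  have e11 : gd G W W'' ≤ 2 * h := by linarith [pm.tri W W' W'']
  rcases e9 with e9 | e9
  · obtain ⟨u, b, c, d⟩ := bis _ _ _ (by omega) (by omega) (by omega) e9
    refine ⟨u, by omega, by omega, ?_⟩
    push_cast at d
    linarith [pm.tri W W'' (α u)]
  · rcases le_total j (v + r) with a | a
    · rw [min_eq_left a] at e9
      exact ⟨j, e1, le_rfl, same j W'' e11 e9⟩
    obtain ⟨u, b, c, d⟩ := hF _ _ _ (min_le_left _ _) e2 e9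
    exact (far u W'' (by omega) e11 d (.inr (by omega))).elim

theorem fol_HypGuess {k : ℕ} (hk : ∀ m : ℕ, 2 * h * (k + m + 6) < 2 ^ (k + m)) :
    Fol_HypGuess G Ls α n (h * (k + 4)) := by
  have key : ∀ m : ℕ, Fol_HypGuess G Ls α n (h * ((k + m : ℕ) + 4)) →
      Fol_HypGuess G Ls α n (h * (k + 4)) := fun m => by
    induction m with
    | zero => exact id
    | succ m ih =>
      refine fun hF => ih (imp_HypGuess hG h0 h1 h3 hα ?_ hF)
      push_cast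
      linarith [hk m]
  refine key n fun i j W e1 e2 e3 => ?_
  obtain ⟨v, a, b, c⟩ := bis_HypGuess hG h1 h3 hα (k + n) i j W e1 e2
    (by have := (k + n).lt_two_pow_self; omega) e3
  exact ⟨v, a, b, by linarith⟩

end

theorem guess (h : ℝ) : ∃ δ R : ℝ, ∀ {V : Type} (G : SimpleGraph V) (Ls : V → V → Set V),
    G.Connected →
    (∀ X Y Z W, W ∈ Ls X Y → ∃ W', (W' ∈ Ls X Z ∨ W' ∈ Ls Z Y) ∧ gd G W W' ≤ h) →
    (∀ X Y Z, ∃ C W1 W2 W3, W1 ∈ Ls X Y ∧ W2 ∈ Ls X Z ∧ W3 ∈ Ls Z Y ∧ gd G C W1 ≤ h ∧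
      gd G C W2 ≤ h ∧ gd G C W3 ≤ h) →
    (∀ X Y W, gd G X Y ≤ 1 → W ∈ Ls X Y → gd G X W ≤ h) →
    Hyp (gd G) δ ∧ (∀ X Y W, W ∈ Ls X Y → gp (gd G) W X Y ≤ R) ∧
      (∀ X Y W (c : ℝ), gp (gd G) W X Y ≤ c → ∃ W' ∈ Ls X Y, gd G W W' ≤ c + R) := by
  obtain ⟨k, hk⟩ := num_HypGuess h
  obtain ⟨T, hT⟩ : ∃ T, T = h * (k + 4) := ⟨_, rfl⟩
  refine ⟨3 * (4 * T + 5 * h) + 3, 11 * T + 14 * h + 1, fun {V} G Ls hG h1 h2 h3 => ?_⟩
  have pm := gd_pm hG
  have h0 : 0 ≤ h := by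
    obtain ⟨X⟩ := hG.nonempty
    obtain ⟨C, W, -, -, -, -, -, e, -⟩ := h2 X X X
    exact (Nat.cast_nonneg _).trans e
  have hT0 : 0 ≤ T := hT ▸ by positivity
  have hA : ∀ X Y W, W ∈ Ls X Y → ∃ u, gd G X u + gd G u Y = gd G X Y ∧ gd G W u ≤ T := by
    intro X Y W hW
    obtain ⟨γ, e0, e1, e2, -⟩ := gseg_ex hG X Y
    obtain ⟨v, -, a, b⟩ := fol_HypGuess hG h0 h1 h3 e2 hk 0 _ W (Nat.zero_le _) le_rfl
      (by rwa [e0, e1])
    exact ⟨_, (btw_HypGuess e0 e1 e2 a).2, hT ▸ b⟩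
  have hB : ∀ X Y p, gd G X p + gd G p Y = gd G X Y → ∃ W ∈ Ls X Y, gd G p W ≤ 3 * T + 4 * h := by
    intro X Y p hp
    obtain ⟨C, W1, W2, W3, a1, a2, a3, b1, b2, b3⟩ := h2 X Y p
    obtain ⟨u, c1, c2⟩ := hA _ _ _ a2
    obtain ⟨u', c3, c4⟩ := hA _ _ _ a3
    have c5 : gd G u C ≤ T + h := by linarith [pm.tri u W2 C, pm.symm u W2, pm.symm W2 C]
    have c6 : (0 : ℝ) ≤ gd G p u' := Nat.cast_nonneg _
    refine ⟨W1, a1, ?_⟩
    linarith [pm.tri X u Y, pm.tri u C Y, pm.tri C W3 Y, pm.tri W3 u' Y,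
      pm.tri p u W1, pm.tri u C W1, pm.symm p u]
  have hs : ∀ x y z p, gd G x p + gd G p y = gd G x y → ∃ q, (gd G x q + gd G q z = gd G x z ∨
      gd G y q + gd G q z = gd G y z) ∧ gd G p q ≤ 4 * T + 5 * h := by
    intro x y z p hp
    obtain ⟨W, a1, a2⟩ := hB x y p hp
    obtain ⟨W', a3 | a3, a4⟩ := h1 _ _ z W a1 <;> obtain ⟨q, a5, a6⟩ := hA _ _ _ a3
    · exact ⟨q, .inl a5, by linarith [pm.tri p W q, pm.tri W W' q]⟩
    · exact ⟨q, .inr (by linarith [pm.symm y q, pm.symm q z, pm.symm y z]),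
        by linarith [pm.tri p W q, pm.tri W W' q]⟩
  refine ⟨hyp_of_slim hG _ hs, fun X Y W hW => ?_, fun X Y W c hc => ?_⟩
  · obtain ⟨u, a1, a2⟩ := hA X Y W hW
    unfold gp
    linarith [pm.tri X u W, pm.tri Y u W, pm.symm u W, pm.symm u Y]
  · obtain ⟨p, a1, a2⟩ := near_HypGuess hG hs W X Y
    obtain ⟨W', a3, a4⟩ := hB X Y p a1
    exact ⟨W', a3, by linarith [pm.tri W p W']⟩

end Pool.Agent.E5f
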