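import Pool.Agent.E5f.HypTrans
import Pool.Agent.E5f.HypGuess
import Pool.Agent.E5f.CombSlim

/-! The combination theorem. -/

set_option autoImplicit false

namespace Pool.Agent.E5f

open Cb in
theorem comb {P B : Type} {G : SimpleGraph B} {D : B → P → P → ℝ} {δ κ K : ℝ} {n : ℕ} {M r : ℝ}
    (h : CombHyp G D δ κ K n M) (hr : 2 * κ + 1 ≤ r) : CombOut G D r := by
  obtain ⟨c, hκ, hR⟩ := cx_ex h r
  have hr' : 2 * c.κ + 1 ≤ r := by rw [hκ]; exact hr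
  obtain ⟨h1, s1⟩ := ls_slim c hr'
  obtain ⟨h2, s2⟩ := ls_ctr c hr'
  obtain ⟨h3, s3⟩ := ls_adj c hr' hR
  obtain ⟨δ', Rg, hg⟩ := guess (max h1 (max h2 h3))
  have l1 : h1 ≤ max h1 (max h2 h3) := le_max_left _ _
  have l2 : h2 ≤ max h1 (max h2 h3) := (le_max_left _ _).trans (le_max_right _ _)
  have l3 : h3 ≤ max h1 (max h2 h3) := (le_max_right _ _).trans (le_max_right _ _)
  have hc := tot_conn h hr
  have hp := gd_pm hc
  obtain ⟨g1, g2, g3⟩ := hg (totG G D r) c.Ls hc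
    (fun X Y Z W hW => by
      obtain ⟨W', a, b⟩ := s1 X Y Z W hW
      exact ⟨W', a, b.trans l1⟩)
    (fun X Y Z => by
      obtain ⟨C, W1, W2, W3, a1, a2, a3, b1, b2, b3⟩ := s2 X Y Z
      exact ⟨C, W1, W2, W3, a1, a2, a3, b1.trans l2, b2.trans l2, b3.trans l2⟩)
    (fun X Y W a b => (s3 X Y W a b).trans l3)
  refine ⟨hc, ⟨δ', g1⟩, tot_fib h hr, tot_base h r, tot_le h hr, tot_near h hr, fun C => ?_,
    fun e => ?_⟩
  · obtain ⟨c', hc'⟩ := btw_m h c.c0 (C + Rg)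
    obtain ⟨C', hC'⟩ := tot_near h hr (C + Rg)
    refine ⟨c' + C', fun W X Y hW => ?_⟩
    obtain ⟨W', ⟨s, a, e, -, hs, -, -, -, hw⟩, hd⟩ := g3 X Y W C hW
    have t1 : gd G W'.2 W.2 ≤ C + Rg := by
      rw [c.pmB.symm]; exact (tot_le h hr W W').trans hd
    have t2 := hc' W'.2 W.2 t1 (s W'.2) X.1 Y.1 (hs W'.2)
    have t3 := hC' W W' hd
    have t4 := cgp_base (h.pm W.2) (s W'.2) W.1 X.1 Y.1
    rw [hw, (h.pm W.2).symm] at t3
    linarith
  · obtain ⟨C, hC⟩ := centre_uniq δ (max e c.c0)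
    refine ⟨Rg + (C + 1), fun v X Y hv => ?_⟩
    obtain ⟨s, hs, hm⟩ := c.ctr X.1 Y.1 v
    obtain ⟨a, ha⟩ := pr_ex c hs X
    obtain ⟨a', ha'⟩ := pr_ex c hs Y
    have m1 : (s a, a) ∈ c.Ls X Y := ⟨s, a, a', hs, fun b => (hm b).1, ha, ha', by
      unfold Bt; rw [c.pmB.self, zero_add], rfl⟩
    have l4 : c.c0 ≤ max e c.c0 := le_max_right _ _
    have l5 := c.c00
    have hq := h.pm a
    have t1 : D a (s a) v ≤ C := by
      refine hC (D a) hq (h.hyp a) X.1 Y.1 v (s a) v ((hm a).1.trans l4) ((hm a).2.1.trans l4)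
        ((hm a).2.2.trans l4) ((hv a).trans (le_max_left _ _)) ?_ ?_
      · rw [cgp_symm hq, cgp_self hq]; linarith
      · rw [cgp_symm hq, cgp_self hq]; linarith
    have t2 := g2 X Y _ m1
    have t3 := cgp_base hp (s a, a) (v, a) X Y
    have t4 := tot_fib h hr a (s a) v
    exact ⟨a, by linarith⟩

end Pool.Agent.E5f
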