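import Pool.Agent.E5f.EndG2

/-! The last case: almost affine pieces give strips attached to a cusp. -/

set_option autoImplicit false

namespace Pool.Agent.E5f

/-- Three-point convexity on `[0, l]`. -/
def Cv_EndCusp (g : ℝ → ℝ) (l : ℝ) : Prop :=
  ∀ a b c, 0 ≤ a → a ≤ b → b ≤ c → c ≤ l → (c - a) * g b ≤ (c - b) * g a + (b - a) * g c

theorem sec_mono_EndCusp {g : ℝ → ℝ} {l a b c d : ℝ} (h : Cv_EndCusp g l) (h0 : 0 ≤ a)
    (h1 : a < b) (h2 : b ≤ c) (h3 : c < d) (h4 : d ≤ l) :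
    (g b - g a) / (b - a) ≤ (g d - g c) / (d - c) := by
  have k1 := h a b d h0 h1.le (h2.trans h3.le) h4
  have k2 := h a c d h0 (h1.le.trans h2) h3.le h4
  have p : 0 < d - a := by linarith
  have l1 : (g b - g a) / (b - a) ≤ (g d - g a) / (d - a) := by
    rw [div_le_div_iff₀ (by linarith) p]
    nlinarith
  have l2 : (g d - g a) / (d - a) ≤ (g d - g c) / (d - c) := by
    rw [div_le_div_iff₀ p (by linarith)]
    nlinarith
  exact l1.trans l2

theorem scale_EndCusp {g : ℝ → ℝ} {l s0 s1 η L : ℝ} (h : Cv_EndCusp g l) (hη : 0 < η)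
    (hL : 0 ≤ L) (U : ℕ → ℝ) (hU : ∀ n, 0 < U n)
    (hU1 : ∀ n, (3 + L) * U n ≤ U (n + 1)) (n1 : ℕ) (hn : s1 < (1 + η) ^ n1 * s0)
    (hl : ∀ n, n ≤ n1 → 2 * U n ≤ l) (hlo : s0 ≤ (g (2 * U 0) - g (U 0)) / U 0)
    (hhi : (g (2 * U n1) - g (U n1)) / U n1 ≤ s1) :
    ∃ n, n < n1 ∧ g ((3 + L) * U n) - g ((2 + L) * U n) ≤
      (1 + η) * ((g (2 * U n) - g (U n)) / U n) * U n := by
  by_contra hc
  push Not at hc
  have key : ∀ n, n ≤ n1 → (1 + η) ^ n * s0 ≤ (g (2 * U n) - g (U n)) / U n := by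
    intro n
    induction n with
    | zero => intro _; simpa using hlo
    | succ n ih =>
      intro hn'
      have a := ih (by omega)
      have b := hc n (by omega)
      have u := hU n
      have u' := hU (n + 1)
      have c := sec_mono_EndCusp h (a := (2 + L) * U n) (b := (3 + L) * U n) (c := U (n + 1))
        (d := 2 * U (n + 1)) (by positivity) (by nlinarith) (hU1 n) (by linarith) (hl _ hn')
      rw [show (3 + L) * U n - (2 + L) * U n = U n by ring,
        show 2 * U (n + 1) - U (n + 1) = U (n + 1) by ring] at c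
      have d : (1 + η) * ((g (2 * U n) - g (U n)) / U n) ≤
          (g ((3 + L) * U n) - g ((2 + L) * U n)) / U n := by
        rw [le_div_iff₀ u]
        exact b.le
      calc (1 + η) ^ (n + 1) * s0 = (1 + η) * ((1 + η) ^ n * s0) := by ring
        _ ≤ (1 + η) * ((g (2 * U n) - g (U n)) / U n) :=
          mul_le_mul_of_nonneg_left a (by linarith)
        _ ≤ _ := d.trans c
  linarith [key n1 le_rfl]

variable {Q : Type} [MulAction G8 Q] {S : Base Q}

theorem cusp_of_slope {Z : Seq S} {F : Q → ℝ} (hF : Fn Z F) {B : ℝ} (h : Z.Down B)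
    (hs : Z.Slope F) : Z.Cusp := by
  obtain ⟨K1, s0, x, r, hs0, hxr, hsl, hk⟩ := hs
  have pv := S.bi.pv
  have hv := S.bi.hv
  obtain ⟨C, hC0, hC⟩ := Z.mor_conv 2
  have hB : 1 ≤ B := by
    have := h.bdd 0 le_rfl
    rwa [Z.a_zero, pv.self, add_zero, mul_one] at this
  set M := S.dv (Z.q 0) r with hM
  have M0 : 0 ≤ M := pv.nonneg_E _ _
  obtain ⟨R, hR⟩ := hF.b5u (3 + (B + C) ^ 2)
  refine ⟨R, fun N hN => ?_⟩
  obtain ⟨L, η, hL, hη, hb⟩ := hR N
  have L0 : 0 ≤ L := by linarith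
  obtain ⟨w, w0, hw⟩ := S.lam_big (3 + L)
  obtain ⟨e0, -, he⟩ := S.lam_big (M + F r / s0 + 1)
  obtain ⟨n1, hn1⟩ := pow_unbounded_of_one_lt (4 * K1 / s0) (show 1 < 1 + η by linarith)
  rw [div_lt_iff₀ hs0] at hn1
  let U : ℕ → ℝ := fun n => S.lam ^ (e0 + n * w)
  have Upos : ∀ n, 0 < U n := fun n => S.lam_pos _
  have Usucc : ∀ n, (3 + L) * U n ≤ U (n + 1) := by
    intro n
    have : U (n + 1) = S.lam ^ w * U n := by
      simp only [U]
      rw [← S.lam_add]
      congr 1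
      push_cast
      ring
    rw [this]
    exact mul_le_mul_of_nonneg_right hw (Upos n).le
  have Umono : ∀ n m, n ≤ m → U n ≤ U m := fun n m hnm =>
    S.lam_mono (by nlinarith [Int.ofNat_le.2 hnm])
  have f0 : 0 ≤ F r / s0 := div_nonneg (hF.nonneg r) hs0.le
  have Ulo : ∀ n, M + F r / s0 + 1 ≤ U n := fun n =>
    (he.trans (by simp [U])).trans (Umono 0 n (Nat.zero_le n))
  have pE : 0 < 2 * M + 8 * U n1 := by linarith [Upos n1]
  obtain ⟨k0, hk0⟩ := h.small _ (inv_pos.2 pE)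
  obtain ⟨k, q', hkk, cp, hK, on1, on2⟩ := hk (max k0 0)
  have k0' : 0 ≤ k := (le_max_right _ _).trans hkk
  have ak := Z.a_pos k
  have big : 2 * M + 8 * U n1 ≤ (Z.a k)⁻¹ :=
    (le_inv_comm₀ pE ak).2 (hk0 k ((le_max_left _ _).trans hkk))
  set l' := S.dv (Z.q 0) q' with hl'
  have hl1 : (Z.a k)⁻¹ ≤ l' := by
    have := cp.on
    rw [On, cp.v1] at this
    linarith [pv.nonneg_E (Z.q 0) (Z.q k)]
  have K0 : 0 ≤ K1 := (mul_nonneg ak.le (hF.nonneg _)).trans hK
  have Fq : F q' ≤ K1 * l' := by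
    have : F q' ≤ K1 * (Z.a k)⁻¹ := by rw [← div_eq_mul_inv, le_div_iff₀ ak, mul_comm]; exact hK
    exact this.trans (mul_le_mul_of_nonneg_left hl1 K0)
  have ex : ∀ t : ℝ, ∃ y, 0 ≤ t → t ≤ l' - M →
      Btw S.dv S.dh (Z.q 0) y q' ∧ S.dv (Z.q 0) y = M + t := by
    intro t
    by_cases ht : 0 ≤ t ∧ t ≤ l' - M
    · obtain ⟨y, hy⟩ := S.bi.geoV (Z.q 0) q' (s := M + t) (by linarith) (by linarith)
      exact ⟨y, fun _ _ => hy⟩
    · exact ⟨q', fun a b => absurd ⟨a, b⟩ ht⟩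
  choose y hy using ex
  have yd : ∀ a b, 0 ≤ a → a ≤ b → b ≤ l' - M → S.dv (y a) (y b) = b - a := by
    intro a b h1 h2 h3
    have ya := hy a h1 (h2.trans h3)
    have yb := hy b (h1.trans h2) h3
    rw [On.dist_eq pv hv ya.1.1 yb.1.1, ya.2, yb.2, abs_of_nonpos (by linarith)]
    ring
  have cv : Cv_EndCusp (fun t => F (y t)) (l' - M) := by
    intro a b c h1 h2 h3 h4
    have e1 := yd a b h1 h2 (h3.trans h4)
    have e2 := yd b c (h1.trans h2) h3 h4
    have e3 := yd a c h1 (h2.trans h3) h4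
    have := hF.cvx (y a) (y b) (y c) (by rw [On, e1, e2, e3]; ring)
    rwa [e1, e2, e3] at this
  have l0 : 8 * U n1 + M ≤ l' - M := by linarith
  have U0 := Upos 0
  have U01 := Umono 0 n1 (Nat.zero_le _)
  have g0 : F (y 0) = F r := by
    have y0 := hy 0 le_rfl (by linarith [Upos n1])
    refine hF.zero _ _ ?_
    rw [On.dist_eq pv hv y0.1.1 on1, y0.2, add_zero, sub_self, abs_zero]
  have gl : F (y (l' - M)) = F q' := by
    have y0 := hy (l' - M) (by linarith [Upos n1]) le_rfl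
    refine hF.zero _ _ ?_
    have := y0.1.1
    rw [y0.2] at this
    linarith
  have first : s0 ≤ (F (y (U 0)) - F (y 0)) / (U 0 - 0) := by
    have y1 := hy (U 0) U0.le (by linarith)
    have o1 := On.order pv hv on1 y1.1.1 (by rw [y1.2]; linarith)
    have o2 := (On.trans_right pv on2 o1.2).2
    have e : S.dv r (y (U 0)) = U 0 := by
      have := o1.1
      rw [On, y1.2] at this
      linarith
    have c := hF.cvx _ _ _ o2
    rw [← o2, e] at c
    rw [g0, sub_zero, le_div_iff₀ U0]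
    refine le_of_mul_le_mul_left ?_ hxr
    linarith [mul_le_mul_of_nonneg_left hsl U0.le]
  have lo : ∀ n, n ≤ n1 → s0 ≤ (F (y (2 * U n)) - F (y (U n))) / U n ∧
      F (y (U n)) - F r ≤ F (y (2 * U n)) - F (y (U n)) := by
    intro n hn
    have u := Upos n
    have u1 := Umono n n1 hn
    have a := sec_mono_EndCusp cv le_rfl U0 (Umono 0 n (Nat.zero_le _)) (d := 2 * U n)
      (by linarith) (by linarith)
    have b := sec_mono_EndCusp cv le_rfl u le_rfl (d := 2 * U n) (by linarith) (by linarith)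
    simp only [show 2 * U n - U n = U n by ring] at a b
    rw [sub_zero, div_le_div_iff_of_pos_right u, g0] at b
    exact ⟨first.trans a, b⟩
  have hi : (F (y (2 * U n1)) - F (y (U n1))) / U n1 ≤ 4 * K1 := by
    have u := Upos n1
    have a := sec_mono_EndCusp cv u.le (b := 2 * U n1) (c := 2 * U n1) (d := l' - M) (by linarith)
      le_rfl (by linarith) le_rfl
    simp only [show 2 * U n1 - U n1 = U n1 by ring] at a
    refine a.trans ?_
    rw [gl, div_le_iff₀ (by linarith)]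
    linarith [hF.nonneg (y (2 * U n1)), mul_nonneg K0 (show 0 ≤ 4 * (l' - M - 2 * U n1) - l' by
      linarith)]
  obtain ⟨n, hn, hgood⟩ := scale_EndCusp cv hη L0 U Upos Usucc n1 hn1
    (fun n hn => by linarith [Umono n n1 hn, Upos n]) (lo 0 (Nat.zero_le _)).1 hi
  have u := Upos n
  have u3 : (3 + L) * U n ≤ U n1 := (Usucc n).trans (Umono _ _ hn)
  have uL : 0 ≤ L * U n := mul_nonneg L0 u.le
  have u4 : 3 * U n + L * U n ≤ l' - M := by linarith [Upos n1]
  obtain ⟨sl, sl2⟩ := lo n hn.le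
  set s := (F (y (2 * U n)) - F (y (U n))) / U n with hsdef
  have es : s * U n = F (y (2 * U n)) - F (y (U n)) := div_mul_cancel₀ _ u.ne'
  have y0 := hy (U n) u.le (by linarith)
  have y1 := hy (2 * U n) (by linarith) (by linarith)
  have y2 := hy ((2 + L) * U n) (by linarith) (by linarith)
  have y3 := hy ((3 + L) * U n) (by linarith) (by linarith)
  obtain ⟨p2, b2, d2⟩ := S.bi.geoV (y (2 * U n)) q' (s := L * U n) uL (by
    have := y1.1.1
    rw [y1.2] at this
    linarith)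
  have b3 := Btw.trans_right S.bi y1.1 b2
  have pos2 : S.dv (Z.q 0) p2 = M + (2 + L) * U n := by
    have := b3.2.1
    rw [y1.2, d2] at this
    linarith
  have z2 : S.dv p2 (y ((2 + L) * U n)) = 0 := by
    rw [On.dist_eq pv hv b3.1.1 y2.1.1, pos2, y2.2, sub_self, abs_zero]
  have hdh : U n * S.dh (y (2 * U n)) p2 ≤ 3 + (B + C) ^ 2 := by
    obtain ⟨j, j0, jk, hj⟩ := hC 0 k (Z.X 0) (q', Z.τ k) (y (2 * U n)) k0'
      (by rw [S.dE_pm.self]; norm_num) cp.dE_le y1.1
    obtain ⟨a1, a2⟩ := Z.of_D hj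
    have aj := Z.a_pos j
    have a3 := h.bdd j j0
    have a4 := h.fh j k j0 jk
    have t1 := pv.tri (Z.q 0) (Z.q j) (y (2 * U n))
    rw [y1.2] at t1
    have a5 : Z.a j * U n ≤ B + C := by
      linarith [mul_le_mul_of_nonneg_left t1 aj.le, mul_nonneg aj.le M0, mul_pos aj u]
    have t2 := S.bi.ph.tri (y (2 * U n)) (Z.q j) (Z.q k)
    rw [S.bi.ph.congr'_E cp.h0 (y (2 * U n)), S.bi.ph.symm _ (Z.q j)] at t2
    have t3 : S.dh (y (2 * U n)) p2 ≤ (B + C) * Z.a j := by
      linarith [b2.2, S.bi.ph.nonneg_E p2 q']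
    linarith [mul_le_mul_of_nonneg_left t3 u.le,
      mul_le_mul_of_nonneg_left a5 (show 0 ≤ B + C by linarith)]
  have sp : 0 < s := hs0.trans_le sl
  obtain ⟨γ, hγ, P, hP⟩ := hb (e0 + n * w) (U n) (y (U n)) (y (2 * U n)) p2 (y ((3 + L) * U n)) s
    rfl (by rw [yd _ _ u.le (by linarith) (by linarith)]; ring) d2
    (by rw [pv.congr_E z2, yd _ _ (by linarith) (by linarith) (by linarith)]; ring)
    (by rw [pv.congr'_E z2, yd _ _ u.le (by linarith) (by linarith)]; ring)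
    (by rw [yd _ _ (by linarith) (by linarith) (by linarith)]; ring)
    (by rw [yd _ _ u.le (by linarith) (by linarith)]; ring) hdh sp es.le
    (by rw [hF.zero _ _ z2]; exact hgood) (by
      have a : F r ≤ s0 * U n := by
        rw [mul_comm, ← div_le_iff₀ hs0]
        linarith [Ulo n]
      have b : s0 * U n ≤ s * U n := mul_le_mul_of_nonneg_right sl u.le
      linarith [mul_nonneg (sq_nonneg (B + C)) (mul_pos sp u).le])
  refine ⟨k, q', U n, M + 2 * U n, γ, P, k0', cp, by linarith [Ulo n], by linarith,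
    by linarith [Ulo n], fun t t1 t2 => ?_⟩
  obtain ⟨c1, c2, c3⟩ := hP t t1 t2
  have o1 : On S.dv (y (2 * U n)) (P t) p2 := by
    rw [On, c2, c3, d2]
    ring
  have o2 := On.trans_right pv y1.1.1 (On.trans_left pv o1 b2.1).1
  refine ⟨c1, ?_, o2.1, ?_⟩
  · have := o2.2
    rw [On, y1.2, c2] at this
    exact this.symm
  · have := pv.tri (γ • S.P0) (y (2 * U n)) (P t)
    rw [c2] at this
    linarith

end Pool.Agent.E5f
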