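import Pool.Agent.E5f.EndG0

/-! Horoball estimates: two directions that both climb are not opposite. -/

set_option autoImplicit false

namespace Pool.Agent.E5f

variable {Q : Type} [MulAction G8 Q]

theorem Base.walk_EndThin (S : Base Q) {X W : Q × ℤ} (w : S.E.Walk X W) :
    S.dh X.1 W.1 ≤ (S.lam - 1)⁻¹ * S.lam ^ (X.2 + (w.length : ℤ)) := by
  have hl : 0 < S.lam - 1 := sub_pos.2 S.lam1
  have hc : 0 < (S.lam - 1)⁻¹ := inv_pos.2 hl
  induction w with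
  | nil =>
    rw [S.bi.ph.self]
    exact (mul_pos hc (S.lam_pos _)).le
  | @cons X Y W h w ih =>
    have ht := S.bi.ph.tri X.1 Y.1 W.1
    have hlen : ((SimpleGraph.Walk.cons h w).length : ℤ) = (w.length : ℤ) + 1 := by
      rw [SimpleGraph.Walk.length_cons]; push_cast; rfl
    rw [hlen]
    have hn : (0 : ℤ) ≤ (w.length : ℤ) := Int.natCast_nonneg _
    rcases h.2 with ⟨h1, h2, -⟩ | ⟨h1, h2⟩
    · have h3 := S.dh_le_D X.2 X.1 Y.1
      have h4 : S.lam ^ (-X.2) * S.dh X.1 Y.1 ≤ 1 := h3.trans h2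
      have h5 : S.lam ^ X.2 * S.lam ^ (-X.2) = 1 := by
        rw [← S.lam_add, add_neg_cancel, zpow_zero]
      have h6 : S.dh X.1 Y.1 ≤ S.lam ^ X.2 := by
        have := mul_le_mul_of_nonneg_left h4 (S.lam_pos X.2).le
        rwa [← mul_assoc, h5, one_mul, mul_one] at this
      have h7 : S.lam ^ X.2 ≤ S.lam ^ (X.2 + (w.length : ℤ)) := S.lam_mono (by omega)
      rw [← h1] at ih
      have h8 : S.lam ^ (X.2 + ((w.length : ℤ) + 1)) =
          S.lam ^ (X.2 + (w.length : ℤ)) * S.lam := by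
        rw [← add_assoc, S.lam_add _ 1, zpow_one]
      have h9 : (S.lam - 1)⁻¹ * S.lam = (S.lam - 1)⁻¹ + 1 := by
        field_simp
        ring
      rw [h8]
      calc S.dh X.1 W.1 ≤ S.lam ^ (X.2 + (w.length : ℤ)) +
            (S.lam - 1)⁻¹ * S.lam ^ (X.2 + (w.length : ℤ)) := by linarith
        _ = ((S.lam - 1)⁻¹ + 1) * S.lam ^ (X.2 + (w.length : ℤ)) := by ring
        _ = (S.lam - 1)⁻¹ * (S.lam ^ (X.2 + (w.length : ℤ)) * S.lam) := by rw [← h9]; ring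
    · have h3 : S.dh X.1 Y.1 = 0 := by rw [h1]; exact S.bi.ph.self _
      have h4 : Y.2 ≤ X.2 + 1 := by
        rcases h2 with h2 | h2 <;> omega
      have h7 : S.lam ^ (Y.2 + (w.length : ℤ)) ≤ S.lam ^ (X.2 + ((w.length : ℤ) + 1)) :=
        S.lam_mono (by omega)
      have := mul_le_mul_of_nonneg_left h7 hc.le
      linarith

theorem Base.horo (S : Base Q) : ∃ c : ℝ, ∀ (p q : Q) (s t T : ℤ), S.lam ^ T ≤ S.dh p q →
    2 * (T : ℝ) - s - t - c ≤ S.dE (p, s) (q, t) := by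
  obtain ⟨b, -, hb⟩ := S.lam_big (2 * (S.lam - 1)⁻¹)
  have hc : 0 < (S.lam - 1)⁻¹ := inv_pos.2 (sub_pos.2 S.lam1)
  refine ⟨2 * b + 1, fun p q s t T hT => ?_⟩
  have hconn : S.E.Connected := S.out.conn
  obtain ⟨w, hw⟩ := hconn.exists_walk_length_eq_dist (p, s) (q, t)
  have hd : S.dE (p, s) (q, t) = (w.length : ℝ) := by
    rw [hw]; rfl
  have hst : |s - t| ≤ (w.length : ℤ) := by
    have := S.le_dE p q s t
    rw [hd] at this
    exact_mod_cast this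
  have hst1 := abs_le.1 hst
  obtain ⟨i, hi⟩ : ∃ i : ℕ, (i : ℤ) = ((w.length : ℤ) + t - s) / 2 :=
    ⟨(((w.length : ℤ) + t - s) / 2).toNat, Int.toNat_of_nonneg (by omega)⟩
  have hin : i ≤ w.length := by omega
  have h1 := S.walk_EndThin (X := (p, s)) (w.take i)
  have h2 := S.walk_EndThin (X := (q, t)) (w.drop i).reverse
  rw [SimpleGraph.Walk.take_length, inf_eq_left.2 hin] at h1
  rw [SimpleGraph.Walk.length_reverse, SimpleGraph.Walk.drop_length] at h2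
  have hsub : ((w.length - i : ℕ) : ℤ) = (w.length : ℤ) - i := by omega
  rw [hsub] at h2
  have h3 : S.lam ^ (s + (i : ℤ)) ≤ S.lam ^ (t + ((w.length : ℤ) - i)) := S.lam_mono (by omega)
  have h4 := mul_le_mul_of_nonneg_left h3 hc.le
  have h5 := S.bi.ph.tri p (w.getVert i).1 q
  rw [S.bi.ph.symm (w.getVert i).1 q] at h5
  have h6 := mul_le_mul_of_nonneg_right hb (S.lam_pos (t + ((w.length : ℤ) - i))).le
  rw [← S.lam_add] at h6
  have h7 : S.lam ^ T ≤ S.lam ^ (b + (t + ((w.length : ℤ) - i))) := by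
    simp only at h1 h2
    linarith
  have h8 : T ≤ b + (t + ((w.length : ℤ) - i)) := (zpow_le_zpow_iff_right₀ S.lam1).1 h7
  have h9 : 2 * T - s - t - (2 * b + 1) ≤ (w.length : ℤ) := by omega
  rw [hd]
  exact_mod_cast h9

theorem Base.D_two_EndThin (S : Base Q) {h : ℤ} {v u : Q} (h1 : S.dv v u ≤ S.lam ^ (-h))
    (h2 : S.dh v u ≤ S.lam ^ h) : S.D h v u ≤ 2 := by
  have h5 : S.lam ^ h * S.lam ^ (-h) = 1 := by
    rw [← S.lam_add, add_neg_cancel, zpow_zero]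
  have h3 := mul_le_mul_of_nonneg_left h1 (S.lam_pos h).le
  have h4 := mul_le_mul_of_nonneg_left h2 (S.lam_pos (-h)).le
  rw [mul_comm (S.lam ^ (-h)) (S.lam ^ h)] at h4
  unfold Base.D
  linarith

theorem Base.near_EndThin (S : Base Q) {h : ℤ} {v u : Q} (h1 : S.D h v u ≤ 2) (s : ℤ) :
    S.dE (u, s) (v, h) ≤ |(s : ℝ) - h| + 3 := by
  have h2 := S.dE_pm.tri (u, s) (u, h) (v, h)
  have h3 := S.dE_fib u v h
  rw [(S.D_pm h).symm u v] at h3
  rw [S.dE_vert] at h2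
  linarith

theorem Base.up1_EndThin (S : Base Q) : ∃ c : ℝ, ∀ (v u : Q) (t T : ℤ) (X : Q × ℤ), 0 ≤ T →
    Btw S.dv S.dh v u X.1 → S.lam ^ (t + T) ≤ S.dh v u → S.dv v u ≤ S.lam ^ (-(t + T)) →
    (T : ℝ) - c ≤ gp S.dE (v, t) X (v, t + T) := by
  obtain ⟨c, hc⟩ := S.horo
  obtain ⟨C, hC⟩ := S.out.out2 0
  obtain ⟨δ, -, hδ⟩ := S.dE_hyp
  refine ⟨δ + |c| + |C| + 3, fun v u t T X hT hb h1 h2 => ?_⟩
  obtain ⟨r, hr, hr1⟩ := S.bi.geoH v u (S.lam_pos (t + T)).le h1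
  have hrb := (Btw.trans_left S.bi hr hb).1
  have hr2 : S.dv v r ≤ S.lam ^ (-(t + T)) := by
    have := hr.1
    have := S.bi.pv.nonneg_E r u
    linarith
  have hD := S.D_two_EndThin hr2 hr1.le
  obtain ⟨t1, ht1⟩ := hC r (v, t) X (fun b => by
    have e1 := hrb.1
    have e2 := hrb.2
    simp only [gp, Base.D]
    rw [S.bi.pv.symm X.1 r, S.bi.ph.symm X.1 r, ← e1, ← e2]
    apply le_of_eq
    ring)
  change gp S.dE (r, t1) (v, t) X ≤ C at ht1
  have a1 := S.dE_pm.gp_add_E (v, t) (r, t1) X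
  have a2 := hc v r t t1 (t + T) hr1.ge
  have a3 := S.le_dE v r t t1
  have a4 := S.near_EndThin hD t1
  have a5 := S.dE_vert v (t + T) t
  have a6 := hδ (v, t) X (r, t1) (v, t + T)
  have hT' : (0 : ℝ) ≤ T := by exact_mod_cast hT
  push_cast at a2 a4 a5
  rw [add_sub_cancel_left, abs_of_nonneg hT'] at a5
  have b0 := le_abs_self c
  have b1 := abs_nonneg c
  have b2 := le_abs_self C
  have b3 := abs_nonneg C
  have b4 : (T : ℝ) + |(t1 : ℝ) - (t + T)| - |c| ≤ S.dE (v, t) (r, t1) := by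
    rcases le_total ((t1 : ℝ) - (t + T)) 0 with h | h
    · rw [abs_of_nonpos h]; linarith
    · rw [abs_of_nonneg h]
      have := neg_abs_le ((t : ℝ) - t1)
      linarith
  have b5 := abs_nonneg ((t1 : ℝ) - (t + T))
  have b6 : (T : ℝ) - |c| - |C| - 3 ≤ gp S.dE (v, t) X (r, t1) := by
    rw [gp_symm_E S.dE_pm]; linarith
  have b7 : (T : ℝ) - |c| - |C| - 3 ≤ gp S.dE (v, t) (r, t1) (v, t + T) := by
    unfold gp
    rw [S.dE_pm.symm (r, t1) (v, t), a5]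
    linarith
  have b8 := le_min b6 b7
  linarith

theorem Base.up_gp (S : Base Q) : ∃ c : ℝ, ∀ (v : Q) (t T : ℤ) (X : Q × ℤ), 0 ≤ T →
    S.Up v t T X → (T : ℝ) - c ≤ gp S.dE (v, t) X (v, t + T) := by
  obtain ⟨c, hc⟩ := S.up1_EndThin
  refine ⟨max c 2, fun v t T X hT hU => ?_⟩
  have m1 := le_max_left c 2
  have m2 := le_max_right c 2
  rcases hU with ⟨u, h1, h2, h3⟩ | ⟨h1, h2⟩
  · have := hc v u t T X hT h1 h2 h3
    linarith
  · rcases le_total (S.lam ^ (t + T)) (S.dh v X.1) with h3 | h3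
    · have := hc v X.1 t T X hT
        ⟨by rw [S.bi.pv.self, add_zero], by rw [S.bi.ph.self, add_zero]⟩ h3 h1
      linarith
    · have hD := S.D_two_EndThin h1 h3
      obtain ⟨x, s⟩ := X
      have a4 := S.near_EndThin hD s
      have a5 := S.dE_vert v (t + T) t
      have a3 := S.le_dE x v s t
      have hT' : (0 : ℝ) ≤ T := by exact_mod_cast hT
      have h2' : (t : ℝ) + T ≤ s := by exact_mod_cast h2
      push_cast at a4 a5
      rw [add_sub_cancel_left, abs_of_nonneg hT'] at a5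
      rw [abs_of_nonneg (by linarith)] at a4
      have := le_abs_self ((s : ℝ) - t)
      unfold gp
      rw [a5]
      linarith

theorem Base.thin (S : Base Q) (C : ℝ) : ∃ T0 : ℤ, 0 ≤ T0 ∧ ∀ (v : Q) (t T : ℤ) (X Y : Q × ℤ),
    T0 ≤ T → gp S.dE (v, t) X Y ≤ C → S.Up v t T X → S.Up v t T Y → False := by
  obtain ⟨c, hc⟩ := S.up_gp
  obtain ⟨δ, -, hδ⟩ := S.dE_hyp
  refine ⟨max 0 (⌈C + c + δ⌉ + 1), le_max_left _ _, fun v t T X Y hT hg hX hY => ?_⟩
  have h0 : 0 ≤ T := (le_max_left _ _).trans hT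
  have h1 : ⌈C + c + δ⌉ + 1 ≤ T := (le_max_right _ _).trans hT
  have h2 : ((⌈C + c + δ⌉ : ℤ) : ℝ) + 1 ≤ T := by exact_mod_cast h1
  have h3 := Int.le_ceil (C + c + δ)
  have a1 := hc v t T X h0 hX
  have a2 := hc v t T Y h0 hY
  rw [gp_symm_E S.dE_pm] at a2
  have a3 := hδ (v, t) X (v, t + T) Y
  have a4 := le_min a1 a2
  linarith

end Pool.Agent.E5f
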