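import Pool.Agent.E5f.EndG2
import Pool.Agent.E5f.EndThin

/-! An end that is not good goes down. -/

set_option autoImplicit false

namespace Pool.Agent.E5f

variable {Q : Type} [MulAction G8 Q] {S : Base Q}

theorem bdd_a_EndFH {Z : Seq S} {B : ℝ} (h : Z.Bdd B) {k : ℤ} (hk : 0 ≤ k) :
    Z.a k ≤ B ∧ Z.a k * S.dv (Z.q 0) (Z.q k) ≤ B := by
  have h1 := h k hk
  have h2 := Z.a_pos k
  have h3 := mul_nonneg h2.le (S.bi.pv.nonneg_E (Z.q 0) (Z.q k))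
  constructor <;> nlinarith

theorem dE_self_EndFH (Z : Seq S) (j : ℤ) {C : ℝ} (hC : 0 ≤ C) : S.dE (Z.X j) (Z.X j) ≤ C := by
  rw [S.dE_pm.self]; exact hC

theorem Seq.Bdd.rm {Z : Seq S} {B : ℝ} (h : Z.Bdd B) :
    ∃ c1 : ℤ, 0 ≤ c1 ∧ ∀ j l, 0 ≤ j → j ≤ l → Z.τ l ≤ Z.τ j + c1 := by
  obtain ⟨C, hC0, hC⟩ := Z.mor_near 0
  obtain ⟨C', -, hC'⟩ := Z.mor_gp C
  obtain ⟨T0, hT0, hT⟩ := S.thin C'
  obtain ⟨b, hb0, hb⟩ := S.lam_big B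
  refine ⟨T0 + b, by omega, fun j l hj hl => ?_⟩
  by_contra hcon
  obtain ⟨v, hv, hd⟩ := hC 0 j l (Z.X 0) (Z.X l) hj hl (dE_self_EndFH Z 0 le_rfl)
    (dE_self_EndFH Z l le_rfl)
  have hg := hC' 0 j l (Z.X 0) (Z.X l) v hj hl (dE_self_EndFH Z 0 hC0) (dE_self_EndFH Z l hC0) hd
  obtain ⟨a1, a2⟩ := bdd_a_EndFH h (hj.trans hl)
  have h1 : Z.τ l ≤ b := (zpow_le_zpow_iff_right₀ S.lam1).1 (a1.trans hb)
  have h2 : S.dv (Z.q 0) (Z.q l) ≤ S.lam ^ (-(Z.τ j + T0)) := by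
    refine le_trans ?_ (S.lam_mono (s := b + -Z.τ l) (by omega))
    rw [S.lam_add, zpow_neg, ← div_eq_mul_inv, le_div_iff₀ (S.lam_pos _), mul_comm]
    exact a2.trans hb
  have h3 : S.dv (Z.q 0) v + S.dv v (Z.q l) = S.dv (Z.q 0) (Z.q l) := hv.1
  have h4 := S.bi.pv.nonneg_E (Z.q 0) v
  have h5 := S.bi.pv.nonneg_E v (Z.q l)
  have h6 := S.bi.pv.symm v (Z.q 0)
  refine hT v (Z.τ j) T0 (Z.X 0) (Z.X l) le_rfl hg (Or.inr ⟨?_, ?_⟩) (Or.inr ⟨?_, ?_⟩)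
  · show S.dv v (Z.q 0) ≤ _
    linarith
  · show _ ≤ Z.τ 0
    rw [Z.τ0]; omega
  · show S.dv v (Z.q l) ≤ _
    linarith
  · show _ ≤ Z.τ l
    omega

theorem piece_EndFH {X : Type} {dv dh : X → X → ℝ} (hb : BiTree dv dh) {H η : ℝ} (hH : 0 ≤ H)
    (n : ℕ) : ∀ x w : X, ((n : ℝ) + 1) * H ≤ dh x w → dv x w ≤ ((n : ℝ) + 1) * η →
      ∃ y y', Btw dv dh x y y' ∧ Btw dv dh x y' w ∧ dh y y' = H ∧ dv y y' ≤ η := by
  have hself : ∀ x y, Btw dv dh x x y := fun x y =>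
    ⟨by rw [hb.pv.self, zero_add], by rw [hb.ph.self, zero_add]⟩
  induction n with
  | zero =>
    intro x w h1 h2
    simp only [Nat.cast_zero, zero_add, one_mul] at h1 h2
    obtain ⟨y, hy, e⟩ := hb.geoH x w hH h1
    refine ⟨x, y, hself _ _, hy, e, ?_⟩
    have := hy.1
    have := hb.pv.nonneg_E y w
    linarith
  | succ n ih =>
    intro x w h1 h2
    push_cast at h1 h2
    have hn : (0 : ℝ) ≤ n := Nat.cast_nonneg n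
    obtain ⟨y, hy, e⟩ := hb.geoH x w hH (by nlinarith)
    rcases le_or_gt (dv x y) η with h3 | h3
    · exact ⟨x, y, hself _ _, hy, e, h3⟩
    · obtain ⟨z, z', b1, b2, b3, b4⟩ := ih y w (by have := hy.2; linarith)
        (by have := hy.1; linarith)
      have t1 := Btw.trans_right hb hy b2
      exact ⟨z, z', (Btw.trans_right hb t1.2 b1).1, t1.1, b3, b4⟩

theorem fh_EndFH {Z : Seq S} {B : ℝ} (h : Z.Bdd B) :
    ∃ B2 : ℝ, 0 ≤ B2 ∧ ∀ j k, 0 ≤ j → j ≤ k → S.dh (Z.q j) (Z.q k) ≤ B2 * Z.a j := by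
  obtain ⟨c1, hc10, hc1⟩ := h.rm
  obtain ⟨C, hC0, hC⟩ := Z.mor_conv 0
  obtain ⟨C', -, hC'⟩ := Z.mor_gp C
  obtain ⟨T0, hT0, hT⟩ := S.thin C'
  obtain ⟨G, hG⟩ : ∃ G, G = S.lam ^ (c1 + T0) := ⟨_, rfl⟩
  have hG0 : 0 < G := hG ▸ S.lam_pos _
  obtain ⟨n, hn⟩ := exists_nat_ge ((4 * B + 3 * C) * G)
  have hn0 : (0 : ℝ) ≤ n := Nat.cast_nonneg n
  have hB0 : 0 ≤ B := (Z.a_pos 0).le.trans (bdd_a_EndFH h le_rfl).1
  refine ⟨max (2 * C) (4 * ((n : ℝ) + 1) * G), le_max_of_le_left (by linarith),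
    fun j0 k hj0 hk0 => ?_⟩
  obtain ⟨j, hj, hmax⟩ := Finset.exists_max_image (Finset.Icc 0 k)
    (fun j => S.dh (Z.q j) (Z.q k) / Z.a j) ⟨0, Finset.mem_Icc.2 ⟨le_rfl, hj0.trans hk0⟩⟩
  obtain ⟨Y, hY⟩ : ∃ Y, Y = S.dh (Z.q j) (Z.q k) / Z.a j := ⟨_, rfl⟩
  rw [Finset.mem_Icc] at hj
  have hmax' : ∀ l, 0 ≤ l → l ≤ k → S.dh (Z.q l) (Z.q k) ≤ Y * Z.a l := fun l h1 h2 => by
    have := hmax l (Finset.mem_Icc.2 ⟨h1, h2⟩)
    rw [← hY] at this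
    exact (div_le_iff₀ (Z.a_pos l)).1 this
  refine (hmax' j0 hj0 hk0).trans (mul_le_mul_of_nonneg_right ?_ (Z.a_pos j0).le)
  by_contra hcon
  rw [not_le, max_lt_iff] at hcon
  obtain ⟨hY1, hY2⟩ := hcon
  have ha := Z.a_pos j
  have hY0 : 0 < Y := by linarith
  have hYe : S.dh (Z.q j) (Z.q k) = Y * Z.a j := by rw [hY, div_mul_cancel₀ _ ha.ne']
  have hYa := mul_pos hY0 ha
  obtain ⟨w, hw, ew⟩ := S.bi.geoH (Z.q j) (Z.q k) (s := Y * Z.a j / 2) (by linarith)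
    (by linarith)
  obtain ⟨l, l1, l2, hl⟩ := hC j k (Z.X j) (Z.X k) w hj.2 (dE_self_EndFH Z j le_rfl)
    (dE_self_EndFH Z k le_rfl) hw
  obtain ⟨d1, d2⟩ := Z.of_D hl
  have hal := Z.a_pos l
  have h3 : Z.a j ≤ 3 * Z.a l := by
    have t1 := S.bi.ph.tri w (Z.q l) (Z.q k)
    have t2 := S.bi.ph.symm w (Z.q l)
    have t3 := hw.2
    have t4 := hmax' l (hj.1.trans l1) l2
    have t5 : 2 * C * Z.a l ≤ Y * Z.a l := mul_le_mul_of_nonneg_right hY1.le hal.le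
    have t6 : Y * Z.a j ≤ Y * (3 * Z.a l) := by linarith
    exact le_of_mul_le_mul_left t6 hY0
  have h4 : Z.a j * S.dv (Z.q j) w ≤ 4 * B + 3 * C := by
    have t1 := S.bi.pv.tri (Z.q j) (Z.q 0) w
    have t2 := S.bi.pv.tri (Z.q 0) (Z.q l) w
    have t3 := S.bi.pv.symm (Z.q j) (Z.q 0)
    have t4 := (bdd_a_EndFH h hj.1).2
    have t5 := (bdd_a_EndFH h (hj.1.trans l1)).2
    have t6 := mul_le_mul_of_nonneg_right h3 (S.bi.pv.nonneg_E (Z.q 0) (Z.q l))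
    have t7 := mul_le_mul_of_nonneg_right h3 (S.bi.pv.nonneg_E (Z.q l) w)
    have t8 : S.dv (Z.q j) w ≤ S.dv (Z.q 0) (Z.q j) + S.dv (Z.q 0) (Z.q l) + S.dv (Z.q l) w := by
      linarith
    have t9 := mul_le_mul_of_nonneg_left t8 ha.le
    linarith
  have hGa := mul_pos hG0 ha
  obtain ⟨y, y', b1, b2, b3, b4⟩ := piece_EndFH S.bi (H := 2 * (G * Z.a j)) (η := (G * Z.a j)⁻¹)
    (by linarith) n (Z.q j) w
    (by
      have := mul_le_mul_of_nonneg_right hY2.le ha.le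
      linarith)
    (by
      rw [← div_eq_mul_inv, le_div_iff₀ hGa]
      have := mul_le_mul_of_nonneg_right h4 hG0.le
      linarith)
  obtain ⟨v, hv, ev⟩ := S.bi.geoH y y' (s := G * Z.a j) hGa.le (by linarith)
  have c1' := (Btw.trans_left S.bi b2 hw).1
  have c2 := Btw.trans_right S.bi b1 hv
  have c3 := Btw.trans_left S.bi c2.1 c1'
  obtain ⟨m, m1, m2, hm⟩ := hC j k (Z.X j) (Z.X k) v hj.2 (dE_self_EndFH Z j le_rfl)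
    (dE_self_EndFH Z k le_rfl) c3.1
  have hg := hC' j m k (Z.X j) (Z.X k) v m1 m2 (dE_self_EndFH Z j hC0) (dE_self_EndFH Z k hC0) hm
  have h5 := hc1 j m hj.1 m1
  have e1 : S.lam ^ (Z.τ m + (Z.τ j + c1 + T0 - Z.τ m)) = G * Z.a j := by
    rw [hG, Seq.a, ← S.lam_add]
    congr 1
    ring
  have e2 : S.lam ^ (-(Z.τ m + (Z.τ j + c1 + T0 - Z.τ m))) = (G * Z.a j)⁻¹ := by
    rw [zpow_neg, e1]
  have v1 := hv.1
  have v2 := hv.2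
  have v3 := S.bi.pv.nonneg_E y v
  have v4 := S.bi.pv.nonneg_E v y'
  refine hT v (Z.τ m) (Z.τ j + c1 + T0 - Z.τ m) (Z.X j) (Z.X k) (by omega) hg
    (Or.inl ⟨y, Btw.symm_E S.bi c2.2, ?_, ?_⟩) (Or.inl ⟨y', c3.2, ?_, ?_⟩)
  · rw [e1, S.bi.ph.symm, ev]
  · rw [e2, S.bi.pv.symm]; linarith
  · rw [e1]; linarith
  · rw [e2]; linarith

theorem Seq.Bdd.down {Z : Seq S} {B : ℝ} (h : Z.Bdd B) : ∃ B', Z.Down B' := by
  obtain ⟨B2, hB2, hf⟩ := fh_EndFH h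
  refine ⟨max B B2, fun k hk => (h k hk).trans (le_max_left _ _), fun j k hj hk =>
    (hf j k hj hk).trans (mul_le_mul_of_nonneg_right (le_max_right _ _) (Z.a_pos j).le),
    fun ε hε => ?_⟩
  obtain ⟨n, hn⟩ := Z.unbd (max (B + ε⁻¹ * B2) ε⁻¹)
  refine ⟨max (n + 1) 0, fun k hk => ?_⟩
  by_contra hcon
  rw [not_le] at hcon
  have hk0 : 0 ≤ k := (le_max_right _ _).trans hk
  have hk1 : n + 1 ≤ k := (le_max_left _ _).trans hk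
  obtain ⟨a1, a2⟩ := bdd_a_EndFH h hk0
  have h1 : (Z.a k)⁻¹ ≤ ε⁻¹ := inv_anti₀ hε hcon.le
  have h2 := mul_nonneg (inv_pos.2 hε).le hB2
  have h3 := hf 0 k le_rfl hk0
  rw [Z.a_zero, mul_one] at h3
  have h4 : (Z.a k)⁻¹ * S.dh (Z.q 0) (Z.q k) ≤ ε⁻¹ * B2 :=
    mul_le_mul h1 h3 (S.bi.ph.nonneg_E _ _) (inv_pos.2 hε).le
  have h5 := hn k (le_max_of_le_left (by linarith)) (le_max_of_le_right h1)
    (le_max_of_le_left (by rw [Z.D_eq]; linarith))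
  rw [abs_of_nonneg hk0] at h5
  omega

end Pool.Agent.E5f
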