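import Pool.Agent.E5f.EndBas

/-! No big rectangles: a flat strip is close to a geodesic. -/

set_option autoImplicit false

namespace Pool.Agent.E5f

variable {Q : Type} [MulAction G8 Q]


theorem key_EndG5 {X : Type} {dv dh : X → X → ℝ} (hb : BiTree dv dh) {A e : ℝ}
    (hn : NoRect dv dh A e) (he : 0 ≤ e) {P P1 v r : X} (h1 : dv r P1 = 0) (h2 : dh P P1 = 0)
    (h3 : A ≤ dv P P1) (h4 : On dh P v r) (h5 : dv v P = 0) (h6 : e ≤ dh P v) : False := by
  have pv := hb.pv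
  have ph := hb.ph
  have e1 : dh P r = dh P1 r := ph.congr_E h2 r
  have h4' : dh P v + dh v r = dh P r := h4
  obtain ⟨c0, b0, d0⟩ := hb.geoH P v he h6
  obtain ⟨c1, b1, d1⟩ := hb.geoH P1 r he (by have := ph.nonneg_E v r; linarith)
  have z0 : dv P c0 = 0 := by
    have a1 := b0.1
    have a2 := pv.nonneg_E P c0
    have a3 := pv.nonneg_E c0 v
    have a4 := pv.symm v P
    linarith
  have z1 : dv P1 c1 = 0 := by
    have a1 := b1.1
    have a2 := pv.nonneg_E P1 c1
    have a3 := pv.nonneg_E c1 r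
    have a4 := pv.symm r P1
    linarith
  have o0 : On dh P c0 r := (On.trans_left ph (show On dh P c0 v from b0.2) h4).1
  have e2 : dh P c1 = dh P1 c1 := ph.congr_E h2 c1
  have o1 : On dh P c1 r := by
    have := b1.2
    show dh P c1 + dh c1 r = dh P r
    linarith
  have z2 : dh c0 c1 = 0 := by
    rw [On.dist_eq ph hb.hh o0 o1, d0, e2, d1, sub_self, abs_zero]
  exact hn P P1 c0 c1 h2 z2 z0 z1 h3 d0.ge

theorem Base.g5 (S : Base Q) : ∃ L1 : ℝ, 0 < L1 ∧ ∀ (x y v Pm P Pp : Q) (m ε : ℝ), 0 < ε →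
    L1 ≤ ε * m → Btw S.dv S.dh x v y → On S.dv x Pm y → On S.dv x P y → On S.dv x Pp y →
    S.dv x Pm + m = S.dv x v → S.dv x P = S.dv x v → S.dv x Pp = S.dv x v + m →
    S.dh Pm P = 0 → S.dh P Pp = 0 → S.dh v P ≤ ε := by
  obtain ⟨L, hL, hn⟩ := S.noRect
  have hlam : 0 < S.lam := lt_trans one_pos S.lam1
  refine ⟨S.lam * L ^ 2, by positivity, ?_⟩
  intro x y v Pm P Pp m ε hε hm hv oM oP oPp eM eP ePp hM hPp
  have pv := S.bi.pv
  have ph := S.bi.ph
  obtain ⟨k, hk1, hk2⟩ := exists_mem_Ico_zpow (x := ε / L) (by positivity) S.lam1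
  have hk0 : 0 < S.lam ^ k := zpow_pos hlam k
  have he : S.lam ^ k * L ≤ ε := by rwa [le_div_iff₀ hL] at hk1
  have he2 : ε < S.lam ^ k * S.lam * L := by
    rwa [div_lt_iff₀ hL, zpow_add_one₀ hlam.ne'] at hk2
  have hm0 : 0 < m := by
    by_contra hc
    have h1 : ε * m ≤ 0 := mul_nonpos_of_nonneg_of_nonpos hε.le (not_lt.1 hc)
    have h2 : 0 < S.lam * L ^ 2 := by positivity
    linarith
  have hA : S.lam ^ (-k) * L ≤ m := by
    rw [zpow_neg, inv_mul_le_iff₀ hk0]
    have h1 : ε * m ≤ S.lam ^ k * S.lam * L * m := mul_le_mul_of_nonneg_right he2.le hm0.le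
    have h2 : (S.lam * L) * L ≤ (S.lam * L) * (S.lam ^ k * m) := by nlinarith
    exact le_of_mul_le_mul_left h2 (by positivity)
  have hv1 : S.dv x v + S.dv v y = S.dv x y := hv.1
  have oPp' : S.dv x Pp + S.dv Pp y = S.dv x y := oPp
  obtain ⟨rm, bm, dm⟩ := S.bi.geoV x v (pv.nonneg_E x Pm) (by linarith)
  obtain ⟨rp, bp, dp⟩ := S.bi.geoV v y hm0.le (by have := pv.nonneg_E Pp y; linarith)
  obtain ⟨t1, t2⟩ := Btw.trans_left S.bi bm hv
  obtain ⟨t3, t4⟩ := Btw.trans_right S.bi hv bp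
  have t5 := (Btw.trans_right S.bi t2 bp).2
  have zM : S.dv rm Pm = 0 := by
    rw [On.dist_eq pv S.bi.hv (show On S.dv x rm y from t1.1) oM, dm, sub_self, abs_zero]
  have zP : S.dv v P = 0 := by
    rw [On.dist_eq pv S.bi.hv (show On S.dv x v y from hv.1) oP, eP, sub_self, abs_zero]
  have zp : S.dv rp Pp = 0 := by
    have := t4.1
    rw [On.dist_eq pv S.bi.hv (show On S.dv x rp y from t3.1) oPp, ePp, ← this, dp, sub_self,
      abs_zero]
  have mM : S.dv P Pm = m := by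
    rw [On.dist_eq pv S.bi.hv oP oM, eP, ← eM, add_sub_cancel_left, abs_of_pos hm0]
  have mp : S.dv P Pp = m := by
    rw [On.dist_eq pv S.bi.hv oP oPp, eP, ePp, sub_add_cancel_left, abs_neg, abs_of_pos hm0]
  by_contra hc
  have hc' : S.lam ^ k * L ≤ S.dh P v := by
    rw [ph.symm P v]
    linarith [not_le.1 hc]
  have he0 : 0 ≤ S.lam ^ k * L := by positivity
  have hh := S.bi.hh v rm P rp
  have t6 := t5.2
  have s1 := ph.symm rp v
  have s2 := ph.symm rm v
  have s3 := ph.symm rm P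
  have r1 := ph.tri P v rm
  have r2 := ph.tri P v rp
  simp only [gp] at hh
  rcases min_choice ((S.dh rm v + S.dh P v - S.dh rm P) / 2)
    ((S.dh P v + S.dh rp v - S.dh P rp) / 2) with h | h
  · rw [h] at hh
    refine key_EndG5 S.bi (hn k) he0 zM (by rw [ph.symm]; exact hM) (by rw [mM]; exact hA)
      (v := v) ?_ zP hc'
    show S.dh P v + S.dh v rm = S.dh P rm
    linarith
  · rw [h] at hh
    refine key_EndG5 S.bi (hn k) he0 zp hPp (by rw [mp]; exact hA) (v := v) ?_ zP hc'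
    show S.dh P v + S.dh v rp = S.dh P rp
    linarith

end Pool.Agent.E5f
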