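import Pool.Agent.E5f.EndG2
import Pool.Agent.E5f.EndG5

/-! The last case: the sequence does not follow a cusp. -/

set_option autoImplicit false

namespace Pool.Agent.E5f

variable {Q : Type} [MulAction G8 Q] {S : Base Q}

theorem ivt_EndFin {τ : ℤ → ℤ} {m0 : ℤ} (h0 : τ 0 = 0) (hm : 1 ≤ m0)
    (hs : ∀ i j, |τ i - τ j| ≤ m0 * |i - j|) (t : ℤ) (ht : 0 ≤ t) (k : ℤ) (hk : 0 ≤ k)
    (htk : t ≤ -τ k) : ∃ j, 0 ≤ j ∧ j ≤ k ∧ t ≤ -τ j ∧ -τ j ≤ t + m0 := by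
  induction k, hk using Int.leInduction with
  | base => exact ⟨0, le_rfl, le_rfl, htk, by omega⟩
  | succ k hk ih =>
    by_cases h : t ≤ -τ k
    · obtain ⟨j, a, b, c, d⟩ := ih h
      exact ⟨j, a, by omega, c, d⟩
    · have h1 := hs k (k + 1)
      rw [show k - (k + 1) = -1 by ring, abs_neg, abs_one, mul_one] at h1
      have h2 := le_abs_self (τ k - τ (k + 1))
      exact ⟨k + 1, by omega, le_rfl, htk, by omega⟩

theorem key_EndFin {Z : Seq S} {B : ℝ} (h : Z.Down B) : ∃ c0 c1 : ℝ, 0 ≤ c0 ∧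
    ∀ (R N : ℝ) (k : ℤ) (q' : Q) (U β : ℝ) (γ : G8) (P : ℝ → Q), Z.Comp k q' → 1 ≤ U → 0 ≤ β →
      β ≤ 3 * U → (∀ s, 1 ≤ s → s ≤ N → S.dh (P s) (γ • S.P0) = 0 ∧
        S.dv (Z.q 0) (P s) = β + s * U ∧ On S.dv (Z.q 0) (P s) q' ∧
        S.dv (γ • S.P0) (P s) ≤ (R + s) * U) →
      ∀ (j : ℤ) (ρ : ℝ), 0 ≤ j → j ≤ k → ρ * U = (Z.a j)⁻¹ → 1 ≤ ρ → R ≤ ρ → c0 * ρ ≤ N →
        S.dE (γ • S.P0, Z.τ j) (Z.q j, Z.τ j) ≤ c1 := by
  obtain ⟨C, hC, hnear⟩ := Z.mor_near 2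
  obtain ⟨L1, hL, hg5⟩ := S.g5
  have pv := S.bi.pv
  have ph := S.bi.ph
  have hB : 1 ≤ B := by
    have := h.bdd 0 le_rfl
    rwa [Z.a_zero, pv.self, add_zero, one_mul] at this
  obtain ⟨c, hc⟩ : ∃ c, c = B + C + L1 + 4 := ⟨_, rfl⟩
  refine ⟨c + L1, 2 * C + 2 * c + B + 3, by linarith,
    fun R N k q' U β γ P hq hU hβ hβ' hP j ρ hj hjk hρ h1 hR hN => ?_⟩
  have ha := Z.a_pos j
  have hU0 : 0 < U := by linarith
  obtain ⟨W, hW⟩ : ∃ W, W = (Z.a j)⁻¹ := ⟨_, rfl⟩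
  have hW0 : 0 < W := hW ▸ inv_pos.2 ha
  have haW : Z.a j * W = 1 := by rw [hW]; exact mul_inv_cancel₀ ha.ne'
  rw [← hW] at hρ
  have hdiv : ∀ {x A : ℝ}, Z.a j * x ≤ A → x ≤ A * W := fun {x A} hx => by
    have := mul_le_mul_of_nonneg_right hx hW0.le
    rwa [mul_right_comm, haW, one_mul] at this
  obtain ⟨vj, hvj, hD⟩ := hnear 0 j k (Z.X 0) (q', Z.τ k) hj hjk
    (by rw [S.dE_pm.self]; norm_num) hq.dE_le
  change Btw S.dv S.dh (Z.q 0) vj q' at hvj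
  obtain ⟨e1, e2⟩ := Z.of_D hD
  have e3 : S.dv (Z.q 0) (Z.q j) ≤ B * W := hdiv (by
    have := h.bdd j hj
    linarith)
  have e4 : S.dv (Z.q 0) vj ≤ (B + C) * W := by
    have := pv.tri (Z.q 0) (Z.q j) vj
    have := hdiv e1
    linarith
  obtain ⟨b, hb0, hb3, hb⟩ : ∃ b, 0 ≤ b ∧ b ≤ 3 ∧ b * U = β :=
    ⟨β / U, by positivity, by rwa [div_le_iff₀ hU0], div_mul_cancel₀ _ hU0.ne'⟩
  have hLρ : 0 ≤ L1 * ρ := by positivity
  have s1 : 1 ≤ c * ρ - b - L1 * ρ := by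
    rw [hc]
    nlinarith
  have s2 : c * ρ - b + L1 * ρ ≤ N := by linarith
  obtain ⟨m1, m2, m3, -⟩ := hP (c * ρ - b - L1 * ρ) s1 (by linarith)
  obtain ⟨n1, n2, n3, n4⟩ := hP (c * ρ - b) (by linarith) (by linarith)
  obtain ⟨p1, p2, p3, -⟩ := hP (c * ρ - b + L1 * ρ) (by linarith) s2
  have m2' : S.dv (Z.q 0) (P (c * ρ - b - L1 * ρ)) = c * W - L1 * W := by
    rw [m2, ← hρ, ← hb]; ring
  have n2' : S.dv (Z.q 0) (P (c * ρ - b)) = c * W := by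
    rw [n2, ← hρ, ← hb]; ring
  have e5 : c * W ≤ S.dv (Z.q 0) q' := by
    have := pv.nonneg_E (P (c * ρ - b)) q'
    have n3' : _ = _ := n3
    linarith
  have e6 : (B + C) * W ≤ c * W := mul_le_mul_of_nonneg_right (by linarith) hW0.le
  obtain ⟨v, hv, hv'⟩ := S.bi.geoV vj q' (s := c * W - S.dv (Z.q 0) vj) (by linarith)
    (by linarith [hvj.1])
  obtain ⟨t1, t2⟩ := Btw.trans_right S.bi hvj hv
  have e7 : S.dv (Z.q 0) v = c * W := by linarith [t2.1]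
  have z0 : ∀ {x y : Q}, S.dh x (γ • S.P0) = 0 → S.dh y (γ • S.P0) = 0 → S.dh x y = 0 :=
    fun {x y} hx hy => by rw [ph.congr_E hx, ph.symm, hy]
  have e8 := hg5 (Z.q 0) q' v _ _ _ (L1 * W) (Z.a j) ha
    (by rw [mul_left_comm, haW, mul_one]) t1 m3 n3 p3 (by rw [m2', e7]; ring) (by rw [n2', e7])
    (by rw [p2, e7, ← hρ, ← hb]; ring) (z0 m1 n1) (z0 n1 p1)
  have e9 : S.dv v (P (c * ρ - b)) = 0 := by
    rw [On.dist_eq pv S.bi.hv t1.1 n3, e7, n2', sub_self, abs_zero]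
  have hc0 : 0 ≤ c := by linarith
  have f1 : S.D (Z.τ j) (γ • S.P0) v ≤ c + 2 := by
    rw [Z.D_eq, pv.congr'_E e9, ← ph.congr_E n1, ph.symm, ← hW]
    have g1 : (R + (c * ρ - b)) * U ≤ (1 + c) * W := by
      rw [← hρ, ← mul_assoc]
      exact mul_le_mul_of_nonneg_right (by linarith) hU0.le
    have g2 := mul_le_mul_of_nonneg_left (n4.trans g1) ha.le
    rw [mul_left_comm, haW] at g2
    have g3 := mul_le_mul_of_nonneg_left e8 hW0.le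
    rw [mul_comm W (Z.a j), haW] at g3
    linarith
  have f2 : S.D (Z.τ j) v vj ≤ c + (C + B) := by
    rw [Z.D_eq, pv.symm, ph.symm, ← hW]
    have g1 : S.dv vj v ≤ c * W := by linarith [pv.nonneg_E (Z.q 0) vj]
    have g2 := mul_le_mul_of_nonneg_left g1 ha.le
    rw [mul_left_comm, haW] at g2
    have g3 : S.dh vj v ≤ (C + B) * Z.a j := by
      have := hv.2
      have := ph.nonneg_E v q'
      have := ph.tri vj (Z.q j) q'
      have := ph.tri (Z.q j) (Z.q k) q'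
      have := h.fh j k hj hjk
      have := hq.h0
      have := ph.symm vj (Z.q j)
      linarith
    have g4 := mul_le_mul_of_nonneg_left g3 hW0.le
    rw [mul_left_comm, mul_comm W (Z.a j), haW] at g4
    linarith
  have pD := S.D_pm (Z.τ j)
  have := S.dE_fib (γ • S.P0) (Z.q j) (Z.τ j)
  have := pD.tri (γ • S.P0) v (Z.q j)
  have := pD.tri v vj (Z.q j)
  have := pD.symm vj (Z.q j)
  linarith

theorem Seq.Down.not_cusp {Z : Seq S} {B : ℝ} (h : Z.Down B) : ¬ Z.Cusp := by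
  rintro ⟨R, hR⟩
  obtain ⟨c0, c1, hc0, key⟩ := key_EndFin h
  obtain ⟨n, hn⟩ := Z.cl c1
  obtain ⟨m0, hm, hs⟩ := Z.step
  have pv := S.bi.pv
  have hB : 1 ≤ B := by
    have := h.bdd 0 le_rfl
    rwa [Z.a_zero, pv.self, add_zero, one_mul] at this
  obtain ⟨n', hn'⟩ := exists_nat_gt n
  obtain ⟨M, hM⟩ : ∃ M : ℤ, M = m0 * n' + 2 * m0 := ⟨_, rfl⟩
  have hmn : 0 ≤ m0 * n' := by positivity
  obtain ⟨r1, h1, hr1⟩ : ∃ r1, 1 ≤ r1 ∧ R ≤ r1 := ⟨max R 1, le_max_right _ _, le_max_left _ _⟩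
  obtain ⟨r2, hr2⟩ : ∃ r2, r2 = r1 * S.lam ^ (1 + M) := ⟨_, rfl⟩
  have h2 : 1 ≤ r2 := by
    have := S.lam_mono (s := 0) (t := 1 + M) (by omega)
    rw [zpow_zero] at this
    rw [hr2]
    exact one_le_mul_of_one_le_of_one_le h1 this
  have hN : 1 ≤ (c0 + B + 1) * r2 := one_le_mul_of_one_le_of_one_le (by linarith) h2
  obtain ⟨k, q', U, β, γ, P, hk, hq, hU, hβ, hβ', hP⟩ := hR _ hN
  have hU0 : 0 < U := by linarith
  have hinv : ∀ j, (Z.a j)⁻¹ = S.lam ^ (-Z.τ j) := fun j => (zpow_neg _ _).symm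
  have hk2 : r2 * U ≤ S.lam ^ (-Z.τ k) := by
    obtain ⟨-, a2, a3, -⟩ := hP _ hN le_rfl
    have a3' : _ = _ := a3
    have a4 : _ = _ := hq.on
    have a5 := pv.nonneg_E (P ((c0 + B + 1) * r2)) q'
    have ha := Z.a_pos k
    have a6 : S.dv (Z.q 0) (Z.q k) ≤ B * (Z.a k)⁻¹ := by
      rw [← div_eq_mul_inv, le_div_iff₀ ha]
      have := h.bdd k hk
      linarith
    have a7 : 0 ≤ c0 * (r2 * U) := by positivity
    rw [hq.v1] at a4
    rw [← hinv]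
    refine le_of_mul_le_mul_left (a := B + 1) ?_ (by linarith)
    linarith
  obtain ⟨e, he1, he2⟩ := exists_mem_Ioc_zpow (x := r1 * U) (by positivity) S.lam1
  have hup : S.lam ^ (e + 1 + M) ≤ r2 * U := by
    rw [add_assoc, S.lam_add, hr2, mul_right_comm]
    exact mul_le_mul_of_nonneg_right he1.le (S.lam_pos _).le
  have he0 : 0 ≤ e + 1 := by
    rw [← zpow_le_zpow_iff_right₀ S.lam1, zpow_zero]
    exact (one_le_mul_of_one_le_of_one_le h1 hU).trans he2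
  have hek : e + 1 + M ≤ -Z.τ k := (zpow_le_zpow_iff_right₀ S.lam1).1 (hup.trans hk2)
  have good : ∀ j, 0 ≤ j → j ≤ k → e + 1 ≤ -Z.τ j → -Z.τ j ≤ e + 1 + M →
      S.dE (γ • S.P0, Z.τ j) (Z.q j, Z.τ j) ≤ c1 := fun j a b c d => by
    have g1 : r1 ≤ (Z.a j)⁻¹ / U := by
      rw [le_div_iff₀ hU0, hinv]
      exact he2.trans (S.lam_mono c)
    have g2 : (Z.a j)⁻¹ / U ≤ r2 := by
      rw [div_le_iff₀ hU0, hinv]
      exact (S.lam_mono d).trans hup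
    refine key R _ k q' U β γ P hq hU hβ hβ' hP j ((Z.a j)⁻¹ / U) a b
      (div_mul_cancel₀ _ hU0.ne') (h1.trans g1) (hr1.trans g1) ?_
    exact mul_le_mul (by linarith) g2 (by linarith) (by linarith)
  obtain ⟨j, a1, a2, a3, a4⟩ := ivt_EndFin Z.τ0 hm hs (e + 1) he0 k hk (by omega)
  obtain ⟨j', b1, b2, b3, b4⟩ := ivt_EndFin Z.τ0 hm hs (e + 1 + (m0 * n' + m0)) (by omega) k hk
    (by omega)
  have c1' := hn γ _ _ j j' (good j a1 a2 a3 (by omega)) (good j' b1 b2 (by omega) (by omega))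
  have c2 : m0 * n' ≤ m0 * |j - j'| := by
    have := hs j j'
    have := le_abs_self (Z.τ j - Z.τ j')
    omega
  have c3 : (n' : ℤ) ≤ |j - j'| := le_of_mul_le_mul_left c2 (by omega)
  have c4 : (n' : ℝ) ≤ |(j : ℝ) - j'| := by exact_mod_cast c3
  linarith

end Pool.Agent.E5f
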