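import Pool.Agent.E5f.EndG2

/-! Both ends going far: a line on which the functional is constant. -/

set_option autoImplicit false

namespace Pool.Agent.E5f

section
variable {X : Type} {d : X → X → ℝ}

theorem ultra_EndLine (h : PM d) (ht : Hyp d 0) {w x x' y : X}
    (h1 : gp d w x y < gp d w x x') : gp d w x' y = gp d w x y := by
  have a1 := ht w x' x y
  have a2 := ht w x x' y
  rw [gp_symm_E h w x' x, min_eq_right h1.le] at a1
  rcases le_total (gp d w x x') (gp d w x' y) with k | k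
  · rw [min_eq_left k] at a2
    linarith
  · rw [min_eq_right k] at a2
    linarith

theorem move_EndLine (h : PM d) (ht : Hyp d 0) {w x x' y r : X} {g s : ℝ}
    (h1 : On d x r y) (h2 : d x r = d w x - g + s) (g1 : gp d w x y = g) (g2 : gp d w x' y = g)
    (g3 : g - s ≤ gp d w x x') :
    On d x' r y ∧ d x' r = d w x' - g + s ∧ d y r = d w y - g - s := by
  have s1 := h.symm x w
  have s2 := h.symm x' w
  have s3 := h.symm y w
  have s4 := h.symm x' x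
  have s5 := h.symm y x
  have s6 := h.symm y r
  have o : On d x' r y := by
    refine h1.tree_left h ht ?_
    simp only [gp] at g1 g2 g3 ⊢
    linarith
  refine ⟨o, ?_, ?_⟩
  · simp only [gp, On] at g1 g2 g3 o h1
    linarith
  · simp only [gp, On] at g1 g2 g3 o h1
    linarith

theorem line_EndLine (h : PM d) (ht : Hyp d 0)
    (geo : ∀ p q (s : ℝ), 0 ≤ s → s ≤ d p q → ∃ r, On d p r q ∧ d p r = s)
    (w : X) (x y : ℕ → X) (C : ℝ)
    (hx : ∀ n m : ℕ, n ≤ m → (n : ℝ) + C + 1 ≤ gp d w (x n) (x m))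
    (hy : ∀ n m : ℕ, n ≤ m → (n : ℝ) + C + 1 ≤ gp d w (y n) (y m))
    (h0 : gp d w (x 0) (y 0) ≤ C) :
    ∃ (σ : ℝ → X) (c : ℕ → ℝ), d w (σ 0) ≤ C ∧ ∀ (s : ℝ) (M : ℕ), |s| ≤ M →
      On d (x M) (σ s) (y M) ∧ d (x M) (σ s) = c M + s := by
  obtain ⟨g, hg⟩ : ∃ g, g = gp d w (x 0) (y 0) := ⟨_, rfl⟩
  rw [← hg] at h0
  have hg1 : ∀ n, gp d w (x n) (y 0) = g := by
    intro n
    rw [hg]
    refine ultra_EndLine h ht ?_
    have := hx 0 n (Nat.zero_le n)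
    rw [Nat.cast_zero] at this
    linarith
  have hg2 : ∀ n m, gp d w (x n) (y m) = g := by
    intro n m
    rw [gp_symm_E h, ← hg1 n, gp_symm_E h w (x n) (y 0)]
    refine ultra_EndLine h ht ?_
    have := hy 0 m (Nat.zero_le m)
    rw [Nat.cast_zero] at this
    rw [gp_symm_E h, hg1]
    linarith
  have ex : ∀ s : ℝ, ∃ r, On d (x ⌈|s|⌉₊) r (y ⌈|s|⌉₊) ∧
      d (x ⌈|s|⌉₊) r = d w (x ⌈|s|⌉₊) - g + s := by
    intro s
    have a1 := (hx _ _ (le_refl ⌈|s|⌉₊)).trans (h.gp_le_E w _ _)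
    have a2 := (hy _ _ (le_refl ⌈|s|⌉₊)).trans (h.gp_le_E w _ _)
    have a3 := Nat.le_ceil |s|
    have a4 := le_abs_self s
    have a5 := neg_abs_le s
    have a6 := hg2 ⌈|s|⌉₊ ⌈|s|⌉₊
    have s1 := h.symm (x ⌈|s|⌉₊) w
    have s2 := h.symm (y ⌈|s|⌉₊) w
    refine geo _ _ _ (by linarith) ?_
    simp only [gp] at a6
    linarith
  choose σ hσ1 hσ2 using ex
  refine ⟨σ, fun M => d w (x M) - g, ?_, fun s M hM => ?_⟩
  · have a1 := hσ1 0
    have a2 := hσ2 0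
    generalize ⌈|(0 : ℝ)|⌉₊ = m at a1 a2
    have a6 := hg2 m m
    have s1 := h.symm (x m) w
    have s2 := h.symm (y m) w
    have s3 := h.symm (y m) (x m)
    have o : On d w (σ 0) (y m) := by
      refine a1.tree_left h ht ?_
      simp only [gp] at a6 ⊢
      linarith
    simp only [gp, On] at a6 o a1
    linarith
  · have hm : ⌈|s|⌉₊ ≤ M := Nat.ceil_le.2 hM
    have a3 := Nat.le_ceil |s|
    have a4 := le_abs_self s
    have a5 := neg_abs_le s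
    obtain ⟨b1, b2, b3⟩ := move_EndLine h ht (x' := x M) (hσ1 s) (hσ2 s) (hg2 _ _) (hg2 _ _)
      (by have := hx _ _ hm; linarith)
    obtain ⟨b4, -, -⟩ := move_EndLine h ht (w := w) (x' := y M) (g := g) (s := -s) (b1.symm h)
      (by rw [b3]; ring) (by rw [gp_symm_E h, hg2]) (by rw [gp_symm_E h, hg2])
      (by have := hy _ _ hm; linarith)
    exact ⟨b4.symm h, b2⟩

theorem mono_EndLine (h : PM d) {F : X → ℝ} (hn : ∀ q, 0 ≤ F q)
    (cvx : ∀ p q r, On d p q r → d p r * F q ≤ d q r * F p + d p q * F r) {p p' : X}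
    (y : ℕ → X) (M0 : ℕ) (hy : ∀ M, M0 ≤ M → On d p p' (y M) ∧ 0 < d p (y M) ∧
      F (y M) * (M + 1) ≤ 2 * d p (y M)) : F p' ≤ F p := by
  refine not_lt.1 fun hlt => ?_
  obtain ⟨N, hN⟩ := exists_nat_gt (2 * d p p' / (F p' - F p))
  obtain ⟨o, h1, h2⟩ := hy (max M0 N) (le_max_left _ _)
  have h3 := cvx _ _ _ o
  have h4 : (N : ℝ) ≤ (max M0 N : ℕ) := Nat.cast_le.2 (le_max_right _ _)
  set M : ℝ := ((max M0 N : ℕ) : ℝ)
  set D := d p (y (max M0 N))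
  set f := F (y (max M0 N))
  have hδ : 0 < F p' - F p := by linarith
  rw [div_lt_iff₀ hδ] at hN
  have e0 := h.nonneg_E p p'
  have e1 : d p' (y (max M0 N)) ≤ D := by
    have : d p p' + d p' (y (max M0 N)) = D := o
    linarith
  have e2 : D * (F p' - F p) ≤ d p p' * f := by
    have := mul_le_mul_of_nonneg_right e1 (hn p)
    linarith
  have hM : (0 : ℝ) < M + 1 := by
    have : (0 : ℝ) ≤ N := Nat.cast_nonneg N
    linarith
  have e3 : D * (F p' - F p) * (M + 1) ≤ d p p' * (2 * D) := by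
    have a := mul_le_mul_of_nonneg_right e2 hM.le
    have b := mul_le_mul_of_nonneg_left h2 e0
    linarith
  have e4 : 2 * d p p' < (F p' - F p) * (M + 1) := by nlinarith
  have e5 := mul_lt_mul_of_pos_left e4 h1
  linarith

end

variable {Q : Type} [MulAction G8 Q] {S : Base Q}

theorem near_EndLine (Z : Seq S) : ∃ C : ℝ, 0 ≤ C ∧ ∀ i j k : ℤ, i ≤ j → j ≤ k →
    Z.a j * gp S.dv (Z.q j) (Z.q i) (Z.q k) ≤ C := by
  obtain ⟨C, h0, h⟩ := Z.mor_near 0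
  refine ⟨C, h0, fun i j k h1 h2 => ?_⟩
  obtain ⟨v, b, hv⟩ := h i j k (Z.X i) (Z.X k) h1 h2 (S.dE_pm.self _).le (S.dE_pm.self _).le
  have a1 := (Z.of_D hv).1
  have a2 : gp S.dv (Z.q j) (Z.q i) (Z.q k) ≤ S.dv (Z.q j) v :=
    On.gp_le S.bi.pv (show On S.dv (Z.q i) v (Z.q k) from b.1) _
  exact (mul_le_mul_of_nonneg_left a2 (Z.a_pos j).le).trans a1

theorem half_EndLine {Z : Seq S} {F : Q → ℝ} (hF : Fn Z F) (h2 : Z.FrE) {C0 : ℝ} (hC0 : 0 ≤ C0) :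
    ∃ k : ℕ → ℤ, (∀ n, 0 ≤ k n) ∧
      (∀ n m : ℕ, n ≤ m → (n : ℝ) + C0 + 1 ≤ gp S.dv (Z.q 0) (Z.q (k n)) (Z.q (k m))) ∧
      (∀ n : ℕ, 2 * ((n : ℝ) + C0 + 1) ≤ S.dv (Z.q 0) (Z.q (k n))) ∧
      ∀ n : ℕ, F (Z.q (k n)) * (n + 1) ≤ S.dv (Z.q 0) (Z.q (k n)) := by
  obtain ⟨C, hC, hn⟩ := near_EndLine Z
  obtain ⟨Θ, hΘ⟩ := hF.bd
  have hT : 0 < |Θ| + 1 := by positivity
  choose f f1 f2 f3 using h2
  let A : ℕ → ℝ := fun n => 2 * ((n : ℝ) + C0 + 1) + 4 * C + 2 * (|Θ| + 1) * (n + 1)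
  let k : ℕ → ℤ := fun n => Nat.rec (f (A 0) 0) (fun n z => f (A (n + 1)) z) n
  have k1 : Monotone k := monotone_nat_of_le_succ fun n => f1 _ _
  have k0 : ∀ n, 0 ≤ k n := fun n => (f1 (A 0) 0).trans (k1 (Nat.zero_le n))
  have k2 : ∀ n, A n ≤ Z.a (k n) * (1 + S.dv (Z.q 0) (Z.q (k n))) := by
    intro n
    cases n with
    | zero => exact f2 _ _
    | succ n => exact f2 _ _
  have k3 : ∀ n, A n ≤ S.dv (Z.q 0) (Z.q (k n)) := by
    intro n
    cases n with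
    | zero => exact f3 _ _
    | succ n => exact f3 _ _
  have hA : ∀ n : ℕ, 2 * ((n : ℝ) + C0 + 1) ≤ A n ∧ 4 * C ≤ A n ∧
      2 * (|Θ| + 1) * (n + 1) ≤ A n := by
    intro n
    have a1 : (0 : ℝ) ≤ 2 * ((n : ℝ) + C0 + 1) := by positivity
    have a2 : (0 : ℝ) ≤ 2 * (|Θ| + 1) * (n + 1) := by positivity
    refine ⟨?_, ?_, ?_⟩ <;> simp only [A] <;> linarith
  have hd : ∀ n : ℕ, 1 ≤ S.dv (Z.q 0) (Z.q (k n)) := by
    intro n
    have a1 : (0 : ℝ) ≤ n := Nat.cast_nonneg n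
    have := (hA n).1.trans (k3 n)
    linarith
  refine ⟨k, k0, fun n m hnm => ?_, fun n => (hA n).1.trans (k3 n), fun n => ?_⟩
  · have a1 := hn 0 (k n) (k m) (k0 n) (k1 hnm)
    have a2 := S.bi.pv.gp_add_E (Z.q 0) (Z.q (k n)) (Z.q (k m))
    have a3 := (hA n).2.1.trans (k2 n)
    have a4 := (hA n).1.trans (k3 n)
    have a5 := hd n
    have a6 := Z.a_pos (k n)
    have a7 : 4 * gp S.dv (Z.q (k n)) (Z.q 0) (Z.q (k m)) ≤ 1 + S.dv (Z.q 0) (Z.q (k n)) :=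
      le_of_mul_le_mul_left (by linarith) a6
    linarith
  · have a1 := (hΘ (k n)).trans (le_abs_self Θ)
    have a3 := (hA n).2.2.trans (k2 n)
    have a5 := hd n
    have a8 := hF.nonneg (Z.q (k n))
    have b1 := mul_le_mul_of_nonneg_left a3 a8
    have b2 : Z.a (k n) * F (Z.q (k n)) * (1 + S.dv (Z.q 0) (Z.q (k n))) ≤
        (|Θ| + 1) * (2 * S.dv (Z.q 0) (Z.q (k n))) :=
      mul_le_mul (by linarith) (by linarith) (by linarith) hT.le
    refine le_of_mul_le_mul_left (a := 2 * (|Θ| + 1)) ?_ (by positivity)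
    linarith

theorem strip_of_far {Z : Seq S} {F : Q → ℝ} (hF : Fn Z F) (h1 : Z.rev.FrE) (h2 : Z.FrE) :
    Z.Strip := by
  have pv := S.bi.pv
  have hv := S.bi.hv
  obtain ⟨C, hC, hn⟩ := near_EndLine Z
  obtain ⟨k, k0, k1, k2, k3⟩ := half_EndLine hF h2 hC
  obtain ⟨i, i0, i1, i2, i3⟩ := half_EndLine hF.rev h1 hC
  obtain ⟨σ, c, hσ0, hσ⟩ := line_EndLine pv hv
    (fun p q s a b => by
      obtain ⟨r, h3, h4⟩ := S.bi.geoV p q a b
      exact ⟨r, h3.1, h4⟩)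
    (Z.q 0) (fun n => Z.q (-i n)) (fun n => Z.q (k n)) C i1 k1
    (by
      have := hn (-i 0) 0 (k 0) (by have := i0 0; omega) (k0 0)
      rwa [Z.a_zero, one_mul] at this)
  have hd : ∀ s s', S.dv (σ s) (σ s') = |s - s'| := by
    intro s s'
    obtain ⟨M, hM⟩ := exists_nat_ge (max |s| |s'|)
    obtain ⟨a1, a2⟩ := hσ s M ((le_max_left _ _).trans hM)
    obtain ⟨a3, a4⟩ := hσ s' M ((le_max_right _ _).trans hM)
    rw [a1.dist_eq pv hv a3, a2, a4, add_sub_add_left_eq_sub]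
  have far : ∀ (s : ℝ) (M : ℕ) (z : Q), |s| ≤ M → 2 * ((M : ℝ) + C + 1) ≤ S.dv (Z.q 0) z →
      F z * (M + 1) ≤ S.dv (Z.q 0) z → 0 < S.dv (σ s) z ∧ F z * (M + 1) ≤ 2 * S.dv (σ s) z := by
    intro s M z a1 a2 a3
    have b1 := pv.tri (Z.q 0) (σ 0) z
    have b2 := pv.tri (σ 0) (σ s) z
    rw [hd, zero_sub, abs_neg] at b2
    have b3 := abs_nonneg s
    constructor <;> linarith
  have hconst : ∀ s s', s ≤ s' → F (σ s) = F (σ s') := by
    intro s s' hss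
    obtain ⟨M0, hM0⟩ := exists_nat_ge (max |s| |s'|)
    have ord : ∀ M : ℕ, M0 ≤ M → (|s| ≤ M ∧ |s'| ≤ M) ∧ On S.dv (Z.q (-i M)) (σ s) (σ s') ∧
        On S.dv (σ s) (σ s') (Z.q (k M)) := by
      intro M hM
      have hM' : (M0 : ℝ) ≤ M := Nat.cast_le.2 hM
      have e1 : |s| ≤ M := ((le_max_left _ _).trans hM0).trans hM'
      have e2 : |s'| ≤ M := ((le_max_right _ _).trans hM0).trans hM'
      obtain ⟨a1, a2⟩ := hσ s M e1
      obtain ⟨a3, a4⟩ := hσ s' M e2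
      exact ⟨⟨e1, e2⟩, a1.order pv hv a3 (by rw [a2, a4]; linarith)⟩
    refine le_antisymm ?_ ?_
    · refine mono_EndLine pv hF.nonneg hF.cvx (fun n => Z.q (-i n)) M0 fun M hM => ?_
      obtain ⟨⟨-, e2⟩, o1, -⟩ := ord M hM
      exact ⟨o1.symm pv, far s' M _ e2 (i2 M) (i3 M)⟩
    · refine mono_EndLine pv hF.nonneg hF.cvx (fun n => Z.q (k n)) M0 fun M hM => ?_
      obtain ⟨⟨e1, -⟩, -, o2⟩ := ord M hM
      exact ⟨o2, far s M _ e1 (k2 M) (k3 M)⟩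
  have hc : ∀ s, F (σ s) = F (σ 0) := by
    intro s
    rcases le_total s 0 with h | h
    · exact hconst s 0 h
    · exact (hconst 0 s h).symm
  have hpos : 0 < F (σ 0) := by
    refine lt_of_le_of_ne (hF.nonneg _) fun h0 => ?_
    refine hF.b1 (σ 0) (σ 1) h0.symm ((hc 1).trans h0.symm) ?_
    rw [hd]
    norm_num
  refine ⟨C, fun R hR => ?_⟩
  obtain ⟨P, hP⟩ := hF.b5l σ (F (σ 0)) hd hpos hc R
  obtain ⟨M, hM⟩ := exists_nat_ge R
  have z0 : |(0 : ℝ)| ≤ R := by rwa [abs_zero]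
  refine ⟨-i M, k M, c M, P, by have := i0 M; omega, k0 M, ?_, fun s hs => ?_⟩
  · rw [pv.congr'_E (hP 0 0 z0 z0).1]
    exact hσ0
  · obtain ⟨a1, a2⟩ := hP s 0 hs z0
    obtain ⟨a3, a4⟩ := hσ s M (hs.trans hM)
    refine ⟨a2, ?_, a3.of_zero pv (by rw [pv.symm]; exact a1)⟩
    rw [pv.congr'_E a1]
    exact a4

end Pool.Agent.E5f
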