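import Pool.Agent.E5f.EndG1

/-! From a bad geodesic to the abstract data. -/

set_option autoImplicit false

namespace Pool.Agent.E5f

variable {Q : Type} [MulAction G8 Q]

theorem FSide.neg_EndMk {dv dh : Q → Q → ℝ} {dg : G8 → ℤ} {P0 : Q}
    {FS FS' : (Q → ℝ) → ℝ → Prop} (h : FSide dv dh dg P0 FS) (h' : ∀ F z, FS' F z → FS F z) :
    FSide dv dh (fun γ => -dg γ) P0 FS' := by
  refine ⟨fun F z k => h.zero F z (h' F z k), fun F z k => h.cvx F z (h' F z k),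
    fun F z k => h.b1 F z (h' F z k), fun F z k => h.b5l F z (h' F z k), fun B => ?_⟩
  obtain ⟨R, hR⟩ := h.b5u B
  refine ⟨R, fun N => ?_⟩
  obtain ⟨L, η, h1, h2, h3⟩ := hR N
  refine ⟨L, η, h1, h2, fun F z k => ?_⟩
  simpa only [neg_eq_zero] using h3 F z (h' F z k)

theorem FClass.swap {S : Base Q} {q0 : Q} {FF : Set ((Q → ℝ) × (Q → ℝ))} (hF : FClass S q0 FF) :
    FClass S.swap q0 (Prod.swap '' FF) := by
  refine ⟨?_, ?_, fun q => ?_, hF.sideH.neg_EndMk ?_, hF.sideV.neg_EndMk ?_⟩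
  · rintro _ ⟨Φ, hΦ, rfl⟩ q
    exact (hF.nonneg Φ hΦ q).symm
  · rintro _ ⟨Φ, hΦ, rfl⟩ γ
    refine ⟨_, hF.inv Φ hΦ γ, ?_⟩
    simp only [Base.swap, neg_neg, Prod.swap]
  · obtain ⟨K, hK⟩ := hF.bound q
    refine ⟨K, ?_⟩
    rintro _ ⟨Φ, hΦ, rfl⟩
    have := hK Φ hΦ
    simp only [Prod.fst_swap, Prod.snd_swap]
    rwa [add_comm, add_comm (Φ.2 q0)]
  · rintro F z ⟨_, ⟨Φ, hΦ, rfl⟩, h1, h2⟩
    exact ⟨Φ, hΦ, h1, h2.trans (add_comm _ _)⟩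
  · rintro F z ⟨_, ⟨Φ, hΦ, rfl⟩, h1, h2⟩
    exact ⟨Φ, hΦ, h1, h2.trans (add_comm _ _)⟩

theorem exists_seq (S : Base Q) (q0 : Q) {h : ℕ} (A : Arith h) (γ : ℤ → SG h)
    (hγ : ∀ i j : ℤ, gd (cay (sgen h)) (γ i) (γ j) = |(i : ℝ) - (j : ℝ)|) (h0 : γ 0 = 1) :
    ∃ Z : Seq S, ∀ j, Z.q j = A.ι (γ j) • q0 ∧ Z.τ j = -S.dg (A.ι (γ j)) := by
  obtain ⟨K, hK⟩ := S.qie q0 A
  refine ⟨⟨fun j => A.ι (γ j) • q0, fun j => -S.dg (A.ι (γ j)), K,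
    by rw [h0, map_one, S.dg_one, neg_zero], fun i j => ?_, fun i j => ?_, fun C => ?_⟩,
    fun j => ⟨rfl, rfl⟩⟩
  · rw [← hγ]
    exact (hK (γ i) (γ j)).1
  · rw [← hγ]
    exact (hK (γ i) (γ j)).2
  · obtain ⟨n, hn⟩ := S.cl q0 A C
    exact ⟨n, fun g t t' i j h1 h2 => hγ i j ▸ hn g t t' (γ i) (γ j) h1 h2⟩

theorem fn_of_class {S : Base Q} {q0 : Q} {FF : Set ((Q → ℝ) × (Q → ℝ))} (hF : FClass S q0 FF)
    (g : ℤ → G8) (Z : Seq S) (hZ : ∀ j, Z.q j = g j • q0 ∧ Z.τ j = -S.dg (g j))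
    {Φ : (Q → ℝ) × (Q → ℝ)} (hΦ : Φ ∈ FF) (h1 : Φ.1 q0 + Φ.2 q0 = 1) {Θ : ℝ}
    (hΘ : ∀ j, ell S q0 Φ (g j) ≤ Θ) : Fn Z Φ.1 := by
  have hS : ∃ Φ' ∈ FF, Φ.1 = Φ'.1 ∧ (1 : ℝ) = Φ'.1 q0 + Φ'.2 q0 := ⟨Φ, hΦ, rfl, h1.symm⟩
  have ha : ∀ j, Z.a j = S.lam ^ (-S.dg (g j)) := fun j => by rw [Seq.a, (hZ j).2]
  refine ⟨fun q => (hF.nonneg Φ hΦ q).1, hF.sideV.zero _ _ hS, hF.sideV.cvx _ _ hS,
    fun p p' k1 k2 k3 => one_ne_zero (hF.sideV.b1 _ _ hS p p' k1 k2 k3), hF.sideV.b5l _ _ hS,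
    fun B => ?_, ⟨Θ, fun j => ?_⟩, ?_⟩
  · obtain ⟨R, hR⟩ := hF.sideV.b5u B
    refine ⟨R, fun N => ?_⟩
    obtain ⟨L, η, k1, k2, k3⟩ := hR N
    refine ⟨L, η, k1, k2,
      fun e U p0 p1 p2 p3 s hU a1 a2 a3 a4 a5 a6 a7 a8 a9 a10 a11 => ?_⟩
    obtain ⟨m, hm⟩ := S.exists_deg e
    generalize g8t ^ m = c at hm
    have hU0 : 0 < U := hU ▸ S.lam_pos e
    have hi : S.lam ^ (-S.dg c) = U⁻¹ := by rw [hm, zpow_neg, hU]
    have hv : ∀ p q, S.dv (c⁻¹ • p) (c⁻¹ • q) = S.dv p q / U := fun p q => by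
      rw [S.sv, S.dg_inv, hi, div_eq_inv_mul]
    have hv' : ∀ p q, S.dv (c • p) (c • q) = S.dv p q * U := fun p q => by
      rw [S.sv, hm, hU, mul_comm]
    obtain ⟨γ, -, b2, P, b3⟩ := k3 _ _ ⟨_, hF.inv Φ hΦ c, rfl, rfl⟩ (c⁻¹ • p0) (c⁻¹ • p1)
      (c⁻¹ • p2) (c⁻¹ • p3) s (by rw [hv, a1, div_self hU0.ne'])
      (by rw [hv, a2, mul_div_cancel_right₀ _ hU0.ne']) (by rw [hv, a3, div_self hU0.ne'])
      (by rw [hv, a4, mul_div_cancel_right₀ _ hU0.ne'])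
      (by rw [hv, a5, mul_div_cancel_right₀ _ hU0.ne'])
      (by rw [hv, a6, mul_div_cancel_right₀ _ hU0.ne'])
      (by rwa [S.sh, S.dg_inv, neg_neg, hm, ← hU]) a8
      (by
        simp only [smul_inv_smul, hi]
        rwa [← mul_sub, le_inv_mul_iff₀ hU0, mul_comm])
      (by
        simp only [smul_inv_smul, hi]
        rwa [← mul_sub, inv_mul_le_iff₀ hU0, mul_comm])
      (by
        simp only [smul_inv_smul, hi]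
        rwa [inv_mul_le_iff₀ hU0, mul_comm])
    refine ⟨c * γ, ?_, fun τ => c • P τ, fun τ t1 t2 => ?_⟩
    · rw [mul_smul, ← smul_inv_smul c p1, hv']
      exact mul_le_mul_of_nonneg_right b2 hU0.le
    · obtain ⟨c1, c2, c3⟩ := b3 τ t1 t2
      refine ⟨by rw [mul_smul, S.sh, c1, mul_zero], ?_, ?_⟩
      · rw [← smul_inv_smul c p1, hv', c2]
      · rw [← smul_inv_smul c p2, hv', c3]
  · rw [ha, (hZ j).1]
    exact (le_add_of_nonneg_right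
      (mul_nonneg (S.lam_pos _).le (hF.nonneg Φ hΦ _).2)).trans (hΘ j)
  · obtain ⟨qm, qp, c1, c2, c3, c4, c5⟩ := S.sideV.hor q0 1 zero_le_one
    have key : ∀ q, ∃ K : ℝ, ∀ k, Z.a k * Φ.1 (g k • q) ≤ K := fun q => by
      obtain ⟨K, hK⟩ := hF.bound q
      refine ⟨|K| * Θ, fun k => ?_⟩
      have e1 := hK _ (hF.inv Φ hΦ (g k))
      have e2 := hF.nonneg _ (hF.inv Φ hΦ (g k))
      have e3 : 0 ≤ ell S q0 Φ (g k) := add_nonneg (e2 q0).1 (e2 q0).2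
      rw [ha]
      exact ((le_add_of_nonneg_right (e2 q).2).trans e1).trans
        ((mul_le_mul_of_nonneg_right (le_abs_self K) e3).trans
          (mul_le_mul_of_nonneg_left (hΘ k) (abs_nonneg K)))
    obtain ⟨Km, hm⟩ := key qm
    obtain ⟨Kp, hp⟩ := key qp
    refine ⟨max Km Kp, fun k => ?_⟩
    have hd : ∀ q, S.dh q0 q = 0 → S.dv q0 q = 1 →
        S.dh (Z.q k) (g k • q) = 0 ∧ S.dv (Z.q k) (g k • q) = (Z.a k)⁻¹ := fun q e1 e2 => by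
      rw [(hZ k).1, S.sh, S.sv, e1, e2, ha, zpow_neg, inv_inv, mul_zero, mul_one]
      exact ⟨rfl, rfl⟩
    have ho : On S.dv (g k • qm) (Z.q k) (g k • qp) := by
      rw [On, (hZ k).1, S.sv, S.sv, S.sv, S.bi.pv.symm qm q0, c3, c4, c5]
      ring
    have hy := S.bi.hv (Z.q k) (g k • qm) (Z.q 0) (g k • qp)
    rw [S.bi.pv.on_iff.1 ho, sub_zero, min_le_iff] at hy
    rcases hy with hy | hy
    · rw [gp_symm_E S.bi.pv] at hy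
      exact ⟨_, ⟨(hd qm c1 c3).1, (hd qm c1 c3).2,
        S.bi.pv.on_iff.2 (le_antisymm hy (S.bi.pv.gp_nonneg_E _ _ _))⟩,
        (hm k).trans (le_max_left _ _)⟩
    · exact ⟨_, ⟨(hd qp c2 c4).1, (hd qp c2 c4).2,
        S.bi.pv.on_iff.2 (le_antisymm hy (S.bi.pv.gp_nonneg_E _ _ _))⟩,
        (hp k).trans (le_max_right _ _)⟩

end Pool.Agent.E5f
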