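import Pool.Agent.E5f.EndG2

/-! The last case: the functional has a definite slope. -/

set_option autoImplicit false

namespace Pool.Agent.E5f

variable {Q : Type} [MulAction G8 Q] {S : Base Q}


theorem back_of_down {Z : Seq S} {F : Q → ℝ} (hF : Fn Z F) {B : ℝ} (h : Z.swap.rev.Down B) :
    Z.Back F := by
  obtain ⟨Θ, hΘ⟩ := hF.bd
  refine ⟨B, fun ε hε => ?_⟩
  have hp : 0 < |Θ| + 1 := by positivity
  obtain ⟨k0, hk0⟩ := h.small (ε / (|Θ| + 1)) (by positivity)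
  refine ⟨-(max k0 0), by have := le_max_right k0 0; omega, ?_, ?_⟩
  · have h1 : Z.swap.a (-(max k0 0)) ≤ ε / (|Θ| + 1) := hk0 (max k0 0) (le_max_left _ _)
    rw [Z.a_swap] at h1
    have h2 := hΘ (-(max k0 0))
    have h3 := Z.a_pos (-(max k0 0))
    have h4 : F (Z.q (-(max k0 0))) ≤ (Z.a (-(max k0 0)))⁻¹ * (|Θ| + 1) := by
      rw [le_inv_mul_iff₀ h3]
      linarith [le_abs_self Θ]
    have h5 := mul_le_mul_of_nonneg_right h1 hp.le
    rw [div_mul_cancel₀ _ hp.ne'] at h5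
    linarith
  · have h1 := h.fh 0 (max k0 0) le_rfl (le_max_right _ _)
    rw [Seq.a_zero, mul_one] at h1
    exact h1

theorem slope_of_back {Z : Seq S} {F : Q → ℝ} (hF : Fn Z F) {B : ℝ} (h : Z.Down B)
    (hb : Z.Back F) : Z.Slope F := by
  obtain ⟨K1, hK⟩ := hF.ext
  choose q' hq hq1 using hK
  obtain ⟨B2, hB2⟩ := hb
  have pv := S.bi.pv
  have ph := S.bi.ph
  obtain ⟨C, hC0, hC⟩ := Z.mor_near 2
  have hgp : ∀ i k, i ≤ 0 → 0 ≤ k → gp S.dv (Z.q 0) (Z.q i) (q' k) ≤ C := by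
    intro i k hi hk
    obtain ⟨v, hv, hd⟩ := hC i 0 k (Z.X i) (q' k, Z.τ k) hi hk
      (by rw [S.dE_pm.self]; norm_num) (hq k).dE_le
    have h1 := (Z.of_D hd).1
    rw [Z.a_zero, one_mul] at h1
    exact (On.gp_le pv (show On S.dv (Z.q i) v (q' k) from hv.1) (Z.q 0)).trans h1
  have hM : 0 < C + 1 := by linarith
  obtain ⟨k1, hk1⟩ := h.small (C + 1)⁻¹ (inv_pos.2 hM)
  obtain ⟨k0, hk0, hk01⟩ : ∃ k0 : ℤ, 0 ≤ k0 ∧ k1 ≤ k0 :=
    ⟨max k1 0, le_max_right _ _, le_max_left _ _⟩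
  have hray := S.sideV.ray (Z.q 0) (fun n : ℕ => q' (k0 + n)) B (C + 1) hM.le
    (fun n => by
      have h1 := h.fh 0 (k0 + n) le_rfl (by omega)
      rw [Z.a_zero, mul_one] at h1
      rw [← ph.congr'_E (hq (k0 + n)).h0]
      exact h1)
    (fun n => by
      have h1 : S.dv (Z.q 0) (Z.q (k0 + n)) + S.dv (Z.q (k0 + n)) (q' (k0 + n)) =
        S.dv (Z.q 0) (q' (k0 + n)) := (hq (k0 + n)).on
      have h2 := (hq (k0 + n)).v1
      have h3 := hk1 (k0 + n) (by omega)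
      have h4 : C + 1 ≤ (Z.a (k0 + n))⁻¹ := by
        rw [le_inv_comm₀ hM (Z.a_pos _)]
        exact h3
      have h5 := pv.nonneg_E (Z.q 0) (Z.q (k0 + n))
      linarith)
  rcases hray with ⟨r, hr, hJ⟩ | ⟨γ, -, J, hJ, hB⟩
  · obtain ⟨r1, b1, d1⟩ := S.bi.geoV (Z.q 0) r (s := C + 1 / 2) (by linarith) (by linarith)
    have d2 : S.dv r1 r = 1 / 2 := by
      have := b1.1
      linarith
    have hon : ∀ i, i ≤ 0 → ∀ n : ℕ, On S.dv (Z.q 0) r (q' (k0 + n)) →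
        On S.dv (Z.q i) r (q' (k0 + n)) := fun i hi n hn =>
      On.tree_left pv S.bi.hv hn ((hgp i _ hi (by omega)).trans (by linarith))
    obtain ⟨n0, hn0⟩ := hJ.nonempty
    have hn0' : On S.dv (Z.q 0) r (q' (k0 + n0)) := hn0
    obtain ⟨t1, t2⟩ := On.trans_left pv (show On S.dv (Z.q 0) r1 r from b1.1) hn0'
    have hon1 : ∀ i, i ≤ 0 → On S.dv (Z.q i) r1 r := fun i hi =>
      (On.trans_right pv (On.tree_left pv S.bi.hv t1
        ((hgp i _ hi (by omega)).trans (by linarith))) t2).2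
    have hhalf : ∀ i, i ≤ 0 → 1 / 2 ≤ S.dv (Z.q i) r := fun i hi => by
      have h1 : S.dv (Z.q i) r1 + S.dv r1 r = S.dv (Z.q i) r := hon1 i hi
      have h2 := pv.nonneg_E (Z.q i) r1
      linarith
    have hpos : 0 < F r := by
      refine lt_of_le_of_ne (hF.nonneg r) fun h0 => ?_
      refine hF.b1 r1 r ?_ h0.symm (by rw [d2]; norm_num)
      refine le_antisymm (le_of_forall_pos_le_add fun ε hε => ?_) (hF.nonneg r1)
      obtain ⟨i, hi, hi1, -⟩ := hB2 ε hε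
      have h1 := hF.cvx _ _ _ (hon1 i hi)
      rw [← h0, d2, mul_zero, add_zero] at h1
      have h2 := mul_le_mul_of_nonneg_right (hhalf i hi) (hF.nonneg r1)
      linarith
    obtain ⟨i, hi, hi1, hi2⟩ := hB2 (F r / 2) (by linarith)
    have h1 : S.dv (Z.q i) r ≤ B2 + (C + 1) := by
      have a1 := pv.tri (Z.q i) (Z.q 0) r
      have a2 := pv.symm (Z.q i) (Z.q 0)
      linarith
    have h2 := hhalf i hi
    have h3 : 0 < B2 + (C + 1) := by linarith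
    refine ⟨K1, F r / 2 / (B2 + (C + 1)), Z.q i, r, by positivity, by linarith, ?_, fun k2 => ?_⟩
    · have a1 : 0 ≤ F r / 2 / (B2 + (C + 1)) := by positivity
      have a2 := mul_le_mul_of_nonneg_left h1 a1
      rw [div_mul_cancel₀ _ h3.ne'] at a2
      linarith
    · obtain ⟨n, hn, hn1⟩ := hJ.exists_gt (k2 - k0).toNat
      have hn' : On S.dv (Z.q 0) r (q' (k0 + n)) := hn
      exact ⟨k0 + n, q' (k0 + n), by omega, hq _, hq1 _, hn', hon i hi n hn'⟩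
  · exfalso
    obtain ⟨C2, -, hC2⟩ := Z.mor_conv 2
    obtain ⟨n, hn⟩ := Z.cl (C2 + 1)
    have key : ∀ k ∈ J, ∀ l ∈ J, k < l → ∃ j : ℤ, k0 + k ≤ j ∧ j ≤ k0 + l ∧
        S.dE (γ • S.P0, Z.τ j) (Z.q j, Z.τ j) ≤ C2 + 1 := by
      intro k hk l hl hkl
      obtain ⟨j, j1, j2, j3⟩ := hC2 (k0 + k) (k0 + l) (q' (k0 + k), Z.τ (k0 + k))
        (q' (k0 + l), Z.τ (k0 + l)) (γ • S.P0) (by omega) (hq _).dE_le (hq _).dE_le
        (hB k hk l hl hkl.ne)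
      refine ⟨j, j1, j2, (S.dE_fib _ _ _).trans ?_⟩
      rw [(S.D_pm _).symm]
      linarith
    obtain ⟨a1, ha1⟩ := hJ.nonempty
    obtain ⟨l1, hl1, hl1'⟩ := hJ.exists_gt a1
    obtain ⟨a2, ha2, ha2'⟩ := hJ.exists_gt (l1 + ⌈n⌉₊)
    obtain ⟨l2, hl2, hl2'⟩ := hJ.exists_gt a2
    obtain ⟨j1, u1, u2, u3⟩ := key a1 ha1 l1 hl1 hl1'
    obtain ⟨j2, w1, w2, w3⟩ := key a2 ha2 l2 hl2 hl2'
    have h1 := hn γ _ _ j2 j1 w3 u3
    have h2 : (j1 + (⌈n⌉₊ : ℕ) + 1 : ℤ) ≤ j2 := by omega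
    have h3 : (j1 : ℝ) + (⌈n⌉₊ : ℕ) + 1 ≤ j2 := by exact_mod_cast h2
    have h4 := Nat.le_ceil n
    have h5 := le_abs_self ((j2 : ℝ) - j1)
    linarith

end Pool.Agent.E5f
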