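import Pool.Agent.E5f.EndG2
import Pool.Agent.E5f.EndThin
import Pool.Agent.E5f.EndG5

/-! There are no long flat strips along the sequence. -/

set_option autoImplicit false

namespace Pool.Agent.E5f

variable {Q : Type} [MulAction G8 Q] {S : Base Q}


theorem Seq.not_strip (Z : Seq S) : ¬ Z.Strip := by
  rintro ⟨C0, hS⟩
  have pv := S.bi.pv
  have ph := S.bi.ph
  obtain ⟨C, hC, h1⟩ := Z.mor_near 0
  obtain ⟨C', -, h2⟩ := Z.swap.mor_gp C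
  obtain ⟨T, -, h3⟩ := S.swap.thin C'
  obtain ⟨L, hL, h4⟩ := S.g5
  have hΛ := S.lam_pos T
  have hε : 0 < S.lam ^ (-T) / 2 := half_pos (S.lam_pos _)
  obtain ⟨m, hm, hm'⟩ : ∃ m : ℝ, 0 < m ∧ L ≤ S.lam ^ (-T) / 2 * m :=
    ⟨L / (S.lam ^ (-T) / 2), div_pos hL hε, (mul_div_cancel₀ _ hε.ne').ge⟩
  have hC0 := abs_nonneg C0
  have hC1 := le_abs_self C0
  obtain ⟨R, hR⟩ : ∃ R, R = |C0| + C + S.lam ^ T + m := ⟨_, rfl⟩
  have hR0 : 0 ≤ R := by linarith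
  obtain ⟨i, k, c, P, hi, hk, p0, hP⟩ := hS R hR0
  obtain ⟨v, hv, hD⟩ := h1 i 0 k (Z.X i) (Z.X k) hi hk (S.dE_pm.self _).le (S.dE_pm.self _).le
  change Btw S.dv S.dh (Z.q i) v (Z.q k) at hv
  have d0 := (Z.of_D hD).1
  rw [Z.a_zero, one_mul] at d0
  have near : ∀ (w : Q) (s : ℝ), Btw S.dv S.dh (Z.q i) w (Z.q k) → S.dv (Z.q i) w = c + s →
      -R ≤ s - m → s + m ≤ R → S.dh w (P 0) ≤ S.lam ^ (-T) / 2 := by
    intro w s hw e a b
    obtain ⟨a1, a2, a3⟩ := hP (s - m) (abs_le.2 ⟨a, by linarith⟩)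
    obtain ⟨b1, b2, b3⟩ := hP s (abs_le.2 ⟨by linarith, by linarith⟩)
    obtain ⟨c1, c2, c3⟩ := hP (s + m) (abs_le.2 ⟨by linarith, b⟩)
    rw [← ph.congr'_E b1]
    exact h4 _ _ w _ _ _ m _ hε hm' hw a3 b3 c3 (by linarith) (by linarith) (by linarith)
      (by rw [ph.congr_E a1, ph.symm, b1]) (by rw [ph.congr_E b1, ph.symm, c1])
  have e0 := (hP 0 (by rwa [abs_zero])).2.1
  obtain ⟨-, e1, e2⟩ := hP R (abs_of_nonneg hR0).le
  have e3 := (hP (-R) (by rw [abs_neg, abs_of_nonneg hR0])).2.1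
  have t1 := pv.tri (Z.q i) (P 0) v
  have t2 := pv.tri (Z.q i) v (P 0)
  have t3 := pv.tri v (Z.q 0) (P 0)
  have s1 := pv.symm v (Z.q 0)
  have s2 := pv.symm v (P 0)
  have s3 := pv.symm v (Z.q i)
  have n1 := pv.nonneg_E (P R) (Z.q k)
  have n2 := pv.nonneg_E (Z.q i) (P (-R))
  have v1 := hv.1
  unfold On at e2
  obtain ⟨vp, bp, dp⟩ := S.bi.geoV v (Z.q k) hΛ.le (by linarith)
  obtain ⟨vm, bm, dm⟩ := S.bi.geoV v (Z.q i) hΛ.le (by linarith)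
  obtain ⟨p1, p2, -⟩ := hv.trans_right S.bi bp
  have m1 := ((bm.symm_E S.bi).trans_left S.bi hv).1
  have m2 := (bm.symm_E S.bi).1
  have s4 := pv.symm v vm
  have q0 := near v (S.dv (Z.q i) v - c) hv (by ring) (by linarith) (by linarith)
  have q1 := near vp (S.dv (Z.q i) v - c + S.lam ^ T) p1 (by linarith) (by linarith) (by linarith)
  have q2 := near vm (S.dv (Z.q i) v - c - S.lam ^ T) m1 (by linarith) (by linarith) (by linarith)
  have up : ∀ (u : Q) (X : Q × ℤ), Btw S.dv S.dh v u X.1 → S.dv v u = S.lam ^ T →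
      S.dh u (P 0) ≤ S.lam ^ (-T) / 2 → S.swap.Up v (Z.swap.τ 0) T X := by
    intro u X a b e
    have t4 := ph.tri v (P 0) u
    have s5 := ph.symm u (P 0)
    rw [Z.swap.τ0]
    refine .inl ⟨u, a.swap_E, ?_, ?_⟩
    · rw [zero_add]
      exact b.ge
    · rw [zero_add]
      change S.dh v u ≤ S.lam ^ (-T)
      linarith
  refine h3 v (Z.swap.τ 0) T (Z.swap.X i) (Z.swap.X k) le_rfl
    (h2 i 0 k _ _ v hi hk ((S.swap.dE_pm.self _).trans_le hC) ((S.swap.dE_pm.self _).trans_le hC) ?_)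
    (up vm _ bm dm q2) (up vp _ bp dp q1)
  rw [S.D_swap]
  change S.D (- -Z.τ 0) (Z.q 0) v ≤ C
  rwa [neg_neg]

end Pool.Agent.E5f
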