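import Pool.Agent.E5f.EndG2
import Pool.Agent.E5f.EndThin

/-! Both ends good, one of them going up. -/

set_option autoImplicit false

namespace Pool.Agent.E5f

variable {Q : Type} [MulAction G8 Q] {S : Base Q}

theorem near_EndUp (Z : Seq S) : ∃ C : ℝ, 0 ≤ C ∧ ∀ i j k : ℤ, i ≤ j → j ≤ k →
    ∃ v, On S.dv (Z.q i) v (Z.q k) ∧ S.D (Z.τ j) (Z.q j) v ≤ C := by
  obtain ⟨C, hC0, hC⟩ := Z.mor_near 0
  refine ⟨C, hC0, fun i j k h1 h2 => ?_⟩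
  obtain ⟨v, hv, hv'⟩ := hC i j k (Z.X i) (Z.X k) h1 h2 (S.dE_pm.self _).le (S.dE_pm.self _).le
  exact ⟨v, hv.1, hv'⟩

/-- Two high points on opposite sides of the origin are not close in the first tree. -/
theorem high_EndUp (Z : Seq S) : ∃ T0 : ℤ, ∀ i k : ℤ, i ≤ 0 → 0 ≤ k → T0 ≤ Z.τ i → T0 ≤ Z.τ k →
    S.lam ^ (-T0) < S.dv (Z.q i) (Z.q k) := by
  obtain ⟨C, hC0, hC⟩ := near_EndUp Z
  obtain ⟨C', -, hC'⟩ := Z.mor_gp C
  obtain ⟨T0, -, hT⟩ := S.thin C'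
  refine ⟨T0, fun i k hi hk h1 h2 => not_le.1 fun h3 => ?_⟩
  obtain ⟨v, hv, hv'⟩ := hC i 0 k hi hk
  have t1 := S.bi.pv.nonneg_E (Z.q i) v
  have t2 := S.bi.pv.nonneg_E v (Z.q k)
  have t3 := S.bi.pv.symm v (Z.q i)
  simp only [On] at hv
  refine hT v (Z.τ 0) T0 (Z.X i) (Z.X k) le_rfl
    (hC' i 0 k _ _ v hi hk ((S.dE_pm.self _).trans_le hC0) ((S.dE_pm.self _).trans_le hC0) hv')
    (Or.inr ?_) (Or.inr ?_)
  · rw [Z.τ0, zero_add]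
    exact ⟨show S.dv v (Z.q i) ≤ _ by linarith, h1⟩
  · rw [Z.τ0, zero_add]
    exact ⟨show S.dv v (Z.q k) ≤ _ by linarith, h2⟩

theorem far_EndUp (Z : Seq S) {M : ℝ} (hM : 0 ≤ M) : ∃ L N A1 c : ℝ, 0 < A1 ∧ 0 < c ∧
    ∀ i k : ℤ, i ≤ 0 → 0 ≤ k → L ≤ Z.a i → S.dv (Z.q 0) (Z.q i) ≤ M →
      N ≤ Z.a k * (1 + S.dv (Z.q 0) (Z.q k)) →
      A1 ≤ S.dv (Z.q i) (Z.q k) ∧ 1 + S.dv (Z.q 0) (Z.q k) ≤ c * S.dv (Z.q i) (Z.q k) := by
  obtain ⟨T0, hT⟩ := high_EndUp Z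
  have hA : 0 < min 1 (S.lam ^ (-T0)) := lt_min one_pos (S.lam_pos _)
  have hq : 0 ≤ (1 + M) / min 1 (S.lam ^ (-T0)) := by positivity
  refine ⟨S.lam ^ T0, S.lam ^ T0 * (2 + M), _, 1 + (1 + M) / min 1 (S.lam ^ (-T0)), hA,
    by linarith, fun i k hi hk h1 h2 h3 => ?_⟩
  have t1 := S.bi.pv.tri (Z.q 0) (Z.q i) (Z.q k)
  have h4 : min 1 (S.lam ^ (-T0)) ≤ S.dv (Z.q i) (Z.q k) := by
    by_cases h5 : T0 ≤ Z.τ k
    · exact (min_le_right _ _).trans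
        (hT i k hi hk ((zpow_le_zpow_iff_right₀ S.lam1).1 h1) h5).le
    · have h6 : Z.a k ≤ S.lam ^ T0 := S.lam_mono (not_le.1 h5).le
      have h7 := S.bi.pv.nonneg_E (Z.q 0) (Z.q k)
      have h8 := le_of_mul_le_mul_left
        (h3.trans (mul_le_mul_of_nonneg_right h6 (by linarith))) (S.lam_pos T0)
      exact (min_le_left _ _).trans (by linarith)
  refine ⟨h4, ?_⟩
  have h9 := mul_le_mul_of_nonneg_left h4 hq
  rw [div_mul_cancel₀ _ hA.ne'] at h9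
  linarith

theorem caseUp {Z : Seq S} {F : Q → ℝ} (hF : Fn Z F) (h1 : Z.rev.UpE) (h2 : Z.FGood) : False := by
  have hp := S.bi.pv
  obtain ⟨M, hM0⟩ := h1
  have hM : ∀ (A : ℝ) (i0 : ℤ), ∃ i, i ≤ i0 ∧ A ≤ Z.a i ∧ S.dv (Z.q 0) (Z.q i) ≤ M := by
    intro A i0
    obtain ⟨k, a1, a2, a3⟩ := hM0 A (-i0)
    exact ⟨-k, by omega, a2, a3⟩
  have hMn : 0 ≤ M := by
    obtain ⟨i, -, -, a3⟩ := hM 0 0
    exact (hp.nonneg_E _ _).trans a3
  obtain ⟨Θ, hΘ⟩ := hF.bd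
  obtain ⟨C, hC0, hC⟩ := near_EndUp Z
  obtain ⟨L, N, A1, c, hA1, hc, hfar⟩ := far_EndUp Z hMn
  obtain ⟨i, hi, hi1, hi2⟩ := hM (max L (3 * C / A1)) 0
  obtain ⟨k, hk, hk1⟩ := h2 (max N (c * (3 * C))) 0
  obtain ⟨hA, hAc⟩ := hfar i k hi hk (le_of_max_le_left hi1) hi2 (le_of_max_le_left hk1)
  have e1 : C ≤ Z.a i * (S.dv (Z.q i) (Z.q k) / 3) := by
    have t1 := (div_le_iff₀ hA1).1 (le_of_max_le_right hi1)
    have t2 := mul_le_mul_of_nonneg_left hA (Z.a_pos i).le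
    linarith
  have e2 : C ≤ Z.a k * (S.dv (Z.q i) (Z.q k) / 3) := by
    have t1 := (le_of_max_le_right hk1).trans (mul_le_mul_of_nonneg_left hAc (Z.a_pos k).le)
    rw [mul_left_comm (Z.a k)] at t1
    have t2 := le_of_mul_le_mul_left t1 hc
    linarith
  have key : ∀ r, On S.dv (Z.q i) r (Z.q k) → S.dv (Z.q i) (Z.q k) / 3 ≤ S.dv (Z.q i) r →
      S.dv (Z.q i) (Z.q k) / 3 ≤ S.dv (Z.q k) r → F r = 0 := by
    intro r hr hr1 hr2
    refine le_antisymm (le_of_forall_pos_le_add fun ε hε => ?_) (hF.nonneg r)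
    have hW : 0 ≤ M + S.dv (Z.q 0) r := add_nonneg hMn (hp.nonneg_E _ _)
    obtain ⟨i', hi', hi1', hi2'⟩ := hM (max L (2 * Θ / ε)) i
    obtain ⟨k', hk', hk1'⟩ := h2 (max N (c * (2 * ((M + S.dv (Z.q 0) r) * Θ) / ε))) k
    obtain ⟨hA', hAc'⟩ := hfar i' k' (hi'.trans hi) (hk.trans hk') (le_of_max_le_left hi1') hi2'
      (le_of_max_le_left hk1')
    obtain ⟨v1, a1, a2⟩ := hC i' i k' hi' (hi.trans (hk.trans hk'))
    obtain ⟨v2, b1, b2⟩ := hC i' k k' (hi'.trans (hi.trans hk)) hk'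
    have a3 := le_of_mul_le_mul_left ((Z.of_D a2).1.trans e1) (Z.a_pos i)
    have b3 := le_of_mul_le_mul_left ((Z.of_D b2).1.trans e2) (Z.a_pos k)
    have hon : On S.dv (Z.q i') r (Z.q k') := hr.tree hp S.bi.hv
      ((a1.gp_le hp _).trans (a3.trans hr1)) ((b1.gp_le hp _).trans (b3.trans hr2))
    have c1 := hF.cvx _ _ _ hon
    have c2 : F (Z.q i') ≤ ε / 2 := by
      have t1 := (div_le_iff₀ hε).1 (le_of_max_le_right hi1')
      have t2 := hΘ i'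
      exact le_of_mul_le_mul_left (by linarith) (Z.a_pos i')
    have c3 : (M + S.dv (Z.q 0) r) * F (Z.q k') ≤ S.dv (Z.q i') (Z.q k') * (ε / 2) := by
      have t1 := (le_of_max_le_right hk1').trans (mul_le_mul_of_nonneg_left hAc' (Z.a_pos k').le)
      rw [mul_left_comm (Z.a k')] at t1
      have t2 := (div_le_iff₀ hε).1 (le_of_mul_le_mul_left t1 hc)
      have t3 := mul_le_mul_of_nonneg_left (hΘ k') hW
      exact le_of_mul_le_mul_left (by linarith) (Z.a_pos k')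
    have c4 : S.dv r (Z.q k') ≤ S.dv (Z.q i') (Z.q k') := by
      have t1 := hp.nonneg_E (Z.q i') r
      simp only [On] at hon
      linarith
    have c5 : S.dv (Z.q i') r ≤ M + S.dv (Z.q 0) r := by
      have t1 := hp.tri (Z.q i') (Z.q 0) r
      have t2 := hp.symm (Z.q i') (Z.q 0)
      linarith
    have c6 := mul_le_mul c4 c2 (hF.nonneg _) (hp.nonneg_E _ _)
    have c7 := mul_le_mul_of_nonneg_right c5 (hF.nonneg (Z.q k'))
    exact le_of_mul_le_mul_left (by linarith) (hA1.trans_le hA')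
  have hA0 : 0 < S.dv (Z.q i) (Z.q k) := hA1.trans_le hA
  obtain ⟨r1, p1, p2⟩ := S.bi.geoV (Z.q i) (Z.q k) (s := S.dv (Z.q i) (Z.q k) / 3)
    (by linarith) (by linarith)
  obtain ⟨r2, q1, q2⟩ := S.bi.geoV (Z.q i) (Z.q k) (s := 2 * S.dv (Z.q i) (Z.q k) / 3)
    (by linarith) (by linarith)
  have p3 := p1.1
  have q3 := q1.1
  have p4 := hp.symm (Z.q k) r1
  have q4 := hp.symm (Z.q k) r2
  have t1 := hp.tri (Z.q i) r1 r2
  exact hF.b1 r1 r2 (key r1 p1.1 (by linarith) (by linarith))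
    (key r2 q1.1 (by linarith) (by linarith)) (by linarith)

end Pool.Agent.E5f
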