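import Pool.Agent.E5f.HypMorse
import Pool.Agent.E5f.HypGuess

/-! Quasi-isometric embeddings, Cayley graphs, the Svarc-Milnor lemma. -/

set_option autoImplicit false

namespace Pool.Agent.E5f

theorem gd_nonneg_HypQI {V : Type} (G : SimpleGraph V) (x y : V) : 0 ≤ gd G x y :=
  Nat.cast_nonneg _

theorem gseg_le_HypQI {V : Type} {G : SimpleGraph V} {γ : ℕ → V} {n i j : ℕ} (h : GSeg G γ n)
    (hij : i ≤ j) (hj : j ≤ n) : gd G (γ i) (γ j) = (j : ℝ) - i := by
  have h1 : (i : ℝ) ≤ j := by exact_mod_cast hij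
  rw [h i j (hij.trans hj) hj, abs_sub_comm, abs_of_nonneg (by linarith)]

/-- A geodesic through a given point between the end points. -/
theorem gseg_through_HypQI {V : Type} {G : SimpleGraph V} (hG : G.Connected) {x y p : V}
    (h : gd G x p + gd G p y = gd G x y) :
    ∃ (γ : ℕ → V) (a n : ℕ), a ≤ n ∧ γ 0 = x ∧ γ a = p ∧ γ n = y ∧ GSeg G γ n := by
  obtain ⟨γ1, h10, h11, h12, -⟩ := gseg_ex hG x p
  obtain ⟨γ2, h20, h21, h22, -⟩ := gseg_ex hG p y
  have hpm := gd_pm hG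
  set a := G.dist x p with ha
  set b := G.dist p y with hb
  have hxy : gd G x y = (a : ℝ) + b := h.symm
  let γ : ℕ → V := fun i => if i ≤ a then γ1 i else γ2 (i - a)
  have e1 : ∀ i, i ≤ a → γ i = γ1 i := fun i hi => if_pos hi
  have e2 : ∀ i, γ (a + i) = γ2 i := by
    intro i
    rcases Nat.eq_zero_or_pos i with rfl | hi
    · rw [Nat.add_zero, e1 a le_rfl, h11, h20]
    · have h1 : ¬ a + i ≤ a := by omega
      simp only [γ, if_neg h1, Nat.add_sub_cancel_left]
  have key : ∀ i j : ℕ, i ≤ j → j ≤ a + b → gd G (γ i) (γ j) = (j : ℝ) - i := by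
    intro i j hij hj
    by_cases h1 : j ≤ a
    · rw [e1 i (hij.trans h1), e1 j h1, gseg_le_HypQI h12 hij h1]
    obtain ⟨j', rfl⟩ : ∃ j', j = a + j' := ⟨j - a, by omega⟩
    have hj' : j' ≤ b := by omega
    by_cases h2 : a ≤ i
    · obtain ⟨i', rfl⟩ : ∃ i', i = a + i' := ⟨i - a, by omega⟩
      rw [e2, e2, gseg_le_HypQI h22 (by omega) hj']
      push_cast
      ring
    · have hi : i ≤ a := by omega
      rw [e1 i hi, e2]
      have t1 := gseg_le_HypQI h12 hi le_rfl
      have t2 := gseg_le_HypQI h22 (Nat.zero_le j') hj'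
      have t3 := gseg_le_HypQI h12 (Nat.zero_le i) hi
      have t4 := gseg_le_HypQI h22 hj' le_rfl
      rw [h11] at t1
      rw [h20] at t2
      rw [h10] at t3
      rw [h21] at t4
      have t5 := hpm.tri (γ1 i) p (γ2 j')
      have t6 := hpm.tri x (γ1 i) y
      have t7 := hpm.tri (γ1 i) (γ2 j') y
      push_cast at t2 t3 ⊢
      linarith
  refine ⟨γ, a, a + b, Nat.le_add_right _ _, by rw [e1 0 (Nat.zero_le _), h10],
    by rw [e1 a le_rfl, h11], by rw [e2, h21], fun i j hi hj => ?_⟩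
  rcases le_total i j with hij | hij
  · have h1 : (i : ℝ) ≤ j := by exact_mod_cast hij
    rw [key i j hij hj, abs_sub_comm, abs_of_nonneg (by linarith)]
  · have h1 : (j : ℝ) ≤ i := by exact_mod_cast hij
    rw [hpm.symm, key j i hij hi, abs_of_nonneg (by linarith)]

theorem qg_HypQI {V W : Type} {G : SimpleGraph V} {G' : SimpleGraph W} {K : ℝ} {f : V → W}
    (hf : QIE G G' f K) {γ : ℕ → V} {n : ℕ} (h : GSeg G γ n) :
    QG (gd G') K (fun i => f (γ i)) n := by
  intro i j hi hj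
  rw [← h i j hi hj]
  exact hf _ _

theorem hyp_of_qie {V W : Type} {G : SimpleGraph V} {G' : SimpleGraph W} (hG : G.Connected)
    (hG' : G'.Connected) {δ K : ℝ} (hh : Hyp (gd G') δ) {f : V → W} (hf : QIE G G' f K) :
    ∃ δ', Hyp (gd G) δ' := by
  obtain ⟨C1, hC1⟩ := morse_a δ 1 K
  obtain ⟨C2, hC2⟩ := morse_b δ 1 K (C1 + δ)
  have hpm := gd_pm hG
  have hpm' := gd_pm hG'
  have hrg' := gd_rg hG'
  have near : ∀ x z p, gp (gd G') (f p) (f x) (f z) ≤ C1 + δ →
      ∃ q, gd G x q + gd G q z = gd G x z ∧ gd G p q ≤ K * C2 + K := by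
    intro x z p hp
    obtain ⟨γ, h0, h1, h2, -⟩ := gseg_ex hG x z
    obtain ⟨j, hj, hd⟩ := hC2 (gd G') hpm' hh hrg' _ _ (qg_HypQI hf h2) (f p)
      (by simpa only [h0, h1] using hp)
    have hK : 0 ≤ K := by
      have h3 := (hf x x).2
      rw [hpm.self, hpm'.self] at h3
      linarith
    refine ⟨γ j, ?_, (hf p (γ j)).2.trans ?_⟩
    · have t1 := gseg_le_HypQI h2 (Nat.zero_le j) hj
      have t2 := gseg_le_HypQI h2 hj le_rfl
      rw [h0] at t1
      rw [h1] at t2
      rw [t1, t2, gd]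
      push_cast
      ring
    · have t3 := mul_le_mul_of_nonneg_left hd hK
      linarith
  refine ⟨_, hyp_of_slim hG (K * C2 + K) fun x y z p hp => ?_⟩
  obtain ⟨γ, a, n, han, h0, ha, hn, hγ⟩ := gseg_through_HypQI hG hp
  have h1 := hC1 (gd G') hpm' hh hrg' _ _ (qg_HypQI hf hγ) 0 a n (Nat.zero_le _) han le_rfl
  simp only [h0, ha, hn] at h1
  have h2 := hh (f p) (f x) (f z) (f y)
  rcases min_le_iff.1 (show min (gp (gd G') (f p) (f x) (f z)) (gp (gd G') (f p) (f z) (f y)) ≤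
      C1 + δ by linarith) with h3 | h3
  · obtain ⟨q, hq, hq'⟩ := near x z p h3
    exact ⟨q, Or.inl hq, hq'⟩
  · have h4 : gp (gd G') (f p) (f y) (f z) = gp (gd G') (f p) (f z) (f y) := by
      rw [gp, gp, hpm'.symm (f y) (f z), add_comm]
    obtain ⟨q, hq, hq'⟩ := near y z p (h4.trans_le h3)
    exact ⟨q, Or.inr hq, hq'⟩

theorem wev_cons_HypQI {G ι : Type} [Group G] (s : ι → G) (e : ι × Bool) (l : List (ι × Bool)) :
    wev s (e :: l) = (if e.2 = true then s e.1 else (s e.1)⁻¹) * wev s l := by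
  rw [wev, List.map_cons, List.prod_cons, wev]

theorem wev_nil_HypQI {G ι : Type} [Group G] (s : ι → G) : wev s [] = 1 := rfl

theorem step_HypQI {G ι : Type} [Group G] (s : ι → G) (e : ι × Bool) (g : G) :
    g = g * (if e.2 = true then s e.1 else (s e.1)⁻¹) ∨
      (cay s).Adj g (g * (if e.2 = true then s e.1 else (s e.1)⁻¹)) := by
  by_cases h : g = g * (if e.2 = true then s e.1 else (s e.1)⁻¹)
  · exact Or.inl h
  · refine Or.inr ⟨h, e.1, ?_⟩
    split_ifs
    · exact Or.inl rfl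
    · exact Or.inr (by rw [inv_mul_cancel_right])

theorem walk_HypQI {G ι : Type} [Group G] (s : ι → G) (l : List (ι × Bool)) (g : G) :
    ∃ p : (cay s).Walk g (g * wev s l), p.length ≤ l.length := by
  induction l generalizing g with
  | nil =>
    rw [wev_nil_HypQI, mul_one]
    exact ⟨SimpleGraph.Walk.nil, le_rfl⟩
  | cons e l ih =>
    rw [wev_cons_HypQI, ← mul_assoc]
    rcases step_HypQI s e g with h | h
    · rw [← h]
      obtain ⟨p, hp⟩ := ih g
      exact ⟨p, hp.trans (Nat.le_succ _)⟩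
    · obtain ⟨p, hp⟩ := ih (g * (if e.2 = true then s e.1 else (s e.1)⁻¹))
      exact ⟨SimpleGraph.Walk.cons h p, Nat.succ_le_succ hp⟩

theorem word_HypQI {G ι : Type} [Group G] (s : ι → G) {g h : G} (p : (cay s).Walk g h) :
    ∃ l : List (ι × Bool), l.length = p.length ∧ wev s l = g⁻¹ * h := by
  induction p with
  | nil => exact ⟨[], rfl, by rw [wev_nil_HypQI, inv_mul_cancel]⟩
  | cons h p ih =>
    obtain ⟨l, hl, hw⟩ := ih
    obtain ⟨-, i, hi | hi⟩ := h
    · refine ⟨(i, true) :: l, congrArg Nat.succ hl, ?_⟩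
      rw [wev_cons_HypQI, hw, hi, if_pos rfl]
      group
    · refine ⟨(i, false) :: l, congrArg Nat.succ hl, ?_⟩
      rw [wev_cons_HypQI, hw, hi, if_neg (by simp)]
      group

theorem wl_le_HypQI {G ι : Type} [Group G] (s : ι → G) (l : List (ι × Bool)) :
    wl s (wev s l) ≤ l.length :=
  Nat.sInf_le ⟨l, rfl, rfl⟩

theorem wl_ex_HypQI {G ι : Type} [Group G] {s : ι → G} (hs : Gens s) (g : G) :
    ∃ l : List (ι × Bool), l.length = wl s g ∧ wev s l = g := by
  obtain ⟨l, hl⟩ := hs g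
  exact Nat.sInf_mem (s := {m : ℕ | ∃ l : List (ι × Bool), l.length = m ∧ wev s l = g})
    ⟨_, l, rfl, hl⟩

theorem cay_conn {G ι : Type} [Group G] {s : ι → G} (hs : Gens s) : (cay s).Connected := by
  have : Nonempty G := ⟨1⟩
  refine ⟨fun g h => ?_⟩
  obtain ⟨l, hl⟩ := hs (g⁻¹ * h)
  obtain ⟨p, -⟩ := walk_HypQI s l g
  rw [hl, mul_inv_cancel_left] at p
  exact ⟨p⟩

theorem cay_dist {G ι : Type} [Group G] {s : ι → G} (hs : Gens s) (g h : G) :
    gd (cay s) g h = (wl s (g⁻¹ * h) : ℝ) := by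
  rw [gd, Nat.cast_inj]
  apply le_antisymm
  · obtain ⟨l, hl, hw⟩ := wl_ex_HypQI hs (g⁻¹ * h)
    obtain ⟨p, hp⟩ := walk_HypQI s l g
    have h1 := (SimpleGraph.dist_le p).trans hp
    rwa [hw, mul_inv_cancel_left, hl] at h1
  · obtain ⟨p, hp⟩ := (cay_conn hs).exists_walk_length_eq_dist g h
    obtain ⟨l, hl, hw⟩ := word_HypQI s p
    rw [← hw, ← hp, ← hl]
    exact wl_le_HypQI s l

theorem fourPt_of_hyp {G ι : Type} [Group G] {s : ι → G} (hs : Gens s) {δ : ℝ}
    (hh : Hyp (gd (cay s)) δ) : FourPt s := by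
  refine ⟨⌈δ⌉₊, fun x y z w => ?_⟩
  have hpm := gd_pm (cay_conn hs)
  have h1 := hh w x z y
  have h2 := Nat.le_ceil δ
  have h3 : gd (cay s) x y + gd (cay s) z w ≤
      max (gd (cay s) x z + gd (cay s) y w) (gd (cay s) x w + gd (cay s) y z) + 2 * ⌈δ⌉₊ := by
    have h4 := le_max_left (gd (cay s) x z + gd (cay s) y w) (gd (cay s) x w + gd (cay s) y z)
    have h5 := le_max_right (gd (cay s) x z + gd (cay s) y w) (gd (cay s) x w + gd (cay s) y z)
    have h6 := hpm.symm z y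
    rcases min_le_iff.1 (sub_le_iff_le_add.1 h1) with h7 | h7
    · simp only [gp] at h7
      linarith
    · simp only [gp] at h7
      linarith
  simp only [cay_dist hs] at h3
  exact_mod_cast h3

theorem svarc {G V : Type} [Group G] [MulAction G V] (Gr : SimpleGraph V) (hc : Gr.Connected)
    (hadj : ∀ (g : G) X Y, Gr.Adj X Y → Gr.Adj (g • X) (g • Y)) (X0 : V) (R : ℝ)
    (hco : ∀ X, ∃ g : G, gd Gr (g • X0) X ≤ R)
    (hpr : ∀ C : ℝ, {g : G | gd Gr X0 (g • X0) ≤ C}.Finite) :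
    ∃ (n : ℕ) (s : Fin n → G) (K : ℝ), Gens s ∧ QIE (cay s) Gr (fun g => g • X0) K := by
  have hpm := gd_pm hc
  have hR : 0 ≤ R := by
    obtain ⟨g, hg⟩ := hco X0
    exact (gd_nonneg_HypQI _ _ _).trans hg
  have inv1 : ∀ (g : G) X Y, Gr.dist (g • X) (g • Y) ≤ Gr.dist X Y := by
    intro g X Y
    obtain ⟨p, hp⟩ := hc.exists_walk_length_eq_dist X Y
    let F : Gr →g Gr := ⟨fun X => g • X, fun h => hadj g _ _ h⟩
    have h1 := SimpleGraph.dist_le (p.map F)
    rw [SimpleGraph.Walk.length_map, hp] at h1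
    exact h1
  have inv : ∀ (g : G) X Y, gd Gr (g • X) (g • Y) = gd Gr X Y := by
    intro g X Y
    rw [gd, gd, Nat.cast_inj]
    refine le_antisymm (inv1 g X Y) ?_
    have h1 := inv1 g⁻¹ (g • X) (g • Y)
    rwa [inv_smul_smul, inv_smul_smul] at h1
  have inv2 : ∀ g h : G, gd Gr X0 ((g⁻¹ * h) • X0) = gd Gr (g • X0) (h • X0) := by
    intro g h
    rw [← inv g, smul_smul, mul_inv_cancel_left]
  obtain ⟨n, s, -, hs⟩ := (hpr (2 * R + 1)).fin_param
  have hs1 : ∀ i, gd Gr X0 (s i • X0) ≤ 2 * R + 1 := fun i =>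
    show s i ∈ {g : G | gd Gr X0 (g • X0) ≤ 2 * R + 1} from hs ▸ Set.mem_range_self i
  have hs2 : ∀ g h : G, gd Gr (g • X0) (h • X0) ≤ 2 * R + 1 → ∃ i, s i = g⁻¹ * h := by
    intro g h hgh
    have h1 : g⁻¹ * h ∈ {g : G | gd Gr X0 (g • X0) ≤ 2 * R + 1} := (inv2 g h).trans_le hgh
    rw [← hs] at h1
    exact h1
  have c1 : ∀ {X Y : V} (p : Gr.Walk X Y) (g h : G), gd Gr (g • X0) X ≤ R →
      gd Gr (h • X0) Y ≤ R → ∃ l, wev s l = g⁻¹ * h ∧ l.length ≤ p.length + 1 := by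
    intro X Y p
    induction p with
    | @nil X =>
      intro g h hg hh
      have t1 := hpm.tri (g • X0) X (h • X0)
      have t2 := hpm.symm X (h • X0)
      obtain ⟨i, hi⟩ := hs2 g h (by linarith)
      exact ⟨[(i, true)], by rw [wev_cons_HypQI, wev_nil_HypQI, mul_one, if_pos rfl, hi], le_rfl⟩
    | @cons X X' Y hXX p ih =>
      intro g h hg hh
      obtain ⟨g', hg'⟩ := hco X'
      obtain ⟨l, hl, hl'⟩ := ih g' h hg' hh
      have t1 := hpm.tri (g • X0) X (g' • X0)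
      have t2 := hpm.tri X X' (g' • X0)
      have t3 := hpm.symm X' (g' • X0)
      have t4 := gd_adj.2 hXX
      obtain ⟨i, hi⟩ := hs2 g g' (by linarith)
      refine ⟨(i, true) :: l, ?_, Nat.succ_le_succ hl'⟩
      rw [wev_cons_HypQI, if_pos rfl, hi, hl]
      group
  have c2 : ∀ g h : G, ∃ l, wev s l = g⁻¹ * h ∧ l.length ≤ Gr.dist (g • X0) (h • X0) + 1 := by
    intro g h
    obtain ⟨p, hp⟩ := hc.exists_walk_length_eq_dist (g • X0) (h • X0)
    rw [← hp]
    exact c1 p g h (by rw [hpm.self]; exact hR) (by rw [hpm.self]; exact hR)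
  have c3 : ∀ l : List (Fin n × Bool), gd Gr X0 (wev s l • X0) ≤ (2 * R + 1) * l.length := by
    intro l
    induction l with
    | nil => rw [wev_nil_HypQI, one_smul, hpm.self, List.length_nil, Nat.cast_zero, mul_zero]
    | cons e l ih =>
      rw [wev_cons_HypQI, mul_smul, List.length_cons]
      set u : G := if e.2 = true then s e.1 else (s e.1)⁻¹ with hu
      have t1 := hpm.tri X0 (u • X0) (u • wev s l • X0)
      have t2 := inv u X0 (wev s l • X0)
      have t3 : gd Gr X0 (u • X0) ≤ 2 * R + 1 := by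
        rw [hu]
        split_ifs
        · exact hs1 _
        · rw [← inv (s e.1), smul_inv_smul, hpm.symm]
          exact hs1 _
      push_cast
      linarith
  have hgen : Gens s := by
    intro g
    obtain ⟨l, hl, -⟩ := c2 1 g
    exact ⟨l, by rw [hl, inv_one, one_mul]⟩
  refine ⟨n, s, 2 * R + 1, hgen, fun g h => ⟨?_, ?_⟩⟩
  · obtain ⟨l, hl, hw⟩ := wl_ex_HypQI hgen (g⁻¹ * h)
    have t1 := c3 l
    rw [hw, inv2, hl, ← cay_dist hgen] at t1
    dsimp only
    linarith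
  · obtain ⟨l, hw, hl⟩ := c2 g h
    have t1 := (wl_le_HypQI s l).trans hl
    rw [hw] at t1
    have t2 : (wl s (g⁻¹ * h) : ℝ) ≤ gd Gr (g • X0) (h • X0) + 1 := by
      rw [gd]
      exact_mod_cast t1
    have t3 := mul_nonneg hR (gd_nonneg_HypQI Gr (g • X0) (h • X0))
    rw [cay_dist hgen]
    dsimp only
    linarith

/-- A pseudo-metric invariant under a group that acts cocompactly on a proper roughly geodesic
space is coarsely Lipschitz. -/
theorem lip_of_orbits {O P : Type} [Group O] (φ : O →* Equiv.Perm P) (d d' : P → P → ℝ)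
    (hd : PM d) (hd' : PM d') {κ : ℝ} (hκ : 0 ≤ κ) (hrg : RG d κ)
    (hfin : ∀ (x : P) (R : ℝ), {y | d x y ≤ R}.Finite)
    (horb : ∃ T : Finset P, ∀ x, ∃ o, ∃ y ∈ T, x = φ o y)
    (hi : ∀ o x y, d (φ o x) (φ o y) = d x y) (hi' : ∀ o x y, d' (φ o x) (φ o y) = d' x y) :
    ∃ K : ℝ, 1 ≤ K ∧ ∀ x y, d' x y ≤ K * d x y + K := by
  obtain ⟨T, hT⟩ := horb
  have hA : (⋃ t ∈ (T : Set P), d' t '' {y | d t y ≤ 2 * κ + 1}).Finite :=
    T.finite_toSet.biUnion fun t _ => (hfin t _).image _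
  obtain ⟨M0, hM0⟩ := hA.bddAbove
  have hM : ∀ x y, d x y ≤ 2 * κ + 1 → d' x y ≤ max M0 0 := by
    intro x y hxy
    obtain ⟨o, t, ht, rfl⟩ := hT x
    obtain ⟨y, rfl⟩ := (φ o).surjective y
    rw [hi] at hxy
    rw [hi']
    exact (hM0 (Set.mem_biUnion ht ⟨y, hxy, rfl⟩)).trans (le_max_left _ _)
  have hM' : 0 ≤ max M0 0 := le_max_right _ _
  generalize max M0 0 = M at hM hM'
  have key : ∀ n : ℕ, ∀ x y, d x y ≤ n + κ + 1 → d' x y ≤ (n + 1) * M := by
    intro n
    induction n with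
    | zero =>
      intro x y h
      rw [Nat.cast_zero, zero_add] at h
      rw [Nat.cast_zero, zero_add, one_mul]
      exact hM x y (by linarith)
    | succ n ih =>
      intro x y h
      push_cast at h ⊢
      by_cases h1 : d x y ≤ κ + 1
      · have t1 := hM x y (by linarith)
        have t2 := mul_nonneg (Nat.cast_nonneg (α := ℝ) n) hM'
        linarith
      · obtain ⟨z, hz1, hz2⟩ := hrg x y (κ + 1) (by linarith) (not_le.1 h1).le
        have t1 := hM x z (by linarith [(abs_le.1 hz1).2])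
        have t2 := ih z y (by linarith [(abs_le.1 hz2).2])
        have t3 := hd'.tri x z y
        linarith
  refine ⟨2 * M + 1, by linarith, fun x y => ?_⟩
  have h0 : 0 ≤ d x y := by
    have t1 := hd.tri x y x
    rw [hd.self, hd.symm y x] at t1
    linarith
  have t1 := key ⌈d x y⌉₊ x y (by linarith [Nat.le_ceil (d x y)])
  have t2 := mul_le_mul_of_nonneg_right (Nat.ceil_lt_add_one h0).le hM'
  have t3 := mul_nonneg h0 hM'
  linarith

end Pool.Agent.E5f
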