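import Pool.Agent.E5f.SysDefs
import Pool.Agent.E5f.Comb
import Pool.Agent.E5f.HypQI
import Pool.Agent.E5f.HypBi
import Pool.Agent.E5f.EndUp
import Pool.Agent.E5f.EndLine
import Pool.Agent.E5f.EndStrip
import Pool.Agent.E5f.EndFH
import Pool.Agent.E5f.EndSlope
import Pool.Agent.E5f.EndCusp
import Pool.Agent.E5f.EndFin
import Pool.Agent.E5f.EndMk

/-! The endgame. -/

set_option autoImplicit false

namespace Pool.Agent.E5f

theorem sgen_gens (h : ℕ) : Gens (sgen h) := sgen_gens_E h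

theorem hypH {Q : Type} [MulAction G8 Q] (S : Base Q) (q0 : Q) {h : ℕ} (A : Arith h) :
    ∃ δ, Hyp (gd (cay (sgen h))) δ := hypH_E S q0 A

theorem caseFF_EndG {Q : Type} [MulAction G8 Q] {S : Base Q} {Z : Seq S} {F : Q → ℝ}
    (hF : Fn Z F) (h1 : Z.rev.FGood) (h2 : Z.FGood) : False := by
  rcases h1.cases with a | a
  · exact caseUp hF a h2
  rcases h2.cases with b | b
  · refine caseUp hF.rev (Z := Z.rev) ?_ h1
    obtain ⟨M, hM⟩ := b
    refine ⟨M, fun A k0 => ?_⟩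
    simpa [Seq.rev, Seq.a] using hM A k0
  · exact Z.not_strip (strip_of_far hF a b)

theorem caseLast_EndG {Q : Type} [MulAction G8 Q] {S : Base Q} {Z : Seq S} {F : Q → ℝ}
    (hF : Fn Z F) {B B' : ℝ} (h1 : Z.Bdd B) (h2 : Z.swap.rev.Bdd B') : False := by
  obtain ⟨C, d⟩ := h1.down
  obtain ⟨C', d'⟩ := h2.down
  exact d.not_cusp (cusp_of_slope hF d (slope_of_back hF d (back_of_down hF d')))

theorem noBad {Q : Type} [MulAction G8 Q] (S : Base Q) (q0 : Q)
    (FF : Set ((Q → ℝ) × (Q → ℝ))) (hF : FClass S q0 FF) {h : ℕ} (A : Arith h) :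
    NoBad S q0 FF A := by
  intro γ Φ Θ hγ h0 hΦ h1 hΘ
  obtain ⟨Z, hZ⟩ := exists_seq S q0 A γ hγ h0
  have f1 : Fn Z Φ.1 := fn_of_class hF (fun j => A.ι (γ j)) Z hZ hΦ h1 hΘ
  have f2 : Fn Z.swap Φ.2 :=
    fn_of_class hF.swap (fun j => A.ι (γ j)) Z.swap
      (fun j => ⟨(hZ j).1, congrArg Neg.neg (hZ j).2⟩) (Φ := Φ.swap) ⟨Φ, hΦ, rfl⟩
      ((add_comm _ _).trans h1) (Θ := Θ) fun j => by
        have := hΘ j
        simp only [ell, Base.swap, neg_neg, Prod.fst_swap, Prod.snd_swap] at this ⊢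
        linarith
  have last2 : ∀ B B', Z.rev.Bdd B → Z.swap.Bdd B' → False := fun B B' a b =>
    caseLast_EndG f1.rev a (B' := B') fun k hk => by
      simpa [Seq.rev, Seq.swap, Seq.a] using b k hk
  rcases Z.good_or with a | ⟨B, a⟩
  · rcases Z.rev.good_or with b | ⟨B', b⟩
    · exact caseFF_EndG f1 b a
    · rcases Z.swap.good_or with c | ⟨C, c⟩
      · rcases Z.swap.rev.good_or with d | ⟨C', d⟩
        · exact caseFF_EndG f2 d c
        · exact Z.rev.not_bdd b d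
      · exact last2 _ _ b c
  · rcases Z.swap.rev.good_or with d | ⟨C', d⟩
    · rcases Z.swap.good_or with c | ⟨C, c⟩
      · exact caseFF_EndG f2 d c
      · exact Z.not_bdd a c
    · exact caseLast_EndG f1 a d

end Pool.Agent.E5f
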