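import Pool.Agent.E5f.SysDefs
import Pool.Agent.E5f.HypQI

/-! The class of limit functionals. -/

set_option autoImplicit false

namespace Pool.Agent.E5f

theorem pm_nonneg_FinClass {X : Type} {d : X → X → ℝ} (h : PM d) (x y : X) : 0 ≤ d x y := by
  have h1 := h.tri x y x
  rw [h.self, h.symm y x] at h1
  linarith

theorem pm_add_FinClass {X : Type} {d d' : X → X → ℝ} (h : PM d) (h' : PM d') :
    PM fun x y => d x y + d' x y :=
  ⟨fun x => by rw [h.self, h'.self, add_zero], fun x y => by rw [h.symm, h'.symm],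
    fun x y z => by linarith [h.tri x y z, h'.tri x y z]⟩

theorem bound_FinClass {Q P : Type} [MulAction G8 Q] {S : Base Q} {q0 : Q} (Fb : Fib S q0 P)
    (p q : Q) (hp : Thick (fun x y => Fb.dv p x y + Fb.dh p x y)) :
    ∃ K : ℝ, ∀ Φ ∈ LimF Fb.dv Fb.dh, Φ.1 q + Φ.2 q ≤ K * (Φ.1 p + Φ.2 p) := by
  classical
  obtain ⟨κ, hκ, hrg⟩ := hp.rg
  obtain ⟨K, hK, h⟩ := lip_of_orbits Fb.φ (fun x y => Fb.dv p x y + Fb.dh p x y)
    (fun x y => Fb.dv q x y + Fb.dh q x y) (pm_add_FinClass (Fb.pv p) (Fb.ph p))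
    (pm_add_FinClass (Fb.pv q) (Fb.ph q)) hκ hrg hp.fin Fb.orb
    (fun o x y => by rw [Fb.inv_v, Fb.inv_h]) (fun o x y => by rw [Fb.inv_v, Fb.inv_h])
  refine ⟨K, fun Φ hΦ => le_of_forall_pos_le_add fun ε hε => ?_⟩
  have hK' : 0 < 3 * K + 2 := by linarith
  obtain ⟨x, y, t, t0, t1, ht⟩ := hΦ {p, q} (ε / (3 * K + 2)) (div_pos hε hK')
  obtain ⟨a1, a2⟩ := ht p (by simp)
  obtain ⟨a3, a4⟩ := ht q (by simp)
  have e : (3 * K + 2) * (ε / (3 * K + 2)) = ε := mul_div_cancel₀ _ hK'.ne'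
  generalize ε / (3 * K + 2) = η at *
  have h1 := mul_le_mul_of_nonneg_left (h x y) t0.le
  have h2 := mul_le_mul_of_nonneg_left (add_le_add (abs_le.1 a1).2 (abs_le.1 a2).2)
    (zero_le_one.trans hK)
  have h3 := mul_le_mul_of_nonneg_left t1 (zero_le_one.trans hK)
  linarith [(abs_le.1 a3).1, (abs_le.1 a4).1]

theorem nonneg_FinClass {Q P : Type} [MulAction G8 Q] {S : Base Q} {q0 : Q} (Fb : Fib S q0 P)
    (Φ : (Q → ℝ) × (Q → ℝ)) (hΦ : Φ ∈ LimF Fb.dv Fb.dh) (q : Q) : 0 ≤ Φ.1 q ∧ 0 ≤ Φ.2 q := by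
  constructor <;> refine le_of_forall_pos_le_add fun ε hε => ?_ <;>
    obtain ⟨x, y, t, t0, -, ht⟩ := hΦ {q} ε hε <;>
    obtain ⟨a1, a2⟩ := ht q (Finset.mem_singleton_self q)
  · linarith [(abs_le.1 a1).2, mul_nonneg t0.le (pm_nonneg_FinClass (Fb.pv q) x y)]
  · linarith [(abs_le.1 a2).2, mul_nonneg t0.le (pm_nonneg_FinClass (Fb.ph q) x y)]

theorem fclass_of {Q P : Type} [MulAction G8 Q] {S : Base Q} {q0 : Q} (Fb : Fib S q0 P)
    (hV : FSide S.dv S.dh S.dg S.P0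
      (fun F z => ∃ Φ ∈ LimF Fb.dv Fb.dh, F = Φ.1 ∧ z = Φ.1 q0 + Φ.2 q0))
    (hH : FSide S.dh S.dv S.dg S.P0
      (fun F z => ∃ Φ ∈ LimF Fb.dv Fb.dh, F = Φ.2 ∧ z = Φ.1 q0 + Φ.2 q0)) :
    FClass S q0 (LimF Fb.dv Fb.dh) := by
  classical
  refine ⟨nonneg_FinClass Fb, fun Φ hΦ γ T ε hε => ?_, fun q => bound_FinClass Fb q0 q Fb.thick,
    hV, hH⟩
  have hl : 0 < S.lam := zero_lt_one.trans S.lam1
  have ha : 0 < S.lam ^ (S.dg γ) := zpow_pos hl _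
  have hb : 0 < S.lam ^ (-S.dg γ) := zpow_pos hl _
  have hab : S.lam ^ (-S.dg γ) * S.lam ^ (S.dg γ) = 1 := by
    rw [← zpow_add₀ hl.ne', neg_add_cancel, zpow_zero]
  have hc : 0 < 1 + S.lam ^ (S.dg γ) + S.lam ^ (-S.dg γ) := by positivity
  obtain ⟨x, y, t, t0, t1, ht⟩ := hΦ (T.image (γ • ·)) _ (div_pos hε hc)
  have e := mul_div_cancel₀ ε hc.ne'
  have hη := div_pos hε hc
  generalize ε / (1 + S.lam ^ (S.dg γ) + S.lam ^ (-S.dg γ)) = η at *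
  have h1 := mul_pos ha hη
  have h2 := mul_pos hb hη
  refine ⟨(Fb.s γ)⁻¹ x, (Fb.s γ)⁻¹ y, t, t0, by linarith, fun q hq => ?_⟩
  obtain ⟨a1, a2⟩ := ht _ (Finset.mem_image_of_mem _ hq)
  have ev := Fb.eq_v γ q ((Fb.s γ)⁻¹ x) ((Fb.s γ)⁻¹ y)
  have eh := Fb.eq_h γ q ((Fb.s γ)⁻¹ x) ((Fb.s γ)⁻¹ y)
  simp only [Equiv.Perm.coe_inv, Equiv.apply_symm_apply] at ev eh ⊢
  rw [ev] at a1
  rw [eh] at a2
  constructor
  · have h3 := mul_le_mul_of_nonneg_left a1 hb.le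
    rw [← abs_of_pos hb, ← abs_mul, abs_of_pos hb, mul_sub, mul_left_comm, ← mul_assoc _ _
      (Fb.dv _ _ _), hab, one_mul] at h3
    linarith
  · have h3 := mul_le_mul_of_nonneg_left a2 ha.le
    rw [← abs_of_pos ha, ← abs_mul, abs_of_pos ha, mul_sub, mul_left_comm, ← mul_assoc _ _
      (Fb.dh _ _ _), mul_comm (S.lam ^ (S.dg γ)), hab, one_mul] at h3
    linarith

/-- If a limit functional vanishes at a thick point, it vanishes at the base point. -/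
theorem zero_of_thick {Q P : Type} [MulAction G8 Q] {S : Base Q} {q0 : Q} (Fb : Fib S q0 P)
    (q : Q) (hq : Thick (fun x y => Fb.dv q x y + Fb.dh q x y))
    (Φ : (Q → ℝ) × (Q → ℝ)) (hΦ : Φ ∈ LimF Fb.dv Fb.dh) (h1 : Φ.1 q = 0) (h2 : Φ.2 q = 0) :
    Φ.1 q0 + Φ.2 q0 = 0 := by
  obtain ⟨K, hK⟩ := bound_FinClass Fb q q0 hq
  have h3 := hK Φ hΦ
  rw [h1, h2, add_zero, mul_zero] at h3
  obtain ⟨h4, h5⟩ := nonneg_FinClass Fb Φ hΦ q0
  linarith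

end Pool.Agent.E5f
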