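import Pool.Agent.E5f.SysDefs
import Pool.Agent.E5f.HypQI

/-! Flaring from the absence of bounded bi-infinite strips. -/

set_option autoImplicit false

namespace Pool.Agent.E5f

/-- The fibre metric over an element of the surface group. -/
noncomputable def Fib.D {Q P : Type} [MulAction G8 Q] {S : Base Q} {q0 : Q} (Fb : Fib S q0 P)
    {h : ℕ} (A : Arith h) (b : SG h) (x y : P) : ℝ :=
  Fb.dv q0 ((Fb.s (A.ι b))⁻¹ x) ((Fb.s (A.ι b))⁻¹ y) +
    Fb.dh q0 ((Fb.s (A.ι b))⁻¹ x) ((Fb.s (A.ι b))⁻¹ y)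

section Aux

variable {Q P : Type} [MulAction G8 Q] {S : Base Q} {q0 : Q} (Fb : Fib S q0 P) {h : ℕ}

theorem pm_nonneg_FinFlare {X : Type} {d : X → X → ℝ} (hd : PM d) (x y : X) : 0 ≤ d x y := by
  have h1 := hd.tri x y x
  rw [hd.self, hd.symm y x] at h1
  linarith

theorem pm_add_FinFlare {X : Type} {d d' : X → X → ℝ} (hd : PM d) (hd' : PM d') :
    PM (fun x y => d x y + d' x y) :=
  ⟨fun x => by simp [hd.self, hd'.self], fun x y => by rw [hd.symm x, hd'.symm x],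
    fun x y z => by linarith [hd.tri x y z, hd'.tri x y z]⟩

theorem Fib.lipq_FinFlare (q : Q) : ∃ K : ℝ, 1 ≤ K ∧ ∀ x y,
    Fb.dv q x y + Fb.dh q x y ≤ K * (Fb.dv q0 x y + Fb.dh q0 x y) + K := by
  obtain ⟨κ, hκ, hrg⟩ := Fb.thick.rg
  exact lip_of_orbits Fb.φ _ _ (pm_add_FinFlare (Fb.pv q0) (Fb.ph q0))
    (pm_add_FinFlare (Fb.pv q) (Fb.ph q)) hκ hrg Fb.thick.fin Fb.orb
    (fun o x y => by rw [Fb.inv_v, Fb.inv_h]) (fun o x y => by rw [Fb.inv_v, Fb.inv_h])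

theorem Fib.D_eq_FinFlare (A : Arith h) (b : SG h) (x y : P) :
    Fb.D A b x y = S.lam ^ (-S.dg (A.ι b)) * Fb.dv (A.ι b • q0) x y +
      S.lam ^ (S.dg (A.ι b)) * Fb.dh (A.ι b • q0) x y := by
  have hl : S.lam ≠ 0 := (zero_lt_one.trans S.lam1).ne'
  have h1 := Fb.eq_v (A.ι b) q0 ((Fb.s (A.ι b))⁻¹ x) ((Fb.s (A.ι b))⁻¹ y)
  have h2 := Fb.eq_h (A.ι b) q0 ((Fb.s (A.ι b))⁻¹ x) ((Fb.s (A.ι b))⁻¹ y)
  simp only [Equiv.Perm.coe_inv, Equiv.apply_symm_apply] at h1 h2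
  rw [h1, h2, ← mul_assoc, ← mul_assoc, ← zpow_add₀ hl, ← zpow_add₀ hl]
  simp [Fib.D]

theorem Fib.D_nonneg_FinFlare (A : Arith h) (b : SG h) (x y : P) : 0 ≤ Fb.D A b x y :=
  add_nonneg (pm_nonneg_FinFlare (Fb.pv q0) _ _) (pm_nonneg_FinFlare (Fb.ph q0) _ _)

theorem Fib.D_mul_FinFlare (A : Arith h) (b g : SG h) (x y : P) :
    Fb.D A (b * g) x y = Fb.D A g ((Fb.s (A.ι b))⁻¹ x) ((Fb.s (A.ι b))⁻¹ y) := by
  simp only [Fib.D, map_mul, mul_inv_rev, Equiv.Perm.mul_apply]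

theorem Fib.D_one_FinFlare (A : Arith h) (x y : P) :
    Fb.D A 1 x y = Fb.dv q0 x y + Fb.dh q0 x y := by
  simp [Fib.D]

theorem Fib.lipg_FinFlare (A : Arith h) (g : SG h) : ∃ K : ℝ, 1 ≤ K ∧ ∀ x y,
    Fb.D A g x y ≤ K * Fb.D A 1 x y + K := by
  obtain ⟨K, hK, hx⟩ := Fb.lipq_FinFlare (A.ι g • q0)
  have hl : 0 < S.lam := zero_lt_one.trans S.lam1
  have h1 : 0 < S.lam ^ (-S.dg (A.ι g)) := zpow_pos hl _
  have h2 : 0 < S.lam ^ (S.dg (A.ι g)) := zpow_pos hl _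
  refine ⟨(1 + S.lam ^ (-S.dg (A.ι g)) + S.lam ^ (S.dg (A.ι g))) * K, by nlinarith,
    fun x y => ?_⟩
  have h3 := pm_nonneg_FinFlare (Fb.pv (A.ι g • q0)) x y
  have h4 := pm_nonneg_FinFlare (Fb.ph (A.ι g • q0)) x y
  rw [Fb.D_eq_FinFlare A g, Fb.D_one_FinFlare, mul_assoc, ← mul_add]
  refine le_trans ?_ (mul_le_mul_of_nonneg_left (hx x y) (by positivity))
  nlinarith [mul_nonneg h1.le h4, mul_nonneg h2.le h3]

theorem ball_finite_FinFlare {G ι : Type} [Group G] [Finite ι] {s : ι → G} (hs : Gens s)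
    (m : ℕ) : {g : G | wl s g = m}.Finite := by
  refine ((List.finite_length_eq (ι × Bool) m).image (wev s)).subset fun g hg => ?_
  obtain ⟨l, hl⟩ := hs g
  have hne : {m : ℕ | ∃ l : List (ι × Bool), l.length = m ∧ wev s l = g}.Nonempty :=
    ⟨_, l, rfl, hl⟩
  obtain ⟨l', h1, h2⟩ := Nat.sInf_mem hne
  exact ⟨l', h1.trans hg, h2⟩

theorem ultra_lim_FinFlare (U : Ultrafilter ℕ) (f : ℕ → ℝ) (C : ℝ) (hf : ∀ n, 0 ≤ f n ∧ f n ≤ C) :
    ∃ a, Filter.Tendsto f U (nhds a) := by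
  obtain ⟨a, -, ha⟩ := (isCompact_Icc (a := 0) (b := C)).ultrafilter_le_nhds (U.map f)
    (by
      rw [Filter.le_principal_iff]
      exact Filter.mem_map.2 (Filter.Eventually.of_forall hf))
  exact ⟨a, ha⟩

/-- The limit lemma. -/
theorem Fib.limit_FinFlare (A : Arith h) (hg : Gens (sgen h))
    (hb : NoBad S q0 (LimF Fb.dv Fb.dh) A) (Θ : ℝ) : ∃ n : ℕ, ∀ (γ : ℤ → SG h) (x y : P),
      (∀ i j : ℤ, |i| ≤ n → |j| ≤ n → gd (cay (sgen h)) (γ i) (γ j) = |(i : ℝ) - (j : ℝ)|) →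
      (n : ℝ) ≤ Fb.D A (γ 0) x y →
      ∃ j : ℤ, |j| ≤ n ∧ Θ * Fb.D A (γ 0) x y < Fb.D A (γ j) x y := by
  by_contra hc
  push Not at hc
  have hc' : ∀ n : ℕ, ∃ (γ : ℤ → SG h) (x y : P), γ 0 = 1 ∧
      (∀ i j : ℤ, |i| ≤ n → |j| ≤ n → gd (cay (sgen h)) (γ i) (γ j) = |(i : ℝ) - (j : ℝ)|) ∧
      (n : ℝ) + 1 ≤ Fb.D A 1 x y ∧
      ∀ j : ℤ, |j| ≤ n → Fb.D A (γ j) x y ≤ Θ * Fb.D A 1 x y := by
    intro n
    obtain ⟨γ, x, y, h1, h2, h3⟩ := hc (n + 1)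
    have e : ∀ j, Fb.D A (γ j) x y = Fb.D A ((γ 0)⁻¹ * γ j) ((Fb.s (A.ι (γ 0)))⁻¹ x)
        ((Fb.s (A.ι (γ 0)))⁻¹ y) := fun j => by
      rw [← Fb.D_mul_FinFlare, mul_inv_cancel_left]
    have e0 := e 0
    rw [inv_mul_cancel] at e0
    refine ⟨fun j => (γ 0)⁻¹ * γ j, (Fb.s (A.ι (γ 0)))⁻¹ x, (Fb.s (A.ι (γ 0)))⁻¹ y,
      inv_mul_cancel _, fun i j hi hj => ?_, ?_, fun j hj => ?_⟩
    · rw [← h1 i j (by push_cast; omega) (by push_cast; omega), cay_dist hg, cay_dist hg]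
      congr 2
      group
    · rw [← e0]; exact_mod_cast h2
    · rw [← e0, ← e]; exact h3 j (by push_cast; omega)
  choose γ x y h0 h1 h2 h3 using hc'
  set U := Filter.hyperfilter ℕ with hU
  have hUt : (U : Filter ℕ) ≤ Filter.atTop := by
    rw [← Nat.cofinite_eq_atTop]; exact Filter.hyperfilter_le_cofinite
  have hge : ∀ j : ℤ, ∀ᶠ n : ℕ in U, |j| ≤ n := fun j =>
    ((Filter.eventually_ge_atTop j.natAbs).mono fun n hn => by
      rw [abs_le]; omega).filter_mono hUt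
  have hconst : ∀ j : ℤ, ∃ b, ∀ᶠ n : ℕ in U, γ n j = b := by
    intro j
    have hm : {g : SG h | wl (sgen h) g = j.natAbs} ∈ U.map (fun n => γ n j) := by
      refine (hge j).mono fun n hn => ?_
      have h4 := h1 n 0 j (by simp) hn
      rw [h0, cay_dist hg, inv_one, one_mul] at h4
      have h5 : ((wl (sgen h) (γ n j) : ℤ) : ℝ) = ((j.natAbs : ℤ) : ℝ) := by
        simpa using h4
      exact_mod_cast h5
    obtain ⟨b, -, hb'⟩ := Ultrafilter.eq_pure_of_finite_mem (ball_finite_FinFlare hg _) hm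
    refine ⟨b, ?_⟩
    have : {b} ∈ U.map (fun n => γ n j) := by rw [hb']; simp
    exact this
  choose β hβ using hconst
  set t : ℕ → ℝ := fun n => (Fb.D A 1 (x n) (y n))⁻¹ with ht
  have hD : ∀ n, 0 < Fb.D A 1 (x n) (y n) := fun n => lt_of_lt_of_le (by positivity) (h2 n)
  have ht0 : ∀ n, 0 < t n := fun n => inv_pos.2 (hD n)
  have htD : ∀ n, t n * Fb.D A 1 (x n) (y n) = 1 := fun n => inv_mul_cancel₀ (hD n).ne'
  have ht1 : ∀ n, t n ≤ ((n : ℝ) + 1)⁻¹ := fun n => inv_anti₀ (by positivity) (h2 n)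
  have hbd : ∀ q, ∃ C : ℝ, ∀ n, (0 ≤ t n * Fb.dv q (x n) (y n) ∧ t n * Fb.dv q (x n) (y n) ≤ C) ∧
      (0 ≤ t n * Fb.dh q (x n) (y n) ∧ t n * Fb.dh q (x n) (y n) ≤ C) := by
    intro q
    obtain ⟨K, hK, hx⟩ := Fb.lipq_FinFlare q
    refine ⟨2 * K, fun n => ?_⟩
    have a1 := mul_nonneg (ht0 n).le (pm_nonneg_FinFlare (Fb.pv q) (x n) (y n))
    have a2 := mul_nonneg (ht0 n).le (pm_nonneg_FinFlare (Fb.ph q) (x n) (y n))
    have a3 := mul_le_mul_of_nonneg_left (hx (x n) (y n)) (ht0 n).le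
    rw [← Fb.D_one_FinFlare A, mul_add, mul_add, mul_left_comm, htD] at a3
    have a4 : t n ≤ 1 := (ht1 n).trans (inv_le_one_of_one_le₀ (by simp))
    have a5 : t n * K ≤ K := by nlinarith
    exact ⟨⟨a1, by linarith⟩, a2, by linarith⟩
  have hl1 : ∀ q, ∃ a, Filter.Tendsto (fun n => t n * Fb.dv q (x n) (y n)) U (nhds a) := fun q =>
    let ⟨C, hC⟩ := hbd q
    ultra_lim_FinFlare U _ C fun n => (hC n).1
  have hl2 : ∀ q, ∃ a, Filter.Tendsto (fun n => t n * Fb.dh q (x n) (y n)) U (nhds a) := fun q =>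
    let ⟨C, hC⟩ := hbd q
    ultra_lim_FinFlare U _ C fun n => (hC n).2
  choose F1 hF1 using hl1
  choose F2 hF2 using hl2
  refine hb β (F1, F2) Θ (fun i j => ?_) ?_ (fun T ε hε => ?_) ?_ fun j => ?_
  · obtain ⟨n, a1, a2, a3, a4⟩ := ((hβ i).and ((hβ j).and ((hge i).and (hge j)))).exists
    rw [← a1, ← a2]
    exact h1 n i j a3 a4
  · obtain ⟨n, a1⟩ := (hβ 0).exists
    rw [← a1, h0]
  · have a1 : ∀ᶠ n : ℕ in U, t n ≤ ε := by
      have := (tendsto_one_div_add_atTop_nhds_zero_nat (𝕜 := ℝ)).eventually (ge_mem_nhds hε)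
      exact (this.mono fun n hn => (ht1 n).trans (by simpa using hn)).filter_mono hUt
    have a2 : ∀ᶠ n : ℕ in U, ∀ q ∈ T, |t n * Fb.dv q (x n) (y n) - F1 q| ≤ ε ∧
        |t n * Fb.dh q (x n) (y n) - F2 q| ≤ ε := by
      rw [Filter.eventually_all_finset]
      intro q _
      have b1 := Metric.tendsto_nhds.1 (hF1 q) ε hε
      have b2 := Metric.tendsto_nhds.1 (hF2 q) ε hε
      filter_upwards [b1, b2] with n c1 c2
      exact ⟨c1.le, c2.le⟩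
    obtain ⟨n, b1, b2⟩ := (a1.and a2).exists
    exact ⟨x n, y n, t n, ht0 n, b1, b2⟩
  · refine tendsto_nhds_unique ((hF1 q0).add (hF2 q0)) (tendsto_const_nhds.congr fun n => ?_)
    rw [← mul_add, ← Fb.D_one_FinFlare A, htD]
  · refine le_of_tendsto (((hF1 (A.ι (β j) • q0)).const_mul _).add
      ((hF2 (A.ι (β j) • q0)).const_mul _)) ?_
    filter_upwards [hβ j, hge j] with n a1 a2
    have a3 := mul_le_mul_of_nonneg_left (h3 n j a2) (ht0 n).le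
    rw [mul_left_comm, htD, mul_one, a1, Fb.D_eq_FinFlare] at a3
    linarith

theorem chain_FinFlare {f : ℕ → ℝ} {C : ℝ} {N : ℕ} (hC : 0 ≤ C)
    (hf : ∀ i, i < N → f (i + 1) ≤ C * f i) (k : ℕ) (hk : k ≤ N) : f k ≤ C ^ k * f 0 := by
  induction k with
  | zero => simp
  | succ k ih =>
    refine (hf k hk).trans ?_
    rw [pow_succ', mul_assoc]
    exact mul_le_mul_of_nonneg_left (ih (by omega)) hC

end Aux

theorem Fib.lipD {Q P : Type} [MulAction G8 Q] {S : Base Q} {q0 : Q} (Fb : Fib S q0 P)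
    {h : ℕ} (A : Arith h) : ∃ K : ℝ, 1 ≤ K ∧ ∀ b b', (cay (sgen h)).Adj b b' → ∀ x y,
      Fb.D A b' x y ≤ K * Fb.D A b x y + K := by
  choose K hK hx using Fb.lipg_FinFlare A
  have h0 : ∀ i, 0 ≤ K (sgen h i) + K (sgen h i)⁻¹ := fun i => by
    linarith [hK (sgen h i), hK (sgen h i)⁻¹]
  have h1 : 0 ≤ ∑ i, (K (sgen h i) + K (sgen h i)⁻¹) := Finset.sum_nonneg fun i _ => h0 i
  refine ⟨1 + ∑ i, (K (sgen h i) + K (sgen h i)⁻¹), by linarith, ?_⟩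
  have key : ∀ b g x y, K g ≤ 1 + ∑ i, (K (sgen h i) + K (sgen h i)⁻¹) →
      Fb.D A (b * g) x y ≤ (1 + ∑ i, (K (sgen h i) + K (sgen h i)⁻¹)) * Fb.D A b x y +
        (1 + ∑ i, (K (sgen h i) + K (sgen h i)⁻¹)) := by
    intro b g x y hle
    have h2 := hx g ((Fb.s (A.ι b))⁻¹ x) ((Fb.s (A.ι b))⁻¹ y)
    rw [← Fb.D_mul_FinFlare, ← Fb.D_mul_FinFlare, mul_one] at h2
    have h3 := mul_le_mul_of_nonneg_right hle (Fb.D_nonneg_FinFlare A b x y)
    linarith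
  rintro b b' ⟨-, i, hi⟩ x y
  have h4 := Finset.single_le_sum (f := fun i => K (sgen h i) + K (sgen h i)⁻¹)
    (fun i _ => h0 i) (Finset.mem_univ i)
  have h5 := hK (sgen h i)
  have h6 := hK (sgen h i)⁻¹
  rcases hi with hi | hi
  · rw [hi]
    exact key _ _ _ _ (by linarith)
  · rw [show b' = b * (sgen h i)⁻¹ by rw [hi, mul_inv_cancel_right]]
    exact key _ _ _ _ (by linarith)

theorem Fib.flares {Q P : Type} [MulAction G8 Q] {S : Base Q} {q0 : Q} (Fb : Fib S q0 P)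
    {h : ℕ} (A : Arith h) (hg : Gens (sgen h)) (hb : NoBad S q0 (LimF Fb.dv Fb.dh) A) :
    ∃ (n : ℕ) (M : ℝ), 1 ≤ n ∧ Flares (cay (sgen h)) (Fb.D A) n M := by
  obtain ⟨K, hK, hlip⟩ := Fb.lipD A
  obtain ⟨n1, hn1⟩ := Fb.limit_FinFlare A hg hb 1
  obtain ⟨m, hm⟩ := Fb.limit_FinFlare A hg hb (3 * (2 * K) ^ n1)
  refine ⟨m + 1, m + n1 + 1, by omega, fun γ hγ x y hM => ?_⟩
  by_contra hlt
  rw [not_le, max_lt_iff] at hlt
  have hseg : ∀ (c r : ℕ), r ≤ c → c + r ≤ 2 * (m + 1) → ∀ i j : ℤ, |i| ≤ r → |j| ≤ r →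
      gd (cay (sgen h)) (γ (c + i).toNat) (γ (c + j).toNat) = |(i : ℝ) - (j : ℝ)| := by
    intro c r h1 h2 i j hi hj
    rw [abs_le] at hi hj
    rw [hγ _ _ (by omega) (by omega)]
    have e : ∀ k : ℤ, 0 ≤ (c : ℤ) + k → (((c + k).toNat : ℕ) : ℝ) = c + k := fun k hk => by
      have : (((c + k).toNat : ℕ) : ℤ) = c + k := Int.toNat_of_nonneg hk
      exact_mod_cast this
    rw [e i (by omega), e j (by omega)]
    congr 1
    ring
  obtain ⟨i, hi, hmax⟩ := (Finset.range (2 * (m + 1) + 1)).exists_max_image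
    (fun i => Fb.D A (γ i) x y) ⟨0, by simp⟩
  rw [Finset.mem_range] at hi
  have hmax' : ∀ j, j ≤ 2 * (m + 1) → Fb.D A (γ j) x y ≤ Fb.D A (γ i) x y := fun j hj =>
    hmax j (Finset.mem_range.2 (by omega))
  have hm0 : (0 : ℝ) ≤ m := Nat.cast_nonneg _
  have hn0 : (0 : ℝ) ≤ n1 := Nat.cast_nonneg _
  have hstep : ∀ a b : ℕ, a ≤ 2 * (m + 1) → b ≤ 2 * (m + 1) → (a = b + 1 ∨ b = a + 1) →
      Fb.D A (γ b) x y + 1 ≤ 2 * K * (Fb.D A (γ a) x y + 1) := by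
    intro a b ha hb' hab
    have h1 := hγ a b ha hb'
    have h2 : |(a : ℝ) - (b : ℝ)| = 1 := by rcases hab with rfl | rfl <;> simp
    rw [h2, gd] at h1
    have h3 := hlip _ _ (SimpleGraph.dist_eq_one_iff_adj.1 (by exact_mod_cast h1)) x y
    have h4 := Fb.D_nonneg_FinFlare A (γ a) x y
    nlinarith
  have hpow : ∀ k, k ≤ n1 → (2 * K) ^ k ≤ (2 * K) ^ n1 := fun k hk =>
    pow_le_pow_right₀ (by linarith) hk
  have hp0 : 0 < (2 * K) ^ n1 := by positivity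
  have hend : ∀ (k : ℕ) (z : ℝ), k ≤ n1 → 0 ≤ z → z < 2 * Fb.D A (γ (m + 1)) x y →
      Fb.D A (γ i) x y + 1 ≤ (2 * K) ^ k * (z + 1) →
      Fb.D A (γ i) x y ≤ 3 * (2 * K) ^ n1 * Fb.D A (γ (m + 1)) x y := by
    intro k z hk hz hz' h1
    have h2 : (2 * K) ^ k * (z + 1) ≤ (2 * K) ^ n1 * (3 * Fb.D A (γ (m + 1)) x y) :=
      mul_le_mul (hpow k hk) (by linarith) (by linarith) hp0.le
    linarith
  have hbd : Fb.D A (γ i) x y ≤ 3 * (2 * K) ^ n1 * Fb.D A (γ (m + 1)) x y := by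
    by_cases h1 : i < n1
    · refine hend i _ h1.le (Fb.D_nonneg_FinFlare A _ x y) hlt.1 ?_
      exact chain_FinFlare (f := fun k => Fb.D A (γ k) x y + 1) (N := 2 * (m + 1)) (by linarith)
        (fun k hk => hstep k (k + 1) (by omega) (by omega) (Or.inr rfl)) i (by omega)
    by_cases h2 : 2 * (m + 1) < i + n1
    · refine hend (2 * (m + 1) - i) _ (by omega) (Fb.D_nonneg_FinFlare A _ x y) hlt.2 ?_
      have := chain_FinFlare (f := fun k => Fb.D A (γ (2 * (m + 1) - k)) x y + 1)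
        (N := 2 * (m + 1)) (C := 2 * K) (by linarith)
        (fun k hk => hstep _ _ (by omega) (by omega) (Or.inl (by omega))) (2 * (m + 1) - i)
        (by omega)
      rwa [show 2 * (m + 1) - (2 * (m + 1) - i) = i by omega, Nat.sub_zero] at this
    exfalso
    obtain ⟨j, hj, hlt'⟩ := hn1 (fun j => γ (i + j).toNat) x y
      (hseg i n1 (by omega) (by omega)) (by
        have := hmax' (m + 1) (by omega)
        simp only [add_zero, Int.toNat_natCast]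
        linarith)
    rw [abs_le] at hj
    have := hmax' (i + j).toNat (by omega)
    simp only [add_zero, Int.toNat_natCast] at hlt'
    linarith
  obtain ⟨j, hj, hlt'⟩ := hm (fun j => γ (((m + 1 : ℕ) : ℤ) + j).toNat) x y
    (hseg (m + 1) m (by omega) (by omega)) (by
      simp only [add_zero, Int.toNat_natCast]
      linarith)
  rw [abs_le] at hj
  have := hmax' (((m + 1 : ℕ) : ℤ) + j).toNat (by omega)
  simp only [add_zero, Int.toNat_natCast] at hlt'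
  linarith

end Pool.Agent.E5f
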