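import Pool.Agent.E5f.FinFlare
import Pool.Agent.E5f.Comb

/-! The extension group and its hyperbolicity. -/

set_option autoImplicit false

namespace Pool.Agent.E5f

theorem gd_hom_FinGroup {V : Type} {G : SimpleGraph V} (hc : G.Connected) (f : V → V)
    (hf : ∀ X Y, G.Adj X Y → G.Adj (f X) (f Y)) (X Y : V) : gd G (f X) (f Y) ≤ gd G X Y := by
  obtain ⟨p, hp⟩ := (hc X Y).exists_walk_length_eq_dist
  have := SimpleGraph.dist_le (p.map (⟨f, fun {a b} => hf a b⟩ : G →g G))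
  rw [SimpleGraph.Walk.length_map, hp] at this
  unfold gd
  exact_mod_cast this

theorem ball_FinGroup {G ι : Type} [Group G] [Finite ι] {s : ι → G} (hs : Gens s) (C : ℝ) :
    {b | gd (cay s) 1 b ≤ C}.Finite := by
  refine ((List.finite_length_le (ι × Bool) ⌈C⌉₊).image (wev s)).subset fun b hb => ?_
  have hb' : (wl s b : ℝ) ≤ C := by simpa [cay_dist hs] using hb
  have hne : {m : ℕ | ∃ l : List (ι × Bool), l.length = m ∧ wev s l = b}.Nonempty := by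
    obtain ⟨l, hl⟩ := hs b
    exact ⟨_, l, rfl, hl⟩
  obtain ⟨l, h1, h2⟩ := Nat.sInf_mem hne
  refine ⟨l, ?_, h2⟩
  have h3 : (l.length : ℝ) ≤ (⌈C⌉₊ : ℝ) := by
    rw [h1]
    exact hb'.trans (Nat.le_ceil C)
  exact_mod_cast h3

theorem hyp_mono_FinGroup {X : Type} {d : X → X → ℝ} {δ δ' : ℝ} (h : Hyp d δ) (hδ : δ ≤ δ') :
    Hyp d δ' := fun w x y z => le_trans (by linarith) (h w x y z)

section
variable {Q P : Type} [MulAction G8 Q] {S : Base Q} {q0 : Q} (Fb : Fib S q0 P)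

theorem Fib.conj_FinGroup (γ : G8) {n : Equiv.Perm P} (hn : n ∈ (ker2 (OG 3 2)).map Fb.φ) :
    Fb.s γ * n * (Fb.s γ)⁻¹ ∈ (ker2 (OG 3 2)).map Fb.φ := by
  obtain ⟨o, ho, rfl⟩ := hn
  choose c hc using Fb.norm γ
  let c' : OG 3 2 →* OG 3 2 := MonoidHom.mk' c fun a b => Fb.inj (by
    rw [map_mul, ← hc, ← hc, ← hc, map_mul]
    group)
  refine ⟨c o, ?_, (hc o).symm⟩
  exact Subgroup.mem_iInf.2 fun ψ => Subgroup.mem_iInf.1 ho (ψ.comp c')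

variable {h : ℕ} (A : Arith h)

/-- The extension group. -/
def Fib.ext_FinGroup : Subgroup (Equiv.Perm P × SG h) where
  carrier := {g | g.1 * (Fb.s (A.ι g.2))⁻¹ ∈ (ker2 (OG 3 2)).map Fb.φ}
  one_mem' := ⟨1, one_mem _, by simp⟩
  mul_mem' := by
    intro a b ha hb
    have := mul_mem ha (Fb.conj_FinGroup (A.ι a.2) hb)
    change (a.1 * b.1) * (Fb.s (A.ι (a.2 * b.2)))⁻¹ ∈ (ker2 (OG 3 2)).map Fb.φ
    rw [map_mul, map_mul]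
    have e : a.1 * b.1 * (Fb.s (A.ι a.2) * Fb.s (A.ι b.2))⁻¹ =
        a.1 * (Fb.s (A.ι a.2))⁻¹ *
          (Fb.s (A.ι a.2) * (b.1 * (Fb.s (A.ι b.2))⁻¹) * (Fb.s (A.ι a.2))⁻¹) := by group
    rw [e]
    exact this
  inv_mem' := by
    intro a ha
    have := Fb.conj_FinGroup (A.ι a.2)⁻¹ (inv_mem ha)
    change a.1⁻¹ * (Fb.s (A.ι a.2⁻¹))⁻¹ ∈ (ker2 (OG 3 2)).map Fb.φ
    rw [map_inv] at this
    rw [map_inv, map_inv]
    have e : a.1⁻¹ * (Fb.s (A.ι a.2))⁻¹⁻¹ =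
        (Fb.s (A.ι a.2))⁻¹ * (a.1 * (Fb.s (A.ι a.2))⁻¹)⁻¹ * (Fb.s (A.ι a.2))⁻¹⁻¹ := by group
    rw [e]
    exact this

/-- The action of the extension group on the total space. -/
@[reducible] def Fib.act_FinGroup : MulAction (Fb.ext_FinGroup A) (P × SG h) where
  smul g X := (g.1.1 X.1, g.1.2 * X.2)
  one_smul _ := Prod.ext rfl (one_mul _)
  mul_smul _ _ _ := Prod.ext rfl (mul_assoc _ _ _)

theorem Fib.Dinv_FinGroup (g : Fb.ext_FinGroup A) (b : SG h) (x y : P) :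
    Fb.D A (g.1.2 * b) (g.1.1 x) (g.1.1 y) = Fb.D A b x y := by
  obtain ⟨o, -, ho⟩ := Fb.conj_FinGroup (A.ι (g.1.2 * b))⁻¹ g.2
  have e : (Fb.s (A.ι (g.1.2 * b)))⁻¹ * g.1.1 = Fb.φ o * (Fb.s (A.ι b))⁻¹ := by
    rw [ho, map_inv, map_mul, map_mul]
    group
  have e' : ∀ z, (Fb.s (A.ι (g.1.2 * b)))⁻¹ (g.1.1 z) = Fb.φ o ((Fb.s (A.ι b))⁻¹ z) := fun z => by
    rw [← Equiv.Perm.mul_apply, e, Equiv.Perm.mul_apply]
  rw [Fib.D, Fib.D, e', e', Fb.inv_v, Fb.inv_h]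

theorem Fib.adj_FinGroup (r : ℝ) (g : Fb.ext_FinGroup A) (X Y : P × SG h)
    (hXY : (totG (cay (sgen h)) (Fb.D A) r).Adj X Y) :
    (totG (cay (sgen h)) (Fb.D A) r).Adj (g.1.1 X.1, g.1.2 * X.2) (g.1.1 Y.1, g.1.2 * Y.2) := by
  obtain ⟨h0, h1⟩ := hXY
  refine ⟨fun e => h0 (Prod.ext (g.1.1.injective (congrArg Prod.fst e))
    (mul_left_cancel (congrArg Prod.snd e))), ?_⟩
  rcases h1 with ⟨h1, h2, h3⟩ | ⟨h1, h2, i, h3⟩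
  · exact Or.inl ⟨congrArg (g.1.2 * ·) h1, (Fb.Dinv_FinGroup A g _ _ _).trans_le h2,
      (Fb.Dinv_FinGroup A g _ _ _).trans_le h3⟩
  · refine Or.inr ⟨congrArg g.1.1 h1, fun e => h2 (mul_left_cancel e), i, ?_⟩
    rcases h3 with h3 | h3
    · exact Or.inl (by simp only [h3, mul_assoc])
    · exact Or.inr (by simp only [h3, mul_assoc])

theorem Fib.comb_FinGroup (hg : Gens (sgen h)) (hH : ∃ δ, Hyp (gd (cay (sgen h))) δ)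
    (hfl : ∃ (n : ℕ) (M : ℝ), 1 ≤ n ∧ Flares (cay (sgen h)) (Fb.D A) n M) :
    ∃ r, CombOut (cay (sgen h)) (Fb.D A) r := by
  obtain ⟨δ, hδ⟩ := hH
  obtain ⟨n, M, hn, hf⟩ := hfl
  obtain ⟨δ', hδ'⟩ := Fb.thick.hyp
  obtain ⟨κ, hκ, hrg⟩ := Fb.thick.rg
  obtain ⟨K, hK, hl⟩ := Fb.lipD A
  refine ⟨_, comb (δ := max δ δ') (κ := κ) (K := K) (n := n) (M := M)
    ⟨Fb.ne, cay_conn hg, hyp_mono_FinGroup hδ (le_max_left _ _), fun b => ⟨fun x => ?_,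
      fun x y => ?_, fun x y z => ?_⟩, fun b => hyp_mono_FinGroup (δ := δ') ?_ (le_max_right _ _),
      fun b x y t h0 h1 => ?_, hκ, hK, hl, hn, hf⟩ le_rfl⟩
  · rw [Fib.D, (Fb.pv q0).self, (Fb.ph q0).self, add_zero]
  · rw [Fib.D, Fib.D, (Fb.pv q0).symm, (Fb.ph q0).symm]
  · have h1 := (Fb.pv q0).tri ((Fb.s (A.ι b))⁻¹ x) ((Fb.s (A.ι b))⁻¹ y) ((Fb.s (A.ι b))⁻¹ z)
    have h2 := (Fb.ph q0).tri ((Fb.s (A.ι b))⁻¹ x) ((Fb.s (A.ι b))⁻¹ y) ((Fb.s (A.ι b))⁻¹ z)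
    simp only [Fib.D]
    linarith
  · exact fun w x y z => hδ' ((Fb.s (A.ι b))⁻¹ w) ((Fb.s (A.ι b))⁻¹ x) ((Fb.s (A.ι b))⁻¹ y)
      ((Fb.s (A.ι b))⁻¹ z)
  · obtain ⟨z, hz⟩ := hrg ((Fb.s (A.ι b))⁻¹ x) ((Fb.s (A.ι b))⁻¹ y) t h0 h1
    refine ⟨Fb.s (A.ι b) z, ?_⟩
    have e : (Fb.s (A.ι b))⁻¹ (Fb.s (A.ι b) z) = z := Equiv.symm_apply_apply _ _
    simpa only [Fib.D, e] using hz

theorem Fib.stab_FinGroup (x0 : P) :
    {g : Fb.ext_FinGroup A | g.1.1 x0 = x0 ∧ g.1.2 = 1}.Finite := by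
  refine Set.Finite.of_finite_image (f := fun g => g.1.1) ?_ ?_
  · refine ((Fb.stab x0).image Fb.φ).subset ?_
    rintro _ ⟨g, ⟨h1, h2⟩, rfl⟩
    obtain ⟨o, -, ho⟩ := g.2
    have ho' : Fb.φ o = g.1.1 := by rw [ho, h2]; simp
    exact ⟨o, show Fb.φ o x0 = x0 by rw [ho', h1], ho'⟩
  · intro g hg g' hg' e
    exact Subtype.ext (Prod.ext e (hg.2.trans hg'.2.symm))

theorem Fib.proper_FinGroup (hg : Gens (sgen h)) {r : ℝ}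
    (hO : CombOut (cay (sgen h)) (Fb.D A) r) (x0 : P) (C : ℝ) :
    {g : Fb.ext_FinGroup A |
      gd (totG (cay (sgen h)) (Fb.D A) r) (x0, 1) (g.1.1 x0, g.1.2 * 1) ≤ C}.Finite := by
  obtain ⟨C', hC'⟩ := hO.fib_near C
  refine Set.Finite.of_finite_fibers (fun g : Fb.ext_FinGroup A => (g.1.1 x0, g.1.2)) ?_ ?_
  · refine ((Fb.thick.fin x0 C').prod (ball_FinGroup hg C)).subset ?_
    rintro _ ⟨g, hg', rfl⟩
    refine ⟨?_, ?_⟩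
    · simpa [Fib.D] using hC' _ _ hg'
    · simpa using (hO.le_base _ _).trans hg'
  · rintro _ ⟨g, -, rfl⟩
    refine ((Fb.stab_FinGroup A x0).image (g * ·)).subset ?_
    rintro g' ⟨-, hg'⟩
    have h1 : g'.1.1 x0 = g.1.1 x0 := congrArg Prod.fst hg'
    have h2 : g'.1.2 = g.1.2 := congrArg (Prod.snd : P × SG h → SG h) hg'
    refine ⟨g⁻¹ * g', ⟨?_, ?_⟩, by simp⟩
    · change g.1.1⁻¹ (g'.1.1 x0) = x0
      rw [h1]
      exact Equiv.symm_apply_apply _ _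
    · change g.1.2⁻¹ * g'.1.2 = 1
      rw [h2, inv_mul_cancel]

theorem Fib.cocpt_FinGroup (hfi : (ker2 (OG 3 2)).FiniteIndex) {r : ℝ}
    (hO : CombOut (cay (sgen h)) (Fb.D A) r) (x0 : P) :
    ∃ R : ℝ, ∀ X : P × SG h, ∃ g : Fb.ext_FinGroup A,
      gd (totG (cay (sgen h)) (Fb.D A) r) (g.1.1 x0, g.1.2 * 1) X ≤ R := by
  obtain ⟨T, hT⟩ := Fb.orb
  obtain ⟨R, hR⟩ := (Set.finite_range fun a : (OG 3 2 ⧸ ker2 (OG 3 2)) × T =>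
    gd (totG (cay (sgen h)) (Fb.D A) r) (x0, 1) (Fb.φ a.1.out⁻¹ a.2.1, 1)).bddAbove
  refine ⟨R, fun X => ?_⟩
  obtain ⟨o, y, hy, hx⟩ := hT ((Fb.s (A.ι X.2))⁻¹ X.1)
  obtain ⟨n, hn⟩ := QuotientGroup.mk_out_eq_mul (ker2 (OG 3 2)) o⁻¹
  let g : Fb.ext_FinGroup A := ⟨(Fb.s (A.ι X.2) * Fb.φ n, X.2),
    Fb.conj_FinGroup _ ⟨n, n.2, rfl⟩⟩
  have h1 := gd_hom_FinGroup hO.conn _ (Fb.adj_FinGroup A r g) (x0, 1)
    (Fb.φ (QuotientGroup.mk (s := ker2 (OG 3 2)) o⁻¹).out⁻¹ y, 1)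
  have h2 := hR ⟨(QuotientGroup.mk o⁻¹, ⟨y, hy⟩), rfl⟩
  have e : (g.1.1 (Fb.φ (QuotientGroup.mk (s := ker2 (OG 3 2)) o⁻¹).out⁻¹ y), g.1.2 * 1) = X := by
    refine Prod.ext ?_ (mul_one _)
    change Fb.s (A.ι X.2) (Fb.φ n (Fb.φ _ y)) = X.1
    rw [hn, ← Equiv.Perm.mul_apply (Fb.φ n), ← map_mul, mul_inv_rev, inv_inv, mul_inv_cancel_left,
      ← hx]
    exact Equiv.apply_symm_apply _ _
  refine ⟨g, ?_⟩
  rw [← e]
  exact h1.trans h2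

end

theorem Fib.group {Q P : Type} [MulAction G8 Q] {S : Base Q} {q0 : Q} (Fb : Fib S q0 P)
    {h : ℕ} (A : Arith h) (hg : Gens (sgen h)) (hH : ∃ δ, Hyp (gd (cay (sgen h))) δ)
    (hfl : ∃ (n : ℕ) (M : ℝ), 1 ≤ n ∧ Flares (cay (sgen h)) (Fb.D A) n M)
    {g : ℕ} (e : SG g ≃* ker2 (OG 3 2)) (hfi : (ker2 (OG 3 2)).FiniteIndex) :
    ∃ (G : Type) (_ : Group G) (n : ℕ) (s : Fin n → G) (i : SG g →* G) (p : G →* SG h),
      Gens s ∧ FourPt s ∧ Function.Injective i ∧ Function.Surjective p ∧ i.range = p.ker := by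
  obtain ⟨r, hO⟩ := Fb.comb_FinGroup A hg hH hfl
  obtain ⟨x0⟩ := Fb.ne
  obtain ⟨R, hR⟩ := Fb.cocpt_FinGroup A hfi hO x0
  obtain ⟨δ, hδ⟩ := hO.hyp
  let := Fb.act_FinGroup A
  obtain ⟨n, s, K, hs, hq⟩ := svarc (G := Fb.ext_FinGroup A) (totG (cay (sgen h)) (Fb.D A) r)
    hO.conn (Fb.adj_FinGroup A r) (x0, 1) R hR (Fb.proper_FinGroup A hg hO x0)
  obtain ⟨δ', hδ'⟩ := hyp_of_qie (cay_conn hs) hO.conn hδ hq
  let i0 : SG g →* Equiv.Perm P × SG h :=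
    (Fb.φ.comp ((ker2 (OG 3 2)).subtype.comp e.toMonoidHom)).prod 1
  have hi0 : ∀ a, i0 a ∈ Fb.ext_FinGroup A := fun a => ⟨e a, (e a).2, by simp [i0]⟩
  refine ⟨Fb.ext_FinGroup A, inferInstance, n, s, i0.codRestrict _ hi0,
    (MonoidHom.snd _ _).comp (Fb.ext_FinGroup A).subtype, hs, fourPt_of_hyp hs hδ', ?_, ?_, ?_⟩
  · intro a b hab
    exact e.injective (Subtype.ext (Fb.inj (congrArg (fun x => x.1.1) hab)))
  · intro b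
    exact ⟨⟨(Fb.s (A.ι b), b), 1, one_mem _, by simp⟩, rfl⟩
  · ext x
    constructor
    · rintro ⟨a, rfl⟩
      rfl
    · intro hx
      have hx' : x.1.2 = 1 := hx
      obtain ⟨o, ho, ho'⟩ := x.2
      refine ⟨e.symm ⟨o, ho⟩, Subtype.ext (Prod.ext ?_ hx'.symm)⟩
      rw [hx'] at ho'
      simpa [i0] using ho'

end Pool.Agent.E5f
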