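import Pool.Agent.E5f.GrpDefs

/-! Transport to a presented group. -/

set_option autoImplicit false

namespace Pool.Agent.E5f

theorem wl_equiv_FinPack {G H ι : Type} [Group G] [Group H] (e : G ≃* H) (s : ι → G) (g : G) :
    wl s g = wl (fun i => e (s i)) (e g) := by
  have h : ∀ l, wev (fun i => e (s i)) l = e (wev s l) := fun l => by
    simp only [wev, map_list_prod, List.map_map, Function.comp_def, apply_ite e, map_inv]
  simp only [wl, h, e.apply_eq_iff_eq]

theorem exists_equiv_FinPack {G ι : Type} [Group G] (s : ι → G) (h : Gens s) :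
    ∃ (rels : Set (FreeGroup ι)) (e : PresentedGroup rels ≃* G),
      ∀ i, e (PresentedGroup.of i) = s i := by
  let π : PresentedGroup ((FreeGroup.lift s).ker : Set (FreeGroup ι)) →* G :=
    PresentedGroup.toGroup (f := s) fun r hr => hr
  have h1 : ∀ i, π (PresentedGroup.of i) = s i := fun i => PresentedGroup.toGroup.of _
  refine ⟨_, MulEquiv.ofBijective π ⟨(injective_iff_map_eq_one π).2 fun x hx => ?_, fun g => ?_⟩,
    h1⟩
  · obtain ⟨w, rfl⟩ := PresentedGroup.mk_surjective _ x
    exact PresentedGroup.one_of_mem hx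
  · obtain ⟨l, rfl⟩ := h g
    refine ⟨wev PresentedGroup.of l, ?_⟩
    simp only [wev, map_list_prod, List.map_map, Function.comp_def, apply_ite π, map_inv, h1]

theorem final_pack {g0 h0 : ℕ} (hg : 2 ≤ g0) (hh : 2 ≤ h0) (G : Type) [Group G] (n0 : ℕ)
    (s : Fin n0 → G) (i0 : SG g0 →* G) (p0 : G →* SG h0) (h1 : Gens s) (h2 : FourPt s)
    (h3 : Function.Injective i0) (h4 : Function.Surjective p0) (h5 : i0.range = p0.ker) :
    ∃ g h : ℕ, 2 ≤ g ∧ 2 ≤ h ∧ ∃ (n : ℕ) (rels : Set (FreeGroup (Fin n))),
      ∃ (i : PresentedGroup ({(List.ofFn (fun k : Fin g =>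
              (FreeGroup.of (Sum.inl k) * FreeGroup.of (Sum.inr k) *
                (FreeGroup.of (Sum.inl k))⁻¹ * (FreeGroup.of (Sum.inr k))⁻¹ :
                FreeGroup (Fin g ⊕ Fin g)))).prod} :
              Set (FreeGroup (Fin g ⊕ Fin g))) →* PresentedGroup rels)
        (p : PresentedGroup rels →* PresentedGroup ({(List.ofFn (fun k : Fin h =>
              (FreeGroup.of (Sum.inl k) * FreeGroup.of (Sum.inr k) *
                (FreeGroup.of (Sum.inl k))⁻¹ * (FreeGroup.of (Sum.inr k))⁻¹ :
                FreeGroup (Fin h ⊕ Fin h)))).prod} :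
              Set (FreeGroup (Fin h ⊕ Fin h)))),
        Function.Injective i ∧ Function.Surjective p ∧ i.range = p.ker ∧
        ∃ δ : ℕ, ∀ x y z w : PresentedGroup rels,
          sInf {m : ℕ | ∃ l : List (Fin n × Bool), l.length = m ∧
              (l.map (fun e : Fin n × Bool => if e.2 = true
                then (PresentedGroup.of e.1 : PresentedGroup rels)
                else (PresentedGroup.of e.1 : PresentedGroup rels)⁻¹)).prod = x⁻¹ * y}
          + sInf {m : ℕ | ∃ l : List (Fin n × Bool), l.length = m ∧
              (l.map (fun e : Fin n × Bool => if e.2 = true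
                then (PresentedGroup.of e.1 : PresentedGroup rels)
                else (PresentedGroup.of e.1 : PresentedGroup rels)⁻¹)).prod = z⁻¹ * w}
          ≤ max
            (sInf {m : ℕ | ∃ l : List (Fin n × Bool), l.length = m ∧
              (l.map (fun e : Fin n × Bool => if e.2 = true
                then (PresentedGroup.of e.1 : PresentedGroup rels)
                else (PresentedGroup.of e.1 : PresentedGroup rels)⁻¹)).prod = x⁻¹ * z}
            + sInf {m : ℕ | ∃ l : List (Fin n × Bool), l.length = m ∧
              (l.map (fun e : Fin n × Bool => if e.2 = true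
                then (PresentedGroup.of e.1 : PresentedGroup rels)
                else (PresentedGroup.of e.1 : PresentedGroup rels)⁻¹)).prod = y⁻¹ * w})
            (sInf {m : ℕ | ∃ l : List (Fin n × Bool), l.length = m ∧
              (l.map (fun e : Fin n × Bool => if e.2 = true
                then (PresentedGroup.of e.1 : PresentedGroup rels)
                else (PresentedGroup.of e.1 : PresentedGroup rels)⁻¹)).prod = x⁻¹ * w}
            + sInf {m : ℕ | ∃ l : List (Fin n × Bool), l.length = m ∧
              (l.map (fun e : Fin n × Bool => if e.2 = true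
                then (PresentedGroup.of e.1 : PresentedGroup rels)
                else (PresentedGroup.of e.1 : PresentedGroup rels)⁻¹)).prod = y⁻¹ * z})
          + 2 * δ := by
  obtain ⟨rels, e, he⟩ := exists_equiv_FinPack s h1
  obtain ⟨δ, hδ⟩ := h2
  refine ⟨g0, h0, hg, hh, n0, rels, e.symm.toMonoidHom.comp i0, p0.comp e.toMonoidHom,
    e.symm.injective.comp h3, h4.comp e.surjective, ?_, δ, fun x y z w => ?_⟩
  · ext x
    rw [MonoidHom.mem_ker, MonoidHom.comp_apply, ← MonoidHom.mem_ker, ← h5]
    exact ⟨fun ⟨a, ha⟩ => ⟨a, e.symm_apply_eq.1 ha⟩, fun ⟨a, ha⟩ => ⟨a, e.symm_apply_eq.2 ha⟩⟩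
  · have h6 : ∀ a b : PresentedGroup rels, wl s ((e a)⁻¹ * e b) =
        wl (PresentedGroup.of : Fin n0 → PresentedGroup rels) (a⁻¹ * b) := fun a b => by
      rw [wl_equiv_FinPack e, map_mul, map_inv, funext he]
    have h7 := hδ (e x) (e y) (e z) (e w)
    simp only [h6] at h7
    exact h7

end Pool.Agent.E5f
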