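import Pool.Agent.E5f.GrpDefs

/-! The characteristic subgroup of index sixteen is a surface group of genus thirteen. -/

set_option autoImplicit false

namespace Pool.Agent.E5f

namespace KerMain

section Words

variable {L G H : Type} [Group G] [Group H]

/-- The value of a word. -/
def ev (f : L → G) (l : List L) : G := (l.map f).prod

theorem ev_nil (f : L → G) : ev f [] = 1 := rfl

theorem ev_cons (f : L → G) (x : L) (l : List L) : ev f (x :: l) = f x * ev f l := by simp [ev]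

theorem ev_append (f : L → G) (l l' : List L) : ev f (l ++ l') = ev f l * ev f l' := by simp [ev]

theorem map_ev (φ : G →* H) (f : L → G) (l : List L) : φ (ev f l) = ev (fun x => φ (f x)) l := by
  rw [ev, ev, map_list_prod, List.map_map]
  rfl

theorem ev_flatMap {L' : Type} (f : L → G) (σ : L' → List L) (l : List L') :
    ev f (l.flatMap σ) = ev (fun x => ev f (σ x)) l := by
  induction l with
  | nil => rfl
  | cons x l ih => rw [List.flatMap_cons, ev_append, ih, ev_cons]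

/-- The inverse word. -/
def wi (iv : L → L) (l : List L) : List L := l.reverse.map iv

theorem ev_wi {iv : L → L} {f : L → G} (h : ∀ x, f (iv x) = (f x)⁻¹) (l : List L) :
    ev f (wi iv l) = (ev f l)⁻¹ := by
  induction l with
  | nil => simp [wi, ev]
  | cons x l ih =>
    rw [wi, List.reverse_cons, List.map_append, ev_append, ← wi, ih, ev_cons f x, mul_inv_rev]
    simp [ev, h]

/-- Reduction of words with a stack: cancellation and rewriting rules. -/
def go [DecidableEq L] (iv : L → L) (R : List (List L × List L)) : ℕ → List L → List L → List L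
  | 0, st, inp => st.reverse ++ inp
  | _ + 1, st, [] => st.reverse
  | n + 1, st, x :: inp =>
    if st.head? = some (iv x) then go iv R n st.tail inp
    else match R.find? fun r => r.1.isPrefixOf (x :: st) with
      | some r => go iv R n ((x :: st).drop r.1.length) (r.2 ++ inp)
      | none => go iv R n (x :: st) inp

theorem ev_go [DecidableEq L] {iv : L → L} {f : L → G} (h : ∀ x, f (iv x) = (f x)⁻¹)
    {R : List (List L × List L)} (hR : ∀ r ∈ R, ev f r.1.reverse = ev f r.2) (n : ℕ)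
    (st inp : List L) : ev f (go iv R n st inp) = ev f st.reverse * ev f inp := by
  induction n generalizing st inp with
  | zero => rw [go, ev_append]
  | succ n ih =>
    obtain _ | ⟨x, inp⟩ := inp
    · rw [go, ev_nil, mul_one]
    rw [go]
    split_ifs with h1
    · obtain _ | ⟨y, st⟩ := st
      · simp at h1
      obtain rfl : y = iv x := by simpa using h1
      rw [ih, List.tail_cons, List.reverse_cons, ev_append, ev_cons, ev_cons, ev_nil, h]
      group
    · have e : ev f st.reverse * ev f (x :: inp) = ev f (x :: st).reverse * ev f inp := by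
        rw [List.reverse_cons, ev_append, mul_assoc, ← ev_append f [x]]
        rfl
      rw [e]
      split
      · next r h2 =>
        have h3 := List.find?_some h2
        obtain ⟨t, ht⟩ := List.isPrefixOf_iff_prefix.1 h3
        rw [ih, ← ht, List.drop_left, List.reverse_append, ev_append, ev_append,
          hR r (List.mem_of_find?_eq_some h2), mul_assoc]
      · exact ih _ _

/-- Inversion of letters in a free alphabet. -/
def ivN (n : ℕ) : ℕ := if n % 2 = 0 then n + 1 else n - 1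

/-- Values of letters and their inverses. -/
def dbl (g : ℕ → G) (n : ℕ) : G := if n % 2 = 0 then g (n / 2) else (g (n / 2))⁻¹

theorem dbl_iv (g : ℕ → G) (n : ℕ) : dbl g (ivN n) = (dbl g n)⁻¹ := by
  unfold dbl ivN
  split_ifs with h1 h2 h3
  · omega
  · rw [show (n + 1) / 2 = n / 2 by omega]
  · rw [show (n - 1) / 2 = n / 2 by omega, inv_inv]
  · omega

theorem dbl_two (g : ℕ → G) (i : ℕ) : ev (dbl g) [2 * i] = g i := by simp [ev, dbl]

theorem map_dbl (φ : G →* H) (g : ℕ → G) (l : List ℕ) :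
    φ (ev (dbl g) l) = ev (dbl fun i => φ (g i)) l := by
  rw [map_ev]
  congr 1
  funext n
  unfold dbl
  split_ifs <;> simp

/-- Substitution of words for letters. -/
def sb (iv : L → L) (σ : ℕ → List L) (l : List ℕ) : List L :=
  l.flatMap fun n => if n % 2 = 0 then σ (n / 2) else wi iv (σ (n / 2))

theorem ev_sb {iv : L → L} {f : L → G} (h : ∀ x, f (iv x) = (f x)⁻¹) (σ : ℕ → List L)
    (l : List ℕ) : ev f (sb iv σ l) = ev (dbl fun i => ev f (σ i)) l := by
  rw [sb, ev_flatMap]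
  congr 1
  funext n
  unfold dbl
  split_ifs
  · rfl
  · exact ev_wi h _

/-- Free reduction. -/
def red (l : List ℕ) : List ℕ := go ivN [] 2000 [] l

theorem ev_red (g : ℕ → G) {l l' : List ℕ} (h : red l = l') : ev (dbl g) l = ev (dbl g) l' := by
  rw [← h, red, ev_go (dbl_iv g) (by simp), List.reverse_nil, ev_nil, one_mul]

theorem ev_mem {S : Subgroup G} {g : ℕ → G} (h : ∀ i, g i ∈ S) (l : List ℕ) :
    ev (dbl g) l ∈ S := by
  induction l with
  | nil => exact one_mem _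
  | cons x l ih =>
    rw [ev_cons, dbl]
    split_ifs
    exacts [mul_mem (h _) ih, mul_mem (inv_mem (h _)) ih]

theorem exists_ev {α : Type} {R : Set (FreeGroup α)} {iv : L → L} {f : L → PresentedGroup R}
    (h : ∀ x, f (iv x) = (f x)⁻¹) (h1 : ∀ j, ∃ l, ev f l = .of j) (g : PresentedGroup R) :
    ∃ l, ev f l = g := by
  have hg : g ∈ Subgroup.closure (Set.range PresentedGroup.of) := by
    rw [PresentedGroup.closure_range_of]
    trivial
  induction hg using Subgroup.closure_induction with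
  | mem x hx =>
    obtain ⟨j, rfl⟩ := hx
    exact h1 j
  | one => exact ⟨[], rfl⟩
  | mul x y _ _ hx hy =>
    obtain ⟨l, rfl⟩ := hx
    obtain ⟨l', rfl⟩ := hy
    exact ⟨l ++ l', ev_append _ _ _⟩
  | inv x _ hx =>
    obtain ⟨l, rfl⟩ := hx
    exact ⟨_, ev_wi h l⟩

end Words

/-! ### The data -/

/-- Inversion of the letters `a, a⁻¹, b, b⁻¹, c₀, c₁, c₂`. -/
def ivO (s : Fin 7) : Fin 7 := [1, 0, 3, 2, 4, 5, 6].getD s 0

/-- The relator. -/
def rw7 : List (Fin 7) := [4, 5, 6, 2, 0, 3, 1]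

/-- The rules of the Dehn algorithm. -/
def rules : List (List (Fin 7) × List (Fin 7)) :=
  [([2, 6, 5, 4], [0, 2, 1]), ([0, 2, 6, 5], [4, 0, 2]), ([3, 0, 2, 6], [5, 4, 0]), ([1, 3, 0, 2],
  [6, 5, 4]), ([4, 1, 3, 0], [3, 6, 5]), ([5, 4, 1, 3], [1, 3, 6]), ([6, 5, 4, 1], [2, 1, 3]),
  ([3, 1, 2, 0], [4, 5, 6]), ([6, 3, 1, 2], [1, 4, 5]), ([5, 6, 3, 1], [3, 1, 4]), ([4, 5, 6, 3],
  [0, 3, 1]), ([0, 4, 5, 6], [2, 0, 3]), ([2, 0, 4, 5], [6, 2, 0]), ([1, 2, 0, 4], [5, 6, 2])]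

/-- The action on cosets. -/
def nx (s : Fin 7) (q : Fin 16) : Fin 16 := Fin.ofNat 16 ([1, 1, 2, 2, 4, 8, 12].getD s 0 ^^^ q)

/-- The transversal. -/
def tT : List (List (Fin 7)) :=
  [[], [1], [2], [3, 1], [4], [4, 1], [2, 4], [4, 3, 1], [5], [5, 1], [2, 5], [5, 3, 1], [6], [6,
  1], [3, 6], [6, 3, 1]]

/-- The basic generators. -/
def yT : List (List (Fin 7)) :=
  [[0, 0], [0, 2, 0, 2], [0, 4, 0, 4], [0, 2, 4, 0, 2, 4], [4, 3, 0, 4, 3, 1], [0, 5, 0, 5], [5,
  3, 0, 5, 3, 1], [6, 0, 6, 1], [0, 2, 6, 0, 3, 6], [4, 2, 2, 4], [5, 2, 2, 5], [0, 5, 2, 5, 3,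
  1], [6, 2, 2, 6], [0, 6, 2, 6, 3, 1], [6, 4, 5], [0, 6, 4, 5, 1], [6, 2, 4, 2, 5], [0, 2, 6, 4,
  5, 3, 1], [6, 5, 4], [0, 6, 5, 4, 1], [6, 2, 5, 2, 4], [0, 2, 6, 5, 4, 3, 1], [6, 2, 6, 2], [5,
  6, 4], [0, 5, 6, 4, 1], [0, 2, 5, 6, 4, 3, 1]]

/-- The Schreier generators as words in the basic generators. -/
def pT : List (List (List ℕ)) :=
  [[[0], [], [2], [3, 38, 0, 36], [4], [46, 18, 8, 6, 19, 5, 48], [6], [8], [10], [29, 36, 47, 20,
  12, 23], [23, 48, 39, 30, 10, 20], [12], [30, 26, 16], [14], [16], [29, 14, 26]], [[], [1], [37,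
  1, 39, 2], [3], [49, 4, 18, 7, 9, 19, 47], [5], [9], [7], [22, 13, 21, 46, 37, 28], [11], [13],
  [21, 11, 31, 38, 49, 22], [15], [17, 27, 31], [27, 15, 28], [17]], [[], [42, 2, 1], [1, 39, 2],
  [], [], [51, 6, 5], [18], [49, 4, 18, 7], [], [50, 43, 34, 23, 48, 39, 30, 10, 20, 11], [20],
  [22], [24], [35, 16, 24, 17, 27, 31], [], [26]], [[3, 38, 0], [], [], [0, 3, 43], [19], [6, 19,
  5, 48], [], [4, 7, 50], [21], [23], [], [10, 21, 11, 31, 38, 49, 22, 35, 42, 51], [], [27],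
  [25], [30, 26, 16, 25, 17, 34]], [[], [], [41, 44, 0, 3, 43, 37, 1, 39, 2], [], [], [], [3, 38,
  0, 36, 42, 2, 1, 45, 40], [], [28], [30], [32], [34], [29], [31], [33], [35]], [[], [], [33, 29,
  14, 26, 35, 16, 24, 17, 27, 31, 15, 25, 44], [], [36], [38], [40], [42], [], [], [45, 24, 14,
  30, 26, 16, 25, 17, 34, 27, 15, 28, 32], [], [37], [39], [41], [43]], [[], [], [44], [], [46],
  [48], [29, 36, 47, 20, 12, 23, 10, 21, 11, 31, 38, 49, 22, 35, 42, 51, 13, 33, 40], [50], [47],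
  [49], [41, 32, 12, 50, 43, 34, 23, 48, 39, 30, 10, 20, 11, 22, 13, 21, 46, 37, 28], [51], [],
  [], [45], []]]

/-- The relator in the basic generators. -/
def ww : List ℕ :=
  [41, 44, 0, 3, 43, 37, 1, 39, 2, 45, 24, 14, 30, 26, 16, 25, 17, 34, 27, 15, 28, 32, 29, 36, 47,
  20, 12, 23, 10, 21, 11, 31, 38, 49, 22, 35, 42, 51, 13, 33, 40, 46, 18, 8, 6, 19, 5, 48, 4, 7,
  50, 9]

/-- The standard generators as words in the basic generators. -/
def aT : List (List ℕ) :=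
  [[41, 44, 0, 36, 42, 38, 45, 40], [41, 44, 39, 43, 37, 3, 38, 45, 40], [41, 44, 39, 43, 37, 45,
  24, 44, 36, 42, 38, 45, 40], [41, 44, 39, 43, 37, 45, 14, 30, 26, 16, 44, 36, 42, 38, 45, 40],
  [41, 44, 39, 30, 10, 20, 11, 48, 45, 40], [41, 44, 49, 10, 21, 11, 31, 43, 37, 45, 14, 30, 26,
  34, 27, 15, 28, 32, 29, 36, 47, 20, 12, 23, 48, 45, 40], [41, 44, 36, 42, 15, 40], [41, 14, 43,
  37, 49, 10, 21, 11, 31, 15, 40], [41, 14, 43, 34, 50, 15, 40], [41, 14, 51, 35, 37, 49, 10, 21,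
  11, 26, 34, 27, 15, 28, 32, 29, 36, 47, 20, 12, 50, 15, 40], [41, 14, 51, 35, 50, 15, 40], [41,
  14, 51, 37, 49, 10, 21, 11, 26, 50, 15, 40], [41, 32, 21], [20, 33, 14, 51, 37, 49, 10, 21, 11,
  15, 28, 32, 29, 36, 47], [20], [33, 14, 51, 37, 49, 10], [33], [14, 51, 37, 49, 15, 28], [14,
  48], [49, 51, 37], [49], [51, 18, 8, 6, 19, 5], [51, 18, 50], [51, 8, 6, 50], [51], [8]]

/-- The basic generators as words in the standard generators. -/
def bT : List (List ℕ) :=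
  [[39, 37, 33, 29, 25, 21, 17, 13, 0, 8, 12, 14, 16, 20, 24, 28, 32, 36, 38], [41, 37, 33, 29,
  25, 15, 13, 9, 3, 8, 12, 14, 16, 20, 24, 28, 32, 36, 38], [43, 44, 46, 45, 48], [51, 49, 46,
  48], [50], [41, 39, 37, 33, 30], [29, 27, 25, 22, 20, 23, 21, 18, 24, 28, 32, 36, 40, 48], [36,
  40], [49, 41, 37, 33, 29, 25, 23, 21, 17, 14, 12, 15, 13, 9, 6, 8, 12, 14, 13, 24, 28, 32], [49,
  44, 48], [28], [41, 39, 37, 33, 29, 25, 21, 17, 13, 11, 12, 14, 13, 15, 16, 18, 24, 28, 32, 36,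
  40, 48], [33, 29, 25, 12, 15, 13, 9, 4, 8, 12, 14, 13, 24, 28, 32], [41, 39, 37, 33, 30, 28, 31,
  29, 25, 22, 24, 28, 32, 36, 40, 48], [36, 39, 37, 34], [41, 37, 33, 29, 25, 15, 16, 20, 24, 28,
  30, 29, 31, 32, 36, 38, 40], [33], [49, 41, 37, 33, 29, 25, 21, 24, 28, 32, 36, 40, 48], [39,
  40, 48], [41, 37, 33, 29, 25, 15, 13, 9, 12, 16, 20, 24, 28, 32, 36, 38], [33, 29, 25], [49, 41,
  37, 33, 29, 25, 21, 17, 24, 28, 32, 36, 40], [33, 29, 25, 12, 16, 20, 24, 28, 32, 36, 38], [27,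
  28, 30, 29, 31, 32, 34, 33, 35, 36, 38, 37, 39, 40, 48], [41], [49]]

/-- The standard relator. -/
def sw : List ℕ :=
  [0, 2, 1, 3, 4, 6, 5, 7, 8, 10, 9, 11, 12, 14, 13, 15, 16, 18, 17, 19, 20, 22, 21, 23, 24, 26,
  25, 27, 28, 30, 29, 31, 32, 34, 33, 35, 36, 38, 37, 39, 40, 42, 41, 43, 44, 46, 45, 47, 48, 50,
  49, 51]

def tw (q : Fin 16) : List (Fin 7) := tT.getD q []

def yw (i : ℕ) : List (Fin 7) := yT.getD i []

def ps (s : Fin 7) (q : Fin 16) : List ℕ := (pT.getD s []).getD q []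

def be (i : ℕ) : List ℕ := bT.getD i []

def enc : Fin 13 ⊕ Fin 13 → ℕ := Sum.elim (fun k => 2 * k) fun k => 2 * k + 1

def dec (i : ℕ) : Fin 13 ⊕ Fin 13 :=
  if i % 2 = 0 then .inl (Fin.ofNat 13 (i / 2)) else .inr (Fin.ofNat 13 (i / 2))

def al (j : Fin 13 ⊕ Fin 13) : List ℕ := aT.getD (enc j) []

/-- The end point of a path of cosets and the word read along it. -/
def pth : List (Fin 7) → Fin 16 → Fin 16 × List ℕ
  | [], q => (q, [])
  | s :: l, q => (nx s (pth l q).1, ps s (pth l q).1 ++ (pth l q).2)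

def dehn (l : List (Fin 7)) : List (Fin 7) := go ivO rules 2000 [] l

/-- Values in the group of order two. -/
def vz (u : Fin 4 → Multiplicative (ZMod 2)) (s : Fin 7) : Multiplicative (ZMod 2) :=
  [u 0, u 0, u 1, u 1, u 2, u 3, u 2 * u 3].getD s 1

theorem c0 : srel 13 = ev (dbl fun i => FreeGroup.of (dec i)) sw := by decide +kernel

theorem c1 : red (sb ivN (fun i => al (dec i)) sw) = ww := by decide +kernel

theorem c2 : dehn (sb ivO yw ww) = [] := by decide +kernel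

theorem c3 : ∀ i < 26, red (sb ivN (fun i => al (dec i)) (be i)) = [2 * i] := by decide +kernel

theorem c4 : ∀ j, red (sb ivN be (al j)) = [2 * enc j] ∧ dec (enc j) = j := by decide +kernel

theorem c5 : red (sb ivN be ww) = sw := by decide +kernel

theorem c6 : ∀ s q, ivO (ivO s) = s ∧ nx (ivO s) (nx s q) = q ∧
    red (ps (ivO s) (nx s q) ++ ps s q) = [] := by decide +kernel

theorem c7 : ∀ q, (pth rw7 q).1 = q ∧ (red (pth rw7 q).2 = [] ∨ red (pth rw7 q).2 = ww) := by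
  decide +kernel

theorem c8 : ∀ i < 26, (pth (yw i) 0).1 = 0 ∧ red (pth (yw i) 0).2 = [2 * i] := by decide +kernel

theorem c9 : ∀ s q, dehn (s :: tw q ++ wi ivO (tw (nx s q) ++ sb ivO yw (ps s q))) = [] := by
  decide +kernel

theorem c10 : ∀ r ∈ rules, ∃ n : Fin 7, r.1.reverse ++ wi ivO r.2 = rw7.rotate n ∨
    r.1.reverse ++ wi ivO r.2 = (wi ivO rw7).rotate n := by decide +kernel

theorem c11 : ∀ u, ∀ i < 26, ev (vz u) (yw i) = 1 := by decide +kernel

theorem c12 : ∀ q, (∀ u, ev (vz u) (tw q) = 1) → tw q = [] := by decide +kernel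

theorem yw_big {i : ℕ} (h : ¬ i < 26) : yw i = [] ∧ be i = [] :=
  ⟨List.getD_eq_default _ _ (not_lt.1 h), List.getD_eq_default _ _ (not_lt.1 h)⟩

/-! ### The orbifold group -/

/-- Values of the letters. -/
def vO {G : Type} [Group G] (g : Fin 2 ⊕ Fin 3 → G) : Fin 7 → G :=
  ![g (.inl 0), (g (.inl 0))⁻¹, g (.inl 1), (g (.inl 1))⁻¹, g (.inr 0), g (.inr 1), g (.inr 2)]

/-- The generator of each index. -/
def lt : Fin 2 ⊕ Fin 3 → Fin 7 := Sum.elim ![0, 2] ![4, 5, 6]

/-- The universal property. -/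
theorem exists_hom {G : Type} [Group G] (f : Fin 7 → G) (h : ∀ x, f (ivO x) = (f x)⁻¹)
    (h1 : ev f rw7 = 1) : ∃ φ : OG 3 2 →* G, ∀ s, φ (vO .of s) = f s := by
  have e1 : f 1 = (f 0)⁻¹ := h 0
  have e3 : f 3 = (f 2)⁻¹ := h 2
  refine ⟨PresentedGroup.toGroup (f := fun j => f (lt j)) ?_, fun s => ?_⟩
  · rintro _ (⟨i, rfl⟩ | rfl)
    · rw [map_pow, FreeGroup.lift_apply_of, sq, mul_eq_one_iff_eq_inv]
      fin_cases i
      exacts [h 4, h 5, h 6]
    · simpa [ev, rw7, lt, List.ofFn_succ, e1, e3, mul_assoc] using h1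
  · fin_cases s <;> simp [vO, lt, e1, e3]

theorem vO_iv (s : Fin 7) : (vO .of (ivO s) : OG 3 2) = (vO .of s)⁻¹ := by
  have h : ∀ i : Fin 3, (PresentedGroup.of (.inr i) : OG 3 2) = (.of (.inr i))⁻¹ := fun i =>
    mul_eq_one_iff_eq_inv.1 ((sq _).symm.trans
      (PresentedGroup.one_of_mem (rels := relO 3 2) (Or.inl ⟨i, rfl⟩)))
  fin_cases s
  exacts [rfl, (inv_inv _).symm, rfl, (inv_inv _).symm, h 0, h 1, h 2]

theorem vO_rel : ev (vO .of) rw7 = (1 : OG 3 2) := by
  have h := PresentedGroup.one_of_mem (rels := relO 3 2) (Or.inr rfl)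
  simpa [ev, rw7, vO, List.ofFn_succ, mul_assoc, PresentedGroup.of] using h

theorem ev_dehn {l : List (Fin 7)} (h : dehn l = []) : ev (vO .of) l = (1 : OG 3 2) := by
  have h1 : ∀ l : List (Fin 7), ev (vO .of) l = (1 : OG 3 2) → ∀ n,
      ev (vO .of) (l.rotate n) = (1 : OG 3 2) := fun l hl n => by
    rw [ev, List.map_rotate]
    exact List.prod_rotate_eq_one_of_prod_eq_one hl n
  have h2 := ev_go vO_iv (R := rules) (fun r hr => by
    obtain ⟨n, hn⟩ := c10 r hr
    rw [← mul_inv_eq_one, ← ev_wi vO_iv, ← ev_append]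
    rcases hn with hn | hn <;> rw [hn]
    · exact h1 _ vO_rel n
    · exact h1 _ (by rw [ev_wi vO_iv, vO_rel, inv_one]) n) 2000 [] l
  rw [← dehn, h] at h2
  simpa [ev_nil] using h2.symm

/-- The basic generators in the orbifold group. -/
def Y (i : ℕ) : OG 3 2 := ev (vO .of) (yw i)

/-- The basic generators in the surface group. -/
def B (i : ℕ) : SG 13 := ev (dbl fun i => .of (dec i)) (be i)

theorem lift_srel {G : Type} [Group G] (φ : FreeGroup (Fin 13 ⊕ Fin 13) →* G) :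
    φ (srel 13) = ev (dbl fun i => φ (.of (dec i))) sw := by rw [c0, map_dbl]

/-- The embedding of the surface group. -/
def Phi : SG 13 →* OG 3 2 :=
  PresentedGroup.toGroup (f := fun j => ev (dbl Y) (al j)) (by
    rintro _ rfl
    simp only [lift_srel, FreeGroup.lift_apply_of]
    rw [← ev_sb (dbl_iv Y), ev_red Y c1]
    exact (ev_sb vO_iv yw ww).symm.trans (ev_dehn c2))

theorem Phi_ev (l : List ℕ) : Phi (ev (dbl B) l) = ev (dbl Y) l := by
  rw [map_dbl]
  congr 2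
  funext i
  by_cases h : i < 26
  · simp only [B, map_dbl, Phi, PresentedGroup.toGroup.of]
    rw [← ev_sb (dbl_iv Y), ev_red Y (c3 i h), dbl_two]
  · rw [B, Y, (yw_big h).1, (yw_big h).2, ev_nil, ev_nil, map_one]

theorem B_ww : ev (dbl B) ww = 1 := by
  refine (ev_sb (dbl_iv _) be ww).symm.trans ((ev_red _ c5).trans ?_)
  exact (lift_srel (PresentedGroup.mk _)).symm.trans (PresentedGroup.one_of_mem rfl)

theorem B_gen (g : SG 13) : ∃ l, ev (dbl B) l = g :=
  exists_ev (dbl_iv B) (fun j => ⟨al j, (ev_sb (dbl_iv _) be _).symm.trans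
    ((ev_red _ (c4 j).1).trans (by rw [dbl_two, (c4 j).2]))⟩) g

/-- The action of a letter. -/
def act (s : Fin 7) (x : Fin 16 × SG 13) : Fin 16 × SG 13 :=
  (nx s x.1, ev (dbl B) (ps s x.1) * x.2)

theorem act_iv (s : Fin 7) (x : Fin 16 × SG 13) : act (ivO s) (act s x) = x :=
  Prod.ext (c6 s x.1).2.1 (by
    simp only [act]
    rw [← mul_assoc, ← ev_append, ev_red B (c6 s x.1).2.2, ev_nil, one_mul])

/-- The permutation of a letter. -/
def pm (s : Fin 7) : Equiv.Perm (Fin 16 × SG 13) :=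
  ⟨act s, act (ivO s), act_iv s, fun x => by simpa only [(c6 s 0).1] using act_iv (ivO s) x⟩

theorem ev_pm (l : List (Fin 7)) (q : Fin 16) (g : SG 13) :
    ev pm l (q, g) = ((pth l q).1, ev (dbl B) (pth l q).2 * g) := by
  induction l with
  | nil => simp [ev_nil, pth]
  | cons s l ih =>
    rw [ev_cons, Equiv.Perm.mul_apply, ih, pth, ev_append, mul_assoc]
    rfl

theorem Phi_inj : Function.Injective Phi := by
  obtain ⟨ψ, hψ⟩ := exists_hom pm (fun s => Equiv.ext fun x => rfl) (Equiv.ext fun ⟨q, g⟩ => by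
    rw [ev_pm, (c7 q).1]
    rcases (c7 q).2 with h | h <;> rw [ev_red B h]
    · rw [ev_nil, one_mul, Equiv.Perm.one_apply]
    · rw [B_ww, one_mul, Equiv.Perm.one_apply])
  have h1 : ∀ i g, ψ (Y i) (0, g) = (0, B i * g) := fun i g => by
    simp only [Y, map_ev, hψ]
    by_cases h : i < 26
    · rw [ev_pm, (c8 i h).1, ev_red B (c8 i h).2, dbl_two]
    · rw [B, (yw_big h).1, (yw_big h).2, ev_nil, ev_nil, one_mul, Equiv.Perm.one_apply]
  have h2 : ∀ l g, ψ (ev (dbl Y) l) (0, g) = (0, ev (dbl B) l * g) := fun l g => by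
    induction l with
    | nil => simp [ev_nil]
    | cons n l ih =>
      rw [ev_cons, ev_cons, map_mul, Equiv.Perm.mul_apply, ih, dbl, dbl]
      split_ifs
      · rw [h1, mul_assoc]
      · rw [map_inv, Equiv.Perm.inv_eq_iff_eq, h1, mul_assoc, mul_inv_cancel_left]
  refine (injective_iff_map_eq_one _).2 fun g hg => ?_
  obtain ⟨l, rfl⟩ := B_gen g
  have h3 := h2 l 1
  rw [← Phi_ev, hg, map_one, mul_one] at h3
  exact (congrArg Prod.snd h3).symm

theorem Phi_mem (g : SG 13) : Phi g ∈ ker2 (OG 3 2) := by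
  obtain ⟨l, rfl⟩ := B_gen g
  rw [Phi_ev]
  refine ev_mem (fun i => Subgroup.mem_iInf.2 fun ψ => ?_) l
  by_cases h : i < 26
  · have h1 := congrArg ψ vO_rel
    have h2 : ∀ a b c d e : Multiplicative (ZMod 2),
        a * (b * (c * (e * (d * (e⁻¹ * d⁻¹))))) = 1 → c = a * b ∧ d⁻¹ = d ∧ e⁻¹ = e := by decide
    have h3 := h2 (ψ (.of (.inr 0))) (ψ (.of (.inr 1))) (ψ (.of (.inr 2))) (ψ (.of (.inl 0)))
      (ψ (.of (.inl 1))) (by simpa [ev, rw7, vO] using h1)
    rw [MonoidHom.mem_ker, Y, map_ev, ← c11 ![ψ (.of (.inl 0)), ψ (.of (.inl 1)),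
      ψ (.of (.inr 0)), ψ (.of (.inr 1))] i h]
    congr 1
    funext s
    fin_cases s <;> simp [vO, vz, h3]
  · rw [Y, (yw_big h).1]
    exact one_mem _

theorem cover (x : OG 3 2) : ∃ q g, x = ev (vO .of) (tw q) * Phi g := by
  obtain ⟨l, rfl⟩ := exists_ev vO_iv (fun j => ⟨[lt j], by
    rcases j with j | j <;> fin_cases j <;> simp [ev, vO, lt]⟩) x
  induction l with
  | nil => exact ⟨0, 1, by rw [map_one, mul_one]; rfl⟩
  | cons s l ih =>
    obtain ⟨q, g, e⟩ := ih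
    have h := ev_dehn (c9 s q)
    rw [ev_append, ev_wi vO_iv, mul_inv_eq_one, ev_cons, ev_append, ev_sb vO_iv] at h
    exact ⟨nx s q, ev (dbl B) (ps s q) * g, by
      rw [ev_cons, e, ← mul_assoc, h, map_mul, Phi_ev, mul_assoc]; rfl⟩

theorem Phi_range : Phi.range = ker2 (OG 3 2) := by
  refine le_antisymm (by rintro _ ⟨g, rfl⟩; exact Phi_mem g) fun x hx => ?_
  obtain ⟨q, g, rfl⟩ := cover x
  have h := (Subgroup.mul_mem_cancel_right _ (Phi_mem g)).1 hx
  rw [c12 q fun u => ?_, ev_nil, one_mul]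
  · exact ⟨g, rfl⟩
  · obtain ⟨ψ, hψ⟩ := exists_hom (vz u) (by revert u; decide) (by revert u; decide)
    have h1 := Subgroup.mem_iInf.1 h ψ
    simpa only [MonoidHom.mem_ker, map_ev, hψ] using h1

end KerMain

open KerMain

theorem ker2_iso : Nonempty (SG 13 ≃* ker2 (OG 3 2)) :=
  ⟨(MonoidHom.ofInjective Phi_inj).trans (MulEquiv.subgroupCongr Phi_range)⟩

theorem ker2_fi : (ker2 (OG 3 2)).FiniteIndex := by
  have : Finite (OG 3 2 ⧸ ker2 (OG 3 2)) :=
    Finite.of_surjective (fun q : Fin 16 => QuotientGroup.mk (ev (vO .of) (tw q))) fun x => by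
      obtain ⟨x, rfl⟩ := QuotientGroup.mk_surjective x
      obtain ⟨q, g, rfl⟩ := cover x
      exact ⟨q, (QuotientGroup.mk_mul_of_mem _ (Phi_mem g)).symm⟩
  exact Subgroup.finiteIndex_of_finite_quotient

end Pool.Agent.E5f
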