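import Pool.Agent.E5f.FsMain
import Pool.Agent.E5f.FinClass
import Pool.Agent.E5f.FinFlare
import Pool.Agent.E5f.FinGroup
import Pool.Agent.E5f.FinPack
import Pool.Agent.E5f.EndG
import Pool.Agent.E5f.KerMain
import Pool.Agent.E5f.ArithMain

set_option autoImplicit false

namespace Pool.Agent.E5f

/-- A hyperbolic extension from a base, a fibre family and the two interface systems. -/
theorem group_of_sys {Q P : Type} [MulAction G8 Q] (S : Base Q) (q0 : Q) (Fb : Fib S q0 P)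
    {O : Type} [AddCommGroup O] {E E' : Lat O}
    (Y : FSys E S.dv S.dh (fun q => ∃ γ : G8, S.dg γ = 0 ∧ q = γ • S.P0) Fb.dv Fb.dh)
    (Y' : FSys E' S.dh S.dv (fun q => ∃ γ : G8, S.dg γ = 0 ∧ q = γ • S.P0) Fb.dh Fb.dv) :
    ∃ h : ℕ, 2 ≤ h ∧ ∃ (G : Type) (_ : Group G) (n : ℕ) (s : Fin n → G) (i : SG 13 →* G)
      (p : G →* SG h), Gens s ∧ FourPt s ∧ Function.Injective i ∧ Function.Surjective p ∧
        i.range = p.ker := by
  obtain ⟨h, hh, ⟨A⟩⟩ := arith_ex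
  obtain ⟨e⟩ := ker2_iso
  have hV := fside_of_sys (q0 := q0) Y (fun q hq Φ hΦ h1 h2 => zero_of_thick Fb q hq Φ hΦ h1 h2)
  have hH := fside_of_sys (q0 := q0) Y' (fun q hq Φ hΦ h1 h2 => by
    have hq' : Thick (fun x y => Fb.dv q x y + Fb.dh q x y) := by
      simpa only [add_comm] using hq
    have := zero_of_thick Fb q hq' Φ.swap (limF_swap hΦ) h2 h1
    simpa [add_comm] using this)
  have e2 : (fun (F : Q → ℝ) (z : ℝ) => ∃ Φ ∈ LimF Fb.dh Fb.dv, F = Φ.1 ∧ z = Φ.1 q0 + Φ.2 q0) =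
      fun F z => ∃ Φ ∈ LimF Fb.dv Fb.dh, F = Φ.2 ∧ z = Φ.1 q0 + Φ.2 q0 := by
    funext F z
    apply propext
    constructor
    · rintro ⟨Φ, hΦ, rfl, rfl⟩
      exact ⟨Φ.swap, limF_swap hΦ, rfl, add_comm _ _⟩
    · rintro ⟨Φ, hΦ, rfl, rfl⟩
      exact ⟨Φ.swap, limF_swap hΦ, rfl, add_comm _ _⟩
  rw [e2] at hH
  have hF := fclass_of Fb hV hH
  have hb := noBad S q0 _ hF A
  exact ⟨h, hh, Fb.group A (sgen_gens h) (hypH S q0 A) (Fb.flares A (sgen_gens h) hb) e ker2_fi⟩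

end Pool.Agent.E5f
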