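import Pool.Agent.E5f.MoBox

/-!
Box words in the two systems of generators.
-/

set_option autoImplicit false

namespace Pool.Agent.E5f

open Filter Classical

section
variable {L C : Type} [CommGroup C]

/-- Labels to the right of a label, including the label. -/
def Rle (X : Od L) (l : L) : Set L := {m | X l ≤ X m}

theorem up_Rle (X : Od L) (l : L) : Up X (Rle X l) := fun _ _ h1 h2 => le_trans h1 h2.le

theorem self_mem_Rle (X : Od L) (l : L) : l ∈ Rle X l := le_refl (X l)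

theorem self_not_mem_Rl (X : Od L) (l : L) : l ∉ Rl X l := lt_irrefl (X l)

theorem Rle_cross {X : Od L} {l m : L} (h : ¬ (m ∈ Rle X l ↔ m ∈ Rl X l)) : m = l := by
  by_contra k
  exact h ⟨fun k1 => lt_of_le_of_ne (a := X l) k1 (fun e => k (X.injective e).symm),
    fun k1 => le_of_lt (a := X l) k1⟩

theorem Cfg.at_Rle (Z : Cfg L) (l : L) : At Z.x (Rle Z.X l) (Z.x l) := fun _ =>
  ⟨fun h => Z.x_le h, fun h => Z.x_le (not_le.1 h).le⟩

theorem stp_Rle (c : C) (X : Od L) (l : L) {D : Set L} (h : l ∈ D) :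
    stp c X (Rle X l) (Rl X l) D = emb (lt l c) := by
  rw [stp_sub c (R := Rle X l) (up_Rl X l) (fun m hm => le_of_lt (a := X l) hm),
    ← opH_singleton c X]
  refine opH_congr c X fun m => ⟨fun k => ?_, fun k => ?_⟩
  · exact (X.injective (le_antisymm k.1.1 (not_lt.1 k.1.2))).symm
  · rw [show m = l from k]
    exact ⟨⟨le_refl (X l), lt_irrefl (X l)⟩, h⟩

theorem stp_Rle' (c : C) (X : Od L) (l : L) {D : Set L} (h : l ∉ D) :
    stp c X (Rle X l) (Rl X l) D = 1 := by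
  rw [stp_sub c (R := Rle X l) (up_Rl X l) (fun m hm => le_of_lt (a := X l) hm), ← opH_empty c X]
  refine opH_congr c X fun m => ⟨fun k => ?_, fun k => k.elim⟩
  exact h ((X.injective (le_antisymm k.1.1 (not_lt.1 k.1.2))) ▸ k.2)

/-- Induction over finitely many special labels between two cuts. -/
theorem cut_ind {X : Od L} {p : Set L → Set L → Prop} {R0 R1 : Set L} (F : Finset L)
    (htr : ∀ T1 T2 T3, p T1 T2 → p T2 T3 → p T1 T3)
    (hone : ∀ l ∈ F, l ∈ R0 → l ∉ R1 → p (Rle X l) (Rl X l))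
    (h0 : ∀ T T', Up X T → Up X T' → R1 ⊆ T' → T' ⊆ T → T ⊆ R0 →
      (∀ l ∈ F, l ∈ T → l ∈ T') → p T T')
    (hR0 : Up X R0) (hR1 : Up X R1) (h : R1 ⊆ R0) : p R0 R1 := by
  have key : ∀ (k : ℕ) (T T' : Set L), Up X T → Up X T' → R1 ⊆ T' → T' ⊆ T → T ⊆ R0 →
      ∀ F' : Finset L, F'.card ≤ k → (∀ l ∈ F, l ∈ T → l ∉ T' → l ∈ F') → p T T' := by
    intro k
    induction k with
    | zero =>
      intro T T' hT hT' s1 s2 s3 F' hF h
      have hF0 : F' = ∅ := Finset.card_eq_zero.1 (by omega)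
      refine h0 T T' hT hT' s1 s2 s3 fun l hl k1 => ?_
      by_contra k2
      simpa [hF0] using h l hl k1 k2
    | succ k ih =>
      intro T T' hT hT' s1 s2 s3 F' hF h
      by_cases he : ∃ l ∈ F, l ∈ T ∧ l ∉ T'
      · obtain ⟨l, hl, h1, h2⟩ := he
        have hc : (F'.erase l).card ≤ k := by
          rw [Finset.card_erase_of_mem (h l hl h1 h2)]; omega
        have t1 : Rle X l ⊆ T := fun m hm => by
          rcases eq_or_lt_of_le (show X l ≤ X m from hm) with k1 | k1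
          · exact X.injective k1 ▸ h1
          · exact hT l m h1 k1
        have t2 : Rl X l ⊆ Rle X l := fun m hm => le_of_lt (a := X l) hm
        have t3 : T' ⊆ Rl X l := fun m hm => by
          rcases lt_trichotomy (X l) (X m) with k1 | k1 | k1
          · exact k1
          · exact absurd (X.injective k1 ▸ hm) h2
          · exact absurd (hT' m l hm k1) h2
        refine htr _ _ _
          (ih T (Rle X l) hT (up_Rle X l) (s1.trans (t3.trans t2)) t1 s3 (F'.erase l) hc ?_)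
          (htr _ _ _ (hone l hl (s3 h1) (fun k1 => h2 (s1 k1)))
            (ih (Rl X l) T' (up_Rl X l) hT' s1 t3 (t2.trans (t1.trans s3)) (F'.erase l) hc ?_))
        · intro m hm k1 k2
          exact Finset.mem_erase.2 ⟨fun e => k2 (e ▸ self_mem_Rle X m),
            h m hm k1 (fun k3 => k2 (t2 (t3 k3)))⟩
        · intro m hm k1 k2
          exact Finset.mem_erase.2 ⟨fun e => self_not_mem_Rl X l (e ▸ k1),
            h m hm (t1 (t2 k1)) k2⟩
      · exact ih T T' hT hT' s1 s2 s3 ∅ (by simp) (fun l k0 k1 k2 => absurd ⟨l, k0, k1, k2⟩ he)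
  exact key _ R0 R1 hR0 hR1 subset_rfl h subset_rfl F le_rfl (fun l k _ _ => k)

theorem InB.between {ρ : L → ℝ} {lo hi : ℝ} {R R' T : Set L} (h : InB ρ lo hi R)
    (h' : InB ρ lo hi R') (h1 : R' ⊆ T) (h2 : T ⊆ R) : InB ρ lo hi T :=
  fun l => ⟨fun k => h1 ((h' l).1 k), fun k k' => (h l).2 k (h2 k')⟩

variable {c : C} {Z : Cfg L} {b : Bx}

theorem vh_step {R A A' D : Set L} (h1 : Up Z.X R) (h2 : InB Z.x b.x0 b.x1 R) (a1 : Up Z.Y A)
    (a2 : InB Z.y b.y0 b.y1 A) (a3 : Up Z.Y A') (a4 : InB Z.y b.y0 b.y1 A')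
    (hD : InB Z.x b.x0 b.x1 D) :
    BoxW c Z b R R
      (opH c Z.X (R ∩ A) * Kh c Z.Y Z.X (stp c Z.Y A A' D) * (opH c Z.X (R ∩ A'))⁻¹) := by
  have base : ∀ T T' E, Up Z.Y T → InB Z.y b.y0 b.y1 T → Up Z.Y T' → InB Z.y b.y0 b.y1 T' →
      Up Z.X E → InB Z.x b.x0 b.x1 E → (∀ l, ¬ (l ∈ T ↔ l ∈ T') → (l ∈ D ↔ l ∈ E)) →
      BoxW c Z b R R
        (opH c Z.X (R ∩ T) * Kh c Z.Y Z.X (stp c Z.Y T T' D) * (opH c Z.X (R ∩ T'))⁻¹) := by
    intro T T' E t1 t2 t3 t4 e1 e2 e3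
    have := (BoxW.single (c := c) h1 h2 e1 e2 t2).trans (BoxW.single e1 e2 h1 h2 t4)
    rw [stp_congr c t1 t3 e3]
    convert this using 1
    unfold stp
    rw [map_mul, map_inv, Kh_opH c t1 e1, Kh_opH c t3 e1, Set.inter_comm T E, Set.inter_comm T' E]
    group
  have key : ∀ A A', Up Z.Y A → InB Z.y b.y0 b.y1 A → Up Z.Y A' → InB Z.y b.y0 b.y1 A' → A' ⊆ A →
      BoxW c Z b R R
        (opH c Z.X (R ∩ A) * Kh c Z.Y Z.X (stp c Z.Y A A' D) * (opH c Z.X (R ∩ A'))⁻¹) := by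
    intro A A' a1 a2 a3 a4 hs
    refine cut_ind (X := Z.Y) (p := fun T T' => BoxW c Z b R R
      (opH c Z.X (R ∩ T) * Kh c Z.Y Z.X (stp c Z.Y T T' D) * (opH c Z.X (R ∩ T'))⁻¹))
      (Z.bl_fin b).toFinset ?_ ?_ ?_ a1 a3 hs
    · intro T1 T2 T3 k1 k2
      have := k1.trans k2
      rw [← stp_mul c Z.Y T1 T2 T3 D, map_mul]
      convert this using 1
      group
    · intro l hl _ _
      have k : b.Mem (Z.x l) (Z.y l) := (Z.bl_fin b).mem_toFinset.1 hl
      have y1 := (Z.tr.at_Rle l).inB k.2.2.1 k.2.2.2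
      have y2 := (Z.tr.at_Rl l).inB k.2.2.1 k.2.2.2
      by_cases hl : l ∈ D
      · refine base _ _ (Rle Z.X l) (up_Rle _ l) y1 (up_Rl _ l) y2 (up_Rle _ l)
          ((Z.at_Rle l).inB k.1 k.2.1) fun m hm => ?_
        rw [Rle_cross hm]
        exact iff_of_true hl (self_mem_Rle _ l)
      · refine base _ _ (Rl Z.X l) (up_Rle _ l) y1 (up_Rl _ l) y2 (up_Rl _ l)
          ((Z.at_Rl l).inB k.1 k.2.1) fun m hm => ?_
        rw [Rle_cross hm]
        exact iff_of_false hl (self_not_mem_Rl _ l)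
    · intro T T' t1 t3 s1 s2 s3 hF
      have t2 := a2.between a4 (s1.trans s2) s3
      have t4 := a2.between a4 s1 (s2.trans s3)
      refine base T T' R t1 t2 t3 t4 h1 h2 fun l hl => ?_
      by_contra k
      have k1 := hD.band h2 k
      have k2 := t2.band t4 hl
      exact hl ⟨hF l ((Z.bl_fin b).mem_toFinset.2 ⟨k1.1, k1.2, k2.1, k2.2⟩), fun k3 => s2 k3⟩
  rcases up_total a1 a3 with hs | hs
  · have := (key A' A a3 a4 a1 a2 hs).symm
    rw [← stp_inv c Z.Y A' A D, map_inv]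
    convert this using 1
    group
  · exact key A A' a1 a2 a3 a4 hs

end

/-- From box words in the H-generators to box words in the V-generators. -/
theorem BoxW.vh {L C : Type} [CommGroup C] {c : C} {Z : Cfg L} {b : Bx} {R R' A A' : Set L}
    {ω : WL L C} (h : BoxW c Z.tr b.tr A A' ω) (h1 : Up Z.X R)
    (h2 : InB Z.x b.x0 b.x1 R) (h3 : Up Z.X R') (h4 : InB Z.x b.x0 b.x1 R') :
    BoxW c Z b R R'
      (opH c Z.X (R ∩ A) * Kh c Z.Y Z.X ω * (opH c Z.X (R' ∩ A'))⁻¹) := by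
  have key : BoxW c Z b R R (opH c Z.X (R ∩ A) * Kh c Z.Y Z.X ω * (opH c Z.X (R ∩ A'))⁻¹) := by
    induction h with
    | refl _ _ =>
      rw [map_one, mul_one, mul_inv_cancel]
      exact BoxW.refl h1 h2
    | step h0 k1 k2 k3 ih =>
      have := ih.trans (vh_step (c := c) h1 h2 h0.right.1 h0.right.2 k1 k2 k3)
      rw [map_mul]
      convert this using 1
      simp only [Cfg.tr_X]
      group
  have := key.trans (BoxW.single h1 h2 h3 h4 h.right.2)
  convert this using 1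
  unfold stp
  group

/-- The same for points adjacent to labels of the box. -/
theorem BoxW.kap {L C : Type} [CommGroup C] {c : C} {Z : Cfg L} {b : Bx} {l m : L}
    {g g' : WL L C} (h : BoxW c Z b (Rl Z.X l) (Rl Z.X m) (g⁻¹ * g')) (hl : l ∈ Z.bl b)
    (hm : m ∈ Z.bl b) :
    BoxW c Z.tr b.tr (Rl Z.Y l) (Rl Z.Y m) ((kap c Z.X Z.Y l g)⁻¹ * kap c Z.X Z.Y m g') := by
  have := BoxW.vh (Z := Z.tr) (b := b.tr) h (up_Rl Z.Y l) ((Z.tr.at_Rl l).inB hl.2.2.1 hl.2.2.2)
    (up_Rl Z.Y m) ((Z.tr.at_Rl m).inB hm.2.2.1 hm.2.2.2)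
  convert this using 1
  rw [kap_eq, kap_eq, map_mul, map_inv, UR_comm Z.X Z.Y l, UR_comm Z.X Z.Y m]
  simp only [Cfg.tr_X, Cfg.tr_Y, UR]
  group

end Pool.Agent.E5f
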