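import Pool.Agent.E5f.MoDefs2
import Pool.Agent.E5f.MoVH

set_option autoImplicit false

namespace Pool.Agent.E5f

open Filter Classical

namespace Fam
variable {E : Emb} {Q P : Type} (F : Fam E Q P)

/-- A self-map of the base together with a compatible relabelling. -/
structure Adm (τ : Q → Q) (σ : Equiv.Perm Lam) (s t s' t' : ℝ) : Prop where
  mv : ∀ p q, F.B.MV p q → F.B.MV (τ p) (τ q)
  mh : ∀ p q, F.B.MH p q → F.B.MH (τ p) (τ q)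
  kx : ∀ q a b, E.key (F.B.u q) a < E.key (F.B.u q) b ↔
    E.key (F.B.u (τ q)) (σ a) < E.key (F.B.u (τ q)) (σ b)
  ky : ∀ q a b, E.tr.key (F.B.w q) a < E.tr.key (F.B.w q) b ↔
    E.tr.key (F.B.w (τ q)) (σ a) < E.tr.key (F.B.w (τ q)) (σ b)
  px : ∀ q l, E.pos (F.B.u (τ q)).1 (σ l) = s * E.pos (F.B.u q).1 l + t
  py : ∀ q l, E.tr.pos (F.B.w (τ q)).1 (σ l) = s' * E.tr.pos (F.B.w q).1 l + t'
  s0 : 0 < s
  s0' : 0 < s'

/-- The map `f` covers `τ` at `q` with multiplier `k`. -/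
def Cov (τ : Q → Q) (σ : Equiv.Perm Lam) (f : P → P) (q : Q) (k : WL Lam C2) : Prop :=
  ∀ x, F.lb (f x) = σ (F.lb x) ∧ F.gv (τ q) (f x) = k * rlA σ (F.gv q x)

variable {F} {τ τ' : Q → Q} {σ σ' : Equiv.Perm Lam} {s t s' t' : ℝ} {f f' : P → P} {q : Q}
  {k k' : WL Lam C2}

theorem Adm.tr (h : F.Adm τ σ s t s' t') : F.tr.Adm τ σ s' t' s t :=
  ⟨h.mh, h.mv, h.ky, h.kx, h.py, h.px, h.s0', h.s0⟩

theorem Cov.tr (h : F.Adm τ σ s t s' t') (hc : F.Cov τ σ f q k) : ∃ k', F.tr.Cov τ σ f q k' := by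
  refine ⟨Kh c2 (E.key (F.B.u (τ q))) (E.tr.key (F.B.w (τ q))) k, fun x => ⟨(hc x).1, ?_⟩⟩
  show F.gh (τ q) (f x) = _ * rlA σ (F.gh q x)
  rw [F.relv, F.relv, (hc x).1, (hc x).2, kap_mul, rlA_kap σ c2 (h.kx q) (h.ky q)]

theorem Cov.mv (h : F.Adm τ σ s t s' t') (hc : F.Cov τ σ f q k) {q' : Q} (hm : F.B.MV q q') :
    F.Cov τ σ f q' k := fun x =>
  ⟨(hc x).1, by rw [← F.mv _ _ _ (h.mv _ _ hm), ← F.mv _ _ _ hm, (hc x).2]⟩

theorem Cov.all (h : F.Adm τ σ s t s' t') (hc : F.Cov τ σ f q k) (q' : Q) :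
    ∃ k', F.Cov τ σ f q' k' := by
  induction F.B.conn q q' with
  | refl => exact ⟨k, hc⟩
  | tail _ h2 ih =>
    obtain ⟨k1, h1⟩ := ih
    rcases h2 with h2 | h2
    · exact ⟨k1, h1.mv h h2⟩
    · obtain ⟨k2, h3⟩ := h1.tr h
      exact (h3.mv h.tr h2).tr h.tr

theorem Cov.dv (h : F.Adm τ σ s t s' t') (hc : F.Cov τ σ f q k) (q' : Q) (x y : P) :
    F.dv (τ q') (f x) (f y) = s * F.dv q' x y := by
  obtain ⟨k1, h1⟩ := hc.all h q'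
  obtain ⟨b, hb⟩ := F.cv q' x y
  have e : (F.gv (τ q') (f x))⁻¹ * F.gv (τ q') (f y) = rlA σ ((F.gv q' x)⁻¹ * F.gv q' y) := by
    rw [(h1 x).2, (h1 y).2, map_mul, map_inv]; group
  unfold Fam.dv
  rw [e, (h1 x).1, (h1 y).1, h.px, h.px]
  exact hb.dW_rl (Cfg.at_Rl _ _) (Cfg.at_Rl _ _) σ h.s0.le (h.px q')

theorem Cov.dh (h : F.Adm τ σ s t s' t') (hc : F.Cov τ σ f q k) (q' : Q) (x y : P) :
    F.dh (τ q') (f x) (f y) = s' * F.dh q' x y := by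
  obtain ⟨k1, h1⟩ := hc.tr h
  exact h1.dv h.tr q' x y

theorem Adm.ex (h : F.Adm τ σ s t s' t') (q : Q) {x0 y0 : P} (hl : F.lb y0 = σ (F.lb x0)) :
    ∃ f k, F.Cov τ σ f q k ∧ f x0 = y0 := by
  have key : ∀ x, ∃ y, F.lb y = σ (F.lb x) ∧
      F.gv (τ q) y = (F.gv (τ q) y0 * (rlA σ (F.gv q x0))⁻¹) * rlA σ (F.gv q x) := by
    intro x
    obtain ⟨b, hb⟩ := F.cv q x0 x
    have h1 := hb.aff (Z' := E.fc (F.B.u (τ q)) (F.B.w (τ q))) σ h.s0 h.s0' (h.kx q) (h.px q)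
      (h.py q)
    rw [Rl_image σ (h.kx q), Rl_image σ (h.kx q), ← hl] at h1
    obtain ⟨y, h2, h3⟩ := F.clv (τ q) y0 _ _ _ h1
    refine ⟨y, h2, ?_⟩
    rw [h3, map_mul, map_inv, mul_assoc]
  choose f hf using key
  refine ⟨f, _, hf, F.ext (τ q) _ _ ((hf x0).1.trans hl.symm) ?_⟩
  rw [(hf x0).2, inv_mul_cancel_right]

theorem Cov.eq (hc : F.Cov τ σ f q k) (hc' : F.Cov τ σ f' q k) : f = f' :=
  funext fun x => F.ext (τ q) _ _ ((hc x).1.trans (hc' x).1.symm) ((hc x).2.trans (hc' x).2.symm)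

theorem Cov.eq' (hc : F.Cov τ σ f q k) (hc' : F.Cov τ σ f' q k') {x0 : P} (h : f x0 = f' x0) :
    f = f' := by
  have e : k = k' := by
    have h1 := (hc x0).2
    rw [h, (hc' x0).2] at h1
    exact (mul_right_cancel h1).symm
  subst e
  exact hc.eq hc'

theorem Cov.comp (hc : F.Cov τ σ f (τ' q) k) (hc' : F.Cov τ' σ' f' q k') :
    F.Cov (τ ∘ τ') (σ * σ') (f ∘ f') q (k * rlA σ k') := fun x => by
  refine ⟨by rw [Function.comp_apply, (hc _).1, (hc' x).1]; rfl, ?_⟩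
  rw [Function.comp_apply, Function.comp_apply, (hc _).2, (hc' x).2, map_mul, map_mul, mul_assoc]
  rfl

theorem cov_id (F : Fam E Q P) (q : Q) : F.Cov id 1 id q 1 := fun x => ⟨rfl, by simp⟩

end Fam

end Pool.Agent.E5f
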