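import Pool.Agent.E5f.HypDefs

/-!
The groups: surface groups, the figure-eight group, the orbifold group of a torus with three cone
points of order two, and the arithmetic data.
-/

set_option autoImplicit false

namespace Pool.Agent.E5f

/-- The surface relator. -/
abbrev srel (g : ℕ) : FreeGroup (Fin g ⊕ Fin g) :=
  (List.ofFn (fun k : Fin g =>
    (FreeGroup.of (Sum.inl k) * FreeGroup.of (Sum.inr k) *
      (FreeGroup.of (Sum.inl k))⁻¹ * (FreeGroup.of (Sum.inr k))⁻¹ :
      FreeGroup (Fin g ⊕ Fin g)))).prod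

/-- The surface group of genus `g`. -/
abbrev SG (g : ℕ) : Type := PresentedGroup ({srel g} : Set (FreeGroup (Fin g ⊕ Fin g)))

/-- Standard generators of the surface group. -/
def sgen (g : ℕ) : Fin g ⊕ Fin g → SG g := fun i => PresentedGroup.of i

/-- Relators of the figure-eight group on `a = 0`, `b = 1`, `t = 2`:
`t a t⁻¹ = a b`, `t b t⁻¹ = b a b`. -/
def rel8 : Set (FreeGroup (Fin 3)) :=
  {FreeGroup.of 2 * FreeGroup.of 0 * (FreeGroup.of 2)⁻¹ * (FreeGroup.of 0 * FreeGroup.of 1)⁻¹,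
   FreeGroup.of 2 * FreeGroup.of 1 * (FreeGroup.of 2)⁻¹ *
     (FreeGroup.of 1 * FreeGroup.of 0 * FreeGroup.of 1)⁻¹}

/-- The figure-eight group. -/
abbrev G8 : Type := PresentedGroup rel8

def g8a : G8 := PresentedGroup.of 0
def g8b : G8 := PresentedGroup.of 1
def g8t : G8 := PresentedGroup.of 2
/-- The longitude. -/
def g8c : G8 := g8a * g8b * g8a⁻¹ * g8b⁻¹

/-- The exponent of `t`. -/
def g8degHom : G8 →* Multiplicative ℤ :=
  PresentedGroup.toGroup (f := fun i : Fin 3 => if i = 2 then Multiplicative.ofAdd (1 : ℤ) else 1)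
    (by
      intro r hr
      rcases hr with rfl | rfl <;> simp)

/-- The exponent of `t` as an integer. -/
def g8deg (γ : G8) : ℤ := Multiplicative.toAdd (g8degHom γ)

/-- Relators of the orbifold group with `n` cone points of order `m` (`m = 0`: punctures) on
`a = inl 0`, `b = inl 1`, `c i = inr i`. -/
def relO (n m : ℕ) : Set (FreeGroup (Fin 2 ⊕ Fin n)) :=
  {r | (∃ i : Fin n, r = (FreeGroup.of (Sum.inr i)) ^ m) ∨
    r = (List.ofFn (fun i : Fin n => (FreeGroup.of (Sum.inr i) : FreeGroup (Fin 2 ⊕ Fin n)))).prod *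
      FreeGroup.of (Sum.inl 1) * FreeGroup.of (Sum.inl 0) * (FreeGroup.of (Sum.inl 1))⁻¹ *
      (FreeGroup.of (Sum.inl 0))⁻¹}

/-- The orbifold group of a torus with `n` cone points of order `m`. -/
abbrev OG (n m : ℕ) : Type := PresentedGroup (relO n m)

/-- The intersection of the kernels of all homomorphisms to the group of order two. -/
def ker2 (G : Type) [Group G] : Subgroup G := ⨅ ψ : G →* Multiplicative (ZMod 2), ψ.ker

/-- Arithmetic data: a surface group in the figure-eight group and a left invariant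
pseudo-distance between cusps. -/
structure Arith (h : ℕ) where
  ι : SG h →* G8
  L : G8 → G8 → ℝ
  nonneg : ∀ g g', 0 ≤ L g g'
  symm : ∀ g g', L g g' = L g' g
  tri : ∀ g g' g'', L g g'' ≤ L g g' + L g' g''
  left : ∀ (b : SG h) g g', L (ι b * g) (ι b * g') = L g g'
  right_c : ∀ g g', L (g * g8c) g' = L g g'
  right_t : ∀ g g', L (g * g8t) g' = L g g'
  bdd : ∀ f : G8, ∃ C : ℝ, ∀ g, L g (g * f) ≤ C
  low : ∃ K : ℝ, 0 ≤ K ∧ ∀ b : SG h, (wl (sgen h) b : ℝ) ≤ K * L 1 (ι b) + K

end Pool.Agent.E5f
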