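import Pool.Agent.E5f.MoVH
import Pool.Agent.E5f.GrpDefs

/-!
Tools for the presentation of the group of translations: normal forms in the orbifold group,
row-wise conjugation maps, flipping of status sets.
-/

set_option autoImplicit false

namespace Pool.Agent.E5f

section og
variable {n m : ℕ}

/-- The generator `a`. -/
def oa (n m : ℕ) : OG n m := PresentedGroup.of (Sum.inl 0)
/-- The generator `b`. -/
def ob (n m : ℕ) : OG n m := PresentedGroup.of (Sum.inl 1)
/-- The generators `c i`. -/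
def oc (m : ℕ) (i : Fin n) : OG n m := PresentedGroup.of (Sum.inr i)

theorem oc_pow (i : Fin n) : oc m i ^ m = 1 := by
  have h : PresentedGroup.mk (relO n m) ((FreeGroup.of (Sum.inr i)) ^ m) = 1 :=
    PresentedGroup.one_of_mem (Or.inl ⟨i, rfl⟩)
  rw [map_pow] at h
  exact h

theorem og_rel : (List.ofFn (fun i : Fin n => oc m i)).prod * ob n m * oa n m * (ob n m)⁻¹ *
    (oa n m)⁻¹ = 1 := by
  have h : PresentedGroup.mk (relO n m) _ = 1 := PresentedGroup.one_of_mem (Or.inr rfl)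
  simp only [map_mul, map_inv, map_list_prod, List.map_ofFn] at h
  exact h

/-- The conjugates of the cone generators along the lattice. -/
def ocp (m : ℕ) (i : Fin n) (p q : ℤ) : OG n m :=
  oa n m ^ p * ob n m ^ q * oc m i * (oa n m ^ p * ob n m ^ q)⁻¹

/-- Normal form in the orbifold group. -/
theorem og_nf (N : Subgroup (OG n m)) (hN : ∀ i p q, ocp m i p q ∈ N)
    (hN' : ∀ x ∈ N, x ∈ Subgroup.closure {y | ∃ i p q, y = ocp m i p q}) (o : OG n m) :
    ∃ x ∈ N, ∃ p q : ℤ, o = x * oa n m ^ p * ob n m ^ q := by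
  have conj : ∀ g : OG n m, (∀ i p q, g * ocp m i p q * g⁻¹ ∈ N) → ∀ x ∈ N, g * x * g⁻¹ ∈ N := by
    intro g hg x hx
    refine Subgroup.closure_induction (p := fun x _ => g * x * g⁻¹ ∈ N) ?_ ?_ ?_ ?_ (hN' x hx)
    · rintro y ⟨i, p, q, rfl⟩
      exact hg i p q
    · simp
    · intro y z _ _ hy hz
      have : g * (y * z) * g⁻¹ = (g * y * g⁻¹) * (g * z * g⁻¹) := by group
      rw [this]
      exact N.mul_mem hy hz
    · intro y _ hy
      have : g * y⁻¹ * g⁻¹ = (g * y * g⁻¹)⁻¹ := by group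
      rw [this]
      exact N.inv_mem hy
  have ha : ∀ s : ℤ, ∀ x ∈ N, oa n m ^ s * x * (oa n m ^ s)⁻¹ ∈ N := fun s =>
    conj _ fun i p q => by
      have : oa n m ^ s * ocp m i p q * (oa n m ^ s)⁻¹ = ocp m i (s + p) q := by
        unfold ocp; rw [zpow_add]; group
      rw [this]
      exact hN _ _ _
  have hT : ∀ q : ℤ, ob n m ^ q * (List.ofFn (fun i : Fin n => oc m i)).prod *
      (ob n m ^ q)⁻¹ ∈ N := by
    intro q
    have h1 := map_list_prod (MulAut.conj (ob n m ^ q)) (List.ofFn (fun i : Fin n => oc m i))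
    rw [MulAut.conj_apply] at h1
    rw [h1]
    refine N.list_prod_mem ?_
    intro x hx
    obtain ⟨y, hy, rfl⟩ := List.mem_map.1 hx
    obtain ⟨i, rfl⟩ := List.mem_ofFn.1 hy
    have := hN i 0 q
    rw [MulAut.conj_apply]
    simpa [ocp] using this
  have hT' : (List.ofFn (fun i : Fin n => oc m i)).prod =
      oa n m * ob n m * (oa n m)⁻¹ * (ob n m)⁻¹ := by
    have := og_rel (n := n) (m := m)
    calc _ = ((List.ofFn (fun i : Fin n => oc m i)).prod * ob n m * oa n m * (ob n m)⁻¹ *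
        (oa n m)⁻¹) * (oa n m * ob n m * (oa n m)⁻¹ * (ob n m)⁻¹) := by group
      _ = _ := by rw [this, one_mul]
  have comm : ∀ g : OG n m, g * oa n m * g⁻¹ * (oa n m)⁻¹ ∈ N → ∀ p : ℤ,
      g * oa n m ^ p * g⁻¹ * (oa n m ^ p)⁻¹ ∈ N := by
    intro g hg p
    induction p using Int.induction_on with
    | zero => simp
    | succ p ih =>
      have : g * oa n m ^ ((p : ℤ) + 1) * g⁻¹ * (oa n m ^ ((p : ℤ) + 1))⁻¹ =
          (g * oa n m ^ (p : ℤ) * g⁻¹ * (oa n m ^ (p : ℤ))⁻¹) *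
          (oa n m ^ (p : ℤ) * (g * oa n m * g⁻¹ * (oa n m)⁻¹) * (oa n m ^ (p : ℤ))⁻¹) := by
        group
      rw [this]
      exact N.mul_mem ih (ha _ _ hg)
    | pred p ih =>
      have : g * oa n m ^ (-(p : ℤ) - 1) * g⁻¹ * (oa n m ^ (-(p : ℤ) - 1))⁻¹ =
          (g * oa n m ^ (-(p : ℤ)) * g⁻¹ * (oa n m ^ (-(p : ℤ)))⁻¹) *
          (oa n m ^ (-(p : ℤ) - 1) * (g * oa n m * g⁻¹ * (oa n m)⁻¹)⁻¹ *
            (oa n m ^ (-(p : ℤ) - 1))⁻¹) := by
        group
      rw [this]
      exact N.mul_mem ih (ha _ _ (N.inv_mem hg))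
  have hb : ∀ ε : ℤ, ε = 1 ∨ ε = -1 → ∀ p : ℤ,
      ob n m ^ ε * oa n m ^ p * (ob n m ^ ε)⁻¹ * (oa n m ^ p)⁻¹ ∈ N := by
    rintro ε (rfl | rfl)
    · refine comm _ ?_
      have h0 := N.inv_mem (hT 0)
      rw [hT'] at h0
      convert h0 using 1
      group
    · refine comm _ ?_
      have h0 := hT (-1)
      rw [hT'] at h0
      convert h0 using 1
      group
  have hb' : ∀ ε : ℤ, ε = 1 ∨ ε = -1 → ∀ x ∈ N, ob n m ^ ε * x * (ob n m ^ ε)⁻¹ ∈ N :=
    fun ε hε => conj _ fun i p q => by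
      have : ob n m ^ ε * ocp m i p q * (ob n m ^ ε)⁻¹ =
          (ob n m ^ ε * oa n m ^ p * (ob n m ^ ε)⁻¹ * (oa n m ^ p)⁻¹) * ocp m i p (ε + q) *
          (ob n m ^ ε * oa n m ^ p * (ob n m ^ ε)⁻¹ * (oa n m ^ p)⁻¹)⁻¹ := by
        unfold ocp; rw [zpow_add]; group
      rw [this]
      exact N.mul_mem (N.mul_mem (hb ε hε p) (hN _ _ _)) (N.inv_mem (hb ε hε p))
  have step : ∀ (j : Fin 2 ⊕ Fin n) (ε : ℤ), ε = 1 ∨ ε = -1 → ∀ o : OG n m,
      (∃ x ∈ N, ∃ p q : ℤ, o = x * oa n m ^ p * ob n m ^ q) →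
      ∃ x ∈ N, ∃ p q : ℤ, (PresentedGroup.of j : OG n m) ^ ε * o =
        x * oa n m ^ p * ob n m ^ q := by
    rintro j ε hε o ⟨x, hx, p, q, rfl⟩
    rcases j with j | i
    · fin_cases j
      · refine ⟨_, ha ε x hx, ε + p, q, ?_⟩
        show oa n m ^ ε * _ = _
        rw [zpow_add]; group
      · refine ⟨_, N.mul_mem (hb' ε hε x hx) (hb ε hε p), p, ε + q, ?_⟩
        show ob n m ^ ε * _ = _
        rw [zpow_add]; group
    · have h0 : oc m i ∈ N := by simpa [ocp] using hN i 0 0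
      refine ⟨_, N.mul_mem (N.zpow_mem h0 ε) hx, p, q, ?_⟩
      show oc m i ^ ε * _ = _
      group
  have ho : o ∈ Subgroup.closure (Set.range (PresentedGroup.of : _ → OG n m)) := by
    rw [PresentedGroup.closure_range_of]; trivial
  refine Subgroup.closure_induction_left
    (p := fun o _ => ∃ x ∈ N, ∃ p q : ℤ, o = x * oa n m ^ p * ob n m ^ q) ?_ ?_ ?_ ho
  · exact ⟨1, N.one_mem, 0, 0, by simp⟩
  · rintro _ ⟨j, rfl⟩ y _ hy
    simpa using step j 1 (Or.inl rfl) y hy
  · rintro _ ⟨j, rfl⟩ y _ hy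
    simpa using step j (-1) (Or.inr rfl) y hy

end og

section words
variable {L C : Type} [CommGroup C]

/-- Conjugation of every letter by an element which depends on the row. -/
noncomputable def rowc {G : Type} [Group G] (ι : W L C →* G) (row : L → ℤ) (M : ℤ → G) :
    W L C →* G :=
  lf (fun l => (MulAut.conj (M (row l))).toMonoidHom.comp (ι.comp (ltH l)))

theorem rowc_lt {G : Type} [Group G] (ι : W L C →* G) (row : L → ℤ) (M : ℤ → G) (l : L) (x : C) :
    rowc ι row M (lt l x) = M (row l) * ι (lt l x) * (M (row l))⁻¹ := by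
  unfold rowc; rw [lf_lt]; rfl

theorem rowc_row {G : Type} [Group G] (ι : W L C →* G) (row : L → ℤ) (M : ℤ → G) {r : ℤ}
    {g : W L C} (hg : Sup {l | row l = r} g) : rowc ι row M g = M r * ι g * (M r)⁻¹ :=
  W_ext_sup (f := rowc ι row M) (f' := (MulAut.conj (M r)).toMonoidHom.comp ι)
    (fun l hl x => by rw [rowc_lt, show row l = r from hl]; rfl) hg

theorem rowc_injective (row : L → ℤ) (O M : ℤ → W L C) (hO : ∀ r, Sup {l | row l = r} (O r))
    (hM : ∀ r, M r = O r * M (r + 1)) (N : ℤ) (hN : ∀ r, N ≤ r → M r = 1) :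
    Function.Injective (rowc (MonoidHom.id _) row (fun r => (M r)⁻¹)) := by
  let E' : ℕ → W L C := fun k => Nat.rec 1 (fun k e => e * O (N - k - 1)) k
  have E0 : E' 0 = 1 := rfl
  have E1 : ∀ k : ℕ, E' (k + 1) = E' k * O (N - k - 1) := fun _ => rfl
  let g := rowc (MonoidHom.id (W L C)) row (fun r => E' (N - r).toNat)
  have key : ∀ k : ℕ, g (M (N - k)) = E' k := by
    intro k
    induction k with
    | zero => rw [hN _ (by simp), map_one, E0]
    | succ k ih =>
      have e1 : N - ((k + 1 : ℕ) : ℤ) + 1 = N - k := by push_cast; ring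
      have e2 : N - ((k + 1 : ℕ) : ℤ) = N - k - 1 := by push_cast; ring
      have e3 : (N - (N - k - 1)).toNat = k + 1 := by omega
      rw [hM, map_mul, e1, ih, e2, rowc_row _ _ _ (hO _), e3, E1]
      simp only [MonoidHom.id_apply]
      group
  have key2 : ∀ r, g (M r) = E' (N - r).toNat := by
    intro r
    rcases le_total N r with h | h
    · rw [hN r h, map_one, show (N - r).toNat = 0 by omega, E0]
    · have := key (N - r).toNat
      rwa [show N - ((N - r).toNat : ℤ) = r by omega] at this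
  have : g.comp (rowc (MonoidHom.id _) row (fun r => (M r)⁻¹)) = MonoidHom.id _ := by
    refine W_ext fun l x => ?_
    simp only [MonoidHom.comp_apply, rowc_lt, map_mul, map_inv, MonoidHom.id_apply, inv_inv, key2]
    rw [show g (lt l x) = _ from rowc_lt _ _ _ l x]
    simp only [MonoidHom.id_apply]
    group
  exact Function.LeftInverse.injective (g := g) (fun w => DFunLike.congr_fun this w)

/-- Flipping: the loops formed with the reference steps lie in any subgroup which contains the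
reference loops around the labels. -/
theorem flip_mem (c : C) (X : Od L) (R0 D0 : Set L) (K : Subgroup (WL L C))
    (hK : ∀ l, stp c X R0 (Rl X l) D0 * emb (lt l c) * (stp c X R0 (Rl X l) D0)⁻¹ ∈ K)
    {R R' D : Set L} (hR : Up X R) (hR' : Up X R')
    (hD : {l | ¬ (l ∈ R ↔ l ∈ R') ∧ ¬ (l ∈ D ↔ l ∈ D0)}.Finite) :
    stp c X R0 R D0 * stp c X R R' D * (stp c X R0 R' D0)⁻¹ ∈ K := by
  classical
  have mul : ∀ R1 R2 R3, stp c X R0 R1 D0 * stp c X R1 R2 D * (stp c X R0 R2 D0)⁻¹ ∈ K →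
      stp c X R0 R2 D0 * stp c X R2 R3 D * (stp c X R0 R3 D0)⁻¹ ∈ K →
      stp c X R0 R1 D0 * stp c X R1 R3 D * (stp c X R0 R3 D0)⁻¹ ∈ K := by
    intro R1 R2 R3 h1 h2
    have := K.mul_mem h1 h2
    rw [← stp_mul c X R1 R2 R3 D]
    convert this using 1
    group
  have one : ∀ l, stp c X R0 (Rle X l) D0 * stp c X (Rle X l) (Rl X l) D *
      (stp c X R0 (Rl X l) D0)⁻¹ ∈ K := by
    intro l
    rw [← stp_mul c X R0 (Rl X l) (Rle X l) D0, ← stp_inv c X (Rle X l)]
    by_cases h1 : l ∈ D <;> by_cases h2 : l ∈ D0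
    · rw [stp_Rle c X l h1, stp_Rle c X l h2]; simp
    · rw [stp_Rle c X l h1, stp_Rle' c X l h2]; simpa using hK l
    · rw [stp_Rle' c X l h1, stp_Rle c X l h2]
      have := K.inv_mem (hK l)
      convert this using 1
      group
    · rw [stp_Rle' c X l h1, stp_Rle' c X l h2]; simp
  have key : ∀ R R' : Set L, Up X R → Up X R' → R' ⊆ R → ∀ F : Finset L,
      (∀ l, l ∈ R → l ∉ R' → ¬ (l ∈ D ↔ l ∈ D0) → l ∈ F) →
      stp c X R0 R D0 * stp c X R R' D * (stp c X R0 R' D0)⁻¹ ∈ K := by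
    intro R R' hR hR' hs F hF
    refine cut_ind (X := X) (p := fun T T' =>
      stp c X R0 T D0 * stp c X T T' D * (stp c X R0 T' D0)⁻¹ ∈ K) F mul (fun l _ _ _ => one l)
      ?_ hR hR' hs
    intro T T' t1 t2 s1 s2 s3 h
    rw [stp_congr c t1 t2 (D := D) (D' := D0), stp_mul, mul_inv_cancel]
    · exact K.one_mem
    · intro l hl
      by_contra h2
      have k1 : l ∈ T := by
        by_contra k
        exact hl ⟨fun k' => absurd k' k, fun k' => s2 k'⟩
      have k2 : l ∉ T' := fun k => hl ⟨fun _ => k, fun _ => k1⟩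
      exact k2 (h l (hF l (s3 k1) (fun k => k2 (s1 k)) h2) k1)
  rcases up_total hR hR' with h1 | h1
  · have := K.inv_mem (key R' R hR' hR h1 hD.toFinset
      (fun l k1 k2 k3 => hD.mem_toFinset.2 ⟨fun k => k2 (k.2 k1), k3⟩))
    rw [← stp_inv c X R' R D]
    convert this using 1
    group
  · exact key R R' hR hR' h1 hD.toFinset
      (fun l k1 k2 k3 => hD.mem_toFinset.2 ⟨fun k => k2 (k.1 k1), k3⟩)

end words

end Pool.Agent.E5f
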