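import Pool.Agent.E5f.MoDefs2
import Pool.Agent.E5f.MoPresA

/-!
The group of translations of a grid of labels is the orbifold group of a torus.
-/

set_option autoImplicit false

namespace Pool.Agent.E5f

open Filter Classical SemidirectProduct

section
variable {L C : Type} [CommGroup C]

theorem Kh_emb_lt (c : C) (X Y : Od L) (l : L) (x : C) :
    Kh c X Y (emb (lt l x)) = (opH c Y (UR X Y l))⁻¹ * emb (lt l x⁻¹) * opH c Y (UR X Y l) :=
  WL_ext fun S => by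
    simp only [pj_Kh, map_mul, map_inv, pj_opH, pj_emb, ret_lt]
    split_ifs
    · rw [Kf_lt]
    · simp

theorem W_ext_gen {H : Type} [Group H] {c : C} (hg : ∀ x : C, ∃ k : ℤ, x = c ^ k)
    {f f' : W L C →* H} (h : ∀ l, f (lt l c) = f' (lt l c)) : f = f' :=
  W_ext fun l x => by
    obtain ⟨k, rfl⟩ := hg x
    rw [show (lt l (c ^ k) : W L C) = lt l c ^ k from map_zpow (ltH l) c k, map_zpow, map_zpow, h]

theorem lex_aux {n : ℕ} (i j : Fin n) (p q : ℤ) :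
    (n : ℤ) * p + i < n * q + j ↔ p < q ∨ (p = q ∧ i < j) := by
  have h1 : ((i : ℕ) : ℤ) < n := by exact_mod_cast i.2
  have h2 : ((j : ℕ) : ℤ) < n := by exact_mod_cast j.2
  have h3 : (0 : ℤ) ≤ (i : ℕ) := by positivity
  have h4 : (0 : ℤ) ≤ (j : ℕ) := by positivity
  rcases lt_trichotomy p q with h | h | h
  · refine iff_of_true ?_ (Or.inl h)
    nlinarith [mul_le_mul_of_nonneg_left (show p + 1 ≤ q from h) (show (0 : ℤ) ≤ n by omega)]
  · subst h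
    simp
  · refine iff_of_false ?_ (by omega)
    nlinarith [mul_le_mul_of_nonneg_left (show q + 1 ≤ p from h) (show (0 : ℤ) ≤ n by omega)]

namespace Grid
variable {Z : Cfg L} {n : ℕ} (G : Grid Z n)

/-- The row of a label. -/
def p1 (l : L) : ℤ := (G.e l).2.1
/-- The column of a label. -/
def p2 (l : L) : ℤ := (G.e l).2.2
/-- The type of a label. -/
def ty (l : L) : Fin n := (G.e l).1
/-- The label with given coordinates. -/
def lb (i : Fin n) (p q : ℤ) : L := G.e.symm (i, p, q)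

@[simp] theorem p1_lb (i : Fin n) (p q : ℤ) : G.p1 (G.lb i p q) = p := by simp [p1, lb]
@[simp] theorem p2_lb (i : Fin n) (p q : ℤ) : G.p2 (G.lb i p q) = q := by simp [p2, lb]
@[simp] theorem ty_lb (i : Fin n) (p q : ℤ) : G.ty (G.lb i p q) = i := by simp [ty, lb]
theorem lb_eq (l : L) : G.lb (G.ty l) (G.p1 l) (G.p2 l) = l := G.e.symm_apply_apply l

theorem lab_ext {l m : L} (h0 : G.ty l = G.ty m) (h1 : G.p1 l = G.p1 m) (h2 : G.p2 l = G.p2 m) :
    l = m := by rw [← G.lb_eq l, h0, h1, h2, G.lb_eq]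

@[simp] theorem p1_tv (v : ℤ × ℤ) (l : L) : G.p1 (G.tv v l) = G.p1 l + v.1 := by simp [p1, tv]
@[simp] theorem p2_tv (v : ℤ × ℤ) (l : L) : G.p2 (G.tv v l) = G.p2 l + v.2 := by simp [p2, tv]
@[simp] theorem ty_tv (v : ℤ × ℤ) (l : L) : G.ty (G.tv v l) = G.ty l := by simp [ty, tv]

theorem tv_lb (v : ℤ × ℤ) (i : Fin n) (p q : ℤ) :
    G.tv v (G.lb i p q) = G.lb i (p + v.1) (q + v.2) := G.lab_ext (by simp) (by simp) (by simp)

theorem tv_zero : G.tv 0 = 1 := Equiv.ext fun l => G.lab_ext (by simp) (by simp) (by simp)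

theorem tv_add (v w : ℤ × ℤ) : G.tv (v + w) = G.tv v * G.tv w :=
  Equiv.ext fun l => G.lab_ext (by simp) (by simp; ring) (by simp; ring)

/-- Translations as a homomorphism. -/
def tvH : Multiplicative (ℤ × ℤ) →* Equiv.Perm L where
  toFun v := G.tv v.toAdd
  map_one' := G.tv_zero
  map_mul' _ _ := G.tv_add _ _

theorem tv_neg (v : ℤ × ℤ) : G.tv (-v) = (G.tv v)⁻¹ := map_inv G.tvH (Multiplicative.ofAdd v)

theorem tv_inj (hn : 0 < n) : Function.Injective G.tv := by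
  intro v w h
  have h1 := G.p1_tv v (G.lb ⟨0, hn⟩ 0 0)
  have h2 := G.p2_tv v (G.lb ⟨0, hn⟩ 0 0)
  rw [h, G.p1_tv] at h1
  rw [h, G.p2_tv] at h2
  exact Prod.ext (by omega) (by omega)

theorem x_eq (l : L) : Z.x l = G.ox (G.ty l) + G.p1 l + Real.goldenRatio * G.p2 l := G.hx l
theorem y_eq (l : L) : Z.y l = G.oy (G.ty l) + G.p1 l + Real.goldenConj * G.p2 l := G.hy l

theorem x_tv (v : ℤ × ℤ) (l : L) :
    Z.x (G.tv v l) = 1 * Z.x l + (v.1 + Real.goldenRatio * v.2) := by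
  rw [G.x_eq, G.x_eq l]; simp; ring

theorem y_tv (v : ℤ × ℤ) (l : L) :
    Z.y (G.tv v l) = 1 * Z.y l + (v.1 + Real.goldenConj * v.2) := by
  rw [G.y_eq, G.y_eq l]; simp; ring

theorem X_tv (v : ℤ × ℤ) (a b : L) : Z.X a < Z.X b ↔ Z.X (G.tv v a) < Z.X (G.tv v b) := by
  rw [Z.X_iff G.inj, Z.X_iff G.inj, G.x_tv, G.x_tv]; simp

theorem Rs_tv (v : ℤ × ℤ) :
    G.tv v '' Rs Z.x (0, false) = Rs Z.x (v.1 + Real.goldenRatio * v.2, false) := by
  rw [Rs_image (G.tv v) one_pos (G.x_tv v)]; simp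

/-- The lexicographic order by row, column and type. -/
noncomputable def Yp : Od L :=
  ⟨fun l => toLex ((G.p1 l : ℝ), (((n : ℤ) * G.p2 l + G.ty l : ℤ) : ℝ)), fun l m h => by
    have h0 := toLex.injective h
    have h1 : G.p1 l = G.p1 m := Int.cast_injective (α := ℝ) (congrArg Prod.fst h0)
    have h2 : (n : ℤ) * G.p2 l + G.ty l = n * G.p2 m + G.ty m :=
      Int.cast_injective (α := ℝ) (congrArg Prod.snd h0)
    have h3 := (lex_aux (G.ty l) (G.ty m) (G.p2 l) (G.p2 m)).not.1 (by omega)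
    have h4 := (lex_aux (G.ty m) (G.ty l) (G.p2 m) (G.p2 l)).not.1 (by omega)
    exact G.lab_ext (by omega) h1 (by omega)⟩

theorem Yp_lt (l m : L) : G.Yp l < G.Yp m ↔ G.p1 l < G.p1 m ∨ (G.p1 l = G.p1 m ∧
    (G.p2 l < G.p2 m ∨ (G.p2 l = G.p2 m ∧ G.ty l < G.ty m))) := by
  rw [← lex_aux]
  show toLex ((G.p1 l : ℝ), (((n : ℤ) * G.p2 l + G.ty l : ℤ) : ℝ)) <
    toLex ((G.p1 m : ℝ), (((n : ℤ) * G.p2 m + G.ty m : ℤ) : ℝ)) ↔ _
  rw [Prod.Lex.toLex_lt_toLex]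
  simp only [Int.cast_lt, Int.cast_inj]

theorem Yp_le (l m : L) : G.Yp l ≤ G.Yp m ↔ G.p1 l < G.p1 m ∨ (G.p1 l = G.p1 m ∧
    (G.p2 l < G.p2 m ∨ (G.p2 l = G.p2 m ∧ G.ty l ≤ G.ty m))) := by
  rw [← not_lt, G.Yp_lt]; omega

theorem Yp_tv (v : ℤ × ℤ) (a b : L) : G.Yp a < G.Yp b ↔ G.Yp (G.tv v a) < G.Yp (G.tv v b) := by
  simp [G.Yp_lt]

/-- The rows from `r` on. -/
def Ar (r : ℤ) : Set L := {l | r ≤ G.p1 l}

theorem up_Ar (r : ℤ) : Up G.Yp (G.Ar r) := fun l m h1 h2 => by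
  rw [G.Yp_lt] at h2
  have : r ≤ G.p1 l := h1
  show r ≤ G.p1 m
  omega

theorem fin_sq (N : ℤ) : {l | |G.p1 l| ≤ N ∧ |G.p2 l| ≤ N}.Finite := by
  refine ((Set.finite_univ.prod ((Set.finite_Icc (-N) N).prod
    (Set.finite_Icc (-N) N))).preimage G.e.injective.injOn).subset fun l hl => ?_
  exact ⟨trivial, abs_le.1 hl.1, abs_le.1 hl.2⟩

theorem band (lo hi : ℝ) (r0 r1 : ℤ) : ∃ y0 y1 : ℝ, y0 ≤ y1 ∧ ∀ l, lo ≤ Z.x l → Z.x l ≤ hi →
    (y1 < Z.y l → r1 ≤ G.p1 l) ∧ (Z.y l < y0 → G.p1 l < r0) := by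
  obtain ⟨M, hM⟩ := (Set.finite_range (fun i => |G.oy i|)).bddAbove
  refine ⟨-(|M| + |hi| + 3 * |(r0 : ℝ)|), |M| + |lo| + 3 * |(r1 : ℝ)| + 2, ?_, fun l h1 h2 => ?_⟩
  · have := abs_nonneg M
    have := abs_nonneg hi
    have := abs_nonneg lo
    have := abs_nonneg (r0 : ℝ)
    have := abs_nonneg (r1 : ℝ)
    linarith
  have k0 : |G.oy (G.ty l)| ≤ |M| := (hM ⟨_, rfl⟩).trans (le_abs_self M)
  have k1 := abs_le.1 k0
  have k2 := G.ox0 (G.ty l)
  have k3 := G.ox1 (G.ty l)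
  obtain ⟨g1, g2⟩ := gr_bounds
  have e : (2 * Real.goldenRatio - 1) * G.p1 l = (Real.goldenRatio - 1) *
      (Z.x l - G.ox (G.ty l)) + Real.goldenRatio * (Z.y l - G.oy (G.ty l)) := by
    rw [G.x_eq l, G.y_eq l, gc_eq]; ring
  constructor
  · intro h3
    by_contra h4
    have h5 : (G.p1 l : ℝ) ≤ |(r1 : ℝ)| :=
      (Int.cast_le.2 (not_le.1 h4).le).trans (le_abs_self _)
    have h6 := neg_abs_le lo
    have h7 := abs_nonneg lo
    have h8 := abs_nonneg (r1 : ℝ)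
    nlinarith
  · intro h3
    by_contra h4
    have h5 : -|(r0 : ℝ)| ≤ (G.p1 l : ℝ) :=
      (neg_abs_le _).trans (Int.cast_le.2 (not_lt.1 h4))
    have h6 := le_abs_self hi
    have h7 := abs_nonneg hi
    have h8 := abs_nonneg (r0 : ℝ)
    nlinarith

/-- Steps with a status set between two rows are box words. -/
theorem box_stp (c : C) (s t : ℝ) {D : Set L} {r0 r1 : ℤ} (h0 : D ⊆ G.Ar r0) (h1 : G.Ar r1 ⊆ D) :
    ∃ b, BoxW c Z b (Rs Z.x (s, false)) (Rs Z.x (t, false))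
      (stp c Z.X (Rs Z.x (s, false)) (Rs Z.x (t, false)) D) := by
  obtain ⟨y0, y1, h2, h3⟩ := G.band (min s t) (max s t) r0 r1
  refine ⟨⟨min s t, max s t, y0, y1⟩, BoxW.band (Z.up_Rs _)
    ((at_Rs _ _).inB (min_le_left _ _) (le_max_left _ _)) (Z.up_Rs _)
    ((at_Rs _ _).inB (min_le_right _ _) (le_max_right _ _)) h2 fun l k1 k2 => ?_⟩
  exact ⟨fun k => h1 ((h3 l k1 k2).1 k), fun k k' => absurd (h0 k') (not_le.2 ((h3 l k1 k2).2 k))⟩

/-- The set of translations is a subgroup. -/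
def GamS (c : C) : Subgroup (Big L C) where
  carrier := G.Gam c
  one_mem' := ⟨0, ⟨0, 0, 0, 0⟩, G.tv_zero.symm, by
    rw [G.tv_zero]
    simpa using BoxW.refl (Z.up_Rs _) ((at_Rs Z.x (0, false)).inB le_rfl le_rfl)⟩
  mul_mem' := by
    rintro z z' ⟨v, b, h1, h2⟩ ⟨v', b', h3, h4⟩
    have h5 := h4.aff (G.tv v) one_pos one_pos (G.X_tv v) (G.x_tv v) (G.y_tv v)
    have h6 := (h2.mono (Bx.sub_sup_left _ _)).trans (h5.mono (Bx.sub_sup_right _ _))
    rw [← Set.image_comp, ← Equiv.Perm.coe_mul, ← G.tv_add] at h6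
    exact ⟨v + v', _, by rw [mul_right, h1, h3, G.tv_add], by rw [mul_left, h1]; exact h6⟩
  inv_mem' := by
    rintro z ⟨v, b, h1, h2⟩
    have h5 := h2.symm.aff (G.tv (-v)) one_pos one_pos (G.X_tv _) (G.x_tv _) (G.y_tv _)
    rw [← Set.image_comp, ← Equiv.Perm.coe_mul, ← G.tv_add, neg_add_cancel, G.tv_zero,
      Equiv.Perm.coe_one, Set.image_id] at h5
    exact ⟨-v, _, by rw [inv_right, h1, G.tv_neg], by rw [inv_left, h1, ← G.tv_neg]; exact h5⟩

/-- Words extended by lattice translations. -/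
abbrev BT (C : Type) [CommGroup C] : Type := WL L C ⋊[rlA.comp G.tvH] Multiplicative (ℤ × ℤ)

/-- Back to the V-generators. -/
noncomputable def Th (c : C) : G.BT C →* Big L C :=
  SemidirectProduct.map (Kh c G.Yp Z.X) G.tvH (fun v => MonoidHom.ext fun ω =>
    (rlA_Kh (G.tv v.toAdd) c (G.Yp_tv _) (G.X_tv _) ω).symm)

theorem Th_inj (hn : 0 < n) (c : C) : Function.Injective (G.Th c) := fun _ _ h =>
  SemidirectProduct.ext (Kh_injective c _ _ (congrArg SemidirectProduct.left h))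
    (Multiplicative.toAdd.injective (G.tv_inj hn (congrArg SemidirectProduct.right h)))

/-- The ordered product over a quadrant. -/
noncomputable def Mq (c : C) (r s : ℤ) : WL L C := opH c G.Yp {l | r ≤ G.p1 l ∧ s ≤ G.p2 l}

/-- The ordered product over a half row. -/
noncomputable def Oq (c : C) (r s : ℤ) : WL L C := opH c G.Yp {l | G.p1 l = r ∧ s ≤ G.p2 l}

theorem rl_Mq (c : C) (v : ℤ × ℤ) (r s : ℤ) :
    rlA (G.tv v) (G.Mq c r s) = G.Mq c (r + v.1) (s + v.2) :=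
  rlA_opH _ c (fun a _ b _ h => (G.Yp_tv v a b).1 h) (fun l => by simp)

theorem Mq_eq (c : C) (r s : ℤ) : G.Mq c r s = G.Oq c r s * G.Mq c (r + 1) s :=
  opH_split c _ (fun l => by simp only [Set.mem_ofPred_eq]; omega)
    (fun a ha b hb => by
      simp only [Set.mem_ofPred_eq] at ha hb
      rw [G.Yp_lt]; omega)

theorem Oq_eq (c : C) :
    G.Oq c 0 0 = (List.ofFn (fun i : Fin n => emb (lt (G.lb i 0 0) c))).prod * G.Oq c 0 1 := by
  unfold Oq
  rw [opH_split c _ (A1 := {l | G.p1 l = 0 ∧ G.p2 l = 0}) (A2 := {l | G.p1 l = 0 ∧ 1 ≤ G.p2 l})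
    (fun l => by simp only [Set.mem_ofPred_eq]; omega)
    (fun a ha b hb => by
      simp only [Set.mem_ofPred_eq] at ha hb
      rw [G.Yp_lt]; omega)]
  congr 1
  rw [opH_finset c _ (List.ofFn (fun i : Fin n => G.lb i 0 0)).toFinset,
    op_eq_pl c (w := List.ofFn (fun i : Fin n => G.lb i 0 0))]
  · unfold pl
    rw [map_list_prod, List.map_ofFn, List.map_ofFn]
    rfl
  · rw [List.pairwise_ofFn]
    intro i j h
    simpa [G.Yp_lt] using h
  · simp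
  · intro l
    simp only [Set.mem_ofPred_eq, List.mem_toFinset, List.mem_ofFn]
    constructor
    · rintro ⟨h1, h2⟩
      exact ⟨G.ty l, by rw [← h1, ← G.lb_eq l]; simp [h2, h1]⟩
    · rintro ⟨i, rfl⟩
      simp

theorem inr_conj (v : ℤ × ℤ) (k : WL L C) :
    (inr (Multiplicative.ofAdd v) * inl k * (inr (Multiplicative.ofAdd v))⁻¹ : G.BT C) =
      inl (rlA (G.tv v) k) := by
  rw [← map_inv, ← inl_aut]
  rfl

/-- The images of the generators in the lexicographic coordinates. -/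
noncomputable def gen (c : C) : Fin 2 ⊕ Fin n → G.BT C :=
  Sum.elim ![inl (G.Mq c 0 0) * inr (Multiplicative.ofAdd (1, 0)) * (inl (G.Mq c 0 0))⁻¹,
    inr (Multiplicative.ofAdd (0, 1))] (fun i => inl (emb (lt (G.lb i 0 0) c)))

theorem gen_rel (c : C) {m : ℕ} (hm : c ^ m = 1) :
    ∀ r ∈ relO n m, FreeGroup.lift (G.gen c) r = 1 := by
  rintro r (⟨i, rfl⟩ | rfl)
  · rw [map_pow, FreeGroup.lift_apply_of]
    show (inl (emb (ltH (G.lb i 0 0) c)) : G.BT C) ^ m = 1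
    rw [← map_pow, ← map_pow, ← map_pow, hm, map_one, map_one, map_one]
  · simp only [map_mul, map_inv, map_list_prod, List.map_ofFn, FreeGroup.lift_apply_of]
    have e1 : (List.ofFn (⇑(FreeGroup.lift (G.gen c)) ∘ fun i : Fin n =>
        FreeGroup.of (Sum.inr i))).prod =
        inl (List.ofFn (fun i : Fin n => emb (lt (G.lb i 0 0) c))).prod := by
      rw [map_list_prod, List.map_ofFn]
      congr 2
      funext i
      simp [gen]
    have e2 : (List.ofFn (fun i : Fin n => emb (lt (G.lb i 0 0) c))).prod =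
        G.Mq c 0 0 * (G.Mq c 1 0)⁻¹ * G.Mq c 1 1 * (G.Mq c 0 1)⁻¹ := by
      rw [G.Mq_eq c 0 0, G.Mq_eq c 0 1, G.Oq_eq]
      simp
    have m1 := G.inr_conj (1, 0) (G.Mq c 0 0)
    have m2 := G.inr_conj (0, 1) (G.Mq c 0 0)
    have m3 := G.inr_conj (1, 0) (G.Mq c 0 1)
    simp only [G.rl_Mq, zero_add, add_zero] at m1 m2 m3
    have hc : ((inr (Multiplicative.ofAdd (0, 1)))⁻¹ * (inr (Multiplicative.ofAdd (1, 0)))⁻¹ *
        inr (Multiplicative.ofAdd (0, 1)) * inr (Multiplicative.ofAdd (1, 0)) : G.BT C) = 1 := by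
      rw [← map_inv inr, ← map_inv inr, ← map_mul inr, ← map_mul inr, ← map_mul inr,
        ← map_one inr]
      rfl
    rw [e1, e2, map_mul, map_mul, map_mul, map_inv, map_inv, ← m3, ← m2, ← m1]
    simp only [gen, Sum.elim_inl, Matrix.cons_val_zero, Matrix.cons_val_one]
    generalize (inr (Multiplicative.ofAdd (0, 1)) : G.BT C) = B at hc ⊢
    generalize (inr (Multiplicative.ofAdd (1, 0)) : G.BT C) = A at hc ⊢
    generalize (inl (G.Mq c 0 0) : G.BT C) = M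
    calc _ = M * A * M⁻¹ * B * M * (B⁻¹ * A⁻¹ * B * A) * M⁻¹ * B⁻¹ * M * A⁻¹ * M⁻¹ := by group
      _ = 1 := by rw [hc]; group

/-- The representation in the lexicographic coordinates. -/
noncomputable def th (c : C) {m : ℕ} (hm : c ^ m = 1) : OG n m →* G.BT C :=
  PresentedGroup.toGroup (G.gen_rel c hm)

variable {c : C} {m : ℕ} (hm : c ^ m = 1)

theorem th_a : G.th c hm (oa n m) =
    inl (G.Mq c 0 0) * inr (Multiplicative.ofAdd (1, 0)) * (inl (G.Mq c 0 0))⁻¹ :=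
  PresentedGroup.toGroup.of _

theorem th_b : G.th c hm (ob n m) = inr (Multiplicative.ofAdd (0, 1)) :=
  PresentedGroup.toGroup.of _

theorem th_c (i : Fin n) : G.th c hm (oc m i) = inl (emb (lt (G.lb i 0 0) c)) :=
  PresentedGroup.toGroup.of _

theorem th_a_pow (p : ℤ) : G.th c hm (oa n m ^ p) =
    inl (G.Mq c 0 0) * inr (Multiplicative.ofAdd (p, 0)) * (inl (G.Mq c 0 0))⁻¹ := by
  rw [map_zpow, G.th_a, conj_zpow, ← map_zpow, ← ofAdd_zsmul]
  simp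

theorem th_b_pow (q : ℤ) : G.th c hm (ob n m ^ q) = inr (Multiplicative.ofAdd (0, q)) := by
  rw [map_zpow, G.th_b, ← map_zpow, ← ofAdd_zsmul]
  simp

theorem th_ocp (i : Fin n) (p q : ℤ) : G.th c hm (ocp m i p q) =
    inl (G.Mq c 0 0 * ((G.Mq c p 0)⁻¹ * emb (lt (G.lb i p q) c) * G.Mq c p 0) *
      (G.Mq c 0 0)⁻¹) := by
  have m1 := G.inr_conj (0, q) (emb (lt (G.lb i 0 0) c))
  have m2 := G.inr_conj (p, 0) ((G.Mq c 0 0)⁻¹ * emb (lt (G.lb i 0 q) c) * G.Mq c 0 0)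
  simp only [map_mul, map_inv, G.rl_Mq, rlA_emb, rl_lt, G.tv_lb, zero_add, add_zero] at m1 m2
  unfold ocp
  simp only [map_mul, map_inv, G.th_a_pow, G.th_b_pow, G.th_c]
  rw [← m2, ← m1]
  group

/-- The row-wise conjugation. -/
noncomputable def Fr (c : C) : W L C →* WL L C := rowc emb G.p1 (fun r => (G.Mq c r 0)⁻¹)

theorem Fr_inj (c : C) : Function.Injective (G.Fr c) := by
  rw [injective_iff_map_eq_one]
  intro w hw
  obtain ⟨N, hN⟩ := ((lab w).toFinset.image G.p1).bddAbove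
  have h1 := rowc_injective G.p1 (fun r => pj (lab w).toFinset (G.Oq c r 0))
    (fun r => pj (lab w).toFinset (G.Mq c r 0))
    (fun r => sup_op c (fun l hl => (mem_cut.1 hl).2.1))
    (fun r => by rw [G.Mq_eq, map_mul]) (N + 1) (fun r hr => by
      have : cut (lab w).toFinset {l | r ≤ G.p1 l ∧ 0 ≤ G.p2 l} = ∅ := by
        refine Finset.eq_empty_of_forall_notMem fun l hl => ?_
        have k1 : G.p1 l ≤ N := hN (Finset.mem_coe.2 (Finset.mem_image_of_mem _ (mem_cut.1 hl).1))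
        have k2 : r ≤ G.p1 l := (mem_cut.1 hl).2.1
        omega
      show op _ c _ = 1
      rw [this, op_empty])
  refine h1 ?_
  rw [map_one, ← W_ext_sup (f := (pj (lab w).toFinset).comp (G.Fr c)) ?_ (sup_lab w)]
  · rw [MonoidHom.comp_apply, hw, map_one]
  · intro l hl x
    rw [MonoidHom.comp_apply, Fr, rowc_lt, rowc_lt]
    simp only [map_mul, map_inv, pj_emb_lt (Finset.mem_coe.1 hl), MonoidHom.id_apply]

theorem th_main (hg : ∀ x : C, ∃ k : ℤ, x = c ^ k)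
    (hl : ∀ (H : Type) [Group H] (y : H), y ^ m = 1 → ∃ f : C →* H, f c = y) :
    Function.Injective (G.th c hm) ∧
      ∀ w, inl (G.Mq c 0 0 * G.Fr c w * (G.Mq c 0 0)⁻¹) ∈ (G.th c hm).range := by
  choose f hf using fun i : Fin n => hl (OG n m) (oc m i) (oc_pow i)
  let π : W L C →* OG n m := lf (fun l =>
    (MulAut.conj (oa n m ^ G.p1 l * ob n m ^ G.p2 l)).toMonoidHom.comp (f (G.ty l)))
  have h1 : ∀ l, π (lt l c) = ocp m (G.ty l) (G.p1 l) (G.p2 l) := fun l => by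
    show lf _ _ = _
    rw [lf_lt, MonoidHom.comp_apply, hf]
    rfl
  have h2 : (G.th c hm).comp π =
      inl.comp ((MulAut.conj (G.Mq c 0 0)).toMonoidHom.comp (G.Fr c)) :=
    W_ext_gen hg fun l => by
      rw [MonoidHom.comp_apply, h1, G.th_ocp, G.lb_eq]
      simp [Fr, rowc_lt]
  have h3 : ∀ w, G.th c hm (π w) = inl (G.Mq c 0 0 * G.Fr c w * (G.Mq c 0 0)⁻¹) :=
    fun w => DFunLike.congr_fun h2 w
  refine ⟨?_, fun w => ⟨π w, h3 w⟩⟩
  rw [injective_iff_map_eq_one]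
  intro o ho
  obtain ⟨_, ⟨w, rfl⟩, p, q, rfl⟩ := og_nf π.range
    (fun i p q => ⟨lt (G.lb i p q) c, by simp [h1]⟩) (by
      rintro _ ⟨w, rfl⟩
      induction w using W_ind with
      | h1 => simp
      | h l x g ih =>
        obtain ⟨k, rfl⟩ := hg x
        rw [map_mul, show (lt l (c ^ k) : W L C) = lt l c ^ k from map_zpow (ltH l) c k,
          map_zpow, h1]
        refine Subgroup.mul_mem _ (Subgroup.zpow_mem _ (Subgroup.subset_closure ?_) _) ih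
        exact ⟨_, _, _, rfl⟩) o
  rw [map_mul, map_mul, h3, G.th_a_pow, G.th_b_pow] at ho
  have h4 := congrArg rightHom ho
  simp only [map_mul, map_inv, rightHom_inl, rightHom_inr, map_one, one_mul, inv_one,
    mul_one] at h4
  have h5 : ((p, 0) : ℤ × ℤ) + (0, q) = 0 := congrArg Multiplicative.toAdd h4
  obtain ⟨rfl, rfl⟩ : p = 0 ∧ q = 0 := by simpa using h5
  have h6 : G.Fr c w = 1 := by
    have : (Multiplicative.ofAdd ((0, 0) : ℤ × ℤ)) = 1 := rfl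
    rw [this, map_one, mul_one, mul_one, mul_inv_cancel, mul_one, ← map_one inl] at ho
    simpa using inl_injective ho
  rw [G.Fr_inj c (h6.trans (map_one _).symm)]
  simp

theorem KB (c : C) {R A : Set L} (hR : Up Z.X R) (hA : Up G.Yp A) :
    Kh c G.Yp Z.X (opH c G.Yp (R ∩ A)) = (opH c Z.X (R ∩ A))⁻¹ := by
  rw [Set.inter_comm]
  exact Kh_opH c hA hR

theorem mem_R0 {l : L} (h : G.p1 l = 0) : l ∈ Rs Z.x (0, false) ↔ 0 ≤ G.p2 l := by
  have k2 := G.ox0 (G.ty l)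
  have k3 := G.ox1 (G.ty l)
  have k4 := Real.goldenRatio_pos
  have e : l ∈ Rs Z.x (0, false) ↔ 0 ≤ Z.x l := by
    simp only [Rs, Set.mem_ofPred_eq, and_true]
    exact le_iff_lt_or_eq.symm
  rw [e, G.x_eq, h]
  constructor
  · intro h1
    by_contra h2
    have : (G.p2 l : ℝ) ≤ -1 := by exact_mod_cast (show G.p2 l ≤ -1 by omega)
    push_cast at h1
    nlinarith
  · intro h1
    have : (0 : ℝ) ≤ G.p2 l := by exact_mod_cast h1
    push_cast
    nlinarith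

theorem mem_R2 {l : L} (h : G.p1 l = 0) :
    l ∈ Rs Z.x (Real.goldenRatio, false) ↔ 1 ≤ G.p2 l := by
  have e := G.Rs_tv (0, 1)
  simp only [Int.cast_zero, Int.cast_one, mul_one, zero_add] at e
  obtain ⟨l, rfl⟩ := (G.tv (0, 1)).surjective l
  rw [← e, (G.tv (0, 1)).injective.mem_set_image, G.mem_R0 (by simpa using h)]
  simp

/-- The base word. -/
noncomputable def Bw (c : C) : WL L C := opH c G.Yp (Rs Z.x (0, false) ∩ G.Ar 0)

theorem rl_Bw (c : C) (v : ℤ × ℤ) : rlA (G.tv v) (G.Bw c) =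
    opH c G.Yp (Rs Z.x (v.1 + Real.goldenRatio * v.2, false) ∩ G.Ar v.1) :=
  rlA_opH _ c (fun a _ b _ h => (G.Yp_tv v a b).1 h) (fun l => by
    rw [← G.Rs_tv, Set.mem_inter_iff, (G.tv v).injective.mem_set_image]
    simp [Ar])

theorem Bw_eq (c : C) : G.Bw c = G.Oq c 0 0 * opH c G.Yp (Rs Z.x (0, false) ∩ G.Ar 1) :=
  opH_split c _ (fun l => by
      simp only [Set.mem_inter_iff, Ar, Set.mem_ofPred_eq]
      by_cases h : G.p1 l = 0
      · simp [G.mem_R0 h, h]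
      · simp only [h, false_and, false_or]
        exact and_congr_right fun _ => by omega)
    (fun a ha b hb => by
      have h1 : G.p1 a = 0 := ha.1
      have h2 : 1 ≤ G.p1 b := hb.2
      rw [G.Yp_lt]; omega)

/-- The representation. -/
noncomputable def ps (c : C) {m : ℕ} (hm : c ^ m = 1) : OG n m →* Big L C :=
  (G.Th c).comp ((MulAut.conj (inl (G.Bw c)⁻¹)).toMonoidHom.comp (G.th c hm))

theorem ps_eq (o : OG n m) (k : WL L C) (v : ℤ × ℤ)
    (h : G.th c hm o = ⟨k, Multiplicative.ofAdd v⟩) :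
    G.ps c hm o = ⟨Kh c G.Yp Z.X ((G.Bw c)⁻¹ * k * rlA (G.tv v) (G.Bw c)), G.tv v⟩ := by
  have : G.ps c hm o = G.Th c (inl (G.Bw c)⁻¹ * G.th c hm o * (inl (G.Bw c)⁻¹)⁻¹) := rfl
  have e : (inl (G.Bw c)⁻¹ * ⟨k, Multiplicative.ofAdd v⟩ * inl (G.Bw c) : G.BT C) =
      ⟨(G.Bw c)⁻¹ * k * rlA (G.tv v) (G.Bw c), Multiplicative.ofAdd v⟩ :=
    SemidirectProduct.ext (by
      simp only [mul_left, mul_right, left_inl, right_inl, map_one, MulAut.one_apply, one_mul]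
      rfl) (by simp [-mk_eq_inl_mul_inr])
  rw [this, h, ← map_inv inl, inv_inv, e]
  rfl

theorem ps_a : G.ps c hm (oa n m) = G.pa c := by
  rw [G.ps_eq hm _ (G.Oq c 0 0) (1, 0), G.rl_Bw, G.Bw_eq]
  · unfold pa stp
    simp only [mul_inv_rev, inv_mul_cancel_right, map_mul, map_inv, G.KB c (Z.up_Rs _) (G.up_Ar _),
      inv_inv, Int.cast_one, Int.cast_zero, mul_zero, add_zero]
    rfl
  · have m1 := G.inr_conj (1, 0) (G.Mq c 0 0)
    rw [G.rl_Mq] at m1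
    rw [G.th_a, mk_eq_inl_mul_inr, eq_mul_inv_of_mul_eq (G.Mq_eq c 0 0).symm, map_mul, map_inv]
    simp only [add_zero] at m1
    rw [← m1]
    group

theorem ps_b : G.ps c hm (ob n m) = G.pb c := by
  rw [G.ps_eq hm _ 1 (0, 1) (G.th_b hm), G.rl_Bw]
  unfold pb stp Bw
  simp only [mul_one, map_mul, map_inv, G.KB c (Z.up_Rs _) (G.up_Ar _), inv_inv, Int.cast_one,
    Int.cast_zero, zero_add]
  rfl

theorem ps_inl (o : OG n m) (k : WL L C) (h : G.th c hm o = inl k) :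
    G.ps c hm o = inl (Kh c G.Yp Z.X ((G.Bw c)⁻¹ * k * G.Bw c)) := by
  rw [G.ps_eq hm o k 0 h, G.tv_zero, map_one]
  rfl

theorem loop_mem (c : C) {D D' : Set L} (h0 : D ⊆ G.Ar 0) (h1 : G.Ar 1 ⊆ D) (h2 : D' ⊆ G.Ar 0)
    (h3 : G.Ar 1 ⊆ D') (h : ∀ l, G.p1 l = 0 → 1 ≤ G.p2 l → l ∈ D ∧ l ∈ D') :
    inl (opH c Z.X (Rs Z.x (0, false) ∩ D) * (opH c Z.X (Rs Z.x (0, false) ∩ D'))⁻¹) ∈
      G.GamS c := by
  obtain ⟨b, hb⟩ := G.box_stp c 0 Real.goldenRatio h0 h1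
  obtain ⟨b', hb'⟩ := G.box_stp c Real.goldenRatio 0 h2 h3
  have h4 := (hb.mono (Bx.sub_sup_left _ b')).trans (hb'.mono (Bx.sub_sup_right _ _))
  have e : Rs Z.x (Real.goldenRatio, false) ∩ D = Rs Z.x (Real.goldenRatio, false) ∩ D' := by
    ext l
    refine and_congr_right fun k => ?_
    by_cases k1 : G.p1 l = 0
    · have := h l k1 ((G.mem_R2 k1).1 k)
      exact iff_of_true this.1 this.2
    · have a1 : l ∈ G.Ar 0 → l ∈ G.Ar 1 := fun k2 => by
        have : 0 ≤ G.p1 l := k2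
        show 1 ≤ G.p1 l
        omega
      exact ⟨fun k2 => h3 (a1 (h0 k2)), fun k2 => h1 (a1 (h2 k2))⟩
  refine ⟨0, b.sup b', G.tv_zero.symm, ?_⟩
  rw [G.tv_zero, Equiv.Perm.coe_one, Set.image_id]
  convert h4 using 1
  unfold stp
  rw [e, left_inl]
  group

theorem ps_mem (o : OG n m) : G.ps c hm o ∈ G.GamS c := by
  have ho : o ∈ Subgroup.closure (Set.range (PresentedGroup.of : _ → OG n m)) := by
    rw [PresentedGroup.closure_range_of]; trivial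
  refine (Subgroup.closure_le ((G.GamS c).comap (G.ps c hm))).2 ?_ ho
  rintro _ ⟨j, rfl⟩
  rcases j with j | i
  · fin_cases j
    · show G.ps c hm (oa n m) ∈ G.GamS c
      obtain ⟨b, hb⟩ := G.box_stp c 0 1 (D := G.Ar 1) subset_rfl subset_rfl
      rw [G.ps_a]
      exact ⟨(1, 0), b, rfl, by rw [G.Rs_tv]; simpa [pa, Ar, p1] using hb⟩
    · show G.ps c hm (ob n m) ∈ G.GamS c
      obtain ⟨b, hb⟩ := G.box_stp c 0 Real.goldenRatio (D := G.Ar 0) subset_rfl subset_rfl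
      rw [G.ps_b]
      exact ⟨(0, 1), b, rfl, by rw [G.Rs_tv]; simpa [pb, Ar, p1] using hb⟩
  · show G.ps c hm (oc m i) ∈ G.GamS c
    have hl : G.lb i 0 0 ∈ Rs Z.x (0, false) := (G.mem_R0 (by simp)).2 (by simp)
    have e := stp_Rle c G.Yp (G.lb i 0 0) hl
    have a1 : Rle G.Yp (G.lb i 0 0) ⊆ G.Ar 0 := fun l k => by
      have := (G.Yp_le _ _).1 k
      simp only [p1_lb] at this
      show 0 ≤ G.p1 l
      omega
    have a2 : G.Ar 1 ⊆ Rl G.Yp (G.lb i 0 0) := fun l k => (G.Yp_lt _ _).2 (Or.inl (by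
      rw [p1_lb]; exact k))
    have a3 : Rl G.Yp (G.lb i 0 0) ⊆ Rle G.Yp (G.lb i 0 0) :=
      fun l k => le_of_lt (a := G.Yp _) k
    have a4 : ∀ l, G.p1 l = 0 → 1 ≤ G.p2 l → l ∈ Rl G.Yp (G.lb i 0 0) := fun l k1 k2 =>
      (G.Yp_lt _ _).2 (Or.inr ⟨by simp [k1], Or.inl (by rw [p2_lb]; exact k2)⟩)
    have a5 : G.Ar 1 ⊆ G.Ar 0 := a2.trans (a3.trans a1)
    have b1 := G.loop_mem c subset_rfl a5 a1 (a2.trans a3)
      (fun l k1 k2 => ⟨a1 (a3 (a4 l k1 k2)), a3 (a4 l k1 k2)⟩)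
    have b2 := G.loop_mem c (a3.trans a1) a2 subset_rfl a5
      (fun l k1 k2 => ⟨a4 l k1 k2, a1 (a3 (a4 l k1 k2))⟩)
    rw [G.ps_inl hm _ _ (G.th_c hm i), ← e]
    convert (G.GamS c).mul_mem b1 b2 using 1
    unfold stp Bw
    rw [← map_mul, Set.inter_comm (Rle _ _), Set.inter_comm (Rl _ _)]
    simp only [map_mul, map_inv, G.KB c (Z.up_Rs _) (G.up_Ar _), G.KB c (Z.up_Rs _) (up_Rle _ _),
      G.KB c (Z.up_Rs _) (up_Rl _ _)]
    group

theorem lam_mem' (K : Subgroup (WL L C))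
    (hK : ∀ w, G.Mq c 0 0 * G.Fr c w * (G.Mq c 0 0)⁻¹ ∈ K) (l : L) :
    stp c G.Yp (G.Ar 0) (Rl G.Yp l) {l | 0 ≤ G.p2 l} * emb (lt l c) *
      (stp c G.Yp (G.Ar 0) (Rl G.Yp l) {l | 0 ≤ G.p2 l})⁻¹ ∈ K := by
  have hT : {k | G.p1 k = G.p1 l ∧ 0 ≤ G.p2 k ∧ G.Yp k ≤ G.Yp l}.Finite := by
    refine (G.fin_sq (|G.p1 l| + |G.p2 l|)).subset fun k hk => ?_
    obtain ⟨k1, k2, k3⟩ := hk
    rw [G.Yp_le] at k3
    have := abs_nonneg (G.p1 l)
    have := abs_nonneg (G.p2 l)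
    have := le_abs_self (G.p2 l)
    refine ⟨by rw [k1]; omega, ?_⟩
    rw [abs_of_nonneg k2]; omega
  have e : G.Mq c (G.p1 l) 0 =
      emb (op G.Yp c hT.toFinset) * opH c G.Yp (Rl G.Yp l ∩ {l | 0 ≤ G.p2 l}) := by
    rw [← opH_finset c G.Yp hT.toFinset (fun k => hT.mem_toFinset.symm)]
    refine opH_split c _ (fun k => ?_) (fun a ha b hb => lt_of_le_of_lt ha.2.2 hb.1)
    simp only [Set.mem_ofPred_eq, Set.mem_inter_iff, Rl, G.Yp_lt, G.Yp_le]
    omega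
  have hs : Sup {k | G.p1 k = G.p1 l} (op G.Yp c hT.toFinset) :=
    sup_op c fun k hk => (hT.mem_toFinset.1 hk).1
  have := hK (op G.Yp c hT.toFinset * lt l c * (op G.Yp c hT.toFinset)⁻¹)
  rw [Fr, rowc_row _ _ _ (sup_mul (sup_mul hs (sup_lt (l := l) (by simp) c)) (sup_inv hs)), e] at this
  convert this using 1
  unfold stp
  simp only [map_mul, map_inv]
  rw [show opH c G.Yp (G.Ar 0 ∩ {l | 0 ≤ G.p2 l}) = G.Mq c 0 0 from rfl]
  group

theorem fin_row (l : L) : {k | ¬ (k ∈ G.Ar 0 ↔ k ∈ Rl G.Yp l) ∧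
    ¬ (k ∈ Rl Z.X l ↔ k ∈ {l | 0 ≤ G.p2 l})}.Finite := by
  obtain ⟨N, hN⟩ := exists_nat_ge (|Z.x l| + |(G.p1 l : ℝ)| + 2)
  refine (G.fin_sq N).subset fun k hk => ?_
  obtain ⟨k1, k2⟩ := hk
  simp only [Ar, Rl, Set.mem_ofPred_eq, G.Yp_lt, Z.X_iff G.inj] at k1 k2
  have k3 : |G.p1 k| ≤ |G.p1 l| := by
    have := le_abs_self (G.p1 l)
    have := neg_abs_le (G.p1 l)
    have := abs_nonneg (G.p1 l)
    rw [abs_le]; omega
  have k4 : |(G.p1 k : ℝ)| ≤ |(G.p1 l : ℝ)| := by exact_mod_cast k3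
  have k5 := abs_le.1 k4
  have k6 := abs_nonneg (Z.x l)
  have k7 := G.ox0 (G.ty k)
  have k8 := G.ox1 (G.ty k)
  obtain ⟨g1, g2⟩ := gr_bounds
  have k9 := le_abs_self (Z.x l)
  have k10 := neg_abs_le (Z.x l)
  have k11 := abs_nonneg (G.p1 l : ℝ)
  refine ⟨by exact_mod_cast (show |(G.p1 k : ℝ)| ≤ N by linarith), ?_⟩
  have : |(G.p2 k : ℝ)| ≤ N := by
    rw [G.x_eq k] at k2
    by_cases h : 0 ≤ G.p2 k
    · have h1 : (0 : ℝ) ≤ G.p2 k := by exact_mod_cast h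
      have h2 := not_lt.1 (fun k => k2 (iff_of_true k h))
      rw [abs_of_nonneg h1]
      nlinarith
    · have h1 : (G.p2 k : ℝ) < 0 := by exact_mod_cast not_le.1 h
      have h2 := not_not.1 (fun k => k2 (iff_of_false k h))
      rw [abs_of_neg h1]
      nlinarith
  exact_mod_cast this

theorem lam_mem (hK : ∀ w, inl (G.Mq c 0 0 * G.Fr c w * (G.Mq c 0 0)⁻¹) ∈ (G.th c hm).range)
    (l : L) : stp c Z.X (Rs Z.x (0, false)) (Rl Z.X l) (G.Ar 0) * emb (lt l c) *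
      (stp c Z.X (Rs Z.x (0, false)) (Rl Z.X l) (G.Ar 0))⁻¹ ∈ (G.ps c hm).range.comap inl := by
  have h1 := G.lam_mem' ((G.th c hm).range.comap inl) hK
  have h2 := flip_mem c G.Yp (G.Ar 0) {l | 0 ≤ G.p2 l} _ h1 (G.up_Ar 0) (up_Rl G.Yp l)
    (G.fin_row l)
  rw [stp_self, one_mul] at h2
  obtain ⟨o, ho⟩ := Subgroup.mul_mem _ (Subgroup.mul_mem _ h2 (Subgroup.inv_mem _ (h1 l)))
    (Subgroup.inv_mem _ h2)
  refine ⟨o, ?_⟩
  rw [G.ps_inl hm o _ ho]
  congr 1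
  have e := Kh_Kh c Z.X G.Yp (emb (lt l c))
  rw [Kh_emb_lt, lt_inv] at e
  conv_rhs => rw [← e]
  unfold stp Bw UR
  rw [← inv_inv (opH c Z.X (Rs Z.x (0, false) ∩ G.Ar 0)), ← G.KB c (Z.up_Rs _) (G.up_Ar 0),
    ← G.KB c (up_Rl _ _) (G.up_Ar 0), Set.inter_comm (G.Ar 0) (Rl Z.X l),
    Set.inter_comm (Rl G.Yp l) (Rl Z.X l)]
  simp only [← map_inv, ← map_mul]
  congr 1
  simp only [map_inv]
  group

theorem box_mem (K : Subgroup (WL L C))
    (hK : ∀ l, stp c Z.X (Rs Z.x (0, false)) (Rl Z.X l) (G.Ar 0) * emb (lt l c) *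
      (stp c Z.X (Rs Z.x (0, false)) (Rl Z.X l) (G.Ar 0))⁻¹ ∈ K) {b : Bx} {R : Set L}
    {ω : WL L C} (h : BoxW c Z b (Rs Z.x (0, false)) R ω) :
    ω * (stp c Z.X (Rs Z.x (0, false)) R (G.Ar 0))⁻¹ ∈ K := by
  induction h with
  | refl _ _ => simp [stp_self]
  | @step R1 R2 D ω h0 h1 h2 h3 ih =>
    obtain ⟨y0, y1, -, k⟩ := G.band b.x0 b.x1 0 0
    have := K.mul_mem ih (flip_mem c Z.X _ _ K hK h0.right.1 h1 (D := D)
      ((Z.bl_fin ⟨b.x0, b.x1, min y0 b.y0, max y1 b.y1⟩).subset fun l hl => ?_))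
    · convert this using 1
      group
    · obtain ⟨k1, k2⟩ := h0.right.2.band h2 hl.1
      refine ⟨k1, k2, not_lt.1 fun k3 => hl.2 ?_, not_lt.1 fun k3 => hl.2 ?_⟩
      · rw [lt_min_iff] at k3
        exact iff_of_false ((h3 l).2 k3.2) (not_le.2 ((k l k1 k2).2 k3.1))
      · rw [max_lt_iff] at k3
        exact iff_of_true ((h3 l).1 k3.2) ((k l k1 k2).1 k3.1)

theorem ps_right (p q : ℤ) : (G.ps c hm (oa n m ^ p * ob n m ^ q)).right = G.tv (p, q) := by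
  have : ∀ o, (G.ps c hm o).right = G.tvH (rightHom (G.th c hm o)) := fun o => by
    simp [ps, Th]
  rw [this, map_mul, G.th_a_pow, G.th_b_pow]
  simp only [map_mul, map_inv, rightHom_inl, rightHom_inr, one_mul, inv_one, mul_one]
  rw [← map_mul, ← ofAdd_add]
  simp [tvH]

end Grid

end

theorem Grid.pres {L C : Type} [CommGroup C] {Z : Cfg L} {n : ℕ} (G : Grid Z n) (hn : 0 < n)
    (c : C) (m : ℕ) (hm : c ^ m = 1) (hg : ∀ x : C, ∃ k : ℤ, x = c ^ k)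
    (hl : ∀ (H : Type) [Group H] (y : H), y ^ m = 1 → ∃ f : C →* H, f c = y) :
    ∃ ψ : OG n m →* Big L C, Function.Injective ψ ∧
      ψ (PresentedGroup.of (Sum.inl 0)) = G.pa c ∧ ψ (PresentedGroup.of (Sum.inl 1)) = G.pb c ∧
      Set.range ψ = G.Gam c := by
  obtain ⟨h1, h2⟩ := G.th_main hm hg hl
  refine ⟨G.ps c hm, (G.Th_inj hn c).comp ((MulAut.conj _).injective.comp h1), G.ps_a hm,
    G.ps_b hm, Set.Subset.antisymm ?_ ?_⟩
  · rintro _ ⟨o, rfl⟩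
    exact G.ps_mem hm o
  · rintro z ⟨v, b, h3, h4⟩
    obtain ⟨v', b', h5, h6⟩ := G.ps_mem hm (oa n m ^ v.1 * ob n m ^ v.2)
    have h7 := G.ps_right hm v.1 v.2
    rw [G.tv_inj hn (h5.symm.trans h7)] at h6
    obtain ⟨o, ho⟩ := Subgroup.mul_mem _ (G.box_mem _ (G.lam_mem hm h2) h4)
      (Subgroup.inv_mem _ (G.box_mem _ (G.lam_mem hm h2) h6))
    refine ⟨o * (oa n m ^ v.1 * ob n m ^ v.2), ?_⟩
    rw [map_mul, ho]
    refine SemidirectProduct.ext ?_ ?_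
    · rw [mul_left, left_inl, right_inl, map_one, MulAut.one_apply]
      group
    · rw [mul_right, h7, h3]
      simp

theorem cz_lift (H : Type) [Group H] (y : H) (_ : y ^ 0 = 1) : ∃ f : CZ →* H, f cz = y :=
  ⟨zpowersHom H y, by simp [cz]⟩

theorem c2_lift (H : Type) [Group H] (y : H) (h : y ^ 2 = 1) : ∃ f : C2 →* H, f c2 = y := by
  have h1 : ∀ x : C2, x = 1 ∨ x = c2 := by decide
  have h2 : c2 ≠ 1 := by decide
  have h3 : c2 * c2 = 1 := by decide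
  refine ⟨MonoidHom.mk' (fun x => if x = 1 then 1 else y) fun a b => ?_, by simp [h2]⟩
  rcases h1 a with rfl | rfl <;> rcases h1 b with rfl | rfl <;> simp [h2, h3, ← sq, h]

end Pool.Agent.E5f
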