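import Pool.Agent.E5f.MoBase
import Pool.Agent.E5f.MoPres
import Pool.Agent.E5f.MoFib0

set_option autoImplicit false

namespace Pool.Agent.E5f

open Filter Classical

/-- Affine relabelling. -/
def Emb.affP (E : Emb) (ε : Zlˣ) (e : Zl) : Equiv.Perm Lam where
  toFun := E.aff ε e
  invFun := E.aff (ε⁻¹ : Zlˣ) (-((ε⁻¹ : Zlˣ) * e))
  left_inv := fun l => by rw [E.aff_aff, Units.inv_mul, add_neg_cancel, E.aff_one]
  right_inv := fun l => by
    rw [E.aff_aff, Units.mul_inv, mul_neg, ← mul_assoc, Units.mul_inv, one_mul, neg_add_cancel,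
      E.aff_one]

/-- Translation of labels. -/
def trlP (v : Zl) : Equiv.Perm Lam where
  toFun := trl v
  invFun := trl (-v)
  left_inv := fun l => by rw [trl_trl, neg_add_cancel, trl_zero]
  right_inv := fun l => by rw [trl_trl, add_neg_cancel, trl_zero]

theorem Fam.adm_trl {E : Emb} {Q P : Type} (F : Fam E Q P) (v : Zl) :
    F.Adm id (trlP v) 1 (E.ξ v) 1 (E.η v) :=
  ⟨fun _ _ h => h, fun _ _ h => h, fun _ a b => (E.key_trl v _ a b).symm,
    fun _ a b => (E.tr.key_trl v _ a b).symm, fun _ l => by rw [one_mul]; exact E.pos_trl v _ l,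
    fun _ l => by rw [one_mul]; exact E.tr.pos_trl v _ l, one_pos, one_pos⟩

theorem g8deg_mul_MoFib (γ γ' : G8) : g8deg (γ * γ') = g8deg γ + g8deg γ' := by
  simp [g8deg]

namespace BAct
variable {Q P : Type} [MulAction G8 Q] {F : Fam E0 Q P} {P0 : Q} (A : BAct F.B P0)

/-- The relabelling of fibre labels. -/
noncomputable def sg (γ : G8) : Equiv.Perm Lam := E0.affP (E0.uω ^ (2 * g8deg γ)) (A.e γ)

theorem sg_apply (γ : G8) (l : Lam) :
    A.sg γ l = E0.aff ((E0.uω ^ (2 * g8deg γ) : Zlˣ) : Zl) (A.e γ) l := rfl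

theorem sg_mul (γ γ' : G8) : A.sg (γ * γ') = A.sg γ * A.sg γ' := by
  have h1 := A.rt (γ * γ') 0
  rw [map_mul, SemidirectProduct.mul_right, Equiv.Perm.mul_apply, A.rt, A.rt] at h1
  simp only [mul_zero, zero_add] at h1
  ext1 l
  rw [Equiv.Perm.mul_apply, sg_apply, sg_apply, sg_apply, E0.aff_aff, h1, g8deg_mul_MoFib, mul_add,
    zpow_add, Units.val_mul]

theorem sg_one : A.sg 1 = 1 := by
  have h := A.sg_mul 1 1
  rw [mul_one] at h
  exact left_eq_mul.1 h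

theorem sg_zero (γ : G8) : A.sg γ (0, 0) = (0, 0) := by
  rw [sg_apply]
  refine Prod.ext rfl ?_
  simp [E0.μ0]

theorem adm (γ : G8) : F.Adm (fun q => γ • q) (A.sg γ) ((Real.goldenRatio ^ 2) ^ g8deg γ) 0
    ((Real.goldenRatio ^ 2) ^ (-g8deg γ)) 0 := by
  have p1 : 0 < (Real.goldenRatio ^ 2) ^ g8deg γ := zpow_pos (pow_pos Real.goldenRatio_pos 2) _
  have p2 : 0 < (Real.goldenRatio ^ 2) ^ (-g8deg γ) := zpow_pos (pow_pos Real.goldenRatio_pos 2) _
  have e1 := E0.ξ_uω2 (g8deg γ)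
  have e2 : E0.tr.ξ _ = _ := E0.η_uω2 (g8deg γ)
  refine ⟨fun _ _ h => A.mv γ h, fun _ _ h => A.mh γ h, fun q a b => ?_, fun q a b => ?_,
    fun q l => ?_, fun q l => ?_, p1, p2⟩
  · rw [A.hu, ← e1]
    exact (E0.key_aff (by rw [e1]; exact p1) _ _ a b).symm
  · rw [A.hw, ← e2]
    exact (E0.tr.key_aff (by rw [e2]; exact p2) _ _ a b).symm
  · rw [A.hu, ← e1, add_zero]
    exact E0.pos_aff _ _ _ l
  · rw [A.hw, ← e2, add_zero]
    exact E0.tr.pos_aff _ _ _ l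

theorem s_ex (q0 : Q) {x0 : P} (h1 : F.lb x0 = (0, 0)) : ∃ s : G8 →* Equiv.Perm P, ∀ γ,
    ∃ k, F.Cov (fun q => γ • q) (A.sg γ) (s γ) q0 k := by
  have key : ∀ γ : G8, ∃ f k, F.Cov (fun q => γ • q) (A.sg γ) f q0 k ∧ f x0 = x0 := fun γ =>
    (A.adm γ).ex q0 (by rw [h1, A.sg_zero])
  choose f k hf hx using key
  let s0 : G8 →* Function.End P :=
    { toFun := f
      map_one' := by
        have h2 : F.Cov (fun q => (1 : G8) • q) (A.sg 1) id q0 1 := by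
          rw [A.sg_one, show (fun q : Q => (1 : G8) • q) = id from funext fun q => one_smul _ q]
          exact F.cov_id q0
        exact (hf 1).eq' h2 (hx 1)
      map_mul' := fun γ γ' => by
        obtain ⟨k1, h2⟩ := (hf γ).all (A.adm γ) (γ' • q0)
        have h3 := h2.comp (τ' := fun q => γ' • q) (hf γ')
        rw [← A.sg_mul] at h3
        have h4 : ((fun q : Q => γ • q) ∘ fun q => γ' • q) = fun q => (γ * γ') • q :=
          funext fun q => (mul_smul γ γ' q).symm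
        rw [h4] at h3
        have h5 : f (γ * γ') = f γ ∘ f γ' :=
          (hf (γ * γ')).eq' h3 (x0 := x0) (by rw [Function.comp_apply, hx, hx, hx])
        exact h5 }
  exact ⟨s0.toHomPerm, fun γ => ⟨k γ, hf γ⟩⟩

end BAct

/-- The fibre configuration as a grid. -/
noncomputable def gridF (u w : Mk) (h3 : (E0.fc u w).Gen) (h4 : 0 < u.1) (h5 : u.1 < 1 / 2) :
    Grid (E0.fc u w) 3 where
  e := Equiv.prodCongr (Equiv.refl _) (QuadraticAlgebra.equivProd 1 1)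
  ox := fun i => E0.m i * u.1
  oy := fun i => E0.tr.m i * w.1
  hx := fun l => by
    show E0.ξ l.2 + E0.m l.1 * u.1 = E0.m l.1 * u.1 + l.2.re + Real.goldenRatio * l.2.im
    rw [show E0.ξ l.2 = l.2.re + l.2.im * Real.goldenRatio from
      embR_apply _ (by rw [← sq, Real.goldenRatio_sq]) l.2]
    ring
  hy := fun l => by
    show E0.η l.2 + E0.tr.m l.1 * w.1 = E0.tr.m l.1 * w.1 + l.2.re + Real.goldenConj * l.2.im
    rw [show E0.η l.2 = l.2.re + l.2.im * Real.goldenConj from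
      embR_apply _ (by rw [← sq, Real.goldenConj_sq]) l.2]
    ring
  ox0 := fun i => mul_nonneg (E0.m_nonneg i) h4.le
  ox1 := fun i => by
    have := E0.m_le i
    have := E0.m_nonneg i
    have := gr_bounds.1
    nlinarith
  inj := h3.1

theorem gridF_tv (u w : Mk) (h3 : (E0.fc u w).Gen) (h4 : 0 < u.1) (h5 : u.1 < 1 / 2)
    (v : ℤ × ℤ) : (gridF u w h3 h4 h5).tv v = trlP ⟨v.1, v.2⟩ := by
  ext1 l
  rfl

theorem box_side_MoFib {L : Type} {Z : Cfg L} (hx : Function.Injective Z.x) (l : L) :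
    ∃ b, BoxW c2 Z b (Rs Z.x (Z.x l, false)) (Rl Z.X l) 1 := by
  have h := BoxW.single (c := c2) (Z := Z) (b := ⟨Z.x l, Z.x l, Z.y l, Z.y l⟩)
    (D := Rs Z.y (Z.y l, true)) (Z.up_Rs (Z.x l, false)) ((at_Rs _ _).inB le_rfl le_rfl)
    (Z.up_Rs (Z.x l, true)) ((at_Rs _ _).inB le_rfl le_rfl) ((at_Rs _ _).inB le_rfl le_rfl)
  rw [stp_cross hx, if_neg (by simp [Rs]), lt_one, map_one, Rs_eq_Rl Z hx] at h
  exact ⟨_, h⟩

theorem box_tr3_MoFib {L : Type} {Z : Cfg L} {R1 R2 R3 R4 : Set L} {ω : WL L C2}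
    (h1 : ∃ b, BoxW c2 Z b R1 R2 1) (h2 : ∃ b, BoxW c2 Z b R2 R3 ω)
    (h3 : ∃ b, BoxW c2 Z b R3 R4 1) : ∃ b, BoxW c2 Z b R1 R4 ω := by
  obtain ⟨b1, h1⟩ := h1
  obtain ⟨b2, h2⟩ := h2
  obtain ⟨b3, h3⟩ := h3
  have := ((h1.mono (b1.sub_sup_left b2)).trans (h2.mono (b1.sub_sup_right b2))).mono
    ((b1.sup b2).sub_sup_left b3) |>.trans (h3.mono ((b1.sup b2).sub_sup_right b3))
  rw [one_mul, mul_one] at this
  exact ⟨_, this⟩

theorem box_inv_MoFib {L : Type} {Z : Cfg L} {R1 R2 : Set L} (h : ∃ b, BoxW c2 Z b R1 R2 1) :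
    ∃ b, BoxW c2 Z b R2 R1 1 := h.imp fun _ k => by simpa using k.symm

theorem gam_iff_MoFib {Q P : Type} (F : Fam E0 Q P) (q0 : Q) (x0 : P) (h1 : F.lb x0 = (0, 0))
    (h2 : F.gv q0 x0 = 1) (h3 : (F.Z q0).Gen) (h4 : 0 < (F.B.u q0).1) (h5 : (F.B.u q0).1 < 1 / 2)
    (z : Big Lam C2) : z ∈ (gridF _ _ h3 h4 h5).Gam c2 ↔
      ∃ v y, z.right = trlP v ∧ F.lb y = (0, v) ∧ F.gv q0 y = z.left := by
  have x00 : ∀ v : Zl, (F.Z q0).x (0, v) = E0.ξ v := fun v => by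
    show E0.ξ v + E0.m 0 * _ = _
    rw [E0.m_zero, zero_mul, add_zero]
  have im : ∀ v : Zl, trlP v '' Rs (F.Z q0).x (0, false) =
      Rs (F.Z q0).x ((F.Z q0).x (0, v), false) := fun v => by
    have := Rs_image (trlP v) one_pos ((F.adm_trl v).px q0) (0, false)
    rw [mul_zero, zero_add] at this
    rw [x00]
    exact this
  have z0 : Rs (F.Z q0).x (0, false) = Rs (F.Z q0).x ((F.Z q0).x (0, 0), false) := by
    rw [x00, map_zero]
  constructor
  · rintro ⟨v, b, k1, k2⟩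
    rw [gridF_tv] at k1 k2
    obtain ⟨b', k3⟩ := box_tr3_MoFib (box_inv_MoFib (box_side_MoFib h3.1 (0, 0)))
      ⟨b, by rw [← z0, ← im]; exact k2⟩ (box_side_MoFib h3.1 (0, ⟨v.1, v.2⟩))
    rw [← h1] at k3
    obtain ⟨y, k4, k5⟩ := F.clv q0 x0 _ _ _ k3
    exact ⟨_, y, k1, k4, by rw [k5, h2, one_mul]⟩
  · rintro ⟨v, y, k1, k2, k3⟩
    obtain ⟨b, hb⟩ := F.cv q0 x0 y
    rw [h1, k2, h2, k3, inv_one, one_mul] at hb
    obtain ⟨b', k4⟩ := box_tr3_MoFib (box_side_MoFib h3.1 (0, 0)) ⟨b, hb⟩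
      (box_inv_MoFib (box_side_MoFib h3.1 (0, v)))
    refine ⟨(v.re, v.im), b', by rw [gridF_tv]; exact k1, ?_⟩
    rw [gridF_tv]
    rw [← z0, ← im] at k4
    exact k4

theorem c2_lift_MoFib (H : Type) [Group H] (y : H) (hy : y ^ 2 = 1) :
    ∃ f : C2 →* H, f c2 = y := by
  refine ⟨MonoidHom.mk' (fun x => if x = 1 then 1 else y) (fun a b => ?_), by simp [c2_ne]⟩
  have h : ∀ x : C2, x = 1 ∨ x = c2 := by decide
  have h2 : c2 * c2 = 1 := by decide
  rcases h a with rfl | rfl <;> rcases h b with rfl | rfl <;> simp [c2_ne, h2]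
  rw [← sq, hy]

theorem fib_ex {Q P : Type} [MulAction G8 Q] (F : Fam E0 Q P) {P0 : Q} (A : BAct F.B P0)
    (q0 : Q) (x0 : P) (h1 : F.lb x0 = (0, 0)) (h2 : F.gv q0 x0 = 1) (h3 : (F.Z q0).Gen)
    (h4 : 0 < (F.B.u q0).1) (h5 : (F.B.u q0).1 < 1 / 2) (S : Base Q)
    (h6 : S.lam = Real.goldenRatio ^ 2) (h7 : S.dg = g8deg) :
    ∃ Fb : Fib S q0 P, Fb.dv = F.dv ∧ Fb.dh = F.dh := by
  obtain ⟨s, hs⟩ := A.s_ex q0 h1
  obtain ⟨ψ, ψi, -, -, ψr⟩ := (gridF _ _ h3 h4 h5).pres (by norm_num) c2 2 (by decide) c2_gen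
    c2_lift_MoFib
  have gam := gam_iff_MoFib F q0 x0 h1 h2 h3 h4 h5
  have t0 : ∀ v : Zl, trlP v (0, 0) = (0, v) := fun v => Prod.ext rfl (zero_add v)
  have back : ∀ (v : Zl) (f : P → P) (k : WL Lam C2), F.Cov id (trlP v) f q0 k →
      ∃ o, ψ o = ⟨k, trlP v⟩ := by
    intro v f k hc
    have : (⟨k, trlP v⟩ : Big Lam C2) ∈ Set.range ψ := by
      rw [ψr, gam]
      refine ⟨v, f x0, rfl, by rw [(hc x0).1, h1, t0], ?_⟩
      have := (hc x0).2
      rwa [h2, map_one, mul_one] at this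
    exact this
  have key : ∀ o, ∃ f v, (ψ o).right = trlP v ∧ F.Cov id (ψ o).right f q0 (ψ o).left := by
    intro o
    obtain ⟨v, y, k1, k2, k3⟩ := (gam _).1 (ψr ▸ Set.mem_range_self o)
    obtain ⟨f, k, k4, k5⟩ := (F.adm_trl v).ex q0 (x0 := x0) (y0 := y) (by rw [k2, h1, t0])
    have k6 := (k4 x0).2
    rw [k5, h2, map_one, mul_one] at k6
    refine ⟨f, v, k1, ?_⟩
    rw [k1, ← k3]
    exact (show F.gv q0 y = k from k6) ▸ k4
  choose f v hv hf using key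
  let φ0 : OG 3 2 →* Function.End P :=
    { toFun := f
      map_one' := by
        have := hf 1
        rw [map_one] at this
        exact this.eq (F.cov_id q0)
      map_mul' := fun o o' => by
        have := hf (o * o')
        rw [map_mul] at this
        have h8 : F.Cov id (ψ o * ψ o').right (f o ∘ f o') q0 (ψ o * ψ o').left :=
          Fam.Cov.comp (τ := id) (τ' := id) (hf o) (hf o')
        exact this.eq h8 }
  have hf' : ∀ o, F.Cov id (trlP (v o)) (φ0.toHomPerm o) q0 (ψ o).left := fun o => hv o ▸ hf o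
  have free : ∀ o x, φ0.toHomPerm o x = x → o = 1 := by
    intro o x hx
    obtain ⟨k1, k2⟩ := hf' o x
    rw [hx] at k1 k2
    have k3 : v o = 0 := left_eq_add.1 (congrArg Prod.snd k1)
    have k4 : trlP (v o) = 1 := by
      rw [k3]
      ext1 l
      exact trl_zero l
    rw [k4, map_one] at k2
    apply ψi
    rw [map_one]
    exact SemidirectProduct.ext (right_eq_mul.1 k2) ((hv o).trans k4)
  have onto : ∀ (w : Zl) (g : P → P) (k : WL Lam C2), F.Cov id (trlP w) g q0 k →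
      ∃ o, ⇑(φ0.toHomPerm o) = g := by
    intro w g k hc
    obtain ⟨o, ho⟩ := back w g k hc
    have := hf o
    rw [ho] at this
    exact ⟨o, this.eq hc⟩
  refine ⟨⟨F.dv, F.dh, F.dv_pm, F.tr.dv_pm, φ0.toHomPerm, ?_, s, ?_, ?_, ?_, ?_, ?_,
    F.thick q0 h3, ⟨x0⟩, ?_, ?_⟩, rfl, rfl⟩
  · rw [injective_iff_map_eq_one]
    intro o ho
    exact free o x0 (by rw [ho]; rfl)
  · intro γ o
    obtain ⟨k1, a1⟩ := hs γ⁻¹
    obtain ⟨k2, a2⟩ := (hf' o).all (F.adm_trl _) (γ⁻¹ • q0)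
    obtain ⟨k0, a0⟩ := hs γ
    obtain ⟨k3, a3⟩ := a0.all (A.adm γ) (γ⁻¹ • q0)
    have a4 := Fam.Cov.comp (τ' := id ∘ fun q => γ⁻¹ • q) a3
      (a2.comp (τ' := fun q => γ⁻¹ • q) a1)
    have e1 : ((fun q : Q => γ • q) ∘ id ∘ fun q => γ⁻¹ • q) = id :=
      funext fun q => smul_inv_smul γ q
    have e2 : A.sg γ * (trlP (v o) * A.sg γ⁻¹) =
        trlP (((E0.uω ^ (2 * g8deg γ) : Zlˣ) : Zl) * v o) := by
      have e3 : A.sg γ * trlP (v o) =
          trlP (((E0.uω ^ (2 * g8deg γ) : Zlˣ) : Zl) * v o) * A.sg γ := by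
        ext1 l
        exact E0.aff_trl _ _ _ l
      rw [← mul_assoc, e3, mul_assoc, ← A.sg_mul, mul_inv_cancel, A.sg_one, mul_one]
    rw [e1, e2] at a4
    obtain ⟨o', ho'⟩ := onto _ _ _ a4
    refine ⟨o', Equiv.ext fun x => ?_⟩
    rw [ho', ← map_inv]
    rfl
  · intro q o x y
    simpa using (hf' o).dv (F.adm_trl _) q x y
  · intro q o x y
    simpa using (hf' o).dh (F.adm_trl _) q x y
  · intro γ q x y
    obtain ⟨k, a⟩ := hs γ
    rw [h6, h7]
    exact a.dv (A.adm γ) q x y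
  · intro γ q x y
    obtain ⟨k, a⟩ := hs γ
    rw [h6, h7]
    exact a.dh (A.adm γ) q x y
  · have rep : ∀ i : Fin 3, ∃ y : P, ∀ x, (F.lb x).1 = i → (F.lb y).1 = i := by
      intro i
      by_cases h : ∃ x, (F.lb x).1 = i
      · exact h.imp fun _ k _ _ => k
      · exact ⟨x0, fun x k => absurd ⟨x, k⟩ h⟩
    choose y hy using rep
    refine ⟨Finset.univ.image y, fun x => ?_⟩
    obtain ⟨g, k, a1, a2⟩ := (F.adm_trl ((F.lb x).2 - (F.lb (y (F.lb x).1)).2)).ex q0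
      (x0 := y (F.lb x).1) (y0 := x) (Prod.ext (hy _ x rfl).symm (add_sub_cancel _ _).symm)
    obtain ⟨o, ho⟩ := onto _ _ _ a1
    exact ⟨o, y (F.lb x).1, Finset.mem_image_of_mem _ (Finset.mem_univ _), by rw [ho, a2]⟩
  · intro x
    exact (Set.finite_singleton 1).subset fun o ho => free o x ho

end Pool.Agent.E5f
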