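import Pool.Agent.E5f.MoHol
import Pool.Agent.E5f.MoVH

set_option autoImplicit false

namespace Pool.Agent.E5f

open Filter Classical

section
variable {L C : Type} [CommGroup C] {c : C} {Z : Cfg L} {l m n : L} {g g' g'' : WL L C}

/-- The points adjacent to two labels are joined inside some box. -/
def Jn_MoHol2 (c : C) (Z : Cfg L) (l m : L) (g g' : WL L C) : Prop :=
  ∃ b, BoxW c Z b (Rl Z.X l) (Rl Z.X m) (g⁻¹ * g')

theorem jn_refl_MoHol2 (c : C) (Z : Cfg L) (l : L) (g : WL L C) : Jn_MoHol2 c Z l l g g :=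
  ⟨⟨Z.x l, Z.x l, 0, 0⟩, by
    rw [inv_mul_cancel]
    exact BoxW.refl (up_Rl _ _) ((Z.at_Rl l).inB le_rfl le_rfl)⟩

theorem jn_symm_MoHol2 (h : Jn_MoHol2 c Z l m g g') : Jn_MoHol2 c Z m l g' g := by
  obtain ⟨b, h⟩ := h
  refine ⟨b, ?_⟩
  have := h.symm
  rwa [mul_inv_rev, inv_inv] at this

theorem jn_trans_MoHol2 (h : Jn_MoHol2 c Z l m g g') (h' : Jn_MoHol2 c Z m n g' g'') :
    Jn_MoHol2 c Z l n g g'' := by
  obtain ⟨b, h⟩ := h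
  obtain ⟨b', h'⟩ := h'
  refine ⟨b.sup b', ?_⟩
  have := (h.mono (b.sub_sup_left b')).trans (h'.mono (b.sub_sup_right b'))
  rwa [mul_assoc, mul_inv_cancel_left] at this

theorem jn_kap_MoHol2 (h : Jn_MoHol2 c Z l m g g') :
    Jn_MoHol2 c Z.tr l m (kap c Z.X Z.Y l g) (kap c Z.X Z.Y m g') := by
  obtain ⟨b, h⟩ := h
  let b1 : Bx := ⟨Z.x l, Z.x l, Z.y l, Z.y l⟩
  let b2 : Bx := ⟨Z.x m, Z.x m, Z.y m, Z.y m⟩
  have h1 : l ∈ Z.bl b1 := ⟨le_rfl, le_rfl, le_rfl, le_rfl⟩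
  have h2 : m ∈ Z.bl b2 := ⟨le_rfl, le_rfl, le_rfl, le_rfl⟩
  exact ⟨(b.sup (b1.sup b2)).tr, (h.mono (b.sub_sup_left _)).kap
    (Z.bl_mono ((b1.sub_sup_left b2).trans (b.sub_sup_right _)) h1)
    (Z.bl_mono ((b1.sub_sup_right b2).trans (b.sub_sup_right _)) h2)⟩

theorem jn_kap_inv_MoHol2
    (h : Jn_MoHol2 c Z.tr l m (kap c Z.X Z.Y l g) (kap c Z.X Z.Y m g')) :
    Jn_MoHol2 c Z l m g g' := by
  have := jn_kap_MoHol2 h
  simp only [Cfg.tr_X, Cfg.tr_Y, Cfg.tr_tr, kap_kap] at this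
  exact this

end

theorem jn_move_MoHol2 (E : Emb) (u w w' : Mk) {l m : Lam} {g g' : WL Lam C2}
    (h : Jn_MoHol2 c2 (E.fc u w) l m g g') : Jn_MoHol2 c2 (E.fc u w') l m g g' := by
  obtain ⟨b, h⟩ := h
  refine ⟨⟨b.x0, b.x1, b.y0 - 3 * |w'.1 - w.1|, b.y1 + 3 * |w'.1 - w.1|⟩,
    h.transfer (Z' := E.fc u w') (Agr.refl _ _) (fun _ _ k => k)
      (fun D hD => ⟨D, fun a => ?_, fun _ _ _ => Iff.rfl⟩)⟩
  have h1 := E.tr.pos_move a w.1 w'.1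
  have h2 := E.tr.m_le a.1
  have h3 := E.tr.m_nonneg a.1
  have h4 : |E.tr.m a.1 * (w'.1 - w.1)| ≤ 3 * |w'.1 - w.1| := by
    rw [abs_mul, abs_of_nonneg h3]
    exact mul_le_mul_of_nonneg_right h2 (abs_nonneg _)
  obtain ⟨h5, h6⟩ := abs_le.1 h4
  refine ⟨fun k => (hD a).1 ?_, fun k => (hD a).2 ?_⟩
  · simp only [Emb.fc_y] at k ⊢
    linarith
  · simp only [Emb.fc_y] at k ⊢
    linarith

theorem jn_conn_MoHol2 (E : Emb) {Q : Type} (B : Plan cz E.bc Q)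
    (Θ : Q → Lam → Equiv.Perm (WL Lam C2)) (h1 : ∀ q q', B.MV q q' → Θ q = Θ q')
    (h2 : ∀ q q', B.MH q q' → ∀ l g,
      kap c2 (E.key (B.u q)) (E.tr.key (B.w q)) l (Θ q l g) =
        kap c2 (E.key (B.u q')) (E.tr.key (B.w q')) l (Θ q' l g))
    (q q' : Q) {l m : Lam} {g g' : WL Lam C2}
    (h : Jn_MoHol2 c2 (E.fc (B.u q) (B.w q)) l m (Θ q l g) (Θ q m g')) :
    Jn_MoHol2 c2 (E.fc (B.u q') (B.w q')) l m (Θ q' l g) (Θ q' m g') := by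
  induction B.conn q q' with
  | refl => exact h
  | @tail p p' _ k ih =>
    rcases k with k | k
    · rw [← h1 p p' k, ← k.2]
      exact jn_move_MoHol2 E _ _ _ ih
    · refine jn_kap_inv_MoHol2 ?_
      have k1 := jn_kap_MoHol2 ih
      simp only [Emb.fc_X, Emb.fc_Y] at k1 ⊢
      rw [h2 p p' k, h2 p p' k, ← Emb.tr_fc, k.2] at k1
      rw [← Emb.tr_fc]
      exact jn_move_MoHol2 E.tr _ _ _ k1

theorem fam_ex (E : Emb) {Q : Type} (B : Plan cz E.bc Q) (q0 : Q) :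
    ∃ (P : Type) (F : Fam E Q P) (x0 : P), F.B = B ∧ F.lb x0 = (0, 0) ∧ F.gv q0 x0 = 1 := by
  obtain ⟨Θ, h1, h2⟩ := amb_ex E B
  let l0 : Lam := (0, 0)
  let g0 : WL Lam C2 := (Θ q0 l0).symm 1
  let P : Type := {r : Lam × WL Lam C2 //
    Jn_MoHol2 c2 (E.fc (B.u q0) (B.w q0)) l0 r.1 (Θ q0 l0 g0) (Θ q0 r.1 r.2)}
  have cv : ∀ (q : Q) (x y : P), Jn_MoHol2 c2 (E.fc (B.u q) (B.w q)) x.1.1 y.1.1
      (Θ q x.1.1 x.1.2) (Θ q y.1.1 y.1.2) := fun q x y =>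
    jn_conn_MoHol2 E B Θ h1 h2 q0 q (jn_trans_MoHol2 (jn_symm_MoHol2 x.2) y.2)
  have cl : ∀ (q : Q) (x : P) (l : Lam) (g : WL Lam C2),
      Jn_MoHol2 c2 (E.fc (B.u q) (B.w q)) x.1.1 l (Θ q x.1.1 x.1.2) g →
        ∃ y : P, y.1.1 = l ∧ Θ q y.1.1 y.1.2 = g := fun q x l g h => by
    refine ⟨⟨(l, (Θ q l).symm g), jn_trans_MoHol2 x.2
      (jn_conn_MoHol2 E B Θ h1 h2 q q0 ?_)⟩, rfl, Equiv.apply_symm_apply _ _⟩
    have e : Θ q l ((Θ q l).symm g) = g := Equiv.apply_symm_apply _ _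
    rw [← e] at h
    exact h
  refine ⟨P,
    { B := B
      lb := fun x => x.1.1
      gv := fun q x => Θ q x.1.1 x.1.2
      gh := fun q x => kap c2 (E.key (B.u q)) (E.tr.key (B.w q)) x.1.1 (Θ q x.1.1 x.1.2)
      relv := fun _ _ => rfl
      relh := fun _ _ => (kap_kap _ _ _ _ _).symm
      mv := fun q q' x h => by rw [h1 q q' h]
      mh := fun q q' x h => h2 q q' h _ _
      cv := cv
      ch := fun q x y => jn_kap_MoHol2 (cv q x y)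
      clv := fun q x l b ω h => cl q x l _ ⟨b, by rw [inv_mul_cancel_left]; exact h⟩
      clh := fun q x l b ω h => ?_
      ext := fun q x y e1 e2 => ?_ },
    ⟨(l0, g0), jn_refl_MoHol2 _ _ _ _⟩, rfl, rfl, Equiv.apply_symm_apply _ _⟩
  · obtain ⟨y, e1, e2⟩ := cl q x l (kap c2 (E.tr.key (B.w q)) (E.key (B.u q)) l
      (kap c2 (E.key (B.u q)) (E.tr.key (B.w q)) x.1.1 (Θ q x.1.1 x.1.2) * ω))
      (jn_kap_inv_MoHol2 ⟨b, by
        simp only [Emb.fc_X, Emb.fc_Y, Cfg.tr_X]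
        rw [kap_kap, inv_mul_cancel_left]
        exact h⟩)
    refine ⟨y, e1, ?_⟩
    rw [e2, e1, kap_kap]
  · refine Subtype.ext (Prod.ext e1 ?_)
    have e3 : Θ q x.1.1 x.1.2 = Θ q x.1.1 y.1.2 := by
      rw [e2]
      exact congrArg (fun l => Θ q l y.1.2) e1.symm
    exact (Θ q x.1.1).injective e3

end Pool.Agent.E5f
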