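import Pool.Agent.E5f.MoAct
import Pool.Agent.E5f.MoHol2
import Pool.Agent.E5f.MoFib

set_option autoImplicit false

namespace Pool.Agent.E5f

open Filter Classical

theorem model_ex : ∃ (Q P : Type) (_ : MulAction G8 Q) (S : Base Q) (q0 : Q) (Fb : Fib S q0 P)
    (F : Fam E0 Q P), S.dv = F.B.dv ∧ S.dh = F.B.dh ∧ Fb.dv = F.dv ∧ Fb.dh = F.dh ∧
      ∀ r a, F.B.Cusp a r → ∃ γ : G8, S.dg γ = 0 ∧ γ • S.P0 = r := by
  obtain ⟨Q, B, P0, h0, h1, h2⟩ := plan_ex cz E0.bc 1 (E0.bc.x 0, false) (E0.bc.y 0, false)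
  obtain ⟨inst, ⟨A⟩⟩ := bact_ex B P0 h0 ⟨h1, h2⟩
  obtain ⟨S, s1, s2, s3, s4, s5⟩ := A.base_ex
  obtain ⟨s, a1, a2, a3⟩ := E0.exists_generic (show (0 : ℝ) < 1 / 2 by norm_num)
  obtain ⟨t, -, -, b3⟩ := E0.tr.exists_generic (show (0 : ℝ) < 1 / 2 by norm_num)
  obtain ⟨q1, -, -, c1⟩ := B.mvh P0 (s, false)
  obtain ⟨q0, -, c2, c3⟩ := B.mvv q1 (t, false)
  obtain ⟨P, F, x0, rfl, f1, f2⟩ := fam_ex E0 B q0
  have hu : (F.B.u q0).1 = s := by rw [c2, c1]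
  have hw : (F.B.w q0).1 = t := by rw [c3]
  obtain ⟨Fb, g1, g2⟩ := fib_ex F A q0 x0 f1 f2
    (E0.fc_gen (by rw [hu]; exact a3) (by rw [hw]; exact b3)) (by rw [hu]; exact a1)
    (by rw [hu]; exact a2) S s5 s3
  refine ⟨Q, P, inst, S, q0, Fb, F, s1, s2, g1, g2, fun r a h => ?_⟩
  rw [s3, s4]
  exact A.cusp r a h

end Pool.Agent.E5f
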