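import Pool.Agent.E5f.BrChain
import Pool.Agent.E5f.BrBox
import Pool.Agent.E5f.BrTwo
import Pool.Agent.E5f.FinSys
import Pool.Agent.E5f.MoMain

set_option autoImplicit false

namespace Pool.Agent.E5f

open Classical Filter

namespace Fam
variable {E : Emb} {Q P : Type} (F : Fam E Q P)

/-- The interface system of a family. -/
noncomputable def fsys (Cu : Q → Prop) (hc : ∀ r a, F.B.Cusp a r → Cu r) :
    FSys E.lat F.B.dv F.B.dh Cu F.dv F.dh where
  toBSys := F.B.bsys Cu hc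
  path := F.path
  fpm := F.br_pm
  fpm' := F.tr.br_pm
  ev := F.br_ev
  pth := F.br_pth
  box := F.br_box
  chain := F.br_chain
  two := fun q r h e hne hq hr hw =>
    ⟨F.thick q (E.fc_gen hq hw), F.br_two (F.B.brs_mh h e) hne hq hr hw⟩

end Fam

theorem main_group : ∃ h : ℕ, 2 ≤ h ∧ ∃ (G : Type) (_ : Group G) (n : ℕ) (s : Fin n → G)
    (i : SG 13 →* G) (p : G →* SG h), Gens s ∧ FourPt s ∧ Function.Injective i ∧
      Function.Surjective p ∧ i.range = p.ker := by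
  obtain ⟨Q, P, inst, S, q0, Fb, F, e1, e2, e3, e4, hc⟩ := model_ex
  refine group_of_sys S q0 Fb (O := Zl) (E := E0.lat) (E' := E0.tr.lat) ?_ ?_
  · rw [e1, e2, e3, e4]
    exact F.fsys _ (fun r a h => (hc r a h).imp fun γ h' => ⟨h'.1, h'.2.symm⟩)
  · rw [e1, e2, e3, e4]
    exact F.tr.fsys _ (fun r a h => (hc r a ⟨h.2, h.1⟩).imp fun γ h' => ⟨h'.1, h'.2.symm⟩)

end Pool.Agent.E5f
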