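import Pool.Agent.E5f.MoGeo

set_option autoImplicit false

namespace Pool.Agent.E5f

open Filter Classical

section
variable {L C : Type} [CommGroup C]

/-- A sequence with a new first term. -/
def cns_MoRoute {α : Type} (a : α) (f : ℕ → α) : ℕ → α
  | 0 => a
  | i + 1 => f i

/-- A sequence with a changed first term. -/
def chg_MoRoute {α : Type} (a : α) (f : ℕ → α) : ℕ → α
  | 0 => a
  | i + 1 => f (i + 1)

/-- The status set which is `A` before `l`, contains `l` and is `B` after `l`. -/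
def mix_MoRoute (X : Od L) (A : Set L) (l : L) (B : Set L) : Set L :=
  {m | (X m < X l ∧ m ∈ A) ∨ m = l ∨ (X l < X m ∧ m ∈ B)}

theorem mix_inB_MoRoute (X : Od L) {ρ : L → ℝ} {lo hi : ℝ} {A B : Set L} {l : L}
    (hA : InB ρ lo hi A) (hB : InB ρ lo hi B) (hl : lo ≤ ρ l) :
    InB ρ lo hi (mix_MoRoute X A l B) := by
  intro m
  refine ⟨fun h => ?_, fun h h' => ?_⟩
  · rcases lt_trichotomy (X m) (X l) with h1 | h1 | h1
    · exact Or.inl ⟨h1, (hA m).1 h⟩
    · exact Or.inr (Or.inl (X.injective h1))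
    · exact Or.inr (Or.inr ⟨h1, (hB m).1 h⟩)
  · rcases h' with h1 | h1 | h1
    · exact (hA m).2 h h1.2
    · rw [h1] at h; linarith
    · exact (hB m).2 h h1.2

theorem up_le_MoRoute {X : Od L} {R : Set L} (hR : Up X R) {l m : L} (hl : l ∈ R)
    (h : X l ≤ X m) : m ∈ R := by
  rcases h.lt_or_eq with h | h
  · exact hR l m hl h
  · exact X.injective h ▸ hl

theorem self_Rs_MoRoute (ρ : L → ℝ) (l : L) (s : Bool) : l ∈ Rs ρ (ρ l, s) ↔ s = false := by
  simp [Rs]

/-- A straight passage below `l` joins two steps to one step. -/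
theorem merge_MoRoute {Z : Cfg L} (hx : Function.Injective Z.x) (c : C) (A B : Set L) {l : L}
    {R1 R2 : Set L} (h1 : Up Z.X R1) (h2 : Up Z.X R2) (l1 : l ∈ R1) (l2 : l ∉ R2) :
    stp c Z.X R1 (Rs Z.x (Z.x l, false)) A * emb (lt l c) *
      stp c Z.X (Rs Z.x (Z.x l, true)) R2 B = stp c Z.X R1 R2 (mix_MoRoute Z.X A l B) := by
  have e := stp_cross hx c l (mix_MoRoute Z.X A l B)
  rw [if_pos (show l ∈ mix_MoRoute Z.X A l B from Or.inr (Or.inl rfl))] at e
  rw [← e, stp_congr c (D := A) (D' := mix_MoRoute Z.X A l B) h1 (Z.up_Rs _),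
    stp_congr c (D := B) (D' := mix_MoRoute Z.X A l B) (Z.up_Rs _) h2, stp_mul, stp_mul]
  · intro m hm
    have h3 : Z.X l < Z.X m := by
      by_contra h3
      rw [not_lt] at h3
      refine hm ⟨fun h => ?_, fun h => absurd (up_le_MoRoute h2 h h3) l2⟩
      have := (self_Rs_MoRoute Z.x l true).1 (up_le_MoRoute (Z.up_Rs _) h h3)
      simp at this
    refine ⟨fun h => Or.inr (Or.inr ⟨h3, h⟩), ?_⟩
    rintro (h | h | h)
    · exact absurd h.1 h3.not_gt
    · rw [h] at h3; exact absurd h3 (lt_irrefl _)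
    · exact h.2
  · intro m hm
    have h3 : Z.X m < Z.X l := by
      by_contra h3
      rw [not_lt] at h3
      exact hm ⟨fun _ => up_le_MoRoute (Z.up_Rs _) ((self_Rs_MoRoute Z.x l false).2 rfl) h3,
        fun _ => up_le_MoRoute h1 l1 h3⟩
    refine ⟨fun h => Or.inl ⟨h3, h⟩, ?_⟩
    rintro (h | h | h)
    · exact h.2
    · rw [h] at h3; exact absurd h3 (lt_irrefl _)
    · exact absurd h.1 h3.not_gt

theorem merge'_MoRoute {Z : Cfg L} (hx : Function.Injective Z.x) (c : C) (A B : Set L) {l : L}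
    {R1 R2 : Set L} (h1 : Up Z.X R1) (h2 : Up Z.X R2) (l1 : l ∈ R1) (l2 : l ∉ R2) :
    stp c Z.X R2 (Rs Z.x (Z.x l, true)) B * emb (lt l c⁻¹) *
      stp c Z.X (Rs Z.x (Z.x l, false)) R1 A = stp c Z.X R2 R1 (mix_MoRoute Z.X A l B) := by
  rw [← stp_inv c Z.X R1 R2, ← merge_MoRoute hx c A B h1 h2 l1 l2, mul_inv_rev, mul_inv_rev,
    stp_inv, stp_inv, lt_inv, map_inv, mul_assoc]

/-- The letters of a step are crossed labels. -/
theorem sup_stp_MoRoute (c : C) {X : Od L} (S : Finset L) {R R' : Set L} (D : Set L)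
    (h : Up X R) (h' : Up X R') : Sup {l | ¬ (l ∈ R ↔ l ∈ R')} (pj S (stp c X R R' D)) := by
  rcases h.total h' with hs | hs
  · rw [stp_of_sub c D h' hs, pj_opH]
    exact sup_op c (fun l hl e => (mem_cut.1 hl).2.1.2 (e.1 (mem_cut.1 hl).2.1.1))
  · rw [← stp_inv, map_inv, stp_of_sub c D h hs, pj_opH]
    exact sup_inv (sup_op c (fun l hl e => (mem_cut.1 hl).2.1.2 (e.2 (mem_cut.1 hl).2.1.1)))

theorem red_mid_MoRoute {g h : W L C} {l : L} {x : C} (hx : x ≠ 1)
    (hg : ∀ e ∈ (wd g).getLast?, e.1 ≠ l) (hh : l ∉ lab h) : Red (wd g ++ (l, x) :: wd h) := by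
  refine (red_wd g).append ((red_wd h).cons hx (fun e he e' => hh ?_)) (fun e he e' he' => ?_)
  · exact List.mem_map.2 ⟨e, List.mem_of_mem_head? he, e'.symm⟩
  · simp only [List.head?_cons, Option.mem_def, Option.some.injEq] at he'
    rw [← he']
    exact hg e he

/-- The labels to the right of the first entry of a word. -/
def ent_MoRoute {L C : Type} (ρ : L → ℝ) (R : Set L) : List (L × C) → Set L
  | [] => R
  | e :: _ => Rs ρ (ρ e.1, false)

end

section
variable {L C : Type} [CommGroup C] {c : C} {Z : Cfg L} {Q : Type} {P : Plan c Z Q}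
  {k : ℕ} {s t : ℕ → Q} {D : ℕ → Set L} {a : ℕ → L} {x : ℕ → C}

theorem Route.cons_MoRoute (h : Route P k s t D a x) {D0 : Set L} {p q : Q} {l : L} {y : C}
    (h1 : P.Step D0 p q) (h2 : P.Touch l y q (s 0)) (h3 : Ess c (P.u q).2 (P.u (s 0)).2 y)
    (h4 : l ∈ P.R p ↔ l ∈ P.R q) (h5 : l ∈ P.R (s 0) ↔ l ∈ P.R (t 0)) (h6 : 0 < k → l ≠ a 0) :
    Route P (k + 1) (cns_MoRoute p s) (cns_MoRoute q t) (cns_MoRoute D0 D) (cns_MoRoute l a)
      (cns_MoRoute y x) where
  step := fun i hi => by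
    cases i with
    | zero => exact h1
    | succ i => exact h.step i (Nat.le_of_succ_le_succ hi)
  touch := fun i hi => by
    cases i with
    | zero => exact h2
    | succ i => exact h.touch i (Nat.lt_of_succ_lt_succ hi)
  ess := fun i hi => by
    cases i with
    | zero => exact h3
    | succ i => exact h.ess i (Nat.lt_of_succ_lt_succ hi)
  arr := fun i hi => by
    cases i with
    | zero => exact h4
    | succ i => exact h.arr i (Nat.lt_of_succ_lt_succ hi)
  dep := fun i hi => by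
    cases i with
    | zero => exact h5
    | succ i => exact h.dep i (Nat.lt_of_succ_lt_succ hi)
  ne := fun i hi => by
    cases i with
    | zero => exact h6 (Nat.lt_of_succ_lt_succ hi)
    | succ i => exact h.ne i (Nat.lt_of_succ_lt_succ hi)

theorem Route.chg_MoRoute (h : Route P k s t D a x) {D0 : Set L} {p : Q}
    (h1 : P.Step D0 p (t 0)) (h2 : 0 < k → (a 0 ∈ P.R p ↔ a 0 ∈ P.R (t 0))) :
    Route P k (chg_MoRoute p s) t (chg_MoRoute D0 D) a x where
  step := fun i hi => by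
    cases i with
    | zero => exact h1
    | succ i => exact h.step _ hi
  touch := h.touch
  ess := h.ess
  arr := fun i hi => by
    cases i with
    | zero => exact h2 hi
    | succ i => exact h.arr _ hi
  dep := h.dep
  ne := h.ne

theorem Route.init_MoRoute (h : Route P (k + 1) s t D a x) : Route P k s t D a x where
  step := fun i hi => h.step i (Nat.le_succ_of_le hi)
  touch := fun i hi => h.touch i (Nat.lt_succ_of_lt hi)
  ess := fun i hi => h.ess i (Nat.lt_succ_of_lt hi)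
  arr := fun i hi => h.arr i (Nat.lt_succ_of_lt hi)
  dep := fun i hi => h.dep i (Nat.lt_succ_of_lt hi)
  ne := fun i hi => h.ne i (Nat.lt_succ_of_lt hi)

theorem Route.lvl_MoRoute (S : Finset L) : ∀ k : ℕ, Route P k s t D a x → (∀ i < k, a i ∈ S) →
    dT Z.x (P.u (s 0)).1 (pj S ((P.g (s 0))⁻¹ * P.g (t k))) (P.u (t k)).1 =
      ∑ i ∈ Finset.range (k + 1), |(P.u (t i)).1 - (P.u (s i)).1| ∧
    ∀ e ∈ (wd (pj S ((P.g (s 0))⁻¹ * P.g (t k)))).getLast?,
      ¬ (e.1 ∈ P.R (s k) ↔ e.1 ∈ P.R (t k)) ∨ ∃ j, k = j + 1 ∧ e.1 = a j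
  | 0, h, _ => by
    rw [(h.step 0 le_rfl).2, inv_mul_cancel_left]
    refine ⟨?_, fun e he => Or.inl ?_⟩
    · rw [dT_stp Z c S _ (P.up_R _) (P.up_R _) (P.at_R _) (P.at_R _)]
      simp
    · exact sup_stp_MoRoute c S _ (P.up_R _) (P.up_R _) _
        (List.mem_map.2 ⟨e, List.mem_of_mem_getLast? he, rfl⟩)
  | k + 1, h, hS => by
    obtain ⟨i1, i2⟩ := Route.lvl_MoRoute S k h.init_MoRoute
      (fun i hi => hS i (Nat.lt_succ_of_lt hi))
    have hk := Nat.lt_succ_self k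
    have ht := h.touch k hk
    have hsup := sup_stp_MoRoute c S (D (k + 1)) (P.up_R (s (k + 1))) (P.up_R (t (k + 1)))
    have hr := red_mid_MoRoute (g := pj S ((P.g (s 0))⁻¹ * P.g (t k)))
      (h := pj S (stp c Z.X (P.R (s (k + 1))) (P.R (t (k + 1))) (D (k + 1)))) (l := a k)
      (h.ess k hk).1 (fun e he e' => by
        rcases i2 e he with h1 | ⟨j, h1, h2⟩
        · exact h1 (e' ▸ h.arr k hk)
        · exact h.ne j (h1 ▸ hk) (by rw [← h2, e', h1])) (fun hl => hsup _ hl (h.dep k hk))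
    have e : pj S ((P.g (s 0))⁻¹ * P.g (t (k + 1))) = ev (wd (pj S ((P.g (s 0))⁻¹ * P.g (t k))) ++
        (a k, x k) :: wd (pj S (stp c Z.X (P.R (s (k + 1))) (P.R (t (k + 1))) (D (k + 1))))) := by
      rw [ev_append, ev_cons, ev_wd, ev_wd, (h.step (k + 1) le_rfl).2, ht.2.2]
      simp only [map_mul, pj_emb_lt (hS k hk), mul_assoc]
    rw [e]
    refine ⟨?_, fun e he => ?_⟩
    · rw [dT_split _ _ _ hr, ev_wd, ev_wd, Finset.sum_range_succ, ← i1, ht.1]
      congr 1
      change dT Z.x (Z.x (a k)) _ _ = _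
      rw [← ht.2.1, dT_stp Z c S _ (P.up_R _) (P.up_R _) (P.at_R _) (P.at_R _)]
    · rw [wd_ev hr, List.getLast?_append] at he
      cases hw : wd (pj S (stp c Z.X (P.R (s (k + 1))) (P.R (t (k + 1))) (D (k + 1)))) with
      | nil =>
        rw [hw] at he
        simp only [List.getLast?_singleton, Option.some_or, Option.mem_def,
          Option.some.injEq] at he
        exact Or.inr ⟨k, rfl, by rw [← he]⟩
      | cons e' w =>
        left
        refine hsup _ (List.mem_map.2 ⟨e, ?_, rfl⟩)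
        rw [hw] at he ⊢
        rw [List.getLast?_cons_cons, List.getLast?_cons] at he
        simp only [Option.some_or, Option.mem_def, Option.some.injEq] at he
        refine List.mem_of_mem_getLast? ?_
        rw [List.getLast?_cons, he]
        rfl

end

namespace Plan
variable {L C : Type} [CommGroup C] {c : C} {Z : Cfg L} {Q : Type} {P : Plan c Z Q}

theorem route_aux_MoRoute [Nonempty L] (hZ : Z.Gen) (hg : ∀ x : C, ∃ n : ℤ, x = c ^ n) {b : Bx}
    {r : Q} {S : Finset L} (hS : ∀ l, l ∈ S ↔ l ∈ Z.bl b) : ∀ (w : List (L × C)) (p : Q),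
    P.Box b p r → wd (pj S ((P.g p)⁻¹ * P.g r)) = w →
    ∃ (k : ℕ) (s t : ℕ → Q) (D : ℕ → Set L) (a : ℕ → L) (x : ℕ → C),
      Route P k s t D a x ∧ s 0 = p ∧ t k = r ∧ (∀ i ≤ k, InB Z.y b.y0 b.y1 (D i)) ∧
      ∀ m, (P.u p).1 = Z.x m → (∀ e ∈ w.head?, m ≠ e.1) →
        (m ∈ P.R p ↔ m ∈ ent_MoRoute Z.x (P.R r) w) →
        (m ∈ P.R p ↔ m ∈ P.R (t 0)) ∧ (0 < k → m ≠ a 0) := by
  intro w
  have hT : ∀ p, P.Box b p r → InB Z.y b.y0 b.y1 {m | b.y1 < Z.y m} := fun p h m =>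
    ⟨fun h' => h', fun h1 (h2 : b.y1 < Z.y m) => by linarith [h.1.2.2.1, h.1.2.2.2]⟩
  have hp : ∀ R R' : Set L, pj S (stp c Z.X R R' {m | b.y1 < Z.y m}) = 1 := by
    have : ∀ R : Set L, cut S (R ∩ {m | b.y1 < Z.y m}) = ∅ := fun R => by
      ext m
      simp only [Finset.notMem_empty, iff_false, mem_cut]
      exact fun hm => absurd ((hS m).1 hm.1).2.2.2 (not_le.2 hm.2.2)
    intro R R'
    rw [pj_stp, this, this]
    simp
  induction w with
  | nil =>
    intro p h hw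
    have e := h.2.2.nf (BoxW.single h.2.2.left.1 h.2.2.left.2 h.2.2.right.1 h.2.2.right.2 (hT p h))
      (S := S) (fun l hl => (hS l).2 hl) (by rw [hp, wd_eq_nil hw])
    exact ⟨0, fun _ => p, fun _ => r, fun _ => {m | b.y1 < Z.y m}, fun _ => Classical.ofNonempty,
      fun _ => 1, ⟨fun _ _ => ⟨⟨_, _, hT p h⟩, by rw [← e, mul_inv_cancel_left]⟩, by simp, by simp,
        by simp, by simp, by simp⟩, rfl, rfl, fun _ _ => hT p h, fun m _ _ h' => ⟨h', by simp⟩⟩
  | cons e w ih =>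
    intro p h hw
    obtain ⟨l, y⟩ := e
    have hr : Red ((l, y) :: w) := hw ▸ red_wd (pj S ((P.g p)⁻¹ * P.g r))
    have hlS : l ∈ S := sup_pj S ((P.g p)⁻¹ * P.g r) l (by unfold lab; rw [hw]; simp)
    have hl := (hS l).1 hlS
    obtain ⟨σ, hσ⟩ : ∃ σ : Bool, σ = false ↔ l ∈ P.R p := ⟨!decide (l ∈ P.R p), by simp⟩
    obtain ⟨τ, hτ⟩ : ∃ τ : Bool, (τ = false ↔ l ∈ ent_MoRoute Z.x (P.R r) w) :=
      ⟨!decide (l ∈ ent_MoRoute Z.x (P.R r) w), by simp⟩
    obtain ⟨q, q1, q2, q3⟩ := step_ex (P := P) hZ p ⟨_, _, hT p h⟩ (Z.x l, σ) (P.w p)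
    obtain ⟨p', p1, p2, p3⟩ := touch_ex (P := P) (p := q) hZ hg (a := l) (by rw [q2]) y τ (P.w p)
    have p4 : P.u p' = (Z.x l, τ) := Prod.ext p1.2.1 p2
    have Rq : P.R q = Rs Z.x (Z.x l, σ) := by unfold R; rw [q2]
    have Rp : P.R p' = Rs Z.x (Z.x l, τ) := by unfold R; rw [p4]
    have mq : b.Mem (P.u q).1 (P.w q).1 := by
      rw [q2, q3]; exact ⟨hl.1, hl.2.1, h.1.2.2⟩
    have mp : b.Mem (P.u p').1 (P.w p').1 := by
      rw [p4, p3]; exact ⟨hl.1, hl.2.1, h.1.2.2⟩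
    have b1 : P.Box b p q := ⟨h.1, mq, by
      rw [q1.2, inv_mul_cancel_left]
      exact BoxW.single (P.up_R _) h.2.2.left.2 (P.up_R _) ((P.at_R _).inB mq.1 mq.2.1) (hT p h)⟩
    have b2 : P.Box b q p' := ⟨mq, mp, by
      rw [p1.2.2, inv_mul_cancel_left, Rq, Rp]
      exact touch_box hg hZ hl y σ τ⟩
    have hw' : wd (pj S ((P.g p')⁻¹ * P.g r)) = w := by
      have e1 := ev_wd (pj S ((P.g p)⁻¹ * P.g r))
      rw [hw, ev_cons] at e1
      have e2 : (P.g p')⁻¹ * P.g r = (emb (lt l y))⁻¹ *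
          (stp c Z.X (P.R p) (P.R q) {m | b.y1 < Z.y m})⁻¹ * ((P.g p)⁻¹ * P.g r) := by
        rw [p1.2.2, q1.2]; group
      rw [e2, map_mul, map_mul, map_inv, map_inv, hp, pj_emb_lt hlS, ← e1]
      simp only [inv_one, mul_one, inv_mul_cancel_left]
      exact wd_ev hr.tail
    obtain ⟨k, s, t, D, a, x, hR, rfl, ht, hD, hJ⟩ := ih p' ((b1.trans b2).symm.trans h) hw'
    obtain ⟨j1, j2⟩ := hJ l p1.2.1 (fun e he => by
      cases w with
      | nil => simp at he
      | cons e' w =>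
        simp only [List.head?_cons, Option.mem_def, Option.some.injEq] at he
        rw [← he]
        exact (List.isChain_cons_cons.1 hr.2).1) (by rw [Rp, self_Rs_MoRoute, hτ])
    have hat : 0 < k → (P.u (t 0)).1 = Z.x (a 0) := fun hk => (hR.touch 0 hk).1
    have hne : ∀ {m : L}, m ≠ l → Z.x m ≠ Z.x l := fun hm e => hm (hZ.1 e)
    have hin : ∀ (v : Q) (m : L), (P.u v).1 < Z.x m → m ∈ P.R v := fun v m h => Or.inl h
    have hout : ∀ (v : Q) (m : L), Z.x m < (P.u v).1 → m ∉ P.R v := fun v m h h' =>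
      absurd ((P.at_R v m).1 h') (not_le.2 h)
    by_cases hE : Ess c σ τ y
    · refine ⟨k + 1, _, _, _, _, _, hR.cons_MoRoute q1 p1 (by rw [q2, p2]; exact hE)
        (by rw [Rq, self_Rs_MoRoute, hσ]) j1 j2, rfl, ht, fun i hi => ?_, fun m _ m2 m3 => ?_⟩
      · cases i with
        | zero => exact hT p h
        | succ i => exact hD i (Nat.le_of_succ_le_succ hi)
      · have m4 : m ≠ l := m2 (l, y) (by simp)
        refine ⟨m3.trans ?_, fun _ => m4⟩
        change m ∈ Rs Z.x (Z.x l, false) ↔ m ∈ P.R q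
        rw [Rq]
        simp [Rs, (hne m4).symm]
    · have hy : y ≠ 1 := hr.1 (l, y) (by simp)
      have hst := (hR.step 0 (Nat.zero_le _)).2
      rw [p1.2.2, q1.2, Rq, Rp, mul_assoc, mul_assoc, ← mul_assoc (stp _ _ _ _ _)] at hst
      rw [Rp, self_Rs_MoRoute] at j1
      have hcase : (σ = false ∧ τ = true ∧ y = c) ∨ (σ = true ∧ τ = false ∧ y = c⁻¹) := by
        by_contra hn
        exact hE ⟨hy, fun h1 h2 h3 => hn (Or.inl ⟨h1, h2, h3⟩),
          fun h1 h2 h3 => hn (Or.inr ⟨h1, h2, h3⟩)⟩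
      rcases hcase with ⟨rfl, rfl, rfl⟩ | ⟨rfl, rfl, rfl⟩
      · have l1 : l ∈ P.R p := hσ.1 rfl
        have l2 : l ∉ P.R (t 0) := fun h' => by simpa using j1.2 h'
        have x1 := (P.at_R p l).1 l1
        have x2 := (P.at_R (t 0) l).2 l2
        have hI := mix_inB_MoRoute Z.X (hT p h) (hD 0 (Nat.zero_le _)) hl.2.2.1
        rw [merge_MoRoute hZ.1 y _ _ (P.up_R _) (P.up_R _) l1 l2] at hst
        refine ⟨k, _, t, _, a, x, hR.chg_MoRoute (p := p) ⟨⟨_, _, hI⟩, hst⟩ (fun hk => ?_), rfl, ht,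
          fun i hi => ?_, fun m m1 m2 m3 => ?_⟩
        · have x3 : Z.x l < Z.x (a 0) := lt_of_le_of_ne (hat hk ▸ x2) (hne (j2 hk).symm).symm
          exact ⟨fun _ => (hR.arr 0 hk).1 (hin _ _ (p1.2.1 ▸ x3)),
            fun _ => hin _ _ (x1.trans_lt x3)⟩
        · cases i with
          | zero => exact hI
          | succ i => exact hD _ hi
        · have x3 : Z.x m < Z.x l := lt_of_le_of_ne (m1 ▸ x1) (hne (m2 (l, y) (by simp)))
          refine ⟨⟨fun h' => ?_, fun h' => absurd h' (hout _ _ (x3.trans_le x2))⟩, fun hk e => ?_⟩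
          · exact absurd ((at_Rs Z.x (Z.x l, false) m).1 (m3.1 h')) (not_le.2 x3)
          · rw [hat hk, ← e] at x2
            exact absurd x2 (not_le.2 x3)
      · have l1 : l ∉ P.R p := fun h' => by simpa using hσ.2 h'
        have l2 : l ∈ P.R (t 0) := j1.1 rfl
        have x1 := (P.at_R p l).2 l1
        have x2 := (P.at_R (t 0) l).1 l2
        have hI := mix_inB_MoRoute Z.X (hD 0 (Nat.zero_le _)) (hT p h) hl.2.2.1
        rw [merge'_MoRoute hZ.1 c _ _ (P.up_R _) (P.up_R _) l2 l1] at hst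
        refine ⟨k, _, t, _, a, x, hR.chg_MoRoute (p := p) ⟨⟨_, _, hI⟩, hst⟩ (fun hk => ?_), rfl, ht,
          fun i hi => ?_, fun m m1 m2 m3 => ?_⟩
        · have x3 : Z.x (a 0) < Z.x l := lt_of_le_of_ne (hat hk ▸ x2) (hne (j2 hk).symm)
          exact ⟨fun h' => absurd h' (hout _ _ (x3.trans_le x1)),
            fun h' => absurd ((hR.arr 0 hk).2 h') (hout _ _ (p1.2.1 ▸ x3))⟩
        · cases i with
          | zero => exact hI
          | succ i => exact hD _ hi
        · have x3 : Z.x l < Z.x m :=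
            lt_of_le_of_ne (m1 ▸ x1) (hne (m2 (l, c⁻¹) (by simp))).symm
          refine ⟨⟨fun _ => hin _ _ (x2.trans_lt x3), fun _ => m3.2 (Or.inl x3)⟩, fun hk e => ?_⟩
          rw [hat hk, ← e] at x2
          exact absurd x2 (not_le.2 x3)

/-- Two points joined in a box are joined by a route whose steps have status sets in the box. -/
theorem route_ex [Nonempty L] (hZ : Z.Gen) (hc : c ≠ 1) (hg : ∀ x : C, ∃ n : ℤ, x = c ^ n)
    {b : Bx} {p r : Q}
    (h : P.Box b p r) : ∃ (k : ℕ) (s t : ℕ → Q) (D : ℕ → Set L) (a : ℕ → L) (x : ℕ → C),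
      Route P k s t D a x ∧ s 0 = p ∧ t k = r ∧ ∀ i ≤ k, InB Z.y b.y0 b.y1 (D i) := by
  obtain ⟨k, s, t, D, a, x, h1, h2, h3, h4, -⟩ := route_aux_MoRoute hZ hg
    (S := (Z.bl_fin b).toFinset) (fun l => by simp) _ p h rfl
  exact ⟨k, s, t, D, a, x, h1, h2, h3, h4⟩

end Plan

/-- Routes are tight. -/
theorem Route.dv {L C : Type} [CommGroup C] {c : C} {Z : Cfg L} {Q : Type} {P : Plan c Z Q}
    (hZ : Z.Gen) (hc : c ≠ 1) {k : ℕ} {s t : ℕ → Q} {D : ℕ → Set L} {a : ℕ → L} {x : ℕ → C}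
    (h : Route P k s t D a x) :
    P.dv (s 0) (t k) = ∑ i ∈ Finset.range (k + 1), |(P.u (t i)).1 - (P.u (s i)).1| :=
  dW_eq ((Finset.range k).image a) (fun S hS => (Route.lvl_MoRoute S k h
    (fun i hi => hS (Finset.mem_image_of_mem a (Finset.mem_range.2 hi)))).1)

end Pool.Agent.E5f
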