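import Pool.Agent.E5f.BrStep
import Pool.Agent.E5f.MoRoute
import Pool.Agent.E5f.MoFam

set_option autoImplicit false

namespace Pool.Agent.E5f

open Classical Filter

/-- The exponent of one pass from the side `s` with status `σ`. -/
def pe_BrRoute (s σ : Bool) : ℤ := if σ = true then 0 else if s = true then -1 else 1

/-- The exponent of a sequence of passes with alternating status. -/
def te_BrRoute : ℕ → Bool → Bool → ℤ
  | 0, _, _ => 0
  | n + 1, s, σ => pe_BrRoute s σ + te_BrRoute n (!s) (!σ)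

theorem te_even_BrRoute (s σ : Bool) : ∀ m : ℕ,
    te_BrRoute (2 * m) s σ = (if s = σ then (m : ℤ) else -m) ∧ not^[2 * m] s = s
  | 0 => by simp [te_BrRoute]
  | m + 1 => by
    obtain ⟨h1, h2⟩ := te_even_BrRoute s σ m
    rw [show 2 * (m + 1) = 2 * m + 1 + 1 by ring]
    refine ⟨?_, ?_⟩
    · rw [te_BrRoute, te_BrRoute, Bool.not_not, Bool.not_not, h1]
      cases s <;> cases σ <;> simp [pe_BrRoute] <;> ring
    · rw [Function.iterate_succ_apply, Function.iterate_succ_apply, Bool.not_not, h2]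

theorem te_odd_BrRoute (s σ : Bool) (m : ℕ) :
    te_BrRoute (2 * m + 1) s σ = pe_BrRoute s σ + (if s = σ then (m : ℤ) else -m) ∧
      not^[2 * m + 1] s = !s := by
  obtain ⟨h1, h2⟩ := te_even_BrRoute (!s) (!σ) m
  refine ⟨?_, by rw [Function.iterate_succ_apply, h2]⟩
  rw [te_BrRoute, h1]
  cases s <;> cases σ <;> simp

theorem te_ex_BrRoute (s t : Bool) (k : ℤ) (h0 : k ≠ 0) (h1 : s = false → t = true → k ≠ 1)
    (h2 : s = true → t = false → k ≠ -1) :
    ∃ n σ, 1 ≤ n ∧ not^[n + 1] s = t ∧ te_BrRoute (n + 1) s σ = k := by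
  have ev : ∀ (m : ℕ) (σ : Bool), 1 ≤ m → s = t → (if s = σ then (m : ℤ) else -m) = k →
      ∃ n σ, 1 ≤ n ∧ not^[n + 1] s = t ∧ te_BrRoute (n + 1) s σ = k := by
    intro m σ a b c
    obtain ⟨j1, j2⟩ := te_even_BrRoute s σ m
    refine ⟨2 * m - 1, σ, by omega, ?_⟩
    rw [show 2 * m - 1 + 1 = 2 * m by omega, j1, j2]
    exact ⟨b, c⟩
  have od : ∀ (m : ℕ) (σ : Bool), 1 ≤ m → (!s) = t →
      pe_BrRoute s σ + (if s = σ then (m : ℤ) else -m) = k →
      ∃ n σ, 1 ≤ n ∧ not^[n + 1] s = t ∧ te_BrRoute (n + 1) s σ = k := by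
    intro m σ a b c
    obtain ⟨j1, j2⟩ := te_odd_BrRoute s σ m
    exact ⟨2 * m, σ, by omega, j2.trans b, j1.trans c⟩
  rcases lt_or_gt_of_ne h0 with h | h
  · cases s <;> cases t
    · exact ev k.natAbs true (by omega) rfl (by simp only [Bool.false_eq_true, if_false]; omega)
    · exact od k.natAbs true (by omega) rfl
        (by simp only [pe_BrRoute, Bool.false_eq_true, if_false, if_true]; omega)
    · have := h2 rfl rfl
      exact od (k.natAbs - 1) false (by omega) rfl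
        (by simp only [pe_BrRoute, Bool.false_eq_true, Bool.true_eq_false, if_false, if_true]; omega)
    · exact ev k.natAbs false (by omega) rfl (by simp only [Bool.true_eq_false, if_false]; omega)
  · cases s <;> cases t
    · exact ev k.natAbs false (by omega) rfl (by simp only [if_true]; omega)
    · have := h1 rfl rfl
      exact od (k.natAbs - 1) false (by omega) rfl
        (by simp only [pe_BrRoute, Bool.false_eq_true, if_false, if_true]; omega)
    · exact od k.natAbs true (by omega) rfl (by simp only [pe_BrRoute, if_true]; omega)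
    · exact ev k.natAbs true (by omega) rfl (by simp only [if_true]; omega)

theorem dir_BrRoute {L : Type} (ρ : L → ℝ) {a : L} {u u' : Mk} (hu : u.1 = ρ a)
    (h : a ∈ Rs ρ u ↔ a ∈ Rs ρ u') : Dir u.2 (toLex u) (toLex u') := by
  obtain ⟨x, e⟩ := u
  obtain rfl : x = ρ a := hu
  cases e
  · exact (mem_Rs_iff ρ u' a).1 (h.1 (Or.inr ⟨rfl, rfl⟩))
  · exact (not_mem_Rs_iff ρ u' a).1 fun k => by simpa [Rs] using h.2 k

namespace Plan
variable {E : Emb} {Q : Type} (B : Plan cz E.bc Q)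

theorem stp_BrRoute (E : Emb) (a : Zl) (s σ : Bool) :
    stp cz E.bc.X (Rs E.bc.x (E.ξ a, s)) (Rs E.bc.x (E.ξ a, !s)) (Rs E.bc.y (E.η a, σ)) =
      emb (lt a (cz ^ pe_BrRoute s σ)) := by
  have h := stp_cross (Z := E.bc) E.ξ_inj cz a (Rs E.bc.y (E.η a, σ))
  have e : (if a ∈ Rs E.bc.y (E.η a, σ) then cz else 1) = cz ^ pe_BrRoute false σ := by
    cases σ <;> simp [Rs, pe_BrRoute]
  rw [e] at h
  cases s
  · exact h
  · rw [← stp_inv]
    refine (congrArg Inv.inv h).trans ?_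
    rw [← map_inv, ← lt_inv]
    cases σ <;> simp [pe_BrRoute]

theorem pass_BrRoute {a : Zl} {s σ : Bool} {p q : Q} (hp : B.u p = (E.ξ a, s))
    (hq : B.u q = (E.ξ a, !s)) (hg : B.g q = B.g p * emb (lt a (cz ^ pe_BrRoute s σ))) :
    B.stpI.St p q (fun _ => σ) := by
  refine ⟨Rs E.bc.y (E.η a, σ), ⟨⟨_, _, inB_Rs_BrStep _ _⟩, ?_⟩, fun b hb => ?_⟩
  · unfold R
    rw [hp, hq, stp_BrRoute, hg]
  · rw [E.cr_iff, hp, hq] at hb
    have e : a = b := E.ξ_inj (by
      by_contra k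
      exact hb (by simp [Rs, k]))
    subst e
    cases σ <;> simp [Rs]

theorem mic_BrRoute {a : Zl} {q : Q} : ∀ (n : ℕ) (s σ : Bool) (p : Q), B.u p = (E.ξ a, s) →
    B.u q = (E.ξ a, not^[n + 1] s) →
    B.g q = B.g p * emb (lt a (cz ^ te_BrRoute (n + 1) s σ)) → B.stpI.Mic a (n + 1) σ p q
  | 0, s, σ, p, hp, hq, hg => by
    refine ⟨q, congrArg Prod.fst hp, ?_, B.pass_BrRoute hp hq (by simpa [te_BrRoute] using hg), rfl⟩
    show toLex (B.u q) = toLex (E.ξ a, !(B.u p).2)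
    rw [hp, hq]
    rfl
  | n + 1, s, σ, p, hp, hq, hg => by
    obtain ⟨r, h1, h2⟩ := B.reach_all_BrStep E.ξ_inj (inB_Rs_BrStep E.bc.y (E.η a, σ))
      (E.ξ a, s) (E.ξ a, !s) p hp
    rw [stp_BrRoute] at h2
    refine ⟨r, congrArg Prod.fst hp, ?_, B.pass_BrRoute hp h1 h2,
      mic_BrRoute n (!s) (!σ) r h1 hq ?_⟩
    · show toLex (B.u r) = toLex (E.ξ a, !(B.u p).2)
      rw [hp, h1]
    · rw [hg, h2, mul_assoc, ← map_mul, ← lt_mul, ← zpow_add]
      rfl

/-- An essential touch of the model is an essential touch of the interface. -/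
theorem brs_tch {a : Zl} {x : CZ} {p q : Q} (h : B.Touch a x p q)
    (he : Ess cz (B.u p).2 (B.u q).2 x) : B.stpI.Tch a p q := by
  obtain ⟨k, rfl⟩ : ∃ k : ℤ, x = cz ^ k :=
    ⟨Multiplicative.toAdd x, by rw [cz, ← ofAdd_zsmul, smul_eq_mul, mul_one, ofAdd_toAdd]⟩
  obtain ⟨n, σ, h1, h2, h3⟩ := te_ex_BrRoute (B.u p).2 (B.u q).2 k
    (fun e => he.1 (by rw [e, zpow_zero])) (fun e1 e2 e => he.2.1 e1 e2 (by rw [e, zpow_one]))
    (fun e1 e2 e => he.2.2 e1 e2 (by rw [e, zpow_neg_one]))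
  refine ⟨n + 1, σ, by omega, B.mic_BrRoute n (B.u p).2 σ p (Prod.ext h.1 rfl)
    (Prod.ext h.2.1 h2.symm) ?_⟩
  rw [h3]
  exact h.2.2

theorem rt_BrRoute {k : ℕ} {s t : ℕ → Q} {D : ℕ → Set Zl} {a : ℕ → Zl} {x : ℕ → CZ}
    (h : Route B k s t D a x) {lo hi : ℝ} (hD : ∀ i ≤ k, InB E.bc.y lo hi (D i)) :
    ∀ (j i : ℕ) (ε : Bool), i + j = k → Dir ε (B.stpI.ux (s i)) (B.stpI.ux (t i)) →
      (i < k → B.stpI.sx (t i) = !ε) → ∃ ε' n, B.stpI.Rt lo hi (s i) ε (t k) ε'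
        (∑ m ∈ Finset.range (j + 1), |(B.u (t (i + m))).1 - (B.u (s (i + m))).1|) n := by
  have st : ∀ i ≤ k, ∀ ε, Dir ε (B.stpI.ux (s i)) (B.stpI.ux (t i)) →
      B.stpI.DSt lo hi ε (s i) (t i) (fun b => decide (b ∉ D i)) := fun i hi' ε hd =>
    ⟨⟨D i, h.step i hi', fun b _ => by simp⟩, hd, fun b _ =>
      ⟨fun e => by simpa using (hD i hi' b).2 e, fun e => by simpa using (hD i hi' b).1 e⟩⟩
  intro j
  induction j with
  | zero =>
    intro i ε e hd _
    obtain rfl : i = k := e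
    rw [Finset.sum_range_one]
    exact ⟨ε, 0, Stp.Rt.one _ _ ε _ (st i le_rfl ε hd)⟩
  | succ j ih =>
    intro i ε e hd hs
    have hi : i < k := by omega
    have d1 : Dir (B.u (s (i + 1))).2 (toLex (B.u (s (i + 1)))) (toLex (B.u (t (i + 1)))) :=
      dir_BrRoute E.bc.x (h.touch i hi).2.1 (h.dep i hi)
    obtain ⟨ε', n, hr⟩ := ih (i + 1) (B.u (s (i + 1))).2 (by omega) d1 (fun h1 => by
      have d2 : Dir (B.u (t (i + 1))).2 (toLex (B.u (t (i + 1)))) (toLex (B.u (s (i + 1)))) :=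
        dir_BrRoute E.bc.x (h.touch (i + 1) h1).1 (h.arr (i + 1) h1).symm
      show (B.u (t (i + 1))).2 = !(B.u (s (i + 1))).2
      rw [Bool.eq_not_iff]
      intro e1
      rw [e1] at d2
      have e2 : B.u (s (i + 1)) = B.u (t (i + 1)) := by
        unfold Dir at d1 d2
        split_ifs at d1 d2 <;> exact toLex.injective (le_antisymm (by assumption) (by assumption))
      refine h.ne i h1 (E.ξ_inj ?_)
      have e3 := (h.touch i hi).2.1
      rw [e2, (h.touch (i + 1) h1).1] at e3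
      exact e3.symm)
    refine ⟨ε', n + 1, ?_⟩
    rw [Finset.sum_range_succ', add_comm]
    simp only [Nat.add_right_comm i 1, Nat.add_assoc i] at hr
    exact Stp.Rt.cons _ _ _ _ ε ε' _ (a i) _ n (st i hi.le ε hd) (hs hi)
      (B.brs_tch (h.touch i hi) (h.ess i hi)) hr

theorem brs_route (p r : Q) : ∃ ε ε' n, B.stpI.Rt (B.stpI.py p - B.dh p r) (B.stpI.py p + B.dh p r)
    p ε r ε' (B.dv p r) n := by
  have hZ : E.bc.Gen := ⟨E.ξ_inj, E.η_inj⟩
  have hc : cz ≠ 1 := by decide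
  obtain ⟨k, s, t, D, a, x, h, rfl, rfl, hD⟩ := route_ex hZ hc cz_gen (B.box_dist hZ hc p r)
  obtain ⟨ε, h1, h2⟩ : ∃ ε, Dir ε (B.stpI.ux (s 0)) (B.stpI.ux (t 0)) ∧
      (0 < k → B.stpI.sx (t 0) = !ε) := by
    by_cases hk : 0 < k
    · exact ⟨!(B.u (t 0)).2,
        dir_rev_FsBase (dir_BrRoute E.bc.x (h.touch 0 hk).1 (h.arr 0 hk).symm),
        fun _ => (Bool.not_not _).symm⟩
    · rcases le_total (B.stpI.ux (s 0)) (B.stpI.ux (t 0)) with e | e
      · exact ⟨true, by simpa [Dir] using e, fun e => absurd e hk⟩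
      · exact ⟨false, by simpa [Dir] using e, fun e => absurd e hk⟩
  obtain ⟨ε', n, hr⟩ := B.rt_BrRoute h hD k 0 ε (zero_add k) h1 h2
  refine ⟨ε, ε', n, ?_⟩
  rw [h.dv hZ hc]
  simp only [zero_add] at hr
  exact hr

/-- The base system of a planar model. -/
noncomputable def bsys (Cu : Q → Prop) (hc : ∀ r a, B.Cusp a r → Cu r) :
    BSys E.lat B.dv B.dh Cu where
  toStp := B.stpI
  pv := B.brs_pv.1
  ph := (brs_pv (E := E.tr) B.tr).1
  hv := B.brs_pv.2
  symm := B.brs_symm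
  congr := B.brs_congr
  trans := B.brs_trans
  split := B.brs_split
  det := B.brs_det
  st_dv := B.brs_dv
  st_vert := B.brs_vert_dh
  st_hor := B.brs_hor_dh
  vert := B.brs_vert
  hor := B.brs_hor
  cusp := fun q a hx hy => by
    obtain ⟨z, h1, h2⟩ := B.brs_cusp q a hx hy
    exact ⟨z, hc z a h1, h2⟩
  route := B.brs_route

end Plan

end Pool.Agent.E5f
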