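import Pool.Agent.E5f.FsLat

set_option autoImplicit false

namespace Pool.Agent.E5f

open Classical Filter

theorem tree0 {X : Type} {d : X → X → ℝ} (h : PM d) (h0 : Hyp d 0) {p q z r : X}
    (hq : d p q + d q r = d p r) (hz : d p z + d z r = d p r) (e : d p q = d p z) :
    d q z = 0 := by
  have h1 := h0 p q r z
  have h2 := h.tri q z q
  have h3 := h.self q
  have s1 := h.symm q p
  have s2 := h.symm r p
  have s3 := h.symm z p
  have s4 := h.symm r z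
  have s5 := h.symm z q
  simp only [gp] at h1
  rcases min_le_iff.1 (sub_zero (G := ℝ) _ ▸ h1) with h1 | h1 <;> linarith

section Mark
variable {O : Type} [AddCommGroup O] {E : Lat O} {u u' u'' : Mx} {ε : Bool} {a : O}

theorem lt_FsBase (x : ℝ) : (toLex (x, false) : Mx) < toLex (x, true) :=
  Prod.Lex.toLex_lt_toLex.2 (Or.inr ⟨rfl, Bool.false_lt_true⟩)

theorem cov_FsBase (x : ℝ) (u : Mx) : u ≤ toLex (x, false) ∨ toLex (x, true) ≤ u := by
  obtain ⟨⟨y, s⟩, rfl⟩ := toLex.surjective u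
  simp only [Prod.Lex.toLex_le_toLex]
  rcases lt_trichotomy y x with h | h | h
  · exact Or.inl (Or.inl h)
  · cases s
    · exact Or.inl (Or.inr ⟨h, le_rfl⟩)
    · exact Or.inr (Or.inr ⟨h.symm, le_rfl⟩)
  · exact Or.inr (Or.inl h)

theorem fst_FsBase (h : u ≤ u') : (ofLex u).1 ≤ (ofLex u').1 := Prod.Lex.monotone_fst _ _ h

theorem dir_refl_FsBase (ε : Bool) (u : Mx) : Dir ε u u := by
  cases ε <;> exact le_refl u

theorem dir_trans_FsBase (h : Dir ε u u') (h' : Dir ε u' u'') : Dir ε u u'' := by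
  cases ε
  · exact le_trans (a := u'') h' h
  · exact le_trans (a := u) h h'

theorem dir_rev_FsBase (h : Dir ε u u') : Dir (!ε) u' u := by
  cases ε <;> exact h

theorem add_FsBase (h : Dir ε u u') (h' : Dir ε u' u'') :
    |(ofLex u'').1 - (ofLex u).1| = |(ofLex u').1 - (ofLex u).1| + |(ofLex u'').1 - (ofLex u').1| := by
  cases ε
  · have a := fst_FsBase (u := u') h
    have b := fst_FsBase (u := u'') h'
    rw [abs_of_nonpos (by linarith), abs_of_nonpos (by linarith), abs_of_nonpos (by linarith)]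
    ring
  · have a := fst_FsBase (u := u) h
    have b := fst_FsBase (u := u') h'
    rw [abs_of_nonneg (by linarith), abs_of_nonneg (by linarith), abs_of_nonneg (by linarith)]
    ring

theorem cr_or_FsBase (u' : Mx) (h : E.Cr u u'' a) : E.Cr u u' a ∨ E.Cr u' u'' a := by
  rcases cov_FsBase (E.ξ a) u' with c | c <;> rcases h with h | h
  · exact Or.inr (Or.inl ⟨c, h.2⟩)
  · exact Or.inl (Or.inr ⟨c, h.2⟩)
  · exact Or.inl (Or.inl ⟨h.1, c⟩)
  · exact Or.inr (Or.inr ⟨h.1, c⟩)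

theorem cr_dir_FsBase (d : Dir ε u u') (h : E.Cr u u' a) :
    Dir ε u (toLex (E.ξ a, !ε)) ∧ Dir ε (toLex (E.ξ a, ε)) u' := by
  have l := lt_FsBase (E.ξ a)
  cases ε <;> rcases h with h | h
  · exact absurd ((h.2.trans d).trans h.1) l.not_ge
  · exact h.symm
  · exact h
  · exact absurd ((h.2.trans d).trans h.1) l.not_ge

theorem dir_cr_FsBase (h : Dir ε u (toLex (E.ξ a, !ε))) (h' : Dir ε (toLex (E.ξ a, ε)) u') :
    E.Cr u u' a := by
  cases ε
  · exact Or.inr ⟨h', h⟩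
  · exact Or.inl ⟨h, h'⟩

theorem cr_not_FsBase (d : Dir ε u u') (d' : Dir ε u' u'') (h : E.Cr u u' a)
    (h' : E.Cr u' u'' a) : False := by
  have := dir_trans_FsBase (cr_dir_FsBase d h).2 (cr_dir_FsBase d' h').1
  cases ε <;> exact (lt_FsBase (E.ξ a)).not_ge this

theorem mid_FsBase (d : Dir ε u u') {s : ℝ} (h0 : 0 ≤ s)
    (h1 : s ≤ |(ofLex u').1 - (ofLex u).1|) :
    ∃ v, Dir ε u v ∧ Dir ε v u' ∧ |(ofLex v).1 - (ofLex u).1| = s := by
  rcases h0.eq_or_lt with rfl | h0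
  · exact ⟨u, dir_refl_FsBase ε u, d, by rw [sub_self, abs_zero]⟩
  rcases h1.eq_or_lt with rfl | h1
  · exact ⟨u', d, dir_refl_FsBase ε u', rfl⟩
  cases ε
  · rw [abs_of_nonpos (sub_nonpos.2 (fst_FsBase (u := u') d))] at h1
    refine ⟨toLex ((ofLex u).1 - s, false), Prod.Lex.le_iff.2 (Or.inl ?_),
      Prod.Lex.le_iff.2 (Or.inl ?_), ?_⟩ <;> simp only [ofLex_toLex]
    · linarith
    · linarith
    · rw [sub_sub_cancel_left, abs_neg, abs_of_pos h0]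
  · rw [abs_of_nonneg (sub_nonneg.2 (fst_FsBase (u := u) d))] at h1
    refine ⟨toLex ((ofLex u).1 + s, false), Prod.Lex.le_iff.2 (Or.inl ?_),
      Prod.Lex.le_iff.2 (Or.inl ?_), ?_⟩ <;> simp only [ofLex_toLex]
    · linarith
    · linarith
    · rw [add_sub_cancel_left, abs_of_pos h0]

end Mark

namespace BSys
variable {O : Type} [AddCommGroup O] {E : Lat O} {Q : Type} {dv dh : Q → Q → ℝ} {Cu : Q → Prop}
  (X : BSys E dv dh Cu) {lo hi : ℝ}

theorem snoc_FsBase {a : O} {r r' : Q} (h1 : X.toStp.px r = E.ξ a)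
    (h2 : X.ux r' = toLex (E.ξ a, !X.toStp.sx r)) : ∀ (n : ℕ) (σ : Bool) (q : Q),
      X.toStp.Mic a n σ q r → X.St r r' (fun _ => not^[n] σ) → X.toStp.Mic a (n + 1) σ q r'
  | 0, _, _, h, h3 => ⟨r', h ▸ h1, h ▸ h2, h ▸ h3, rfl⟩
  | n + 1, σ, _, ⟨q1, a1, a2, a3, h⟩, h3 => ⟨q1, a1, a2, a3, snoc_FsBase h1 h2 n (!σ) q1 h h3⟩

theorem rev_FsBase {a : O} {r : Q} : ∀ (n : ℕ) (σ : Bool) (q : Q), X.toStp.Mic a n σ q r →
    ∃ τ, X.toStp.Mic a n τ r q ∧ not^[n] τ = !σ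
  | 0, σ, _, h => ⟨!σ, Eq.symm h, rfl⟩
  | n + 1, σ, q, ⟨q1, a1, a2, a3, h⟩ => by
    obtain ⟨τ, h1, h2⟩ := rev_FsBase n (!σ) q1 h
    rw [Bool.not_not] at h2
    refine ⟨τ, X.snoc_FsBase (by rw [Stp.px, a2]; rfl) ?_ n τ r h1 ?_, ?_⟩
    · rw [← a1, Stp.sx, a2, ofLex_toLex, Bool.not_not]
      rfl
    · rw [h2]
      exact X.symm _ _ _ a3
    · rw [Function.iterate_succ_apply', h2]

theorem mic_FsBase {a : O} {r : Q} : ∀ (n : ℕ) (σ : Bool) (q : Q), X.toStp.Mic a n σ q r →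
    X.toStp.px q = E.ξ a → X.toStp.px r = E.ξ a ∧ dv q r = 0
  | 0, _, _, h, h1 => by
    obtain rfl : r = _ := h
    exact ⟨h1, X.pv.self _⟩
  | n + 1, σ, q, ⟨q1, _, a2, a3, h⟩, h1 => by
    have e : X.toStp.px q1 = E.ξ a := by
      rw [Stp.px, a2]
      rfl
    obtain ⟨b1, b2⟩ := mic_FsBase n (!σ) q1 h e
    have b3 := X.st_dv _ _ _ a3
    rw [e, h1, sub_self, abs_zero] at b3
    have b4 := X.pv.tri q r q
    refine ⟨b1, ?_⟩
    linarith [X.pv.tri q q1 r, X.pv.self q, X.pv.symm r q]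

theorem tch_symm {a : O} {q r : Q} (h : X.toStp.Tch a q r) : X.toStp.Tch a r q := by
  obtain ⟨n, σ, hn, h⟩ := h
  obtain ⟨τ, h1, -⟩ := X.rev_FsBase n σ q h
  exact ⟨n, τ, hn, h1⟩

theorem tch_px {a : O} {q r : Q} (h : X.toStp.Tch a q r) :
    X.toStp.px q = E.ξ a ∧ X.toStp.px r = E.ξ a ∧ dv q r = 0 := by
  obtain ⟨n, σ, hn, h⟩ := h
  obtain ⟨m, rfl⟩ : ∃ m, n = m + 1 := ⟨n - 1, by omega⟩
  have h1 : X.toStp.px q = E.ξ a := h.choose_spec.1
  exact ⟨h1, X.mic_FsBase _ σ q h h1⟩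

theorem rt_nonneg {p r : Q} {ε ε' : Bool} {l : ℝ} {n : ℕ} (h : X.toStp.Rt lo hi p ε r ε' l n) :
    0 ≤ l := by
  induction h with
  | one => exact abs_nonneg _
  | cons _ _ _ _ _ _ _ _ _ _ _ _ _ _ ih => exact add_nonneg (abs_nonneg _) ih

theorem rt_dv {p r : Q} {ε ε' : Bool} {l : ℝ} {n : ℕ} (h : X.toStp.Rt lo hi p ε r ε' l n) :
    dv p r ≤ l := by
  induction h with
  | one q r ε σ h => exact (X.st_dv _ _ _ h.st).le
  | cons q b b' r ε ε' σ a l n h _ ht _ ih =>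
    linarith [X.st_dv _ _ _ h.st, (X.tch_px ht).2.2, X.pv.tri q b r, X.pv.tri b b' r]

theorem rt_mono {p r : Q} {ε ε' : Bool} {l : ℝ} {n : ℕ} (h : X.toStp.Rt lo hi p ε r ε' l n)
    {lo' hi' : ℝ} (h1 : lo' ≤ lo) (h2 : hi ≤ hi') : X.toStp.Rt lo' hi' p ε r ε' l n := by
  have key : ∀ ε q r σ, X.toStp.DSt lo hi ε q r σ → X.toStp.DSt lo' hi' ε q r σ :=
    fun ε q r σ h => ⟨h.st, h.dir, fun a c => ⟨fun x => (h.thr a c).1 (x.trans_le h1),
      fun x => (h.thr a c).2 (h2.trans_lt x)⟩⟩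
  induction h with
  | one q r ε σ h => exact .one q r ε σ (key _ _ _ _ h)
  | cons q b b' r ε ε' σ a l n h hs ht _ ih =>
    exact .cons q b b' r ε ε' σ a l n (key _ _ _ _ h) hs ht ih

theorem rt_zero {p r : Q} {ε ε' : Bool} {l : ℝ} (h : X.toStp.Rt lo hi p ε r ε' l 0) :
    ε' = ε ∧ l = |X.toStp.px r - X.toStp.px p| ∧ ∃ σ, X.toStp.DSt lo hi ε p r σ := by
  cases h with
  | one _ _ _ σ h => exact ⟨rfl, rfl, σ, h⟩

theorem split_FsBase {q r : Q} {ε : Bool} {σ : O → Bool} (h : X.toStp.DSt lo hi ε q r σ) {s : ℝ}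
    (h0 : 0 ≤ s) (h1 : s ≤ |X.toStp.px r - X.toStp.px q|) :
    ∃ z, X.toStp.DSt lo hi ε q z σ ∧ X.toStp.DSt lo hi ε z r σ ∧
      |X.toStp.px z - X.toStp.px q| = s ∧
      |X.toStp.px r - X.toStp.px z| = |X.toStp.px r - X.toStp.px q| - s := by
  obtain ⟨v, d1, d2, e⟩ := mid_FsBase h.dir h0 h1
  obtain ⟨z, rfl, a1, a2⟩ := X.split ε q r σ v h.st d1 d2
  refine ⟨z, ⟨a1, d1, fun a c => h.thr a ?_⟩, ⟨a2, d2, fun a c => h.thr a ?_⟩, e, ?_⟩
  · exact dir_cr_FsBase (cr_dir_FsBase d1 c).1 (dir_trans_FsBase (cr_dir_FsBase d1 c).2 d2)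
  · exact dir_cr_FsBase (dir_trans_FsBase d1 (cr_dir_FsBase d2 c).1) (cr_dir_FsBase d2 c).2
  · rw [← e]
    exact eq_sub_of_add_eq' (add_FsBase d1 d2).symm

theorem rt_split {p r : Q} {ε ε' : Bool} {l : ℝ} {n : ℕ} (h : X.toStp.Rt lo hi p ε r ε' l n)
    {s : ℝ} (h0 : 0 ≤ s) (h1 : s ≤ l) : ∃ q e n1 n2, X.toStp.Rt lo hi p ε q e s n1 ∧
      X.toStp.Rt lo hi q e r ε' (l - s) n2 := by
  induction h generalizing s with
  | one q r ε σ h =>
    obtain ⟨z, a1, a2, a3, a4⟩ := X.split_FsBase h h0 h1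
    exact ⟨z, ε, 0, 0, a3 ▸ .one q z ε σ a1, a4 ▸ .one z r ε σ a2⟩
  | cons q b b' r ε ε' σ a l n h hs ht hr ih =>
    rcases le_total s |X.toStp.px b - X.toStp.px q| with c | c
    · obtain ⟨z, a1, a2, a3, a4⟩ := X.split_FsBase h h0 c
      refine ⟨z, ε, 0, n + 1, a3 ▸ .one q z ε σ a1, ?_⟩
      have := Stp.Rt.cons z b b' r ε ε' σ a l n a2 hs ht hr
      rwa [a4, sub_add_eq_add_sub] at this
    · obtain ⟨z, e, n1, n2, a1, a2⟩ := ih (sub_nonneg.2 c) (by linarith)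
      have := Stp.Rt.cons q b b' z ε e σ a _ n1 h hs ht a1
      rw [add_sub_cancel] at this
      refine ⟨z, e, n1 + 1, n2, this, ?_⟩
      rwa [← sub_add, sub_add_eq_add_sub, add_comm] at a2

theorem merge_FsBase {p q r : Q} {ε : Bool} {σ σ' : O → Bool} (h : X.toStp.DSt lo hi ε p q σ)
    (h' : X.toStp.DSt lo hi ε q r σ') : ∃ τ, X.toStp.DSt lo hi ε p r τ ∧
      |X.toStp.px r - X.toStp.px p| =
        |X.toStp.px q - X.toStp.px p| + |X.toStp.px r - X.toStp.px q| := by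
  refine ⟨fun a => if E.Cr (X.ux p) (X.ux q) a then σ a else σ' a,
    ⟨X.trans ε p q r _ (X.congr _ _ _ _ h.st fun a c => if_pos c)
      (X.congr _ _ _ _ h'.st fun a c => if_neg fun c' => cr_not_FsBase h.dir h'.dir c' c)
      h.dir h'.dir, dir_trans_FsBase h.dir h'.dir, fun a c => ?_⟩, add_FsBase h.dir h'.dir⟩
  by_cases c' : E.Cr (X.ux p) (X.ux q) a
  · simp only [if_pos c']
    exact h.thr a c'
  · simp only [if_neg c']
    exact h'.thr a ((cr_or_FsBase _ c).resolve_left c')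

theorem rt_append {p q r : Q} {ε e ε' : Bool} {l l' : ℝ} {n n' : ℕ}
    (h : X.toStp.Rt lo hi p ε q e l n) (h' : X.toStp.Rt lo hi q e r ε' l' n') :
    X.toStp.Rt lo hi p ε r ε' (l + l') (n + n') := by
  induction h with
  | one p q ε σ h =>
    rw [Nat.zero_add]
    cases h' with
    | one _ _ _ σ' h' =>
      obtain ⟨τ, a1, a2⟩ := X.merge_FsBase h h'
      exact a2 ▸ .one p r _ τ a1
    | cons _ b b' _ _ _ σ' a l n h' hs ht hr =>
      obtain ⟨τ, a1, a2⟩ := X.merge_FsBase h h'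
      rw [← add_assoc, ← a2]
      exact .cons p b b' r ε ε' τ a l n a1 hs ht hr
  | cons p b b' q ε e σ a l n h hs ht _ ih =>
    rw [add_assoc, Nat.add_right_comm]
    exact .cons p b b' r ε ε' σ a _ _ h hs ht (ih h')

theorem rt_rev {p r : Q} {ε ε' : Bool} {l : ℝ} {n : ℕ} (h : X.toStp.Rt lo hi p ε r ε' l n) :
    X.toStp.Rt lo hi r (!ε') p (!ε) l n := by
  have key : ∀ ε q r σ, X.toStp.DSt lo hi ε q r σ →
      X.toStp.Rt lo hi r (!ε) q (!ε) |X.toStp.px r - X.toStp.px q| 0 := fun ε q r σ h => by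
    rw [abs_sub_comm]
    exact .one r q (!ε) σ ⟨X.symm _ _ _ h.st, dir_rev_FsBase h.dir, fun a c => h.thr a c.symm⟩
  induction h with
  | one q r ε σ h => exact key ε q r σ h
  | cons q b b' r ε ε' σ a l n h hs ht _ ih =>
    obtain ⟨z, -, -, hz⟩ := X.vert b' (X.uy b') σ
    have d := dir_refl_FsBase (!X.toStp.sx b') (X.ux b')
    have h1 : X.toStp.DSt lo hi (!X.toStp.sx b') b' b' σ :=
      ⟨X.det z b' b' σ (X.symm _ _ _ hz) (X.symm _ _ _ hz) rfl, d,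
        fun a c => (cr_not_FsBase d d c c).elim⟩
    have h2 := X.rt_append ih (.cons b' b' b q _ (!ε) σ a _ 0 h1 (Bool.not_not _).symm
      (X.tch_symm ht) (by rw [hs]; exact key ε q b σ h))
    rwa [sub_self, abs_zero, zero_add, add_comm l] at h2

end BSys

end Pool.Agent.E5f
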