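import Pool.Agent.E5f.BrDefs
import Pool.Agent.E5f.PlBox
import Pool.Agent.E5f.FsBase

set_option autoImplicit false

namespace Pool.Agent.E5f

open Classical Filter

section gen
variable {L C : Type} [CommGroup C]

theorem up_total_BrStep {X : Od L} {R R' : Set L} (h : Up X R) (h' : Up X R') :
    R ⊆ R' ∨ R' ⊆ R := by
  by_contra hc
  rw [not_or, Set.not_subset, Set.not_subset] at hc
  obtain ⟨⟨l, h1, h2⟩, m, h3, h4⟩ := hc
  rcases lt_trichotomy (X l) (X m) with k | k | k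
  · exact h4 (h l m h1 k)
  · exact h4 (X.injective k ▸ h1)
  · exact h2 (h' m l h3 k)

theorem stp_sub_BrStep (c : C) {X : Od L} {R R' : Set L} (h' : Up X R') (hs : R' ⊆ R)
    (D : Set L) : stp c X R R' D = opH c X ((R \ R') ∩ D) := by
  unfold stp
  rw [opH_split c X (A := R ∩ D) (A1 := (R \ R') ∩ D) (A2 := R' ∩ D), mul_inv_cancel_right]
  · intro l
    refine ⟨fun h => ?_, fun h => h.elim (fun h => ⟨h.1.1, h.2⟩) (fun h => ⟨hs h.1, h.2⟩)⟩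
    by_cases k : l ∈ R'
    · exact Or.inr ⟨k, h.2⟩
    · exact Or.inl ⟨⟨h.1, k⟩, h.2⟩
  · intro a ha b hb
    rcases lt_trichotomy (X a) (X b) with k | k | k
    · exact k
    · exact absurd (X.injective k ▸ hb.1) ha.1.2
    · exact absurd (h' b a hb.1 k) ha.1.2

theorem stp_congr_BrStep (c : C) {X : Od L} {R R' D D' : Set L} (h : Up X R) (h' : Up X R')
    (e : ∀ a, ¬ (a ∈ R ↔ a ∈ R') → (a ∈ D ↔ a ∈ D')) : stp c X R R' D = stp c X R R' D' := by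
  have key : ∀ {R R' : Set L}, Up X R' → R' ⊆ R →
      (∀ a, ¬ (a ∈ R ↔ a ∈ R') → (a ∈ D ↔ a ∈ D')) → stp c X R R' D = stp c X R R' D' := by
    intro R R' h' hs e
    rw [stp_sub_BrStep c h' hs, stp_sub_BrStep c h' hs]
    congr 1
    ext a
    exact and_congr_right fun k => e a fun k' => k.2 (k'.1 k.1)
  rcases up_total_BrStep h h' with k | k
  · rw [← stp_inv c X R' R D, ← stp_inv c X R' R D', key h k fun a ha => e a fun k' => ha k'.symm]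
  · exact key h' k e

theorem dT_pl_BrStep (ρ : L → ℝ) (c : C) (b : ℝ) : ∀ (w : List L) (a : ℝ),
    w.Pairwise (fun l m => ρ l ≤ ρ m) → (∀ l ∈ w, a ≤ ρ l ∧ ρ l ≤ b) →
    dT ρ a (pl c w) b ≤ |b - a|
  | [], a, _, _ => by simp
  | l :: w, a, h1, h2 => by
    rw [List.pairwise_cons] at h1
    have k1 := dT_pl_BrStep ρ c b w (ρ l) h1.2
      fun m hm => ⟨h1.1 m hm, (h2 m (List.mem_cons_of_mem _ hm)).2⟩
    have k2 := dT_lt_mul_le ρ a b l c (pl c w)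
    obtain ⟨k3, k4⟩ := h2 l List.mem_cons_self
    rw [abs_of_nonneg (sub_nonneg.2 k4)] at k1
    rw [abs_of_nonneg (sub_nonneg.2 k3)] at k2
    rw [pl_cons, abs_of_nonneg (sub_nonneg.2 (k3.trans k4))]
    linarith

theorem dT_stp_BrStep (c : C) (Z : Cfg L) {R R' : Set L} (D : Set L) {a a' : ℝ} (h : Up Z.X R)
    (h' : Up Z.X R') (ha : At Z.x R a) (ha' : At Z.x R' a') (S : Finset L) :
    dT Z.x a (pj S (stp c Z.X R R' D)) a' = |a' - a| := by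
  have key : ∀ {R R' : Set L} {a a' : ℝ}, Up Z.X R' → R' ⊆ R → At Z.x R a → At Z.x R' a' →
      dT Z.x a (pj S (stp c Z.X R R' D)) a' = |a' - a| := by
    intro R R' a a' h' hs ha ha'
    refine le_antisymm ?_ (abs_le_dT _ _ _ _)
    rw [stp_sub_BrStep c h' hs, pj_opH]
    refine dT_pl_BrStep Z.x c a' _ a ((srt_le Z.X _).imp fun k => Z.x_le k) fun l hl => ?_
    have k := (mem_cut.1 (mem_srt.1 hl)).2.1
    exact ⟨(ha l).1 k.1, (ha' l).2 k.2⟩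
  rcases up_total_BrStep h h' with k | k
  · rw [← stp_inv, map_inv, dT_symm, key h k ha' ha, abs_sub_comm]
  · exact key h' k ha ha'

theorem inB_Rs_BrStep (ρ : L → ℝ) (u : Mk) : InB ρ u.1 u.1 (Rs ρ u) :=
  (at_Rs ρ u).inB le_rfl le_rfl

namespace Plan
variable {c : C} {Z : Cfg L} {Q : Type} (P : Plan c Z Q)

theorem mh_step_BrStep {p q : Q} (h : P.MH p q) :
    P.g q = P.g p * stp c Z.X (P.R p) (P.R q) (Rs Z.y (P.w p)) := by
  have e := h.1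
  rw [P.relv p, P.relv q, ← h.2] at e
  unfold stp
  rw [← mul_assoc, eq_mul_inv_iff_mul_eq]
  exact (Kh_injective c _ _ e).symm

theorem step_mh_BrStep {p q : Q} (hw : P.w p = P.w q)
    (h : P.g q = P.g p * stp c Z.X (P.R p) (P.R q) (Rs Z.y (P.w p))) : P.MH p q := by
  refine ⟨?_, hw⟩
  unfold stp at h
  rw [← mul_assoc, eq_mul_inv_iff_mul_eq] at h
  rw [P.relv p, P.relv q, ← hw]
  exact congrArg _ h.symm

theorem dv_step_BrStep {p q : Q} {D : Set L} (h : P.g q = P.g p * stp c Z.X (P.R p) (P.R q) D) :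
    P.dv p q = |(P.u q).1 - (P.u p).1| := by
  unfold dv
  rw [h, inv_mul_cancel_left]
  exact dW_eq ∅ fun S _ => dT_stp_BrStep c Z D (Z.up_Rs _) (Z.up_Rs _) (at_Rs _ _) (at_Rs _ _) S

theorem dv_mh_BrStep {p q : Q} (h : P.MH p q) : P.dv p q = |(P.u q).1 - (P.u p).1| :=
  P.dv_step_BrStep (P.mh_step_BrStep h)

theorem dh_mv_BrStep {p q : Q} (h : P.MV p q) : P.dh p q = |(P.w q).1 - (P.w p).1| :=
  P.tr.dv_mh_BrStep h

/-- Every point over the marker `u` is the start of a step with the set `D` to the marker `u'`. -/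
def Reach_BrStep (D : Set L) (u u' : Mk) : Prop :=
  ∀ p, P.u p = u → ∃ q, P.u q = u' ∧ P.g q = P.g p * stp c Z.X (Rs Z.x u) (Rs Z.x u') D

theorem reach_trans_BrStep {D : Set L} {u u' u'' : Mk} (h : P.Reach_BrStep D u u')
    (h' : P.Reach_BrStep D u' u'') : P.Reach_BrStep D u u'' := by
  intro p hp
  obtain ⟨q, h1, h2⟩ := h p hp
  obtain ⟨r, h3, h4⟩ := h' q h1
  exact ⟨r, h3, by rw [h4, h2, mul_assoc, stp_mul]⟩

theorem reach_lev_BrStep {D : Set L} {u u' : Mk} (w : Mk)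
    (e : ∀ a, ¬ (a ∈ Rs Z.x u ↔ a ∈ Rs Z.x u') → (a ∈ Rs Z.y w ↔ a ∈ D)) :
    P.Reach_BrStep D u u' := by
  rintro p rfl
  obtain ⟨q, h1, h2, h3⟩ := P.mvv p w
  obtain ⟨r, h4, h5, rfl⟩ := P.mvh q u'
  refine ⟨r, rfl, ?_⟩
  have := P.mh_step_BrStep (p := q) (q := r) ⟨h4.symm, h5.symm⟩
  unfold R at this
  rw [this, h1, h2, h3, stp_congr_BrStep c (Z.up_Rs _) (Z.up_Rs _) e]

theorem reach_one_BrStep {D : Set L} {y0 y1 : ℝ} (hD : InB Z.y y0 y1 D) {u u' : Mk}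
    (e : ∀ a b, ¬ (a ∈ Rs Z.x u ↔ a ∈ Rs Z.x u') → y0 ≤ Z.y a → Z.y a ≤ y1 →
      ¬ (b ∈ Rs Z.x u ↔ b ∈ Rs Z.x u') → y0 ≤ Z.y b → Z.y b ≤ y1 → a = b) :
    P.Reach_BrStep D u u' := by
  by_cases h : ∃ a, ¬ (a ∈ Rs Z.x u ↔ a ∈ Rs Z.x u') ∧ y0 ≤ Z.y a ∧ Z.y a ≤ y1 ∧ a ∈ D
  · obtain ⟨a, h1, h2, h3, h4⟩ := h
    refine P.reach_lev_BrStep (y0, false) fun b hb => ⟨fun k => ?_, fun k => ?_⟩
    · by_cases k' : y1 < Z.y b
      · exact (hD b).1 k'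
      · exact e a b h1 h2 h3 hb ((at_Rs Z.y (y0, false) b).1 k) (not_lt.1 k') ▸ h4
    · rcases (not_lt.1 fun k' => (hD b).2 k' k).lt_or_eq with k' | k'
      · exact Or.inl k'
      · exact Or.inr ⟨k', rfl⟩
  · refine P.reach_lev_BrStep (y1, true) fun b hb => ⟨fun k => ?_, fun k => ?_⟩
    · rcases k with k | k
      · exact (hD b).1 k
      · exact absurd k.2 (by simp)
    · by_contra k'
      exact h ⟨b, hb, not_lt.1 fun k'' => (hD b).2 k'' k, (at_Rs Z.y (y1, true) b).2 k', k⟩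

theorem reach_all_BrStep (hx : Function.Injective Z.x) {D : Set L} {y y1 : ℝ}
    (hD : InB Z.y y y1 D) (u u' : Mk) : P.Reach_BrStep D u u' := by
  let N : Mk → Mk → Set L := fun u u' =>
    {l | l ∈ Rs Z.x u ∧ l ∉ Rs Z.x u' ∧ y ≤ Z.y l ∧ Z.y l ≤ y1}
  have fin : ∀ u u', (N u u').Finite := fun u u' =>
    (Z.bl_fin ⟨u.1, u'.1, y, y1⟩).subset fun l hl =>
      ⟨(at_Rs Z.x u l).1 hl.1, (at_Rs Z.x u' l).2 hl.2.1, hl.2.2⟩
  have key : ∀ (n : ℕ) (u u' : Mk), Rs Z.x u' ⊆ Rs Z.x u → (N u u').ncard = n →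
      P.Reach_BrStep D u u' ∧ P.Reach_BrStep D u' u := by
    intro n
    induction n using Nat.strong_induction_on with
    | _ n ih =>
    intro u u' hs hn
    by_cases h : ∃ a ∈ N u u', ∃ b ∈ N u u', Z.x a < Z.x b
    · obtain ⟨a, ha, b, hb, hab⟩ := h
      have h1 : a ∉ Rs Z.x (Z.x a, true) := by simp [Rs]
      have h2 : b ∈ Rs Z.x (Z.x a, true) := Or.inl hab
      have s1 : Rs Z.x (Z.x a, true) ⊆ Rs Z.x u :=
        (up_total_BrStep (Z.up_Rs _) (Z.up_Rs _)).resolve_right fun k => h1 (k ha.1)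
      have s2 : Rs Z.x u' ⊆ Rs Z.x (Z.x a, true) :=
        (up_total_BrStep (Z.up_Rs _) (Z.up_Rs _)).resolve_right fun k => hb.2.1 (k h2)
      have k1 := ih _ (hn ▸ Set.ncard_lt_ncard (s := N u (Z.x a, true)) (t := N u u')
        ⟨fun l hl => ⟨hl.1, fun k => hl.2.1 (s2 k), hl.2.2⟩, fun k => (k hb).2.1 h2⟩ (fin _ _))
        u _ s1 rfl
      have k2 := ih _ (hn ▸ Set.ncard_lt_ncard (s := N (Z.x a, true) u') (t := N u u')
        ⟨fun l hl => ⟨s1 hl.1, hl.2⟩, fun k => h1 (k ha).1⟩ (fin _ _)) _ u' s2 rfl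
      exact ⟨P.reach_trans_BrStep k1.1 k2.1, P.reach_trans_BrStep k2.2 k1.2⟩
    · have m : ∀ a, ¬ (a ∈ Rs Z.x u ↔ a ∈ Rs Z.x u') → y ≤ Z.y a → Z.y a ≤ y1 → a ∈ N u u' := by
        intro a h1 h2 h3
        by_cases k : a ∈ Rs Z.x u'
        · exact absurd ⟨fun _ => k, fun _ => hs k⟩ h1
        · refine ⟨?_, k, h2, h3⟩
          by_contra k'
          exact h1 ⟨fun k'' => absurd k'' k', fun k'' => absurd k'' k⟩
      have e : ∀ a ∈ N u u', ∀ b ∈ N u u', a = b := fun a ha b hb => hx (le_antisymm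
        (not_lt.1 fun k => h ⟨b, hb, a, ha, k⟩) (not_lt.1 fun k => h ⟨a, ha, b, hb, k⟩))
      exact ⟨P.reach_one_BrStep hD fun a b a1 a2 a3 b1 b2 b3 =>
          e a (m a a1 a2 a3) b (m b b1 b2 b3),
        P.reach_one_BrStep hD fun a b a1 a2 a3 b1 b2 b3 =>
          e a (m a (fun k => a1 k.symm) a2 a3) b (m b (fun k => b1 k.symm) b2 b3)⟩
  rcases up_total_BrStep (Z.up_Rs u) (Z.up_Rs u') with k | k
  · exact (key _ u' u k rfl).2
  · exact (key _ u u' k rfl).1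

theorem box_BrStep (p q : Q) : ∃ b, BoxW c Z b (P.R p) (P.R q) ((P.g p)⁻¹ * P.g q) := by
  induction P.conn p q with
  | refl =>
    refine ⟨⟨(P.u p).1, (P.u p).1, 0, 0⟩, ?_⟩
    rw [inv_mul_cancel]
    exact BoxW.refl (Z.up_Rs _) (inB_Rs_BrStep _ _)
  | @tail q r _ h ih =>
    obtain ⟨b, hb⟩ := ih
    rcases h with h | h
    · refine ⟨b, ?_⟩
      unfold R at hb ⊢
      rwa [← h.1, ← h.2]
    · refine ⟨b.sup ⟨(P.u r).1, (P.u r).1, (P.w q).1, (P.w q).1⟩, ?_⟩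
      rw [P.mh_step_BrStep h, ← mul_assoc]
      exact (hb.mono (b.sub_sup_left _)).step (Z.up_Rs _)
        ((inB_Rs_BrStep _ _).mono (min_le_right _ _) (le_max_right _ _))
        ((inB_Rs_BrStep _ _).mono (min_le_right _ _) (le_max_right _ _))

theorem ev_dv_BrStep (p q : Q) : ∀ᶠ S : Finset L in atTop,
    P.dv p q = dL Z.x ((P.u p).1, pj S (P.g p)) ((P.u q).1, pj S (P.g q)) := by
  obtain ⟨b, hb⟩ := P.box_BrStep p q
  refine (eventually_ge_atTop (Z.bl_fin b).toFinset).mono fun S hS => ?_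
  have := hb.att (at_Rs _ _) (at_Rs _ _) (S := S)
    fun l hl => hS ((Z.bl_fin b).mem_toFinset.2 hl)
  rw [map_mul, map_inv] at this
  exact this

theorem pv_BrStep : PM P.dv ∧ Hyp P.dv 0 := by
  refine ⟨⟨fun x => ?_, fun x y => ?_, fun x y z => ?_⟩, fun w x y z => ?_⟩
  · obtain ⟨S, h⟩ := (P.ev_dv_BrStep x x).exists
    rw [h, (dL_pm _).self]
  · obtain ⟨S, h1, h2⟩ := ((P.ev_dv_BrStep x y).and (P.ev_dv_BrStep y x)).exists
    rw [h1, h2, (dL_pm _).symm]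
  · obtain ⟨S, h1, h2, h3⟩ :=
      ((P.ev_dv_BrStep x z).and ((P.ev_dv_BrStep x y).and (P.ev_dv_BrStep y z))).exists
    rw [h1, h2, h3]
    exact (dL_pm _).tri _ _ _
  · obtain ⟨S, ⟨h1, h2, h3⟩, h4, h5, h6⟩ :=
      (((P.ev_dv_BrStep x w).and ((P.ev_dv_BrStep y w).and (P.ev_dv_BrStep z w))).and
        ((P.ev_dv_BrStep x y).and ((P.ev_dv_BrStep y z).and (P.ev_dv_BrStep x z)))).exists
    unfold gp
    rw [h1, h2, h3, h4, h5, h6]
    exact dL_hyp Z.x _ _ _ _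

end Plan

end gen

namespace Plan
variable {E : Emb} {Q : Type} (B : Plan cz E.bc Q)

theorem join_BrStep {p q r : Q} {σ : Zl → Bool} (h : B.stpI.St p q σ) (h' : B.stpI.St q r σ) :
    B.stpI.St p r σ := by
  obtain ⟨D, ⟨⟨y0, y1, b1⟩, e1⟩, s1⟩ := h
  obtain ⟨D', ⟨⟨y0', y1', b2⟩, e2⟩, s2⟩ := h'
  let F : Set Zl := {a | if E.lat.Cr (toLex (B.u p)) (toLex (B.u q)) a then a ∈ D else a ∈ D'}
  have f1 : ∀ a, E.lat.Cr (toLex (B.u p)) (toLex (B.u q)) a → (a ∈ D ↔ a ∈ F) := fun a k => by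
    simp only [F, Set.mem_ofPred_eq, if_pos k]
  have f2 : ∀ a, E.lat.Cr (toLex (B.u q)) (toLex (B.u r)) a → (a ∈ D' ↔ a ∈ F) := fun a k => by
    by_cases k' : E.lat.Cr (toLex (B.u p)) (toLex (B.u q)) a
    · rw [← f1 a k', ← not_iff_not, ← s1 a k', ← s2 a k]
    · simp only [F, Set.mem_ofPred_eq, if_neg k']
  refine ⟨F, ⟨⟨min y0 y0', max y1 y1', fun l => ?_⟩, ?_⟩, fun a k => ?_⟩
  · have c1 := b1.mono (min_le_left y0 y0') (le_max_left y1 y1') l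
    have c2 := b2.mono (min_le_right y0 y0') (le_max_right y1 y1') l
    simp only [F, Set.mem_ofPred_eq]
    split_ifs
    · exact c1
    · exact c2
  · rw [e2, e1, mul_assoc,
      stp_congr_BrStep cz (R := B.R p) (R' := B.R q) (D := D) (D' := F) (E.bc.up_Rs _)
        (E.bc.up_Rs _) fun a k => f1 a ((E.cr_iff _ _ a).2 k),
      stp_congr_BrStep cz (R := B.R q) (R' := B.R r) (D := D') (D' := F) (E.bc.up_Rs _)
        (E.bc.up_Rs _) fun a k => f2 a ((E.cr_iff _ _ a).2 k)]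
    exact congrArg _ (stp_mul _ _ _ _ _ _)
  · rcases cr_or_FsBase (toLex (B.u q)) k with k | k
    · rw [← f1 a k, s1 a k]
    · rw [← f2 a k, s2 a k]

theorem lev_BrStep (v : Mk) (a : Zl) : E.lat.lev (toLex v) a = true ↔ a ∉ Rs E.η v := by
  rw [← E.lev_iff, Bool.not_eq_false]

theorem brs_thr {q r : Q} {σ : Zl → Bool} (h : B.stpI.St q r σ) :
    ∃ lo hi, E.lat.Thr lo hi (B.stpI.ux q) (B.stpI.ux r) σ := by
  obtain ⟨D, ⟨⟨y0, y1, b⟩, -⟩, s⟩ := h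
  refine ⟨y0, y1, fun a k => ⟨fun k' => (s a k).2 ((b a).2 k'), fun k' => ?_⟩⟩
  rw [← Bool.not_eq_true]
  exact fun k'' => (s a k).1 k'' ((b a).1 k')

theorem brs_symm (q r : Q) (σ : Zl → Bool) (h : B.stpI.St q r σ) : B.stpI.St r q σ := by
  obtain ⟨D, ⟨b, e⟩, s⟩ := h
  exact ⟨D, ⟨b, by rw [e, mul_assoc, stp_mul, stp_self, mul_one]⟩, fun a k => s a k.symm⟩

theorem brs_congr (q r : Q) (σ σ' : Zl → Bool) (h : B.stpI.St q r σ)
    (e : ∀ a, E.lat.Cr (B.stpI.ux q) (B.stpI.ux r) a → σ' a = σ a) : B.stpI.St q r σ' := by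
  obtain ⟨D, b, s⟩ := h
  exact ⟨D, b, fun a k => by rw [e a k, s a k]⟩

theorem brs_trans (ε : Bool) (p q r : Q) (σ : Zl → Bool) (h : B.stpI.St p q σ)
    (h' : B.stpI.St q r σ) (d : Dir ε (B.stpI.ux p) (B.stpI.ux q))
    (d' : Dir ε (B.stpI.ux q) (B.stpI.ux r)) : B.stpI.St p r σ := by
  have _ := d
  have _ := d'
  exact B.join_BrStep h h'

theorem brs_split (ε : Bool) (p r : Q) (σ : Zl → Bool) (u : Mx) (h : B.stpI.St p r σ)
    (d : Dir ε (B.stpI.ux p) u) (d' : Dir ε u (B.stpI.ux r)) :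
    ∃ q, B.stpI.ux q = u ∧ B.stpI.St p q σ ∧ B.stpI.St q r σ := by
  obtain ⟨D, ⟨⟨y0, y1, b⟩, e⟩, s⟩ := h
  obtain ⟨q, h1, h2⟩ := B.reach_all_BrStep E.ξ_inj b (B.u p) (ofLex u) p rfl
  have hu : B.stpI.ux q = u := congrArg toLex h1
  rw [← h1] at h2
  rw [← hu] at d d'
  refine ⟨q, hu, ⟨D, ⟨⟨y0, y1, b⟩, h2⟩, fun a k => s a ?_⟩, D, ⟨⟨y0, y1, b⟩, ?_⟩, fun a k => s a ?_⟩
  · exact dir_cr_FsBase (cr_dir_FsBase d k).1 (dir_trans_FsBase (cr_dir_FsBase d k).2 d')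
  · rw [h2, e, mul_assoc]
    exact congrArg _ (stp_mul _ _ _ _ _ _).symm
  · exact dir_cr_FsBase (dir_trans_FsBase d (cr_dir_FsBase d' k).1) (cr_dir_FsBase d' k).2

theorem brs_det (p q r : Q) (σ : Zl → Bool) (h : B.stpI.St p q σ) (h' : B.stpI.St p r σ)
    (e : B.stpI.ux q = B.stpI.ux r) : B.stpI.St q r σ := by
  have _ := e
  exact B.join_BrStep (B.brs_symm p q σ h) h'

theorem brs_dv (q r : Q) (σ : Zl → Bool) (h : B.stpI.St q r σ) :
    B.dv q r = |B.stpI.px r - B.stpI.px q| := by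
  obtain ⟨D, ⟨-, e⟩, -⟩ := h
  exact B.dv_step_BrStep e

theorem brs_mv {q r : Q} {σ : Zl → Bool} (h : B.stpI.St q r σ)
    (e : B.stpI.ux q = B.stpI.ux r) : B.MV q r := by
  obtain ⟨D, ⟨-, e'⟩, -⟩ := h
  have hu : B.u q = B.u r := toLex.injective e
  refine ⟨?_, hu⟩
  unfold R at e'
  rw [e', hu, stp_self, mul_one]

theorem brs_mh {q r : Q} (h : B.stpI.St q r (E.lat.lev (B.stpI.uy q)))
    (e : B.stpI.uy q = B.stpI.uy r) : B.MH q r := by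
  obtain ⟨D, ⟨-, e'⟩, s⟩ := h
  refine B.step_mh_BrStep (toLex.injective e) (e'.trans (congrArg _ ?_))
  refine stp_congr_BrStep cz (E.bc.up_Rs _) (E.bc.up_Rs _) fun a k => ?_
  rw [← not_iff_not]
  exact (s a ((E.cr_iff _ _ a).2 k)).symm.trans (lev_BrStep _ a)

theorem brs_vert_dh (q r : Q) (σ : Zl → Bool) (h : B.stpI.St q r σ)
    (e : B.stpI.ux q = B.stpI.ux r) : B.dh q r = |B.stpI.py r - B.stpI.py q| :=
  B.dh_mv_BrStep (B.brs_mv h e)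

theorem brs_hor_dh (q r : Q) (h : B.stpI.St q r (E.lat.lev (B.stpI.uy q)))
    (e : B.stpI.uy q = B.stpI.uy r) : B.dh q r = 0 := by
  obtain ⟨h1, h2⟩ := B.brs_mh h e
  unfold dh
  rw [h1, h2, inv_mul_cancel]
  exact dW_eq ∅ fun S _ => by rw [map_one, dT_one, sub_self, abs_zero]

theorem brs_vert (q : Q) (v : Mx) (σ : Zl → Bool) :
    ∃ r, B.stpI.ux r = B.stpI.ux q ∧ B.stpI.uy r = v ∧ B.stpI.St q r σ := by
  obtain ⟨r, h1, h2, h3⟩ := B.mvv q (ofLex v)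
  refine ⟨r, congrArg toLex h2, congrArg toLex h3, Rs E.bc.y (0, false),
    ⟨⟨_, _, inB_Rs_BrStep _ _⟩, ?_⟩, fun a k => ?_⟩
  · unfold R
    rw [h1, h2, stp_self, mul_one]
  · rw [E.cr_iff, h2] at k
    exact absurd Iff.rfl k

theorem brs_hor (q : Q) (u : Mx) : ∃ r, B.stpI.ux r = u ∧ B.stpI.uy r = B.stpI.uy q ∧
    B.stpI.St q r (E.lat.lev (B.stpI.uy q)) := by
  obtain ⟨r, h1, h2, h3⟩ := B.mvh q (ofLex u)
  exact ⟨r, congrArg toLex h3, congrArg toLex h2, Rs E.bc.y (B.w q),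
    ⟨⟨_, _, inB_Rs_BrStep _ _⟩, B.mh_step_BrStep ⟨h1.symm, h2.symm⟩⟩, fun a _ => lev_BrStep _ a⟩

theorem brs_cusp (q : Q) (a : Zl) (hx : B.stpI.px q = E.lat.ξ a) (hy : B.stpI.py q = E.lat.η a) :
    ∃ z, B.Cusp a z ∧ B.dv z q = 0 ∧ B.dh z q = 0 := by
  obtain ⟨r, h1, h2, h3⟩ := B.mvv q (E.η a, false)
  obtain ⟨z, h4, h5, h6⟩ := B.mvh r (E.ξ a, false)
  have hx' : (B.u q).1 = E.ξ a := hx
  have hy' : (B.w q).1 = E.η a := hy
  refine ⟨z, ⟨h6, h5.trans h3⟩, ?_, ?_⟩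
  · have := B.dv_mh_BrStep (p := z) (q := r) ⟨h4, h5⟩
    unfold dv at this ⊢
    rw [← h1, ← h2, this, h2, h6, hx', sub_self, abs_zero]
  · have := B.dh_mv_BrStep (p := r) (q := q) ⟨h1, h2⟩
    unfold dh at this ⊢
    rw [h4, h5, this, h3, hy', sub_self, abs_zero]

theorem brs_pv : PM B.dv ∧ Hyp B.dv 0 := B.pv_BrStep

end Plan

end Pool.Agent.E5f
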