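import Pool.Agent.E5f.CombH

/-! Projections for close sections. -/

set_option autoImplicit false

namespace Pool.Agent.E5f.Cb

variable {P B : Type} {G : SimpleGraph B} {D : B → P → P → ℝ}

theorem back_CombC (c : Cx G D) (T m : ℝ) : ∃ R : ℝ, ∀ s (y z : P) b b', c.S s →
    gd G b b' ≤ m → R ≤ gp (D b) (s b) y z → T ≤ gp (D b') (s b') y z := by
  obtain ⟨R, -, hR⟩ := fl_lm c.fc T m
  refine ⟨R + 1, fun s y z b b' hs hb h => ?_⟩
  by_contra h1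
  have h2 := hR _ (c.fl1 z hs (c.const y)) b' b (by rwa [c.pmB.symm]) (not_le.1 h1).le
  unfold phi at h2
  linarith

/-- (C) on a geodesic. -/
theorem close_geo (c : Cx G D) (C4 : ℝ) : ∃ ρ R9 : ℝ, ∀ s s' (Y Z : P × B) a a' b, c.S s →
    c.S s' → c.Pr s Y a → c.Pr s' Z a' → Bt G a b a' → D b (s b) (s' b) ≤ C4 →
    (Y = Z ∨ R9 ≤ gp (D b) (s b) Y.1 Z.1) → gd G a b ≤ ρ ∨ gd G b a' ≤ ρ := by
  obtain ⟨C5, h5⟩ := sec_sec c.h c.k0 C4 c.n
  obtain ⟨C6, c4, c5, c0⟩ : ∃ C6 : ℝ, C4 ≤ C6 ∧ C5 ≤ C6 ∧ 0 ≤ C6 :=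
    ⟨max (max C4 C5) 0, le_max_of_le_left (le_max_left _ _), le_max_of_le_left (le_max_right _ _),
      le_max_right _ _⟩
  have hκ := c.h.κ0
  have hδ := c.δ0
  have hM := c.fc.M1pos
  have hG := c.h.conn
  obtain ⟨r, hr⟩ : ∃ r : ℝ, r = c.M1 + 3 * c.κ + 2 * C6 + 2 * c.δ + 1 := ⟨_, rfl⟩
  obtain ⟨R, hR⟩ := back_CombC c (3 / 2 * r) c.n
  obtain ⟨C, hC⟩ := pr_np c (r + C6)
  obtain ⟨N, hN⟩ := core_gro c (r + c.κ + C6)
  refine ⟨max (max c.n N) (C + c.δ), max r R, fun s s' Y Z a a' b hs hs' ha ha' hb h4 hYZ => ?_⟩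
  by_contra hcon
  obtain ⟨g1, g2⟩ := not_or.1 hcon
  rw [not_le, max_lt_iff, max_lt_iff] at g1 g2
  rw [c.pmB.symm] at g1
  have pb := c.h.pm b
  have t1 := pb.symm (s b) (s' b)
  by_cases h1 : D b (s b) Y.1 < r
  · obtain rfl : Y = Z := hYZ.resolve_right fun h =>
      (h1.trans_le ((le_max_left _ _).trans h)).not_ge (cgp_le_left pb _ _ _)
    have e1 := hC s Y a b hs ha (by linarith)
    have e2 := hC s' Y a' b hs' ha' (by linarith [pb.tri (s' b) (s b) Y.1])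
    have e3 := cgp_add c.pmB b a Y.2
    have e4 := cgp_add c.pmB b a' Y.2
    have e5 := c.h.hypB b a Y.2 a'
    rw [hb.gp_zero hG, cgp_symm c.pmB b Y.2 a'] at e5
    rw [cgp_symm c.pmB] at e1 e2
    rcases min_choice (gp (gd G) b a Y.2) (gp (gd G) b a' Y.2) with h | h <;> rw [h] at e5 <;>
      linarith [g1.2, g2.2]
  obtain ⟨u, -, u2, u3, u4, -⟩ := rg_pt pb (c.h.rg b) (s b) Y.1 (by linarith) (not_lt.1 h1)
  obtain ⟨bm, m1, m2⟩ := bt_pt hG b a c.n g1.1.1.le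
  obtain ⟨bp, p1, p2⟩ := bt_pt hG b a' c.n g2.1.1.le
  have m3 : gd G bm b = c.n := by rwa [c.pmB.symm]
  have e1 : gd G bm bp = 2 * c.n := by
    have := ((hb.left hG (m1.symm hG)).2.right hG p1).2
    unfold Bt at this
    linarith
  have e2 := (c.fl1 Y.1 hs (c.const u)).fl bm b bp m3 p2 e1 (by unfold phi; linarith)
  rcases le_max_iff.1 e2 with e3 | e3
  · refine g1.1.2.not_ge (hN s (fun _ => u) Y.1 b bm a hs (c.const u) ?_ ha.1 m1 m2 ?_ ?_) <;>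
      unfold phi at * <;> linarith
  · have pp := c.h.pm bp
    have e4 := h5 s s' hs hs' b bp p2.le h4
    have e5 := cgp_base pp (s' bp) (s bp) u Z.1
    have e6 := cgp_le_left pb (s' b) u Z.1
    have e7 := pb.tri (s' b) (s b) u
    rw [pp.symm] at e4
    unfold phi at e3
    have e8 : 3 / 2 * (r - c.κ) - c.δ ≤ gp (D bp) (s bp) u Z.1 := by
      rcases hYZ with rfl | h
      · linarith
      · have e9 := hR s Y.1 Z.1 b bp hs p2.le ((le_max_right _ _).trans h)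
        refine le_trans (sub_le_sub_right (le_min ?_ ?_) _) (c.h.hyp bp (s bp) u Y.1 Z.1) <;>
          linarith
    refine g2.1.2.not_ge (hN s' (fun _ => u) Z.1 b bp a' hs' (c.const u) ?_ ha'.1 p1 p2 ?_ ?_) <;>
      unfold phi <;> linarith

/-- (C) near a geodesic. -/
theorem close_near (c : Cx G D) (C4 e : ℝ) : ∃ ρ R9 : ℝ, ∀ s s' (Y Z : P × B) a a' b, c.S s →
    c.S s' → c.Pr s Y a → c.Pr s' Z a' → gp (gd G) b a a' ≤ e → D b (s b) (s' b) ≤ C4 →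
    (Y = Z ∨ R9 ≤ gp (D b) (s b) Y.1 Z.1) → gd G a b ≤ ρ ∨ gd G b a' ≤ ρ := by
  obtain ⟨C5, h5⟩ := sec_sec c.h c.k0 C4 (e + 1 + 2 * c.δ)
  obtain ⟨ρ, T, hT⟩ := close_geo c C5
  obtain ⟨R, hR⟩ := back_CombC c T (e + 1 + 2 * c.δ)
  refine ⟨ρ + (e + 1 + 2 * c.δ), R, fun s s' Y Z a a' b hs hs' ha ha' hb h4 hYZ => ?_⟩
  obtain ⟨v, v1, v2⟩ := near_geo c.h.conn c.h.hypB a a' b
  have v3 : gd G b v ≤ e + 1 + 2 * c.δ := by linarith
  refine (hT s s' Y Z a a' v hs hs' ha ha' v1 (h5 s s' hs hs' b v v3 h4)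
    (hYZ.imp_right (hR s Y.1 Z.1 b v hs v3))).imp (fun h => ?_) fun h => ?_
  · linarith [c.pmB.tri a v b, c.pmB.symm v b]
  · linarith [c.pmB.tri b v a']

end Pool.Agent.E5f.Cb
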