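import Pool.Agent.E5f.HypTrans
import Pool.Agent.E5f.HypGuess

/-! Definitions and elementary facts for the combination theorem. -/

set_option autoImplicit false

namespace Pool.Agent.E5f.Cb

section GP
variable {X : Type} {d : X → X → ℝ}

theorem pm_nonneg (h : PM d) (x y : X) : 0 ≤ d x y := by
  have h1 := h.tri x y x
  rw [h.self, h.symm y x] at h1
  linarith

theorem cgp_symm (h : PM d) (w x y : X) : gp d w x y = gp d w y x := by
  unfold gp; rw [h.symm y x]; ring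

theorem cgp_nonneg (h : PM d) (w x y : X) : 0 ≤ gp d w x y := by
  have := h.tri x w y
  rw [h.symm w y] at this
  unfold gp; linarith

theorem cgp_le_left (h : PM d) (w x y : X) : gp d w x y ≤ d w x := by
  have := h.tri y x w
  rw [h.symm y x] at this
  unfold gp; rw [h.symm w x]; linarith

theorem cgp_le_right (h : PM d) (w x y : X) : gp d w x y ≤ d w y := by
  rw [cgp_symm h]; exact cgp_le_left h w y x

/-- `(x|y)_w + (w|y)_x = d(w,x)`. -/
theorem cgp_add (h : PM d) (w x y : X) : gp d w x y + gp d x w y = d w x := by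
  unfold gp; rw [h.symm x w, h.symm y w, h.symm y x]; ring

theorem cgp_self (h : PM d) (w y : X) : gp d w w y = 0 := by
  unfold gp; rw [h.self, h.symm y w]; ring

theorem cgp_base (h : PM d) (w w' x y : X) : gp d w' x y ≤ gp d w x y + d w w' := by
  have h1 := h.tri x w w'
  have h2 := h.tri y w w'
  unfold gp; linarith

theorem cgp_left (h : PM d) (w x x' y : X) : gp d w x' y ≤ gp d w x y + d x x' := by
  have h1 := h.tri x' x w
  have h2 := h.tri x x' y
  rw [h.symm x' x] at h1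
  unfold gp; linarith

theorem hyp_nonneg {δ : ℝ} (h : Hyp d δ) (x : X) : 0 ≤ δ := by
  have := h x x x x
  rw [min_self] at this
  linarith

/-- A point at a prescribed distance from `s` on the way to `x`. -/
theorem rg_pt {κ : ℝ} (h : PM d) (hr : RG d κ) (s x : X) {σ : ℝ} (h0 : 0 ≤ σ) (h1 : σ ≤ d s x) :
    ∃ u, σ - κ ≤ d s u ∧ d s u ≤ σ + κ ∧ σ - κ ≤ gp d s u x ∧ gp d s u x ≤ σ + κ ∧
      gp d u s x ≤ κ := by
  obtain ⟨u, a, b⟩ := hr s x σ h0 h1
  rw [abs_le] at a b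
  refine ⟨u, by linarith, by linarith, ?_, ?_, ?_⟩ <;> unfold gp
  · rw [h.symm u s, h.symm x s]; linarith
  · rw [h.symm u s, h.symm x s]; linarith
  · rw [h.symm x u]; linarith

end GP

variable {P B : Type}

/-- Betweenness in a graph. -/
def Bt (G : SimpleGraph B) (a b c : B) : Prop := gd G a b + gd G b c = gd G a c

/-- `q` is a point of `U` nearest to `p`. -/
def Nst (G : SimpleGraph B) (U : B → Prop) (p q : B) : Prop :=
  U q ∧ ∀ b, U b → gd G p q ≤ gd G p b

/-- Flaring functions. -/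
structure Fl (G : SimpleGraph B) (K CL : ℝ) (n : ℕ) (M1 : ℝ) (ψ : B → ℝ) : Prop where
  lip : ∀ b b', G.Adj b b' → ψ b' ≤ K * ψ b + CL
  fl : ∀ a b c, gd G a b = n → gd G b c = n → gd G a c = 2 * n → M1 < ψ b →
    3 / 2 * ψ b ≤ max (ψ a) (ψ c)

/-- Standing assumptions for flaring functions. -/
structure FlCx (G : SimpleGraph B) (δ K CL : ℝ) (n : ℕ) (M1 : ℝ) : Prop where
  conn : G.Connected
  hyp : Hyp (gd G) δ
  K1 : 1 ≤ K
  CL0 : 0 ≤ CL
  n1 : 1 ≤ n
  M1pos : 0 < M1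

/-- Sections. -/
def Sec (G : SimpleGraph B) (D : B → P → P → ℝ) (k : ℝ) (s : B → P) : Prop :=
  ∀ b b', G.Adj b b' → D b' (s b) (s b') ≤ k

/-- The product `(t b | x)` at `s b` in the fibre over `b`. -/
noncomputable def phi (D : B → P → P → ℝ) (s : B → P) (x : P) (t : B → P) (b : B) : ℝ :=
  gp (D b) (s b) (t b) x

/-- The core of a section and a point. -/
def Core (G : SimpleGraph B) (D : B → P → P → ℝ) (k M1 R : ℝ) (s : B → P) (x : P) (b : B) :
    Prop :=
  ∀ t, Sec G D k t → (∃ b', phi D s x t b' ≤ M1) → phi D s x t b ≤ R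

/-- All constants of the proof. -/
structure Cx (G : SimpleGraph B) (D : B → P → P → ℝ) where
  δ : ℝ
  κ : ℝ
  K : ℝ
  n : ℕ
  M : ℝ
  h : CombHyp G D δ κ K n M
  c0 : ℝ
  k0 : ℝ
  CL : ℝ
  M1 : ℝ
  R : ℝ
  c00 : 0 ≤ c0
  k00 : 0 ≤ k0
  fc : FlCx G δ K CL n M1
  ctr : ∀ x y z, ∃ m, Sec G D k0 m ∧ ∀ b, gp (D b) (m b) x y ≤ c0 ∧ gp (D b) (m b) y z ≤ c0 ∧
    gp (D b) (m b) x z ≤ c0
  fl2 : ∀ s t t' x, Sec G D k0 s → Sec G D k0 t → Sec G D k0 t' →
    Fl G K CL n M1 fun b => min (phi D s x t b) (phi D s x t' b)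
  MR : M1 ≤ R
  core : ∀ s x, Sec G D k0 s → ∃ b, Core G D k0 M1 R s x b

variable {G : SimpleGraph B} {D : B → P → P → ℝ}

namespace Cx

/-- Sections. -/
def S (c : Cx G D) (s : B → P) : Prop := Sec G D c.k0 s

/-- Flaring functions. -/
def F (c : Cx G D) (ψ : B → ℝ) : Prop := Fl G c.K c.CL c.n c.M1 ψ

/-- The core. -/
def Co (c : Cx G D) (s : B → P) (x : P) (b : B) : Prop := Core G D c.k0 c.M1 c.R s x b

/-- `a` is a projection of `X` to the core. -/
def Pr (c : Cx G D) (s : B → P) (X : P × B) (a : B) : Prop := Nst G (c.Co s X.1) X.2 a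

/-- The guessed geodesics. -/
def Ls (c : Cx G D) (X Y : P × B) : Set (P × B) :=
  {W | ∃ s a e, c.S s ∧ (∀ b, gp (D b) (s b) X.1 Y.1 ≤ c.c0) ∧ c.Pr s X a ∧ c.Pr s Y e ∧
    Bt G a W.2 e ∧ W.1 = s W.2}

theorem pmB (c : Cx G D) : PM (gd G) := gd_pm c.h.conn

theorem δ0 (c : Cx G D) : 0 ≤ c.δ := hyp_nonneg c.h.hypB c.h.conn.nonempty.some

theorem const (c : Cx G D) (u : P) : c.S fun _ => u := fun _ b' _ => by
  rw [(c.h.pm b').self]; exact c.k00

theorem fl1 (c : Cx G D) {s t : B → P} (x : P) (hs : c.S s) (ht : c.S t) :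
    c.F (phi D s x t) := by
  have := c.fl2 s t t x hs ht ht
  simp only [min_self] at this
  exact this

end Cx

end Pool.Agent.E5f.Cb
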