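import Pool.Agent.E5f.CombGeo

/-! Flaring functions. -/

set_option autoImplicit false

namespace Pool.Agent.E5f.Cb

variable {B : Type} {G : SimpleGraph B} {δ K CL M1 : ℝ} {n : ℕ}

theorem fl_lm (c : FlCx G δ K CL n M1) (R m : ℝ) : ∃ R', R ≤ R' ∧ ∀ ψ, Fl G K CL n M1 ψ →
    ∀ b b', gd G b b' ≤ m → ψ b ≤ R → ψ b' ≤ R' := by
  have hK := c.K1
  have hC := c.CL0
  have h1 : ∀ k : ℕ, max R 0 ≤ (fun x => K * x + CL)^[k] (max R 0) := by
    intro k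
    induction k with
    | zero => exact le_rfl
    | succ k ih =>
      rw [Function.iterate_succ_apply']
      have := le_max_right R 0
      nlinarith
  refine ⟨(fun x => K * x + CL)^[⌈m⌉₊] (max R 0), (le_max_left _ _).trans (h1 _),
    fun ψ hψ b b' hb hR => ?_⟩
  refine dist_ind c.conn b (fun k v => ψ v ≤ (fun x => K * x + CL)^[k] (max R 0))
    (fun k => hR.trans ((le_max_left _ _).trans (h1 k))) (fun k v w hv hvw => ?_) _ b'
    (hb.trans (Nat.le_ceil m))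
  rw [Function.iterate_succ_apply']
  have := hψ.lip v w hvw
  nlinarith

theorem step_CombFl (c : FlCx G δ K CL n M1) {ψ : B → ℝ} (hψ : Fl G K CL n M1 ψ) {a b e : B}
    (h : Bt G a b e) (hab : gd G a b = n) (hb : M1 < ψ b) (ha : ψ a < 3 / 2 * ψ b) (j : ℕ) :
    (j : ℝ) * n ≤ gd G b e → ∃ a2 b2, Bt G a2 b2 e ∧ gd G a2 b2 = n ∧
      gd G b2 e = gd G b e - j * n ∧ (3 / 2) ^ j * ψ b ≤ ψ b2 ∧ ψ a2 < 3 / 2 * ψ b2 := by
  have hM := c.M1pos
  induction j with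
  | zero => exact fun _ => ⟨a, b, h, hab, by simp, by simp, ha⟩
  | succ j ih =>
    intro hj
    have hn : (0 : ℝ) ≤ n := Nat.cast_nonneg n
    push_cast at hj ⊢
    obtain ⟨a2, b2, h1, h2, h3, h4, h5⟩ := ih (by linarith)
    obtain ⟨b3, h6, h7⟩ := bt_pt c.conn b2 e n (by linarith)
    have h8 : gd G a2 b2 + gd G b2 b3 = gd G a2 b3 := (h1.right c.conn h6).2
    have h9 : (1 : ℝ) ≤ (3 / 2) ^ j := one_le_pow₀ (by norm_num)
    have h10 : M1 < ψ b2 := by nlinarith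
    have h11 : 3 / 2 * ψ b2 ≤ ψ b3 :=
      (le_max_iff.1 (hψ.fl a2 b2 b3 h2 h7 (by linarith) h10)).resolve_left (not_le.2 h5)
    have h12 : gd G b2 b3 + gd G b3 e = gd G b2 e := h6
    refine ⟨b2, b3, h6, h7, by linarith, ?_, by linarith⟩
    rw [pow_succ]
    linarith

theorem fl_gro (c : FlCx G δ K CL n M1) (R : ℝ) : ∃ N : ℝ, ∀ ψ, Fl G K CL n M1 ψ →
    ∀ a b e, Bt G a b e → gd G a b = n → N ≤ gd G b e → M1 < ψ b → ψ a < 3 / 2 * ψ b →
      R < ψ e := by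
  have hM := c.M1pos
  have hn : 0 < n := c.n1
  obtain ⟨R2, -, hR2⟩ := fl_lm c R n
  obtain ⟨J, hJ⟩ := pow_unbounded_of_one_lt (R2 / M1) (by norm_num : (1 : ℝ) < 3 / 2)
  rw [div_lt_iff₀ hM] at hJ
  refine ⟨(J * n : ℕ), fun ψ hψ a b e h hab hN hb ha => ?_⟩
  by_contra hR
  rw [not_lt] at hR
  have h1 : J ≤ G.dist b e / n := (Nat.le_div_iff_mul_le hn).2 (by
    unfold gd at hN
    exact_mod_cast hN)
  have h2 : ((G.dist b e / n : ℕ) : ℝ) * n ≤ gd G b e := by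
    unfold gd
    exact_mod_cast Nat.div_mul_le_self _ _
  have h3 : gd G b e < ((G.dist b e / n : ℕ) : ℝ) * n + n := by
    unfold gd
    exact_mod_cast Nat.lt_div_mul_add hn
  obtain ⟨a2, b2, -, -, h4, h5, -⟩ := step_CombFl c hψ h hab hb ha _ h2
  have h6 := hR2 ψ hψ e b2 (by rw [(gd_pm c.conn).symm]; linarith) hR
  have h7 : ((3 : ℝ) / 2) ^ J ≤ (3 / 2) ^ (G.dist b e / n) := pow_le_pow_right₀ (by norm_num) h1
  have h8 : (0 : ℝ) < (3 / 2) ^ J := by positivity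
  nlinarith

theorem mid_CombFl (c : FlCx G δ K CL n M1) (R : ℝ) : ∃ N : ℝ, ∀ ψ, Fl G K CL n M1 ψ →
    ∀ a b e, Bt G a b e → N ≤ gd G a b → N ≤ gd G b e → M1 < ψ b → R < ψ a ∨ R < ψ e := by
  have hM := c.M1pos
  have hP := gd_pm c.conn
  obtain ⟨N, hN⟩ := fl_gro c R
  refine ⟨max N 0 + n, fun ψ hψ a b e h ha he hb => ?_⟩
  have h1 := le_max_left N 0
  have h2 := le_max_right N 0
  rw [hP.symm] at ha
  obtain ⟨e1, h3, h4⟩ := bt_pt c.conn b e n (by linarith)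
  obtain ⟨a1, h5, h6⟩ := bt_pt c.conn b a n (by linarith)
  have h7 : gd G a1 b + gd G b e1 = gd G a1 e1 :=
    ((h.right c.conn h3).2.left c.conn (h5.symm c.conn)).2
  have h8 : gd G a1 b = n := by rw [hP.symm, h6]
  have h9 : gd G b e1 + gd G e1 e = gd G b e := h3
  have h10 : gd G b a1 + gd G a1 a = gd G b a := h5
  rcases le_max_iff.1 (hψ.fl a1 b e1 h8 h4 (by linarith) hb) with h11 | h11
  · exact Or.inl (hN ψ hψ b a1 a h5 h6 (by linarith) (by linarith) (by linarith))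
  · exact Or.inr (hN ψ hψ b e1 e h3 h4 (by linarith) (by linarith) (by linarith))

theorem fl_q (c : FlCx G δ K CL n M1) (R : ℝ) : ∃ Q, R ≤ Q ∧ M1 ≤ Q ∧ ∀ ψ, Fl G K CL n M1 ψ →
    ∀ a b e, Bt G a b e → ψ a ≤ R → ψ e ≤ R → ψ b ≤ Q := by
  obtain ⟨N, hN⟩ := mid_CombFl c R
  obtain ⟨R', h1, h2⟩ := fl_lm c R N
  refine ⟨max M1 R', h1.trans (le_max_right _ _), le_max_left _ _,
    fun ψ hψ a b e h ha he => ?_⟩
  by_contra hb
  rw [not_le, max_lt_iff] at hb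
  have h3 : N ≤ gd G a b := by
    by_contra h3
    exact absurd (h2 ψ hψ a b (not_le.1 h3).le ha) (not_le.2 hb.2)
  have h4 : N ≤ gd G b e := by
    by_contra h4
    rw [(gd_pm c.conn).symm] at h4
    exact absurd (h2 ψ hψ e b (not_le.1 h4).le he) (not_le.2 hb.2)
  rcases hN ψ hψ a b e h h3 h4 hb.1 with h5 | h5 <;> linarith

theorem fl_bd (c : FlCx G δ K CL n M1) (R : ℝ) : ∃ N : ℝ, ∀ ψ, Fl G K CL n M1 ψ →
    ∀ a e, ψ a ≤ R → ψ e ≤ R → (∀ b, Bt G a b e → M1 < ψ b) → gd G a e ≤ N := by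
  obtain ⟨N, hN⟩ := mid_CombFl c R
  refine ⟨2 * (⌈N⌉₊ : ℝ), fun ψ hψ a e ha he h => ?_⟩
  by_contra h1
  rw [not_le] at h1
  have h2 := Nat.le_ceil N
  have h3 : (0 : ℝ) ≤ (⌈N⌉₊ : ℝ) := Nat.cast_nonneg _
  obtain ⟨b, h4, h5⟩ := bt_pt c.conn a e ⌈N⌉₊ (by linarith)
  have h6 : gd G a b + gd G b e = gd G a e := h4
  rcases hN ψ hψ a b e h4 (by linarith) (by linarith) (h b h4) with h7 | h7 <;> linarith

end Pool.Agent.E5f.Cb
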