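import Pool.Agent.E5f.CombDefs

/-! Geometry of the base graph. -/

set_option autoImplicit false

namespace Pool.Agent.E5f.Cb

variable {B : Type} {G : SimpleGraph B} {δ : ℝ}

theorem Bt.symm (hG : G.Connected) {a b c : B} (h : Bt G a b c) : Bt G c b a := by
  have pm := gd_pm hG
  unfold Bt at *
  linarith [pm.symm a b, pm.symm b c, pm.symm a c]

theorem Bt.gp_zero (hG : G.Connected) {a b c : B} (h : Bt G a b c) : gp (gd G) b a c = 0 := by
  have pm := gd_pm hG
  unfold Bt at h
  unfold gp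
  linarith [pm.symm b c]

/-- `a, v, b, c`: a point between `a` and `b` is between `a` and `c`. -/
theorem Bt.left (hG : G.Connected) {a v b c : B} (h : Bt G a b c) (h' : Bt G a v b) :
    Bt G a v c ∧ Bt G v b c := by
  have pm := gd_pm hG
  unfold Bt at *
  constructor <;> linarith [pm.tri a v c, pm.tri v b c]

/-- `a, b, v, c`. -/
theorem Bt.right (hG : G.Connected) {a v b c : B} (h : Bt G a b c) (h' : Bt G b v c) :
    Bt G a v c ∧ Bt G a b v := by
  have pm := gd_pm hG
  unfold Bt at *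
  constructor <;> linarith [pm.tri a v c, pm.tri a b v]

theorem gd_eq_zero (hG : G.Connected) {a b : B} (h : gd G a b ≤ 0) : a = b := by
  have h1 : G.dist a b = 0 := by
    unfold gd at h
    exact_mod_cast le_antisymm h (Nat.cast_nonneg _)
  exact hG.dist_eq_zero_iff.1 h1

/-- A point at a given integer distance on a geodesic. -/
theorem bt_pt (hG : G.Connected) (a c : B) (k : ℕ) (hk : (k : ℝ) ≤ gd G a c) :
    ∃ b, Bt G a b c ∧ gd G a b = k := by
  obtain ⟨γ, e0, e1, e2, -⟩ := gseg_ex hG a c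
  obtain ⟨e3, e4⟩ := btw_HypGuess e0 e1 e2 (k := k) (Nat.cast_le.1 hk)
  exact ⟨_, e4, e3⟩

/-- A geodesic segment through three points. -/
theorem gseg_three (hG : G.Connected) {a b c : B} (h : Bt G a b c) :
    ∃ γ : ℕ → B, γ 0 = a ∧ γ (G.dist a b) = b ∧ γ (G.dist a c) = c ∧ GSeg G γ (G.dist a c) := by
  have pm := gd_pm hG
  obtain ⟨g1, a0, a1, a2, -⟩ := gseg_ex hG a b
  obtain ⟨g2, b0, b1, b2, -⟩ := gseg_ex hG b c
  have hd : G.dist a b + G.dist b c = G.dist a c := by
    unfold Bt gd at h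
    exact_mod_cast h
  have key : ∀ i j : ℕ, i ≤ j → j ≤ G.dist a c →
      gd G (if i ≤ G.dist a b then g1 i else g2 (i - G.dist a b))
        (if j ≤ G.dist a b then g1 j else g2 (j - G.dist a b)) = |(i : ℝ) - j| := by
    intro i j hij hj
    by_cases h1 : j ≤ G.dist a b
    · rw [if_pos h1, if_pos (hij.trans h1)]
      exact a2 i j (hij.trans h1) h1
    have h2 : G.dist a b ≤ j := (not_le.1 h1).le
    rw [if_neg h1]
    by_cases h3 : i ≤ G.dist a b
    · obtain ⟨e1, e2⟩ := btw_HypGuess a0 a1 a2 h3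
      obtain ⟨e3, e4⟩ := btw_HypGuess b0 b1 b2 (k := j - G.dist a b) (by omega)
      rw [Nat.cast_sub h2] at e3
      rw [if_pos h3, abs_sub_comm, abs_of_nonneg (sub_nonneg.2 (Nat.cast_le.2 hij))]
      have e5 : gd G a b = G.dist a b := rfl
      unfold Bt at h
      linarith [pm.tri (g1 i) b (g2 (j - G.dist a b)), pm.tri a (g1 i) c,
        pm.tri (g1 i) (g2 (j - G.dist a b)) c]
    · rw [if_neg h3, b2 _ _ (by omega) (by omega), Nat.cast_sub h2, Nat.cast_sub (not_le.1 h3).le,
        sub_sub_sub_cancel_right]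
  refine ⟨fun i => if i ≤ G.dist a b then g1 i else g2 (i - G.dist a b),
    (if_pos (Nat.zero_le _)).trans a0, (if_pos le_rfl).trans a1, ?_, fun i j hi hj => ?_⟩
  · beta_reduce
    by_cases h1 : G.dist a c ≤ G.dist a b
    · have h2 : G.dist b c = 0 := by omega
      rw [if_pos h1, ← hd, h2, add_zero, a1]
      exact hG.dist_eq_zero_iff.1 h2
    · rw [if_neg h1, ← hd, Nat.add_sub_cancel_left, b1]
  · rcases le_total i j with h1 | h1
    · exact key i j h1 hj
    · rw [pm.symm, abs_sub_comm]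
      exact key j i h1 hi

/-- Induction along a geodesic. -/
theorem dist_ind (hG : G.Connected) (b : B) (p : ℕ → B → Prop) (h0 : ∀ m, p m b)
    (hs : ∀ m b' b'', p m b' → G.Adj b' b'' → p (m + 1) b'') (m : ℕ) (b' : B)
    (h : gd G b b' ≤ m) : p m b' := by
  obtain ⟨γ, e0, e1, -, e2⟩ := gseg_ex hG b b'
  have h1 : G.dist b b' ≤ m := Nat.cast_le.1 h
  have key : ∀ i, i ≤ G.dist b b' → p (m - G.dist b b' + i) (γ i) := by
    intro i
    induction i with
    | zero => exact fun _ => by rw [e0]; exact h0 _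
    | succ i ih => exact fun hi => hs _ _ _ (ih (by omega)) (e2 i hi)
  have h2 := key _ le_rfl
  rwa [Nat.sub_add_cancel h1, e1] at h2

theorem nst_ex (hG : G.Connected) {U : B → Prop} (hU : ∃ b, U b) (p : B) : ∃ q, Nst G U p q := by
  obtain ⟨q, hq, h⟩ := (measure fun b => G.dist p b).wf.has_min {b | U b} hU
  exact ⟨q, hq, fun b hb => Nat.cast_le.2 (not_lt.1 (h b hb))⟩

/-- A point with small product is near a geodesic. -/
theorem near_geo (hG : G.Connected) (hh : Hyp (gd G) δ) (a c q : B) :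
    ∃ y, Bt G a y c ∧ gd G q y ≤ gp (gd G) q a c + 1 + 2 * δ := by
  have pm := gd_pm hG
  obtain ⟨y, e1, e2, e3⟩ := pt_HypGuess hG a c (cgp_nonneg pm a q c) (cgp_le_right pm a q c)
  refine ⟨y, e1, ?_⟩
  have h1 : gp (gd G) a y c = gd G a y := by
    unfold gp
    linarith [pm.symm y a, pm.symm c a]
  have h2 := hh a y c q
  rw [h1, cgp_symm pm a c q, min_eq_left e3] at h2
  have h3 := cgp_add pm a q c
  unfold gp at h2
  linarith [pm.symm y a, pm.symm q a, pm.symm y q]

/-- Fellow travelling. -/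
theorem fellow (hG : G.Connected) (hh : Hyp (gd G) δ) {q p z y y' : B} (h1 : Bt G q y z)
    (h2 : Bt G q y' p) (h3 : gd G q y = gd G q y') (h4 : gd G q y ≤ gp (gd G) q p z) :
    gd G y y' ≤ 4 * δ := by
  have pm := gd_pm hG
  have hδ := hyp_nonneg hh q
  unfold Bt at h1 h2
  have e1 : gp (gd G) q y z = gd G q y := by
    unfold gp
    linarith [pm.symm y q, pm.symm z q]
  have e2 : gp (gd G) q p y' = gd G q y := by
    unfold gp
    linarith [pm.symm y' q, pm.symm p q, pm.symm p y']
  have e3 := hh q y z p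
  rw [e1, cgp_symm pm q z p, min_eq_left h4] at e3
  have e4 := hh q y p y'
  have e5 : gd G q y - δ ≤ min (gp (gd G) q y p) (gp (gd G) q p y') :=
    le_min e3 (by linarith)
  have e6 : gp (gd G) q y y' = (gd G y q + gd G y' q - gd G y y') / 2 := rfl
  linarith [pm.symm y q, pm.symm y' q]

end Pool.Agent.E5f.Cb
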