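import Pool.Agent.E5f.CombSec

/-! Cores and projections. -/

set_option autoImplicit false

namespace Pool.Agent.E5f.Cb

variable {P B : Type} {G : SimpleGraph B} {D : B → P → P → ℝ}

theorem pr_ex (c : Cx G D) {s : B → P} (hs : c.S s) (X : P × B) : ∃ a, c.Pr s X a :=
  nst_ex c.h.conn (c.core s X.1 hs) X.2

theorem co_of_le (c : Cx G D) {s : B → P} {x : P} {b : B} (h : D b (s b) x ≤ c.R) :
    c.Co s x b :=
  fun t _ _ => (cgp_le_right (c.h.pm b) (s b) (t b) x).trans h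

/-- (NP) for the core. -/
theorem pr_np (c : Cx G D) (A : ℝ) : ∃ C : ℝ, ∀ s X a b, c.S s → c.Pr s X a →
    D b (s b) X.1 ≤ A → gp (gd G) a X.2 b ≤ C := by
  obtain ⟨C, hC⟩ := fl_np c.fc (max A c.R)
  refine ⟨C, fun s X a b hs hp hA => ?_⟩
  have hne : Nonempty {t // c.S t ∧ ∃ b, phi D s X.1 t b ≤ c.M1} :=
    ⟨⟨s, hs, a, (cgp_self (c.h.pm _) _ _).trans_le c.fc.M1pos.le⟩⟩
  have hle : ∀ (b : B) (t : B → P), phi D s X.1 t b ≤ D b (s b) X.1 := fun b t =>
    cgp_le_right (c.h.pm b) (s b) (t b) X.1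
  have hb : ∀ b, BddAbove (Set.range fun t : {t // c.S t ∧ ∃ b, phi D s X.1 t b ≤ c.M1} =>
      phi D s X.1 t.1 b) := fun b => ⟨D b (s b) X.1, by
    rintro _ ⟨t, rfl⟩
    exact hle b t.1⟩
  have hF := fl_sup c.fc (fun t : {t // c.S t ∧ ∃ b, phi D s X.1 t b ≤ c.M1} => phi D s X.1 t.1)
    (fun t => c.fl1 X.1 hs t.2.1) hb
  refine hC _ hF c.R X.2 a b c.MR (le_max_right _ _)
    (ciSup_le fun t => le_max_of_le_left ((hle b t.1).trans hA))
    ⟨ciSup_le fun t => hp.1 t.1 t.2.1 t.2.2, fun b' hb' => hp.2 b' fun t ht hm => ?_⟩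
  exact (le_ciSup (hb b') ⟨t, ht, hm⟩).trans hb'

theorem big_CombH (c : Cx G D) {s t : B → P} {x : P} {a : B} (ht : c.S t) (hc : c.Co s x a)
    (h : c.R < phi D s x t a) (b : B) : c.M1 < phi D s x t b :=
  not_le.1 fun hb => (hc t ht ⟨b, hb⟩).not_gt h

/-- (H) -/
theorem core_h (c : Cx G D) (A : ℝ) : ∃ N : ℝ, ∀ s t x b a, c.S s → c.S t →
    (∀ b', c.M1 < phi D s x t b') → phi D s x t b ≤ A → c.Co s x a → gd G b a ≤ N := by
  obtain ⟨N, hN⟩ := fl_bd c.fc (max A (c.R + c.κ + 1 + c.κ))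
  have hκ := c.h.κ0
  have hM := c.fc.M1pos
  have hR := c.MR
  refine ⟨N, fun s t x b a hs ht hb hA hc => ?_⟩
  rcases le_total (D a (s a) x) (c.R + c.κ + 1) with h | h
  · refine hN _ (c.fl1 x hs ht) b a (le_max_of_le_left hA) (le_max_of_le_right ?_)
      fun w _ => hb w
    have := cgp_le_right (c.h.pm a) (s a) (t a) x
    unfold phi
    linarith
  · obtain ⟨u, -, -, h1, h2, -⟩ := rg_pt (c.h.pm a) (c.h.rg a) (s a) x (by linarith) h
    have h3 : c.R < phi D s x (fun _ => u) a := by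
      unfold phi
      linarith
    exact hN _ (c.fl2 s t (fun _ => u) x hs ht (c.const u)) b a
      (le_max_of_le_left (min_le_of_left_le hA)) (le_max_of_le_right (min_le_of_right_le h2))
      fun w _ => lt_min (hb w) (big_CombH c (c.const u) hc h3 w)

/-- (H) or (Y) -/
theorem core_y (c : Cx G D) (A : ℝ) : ∃ N Q : ℝ, ∀ s t x b a, c.S s → c.S t →
    phi D s x t b ≤ A → c.Co s x a →
      gd G b a ≤ N ∨ ∀ w, Bt G b w a → phi D s x t w ≤ Q := by
  obtain ⟨N, hN⟩ := core_h c A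
  obtain ⟨Q, -, -, hQ⟩ := fl_q c.fc (max A c.R)
  refine ⟨N, Q, fun s t x b a hs ht hA hc => ?_⟩
  rcases le_or_gt (phi D s x t a) c.R with h | h
  · exact Or.inr fun w hw => hQ _ (c.fl1 x hs ht) b w a hw (le_max_of_le_left hA)
      (le_max_of_le_right h)
  · exact Or.inl (hN s t x b a hs ht (big_CombH c ht hc h) hA hc)

/-- (Gro) and (H) together. -/
theorem core_gro (c : Cx G D) (A : ℝ) : ∃ N : ℝ, ∀ s t x b b' a, c.S s → c.S t →
    phi D s x t b ≤ A → c.Co s x a → Bt G b b' a → gd G b b' = c.n → c.M1 < phi D s x t b' →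
    phi D s x t b < 3 / 2 * phi D s x t b' → gd G b a ≤ N := by
  obtain ⟨N, hN⟩ := core_h c A
  obtain ⟨N1, h1⟩ := fl_gro c.fc c.R
  refine ⟨max N (c.n + N1), fun s t x b b' a hs ht hA hc hbt hn hM h32 => ?_⟩
  rcases le_total N1 (gd G b' a) with h | h
  · exact le_max_of_le_left (hN s t x b a hs ht
      (big_CombH c ht hc (h1 _ (c.fl1 x hs ht) b b' a hbt hn h hM h32)) hA hc)
  · refine le_max_of_le_right ?_
    unfold Bt at hbt
    linarith

end Pool.Agent.E5f.Cb
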