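import Pool.Agent.E5f.CombFl

/-! Nearest points of sublevel sets, suprema, the Helly property. -/

set_option autoImplicit false

namespace Pool.Agent.E5f.Cb

variable {B : Type} {G : SimpleGraph B} {δ K CL M1 : ℝ} {n : ℕ}

theorem fl_near (c : FlCx G δ K CL n M1) (R' : ℝ) : ∃ N : ℝ, ∀ ψ, Fl G K CL n M1 ψ →
    ∀ R p q, M1 ≤ R → R ≤ R' → ψ p ≤ R' → Nst G (fun b => ψ b ≤ R) p q → gd G p q ≤ N := by
  obtain ⟨R1, h1, h2⟩ := fl_lm c R' 1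
  obtain ⟨N, hN⟩ := fl_bd c R1
  have pm := gd_pm c.conn
  refine ⟨|N| + 1, fun ψ hψ R p q e1 e2 e3 e4 => ?_⟩
  rcases le_total (gd G q p) 1 with h | h
  · linarith [abs_nonneg N, pm.symm p q]
  obtain ⟨q1, e5, e6⟩ := bt_pt c.conn q p 1 (by exact_mod_cast h)
  rw [Nat.cast_one] at e6
  unfold Bt at e5
  have := hN ψ hψ p q1 (e3.trans h1) (h2 ψ hψ q q1 e6.le (e4.1.trans e2)) fun b hb =>
    e1.trans_lt (not_le.1 fun h3 => by
      unfold Bt at hb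
      linarith [e4.2 b h3, pm_nonneg pm b q1, pm.symm p q, pm.symm p q1])
  linarith [le_abs_self N, pm.symm p q, pm.symm p q1]

theorem fl_np (c : FlCx G δ K CL n M1) (R' : ℝ) : ∃ C : ℝ, ∀ ψ, Fl G K CL n M1 ψ →
    ∀ R p q z, M1 ≤ R → R ≤ R' → ψ z ≤ R' → Nst G (fun b => ψ b ≤ R) p q →
      gp (gd G) q p z ≤ C := by
  obtain ⟨Q, h1, -, h2⟩ := fl_q c R'
  obtain ⟨R1, h3, h4⟩ := fl_lm c Q (4 * δ)
  obtain ⟨N, hN⟩ := fl_near c R1
  have pm := gd_pm c.conn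
  refine ⟨N + 1, fun ψ hψ R p q z e1 e2 e3 e4 => ?_⟩
  have h5 := Nat.floor_le (cgp_nonneg pm q p z)
  obtain ⟨y, e5, e6⟩ := bt_pt c.conn q z _ (h5.trans (cgp_le_right pm q p z))
  obtain ⟨y1, e7, e8⟩ := bt_pt c.conn q p _ (h5.trans (cgp_le_left pm q p z))
  have := hN ψ hψ R y1 q e1 (e2.trans (h1.trans h3))
    (h4 ψ hψ y y1 (fellow c.conn c.hyp e5 e7 (e6.trans e8.symm) (e6 ▸ h5))
      (h2 ψ hψ q y z e5 (e4.1.trans e2) e3)) ⟨e4.1, fun b hb => by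
      unfold Bt at e7
      linarith [e4.2 b hb, pm.tri p y1 b, pm.symm p q, pm.symm p y1, pm.symm q y1]⟩
  linarith [Nat.lt_floor_add_one (gp (gd G) q p z), pm.symm q y1]

theorem fl_sup (c : FlCx G δ K CL n M1) {T : Type} [Nonempty T] (Φ : T → B → ℝ)
    (hΦ : ∀ t, Fl G K CL n M1 (Φ t)) (hb : ∀ b, BddAbove (Set.range fun t => Φ t b)) :
    Fl G K CL n M1 fun b => ⨆ t, Φ t b := by
  have hK : 0 ≤ K := zero_le_one.trans c.K1
  refine ⟨fun b b' h => ciSup_le fun t => ((hΦ t).lip b b' h).trans ?_,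
    fun a b e h1 h2 h3 h4 => ?_⟩
  · gcongr
    exact le_ciSup (hb b) t
  by_contra h5
  obtain ⟨t, ht⟩ := exists_lt_of_lt_ciSup (max_lt h4
    (show 2 / 3 * max (⨆ t, Φ t a) (⨆ t, Φ t e) < ⨆ t, Φ t b by linarith))
  rw [max_lt_iff] at ht
  linarith [((hΦ t).fl a b e h1 h2 h3 ht.1).trans
    (max_le_max (le_ciSup (hb a) t) (le_ciSup (hb e) t)), ht.2]

theorem fl_helly (c : FlCx G δ K CL n M1) : ∃ R : ℝ, ∀ (T : Type) [Nonempty T] (Φ : T → B → ℝ),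
    (∀ t t', Fl G K CL n M1 fun b => min (Φ t b) (Φ t' b)) → (∀ t, ∃ b, Φ t b ≤ M1) →
    (∀ b, ∃ A, ∀ t, Φ t b ≤ A) → ∃ q, ∀ t, Φ t q ≤ R := by
  obtain ⟨Q, -, h1, h2⟩ := fl_q c M1
  obtain ⟨R1, h3, h4⟩ := fl_lm c Q 1
  obtain ⟨C, hC⟩ := fl_np c R1
  obtain ⟨Q1, -, -, h5⟩ := fl_q c R1
  obtain ⟨R, -, h6⟩ := fl_lm c Q1 (2 * C + δ + 1 + 2 * δ)
  have pm := gd_pm c.conn
  refine ⟨R, fun T _ Φ hΦ hM hA => ?_⟩
  have hF : ∀ t, Fl G K CL n M1 (Φ t) := fun t => by simpa only [min_self] using hΦ t t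
  have pair : ∀ t t', ∃ z, Φ t z ≤ R1 ∧ Φ t' z ≤ R1 := fun t t' => by
    obtain ⟨b, e1⟩ := hM t
    obtain ⟨b', e2⟩ := hM t'
    obtain ⟨q, ⟨e3, e4⟩, e5⟩ := nst_ex (U := fun v => Bt G b v b' ∧ Φ t v ≤ Q) c.conn
      ⟨b, by rw [Bt, pm.self, zero_add], e1.trans h1⟩ b'
    rcases le_total (gd G q b') 1 with h | h
    · exact ⟨b', h4 _ (hF t) q b' h e4, e2.trans (h1.trans h3)⟩
    obtain ⟨q1, e6, e7⟩ := bt_pt c.conn q b' 1 (by exact_mod_cast h)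
    rw [Nat.cast_one] at e7
    have e8 := (e3.right c.conn e6).1
    refine ⟨q1, h4 _ (hF t) q q1 e7.le e4, ((min_le_iff.1 (h2 _ (hΦ t t') b q1 b' e8
      ((min_le_left _ _).trans e1) ((min_le_right _ _).trans e2))).resolve_left
      fun e9 => ?_).trans h3⟩
    unfold Bt at e6
    linarith [e5 q1 ⟨e8, e9⟩, pm.symm q b', pm.symm q1 b']
  obtain ⟨p⟩ := c.conn.nonempty
  choose q hq using fun t => nst_ex (U := fun b => Φ t b ≤ R1) c.conn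
    ((hM t).imp fun b e => e.trans (h1.trans h3)) p
  obtain ⟨A, hA⟩ := hA p
  obtain ⟨N, hN⟩ := fl_near c (max A R1)
  have hB : BddAbove (Set.range fun t => G.dist p (q t)) := ⟨⌈N⌉₊, by
    rintro _ ⟨t, rfl⟩
    exact Nat.cast_le.1 ((hN _ (hF t) R1 p _ (h1.trans h3) (le_max_right _ _)
      ((hA t).trans (le_max_left _ _)) (hq t)).trans (Nat.le_ceil N))⟩
  obtain ⟨t0, h0⟩ := Nat.sSup_mem (Set.range_nonempty _) hB
  refine ⟨q t0, fun t => ?_⟩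
  have e0 : gd G p (q t) ≤ gd G p (q t0) := Nat.cast_le.2 ((le_csSup hB ⟨t, rfl⟩).trans h0.ge)
  obtain ⟨z, e1, e2⟩ := pair t0 t
  have e3 := hC _ (hF t0) R1 p _ z (h1.trans h3) le_rfl e1 (hq t0)
  have e4 := hC _ (hF t) R1 p _ z (h1.trans h3) le_rfl e2 (hq t)
  have e5 : gd G p (q t) - C ≤ min (gp (gd G) p (q t0) z) (gp (gd G) p z (q t)) :=
    le_min (by linarith [cgp_add pm p (q t0) z, cgp_add pm (q t0) p z, pm.symm p (q t0)])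
      (by linarith [cgp_symm pm p z (q t), cgp_add pm (q t) p z, pm.symm p (q t)])
  have e6 := c.hyp p (q t0) z (q t)
  obtain ⟨y, e7, e8⟩ := near_geo c.conn c.hyp (q t) z (q t0)
  refine h6 _ (hF t) y _ ?_ (h5 _ (hF t) _ y z e7 (hq t).1 e2)
  replace e6 := (sub_le_sub_right e5 δ).trans e6
  unfold gp at e3 e6 e8
  linarith [pm.symm y (q t0), pm.symm p (q t0), pm.symm p (q t), pm.symm (q t) (q t0),
    pm.tri p (q t) z]

end Pool.Agent.E5f.Cb
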