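import Pool.Agent.E5f.CombC

/-! Stability of the guessed geodesics. -/

set_option autoImplicit false

namespace Pool.Agent.E5f.Cb

variable {P B : Type} {G : SimpleGraph B} {D : B → P → P → ℝ}

theorem base_CombS {X : Type} {d : X → X → ℝ} (h : PM d) {b w a a' : X} {e : ℝ}
    (h1 : d b w + d w a' = d b a') (h2 : gp d b a a' ≤ e) :
    gp d w a a' ≤ e ∧ d b w - 2 * e ≤ d a w := by
  have t1 := h.tri a b w
  have t2 := h.tri a w a'
  have t3 := pm_nonneg h a b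
  have s1 := h.symm a' b
  have s2 := h.symm a' w
  unfold gp at h2 ⊢
  constructor <;> linarith

theorem fib_CombS {X : Type} {d : X → X → ℝ} {δ c0 Q : ℝ} (h : PM d) (hh : Hyp d δ)
    {u v x y z : X} (h0 : gp d u x y ≤ c0) (h1 : gp d v u x ≤ Q) (h2 : gp d v u z ≤ Q)
    (h3 : y = z ∨ c0 + δ < gp d u y z) : d u v ≤ c0 + 2 * δ + Q := by
  have hδ := hyp_nonneg hh u
  have h4 : gp d u x z ≤ c0 + δ := by
    rcases h3 with rfl | h3
    · linarith
    · have := hh u x z y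
      rw [cgp_symm h u z y] at this
      rcases min_cases (gp d u x z) (gp d u y z) with h5 | h5 <;> linarith [h5.1, h5.2]
  have h5 := cgp_add h u v x
  have h6 := cgp_add h u v z
  have h7 := hh u x v z
  rw [cgp_symm h u x v] at h7
  rcases min_cases (gp d u v x) (gp d u v z) with h8 | h8 <;> linarith [h8.1, h8.2]

/-- (S) -/
theorem stab (c : Cx G D) (C3 : ℝ) : ∃ cS R9 : ℝ, ∀ s s' (X Y Z : P × B) a e a' e' b, c.S s →
    c.S s' → (∀ b', gp (D b') (s b') X.1 Y.1 ≤ c.c0) → c.Pr s X a → c.Pr s Y e → c.Pr s' X a' →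
    c.Pr s' Z e' → Bt G a b e → D b (s b) (s' b) ≤ C3 →
    (Y = Z ∨ R9 ≤ gp (D b) (s b) Y.1 Z.1) → gp (gd G) b a' e' ≤ cS := by
  obtain ⟨N, Q, hy⟩ := core_y c C3
  obtain ⟨Q2, hQ, hQ2⟩ := fl_lm c.fc Q (4 * c.δ)
  obtain ⟨ρ, R8, hcl⟩ := close_near c (c.c0 + 2 * c.δ + Q2) (2 * c.δ)
  obtain ⟨T, hT⟩ := exists_nat_gt (ρ + 4 * c.δ)
  obtain ⟨R', -, hR'⟩ := fl_lm c.fc (max R8 (c.c0 + c.δ)) T
  refine ⟨max N (T + |ρ| + 2 * c.δ), R' + 1, ?_⟩
  intro s s' X Y Z a e a' e' b hs hs' hc ha he ha' he' hb hD hYZ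
  have pm := c.pmB
  have hG := c.h.conn
  have hδ := c.δ0
  have hρ := le_abs_self ρ
  have hρ0 := abs_nonneg ρ
  have hT0 : (0 : ℝ) ≤ T := T.cast_nonneg
  by_contra hn
  rw [not_le, max_lt_iff] at hn
  obtain ⟨hN, hn⟩ := hn
  have l1 := cgp_le_left pm b a' e'
  have l2 := cgp_le_right pm b a' e'
  have hph : ∀ x, phi D s' x s b ≤ C3 := fun x =>
    (cgp_le_left (c.h.pm b) _ _ _).trans (((c.h.pm b).symm _ _).trans_le hD)
  have y1 := (hy s' s X.1 b a' hs' hs (hph _) ha'.1).resolve_left (by linarith)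
  have y2 := (hy s' s Z.1 b e' hs' hs (hph _) he'.1).resolve_left (by linarith)
  obtain ⟨w1, b1, d1⟩ := bt_pt hG b a' T (by linarith)
  obtain ⟨w2, b2, d2⟩ := bt_pt hG b e' T (by linarith)
  have f12 : gd G w1 w2 ≤ 4 * c.δ := fellow hG c.h.hypB b1 b2 (d1.trans d2.symm) (by
    rw [cgp_symm pm b e' a']
    linarith)
  have key : ∀ w, gd G b w = T → phi D s' X.1 s w ≤ Q2 → phi D s' Z.1 s w ≤ Q2 →
      D w (s w) (s' w) ≤ c.c0 + 2 * c.δ + Q2 ∧ (Y = Z ∨ R8 ≤ gp (D w) (s w) Y.1 Z.1) := by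
    intro w hw p1 p2
    have : Y = Z ∨ max R8 (c.c0 + c.δ) < gp (D w) (s w) Y.1 Z.1 := hYZ.imp_right fun h => by
      by_contra h'
      have := hR' _ (c.fl1 Z.1 hs (c.const Y.1)) w b ((pm.symm _ _).trans hw).le (not_lt.1 h')
      unfold phi at this
      linarith
    exact ⟨fib_CombS (c.h.pm w) (c.h.hyp w) (hc w) p1 p2
      (this.imp (congrArg Prod.fst) fun h => (le_max_right _ _).trans_lt h),
      this.imp_right fun h => ((le_max_left _ _).trans_lt h).le⟩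
  have k1 := key w1 d1 ((y1 w1 b1).trans hQ)
    (hQ2 _ (c.fl1 Z.1 hs' hs) w2 w1 ((pm.symm _ _).trans_le f12) (y2 w2 b2))
  have k2 := key w2 d2 (hQ2 _ (c.fl1 X.1 hs' hs) w1 w2 f12 (y1 w1 b1)) ((y2 w2 b2).trans hQ)
  have g0 := hb.gp_zero hG
  have g1 := c.h.hypB b a a' e
  have g2 := c.h.hypB b a' e' e
  unfold Bt at b1 b2
  by_cases h1 : gp (gd G) b a a' ≤ 2 * c.δ
  · obtain ⟨q1, q2⟩ := base_CombS pm b1 h1
    rcases hcl s s' X X a a' w1 hs hs' ha ha' q1 k1.1 (Or.inl rfl) with h | h <;> linarith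
  · have h2 : gp (gd G) b e e' ≤ 2 * c.δ := by
      rw [cgp_symm pm b e' e] at g2
      rcases min_cases (gp (gd G) b a a') (gp (gd G) b a' e) with h3 | h3 <;>
        rcases min_cases (gp (gd G) b a' e') (gp (gd G) b e e') with h4 | h4 <;>
        linarith [h3.1, h3.2, h4.1, h4.2]
    obtain ⟨q1, q2⟩ := base_CombS pm b2 h2
    rcases hcl s s' Y Z e e' w2 hs hs' he he' q1 k2.1 k2.2 with h | h <;> linarith

end Pool.Agent.E5f.Cb
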