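import Pool.Agent.E5f.CombNP

/-! Sections and the choice of the constants. -/

set_option autoImplicit false

namespace Pool.Agent.E5f.Cb

variable {P B : Type} {G : SimpleGraph B} {D : B → P → P → ℝ} {δ κ K M : ℝ} {n : ℕ}

theorem lip_m (h : CombHyp G D δ κ K n M) (m : ℝ) : ∃ K', 1 ≤ K' ∧ ∀ b b', gd G b b' ≤ m →
    ∀ x y, D b' x y ≤ K' * D b x y + K' := by
  have hK := h.K1
  have h1 : ∀ j : ℕ, 1 ≤ (2 * K) ^ j := fun j => one_le_pow₀ (by linarith)
  refine ⟨(2 * K) ^ ⌈m⌉₊, h1 _, fun b b' hb x y => ?_⟩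
  have h0 := fun b => pm_nonneg (h.pm b) x y
  have h2 := dist_ind h.conn b (fun j b' => D b' x y + 1 ≤ (2 * K) ^ j * (D b x y + 1))
    (fun j => le_mul_of_one_le_left (by linarith [h0 b]) (h1 j)) (fun j b1 b2 ih hadj => by
      have a1 := h.lip b1 b2 hadj x y
      have a2 := mul_le_mul_of_nonneg_left ih (show 0 ≤ 2 * K by linarith)
      have a3 := mul_nonneg (show 0 ≤ K by linarith) (h0 b1)
      rw [pow_succ', mul_assoc (2 * K)]
      linarith) _ b' (hb.trans (Nat.le_ceil m))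
  linarith

theorem sec_m (h : CombHyp G D δ κ K n M) (k m : ℝ) : ∃ k', 0 ≤ k' ∧ ∀ s, Sec G D k s →
    ∀ b b', gd G b b' ≤ m → D b' (s b) (s b') ≤ k' := by
  have hK := h.K1
  have h1 : ∀ j : ℕ, 1 ≤ (3 * K) ^ j := fun j => one_le_pow₀ (by linarith)
  have c1 := le_max_left k 1
  have c2 := le_max_right k 1
  generalize max k 1 = c at c1 c2
  refine ⟨(3 * K) ^ ⌈m⌉₊ * c, mul_nonneg (by linarith [h1 ⌈m⌉₊]) (by linarith),
    fun s hs b b' hb => ?_⟩
  have h2 := dist_ind h.conn b (fun j b' => D b' (s b) (s b') + c ≤ (3 * K) ^ j * c)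
    (fun j => by
      rw [(h.pm b).self, zero_add]
      exact le_mul_of_one_le_left (by linarith) (h1 j)) (fun j b1 b2 ih hadj => by
      have a1 := h.lip b1 b2 hadj (s b) (s b1)
      have a2 := mul_le_mul_of_nonneg_left ih (show 0 ≤ 3 * K by linarith)
      have a3 := mul_nonneg (show 0 ≤ K by linarith) (pm_nonneg (h.pm b1) (s b) (s b1))
      have a4 := (h.pm b2).tri (s b) (s b1) (s b2)
      have a5 := hs b1 b2 hadj
      have a6 := mul_nonneg (sub_nonneg.2 hK) (show 0 ≤ c by linarith)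
      have a7 := mul_nonneg (show 0 ≤ K by linarith) (sub_nonneg.2 c2)
      rw [pow_succ', mul_assoc (3 * K)]
      linarith) _ b' (hb.trans (Nat.le_ceil m))
  linarith

theorem btw_m (h : CombHyp G D δ κ K n M) (c m : ℝ) : ∃ c', ∀ b b', gd G b b' ≤ m →
    ∀ s x y, gp (D b) s x y ≤ c → gp (D b') s x y ≤ c' := by
  obtain ⟨K', -, hK⟩ := lip_m h m
  obtain ⟨c', hc⟩ := trans_btw δ κ K' c
  exact ⟨c', fun b b' hb => hc _ _ (h.pm b) (h.hyp b) (h.rg b) (h.pm b') (h.hyp b') (h.rg b')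
    (hK b b' hb) (hK b' b (((gd_pm h.conn).symm b' b).trans_le hb))⟩

/-- The distance between two sections. -/
theorem sec_sec (h : CombHyp G D δ κ K n M) (k C m : ℝ) : ∃ C', ∀ s s', Sec G D k s →
    Sec G D k s' → ∀ b b', gd G b b' ≤ m → D b (s b) (s' b) ≤ C → D b' (s b') (s' b') ≤ C' := by
  obtain ⟨K', h1, hK⟩ := lip_m h m
  obtain ⟨k', -, hk⟩ := sec_m h k m
  refine ⟨K' * C + K' + 2 * k', fun s s' hs hs' b b' hb hC => ?_⟩
  have a1 := hK b b' hb (s b) (s' b)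
  have a2 := hk s hs b b' hb
  have a3 := hk s' hs' b b' hb
  have a4 := (h.pm b').tri (s b') (s b) (s' b')
  have a5 := (h.pm b').tri (s b) (s' b) (s' b')
  have a6 := (h.pm b').symm (s b') (s b)
  have a7 := mul_le_mul_of_nonneg_left hC (show 0 ≤ K' by linarith)
  linarith

theorem ctr_ex (h : CombHyp G D δ κ K n M) : ∃ c0 k0 : ℝ, 0 ≤ c0 ∧ 0 ≤ k0 ∧
    ∀ x y z, ∃ m, Sec G D k0 m ∧ ∀ b, gp (D b) (m b) x y ≤ c0 ∧ gp (D b) (m b) y z ≤ c0 ∧
      gp (D b) (m b) x z ≤ c0 := by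
  obtain ⟨c, hc⟩ := centre_ex δ κ
  obtain ⟨c2, h2⟩ := trans_btw δ κ K c
  obtain ⟨C, hC⟩ := centre_uniq δ (max c c2)
  refine ⟨max c 0, max C 0, le_max_right _ _, le_max_right _ _, fun x y z => ?_⟩
  choose m m1 m2 m3 using fun b => hc (D b) (h.pm b) (h.hyp b) (h.rg b) x y z
  refine ⟨m, fun b b' hb => le_max_of_le_left ?_, fun b =>
    ⟨le_max_of_le_left (m1 b), le_max_of_le_left (m2 b), le_max_of_le_left (m3 b)⟩⟩
  have h3 := h2 _ _ (h.pm b) (h.hyp b) (h.rg b) (h.pm b') (h.hyp b') (h.rg b') (h.lip b b' hb)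
    (h.lip b' b hb.symm) (m b)
  exact hC _ (h.pm b') (h.hyp b') x y z _ _ (le_max_of_le_right (h3 _ _ (m1 b)))
    (le_max_of_le_right (h3 _ _ (m2 b))) (le_max_of_le_right (h3 _ _ (m3 b)))
    (le_max_of_le_left (m1 b')) (le_max_of_le_left (m2 b')) (le_max_of_le_left (m3 b'))

theorem fl2_ex (h : CombHyp G D δ κ K n M) (k0 : ℝ) : ∃ CL M1 : ℝ, 0 ≤ CL ∧ 0 < M1 ∧
    ∀ s t t' x, Sec G D k0 s → Sec G D k0 t → Sec G D k0 t' →
      Fl G K CL n M1 fun b => min (phi D s x t b) (phi D s x t' b) := by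
  have hK := h.K1
  have hκ := h.κ0
  have hδ := hyp_nonneg h.hypB h.conn.nonempty.some
  obtain ⟨C, hC⟩ := trans_gp δ κ K (by linarith)
  obtain ⟨c2, h2⟩ := btw_m h (2 * κ + δ) n
  obtain ⟨k2, -, hk⟩ := sec_m h k0 n
  refine ⟨max 0 (C + 2 * k0), max 1 (max (M + κ) (2 * (2 * κ + c2 + δ + 2 * k2))),
    le_max_left _ _, lt_max_of_lt_left one_pos, fun s t t' x hs ht ht' =>
      ⟨fun b b' hb => ?_, fun a b c hab hbc hac hM => ?_⟩⟩
  · have h1 : ∀ t, Sec G D k0 t → phi D s x t b' ≤ K * phi D s x t b + max 0 (C + 2 * k0) :=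
      fun t ht => by
        have a1 := hC _ _ (h.pm b) (h.hyp b) (h.rg b) (h.pm b') (h.hyp b') (h.rg b')
          (h.lip b b' hb) (h.lip b' b hb.symm) (s b) (t b) x
        have a2 := cgp_base (h.pm b') (s b) (s b') (t b') x
        have a3 := cgp_left (h.pm b') (s b) (t b) (t b') x
        have a4 := le_max_right 0 (C + 2 * k0)
        unfold phi
        linarith [hs b b' hb, ht b b' hb]
    rcases min_choice (phi D s x t b) (phi D s x t' b) with e | e <;> rw [e]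
    exacts [min_le_of_left_le (h1 t ht), min_le_of_right_le (h1 t' ht')]
  · simp only [max_lt_iff] at hM
    obtain ⟨m1, m2, m3⟩ := hM
    have l1 := min_le_left (phi D s x t b) (phi D s x t' b)
    have l2 := min_le_right (phi D s x t b) (phi D s x t' b)
    generalize min (phi D s x t b) (phi D s x t' b) = ψ at m1 m2 m3 l1 l2 ⊢
    obtain ⟨u, u1, u2, u3, -, u5⟩ := rg_pt (h.pm b) (h.rg b) (s b) x (σ := ψ) (by linarith)
      (l1.trans (cgp_le_right (h.pm b) _ _ _))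
    have key : ∀ t, Sec G D k0 t → ψ ≤ phi D s x t b → ∀ e, gd G b e ≤ n →
        D e (s b) u - c2 - δ - 2 * k2 ≤ phi D s x t e := fun t ht l e he => by
      unfold phi at l ⊢
      have a1 : ψ - κ ≤ min (gp (D b) (s b) u x) (gp (D b) (s b) x (t b)) :=
        le_min u3 (by rw [cgp_symm (h.pm b)]; linarith)
      have a2 := h.hyp b (s b) u x (t b)
      have a3 := cgp_add (h.pm b) (s b) u (t b)
      have a4 := h2 b e he u (s b) (t b) (by linarith)
      have a5 := h2 b e he u (s b) x (by linarith)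
      have a6 := cgp_add (h.pm e) (s b) u (t b)
      have a7 := cgp_add (h.pm e) (s b) u x
      have a8 : D e (s b) u - c2 ≤ min (gp (D e) (s b) (t b) u) (gp (D e) (s b) u x) :=
        le_min (by rw [cgp_symm (h.pm e)]; linarith) (by linarith)
      have a9 := h.hyp e (s b) (t b) u x
      have b1 := cgp_base (h.pm e) (s e) (s b) (t b) x
      have b2 := cgp_left (h.pm e) (s e) (t e) (t b) x
      have b3 := (h.pm e).symm (s e) (s b)
      have b4 := (h.pm e).symm (t e) (t b)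
      linarith [hk s hs b e he, hk t ht b e he]
    obtain ⟨γ, g0, g1, g2, g3⟩ := gseg_three h.conn (a := a) (b := b) (c := c) (by
      rw [Bt, hab, hbc, hac, two_mul])
    have d1 : G.dist a b = n := Nat.cast_injective (R := ℝ) hab
    have d2 : G.dist a c = 2 * n := Nat.cast_injective (R := ℝ) (by push_cast; exact hac)
    rw [d1] at g1
    rw [d2] at g2 g3
    have hf := h.fl γ g3 (s b) u (by rw [g1]; linarith)
    rw [g0, g1, g2] at hf
    have ha : gd G b a ≤ n := (((gd_pm h.conn).symm b a).trans hab).le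
    rcases le_max_iff.1 hf with e | e
    · exact le_max_of_le_left (le_min (by linarith [key t ht l1 a ha])
        (by linarith [key t' ht' l2 a ha]))
    · exact le_max_of_le_right (le_min (by linarith [key t ht l1 c hbc.le])
        (by linarith [key t' ht' l2 c hbc.le]))

theorem cx_ex (h : CombHyp G D δ κ K n M) (r : ℝ) :
    ∃ c : Cx G D, c.κ = κ ∧ r + 2 * c.c0 ≤ c.R := by
  obtain ⟨c0, k0, h1, h2, h3⟩ := ctr_ex h
  obtain ⟨CL, M1, h4, h5, h6⟩ := fl2_ex h k0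
  have fc : FlCx G δ K CL n M1 := ⟨h.conn, h.hypB, h.K1, h4, h.n1, h5⟩
  obtain ⟨R, hR⟩ := fl_helly fc
  refine ⟨⟨δ, κ, K, n, M, h, c0, k0, CL, M1, max R (max M1 (r + 2 * c0)), h1, h2, fc, h3, h6,
    le_max_of_le_right (le_max_left _ _), fun s x hs => ?_⟩, rfl,
    le_max_of_le_right (le_max_right _ _)⟩
  haveI : Nonempty {t // Sec G D k0 t ∧ ∃ b, phi D s x t b ≤ M1} :=
    ⟨⟨s, hs, h.conn.nonempty.some, (cgp_self (h.pm _) _ _).trans_le h5.le⟩⟩
  obtain ⟨q, hq⟩ := hR {t // Sec G D k0 t ∧ ∃ b, phi D s x t b ≤ M1} (fun t => phi D s x t.1)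
    (fun t t' => h6 s _ _ x hs t.2.1 t'.2.1) (fun t => t.2.2)
    fun b => ⟨_, fun t => cgp_le_right (h.pm b) _ _ _⟩
  exact ⟨q, fun t a1 a2 => le_max_of_le_left (hq ⟨t, a1, a2⟩)⟩

end Pool.Agent.E5f.Cb
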