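import Pool.Agent.E5f.EndDefs
import Pool.Agent.E5f.HypGuess

/-! Elementary facts: pseudo-metrics, trees, betweenness, the degree. -/

set_option autoImplicit false

namespace Pool.Agent.E5f

section
variable {X : Type} {d dv dh : X → X → ℝ} {w w' x x' y y' r a b o : X}

theorem PM.nonneg_E (h : PM d) (x y : X) : 0 ≤ d x y := by
  have := h.tri x y x
  rw [h.self, h.symm y x] at this
  linarith

theorem gp_symm_E (h : PM d) (w x y : X) : gp d w x y = gp d w y x := by
  simp only [gp, h.symm y x]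
  ring

theorem PM.gp_nonneg_E (h : PM d) (w x y : X) : 0 ≤ gp d w x y := by
  have := h.tri x w y
  simp only [gp, h.symm y w]
  linarith

theorem PM.gp_le_E (h : PM d) (w x y : X) : gp d w x y ≤ d w x := by
  have := h.tri y x w
  simp only [gp, h.symm x y, h.symm w x]
  linarith

theorem PM.gp_base_E (h : PM d) (w w' x y : X) : gp d w x y ≤ gp d w' x y + d w w' := by
  have := h.tri x w' w
  have := h.tri y w' w
  simp only [gp, h.symm w w']
  linarith

theorem PM.gp_left_E (h : PM d) (w x x' y : X) : gp d w x y ≤ gp d w x' y + d x x' := by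
  have := h.tri x x' w
  have := h.tri x' x y
  have := h.symm x x'
  simp only [gp]
  linarith

theorem PM.gp_right_E (h : PM d) (w x y y' : X) : gp d w x y ≤ gp d w x y' + d y y' := by
  have := h.tri y y' w
  have := h.tri x y y'
  simp only [gp]
  linarith

theorem PM.gp_add_E (h : PM d) (w x y : X) : gp d w x y + gp d x w y = d w x := by
  have := h.symm x w
  have := h.symm y w
  have := h.symm y x
  simp only [gp]
  linarith

theorem PM.congr_E (h : PM d) (h0 : d x x' = 0) (y : X) : d x y = d x' y := by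
  have := h.tri x x' y
  have := h.tri x' x y
  have := h.symm x x'
  linarith

theorem PM.congr'_E (h : PM d) (h0 : d y y' = 0) (x : X) : d x y = d x y' := by
  rw [h.symm x y, h.symm x y']
  exact h.congr_E h0 x

theorem PM.on_iff (h : PM d) : On d x r y ↔ gp d r x y = 0 := by
  have := h.symm y r
  simp only [On, gp]
  constructor <;> intro h1 <;> linarith

theorem On.symm (h : PM d) (h1 : On d x r y) : On d y r x := by
  have := h.symm y r
  have := h.symm r x
  have := h.symm y x
  simp only [On] at h1 ⊢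
  linarith

theorem On.gp_le (h : PM d) (h1 : On d x r y) (w : X) : gp d w x y ≤ d w r := by
  have := h.gp_base_E w r x y
  rw [h.on_iff.1 h1] at this
  linarith

theorem On.trans_left (h : PM d) (h1 : On d x a b) (h2 : On d x b y) :
    On d x a y ∧ On d a b y := by
  have := h.tri a b y
  have := h.tri x a y
  simp only [On] at h1 h2 ⊢
  constructor <;> linarith

theorem On.trans_right (h : PM d) (h1 : On d x a y) (h2 : On d a b y) :
    On d x b y ∧ On d x a b := by
  have := h.tri x a b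
  have := h.tri x b y
  simp only [On] at h1 h2 ⊢
  constructor <;> linarith

theorem On.of_zero (h : PM d) (h1 : On d x r y) (h0 : d r a = 0) : On d x a y := by
  simp only [On] at h1 ⊢
  rw [← h.congr_E h0 y, ← h.congr'_E h0 x]
  exact h1

/-- In a tree, the middle part of a segment lies on a longer segment. -/
theorem On.tree (h : PM d) (ht : Hyp d 0) (h1 : On d x r y) (hx : gp d x x' y' ≤ d x r)
    (hy : gp d y x' y' ≤ d y r) : On d x' r y' := by
  rw [h.on_iff] at h1 ⊢
  refine le_antisymm (not_lt.1 fun hp => ?_) (h.gp_nonneg_E _ _ _)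
  have key : ∀ u, gp d u x' y' ≤ d u r → gp d r u x' ≤ 0 → False := by
    intro u hu h2
    have h3 := ht r u y' x'
    rw [gp_symm_E h r y' x'] at h3
    have h4 : gp d r u y' ≤ 0 := by
      rcases le_total (gp d r u y') (gp d r x' y') with k | k
      · rw [min_eq_left k] at h3
        linarith
      · rw [min_eq_right k] at h3
        linarith
    have a1 := h.tri u r x'
    have a2 := h.tri u r y'
    have := h.symm x' r
    have := h.symm y' r
    have := h.symm x' u
    have := h.symm y' u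
    simp only [gp] at hu h2 h4 hp
    linarith
  have h5 := ht r x x' y
  rcases le_total (gp d r x x') (gp d r x' y) with k | k
  · rw [min_eq_left k] at h5
    exact key x hx (by linarith)
  · rw [min_eq_right k, gp_symm_E h r x' y] at h5
    exact key y hy (by linarith)

theorem On.tree_right (h : PM d) (ht : Hyp d 0) (h1 : On d o r y) (h2 : d o r ≤ gp d o y y') :
    On d o r y' := by
  rw [h.on_iff] at h1 ⊢
  refine le_antisymm ?_ (h.gp_nonneg_E _ _ _)
  have h5 := ht r o y' y
  rcases le_total (gp d r o y') (gp d r y' y) with k | k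
  · rw [min_eq_left k] at h5
    linarith
  · rw [min_eq_right k] at h5
    have := h.symm y o
    have := h.symm y' o
    have := h.symm y y'
    simp only [gp] at h1 h2 h5 ⊢
    linarith

theorem On.tree_left (h : PM d) (ht : Hyp d 0) (h1 : On d x r y) (h2 : gp d x x' y ≤ d x r) :
    On d x' r y := by
  refine h1.tree h ht h2 ?_
  have := h.gp_le_E y y x'
  rw [h.self, gp_symm_E h] at this
  exact this.trans (h.nonneg_E _ _)

theorem On.dist_eq (h : PM d) (ht : Hyp d 0) (h1 : On d x a y) (h2 : On d x b y) :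
    d a b = |d x a - d x b| := by
  have h5 := ht x a y b
  have t1 := h.tri x a b
  have t2 := h.tri x b a
  have := h.symm a x
  have := h.symm b x
  have := h.symm y x
  have := h.symm y b
  have := h.symm a b
  simp only [On] at h1 h2
  rcases le_total (gp d x a y) (gp d x y b) with k | k
  · rw [min_eq_left k] at h5
    simp only [gp] at h5 k
    rw [abs_of_nonpos (by linarith)]
    linarith
  · rw [min_eq_right k] at h5
    simp only [gp] at h5 k
    rw [abs_of_nonneg (by linarith)]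
    linarith

theorem On.order (h : PM d) (ht : Hyp d 0) (h1 : On d x a y) (h2 : On d x b y)
    (hab : d x a ≤ d x b) : On d x a b ∧ On d a b y := by
  have h3 := h1.dist_eq h ht h2
  rw [abs_of_nonpos (by linarith)] at h3
  simp only [On] at h1 h2 ⊢
  constructor <;> linarith

theorem Btw.symm_E (h : BiTree dv dh) (h1 : Btw dv dh x r y) : Btw dv dh y r x := by
  exact ⟨On.symm h.pv h1.1, On.symm h.ph h1.2⟩

theorem Btw.swap_E (h1 : Btw dv dh x r y) : Btw dh dv x r y := by
  exact ⟨h1.2, h1.1⟩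

theorem Btw.trans_left (h : BiTree dv dh) (h1 : Btw dv dh x a b) (h2 : Btw dv dh x b y) :
    Btw dv dh x a y ∧ Btw dv dh a b y := by
  have a := On.trans_left h.pv h1.1 h2.1
  have b := On.trans_left h.ph h1.2 h2.2
  exact ⟨⟨a.1, b.1⟩, a.2, b.2⟩

theorem Btw.trans_right (h : BiTree dv dh) (h1 : Btw dv dh x a y) (h2 : Btw dv dh a b y) :
    Btw dv dh x b y ∧ Btw dv dh x a b := by
  have a := On.trans_right h.pv h1.1 h2.1
  have b := On.trans_right h.ph h1.2 h2.2
  exact ⟨⟨a.1, b.1⟩, a.2, b.2⟩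

theorem BiTree.geoV (h : BiTree dv dh) (p q : X) {s : ℝ} (h0 : 0 ≤ s) (h1 : s ≤ dv p q) :
    ∃ r, Btw dv dh p r q ∧ dv p r = s := by
  simpa using h.geo 1 0 p q s zero_le_one le_rfl h0 (by simpa using h1)

theorem BiTree.geoH (h : BiTree dv dh) (p q : X) {s : ℝ} (h0 : 0 ≤ s) (h1 : s ≤ dh p q) :
    ∃ r, Btw dv dh p r q ∧ dh p r = s := by
  simpa using h.geo 0 1 p q s le_rfl zero_le_one h0 (by simpa using h1)

end

variable {Q : Type} [MulAction G8 Q]

theorem Base.lam_pos (S : Base Q) (t : ℤ) : 0 < S.lam ^ t := by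
  exact zpow_pos (zero_lt_one.trans S.lam1) t

theorem Base.lam_mono (S : Base Q) {s t : ℤ} (h : s ≤ t) : S.lam ^ s ≤ S.lam ^ t := by
  exact zpow_le_zpow_right₀ S.lam1.le h

theorem Base.lam_add (S : Base Q) (s t : ℤ) : S.lam ^ (s + t) = S.lam ^ s * S.lam ^ t := by
  exact zpow_add₀ (zero_lt_one.trans S.lam1).ne' s t

theorem Base.lam_big (S : Base Q) (A : ℝ) : ∃ b : ℤ, 0 ≤ b ∧ A ≤ S.lam ^ b := by
  obtain ⟨n, hn⟩ := pow_unbounded_of_one_lt A S.lam1
  exact ⟨n, Int.natCast_nonneg n, by rw [zpow_natCast]; exact hn.le⟩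

theorem Base.dg_one (S : Base Q) : S.dg 1 = 0 := by
  have := S.dg_mul 1 1
  rw [mul_one] at this
  omega

theorem Base.dg_inv (S : Base Q) (γ : G8) : S.dg γ⁻¹ = -S.dg γ := by
  have := S.dg_mul γ γ⁻¹
  rw [mul_inv_cancel, S.dg_one] at this
  omega

theorem Base.exists_deg (S : Base Q) (k : ℤ) : ∃ m : ℤ, S.dg (g8t ^ m) = k := by
  have key : ∀ m : ℤ, S.dg (g8t ^ m) = m * S.dg g8t := by
    intro m
    induction m using Int.induction_on with
    | zero => simp [S.dg_one]
    | succ n ih => rw [zpow_add_one, S.dg_mul, ih]; ring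
    | pred n ih => rw [zpow_sub_one, S.dg_mul, ih, S.dg_inv]; ring
  rcases S.dg_t with h | h
  · exact ⟨k, by rw [key, h, mul_one]⟩
  · exact ⟨-k, by rw [key, h]; ring⟩

theorem Base.fix_pow (S : Base Q) (m : ℤ) :
    S.dv (g8t ^ m • S.P0) S.P0 = 0 ∧ S.dh (g8t ^ m • S.P0) S.P0 = 0 := by
  induction m using Int.induction_on with
  | zero => simp [S.bi.pv.self, S.bi.ph.self]
  | succ n ih =>
    rw [zpow_add_one, mul_smul]
    constructor
    · rw [S.bi.pv.congr_E (x' := g8t ^ (n : ℤ) • S.P0) (by rw [S.sv, S.fix_t.1, mul_zero]), ih.1]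
    · rw [S.bi.ph.congr_E (x' := g8t ^ (n : ℤ) • S.P0) (by rw [S.sh, S.fix_t.2, mul_zero]), ih.2]
  | pred n ih =>
    have e : g8t ^ (-(n : ℤ)) = g8t ^ (-(n : ℤ) - 1) * g8t := by rw [← zpow_add_one]; simp
    rw [e, mul_smul] at ih
    constructor
    · rw [← S.bi.pv.congr_E (x := g8t ^ (-(n : ℤ) - 1) • g8t • S.P0)
        (by rw [S.sv, S.fix_t.1, mul_zero]), ih.1]
    · rw [← S.bi.ph.congr_E (x := g8t ^ (-(n : ℤ) - 1) • g8t • S.P0)
        (by rw [S.sh, S.fix_t.2, mul_zero]), ih.2]

theorem Base.noRect (S : Base Q) : ∃ L : ℝ, 0 < L ∧ ∀ k : ℤ,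
    NoRect S.dv S.dh (S.lam ^ (-k) * L) (S.lam ^ k * L) := by
  obtain ⟨L, h0, h⟩ := S.nr
  refine ⟨L, h0, fun k a b c d h1 h2 h3 h4 h5 h6 => ?_⟩
  obtain ⟨m, hm⟩ := S.exists_deg k
  have e : S.lam ^ k * S.lam ^ (-k) = 1 := by rw [← S.lam_add, add_neg_cancel, zpow_zero]
  refine h (g8t ^ m • a) (g8t ^ m • b) (g8t ^ m • c) (g8t ^ m • d) (by rw [S.sh, h1, mul_zero])
    (by rw [S.sh, h2, mul_zero]) (by rw [S.sv, h3, mul_zero]) (by rw [S.sv, h4, mul_zero]) ?_ ?_
  · rw [S.sv, hm]
    have := mul_le_mul_of_nonneg_left h5 (S.lam_pos k).le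
    rwa [← mul_assoc, e, one_mul] at this
  · rw [S.sh, hm]
    have := mul_le_mul_of_nonneg_left h6 (S.lam_pos (-k)).le
    rwa [← mul_assoc, mul_comm (S.lam ^ (-k)), e, one_mul] at this

theorem Base.dv_le_D (S : Base Q) (t : ℤ) (p q : Q) : S.lam ^ t * S.dv p q ≤ S.D t p q := by
  exact le_add_of_nonneg_right (mul_nonneg (S.lam_pos _).le (S.bi.ph.nonneg_E _ _))

theorem Base.dh_le_D (S : Base Q) (t : ℤ) (p q : Q) : S.lam ^ (-t) * S.dh p q ≤ S.D t p q := by
  exact le_add_of_nonneg_left (mul_nonneg (S.lam_pos _).le (S.bi.pv.nonneg_E _ _))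

theorem Seq.a_pos {S : Base Q} (Z : Seq S) (j : ℤ) : 0 < Z.a j := by
  exact S.lam_pos _

theorem Seq.a_zero {S : Base Q} (Z : Seq S) : Z.a 0 = 1 := by
  rw [Seq.a, Z.τ0, zpow_zero]

theorem Seq.a_swap {S : Base Q} (Z : Seq S) (j : ℤ) : Z.swap.a j = (Z.a j)⁻¹ := by
  exact zpow_neg _ _

/-- The two components of a bound for the metric at the height of index `j`. -/
theorem Seq.of_D {S : Base Q} (Z : Seq S) {j : ℤ} {p v : Q} {C : ℝ}
    (h : S.D (Z.τ j) p v ≤ C) : Z.a j * S.dv p v ≤ C ∧ S.dh p v ≤ C * Z.a j := by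
  refine ⟨(S.dv_le_D _ _ _).trans h, ?_⟩
  have := (S.dh_le_D _ _ _).trans h
  rwa [zpow_neg, inv_mul_le_iff₀ (S.lam_pos _), mul_comm] at this

theorem Seq.D_eq {S : Base Q} (Z : Seq S) (j : ℤ) (p v : Q) :
    S.D (Z.τ j) p v = Z.a j * S.dv p v + (Z.a j)⁻¹ * S.dh p v := by
  rw [Base.D, zpow_neg]
  rfl

end Pool.Agent.E5f
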