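import Pool.Agent.E5f.SysDefs
import Pool.Agent.E5f.HypBi

/-! Definitions for the endgame: the total graph of the base, quasi-geodesic sequences in it,
one-sided functionals, and the intermediate statements. -/

set_option autoImplicit false

namespace Pool.Agent.E5f

/-- Betweenness for one pseudo-metric. -/
def On {X : Type} (d : X → X → ℝ) (x r y : X) : Prop := d x r + d r y = d x y

theorem gd_equiv_End {V W : Type} {G : SimpleGraph V} {G' : SimpleGraph W} (e : G ≃g G')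
    (x y : V) : gd G' (e x) (e y) = gd G x y := by
  have key : ∀ {V W : Type} {G : SimpleGraph V} {G' : SimpleGraph W} (e : G ≃g G') (x y : V),
      G'.edist (e x) (e y) ≤ G.edist x y := by
    intro V W G G' e x y
    refine le_iInf fun w => ?_
    have := SimpleGraph.edist_le (w.map e.toHom)
    rwa [SimpleGraph.Walk.length_map] at this
  have h : G'.edist (e x) (e y) = G.edist x y :=
    le_antisymm (key e x y) (by simpa using key e.symm (e x) (e y))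
  simp only [gd, SimpleGraph.dist, h]

variable {Q : Type} [MulAction G8 Q]

namespace Base

/-- The metric on the base at height `t`. -/
noncomputable def D (S : Base Q) (t : ℤ) (p q : Q) : ℝ :=
  S.lam ^ t * S.dv p q + S.lam ^ (-t) * S.dh p q

/-- The total graph. -/
noncomputable def E (S : Base Q) : SimpleGraph (Q × ℤ) := totG lineG S.D 1

/-- The metric of the total graph. -/
noncomputable def dE (S : Base Q) : Q × ℤ → Q × ℤ → ℝ := gd S.E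

/-- Exchange of the two trees. -/
def swap (S : Base Q) : Base Q where
  lam := S.lam
  lam1 := S.lam1
  dv := S.dh
  dh := S.dv
  dg := fun γ => -S.dg γ
  dg_mul := fun γ γ' => by rw [S.dg_mul]; ring
  dg_t := by rcases S.dg_t with h | h <;> simp [h]
  dg_c := by simp [S.dg_c]
  bi := S.bi.swap
  nr := by
    obtain ⟨L, h0, h⟩ := S.nr
    exact ⟨L, h0, fun a b c d h1 h2 h3 h4 h5 h6 => h a c b d h3 h4 h1 h2 h6 h5⟩
  sv := S.sh
  sh := fun γ p q => by rw [neg_neg]; exact S.sv γ p q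
  P0 := S.P0
  fix_c := S.fix_c.symm
  fix_t := S.fix_t.symm
  dense := by
    obtain ⟨R, h⟩ := S.dense
    refine ⟨R, fun q => ?_⟩
    obtain ⟨γ, h1, h2⟩ := h q
    exact ⟨γ, by simp [h1], by rwa [add_comm]⟩
  elem := fun R => by
    obtain ⟨F, N, h⟩ := S.elem R
    exact ⟨F, N, fun γ h1 h2 => h γ (neg_eq_zero.1 h1) (by rwa [add_comm])⟩
  sideV := ⟨S.sideH.hor, fun p0 p B M h1 h2 h3 => by
    simpa only [neg_eq_zero] using S.sideH.ray p0 p B M h1 h2 h3⟩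
  sideH := ⟨S.sideV.hor, fun p0 p B M h1 h2 h3 => by
    simpa only [neg_eq_zero] using S.sideV.ray p0 p B M h1 h2 h3⟩

theorem D_swap (S : Base Q) (t : ℤ) (p q : Q) : S.swap.D t p q = S.D (-t) p q := by
  simp only [D, swap, neg_neg]
  ring

theorem dE_swap (S : Base Q) (p q : Q) (s t : ℤ) :
    S.swap.dE (p, -s) (q, -t) = S.dE (p, s) (q, t) := by
  refine gd_equiv_End (G := S.E) (G' := S.swap.E)
    ⟨(Equiv.refl Q).prodCongr (Equiv.neg ℤ), ?_⟩ (p, s) (q, t)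
  rintro ⟨a, i⟩ ⟨b, j⟩
  simp only [E, totG, lineG, D_swap, Equiv.prodCongr_apply, Equiv.coe_refl, Prod.map, id,
    Equiv.neg_apply, neg_neg, ne_eq, Prod.mk.injEq, neg_inj]
  have : (-j = -i + 1 ∨ -i = -j + 1) ↔ (j = i + 1 ∨ i = j + 1) := by omega
  rw [this]

/-- Seen from `(v, t)`, the way to `X` begins by climbing to the height `t + T`. -/
def Up (S : Base Q) (v : Q) (t T : ℤ) (X : Q × ℤ) : Prop :=
  (∃ u, Btw S.dv S.dh v u X.1 ∧ S.lam ^ (t + T) ≤ S.dh v u ∧ S.dv v u ≤ S.lam ^ (-(t + T))) ∨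
    (S.dv v X.1 ≤ S.lam ^ (-(t + T)) ∧ t + T ≤ X.2)

end Base

/-- A bi-infinite quasi-geodesic of the total graph that does not stay near a cusp. -/
structure Seq (S : Base Q) where
  q : ℤ → Q
  τ : ℤ → ℤ
  K : ℝ
  τ0 : τ 0 = 0
  up : ∀ i j : ℤ, S.dE (q i, τ i) (q j, τ j) ≤ K * |(i : ℝ) - (j : ℝ)| + K
  low : ∀ i j : ℤ, |(i : ℝ) - (j : ℝ)| ≤ K * S.dE (q i, τ i) (q j, τ j) + K
  cl : ∀ C : ℝ, ∃ n : ℝ, ∀ (γ : G8) (t t' i j : ℤ), S.dE (γ • S.P0, t) (q i, τ i) ≤ C →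
    S.dE (γ • S.P0, t') (q j, τ j) ≤ C → |(i : ℝ) - (j : ℝ)| ≤ n

namespace Seq

variable {S : Base Q}

/-- The vertex of index `j`. -/
def X (Z : Seq S) (j : ℤ) : Q × ℤ := (Z.q j, Z.τ j)

/-- The scale at index `j`. -/
noncomputable def a (Z : Seq S) (j : ℤ) : ℝ := S.lam ^ Z.τ j

/-- The reversed sequence. -/
def rev (Z : Seq S) : Seq S where
  q := fun j => Z.q (-j)
  τ := fun j => Z.τ (-j)
  K := Z.K
  τ0 := Z.τ0
  up := fun i j => by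
    have := Z.up (-i) (-j)
    rwa [Int.cast_neg, Int.cast_neg, neg_sub_neg, abs_sub_comm] at this
  low := fun i j => by
    have := Z.low (-i) (-j)
    rwa [Int.cast_neg, Int.cast_neg, neg_sub_neg, abs_sub_comm] at this
  cl := fun C => by
    obtain ⟨n, h⟩ := Z.cl C
    refine ⟨n, fun γ t t' i j h1 h2 => ?_⟩
    have := h γ t t' (-i) (-j) h1 h2
    rwa [Int.cast_neg, Int.cast_neg, neg_sub_neg, abs_sub_comm] at this

/-- The sequence in the exchanged base. -/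
def swap (Z : Seq S) : Seq S.swap where
  q := Z.q
  τ := fun j => -Z.τ j
  K := Z.K
  τ0 := by rw [Z.τ0, neg_zero]
  up := fun i j => by rw [S.dE_swap]; exact Z.up i j
  low := fun i j => by rw [S.dE_swap]; exact Z.low i j
  cl := fun C => by
    obtain ⟨n, h⟩ := Z.cl C
    refine ⟨n, fun γ t t' i j h1 h2 => h γ (-t) (-t') i j ?_ ?_⟩
    · rw [← S.dE_swap, neg_neg]; exact h1
    · rw [← S.dE_swap, neg_neg]; exact h2

/-- The positive end is good for the first functional. -/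
def FGood (Z : Seq S) : Prop :=
  ∀ (A : ℝ) (k0 : ℤ), ∃ k, k0 ≤ k ∧ A ≤ Z.a k * (1 + S.dv (Z.q 0) (Z.q k))

/-- The positive end goes up. -/
def UpE (Z : Seq S) : Prop :=
  ∃ M : ℝ, ∀ (A : ℝ) (k0 : ℤ), ∃ k, k0 ≤ k ∧ A ≤ Z.a k ∧ S.dv (Z.q 0) (Z.q k) ≤ M

/-- The positive end goes far. -/
def FrE (Z : Seq S) : Prop :=
  ∀ (A : ℝ) (k0 : ℤ), ∃ k, k0 ≤ k ∧ A ≤ Z.a k * (1 + S.dv (Z.q 0) (Z.q k)) ∧
    A ≤ S.dv (Z.q 0) (Z.q k)

/-- The positive end is not good. -/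
def Bdd (Z : Seq S) (B : ℝ) : Prop := ∀ k, 0 ≤ k → Z.a k * (1 + S.dv (Z.q 0) (Z.q k)) ≤ B

/-- Long flat strips along the sequence. -/
def Strip (Z : Seq S) : Prop :=
  ∃ C0 : ℝ, ∀ R : ℝ, 0 ≤ R → ∃ (i k : ℤ) (c : ℝ) (P : ℝ → Q), i ≤ 0 ∧ 0 ≤ k ∧
    S.dv (Z.q 0) (P 0) ≤ C0 ∧ ∀ s, |s| ≤ R → S.dh (P s) (P 0) = 0 ∧
      S.dv (Z.q i) (P s) = c + s ∧ On S.dv (Z.q i) (P s) (Z.q k)

/-- The positive end goes down. -/
structure Down (Z : Seq S) (B : ℝ) : Prop where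
  bdd : Z.Bdd B
  fh : ∀ j k, 0 ≤ j → j ≤ k → S.dh (Z.q j) (Z.q k) ≤ B * Z.a j
  small : ∀ ε : ℝ, 0 < ε → ∃ k0, ∀ k, k0 ≤ k → Z.a k ≤ ε

/-- `q'` is the companion point of index `k`. -/
structure Comp (Z : Seq S) (k : ℤ) (q' : Q) : Prop where
  h0 : S.dh (Z.q k) q' = 0
  v1 : S.dv (Z.q k) q' = (Z.a k)⁻¹
  on : On S.dv (Z.q 0) (Z.q k) q'

/-- The functional is small at points of the negative end at bounded distance. -/
def Back (Z : Seq S) (F : Q → ℝ) : Prop :=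
  ∃ B : ℝ, ∀ ε : ℝ, 0 < ε → ∃ i, i ≤ 0 ∧ F (Z.q i) ≤ ε ∧ S.dv (Z.q 0) (Z.q i) ≤ B

/-- The functional has a definite slope on the way to infinitely many companion points. -/
def Slope (Z : Seq S) (F : Q → ℝ) : Prop :=
  ∃ (K1 s0 : ℝ) (x r : Q), 0 < s0 ∧ 0 < S.dv x r ∧ s0 * S.dv x r ≤ F r - F x ∧
    ∀ k0 : ℤ, ∃ (k : ℤ) (q' : Q), k0 ≤ k ∧ Z.Comp k q' ∧ Z.a k * F q' ≤ K1 ∧
      On S.dv (Z.q 0) r q' ∧ On S.dv x r q'

/-- Long strips along the sequence that are attached to a cusp. -/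
def Cusp (Z : Seq S) : Prop :=
  ∃ R : ℝ, ∀ N : ℝ, 1 ≤ N → ∃ (k : ℤ) (q' : Q) (U β : ℝ) (γ : G8) (P : ℝ → Q), 0 ≤ k ∧
    Z.Comp k q' ∧ 1 ≤ U ∧ 0 ≤ β ∧ β ≤ 3 * U ∧ ∀ s, 1 ≤ s → s ≤ N →
      S.dh (P s) (γ • S.P0) = 0 ∧ S.dv (Z.q 0) (P s) = β + s * U ∧ On S.dv (Z.q 0) (P s) q' ∧
        S.dv (γ • S.P0) (P s) ≤ (R + s) * U

end Seq

/-- A nonzero functional that is bounded along the sequence. -/
structure Fn {S : Base Q} (Z : Seq S) (F : Q → ℝ) : Prop where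
  nonneg : ∀ q, 0 ≤ F q
  zero : ∀ p q, S.dv p q = 0 → F p = F q
  cvx : ∀ p q r, On S.dv p q r → S.dv p r * F q ≤ S.dv q r * F p + S.dv p q * F r
  b1 : ∀ p p', F p = 0 → F p' = 0 → 0 < S.dv p p' → False
  b5l : ∀ (σ : ℝ → Q) (c : ℝ), (∀ s s', S.dv (σ s) (σ s') = |s - s'|) → 0 < c →
    (∀ s, F (σ s) = c) → ∀ R : ℝ, ∃ P : ℝ → Q, ∀ s s', |s| ≤ R → |s'| ≤ R →
      S.dv (P s) (σ s) = 0 ∧ S.dh (P s) (P s') = 0
  b5u : ∀ B : ℝ, ∃ R : ℝ, ∀ N : ℝ, ∃ L η : ℝ, N ≤ L ∧ 0 < η ∧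
    ∀ (e : ℤ) (U : ℝ) (p0 p1 p2 p3 : Q) (s : ℝ), U = S.lam ^ e → S.dv p0 p1 = U →
      S.dv p1 p2 = L * U → S.dv p2 p3 = U → S.dv p0 p2 = (L + 1) * U →
      S.dv p1 p3 = (L + 1) * U → S.dv p0 p3 = (L + 2) * U → U * S.dh p1 p2 ≤ B → 0 < s →
      s * U ≤ F p1 - F p0 → F p3 - F p2 ≤ (1 + η) * s * U → F p1 ≤ B * s * U →
      ∃ γ : G8, S.dv (γ • S.P0) p1 ≤ R * U ∧ ∃ P : ℝ → Q, ∀ τ, 1 ≤ τ → τ ≤ N →
        S.dh (P τ) (γ • S.P0) = 0 ∧ S.dv p1 (P τ) = τ * U ∧ S.dv (P τ) p2 = (L - τ) * U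
  bd : ∃ Θ : ℝ, ∀ j, Z.a j * F (Z.q j) ≤ Θ
  ext : ∃ K1 : ℝ, ∀ k, ∃ q', Z.Comp k q' ∧ Z.a k * F q' ≤ K1

theorem Fn.rev {S : Base Q} {Z : Seq S} {F : Q → ℝ} (h : Fn Z F) : Fn Z.rev F := by
  refine ⟨h.nonneg, h.zero, h.cvx, h.b1, h.b5l, h.b5u, ?_, ?_⟩
  · obtain ⟨Θ, hΘ⟩ := h.bd
    exact ⟨Θ, fun j => hΘ (-j)⟩
  · obtain ⟨K1, hK⟩ := h.ext
    refine ⟨K1, fun k => ?_⟩
    obtain ⟨q', h1, h2⟩ := hK (-k)
    exact ⟨q', ⟨h1.h0, h1.v1, h1.on⟩, h2⟩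

end Pool.Agent.E5f
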