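import Pool.Agent.E5f.EndBas
import Pool.Agent.E5f.Comb

/-! The total graph of the base is hyperbolic. -/

set_option autoImplicit false

namespace Pool.Agent.E5f

variable {Q : Type} [MulAction G8 Q]

theorem walk_EndG0 (n : ℕ) : ∀ i j : ℤ, j = i + n → ∃ w : lineG.Walk i j, w.length = n := by
  induction n with
  | zero =>
    intro i j h
    obtain rfl : j = i := by simpa using h
    exact ⟨SimpleGraph.Walk.nil, rfl⟩
  | succ n ih =>
    intro i j h
    obtain ⟨w, hw⟩ := ih (i + 1) j (by rw [h]; push_cast; ring)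
    exact ⟨SimpleGraph.Walk.cons (show lineG.Adj i (i + 1) from Or.inl rfl) w, by simp [hw]⟩

theorem walk'_EndG0 (i j : ℤ) : ∃ w : lineG.Walk i j, (w.length : ℤ) = |i - j| := by
  rcases le_total i j with h | h
  · obtain ⟨w, hw⟩ := walk_EndG0 (j - i).toNat i j (by omega)
    exact ⟨w, by rw [hw, abs_of_nonpos (by omega)]; omega⟩
  · obtain ⟨w, hw⟩ := walk_EndG0 (i - j).toNat j i (by omega)
    exact ⟨w.reverse, by rw [SimpleGraph.Walk.length_reverse, hw, abs_of_nonneg (by omega)]; omega⟩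

theorem low_EndG0 {i j : ℤ} (w : lineG.Walk i j) : |i - j| ≤ (w.length : ℤ) := by
  induction w with
  | nil => simp
  | @cons a b c h w ih =>
    rw [SimpleGraph.Walk.length_cons]
    rw [abs_le] at ih ⊢
    rcases h with h | h <;> constructor <;> push_cast <;> omega

theorem conn_EndG0 : lineG.Connected :=
  ⟨fun i j => (walk'_EndG0 i j).elim fun w _ => ⟨w⟩⟩

theorem dist_EndG0 (i j : ℤ) : (lineG.dist i j : ℤ) = |i - j| := by
  refine le_antisymm ?_ ?_
  · obtain ⟨w, hw⟩ := walk'_EndG0 i j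
    rw [← hw]
    exact_mod_cast SimpleGraph.dist_le w
  · obtain ⟨w, hw⟩ := conn_EndG0.exists_walk_length_eq_dist i j
    rw [← hw]
    exact low_EndG0 w

theorem gd_line (i j : ℤ) : gd lineG i j = |(i : ℝ) - (j : ℝ)| := by
  have h : ((lineG.dist i j : ℤ) : ℝ) = ((|i - j| : ℤ) : ℝ) := by rw [dist_EndG0]
  rw [gd]
  exact_mod_cast h

theorem hypLine_EndG0 {δ : ℝ} (h : 0 ≤ δ) : Hyp (gd lineG) δ := by
  intro w x y z
  have key : min (gp (gd lineG) w x y) (gp (gd lineG) w y z) ≤ gp (gd lineG) w x z := by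
    simp only [gp, gd_line, min_le_iff]
    generalize (w : ℝ) = a
    generalize (x : ℝ) = b
    generalize (y : ℝ) = c
    generalize (z : ℝ) = d
    by_contra hc
    rw [not_or, not_le, not_le] at hc
    obtain ⟨h1, h2⟩ := hc
    rcases abs_cases (b - a) with k1 | k1 <;> rcases abs_cases (c - a) with k2 | k2 <;>
      rcases abs_cases (d - a) with k3 | k3 <;> rcases abs_cases (b - c) with k4 | k4 <;>
      rcases abs_cases (c - d) with k5 | k5 <;> rcases abs_cases (b - d) with k6 | k6 <;>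
      linarith [k1.1, k1.2, k2.1, k2.2, k3.1, k3.2, k4.1, k4.2, k5.1, k5.2, k6.1, k6.2]
  linarith

theorem Base.D_pm (S : Base Q) (t : ℤ) : PM (S.D t) :=
  S.bi.pm (S.lam_pos t).le (S.lam_pos (-t)).le

theorem Base.sum_EndG0 (S : Base Q) (t : ℤ) (L : ℝ) :
    S.lam ^ t * (S.lam ^ (-t) * L) + S.lam ^ (-t) * (S.lam ^ t * L) = 2 * L := by
  have e : S.lam ^ t * S.lam ^ (-t) = 1 := by rw [← S.lam_add, add_neg_cancel, zpow_zero]
  linear_combination 2 * L * e

theorem Base.lip_EndG0 (S : Base Q) (b b' : ℤ) (h : lineG.Adj b b') (x y : Q) :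
    S.D b' x y ≤ S.lam * S.D b x y + S.lam := by
  have h1 : S.lam ^ b' ≤ S.lam * S.lam ^ b := by
    have := S.lam_mono (s := b') (t := 1 + b) (by rcases h with h | h <;> omega)
    rwa [S.lam_add, zpow_one] at this
  have h2 : S.lam ^ (-b') ≤ S.lam * S.lam ^ (-b) := by
    have := S.lam_mono (s := -b') (t := 1 + -b) (by rcases h with h | h <;> omega)
    rwa [S.lam_add, zpow_one] at this
  have h3 := mul_le_mul_of_nonneg_right h1 (S.bi.pv.nonneg_E x y)
  have h4 := mul_le_mul_of_nonneg_right h2 (S.bi.ph.nonneg_E x y)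
  have := S.lam1
  simp only [Base.D]
  nlinarith

theorem Base.two_EndG0 (S : Base Q) {n t : ℤ} (hn : 4 ≤ S.lam ^ n) (x y : Q) :
    2 * S.D t x y ≤ max (S.D (t + n) x y) (S.D (t - n) x y) := by
  have h1 := S.dv_le_D (t + n) x y
  have h2 := S.dh_le_D (t - n) x y
  rw [S.lam_add, mul_right_comm] at h1
  rw [show -(t - n) = -t + n by ring, S.lam_add, mul_right_comm] at h2
  have hA : 0 ≤ S.lam ^ t * S.dv x y := mul_nonneg (S.lam_pos _).le (S.bi.pv.nonneg_E _ _)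
  have hB : 0 ≤ S.lam ^ (-t) * S.dh x y := mul_nonneg (S.lam_pos _).le (S.bi.ph.nonneg_E _ _)
  have h3 := mul_le_mul_of_nonneg_left hn hA
  have h4 := mul_le_mul_of_nonneg_left hn hB
  have e : S.D t x y = S.lam ^ t * S.dv x y + S.lam ^ (-t) * S.dh x y := rfl
  rcases le_total (S.lam ^ t * S.dv x y) (S.lam ^ (-t) * S.dh x y) with k | k
  · exact le_max_of_le_right (by linarith)
  · exact le_max_of_le_left (by linarith)

theorem Base.flares_EndG0 (S : Base Q) {n : ℕ} (hn : 4 ≤ S.lam ^ (n : ℤ)) :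
    Flares lineG S.D n 0 := by
  intro γ hγ x y _
  have a1 := hγ 0 n (by omega) (by omega)
  have a2 := hγ n (2 * n) (by omega) le_rfl
  have a3 := hγ 0 (2 * n) (by omega) le_rfl
  rw [gd_line] at a1 a2 a3
  have b1 : |γ 0 - γ n| = |((0 : ℕ) : ℤ) - (n : ℤ)| := by exact_mod_cast a1
  have b2 : |γ n - γ (2 * n)| = |(n : ℤ) - ((2 * n : ℕ) : ℤ)| := by exact_mod_cast a2
  have b3 : |γ 0 - γ (2 * n)| = |((0 : ℕ) : ℤ) - ((2 * n : ℕ) : ℤ)| := by exact_mod_cast a3
  have key : (γ 0 = γ n + n ∧ γ (2 * n) = γ n - n) ∨ (γ 0 = γ n - n ∧ γ (2 * n) = γ n + n) := by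
    rw [abs_eq_abs] at b1 b2 b3
    omega
  have h := S.two_EndG0 (t := γ n) hn x y
  rcases key with ⟨k1, k2⟩ | ⟨k1, k2⟩
  · rw [k1, k2]
    exact h
  · rw [k1, k2, max_comm]
    exact h

theorem Base.out (S : Base Q) : CombOut lineG S.D 1 := by
  obtain ⟨L, hL, hn⟩ := S.noRect
  obtain ⟨b, hb0, hb⟩ := S.lam_big 4
  have hb' : 4 ≤ S.lam ^ ((b.toNat + 1 : ℕ) : ℤ) := hb.trans (S.lam_mono (by omega))
  refine comb (δ := 18 * L) (κ := 0) (K := S.lam) (n := b.toNat + 1) (M := 0)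
    ⟨⟨S.P0⟩, conn_EndG0, hypLine_EndG0 (by linarith), S.D_pm, fun t => ?_,
      fun t => S.bi.rg (S.lam_pos t).le (S.lam_pos (-t)).le, le_rfl, S.lam1.le, S.lip_EndG0,
      by omega, S.flares_EndG0 hb'⟩ (by norm_num)
  have h := S.bi.hyp (mul_nonneg (S.lam_pos (-t)).le hL.le) (mul_nonneg (S.lam_pos t).le hL.le)
    (hn t) (S.lam_pos t).le (S.lam_pos (-t)).le
  rw [S.sum_EndG0, show 9 * (2 * L) = 18 * L by ring] at h
  exact h

theorem Base.nearD (S : Base Q) : ∃ C : ℝ, ∀ (t : ℤ) (w x y : Q), ∃ v, Btw S.dv S.dh x v y ∧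
    S.D t w v ≤ gp (S.D t) w x y + C := by
  obtain ⟨L, hL, hn⟩ := S.noRect
  refine ⟨6 * (2 * L), fun t w x y => ?_⟩
  have h := S.bi.near (mul_nonneg (S.lam_pos (-t)).le hL.le) (mul_nonneg (S.lam_pos t).le hL.le)
    (hn t) (S.lam_pos t).le (S.lam_pos (-t)).le w x y
  rw [S.sum_EndG0] at h
  exact h

theorem Base.dE_pm (S : Base Q) : PM S.dE :=
  gd_pm S.out.conn

theorem Base.dE_hyp (S : Base Q) : ∃ δ : ℝ, 0 ≤ δ ∧ Hyp S.dE δ := by
  obtain ⟨δ, h⟩ := S.out.hyp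
  refine ⟨max δ 0, le_max_right _ _, fun w x y z => ?_⟩
  have h1 : min (gp S.dE w x y) (gp S.dE w y z) - δ ≤ gp S.dE w x z := h w x y z
  have h2 := le_max_left δ 0
  linarith

theorem Base.D_smul_EndG0 (S : Base Q) (γ : G8) (t : ℤ) (p q : Q) :
    S.D (t - S.dg γ) (γ • p) (γ • q) = S.D t p q := by
  simp only [Base.D, S.sv, S.sh]
  rw [← mul_assoc, ← mul_assoc, ← S.lam_add, ← S.lam_add, sub_add_cancel,
    show -(t - S.dg γ) + -S.dg γ = -t by ring]

theorem Base.dE_smul (S : Base Q) (γ : G8) (p q : Q) (s t : ℤ) :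
    S.dE (γ • p, s - S.dg γ) (γ • q, t - S.dg γ) = S.dE (p, s) (q, t) := by
  refine gd_equiv_End (G := S.E) (G' := S.E)
    ⟨(MulAction.toPerm γ).prodCongr (Equiv.subRight (S.dg γ)), ?_⟩ (p, s) (q, t)
  rintro ⟨a, i⟩ ⟨b, j⟩
  simp only [Base.E, totG, lineG, Equiv.prodCongr_apply, Prod.map, MulAction.toPerm_apply,
    Equiv.subRight_apply, ne_eq, Prod.mk.injEq, smul_left_cancel_iff, sub_left_inj,
    S.D_smul_EndG0]
  have : (j - S.dg γ = i - S.dg γ + 1 ∨ i - S.dg γ = j - S.dg γ + 1) ↔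
      (j = i + 1 ∨ i = j + 1) := by omega
  rw [this]

theorem Base.dE_fib (S : Base Q) (p q : Q) (t : ℤ) : S.dE (p, t) (q, t) ≤ S.D t p q + 1 :=
  S.out.fib_le t p q

theorem Base.le_dE_EndG0 (S : Base Q) (p q : Q) (s t : ℤ) :
    |(s : ℝ) - (t : ℝ)| ≤ S.dE (p, s) (q, t) := by
  rw [← gd_line]
  exact S.out.le_base (p, s) (q, t)

theorem Base.dE_vert (S : Base Q) (p : Q) (s t : ℤ) :
    S.dE (p, s) (p, t) = |(s : ℝ) - (t : ℝ)| := by
  refine le_antisymm ?_ (S.le_dE_EndG0 p p s t)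
  rw [← gd_line]
  exact S.out.base_le p s t

theorem Base.le_dE (S : Base Q) (p q : Q) (s t : ℤ) :
    |(s : ℝ) - (t : ℝ)| ≤ S.dE (p, s) (q, t) :=
  S.le_dE_EndG0 p q s t

end Pool.Agent.E5f
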