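import Pool.Agent.E5f.EndG0
import Pool.Agent.E5f.HypQI

/-! The surface group is quasi-isometrically embedded in the total graph and avoids the cusps. -/

set_option autoImplicit false

namespace Pool.Agent.E5f

variable {Q : Type} [MulAction G8 Q]

theorem wev_append_EndG1 {G ι : Type} [Group G] (s : ι → G) (l l' : List (ι × Bool)) :
    wev s (l ++ l') = wev s l * wev s l' := by
  rw [wev, List.map_append, List.prod_append, wev, wev]

theorem sgen_gens_E (h : ℕ) : Gens (sgen h) := by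
  intro g
  have hg : g ∈ Subgroup.closure (Set.range (sgen h)) := by
    have := PresentedGroup.closure_range_of ({srel h} : Set (FreeGroup (Fin h ⊕ Fin h)))
    exact this ▸ Subgroup.mem_top g
  induction hg using Subgroup.closure_induction'' with
  | mem x hx =>
    obtain ⟨i, rfl⟩ := hx
    exact ⟨[(i, true)], by simp [wev]⟩
  | inv_mem x hx =>
    obtain ⟨i, rfl⟩ := hx
    exact ⟨[(i, false)], by simp [wev]⟩
  | one => exact ⟨[], rfl⟩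
  | mul x y _ _ hx hy =>
    obtain ⟨l, rfl⟩ := hx
    obtain ⟨l', rfl⟩ := hy
    exact ⟨l ++ l', wev_append_EndG1 _ _ _⟩

theorem chain_EndG1 {V W : Type} {G : SimpleGraph V} (hG : G.Connected) {d : W → W → ℝ}
    (tri : ∀ x y z, d x z ≤ d x y + d y z) (f : V → W) {M : ℝ} (h0 : ∀ x, d (f x) (f x) ≤ M)
    (h1 : ∀ x y, G.Adj x y → d (f x) (f y) ≤ M) (x y : V) :
    d (f x) (f y) ≤ M * gd G x y + M := by
  obtain ⟨γ, e0, e1, -, e2⟩ := gseg_ex hG x y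
  have key : ∀ i, i ≤ G.dist x y → d (f x) (f (γ i)) ≤ M * i + M := fun i => by
    induction i with
    | zero => exact fun _ => by simpa [e0] using h0 x
    | succ i ih =>
      intro hi
      have := tri (f x) (f (γ i)) (f (γ (i + 1)))
      have := ih (by omega)
      have := h1 _ _ (e2 i (by omega))
      push_cast
      linarith
  have := key _ le_rfl
  rwa [e1] at this

theorem zpow_EndG1 {L : G8 → G8 → ℝ} {x : G8} (hx : ∀ g g', L (g * x) g' = L g g') (m : ℤ)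
    (g g' : G8) : L (g * x ^ m) g' = L g g' := by
  induction m using Int.induction_on with
  | zero => rw [zpow_zero, mul_one]
  | succ i ih => rw [zpow_add_one, ← mul_assoc, hx, ih]
  | pred i ih => rw [← hx, zpow_sub_one, mul_assoc, inv_mul_cancel_right, ih]

theorem list_EndG1 {h : ℕ} (A : Arith h) (F : Finset G8) (N : ℕ) : ∃ C : ℝ,
    ∀ l : List (ℤ × G8 × ℤ), l.length ≤ N → (∀ e ∈ l, e.2.1 ∈ F) → ∀ x,
      A.L x (x * (l.map fun e => g8c ^ e.1 * e.2.1 * g8c ^ e.2.2).prod) ≤ C := by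
  choose B hB using A.bdd
  obtain ⟨C, hC⟩ := ((F.finite_toSet.insert 1).image B).bddAbove
  have h1 : ∀ g, A.L g (g * 1) ≤ C := fun g => (hB 1 g).trans (hC ⟨1, Or.inl rfl, rfl⟩)
  have h0 : 0 ≤ C := (A.nonneg _ _).trans (h1 1)
  have key : ∀ l : List (ℤ × G8 × ℤ), (∀ e ∈ l, e.2.1 ∈ F) → ∀ x,
      A.L x (x * (l.map fun e => g8c ^ e.1 * e.2.1 * g8c ^ e.2.2).prod) ≤
        C * l.length + C := fun l => by
    induction l with
    | nil => exact fun _ x => by simpa using h1 x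
    | cons e l ih =>
      intro hl x
      have h2 := ih (fun e he => hl e (List.mem_cons_of_mem _ he))
        (x * (g8c ^ e.1 * e.2.1 * g8c ^ e.2.2))
      have h3 : A.L x (x * (g8c ^ e.1 * e.2.1 * g8c ^ e.2.2)) ≤ C := by
        rw [A.symm, ← mul_assoc, zpow_EndG1 A.right_c, A.symm, ← zpow_EndG1 A.right_c e.1,
          ← mul_assoc]
        exact (hB _ _).trans (hC ⟨_, Or.inr (hl e List.mem_cons_self), rfl⟩)
      rw [List.map_cons, List.prod_cons, ← mul_assoc, List.length_cons]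
      refine (A.tri _ _ _).trans ((add_le_add h3 h2).trans_eq ?_)
      push_cast
      ring
  refine ⟨C * N + C, fun l hl hF x => (key l hF x).trans ?_⟩
  have : (l.length : ℝ) ≤ N := by exact_mod_cast hl
  gcongr

theorem smul_EndG1 (S : Base Q) (g δ : G8) (p q : Q) :
    S.dE (g • p, -S.dg g) ((g * δ) • q, -S.dg (g * δ)) = S.dE (p, 0) (δ • q, -S.dg δ) := by
  rw [← S.dE_smul g p (δ • q) 0 (-S.dg δ), mul_smul, S.dg_mul, zero_sub]
  congr 2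
  ring

theorem smul'_EndG1 (S : Base Q) (g : G8) (p q : Q) :
    S.dE (g • p, -S.dg g) (g • q, -S.dg g) = S.dE (p, 0) (q, 0) := by
  rw [← S.dE_smul g p q 0 0, zero_sub]

theorem fix_EndG1 (S : Base Q) (δ : G8) (m : ℤ) :
    S.dv ((δ * g8t ^ m) • S.P0) (δ • S.P0) = 0 ∧ S.dh ((δ * g8t ^ m) • S.P0) (δ • S.P0) = 0 := by
  rw [mul_smul, S.sv, S.sh, (S.fix_pow m).1, (S.fix_pow m).2, mul_zero, mul_zero]
  exact ⟨rfl, rfl⟩

theorem rho0_EndG1 (S : Base Q) {h : ℕ} (A : Arith h) (C : ℝ) : ∃ C' : ℝ, ∀ g g' : G8,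
    S.dE (g • S.P0, -S.dg g) (g' • S.P0, -S.dg g') ≤ C → A.L g g' ≤ C' := by
  obtain ⟨C1, h1⟩ := S.out.fib_near C
  obtain ⟨F, N, h2⟩ := S.elem C1
  obtain ⟨C', h3⟩ := list_EndG1 A F N
  refine ⟨C', fun g g' hg => ?_⟩
  obtain ⟨δ, rfl⟩ : ∃ δ, g' = g * δ := ⟨g⁻¹ * g', (mul_inv_cancel_left _ _).symm⟩
  rw [smul_EndG1] at hg
  have h4 : S.D 0 S.P0 (δ • S.P0) ≤ C1 := h1 _ _ hg
  rw [Base.D, neg_zero, zpow_zero, one_mul, one_mul] at h4
  obtain ⟨m, hm⟩ := S.exists_deg (-S.dg δ)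
  obtain ⟨l, l1, l2, l3⟩ := h2 (δ * g8t ^ m) (by rw [S.dg_mul, hm, add_neg_cancel]) (by
    rwa [S.bi.pv.congr'_E (fix_EndG1 S δ m).1, S.bi.ph.congr'_E (fix_EndG1 S δ m).2])
  have h5 := h3 l l1 l2 g
  rwa [← l3, A.symm, ← mul_assoc, zpow_EndG1 A.right_t, A.symm] at h5

theorem near_EndG1 (S : Base Q) : ∃ R : ℝ, ∀ X : Q × ℤ, ∃ g : G8,
    S.dE (g • S.P0, -S.dg g) X ≤ R := by
  obtain ⟨R, hR⟩ := S.dense
  refine ⟨R + 1, fun ⟨q, t⟩ => ?_⟩
  obtain ⟨m, hm⟩ := S.exists_deg (-t)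
  obtain ⟨γ, h1, h2⟩ := hR ((g8t ^ m)⁻¹ • q)
  refine ⟨g8t ^ m * γ, ?_⟩
  have h3 := smul'_EndG1 S (g8t ^ m) (γ • S.P0) ((g8t ^ m)⁻¹ • q)
  rw [smul_inv_smul, hm, neg_neg] at h3
  rw [mul_smul, S.dg_mul, h1, hm, add_zero, neg_neg, h3]
  refine (S.dE_fib _ _ _).trans ?_
  rw [Base.D, neg_zero, zpow_zero, one_mul, one_mul, S.bi.pv.symm, S.bi.ph.symm]
  linarith

theorem Base.rho (S : Base Q) {h : ℕ} (A : Arith h) : ∃ C : ℝ, 0 ≤ C ∧ ∀ γ γ' : G8,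
    A.L γ γ' ≤ C * S.dE (γ • S.P0, -S.dg γ) (γ' • S.P0, -S.dg γ') + C := by
  obtain ⟨R, hR⟩ := near_EndG1 S
  choose g hg using hR
  have pm := S.dE_pm
  have hR0 : 0 ≤ R := (pm.nonneg_E _ _).trans (hg (S.P0, 0))
  obtain ⟨M, hM⟩ := rho0_EndG1 S A (2 * R + 1)
  have h0 : ∀ x, A.L x x ≤ M := fun x => hM x x (by rw [pm.self]; linarith)
  have hM0 : 0 ≤ M := (A.nonneg _ _).trans (h0 1)
  have h1 := chain_EndG1 S.out.conn A.tri g (fun X => h0 _) fun X Y hXY => hM _ _ (by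
    have e1 : S.dE X Y = 1 := gd_adj.2 hXY
    have := pm.tri (g X • S.P0, -S.dg (g X)) X (g Y • S.P0, -S.dg (g Y))
    have := pm.tri X Y (g Y • S.P0, -S.dg (g Y))
    have := pm.symm Y (g Y • S.P0, -S.dg (g Y))
    have := hg X
    have := hg Y
    linarith)
  have h2 : ∀ γ, A.L (g (γ • S.P0, -S.dg γ)) γ ≤ M := fun γ =>
    hM _ _ ((hg _).trans (by linarith))
  refine ⟨3 * M, by linarith, fun γ γ' => ?_⟩
  have h3 : _ ≤ M * S.dE _ _ + M := h1 (γ • S.P0, -S.dg γ) (γ' • S.P0, -S.dg γ')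
  have := A.tri γ (g (γ • S.P0, -S.dg γ)) γ'
  have := A.tri (g (γ • S.P0, -S.dg γ)) (g (γ' • S.P0, -S.dg γ')) γ'
  have := A.symm γ (g (γ • S.P0, -S.dg γ))
  have := h2 γ
  have := h2 γ'
  have := mul_nonneg hM0 (pm.nonneg_E (γ • S.P0, -S.dg γ) (γ' • S.P0, -S.dg γ'))
  linarith

theorem low_EndG1 {h : ℕ} (A : Arith h) : ∃ K : ℝ, 0 ≤ K ∧ ∀ b b' : SG h,
    gd (cay (sgen h)) b b' ≤ K * A.L (A.ι b) (A.ι b') + K := by
  obtain ⟨K, h0, hK⟩ := A.low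
  refine ⟨K, h0, fun b b' => ?_⟩
  have := hK (b⁻¹ * b')
  rwa [← cay_dist (sgen_gens_E h), ← A.left b, mul_one, ← map_mul, mul_inv_cancel_left] at this

theorem Base.qie (S : Base Q) (q0 : Q) {h : ℕ} (A : Arith h) : ∃ K : ℝ,
    QIE (cay (sgen h)) S.E (fun b => (A.ι b • q0, -S.dg (A.ι b))) K := by
  obtain ⟨C, hC0, hC⟩ := S.rho A
  obtain ⟨K, hK0, hK⟩ := low_EndG1 A
  have pm := S.dE_pm
  obtain ⟨c0, hc0⟩ : ∃ c0, c0 = S.dE (q0, 0) (S.P0, 0) := ⟨_, rfl⟩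
  have hc1 : 0 ≤ c0 := hc0 ▸ pm.nonneg_E _ _
  obtain ⟨M, hM⟩ : ∃ M, M = ∑ i, S.dE (q0, 0) (A.ι (sgen h i) • q0, -S.dg (A.ι (sgen h i))) :=
    ⟨_, rfl⟩
  have hM0 : 0 ≤ M := hM ▸ Finset.sum_nonneg fun _ _ => pm.nonneg_E _ _
  have h1 : ∀ b i, S.dE (A.ι b • q0, -S.dg (A.ι b))
      (A.ι (b * sgen h i) • q0, -S.dg (A.ι (b * sgen h i))) ≤ M := fun b i => by
    rw [map_mul, smul_EndG1, hM]
    exact Finset.single_le_sum (f := fun i => S.dE (q0, 0)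
      (A.ι (sgen h i) • q0, -S.dg (A.ι (sgen h i)))) (fun _ _ => pm.nonneg_E _ _)
      (Finset.mem_univ i)
  have h2 := chain_EndG1 (cay_conn (sgen_gens_E h)) pm.tri
    (fun b => (A.ι b • q0, -S.dg (A.ι b))) (fun b => (pm.self _).trans_le hM0) (by
      rintro x y ⟨-, i, rfl | rfl⟩
      · exact h1 x i
      · rw [pm.symm]
        exact h1 y i)
  have hKC := mul_nonneg hK0 hC0
  have hKC' := mul_nonneg hKC hc1
  refine ⟨M + (K * C * (2 * c0) + K * C + K), fun b b' => ⟨(h2 b b').trans ?_, ?_⟩⟩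
  · have := gd_nonneg_HypQI (cay (sgen h)) b b'
    gcongr <;> linarith
  · have e1 := smul'_EndG1 S (A.ι b) q0 S.P0
    have e2 := smul'_EndG1 S (A.ι b') q0 S.P0
    have e3 := pm.tri (A.ι b • S.P0, -S.dg (A.ι b)) (A.ι b • q0, -S.dg (A.ι b))
      (A.ι b' • S.P0, -S.dg (A.ι b'))
    have e4 := pm.tri (A.ι b • q0, -S.dg (A.ι b)) (A.ι b' • q0, -S.dg (A.ι b'))
      (A.ι b' • S.P0, -S.dg (A.ι b'))
    have e5 := pm.symm (A.ι b • S.P0, -S.dg (A.ι b)) (A.ι b • q0, -S.dg (A.ι b))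
    have e6 := pm.nonneg_E (A.ι b • q0, -S.dg (A.ι b)) (A.ι b' • q0, -S.dg (A.ι b'))
    change _ ≤ _ * S.dE _ _ + _
    generalize S.dE (A.ι b • q0, -S.dg (A.ι b)) (A.ι b' • q0, -S.dg (A.ι b')) = x at *
    have e7 : A.L (A.ι b) (A.ι b') ≤ C * (x + 2 * c0) + C :=
      (hC _ _).trans (by gcongr; linarith)
    have e8 := mul_le_mul_of_nonneg_left e7 hK0
    have := hK b b'
    have := mul_nonneg hM0 e6
    have := mul_nonneg hKC' e6
    have := mul_nonneg hK0 e6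
    linarith

theorem Base.cl (S : Base Q) (q0 : Q) {h : ℕ} (A : Arith h) (C : ℝ) : ∃ n : ℝ,
    ∀ (γ : G8) (t t' : ℤ) (b b' : SG h),
      S.dE (γ • S.P0, t) (A.ι b • q0, -S.dg (A.ι b)) ≤ C →
      S.dE (γ • S.P0, t') (A.ι b' • q0, -S.dg (A.ι b')) ≤ C → gd (cay (sgen h)) b b' ≤ n := by
  obtain ⟨K, hK0, hK⟩ := low_EndG1 A
  obtain ⟨M, hM⟩ := rho0_EndG1 S A (1 + C + S.dE (q0, 0) (S.P0, 0))
  have pm := S.dE_pm
  have key : ∀ (γ g : G8) (t : ℤ), S.dE (γ • S.P0, t) (g • q0, -S.dg g) ≤ C → A.L γ g ≤ M := by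
    intro γ g t hg
    obtain ⟨m, hm⟩ := S.exists_deg (-t - S.dg γ)
    rw [← zpow_EndG1 A.right_t m]
    refine hM _ _ ?_
    rw [S.dg_mul, hm, show -(S.dg γ + (-t - S.dg γ)) = t by ring]
    have e1 := S.dE_fib ((γ * g8t ^ m) • S.P0) (γ • S.P0) t
    rw [Base.D, (fix_EndG1 S γ m).1, (fix_EndG1 S γ m).2] at e1
    have := smul'_EndG1 S g q0 S.P0
    have := pm.tri ((γ * g8t ^ m) • S.P0, t) (γ • S.P0, t) (g • S.P0, -S.dg g)
    have := pm.tri (γ • S.P0, t) (g • q0, -S.dg g) (g • S.P0, -S.dg g)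
    linarith
  refine ⟨K * (M + M) + K, fun γ t t' b b' h1 h2 => (hK b b').trans ?_⟩
  have := key γ _ t h1
  have := key γ _ t' h2
  have := A.tri (A.ι b) γ (A.ι b')
  have := A.symm (A.ι b) γ
  gcongr
  linarith

theorem hypH_E (S : Base Q) (q0 : Q) {h : ℕ} (A : Arith h) :
    ∃ δ, Hyp (gd (cay (sgen h))) δ := by
  obtain ⟨K, hK⟩ := S.qie q0 A
  obtain ⟨δ, -, hδ⟩ := S.dE_hyp
  exact hyp_of_qie (cay_conn (sgen_gens_E h)) S.out.conn hδ hK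

end Pool.Agent.E5f
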