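import Pool.Agent.E5f.HypDefs

/-! Near points and the Morse lemma. -/

set_option autoImplicit false

namespace Pool.Agent.E5f

/-- Quasi-geodesic finite sequence. -/
def QG {X : Type} (d : X → X → ℝ) (K : ℝ) (z : ℕ → X) (n : ℕ) : Prop :=
  ∀ i j : ℕ, i ≤ n → j ≤ n →
    d (z i) (z j) ≤ K * |(i : ℝ) - (j : ℝ)| + K ∧ |(i : ℝ) - (j : ℝ)| ≤ K * d (z i) (z j) + K

theorem nonneg_HypMorse {X : Type} {d : X → X → ℝ} (h : PM d) (x y : X) : 0 ≤ d x y := by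
  have h1 := h.tri x y x
  have h2 := h.self x
  have h3 := h.symm x y
  linarith

theorem near_pt (δ κ : ℝ) : ∃ C : ℝ, ∀ {X : Type} (d : X → X → ℝ), PM d → Hyp d δ → RG d κ →
    ∀ x y w, ∃ m, gp d m x y ≤ κ ∧ d w m ≤ gp d w x y + C := by
  refine ⟨3 * κ + 2 * δ, fun d hd hh hr x y w => ?_⟩
  have t1 := hd.tri y x w
  have t2 := hd.tri w y x
  have t3 := hd.tri y x w
  have t4 := hd.tri w x y
  have s1 := hd.symm x y
  have s2 := hd.symm x w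
  have s3 := hd.symm y w
  obtain ⟨m, h1, h2⟩ := hr x y (gp d x y w) (by unfold gp; linarith) (by unfold gp; linarith)
  have s4 := hd.symm x m
  have s5 := hd.symm y m
  have s6 := hd.symm w m
  have hκ : 0 ≤ κ := (abs_nonneg _).trans h1
  obtain ⟨h1, h1'⟩ := abs_le.1 h1
  obtain ⟨h2, h2'⟩ := abs_le.1 h2
  have h3 := hh x m y w
  refine ⟨m, by unfold gp at *; linarith, ?_⟩
  rcases min_cases (gp d x m y) (gp d x y w) with ⟨h4, -⟩ | ⟨h4, -⟩ <;> rw [h4] at h3 <;>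
    unfold gp at * <;> linarith

theorem ord_HypMorse {X : Type} {d : X → X → ℝ} {δ c e : ℝ} (hd : PM d) (hh : Hyp d δ)
    {x y a w : X} (ha : gp d a x y ≤ c) (hw : gp d w x y ≤ c) (h1 : d x a - d x w ≤ e)
    (h2 : d x w - d x a ≤ e) : d a w ≤ e + 2 * c + 2 * δ := by
  have h3 := hh x a y w
  have s1 := hd.symm x y
  have s2 := hd.symm x w
  have s3 := hd.symm y w
  have s4 := hd.symm x a
  have s5 := hd.symm y a
  rcases min_cases (gp d x a y) (gp d x y w) with ⟨h4, -⟩ | ⟨h4, -⟩ <;> rw [h4] at h3 <;>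
    unfold gp at * <;> linarith

theorem log_HypMorse {X : Type} {d : X → X → ℝ} {δ J ρ : ℝ} (hd : PM d) (hh : Hyp d δ)
    {z : ℕ → X} {n : ℕ} {w : X} (hJ0 : 0 ≤ J) (hJ : ∀ i, i + 1 ≤ n → d (z i) (z (i + 1)) ≤ J)
    (hρ : ∀ i, i ≤ n → ρ ≤ d w (z i)) (k : ℕ) :
    ∀ i j, i ≤ j → j ≤ n → j ≤ i + 2 ^ k → ρ - J - k * δ ≤ gp d w (z i) (z j) := by
  induction k with
  | zero =>
    intro i j hij hj hk
    have h1 := hρ i (hij.trans hj)
    have h2 := hρ j hj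
    have s1 := hd.symm w (z i)
    have s2 := hd.symm w (z j)
    have h3 : d (z i) (z j) ≤ J := by
      rcases (show j = i ∨ j = i + 1 by omega) with h | h
      · rw [h, hd.self]
        exact hJ0
      · rw [h]
        exact hJ i (h ▸ hj)
    unfold gp
    simp only [Nat.cast_zero, zero_mul, sub_zero]
    linarith
  | succ k ih =>
    intro i j hij hj hk
    rw [pow_succ] at hk
    have h1 := ih i (min j (i + 2 ^ k)) (by omega) (by omega) (by omega)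
    have h2 := ih (min j (i + 2 ^ k)) j (by omega) hj (by omega)
    have h3 := hh w (z i) (z (min j (i + 2 ^ k))) (z j)
    have h4 := le_min h1 h2
    push_cast
    linarith

theorem side_HypMorse {X : Type} {d : X → X → ℝ} {δ κ D ρ : ℝ} (hd : PM d) (hh : Hyp d δ)
    (hr : RG d κ) (hδ : 0 ≤ δ) (hκ : 0 ≤ κ) (hD : κ ≤ D) {z : ℕ → X} {n i₀ : ℕ} {y w : X}
    (hi : i₀ ≤ n) (hP : ∀ u, gp d u (z i₀) y ≤ κ → ∃ j, j ≤ n ∧ d u (z j) ≤ D)
    (hw : gp d w (z i₀) y ≤ κ) (hρ : ρ ≤ d w (z i₀)) (hρD : ρ ≤ D) :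
    ∃ i, i ≤ n ∧ ρ - κ ≤ gp d w (z i₀) (z i) ∧ d w (z i) ≤ 3 * D + 3 * κ + 2 * δ := by
  have s1 := hd.symm w (z i₀)
  rcases le_total (d (z i₀) w) (2 * D) with h | h
  · refine ⟨i₀, hi, ?_, by linarith⟩
    unfold gp
    rw [hd.self]
    linarith
  · have t1 := hd.tri (z i₀) y w
    obtain ⟨a, h1, h2⟩ := hr (z i₀) y (d (z i₀) w - 2 * D) (by linarith)
      (by unfold gp at hw; linarith)
    obtain ⟨h1, h1'⟩ := abs_le.1 h1
    obtain ⟨h2, h2'⟩ := abs_le.1 h2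
    have s2 := hd.symm y a
    have ha : gp d a (z i₀) y ≤ κ := by unfold gp; linarith
    obtain ⟨j, hj, hj'⟩ := hP a ha
    have h3 := ord_HypMorse (e := 2 * D + κ) hd hh ha hw (by linarith) (by linarith)
    have t2 := hd.tri w a (z j)
    have t3 := hd.tri (z i₀) a (z j)
    have t4 := hd.tri (z i₀) (z j) w
    have s3 := hd.symm w a
    refine ⟨j, hj, ?_, by linarith⟩
    unfold gp
    linarith

theorem gp_symm_HypMorse {X : Type} {d : X → X → ℝ} (hd : PM d) (w x y : X) :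
    gp d w x y = gp d w y x := by
  unfold gp
  rw [hd.symm x y, add_comm]

theorem step_HypMorse {X : Type} {d : X → X → ℝ} {δ κ K D : ℝ} (hd : PM d) (hh : Hyp d δ)
    (hr : RG d κ) (hδ : 0 ≤ δ) (hκ : 0 ≤ κ) (hK : 0 ≤ K) (hD : κ ≤ D) {z : ℕ → X} {n : ℕ}
    (hz : QG d K z n) (k : ℕ) (hk : K * (6 * D + 6 * κ + 4 * δ) + K ≤ 2 ^ k)
    (hP : ∀ u, gp d u (z 0) (z n) ≤ κ → ∃ j, j ≤ n ∧ d u (z j) ≤ D) (w : X)
    (hw : gp d w (z 0) (z n) ≤ κ) :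
    ∃ j, j ≤ n ∧ d w (z j) ≤ 2 * κ + 2 * K + (k + 2) * δ := by
  obtain ⟨j₀, hj₀, hmin⟩ := (Finset.range (n + 1)).exists_min_image (fun j => d w (z j))
    ⟨0, by simp⟩
  have hρ : ∀ i, i ≤ n → d w (z j₀) ≤ d w (z i) := fun i hi =>
    hmin i (Finset.mem_range.2 (Nat.lt_succ_of_le hi))
  refine ⟨j₀, Nat.le_of_lt_succ (Finset.mem_range.1 hj₀), ?_⟩
  generalize d w (z j₀) = ρ at hρ
  have hρD : ρ ≤ D := by
    obtain ⟨j, hj, hj'⟩ := hP w hw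
    exact (hρ j hj).trans hj'
  obtain ⟨a, ha, ha1, ha2⟩ := side_HypMorse hd hh hr hδ hκ hD (Nat.zero_le n) hP hw
    (hρ 0 (Nat.zero_le n)) hρD
  obtain ⟨b, hb, hb1, hb2⟩ := side_HypMorse (y := z 0) hd hh hr hδ hκ hD le_rfl
    (fun u hu => hP u (by rwa [gp_symm_HypMorse hd])) (by rwa [gp_symm_HypMorse hd])
    (hρ n le_rfl) hρD
  have hJ : ∀ i, i + 1 ≤ n → d (z i) (z (i + 1)) ≤ 2 * K := fun i hi => by
    have h1 := (hz i (i + 1) (by omega) hi).1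
    rw [show ((i : ℝ) - ((i + 1 : ℕ) : ℝ)) = -1 by push_cast; ring, abs_neg, abs_one] at h1
    linarith
  have hab : |(a : ℝ) - (b : ℝ)| ≤ 2 ^ k := by
    have h1 := (hz a b ha hb).2
    have t1 := hd.tri (z a) w (z b)
    have s1 := hd.symm w (z a)
    have h2 : K * d (z a) (z b) ≤ K * (6 * D + 6 * κ + 4 * δ) :=
      mul_le_mul_of_nonneg_left (by linarith) hK
    linarith
  obtain ⟨hab1, hab2⟩ := abs_le.1 hab
  have hlog := log_HypMorse hd hh (by linarith : 0 ≤ 2 * K) hJ hρ k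
  have hm : ρ - 2 * K - k * δ ≤ gp d w (z a) (z b) := by
    rcases le_total a b with h | h
    · refine hlog a b h hb ?_
      have : (b : ℝ) ≤ a + 2 ^ k := by linarith
      exact_mod_cast this
    · rw [gp_symm_HypMorse hd]
      refine hlog b a h ha ?_
      have : (a : ℝ) ≤ b + 2 ^ k := by linarith
      exact_mod_cast this
  rw [gp_symm_HypMorse hd] at hb1
  have h1 := hh w (z 0) (z a) (z b)
  have h2 := hh w (z 0) (z b) (z n)
  have hkδ : 0 ≤ (k : ℝ) * δ := mul_nonneg (Nat.cast_nonneg k) hδ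
  have h3 : ρ - κ - 2 * K - k * δ ≤ min (gp d w (z 0) (z a)) (gp d w (z a) (z b)) :=
    le_min (by linarith) (by linarith)
  have h4 : ρ - κ - 2 * K - k * δ - δ ≤ min (gp d w (z 0) (z b)) (gp d w (z b) (z n)) :=
    le_min (by linarith) (by linarith)
  linarith

theorem pow_HypMorse (A B : ℝ) (hA : 0 ≤ A) (hB : 0 ≤ B) :
    ∃ k₀ : ℕ, ∀ k : ℕ, k₀ ≤ k → A * k + B ≤ 2 ^ k := by
  have h1 : ∀ k : ℕ, (k : ℝ) + 1 ≤ 2 ^ k ∧ (k : ℝ) ^ 2 ≤ 2 * 2 ^ k := fun k => by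
    induction k with
    | zero => norm_num
    | succ k ih =>
      have : (0 : ℝ) ≤ k := Nat.cast_nonneg k
      rw [pow_succ (2 : ℝ) k]
      push_cast
      constructor <;> nlinarith [ih.1, ih.2]
  obtain ⟨k₀, hk₀⟩ := exists_nat_ge (2 * A + 2 * B + 1)
  refine ⟨k₀, fun k hk => ?_⟩
  have h2 : (k₀ : ℝ) ≤ k := by exact_mod_cast hk
  have h3 : 2 * A + 2 * B + 1 ≤ k := hk₀.trans h2
  have h4 : (1 : ℝ) ≤ k := by linarith
  have h5 : (2 * A + 2 * B) * k ≤ k * k := mul_le_mul_of_nonneg_right (by linarith) (by linarith)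
  have h6 : B * 1 ≤ B * k := mul_le_mul_of_nonneg_left h4 hB
  nlinarith [(h1 k).2]

theorem core_HypMorse (δ κ K : ℝ) : ∃ D : ℝ, ∀ {X : Type} (d : X → X → ℝ), PM d → Hyp d δ →
    RG d κ → ∀ (z : ℕ → X) (n : ℕ), QG d K z n → 0 ≤ δ ∧ 0 ≤ κ ∧ 0 ≤ K ∧ 0 ≤ D ∧
      ∀ w, gp d w (z 0) (z n) ≤ κ → ∃ j, j ≤ n ∧ d w (z j) ≤ D := by
  have hpos : ∀ {X : Type} (d : X → X → ℝ), PM d → Hyp d δ → RG d κ → ∀ (z : ℕ → X) (n : ℕ),
      QG d K z n → 0 ≤ δ ∧ 0 ≤ κ ∧ 0 ≤ K := fun d hd hh hr z n hz => by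
    refine ⟨?_, ?_, ?_⟩
    · have h1 := hh (z 0) (z 0) (z 0) (z 0)
      rw [min_self] at h1
      linarith
    · obtain ⟨m, h1, -⟩ := hr (z 0) (z 0) 0 le_rfl (hd.self _).ge
      exact (abs_nonneg _).trans h1
    · have h1 := (hz 0 0 (Nat.zero_le n) (Nat.zero_le n)).1
      rw [hd.self, sub_self, abs_zero, mul_zero, zero_add] at h1
      exact h1
  by_cases h0 : 0 ≤ δ ∧ 0 ≤ κ ∧ 0 ≤ K
  swap
  · exact ⟨0, fun d hd hh hr z n hz => (h0 (hpos d hd hh hr z n hz)).elim⟩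
  obtain ⟨hδ, hκ, hK⟩ := h0
  obtain ⟨k₀, hk₀⟩ := pow_HypMorse (K * (6 * (δ + 1)))
    (K * (6 * (2 * κ + 2 * K + 3 * (δ + 1)) + 6 * κ + 4 * δ) + K) (by positivity) (by positivity)
  refine ⟨2 * κ + 2 * K + (k₀ + 2) * (δ + 1), fun d hd hh hr z n hz =>
    ⟨hδ, hκ, hK, by positivity, ?_⟩⟩
  have key : ∀ m : ℕ, (∀ w, gp d w (z 0) (z n) ≤ κ → ∃ j, j ≤ n ∧
      d w (z j) ≤ 2 * κ + 2 * K + ((k₀ + m : ℕ) + 2) * (δ + 1)) →
      ∀ w, gp d w (z 0) (z n) ≤ κ → ∃ j, j ≤ n ∧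
        d w (z j) ≤ 2 * κ + 2 * K + (k₀ + 2) * (δ + 1) := by
    intro m
    induction m with
    | zero => exact fun h => h
    | succ m ih =>
      intro h
      refine ih fun w hw => ?_
      have h1 := hk₀ (k₀ + m) (Nat.le_add_right _ _)
      have h2 : (0 : ℝ) ≤ ((k₀ + m : ℕ) : ℝ) := Nat.cast_nonneg _
      rw [show ((k₀ + (m + 1) : ℕ) : ℝ) = ((k₀ + m : ℕ) : ℝ) + 1 by push_cast; ring] at h
      obtain ⟨j, hj, hj'⟩ := step_HypMorse hd hh hr hδ hκ hK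
        (by have : 0 ≤ (((k₀ + m : ℕ) : ℝ) + 1 + 2) * (δ + 1) := by positivity
            linarith) hz (k₀ + m) (le_of_eq_of_le (by ring) h1) h w hw
      exact ⟨j, hj, by nlinarith⟩
  obtain ⟨m, hm⟩ := exists_nat_ge (d (z 0) (z n))
  refine key m fun w hw => ⟨0, Nat.zero_le n, ?_⟩
  have t1 := hd.tri (z 0) (z n) w
  have s1 := hd.symm w (z 0)
  have h2 : (0 : ℝ) ≤ k₀ := Nat.cast_nonneg _
  have h3 : (0 : ℝ) ≤ m := Nat.cast_nonneg _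
  have h4 : 0 ≤ ((k₀ : ℝ) + m + 2) * δ := by positivity
  unfold gp at hw
  push_cast
  nlinarith

theorem mid_HypMorse (δ κ K : ℝ) : ∃ C : ℝ, ∀ {X : Type} (d : X → X → ℝ), PM d → Hyp d δ →
    RG d κ → ∀ (z : ℕ → X) (n : ℕ), QG d K z n → ∀ j, j ≤ n → gp d (z j) (z 0) (z n) ≤ C := by
  obtain ⟨D, hD⟩ := core_HypMorse δ κ K
  refine ⟨κ + D + (K * (K * (2 * D + 1 + 4 * κ + 2 * δ) + K) + K), fun d hd hh hr z n hz j hj => ?_⟩
  obtain ⟨hδ, hκ, hK, hD0, hP⟩ := hD d hd hh hr z n hz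
  have hL := nonneg_HypMorse hd (z 0) (z n)
  have s0 := hd.symm (z 0) (z n)
  obtain ⟨m, hm, hm'⟩ : ∃ m : ℕ, ¬¬((m : ℝ) ≤ d (z 0) (z n) ∧ ∃ w t, gp d w (z 0) (z n) ≤ κ ∧
      |d (z 0) w - m| ≤ κ ∧ t ≤ j ∧ d w (z t) ≤ D) ∧
      ¬(((m + 1 : ℕ) : ℝ) ≤ d (z 0) (z n) ∧ ∃ w t, gp d w (z 0) (z n) ≤ κ ∧
      |d (z 0) w - (m + 1 : ℕ)| ≤ κ ∧ t ≤ j ∧ d w (z t) ≤ D) := by
    refine Nat.exists_not_and_succ_of_not_zero_of_exists (p := fun m : ℕ =>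
      ¬((m : ℝ) ≤ d (z 0) (z n) ∧ ∃ w t, gp d w (z 0) (z n) ≤ κ ∧
        |d (z 0) w - m| ≤ κ ∧ t ≤ j ∧ d w (z t) ≤ D)) (not_not.2 ⟨by simpa using hL, z 0, 0, ?_,
          ?_, Nat.zero_le j, ?_⟩) ?_
    · unfold gp
      rw [hd.self]
      linarith
    · rw [hd.self]
      simpa using hκ
    · rw [hd.self]
      exact hD0
    · obtain ⟨N, hN⟩ := exists_nat_gt (d (z 0) (z n))
      exact ⟨N, fun h => absurd h.1 (not_le.2 hN)⟩
  obtain ⟨hm0, w, t, hw, hw1, ht, hw2⟩ := not_not.1 hm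
  obtain ⟨hw1, hw1'⟩ := abs_le.1 hw1
  obtain ⟨w', t', hv, hv1, hv1', ht', ht'', hv2⟩ : ∃ w' t', gp d w' (z 0) (z n) ≤ κ ∧
      (m : ℝ) - κ ≤ d (z 0) w' ∧ d (z 0) w' ≤ m + 1 + κ ∧ j ≤ t' ∧ t' ≤ n ∧ d w' (z t') ≤ D := by
    rcases le_total (((m + 1 : ℕ) : ℝ)) (d (z 0) (z n)) with h | h
    · obtain ⟨a, h1, h2⟩ := hr (z 0) (z n) ((m + 1 : ℕ) : ℝ) (Nat.cast_nonneg _) h
      obtain ⟨h3, h3'⟩ := abs_le.1 h1
      obtain ⟨h2, h2'⟩ := abs_le.1 h2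
      have s2 := hd.symm (z n) a
      have ha : gp d a (z 0) (z n) ≤ κ := by unfold gp; linarith
      obtain ⟨t', h4, h5⟩ := hP a ha
      push_cast at h3 h3'
      refine ⟨a, t', ha, by linarith, by linarith, ?_, h4, h5⟩
      by_contra h6
      exact hm' ⟨h, a, t', ha, h1, (not_le.1 h6).le, h5⟩
    · push_cast at h
      refine ⟨z n, n, ?_, by linarith, by linarith, hj, le_rfl, ?_⟩
      · unfold gp
        rw [hd.self]
        linarith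
      · rw [hd.self]
        exact hD0
  have h1 := ord_HypMorse (e := 1 + 2 * κ) hd hh hw hv (by linarith) (by linarith)
  have h2 : d (z t) (z t') ≤ 2 * D + 1 + 4 * κ + 2 * δ := by
    have t1 := hd.tri (z t) w (z t')
    have t2 := hd.tri w w' (z t')
    have s1 := hd.symm w (z t)
    linarith
  have h3 := (hz t t' (ht.trans hj) ht'').2
  have h4 := (hz t j (ht.trans hj) hj).1
  have c1 : (t : ℝ) ≤ j := by exact_mod_cast ht
  have c2 : (j : ℝ) ≤ t' := by exact_mod_cast ht'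
  rw [abs_of_nonpos (by linarith)] at h3 h4
  have h5 := mul_le_mul_of_nonneg_left h2 hK
  have h6 : K * -((t : ℝ) - j) ≤ K * (K * (2 * D + 1 + 4 * κ + 2 * δ) + K) :=
    mul_le_mul_of_nonneg_left (by linarith) hK
  have t3 := hd.tri w (z t) (z j)
  have t4 := hd.tri (z 0) w (z j)
  have t5 := hd.tri (z n) w (z j)
  unfold gp at hw ⊢
  linarith

theorem morse_a (δ κ K : ℝ) : ∃ C : ℝ, ∀ {X : Type} (d : X → X → ℝ), PM d → Hyp d δ → RG d κ →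
    ∀ (z : ℕ → X) (n : ℕ), QG d K z n → ∀ i j k, i ≤ j → j ≤ k → k ≤ n →
      gp d (z j) (z i) (z k) ≤ C := by
  obtain ⟨C, hC⟩ := mid_HypMorse δ κ K
  refine ⟨C, fun d hd hh hr z n hz i j k hij hjk hkn => ?_⟩
  have h := hC d hd hh hr (fun t => z (i + t)) (k - i) (fun a b ha hb => by
    have h1 := hz (i + a) (i + b) (by omega) (by omega)
    rwa [show ((i + a : ℕ) : ℝ) - ((i + b : ℕ) : ℝ) = a - b by push_cast; ring] at h1)
    (j - i) (by omega)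
  simp only [Nat.add_zero] at h
  rwa [show i + (j - i) = j by omega, show i + (k - i) = k by omega] at h

theorem morse_b (δ κ K c : ℝ) : ∃ C : ℝ, ∀ {X : Type} (d : X → X → ℝ), PM d → Hyp d δ →
    RG d κ → ∀ (z : ℕ → X) (n : ℕ), QG d K z n → ∀ w, gp d w (z 0) (z n) ≤ c →
      ∃ j, j ≤ n ∧ d w (z j) ≤ C := by
  obtain ⟨D, hD⟩ := core_HypMorse δ κ K
  obtain ⟨C, hC⟩ := near_pt δ κ
  refine ⟨c + C + D, fun d hd hh hr z n hz w hw => ?_⟩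
  obtain ⟨m, h1, h2⟩ := hC d hd hh hr (z 0) (z n) w
  obtain ⟨j, hj, h3⟩ := (hD d hd hh hr z n hz).2.2.2.2 m h1
  have t1 := hd.tri w m (z j)
  exact ⟨j, hj, by linarith⟩

end Pool.Agent.E5f
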