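import Pool.Agent.E5f.EndG0
import Pool.Agent.E5f.HypMorse

/-! The Morse lemma for the sequence. -/

set_option autoImplicit false

namespace Pool.Agent.E5f

variable {Q : Type} [MulAction G8 Q] {S : Base Q}


theorem qg_EndG2 (Z : Seq S) (i : ℤ) (n : ℕ) : QG S.dE Z.K (fun m : ℕ => Z.X (i + m)) n := by
  intro a b _ _
  have e : ((i + a : ℤ) : ℝ) - ((i + b : ℤ) : ℝ) = (a : ℝ) - (b : ℝ) := by
    push_cast
    ring
  have h1 := Z.up (i + a) (i + b)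
  have h2 := Z.low (i + a) (i + b)
  rw [e] at h1 h2
  exact ⟨h1, h2⟩

theorem rg_EndG2 (S : Base Q) : RG S.dE 1 := gd_rg S.out.conn

theorem K_nonneg_EndG2 (Z : Seq S) : 0 ≤ Z.K := by
  have h := Z.up 0 0
  rw [S.dE_pm.self, sub_self, abs_zero, mul_zero, zero_add] at h
  exact h

theorem ends_EndG2 (S : Base Q) (W X X' Y Y' : Q × ℤ) :
    gp S.dE W X Y ≤ gp S.dE W X' Y' + S.dE X X' + S.dE Y Y' := by
  have h1 := S.dE_pm.gp_left_E W X X' Y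
  have h2 := S.dE_pm.gp_right_E W X' Y Y'
  linarith

theorem Seq.mor_gp (Z : Seq S) (c : ℝ) : ∃ C : ℝ, 0 ≤ C ∧ ∀ (i j k : ℤ) (X Y : Q × ℤ) (v : Q),
    i ≤ j → j ≤ k → S.dE X (Z.X i) ≤ c → S.dE Y (Z.X k) ≤ c → S.D (Z.τ j) (Z.q j) v ≤ c →
    gp S.dE (v, Z.τ j) X Y ≤ C := by
  obtain ⟨δ, -, hδ⟩ := S.dE_hyp
  obtain ⟨C, hC⟩ := morse_a δ 1 Z.K
  refine ⟨max 0 (C + 3 * c + 1), le_max_left _ _, fun i j k X Y v hij hjk hX hY hv => ?_⟩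
  refine le_trans ?_ (le_max_right _ _)
  have h1 := hC S.dE S.dE_pm hδ (rg_EndG2 S) _ (k - i).toNat (qg_EndG2 Z i _) 0 (j - i).toNat
    (k - i).toNat (Nat.zero_le _) (by omega) le_rfl
  have e1 : i + ((j - i).toNat : ℤ) = j := by omega
  have e2 : i + ((k - i).toNat : ℤ) = k := by omega
  simp only [e1, e2, Nat.cast_zero, add_zero] at h1
  have h2 := ends_EndG2 S (v, Z.τ j) X (Z.X i) Y (Z.X k)
  have h3 := S.dE_pm.gp_base_E (v, Z.τ j) (Z.X j) (Z.X i) (Z.X k)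
  have h4 : S.dE (Z.X j) (v, Z.τ j) ≤ S.D (Z.τ j) (Z.q j) v + 1 := S.dE_fib _ _ _
  have h5 := S.dE_pm.symm (Z.X j) (v, Z.τ j)
  linarith

theorem Seq.mor_near (Z : Seq S) (c : ℝ) : ∃ C : ℝ, 0 ≤ C ∧ ∀ (i j k : ℤ) (X Y : Q × ℤ),
    i ≤ j → j ≤ k → S.dE X (Z.X i) ≤ c → S.dE Y (Z.X k) ≤ c →
    ∃ v, Btw S.dv S.dh X.1 v Y.1 ∧ S.D (Z.τ j) (Z.q j) v ≤ C := by
  obtain ⟨C1, -, h1⟩ := Z.mor_gp (max c 0)
  obtain ⟨C2, h2⟩ := S.out.out1 C1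
  obtain ⟨C3, h3⟩ := S.nearD
  refine ⟨max 0 (C2 + C3), le_max_left _ _, fun i j k X Y hij hjk hX hY => ?_⟩
  have a1 := h1 i j k X Y (Z.q j) hij hjk (hX.trans (le_max_left _ _)) (hY.trans (le_max_left _ _))
    (by rw [(S.D_pm _).self]; exact le_max_right _ _)
  have a2 : gp (S.D (Z.τ j)) (Z.q j) X.1 Y.1 ≤ C2 := h2 (Z.q j, Z.τ j) X Y a1
  obtain ⟨v, a3, a4⟩ := h3 (Z.τ j) (Z.q j) X.1 Y.1
  exact ⟨v, a3, le_trans (by linarith) (le_max_right _ _)⟩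

theorem Seq.mor_conv (Z : Seq S) (c : ℝ) : ∃ C : ℝ, 0 ≤ C ∧ ∀ (i k : ℤ) (X Y : Q × ℤ) (v : Q),
    i ≤ k → S.dE X (Z.X i) ≤ c → S.dE Y (Z.X k) ≤ c → Btw S.dv S.dh X.1 v Y.1 →
    ∃ l, i ≤ l ∧ l ≤ k ∧ S.D (Z.τ l) (Z.q l) v ≤ C := by
  obtain ⟨δ, -, hδ⟩ := S.dE_hyp
  obtain ⟨C1, h1⟩ := S.out.out2 0
  obtain ⟨C2, h2⟩ := morse_b δ 1 Z.K (C1 + 2 * c)
  obtain ⟨C3, h3⟩ := S.out.fib_near C2
  refine ⟨max 0 C3, le_max_left _ _, fun i k X Y v hik hX hY hv => ?_⟩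
  obtain ⟨t, ht⟩ := h1 v X Y fun b => by
    refine ((S.D_pm b).on_iff.1 ?_).le
    simp only [On, Base.D]
    rw [← hv.1, ← hv.2]
    ring
  have ht' : gp S.dE (v, t) X Y ≤ C1 := ht
  have e2 : i + ((k - i).toNat : ℤ) = k := by omega
  obtain ⟨m, hm, hm'⟩ := h2 S.dE S.dE_pm hδ (rg_EndG2 S) _ (k - i).toNat (qg_EndG2 Z i _) (v, t) (by
    simp only [e2, Nat.cast_zero, add_zero]
    have a1 := ends_EndG2 S (v, t) (Z.X i) X (Z.X k) Y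
    have a2 := S.dE_pm.symm X (Z.X i)
    have a3 := S.dE_pm.symm Y (Z.X k)
    linarith)
  refine ⟨i + m, by omega, by omega, le_trans ?_ (le_max_right _ _)⟩
  rw [S.dE_pm.symm] at hm'
  exact h3 (Z.X (i + m)) (v, t) hm'

/-- The height moves at bounded speed. -/
theorem Seq.step (Z : Seq S) : ∃ m0 : ℤ, 1 ≤ m0 ∧ ∀ i j, |Z.τ i - Z.τ j| ≤ m0 * |i - j| := by
  refine ⟨max 1 ⌈2 * Z.K⌉, le_max_left _ _, fun i j => ?_⟩
  rcases eq_or_ne i j with rfl | hij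
  · simp
  have h1 := (S.le_dE (Z.q i) (Z.q j) (Z.τ i) (Z.τ j)).trans (Z.up i j)
  have h2 : (1 : ℝ) ≤ |(i : ℝ) - (j : ℝ)| := by
    exact_mod_cast Int.one_le_abs (sub_ne_zero.2 hij)
  have h3 : 2 * Z.K ≤ ((max 1 ⌈2 * Z.K⌉ : ℤ) : ℝ) :=
    (Int.le_ceil _).trans (Int.cast_le.2 (le_max_right _ _))
  have h4 := K_nonneg_EndG2 Z
  have h5 : |(Z.τ i : ℝ) - (Z.τ j : ℝ)| ≤ ((max 1 ⌈2 * Z.K⌉ : ℤ) : ℝ) * |(i : ℝ) - (j : ℝ)| := by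
    nlinarith [mul_le_mul_of_nonneg_left h2 h4, mul_le_mul_of_nonneg_right h3 (zero_le_one.trans h2)]
  exact_mod_cast h5

/-- The sequence leaves every bounded region. -/
theorem Seq.unbd (Z : Seq S) (C : ℝ) : ∃ n : ℤ, ∀ k, Z.a k ≤ C → (Z.a k)⁻¹ ≤ C →
    S.D (Z.τ k) (Z.q 0) (Z.q k) ≤ C → |k| ≤ n := by
  obtain ⟨b, -, hb⟩ := S.lam_big C
  refine ⟨⌈Z.K * (b + C + 1) + Z.K⌉, fun k h1 h2 h3 => ?_⟩
  have a1 : Z.τ k ≤ b := (zpow_le_zpow_iff_right₀ S.lam1).1 (h1.trans hb)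
  have a2 : -Z.τ k ≤ b := by
    refine (zpow_le_zpow_iff_right₀ S.lam1).1 (le_trans ?_ hb)
    rw [zpow_neg]
    exact h2
  have a3 : |((Z.τ 0 : ℤ) : ℝ) - (Z.τ k : ℝ)| ≤ b := by
    rw [Z.τ0]
    exact_mod_cast abs_le.2 ⟨by omega, by omega⟩
  have a4 := S.dE_vert (Z.q 0) (Z.τ 0) (Z.τ k)
  have a5 := S.dE_fib (Z.q 0) (Z.q k) (Z.τ k)
  have a6 := S.dE_pm.tri (Z.q 0, Z.τ 0) (Z.q 0, Z.τ k) (Z.q k, Z.τ k)
  have a7 := Z.low 0 k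
  have a8 := mul_le_mul_of_nonneg_left (show S.dE (Z.q 0, Z.τ 0) (Z.q k, Z.τ k) ≤ b + C + 1 by
    linarith) (K_nonneg_EndG2 Z)
  rw [Int.cast_zero, zero_sub, abs_neg] at a7
  have a9 : |(k : ℝ)| ≤ (⌈Z.K * (b + C + 1) + Z.K⌉ : ℤ) := le_trans (by linarith) (Int.le_ceil _)
  exact_mod_cast a9

theorem Seq.Comp.dE_le {Z : Seq S} {k : ℤ} {q' : Q} (h : Z.Comp k q') :
    S.dE (q', Z.τ k) (Z.X k) ≤ 2 := by
  have h1 : S.dE (Z.X k) (q', Z.τ k) ≤ S.D (Z.τ k) (Z.q k) q' + 1 := S.dE_fib _ _ _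
  rw [Z.D_eq, h.h0, h.v1, mul_inv_cancel₀ (Z.a_pos k).ne', mul_zero] at h1
  rw [S.dE_pm.symm]
  linarith

theorem Seq.not_bdd (Z : Seq S) {B B' : ℝ} (h : Z.Bdd B) (h' : Z.swap.Bdd B') : False := by
  obtain ⟨n, hn⟩ := Z.unbd (B + B')
  have h0 : 0 ≤ |n| + 1 := by positivity
  have h1 := h _ h0
  have h2 := h' _ h0
  rw [Z.a_swap] at h2
  have h3 : (Z.a (|n| + 1))⁻¹ * (1 + S.dh (Z.q 0) (Z.q (|n| + 1))) ≤ B' := h2
  have a1 := Z.a_pos (|n| + 1)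
  have a2 := inv_pos.2 a1
  have a3 := mul_nonneg a1.le (S.bi.pv.nonneg_E (Z.q 0) (Z.q (|n| + 1)))
  have a4 := mul_nonneg a2.le (S.bi.ph.nonneg_E (Z.q 0) (Z.q (|n| + 1)))
  rw [mul_add, mul_one] at h1 h3
  have a5 := hn (|n| + 1) (by linarith) (by linarith) (by rw [Z.D_eq]; linarith)
  rw [abs_of_nonneg h0] at a5
  have a6 := le_abs_self n
  omega

theorem Seq.good_or (Z : Seq S) : Z.FGood ∨ ∃ B, Z.Bdd B := by
  refine or_iff_not_imp_left.2 fun h => ?_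
  simp only [Seq.FGood, not_forall, not_exists, not_and, not_le] at h
  obtain ⟨A, k0, h⟩ := h
  have h0 : ∀ k, 0 ≤ Z.a k * (1 + S.dv (Z.q 0) (Z.q k)) := fun k =>
    mul_nonneg (Z.a_pos k).le (add_nonneg zero_le_one (S.bi.pv.nonneg_E _ _))
  refine ⟨|A| + ∑ k ∈ Finset.Ico 0 k0, Z.a k * (1 + S.dv (Z.q 0) (Z.q k)), fun k hk => ?_⟩
  rcases le_or_gt k0 k with h1 | h1
  · have a1 := h k h1
    have a2 := le_abs_self A
    have a3 := Finset.sum_nonneg (s := Finset.Ico 0 k0) fun k _ => h0 k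
    linarith
  · have a1 := Finset.single_le_sum (s := Finset.Ico 0 k0) (fun k _ => h0 k)
      (Finset.mem_Ico.2 ⟨hk, h1⟩)
    have a2 := abs_nonneg A
    linarith

theorem Seq.FGood.cases {Z : Seq S} (h : Z.FGood) : Z.UpE ∨ Z.FrE := by
  refine or_iff_not_imp_right.2 fun hf => ?_
  simp only [Seq.FrE, not_forall, not_exists, not_and, not_le] at hf
  obtain ⟨A0, k1, hf⟩ := hf
  refine ⟨A0, fun A k0 => ?_⟩
  obtain ⟨k, hk, h1⟩ := h (max A0 (A * (1 + |A0|))) (max k0 k1)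
  have h2 := hf k ((le_max_right _ _).trans hk) ((le_max_left _ _).trans h1)
  refine ⟨k, (le_max_left _ _).trans hk, ?_, h2.le⟩
  have h3 : A * (1 + |A0|) ≤ Z.a k * (1 + |A0|) :=
    ((le_max_right _ _).trans h1).trans (mul_le_mul_of_nonneg_left
      (by linarith [le_abs_self A0]) (Z.a_pos k).le)
  exact le_of_mul_le_mul_right h3 (by positivity)

end Pool.Agent.E5f
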