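import Pool.Agent.E5f.LsChain

set_option autoImplicit false

namespace Pool.Agent.E5f

open Classical

variable {L κ : Type} [LinearOrder κ]

theorem bounds_LsCC {k : L → κ} {p : List L} (hm : Mono k true p) (h2 : 2 ≤ p.length) {l r : L}
    (hl : p.head? = some l) (hr : p.getLast? = some r) :
    k l < k r ∧ ∀ x ∈ p, k l ≤ k x ∧ k x ≤ k r := by
  have hm' : p.IsChain (fun x y => k x < k y) := hm.imp fun x y h => by simpa using h
  have : Trans (fun x y => k x < k y) (fun x y => k x < k y) (fun x y => k x < k y) := ⟨lt_trans⟩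
  have hp := List.isChain_iff_pairwise.1 hm'
  obtain ⟨t, rfl⟩ := List.head?_eq_some_iff.1 hl
  obtain ⟨t', e⟩ := List.getLast?_eq_some_iff.1 hr
  have h1 : ∀ x ∈ t, k l < k x := (List.pairwise_cons.1 hp).1
  have h3 : ∀ x ∈ t', k x < k r := fun x hx =>
    (List.pairwise_append.1 (e ▸ hp)).2.2 x hx r (by simp)
  refine ⟨?_, fun x hx => ⟨?_, ?_⟩⟩
  · cases t' with
    | nil =>
      rw [e] at h2
      simp at h2
    | cons y t' => exact h3 l (by rw [(List.cons.inj e).1]; simp)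
  · rcases List.mem_cons.1 hx with rfl | hx
    · exact le_rfl
    · exact (h1 x hx).le
  · rw [e] at hx
    rcases List.mem_append.1 hx with hx | hx
    · exact (h3 x hx).le
    · rw [List.mem_singleton.1 hx]

theorem swL_not_LsCC {a b : L} (p : List L) (hb : b ∉ p) : swL a b p = p := by
  fun_induction swL a b p <;> grind

theorem enter_LsCC {a b : L} {p : List L} (hp : Rd p) (h2 : 2 ≤ p.length) (ha : a ∉ p)
    (hb : p.head? = some b) : a ∈ swL a b p := by
  match p, hp, h2, ha, hb with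
  | [x, y], hp, _, ha, hb =>
    have h1 : x ≠ y := by simpa [Rd] using hp
    simp_all [swL, eq_comm]
  | x :: y :: z :: t, hp, _, ha, hb =>
    have h1 : x ≠ y := (List.isChain_cons_cons.1 hp).1
    simp_all [swL, eq_comm]

theorem ends_LsCC {S : Set L} {a b : L} (ha : a ∈ S) (hab : a ≠ b) {p : List L} (hp : Pth S p)
    (h2 : 2 ≤ p.length) (hb : p.head? = some b ∨ p.getLast? = some b) :
    (a ∉ p → a ∈ swL a b p) ∧ (a ∉ swL a b p → a ∈ p) := by
  have key : ∀ p : List L, Rd p → 2 ≤ p.length → (p.head? = some b ∨ p.getLast? = some b) →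
      a ∉ p → a ∈ swL a b p := fun p hp h2 hb ha => by
    rcases hb with hb | hb
    · exact enter_LsCC hp h2 ha hb
    · have := enter_LsCC (p := p.reverse) (List.isChain_reverse.2 (hp.imp fun _ _ h => h.symm))
        (by simpa using h2) (by simpa using ha) (by simpa using hb)
      rwa [swL_reverse hab hp, List.mem_reverse] at this
  refine ⟨key p hp.rd h2 hb, fun h => ?_⟩
  have := key _ (swL_pth ha hab hp).rd (swL_two a b h2) (by rwa [swL_head, swL_last]) h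
  rwa [swL_swL hab hp.rd] at this

theorem inner_LsCC {S : Set L} {k : L → κ} {a b : L} (hk : Function.Injective k)
    (hA : Adjc S k a b) {p : List L} (hp : Pth S p) (hm : Mono k true p)
    (hm' : Mono (ks k a b) true (swL a b p)) (h1 : p.head? ≠ some b) (h2 : p.getLast? ≠ some b) :
    a ∈ swL a b p ↔ a ∈ p := by
  by_cases hb : b ∈ p
  · have hA' : Adjc S (ks k a b) a b := ⟨hA.ha, hA.hb, hA.ne, fun c hc h3 h4 => by
      simp only [ks, Function.comp_apply, Equiv.swap_apply_left, Equiv.swap_apply_right,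
        Equiv.swap_apply_of_ne_of_ne h3 h4]
      exact (hA.adj c hc h3 h4).symm⟩
    have e : ks (ks k a b) a b = k := funext fun x => by simp [ks]
    refine iff_of_true (mono_imp (ks_inj hk a b) hA' (swL_pth hA.ha hA.ne hp) hm' ?_ ?_ ?_ ?_)
      (mono_imp hk hA hp hm hm' h1 h2 hb)
    · rwa [e, swL_swL hA.ne hp.rd]
    · rwa [swL_head]
    · rwa [swL_last]
    · rwa [swL_mem hA.ne.symm]
  · rw [swL_not_LsCC p hb]

theorem chn_LsCC {S : Set L} {k0 k1 : L → κ} (c1 c2 : List (L × L)) : ∀ k : L → κ,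
    Function.Injective k → Chn S k0 k1 k (c1 ++ c2) →
    Function.Injective (kend k c1) ∧ Chn S k0 k1 (kend k c1) c2 ∧
      ∀ p, Pth S p → Pth S (act c1 p) := by
  induction c1 with
  | nil => exact fun k hk h => ⟨hk, h, fun p hp => hp⟩
  | cons e c1 ih =>
    intro k hk h
    obtain ⟨h1, h2, h3⟩ := ih _ (ks_inj hk e.1 e.2) h.2.2.2
    exact ⟨h1, h2, fun p hp => h3 _ (swL_pth h.1.ha h.1.ne hp)⟩

section
variable {S : Set L} {k0 k1 : L → κ} {c : List (L × L)} (h : FCh S k0 k1 c) {q : List L}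
  (hq : Pth S q) (h2 : 2 ≤ q.length) (hp : Pers k0 true c q) {l r : L}
  (hl : q.head? = some l) (hr : q.getLast? = some r)
include h hq h2 hp hl hr

omit h hq in
theorem bd_LsCC {c1 c2 : List (L × L)} (hc : c = c1 ++ c2) : kend k0 c1 l < kend k0 c1 r ∧
    ∀ x ∈ act c1 q, kend k0 c1 l ≤ kend k0 c1 x ∧ kend k0 c1 x ≤ kend k0 c1 r :=
  bounds_LsCC (hp c1 c2 hc) (act_two c1 h2) (by rwa [act_head]) (by rwa [act_last])

omit h2 hl hr in
theorem stage_LsCC {c1 c2 : List (L × L)} {a b : L} (hc : c = c1 ++ (a, b) :: c2) :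
    Function.Injective (kend k0 c1) ∧ Adjc S (kend k0 c1) a b ∧
      (kend k0 c1 a < kend k0 c1 b ↔ k0 a < k0 b) ∧ Pth S (act c1 q) ∧
      Mono (kend k0 c1) true (act c1 q) ∧
      Mono (ks (kend k0 c1) a b) true (swL a b (act c1 q)) := by
  obtain ⟨h1, h3, h4⟩ := chn_LsCC c1 ((a, b) :: c2) k0 h.inj0 (hc ▸ h.chn)
  have h5 := hp (c1 ++ [(a, b)]) c2 (by simp [hc])
  rw [kend_append, act_append] at h5
  exact ⟨h1, h3.1, h3.2.1, h4 q hq, hp c1 _ hc, h5⟩

omit h h2 hp in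
theorem mem_LsCC : l ∈ S ∧ r ∈ S :=
  ⟨hq.sub l (List.mem_of_mem_head? hl), hq.sub r (List.mem_of_mem_getLast? hr)⟩

theorem pers_ends : k0 l < k0 r ∧ k1 l < k1 r :=
  ⟨(bd_LsCC h2 hp hl hr (c1 := []) rfl).1,
    (h.fin l (mem_LsCC hq hl hr).1 r (mem_LsCC hq hl hr).2).1
      (bd_LsCC h2 hp hl hr (List.append_nil c).symm).1⟩

theorem inv_LsCC {β u v : L} (huv : u = l ∧ v = r ∧ k0 β < k0 l ∨ u = r ∧ v = l ∧ k0 r < k0 β)
    (c1 : List (L × L)) : ∀ c2, c = c1 ++ c2 → (β, v) ∉ c1 → (β ∈ act c1 q ↔ (β, u) ∈ c1) := by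
  induction c1 using List.reverseRecOn with
  | nil =>
    intro c2 hc _
    refine iff_of_false (fun hβ => ?_) (by simp)
    have := (bd_LsCC h2 hp hl hr hc).2 β hβ
    rcases huv with ⟨-, -, h0⟩ | ⟨-, -, h0⟩
    · exact absurd this.1 h0.not_ge
    · exact absurd this.2 h0.not_ge
  | append_singleton c1 e ih =>
    intro c2 hc hv
    obtain ⟨a, b⟩ := e
    rw [List.append_assoc, List.singleton_append] at hc
    rw [List.mem_append, List.mem_singleton, not_or] at hv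
    have ih := ih _ hc hv.1
    obtain ⟨h1, h3, h4, h5, h6, h7⟩ := stage_LsCC h hq hp hc
    have hh : (act c1 q).head? = some l := by rwa [act_head]
    have ht : (act c1 q).getLast? = some r := by rwa [act_last]
    rw [act_append, List.mem_append, List.mem_singleton]
    change β ∈ swL a b (act c1 q) ↔ _
    by_cases e1 : β = a
    swap
    · rw [swL_mem e1, ih]
      simp [e1]
    subst e1
    have e2 : b ≠ v := fun e => hv.2 (by rw [e])
    by_cases e3 : b = u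
    · subst e3
      refine iff_of_true ((ends_LsCC h3.ha h3.ne h5 (act_two c1 h2) ?_).1 fun hβ => ?_) (.inr rfl)
      · rcases huv with ⟨rfl, -, -⟩ | ⟨rfl, -, -⟩
        exacts [.inl hh, .inr ht]
      · have := (bd_LsCC h2 hp hl hr hc).2 β hβ
        rcases huv with ⟨rfl, -, h0⟩ | ⟨rfl, -, h0⟩
        · exact absurd this.1 (h4.2 h0).not_ge
        · exact h3.ne (h1 (le_antisymm this.2 (not_lt.1 fun h8 => h0.not_gt (h4.1 h8))))
    · have e4 : b ≠ l ∧ b ≠ r := by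
        rcases huv with ⟨rfl, rfl, -⟩ | ⟨rfl, rfl, -⟩
        exacts [⟨e3, e2⟩, ⟨e2, e3⟩]
      rw [inner_LsCC h1 h3 h5 h6 h7 (by rw [hh]; simpa using e4.1.symm)
        (by rw [ht]; simpa using e4.2.symm), ih]
      simp [Ne.symm e3]

theorem cc2_LsCC {β u v : L} (hβ : β ∈ S)
    (huv : u = l ∧ v = r ∧ k0 β < k0 l ∧ k1 r < k1 β ∨ u = r ∧ v = l ∧ k0 r < k0 β ∧ k1 β < k1 l) :
    ((β, u) ∈ c ↔ (β, v) ∈ c) := by
  have hi := inv_LsCC h hq h2 hp hl hr (β := β) (u := u) (v := v) (by tauto)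
  obtain ⟨m1, m2⟩ := mem_LsCC hq hl hr
  have e0 := (pers_ends h hq h2 hp hl hr).1
  constructor
  · intro hu
    by_contra hv
    have := (bd_LsCC h2 hp hl hr (List.append_nil c).symm).2 β
      ((hi c [] (List.append_nil c).symm hv).2 hu)
    rcases huv with ⟨-, -, -, h1⟩ | ⟨-, -, -, h1⟩
    · exact absurd this.2 ((h.fin r m2 β hβ).2 h1).not_ge
    · exact absurd this.1 ((h.fin β hβ l m1).2 h1).not_ge
  · intro hv
    obtain ⟨c1, c2, hc, hv'⟩ := List.eq_append_cons_of_mem hv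
    obtain ⟨h1, h3, h4, h5, h6, h7⟩ := stage_LsCC h hq hp hc
    have hh : (act c1 q).head? = some l := by rwa [act_head]
    have ht : (act c1 q).getLast? = some r := by rwa [act_last]
    have key : β ∈ act c1 q := by
      refine (ends_LsCC h3.ha h3.ne h5 (act_two c1 h2) ?_).2 fun hm => ?_
      · rcases huv with ⟨-, rfl, -⟩ | ⟨-, rfl, -⟩
        exacts [.inr ht, .inl hh]
      · have := (bounds_LsCC h7 (swL_two _ _ (act_two c1 h2)) (by rwa [swL_head])
          (by rwa [swL_last])).2 β hm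
        rcases huv with ⟨-, rfl, h0, -⟩ | ⟨-, rfl, h0, -⟩
        · simp only [ks, Function.comp_apply, Equiv.swap_apply_left, Equiv.swap_apply_right] at this
          exact absurd this.2 (h4.2 (h0.trans e0)).not_ge
        · simp only [ks, Function.comp_apply, Equiv.swap_apply_left, Equiv.swap_apply_right] at this
          exact h3.ne (h1 (le_antisymm this.1
            (not_lt.1 fun h8 => (e0.trans h0).not_gt (h4.1 h8))))
    rw [hc]
    exact List.mem_append_left _ ((hi c1 _ hc hv').1 key)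

theorem cc2a {β : L} (hβ : β ∈ S) (h0 : k0 β < k0 l) (h1 : k1 r < k1 β) :
    ((β, l) ∈ c ↔ (β, r) ∈ c) := cc2_LsCC h hq h2 hp hl hr hβ (.inl ⟨rfl, rfl, h0, h1⟩)

theorem cc2b {α : L} (hα : α ∈ S) (h0 : k0 r < k0 α) (h1 : k1 α < k1 l) :
    ((α, l) ∈ c ↔ (α, r) ∈ c) := (cc2_LsCC h hq h2 hp hl hr hα (.inr ⟨rfl, rfl, h0, h1⟩)).symm

theorem cc1 {α β : L} (hα : α ∈ S) (hβ : β ∈ S) (b0 : k0 β < k0 l) (b1 : k1 β < k1 r)
    (a0 : k0 r < k0 α) (a1 : k1 l < k1 α) (hx : k1 α < k1 β) :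
    ((β, l) ∈ c → (r, α) ∈ c → (β, α) ∈ c) ∧ ((l, β) ∈ c → (α, r) ∈ c → (α, β) ∈ c) := by
  obtain ⟨m1, m2⟩ := mem_LsCC hq hl hr
  have e0 := (pers_ends h hq h2 hp hl hr).1
  have hn : ∀ x y, k0 x < k0 y → k1 x < k1 y → (x, y) ∉ c ∧ (y, x) ∉ c := fun x y h0 h1 =>
    ⟨fun hm => h1.not_gt ((fch_mem h hm).2.2.2.1 h0),
      fun hm => h0.not_gt ((fch_mem h hm).2.2.2.2 h1)⟩
  have n1 := hn β r (b0.trans e0) b1
  have n2 := hn l α (e0.trans a0) a1
  have i1 := (fch_inv h hβ m1 b0 (a1.trans hx)).2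
  have i2 := (fch_inv h m2 hα a0 (hx.trans b1)).2
  have i3 := (fch_inv h hβ hα (b0.trans (e0.trans a0)) hx).1
  have hβl : β ≠ l := fun e => b0.ne (by rw [e])
  have hβr : β ≠ r := fun e => b1.ne (by rw [e])
  have hαl : α ≠ l := fun e => a1.ne (by rw [e])
  have hαr : α ≠ r := fun e => a0.ne (by rw [e])
  have hi : ∀ c1 c2, c = c1 ++ c2 → (∀ e ∈ c1, e ∈ c) ∧ (β ∈ act c1 q ↔ (β, l) ∈ c1) ∧
      (α ∈ act c1 q ↔ (α, r) ∈ c1) := fun c1 c2 hc => by
    have hs : ∀ e ∈ c1, e ∈ c := fun e he => hc ▸ List.mem_append_left _ he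
    exact ⟨hs, inv_LsCC h hq h2 hp hl hr (.inl ⟨rfl, rfl, b0⟩) c1 c2 hc fun hm => n1.1 (hs _ hm),
      inv_LsCC h hq h2 hp hl hr (.inr ⟨rfl, rfl, a0⟩) c1 c2 hc fun hm => n2.2 (hs _ hm)⟩
  constructor
  · intro p1 p2
    refine i3.resolve_right fun hm => ?_
    obtain ⟨c1, c2, hc⟩ := List.append_of_mem hm
    obtain ⟨h1, h3, -, h5, h6, h7⟩ := stage_LsCC h hq hp hc
    obtain ⟨hs, j1, j2⟩ := hi c1 _ hc
    have s1 := (fch_stage h hc m1 hα (e0.trans a0)).2
      (fun hm => hm.elim (fun hm => n2.1 (hs _ hm)) fun hm => n2.2 (hs _ hm))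
    have s2 := (h3.adj l m1 hαl.symm hβl.symm).1 s1
    have s3 := not_not.1 (mt (fch_stage h hc hβ m1 b0).2 s2.not_gt)
    have s4 := j1.2 (s3.resolve_right fun hm => i1 ⟨p1, hs _ hm⟩)
    exact i2 ⟨p2, hs _ (j2.1 (mono_imp h1 h3 h5 h6 h7 (by rw [act_head, hl]; simpa using hβl.symm)
      (by rw [act_last, hr]; simpa using hβr.symm) s4))⟩
  · intro p1 p2
    refine i3.resolve_left fun hm => ?_
    obtain ⟨c1, c2, hc⟩ := List.append_of_mem hm
    obtain ⟨h1, h3, -, h5, h6, h7⟩ := stage_LsCC h hq hp hc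
    obtain ⟨hs, j1, j2⟩ := hi c1 _ hc
    have s1 := (fch_stage h hc hβ m2 (b0.trans e0)).2
      (fun hm => hm.elim (fun hm => n1.1 (hs _ hm)) fun hm => n1.2 (hs _ hm))
    have s2 := mt (h3.adj r m2 hβr.symm hαr.symm).2 s1.not_gt
    have s3 := not_not.1 (mt (fch_stage h hc m2 hα a0).2 s2)
    have s4 := j2.2 (s3.resolve_left fun hm => i2 ⟨hs _ hm, p2⟩)
    exact i1 ⟨hs _ (j1.1 (mono_imp h1 h3 h5 h6 h7 (by rw [act_head, hl]; simpa using hαl.symm)
      (by rw [act_last, hr]; simpa using hαr.symm) s4)), p1⟩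

end

end Pool.Agent.E5f
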