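import Pool.Agent.E5f.LsChain

set_option autoImplicit false

namespace Pool.Agent.E5f

open Classical

variable {L κ : Type} [LinearOrder κ]

/-- The cut between two consecutive pieces is a turn. -/
def Cut_LsTrackT (k : L → κ) (u v : List L) : Prop :=
  ∃ A x y z B, u = A ++ [x, y] ∧ v = y :: z :: B ∧ ¬ (k x < k y ↔ k y < k z)

/-- The path starts with a piece of gain zero. -/
def St_LsTrackT (k : L → κ) (a b : L) (v : List L) : Prop :=
  ∃ x y A B, v = x :: y :: A ++ B ∧ gn k a b (x :: y :: A) = 0

/-- A cut which is a turn between two pieces of gain zero. -/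
def Good_LsTrackT (k : L → κ) (a b : L) (u v : List L) : Prop :=
  Cut_LsTrackT k u v ∧ St_LsTrackT k a b u.reverse ∧ St_LsTrackT k a b v

theorem glue_head_LsTrackT (q : List L) (R : List (List L)) : ∃ w, glue (q :: R) = q ++ w := by
  cases R with
  | nil => exact ⟨[], by simp [glue]⟩
  | cons r R => exact ⟨_, rfl⟩

theorem glue_app_LsTrackT (A e : List L) (E : List (List L)) :
    glue ((A ++ e) :: E) = A ++ glue (e :: E) := by
  cases E with
  | nil => rfl
  | cons r R => simp [glue]

theorem glue_two_LsTrackT (q r : List L) (R : List (List L)) :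
    glue (q :: r :: R) = q ++ (glue (r :: R)).tail := rfl

theorem st_app_LsTrackT {k : L → κ} {a b : L} {v : List L} (h : St_LsTrackT k a b v)
    (w : List L) : St_LsTrackT k a b (v ++ w) := by
  obtain ⟨x, y, A, B, rfl, h0⟩ := h
  exact ⟨x, y, A, B ++ w, by simp, h0⟩

theorem good_app_LsTrackT {k : L → κ} {a b : L} {u v : List L} (h : Good_LsTrackT k a b u v)
    (C : List L) : Good_LsTrackT k a b (C ++ u) v := by
  obtain ⟨⟨A, x, y, z, B, hu, hv, ht⟩, h1, h2⟩ := h
  refine ⟨⟨C ++ A, x, y, z, B, by simp [hu], hv, ht⟩, ?_, h2⟩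
  rw [List.reverse_append]
  exact st_app_LsTrackT h1 _

theorem chain_app_LsTrackT {k : L → κ} {a b : L} {u : List L} {E : List (List L)}
    (h : (u :: E).IsChain (Good_LsTrackT k a b)) (C : List L) :
    ((C ++ u) :: E).IsChain (Good_LsTrackT k a b) := by
  cases E with
  | nil => exact List.isChain_singleton _
  | cons v E =>
    rw [List.isChain_cons_cons] at h ⊢
    exact ⟨good_app_LsTrackT h.1 C, h.2⟩

theorem dec_cut_LsTrackT {k : L → κ} {D : List (List L)} (hne : D ≠ [])
    (h2 : ∀ v ∈ D, 2 ≤ v.length) (hc : D.IsChain (Cut_LsTrackT k)) : Dec D (glue D) := by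
  refine ⟨rfl, hne, h2, hc.imp ?_⟩
  rintro u v ⟨A, x, y, z, B, rfl, rfl, -⟩
  simp

theorem mono_dir_LsTrackT {k : L → κ} {d d' : Bool} {q : List L} (h2 : 2 ≤ q.length)
    (h : Mono k d q) (h' : Mono k d' q) : d = d' := by
  match q, h2 with
  | x :: y :: l, _ =>
    unfold Mono at h h'
    rw [List.isChain_cons_cons] at h h'
    have h1 := h.1
    have h3 := h'.1
    cases d <;> cases d'
    · rfl
    · simp at h1 h3
      exact absurd h1 (not_lt.mpr h3.le)
    · simp at h1 h3
      exact absurd h1 (not_lt.mpr h3.le)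
    · rfl

section
variable {S : Set L} {k : L → κ} {a b : L} (hk : Function.Injective k) (hA : Adjc S k a b)
include hk hA

/-- Merging the pieces next to a piece of positive gain. -/
theorem merge_LsTrackT (P : List L → Bool) : ∀ (R : List (List L)) (q : List L),
    (∀ v ∈ q :: R, 2 ≤ v.length) → (q :: R).IsChain (Cut_LsTrackT k) → Pth S (glue (q :: R)) →
    ∃ w E, glue ((q ++ w) :: E) = glue (q :: R) ∧ (∀ v ∈ E, 2 ≤ v.length) ∧
      ((q ++ w) :: E).IsChain (Good_LsTrackT k a b) ∧
      (gn k a b q = 0 → ((q :: R).countP P : ℝ) ≤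
        (((q ++ w) :: E).countP (fun v => P v && decide (gn k a b v = 0)) : ℝ) +
          3 * gn k a b (glue (q :: R))) ∧
      (gn k a b q ≠ 0 → ((q :: R).countP P : ℝ) + 1 ≤
        (E.countP (fun v => P v && decide (gn k a b v = 0)) : ℝ) +
          3 * gn k a b (glue (q :: R))) := by
  intro R
  induction R with
  | nil =>
    intro q _ _ hp
    have hg : glue [q] = q := rfl
    rw [hg] at hp
    refine ⟨[], [], by simp, by simp, List.isChain_singleton _, ?_, ?_⟩
    · intro h0
      rw [hg, h0]
      cases hP : P q <;> simp [hP, h0]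
    · intro h0
      rw [hg]
      have h2 := (gn_cases hk hA hp).resolve_left h0
      have h3 : ([q].countP P : ℝ) ≤ 1 := by
        have : [q].countP P ≤ 1 := List.countP_le_length
        exact_mod_cast this
      simp only [List.countP_nil, Nat.cast_zero]
      linarith
  | cons r R ih =>
    intro q h2 hc hp
    rw [List.isChain_cons_cons] at hc
    obtain ⟨⟨A, x, y, z, B, hq, hr, ht⟩, hc⟩ := hc
    obtain ⟨w0, hw0⟩ := glue_head_LsTrackT r R
    have hgr : glue (r :: R) = y :: z :: (B ++ w0) := by rw [hw0, hr]; simp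
    have hg : glue (q :: r :: R) = A ++ x :: y :: z :: (B ++ w0) := by
      rw [glue_two_LsTrackT, hgr, hq]; simp
    have hpr : Pth S (glue (r :: R)) :=
      pth_inf hp ⟨A ++ [x], [], by rw [hg, hgr]; simp⟩ (by rw [hgr]; simp)
    have hpq : Pth S q := pth_inf hp ⟨[], z :: (B ++ w0), by rw [hg, hq]; simp⟩ (by rw [hq]; simp)
    have hadd : gn k a b (glue (q :: r :: R)) = gn k a b q + gn k a b (glue (r :: R)) := by
      rw [hg, hgr, hq]
      exact gn_turn hk hA (hg ▸ hp) ht
    obtain ⟨w, E, hE1, hE2, hE3, hE4, hE5⟩ :=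
      ih r (fun v hv => h2 v (List.mem_cons_of_mem _ hv)) hc hpr
    have hcq : ((q :: r :: R).countP P : ℝ) ≤ ((r :: R).countP P : ℝ) + 1 := by
      have : (q :: r :: R).countP P ≤ (r :: R).countP P + 1 := by
        rw [List.countP_cons]
        split_ifs <;> omega
      exact_mod_cast this
    have hce : ∀ u : List L, (E.countP (fun v => P v && decide (gn k a b v = 0)) : ℝ) ≤
        ((u :: E).countP (fun v => P v && decide (gn k a b v = 0)) : ℝ) ∧
        ((u :: E).countP (fun v => P v && decide (gn k a b v = 0)) : ℝ) ≤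
        (E.countP (fun v => P v && decide (gn k a b v = 0)) : ℝ) + 1 := by
      intro u
      have : E.countP (fun v => P v && decide (gn k a b v = 0)) ≤
          (u :: E).countP (fun v => P v && decide (gn k a b v = 0)) ∧
          (u :: E).countP (fun v => P v && decide (gn k a b v = 0)) ≤
          E.countP (fun v => P v && decide (gn k a b v = 0)) + 1 := by
        rw [List.countP_cons]
        split_ifs <;> omega
      exact_mod_cast this
    by_cases h00 : gn k a b q = 0 ∧ gn k a b r = 0
    · obtain ⟨hq0, hr0⟩ := h00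
      refine ⟨[], (r ++ w) :: E, ?_, ?_, ?_, ?_, ?_⟩
      · rw [List.append_nil, glue_two_LsTrackT, glue_two_LsTrackT, hE1]
      · intro v hv
        rcases List.mem_cons.mp hv with rfl | hv
        · rw [hr]; simp
        · exact hE2 v hv
      · rw [List.append_nil, List.isChain_cons_cons]
        refine ⟨⟨⟨A, x, y, z, B ++ w, hq, by rw [hr]; simp, ht⟩, ?_, ?_⟩, hE3⟩
        · refine ⟨y, x, A.reverse, [], by rw [hq]; simp, ?_⟩
          have h5 : y :: x :: A.reverse = q.reverse := by rw [hq]; simp
          rw [h5, gn_reverse hk hA hpq, hq0]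
        · exact ⟨y, z, B, w, by rw [hr], hr ▸ hr0⟩
      · intro _
        have h6 := hE4 hr0
        rw [List.append_nil, hadd, hq0, List.countP_cons (a := q), List.countP_cons (a := q)]
        cases hP : P q
        · simp only [Bool.false_and, Bool.false_eq_true, if_false, Nat.add_zero]
          linarith
        · simp only [hq0, decide_true, Bool.and_self, if_true]
          push_cast
          linarith
      · intro h0
        exact absurd hq0 h0
    · have hm : q ++ (z :: B ++ w) = (A ++ [x]) ++ (r ++ w) := by rw [hq, hr]; simp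
      refine ⟨z :: B ++ w, E, ?_, hE2, ?_, ?_, ?_⟩
      · rw [hm, glue_app_LsTrackT, hE1, hg, hgr]; simp
      · rw [hm]
        exact chain_app_LsTrackT hE3 _
      · intro hq0
        have hr0 : gn k a b r ≠ 0 := fun h => h00 ⟨hq0, h⟩
        have h6 := hE5 hr0
        have h7 := (hce (q ++ (z :: B ++ w))).1
        rw [hadd, hq0]
        linarith
      · intro hq0
        have h8 := (gn_cases hk hA hpq).resolve_left hq0
        rw [hadd]
        by_cases hr0 : gn k a b r = 0
        · have h6 := hE4 hr0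
          have h7 := (hce (r ++ w)).2
          linarith
        · have h6 := hE5 hr0
          linarith

theorem st_facts_LsTrackT {x y : L} {B : List L} (hp : Pth S (x :: y :: B))
    (h : St_LsTrackT k a b (x :: y :: B)) : ¬ (x = a ∧ y = b) ∧
      ∃ y' C, swL a b (x :: y :: B) = x :: y' :: C ∧ (ks k a b x < ks k a b y' ↔ k x < k y) := by
  obtain ⟨x', y', A, C, he, h0⟩ := h
  simp only [List.cons_append, List.cons.injEq] at he
  obtain ⟨rfl, rfl, rfl⟩ := he
  refine ⟨?_, gn_dir hk hA (by simpa using hp) h0⟩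
  rintro ⟨rfl, rfl⟩
  have h1 : Pth S (x :: y :: A) := pth_inf hp ⟨[], C, by simp⟩ (by simp)
  have h2 := gn_start hk hA h1
  linarith

/-- The swap acts piecewise on a decomposition with good cuts and the cuts stay turns. -/
theorem swap_LsTrackT : ∀ (E : List (List L)) (u : List L),
    (u :: E).IsChain (Good_LsTrackT k a b) → Pth S (glue (u :: E)) →
    glue ((u :: E).map (swL a b)) = swL a b (glue (u :: E)) ∧
      ((u :: E).map (swL a b)).IsChain (Cut_LsTrackT (ks k a b)) := by
  intro E
  induction E with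
  | nil =>
    intro u _ _
    exact ⟨rfl, List.isChain_singleton _⟩
  | cons v E ih =>
    intro u hc hp
    rw [List.isChain_cons_cons] at hc
    obtain ⟨⟨⟨A, x, y, z, B, hu, hv, ht⟩, hs1, hs2⟩, hc⟩ := hc
    obtain ⟨w0, hw0⟩ := glue_head_LsTrackT v E
    have hgr : glue (v :: E) = y :: z :: (B ++ w0) := by rw [hw0, hv]; simp
    have hg : glue (u :: v :: E) = A ++ x :: y :: z :: (B ++ w0) := by
      rw [glue_two_LsTrackT, hgr, hu]; simp
    have hpr : Pth S (glue (v :: E)) :=
      pth_inf hp ⟨A ++ [x], [], by rw [hg, hgr]; simp⟩ (by rw [hgr]; simp)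
    have hpu : Pth S u := pth_inf hp ⟨[], z :: (B ++ w0), by rw [hg, hu]; simp⟩ (by rw [hu]; simp)
    have hpv : Pth S (y :: z :: B) := pth_inf hpr ⟨[], w0, by rw [hgr]; simp⟩ (by simp)
    have hur : u.reverse = y :: x :: A.reverse := by rw [hu]; simp
    have hpu' : Pth S (y :: x :: A.reverse) := by
      rw [← hur]
      refine ⟨?_, by simpa using hpu.ne, fun t ht => hpu.sub t (by simpa using ht)⟩
      have h1 := hpu.rd
      unfold Rd at h1 ⊢
      rw [List.isChain_reverse]
      exact h1.imp fun _ _ h => Ne.symm h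
    obtain ⟨hn1, x', C, hx1, hx2⟩ := st_facts_LsTrackT hk hA hpu' (hur ▸ hs1)
    obtain ⟨hn2, z', C', hz1, hz2⟩ := st_facts_LsTrackT hk hA hpv (hv ▸ hs2)
    obtain ⟨ih1, ih2⟩ := ih v hc hpr
    have hsu : swL a b u = C.reverse ++ [x', y] := by
      have h1 := swL_reverse hA.ne hpu.rd
      rw [hur, hx1] at h1
      have h2 := congrArg List.reverse h1
      rw [List.reverse_reverse] at h2
      rw [← h2]
      simp
    constructor
    · have hsurv : y ≠ a ∨ (x = b ↔ z = b) := by
        by_cases hy : y = a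
        · exact Or.inr ⟨fun h => absurd ⟨hy, h⟩ hn1, fun h => absurd ⟨hy, h⟩ hn2⟩
        · exact Or.inl hy
      have h1 := swL_glue hA.ne (hg ▸ hp.rd) hsurv
      rw [hg, h1, ← hu, ← hgr, ← ih1]
      rfl
    · rw [List.map_cons, List.map_cons, List.isChain_cons_cons]
      refine ⟨⟨C.reverse, x', y, z', C', hsu, by rw [hv, hz1], ?_⟩, ih2⟩
      have hxy : y ≠ x := by
        have h1 := hpu'.rd
        unfold Rd at h1
        rw [List.isChain_cons_cons] at h1
        exact h1.1
      have hxy' : y ≠ x' := by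
        have h1 := (swL_pth hA.ha hA.ne hpu').rd
        rw [hx1] at h1
        unfold Rd at h1
        rw [List.isChain_cons_cons] at h1
        exact h1.1
      have e1 : k x < k y ↔ ¬ k y < k x :=
        ⟨fun h => not_lt.mpr h.le, fun h => lt_of_le_of_ne (not_lt.mp h) fun h' => hxy (hk h').symm⟩
      have e2 : ks k a b x' < ks k a b y ↔ ¬ ks k a b y < ks k a b x' :=
        ⟨fun h => not_lt.mpr h.le,
          fun h => lt_of_le_of_ne (not_lt.mp h) fun h' => hxy' (ks_inj hk a b h').symm⟩
      rw [e2, hx2, ← e1, hz2]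
      exact ht

end

theorem main_LsTrackT {S : Set L} {k0 k1 : L → κ} : ∀ (c : List (L × L)) (k : L → κ)
    (D : List (List L)), Function.Injective k → Chn S k0 k1 k c → D ≠ [] →
    (∀ v ∈ D, 2 ≤ v.length) → D.IsChain (Cut_LsTrackT k) → Pth S (glue D) →
    (D.countP (fun q => decide ((∃ d, Mono k d q) ∧ ¬ ∃ d, Pers k d c q)) : ℝ) ≤
      3 * gains k c (glue D) := by
  intro c
  induction c with
  | nil =>
    intro k D _ _ _ _ _ _
    have h0 : D.countP (fun q => decide ((∃ d, Mono k d q) ∧ ¬ ∃ d, Pers k d [] q)) = 0 := by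
      rw [List.countP_eq_zero]
      intro q _
      rw [decide_eq_true_iff]
      rintro ⟨⟨d, hd⟩, hn⟩
      refine hn ⟨d, fun c1 c2 h => ?_⟩
      have h1 : c1 = [] := (List.append_eq_nil_iff.mp h.symm).1
      subst h1
      exact hd
    rw [h0]
    simp [gains]
  | cons e c ih =>
    intro k D hk hc hne h2 hcut hp
    obtain ⟨hA, -, -, hc⟩ := hc
    obtain ⟨q, R, rfl⟩ := List.exists_cons_of_ne_nil hne
    obtain ⟨w, E, hE1, hE2, hE3, hE4, hE5⟩ := merge_LsTrackT hk hA
      (fun q => decide ((∃ d, Mono k d q) ∧ ¬ ∃ d, Pers k d (e :: c) q)) R q h2 hcut hp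
    have hp' : Pth S (glue ((q ++ w) :: E)) := hE1 ▸ hp
    obtain ⟨hs1, hs2⟩ := swap_LsTrackT hk hA E (q ++ w) hE3 hp'
    have h2E : ∀ v ∈ (q ++ w) :: E, 2 ≤ v.length := by
      intro v hv
      rcases List.mem_cons.mp hv with rfl | hv
      · have := h2 q List.mem_cons_self
        rw [List.length_append]
        omega
      · exact hE2 v hv
    have hdec : Dec ((q ++ w) :: E) (glue ((q ++ w) :: E)) :=
      dec_cut_LsTrackT (k := k) (by simp) h2E (hE3.imp fun _ _ h => h.1)
    have h3 := ih (ks k e.1 e.2) (((q ++ w) :: E).map (swL e.1 e.2)) (ks_inj hk _ _) hc (by simp)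
      (by
        intro v hv
        obtain ⟨u, hu, rfl⟩ := List.mem_map.mp hv
        exact swL_two _ _ (h2E u hu)) hs2
      (by rw [hs1]; exact swL_pth hA.ha hA.ne hp')
    rw [hs1, hE1, List.countP_map] at h3
    have h4 : ((q ++ w) :: E).countP (fun v =>
        decide ((∃ d, Mono k d v) ∧ ¬ ∃ d, Pers k d (e :: c) v) &&
          decide (gn k e.1 e.2 v = 0)) ≤ ((q ++ w) :: E).countP ((fun q =>
        decide ((∃ d, Mono (ks k e.1 e.2) d q) ∧ ¬ ∃ d, Pers (ks k e.1 e.2) d c q)) ∘
          swL e.1 e.2) := by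
      apply List.countP_mono_left
      intro v hv hb
      rw [Bool.and_eq_true, decide_eq_true_iff, decide_eq_true_iff] at hb
      obtain ⟨⟨⟨d, hd⟩, hn⟩, h0⟩ := hb
      have hv2 := h2E v hv
      have hpv : Pth S v := pth_inf hp' (dec_inf hdec hv) (by rintro rfl; simp at hv2)
      have hm := gn_mono hk hA hpv hd h0
      rw [Function.comp_apply, decide_eq_true_iff]
      refine ⟨⟨d, hm⟩, ?_⟩
      rintro ⟨d', hd'⟩
      have h5 : d' = d := mono_dir_LsTrackT (swL_two _ _ hv2) (hd' [] c rfl) hm
      subst h5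
      refine hn ⟨d', fun c1 c2 h => ?_⟩
      cases c1 with
      | nil => exact hd
      | cons e' c1 =>
        rw [List.cons_append, List.cons.injEq] at h
        obtain ⟨rfl, h⟩ := h
        exact hd' c1 c2 h
    have h4' := (Nat.cast_le (α := ℝ)).mpr h4
    have h6 : gains k (e :: c) (glue (q :: R)) = gn k e.1 e.2 (glue (q :: R)) +
        gains (ks k e.1 e.2) c (swL e.1 e.2 (glue (q :: R))) := rfl
    rw [h6]
    by_cases hq0 : gn k e.1 e.2 q = 0
    · have h7 := hE4 hq0
      linarith
    · have h7 := hE5 hq0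
      have h8 : E.countP (fun v =>
          decide ((∃ d, Mono k d v) ∧ ¬ ∃ d, Pers k d (e :: c) v) &&
            decide (gn k e.1 e.2 v = 0)) ≤ ((q ++ w) :: E).countP (fun v =>
          decide ((∃ d, Mono k d v) ∧ ¬ ∃ d, Pers k d (e :: c) v) &&
            decide (gn k e.1 e.2 v = 0)) := by
        rw [List.countP_cons]
        omega
      have h8' := (Nat.cast_le (α := ℝ)).mpr h8
      linarith

theorem two_end_LsTrackT {q : List L} (h : 2 ≤ q.length) : ∃ A x y, q = A ++ [x, y] := by
  have h1 : 2 ≤ q.reverse.length := by simpa using h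
  match hq : q.reverse, h1 with
  | y :: x :: l, _ =>
    refine ⟨l.reverse, x, y, ?_⟩
    have h2 := congrArg List.reverse hq
    simpa using h2

theorem alt_cut_LsTrackT {k : L → κ} : ∀ (D : List (List L)), (∀ v ∈ D, 2 ≤ v.length) →
    D.IsChain (fun q q' => q.getLast? = q'.head?) →
    D.IsChain (fun q q' => ∃ d, Mono k d q ∧ Mono k (!d) q') → D.IsChain (Cut_LsTrackT k)
  | [], _, _, _ => List.isChain_nil
  | [_], _, _, _ => List.isChain_singleton _
  | q :: r :: R, h2, h3, h4 => by
    rw [List.isChain_cons_cons] at h3 h4 ⊢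
    refine ⟨?_, alt_cut_LsTrackT (r :: R) (fun v hv => h2 v (List.mem_cons_of_mem _ hv)) h3.2 h4.2⟩
    obtain ⟨A, x, y, rfl⟩ := two_end_LsTrackT (h2 q List.mem_cons_self)
    obtain ⟨d, hq, hr⟩ := h4.1
    have h5 := h3.1
    have h6 := h2 r (List.mem_cons_of_mem _ List.mem_cons_self)
    match r, h5, h6, hr with
    | y' :: z :: B, h5, _, hr =>
      have h7 : y = y' := by simpa using h5
      subst h7
      refine ⟨A, x, y, z, B, rfl, rfl, ?_⟩
      unfold Mono at hq hr
      rw [List.isChain_cons_cons] at hr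
      have h8 := hr.1
      have h9 := (List.isChain_cons_cons.mp (List.isChain_append.mp hq).2.1).1
      cases d
      · simp at h8 h9
        exact fun h => absurd (h.mpr h8) (not_lt.mpr h9.le)
      · simp at h8 h9
        exact fun h => absurd (h.mp h9) (not_lt.mpr h8.le)

/-- All but few of the pieces between consecutive turns stay monotone. -/
theorem trackT {S : Set L} {k0 k1 : L → κ} {c : List (L × L)} (h : FCh S k0 k1 c) {p : List L}
    (hp : Pth S p) {D : List (List L)} (hD : Dec D p) (hA : Alt k0 D) :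
    (D.countP (fun q => decide (¬ ∃ d, Pers k0 d c q)) : ℝ) ≤ 3 * gains k0 c p := by
  have h1 := main_LsTrackT c k0 D h.inj0 h.chn hD.ne hD.two
    (alt_cut_LsTrackT D hD.two hD.ch hA.2) (hD.eq ▸ hp)
  rw [hD.eq] at h1
  have h2 : D.countP (fun q => decide (¬ ∃ d, Pers k0 d c q)) =
      D.countP (fun q => decide ((∃ d, Mono k0 d q) ∧ ¬ ∃ d, Pers k0 d c q)) := by
    apply List.countP_congr
    intro q hq
    rw [decide_eq_true_iff, decide_eq_true_iff]
    exact ⟨fun h => ⟨hA.1 q hq, h⟩, fun h => h.2⟩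
  rw [h2]
  exact h1

end Pool.Agent.E5f
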