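import Pool.Agent.E5f.FsLat

set_option autoImplicit false

namespace Pool.Agent.E5f

open Classical Filter

theorem count_FsDrift {α : Type} (b1 b2 : α → Bool) (Z : List α)
    (h : ∀ z ∈ Z, b1 z = false → b2 z = false → False) :
    Z.length ≤ Z.countP b1 + Z.countP b2 := by
  induction Z with
  | nil => simp
  | cons z Z ih =>
    have h1 := ih fun w hw => h w (List.mem_cons_of_mem _ hw)
    have h2 := h z List.mem_cons_self
    rw [List.length_cons, List.countP_cons, List.countP_cons]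
    cases e1 : b1 z <;> cases e2 : b2 z <;> simp_all <;> omega

theorem hgt_inj_FsDrift : ∀ i j : Fin 3, ¬ hgt i < hgt j → ¬ hgt j < hgt i → i = j := by decide

theorem hgt_lt_FsDrift : ∀ j : Fin 3, j ≠ 1 → hgt j < hgt 1 := by decide

theorem hgt_asymm_FsDrift {i j : Fin 3} {s : Prop} (h1 : hgt i < hgt j ↔ s)
    (h2 : hgt j < hgt i ↔ s) : i = j :=
  hgt_inj_FsDrift i j (fun h => lt_asymm h (h2.2 (h1.1 h))) fun h => lt_asymm h (h1.2 (h2.1 h))

namespace Lat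
variable {O : Type} [AddCommGroup O] (E : Lat O)

/-- The label of index `i` in the block of `ν` at `a`. -/
def mv_FsDrift (a : O) (i : Fin 3) (ν : Fin 3 × O) : Fin 3 × O := (i, E.bk a ν - E.μ i a)

/-- The label `ν` is strictly between two labels over `x`. -/
def Btw_FsDrift (x : ℝ) (bl br ν : Fin 3 × O) : Prop :=
  E.pos x bl < E.pos x ν ∧ E.pos x ν < E.pos x br

/-- The closure rule for absent labels at the point `a` with status `s`. -/
def Rule_FsDrift (x m M r : ℝ) (a : O) (s : Bool) (q : List (Fin 3 × O)) : Prop :=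
  ∀ (ν : Fin 3 × O) (i : Fin 3), i ≠ ν.1 → (hgt (E.ty i) < hgt (E.tyl ν) ↔ s = true) →
    m ≤ E.pos x ν → E.pos x ν ≤ M → m ≤ E.pos x (E.mv_FsDrift a i ν) →
    E.pos x (E.mv_FsDrift a i ν) ≤ M → |E.η ν.2| ≤ r → ν ∉ q → E.mv_FsDrift a i ν ∉ q

theorem mv_bk_FsDrift (a : O) (i : Fin 3) (ν : Fin 3 × O) :
    E.bk a (E.mv_FsDrift a i ν) = E.bk a ν := sub_add_cancel _ _

theorem w2_pos_FsDrift : 0 < E.w 2 := E.w1.trans E.w2

theorem pos_move_FsDrift {x x' W : ℝ} (h : |x' - x| ≤ W) (ν : Fin 3 × O) :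
    |E.pos x' ν - E.pos x ν| ≤ E.w 2 * W := by
  have h1 : E.pos x' ν - E.pos x ν = E.sp ν * (x' - x) := by
    simp only [pos]
    ring
  rw [h1, abs_mul, abs_of_nonneg (E.sp_mem ν).1]
  exact mul_le_mul (E.sp_mem ν).2 h (abs_nonneg _) E.w2_pos_FsDrift.le

theorem pos_blk_FsDrift {x W : ℝ} {a : O} (h : |E.ξ a - x| ≤ W) {ν ν' : Fin 3 × O}
    (hb : E.bk a ν = E.bk a ν') : |E.pos x ν - E.pos x ν'| ≤ E.w 2 * W := by
  have h0 : E.pos (E.ξ a) ν = E.pos (E.ξ a) ν' := by rw [E.pos_bk, E.pos_bk, hb]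
  have h1 : E.pos x ν - E.pos x ν' = (E.sp ν' - E.sp ν) * (E.ξ a - x) := by
    simp only [pos] at h0 ⊢
    linarith
  have h2 := E.sp_mem ν
  have h3 := E.sp_mem ν'
  rw [h1, abs_mul]
  exact mul_le_mul (abs_le.2 ⟨by linarith, by linarith⟩) h (abs_nonneg _) E.w2_pos_FsDrift.le

theorem eta_mv_FsDrift {a : O} {U : ℝ} (hU : ∀ i, |E.η (E.μ i a)| ≤ U) (i : Fin 3)
    (ν : Fin 3 × O) : |E.η (E.mv_FsDrift a i ν).2| ≤ |E.η ν.2| + 2 * U := by
  have h1 := abs_le.1 (hU i)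
  have h2 := abs_le.1 (hU ν.1)
  have h3 := le_abs_self (E.η ν.2)
  have h4 := neg_abs_le (E.η ν.2)
  simp only [mv_FsDrift, bk, map_sub, map_add]
  exact abs_le.2 ⟨by linarith, by linarith⟩

theorem lab_ex_FsDrift : ∃ H : ℝ, 0 < H ∧ ∀ (x : ℝ) (i : Fin 3) (s y : ℝ), ∃ ν : Fin 3 × O,
    ν.1 = i ∧ s < E.pos x ν ∧ E.pos x ν < s + 1 ∧ y < E.η ν.2 ∧ E.η ν.2 < y + H := by
  obtain ⟨H, hH⟩ := E.densx 1 one_pos
  obtain ⟨b, -, -, h1, h2⟩ := hH 0 0
  refine ⟨H, by linarith, fun x i s y => ?_⟩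
  obtain ⟨a, h3, h4, h5⟩ := hH (s - E.w (E.ty i) * x) y
  refine ⟨(i, a), rfl, ?_, ?_, h5⟩ <;> simp only [pos, sp] <;> linarith

theorem key_le_FsDrift (u : Mx) {x y : Fin 3 × O} (h : E.key u x ≤ E.key u y) :
    E.pos (ofLex u).1 x ≤ E.pos (ofLex u).1 y := by
  rcases h.lt_or_eq with h | h
  · exact E.key_pos u h
  · rw [E.key_inj u h]

theorem sp_ne_FsDrift {x y : Fin 3 × O} (h : x.1 ≠ y.1) : E.sp x ≠ E.sp y := by
  have h0 := E.w0
  have h1 := E.w1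
  have h2 := E.w2
  have h3 : E.ty x.1 ≠ E.ty y.1 := fun e => h (E.ty.injective e)
  unfold sp
  generalize E.ty x.1 = i at h3
  generalize E.ty y.1 = j at h3
  fin_cases i <;> fin_cases j <;> simp at h3 ⊢ <;> intro e <;> linarith

theorem cr_FsDrift {u u' : Mx} {a : O} (h : E.Cr u u' a) :
    |E.ξ a - (ofLex u).1| ≤ |(ofLex u').1 - (ofLex u).1| := by
  have h3 := le_abs_self ((ofLex u').1 - (ofLex u).1)
  have h4 := neg_abs_le ((ofLex u').1 - (ofLex u).1)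
  rcases h with ⟨h1, h2⟩ | ⟨h1, h2⟩
  · have h5 : (ofLex u).1 ≤ E.ξ a := Prod.Lex.monotone_fst _ _ h1
    have h6 : E.ξ a ≤ (ofLex u').1 := Prod.Lex.monotone_fst _ _ h2
    exact abs_le.2 ⟨by linarith, by linarith⟩
  · have h5 : (ofLex u').1 ≤ E.ξ a := Prod.Lex.monotone_fst _ _ h1
    have h6 : E.ξ a ≤ (ofLex u).1 := Prod.Lex.monotone_fst _ _ h2
    exact abs_le.2 ⟨by linarith, by linarith⟩

/-- A piece that is not mixed contains all or none of the labels of a block in the middle. -/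
theorem notMixed_FsDrift {S : Set (Fin 3 × O)} {u : Mx} {a : O} (ha : (ofLex u).1 = E.ξ a)
    {q : List (Fin 3 × O)} {bl br ν ν' : Fin 3 × O} (hs : Spans (E.key u) bl br q)
    (hm : ¬ Mixed S (E.key u) E.tyl (E.bk a) q) (hν : ν ∈ S) (hF : Full S E.tyl (E.bk a) ν')
    (hb : E.bk a ν = E.bk a ν') (hw : E.Btw_FsDrift (ofLex u).1 bl br ν') (h : ν' ∈ q) :
    ν ∈ q := by
  by_contra hn
  obtain ⟨d, x, y, h1, h2, h3, h4⟩ := hs
  have key : ∀ z, (E.key u z < E.key u bl ∨ E.key u br < E.key u z) → E.bk a z ≠ E.bk a ν' := by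
    intro z hz e
    have h5 : E.pos (ofLex u).1 z = E.pos (ofLex u).1 ν' := by rw [ha, E.pos_bk, E.pos_bk, e]
    rcases hz with hz | hz
    · have := E.key_pos u hz
      linarith [hw.1]
    · have := E.key_pos u hz
      linarith [hw.2]
  refine hm ⟨⟨d, h1⟩, ν', ν, hF, hν, hb, h, hn, fun z hz => key z ?_, fun z hz => key z ?_⟩
  · obtain rfl : x = z := Option.some.inj (h2.symm.trans hz)
    exact h4.imp (·.1) (·.2)
  · obtain rfl : y = z := Option.some.inj (h3.symm.trans hz)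
    exact h4.symm.imp (·.1) (·.2)

/-- Barriers near the ends of a long interval. -/
theorem bar_FsDrift {S : Set (Fin 3 × O)} {e : Bool} {u u' : Mx} (hd : Dir e u u') {W H X : ℝ}
    (hW : |(ofLex u').1 - (ofLex u).1| ≤ W)
    (hH : ∀ (x : ℝ) (i : Fin 3) (s y : ℝ), ∃ ν : Fin 3 × O,
      ν.1 = i ∧ s < E.pos x ν ∧ E.pos x ν < s + 1 ∧ y < E.η ν.2 ∧ E.η ν.2 < y + H)
    (hS : ∀ ν, |E.pos (ofLex u).1 ν| ≤ X → |E.η ν.2| ≤ H → ν ∈ S) {lo hi : ℝ}
    (h1 : -X ≤ lo) (h2 : hi ≤ X) (h3 : lo + (6 + 12 * (E.w 2 * W)) ≤ hi) :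
    ∃ bl br, Bar S (E.key u) (E.key u') bl br ∧ lo < E.pos (ofLex u).1 bl ∧
      E.pos (ofLex u).1 br < hi ∧
      E.pos (ofLex u).1 bl + (4 + 12 * (E.w 2 * W)) ≤ E.pos (ofLex u).1 br := by
  have hV : 0 ≤ E.w 2 * W := mul_nonneg E.w2_pos_FsDrift.le ((abs_nonneg _).trans hW)
  obtain ⟨bl, a1, a2, a3, a4, a5⟩ := hH (ofLex u).1 (E.ty.symm (if e = true then 2 else 0)) lo 0
  obtain ⟨br, b1, b2, b3, b4, b5⟩ :=
    hH (ofLex u).1 (E.ty.symm (if e = true then 0 else 2)) (hi - 1) 0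
  have m1 := abs_le.1 (E.pos_move_FsDrift hW bl)
  have m2 := abs_le.1 (E.pos_move_FsDrift hW br)
  have s1 : E.sp bl = E.w (if e = true then 2 else 0) := by rw [sp, a1, Equiv.apply_symm_apply]
  have s2 : E.sp br = E.w (if e = true then 0 else 2) := by rw [sp, b1, Equiv.apply_symm_apply]
  refine ⟨bl, br, ⟨hS _ (abs_le.2 ⟨by linarith, by linarith⟩) (abs_le.2 ⟨by linarith, by linarith⟩),
    hS _ (abs_le.2 ⟨by linarith, by linarith⟩) (abs_le.2 ⟨by linarith, by linarith⟩),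
    E.pos_key u (by linarith), E.pos_key u' (by linarith), fun x _ hx => ?_, fun x _ hx => ?_⟩,
    a2, by linarith, by linarith⟩
  · by_contra hn
    have hlt : E.key u' bl < E.key u' x := lt_of_le_of_ne (not_lt.1 hn) fun h => by
      rw [E.key_inj u' h] at hx
      exact lt_irrefl _ hx
    obtain ⟨_, -, -, h5⟩ := (E.inv_iff hd x bl).1 ⟨hx, hlt⟩
    have h6 := E.sp_mem x
    have h7 := E.w0
    cases e <;> simp at h5 s1 <;> linarith
  · by_contra hn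
    have hlt : E.key u' x < E.key u' br := lt_of_le_of_ne (not_lt.1 hn) fun h => by
      rw [E.key_inj u' h] at hx
      exact lt_irrefl _ hx
    obtain ⟨_, -, -, h5⟩ := (E.inv_iff hd br x).1 ⟨hx, hlt⟩
    have h6 := E.sp_mem x
    have h7 := E.w0
    cases e <;> simp at h5 s2 <;> linarith

/-- Climbing from a low absent label to a high absent label. -/
theorem climb_FsDrift {x W H Y U b : ℝ} {a a' : O} {q : List (Fin 3 × O)}
    (hH : ∀ (x : ℝ) (i : Fin 3) (s y : ℝ), ∃ ν : Fin 3 × O,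
      ν.1 = i ∧ s < E.pos x ν ∧ E.pos x ν < s + 1 ∧ y < E.η ν.2 ∧ E.η ν.2 < y + H)
    (hY : 0 ≤ Y) (ha : |E.ξ a - x| ≤ W) (ha' : |E.ξ a' - x| ≤ W) (hη : E.η a' < E.η a)
    (hU : ∀ i, |E.η (E.μ i a)| ≤ U) (hU' : ∀ i, |E.η (E.μ i a')| ≤ U)
    (r1 : E.Rule_FsDrift x (b + 1 + 2 * (E.w 2 * W)) (b + 3 + 10 * (E.w 2 * W)) (Y + H + 4 * U)
      a true q)
    (r2 : E.Rule_FsDrift x (b + 1 + 2 * (E.w 2 * W)) (b + 3 + 10 * (E.w 2 * W)) (Y + H + 4 * U)
      a' false q) (hq : ∀ ν ∈ q, -Y ≤ E.η ν.2) :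
    ∃ ν, ν ∉ q ∧ b + 1 + 2 * (E.w 2 * W) ≤ E.pos x ν ∧ E.pos x ν ≤ b + 3 + 10 * (E.w 2 * W) ∧
      Y < E.η ν.2 ∧ E.η ν.2 ≤ Y + 4 * U := by
  have hW : 0 ≤ W := (abs_nonneg _).trans ha
  have hV : 0 ≤ E.w 2 * W := mul_nonneg E.w2_pos_FsDrift.le hW
  have hU0 : 0 ≤ U := (abs_nonneg _).trans (hU 0)
  have hp : ∀ p : O, E.pos x (E.ty.symm 1, p) = E.ξ p + E.w 1 * x := fun p => by
    simp only [pos, sp, Equiv.apply_symm_apply]
  obtain ⟨⟨i0, p0⟩, rfl, a2, a3, a4, a5⟩ :=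
    hH x (E.ty.symm 1) (b + 2 + 6 * (E.w 2 * W)) (-Y - H)
  rw [hp] at a2 a3
  have hd : |E.ξ (a - a')| ≤ 2 * W := by
    have h1 := abs_le.1 ha
    have h2 := abs_le.1 ha'
    rw [map_sub]
    exact abs_le.2 ⟨by linarith, by linarith⟩
  have hη' : 0 < E.η (a - a') := by rw [map_sub]; linarith
  have vξ : ∀ j, E.ξ (E.μ (E.ty.symm 1) (a - a') - E.μ (E.ty.symm j) (a - a')) =
      (E.w 1 - E.w j) * E.ξ (a - a') := fun j => by
    rw [map_sub E.ξ, E.ξμ, E.ξμ, Equiv.apply_symm_apply, Equiv.apply_symm_apply, sub_mul]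
  have vη : ∀ j, E.η (E.μ (E.ty.symm 1) (a - a') - E.μ (E.ty.symm j) (a - a')) =
      (E.w' 1 - E.w' j) * E.η (a - a') := fun j => by
    rw [map_sub E.η, E.ημ, E.ημ, Equiv.apply_symm_apply, Equiv.apply_symm_apply, sub_mul]
  have vU : ∀ j, E.η (E.μ (E.ty.symm 1) (a - a') - E.μ (E.ty.symm j) (a - a')) ≤ 4 * U :=
    fun j => by
      have h1 := abs_le.1 (hU (E.ty.symm 1))
      have h2 := abs_le.1 (hU (E.ty.symm j))
      have h3 := abs_le.1 (hU' (E.ty.symm 1))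
      have h4 := abs_le.1 (hU' (E.ty.symm j))
      simp only [map_sub]
      linarith
  have vK : ∀ j, |E.w 1 - E.w j| ≤ E.w 2 →
      |E.ξ (E.μ (E.ty.symm 1) (a - a') - E.μ (E.ty.symm j) (a - a'))| ≤ 1 + 2 * (E.w 2 * W) :=
    fun j hj => by
      rw [vξ, abs_mul]
      have := mul_le_mul hj hd (abs_nonneg _) E.w2_pos_FsDrift.le
      linarith
  have step : ∀ j : Fin 3, j ≠ 1 → ∀ p : O, (E.ty.symm 1, p) ∉ q →
      |E.ξ p - (b + 2 + 6 * (E.w 2 * W) - E.w 1 * x)| ≤ 1 + 2 * (E.w 2 * W) → -Y - H ≤ E.η p →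
      E.η p ≤ Y →
      (E.ty.symm 1, p + (E.μ (E.ty.symm 1) (a - a') - E.μ (E.ty.symm j) (a - a'))) ∉ q := by
    intro j hj p h1 h2 h3 h4
    have hne : E.ty.symm j ≠ E.ty.symm 1 := fun e => hj (E.ty.symm.injective e)
    have hh := hgt_lt_FsDrift j hj
    have c0 := abs_le.1 h2
    have c1 := abs_le.1 (E.pos_blk_FsDrift ha (E.mv_bk_FsDrift a (E.ty.symm j) (E.ty.symm 1, p)))
    have c2 := abs_le.1 (E.pos_blk_FsDrift ha' (E.mv_bk_FsDrift a' (E.ty.symm 1)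
      (E.mv_FsDrift a (E.ty.symm j) (E.ty.symm 1, p))))
    have c3 : |E.η p| ≤ Y + H := abs_le.2 ⟨by linarith, by linarith⟩
    have c4 := E.eta_mv_FsDrift hU (E.ty.symm j) (E.ty.symm 1, p)
    have c5 := hp p
    have e1 := r1 (E.ty.symm 1, p) (E.ty.symm j) hne (by simpa [tyl] using hh) (by linarith)
      (by linarith) (by linarith) (by linarith) (by linarith) h1
    have e2 := r2 _ (E.ty.symm 1) hne.symm (by simpa [tyl, mv_FsDrift] using hh.le) (by linarith)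
      (by linarith) (by linarith) (by linarith) (by linarith) e1
    have e3 : E.mv_FsDrift a' (E.ty.symm 1) (E.mv_FsDrift a (E.ty.symm j) (E.ty.symm 1, p)) =
        (E.ty.symm 1, p + (E.μ (E.ty.symm 1) (a - a') - E.μ (E.ty.symm j) (a - a'))) := by
      simp only [mv_FsDrift, bk, map_sub, Prod.mk.injEq, true_and]
      abel
    rwa [e3] at e2
  have w0 := E.w0
  have w1 := E.w1
  have w2 := E.w2
  obtain ⟨p, h1, h2, h3, h4⟩ := E.ladder {p | (E.ty.symm 1, p) ∉ q} _ _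
    (b + 2 + 6 * (E.w 2 * W) - E.w 1 * x) (1 + 2 * (E.w 2 * W)) (-Y - H) Y
    (by rw [vη 0]; exact mul_pos (by linarith [E.w'0, E.w'1, E.w'2]) hη')
    (by rw [vη 2]; exact mul_pos (by linarith [E.w'1]) hη')
    (by
      rw [vξ, vξ, mul_mul_mul_comm]
      exact mul_nonpos_of_nonpos_of_nonneg
        (mul_nonpos_of_nonneg_of_nonpos (by linarith) (by linarith)) (mul_self_nonneg _))
    (vK 0 (abs_le.2 ⟨by linarith, by linarith⟩)) (vK 2 (abs_le.2 ⟨by linarith, by linarith⟩))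
    (fun p h1 h2 h3 h4 => ⟨step 0 (by decide) p h1 h2 h3 h4, step 2 (by decide) p h1 h2 h3 h4⟩)
    (p0 := p0) (fun h => by have := hq _ h; simp only at this a5; linarith)
    (abs_le.2 ⟨by linarith, by linarith⟩) a4.le (by simp only at a5; linarith)
  have c0 := abs_le.1 h2
  have c1 := max_le (vU 0) (vU 2)
  exact ⟨(E.ty.symm 1, p), h1, by rw [hp]; linarith, by rw [hp]; linarith, h3, by linarith⟩

end Lat

end Pool.Agent.E5f
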