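import Pool.Agent.E5f.LsChain

set_option autoImplicit false

namespace Pool.Agent.E5f

open Classical

variable {L κ : Type} [LinearOrder κ]

section decs

theorem chain_inf_trL {R : L → L → Prop} {l l' : List L} (h : l.IsChain R) (h' : l' <:+: l) :
    l'.IsChain R := by
  obtain ⟨u, v, rfl⟩ := h'
  exact h.left_of_append.right_of_append

theorem glue_cons_trL (D : List (List L)) : ∀ (q : List L), (∀ r ∈ D, r ≠ []) →
    glue (q :: D) = q ++ (D.map List.tail).flatten := by
  induction D with
  | nil => intro q _; simp [glue]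
  | cons q' D ih =>
    intro q h
    have h1 : q' ≠ [] := h q' (by simp)
    rw [glue, ih q' (fun r hr => h r (by simp [hr]))]
    obtain ⟨u, v, rfl⟩ := List.exists_cons_of_ne_nil h1
    simp

theorem dec_uncons_trL {q q2 : List L} {D : List (List L)} {p : List L}
    (h : Dec (q :: q2 :: D) p) :
    Dec (q2 :: D) (glue (q2 :: D)) ∧ p = q ++ (glue (q2 :: D)).tail ∧ q.getLast? = q2.head? := by
  have hc := List.isChain_cons_cons.1 h.ch
  exact ⟨⟨rfl, by simp, fun r hr => h.two r (List.mem_cons_of_mem _ hr), hc.2⟩,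
    by rw [← h.eq, glue], hc.1⟩

theorem dec_head_trL {q : List L} {D : List (List L)} {p : List L} (h : Dec (q :: D) p) :
    ∃ R, p = q ++ R ∧ ∀ q' : List L, 2 ≤ q'.length → q'.getLast? = q.getLast? →
      Dec (q' :: D) (q' ++ R) := by
  have hne : ∀ r ∈ D, r ≠ [] := by
    intro r hr h0
    have := h.two r (List.mem_cons_of_mem _ hr)
    simp [h0] at this
  refine ⟨(D.map List.tail).flatten, by rw [← h.eq, glue_cons_trL D q hne], ?_⟩
  intro q' h2 hl
  refine ⟨glue_cons_trL D q' hne, by simp, ?_, ?_⟩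
  · intro r hr
    rcases List.mem_cons.1 hr with rfl | hr
    · exact h2
    · exact h.two r (List.mem_cons_of_mem _ hr)
  · cases D with
    | nil => simp
    | cons q2 D =>
      have hc := List.isChain_cons_cons.1 h.ch
      exact List.isChain_cons_cons.2 ⟨hl.trans hc.1, hc.2⟩

theorem dec_cons_trL {q : List L} {D : List (List L)} {p : List L} (h : Dec D p)
    (h2 : 2 ≤ q.length) (hl : q.getLast? = p.head?) : Dec (q :: D) (q ++ p.tail) := by
  obtain ⟨q2, D, rfl⟩ := List.exists_cons_of_ne_nil h.ne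
  obtain ⟨R, hR, -⟩ := dec_head_trL h
  have h3 := h.two q2 (by simp)
  refine ⟨by rw [glue, h.eq], by simp, ?_, ?_⟩
  · intro r hr
    rcases List.mem_cons.1 hr with rfl | hr
    · exact h2
    · exact h.two r hr
  · refine List.isChain_cons_cons.2 ⟨?_, h.ch⟩
    rw [hl, hR]
    match q2, h3 with
    | u :: v :: w, _ => simp

theorem dec_single_trL {q : List L} (h2 : 2 ≤ q.length) : Dec [q] q :=
  ⟨rfl, by simp, by simpa using h2, by simp⟩

theorem two_back_trL {q : List L} (h2 : 2 ≤ q.length) : ∃ A x y, q = A ++ [x, y] := by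
  rcases List.eq_nil_or_concat q with rfl | ⟨q1, y, rfl⟩
  · simp at h2
  · rcases List.eq_nil_or_concat q1 with rfl | ⟨q2, x, rfl⟩
    · simp at h2
    · exact ⟨q2, x, y, by simp⟩

theorem swL_not_mem_trL {a b : L} : ∀ p : List L, b ∉ p → swL a b p = p := by
  intro p
  fun_induction swL a b p <;> intro h <;> simp_all
  all_goals grind

end decs

section step
variable {S : Set L} {k : L → κ} {a b : L} (hk : Function.Injective k) (hA : Adjc S k a b)
include hk hA

theorem gn_nonneg_trL {p : List L} (hp : Pth S p) : 0 ≤ gn k a b p := by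
  rcases gn_cases hk hA hp with h | h <;> linarith

theorem gn_cut_trL {A B : List L} {y : L} (hp : Pth S (A ++ y :: B)) (hy : y ≠ a) :
    gn k a b (A ++ y :: B) = gn k a b (A ++ [y]) + gn k a b (y :: B) := by
  have h0 : gn k a b [y] = 0 := by simp [gn, swL, lin]
  rcases List.eq_nil_or_concat A with rfl | ⟨A, x, rfl⟩
  · simp [h0]
  · cases B with
    | nil => simp [h0]
    | cons z B =>
      have := gn_glue hk hA (A := A) (B := B) (x := x) (y := y) (z := z) (by simpa using hp)
        (Or.inl hy)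
      simpa using this

theorem gn_inf_trL {p : List L} (hp : Pth S p) {x y : L} (hx : x ≠ a) (hy : y ≠ a)
    (h : [x, a, y] <:+: p) : gn k a b [x, a, y] ≤ gn k a b p := by
  obtain ⟨A, B, rfl⟩ := h
  have e1 : A ++ [x, a, y] ++ B = A ++ x :: (a :: y :: B) := by simp
  have e2 : x :: a :: y :: B = [x, a] ++ y :: B := by simp
  rw [e1] at hp ⊢
  have p1 : Pth S (A ++ [x]) := pth_inf hp ⟨[], a :: y :: B, by simp⟩ (by simp)
  have p2 : Pth S ([x, a] ++ y :: B) := pth_inf hp ⟨A, [], by simp⟩ (by simp)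
  have p3 : Pth S (y :: B) := pth_inf hp ⟨A ++ [x, a], [], by simp⟩ (by simp)
  rw [gn_cut_trL hk hA hp hx, e2, gn_cut_trL hk hA p2 hy]
  have := gn_nonneg_trL hk hA p1
  have := gn_nonneg_trL hk hA p3
  simp only [List.cons_append, List.nil_append] at *
  linarith

theorem join_trL {τ : Type} (G : τ × List L → Prop) {A C : List L} {x y z : L}
    (hp : Pth S (A ++ x :: y :: z :: C)) (h : y ≠ a ∨ (x = b ↔ z = b)) (t : τ)
    {E : List (τ × List L)} (hE : Dec (E.map Prod.snd) (swL a b (y :: z :: C))) {n m : ℝ}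
    (hn : n ≤ (E.countP (fun e => decide (G e)) : ℝ) + gn k a b (y :: z :: C))
    (hm : m ≤ (if G (t, swL a b (A ++ [x, y])) then 1 else 0) + gn k a b (A ++ [x, y])) :
    Dec (((t, swL a b (A ++ [x, y])) :: E).map Prod.snd) (swL a b (A ++ x :: y :: z :: C)) ∧
      m + n ≤ (((t, swL a b (A ++ [x, y])) :: E).countP (fun e => decide (G e)) : ℝ) +
        gn k a b (A ++ x :: y :: z :: C) := by
  constructor
  · rw [swL_glue hA.ne hp.rd h, List.map_cons]
    refine dec_cons_trL hE (swL_two a b (by simp)) ?_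
    rw [swL_last, swL_head]
    simp
  · rw [gn_glue hk hA hp h, List.countP_cons]
    by_cases hg : G (t, swL a b (A ++ [x, y]))
    · simp only [hg, if_true, decide_true] at hm ⊢
      push_cast
      linarith
    · simp only [hg, if_false, decide_false] at hm ⊢
      simp only [Bool.false_eq_true, if_false, Nat.add_zero]
      linarith

theorem step_trL {τ : Type} (P G : τ × List L → Prop)
    (h0 : ∀ t q, Pth S q → P (t, q) → G (t, swL a b q) ∨ 1 ≤ gn k a b q)
    (h1 : ∀ t, ¬ P (t, [b]))
    (h2 : ∀ t A, P (t, A ++ [b, a]) → P (t, A ++ [b]))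
    (h3 : ∀ t B, P (t, a :: b :: B) → P (t, b :: B))
    (h4 : ∀ t A x, x ≠ b → Pth S (A ++ [x, a, b]) → P (t, A ++ [x, a]) → P (t, A ++ [x, a, b]))
    (h5 : ∀ t z B, z ≠ b → Pth S (b :: a :: z :: B) → P (t, a :: z :: B) →
      P (t, b :: a :: z :: B))
    (E : List (τ × List L)) : ∀ (t : τ) (q p : List L), Pth S p →
      Dec (q :: E.map Prod.snd) p →
      ∃ E' : List (τ × List L), Dec (E'.map Prod.snd) (swL a b p) ∧
        (E'.map Prod.fst).Sublist (t :: E.map Prod.fst) ∧
        (if P (t, q) then 1 else 0) + (E.countP (fun e => decide (P e)) : ℝ) ≤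
          (E'.countP (fun e => decide (G e)) : ℝ) + gn k a b p := by
  have hm : ∀ t q q', Pth S q' → (P (t, q) → P (t, q')) →
      (if P (t, q) then (1 : ℝ) else 0) ≤ (if G (t, swL a b q') then 1 else 0) + gn k a b q' := by
    intro t q q' hq hi
    have hn := gn_nonneg_trL hk hA hq
    by_cases hP : P (t, q)
    · rcases h0 t q' hq (hi hP) with h | h
      · simp only [hP, h, if_true]; linarith
      · simp only [hP, if_true]; split_ifs <;> linarith
    · simp only [hP, if_false]; split_ifs <;> linarith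
  have hi : ∀ t q q', (P (t, q) → P (t, q')) →
      (if P (t, q) then (1 : ℝ) else 0) ≤ (if P (t, q') then 1 else 0) := by
    intro t q q' h
    by_cases hP : P (t, q)
    · simp [hP, h hP]
    · simp only [hP, if_false]; split_ifs <;> norm_num
  induction E with
  | nil =>
    intro t q p hp hD
    have e : q = p := hD.eq
    subst e
    refine ⟨[(t, swL a b q)], dec_single_trL (swL_two a b (hD.two q (by simp))), by simp, ?_⟩
    have := hm t q q hp id
    by_cases hg : G (t, swL a b q) <;> simp_all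
  | cons e E ih =>
    intro t q p hp hD
    obtain ⟨t2, q2⟩ := e
    rw [List.map_cons] at hD
    obtain ⟨hD2, hp2, hl⟩ := dec_uncons_trL hD
    obtain ⟨R, hR, hrep⟩ := dec_head_trL hD2
    obtain ⟨A, x, y, rfl⟩ := two_back_trL (hD.two q (by simp))
    have h22 := hD.two q2 (by simp)
    obtain ⟨z, B, rfl⟩ : ∃ z B, q2 = y :: z :: B := by
      match q2, h22, hl with
      | u :: v :: w, _, hl =>
        have : y = u := by simpa using hl
        exact ⟨v, w, by rw [this]⟩
    dsimp only at hR hrep hp2 hD2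
    have ep : p = A ++ x :: y :: z :: (B ++ R) := by rw [hp2, hR]; simp
    subst ep
    have hc : (((t2, y :: z :: B) :: E).countP (fun e => decide (P e)) : ℝ) =
        (if P (t2, y :: z :: B) then 1 else 0) + (E.countP (fun e => decide (P e)) : ℝ) := by
      rw [List.countP_cons]
      by_cases hP : P (t2, y :: z :: B) <;> simp [hP, add_comm]
    rw [hc]
    by_cases hs : y ≠ a ∨ (x = b ↔ z = b)
    · have p1 : Pth S (A ++ [x, y]) := pth_inf hp ⟨[], z :: (B ++ R), by simp⟩ (by simp)
      have p2 : Pth S (y :: z :: (B ++ R)) := pth_inf hp ⟨A ++ [x], [], by simp⟩ (by simp)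
      obtain ⟨E', d1, d2, d3⟩ := ih t2 (y :: z :: B) _ p2 (hrep _ h22 rfl)
      obtain ⟨j1, j2⟩ := join_trL hk hA G hp hs t d1 d3 (hm t _ _ p1 id)
      exact ⟨_, j1, by simpa using d2, j2⟩
    · have hy : y = a := by
        by_contra hy
        exact hs (Or.inl hy)
      subst hy
      by_cases hx : x = b
      · have hz : z ≠ b := fun hz => hs (Or.inr ⟨fun _ => hz, fun _ => hx⟩)
        subst hx
        have p2 : Pth S (x :: y :: z :: (B ++ R)) := pth_inf hp ⟨A, [], by simp⟩ (by simp)
        have p3 : Pth S (x :: y :: z :: B) := pth_inf hp ⟨A, R, by simp⟩ (by simp)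
        obtain ⟨E', d1, d2, d3⟩ := ih t2 (x :: y :: z :: B) _ p2
          (hrep (x :: y :: z :: B) (by simp) (by simp [List.getLast?_cons_cons]))
        have i2 := hi t2 _ _ (h5 t2 z B hz p3)
        rcases List.eq_nil_or_concat A with rfl | ⟨A, w, rfl⟩
        · refine ⟨E', d1, d2.trans (by simp), ?_⟩
          have : ¬ P (t, [] ++ [x, y]) := fun h => h1 t (h2 t [] h)
          rw [if_neg this]
          simp only [List.nil_append]
          linarith
        · have e1 : A.concat w ++ x :: y :: z :: (B ++ R) = A ++ w :: x :: y :: (z :: (B ++ R)) := by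
            simp
          rw [e1] at hp ⊢
          have p1 : Pth S (A ++ [w, x]) := pth_inf hp ⟨[], y :: z :: (B ++ R), by simp⟩ (by simp)
          have i1 := hm t (A.concat w ++ [x, y]) _ p1 (fun h => by simpa using h2 t _ h)
          obtain ⟨j1, j2⟩ := join_trL hk hA G hp (Or.inl hA.ne.symm) t d1 d3 i1
          exact ⟨_, j1, by simpa using d2, by linarith⟩
      · have hz : z = b := by
          by_contra hz
          exact hs (Or.inr ⟨fun h => absurd h hx, fun h => absurd h hz⟩)
        subst hz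
        have p1 : Pth S (A ++ [x, y, z]) := pth_inf hp ⟨[], B ++ R, by simp⟩ (by simp)
        cases B with
        | nil =>
          have e1 : A ++ x :: y :: z :: ([] ++ R) = (A ++ [x, y, z]) ++ R := by simp
          rw [e1] at hp ⊢
          obtain ⟨E', d1, d2, d3⟩ := ih t (A ++ [x, y, z]) _ hp
            (hrep (A ++ [x, y, z]) (by simp) (by simp))
          refine ⟨E', d1, d2.trans (by simp), ?_⟩
          have : ¬ P (t2, [y, z]) := fun h => h1 t2 (h3 t2 [] h)
          rw [if_neg this]
          have i1 := hi t _ _ (h4 t A x hx p1)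
          linarith
        | cons w B =>
          have e1 : A ++ x :: y :: z :: (w :: B ++ R) = (A ++ [x]) ++ y :: z :: w :: (B ++ R) := by
            simp
          rw [e1] at hp ⊢
          have p2 : Pth S (z :: w :: (B ++ R)) := pth_inf hp ⟨A ++ [x, y], [], by simp⟩ (by simp)
          obtain ⟨E', d1, d2, d3⟩ := ih t2 (z :: w :: B) _ p2
            (hrep (z :: w :: B) (by simp) (by simp [List.getLast?_cons_cons]))
          have i2 := hi t2 _ _ (h3 t2 (w :: B))
          have e2 : A ++ [x, y, z] = (A ++ [x]) ++ [y, z] := by simp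
          have i1 := hm t (A ++ [x, y]) _ p1 (h4 t A x hx p1)
          rw [e2] at i1
          obtain ⟨j1, j2⟩ := join_trL hk hA G hp (Or.inl hA.ne.symm) t d1 d3 i1
          exact ⟨_, j1, by simpa using d2, by linarith⟩

theorem ks_lt_trL {x y : L} (hx : x ∈ S) (hy : y ∈ S) (h1 : ¬ (x = a ∧ y = b))
    (h2 : ¬ (x = b ∧ y = a)) : ks k a b x < ks k a b y ↔ k x < k y := by
  have hab := hA.ne
  have key : ∀ c ∈ S, c ≠ a → c ≠ b → (k c < k a ↔ k c < k b) ∧ (k a < k c ↔ k b < k c) := by
    intro c hc h1 h2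
    have h3 := hA.adj c hc h1 h2
    have h4 : k c ≠ k a := fun h => h1 (hk h)
    have h5 : k c ≠ k b := fun h => h2 (hk h)
    refine ⟨h3, ?_⟩
    rw [← not_le, ← not_le, le_iff_lt_or_eq, le_iff_lt_or_eq, h3]
    simp [h4, h5]
  unfold ks
  simp only [Function.comp]
  by_cases xa : x = a
  · subst xa
    by_cases ya : y = x
    · subst ya; simp
    · have yb : y ≠ b := fun h => h1 ⟨rfl, h⟩
      rw [Equiv.swap_apply_left, Equiv.swap_apply_of_ne_of_ne ya yb]
      exact (key y hy ya yb).2.symm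
  · by_cases xb : x = b
    · subst xb
      by_cases yb : y = x
      · subst yb; simp
      · have ya : y ≠ a := fun h => h2 ⟨rfl, h⟩
        rw [Equiv.swap_apply_right, Equiv.swap_apply_of_ne_of_ne ya yb]
        exact (key y hy ya yb).2
    · rw [Equiv.swap_apply_of_ne_of_ne xa xb]
      by_cases ya : y = a
      · subst ya
        rw [Equiv.swap_apply_left]
        exact (key x hx xa xb).1.symm
      · by_cases yb : y = b
        · subst yb
          rw [Equiv.swap_apply_right]
          exact (key x hx xa xb).1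
        · rw [Equiv.swap_apply_of_ne_of_ne ya yb]

theorem adjc_ks_trL : Adjc S (ks k a b) a b := by
  refine ⟨hA.ha, hA.hb, hA.ne, fun c hc h1 h2 => ?_⟩
  rw [ks_lt_trL hk hA hc hA.ha (by simp [h1]) (by simp [h2]),
    ks_lt_trL hk hA hc hA.hb (by simp [h1]) (by simp [h2])]
  exact hA.adj c hc h1 h2

/-- A gap which turns at `a` has gain two. -/
theorem gn_gap_trL {x : L} (hx : x ∈ S) (xa : x ≠ a) (xb : x ≠ b)
    (h : ¬ (k x < k a ↔ k a < k b)) : 1 ≤ gn k a b [x, a, b] ∧ 1 ≤ gn k a b [b, a, x] := by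
  have hab := hA.ne
  have h3 := hA.adj x hx xa xb
  have p1 : Pth S [x, a, b] := ⟨by simp [Rd, xa, hab], by simp, by simp [hx, hA.ha, hA.hb]⟩
  have h4 : 1 ≤ gn k a b [x, a, b] := by
    have e : swL a b [x, a, b] = [x, b] := by simp [swL, xa, xb]
    have e1 : ks k a b x = k x := by
      simp [ks, Equiv.swap_apply_of_ne_of_ne xa xb]
    have e2 : ks k a b b = k a := by simp [ks]
    unfold gn
    rw [e]
    simp only [lin, e1, e2, fw]
    by_cases h5 : k a < k b
    · have h6 : ¬ k x < k a := fun h6 => h ⟨fun _ => h5, fun _ => h6⟩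
      simp [h5, h6, xa, hab.symm]
    · have h6 : k x < k a := by
        by_contra h6
        exact h ⟨fun h7 => absurd h7 h6, fun h7 => absurd h7 h5⟩
      simp [h5, h6, xb, hab]
  refine ⟨h4, ?_⟩
  have := gn_reverse hk hA p1
  simp only [List.reverse_cons, List.reverse_nil, List.nil_append, List.cons_append] at this
  rw [this]
  exact h4

theorem imp_both_trL {q : List L} (hq : Pth S q) {d : Bool} (hm : Mono k d q)
    (hm' : Mono (ks k a b) d (swL a b q)) (h1 : q.head? ≠ some b) (h2 : q.getLast? ≠ some b)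
    (hb : b ∈ q) : a ∈ q ∧ a ∈ swL a b q := by
  refine ⟨mono_imp hk hA hq hm hm' h1 h2 hb, ?_⟩
  have e : ks (ks k a b) a b = k := by
    funext x
    simp [ks]
  refine mono_imp (ks_inj hk a b) (adjc_ks_trL hk hA) (swL_pth hA.ha hA.ne hq) hm' ?_ ?_ ?_ ?_
  · rw [e, swL_swL hA.ne hq.rd]; exact hm
  · rw [swL_head]; exact h1
  · rw [swL_last]; exact h2
  · exact (swL_mem hA.ne.symm q).2 hb

end step

/-- Outside of the barriers, on opposite sides. -/
def OutTrL (k : L → κ) (bl br x y : L) : Prop :=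
  (k x < k bl ∧ k br < k y) ∨ (k y < k bl ∧ k br < k x)

/-- Pairs that are not inverted keep their order. -/
def BtwTrL (S : Set L) (k0 k1 k : L → κ) : Prop :=
  ∀ x ∈ S, ∀ y ∈ S, k0 x < k0 y → k1 x < k1 y → k x < k y

/-- A piece which is good at the current stage. -/
def GdTrL (S : Set L) (k0 k1 : L → κ) (bl br : List L → L) (k : L → κ) (c : List (L × L))
    (e : List L × List L) : Prop :=
  Bar S k0 k1 (bl e.1) (br e.1) ∧ Spans k0 (bl e.1) (br e.1) e.1 ∧
    Spans k (bl e.1) (br e.1) e.2 ∧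
    (∀ x, Deep S k1 (bl e.1) (br e.1) x → (x ∈ e.2 ↔ x ∈ e.1)) ∧
    ∀ f ∈ c, Deep S k1 (bl e.1) (br e.1) f.1 → Deep S k1 (bl e.1) (br e.1) f.2 →
      f.2 ∈ e.1 → f.1 ∈ e.1

/-- A piece containing a gap of positive gain. -/
def BadTrL (k : L → κ) (a b : L) (q : List L) : Prop :=
  ∃ x y, x ≠ a ∧ y ≠ a ∧ [x, a, y] <:+: q ∧ 1 ≤ gn k a b [x, a, y]

/-- Good or containing a gap of positive gain. -/
def PgTrL (S : Set L) (k0 k1 : L → κ) (bl br : List L → L) (k : L → κ) (c : List (L × L))
    (a b : L) (e : List L × List L) : Prop := GdTrL S k0 k1 bl br k c e ∨ BadTrL k a b e.2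

section geo
variable {S : Set L} {k0 k1 k : L → κ} {a b : L} (hk : Function.Injective k) (hA : Adjc S k a b)
  (i0 : Function.Injective k0) (i1 : Function.Injective k1) (hB : BtwTrL S k0 k1 k)
  (e0 : k a < k b ↔ k0 a < k0 b) (e1 : k a < k b ↔ k1 b < k1 a)

include i0 hB in
theorem deep_trL {l r x : L} (h : Bar S k0 k1 l r) (hx : Deep S k1 l r x) :
    k l < k x ∧ k x < k r := by
  obtain ⟨hS, h1, h2⟩ := hx
  constructor
  · refine hB l h.hl x hS ?_ h1
    rcases lt_trichotomy (k0 l) (k0 x) with h3 | h3 | h3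
    · exact h3
    · rw [i0 h3] at h1; exact absurd h1 (lt_irrefl _)
    · exact absurd (h.left x hS h3) (lt_asymm h1)
  · refine hB x hS r h.hr ?_ h2
    rcases lt_trichotomy (k0 x) (k0 r) with h3 | h3 | h3
    · exact h3
    · rw [i0 h3] at h2; exact absurd h2 (lt_irrefl _)
    · exact absurd (h.right x hS h3) (lt_asymm h2)

include hA i0 i1 e0 e1 in
theorem swap_dir_trL {x y : L} (h : (x = a ∧ y = b) ∨ (x = b ∧ y = a)) (hxy : k x < k y) :
    k0 x < k0 y ∧ k1 y < k1 x := by
  rcases h with ⟨rfl, rfl⟩ | ⟨rfl, rfl⟩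
  · exact ⟨e0.1 hxy, e1.1 hxy⟩
  · have h1 : ¬ k y < k x := lt_asymm hxy
    have h2 : k0 y ≠ k0 x := fun h => hA.ne (i0 h)
    have h3 : k1 x ≠ k1 y := fun h => hA.ne (i1 h).symm
    exact ⟨lt_of_le_of_ne (not_lt.1 (fun h => h1 (e0.2 h))) h2.symm,
      lt_of_le_of_ne (not_lt.1 (fun h => h1 (e1.2 h))) h3.symm⟩

include hk hA i0 i1 hB e0 e1 in
theorem btw_ks_trL : BtwTrL S k0 k1 (ks k a b) := by
  intro x hx y hy h0 h1
  have h2 := hB x hx y hy h0 h1
  have h3 : ¬ ((x = a ∧ y = b) ∨ (x = b ∧ y = a)) := fun h =>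
    lt_asymm h1 (swap_dir_trL hA i0 i1 e0 e1 h h2).2
  exact (ks_lt_trL hk hA hx hy (fun h => h3 (Or.inl h)) (fun h => h3 (Or.inr h))).2 h2

include hk hA i0 i1 e0 e1 in
theorem left_ks_trL {l r x : L} (h : Bar S k0 k1 l r) (hx : x ∈ S) (h2 : k x < k l) :
    ks k a b x < ks k a b l := by
  have h3 : ¬ ((x = a ∧ l = b) ∨ (x = b ∧ l = a)) := fun h4 =>
    lt_asymm (h.left x hx (swap_dir_trL hA i0 i1 e0 e1 h4 h2).1)
      (swap_dir_trL hA i0 i1 e0 e1 h4 h2).2
  exact (ks_lt_trL hk hA hx h.hl (fun h => h3 (Or.inl h)) (fun h => h3 (Or.inr h))).2 h2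

include hk hA i0 i1 e0 e1 in
theorem right_ks_trL {l r x : L} (h : Bar S k0 k1 l r) (hx : x ∈ S) (h2 : k r < k x) :
    ks k a b r < ks k a b x := by
  have h3 : ¬ ((r = a ∧ x = b) ∨ (r = b ∧ x = a)) := fun h4 =>
    lt_asymm (h.right x hx (swap_dir_trL hA i0 i1 e0 e1 h4 h2).1)
      (swap_dir_trL hA i0 i1 e0 e1 h4 h2).2
  exact (ks_lt_trL hk hA h.hr hx (fun h => h3 (Or.inl h)) (fun h => h3 (Or.inr h))).2 h2

include hk hA i0 i1 e0 e1 in
theorem left_ab_trL {l r : L} (h : Bar S k0 k1 l r) (h2 : k a < k l) : k b < k l := by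
  have la : l ≠ a := fun h3 => by rw [h3] at h2; exact lt_irrefl _ h2
  have lb : l ≠ b := fun h3 => by
    have h4 := swap_dir_trL hA i0 i1 e0 e1 (x := a) (y := l) (Or.inl ⟨rfl, h3⟩) h2
    exact lt_asymm (h.left a hA.ha h4.1) h4.2
  have h5 := hA.adj l h.hl la lb
  exact lt_of_le_of_ne (not_lt.1 (fun h6 => lt_asymm h2 (h5.2 h6))) (fun h6 => lb (hk h6).symm)

include hA i0 i1 e0 e1 in
theorem right_ab_trL {l r : L} (h : Bar S k0 k1 l r) (h2 : k r < k a) : k r < k b := by
  have la : r ≠ a := fun h3 => by rw [h3] at h2; exact lt_irrefl _ h2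
  have lb : r ≠ b := fun h3 => by
    have h4 := swap_dir_trL hA i0 i1 e0 e1 (x := r) (y := a) (Or.inr ⟨h3, rfl⟩) h2
    exact lt_asymm (h.right a hA.ha h4.1) h4.2
  exact (hA.adj r h.hr la lb).1 h2

include hk hA i0 i1 e0 e1 in
theorem out_ab_trL {l r x : L} (h : Bar S k0 k1 l r) :
    (((k x < k l ∧ k r < k a) ∨ (k a < k l ∧ k r < k x)) →
      ((k x < k l ∧ k r < k b) ∨ (k b < k l ∧ k r < k x))) ∧
    (((k a < k l ∧ k r < k x) ∨ (k x < k l ∧ k r < k a)) →
      ((k b < k l ∧ k r < k x) ∨ (k x < k l ∧ k r < k b))) := by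
  have h1 := left_ab_trL hk hA i0 i1 e0 e1 h
  have h2 := right_ab_trL hA i0 i1 e0 e1 h
  tauto

include hk hA i0 i1 hB e0 e1 in
theorem gd_swap_trL {bl br : List L → L} {c : List (L × L)} {t q : List L} (hq : Pth S q)
    (h : GdTrL S k0 k1 bl br k c (t, q)) (h0 : gn k a b q = 0) :
    GdTrL S k0 k1 bl br (ks k a b) (c ++ [(a, b)]) (t, swL a b q) := by
  obtain ⟨hb, hs, ⟨d, x, y, hm, hx, hy, ho⟩, hmem, himp⟩ := h
  dsimp only at hb hs hm hx hy ho hmem himp
  have hm' := gn_mono hk hA hq hm h0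
  have xS : x ∈ S := hq.sub x (List.mem_of_mem_head? hx)
  have yS : y ∈ S := hq.sub y (List.mem_of_mem_getLast? hy)
  have key : Deep S k1 (bl t) (br t) a → b ∈ q → a ∈ q ∧ a ∈ swL a b q := by
    intro ha hbq
    obtain ⟨h1, h2⟩ := deep_trL i0 hB hb ha
    have hl : ¬ k b < k (bl t) := by
      intro h3
      have n1 : bl t ≠ a := fun h4 => by rw [h4] at h1; exact lt_irrefl _ h1
      have n2 : bl t ≠ b := fun h4 => by rw [h4] at h3; exact lt_irrefl _ h3
      exact lt_asymm h3 ((hA.adj _ hb.hl n1 n2).1 h1)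
    have hr : ¬ k (br t) < k b := by
      intro h3
      have n1 : br t ≠ a := fun h4 => by rw [h4] at h2; exact lt_irrefl _ h2
      have n2 : br t ≠ b := fun h4 => by rw [h4] at h3; exact lt_irrefl _ h3
      exact lt_asymm h2 ((hA.adj _ hb.hr n1 n2).2 h3)
    refine imp_both_trL hk hA hq hm hm' ?_ ?_ hbq
    · rw [hx]
      intro h3
      obtain rfl : x = b := by simpa using h3
      tauto
    · rw [hy]
      intro h3
      obtain rfl : y = b := by simpa using h3
      tauto
  refine ⟨hb, hs, ⟨d, x, y, hm', by rw [← hx]; exact swL_head a b q,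
    by rw [← hy]; exact swL_last a b q, ?_⟩, ?_, ?_⟩
  · rcases ho with ho | ho
    · exact Or.inl ⟨left_ks_trL hk hA i0 i1 e0 e1 hb xS ho.1,
        right_ks_trL hk hA i0 i1 e0 e1 hb yS ho.2⟩
    · exact Or.inr ⟨left_ks_trL hk hA i0 i1 e0 e1 hb yS ho.1,
        right_ks_trL hk hA i0 i1 e0 e1 hb xS ho.2⟩
  · intro z hz
    rw [← hmem z hz]
    by_cases za : z = a
    · subst za
      by_cases hbq : b ∈ q
      · exact iff_of_true (key hz hbq).2 (key hz hbq).1
      · rw [swL_not_mem_trL q hbq]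
    · exact swL_mem za q
  · intro f hf h1 h2 h3
    rcases List.mem_append.1 hf with hf | hf
    · exact himp f hf h1 h2 h3
    · obtain rfl : f = (a, b) := by simpa using hf
      exact (hmem a h1).1 (key h1 ((hmem b h2).2 h3)).1

include hk hA i0 i1 hB e0 e1 in
theorem geo_step_trL (bl br : List L → L) (c : List (L × L)) (E : List (List L × List L))
    {p : List L} (hp : Pth S p) (hD : Dec (E.map Prod.snd) p) :
    ∃ E' : List (List L × List L), Dec (E'.map Prod.snd) (swL a b p) ∧
      (E'.map Prod.fst).Sublist (E.map Prod.fst) ∧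
      (E.countP (fun e => decide (GdTrL S k0 k1 bl br k c e)) : ℝ) ≤
        (E'.countP (fun e => decide (GdTrL S k0 k1 bl br (ks k a b) (c ++ [(a, b)]) e)) : ℝ) +
          gn k a b p := by
  have hab := hA.ne
  have nd : ∀ {l r x z : L}, Bar S k0 k1 l r → Deep S k1 l r z →
      ((k x < k l ∧ k r < k a) ∨ (k a < k l ∧ k r < k x)) → z ≠ a ∧ z ≠ b := by
    intro l r x z hb hz ho
    obtain ⟨h1, h2⟩ := deep_trL i0 hB hb hz
    have ho' := (out_ab_trL hk hA i0 i1 e0 e1 hb).1 ho
    constructor
    · rintro rfl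
      rcases ho with ho | ho
      · exact lt_asymm h2 ho.2
      · exact lt_asymm h1 ho.1
    · rintro rfl
      rcases ho' with ho | ho
      · exact lt_asymm h2 ho.2
      · exact lt_asymm h1 ho.1
  cases E with
  | nil => exact absurd rfl hD.ne
  | cons e E =>
    obtain ⟨t, q⟩ := e
    refine (step_trL hk hA (PgTrL S k0 k1 bl br k c a b)
      (GdTrL S k0 k1 bl br (ks k a b) (c ++ [(a, b)])) ?_ ?_ ?_ ?_ ?_ ?_ E t q p hp hD).elim ?_
    rotate_right
    · rintro E' ⟨d1, d2, d3⟩
      refine ⟨E', d1, d2, le_trans ?_ d3⟩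
      rw [List.countP_cons]
      have h1 : E.countP (fun e => decide (GdTrL S k0 k1 bl br k c e)) ≤
          E.countP (fun e => decide (PgTrL S k0 k1 bl br k c a b e)) :=
        List.countP_mono_left (fun e _ he => by
          simp only [decide_eq_true_eq] at he ⊢; exact Or.inl he)
      have h2 : (E.countP (fun e => decide (GdTrL S k0 k1 bl br k c e)) : ℝ) ≤
          E.countP (fun e => decide (PgTrL S k0 k1 bl br k c a b e)) := by
        exact_mod_cast h1
      by_cases hg : GdTrL S k0 k1 bl br k c (t, q)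
      · have hg' : PgTrL S k0 k1 bl br k c a b (t, q) := Or.inl hg
        simp only [hg, hg', if_true, decide_true]
        push_cast
        linarith
      · simp only [hg, decide_false, Bool.false_eq_true, if_false, Nat.add_zero]
        split_ifs <;> linarith
    · rintro t q hq (h | ⟨x, y, hx, hy, h1, h2⟩)
      · rcases gn_cases hk hA hq with h0 | h0
        · exact Or.inl (gd_swap_trL hk hA i0 i1 hB e0 e1 hq h h0)
        · exact Or.inr (by linarith)
      · exact Or.inr (h2.trans (gn_inf_trL hk hA hq hx hy h1))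
    · rintro t (⟨hb, -, ⟨d, x, y, -, hx, hy, ho⟩, -⟩ | ⟨x, y, -, -, h1, -⟩)
      · obtain rfl : b = x := by simpa using hx
        obtain rfl : b = y := by simpa using hy
        have h1 := hB _ hb.hl _ hb.hr hb.lt0 hb.lt1
        rcases ho with ho | ho <;> exact lt_asymm h1 (ho.2.trans ho.1)
      · have := h1.length_le
        simp at this
    · rintro t A (⟨hb, hs, ⟨d, x, y, hm, hx, hy, ho⟩, hmem, himp⟩ | ⟨x, y, hx, hy, h1, h2⟩)
      · obtain rfl : a = y := by simpa using hy
        refine Or.inl ⟨hb, hs, ⟨d, x, b, ?_, ?_, by simp,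
          (out_ab_trL hk hA i0 i1 e0 e1 hb).1 ho⟩, ?_, himp⟩
        · exact chain_inf_trL hm ⟨[], [a], by simp⟩
        · rw [← hx]; cases A <;> simp
        · intro z hz
          rw [← hmem z hz]
          simp [(nd hb hz ho).1]
      · refine Or.inr ⟨x, y, hx, hy, ?_, h2⟩
        have e : A ++ [b, a] = (A ++ [b]) ++ [a] := by simp
        dsimp only at h1
        rw [e, List.infix_concat_iff] at h1
        rcases h1 with ⟨u, hu⟩ | h1
        · have := congrArg List.getLast? hu
          simp at this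
          exact absurd this hy
        · exact h1
    · rintro t B (⟨hb, hs, ⟨d, x, y, hm, hx, hy, ho⟩, hmem, himp⟩ | ⟨x, y, hx, hy, h1, h2⟩)
      · obtain rfl : a = x := by simpa using hx
        refine Or.inl ⟨hb, hs, ⟨d, b, y, ?_, by simp, ?_,
          (out_ab_trL hk hA i0 i1 e0 e1 hb).2 ho⟩, ?_, himp⟩
        · exact List.IsChain.tail hm
        · rw [← hy]; simp [List.getLast?_cons_cons]
        · intro z hz
          rw [← hmem z hz]
          simp [(nd hb hz ho.symm).1]
      · refine Or.inr ⟨x, y, hx, hy, ?_, h2⟩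
        dsimp only at h1
        rw [List.infix_cons_iff] at h1
        rcases h1 with ⟨u, hu⟩ | h1
        · simp at hu
          exact absurd hu.1 hx
        · exact h1
    · rintro t A w wb hq
        (⟨hb, hs, ⟨d, x, y, hm, hx, hy, ho⟩, hmem, himp⟩ | ⟨x, y, hx, hy, h1, h2⟩)
      · obtain rfl : a = y := by simpa using hy
        have wa : w ≠ a := by
          have := chain_inf_trL hq.rd (⟨A, [b], by simp⟩ : [w, a] <:+: A ++ [w, a, b])
          simpa using this
        by_cases ht : (k w < k a ↔ k a < k b)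
        · refine Or.inl ⟨hb, hs, ⟨d, x, b, ?_, ?_, by simp,
            (out_ab_trL hk hA i0 i1 e0 e1 hb).1 ho⟩, ?_, himp⟩
          · have h1 := chain_inf_trL hm (⟨A, [], by simp⟩ : [w, a] <:+: A ++ [w, a])
            have e : A ++ [w, a, b] = (A ++ [w]) ++ a :: [b] := by simp
            have e' : A ++ [w, a] = (A ++ [w]) ++ [a] := by simp
            unfold Mono at hm ⊢
            dsimp only at hm ⊢
            rw [e, List.isChain_split, ← e']
            refine ⟨hm, ?_⟩
            have n : k a ≠ k b := fun h => hab (hk h)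
            cases d
            · simp only [Bool.false_eq_true, if_false, List.isChain_cons_cons,
                List.isChain_singleton, and_true] at h1 ⊢
              exact lt_of_le_of_ne (not_lt.1 (fun h => lt_asymm h1 (ht.2 h))) n.symm
            · simp only [if_true, List.isChain_cons_cons,
                List.isChain_singleton, and_true] at h1 ⊢
              exact ht.1 h1
          · rw [← hx]; cases A <;> simp
          · intro z hz
            rw [← hmem z hz]
            simp [(nd hb hz ho).2]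
        · exact Or.inr ⟨w, b, wa, hab.symm, ⟨A, [], by simp⟩,
            (gn_gap_trL hk hA (hq.sub w (by simp)) wa wb ht).1⟩
      · exact Or.inr ⟨x, y, hx, hy, h1.trans ⟨[], [b], by simp⟩, h2⟩
    · rintro t w B wb hq
        (⟨hb, hs, ⟨d, x, y, hm, hx, hy, ho⟩, hmem, himp⟩ | ⟨x, y, hx, hy, h1, h2⟩)
      · obtain rfl : a = x := by simpa using hx
        have wa : w ≠ a := by
          have := chain_inf_trL hq.rd (⟨[b], B, by simp⟩ : [a, w] <:+: b :: a :: w :: B)
          have h2 : a ≠ w := by simpa using this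
          exact h2.symm
        by_cases ht : (k w < k a ↔ k a < k b)
        · refine Or.inl ⟨hb, hs, ⟨d, b, y, ?_, by simp, ?_,
            (out_ab_trL hk hA i0 i1 e0 e1 hb).2 ho⟩, ?_, himp⟩
          · have h1 := (List.isChain_cons_cons.1 hm).1
            refine List.isChain_cons_cons.2 ⟨?_, hm⟩
            have n : k a ≠ k b := fun h => hab (hk h)
            cases d
            · simp only [Bool.false_eq_true, if_false] at h1 ⊢
              exact ht.1 h1
            · simp only [if_true] at h1 ⊢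
              exact lt_of_le_of_ne (not_lt.1 (fun h => lt_asymm h1 (ht.2 h))) n.symm
          · rw [← hy]; simp [List.getLast?_cons_cons]
          · intro z hz
            rw [← hmem z hz]
            simp [(nd hb hz ho.symm).2]
        · exact Or.inr ⟨b, w, hab.symm, wa, ⟨[], B, by simp⟩,
            (gn_gap_trL hk hA (hq.sub w (by simp)) wa wb ht).2⟩
      · exact Or.inr ⟨x, y, hx, hy, h1.trans ⟨[b], [], by simp⟩, h2⟩

end geo

theorem chain_trL {S : Set L} {k0 k1 : L → κ} (i0 : Function.Injective k0)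
    (i1 : Function.Injective k1) (bl br : List L → L) (c : List (L × L)) :
    ∀ (k : L → κ) (c1 : List (L × L)) (E : List (List L × List L)) (p : List L),
      Function.Injective k → Chn S k0 k1 k c → BtwTrL S k0 k1 k → Pth S p →
      Dec (E.map Prod.snd) p →
      ∃ E' : List (List L × List L), Dec (E'.map Prod.snd) (act c p) ∧
        (E'.map Prod.fst).Sublist (E.map Prod.fst) ∧
        (E.countP (fun e => decide (GdTrL S k0 k1 bl br k c1 e)) : ℝ) ≤
          (E'.countP (fun e => decide (GdTrL S k0 k1 bl br (kend k c) (c1 ++ c) e)) : ℝ) +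
            gains k c p := by
  induction c with
  | nil =>
    intro k c1 E p _ _ _ _ hD
    exact ⟨E, hD, List.Sublist.refl _, by simp [kend, gains]⟩
  | cons e c ih =>
    intro k c1 E p hk hc hB hp hD
    obtain ⟨a, b⟩ := e
    obtain ⟨hA, e0, e1, hc⟩ := hc
    dsimp only at hA e0 e1 hc
    obtain ⟨E1, d1, d2, d3⟩ := geo_step_trL hk hA i0 i1 hB e0 e1 bl br c1 E hp hD
    obtain ⟨E2, f1, f2, f3⟩ := ih (ks k a b) (c1 ++ [(a, b)]) E1 _ (ks_inj hk a b) hc
      (btw_ks_trL hk hA i0 i1 hB e0 e1) (swL_pth hA.ha hA.ne hp) d1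
    refine ⟨E2, f1, f2.trans d2, ?_⟩
    rw [List.append_assoc, List.singleton_append] at f3
    change _ ≤ (E2.countP (fun e => decide (GdTrL S k0 k1 bl br (kend (ks k a b) c)
      (c1 ++ (a, b) :: c) e)) : ℝ) + (gn k a b p + gains (ks k a b) c (swL a b p))
    linarith

/-- All but few of the pieces that span a pair of barriers survive. -/
theorem trackL {S : Set L} {k0 k1 : L → κ} {c : List (L × L)} (h : FCh S k0 k1 c) {p : List L}
    (hp : Pth S p) {D : List (List L)} (hD : Dec D p) (bl br : List L → L) :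
    ∃ (D' : List (List L)) (Z : List (List L × List L)), Dec D' (act c p) ∧
      (Z.map Prod.fst).Sublist D ∧ (Z.map Prod.snd).Sublist D' ∧
      (∀ e ∈ Z, Bar S k0 k1 (bl e.1) (br e.1) ∧ Spans k0 (bl e.1) (br e.1) e.1 ∧
        GoodL S k1 c (bl e.1) (br e.1) e.1 e.2) ∧
      (D.countP (fun q => decide (Bar S k0 k1 (bl q) (br q) ∧ Spans k0 (bl q) (br q) q)) : ℝ) ≤
        Z.length + gains k0 c p := by
  have s1 : (D.map (fun q => (q, q))).map Prod.snd = D := by simp [Function.comp_def]
  have s2 : (D.map (fun q => (q, q))).map Prod.fst = D := by simp [Function.comp_def]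
  obtain ⟨E, d1, d2, d3⟩ := chain_trL h.inj0 h.inj1 bl br c k0 [] (D.map (fun q => (q, q))) p
    h.inj0 h.chn (fun _ _ _ _ h1 _ => h1) hp (by rw [s1]; exact hD)
  rw [s2] at d2
  refine ⟨E.map Prod.snd, E.filter (fun e => decide (GdTrL S k0 k1 bl br (kend k0 c) ([] ++ c) e)),
    d1, (List.filter_sublist.map _).trans d2, List.filter_sublist.map _, ?_, ?_⟩
  · intro e he
    obtain ⟨he, hg⟩ := List.mem_filter.1 he
    obtain ⟨hb, hs, ⟨d, x, y, hm, hx, hy, ho⟩, hmem, himp⟩ := of_decide_eq_true hg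
    have hq : ∀ z ∈ e.2, z ∈ S := fun z hz =>
      (fch_pth h hp).sub z ((dec_inf d1 (List.mem_map_of_mem he)).subset hz)
    have xS : x ∈ S := hq x (List.mem_of_mem_head? hx)
    have yS : y ∈ S := hq y (List.mem_of_mem_getLast? hy)
    refine ⟨hb, hs, ⟨d, x, y, ?_, hx, hy, ?_⟩, hmem, by simpa using himp⟩
    · exact (mono_congr d (fun u hu v hv => h.fin u (hq u hu) v (hq v hv))).1 hm
    · rw [← h.fin x xS _ hb.hl, ← h.fin _ hb.hr y yS, ← h.fin y yS _ hb.hl, ← h.fin _ hb.hr x xS]
      exact ho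
  · rw [← List.countP_eq_length_filter]
    refine le_trans (le_of_eq ?_) d3
    rw [List.countP_map]
    congr 1
    refine List.countP_congr (fun q _ => ?_)
    simp [GdTrL]

end Pool.Agent.E5f
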