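import Pool.Agent.E5f.FsStep
import Pool.Agent.E5f.LsTrackL
import Pool.Agent.E5f.FsDriftAux

set_option autoImplicit false

namespace Pool.Agent.E5f

open Classical Filter

namespace FSys
variable {O : Type} [AddCommGroup O] {E : Lat O} {Q P : Type} {dv dh : Q → Q → ℝ}
  {Cu : Q → Prop} {fv fh : Q → P → P → ℝ} (Y : FSys E dv dh Cu fv fh)

theorem tg_symm_FsDrift (S : Finset (Fin 3 × O)) (x y : P) (z z' : Q) :
    Y.tg S x y z z' = Y.tg S x y z' z := by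
  simp only [tg, sl_not]
  ring

theorem ws_FsDrift {A B : Q} {e s : Bool} {σ : O → Bool} {a : O} {o : Option (Q × Q)}
    (h : Y.toStp.WS A B e σ s a o) :
    |E.ξ a - Y.toStp.px A| ≤ |Y.toStp.px B - Y.toStp.px A| := by
  cases o with
  | none => exact E.cr_FsDrift h.1
  | some z =>
    obtain ⟨h1, h2, -⟩ := Y.toBSys.tch_px h.1
    rcases h.2 with ⟨rfl, -⟩ | ⟨rfl, -⟩
    · rw [← h2, sub_self, abs_zero]
      exact abs_nonneg _
    · rw [← h1]

/-- All but few of the surviving pieces obey the closure rule at a point of the window. -/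
theorem rule_FsDrift : ∃ c C : ℝ, 0 < c ∧ 0 ≤ C ∧ ∀ (A B : Q) (e s : Bool) (σ : O → Bool) (a : O)
    (o : Option (Q × Q)), Dir e (Y.ux A) (Y.ux B) → Y.toStp.WS A B e σ s a o → ∀ x y : P,
    ∀ᶠ S in atTop, ∀ g : ℝ, 0 ≤ g → (∀ z, o = some z → Y.tg S x y z.1 z.2 ≤ g) →
      ∀ ch D D' (Z : List (List (Fin 3 × O) × List (Fin 3 × O))), Y.CH S x y A B σ ch →
      Dec D (Y.path A S x y) → Dec D' (Y.path B S x y) → (Z.map Prod.fst).Sublist D →
      (Z.map Prod.snd).Sublist D' → ∃ bad : List (Fin 3 × O) × List (Fin 3 × O) → Bool,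
        c * (Z.countP bad : ℝ) - C ≤ g ∧ ∀ z ∈ Z, bad z = false → ∀ bl br,
          Spans (E.key (Y.ux A)) bl br z.1 →
          GoodL (S : Set (Fin 3 × O)) (E.key (Y.ux B)) ch bl br z.1 z.2 →
          ∀ ν ν', ν ∈ S → ν' ∈ S → Full (S : Set (Fin 3 × O)) E.tyl (E.bk a) ν' →
            E.bk a ν = E.bk a ν' → ν.1 ≠ ν'.1 → (hgt (E.tyl ν') < hgt (E.tyl ν) ↔ s = true) →
            E.Btw_FsDrift (Y.toStp.px A) bl br ν' → E.Btw_FsDrift (Y.toStp.px B) bl br ν →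
            E.Btw_FsDrift (Y.toStp.px B) bl br ν' → ν' ∈ z.1 → ν ∈ z.1 := by
  obtain ⟨c, C, hc, hC, ht⟩ := Y.touch_ev
  refine ⟨c, C, hc, hC, fun A B e s σ a o hd hw x y => ?_⟩
  have deep : ∀ {S : Finset (Fin 3 × O)} {bl br ν : Fin 3 × O}, ν ∈ S →
      E.Btw_FsDrift (Y.toStp.px B) bl br ν →
      Deep (S : Set (Fin 3 × O)) (E.key (Y.ux B)) bl br ν :=
    fun h1 h2 => ⟨h1, E.pos_key _ h2.1, E.pos_key _ h2.2⟩
  cases o with
  | none =>
    refine Eventually.of_forall fun S g hg _ ch D D' Z hch _ _ _ _ =>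
      ⟨fun _ => false, by simp; linarith, ?_⟩
    intro z _ _ bl br _ hG ν ν' h1 h2 _ hb hne hh _ b1 b2
    have inv : ∀ μ μ' : Fin 3 × O, μ ∈ S → μ' ∈ S → E.bk a μ = E.bk a μ' →
        (if e = true then E.sp μ' < E.sp μ else E.sp μ < E.sp μ') →
        (μ, μ') ∈ ch ∨ (μ', μ) ∈ ch := fun μ μ' g1 g2 g3 g4 => by
      obtain ⟨g5, g6⟩ := (E.inv_iff hd μ μ').2 ⟨a, g3, hw.1, g4⟩
      exact (fch_inv hch.fch g1 g2 g5 g6).1
    have h3 : (ν, ν') ∈ ch ∨ (ν', ν) ∈ ch := by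
      rcases lt_or_gt_of_ne (E.sp_ne_FsDrift hne) with h | h <;> cases e
      · exact inv ν ν' h1 h2 hb (by simpa using h)
      · exact (inv ν' ν h2 h1 hb.symm (by simpa using h)).symm
      · exact (inv ν' ν h2 h1 hb.symm (by simpa using h)).symm
      · exact inv ν ν' h1 h2 hb (by simpa using h)
    rcases h3 with h3 | h3
    · exact hG.imp _ h3 (deep h1 b1) (deep h2 b2)
    · have h4 := hch.stat _ h3 a hb.symm
      rw [hw.2] at h4
      exact absurd (E.ty.injective (hgt_asymm_FsDrift h4 hh)) hne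
  | some z =>
    obtain ⟨z1, z2⟩ := z
    obtain ⟨p1, p2, -⟩ := Y.toBSys.tch_px hw.1
    rcases hw.2 with ⟨rfl, -⟩ | ⟨rfl, -⟩
    · filter_upwards [(ht a _ _ (Y.toBSys.tch_symm hw.1) x y).2] with S hS g _ hg ch D D' Z _ hD _
        s1 _
      refine ⟨fun z => decide (Mixed (S : Set (Fin 3 × O)) (E.key (Y.ux z2)) E.tyl (E.bk a) z.1),
        ?_, ?_⟩
      · have h1 := hS.2 D hD
        have h2 := s1.countP_le (p := fun q => decide
          (Mixed (S : Set (Fin 3 × O)) (E.key (Y.ux z2)) E.tyl (E.bk a) q))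
        rw [List.countP_map] at h2
        have h3 := hg _ rfl
        rw [Y.tg_symm_FsDrift] at h3
        refine le_trans (sub_le_sub_right (mul_le_mul_of_nonneg_left ?_ hc.le) C) (h1.trans h3)
        exact_mod_cast h2
      · intro z _ hz bl br hs _ ν ν' h1 _ hF hb _ _ b0 _ _
        exact E.notMixed_FsDrift p2 hs (of_decide_eq_false hz) h1 hF hb b0
    · filter_upwards [(ht a _ _ hw.1 x y).2] with S hS g _ hg ch D D' Z _ _ hD _ s2
      refine ⟨fun z => decide (Mixed (S : Set (Fin 3 × O)) (E.key (Y.ux z1)) E.tyl (E.bk a) z.2),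
        ?_, ?_⟩
      · have h1 := hS.2 D' hD
        have h2 := s2.countP_le (p := fun q => decide
          (Mixed (S : Set (Fin 3 × O)) (E.key (Y.ux z1)) E.tyl (E.bk a) q))
        rw [List.countP_map] at h2
        refine le_trans (sub_le_sub_right (mul_le_mul_of_nonneg_left ?_ hc.le) C)
          (h1.trans (hg _ rfl))
        exact_mod_cast h2
      · intro z _ hz bl br _ hG ν ν' h1 h2 hF hb _ _ _ b1 b2 h3
        exact (hG.mem _ (deep h1 b1)).1 (E.notMixed_FsDrift p1 hG.sp (of_decide_eq_false hz) h1 hF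
          hb b2 ((hG.mem _ (deep h2 b2)).2 h3))

/-- An inverted pair in a closed window forces many turns. -/
theorem drift (W : ℝ) : ∃ L C : ℝ, 0 < L ∧ 0 ≤ C ∧ ∀ (A B : Q) (e : Bool) (σ : O → Bool)
    (a a' : O) (o o' : Option (Q × Q)), Y.St A B σ → Dir e (Y.ux A) (Y.ux B) →
    |Y.toStp.px B - Y.toStp.px A| ≤ W → E.η a' < E.η a → Y.toStp.WS A B e σ true a o →
    Y.toStp.WS A B e σ false a' o' → ∀ x y : P, ∀ᶠ S in atTop, ∀ g : ℝ, 0 ≤ g →
      Y.sl S x y B e - Y.sl S x y A e ≤ g →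
      (∀ z, (o = some z ∨ o' = some z) → Y.tg S x y z.1 z.2 ≤ g) →
      fv A x y / L - C * (g + 1) ≤ Y.tu S x y A := by
  obtain ⟨c, C, hc, hC, hr⟩ := Y.rule_FsDrift
  obtain ⟨H, hH0, hH⟩ := E.lab_ex_FsDrift
  have hδ : 0 < min (E.w 1) (E.w 2 - E.w 1) := lt_min E.w1 (sub_pos.2 E.w2)
  have hw2 := E.w2_pos_FsDrift
  refine ⟨6 + 12 * (E.w 2 * |W|) + 1, 1 + 2 / c + 2 * C / c + 1 / min (E.w 1) (E.w 2 - E.w 1),
    by positivity, by positivity, fun A B e σ a a' o o' hst hd hW hη h1 h2 x y => ?_⟩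
  have hW0 : 0 ≤ W := (abs_nonneg _).trans hW
  rw [abs_of_nonneg hW0]
  have hV : 0 ≤ E.w 2 * W := by positivity
  have ha := (Y.ws_FsDrift h1).trans hW
  have ha' := (Y.ws_FsDrift h2).trans hW
  obtain ⟨T, Y0, hbox⟩ := Y.box A x y
  obtain ⟨X, hX0, hX⟩ : ∃ X : ℝ, 0 ≤ X ∧ ∀ ν ∈ T, |E.pos (Y.toStp.px A) ν| ≤ X :=
    ⟨∑ ν ∈ T, |E.pos (Y.toStp.px A) ν|, Finset.sum_nonneg fun _ _ => abs_nonneg _, fun ν hν =>
      Finset.single_le_sum (f := fun ν => |E.pos (Y.toStp.px A) ν|) (fun _ _ => abs_nonneg _) hν⟩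
  obtain ⟨U, hU, hU'⟩ : ∃ U : ℝ, (∀ i, |E.η (E.μ i a)| ≤ U) ∧ ∀ i, |E.η (E.μ i a')| ≤ U := by
    have := fun i => Finset.single_le_sum (f := fun i => |E.η (E.μ i a)| + |E.η (E.μ i a')|)
      (fun _ _ => by positivity) (Finset.mem_univ i)
    exact ⟨_, fun i => le_trans (le_add_of_nonneg_right (abs_nonneg _)) (this i),
      fun i => le_trans (le_add_of_nonneg_left (abs_nonneg _)) (this i)⟩
  have hU0 : 0 ≤ U := (abs_nonneg _).trans (hU 0)
  have hY0 := abs_nonneg Y0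
  filter_upwards [eventually_ge_atTop (E.rect_fin (Y.toStp.px A)
      (X + E.w 2 * W + |Y0| + H + 6 * U)).toFinset, Y.ev A x y, hbox, Y.step_ev hst hd x y,
    hr A B e true σ a o hd h1 x y, hr A B e false σ a' o' hd h2 x y]
    with S hS0 hev ⟨b1, b2, b3⟩ ⟨ch, hch, g0, g1, _⟩ r1 r2 g hg hsl htg
  have hS : ∀ ν, |E.pos (Y.toStp.px A) ν| ≤ X + E.w 2 * W → |E.η ν.2| ≤ |Y0| + H + 6 * U →
      ν ∈ S := fun ν k1 k2 => hS0 ((Set.Finite.mem_toFinset _).2 ⟨by linarith, by linarith⟩)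
  have hk := E.key_inj (Y.ux A)
  have hp := hch.pth
  have hgain : gains (E.key (Y.ux A)) ch (Y.path A S x y) ≤ g / min (E.w 1) (E.w 2 - E.w 1) := by
    rw [le_div_iff₀' hδ]
    linarith
  have hfin : ∀ t : ℝ, t - 1 - (2 * (g + C) / c + g / min (E.w 1) (E.w 2 - E.w 1)) ≤
      Y.tu S x y A → t - (1 + 2 / c + 2 * C / c + 1 / min (E.w 1) (E.w 2 - E.w 1)) * (g + 1) ≤
      Y.tu S x y A := fun t ht => by
    have k1 : (1 + 2 / c + 2 * C / c + 1 / min (E.w 1) (E.w 2 - E.w 1)) * (g + 1) =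
        1 + (2 * (g + C) / c + g / min (E.w 1) (E.w 2 - E.w 1)) +
          (g + 2 / c + 2 * C / c * g + 1 / min (E.w 1) (E.w 2 - E.w 1)) := by ring
    have k2 : 0 ≤ g + 2 / c + 2 * C / c * g + 1 / min (E.w 1) (E.w 2 - E.w 1) := by positivity
    linarith
  refine hfin _ ?_
  rw [hev, tu]
  have heq := hch.eq
  generalize Y.path A S x y = p at *
  by_cases h2p : 2 ≤ p.length
  swap
  · have k1 : Var (p.map (E.pos (Y.toStp.px A))) = 0 := by
      match p, h2p with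
      | [], _ => rfl
      | [_], _ => rfl
      | _ :: _ :: _, h => exact absurd (by simp) h
    have k2 : 0 ≤ 2 * (g + C) / c + g / min (E.w 1) (E.w 2 - E.w 1) := by positivity
    have k3 : (0 : ℝ) ≤ turns (E.key (Y.ux A)) p := Nat.cast_nonneg _
    rw [k1, zero_div]
    linarith
  have hpX : ∀ ν ∈ p, -X ≤ E.pos (Y.toStp.px A) ν ∧ E.pos (Y.toStp.px A) ν ≤ X := fun ν hν => by
    obtain ⟨y1, y2, k1, k2, k3, k4⟩ := mem_between hk hp.rd hν
    exact ⟨(abs_le.1 (hX _ (b1 _ k1))).1.trans (E.key_le_FsDrift _ k3),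
      (E.key_le_FsDrift _ k4).trans (abs_le.1 (hX _ (b1 _ k2))).2⟩
  have hchain : p.IsChain
      (fun μ ν => |E.pos (Y.toStp.px A) ν - E.pos (Y.toStp.px A) μ| ≤ 1) := by
    refine List.isChain_iff_forall_rel_of_append_cons_cons.2 fun μ ν l1 l2 hl => ?_
    have k1 := hpX μ (by simp [hl])
    have k2 := hpX ν (by simp [hl])
    by_contra hn
    obtain ⟨z, -, k3, k4, k5, k6⟩ := hH (Y.toStp.px A) 0
      (min (E.pos (Y.toStp.px A) μ) (E.pos (Y.toStp.px A) ν)) |Y0|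
    have k7 := le_abs_self Y0
    rcases lt_abs.1 (not_le.1 hn) with k | k
    · rw [min_eq_left (by linarith)] at k3 k4
      exact b3 z (hS z (abs_le.2 ⟨by linarith, by linarith⟩) (abs_le.2 ⟨by linarith, by linarith⟩))
        (by linarith) ⟨l1, l2, μ, ν, hl,
          Or.inl ⟨E.pos_key _ k3, E.pos_key _ (show E.pos (Y.toStp.px A) z <
            E.pos (Y.toStp.px A) ν by linarith)⟩⟩
    · rw [min_eq_right (by linarith)] at k3 k4
      exact b3 z (hS z (abs_le.2 ⟨by linarith, by linarith⟩) (abs_le.2 ⟨by linarith, by linarith⟩))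
        (by linarith) ⟨l1, l2, μ, ν, hl,
          Or.inr ⟨E.pos_key _ k3, E.pos_key _ (show E.pos (Y.toStp.px A) z <
            E.pos (Y.toStp.px A) μ by linarith)⟩⟩
  obtain ⟨D, hD, hcnt⟩ := buildL hk hp.rd h2p (ρ := E.pos (Y.toStp.px A))
    (fun _ _ _ _ h => E.key_pos _ h) zero_le_one
    (show 0 < 6 + 12 * (E.w 2 * W) by positivity) hchain
  have hbar : ∀ q : List (Fin 3 × O), ∃ bl br : Fin 3 × O,
      (q ∈ D → ((∃ d, Mono (E.key (Y.ux A)) d q) ∧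
          6 + 12 * (E.w 2 * W) ≤ extn (E.pos (Y.toStp.px A)) q) →
        Bar (S : Set (Fin 3 × O)) (E.key (Y.ux A)) (E.key (Y.ux B)) bl br ∧
          Spans (E.key (Y.ux A)) bl br q) ∧
      (bl = br ∨ (-X ≤ E.pos (Y.toStp.px A) bl ∧ E.pos (Y.toStp.px A) br ≤ X ∧
        E.pos (Y.toStp.px A) bl + (4 + 12 * (E.w 2 * W)) ≤ E.pos (Y.toStp.px A) br)) := by
    intro q
    by_cases hq : q ∈ D ∧ (∃ d, Mono (E.key (Y.ux A)) d q) ∧
        6 + 12 * (E.w 2 * W) ≤ extn (E.pos (Y.toStp.px A)) q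
    swap
    · exact ⟨(0, 0), (0, 0), fun k1 k2 => absurd ⟨k1, k2⟩ hq, Or.inl rfl⟩
    obtain ⟨k1, ⟨d, k2⟩, k3⟩ := hq
    have hne : q ≠ [] := fun h => by simpa [h] using hD.two q k1
    have k4 := List.head?_eq_some_head hne
    have k5 := List.getLast?_eq_some_getLast hne
    have k6 := hpX _ ((dec_inf hD k1).subset (List.head_mem hne))
    have k7 := hpX _ ((dec_inf hD k1).subset (List.getLast_mem hne))
    rw [extn_eq_LsBasic _ k4 k5] at k3
    have hS' : ∀ ν, |E.pos (ofLex (Y.ux A)).1 ν| ≤ X → |E.η ν.2| ≤ H →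
        ν ∈ (S : Set (Fin 3 × O)) :=
      fun ν m1 m2 => hS ν (m1.trans (le_add_of_nonneg_right hV)) (by linarith)
    rcases le_abs.1 k3 with k | k
    · obtain ⟨bl, br, m1, m2, m3, m4⟩ := E.bar_FsDrift hd hW hH hS' k6.1 k7.2 (by linarith)
      exact ⟨bl, br, fun _ _ => ⟨m1, d, _, _, k2, k4, k5,
        Or.inl ⟨E.pos_key _ m2, E.pos_key _ m3⟩⟩, Or.inr ⟨k6.1.trans m2.le, m3.le.trans k7.2, m4⟩⟩
    · obtain ⟨bl, br, m1, m2, m3, m4⟩ := E.bar_FsDrift hd hW hH hS' k7.1 k6.2 (by linarith)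
      exact ⟨bl, br, fun _ _ => ⟨m1, d, _, _, k2, k4, k5,
        Or.inr ⟨E.pos_key _ m2, E.pos_key _ m3⟩⟩, Or.inr ⟨k7.1.trans m2.le, m3.le.trans k6.2, m4⟩⟩
  choose bl br hb1 hb2 using hbar
  obtain ⟨D', Z, hD', s1, s2, hZ, hcnt'⟩ := trackL hch.fch hp hD bl br
  rw [← heq] at hD'
  obtain ⟨bad1, c1, q1⟩ := r1 g hg (fun z hz => htg z (Or.inl hz)) ch D D' Z hch hD hD' s1 s2
  obtain ⟨bad2, c2, q2⟩ := r2 g hg (fun z hz => htg z (Or.inr hz)) ch D D' Z hch hD hD' s1 s2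
  have hlen := count_FsDrift bad1 bad2 Z fun z hz n1 n2 => by
    obtain ⟨k1, k2, k3⟩ := hZ z hz
    have hzD : z.1 ∈ D := s1.subset (List.mem_map_of_mem hz)
    obtain ⟨m1, m2, m3⟩ := (hb2 z.1).resolve_left fun h => by
      have := k1.lt0
      rw [h] at this
      exact lt_irrefl _ this
    have v1 := abs_le.1 (E.pos_move_FsDrift hW (bl z.1))
    have v2 := abs_le.1 (E.pos_move_FsDrift hW (br z.1))
    have rule : ∀ (a0 : O) (s : Bool), |E.ξ a0 - Y.toStp.px A| ≤ W → (∀ i, |E.η (E.μ i a0)| ≤ U) →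
        (∀ ν ν', ν ∈ S → ν' ∈ S → Full (S : Set (Fin 3 × O)) E.tyl (E.bk a0) ν' →
          E.bk a0 ν = E.bk a0 ν' → ν.1 ≠ ν'.1 → (hgt (E.tyl ν') < hgt (E.tyl ν) ↔ s = true) →
          E.Btw_FsDrift (Y.toStp.px A) (bl z.1) (br z.1) ν' →
          E.Btw_FsDrift (Y.toStp.px B) (bl z.1) (br z.1) ν →
          E.Btw_FsDrift (Y.toStp.px B) (bl z.1) (br z.1) ν' → ν' ∈ z.1 → ν ∈ z.1) →
        E.Rule_FsDrift (Y.toStp.px A) (E.pos (Y.toStp.px A) (bl z.1) + 1 + 2 * (E.w 2 * W))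
          (E.pos (Y.toStp.px A) (bl z.1) + 3 + 10 * (E.w 2 * W)) (|Y0| + H + 4 * U) a0 s z.1 := by
      intro a0 s u1 u2 u3 ν i t1 t2 t3 t4 t5 t6 t7 t8 t9
      have mem : ∀ j, E.mv_FsDrift a0 j ν ∈ S := fun j => by
        have f1 := abs_le.1 (E.pos_blk_FsDrift u1 (E.mv_bk_FsDrift a0 j ν))
        have f2 := E.eta_mv_FsDrift u2 j ν
        exact hS _ (abs_le.2 ⟨by linarith, by linarith⟩) (by linarith)
      have v3 := abs_le.1 (E.pos_move_FsDrift hW ν)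
      have v4 := abs_le.1 (E.pos_move_FsDrift hW (E.mv_FsDrift a0 i ν))
      refine t8 (u3 ν _ (hS ν (abs_le.2 ⟨by linarith, by linarith⟩) (by linarith)) (mem i)
        (fun j => ⟨_, mem (E.ty.symm j), ?_, E.ty.apply_symm_apply j⟩)
        (E.mv_bk_FsDrift a0 i ν).symm t1.symm t2 ⟨by linarith, by linarith⟩
        ⟨by linarith, by linarith⟩ ⟨by linarith, by linarith⟩ t9)
      rw [E.mv_bk_FsDrift, E.mv_bk_FsDrift]
    obtain ⟨ν, t1, t2, t3, t4, t5⟩ := E.climb_FsDrift hH hY0 ha ha' hη hU hU'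
      (rule a true ha hU (q1 z hz n1 _ _ k2 k3)) (rule a' false ha' hU' (q2 z hz n2 _ _ k2 k3))
      fun ν hν => (neg_le_neg (le_abs_self Y0)).trans (b2 ν ((dec_inf hD hzD).subset hν))
    obtain ⟨d, x0, y0, t6, t7, t8, t9⟩ := k2
    have e1 : E.key (Y.ux A) (bl z.1) < E.key (Y.ux A) ν :=
      E.pos_key _ (show E.pos (Y.toStp.px A) _ < E.pos (Y.toStp.px A) _ by linarith)
    have e2 : E.key (Y.ux A) ν < E.key (Y.ux A) (br z.1) :=
      E.pos_key _ (show E.pos (Y.toStp.px A) _ < E.pos (Y.toStp.px A) _ by linarith)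
    have e3 := (mem_or_skip hk t6 t7 t8 (z := ν)
      (t9.imp (fun h => ⟨h.1.trans e1, e2.trans h.2⟩) fun h => ⟨h.1.trans e1, e2.trans h.2⟩)
      ).resolve_left t1
    exact b3 ν (hS ν (abs_le.2 ⟨by linarith, by linarith⟩) (abs_le.2 ⟨by linarith, by linarith⟩))
      ((le_abs_self Y0).trans_lt t4) (skip_inf (dec_inf hD hzD) e3)
  have hmono := List.countP_mono_left (l := D)
    (p := fun q => decide ((∃ d, Mono (E.key (Y.ux A)) d q) ∧
      6 + 12 * (E.w 2 * W) ≤ extn (E.pos (Y.toStp.px A)) q))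
    (q := fun q => decide (Bar (S : Set (Fin 3 × O)) (E.key (Y.ux A)) (E.key (Y.ux B)) (bl q)
      (br q) ∧ Spans (E.key (Y.ux A)) (bl q) (br q) q))
    fun q hq h => decide_eq_true (hb1 q hq (of_decide_eq_true h))
  have hmono' := (Nat.cast_le (α := ℝ)).2 hmono
  have hlen' := (Nat.cast_le (α := ℝ)).2 hlen
  rw [Nat.cast_add] at hlen'
  have hz : (Z.length : ℝ) ≤ 2 * (g + C) / c := by
    rw [le_div_iff₀' hc]
    nlinarith
  linarith

end FSys

end Pool.Agent.E5f
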