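import Pool.Agent.E5f.FsCvx
import Pool.Agent.E5f.FsDrift
import Pool.Agent.E5f.FsCore

set_option autoImplicit false

namespace Pool.Agent.E5f

open Classical Filter

theorem pm_nonneg_b5l {X : Type} {d : X → X → ℝ} (h : PM d) (x y : X) : 0 ≤ d x y := by
  have h1 := h.tri x y x
  rw [h.self, h.symm y x] at h1
  linarith

namespace FSys
variable {O : Type} [AddCommGroup O] {E : Lat O} {Q P : Type} {dv dh : Q → Q → ℝ}
  {Cu : Q → Prop} {fv fh : Q → P → P → ℝ} (Y : FSys E dv dh Cu fv fh)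

/-- Slopes on a route lie between the slopes at the ends up to a constant. -/
theorem on_bd_b5l {lo hi : ℝ} {a d z : Q} {ea ed e : Bool}
    (h : Y.toStp.OnR lo hi a ea d ed z e) : ∃ K : ℝ, 0 ≤ K ∧ ∀ x y : P, ∀ᶠ S in atTop,
      Y.sl S x y a ea - K ≤ Y.sl S x y z e ∧ Y.sl S x y z e ≤ Y.sl S x y d ed + K := by
  obtain ⟨c0, C0, _, hC0, hr⟩ := Y.route_ev
  obtain ⟨⟨l, n, h1⟩, ⟨l', n', h2⟩⟩ := h
  have hn : (0 : ℝ) ≤ n * C0 := mul_nonneg (Nat.cast_nonneg n) hC0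
  have hn' : (0 : ℝ) ≤ n' * C0 := mul_nonneg (Nat.cast_nonneg n') hC0
  refine ⟨n * C0 + n' * C0, by linarith, fun x y => ?_⟩
  filter_upwards [hr _ _ _ _ _ _ _ _ h1 x y, hr _ _ _ _ _ _ _ _ h2 x y] with S s1 s2
  constructor
  · linarith [s1.1]
  · linarith [s2.1]

/-- Gains at touches on a route. -/
theorem tg_bd_b5l {lo hi : ℝ} {a d : Q} {ea ed : Bool} (o : Option (Q × Q))
    (h : ∀ z, o = some z → Y.toStp.OnR lo hi a ea d ed z.1 (!Y.toStp.sx z.1) ∧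
      Y.toStp.OnR lo hi a ea d ed z.2 (Y.toStp.sx z.2)) :
    ∃ K : ℝ, 0 ≤ K ∧ ∀ x y : P, ∀ᶠ S in atTop, ∀ z, o = some z →
      Y.tg S x y z.1 z.2 ≤ Y.sl S x y d ed - Y.sl S x y a ea + K := by
  cases o with
  | none => exact ⟨0, le_rfl, fun x y => Eventually.of_forall (fun S z hz => by cases hz)⟩
  | some z0 =>
    obtain ⟨h1, h2⟩ := h z0 rfl
    obtain ⟨K1, k1, e1⟩ := Y.on_bd_b5l h1
    obtain ⟨K2, k2, e2⟩ := Y.on_bd_b5l h2
    refine ⟨K1 + K2, by linarith, fun x y => ?_⟩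
    filter_upwards [e1 x y, e2 x y] with S s1 s2 z hz
    cases hz
    unfold tg
    linarith [s1.1, s2.2]

/-- Few turns at a point in the middle of a route with long ends. -/
theorem up_b5l {lo hi R0 W C2 : ℝ} (hR0 : 0 < R0) (hC2 : 0 ≤ C2)
    (hW : ∀ (z r r' : Q) (ε : Bool)
      (σ σ' : O → Bool), Y.toStp.DSt lo hi ε z r σ → Y.toStp.DSt lo hi (!ε) z r' σ' →
      W ≤ |Y.toStp.px r - Y.toStp.px z| → W ≤ |Y.toStp.px r' - Y.toStp.px z| →
      ∀ x y : P, ∀ᶠ S in atTop, ∀ g : ℝ, 0 ≤ g → Y.sl S x y r ε - Y.sl S x y z ε ≤ g →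
        Y.sl S x y r' (!ε) - Y.sl S x y z (!ε) ≤ g →
        Y.tu S x y z ≤ fv z x y / R0 + C2 * (g + 1))
    {a d A : Q} {ea ed e : Bool} {l l' : ℝ} {n n' : ℕ}
    (h1 : Y.toStp.Rt lo hi a ea A e l n) (h2 : Y.toStp.Rt lo hi A e d ed l' n')
    (hl : W ≤ l) (hl' : W ≤ l') :
    ∃ K : ℝ, 0 ≤ K ∧ ∀ x y : P, ∀ᶠ S in atTop, ∀ g : ℝ, 0 ≤ g →
      Y.sl S x y d ed - Y.sl S x y A e ≤ g → Y.sl S x y A e - Y.sl S x y a ea ≤ g →
      Y.tu S x y A ≤ fv A x y / R0 + K * (g + 1) := by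
  obtain ⟨c0, C0, hc0, hC0, hr⟩ := Y.route_ev
  have aux : ∀ (m : ℕ) (t g f : ℝ), 0 ≤ g → 0 ≤ f → c0 * t - m * C0 ≤ g →
      t ≤ f / R0 + ((1 + m * C0) / c0) * (g + 1) := by
    intro m t g f hg hf h
    have hm : (0 : ℝ) ≤ m * C0 := mul_nonneg (Nat.cast_nonneg m) hC0
    have h3 : 0 ≤ f / R0 := div_nonneg hf hR0.le
    have h4 : t ≤ ((1 + m * C0) / c0) * (g + 1) := by
      rw [div_mul_eq_mul_div, le_div_iff₀ hc0]
      have := mul_nonneg hm hg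
      linarith only [this, h, hm]
    linarith only [h3, h4]
  have h1' := Y.toBSys.rt_rev h1
  rcases Nat.eq_zero_or_pos n' with rfl | hn'
  · rcases Nat.eq_zero_or_pos n with rfl | hn
    · obtain ⟨e1, l1, σ1, s1⟩ := Y.toBSys.rt_zero h2
      obtain ⟨e2, l2, σ2, s2⟩ := Y.toBSys.rt_zero h1'
      refine ⟨C2, hC2, fun x y => ?_⟩
      filter_upwards [hW A d a e σ1 σ2 s1 s2 (l1 ▸ hl') (l2 ▸ hl) x y] with S hS g hg g1 g2
      refine hS g hg (e1 ▸ g1) ?_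
      have e3 : ea = e := Bool.not_inj e2
      rw [Y.sl_not, Y.sl_not]
      rw [e3] at g2
      linarith
    · refine ⟨(1 + n * C0) / c0, div_nonneg
        (by have := mul_nonneg (Nat.cast_nonneg (α := ℝ) n) hC0; linarith) hc0.le, fun x y => ?_⟩
      filter_upwards [hr _ _ _ _ _ _ _ _ h1' x y] with S hS g hg _ g2
      refine aux n _ g _ hg (pm_nonneg_b5l (Y.fpm A) x y) ?_
      have := hS.2.2.2 hn
      rw [Y.sl_not, Y.sl_not] at this
      linarith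
  · refine ⟨(1 + n' * C0) / c0, div_nonneg
      (by have := mul_nonneg (Nat.cast_nonneg (α := ℝ) n') hC0; linarith) hc0.le, fun x y => ?_⟩
    filter_upwards [hr _ _ _ _ _ _ _ _ h2 x y] with S hS g hg g1 _
    refine aux n' _ g _ hg (pm_nonneg_b5l (Y.fpm A) x y) ?_
    have := hS.2.2.2 hn'
    linarith

/-- An inverted pair in the middle of a route bounds the length by the variation at the ends. -/
theorem key_b5l (W : ℝ) : ∃ W1 : ℝ, 1 ≤ W1 ∧ ∀ {lo hi : ℝ} {p a b c d r : Q}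
    {ep ea eb ec ed er : Bool} {n1 n2 n4 n5 : ℕ},
    Y.toStp.Rt lo hi p ep a ea 1 n1 → Y.toStp.Rt lo hi a ea b eb W1 n2 →
    Y.toStp.Rt lo hi c ec d ed W1 n4 → Y.toStp.Rt lo hi d ed r er 1 n5 →
    (∃ (A B : Q) (e : Bool) (σ : O → Bool) (a0 a' : O) (o o' : Option (Q × Q)),
      Y.toStp.DSt lo hi e A B σ ∧ |Y.toStp.px B - Y.toStp.px A| ≤ W ∧ E.η a' < E.η a0 ∧
      Y.toStp.WS A B e σ true a0 o ∧ Y.toStp.WS A B e σ false a' o' ∧
      Y.toStp.OnR lo hi b eb c ec A e ∧ Y.toStp.OnR lo hi b eb c ec B e ∧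
      ∀ z, (o = some z ∨ o' = some z) → Y.toStp.OnR lo hi b eb c ec z.1 (!Y.toStp.sx z.1) ∧
        Y.toStp.OnR lo hi b eb c ec z.2 (Y.toStp.sx z.2)) →
    ∃ M : ℝ, 0 ≤ M ∧ ∀ (x y : P) (u : ℝ), 0 ≤ u → fv p x y - fv a x y ≤ u →
      fv r x y - fv d x y ≤ u → fv b x y ≤ M * (u + 1) := by
  obtain ⟨L1, C1, hL1, hC1, hdr⟩ := Y.drift W
  obtain ⟨C2, hC2, hco⟩ := Y.core2
  obtain ⟨W0, hW0⟩ := hco (2 * L1) (by linarith)
  refine ⟨max W0 1, le_max_right _ _, ?_⟩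
  intro lo hi p a b c d r ep ea eb ec ed er n1 n2 n4 n5 r1 r2 r4 r5 hinv
  obtain ⟨A, B, e, σ, a0, a', o, o', hst, hlen, hη, w1, w2, oA, oB, oz⟩ := hinv
  obtain ⟨c0, C0, hc0, hC0, hr⟩ := Y.route_ev
  have ext : ∀ z ez, Y.toStp.OnR lo hi b eb c ec z ez → Y.toStp.OnR lo hi a ea d ed z ez := by
    rintro z ez ⟨⟨l, n, h1⟩, ⟨l', n', h2⟩⟩
    exact ⟨⟨_, _, Y.toBSys.rt_append r2 h1⟩, ⟨_, _, Y.toBSys.rt_append h2 r4⟩⟩
  obtain ⟨KA, kA, eA⟩ := Y.on_bd_b5l (ext _ _ oA)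
  obtain ⟨KB, kB, eB⟩ := Y.on_bd_b5l (ext _ _ oB)
  obtain ⟨Ko, ko, eo⟩ := Y.tg_bd_b5l o
    (fun z hz => ⟨ext _ _ (oz z (Or.inl hz)).1, ext _ _ (oz z (Or.inl hz)).2⟩)
  obtain ⟨Ko', ko', eo'⟩ := Y.tg_bd_b5l o'
    (fun z hz => ⟨ext _ _ (oz z (Or.inr hz)).1, ext _ _ (oz z (Or.inr hz)).2⟩)
  obtain ⟨⟨l, n, h1⟩, ⟨l', n', h2⟩⟩ := oA
  have hl := Y.toBSys.rt_nonneg h1
  have hl' := Y.toBSys.rt_nonneg h2
  obtain ⟨Kb, kb, eb'⟩ := Y.on_bd_b5l (lo := lo) (hi := hi) (a := a) (d := d) (z := b) (ea := ea)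
    (ed := ed) (e := eb) ⟨⟨_, _, r2⟩,
      ⟨_, _, Y.toBSys.rt_append (Y.toBSys.rt_append h1 h2) r4⟩⟩
  obtain ⟨KU, kU, eU⟩ := Y.up_b5l (R0 := 2 * L1) (W := W0) (by linarith) hC2 (hW0 lo hi)
    (Y.toBSys.rt_append r2 h1) (Y.toBSys.rt_append h2 r4)
    (by linarith [le_max_left W0 1]) (by linarith [le_max_left W0 1])
  have hn1 : (0 : ℝ) ≤ n1 * C0 := mul_nonneg (Nat.cast_nonneg _) hC0
  have hn5 : (0 : ℝ) ≤ n5 * C0 := mul_nonneg (Nat.cast_nonneg _) hC0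
  have hn : (0 : ℝ) ≤ n * C0 := mul_nonneg (Nat.cast_nonneg _) hC0
  obtain ⟨K, hK⟩ : ∃ K : ℝ, K = n1 * C0 + n5 * C0 + n * C0 + KA + KB + Ko + Ko' + Kb + 2 :=
    ⟨_, rfl⟩
  have hK2 : 2 ≤ K := by linarith only [hK, hn1, hn5, hn, kA, kB, ko, ko', kb]
  have hCK : 0 ≤ C1 + KU := by linarith only [hC1, kU]
  refine ⟨2 * L1 * (C1 + KU) * (K + 1) + l * K, by positivity, fun x y u hu u1 u2 => ?_⟩
  obtain ⟨S, s1, s5, s3, sA, sB, so, so', sb, sU, sD⟩ := ((hr _ _ _ _ _ _ _ _ r1 x y).and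
    ((hr _ _ _ _ _ _ _ _ r5 x y).and ((hr _ _ _ _ _ _ _ _ h1 x y).and ((eA x y).and ((eB x y).and
    ((eo x y).and ((eo' x y).and ((eb' x y).and ((eU x y).and
    (hdr A B e σ a0 a' o o' hst.st hst.dir hlen hη w1 w2 x y)))))))))).exists
  have ba : -u - n1 * C0 ≤ Y.sl S x y a ea := by linarith only [s1.2.2.1, u1]
  have bd : Y.sl S x y d ed ≤ u + n5 * C0 := by linarith only [s5.2.1, u2]
  have hg : 0 ≤ 2 * u + K := by linarith only [hu, hK2]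
  have up := sU (2 * u + K) hg (by linarith only [sA.1, ba, bd, hK, hn, kB, ko, ko', kb])
    (by linarith only [sA.2, ba, bd, hK, hn, kB, ko, ko', kb])
  have dn := sD (2 * u + K) hg (by linarith only [sA.1, sB.2, ba, bd, hK, hn, ko, ko', kb]) (by
    rintro z (hz | hz)
    · linarith only [so z hz, ba, bd, hK, hn, kA, kB, ko', kb]
    · linarith only [so' z hz, ba, bd, hK, hn, kA, kB, ko, kb])
  have hA : fv A x y ≤ 2 * L1 * ((C1 + KU) * (2 * u + K + 1)) := by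
    have e1 : fv A x y / L1 = 2 * (fv A x y / (2 * L1)) := by field_simp
    have e2 : fv A x y / (2 * L1) ≤ (C1 + KU) * (2 * u + K + 1) := by
      linarith only [e1, up, dn]
    rw [div_le_iff₀ (by linarith only [hL1])] at e2
    linarith only [e2]
  have hb : fv b x y ≤ fv A x y + l * (u + K) := by
    have e1 : -(u + K) ≤ Y.sl S x y b eb - n * C0 := by
      linarith only [sb.1, ba, hK, hn5, kA, kB, ko, ko']
    have e2 := mul_le_mul_of_nonneg_left e1 hl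
    linarith only [s3.2.1, e2]
  have e0 : 0 ≤ (K - 1) * u := mul_nonneg (by linarith only [hK2]) hu
  have e3 : 2 * u + K + 1 ≤ (K + 1) * (u + 1) := by linarith only [e0]
  have e4 : u + K ≤ K * (u + 1) := by linarith only [e0]
  have e5 := mul_le_mul_of_nonneg_left e3 (by positivity : 0 ≤ 2 * L1 * (C1 + KU))
  have e6 := mul_le_mul_of_nonneg_left e4 hl
  linarith only [hA, hb, e5, e6]

include Y

theorem lim_b5l {F : Q → ℝ} (hF : F ∈ LimF1 fv) (σ : ℝ → Q) (c : ℝ)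
    (hσ : ∀ s s', dv (σ s) (σ s') = |s - s'|) (hc : 0 < c) (h : ∀ s, F (σ s) = c) (R : ℝ) :
    ∃ z : ℝ → Q, ∀ s s', |s| ≤ R → |s'| ≤ R → dv (z s) (σ s) = 0 ∧ dh (z s) (z s') = 0 := by
  rcases lt_or_ge R 0 with hR | hR
  · exact ⟨σ, fun s s' hs _ => absurd (le_trans (abs_nonneg s) hs) (not_le.2 hR)⟩
  obtain ⟨W1, hW1, hkey⟩ := Y.key_b5l (2 * R)
  obtain ⟨R', hR'⟩ : ∃ R' : ℝ, R' = R + W1 + 1 := ⟨_, rfl⟩
  have hpr : dv (σ (-R')) (σ R') = 2 * R' := by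
    rw [hσ, abs_of_nonpos (by linarith)]; ring
  have on : ∀ q s, -R' ≤ s → s ≤ R' → dv (σ (-R')) q ≤ R' + s → dv q (σ R') ≤ R' - s →
      dv q (σ s) = 0 := by
    intro q s s1 s2 d1 d2
    have t := Y.pv.tri (σ (-R')) q (σ R')
    have e1 : dv (σ (-R')) (σ s) = R' + s := by rw [hσ, abs_of_nonpos (by linarith)]; ring
    have e2 : dv (σ s) (σ R') = R' - s := by rw [hσ, abs_of_nonpos (by linarith)]; ring
    exact tree0 Y.pv Y.hv (p := σ (-R')) (r := σ R') (by linarith) (by linarith) (by linarith)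
  obtain ⟨ep, er, n, rt⟩ := Y.route (σ (-R')) (σ R')
  rw [hpr] at rt
  obtain ⟨a, ea, n1, m1, r1, rt1⟩ := Y.toBSys.rt_split rt (s := 1) (by linarith) (by linarith)
  obtain ⟨b, eb, n2, m2, r2, rt2⟩ := Y.toBSys.rt_split rt1 (s := W1) (by linarith) (by linarith)
  obtain ⟨c', ec, n3, m3, r3, rt3⟩ := Y.toBSys.rt_split rt2 (s := 2 * R) (by linarith)
    (by linarith)
  obtain ⟨d, ed, n4, n5, r4, r5⟩ := Y.toBSys.rt_split rt3 (s := W1) (by linarith) (by linarith)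
  have e5 : 2 * R' - 1 - W1 - 2 * R - W1 = 1 := by rw [hR']; ring
  rw [e5] at r5
  have d1 := Y.toBSys.rt_dv r1
  have d1' := Y.toBSys.rt_dv rt1
  have d2 := Y.toBSys.rt_dv (Y.toBSys.rt_append r1 r2)
  have d2' := Y.toBSys.rt_dv rt2
  have d3' := Y.toBSys.rt_dv rt3
  have d4 := Y.toBSys.rt_dv
    (Y.toBSys.rt_append (Y.toBSys.rt_append (Y.toBSys.rt_append r1 r2) r3) r4)
  have d4' := Y.toBSys.rt_dv r5
  rcases Y.toBSys.dich r3 with ⟨z, hz1, hz2⟩ | hinv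
  · refine ⟨fun s => z (s + R), fun s s' hs hs' => ?_⟩
    obtain ⟨s1, s2⟩ := abs_le.1 hs
    obtain ⟨s1', s2'⟩ := abs_le.1 hs'
    refine ⟨?_, hz2 _ _ (by linarith) (by linarith) (by linarith) (by linarith)⟩
    obtain ⟨z1, z2⟩ := hz1 (s + R) (by linarith) (by linarith)
    have t1 := Y.pv.tri (σ (-R')) b (z (s + R))
    have t2 := Y.pv.tri (z (s + R)) c' (σ R')
    exact on _ s (by linarith) (by linarith) (by linarith) (by linarith)
  · exfalso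
    obtain ⟨M, hM, hb⟩ := hkey r1 r2 r4 r5 hinv
    have Fa : F a = c := by
      rw [Y.lim_zero hF (on a (1 - R') (by linarith) (by linarith) (by linarith) (by linarith)), h]
    have Fb : F b = c := by
      rw [Y.lim_zero hF (on b (-R) (by linarith) (by linarith) (by linarith) (by linarith)), h]
    have Fd : F d = c := by
      rw [Y.lim_zero hF (on d (R' - 1) (by linarith) (by linarith) (by linarith) (by linarith)), h]
    have hε : 0 < c / (3 * M + 2) := by positivity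
    obtain ⟨ε, hεd⟩ : ∃ ε : ℝ, ε = c / (3 * M + 2) := ⟨_, rfl⟩
    rw [← hεd] at hε
    have hεc : ε * (3 * M + 2) = c := by rw [hεd]; field_simp
    obtain ⟨x, y, t, ht, htε, hT⟩ := hF {σ (-R'), a, b, d, σ R'} ε hε
    have tp := abs_le.1 (hT (σ (-R')) (by simp))
    have ta := abs_le.1 (hT a (by simp))
    have tb := abs_le.1 (hT b (by simp))
    have td := abs_le.1 (hT d (by simp))
    have tr := abs_le.1 (hT (σ R') (by simp))
    rw [h] at tp tr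
    rw [Fa] at ta
    rw [Fb] at tb
    rw [Fd] at td
    have := hb x y (2 * ε / t) (by positivity)
      (by rw [le_div_iff₀ ht]; linarith [tp.2, ta.1])
      (by rw [le_div_iff₀ ht]; linarith [tr.2, td.1])
    have e1 := mul_le_mul_of_nonneg_left this ht.le
    have e2 : t * (M * (2 * ε / t + 1)) = M * (2 * ε + t) := by field_simp
    have e3 := mul_le_mul_of_nonneg_left htε hM
    linarith [tb.1]

end FSys

end Pool.Agent.E5f
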