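import Pool.Agent.E5f.FsCvx
import Pool.Agent.E5f.FsCore

set_option autoImplicit false

namespace Pool.Agent.E5f

open Classical Filter

theorem small_FsB5u {A M : ℝ} (hA : 0 < A) (h : ∀ ε, 0 < ε → A ≤ ε * M) : False := by
  have h0 : 0 < |M| + 1 := by positivity
  have h1 := h (A / (|M| + 1)) (by positivity)
  rw [div_mul_eq_mul_div, le_div_iff₀ h0] at h1
  have := le_abs_self M
  nlinarith

theorem num1_FsB5u {c w η s ε K t T a b m : ℝ} (hc : 0 < c) (hw : 0 < w) (hs : 0 < s)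
    (hη : η * (2 * w) ≤ c) (ht : 0 < t) (hε : t ≤ ε) (hm : 0 ≤ m) (h1 : s - ε * K ≤ t * a)
    (h2 : t * b ≤ (1 + η) * s + ε * K) (h3 : a ≤ w * (T + 1)) (h4 : c * T - m ≤ b - a) :
    c * s / 2 ≤ ε * (c * K + c * w + 2 * w * K + w * m) := by
  have a1 : t * a ≤ t * (w * (T + 1)) := mul_le_mul_of_nonneg_left h3 ht.le
  have a2 : t * (c * T - m) ≤ t * (b - a) := mul_le_mul_of_nonneg_left h4 ht.le
  have a3 : w * t ≤ w * ε := mul_le_mul_of_nonneg_left hε hw.le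
  have a4 : m * t ≤ m * ε := mul_le_mul_of_nonneg_left hε hm
  have a5 : c * (s - ε * K - w * ε) ≤ c * (w * (t * T)) :=
    mul_le_mul_of_nonneg_left (by linarith) hc.le
  have a6 : w * (c * (t * T)) ≤ w * (η * s + 2 * (ε * K) + m * ε) :=
    mul_le_mul_of_nonneg_left (by linarith) hw.le
  have a7 : η * (2 * w) * s ≤ c * s := mul_le_mul_of_nonneg_right hη hs.le
  linarith

theorem num2_FsB5u {C w η s ε K t T a f b : ℝ} (hC : 0 ≤ C) (hw : 0 < w) (hs : 0 < s)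
    (hb : 0 < b) (hη : η * (4 * w * (C + 1)) ≤ 1) (hη0 : 0 < η) (ht : 0 < t) (hε : t ≤ ε)
    (h1 : s - ε * K ≤ t * a) (h3 : a ≤ w * (T + 1)) (h4 : t * f ≤ b * s + ε)
    (h5 : T ≤ f / (4 * b * w) + C * ((η * s + 2 * (ε * K)) / t + 1)) :
    s / 2 ≤ ε * (K + w + 1 / (4 * b) + w * C * (2 * K + 1)) := by
  have a1 : t * a ≤ t * (w * (T + 1)) := mul_le_mul_of_nonneg_left h3 ht.le
  have a3 : w * t ≤ w * ε := mul_le_mul_of_nonneg_left hε hw.le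
  have a2 := mul_le_mul_of_nonneg_left h5 (mul_pos hw ht).le
  have e : w * t * (f / (4 * b * w) + C * ((η * s + 2 * (ε * K)) / t + 1)) =
      t * f / (4 * b) + w * C * (η * s + 2 * (ε * K) + t) := by
    field_simp
  have a4 : t * f / (4 * b) ≤ (b * s + ε) / (4 * b) := by gcongr
  have e2 : (b * s + ε) / (4 * b) = s / 4 + ε * (1 / (4 * b)) := by field_simp
  have a5 : w * C * t ≤ w * C * ε := mul_le_mul_of_nonneg_left hε (by positivity)
  have a6 : η * (4 * w * (C + 1)) * s ≤ 1 * s := mul_le_mul_of_nonneg_right hη hs.le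
  have a7 : 0 < η * w * s := by positivity
  rw [e] at a2
  linarith

namespace FSys
variable {O : Type} [AddCommGroup O] {E : Lat O} {Q P : Type} {dv dh : Q → Q → ℝ}
  {Cu : Q → Prop} {fv fh : Q → P → P → ℝ} (Y : FSys E dv dh Cu fv fh)

include Y

theorem apx_FsB5u {F : Q → ℝ} (hF : F ∈ LimF1 fv) {lo hi : ℝ} {p1 z z' p2 : Q}
    {e1 e e' e2 : Bool} {n1 n2 : ℕ} (r1 : Y.toStp.Rt lo hi p1 e1 z e (1 / 2) n1)
    (r2 : Y.toStp.Rt lo hi z' e' p2 e2 (1 / 2) n2) : ∃ K : ℝ, 0 ≤ K ∧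
    ∀ (R : P → P → Finset (Fin 3 × O) → Prop), (∀ x y, ∀ᶠ S in atTop, R x y S) →
      ∀ ε, 0 < ε → ∃ x y S t, 0 < t ∧ t ≤ ε ∧ R x y S ∧
        2 * (F z - F p1) - ε * K ≤ t * Y.sl S x y z e ∧
        t * Y.sl S x y z' e' ≤ 2 * (F p2 - F z') + ε * K ∧
        Y.sl S x y z e ≤ E.w 2 * (Y.tu S x y z + 1) ∧ t * fv z x y ≤ F z + ε := by
  obtain ⟨c, C, -, hC, h⟩ := Y.route_ev
  have m1 : 0 ≤ (n1 : ℝ) * C := by positivity
  have m2 : 0 ≤ (n2 : ℝ) * C := by positivity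
  refine ⟨4 + n1 * C + n2 * C, by positivity, fun R hR ε hε => ?_⟩
  obtain ⟨x, y, t, t0, t1, ht⟩ := hF {p1, z, z', p2} ε hε
  obtain ⟨S, a1, a2, a3, a4⟩ := ((hR x y).and ((h _ _ _ _ _ _ _ _ r1 x y).and
    ((h _ _ _ _ _ _ _ _ r2 x y).and (Y.sl_le z e x y)))).exists
  have b1 := abs_le.1 (ht p1 (by simp))
  have b2 := abs_le.1 (ht z (by simp))
  have b3 := abs_le.1 (ht z' (by simp))
  have b4 := abs_le.1 (ht p2 (by simp))
  have c1 := mul_le_mul_of_nonneg_left a2.2.2.1 t0.le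
  have c2 := mul_le_mul_of_nonneg_left a3.2.1 t0.le
  have c3 := mul_le_mul_of_nonneg_left t1 m1
  have c4 := mul_le_mul_of_nonneg_left t1 m2
  have c5 := mul_nonneg m1 hε.le
  have c6 := mul_nonneg m2 hε.le
  exact ⟨x, y, S, t, t0, t1, a1, by linarith [b1.1, b2.1, b1.2, b2.2],
    by linarith [b3.1, b4.1, b3.2, b4.2], (le_abs_self _).trans a4, by linarith [b2.2]⟩

theorem lim_b5u (B : ℝ) : ∃ R : ℝ, ∀ N : ℝ, ∃ L η : ℝ, N ≤ L ∧ 0 < η ∧ ∀ F ∈ LimF1 fv,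
    ∀ (p0 p1 p2 p3 : Q) (s : ℝ), dv p0 p1 = 1 → dv p1 p2 = L → dv p2 p3 = 1 →
      dv p0 p2 = L + 1 → dv p1 p3 = L + 1 → dv p0 p3 = L + 2 → dh p1 p2 ≤ B → 0 < s →
      s ≤ F p1 - F p0 → F p3 - F p2 ≤ (1 + η) * s → F p1 ≤ B * s →
      ∃ c, Cu c ∧ dv c p1 ≤ R ∧ ∃ z : ℝ → Q, ∀ τ, 1 ≤ τ → τ ≤ N →
        dh (z τ) c = 0 ∧ dv p1 (z τ) = τ ∧ dv (z τ) p2 = L - τ := by
  have hw : 0 < E.w 2 := E.w1.trans E.w2
  have hP := Y.pv
  obtain ⟨B', hB, hB1⟩ : ∃ B', B ≤ B' ∧ 1 ≤ B' := ⟨max B 1, le_max_left _ _, le_max_right _ _⟩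
  obtain ⟨c, C, hc, hC, hrt⟩ := Y.route_ev
  obtain ⟨C1, hC1, h1⟩ := Y.core1
  obtain ⟨R', h2⟩ := h1 (4 * (B' + 1) * E.w 2) (by positivity)
  refine ⟨R' + 1 / 2, fun N => ?_⟩
  obtain ⟨L0, h3⟩ := h2 B' N
  obtain ⟨L, l1, l2, l3⟩ : ∃ L, L0 + 2 ≤ L ∧ N + 2 ≤ L ∧ 2 ≤ L :=
    ⟨max (max L0 N) 0 + 2, by
      have := le_max_left (max L0 N) 0
      have := le_max_right (max L0 N) 0
      have := le_max_left L0 N
      have := le_max_right L0 N
      exact ⟨by linarith, by linarith, by linarith⟩⟩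
  obtain ⟨η, e0, e1, e2, e3⟩ : ∃ η : ℝ, 0 < η ∧ η ≤ 1 ∧ η * (2 * E.w 2) ≤ c ∧
      η * (4 * E.w 2 * (C1 + 1)) ≤ 1 :=
    ⟨min 1 (min (c / (2 * E.w 2)) (1 / (4 * E.w 2 * (C1 + 1)))), by positivity, min_le_left _ _,
      (le_div_iff₀ (by positivity)).1 ((min_le_right _ _).trans (min_le_left _ _)),
      (le_div_iff₀ (by positivity)).1 ((min_le_right _ _).trans (min_le_right _ _))⟩
  refine ⟨L, η, by linarith, e0, ?_⟩
  intro F hF p0 p1 p2 p3 s d01 d12 d23 d02 d13 d03 hh hs s1 s2 s3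
  obtain ⟨ε1, ε2, n, r⟩ := Y.route p1 p2
  rw [d12] at r
  replace r := Y.rt_mono r (lo' := Y.toStp.py p1 - B') (hi' := Y.toStp.py p1 + B')
    (by linarith) (by linarith)
  obtain ⟨z, e, n1, n2, r1, r'⟩ := Y.rt_split r (s := 1 / 2) (by norm_num) (by linarith)
  obtain ⟨z', e', n3, n4, r2, r3⟩ := Y.rt_split r' (s := L - 1) (by linarith) (by linarith)
  rw [show L - 1 / 2 - (L - 1) = 1 / 2 by ring] at r3
  have a1 := Y.rt_dv r1
  have a2 := Y.rt_dv r2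
  have a3 := Y.rt_dv r3
  have t1 := hP.tri p1 z p2
  have t2 := hP.tri z z' p2
  have t3 := hP.tri p1 z z'
  have t4 := hP.tri p1 z' p2
  have t5 := hP.tri p0 z p2
  have t6 := hP.tri p0 p1 z
  have t7 := hP.tri p1 z' p3
  have t8 := hP.tri z' p2 p3
  have d1 : dv p1 z = 1 / 2 := by linarith
  have d2 : dv z p2 = L - 1 / 2 := by linarith
  have d3 : dv z' p2 = 1 / 2 := by linarith
  have d4 : dv p0 z = 3 / 2 := by linarith
  have d5 : dv z' p3 = 3 / 2 := by linarith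
  have c1 := Y.lim_cvx hF (p := p0) (q := p1) (r := z) (by linarith)
  have c2 := Y.lim_cvx hF (p := z') (q := p2) (r := p3) (by linarith)
  have c3 := Y.lim_cvx hF (p := p1) (q := z) (r := p2) (by linarith)
  have c4 := Y.lim_cvx hF (p := p1) (q := p2) (r := p3) (by linarith)
  rw [d4, d1, d01] at c1
  rw [d5, d23, d3] at c2
  rw [d12, d2, d1] at c3
  rw [d13, d23, d12] at c4
  have f1 : F z ≤ (B' + 1) * s := by
    have g1 : η * s ≤ 1 * s := mul_le_mul_of_nonneg_right e1 hs.le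
    have g2 : L * (F p3 - F p2) ≤ L * (2 * s) :=
      mul_le_mul_of_nonneg_left (by linarith) (by linarith)
    have g3 : F z - F p1 ≤ s := le_of_mul_le_mul_left (a := L) (by linarith) (by linarith)
    have g4 : B * s ≤ B' * s := mul_le_mul_of_nonneg_right hB hs.le
    linarith
  obtain ⟨K, hK, hA⟩ := Y.apx_FsB5u hF r1 r3
  rcases Nat.eq_zero_or_pos n3 with rfl | hn
  swap
  · refine (small_FsB5u (A := c * s / 2)
      (M := c * K + c * E.w 2 + 2 * E.w 2 * K + E.w 2 * (n3 * C)) (by positivity)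
      fun ε hε => ?_).elim
    obtain ⟨x, y, S, t, b1, b2, b3, b4, b5, b6, -⟩ := hA _ (hrt _ _ _ _ _ _ _ _ r2) ε hε
    exact num1_FsB5u (K := K) hc hw hs e2 b1 b2 (by positivity) (by linarith)
      (b := Y.sl S x y z' e') (by linarith) b6 (b3.2.2.2 hn)
  obtain ⟨rfl, hl, σ, hσ⟩ := Y.rt_zero r2
  rcases h3 _ _ _ _ _ hσ (by linarith) with ⟨a0, h4, h5⟩ | h4
  · obtain ⟨q, q1, q2, y, q3⟩ := Y.prong hσ h4 h5 (by linarith)
    have u1 := hP.tri q z p1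
    rw [hP.symm z p1] at u1
    refine ⟨q, q1, by linarith, fun τ => y (τ - 1 / 2), fun τ k1 k2 => ?_⟩
    obtain ⟨v1, v2, v3⟩ := q3 (τ - 1 / 2) (by linarith) (by linarith)
    have v4 := hP.tri p1 z (y (τ - 1 / 2))
    have v5 := hP.tri (y (τ - 1 / 2)) z' p2
    have v6 := hP.tri p1 (y (τ - 1 / 2)) p2
    exact ⟨v1, by linarith, by linarith⟩
  · refine (small_FsB5u (A := s / 2)
      (M := K + E.w 2 + 1 / (4 * (B' + 1)) + E.w 2 * C1 * (2 * K + 1)) (by positivity)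
      fun ε hε => ?_).elim
    obtain ⟨x, y, S, t, b1, b2, b3, b4, b5, b6, b7⟩ := hA _ h4 ε hε
    refine num2_FsB5u (K := K) (b := B' + 1) (f := fv z x y) hC1 hw hs (by linarith) e3 e0 b1 b2
      (by linarith) b6 (by linarith) (b3 _ (by positivity) ?_)
    rw [le_div_iff₀ b1]
    linarith

end FSys

end Pool.Agent.E5f
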