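import Pool.Agent.E5f.FsBase

set_option autoImplicit false

namespace Pool.Agent.E5f

open Classical Filter

theorem pm0_FsDich {Q : Type} {d : Q → Q → ℝ} (h : PM d) (x y : Q) : 0 ≤ d x y := by
  have h1 := h.tri x y x
  rw [h.self, h.symm y x] at h1
  linarith

theorem dir_refl_FsDich (ε : Bool) (u : Mx) : Dir ε u u := by
  unfold Dir
  split_ifs <;> exact le_rfl

theorem le_of_lt_FsDich {u u' : Mx} (h : (ofLex u).1 < (ofLex u').1) : u ≤ u' :=
  Prod.Lex.le_iff.2 (Or.inl h)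

theorem fst_le_FsDich {u u' : Mx} (h : u ≤ u') : (ofLex u).1 ≤ (ofLex u').1 :=
  Prod.Lex.monotone_fst _ _ h

theorem tf_FsDich (x : ℝ) : ¬ (toLex (x, true) : Mx) ≤ toLex (x, false) := by
  simp [Prod.Lex.toLex_le_toLex]

/-- The sign of a direction. -/
noncomputable def sgn_FsDich (ε : Bool) : ℝ := if ε = true then 1 else -1

theorem dir_eq_FsDich {ε : Bool} {u u' : Mx} (h : Dir ε u u') :
    (ofLex u').1 = (ofLex u).1 + sgn_FsDich ε * |(ofLex u').1 - (ofLex u).1| := by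
  cases ε
  · have := fst_le_FsDich (show u' ≤ u from h)
    rw [abs_of_nonpos (by linarith)]
    simp [sgn_FsDich]
  · have := fst_le_FsDich (show u ≤ u' from h)
    rw [abs_of_nonneg (by linarith)]
    simp [sgn_FsDich]

theorem abs_sgn_FsDich (ε : Bool) {s : ℝ} (h : 0 ≤ s) : |sgn_FsDich ε * s| = s := by
  cases ε <;> simp [sgn_FsDich, abs_of_nonneg h]

theorem dir_of_FsDich {ε : Bool} {u u' : Mx} {s : ℝ} (h : 0 < s)
    (e : (ofLex u').1 = (ofLex u).1 + sgn_FsDich ε * s) : Dir ε u u' := by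
  cases ε
  · refine le_of_lt_FsDich (u := u') (u' := u) ?_
    simp [sgn_FsDich] at e
    linarith
  · refine le_of_lt_FsDich (u := u) (u' := u') ?_
    simp [sgn_FsDich] at e
    linarith

namespace Lat
variable {O : Type} [AddCommGroup O] (E : Lat O)

theorem not_cr_FsDich (u : Mx) (a : O) : ¬ E.Cr u u a := by
  rintro (h | h) <;> exact tf_FsDich _ (h.2.trans h.1)

theorem cr_mono_FsDich {ε : Bool} {u u1 u2 u' : Mx} {a : O} (h1 : Dir ε u u1) (h1' : Dir ε u1 u')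
    (h2 : Dir ε u u2) (h2' : Dir ε u2 u') (h : E.Cr u1 u2 a) : E.Cr u u' a := by
  cases ε
  · rcases h with h | h
    · exact Or.inr ⟨le_trans h1' h.1, le_trans h.2 h2⟩
    · exact Or.inr ⟨le_trans h2' h.1, le_trans h.2 h1⟩
  · rcases h with h | h
    · exact Or.inl ⟨le_trans h1 h.1, le_trans h.2 h2'⟩
    · exact Or.inl ⟨le_trans h2 h.1, le_trans h.2 h1'⟩

theorem cr_btw_FsDich {u u' : Mx} {a : O} (h : E.Cr u u' a) :
    ((ofLex u).1 ≤ E.ξ a ∧ E.ξ a ≤ (ofLex u').1) ∨ ((ofLex u').1 ≤ E.ξ a ∧ E.ξ a ≤ (ofLex u).1) := by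
  rcases h with h | h
  · exact Or.inl ⟨(fst_le_FsDich h.1 :), (fst_le_FsDich h.2 :)⟩
  · exact Or.inr ⟨(fst_le_FsDich h.1 :), (fst_le_FsDich h.2 :)⟩

theorem not_cr_end_FsDich {ε : Bool} {u : Mx} {a : O} (h : Dir ε u (toLex (E.ξ a, !ε))) :
    ¬ E.Cr u (toLex (E.ξ a, !ε)) a := by
  cases ε
  · rintro (h1 | h1)
    · exact tf_FsDich _ (le_trans h h1.1)
    · exact tf_FsDich _ h1.1
  · rintro (h1 | h1)
    · exact tf_FsDich _ h1.2
    · exact tf_FsDich _ (le_trans h1.2 h)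

theorem not_cr_start_FsDich {ε : Bool} {u : Mx} {a : O} (h : Dir ε (toLex (E.ξ a, ε)) u) :
    ¬ E.Cr (toLex (E.ξ a, ε)) u a := by
  cases ε
  · rintro (h1 | h1)
    · exact tf_FsDich _ (le_trans h1.2 h)
    · exact tf_FsDich _ h1.2
  · rintro (h1 | h1)
    · exact tf_FsDich _ h1.1
    · exact tf_FsDich _ (le_trans h h1.1)

theorem lev_iff_FsDich (a : O) (y : ℝ) (s : Bool) :
    E.lev (toLex (y, s)) a = true ↔ E.η a < y ∨ (E.η a = y ∧ s = true) := by
  cases s <;> simp [lev, Prod.Lex.toLex_le_toLex]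

theorem exists_lev_FsDich (C : O → Prop) (σ : O → Bool) (lo hi : ℝ)
    (h : ∀ a, C a → (E.η a < lo → σ a = true) ∧ (hi < E.η a → σ a = false))
    (hm : ∀ a a', C a → C a' → σ a = true → σ a' = false → ¬ E.η a' < E.η a) :
    ∃ v : Mx, ∀ a, C a → E.lev v a = σ a := by
  have key : ∀ v : Mx, (∀ a, C a → σ a = true → E.lev v a = true) →
      (∀ a, C a → σ a = false → ¬ E.lev v a = true) → ∀ a, C a → E.lev v a = σ a := by
    intro v h1 h2 a ha
    cases hs : σ a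
    · simpa using h2 a ha hs
    · exact h1 a ha hs
  by_cases hne : ∃ a, C a ∧ σ a = true
  · let T : Set ℝ := E.η '' {a | C a ∧ σ a = true}
    have hb : BddAbove T := by
      refine ⟨hi, ?_⟩
      rintro _ ⟨a, ha, rfl⟩
      by_contra hc
      have := (h a ha.1).2 (not_le.1 hc)
      simp [ha.2] at this
    have h1 : ∀ a, C a → σ a = true → E.η a ≤ sSup T := fun a ha hs => le_csSup hb ⟨a, ⟨ha, hs⟩, rfl⟩
    have h2 : ∀ a, C a → σ a = false → sSup T ≤ E.η a := fun a ha hs => by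
      refine csSup_le (Set.Nonempty.image _ hne) ?_
      rintro _ ⟨b, hb, rfl⟩
      exact not_lt.1 (hm b a hb.1 ha hb.2 hs)
    by_cases he : ∃ a, C a ∧ σ a = false ∧ E.η a = sSup T
    · obtain ⟨b, hb, hs, he⟩ := he
      refine ⟨toLex (sSup T, false), key _ (fun a ha hs' => ?_) fun a ha hs' => ?_⟩
      · rw [lev_iff_FsDich]
        refine Or.inl (lt_of_le_of_ne (h1 a ha hs') fun e => ?_)
        rw [E.η_inj (e.trans he.symm), hs] at hs'
        simp at hs'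
      · rw [lev_iff_FsDich]
        simpa using h2 a ha hs'
    · refine ⟨toLex (sSup T, true), key _ (fun a ha hs' => ?_) fun a ha hs' => ?_⟩
      · rw [lev_iff_FsDich]
        simpa using (h1 a ha hs').lt_or_eq
      · rw [lev_iff_FsDich]
        rintro (h3 | h3)
        · exact h3.not_ge (h2 a ha hs')
        · exact he ⟨a, ha, hs', h3.1⟩
  · refine ⟨toLex (lo, false), key _ (fun a ha hs => absurd ⟨a, ha, hs⟩ hne) fun a ha hs => ?_⟩
    rw [lev_iff_FsDich]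
    rintro (h3 | h3)
    · exact hne ⟨a, ha, (h a ha).1 h3⟩
    · simp at h3

include E in
theorem countable_FsDich : Countable O := by
  rw [← Set.countable_univ_iff]
  refine (Set.countable_iUnion fun n : ℕ => (E.disc n).countable).mono fun a _ => ?_
  obtain ⟨n, hn⟩ := exists_nat_ge (max |E.ξ a| |E.η a|)
  exact Set.mem_iUnion.2 ⟨n, (le_max_left _ _).trans hn, (le_max_right _ _).trans hn⟩

end Lat

namespace BSys
variable {O : Type} [AddCommGroup O] {E : Lat O} {Q : Type} {dv dh : Q → Q → ℝ} {Cu : Q → Prop}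
  (X : BSys E dv dh Cu) {lo hi : ℝ}

theorem st_tr_FsDich {p y y' : Q} {σ : O → Bool} (h : X.St p y σ) (h' : X.St p y' σ) :
    X.St y y' σ := by
  have key : ∀ (ε : Bool) (y y' : Q), X.St p y σ → X.St p y' σ → Dir ε (X.ux p) (X.ux y) →
      Dir ε (X.ux y) (X.ux y') → X.St y y' σ := by
    intro ε y y' h h' d1 d2
    obtain ⟨q, e, h1, h2⟩ := X.split ε p y' σ _ h' d1 d2
    exact X.trans ε _ _ _ _ (X.det _ _ _ _ h h1 e.symm) h2 (e ▸ dir_refl_FsDich _ _) (e ▸ d2)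
  wlog hle : X.ux y ≤ X.ux y' generalizing y y'
  · exact X.symm _ _ _ (this h' h (le_of_not_ge hle))
  rcases le_total (X.ux p) (X.ux y) with h1 | h1
  · exact key true y y' h h' h1 hle
  rcases le_total (X.ux p) (X.ux y') with h2 | h2
  · exact X.trans true _ _ _ _ (X.symm _ _ _ h) h' h1 h2
  · exact X.symm _ _ _ (key false y' y h' h h2 hle)

theorem st_tr'_FsDich {p y y' : Q} {σ : O → Bool} (h : X.St p y σ) (h' : X.St y y' σ) :
    X.St p y' σ := X.st_tr_FsDich (X.symm _ _ _ h) h'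

theorem st_self_FsDich (q : Q) (σ : O → Bool) : X.St q q σ := by
  obtain ⟨r, -, -, h⟩ := X.vert q (X.uy q) σ
  exact X.st_tr'_FsDich h (X.symm _ _ _ h)

theorem dst_self_FsDich (ε : Bool) (q : Q) (σ : O → Bool) : X.toStp.DSt lo hi ε q q σ :=
  ⟨X.st_self_FsDich q σ, dir_refl_FsDich _ _, fun a ha => absurd ha (E.not_cr_FsDich _ a)⟩

theorem rt_self_FsDich (ε : Bool) (q : Q) : ∃ l n, X.toStp.Rt lo hi q ε q ε l n :=
  ⟨_, _, .one q q ε (fun _ => true) (X.dst_self_FsDich ε q _)⟩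

theorem pt_FsDich (p : Q) (u v : Mx) : ∃ y, X.ux y = u ∧ X.uy y = v ∧ X.St p y (E.lev v) := by
  obtain ⟨p', -, h2, h3⟩ := X.vert p v (E.lev v)
  obtain ⟨y, h4, h5, h6⟩ := X.hor p' u
  rw [h2] at h5 h6
  exact ⟨y, h4, h5, X.st_tr'_FsDich h3 h6⟩

theorem dh_FsDich {p y y' : Q} {v : Mx} (h : X.St p y (E.lev v)) (h' : X.St p y' (E.lev v))
    (e : X.uy y = v) (e' : X.uy y' = v) : dh y y' = 0 :=
  X.st_hor y y' (e ▸ X.st_tr_FsDich h h') (e.trans e'.symm)

theorem seg_FsDich {p r : Q} {v : Mx} {ε : Bool} (h : X.St p r (E.lev v))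
    (hd : Dir ε (X.ux p) (X.ux r)) (s : ℝ) : ∃ y, X.St p y (E.lev v) ∧ X.uy y = v ∧
      (0 ≤ s → s ≤ |X.toStp.px r - X.toStp.px p| →
        dv p y = s ∧ dv y r = |X.toStp.px r - X.toStp.px p| - s) := by
  obtain ⟨y, h1, h2, h3⟩ := X.pt_FsDich p (toLex (X.toStp.px p + sgn_FsDich ε * s, false)) v
  have e : X.toStp.px y = X.toStp.px p + sgn_FsDich ε * s := by
    rw [Stp.px, h1]
    rfl
  refine ⟨y, h3, h2, fun h0 hl => ⟨?_, ?_⟩⟩
  · rw [X.st_dv _ _ _ h3, e, add_sub_cancel_left, abs_sgn_FsDich ε h0]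
  · have h4 : X.toStp.px r = X.toStp.px p + sgn_FsDich ε * |X.toStp.px r - X.toStp.px p| :=
      dir_eq_FsDich hd
    rw [X.st_dv _ _ _ (X.st_tr_FsDich h3 h), e,
      ← abs_sgn_FsDich ε (sub_nonneg.2 hl)]
    congr 1
    linarith

/-- All points at height `t` over the horizontal lines through `q` are horizontally close to `c`. -/
def Hz_FsDich (t : ℝ) (q c : Q) : Prop :=
  ∀ s y, X.St q y (E.lev (toLex (t, s))) → X.uy y = toLex (t, s) → dh y c = 0

theorem hz_ex_FsDich (t : ℝ) (q : Q) : ∃ c, X.Hz_FsDich t q c := by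
  obtain ⟨c, h1, h2, h3⟩ := X.vert q (toLex (t, false)) (fun _ => true)
  refine ⟨c, fun s y hy e => ?_⟩
  obtain ⟨c', h4, h5, h6⟩ := X.vert q (toLex (t, s)) (E.lev (toLex (t, s)))
  have h7 := X.dh_FsDich hy h6 e h5
  have h8 : X.St q c' (fun _ => true) :=
    X.congr _ _ _ _ h6 fun a ha => absurd (h4 ▸ ha) (E.not_cr_FsDich _ a)
  have h9 := X.st_vert _ _ _ (X.st_tr_FsDich h8 h3) (h4.trans h1.symm)
  rw [Stp.py, Stp.py, h2, h5] at h9
  have := X.ph.tri y c' c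
  have := pm0_FsDich X.ph y c
  simp at h9
  linarith

theorem hz_st_FsDich {t : ℝ} {q q1 c : Q} {s : Bool} (h : X.Hz_FsDich t q c)
    (h1 : X.St q q1 (E.lev (toLex (t, s)))) : X.Hz_FsDich t q1 c := by
  obtain ⟨c1, h2⟩ := X.hz_ex_FsDich t q1
  obtain ⟨y0, -, h4, h5⟩ := X.vert q1 (toLex (t, s)) (E.lev (toLex (t, s)))
  intro s' y hy e
  have e1 := h s y0 (X.st_tr'_FsDich h1 h5) h4
  have e2 := h2 s y0 h5 h4
  have e3 := h2 s' y hy e
  have := X.ph.tri y c1 c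
  have := X.ph.tri c1 y0 c
  have := X.ph.symm c1 y0
  have := pm0_FsDich X.ph y c
  linarith

theorem hz_mic_FsDich {a : O} {c : Q} (n : ℕ) : ∀ (σ : Bool) (q q' : Q), X.toStp.Mic a n σ q q' →
    X.Hz_FsDich (E.η a) q c → X.Hz_FsDich (E.η a) q' c := by
  induction n with
  | zero =>
    intro σ q q' h hc
    rw [show q' = q from h]
    exact hc
  | succ n ih =>
    rintro σ q q' ⟨q1, h1, h2, h3, h4⟩ hc
    refine ih _ q1 q' h4 (X.hz_st_FsDich (s := σ) hc (X.congr _ _ _ _ h3 fun b hb => ?_))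
    have h5 := E.cr_btw_FsDich hb
    rw [h2] at h5
    have h6 : E.ξ b = E.ξ a := by
      change (X.toStp.px q ≤ _ ∧ _ ≤ E.ξ a) ∨ (E.ξ a ≤ _ ∧ _ ≤ X.toStp.px q) at h5
      rw [h1] at h5
      rcases h5 with h5 | h5 <;> exact le_antisymm h5.2 h5.1
    rw [E.ξ_inj h6]
    cases σ
    · simpa using (E.lev_iff_FsDich a (E.η a) false).not.2 (by simp)
    · exact (E.lev_iff_FsDich a (E.η a) true).2 (by simp)

theorem ux_FsDich (q : Q) : X.ux q = toLex (X.toStp.px q, X.toStp.sx q) := rfl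

theorem st_lev_FsDich {p r : Q} {σ : O → Bool} {a0 : O} (h : X.St p r σ)
    (h0 : ¬ E.Cr (X.ux p) (X.ux r) a0)
    (h1 : ¬ ∃ a, E.Cr (X.ux p) (X.ux r) a ∧ σ a = true ∧ E.η a0 < E.η a)
    (h2 : ¬ ∃ a, E.Cr (X.ux p) (X.ux r) a ∧ σ a = false ∧ E.η a < E.η a0) :
    X.St p r (E.lev (toLex (E.η a0, false))) := by
  refine X.congr _ _ _ _ h fun a ha => ?_
  cases hs : σ a
  · simpa using (E.lev_iff_FsDich a (E.η a0) false).not.2
      (by simpa using not_lt.1 fun h3 => h2 ⟨a, ha, hs, h3⟩)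
  · refine (E.lev_iff_FsDich a (E.η a0) false).2 (Or.inl (lt_of_le_of_ne
      (not_lt.1 fun h3 => h1 ⟨a, ha, hs, h3⟩) fun e => h0 ?_))
    rwa [E.η_inj e] at ha

/-- A route is horizontal or has an inverted pair in a closed window. -/
theorem dich {p r : Q} {ε ε' : Bool} {l : ℝ} {n : ℕ} (h : X.toStp.Rt lo hi p ε r ε' l n) :
    (∃ z : ℝ → Q, (∀ s, 0 ≤ s → s ≤ l → dv p (z s) ≤ s ∧ dv (z s) r ≤ l - s) ∧
      ∀ s s', 0 ≤ s → s ≤ l → 0 ≤ s' → s' ≤ l → dh (z s) (z s') = 0) ∨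
    ∃ (A B : Q) (e : Bool) (σ : O → Bool) (a a' : O) (o o' : Option (Q × Q)),
      X.toStp.DSt lo hi e A B σ ∧ |X.toStp.px B - X.toStp.px A| ≤ l ∧ E.η a' < E.η a ∧
      X.toStp.WS A B e σ true a o ∧ X.toStp.WS A B e σ false a' o' ∧
      X.toStp.OnR lo hi p ε r ε' A e ∧ X.toStp.OnR lo hi p ε r ε' B e ∧
      ∀ z, (o = some z ∨ o' = some z) → X.toStp.OnR lo hi p ε r ε' z.1 (!X.toStp.sx z.1) ∧
        X.toStp.OnR lo hi p ε r ε' z.2 (X.toStp.sx z.2) := by
  have hfull := h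
  cases h with
  | one _ _ _ σ hd =>
    by_cases hinv : ∃ a a', E.Cr (X.ux p) (X.ux r) a ∧ E.Cr (X.ux p) (X.ux r) a' ∧ σ a = true ∧
        σ a' = false ∧ E.η a' < E.η a
    · obtain ⟨a, a', h1, h2, h3, h4, h5⟩ := hinv
      exact Or.inr ⟨p, r, ε, σ, a, a', none, none, hd, le_rfl, h5, ⟨h1, h3⟩, ⟨h2, h4⟩,
        ⟨X.rt_self_FsDich _ _, _, _, hfull⟩, ⟨⟨_, _, hfull⟩, X.rt_self_FsDich _ _⟩, by simp⟩
    · obtain ⟨v, hv⟩ := E.exists_lev_FsDich _ σ lo hi hd.thr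
        fun a a' h1 h2 h3 h4 h5 => hinv ⟨a, a', h1, h2, h3, h4, h5⟩
      choose z h1 h2 h3 using X.seg_FsDich (X.congr _ _ _ _ hd.st hv) hd.dir
      exact Or.inl ⟨z, fun s h0 hl => ⟨(h3 s h0 hl).1.le, (h3 s h0 hl).2.le⟩,
        fun s s' _ _ _ _ => X.dh_FsDich (h1 s) (h1 s') (h2 s) (h2 s')⟩
  | cons _ b b' _ _ _ σ a0 l' n' hd hs ht hr =>
    have hl' := X.rt_nonneg hr
    obtain ⟨pb, pb', dbb⟩ := X.tch_px ht
    have op : X.toStp.OnR lo hi p ε r ε' p ε := ⟨X.rt_self_FsDich _ _, _, _, hfull⟩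
    have ob : X.toStp.OnR lo hi p ε r ε' b ε := ⟨⟨_, _, .one _ _ _ σ hd⟩, _, _,
      .cons b b b' r ε ε' σ a0 _ _ (X.dst_self_FsDich _ _ _) hs ht hr⟩
    have pre : ∀ {z : Q} {e : Bool}, (∃ l n, X.toStp.Rt lo hi b' (X.toStp.sx b') z e l n) →
        ∃ l n, X.toStp.Rt lo hi p ε z e l n := fun ⟨_, _, h⟩ =>
      ⟨_, _, .cons p b b' _ ε _ σ a0 _ _ hd hs ht h⟩
    have ob' : X.toStp.OnR lo hi p ε r ε' b' (X.toStp.sx b') :=
      ⟨pre (X.rt_self_FsDich _ _), _, _, hr⟩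
    have obb : X.toStp.OnR lo hi p ε r ε' b (!X.toStp.sx b) ∧
        X.toStp.OnR lo hi p ε r ε' b' (X.toStp.sx b') := ⟨by simpa [hs] using ob, ob'⟩
    have habs := abs_nonneg (X.toStp.px b - X.toStp.px p)
    cases n' with
    | zero =>
      obtain ⟨rfl, rfl, σ', hd'⟩ := X.rt_zero hr
      have or' : X.toStp.OnR lo hi p ε r (X.toStp.sx b') r (X.toStp.sx b') :=
        ⟨⟨_, _, hfull⟩, X.rt_self_FsDich _ _⟩
      by_cases i1 : ∃ a, E.Cr (X.ux p) (X.ux b) a ∧ σ a = true ∧ E.η a0 < E.η a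
      · obtain ⟨a, h1, h2, h3⟩ := i1
        exact Or.inr ⟨p, b, ε, σ, a, a0, none, some (b, b'), hd, by linarith, h3, ⟨h1, h2⟩,
          ⟨ht, Or.inr ⟨rfl, hs⟩⟩, op, ob, by simpa using obb⟩
      by_cases i2 : ∃ a, E.Cr (X.ux p) (X.ux b) a ∧ σ a = false ∧ E.η a < E.η a0
      · obtain ⟨a, h1, h2, h3⟩ := i2
        exact Or.inr ⟨p, b, ε, σ, a0, a, some (b, b'), none, hd, by linarith, h3,
          ⟨ht, Or.inr ⟨rfl, hs⟩⟩, ⟨h1, h2⟩, op, ob, by simpa using obb⟩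
      by_cases i3 : ∃ a, E.Cr (X.ux b') (X.ux r) a ∧ σ' a = true ∧ E.η a0 < E.η a
      · obtain ⟨a, h1, h2, h3⟩ := i3
        exact Or.inr ⟨b', r, _, σ', a, a0, none, some (b, b'), hd', by linarith, h3, ⟨h1, h2⟩,
          ⟨ht, Or.inl ⟨rfl, rfl⟩⟩, ob', or', by simpa using obb⟩
      by_cases i4 : ∃ a, E.Cr (X.ux b') (X.ux r) a ∧ σ' a = false ∧ E.η a < E.η a0
      · obtain ⟨a, h1, h2, h3⟩ := i4
        exact Or.inr ⟨b', r, _, σ', a0, a, some (b, b'), none, hd', by linarith, h3,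
          ⟨ht, Or.inl ⟨rfl, rfl⟩⟩, ⟨h1, h2⟩, ob', or', by simpa using obb⟩
      have ub : X.ux b = toLex (E.ξ a0, !ε) := by rw [ux_FsDich, pb, hs]
      have ub' : X.ux b' = toLex (E.ξ a0, X.toStp.sx b') := by rw [ux_FsDich, pb']
      have s1 := X.st_lev_FsDich hd.st
        (by rw [ub]; exact E.not_cr_end_FsDich (ub ▸ hd.dir)) i1 i2
      have s2 := X.st_lev_FsDich hd'.st
        (by rw [ub']; exact E.not_cr_start_FsDich (ub' ▸ hd'.dir)) i3 i4
      obtain ⟨c, hc⟩ := X.hz_ex_FsDich (E.η a0) p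
      obtain ⟨m, s0, -, hm⟩ := ht
      have hc' := X.hz_mic_FsDich m s0 b b' hm (X.hz_st_FsDich hc s1)
      choose z h1 h2 h3 using X.seg_FsDich s1 hd.dir
      choose z' h1' h2' h3' using X.seg_FsDich s2 hd'.dir
      have d1 := X.st_dv _ _ _ hd.st
      have d2 := X.st_dv _ _ _ hd'.st
      have hz : ∀ s, dh (if s ≤ |X.toStp.px b - X.toStp.px p| then z s
          else z' (s - |X.toStp.px b - X.toStp.px p|)) c = 0 := fun s => by
        split_ifs
        · exact hc _ _ (h1 s) (h2 s)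
        · exact hc' _ _ (h1' _) (h2' _)
      refine Or.inl ⟨fun s => if s ≤ |X.toStp.px b - X.toStp.px p| then z s
        else z' (s - |X.toStp.px b - X.toStp.px p|), fun s h0 hl => ?_, fun s s' _ _ _ _ => ?_⟩
      · beta_reduce
        split_ifs with h4
        · obtain ⟨e1, e2⟩ := h3 s h0 h4
          have := X.pv.tri (z s) b r
          have := X.pv.tri b b' r
          exact ⟨e1.le, by linarith⟩
        · obtain ⟨e1, e2⟩ := h3' (s - |X.toStp.px b - X.toStp.px p|) (by linarith) (by linarith)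
          have := X.pv.tri p b' (z' (s - |X.toStp.px b - X.toStp.px p|))
          have := X.pv.tri p b b'
          exact ⟨by linarith, by linarith⟩
      · refine le_antisymm ((X.ph.tri _ c _).trans ?_) (pm0_FsDich X.ph _ _)
        rw [hz, X.ph.symm, hz, add_zero]
    | succ n' =>
      have hr0 := hr
      generalize he : X.toStp.sx b' = e at hr
      generalize hn : n' + 1 = n1 at hr
      cases hr with
      | one => omega
      | cons _ c c' _ _ _ σ' a1 l'' n'' hd' hs' ht' hr' =>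
        subst he
        have hl'' := X.rt_nonneg hr'
        obtain ⟨pc, -, -⟩ := X.tch_px ht'
        have oc : X.toStp.OnR lo hi p ε r ε' c (X.toStp.sx b') := ⟨pre ⟨_, _, .one _ _ _ σ' hd'⟩, _, _,
          .cons c c c' r _ ε' σ a1 _ _ (X.dst_self_FsDich _ _ _) hs' ht' hr'⟩
        obtain ⟨_, _, hself⟩ := X.rt_self_FsDich (lo := lo) (hi := hi) (X.toStp.sx c') c'
        have occ : X.toStp.OnR lo hi p ε r ε' c (!X.toStp.sx c) ∧
            X.toStp.OnR lo hi p ε r ε' c' (X.toStp.sx c') := ⟨by simpa [hs'] using oc,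
          pre ⟨_, _, .cons b' c c' c' _ _ σ' a1 _ _ hd' hs' ht' hself⟩, _, _, hr'⟩
        have hne : E.η a0 ≠ E.η a1 := fun e => by
          have h1 := hd'.dir
          rw [ux_FsDich, ux_FsDich, pb', pc, hs', E.η_inj e] at h1
          revert h1
          cases X.toStp.sx b' <;> exact tf_FsDich _
        rcases lt_or_gt_of_ne hne with h1 | h1
        · exact Or.inr ⟨b', c, _, σ', a1, a0, some (c, c'), some (b, b'), hd', by linarith, h1,
            ⟨ht', Or.inr ⟨rfl, hs'⟩⟩, ⟨ht, Or.inl ⟨rfl, rfl⟩⟩, ob', oc, by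
              rintro z (hz | hz) <;> obtain rfl := Option.some.inj hz
              exacts [occ, obb]⟩
        · exact Or.inr ⟨b', c, _, σ', a0, a1, some (b, b'), some (c, c'), hd', by linarith, h1,
            ⟨ht, Or.inl ⟨rfl, rfl⟩⟩, ⟨ht', Or.inr ⟨rfl, hs'⟩⟩, ob', oc, by
              rintro z (hz | hz) <;> obtain rfl := Option.some.inj hz
              exacts [obb, occ]⟩

theorem pos_step_FsDich {p r : Q} {ε ε' : Bool} {l : ℝ} {n : ℕ}
    (h : X.toStp.Rt lo hi p ε r ε' l n) (h0 : 0 < l) :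
    ∃ A B e σ, X.toStp.DSt lo hi e A B σ ∧ X.toStp.px A ≠ X.toStp.px B ∧
      dv p A + |X.toStp.px B - X.toStp.px A| + dv B r ≤ l := by
  induction h with
  | one q r ε σ hd =>
    exact ⟨q, r, ε, σ, hd, (sub_ne_zero.1 (abs_pos.1 h0)).symm, by simp [X.pv.self]⟩
  | cons q b b' r ε ε' σ a l n hd hs ht hr ih =>
    obtain ⟨-, -, dbb⟩ := X.tch_px ht
    by_cases he : X.toStp.px q = X.toStp.px b
    · obtain ⟨A, B, e, σ', h1, h2, h3⟩ := ih (by simpa [he] using h0)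
      have := X.pv.tri q b' A
      have := X.pv.tri q b b'
      have := X.st_dv _ _ _ hd.st
      exact ⟨A, B, e, σ', h1, h2, by linarith⟩
    · have := X.pv.tri b b' r
      have := X.rt_dv hr
      exact ⟨q, b, ε, σ, hd, he, by rw [X.pv.self]; linarith⟩

/-- A horizontal step between generic points over a nondegenerate geodesic. -/
theorem gen_step {p p' : Q} (h : 0 < dv p p') : ∃ q r, X.St q r (E.lev (X.uy q)) ∧
    X.uy q = X.uy r ∧ X.toStp.px q ≠ X.toStp.px r ∧ X.toStp.px q ∉ Set.range E.ξ ∧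
    X.toStp.px r ∉ Set.range E.ξ ∧ X.toStp.py q ∉ Set.range E.η ∧
    dv p q + dv q p' = dv p p' ∧ dv p r + dv r p' = dv p p' := by
  obtain ⟨ε, ε', n, hr⟩ := X.route p p'
  generalize X.toStp.py p - dh p p' = lo at hr
  generalize X.toStp.py p + dh p p' = hi at hr
  obtain ⟨A, B, e, σ, hd, hne, hl⟩ := X.pos_step_FsDich hr h
  have := E.countable_FsDich
  have dξ : Dense (Set.range E.ξ)ᶜ := (Set.countable_range _).dense_compl ℝ
  have dη : Dense (Set.range E.η)ᶜ := (Set.countable_range _).dense_compl ℝ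
  have hmM : min (X.toStp.px A) (X.toStp.px B) < max (X.toStp.px A) (X.toStp.px B) :=
    min_lt_max.2 hne
  obtain ⟨R, hR0, hR⟩ : ∃ R : ℝ, 0 < R ∧ |X.toStp.px A| ≤ R ∧ |X.toStp.px B| ≤ R ∧ |lo| ≤ R ∧
      |hi| ≤ R := by
    have := abs_nonneg (X.toStp.px A)
    have := abs_nonneg (X.toStp.px B)
    have := abs_nonneg lo
    have := abs_nonneg hi
    exact ⟨|X.toStp.px A| + |X.toStp.px B| + |lo| + |hi| + 1, by linarith, by linarith, by linarith,
      by linarith, by linarith⟩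
  obtain ⟨x1, g1, m1, M1⟩ := dξ.exists_between hmM
  have hcl : IsClosed (E.ξ '' {a | |E.ξ a| ≤ R ∧ |E.η a| ≤ R}) := ((E.disc R).image _).isClosed
  obtain ⟨δ, hδ, hball⟩ := Metric.isOpen_iff.1 hcl.isOpen_compl x1
    fun ⟨a, _, ha⟩ => g1 ⟨a, ha⟩
  obtain ⟨x2, g2, m2, M2⟩ := dξ.exists_between
    (lt_min M1 (show x1 < x1 + δ by linarith))
  obtain ⟨M2, M2'⟩ := lt_min_iff.1 M2
  obtain ⟨y, g3, m3, M3⟩ := dη.exists_between (show -R < R by linarith)
  have hbtw : ∀ x, min (X.toStp.px A) (X.toStp.px B) < x → x < max (X.toStp.px A) (X.toStp.px B) →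
      Dir e (X.ux A) (toLex (x, false)) ∧ Dir e (toLex (x, false)) (X.ux B) ∧
      |x - X.toStp.px A| + |X.toStp.px B - x| = |X.toStp.px B - X.toStp.px A| ∧ |x| ≤ R := by
    intro x h1 h2
    obtain ⟨r1, r2⟩ := abs_le.1 hR.1
    obtain ⟨r3, r4⟩ := abs_le.1 hR.2.1
    cases e
    · have h3 : X.toStp.px B ≤ X.toStp.px A := fst_le_FsDich (show X.ux B ≤ X.ux A from hd.dir)
      rw [min_eq_right h3] at h1
      rw [max_eq_left h3] at h2
      refine ⟨le_of_lt_FsDich (u := toLex (x, false)) h2, le_of_lt_FsDich (u := X.ux B) h1, ?_,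
        abs_le.2 ⟨by linarith, by linarith⟩⟩
      rw [abs_of_nonpos (by linarith), abs_of_nonpos (by linarith), abs_of_nonpos (by linarith)]
      ring
    · have h3 : X.toStp.px A ≤ X.toStp.px B := fst_le_FsDich (show X.ux A ≤ X.ux B from hd.dir)
      rw [min_eq_left h3] at h1
      rw [max_eq_right h3] at h2
      refine ⟨le_of_lt_FsDich (u := X.ux A) h1, le_of_lt_FsDich (u := toLex (x, false)) h2, ?_,
        abs_le.2 ⟨by linarith, by linarith⟩⟩
      rw [abs_of_nonneg (by linarith), abs_of_nonneg (by linarith), abs_of_nonneg (by linarith)]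
      ring
  have hpt : ∀ x, min (X.toStp.px A) (X.toStp.px B) < x → x < max (X.toStp.px A) (X.toStp.px B) →
      ∃ q, X.ux q = toLex (x, false) ∧ X.uy q = toLex (y, false) ∧ X.St A q σ ∧
        dv p q + dv q p' = dv p p' := by
    intro x h1 h2
    obtain ⟨d1, d2, d3, -⟩ := hbtw x h1 h2
    obtain ⟨q1, u1, s1, -⟩ := X.split e A B σ _ hd.st d1 d2
    obtain ⟨q, u2, u3, s2⟩ := X.vert q1 (toLex (y, false)) σ
    have s3 := X.st_tr'_FsDich s1 s2
    have e1 := X.st_dv _ _ _ s3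
    have e2 := X.st_dv _ _ _ (X.st_tr_FsDich s3 hd.st)
    have e3 : X.toStp.px q = x := by
      rw [Stp.px, u2, u1]
      rfl
    rw [e3] at e1 e2
    have := X.pv.tri p A q
    have := X.pv.tri q B p'
    have := X.pv.tri p q p'
    exact ⟨q, u2.trans u1, u3, s3, by linarith⟩
  obtain ⟨q, a1, a2, a3, a4⟩ := hpt x1 m1 M1
  obtain ⟨r, b1, b2, b3, b4⟩ := hpt x2 (m1.trans m2) M2
  have e1 : X.toStp.px q = x1 := by
    rw [Stp.px, a1]
    rfl
  have e2 : X.toStp.px r = x2 := by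
    rw [Stp.px, b1]
    rfl
  have e3 : X.toStp.py q = y := by
    rw [Stp.py, a2]
    rfl
  refine ⟨q, r, X.congr _ _ _ _ (X.st_tr_FsDich a3 b3) fun a ha => ?_, a2.trans b2.symm,
    by rw [e1, e2]; exact m2.ne, e1 ▸ g1, e2 ▸ g2, e3 ▸ g3, a4, b4⟩
  rw [a1, b1] at ha
  have h1 := hd.thr a (E.cr_mono_FsDich (hbtw x1 m1 M1).1 (hbtw x1 m1 M1).2.1
    (hbtw x2 (m1.trans m2) M2).1 (hbtw x2 (m1.trans m2) M2).2.1 ha)
  have h2 : x1 ≤ E.ξ a ∧ E.ξ a ≤ x2 := by
    rcases E.cr_btw_FsDich ha with h2 | h2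
    · exact h2
    · exact absurd (le_trans h2.1 h2.2) (not_le.2 m2)
  have h3 : R < |E.η a| := by
    refine not_le.1 fun h3 => hball (a := E.ξ a) ?_ ⟨a, ⟨?_, h3⟩, rfl⟩
    · rw [Metric.mem_ball, Real.dist_eq, abs_lt]
      constructor <;> linarith
    · exact (hbtw _ (by linarith) (by linarith)).2.2.2
  obtain ⟨r1, -⟩ := abs_le.1 hR.2.2.1
  obtain ⟨-, r2⟩ := abs_le.1 hR.2.2.2
  rw [a2]
  rcases lt_abs.1 h3 with h4 | h4
  · rw [h1.2 (by linarith)]
    simpa using (E.lev_iff_FsDich a y false).not.2 (by simpa using (M3.trans h4).le)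
  · rw [h1.1 (by linarith)]
    exact (E.lev_iff_FsDich a y false).2 (Or.inl (by linarith))

/-- A step whose status is the level of a nearby lattice point runs over a prong of a cusp. -/
theorem prong {z r : Q} {ε : Bool} {σ : O → Bool} (h : X.toStp.DSt lo hi ε z r σ) {a0 : O}
    {R N : ℝ} (hR : |E.ξ a0 - X.toStp.px z| ≤ R)
    (hσ : ∀ a, E.Cr (X.ux z) (X.ux r) a → |E.ξ a - X.toStp.px z| ≤ N →
      (σ a = true ↔ E.η a < E.η a0)) (hN : N < |X.toStp.px r - X.toStp.px z|) :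
    ∃ c, Cu c ∧ dv c z ≤ R ∧ ∃ y : ℝ → Q, ∀ τ, 0 < τ → τ ≤ N →
      dh (y τ) c = 0 ∧ dv z (y τ) = τ ∧ dv (y τ) r = |X.toStp.px r - X.toStp.px z| - τ := by
  obtain ⟨c0, h1, h2, h3⟩ := X.pt_FsDich z (toLex (E.ξ a0, false)) (toLex (E.η a0, false))
  have e1 : X.toStp.px c0 = E.ξ a0 := by
    rw [Stp.px, h1]
    rfl
  obtain ⟨c, hc, d1, d2⟩ := X.cusp c0 a0 e1 (by rw [Stp.py, h2]; rfl)
  choose y y1 y2 y3 using fun τ : ℝ =>
    X.pt_FsDich z (toLex (X.toStp.px z + sgn_FsDich ε * τ, false)) (toLex (E.η a0, false))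
  refine ⟨c, hc, ?_, y, fun τ t0 tN => ?_⟩
  · have := X.pv.tri c c0 z
    have h4 := X.st_dv _ _ _ h3
    rw [e1, X.pv.symm] at h4
    linarith
  have e2 : X.toStp.px (y τ) = X.toStp.px z + sgn_FsDich ε * τ := by
    rw [Stp.px, y1]
    rfl
  have h4 : X.toStp.px r = X.toStp.px z + sgn_FsDich ε * |X.toStp.px r - X.toStp.px z| :=
    dir_eq_FsDich h.dir
  refine ⟨?_, ?_, ?_⟩
  · have := X.ph.tri (y τ) c0 c
    have := X.dh_FsDich (y3 τ) h3 (y2 τ) h2
    have := X.ph.symm c c0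
    have := pm0_FsDich X.ph (y τ) c
    linarith
  · rw [X.st_dv _ _ _ (y3 τ), e2, add_sub_cancel_left, abs_sgn_FsDich ε t0.le]
  · have d3 : Dir ε (X.ux z) (X.ux (y τ)) := dir_of_FsDich t0 e2
    have d4 : Dir ε (X.ux (y τ)) (X.ux r) :=
      dir_of_FsDich (s := |X.toStp.px r - X.toStp.px z| - τ) (by linarith) (by
        change X.toStp.px r = X.toStp.px (y τ) + _
        linarith)
    have s1 : X.St z (y τ) σ := by
      refine X.congr _ _ _ _ (y3 τ) fun a ha => ?_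
      have h5 := hσ a (E.cr_mono_FsDich (dir_refl_FsDich _ _) h.dir d3 d4 ha) (by
        have h6 := E.cr_btw_FsDich ha
        have h7 := abs_le.1 (abs_sgn_FsDich ε t0.le).le
        change (X.toStp.px z ≤ _ ∧ _ ≤ X.toStp.px (y τ)) ∨
          (X.toStp.px (y τ) ≤ _ ∧ _ ≤ X.toStp.px z) at h6
        rw [abs_le]
        rcases h6 with h6 | h6 <;> constructor <;> linarith)
      rw [Bool.eq_iff_iff, h5, E.lev_iff_FsDich]
      simp
    rw [X.st_dv _ _ _ (X.st_tr_FsDich s1 h.st), e2,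
      ← abs_sgn_FsDich ε (show 0 ≤ |X.toStp.px r - X.toStp.px z| - τ by linarith)]
    congr 1
    linarith

end BSys

end Pool.Agent.E5f
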