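import Pool.Agent.E5f.FsStep
import Pool.Agent.E5f.FsDich

set_option autoImplicit false

namespace Pool.Agent.E5f

open Classical Filter

theorem le_eps_FsCvx {a b K : ℝ} (hK : 0 ≤ K) (h : ∀ ε : ℝ, 0 < ε → a ≤ b + ε * K) : a ≤ b := by
  refine le_of_forall_pos_le_add fun δ hδ => ?_
  have h1 := h (δ / (K + 1)) (by positivity)
  have h2 : δ / (K + 1) * K ≤ δ := by
    rw [div_mul_eq_mul_div, div_le_iff₀ (by positivity)]
    nlinarith
  linarith

theorem pm_nonneg_FsCvx {X : Type} {d : X → X → ℝ} (h : PM d) (x y : X) : 0 ≤ d x y := by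
  have h1 := h.tri x y x
  have h2 := h.self x
  have h3 := h.symm x y
  linarith

theorem nonneg_FsCvx {Q P : Type} {f : Q → P → P → ℝ} (hf : ∀ q, PM (f q)) {F : Q → ℝ}
    (hF : F ∈ LimF1 f) (q : Q) : 0 ≤ F q := by
  refine le_eps_FsCvx zero_le_one fun ε hε => ?_
  obtain ⟨x, y, t, ht, -, h⟩ := hF {q} ε hε
  have h1 := (abs_le.mp (h q (Finset.mem_singleton_self q))).2
  have h2 : 0 ≤ t * f q x y := mul_nonneg ht.le (pm_nonneg_FsCvx (hf q) x y)
  linarith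

namespace FSys
variable {O : Type} [AddCommGroup O] {E : Lat O} {Q P : Type} {dv dh : Q → Q → ℝ}
  {Cu : Q → Prop} {fv fh : Q → P → P → ℝ} (Y : FSys E dv dh Cu fv fh)

include Y

theorem fv_zero {p q : Q} (h : dv p q = 0) (x y : P) : fv p x y = fv q x y := by
  obtain ⟨c, C, -, -, H⟩ := Y.route_ev
  obtain ⟨ε, ε', n, hr⟩ := Y.route p q
  obtain ⟨S, -, h1, h2, -⟩ := (H _ _ _ _ _ _ _ _ hr x y).exists
  rw [h, zero_mul] at h1 h2
  linarith

theorem lim_nonneg {F : Q → ℝ} (hF : F ∈ LimF1 fv) (q : Q) : 0 ≤ F q := nonneg_FsCvx Y.fpm hF q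

theorem lim_zero {F : Q → ℝ} (hF : F ∈ LimF1 fv) {p q : Q} (h : dv p q = 0) : F p = F q := by
  have key : ∀ p q : Q, dv p q = 0 → F p ≤ F q := by
    intro p q h
    refine le_eps_FsCvx zero_le_two fun ε hε => ?_
    obtain ⟨x, y, t, -, -, H⟩ := hF {p, q} ε hε
    have h1 := (abs_le.mp (H p (by simp))).1
    have h2 := (abs_le.mp (H q (by simp))).2
    rw [Y.fv_zero h] at h1
    linarith
  exact le_antisymm (key p q h) (key q p (by rw [Y.pv.symm, h]))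

theorem lim_cvx {F : Q → ℝ} (hF : F ∈ LimF1 fv) {p q r : Q} (h : dv p q + dv q r = dv p r) :
    dv p r * F q ≤ dv q r * F p + dv p q * F r := by
  obtain ⟨c, C, -, hC, H⟩ := Y.route_ev
  obtain ⟨ε, ε', n, hr⟩ := Y.route p r
  have hs : 0 ≤ dv p q := pm_nonneg_FsCvx Y.pv p q
  have hs' : 0 ≤ dv q r := pm_nonneg_FsCvx Y.pv q r
  obtain ⟨z, e, n1, n2, r1, r2⟩ := Y.toBSys.rt_split hr hs (by linarith)
  have hl : dv p r - dv p q = dv q r := by linarith
  rw [hl] at r2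
  have d1 := Y.toBSys.rt_dv r1
  have d2 := Y.toBSys.rt_dv r2
  have d3 := Y.pv.tri p z r
  have hz : dv q z = 0 := tree0 Y.pv Y.hv h (by linarith) (by linarith)
  have hK : 0 ≤ dv p q * dv q r * ((n1 + n2) * C) := by positivity
  have key : ∀ x y, dv p r * fv q x y ≤ dv q r * fv p x y + dv p q * fv r x y +
      dv p q * dv q r * ((n1 + n2) * C) := by
    intro x y
    obtain ⟨S, ⟨-, -, a1, -⟩, ⟨-, a2, -, -⟩⟩ :=
      ((H _ _ _ _ _ _ _ _ r1 x y).and (H _ _ _ _ _ _ _ _ r2 x y)).exists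
    rw [Y.fv_zero hz, ← h]
    have b1 := mul_le_mul_of_nonneg_left a1 hs'
    have b2 := mul_le_mul_of_nonneg_left a2 hs
    nlinarith
  refine le_eps_FsCvx (K := 2 * dv p r + dv p q * dv q r * ((n1 + n2) * C))
    (by linarith) fun δ hδ => ?_
  obtain ⟨x, y, t, ht, htδ, G⟩ := hF {p, q, r} δ hδ
  have g1 := (abs_le.mp (G p (by simp))).2
  have g2 := (abs_le.mp (G q (by simp))).1
  have g3 := (abs_le.mp (G r (by simp))).2
  have b0 := mul_le_mul_of_nonneg_left (key x y) ht.le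
  have b1 := mul_le_mul_of_nonneg_left g1 hs'
  have b2 := mul_le_mul_of_nonneg_left g2 (add_nonneg hs hs')
  have b3 := mul_le_mul_of_nonneg_left g3 hs
  have b4 := mul_le_mul_of_nonneg_right htδ hK
  rw [← h] at b0 ⊢
  nlinarith

theorem lim_b1 {Φ : (Q → ℝ) × (Q → ℝ)} (hΦ : Φ ∈ LimF fv fh) {p p' : Q} (h : Φ.1 p = 0)
    (h' : Φ.1 p' = 0) (hd : 0 < dv p p') :
    ∃ q, Thick (fun x y => fv q x y + fh q x y) ∧ Φ.1 q = 0 ∧ Φ.2 q = 0 := by
  have h1 : Φ.1 ∈ LimF1 fv := fun T ε hε => by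
    obtain ⟨x, y, t, a, b, H⟩ := hΦ T ε hε
    exact ⟨x, y, t, a, b, fun q hq => (H q hq).1⟩
  have h2 : Φ.2 ∈ LimF1 fh := fun T ε hε => by
    obtain ⟨x, y, t, a, b, H⟩ := hΦ T ε hε
    exact ⟨x, y, t, a, b, fun q hq => (H q hq).2⟩
  have hz : ∀ q, dv p q + dv q p' = dv p p' → Φ.1 q = 0 := by
    intro q hq
    have a1 := Y.lim_cvx h1 hq
    rw [h, h', mul_zero, mul_zero, add_zero] at a1
    refine le_antisymm ?_ (Y.lim_nonneg h1 q)
    by_contra hc
    exact absurd a1 (not_le.mpr (mul_pos hd (not_le.mp hc)))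
  obtain ⟨q, r, s1, s2, s3, s4, s5, s6, s7, s8⟩ := Y.toBSys.gen_step hd
  obtain ⟨hT, c, C, hc, H⟩ := Y.two q r s1 s2 s3 s4 s5 s6
  refine ⟨q, hT, hz q s7, le_antisymm ?_ (nonneg_FsCvx Y.fpm' h2 q)⟩
  have key : c * Φ.2 q ≤ 0 := by
    refine le_eps_FsCvx (K := c + |C| + 2) (by positivity) fun δ hδ => ?_
    obtain ⟨x, y, t, ht, htδ, G⟩ := hΦ {q, r} δ hδ
    have g1 := (abs_le.mp (G q (by simp)).1).2
    have g2 := (abs_le.mp (G q (by simp)).2).1
    have g3 := (abs_le.mp (G r (by simp)).1).2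
    rw [hz q s7] at g1
    rw [hz r s8] at g3
    have b0 := mul_le_mul_of_nonneg_left (H x y) ht.le
    have b1 := mul_le_mul_of_nonneg_left g2 hc.le
    have b2 := mul_le_mul_of_nonneg_left (le_abs_self C) ht.le
    have b3 := mul_le_mul_of_nonneg_right htδ (abs_nonneg C)
    nlinarith
  by_contra hn
  exact absurd key (not_le.mpr (mul_pos hc (not_le.mp hn)))

end FSys

end Pool.Agent.E5f
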