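import Pool.Agent.E5f.FsDefs

set_option autoImplicit false

namespace Pool.Agent.E5f

open Classical Filter

theorem side_FsLat (u : Mx) (t : ℝ) : u < toLex (t, true) ↔ u ≤ toLex (t, false) := by
  rw [Prod.Lex.lt_iff, Prod.Lex.le_iff]
  cases (ofLex u).2 <;> simp

theorem sp1_FsLat {A B : ℝ} (c d : ℝ) (hc : 0 < c) (hd : 0 < d) (h : c * B = d * A) (hA : A ≠ 0) :
    0 < A * B :=
  pos_of_mul_pos_right (a := c) (by
    rw [mul_left_comm, h, mul_left_comm]
    exact mul_pos hd (mul_self_pos.2 hA)) hc.le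

theorem sp2_FsLat {A B : ℝ} (c d : ℝ) (hc : 0 < c) (hd : 0 < d) (h : c * B = -(d * A)) :
    A * B ≤ 0 :=
  nonpos_of_mul_nonpos_right (a := c) (by
    rw [mul_left_comm, h, mul_neg, mul_left_comm]
    exact neg_nonpos.2 (mul_nonneg hd.le (mul_self_nonneg A))) hc

theorem cr_FsLat {u u' : Mx} {t : ℝ} (h : (ofLex u).1 < t) (h' : t < (ofLex u').1) :
    u ≤ toLex (t, false) ∧ toLex (t, true) ≤ u' :=
  ⟨Prod.Lex.le_iff.2 (.inl h), Prod.Lex.le_iff.2 (.inl h')⟩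

section
variable {O : Type} [AddCommGroup O] (X Y : O →+ ℝ) (H R B N T y L : ℝ) (C : O → Prop)

theorem half_FsLat (P : O → Prop) (h1 : ∀ a, a ≠ 0 → 1 ≤ |X a| * |Y a|)
    (h2 : ∀ x y : ℝ, ∃ a, x < X a ∧ X a < x + 1 ∧ y < Y a ∧ Y a < y + H) (h3 : 0 ≤ T) (h4 : T ≤ R)
    (l1 : R + 2 ≤ L) (l2 : (⌈|2 * H + 4 * B| * (R + N)⌉₊ + 1) * (R + N) + 1 ≤ L)
    (c1 : ∀ d, C d → 0 < X d ∧ T ≤ X d) (c2 : ∀ d, T < X d → X d < T + L → C d)
    (t : ∀ d, C d → (Y d < y - B → P d) ∧ (y + B < Y d → ¬P d))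
    (ad : ∀ d d', C d → C d' → C (d + d') → P d → P d' → P (d + d')) (d : O) (hd : C d)
    (hN : X d ≤ T + N) (hP : P d) : Y d < 0 := by
  have hy : y < 2 * H + 3 * B := by
    by_contra hy
    obtain ⟨a, e1, e2, e3, e4⟩ := h2 T ((y + B) / 2)
    have e5 := c2 a e1 (by linarith)
    have e6 := c2 (a + a) (by rw [map_add]; linarith) (by rw [map_add]; linarith)
    have e7 := (t a e5).1 (by linarith)
    exact (t _ e6).2 (by rw [map_add]; linarith) (ad a a e5 e5 e6 e7 e7)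
  obtain ⟨e1, e2⟩ := c1 d hd
  by_contra h
  have e3 := h1 d fun e => by simp [e] at e1
  rw [abs_of_pos e1, abs_of_nonneg (not_lt.1 h)] at e3
  have e4 : ∀ k : ℕ, (k + 1) * (R + N) < L → C ((k + 1) • d) ∧ P ((k + 1) • d) := fun k => by
    induction k with
    | zero => exact fun _ => by simpa using ⟨hd, hP⟩
    | succ k ih =>
      intro hk
      push_cast at hk
      have f0 : (0 : ℝ) ≤ k := k.cast_nonneg
      obtain ⟨f1, f2⟩ := ih (by linarith)
      have f3 := c2 ((k + 1 + 1) • d) (by rw [map_nsmul, nsmul_eq_mul]; push_cast; nlinarith)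
        (by rw [map_nsmul, nsmul_eq_mul]; push_cast; nlinarith)
      rw [succ_nsmul] at f3 ⊢
      exact ⟨f3, ad _ _ f1 hd f3 f2 hP⟩
  obtain ⟨e5, e6⟩ := e4 _ (lt_of_lt_of_le (lt_add_one _) l2)
  refine (t _ e5).2 ?_ e6
  have e7 := Nat.le_ceil (|2 * H + 4 * B| * (R + N))
  have e8 : 0 < Y d := pos_of_mul_pos_right (zero_lt_one.trans_le e3) e1.le
  have e9 : 1 ≤ (R + N) * Y d := by nlinarith
  rw [map_nsmul, nsmul_eq_mul]
  push_cast
  nlinarith [le_abs_self (2 * H + 4 * B), abs_nonneg (2 * H + 4 * B)]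

theorem full_FsLat (σ : O → Bool) (h1 : ∀ a, a ≠ 0 → 1 ≤ |X a| * |Y a|)
    (h2 : ∀ x y : ℝ, ∃ a, x < X a ∧ X a < x + 1 ∧ y < Y a ∧ Y a < y + H) (h3 : 0 ≤ T) (h4 : T ≤ R)
    (l1 : R + 2 ≤ L) (l2 : (⌈|2 * H + 4 * B| * (R + N)⌉₊ + 1) * (R + N) + 1 ≤ L)
    (c1 : ∀ d, C d → 0 < X d ∧ T ≤ X d) (c2 : ∀ d, T < X d → X d < T + L → C d)
    (t : ∀ d, C d → (Y d < y - B → σ d = true) ∧ (y + B < Y d → σ d = false))
    (ad : ∀ d d', C d → C d' → C (d + d') → σ d = σ d' → σ (d + d') = σ d) (d : O) (hd : C d)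
    (hN : X d ≤ T + N) : σ d = true ↔ Y d < 0 := by
  refine ⟨half_FsLat X Y H R B N T y L C (σ · = true) h1 h2 h3 h4 l1 l2 c1 c2
    (fun d hd => ⟨(t d hd).1, fun h => by simp [(t d hd).2 h]⟩)
    (fun d d' a b c e e' => (ad d d' a b c (e.trans e'.symm)).trans e) d hd hN, fun h => ?_⟩
  by_contra h5
  have := half_FsLat X (-Y) H R B N T (-y) L C (σ · = false) (by simpa using h1) (fun x y => by
      obtain ⟨b, e1, e2, e3, e4⟩ := h2 x (-y - H)
      exact ⟨b, e1, e2, by simp; linarith, by simp; linarith⟩) h3 h4 l1 l2 c1 c2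
    (fun d hd => ⟨fun h => (t d hd).2 (by simp at h; linarith),
      fun h => by simp [(t d hd).1 (by simp at h; linarith)]⟩)
    (fun d d' a b c e e' => (ad d d' a b c (e.trans e'.symm)).trans e) d hd hN (by simpa using h5)
  simp at this
  linarith

end

namespace Lat
variable {O : Type} [AddCommGroup O] (E : Lat O)

theorem ξ_inj : Function.Injective E.ξ := (injective_iff_map_eq_zero _).2 fun a h => by
  by_contra h0
  have := E.norm a h0
  rw [h, abs_zero, zero_mul] at this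
  linarith

theorem η_inj : Function.Injective E.η := (injective_iff_map_eq_zero _).2 fun a h => by
  by_contra h0
  have := E.norm a h0
  rw [h, abs_zero, mul_zero] at this
  linarith

theorem w_FsLat : StrictMono E.w :=
  Fin.strictMono_iff_lt_succ.2 fun i => by
    fin_cases i
    exacts [E.w0.trans_lt E.w1, E.w2]

theorem sp_FsLat {x y : Fin 3 × O} (h : E.sp x = E.sp y) : x.1 = y.1 :=
  E.ty.injective (E.w_FsLat.injective h)

theorem lt_FsLat (u : Mx) (x y : Fin 3 × O) : E.key u x < E.key u y ↔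
    E.pos (ofLex u).1 x < E.pos (ofLex u).1 y ∨ (E.pos (ofLex u).1 x = E.pos (ofLex u).1 y ∧
      if (ofLex u).2 = true then E.sp x < E.sp y else E.sp y < E.sp x) := by
  rw [key, key, Prod.Lex.toLex_lt_toLex]
  cases (ofLex u).2 <;> simp

theorem key_inj (u : Mx) : Function.Injective (E.key u) := fun x y h => by
  obtain ⟨h1, h2⟩ := Prod.ext_iff.1 (toLex.injective h)
  have h3 : E.sp x = E.sp y := by
    dsimp only at h2
    split_ifs at h2
    exacts [h2, neg_injective h2]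
  refine Prod.ext (E.sp_FsLat h3) (E.ξ_inj ?_)
  dsimp only [pos] at h1
  rw [h3] at h1
  exact add_right_cancel h1

theorem key_pos (u : Mx) {x y : Fin 3 × O} (h : E.key u x < E.key u y) :
    E.pos (ofLex u).1 x ≤ E.pos (ofLex u).1 y :=
  ((E.lt_FsLat u x y).1 h).elim le_of_lt fun h => h.1.le

theorem pos_key (u : Mx) {x y : Fin 3 × O} (h : E.pos (ofLex u).1 x < E.pos (ofLex u).1 y) :
    E.key u x < E.key u y :=
  (E.lt_FsLat u x y).2 (.inl h)

theorem sp_mem (x : Fin 3 × O) : 0 ≤ E.sp x ∧ E.sp x ≤ E.w 2 :=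
  ⟨E.w0.ge.trans (E.w_FsLat.monotone (Fin.zero_le _)), E.w_FsLat.monotone (Fin.le_last _)⟩

theorem sp_gap {x y : Fin 3 × O} (h : E.sp x < E.sp y) :
    min (E.w 1) (E.w 2 - E.w 1) ≤ E.sp y - E.sp x := by
  unfold sp at *
  replace h := E.w_FsLat.lt_iff_lt.1 h
  generalize E.ty x.1 = i at h ⊢
  generalize E.ty y.1 = j at h ⊢
  have := E.w0
  have := E.w1
  have := E.w2
  have := min_le_left (E.w 1) (E.w 2 - E.w 1)
  have := min_le_right (E.w 1) (E.w 2 - E.w 1)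
  fin_cases i <;> fin_cases j <;> simp at h <;> simp only [Fin.reduceFinMk] <;> linarith

theorem pos_bk (a : O) (x : Fin 3 × O) : E.pos (E.ξ a) x = E.ξ (E.bk a x) := by
  rw [pos, bk, map_add, E.ξμ, sp]

theorem blk (a : O) : Blk (fun s => E.key (toLex (E.ξ a, s))) E.tyl (E.bk a) := by
  have key : ∀ s x y, E.key (toLex (E.ξ a, s)) x < E.key (toLex (E.ξ a, s)) y ↔
      E.ξ (E.bk a x) < E.ξ (E.bk a y) ∨ (E.bk a x = E.bk a y ∧
        if s = true then E.tyl x < E.tyl y else E.tyl y < E.tyl x) := fun s x y => by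
    simp only [lt_FsLat, ofLex_toLex, pos_bk, E.ξ_inj.eq_iff, sp, tyl, E.w_FsLat.lt_iff_lt]
  refine ⟨fun x y h1 h2 => ?_, fun s s' x x' y y' h1 h2 h3 => ?_, fun x y h => ?_, fun x y h => ?_⟩
  · have h3 : x.1 = y.1 := E.ty.injective h2
    rw [bk, bk, h3] at h1
    exact Prod.ext h3 (add_right_cancel h1)
  · simp only [key, ← h1, ← h2, h3, false_and]
  · simp [key, h]
  · simp [key, h]

theorem key_same (u u' : Mx) {x y : Fin 3 × O} (h : x.1 = y.1) :
    E.key u x < E.key u y ↔ E.key u' x < E.key u' y := by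
  simp [lt_FsLat, pos, sp, h]

theorem col_ex {x y : Fin 3 × O} (h : x.1 ≠ y.1) : ∃ a, E.bk a x = E.bk a y := by
  obtain ⟨a, ha⟩ := E.unit _ _ h (y.2 - x.2)
  exact ⟨a, by rw [bk, bk, sub_eq_iff_eq_add.1 ha]; abel⟩

theorem col_uniq {x y : Fin 3 × O} (h : x.1 ≠ y.1) {a a' : O} (h1 : E.bk a x = E.bk a y)
    (h2 : E.bk a' x = E.bk a' y) : a = a' := by
  have e1 := congrArg E.ξ h1
  have e2 := congrArg E.ξ h2
  simp only [← pos_bk, pos] at e1 e2
  refine E.ξ_inj (mul_left_cancel₀ (sub_ne_zero.2 fun e => h (E.sp_FsLat e)) ?_)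
  linarith

/-- The order of two colliding labels at a marker. -/
theorem key_col (u : Mx) {x y : Fin 3 × O} {a : O} (h : E.bk a x = E.bk a y)
    (hs : E.sp x < E.sp y) : E.key u x < E.key u y ↔ toLex (E.ξ a, true) ≤ u := by
  have e1 := congrArg E.ξ h
  simp only [← pos_bk, pos] at e1
  have e2 : E.pos (ofLex u).1 y - E.pos (ofLex u).1 x = (E.sp y - E.sp x) * ((ofLex u).1 - E.ξ a) := by
    unfold pos
    linarith
  rw [lt_FsLat, Prod.Lex.le_iff, ← sub_pos, eq_comm, ← sub_eq_zero, e2,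
    mul_pos_iff_of_pos_left (sub_pos.2 hs), mul_eq_zero_iff_left (sub_pos.2 hs).ne', sub_pos,
    sub_eq_zero, eq_comm]
  cases (ofLex u).2 <;> simp [hs, hs.asymm, show ¬true ≤ false by decide]

/-- Inverted pairs. -/
theorem inv_iff {ε : Bool} {u u' : Mx} (hd : Dir ε u u') (x y : Fin 3 × O) :
    (E.key u x < E.key u y ∧ E.key u' y < E.key u' x) ↔
      ∃ a, E.bk a x = E.bk a y ∧ E.Cr u u' a ∧
        (if ε = true then E.sp y < E.sp x else E.sp x < E.sp y) := by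
  have tf : ∀ t : ℝ, ¬toLex (t, true) ≤ toLex (t, false) := fun t =>
    not_le.2 ((side_FsLat _ t).2 le_rfl)
  have tot : ∀ {v : Mx} {x y}, E.sp x < E.sp y → ¬E.key v x < E.key v y → E.key v y < E.key v x :=
    fun hs h => (not_lt.1 h).lt_of_ne fun e => hs.ne' (congrArg _ (E.key_inj _ e))
  unfold Dir at hd
  constructor
  · rintro ⟨h1, h2⟩
    have h3 : x.1 ≠ y.1 := fun e => h2.asymm ((E.key_same u u' e).1 h1)
    obtain ⟨a, ha⟩ := E.col_ex h3
    rcases lt_or_gt_of_ne fun e => h3 (E.sp_FsLat e) with hs | hs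
    · have e1 := (E.key_col u ha hs).1 h1
      have e2 := (side_FsLat _ _).1 (not_le.1 (mt (E.key_col u' ha hs).2 h2.asymm))
      refine ⟨a, ha, .inr ⟨e2, e1⟩, ?_⟩
      split_ifs at hd ⊢
      exacts [(tf _ (e1.trans (hd.trans e2))).elim, hs]
    · have e1 := (E.key_col u' ha.symm hs).1 h2
      have e2 := (side_FsLat _ _).1 (not_le.1 (mt (E.key_col u ha.symm hs).2 h1.asymm))
      refine ⟨a, ha, .inl ⟨e2, e1⟩, ?_⟩
      split_ifs at hd ⊢
      exacts [hs, (tf _ (e1.trans (hd.trans e2))).elim]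
  · rintro ⟨a, ha, hc, hs⟩
    split_ifs at hd hs
    · obtain ⟨e1, e2⟩ := hc.resolve_right fun e => tf _ (e.2.trans (hd.trans e.1))
      exact ⟨tot hs fun e => tf _ (((E.key_col u ha.symm hs).1 e).trans e1),
        (E.key_col u' ha.symm hs).2 e2⟩
    · obtain ⟨e1, e2⟩ := hc.resolve_left fun e => tf _ (e.2.trans (hd.trans e.1))
      exact ⟨(E.key_col u ha hs).2 e2, tot hs fun e => tf _ (((E.key_col u' ha hs).1 e).trans e1)⟩

/-- Labels in a rectangle. -/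
theorem rect_fin (x R : ℝ) : {ν : Fin 3 × O | |E.pos x ν| ≤ R ∧ |E.η ν.2| ≤ R}.Finite := by
  refine (Set.finite_univ.prod (E.disc (R + E.w 2 * |x|))).subset fun ν h => ⟨trivial, ?_, ?_⟩
  · have h1 := abs_sub (E.pos x ν) (E.sp ν * x)
    rw [abs_mul, abs_of_nonneg (E.sp_mem ν).1, pos, add_sub_cancel_right] at h1
    exact h1.trans (add_le_add h.1 (mul_le_mul_of_nonneg_right (E.sp_mem ν).2 (abs_nonneg _)))
  · exact h.2.trans (le_add_of_nonneg_right
      (mul_nonneg (E.w1.trans E.w2).le (abs_nonneg _)))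

/-- Climbing a ladder inside a vertical strip. -/
theorem ladder (N : Set O) (v1 v2 : O) (X K y0 y1 : ℝ) (h1 : 0 < E.η v1) (h2 : 0 < E.η v2)
    (s : E.ξ v1 * E.ξ v2 ≤ 0) (k1 : |E.ξ v1| ≤ K) (k2 : |E.ξ v2| ≤ K)
    (hN : ∀ p ∈ N, |E.ξ p - X| ≤ K → y0 ≤ E.η p → E.η p ≤ y1 → p + v1 ∈ N ∧ p + v2 ∈ N)
    {p0 : O} (h0 : p0 ∈ N) (hx : |E.ξ p0 - X| ≤ K) (hy : y0 ≤ E.η p0) (hy' : E.η p0 ≤ y1) :
    ∃ p ∈ N, |E.ξ p - X| ≤ K ∧ y1 < E.η p ∧ E.η p ≤ y1 + max (E.η v1) (E.η v2) := by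
  have step : ∀ p, |E.ξ p - X| ≤ K → ∃ v, (v = v1 ∨ v = v2) ∧ |E.ξ (p + v) - X| ≤ K := fun p h => by
    simp only [map_add, abs_le] at *
    rcases mul_nonpos_iff.1 s with e | e <;> rcases le_total (E.ξ p) X with f | f
    · exact ⟨v1, .inl rfl, by linarith, by linarith⟩
    · exact ⟨v2, .inr rfl, by linarith, by linarith⟩
    · exact ⟨v2, .inr rfl, by linarith, by linarith⟩
    · exact ⟨v1, .inl rfl, by linarith, by linarith⟩
  obtain ⟨n, hn⟩ := exists_lt_nsmul (lt_min h1 h2) (y1 - E.η p0)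
  induction n generalizing p0 with
  | zero => exact absurd hn (by simpa using hy')
  | succ n ih =>
    obtain ⟨v, hv, e⟩ := step p0 hx
    obtain ⟨e1, e2, e3⟩ : p0 + v ∈ N ∧ min (E.η v1) (E.η v2) ≤ E.η v ∧
        E.η v ≤ max (E.η v1) (E.η v2) := by
      rcases hv with rfl | rfl
      exacts [⟨(hN p0 h0 hx hy hy').1, min_le_left _ _, le_max_left _ _⟩,
        ⟨(hN p0 h0 hx hy hy').2, min_le_right _ _, le_max_right _ _⟩]
    have e4 := map_add E.η p0 v
    rcases lt_or_ge y1 (E.η (p0 + v)) with h | h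
    · exact ⟨_, e1, e, h, by linarith⟩
    · rw [succ_nsmul] at hn
      exact ih e1 e (by linarith [lt_min h1 h2]) h (by linarith)

theorem two_FsLat (σ : O → Bool) (v1 v2 : O) (X K lo hi : ℝ) (hK : 0 < K)
    (hT : ∀ p, |E.ξ p - X| ≤ K → (E.η p < lo → σ p = true) ∧ (hi < E.η p → σ p = false))
    (h1 : 0 < E.η v1 * E.η v2) (s : E.ξ v1 * E.ξ v2 ≤ 0) (k1 : |E.ξ v1| ≤ K) (k2 : |E.ξ v2| ≤ K)
    (g1 : ∀ p, |E.ξ p - X| ≤ K → σ (p + v1) = σ p ∧ σ (p + -v1) = σ p)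
    (g2 : ∀ p, |E.ξ p - X| ≤ K → σ (p + v2) = σ p ∧ σ (p + -v2) = σ p) : False := by
  obtain ⟨H, hH⟩ := E.densx K hK
  obtain ⟨p0, e1, e2, -, e4⟩ := hH X (lo - H)
  have e5 : |E.ξ p0 - X| ≤ K := abs_le.2 ⟨by linarith, by linarith⟩
  have key : ∀ v1 v2, 0 < E.η v1 → 0 < E.η v2 → E.ξ v1 * E.ξ v2 ≤ 0 → |E.ξ v1| ≤ K →
      |E.ξ v2| ≤ K → (∀ p, |E.ξ p - X| ≤ K → σ (p + v1) = σ p ∧ σ (p + v2) = σ p) → False :=
    fun v1 v2 a b c d e g => by
      obtain ⟨p, f1, f2, f3, -⟩ := E.ladder {p | σ p = true} v1 v2 X K (E.η p0) (max (E.η p0) hi)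
        a b c d e (fun p hp h _ _ => ⟨(g p h).1.trans hp, (g p h).2.trans hp⟩)
        ((hT p0 e5).1 (by linarith)) e5 le_rfl (le_max_left _ _)
      exact Bool.false_ne_true (((hT p f2).2 ((le_max_right _ _).trans_lt f3)).symm.trans f1)
  rcases mul_pos_iff.1 h1 with h | h
  · exact key v1 v2 h.1 h.2 s k1 k2 fun p hp => ⟨(g1 p hp).1, (g2 p hp).1⟩
  · exact key (-v1) (-v2) (by simpa using h.1) (by simpa using h.2) (by simpa using s)
      (by simpa using k1) (by simpa using k2) fun p hp => ⟨(g1 p hp).2, (g2 p hp).2⟩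

/-- Two close labels of the same type are separated by a third label on a long step. -/
theorem same_lat (R : ℝ) : ∃ W : ℝ, ∀ (ε : Bool) (u u' : Mx) (lo hi : ℝ) (σ : O → Bool),
    Dir ε u u' → E.Thr lo hi u u' σ → W ≤ |(ofLex u').1 - (ofLex u).1| →
    ∀ l r : Fin 3 × O, l.1 = r.1 → l ≠ r → |E.ξ r.2 - E.ξ l.2| ≤ R →
    ∃ (β : Fin 3 × O) (a1 a2 : O), β.1 ≠ l.1 ∧ E.bk a1 β = E.bk a1 l ∧ E.bk a2 β = E.bk a2 r ∧
      E.Cr u u' a1 ∧ E.Cr u u' a2 ∧ σ a1 ≠ σ a2 := by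
  have hδ : 0 < min (E.w 1) (E.w 2 - E.w 1) := lt_min E.w1 (sub_pos.2 E.w2)
  obtain ⟨K, hK, hR⟩ : ∃ K : ℝ, 0 < K ∧ R ≤ min (E.w 1) (E.w 2 - E.w 1) * K :=
    ⟨|R| / min (E.w 1) (E.w 2 - E.w 1) + 1, by positivity, by
      rw [mul_add, mul_div_cancel₀ _ hδ.ne']
      linarith [le_abs_self R]⟩
  refine ⟨8 * K + 2, fun ε u u' lo hi σ _ hT hW l r h1 h2 h3 => ?_⟩
  by_contra hn
  have hc : ∀ p, |E.ξ p - ((ofLex u).1 + (ofLex u').1) / 2| ≤ 4 * K → E.Cr u u' p := fun p h => by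
    rw [abs_le] at h
    exact (le_abs.1 hW).imp (fun e => cr_FsLat (by linarith) (by linarith))
      fun e => cr_FsLat (by linarith) (by linarith)
  generalize ((ofLex u).1 + (ofLex u').1) / 2 = X at hc
  have he : E.η (r.2 - l.2) ≠ 0 := (map_ne_zero_iff _ E.η_inj).2
    (sub_ne_zero.2 fun e => h2 (Prod.ext h1 e.symm))
  have hV : ∀ t, t ≠ E.ty l.1 → ∃ v, (E.w t - E.w (E.ty l.1)) * E.ξ v = E.ξ (r.2 - l.2) ∧
      (E.w' t - E.w' (E.ty l.1)) * E.η v = E.η (r.2 - l.2) ∧ E.η v ≠ 0 ∧ |E.ξ v| ≤ K ∧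
      ∀ p, |E.ξ p - X| ≤ 3 * K → σ (p + v) = σ p ∧ σ (p + -v) = σ p := fun t ht => by
    obtain ⟨k, rfl⟩ := E.ty.surjective t
    have hk : k ≠ l.1 := fun e => ht (congrArg _ e)
    obtain ⟨v, hv⟩ := E.unit k l.1 hk (r.2 - l.2)
    have e1 : (E.w (E.ty k) - E.w (E.ty l.1)) * E.ξ v = E.ξ (r.2 - l.2) := by
      rw [← hv, map_sub, E.ξμ, E.ξμ, sub_mul]
    have e2 : (E.w' (E.ty k) - E.w' (E.ty l.1)) * E.η v = E.η (r.2 - l.2) := by
      rw [← hv, map_sub, E.ημ, E.ημ, sub_mul]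
    have e3 : |E.ξ v| ≤ K := by
      have f1 : min (E.w 1) (E.w 2 - E.w 1) ≤ |E.w (E.ty k) - E.w (E.ty l.1)| :=
        le_abs.2 ((lt_or_gt_of_ne (E.w_FsLat.injective.ne ht)).symm.imp
          (fun h => E.sp_gap (x := l) (y := (k, 0)) h)
          fun h => by rw [neg_sub]; exact E.sp_gap (x := (k, 0)) (y := l) h)
      rw [← map_sub, ← e1, abs_mul] at h3
      exact le_of_mul_le_mul_left
        ((mul_le_mul_of_nonneg_right f1 (abs_nonneg _)).trans (h3.trans hR)) hδ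
    have e4 : ∀ p, E.Cr u u' p → E.Cr u u' (p + v) → σ (p + v) = σ p := fun p f1 f2 => by
      by_contra f3
      refine hn ⟨(k, l.2 + E.μ l.1 p - E.μ k p), p, p + v, hk, by simp [bk], ?_, f1, f2, Ne.symm f3⟩
      simp only [bk, map_add, ← h1, sub_eq_iff_eq_add.1 hv]
      abel
    refine ⟨v, e1, e2, fun e => he (by rw [← e2, e, mul_zero]), e3, fun p hp => ?_⟩
    rw [abs_le] at hp e3
    have f1 := hc p (abs_le.2 ⟨by linarith, by linarith⟩)
    refine ⟨e4 p f1 (hc _ ?_), (e4 _ (hc _ ?_) (by simpa using f1)).symm.trans (by simp)⟩ <;>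
      simp only [map_add, map_neg, abs_le] <;> exact ⟨by linarith, by linarith⟩
  have two := fun v1 v2 => E.two_FsLat σ v1 v2 X (2 * K) lo hi (by positivity)
    fun p hp => hT p (hc p (by linarith))
  have wk : ∀ {v p}, (∀ p, |E.ξ p - X| ≤ 3 * K → σ (p + v) = σ p ∧ σ (p + -v) = σ p) →
      |E.ξ p - X| ≤ 2 * K → σ (p + v) = σ p ∧ σ (p + -v) = σ p := fun h hp => h _ (by linarith)
  have := E.w1
  have := E.w2
  have := E.w'1
  have := E.w'2
  generalize E.ty l.1 = j at hV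
  fin_cases j <;> simp only [Fin.reduceFinMk] at hV
  · obtain ⟨a, a1, a2, a3, a4, a5⟩ := hV 1 (by decide)
    obtain ⟨b, b1, b2, b3, b4, b5⟩ := hV 2 (by decide)
    simp only [E.w0, E.w'0] at a1 a2 b1 b2
    refine two a (b + -a) ?_ ?_ (by linarith) ?_ (fun p => wk a5) fun p hp => ?_
    · rw [map_add, map_neg]
      exact sp1_FsLat (E.w' 2) (E.w' 1 - E.w' 2) (by linarith) (by linarith) (by linarith) a3
    · rw [map_add, map_neg]
      exact sp2_FsLat (E.w 2) (E.w 2 - E.w 1) (by linarith) (by linarith) (by linarith)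
    · rw [map_add, map_neg]
      exact (abs_add_le _ _).trans (by rw [abs_neg]; linarith)
    · rw [abs_le] at hp b4
      rw [neg_add, neg_neg, ← add_assoc, ← add_assoc, (a5 _ _).2, (a5 _ _).1]
      · exact b5 p (abs_le.2 ⟨by linarith, by linarith⟩)
      all_goals
        simp only [map_add, map_neg, abs_le]
        exact ⟨by linarith, by linarith⟩
  · obtain ⟨a, a1, a2, a3, a4, a5⟩ := hV 0 (by decide)
    obtain ⟨b, b1, b2, b3, b4, b5⟩ := hV 2 (by decide)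
    simp only [E.w0, E.w'0] at a1 a2
    exact two a b
      (sp1_FsLat (E.w' 1 - E.w' 2) (E.w' 1) (by linarith) (by linarith) (by linarith) a3)
      (sp2_FsLat (E.w 2 - E.w 1) (E.w 1) (by linarith) (by linarith) (by linarith))
      (by linarith) (by linarith) (fun p => wk a5) fun p => wk b5
  · obtain ⟨a, a1, a2, a3, a4, a5⟩ := hV 0 (by decide)
    obtain ⟨b, b1, b2, b3, b4, b5⟩ := hV 1 (by decide)
    simp only [E.w0, E.w'0] at a1 a2
    refine two (-a) b ?_ ?_ (by rw [map_neg, abs_neg]; linarith) (by linarith)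
      (fun p hp => by rw [neg_neg]; exact (wk a5 hp).symm) fun p => wk b5
    · rw [map_neg]
      exact sp1_FsLat (E.w' 1 - E.w' 2) (E.w' 2) (by linarith) (by linarith) (by linarith)
        (neg_ne_zero.2 a3)
    · rw [map_neg]
      exact sp2_FsLat (E.w 2 - E.w 1) (E.w 2) (by linarith) (by linarith) (by linarith)

/-- A status function which is additive about a point behind the step is the level of it. -/
theorem sg_lat (R B N : ℝ) : ∃ L0 : ℝ, ∀ (ε : Bool) (u u' : Mx) (y0 : ℝ) (σ : O → Bool) (a0 : O),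
    Dir ε u u' → E.Thr (y0 - B) (y0 + B) u u' σ → L0 ≤ |(ofLex u').1 - (ofLex u).1| →
    |E.ξ a0 - (ofLex u).1| ≤ R → Dir ε (toLex (E.ξ a0, ε)) u →
    (∀ a a', E.Cr u u' a → E.Cr u u' a' → E.Cr u u' (a + a' - a0) → σ a = σ a' →
      σ (a + a' - a0) = σ a) →
    ∀ a, E.Cr u u' a → |E.ξ a - (ofLex u).1| ≤ N → (σ a = true ↔ E.η a < E.η a0) := by
  obtain ⟨H, hH⟩ := E.densx 1 one_pos
  refine ⟨max (R + 2) ((⌈|2 * H + 4 * B| * (R + N)⌉₊ + 1) * (R + N) + 1),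
    fun ε u u' y0 σ a0 hd hT hL hR h0 hA a ha hN => ?_⟩
  have tf : ∀ t : ℝ, ¬toLex (t, true) ≤ toLex (t, false) := fun t =>
    not_le.2 ((side_FsLat _ t).2 le_rfl)
  have le : ∀ {v v' : Mx}, v ≤ v' → (ofLex v).1 ≤ (ofLex v').1 := fun h =>
    (Prod.Lex.le_iff.1 h).elim le_of_lt fun h => h.1.le
  have lt : ∀ {s t : ℝ}, toLex (s, true) ≤ toLex (t, false) → s < t := fun h =>
    (le h).lt_of_ne fun e => tf _ (by cases e; exact h)
  have key := fun (X : O →+ ℝ) T h1 h2 h3 h4 h5 h6 => full_FsLat X E.η H R B N T (y0 - E.η a0) _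
    (fun d => E.Cr u u' (a0 + d)) (fun d => σ (a0 + d)) h1 h2 h3 h4 (le_max_left _ _)
    (le_max_right _ _) h5 h6 (fun d hd => by
      have := hT _ hd
      rw [map_add] at this
      exact ⟨fun h => this.1 (by linarith), fun h => this.2 (by linarith)⟩)
    (fun d d' e1 e2 e3 e4 => by
      have e : a0 + (d + d') = a0 + d + (a0 + d') - a0 := by abel
      rw [e] at e3 ⊢
      exact hA _ _ e1 e2 e3 e4) (a - a0) (by simpa using ha)
  simp only [add_sub_cancel, map_sub, sub_neg] at key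
  rw [abs_le] at hR hN
  cases ε
  · have f1 := le (show u' ≤ u from hd)
    have f2 : (ofLex u).1 ≤ E.ξ a0 := le (show u ≤ _ from h0)
    rw [abs_sub_comm, abs_of_nonneg (sub_nonneg.2 f1)] at hL
    refine key (-E.ξ) (E.ξ a0 - (ofLex u).1) (by simpa using E.norm) (fun x y => ?_) (by linarith)
      (by linarith) (fun d hd' => ?_) (fun d e1 e2 => .inr (cr_FsLat ?_ ?_)) ?_
    · obtain ⟨b, e1, e2, e3⟩ := hH (-x - 1) y
      exact ⟨b, by simp; linarith, by simp; linarith, e3⟩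
    · obtain ⟨-, e2⟩ := hd'.resolve_left fun e => tf _ (e.2.trans (le_trans hd e.1))
      have e3 := lt (e2.trans h0)
      have e4 : E.ξ (a0 + d) ≤ _ := le e2
      simp only [map_add, AddMonoidHom.neg_apply] at *
      exact ⟨by linarith, by linarith⟩
    all_goals
      simp only [map_add, AddMonoidHom.neg_apply] at *
      linarith
  · have f1 := le (show u ≤ u' from hd)
    have f2 : E.ξ a0 ≤ (ofLex u).1 := le (show _ ≤ u from h0)
    rw [abs_of_nonneg (sub_nonneg.2 f1)] at hL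
    refine key E.ξ ((ofLex u).1 - E.ξ a0) E.norm hH (by linarith)
      (by linarith) (fun d hd' => ?_) (fun d e1 e2 => .inl (cr_FsLat ?_ ?_)) ?_
    · obtain ⟨e2, -⟩ := hd'.resolve_right fun e => tf _ (e.2.trans (le_trans hd e.1))
      have e3 := lt (le_trans h0 e2)
      have e4 : _ ≤ E.ξ (a0 + d) := le e2
      simp only [map_add] at *
      exact ⟨by linarith, by linarith⟩
    all_goals
      try rw [map_add]
      linarith

end Lat

end Pool.Agent.E5f
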