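import Pool.Agent.E5f.FsB5l
import Pool.Agent.E5f.FsB5u

set_option autoImplicit false

namespace Pool.Agent.E5f

open Classical Filter

theorem limF_fst {Q P : Type} {fv fh : Q → P → P → ℝ} {Φ : (Q → ℝ) × (Q → ℝ)}
    (h : Φ ∈ LimF fv fh) : Φ.1 ∈ LimF1 fv := fun T ε hε => by
  obtain ⟨x, y, t, h1, h2, h3⟩ := h T ε hε
  exact ⟨x, y, t, h1, h2, fun q hq => (h3 q hq).1⟩

theorem limF_swap {Q P : Type} {fv fh : Q → P → P → ℝ} {Φ : (Q → ℝ) × (Q → ℝ)}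
    (h : Φ ∈ LimF fv fh) : Φ.swap ∈ LimF fh fv := fun T ε hε => by
  obtain ⟨x, y, t, h1, h2, h3⟩ := h T ε hε
  exact ⟨x, y, t, h1, h2, fun q hq => (h3 q hq).symm⟩

theorem fside_of_sys {O : Type} [AddCommGroup O] {E : Lat O} {Q P : Type} [MulAction G8 Q]
    {dv dh : Q → Q → ℝ} {dg : G8 → ℤ} {P0 q0 : Q} {fv fh : Q → P → P → ℝ}
    (Y : FSys E dv dh (fun q => ∃ γ : G8, dg γ = 0 ∧ q = γ • P0) fv fh)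
    (hz : ∀ q, Thick (fun x y => fv q x y + fh q x y) → ∀ Φ ∈ LimF fv fh, Φ.1 q = 0 → Φ.2 q = 0 →
      Φ.1 q0 + Φ.2 q0 = 0) :
    FSide dv dh dg P0 (fun F z => ∃ Φ ∈ LimF fv fh, F = Φ.1 ∧ z = Φ.1 q0 + Φ.2 q0) where
  zero := by
    rintro F z ⟨Φ, hΦ, rfl, rfl⟩ p q h
    exact Y.lim_zero (limF_fst hΦ) h
  cvx := by
    rintro F z ⟨Φ, hΦ, rfl, rfl⟩ p q r h
    exact Y.lim_cvx (limF_fst hΦ) h
  b1 := by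
    rintro F z ⟨Φ, hΦ, rfl, rfl⟩ p p' h h' hd
    obtain ⟨q, h1, h2, h3⟩ := Y.lim_b1 hΦ h h' hd
    exact hz q h1 Φ hΦ h2 h3
  b5l := by
    rintro F z ⟨Φ, hΦ, rfl, rfl⟩ σ c h1 h2 h3 R
    exact Y.lim_b5l (limF_fst hΦ) σ c h1 h2 h3 R
  b5u := by
    intro B
    obtain ⟨R, hR⟩ := Y.lim_b5u B
    refine ⟨R, fun N => ?_⟩
    obtain ⟨L, η, h1, h2, h3⟩ := hR N
    refine ⟨L, η, h1, h2, ?_⟩
    rintro F z ⟨Φ, hΦ, rfl, rfl⟩ p0 p1 p2 p3 s a1 a2 a3 a4 a5 a6 a7 a8 a9 a10 a11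
    obtain ⟨c, ⟨γ, hγ, rfl⟩, b1, b2⟩ :=
      h3 _ (limF_fst hΦ) p0 p1 p2 p3 s a1 a2 a3 a4 a5 a6 a7 a8 a9 a10 a11
    exact ⟨γ, hγ, b1, b2⟩

end Pool.Agent.E5f
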