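import Pool.Agent.E5f.LsTouchG

set_option autoImplicit false
set_option linter.unusedSectionVars false

namespace Pool.Agent.E5f

open Classical

namespace Wall

theorem arith {θ δ w1 w2 G n : ℝ} (hθ : θ * (6 * w2) = δ) (h0 : 0 < δ) (h1 : δ ≤ w1)
    (h2 : w1 ≤ w2) (hG : δ * (n - 1) - 4 * w2 ≤ G) :
    (0 ≤ G → θ * δ * n - θ * (δ + 4 * w2) ≤ G) ∧
    (2 * w1 ≤ G → θ * δ * n + θ * (δ + 4 * w2) ≤ G) ∧ (2 * δ ≤ G → θ * δ * n ≤ G) := by
  have p2 : 0 < w2 := by linarith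
  have t0 : 0 < θ := by
    by_contra h
    nlinarith [mul_nonneg (neg_nonneg.2 (not_lt.1 h)) p2.le]
  have t1 : θ ≤ 1 / 6 := by
    by_contra h
    nlinarith [mul_pos (sub_pos.2 (not_le.1 h)) p2]
  have q := mul_le_mul_of_nonneg_left hG t0.le
  have t2 : 0 ≤ 1 - θ := by linarith
  have b1 : θ * δ ≤ θ * w2 := mul_le_mul_of_nonneg_left (h1.trans h2) t0.le
  have b2 : θ * w1 ≤ θ * w2 := mul_le_mul_of_nonneg_left h2 t0.le
  refine ⟨fun h => ?_, fun h => ?_, fun h => ?_⟩ <;>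
    have := mul_le_mul_of_nonneg_left h t2 <;> nlinarith

theorem ite_eq {P Q : Prop} {i : Decidable P} {j : Decidable Q}
    (h : (@ite ℝ P i 1 (-1)) = @ite ℝ Q j 1 (-1)) : P ↔ Q := by
  split_ifs at h with g1 g2 g2 <;> first | tauto | linarith

theorem ite_ne {P Q : Prop} {i : Decidable P} {j : Decidable Q}
    (h : (@ite ℝ P i 1 (-1)) = -@ite ℝ Q j 1 (-1)) : ¬ (P ↔ Q) := by
  split_ifs at h with g1 g2 g2 <;> first | tauto | linarith

variable {L κ B : Type} [LinearOrder κ]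

/-- The run misses a label of its full block. -/
def Pm (S : Set L) (ty : L → Fin 3) (bk : L → B) (r : List L) : Prop :=
  ∃ x ∈ r, Full S ty bk x ∧ ∃ y ∈ S, bk y = bk x ∧ y ∉ r

/-- Clean syllables: monotone in the direction of the neighbours and not mixed. -/
def Cln (S : Set L) (k : L → κ) (ty : L → Fin 3) (bk : L → B) (e1 e2 : ℝ)
    (x : B × List L × List L) : Prop :=
  ∃ d, e1 = sgb d ∧ e2 = -sgb d ∧ Mono k d x.2.1 ∧ ¬ Pm S ty bk x.2.1

variable {S : Set L} {kk : Bool → L → κ} {ty : L → Fin 3} {bk : L → B} (hB : Blk kk ty bk)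
  {w : Fin 3 → ℝ} (w0 : w 0 = 0) (w1 : 0 < w 1) (w2 : w 1 < w 2)
include hB w0 w1 w2

theorem crude (sd sd' : Bool) {x : B × List L × List L} (hx : Syl S bk x) (hr : Rd x.2.1)
    {e1 e2 : ℝ} (h1 : |e1| ≤ 1) (h2 : |e2| ≤ 1) :
    min (w 1) (w 2 - w 1) * (x.2.1.length - 1) - 4 * w 2 ≤
      loc (kk sd) (fun l => sgb sd * w (ty l)) e1 e2 x.2.1 +
        loc (kk sd') (fun l => sgb sd' * w (ty l)) e1 e2 x.2.2 := by
  linarith [loc_crude hB w0 w1 w2 sd hx.1.1 (fun a ha => (hx.1.2 a ha).1) h1 h2,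
    loc_crude hB w0 w1 w2 sd' hx.2.1 (fun a ha => (hx.2.2 a ha).1) h1 h2,
    var_len hB w0 w1 w2 hr (fun a ha => (hx.1.2 a ha).1),
    var_nonneg_W (x.2.2.map (fun l => w (ty l)))]

theorem loc_main {θ : ℝ} (hθ : θ * (6 * w 2) = min (w 1) (w 2 - w 1)) {n : ℕ} (hn : 2 ≤ n)
    (σ sd : Bool) {sd' : Bool} (hsd : sd' = if Even n then sd else !sd)
    {τ : W L C2 →* W L C2} (hf : ∀ o ∈ S, ∀ a ∈ S, ∀ b ∈ S, bk a = bk o → bk b = bk o →
      ty o = 0 → ty a = 1 → ty b = 2 → ∀ g, Sup {o, a, b} g → τ g = TT o a b n σ g)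
    {x : B × List L × List L} (hx : Syl S bk x) {h : W L C2} (h1 : h ≠ 1) (q1 : x.2.1 = lab h)
    (q2 : x.2.2 = lab (τ h)) {e1 e2 : ℝ} (he1 : e1 = 1 ∨ e1 = -1) (he2 : e2 = 1 ∨ e2 = -1)
    (hF : e1 = e2 → ∃ y ∈ x.2.1, Full S ty bk y) :
    0 ≤ loc (kk sd) (fun l => sgb sd * w (ty l)) e1 e2 x.2.1 +
        loc (kk sd') (fun l => sgb sd' * w (ty l)) e1 e2 x.2.2 -
      θ * (min (w 1) (w 2 - w 1) + 4 * w 2) / 2 * sgb sd * (e1 + e2) -
      θ * min (w 1) (w 2 - w 1) *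
        (if Cln S (kk sd) ty bk e1 e2 x then 0 else (x.2.1.length : ℝ)) := by
  have r1 : Rd x.2.1 := q1 ▸ lab_chain h
  have r2 : Rd x.2.2 := q2 ▸ lab_chain (τ h)
  have cr := crude hB w0 w1 w2 sd sd' hx r1 (e1 := e1) (e2 := e2)
    (by rcases he1 with rfl | rfl <;> simp) (by rcases he2 with rfl | rfl <;> simp)
  obtain ⟨a1, a2, a3⟩ := arith hθ (lt_min w1 (sub_pos.2 w2)) (min_le_left _ _) w2.le cr
  have full : ∀ y ∈ x.2.1, Full S ty bk y → ∃ o a b, bk a = bk o ∧ bk b = bk o ∧ ty o = 0 ∧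
      ty a = 1 ∧ ty b = 2 ∧ bk o = x.1 ∧ Sup {o, a, b} h ∧ x.2.2 = lab (TT o a b n σ h) := by
    intro y hy hY
    obtain ⟨o, ho, bo, t0⟩ := hY 0
    obtain ⟨a, ha, ba, t1⟩ := hY 1
    obtain ⟨b, hb, bb, t2⟩ := hY 2
    have qa := ba.trans bo.symm
    have qb := bb.trans bo.symm
    have q0 := bo.trans (hx.1.2 y hy).1
    have hh : Sup {o, a, b} h := fun z hz =>
      blk_mem hB qa qb t0 t1 t2 ((hx.1.2 z (q1 ▸ hz)).1.trans q0.symm)
    exact ⟨o, a, b, qa, qb, t0, t1, t2, q0, hh, by rw [q2, hf o ho a ha b hb qa qb t0 t1 t2 h hh]⟩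
  by_cases hee : e1 = e2
  · subst hee
    obtain ⟨y, hy, hY⟩ := hF rfl
    obtain ⟨o, a, b, qa, qb, t0, t1, t2, -, hh, q3⟩ := full y hy hY
    have := loc_ll hB w0 w1 w2 qa qb t0 t1 t2 hn σ sd hsd hh h1 he1
    rw [← q1, ← q3] at this
    rw [if_neg (by
      rintro ⟨d, d1, d2, -⟩
      rcases sgb_cases d with h | h <;> rw [h] at d1 d2 <;> linarith)]
    have b1 := a1 this.1
    by_cases hg : sgb sd * e1 = 1
    · have b2 := a2 (this.2 hg)
      have e : θ * (min (w 1) (w 2 - w 1) + 4 * w 2) / 2 * sgb sd * (e1 + e1) =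
          θ * (min (w 1) (w 2 - w 1) + 4 * w 2) * (sgb sd * e1) := by ring
      rw [e, hg]
      linarith
    · have hg' : sgb sd * e1 = -1 := by
        rcases sgb_cases sd with h | h <;> rcases he1 with rfl | rfl <;> rw [h] at hg ⊢ <;>
          first | linarith | exact absurd (by norm_num) hg
      have e : θ * (min (w 1) (w 2 - w 1) + 4 * w 2) / 2 * sgb sd * (e1 + e1) =
          θ * (min (w 1) (w 2 - w 1) + 4 * w 2) * (sgb sd * e1) := by ring
      rw [e, hg']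
      linarith
  · obtain ⟨d, rfl, rfl⟩ : ∃ d, e1 = sgb d ∧ e2 = -sgb d := by
      rcases he1 with rfl | rfl <;> rcases he2 with rfl | rfl
      · exact absurd rfl hee
      · exact ⟨true, by simp [sgb], by simp [sgb]⟩
      · exact ⟨false, by simp [sgb], by simp [sgb]⟩
      · exact absurd rfl hee
    have l1 := loc_lr hB w0 w1 w2 sd d hx.1.1 (fun a ha => (hx.1.2 a ha).1)
    have l2 := loc_lr hB w0 w1 w2 sd' d hx.2.1 (fun a ha => (hx.2.2 a ha).1)
    rw [add_neg_cancel, mul_zero, sub_zero]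
    split_ifs with hc
    · linarith [l1.1, l2.1]
    · refine sub_nonneg.2 (a3 ?_)
      by_cases hm : Mono (kk sd) d x.2.1
      · obtain ⟨y, hy, hY, z, -, bz, hz⟩ : Pm S ty bk x.2.1 := by
          by_contra h3
          exact hc ⟨d, rfl, rfl, hm, h3⟩
        obtain ⟨o, a, b, qa, qb, t0, t1, t2, q0, hh, q3⟩ := full y hy hY
        have := MX (fun e => by rw [e, t1] at t0; exact absurd t0 (by decide))
          (fun e => by rw [e, t2] at t0; exact absurd t0 (by decide))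
          (fun e => by rw [e, t2] at t1; exact absurd t1 (by decide)) hn σ hh h1
          (q1 ▸ mono_nodup hm)
          (blk_mem hB qa qb t0 t1 t2 (bz.trans ((hx.1.2 y hy).1.trans q0.symm))) (q1 ▸ hz)
        rw [← q3] at this
        linarith [l1.1, l2.2 r2 (fun h3 => this (mono_nodup h3))]
      · linarith [l1.2 r1 hm, l2.1]

theorem core {θ : ℝ} (hθ : θ * (6 * w 2) = min (w 1) (w 2 - w 1)) {n : ℕ} {sd σ sd' : Bool}
    {p p' : List L} (hn : 2 ≤ n) (hT : Tou S kk ty n sd σ p sd' p') (hp : Pth S p)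
    (hF : ∀ x, TurnAt (kk sd) p x → Full S ty bk x) :
    θ * min (w 1) (w 2 - w 1) * turns (kk sd) p - 4 * (min (w 1) (w 2 - w 1) + 4 * w 2) ≤
      lin (kk sd) (fun l => sgb sd * w (ty l)) p + lin (kk sd') (fun l => sgb sd' * w (ty l)) p' ∧
    θ * min (w 1) (w 2 - w 1) * cntM bk (Pm S ty bk) p - 4 * (min (w 1) (w 2 - w 1) + 4 * w 2) ≤
      lin (kk sd) (fun l => sgb sd * w (ty l)) p + lin (kk sd') (fun l => sgb sd' * w (ty l)) p' := by
  have d0 : 0 < min (w 1) (w 2 - w 1) := lt_min w1 (sub_pos.2 w2)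
  have d1 : min (w 1) (w 2 - w 1) ≤ w 2 := (min_le_left _ _).trans w2.le
  have p2 : 0 < w 2 := w1.trans w2
  have t0 : 0 < θ := by
    by_contra h
    nlinarith [mul_nonneg (neg_nonneg.2 (not_lt.1 h)) p2.le]
  have t1 : θ ≤ 1 := by
    by_contra h
    nlinarith [mul_pos (sub_pos.2 (not_le.1 h)) p2]
  obtain ⟨c, hc, rfl, hsd, hf⟩ := tou_chain hB hT
  obtain ⟨l, t, rfl⟩ := List.exists_cons_of_ne_nil hp.ne
  rcases List.eq_nil_or_concat t with rfl | ⟨t, m, rfl⟩
  · rw [act_one, cntM_one]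
    simp only [turns, lin, Nat.cast_zero]
    constructor <;> linarith
  rw [List.concat_eq_append] at *
  have hl : l ∈ S := hp.sub l (by simp)
  have hm : m ∈ S := hp.sub m (by simp)
  have hlab : lab (evlLink t) = t := lab_evl_link (rd_init_link (rd_tail_link hp.rd))
  have e1 : wsq l (evlLink t) m = l :: (t ++ [m]) := by rw [wsq, hlab]
  have e2 : cpl (l, 1) (m, evlLink t) = l :: (t ++ [m]) := by
    rw [cpl, inv_one, one_mul, hlab, List.cons_append]
    exact List.destutter_of_isChain _ _ hp.rd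
  have hb : ∀ β, ∀ e ∈ c, e.2 ∈ bk ⁻¹' {β} → e.1 ∈ bk ⁻¹' {β} :=
    fun β e he h => (hc e he).2.2.2.trans h
  have hbS : ∀ β, ∀ e ∈ c, e.2 ∈ bk ⁻¹' {β} ∩ S → e.1 ∈ bk ⁻¹' {β} ∩ S :=
    fun β e he h => ⟨hb β e he h.1, (hc e he).1⟩
  obtain ⟨a1, a2, s1, s2, e3⟩ := act_cpl (fun e he => (hc e he).2.2.1) (hbS (bk l)) (hbS (bk m))
    ⟨rfl, hl⟩ ⟨rfl, hm⟩ 1 (evlLink t)
  rw [e2, map_one, one_mul] at e3
  obtain ⟨D, hD, f1, f2, hS, hch, hI⟩ := exists_syl S bk (actH c)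
    (actH_inj (fun e he => (hc e he).2.2.1))
    (fun l x => actH_sup (hb _) (E5f.sup_lt (S := bk ⁻¹' {bk l}) (l := l) rfl x))
    (fun l hl x => actH_sup (fun e he _ => (hc e he).1) (E5f.sup_lt hl x)) hl hm
    (g := evlLink t) (a1 := a1⁻¹) (a2 := a2)
    (fun a ha => hp.sub a (by rw [hlab] at ha; simp [ha]))
    (sup_inv (fun a ha => (s1 a ha).1)) (sup_inv (fun a ha => (s1 a ha).2))
    (fun a ha => (s2 a ha).1) (fun a ha => (s2 a ha).2)
  rw [e1] at f1
  have : Nonempty L := ⟨l⟩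
  let κb : B × List L × List L → κ := fun x => kk true (Function.invFun bk x.1)
  have ord : ∀ (s : Bool) (x y : B × List L × List L) (a b : L), x.1 ≠ y.1 → bk a = x.1 →
      bk b = y.1 → (kk s a < kk s b ↔ κb x < κb y) := fun s x y a b h ha hb =>
    hB.out s true _ _ _ _ (ha.trans (Function.invFun_eq ⟨a, ha⟩).symm)
      (hb.trans (Function.invFun_eq ⟨b, hb⟩).symm) (by rw [ha, hb]; exact h)
  have hE := wLin_flatten (kk sd) (fun l => sgb sd * w (ty l)) κb (fun x => x.2.1) D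
    (fun x hx => (hS x hx).1.1) (List.IsChain.imp_of_mem_imp (fun x y hx hy hxy a ha b hb =>
      ord sd x y a b hxy ((hS x hx).1.2 a ha).1 ((hS y hy).1.2 b hb).1) hch) 0
  have hE' := wLin_flatten (kk sd') (fun l => sgb sd' * w (ty l)) κb (fun x => x.2.2) D
    (fun x hx => (hS x hx).2.1) (List.IsChain.imp_of_mem_imp (fun x y hx hy hxy a ha b hb =>
      ord sd' x y a b hxy ((hS x hx).2.2 a ha).1 ((hS y hy).2.2 b hb).1) hch) 0
  rw [zero_mul, zero_add] at hE hE'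
  rw [e3, lin_cpl, ← mul_assoc, f2, hE', ← wLin_eq, f1, hE, sumE_add]
  have rd : ∀ x ∈ D, Rd x.2.1 := fun x hx => (pth_inf hp
    (f1 ▸ List.infix_of_mem_flatten (List.mem_map.2 ⟨x, hx, rfl⟩)) (hS x hx).1.1).rd
  have mem : ∀ D1 x y z D2, D = D1 ++ x :: y :: z :: D2 → Syl S bk x ∧ Syl S bk y ∧ Syl S bk z :=
    fun D1 x y z D2 e => ⟨hS x (by simp [e]), hS y (by simp [e]), hS z (by simp [e])⟩
  have main := sumE_ctx κb (fun e1 e2 x => (loc (kk sd) (fun l => sgb sd * w (ty l)) e1 e2 x.2.1 +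
        loc (kk sd') (fun l => sgb sd' * w (ty l)) e1 e2 x.2.2) -
      θ * (min (w 1) (w 2 - w 1) + 4 * w 2) / 2 * sgb sd * (e1 + e2) -
      θ * min (w 1) (w 2 - w 1) *
        (if Cln S (kk sd) ty bk e1 e2 x then 0 else (x.2.1.length : ℝ)))
    (c := 2 * (min (w 1) (w 2 - w 1) + 4 * w 2)) (by positivity) D (by
      intro z hz e he
      have ae : |e| ≤ 1 := by rcases he with rfl | rfl | rfl <;> simp
      have c1 := crude hB w0 w1 w2 sd sd' (hS z hz) (rd z hz) ae (e2 := 0) (by simp)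
      have c2 := crude hB w0 w1 w2 sd sd' (hS z hz) (rd z hz) (e1 := 0) (by simp) ae
      have u : ∀ P : Prop, θ * min (w 1) (w 2 - w 1) * (if P then 0 else (z.2.1.length : ℝ)) ≤
          min (w 1) (w 2 - w 1) * z.2.1.length := fun P => by
        have : 0 ≤ min (w 1) (w 2 - w 1) * z.2.1.length := by positivity
        split_ifs <;> nlinarith
      have v : θ * (min (w 1) (w 2 - w 1) + 4 * w 2) / 2 * sgb sd * e ≤
          min (w 1) (w 2 - w 1) + 4 * w 2 := by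
        have h1 : sgb sd * e ≤ 1 := by
          have := abs_le.1 ae
          rcases sgb_cases sd with h | h <;> rw [h] <;> linarith [this.1, this.2]
        have h2 : 0 ≤ θ * (min (w 1) (w 2 - w 1) + 4 * w 2) / 2 := by positivity
        have h3 := mul_le_mul_of_nonneg_left h1 h2
        have h4 := mul_le_mul_of_nonneg_right t1
          (show 0 ≤ min (w 1) (w 2 - w 1) + 4 * w 2 by positivity)
        linarith
      simp only [add_zero, zero_add]
      constructor <;> linarith [u (Cln S (kk sd) ty bk e 0 z), u (Cln S (kk sd) ty bk 0 e z)])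
    (by
      intro D1 x y z D2 e
      obtain ⟨h, h1, q1, q2⟩ := hI D1 x y z D2 e
      obtain ⟨sx, sy, sz⟩ := mem D1 x y z D2 e
      obtain ⟨n1, n2⟩ := chain3 hch e
      refine loc_main hB w0 w1 w2 hθ hn σ sd hsd hf sy h1 q1 q2 (sgx_cases _ _ _)
        (by rcases sgx_cases κb y z with h | h <;> simp [h]) (fun hee => ?_)
      obtain ⟨s, l', hs⟩ : ∃ s l, y.2.1 = s ++ [l] :=
        ⟨_, _, (List.dropLast_append_getLast sy.1.1).symm⟩
      obtain ⟨A, a, ha⟩ : ∃ s l, x.2.1 = s ++ [l] :=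
        ⟨_, _, (List.dropLast_append_getLast sx.1.1).symm⟩
      obtain ⟨b, t', hb⟩ := List.exists_cons_of_ne_nil sz.1.1
      obtain ⟨v, hv, A', B', a', c', e', h'⟩ := ex_turn (k := kk sd) s a l' b
        (t' ++ (D2.map (fun x => x.2.1)).flatten) (by
          rw [ord sd x y a _ n1 (sx.1.2 a (by simp [ha])).1
            (sy.1.2 _ (by rw [hs]; exact List.head_mem _)).1,
            ord sd y z l' b n2 (sy.1.2 l' (by simp [hs])).1 (sz.1.2 b (by simp [hb])).1]
          exact ite_ne hee)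
      refine ⟨v, hs ▸ hv, hF v ⟨(D1.map (fun x => x.2.1)).flatten ++ A ++ A', B', a', c', ?_, h'⟩⟩
      rw [f1, e, List.append_assoc _ A', ← e']
      simp [ha, hs, hb])
  obtain ⟨x0, D0, hx0⟩ := List.exists_cons_of_ne_nil hD
  rw [sumE_lin κb _ (fun e1 e2 _ => e1 + e2), hx0, sumE_tel, ← hx0] at main
  have hC : ∀ e x, ¬ Cln S (kk sd) ty bk e 0 x := by
    rintro e x ⟨d, -, h, -⟩
    rcases sgb_cases d with h1 | h1 <;> rw [h1] at h <;> linarith
  have hC' : ∀ e x, ¬ Cln S (kk sd) ty bk 0 e x := by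
    rintro e x ⟨d, h, -⟩
    rcases sgb_cases d with h1 | h1 <;> rw [h1] at h <;> linarith
  have k1 := cnt_le κb (N := turns (kk sd)) turns_cons (fun _ => rfl) (fun x => x.2.1)
    (Cln S (kk sd) ty bk) hC hC' D hD (fun x hx => (hS x hx).1.1) (by
      rintro D1 x y z D2 e ⟨d, g1, g2, hm, -⟩ a ha b hb s l' t' hs
      obtain ⟨sx, sy, sz⟩ := mem D1 x y z D2 e
      obtain ⟨n1, n2⟩ := chain3 hch e
      have sg : ∀ x y, sgx κb x y = sgb d → (κb x < κb y ↔ d = true) := fun x y h => ite_eq h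
      refine (turns_mn (d := d = true) (a :: s) l' b t' ?_).le
      have : a :: s ++ [l', b] = [a] ++ (y.2.1 ++ [b]) := by simp [hs]
      rw [this, List.isChain_append, List.isChain_append]
      refine ⟨by simp, ⟨mono_mn hm, by simp, fun u hu v hv => ?_⟩, fun u hu v hv => ?_⟩
      · obtain rfl : b = v := by simpa using hv
        rw [ord sd y z u b n2 (sy.1.2 u (List.mem_of_mem_getLast? hu)).1 (sz.1.2 b hb).1]
        exact sg y z (neg_injective g2)
      · obtain rfl : a = u := by simpa using hu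
        rw [List.head?_append_of_ne_nil _ sy.1.1] at hv
        rw [ord sd x y a v n1 (sx.1.2 a ha).1 (sy.1.2 v (List.mem_of_mem_head? hv)).1]
        exact sg x y g1)
  have k2 := cnt_le κb (N := cntM bk (Pm S ty bk)) cntM_cons cntM_one (fun x => x.2.1)
    (Cln S (kk sd) ty bk) hC hC' D hD (fun x hx => (hS x hx).1.1) (by
      rintro D1 x y z D2 e ⟨d, -, -, -, hm⟩ a - b hb s l' t' hs
      obtain ⟨-, sy, sz⟩ := mem D1 x y z D2 e
      refine cntM_clean (β := y.1) a s l' b t' (fun v hv => (sy.1.2 v (hs ▸ hv)).1) ?_ (hs ▸ hm)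
      rw [(sz.1.2 b hb).1]
      exact (chain3 hch e).2.symm)
  have cp : 0 ≤ θ * min (w 1) (w 2 - w 1) := by positivity
  constructor
  · linarith [mul_le_mul_of_nonneg_left k1 cp]
  · linarith [mul_le_mul_of_nonneg_left k2 cp]

end Wall

variable {L κ : Type} [LinearOrder κ]

/-- The gain at an essential touch. -/
theorem touchE (w : Fin 3 → ℝ) (w0 : w 0 = 0) (w1 : 0 < w 1) (w2 : w 1 < w 2) :
    ∃ c C : ℝ, 0 < c ∧ 0 ≤ C ∧ ∀ (L κ B : Type) [LinearOrder κ] (S : Set L) (kk : Bool → L → κ)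
      (ty : L → Fin 3) (bk : L → B), Blk kk ty bk → ∀ (n : ℕ) (sd σ sd' : Bool) (p p' : List L),
      2 ≤ n → Tou S kk ty n sd σ p sd' p' → Pth S p →
      (∀ x, TurnAt (kk sd) p x → Full S ty bk x) → (∀ x, TurnAt (kk sd') p' x → Full S ty bk x) →
      c * turns (kk sd) p - C ≤ asl kk (fun x => w (ty x)) sd p + asl kk (fun x => w (ty x)) sd' p' ∧
      ∀ D, Dec D p → c * (D.countP (fun q => decide (Mixed S (kk sd) ty bk q)) : ℝ) - C ≤
        asl kk (fun x => w (ty x)) sd p + asl kk (fun x => w (ty x)) sd' p' := by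
  have d0 : 0 < min (w 1) (w 2 - w 1) := lt_min w1 (sub_pos.2 w2)
  have p2 : 0 < w 2 := w1.trans w2
  refine ⟨min (w 1) (w 2 - w 1) / (6 * w 2) * min (w 1) (w 2 - w 1),
    4 * (min (w 1) (w 2 - w 1) + 4 * w 2), by positivity, by positivity, ?_⟩
  intro L κ B _ S kk ty bk hB n sd σ sd' p p' hn hT hp hF _
  obtain ⟨h1, h2⟩ := Wall.core hB w0 w1 w2 (θ := min (w 1) (w 2 - w 1) / (6 * w 2))
    (by field_simp) hn hT hp hF
  have e : ∀ (s : Bool) (q : List L), asl kk (fun x => w (ty x)) s q =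
      lin (kk s) (fun l => Wall.sgb s * w (ty l)) q := fun s q => by
    have := Wall.wLin_lin (kk s) (fun x => w (ty x)) (fun x => w (ty x)) (Wall.sgb s) 0 q
    simp only [zero_mul, add_zero, Wall.wLin_eq] at this
    rw [this]
    rfl
  rw [e, e]
  refine ⟨h1, fun D hD => le_trans ?_ h2⟩
  have := Wall.count_le_cntM (bk := bk) (P := Wall.Pm S ty bk) (M := Mixed S (kk sd) ty bk) (by
    rintro q ⟨-, x, y, hx, hy, bxy, xq, yq, g1, g2⟩
    obtain ⟨A, a, r, b, t, rfl, xr, g3, g4, g5⟩ := Wall.ex_run xq g1 g2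
    exact ⟨A, a, r, b, t, bk x, rfl, List.ne_nil_of_mem xr, g3, g4, g5, x, xr, hx, y, hy, bxy,
      fun h => yq (by simp [h])⟩) hD
  have h3 : (D.countP (fun q => decide (Mixed S (kk sd) ty bk q)) : ℝ) ≤
      Wall.cntM bk (Wall.Pm S ty bk) p := by exact_mod_cast this
  have h4 : 0 ≤ min (w 1) (w 2 - w 1) / (6 * w 2) * min (w 1) (w 2 - w 1) := by positivity
  linarith [mul_le_mul_of_nonneg_left h3 h4]

end Pool.Agent.E5f
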