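import Pool.Agent.E5f.FsBase
import Pool.Agent.E5f.LsTouch

set_option autoImplicit false

namespace Pool.Agent.E5f

open Classical Filter

theorem lin_mul_FsStep {L κ : Type} [LinearOrder κ] (k : L → κ) (ρ : L → ℝ) (t : ℝ) (p : List L) :
    lin k (fun x => t * ρ x) p = t * lin k ρ p := by
  have h := lin_add k ρ ρ (t - 1) p
  rw [show (fun x => ρ x + (t - 1) * ρ x) = fun x => t * ρ x from funext fun x => by ring] at h
  rw [h]
  ring

theorem dir_FsStep {ε : Bool} {u u' : Mx} (h : Dir ε u u') :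
    |(ofLex u').1 - (ofLex u).1| * (if ε = true then 1 else -1) = (ofLex u').1 - (ofLex u).1 := by
  cases ε
  · have h1 : (ofLex u').1 ≤ (ofLex u).1 := Prod.Lex.monotone_fst_ofLex (by simpa [Dir] using h)
    rw [abs_of_nonpos (sub_nonpos.2 h1)]
    simp
  · have h1 : (ofLex u).1 ≤ (ofLex u').1 := Prod.Lex.monotone_fst_ofLex (by simpa [Dir] using h)
    rw [abs_of_nonneg (sub_nonneg.2 h1)]
    simp

namespace FSys
variable {O : Type} [AddCommGroup O] {E : Lat O} {Q P : Type} {dv dh : Q → Q → ℝ}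
  {Cu : Q → Prop} {fv fh : Q → P → P → ℝ} (Y : FSys E dv dh Cu fv fh)

theorem sl_not (S : Finset (Fin 3 × O)) (x y : P) (q : Q) (ε : Bool) :
    Y.sl S x y q (!ε) = - Y.sl S x y q ε := by
  cases ε <;> simp [sl]

/-- The slope is bounded by the number of turns. -/
theorem sl_le (q : Q) (ε : Bool) (x y : P) :
    ∀ᶠ S in atTop, |Y.sl S x y q ε| ≤ E.w 2 * (Y.tu S x y q + 1) := by
  filter_upwards [Y.pth q x y] with S hS
  have h := lin_le_turns (E.key_inj (Y.ux q)) (E.w1.trans E.w2).le E.sp_mem hS.rd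
  cases ε <;> simpa [sl, tu] using h

theorem fv_FsStep (q : Q) (x y : P) : ∀ᶠ S in atTop,
    fv q x y = lin (E.key (Y.ux q)) (E.pos (Y.toStp.px q)) (Y.path q S x y) := by
  filter_upwards [Y.pth q x y, Y.ev q x y] with S hS h
  exact h.trans (lin_eq_var (E.key_inj _) hS.rd fun a _ b _ hab => E.key_pos _ hab).symm

theorem step_ev {q r : Q} {σ : O → Bool} {ε : Bool} (h : Y.St q r σ)
    (hd : Dir ε (Y.ux q) (Y.ux r)) (x y : P) : ∀ᶠ S in atTop, ∃ c, Y.CH S x y q r σ c ∧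
      0 ≤ gains (E.key (Y.ux q)) c (Y.path q S x y) ∧
      min (E.w 1) (E.w 2 - E.w 1) * gains (E.key (Y.ux q)) c (Y.path q S x y) ≤
        Y.sl S x y r ε - Y.sl S x y q ε ∧
      |Y.toStp.px r - Y.toStp.px q| * Y.sl S x y q ε ≤ fv r x y - fv q x y ∧
      fv r x y - fv q x y ≤ |Y.toStp.px r - Y.toStp.px q| * Y.sl S x y r ε := by
  filter_upwards [Y.pth q x y, Y.chain q r σ h x y, Y.fv_FsStep q x y, Y.fv_FsStep r x y]
    with S hS hc hq hr
  obtain ⟨c, h1, h2, h3⟩ := hc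
  have hΔ : |Y.toStp.px r - Y.toStp.px q| * (if ε = true then 1 else -1) =
      Y.toStp.px r - Y.toStp.px q := dir_FsStep hd
  have hp : ∀ k : Fin 3 × O → ℝ ×ₗ ℝ, ∀ p, lin k (E.pos (Y.toStp.px r)) p =
      lin k (E.pos (Y.toStp.px q)) p + (Y.toStp.px r - Y.toStp.px q) * lin k E.sp p := fun k p => by
    rw [← lin_add]
    congr 1
    funext ν
    simp only [Lat.pos]
    ring
  refine ⟨c, ⟨h1, h2, h3, hS⟩, gains_nonneg h1 hS, ?_, ?_, ?_⟩
  · have := fch_lin h1 hS (ρ := fun ν => (if ε = true then 1 else -1) * E.sp ν)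
      (δ := min (E.w 1) (E.w 2 - E.w 1)) fun a _ b _ h0 h1 => by
        obtain ⟨-, -, -, h4⟩ := (E.inv_iff hd a b).1 ⟨h0, h1⟩
        cases ε
        · have := E.sp_gap (by simpa using h4 : E.sp a < E.sp b)
          simp only [Bool.false_eq_true, if_false]
          linarith
        · have := E.sp_gap (by simpa using h4 : E.sp b < E.sp a)
          simp only [if_true]
          linarith
    rw [lin_mul_FsStep, lin_mul_FsStep, ← h3] at this
    unfold sl
    linarith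
  · have := fch_lin h1 hS (ρ := E.pos (Y.toStp.px r)) (δ := 0) fun a _ b _ _ h1 =>
      sub_nonneg.2 (E.key_pos _ h1)
    rw [← h3, ← hr, hp, ← hq] at this
    rw [sl, ← mul_assoc, hΔ]
    linarith
  · have := fch_lin h1 hS (ρ := fun ν => - E.pos (Y.toStp.px q) ν) (δ := 0) fun a _ b _ h0 _ => by
      have := E.key_pos _ h0
      unfold Stp.px
      linarith
    rw [lin_neg, lin_neg, ← h3, ← hq] at this
    rw [sl, ← mul_assoc, hΔ, hr, hp]
    linarith

theorem ux_FsStep {a : O} {q : Q} (h : Y.toStp.px q = E.ξ a) :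
    Y.ux q = toLex (E.ξ a, Y.toStp.sx q) := by
  rw [← h]
  rfl

theorem mic_FsStep (a : O) (x y : P) (n : ℕ) : ∀ (σ : Bool) (q q' : Q), Y.toStp.Mic a n σ q q' →
    fv q' x y = fv q x y ∧ ∀ᶠ S : Finset (Fin 3 × O) in atTop,
      Tou (S : Set (Fin 3 × O)) (fun s => E.key (toLex (E.ξ a, s))) E.tyl n (Y.toStp.sx q) σ
        (Y.path q S x y) (Y.toStp.sx q') (Y.path q' S x y) := by
  induction n with
  | zero =>
    rintro σ q q' rfl
    exact ⟨rfl, Eventually.of_forall fun S => ⟨rfl, rfl⟩⟩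
  | succ n ih =>
    rintro σ q q' ⟨q1, h1, h2, h3, h4⟩
    obtain ⟨i1, i2⟩ := ih _ _ _ h4
    have e1 : Y.toStp.px q1 = E.ξ a := by rw [Stp.px, h2]; rfl
    have e2 : Y.toStp.sx q1 = !Y.toStp.sx q := by rw [Stp.sx, h2]; rfl
    obtain ⟨ε, hd⟩ : ∃ ε, Dir ε (Y.ux q) (Y.ux q1) :=
      (le_total (Y.ux q) (Y.ux q1)).elim (fun h => ⟨true, by simpa [Dir] using h⟩)
        fun h => ⟨false, by simpa [Dir] using h⟩
    have hs := Y.step_ev h3 hd x y
    constructor
    · obtain ⟨S, c, -, -, -, h5, h6⟩ := hs.exists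
      rw [e1, h1, sub_self, abs_zero, zero_mul] at h5 h6
      linarith
    · filter_upwards [hs, i2] with S hS i2
      obtain ⟨c, hc, -⟩ := hS
      have hf := hc.fch
      rw [e2] at i2
      refine ⟨_, ⟨c, by rwa [Y.ux_FsStep h1, h2] at hf, fun e he => ?_, hc.eq⟩, i2⟩
      obtain ⟨-, -, m1, m2⟩ := fch_mem hf he
      obtain ⟨a', ha⟩ := E.col_ex (x := e.1) (y := e.2) fun m3 => by
        rw [E.key_same _ (Y.ux q1) m3] at m2
        exact m1 (E.key_inj _ (le_antisymm (not_lt.1 fun m => m.not_gt (m2.2 m))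
          (not_lt.1 fun m => m.not_gt (m2.1 m))))
      exact hc.stat e he a' ha

theorem full_FsStep (a : O) (q : Q) (x y : P) : ∀ᶠ S : Finset (Fin 3 × O) in atTop,
    ∀ ν, TurnAt (E.key (Y.ux q)) (Y.path q S x y) ν →
      Full (S : Set (Fin 3 × O)) E.tyl (E.bk a) ν := by
  obtain ⟨T, _, hT⟩ := Y.box q x y
  have h : ∀ᶠ S : Finset (Fin 3 × O) in atTop, ∀ ν ∈ T, ∀ i,
      (E.ty.symm i, E.bk a ν - E.μ (E.ty.symm i) a) ∈ S :=
    (eventually_all_finset T).2 fun ν _ => eventually_all.2 fun i =>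
      (eventually_ge_atTop _).mono fun S hS => Finset.singleton_subset_iff.1 hS
  filter_upwards [hT, h] with S h1 h2 ν hν i
  exact ⟨_, h2 ν (h1.1 ν (.inr (.inr hν))) i, sub_add_cancel _ _, E.ty.apply_symm_apply i⟩

theorem touch_ev : ∃ c C : ℝ, 0 < c ∧ 0 ≤ C ∧ ∀ (a : O) (z z' : Q), Y.toStp.Tch a z z' →
    ∀ x y : P, fv z' x y = fv z x y ∧ ∀ᶠ S in atTop,
      c * Y.tu S x y z - C ≤ Y.tg S x y z z' ∧
      ∀ D, Dec D (Y.path z S x y) → c * (D.countP (fun q => decide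
        (Mixed (S : Set (Fin 3 × O)) (E.key (Y.ux z)) E.tyl (E.bk a) q)) : ℝ) - C ≤
          Y.tg S x y z z' := by
  obtain ⟨c, C, hc, hC, H⟩ := touchE E.w E.w0 E.w1 E.w2
  refine ⟨c, C, hc, hC, fun a z z' h x y => ?_⟩
  obtain ⟨h1, h2, -⟩ := Y.toBSys.tch_px h
  obtain ⟨n, σ, hn, hm⟩ := h
  obtain ⟨i1, i2⟩ := Y.mic_FsStep a x y n σ z z' hm
  refine ⟨i1, ?_⟩
  filter_upwards [i2, Y.pth z x y, Y.full_FsStep a z x y, Y.full_FsStep a z' x y]
    with S i2 hp f1 f2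
  rw [Y.ux_FsStep h1] at f1
  rw [Y.ux_FsStep h2] at f2
  have := H _ _ _ _ _ _ _ (E.blk a) n _ σ _ _ _ hn i2 hp f1 f2
  rw [tg, sl_not, sub_neg_eq_add, add_comm, tu, sl, sl, Y.ux_FsStep h1, Y.ux_FsStep h2]
  exact this

theorem route_ev : ∃ c C : ℝ, 0 < c ∧ 0 ≤ C ∧ ∀ (lo hi : ℝ) (p r : Q) (ε ε' : Bool) (l : ℝ)
    (n : ℕ), Y.toStp.Rt lo hi p ε r ε' l n → ∀ x y : P, ∀ᶠ S in atTop,
      Y.sl S x y p ε - n * C ≤ Y.sl S x y r ε' ∧
      l * (Y.sl S x y p ε - n * C) ≤ fv r x y - fv p x y ∧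
      fv r x y - fv p x y ≤ l * (Y.sl S x y r ε' + n * C) ∧
      (0 < n → c * Y.tu S x y p - n * C ≤ Y.sl S x y r ε' - Y.sl S x y p ε) := by
  obtain ⟨c, C, hc, hC, H⟩ := Y.touch_ev
  have hδ : 0 < min (E.w 1) (E.w 2 - E.w 1) := lt_min E.w1 (sub_pos.2 E.w2)
  refine ⟨min c (min (E.w 1) (E.w 2 - E.w 1) / 3), C, lt_min hc (by positivity), hC,
    fun lo hi p r ε ε' l n h x y => ?_⟩
  induction h with
  | one q r ε σ h =>
    filter_upwards [Y.step_ev h.st h.dir x y] with S hS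
    obtain ⟨c', -, h1, h2, h3, h4⟩ := hS
    have := mul_nonneg hδ.le h1
    simp only [Nat.cast_zero, zero_mul, sub_zero, add_zero, lt_irrefl, false_imp_iff, and_true]
    exact ⟨by linarith, h3, h4⟩
  | cons q b b' r ε ε' σ a l n h hs ht hr ih =>
    have hl := Y.toBSys.rt_nonneg hr
    obtain ⟨e1, e2⟩ := H a b b' ht x y
    filter_upwards [Y.step_ev h.st h.dir x y, e2, ih] with S hS e2 ih
    obtain ⟨c', hc', h1, h2, h3, h4⟩ := hS
    obtain ⟨i1, i2, i3, -⟩ := ih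
    have e3 := e2.1
    rw [tg, hs, Bool.not_not] at e3
    have t0 : 0 ≤ Y.tu S x y b := Nat.cast_nonneg _
    have t1 := fch_turns hc'.fch hc'.pth
    rw [← hc'.eq] at t1
    change Y.tu S x y q - _ ≤ Y.tu S x y b at t1
    have t2 := mul_nonneg hδ.le h1
    have t3 := mul_nonneg hc.le t0
    have t4 : 0 ≤ (n : ℝ) * C := mul_nonneg (Nat.cast_nonneg n) hC
    have hA := abs_nonneg (Y.toStp.px b - Y.toStp.px q)
    rw [e1] at i2 i3
    push_cast
    refine ⟨by linarith, ?_, ?_, fun _ => ?_⟩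
    · have u1 := mul_le_mul_of_nonneg_left (show Y.sl S x y q ε - (n + 1) * C ≤
        Y.sl S x y b' (Y.toStp.sx b') - n * C by linarith) hl
      have u2 := mul_le_mul_of_nonneg_left (show Y.sl S x y q ε - (n + 1) * C ≤
        Y.sl S x y q ε by linarith) hA
      linarith
    · have u1 := mul_le_mul_of_nonneg_left (show Y.sl S x y r ε' + n * C ≤
        Y.sl S x y r ε' + (n + 1) * C by linarith) hl
      have u2 := mul_le_mul_of_nonneg_left (show Y.sl S x y b ε ≤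
        Y.sl S x y r ε' + (n + 1) * C by linarith) hA
      linarith
    · have u1 := mul_le_mul_of_nonneg_left t1
        (le_min hc.le (by positivity) : 0 ≤ min c (min (E.w 1) (E.w 2 - E.w 1) / 3))
      have u2 := mul_le_mul_of_nonneg_right (min_le_left c (min (E.w 1) (E.w 2 - E.w 1) / 3)) t0
      have u3 := mul_le_mul_of_nonneg_right (min_le_right c (min (E.w 1) (E.w 2 - E.w 1) / 3)) h1
      linarith

end FSys

end Pool.Agent.E5f
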