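import Mathlib

/-!
Coarse geometry: pseudo-metrics given as functions, Gromov products, hyperbolicity,
roughly geodesic spaces, the total graph of a family of metrics over a graph, word length.
-/

set_option autoImplicit false

namespace Pool.Agent.E5f

/-- Gromov product of `x` and `y` at `w`. -/
noncomputable def gp {X : Type} (d : X → X → ℝ) (w x y : X) : ℝ := (d x w + d y w - d x y) / 2

/-- Pseudo-metric. -/
structure PM {X : Type} (d : X → X → ℝ) : Prop where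
  self : ∀ x, d x x = 0
  symm : ∀ x y, d x y = d y x
  tri : ∀ x y z, d x z ≤ d x y + d y z

/-- Gromov hyperbolicity. -/
def Hyp {X : Type} (d : X → X → ℝ) (δ : ℝ) : Prop :=
  ∀ w x y z, min (gp d w x y) (gp d w y z) - δ ≤ gp d w x z

/-- Roughly geodesic. -/
def RG {X : Type} (d : X → X → ℝ) (κ : ℝ) : Prop :=
  ∀ x y (s : ℝ), 0 ≤ s → s ≤ d x y → ∃ z, |d x z - s| ≤ κ ∧ |d z y - (d x y - s)| ≤ κ

/-- The path metric of a graph, as a real number. -/
noncomputable def gd {V : Type} (G : SimpleGraph V) (x y : V) : ℝ := (G.dist x y : ℝ)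

/-- `γ 0, ..., γ n` is a geodesic segment of the graph. -/
def GSeg {V : Type} (G : SimpleGraph V) (γ : ℕ → V) (n : ℕ) : Prop :=
  ∀ i j : ℕ, i ≤ n → j ≤ n → gd G (γ i) (γ j) = |(i : ℝ) - (j : ℝ)|

/-- The total graph of a family of metrics `D b` on `P` over the graph `G`. -/
def totG {P B : Type} (G : SimpleGraph B) (D : B → P → P → ℝ) (r : ℝ) : SimpleGraph (P × B) where
  Adj X Y := X ≠ Y ∧ ((X.2 = Y.2 ∧ D X.2 X.1 Y.1 ≤ r ∧ D X.2 Y.1 X.1 ≤ r) ∨
    (X.1 = Y.1 ∧ G.Adj X.2 Y.2))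
  symm := ⟨by
    rintro X Y ⟨h, h1 | h1⟩
    · exact ⟨h.symm, Or.inl ⟨h1.1.symm, h1.1 ▸ h1.2.2, h1.1 ▸ h1.2.1⟩⟩
    · exact ⟨h.symm, Or.inr ⟨h1.1.symm, h1.2.symm⟩⟩⟩
  loopless := ⟨fun X h => h.1 rfl⟩

/-- Flaring of the family `D` along geodesics of `G`. -/
def Flares {P B : Type} (G : SimpleGraph B) (D : B → P → P → ℝ) (n : ℕ) (M : ℝ) : Prop :=
  ∀ γ : ℕ → B, GSeg G γ (2 * n) → ∀ x y : P, M ≤ D (γ n) x y →
    2 * D (γ n) x y ≤ max (D (γ 0) x y) (D (γ (2 * n)) x y)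

/-- Hypotheses of the combination theorem. -/
structure CombHyp {P B : Type} (G : SimpleGraph B) (D : B → P → P → ℝ)
    (δ κ K : ℝ) (n : ℕ) (M : ℝ) : Prop where
  ne : Nonempty P
  conn : G.Connected
  hypB : Hyp (gd G) δ
  pm : ∀ b, PM (D b)
  hyp : ∀ b, Hyp (D b) δ
  rg : ∀ b, RG (D b) κ
  κ0 : 0 ≤ κ
  K1 : 1 ≤ K
  lip : ∀ b b', G.Adj b b' → ∀ x y, D b' x y ≤ K * D b x y + K
  n1 : 1 ≤ n
  fl : Flares G D n M

/-- Conclusion of the combination theorem for the total graph with fibre edges of size `r`. -/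
structure CombOut {P B : Type} (G : SimpleGraph B) (D : B → P → P → ℝ) (r : ℝ) : Prop where
  conn : (totG G D r).Connected
  hyp : ∃ δ : ℝ, Hyp (gd (totG G D r)) δ
  fib_le : ∀ b x y, gd (totG G D r) (x, b) (y, b) ≤ D b x y + 1
  base_le : ∀ x b b', gd (totG G D r) (x, b) (x, b') ≤ gd G b b'
  le_base : ∀ X Y : P × B, gd G X.2 Y.2 ≤ gd (totG G D r) X Y
  fib_near : ∀ C : ℝ, ∃ C' : ℝ, ∀ X Y : P × B, gd (totG G D r) X Y ≤ C → D X.2 X.1 Y.1 ≤ C'
  out1 : ∀ C : ℝ, ∃ C' : ℝ, ∀ W X Y : P × B, gp (gd (totG G D r)) W X Y ≤ C →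
    gp (D W.2) W.1 X.1 Y.1 ≤ C'
  out2 : ∀ c : ℝ, ∃ C' : ℝ, ∀ (v : P) (X Y : P × B), (∀ b, gp (D b) v X.1 Y.1 ≤ c) →
    ∃ b, gp (gd (totG G D r)) (v, b) X Y ≤ C'

/-- The value of a word in the letters `s`. -/
def wev {G ι : Type} [Group G] (s : ι → G) (l : List (ι × Bool)) : G :=
  (l.map (fun e : ι × Bool => if e.2 = true then s e.1 else (s e.1)⁻¹)).prod

/-- Word length. -/
noncomputable def wl {G ι : Type} [Group G] (s : ι → G) (g : G) : ℕ :=
  sInf {m : ℕ | ∃ l : List (ι × Bool), l.length = m ∧ wev s l = g}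

/-- The letters generate. -/
def Gens {G ι : Type} [Group G] (s : ι → G) : Prop := ∀ g : G, ∃ l : List (ι × Bool), wev s l = g

/-- Cayley graph. -/
def cay {G ι : Type} [Group G] (s : ι → G) : SimpleGraph G where
  Adj g h := g ≠ h ∧ ∃ i, h = g * s i ∨ g = h * s i
  symm := ⟨by
    rintro g h ⟨h1, i, h2⟩
    exact ⟨h1.symm, i, h2.symm⟩⟩
  loopless := ⟨fun g h => h.1 rfl⟩

/-- The four-point condition for the word metric. -/
def FourPt {G ι : Type} [Group G] (s : ι → G) : Prop :=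
  ∃ δ : ℕ, ∀ x y z w : G, wl s (x⁻¹ * y) + wl s (z⁻¹ * w) ≤
    max (wl s (x⁻¹ * z) + wl s (y⁻¹ * w)) (wl s (x⁻¹ * w) + wl s (y⁻¹ * z)) + 2 * δ

/-- Quasi-isometric embedding of graphs. -/
def QIE {V W : Type} (G : SimpleGraph V) (G' : SimpleGraph W) (f : V → W) (K : ℝ) : Prop :=
  ∀ x y, gd G' (f x) (f y) ≤ K * gd G x y + K ∧ gd G x y ≤ K * gd G' (f x) (f y) + K

/-- The line graph on the integers. -/
def lineG : SimpleGraph ℤ where
  Adj i j := j = i + 1 ∨ i = j + 1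
  symm := ⟨fun _ _ h => h.symm⟩
  loopless := ⟨fun i h => by rcases h with h | h <;> omega⟩

/-- Simultaneous betweenness for two pseudo-metrics. -/
def Btw {X : Type} (dv dh : X → X → ℝ) (p r q : X) : Prop :=
  dv p r + dv r q = dv p q ∧ dh p r + dh r q = dh p q

/-- Two trees on the same set with common geodesics. -/
structure BiTree {X : Type} (dv dh : X → X → ℝ) : Prop where
  pv : PM dv
  ph : PM dh
  hv : Hyp dv 0
  hh : Hyp dh 0
  geo : ∀ (α β : ℝ) (p q : X) (s : ℝ), 0 ≤ α → 0 ≤ β → 0 ≤ s → s ≤ α * dv p q + β * dh p q →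
    ∃ r, Btw dv dh p r q ∧ α * dv p r + β * dh p r = s

/-- No rectangle with sides at least `A` and `B`. -/
def NoRect {X : Type} (dv dh : X → X → ℝ) (A B : ℝ) : Prop :=
  ∀ p00 p10 p01 p11 : X, dh p00 p10 = 0 → dh p01 p11 = 0 → dv p00 p01 = 0 → dv p10 p11 = 0 →
    A ≤ dv p00 p10 → B ≤ dh p00 p01 → False

end Pool.Agent.E5f
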