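import Pool.Agent.E5f.HypMorse

/-! Transfer of betweenness between quasi-isometric metrics; centres. -/

set_option autoImplicit false

namespace Pool.Agent.E5f

section
variable {X : Type} {d : X → X → ℝ} {δ κ : ℝ}

theorem nonneg_HypTrans (h : PM d) (x y : X) : 0 ≤ d x y := by
  have h1 := h.tri x y x
  have h2 := h.symm x y
  have h3 := h.self x
  linarith

theorem delta_HypTrans (h : PM d) (H : Hyp d δ) (x : X) : 0 ≤ δ := by
  have := H x x x x
  simp only [gp, h.self, min_self] at this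
  linarith

theorem kappa_HypTrans (h : PM d) (R : RG d κ) (x : X) : 0 ≤ κ := by
  obtain ⟨z, hz, _⟩ := R x x 0 le_rfl (h.self x).ge
  exact (abs_nonneg _).trans hz

theorem move_HypTrans (h : PM d) (s m x y : X) : gp d s x y ≤ gp d m x y + d s m := by
  have h1 := h.tri x m s
  have h2 := h.tri y m s
  have h3 := h.symm s m
  simp only [gp]
  linarith

theorem pair_HypTrans (h : PM d) (H : Hyp d δ) {x y z z' : X} {t t' : ℝ}
    (a1 : |d x z - t| ≤ κ) (a2 : |d z y - (d x y - t)| ≤ κ)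
    (b1 : |d x z' - t'| ≤ κ) (b2 : |d z' y - (d x y - t')| ≤ κ) :
    d z z' ≤ |t - t'| + (4 * κ + 2 * δ) ∧ |t - t'| ≤ d z z' + 2 * κ := by
  rw [abs_le] at a1 a2 b1 b2
  have h1 := H x z y z'
  have h2 := h.symm x z
  have h3 := h.symm x z'
  have h4 := h.symm x y
  have h5 := h.symm y z'
  have h6 := h.tri x z z'
  have h7 := h.tri x z' z
  have h8 := h.symm z z'
  have h9 := le_abs_self (t - t')
  have h10 := neg_abs_le (t - t')
  simp only [gp, sub_le_iff_le_add, min_le_iff] at h1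
  refine ⟨?_, abs_le.2 ⟨by linarith [a1.1, b1.2], by linarith [a1.2, b1.1]⟩⟩
  rcases h1 with h1 | h1 <;> linarith [a1.1, a1.2, a2.1, a2.2, b1.1, b1.2, b2.1, b2.2]

/-- A unit spaced rough geodesic. -/
theorem chain_HypTrans (h : PM d) (H : Hyp d δ) (R : RG d κ) (x y : X) :
    ∃ (z : ℕ → X) (n : ℕ), z 0 = x ∧ z n = y ∧ ∀ i j : ℕ, i ≤ n → j ≤ n →
      d (z i) (z j) ≤ |(i : ℝ) - j| + (4 * κ + 2 * δ + 2) ∧
        |(i : ℝ) - j| ≤ d (z i) (z j) + (4 * κ + 2 * δ + 2) := by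
  have hκ := kappa_HypTrans h R x
  have hδ := delta_HypTrans h H x
  have hL := nonneg_HypTrans h x y
  have hc := Nat.le_ceil (d x y)
  have hc' := Nat.ceil_lt_add_one hL
  have ex : ∀ i : ℕ, ∃ z, (i = 0 → z = x) ∧ (i = ⌈d x y⌉₊ + 1 → z = y) ∧
      |d x z - min (i : ℝ) (d x y)| ≤ κ ∧ |d z y - (d x y - min (i : ℝ) (d x y))| ≤ κ := by
    intro i
    by_cases h0 : i = 0
    · subst h0
      refine ⟨x, fun _ => rfl, fun e => by omega, ?_, ?_⟩ <;> simp [h.self, hL, hκ]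
    by_cases h1 : i = ⌈d x y⌉₊ + 1
    · have e : min (i : ℝ) (d x y) = d x y := min_eq_right (by rw [h1]; push_cast; linarith)
      refine ⟨y, fun e => absurd e h0, fun _ => rfl, ?_, ?_⟩ <;> simp [e, h.self, hκ]
    · obtain ⟨z, hz⟩ := R x y (min (i : ℝ) (d x y)) (le_min (Nat.cast_nonneg i) hL)
        (min_le_right _ _)
      exact ⟨z, fun e => absurd e h0, fun e => absurd e h1, hz⟩
  choose z z0 zn z1 z2 using ex
  refine ⟨z, ⌈d x y⌉₊ + 1, z0 0 rfl, zn _ rfl, fun i j hi hj => ?_⟩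
  obtain ⟨p1, p2⟩ := pair_HypTrans h H (z1 i) (z2 i) (z1 j) (z2 j)
  have hi' : (i : ℝ) ≤ ⌈d x y⌉₊ + 1 := by exact_mod_cast hi
  have hj' : (j : ℝ) ≤ ⌈d x y⌉₊ + 1 := by exact_mod_cast hj
  have q1 : |min (i : ℝ) (d x y) - min (j : ℝ) (d x y)| ≤ |(i : ℝ) - j| := by
    simpa using abs_min_sub_min_le_max (i : ℝ) (d x y) (j : ℝ) (d x y)
  have q2 : |(i : ℝ) - j| ≤ |min (i : ℝ) (d x y) - min (j : ℝ) (d x y)| + 2 := by
    have a1 := le_abs_self (min (i : ℝ) (d x y) - min (j : ℝ) (d x y))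
    have a2 := neg_abs_le (min (i : ℝ) (d x y) - min (j : ℝ) (d x y))
    have a3 := min_le_left (i : ℝ) (d x y)
    have a4 := min_le_left (j : ℝ) (d x y)
    have a5 : (i : ℝ) - 2 ≤ min (i : ℝ) (d x y) := le_min (by linarith) (by linarith)
    have a6 : (j : ℝ) - 2 ≤ min (j : ℝ) (d x y) := le_min (by linarith) (by linarith)
    exact abs_le.2 ⟨by linarith, by linarith⟩
  exact ⟨by linarith, by linarith⟩

end

theorem trans_btw (δ κ K c : ℝ) : ∃ c' : ℝ, ∀ {X : Type} (d d' : X → X → ℝ), PM d → Hyp d δ →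
    RG d κ → PM d' → Hyp d' δ → RG d' κ → (∀ x y, d' x y ≤ K * d x y + K) →
    (∀ x y, d x y ≤ K * d' x y + K) → ∀ s x y, gp d s x y ≤ c → gp d' s x y ≤ c' := by
  obtain ⟨Cb, hb⟩ := morse_b δ κ (4 * κ + 2 * δ + 2 + 1) c
  obtain ⟨Ca, ha⟩ := morse_a δ κ (K * (4 * κ + 2 * δ + 2) + K + (4 * κ + 2 * δ + 2))
  refine ⟨Ca + (K * Cb + K), fun d d' h H R h' H' R' l1 l2 s x y hs => ?_⟩
  have hκ := kappa_HypTrans h R x
  have hδ := delta_HypTrans h H x
  have hK : 0 ≤ K := by simpa [h.self, h'.self] using l1 x x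
  obtain ⟨z, n, rfl, rfl, hz⟩ := chain_HypTrans h H R x y
  generalize hA : 4 * κ + 2 * δ + 2 = A at *
  have hA0 : 0 ≤ A := by linarith
  have hKA := mul_nonneg hK hA0
  obtain ⟨j, hj, hd⟩ := hb d h H R z n (fun i j hi hj => by
    obtain ⟨p1, p2⟩ := hz i j hi hj
    have a1 := mul_nonneg hA0 (abs_nonneg ((i : ℝ) - j))
    have a2 := mul_nonneg hA0 (nonneg_HypTrans h (z i) (z j))
    exact ⟨by linarith, by linarith⟩) s hs
  have hg := ha d' h' H' R' z n (fun i j hi hj => by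
    obtain ⟨p1, p2⟩ := hz i j hi hj
    have a1 := mul_nonneg (add_nonneg hKA hA0) (abs_nonneg ((i : ℝ) - j))
    have a2 := mul_nonneg (add_nonneg hKA hA0) (nonneg_HypTrans h' (z i) (z j))
    have a3 := l1 (z i) (z j)
    have a4 := l2 (z i) (z j)
    have a5 := mul_le_mul_of_nonneg_left p1 hK
    exact ⟨by linarith, by linarith⟩) 0 j n (Nat.zero_le _) hj le_rfl
  have a1 := move_HypTrans h' s (z j) (z 0) (z n)
  have a2 := l1 s (z j)
  have a3 := mul_le_mul_of_nonneg_left hd hK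
  linarith

theorem trans_gp (δ κ K : ℝ) (hK : 0 ≤ K) : ∃ C : ℝ, ∀ {X : Type} (d d' : X → X → ℝ), PM d →
    Hyp d δ → RG d κ → PM d' → Hyp d' δ → RG d' κ → (∀ x y, d' x y ≤ K * d x y + K) →
    (∀ x y, d x y ≤ K * d' x y + K) → ∀ s x y, gp d' s x y ≤ K * gp d s x y + C := by
  obtain ⟨C, hC⟩ := near_pt δ κ
  obtain ⟨c', hc⟩ := trans_btw δ κ K κ
  refine ⟨c' + (K * C + K), fun d d' h H R h' H' R' l1 l2 s x y => ?_⟩
  obtain ⟨m, m1, m2⟩ := hC d h H R x y s
  have a0 := hc d d' h H R h' H' R' l1 l2 m x y m1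
  have a1 := move_HypTrans h' s m x y
  have a2 := l1 s m
  have a3 := mul_le_mul_of_nonneg_left m2 hK
  linarith

theorem centre_ex (δ κ : ℝ) : ∃ c : ℝ, ∀ {X : Type} (d : X → X → ℝ), PM d → Hyp d δ → RG d κ →
    ∀ x y z, ∃ m, gp d m x y ≤ c ∧ gp d m y z ≤ c ∧ gp d m x z ≤ c := by
  refine ⟨2 * κ + δ, fun d h H R x y z => ?_⟩
  have hκ := kappa_HypTrans h R x
  have hδ := delta_HypTrans h H x
  have s1 := h.symm x y
  have s2 := h.symm x z
  have s3 := h.symm y z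
  have t1 := h.tri y x z
  have t2 := h.tri z y x
  obtain ⟨m, m1, m2⟩ := R x y (gp d x y z) (by simp only [gp]; linarith)
    (by simp only [gp]; linarith)
  have h1 := H x m y z
  have h2 := H y m x z
  have s4 := h.symm x m
  have s5 := h.symm y m
  have s6 := h.symm z m
  rw [abs_le] at m1 m2
  obtain ⟨m1, m1'⟩ := m1
  obtain ⟨m2, m2'⟩ := m2
  simp only [gp, sub_le_iff_le_add, min_le_iff] at h1 h2
  simp only [gp] at m1 m1' m2 m2' ⊢
  refine ⟨m, by linarith, ?_, ?_⟩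
  · rcases h2 with h2 | h2 <;> linarith
  · rcases h1 with h1 | h1 <;> linarith

theorem centre_uniq (δ c : ℝ) : ∃ C : ℝ, ∀ {X : Type} (d : X → X → ℝ), PM d → Hyp d δ →
    ∀ x y z m m', gp d m x y ≤ c → gp d m y z ≤ c → gp d m x z ≤ c →
      gp d m' x y ≤ c → gp d m' y z ≤ c → gp d m' x z ≤ c → d m m' ≤ C := by
  refine ⟨2 * c + 2 * δ, fun d h H x y z m m' a1 a2 a3 b1 b2 b3 => ?_⟩
  have key : ∀ p q u v, gp d p u v ≤ c → gp d p u q ≤ c + δ ∨ gp d p v q ≤ c + δ := by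
    intro p q u v e
    have h1 := H p u q v
    have s1 := h.symm q v
    rw [sub_le_iff_le_add, min_le_iff] at h1
    simp only [gp] at h1 e ⊢
    rcases h1 with h1 | h1
    · exact Or.inl (by linarith)
    · exact Or.inr (by linarith)
  have fin : ∀ w, gp d m w m' ≤ c + δ → gp d m' w m ≤ c + δ → d m m' ≤ 2 * c + 2 * δ := by
    intro w e1 e2
    have s1 := h.symm m m'
    simp only [gp] at e1 e2
    linarith
  have c1 := key m m' x y a1
  have c2 := key m m' y z a2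
  have c3 := key m m' x z a3
  have e1 := key m' m x y b1
  have e2 := key m' m y z b2
  have e3 := key m' m x z b3
  have f1 := fin x
  have f2 := fin y
  have f3 := fin z
  tauto

end Pool.Agent.E5f
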