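import Pool.Agent.E5f.LsDefs

set_option autoImplicit false

namespace Pool.Agent.E5f

open Classical

variable {L κ : Type} [LinearOrder κ]

theorem lin_congr {k k' : L → κ} (ρ : L → ℝ) {p : List L}
    (h : ∀ x ∈ p, ∀ y ∈ p, (k x < k y ↔ k' x < k' y)) : lin k ρ p = lin k' ρ p := by
  induction p with
  | nil => rfl
  | cons a l ih =>
    rcases l with _ | ⟨b, l⟩
    · rfl
    · rw [lin, lin, ih fun x hx y hy => h x (List.mem_cons_of_mem _ hx) y (List.mem_cons_of_mem _ hy)]
      simp only [h a (by simp) b (by simp)]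

theorem turns_congr {k k' : L → κ} {p : List L}
    (h : ∀ x ∈ p, ∀ y ∈ p, (k x < k y ↔ k' x < k' y)) : turns k p = turns k' p := by
  induction p with
  | nil => rfl
  | cons a l ih =>
    rcases l with _ | ⟨b, _ | ⟨c, l⟩⟩
    · rfl
    · rfl
    · rw [turns, turns,
        ih fun x hx y hy => h x (List.mem_cons_of_mem _ hx) y (List.mem_cons_of_mem _ hy)]
      simp only [h a (by simp) b (by simp), h b (by simp) c (by simp)]

theorem mono_congr {k k' : L → κ} {p : List L} (d : Bool)
    (h : ∀ x ∈ p, ∀ y ∈ p, (k x < k y ↔ k' x < k' y)) : Mono k d p ↔ Mono k' d p := by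
  induction p with
  | nil => simp [Mono]
  | cons a l ih =>
    rcases l with _ | ⟨b, l⟩
    · simp [Mono]
    · have := ih fun x hx y hy => h x (List.mem_cons_of_mem _ hx) y (List.mem_cons_of_mem _ hy)
      unfold Mono at this ⊢
      rw [List.isChain_cons_cons, List.isChain_cons_cons, this, h a (by simp) b (by simp),
        h b (by simp) a (by simp)]

theorem lin_add (k : L → κ) (ρ ρ' : L → ℝ) (t : ℝ) (p : List L) :
    lin k (fun x => ρ x + t * ρ' x) p = lin k ρ p + t * lin k ρ' p := by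
  induction p with
  | nil => simp [lin]
  | cons a l ih =>
    rcases l with _ | ⟨b, l⟩
    · simp [lin]
    · rw [lin, lin, lin, ih]
      split_ifs <;> ring

theorem lin_neg (k : L → κ) (ρ : L → ℝ) (p : List L) :
    lin k (fun x => - ρ x) p = - lin k ρ p := by
  induction p with
  | nil => simp [lin]
  | cons a l ih =>
    rcases l with _ | ⟨b, l⟩
    · simp [lin]
    · rw [lin, lin, ih]
      split_ifs <;> ring

theorem var_nonneg (l : List ℝ) : 0 ≤ Var l := by
  induction l with
  | nil => exact le_rfl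
  | cons a l ih =>
    rcases l with _ | ⟨b, l⟩
    · exact le_rfl
    · exact add_nonneg (abs_nonneg _) ih

theorem var_cons_LsBasic (ρ : L → ℝ) (a b : L) (l : List L) :
    Var ((a :: b :: l).map ρ) = |ρ b - ρ a| + Var ((b :: l).map ρ) := rfl

theorem lin_eq_var {k : L → κ} (hk : Function.Injective k) {ρ : L → ℝ} {p : List L} (hp : Rd p)
    (h : ∀ x ∈ p, ∀ y ∈ p, k x < k y → ρ x ≤ ρ y) : lin k ρ p = Var (p.map ρ) := by
  induction p with
  | nil => rfl
  | cons a l ih =>
    rcases l with _ | ⟨b, l⟩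
    · rfl
    · obtain ⟨h1, h2⟩ := List.isChain_cons_cons.1 hp
      rw [lin, var_cons_LsBasic,
        ih h2 fun x hx y hy => h x (List.mem_cons_of_mem _ hx) y (List.mem_cons_of_mem _ hy)]
      split_ifs with h3
      · rw [abs_of_nonneg (sub_nonneg.2 (h a (by simp) b (by simp) h3))]
      · rw [abs_sub_comm, abs_of_nonneg (sub_nonneg.2 (h b (by simp) a (by simp)
          (lt_of_le_of_ne (not_lt.1 h3) (hk.ne h1.symm))))]

theorem lin_aux_LsBasic (k : L → κ) {m : L → ℝ} {M : ℝ} (hm : ∀ x, 0 ≤ m x ∧ m x ≤ M)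
    (l : List L) : ∀ a b, ∃ y, 0 ≤ y ∧ y ≤ M ∧
      |lin k m (a :: b :: l) - (if k a < k b then y - m a else m a - y)| ≤
        M * turns k (a :: b :: l) := by
  induction l with
  | nil => exact fun a b => ⟨m b, (hm b).1, (hm b).2, by simp [lin, turns]⟩
  | cons c l ih =>
    intro a b
    obtain ⟨y, h1, h2, h3⟩ := ih b c
    have h4 := hm b
    rw [lin, turns]
    rw [abs_le] at h3
    by_cases h : k a < k b ↔ k b < k c
    · refine ⟨y, h1, h2, ?_⟩
      rw [if_pos h, zero_add, abs_le]
      simp only [← h] at h3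
      split_ifs at h3 ⊢ <;> constructor <;> linarith [h3.1, h3.2]
    · refine ⟨m b, h4.1, h4.2, ?_⟩
      rw [if_neg h, add_sub_cancel_left, abs_le]
      push_cast
      split_ifs at h3 <;> constructor <;> linarith [h3.1, h3.2]

theorem lin_le_turns {k : L → κ} (hk : Function.Injective k) {m : L → ℝ} {M : ℝ} (hM : 0 ≤ M)
    (hm : ∀ x, 0 ≤ m x ∧ m x ≤ M) {p : List L} (hp : Rd p) :
    |lin k m p| ≤ M * (turns k p + 1) := by
  rcases p with _ | ⟨a, _ | ⟨b, l⟩⟩
  · simpa [lin, turns] using hM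
  · simpa [lin, turns] using hM
  · obtain ⟨y, h1, h2, h3⟩ := lin_aux_LsBasic k hm l a b
    have h4 := hm a
    rw [abs_le] at h3 ⊢
    split_ifs at h3 <;> constructor <;> linarith [h3.1, h3.2]

theorem mono_rd {k : L → κ} {d : Bool} {p : List L} (h : Mono k d p) : Rd p := by
  refine List.IsChain.imp (fun x y h e => ?_) h
  subst e
  simp at h

theorem mono_reverse {k : L → κ} {d : Bool} {p : List L} :
    Mono k d p.reverse ↔ Mono k (!d) p := by
  unfold Mono
  rw [List.isChain_reverse]
  cases d <;> simp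

theorem mono_nodup {k : L → κ} {d : Bool} {p : List L} (h : Mono k d p) : p.Nodup := by
  have h1 : (p.map k).Nodup := by
    cases d
    · have h2 : (p.map k).IsChain (· > ·) := by
        rw [List.isChain_map]
        simpa [Mono] using h
      exact h2.pairwise.imp ne_of_gt
    · have h2 : (p.map k).IsChain (· < ·) := by
        rw [List.isChain_map]
        simpa [Mono] using h
      exact h2.pairwise.imp ne_of_lt
  exact h1.of_map k

theorem extn_eq_LsBasic (ρ : L → ℝ) {q : List L} {x y : L} (hx : q.head? = some x)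
    (hy : q.getLast? = some y) : extn ρ q = |ρ y - ρ x| := by
  rw [extn, hx, hy]

theorem var_sgn_LsBasic {k : L → κ} {ρ : L → ℝ} {d : Bool} (l : List L) : ∀ a y,
    Mono k d (a :: l) → (∀ x ∈ a :: l, ∀ y ∈ a :: l, k x < k y → ρ x ≤ ρ y) →
    (a :: l).getLast? = some y →
    Var ((a :: l).map ρ) = if d = true then ρ y - ρ a else ρ a - ρ y := by
  induction l with
  | nil =>
    intro a y _ _ hy
    obtain rfl : a = y := by simpa using hy
    simp [Var]
  | cons b l ih =>
    intro a y hp h hy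
    obtain ⟨h1, h2⟩ := List.isChain_cons_cons.1 hp
    rw [var_cons_LsBasic, ih b y h2
      (fun x hx y hy => h x (List.mem_cons_of_mem _ hx) y (List.mem_cons_of_mem _ hy))
      (by simpa using hy)]
    split_ifs at h1 ⊢
    · rw [abs_of_nonneg (sub_nonneg.2 (h a (by simp) b (by simp) h1))]
      ring
    · rw [abs_sub_comm, abs_of_nonneg (sub_nonneg.2 (h b (by simp) a (by simp) h1))]
      ring

/-- For a monotone path the variation is the extent. -/
theorem var_mono {k : L → κ} {ρ : L → ℝ} {d : Bool} {p : List L} (hp : Mono k d p)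
    (h : ∀ x ∈ p, ∀ y ∈ p, k x < k y → ρ x ≤ ρ y) : Var (p.map ρ) = extn ρ p := by
  rcases p with _ | ⟨a, l⟩
  · rfl
  · have hy := List.getLast?_eq_some_getLast (List.cons_ne_nil a l)
    rw [extn_eq_LsBasic ρ List.head?_cons hy, ← abs_of_nonneg (var_nonneg _),
      var_sgn_LsBasic l a _ hp h hy]
    split_ifs
    · rfl
    · exact abs_sub_comm _ _

theorem endT_of_LsBasic {k : L → κ} (hk : Function.Injective k) {p : List L} (hp : Rd p) {y : L}
    (hy : y ∈ p) (h : (∀ x ∈ p, k y ≤ k x) ∨ ∀ x ∈ p, k x ≤ k y) : EndT k p y := by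
  obtain ⟨s, t, rfl⟩ := List.append_of_mem hy
  rcases List.eq_nil_or_concat s with rfl | ⟨A, a, rfl⟩
  · exact Or.inl rfl
  rcases t with _ | ⟨c, B⟩
  · exact Or.inr (Or.inl (by simp))
  have e : A.concat a ++ y :: c :: B = A ++ a :: y :: c :: B := by simp
  rw [e] at hp h ⊢
  obtain ⟨-, h1, h2⟩ := List.isChain_append_cons_cons.1 hp
  have h3 := hk.ne h1
  have h4 := hk.ne (List.isChain_cons_cons.1 h2).1
  refine Or.inr (Or.inr ⟨A, B, a, c, rfl, fun h5 => ?_⟩)
  rcases h with h | h
  · exact absurd (h5.2 (lt_of_le_of_ne (h c (by simp)) h4)) (not_lt.2 (h a (by simp)))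
  · exact absurd (h5.1 (lt_of_le_of_ne (h a (by simp)) h3)) (not_lt.2 (h c (by simp)))

/-- Every entry lies between two ends or turns. -/
theorem mem_between {k : L → κ} (hk : Function.Injective k) {p : List L} (hp : Rd p) {x : L}
    (hx : x ∈ p) : ∃ y z, EndT k p y ∧ EndT k p z ∧ k y ≤ k x ∧ k x ≤ k z := by
  obtain ⟨y, h1, h2⟩ := Set.exists_min_image _ k (List.finite_toSet p) ⟨x, hx⟩
  obtain ⟨z, h3, h4⟩ := Set.exists_max_image _ k (List.finite_toSet p) ⟨x, hx⟩
  exact ⟨y, z, endT_of_LsBasic hk hp h1 (Or.inl h2), endT_of_LsBasic hk hp h3 (Or.inr h4), h2 x hx,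
    h4 x hx⟩

theorem skip_aux_LsBasic {k : L → κ} (hk : Function.Injective k) {y z : L} (l : List L) :
    ∀ x, (x :: l).getLast? = some y → ((k x < k z ∧ k z < k y) ∨ (k y < k z ∧ k z < k x)) →
      z ∈ x :: l ∨ Skip k (x :: l) z := by
  induction l with
  | nil =>
    intro x hy h
    obtain rfl : x = y := by simpa using hy
    rcases h with h | h <;> exact absurd h.1 h.2.not_gt
  | cons c l ih =>
    intro x hy h
    have key : ((k c < k z ∧ k z < k y) ∨ (k y < k z ∧ k z < k c)) →
        z ∈ x :: c :: l ∨ Skip k (x :: c :: l) z := fun h1 => by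
      rcases ih c (by simpa using hy) h1 with h2 | ⟨A, B, a, b, h2, h3⟩
      · exact Or.inl (List.mem_cons_of_mem _ h2)
      · exact Or.inr ⟨x :: A, B, a, b, by rw [h2]; rfl, h3⟩
    rcases lt_trichotomy (k z) (k c) with h1 | h1 | h1
    · rcases h with h | h
      · exact Or.inr ⟨[], l, x, c, rfl, Or.inl ⟨h.1, h1⟩⟩
      · exact key (Or.inr ⟨h.1, h1⟩)
    · exact Or.inl (by simp [hk h1])
    · rcases h with h | h
      · exact key (Or.inl ⟨h1, h.2⟩)
      · exact Or.inr ⟨[], l, x, c, rfl, Or.inr ⟨h1, h.2⟩⟩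

/-- A label strictly between the ends of a monotone path occurs or is skipped. -/
theorem mem_or_skip {k : L → κ} (hk : Function.Injective k) {d : Bool} {q : List L}
    (hq : Mono k d q) {x y z : L} (hx : q.head? = some x) (hy : q.getLast? = some y)
    (h : (k x < k z ∧ k z < k y) ∨ (k y < k z ∧ k z < k x)) : z ∈ q ∨ Skip k q z := by
  rcases q with _ | ⟨a, l⟩
  · simp at hx
  · obtain rfl : a = x := by simpa using hx
    exact skip_aux_LsBasic hk l a hy h

theorem glue_cons_LsBasic (q : List L) (D : List (List L)) : ∃ r, glue (q :: D) = q ++ r := by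
  rcases D with _ | ⟨q', D⟩
  · exact ⟨[], by simp [glue]⟩
  · exact ⟨_, rfl⟩

theorem dec_single_LsBasic {q : List L} (h : 2 ≤ q.length) : Dec [q] q :=
  ⟨rfl, by simp, by simpa using h, List.isChain_singleton _⟩

theorem dec_push_LsBasic {q p : List L} {D : List (List L)} (h : Dec (q :: D) p) (a : L) :
    Dec ((a :: q) :: D) (a :: p) := by
  have h2 := h.two q (by simp)
  refine ⟨?_, by simp, fun q' hq' => ?_, ?_⟩
  · rw [← h.eq]
    rcases D with _ | ⟨q', D⟩ <;> rfl
  · rcases List.mem_cons.1 hq' with rfl | h1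
    · exact h2.trans (Nat.le_succ _)
    · exact h.two q' (List.mem_cons_of_mem _ h1)
  · rcases D with _ | ⟨q', D⟩
    · exact List.isChain_singleton _
    · obtain ⟨h3, h4⟩ := List.isChain_cons_cons.1 h.ch
      refine List.isChain_cons_cons.2 ⟨?_, h4⟩
      rcases q with _ | ⟨b, q⟩
      · simp at h2
      · simpa using h3

theorem dec_cut_LsBasic {b : L} {q p : List L} {D : List (List L)}
    (h : Dec ((b :: q) :: D) (b :: p)) (a : L) : Dec ([a, b] :: (b :: q) :: D) (a :: b :: p) := by
  refine ⟨?_, by simp, fun q' hq' => ?_, List.isChain_cons_cons.2 ⟨by simp, h.ch⟩⟩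
  · rw [glue, h.eq]
    rfl
  · rcases List.mem_cons.1 hq' with rfl | h1
    · exact le_rfl
    · exact h.two q' h1

theorem dec_ind_LsBasic {P : List (List L) → List L → Prop} (h1 : ∀ q, P [q] q)
    (h2 : ∀ A x B D, P D (x :: B) → P ((A ++ [x]) :: D) (A ++ x :: B))
    {D : List (List L)} {p : List L} (h : Dec D p) : P D p := by
  induction D generalizing p with
  | nil => exact absurd rfl h.ne
  | cons q D ih =>
    rcases D with _ | ⟨q', D⟩
    · exact h.eq ▸ h1 q
    · obtain ⟨h3, h4⟩ := List.isChain_cons_cons.1 h.ch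
      have h5 := ih ⟨rfl, by simp, fun r hr => h.two r (List.mem_cons_of_mem _ hr), h4⟩
      have h6 := h.two q' (by simp)
      rcases q' with _ | ⟨x, q'⟩
      · simp at h6
      obtain ⟨A, rfl⟩ := List.getLast?_eq_some_iff.1 h3
      obtain ⟨r, hr⟩ := glue_cons_LsBasic (x :: q') D
      have h7 := h.eq
      rw [glue, hr] at h7
      rw [hr] at h5
      rw [← h7, List.append_assoc]
      exact h2 A x _ _ h5

theorem dec_inf {D : List (List L)} {p q : List L} (h : Dec D p) (hq : q ∈ D) : q <:+: p := by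
  refine dec_ind_LsBasic (P := fun D p => q ∈ D → q <:+: p) (fun r hr => ?_)
    (fun A x B D ih hr => ?_) h hq
  · exact ⟨[], [], by simpa using hr⟩
  · rcases List.mem_cons.1 hr with rfl | h1
    · exact ⟨[], B, by simp⟩
    · obtain ⟨s, t, e⟩ := ih h1
      exact ⟨A ++ s, t, by simp [← e]⟩

theorem lin_append_LsBasic (k : L → κ) (ρ : L → ℝ) (A : List L) (x : L) (B : List L) :
    lin k ρ (A ++ x :: B) = lin k ρ (A ++ [x]) + lin k ρ (x :: B) := by
  induction A with
  | nil => simp [lin]
  | cons a A ih =>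
    rcases A with _ | ⟨b, A⟩
    · simp [lin]
    · simp only [List.cons_append, lin] at ih ⊢
      rw [ih, add_assoc]

theorem var_append_LsBasic (ρ : L → ℝ) (A : List L) (x : L) (B : List L) :
    Var ((A ++ x :: B).map ρ) = Var ((A ++ [x]).map ρ) + Var ((x :: B).map ρ) := by
  induction A with
  | nil => simp [Var]
  | cons a A ih =>
    rcases A with _ | ⟨b, A⟩
    · simp [Var]
    · simp only [List.cons_append, var_cons_LsBasic] at ih ⊢
      rw [ih, add_assoc]

theorem dec_lin {D : List (List L)} {p : List L} (h : Dec D p) (k : L → κ) (ρ : L → ℝ) :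
    lin k ρ p = (D.map (lin k ρ)).sum :=
  dec_ind_LsBasic (P := fun D p => lin k ρ p = (D.map (lin k ρ)).sum) (fun q => by simp)
    (fun A x B D ih => by rw [lin_append_LsBasic, ih, List.map_cons, List.sum_cons]) h

theorem dec_var {D : List (List L)} {p : List L} (h : Dec D p) (ρ : L → ℝ) :
    Var (p.map ρ) = (D.map (fun q => Var (q.map ρ))).sum :=
  dec_ind_LsBasic (P := fun D p => Var (p.map ρ) = (D.map (fun q => Var (q.map ρ))).sum)
    (fun q => by simp)
    (fun A x B D ih => by
      rw [var_append_LsBasic, ih, List.map_cons (l := D), List.sum_cons]) h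

theorem skip_inf {k : L → κ} {p q : List L} (h : q <:+: p) {x : L} (hx : Skip k q x) :
    Skip k p x := by
  obtain ⟨s, t, rfl⟩ := h
  obtain ⟨A, B, a, c, rfl, h1⟩ := hx
  exact ⟨s ++ A, B ++ t, a, c, by simp, h1⟩

theorem pth_inf {S : Set L} {p q : List L} (hp : Pth S p) (h : q <:+: p) (hq : q ≠ []) :
    Pth S q := by
  refine ⟨?_, hq, fun x hx => hp.sub x (h.subset hx)⟩
  obtain ⟨s, t, rfl⟩ := h
  exact hp.rd.left_of_append.right_of_append

theorem mono_two_LsBasic {k : L → κ} (hk : Function.Injective k) {a b : L} (h : a ≠ b) :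
    Mono k (decide (k a < k b)) [a, b] := by
  refine List.isChain_cons_cons.2 ⟨?_, List.isChain_singleton _⟩
  split_ifs with h1
  · exact of_decide_eq_true h1
  · exact lt_of_le_of_ne (not_lt.1 fun h2 => h1 (decide_eq_true h2)) (hk.ne h.symm)

theorem mono_push_LsBasic {k : L → κ} (hk : Function.Injective k) {a b c : L} (h : a ≠ b)
    (h1 : k a < k b ↔ k b < k c) {q : List L} {d : Bool} (h2 : Mono k d (b :: c :: q)) :
    Mono k d (a :: b :: c :: q) := by
  refine List.isChain_cons_cons.2 ⟨?_, h2⟩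
  have h3 := (List.isChain_cons_cons.1 h2).1
  split_ifs at h3 ⊢
  · exact h1.2 h3
  · exact lt_of_le_of_ne (not_lt.1 fun h4 => h3.not_gt (h1.1 h4)) (hk.ne h.symm)

theorem buildT_aux_LsBasic {k : L → κ} (hk : Function.Injective k) (l : List L) : ∀ a b,
    Rd (a :: b :: l) → ∃ q D, Dec ((a :: b :: q) :: D) (a :: b :: l) ∧
      Alt k ((a :: b :: q) :: D) ∧ D.length = turns k (a :: b :: l) ∧
      ∀ x, ((a :: b :: q).getLast? = some x ∨ ∃ r ∈ D, r.head? = some x ∨ r.getLast? = some x) →
        (a :: b :: l).getLast? = some x ∨ TurnAt k (a :: b :: l) x := by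
  induction l with
  | nil =>
    intro a b hp
    refine ⟨[], [], dec_single_LsBasic le_rfl, ⟨fun q hq => ?_, List.isChain_singleton _⟩, rfl,
      fun x hx => Or.inl (by simpa using hx)⟩
    rw [List.mem_singleton.1 hq]
    exact ⟨_, mono_two_LsBasic hk (List.isChain_cons_cons.1 hp).1⟩
  | cons c l ih =>
    intro a b hp
    obtain ⟨h1, h2⟩ := List.isChain_cons_cons.1 hp
    obtain ⟨q, D, h3, h4, h5, h6⟩ := ih b c h2
    have ext : ∀ x, ((b :: c :: l).getLast? = some x ∨ TurnAt k (b :: c :: l) x) →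
        (a :: b :: c :: l).getLast? = some x ∨ TurnAt k (a :: b :: c :: l) x := by
      rintro x (h | ⟨A, B, u, v, e, h⟩)
      · exact Or.inl (by simpa using h)
      · exact Or.inr ⟨a :: A, B, u, v, by rw [e]; rfl, h⟩
    by_cases h : k a < k b ↔ k b < k c
    · refine ⟨c :: q, D, dec_push_LsBasic h3 a, ⟨fun r hr => ?_, ?_⟩,
        by rw [turns, if_pos h, zero_add, h5], fun x hx => ext x (h6 x (by simpa using hx))⟩
      · rcases List.mem_cons.1 hr with rfl | h7
        · obtain ⟨d, hd⟩ := h4.1 _ List.mem_cons_self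
          exact ⟨d, mono_push_LsBasic hk h1 h hd⟩
        · exact h4.1 r (List.mem_cons_of_mem _ h7)
      · rcases D with _ | ⟨r, D⟩
        · exact List.isChain_singleton _
        · obtain ⟨⟨d, h7, h8⟩, h9⟩ := List.isChain_cons_cons.1 h4.2
          exact List.isChain_cons_cons.2 ⟨⟨d, mono_push_LsBasic hk h1 h h7, h8⟩, h9⟩
    · have hb : TurnAt k (a :: b :: c :: l) b := ⟨[], l, a, c, rfl, h⟩
      refine ⟨[], (b :: c :: q) :: D, dec_cut_LsBasic h3 a, ⟨fun r hr => ?_, ?_⟩,
        by rw [turns, if_neg h, List.length_cons, h5, add_comm], fun x hx => ?_⟩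
      · rcases List.mem_cons.1 hr with rfl | h7
        · exact ⟨_, mono_two_LsBasic hk h1⟩
        · exact h4.1 r h7
      · refine List.isChain_cons_cons.2 ⟨⟨_, mono_two_LsBasic hk h1, ?_⟩, h4.2⟩
        obtain ⟨d, hd⟩ := h4.1 _ List.mem_cons_self
        have h7 := (List.isChain_cons_cons.1 hd).1
        convert hd
        cases d
        · have h8 : ¬ k b < k c := lt_asymm (by simpa using h7)
          simpa [h8] using h
        · have h8 : k b < k c := by simpa using h7
          simpa [h8] using h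
      · rcases hx with hx | ⟨r, hr, hx⟩
        · obtain rfl : b = x := by simpa using hx
          exact Or.inr hb
        · rcases List.mem_cons.1 hr with rfl | h7
          · rcases hx with hx | hx
            · obtain rfl : b = x := by simpa using hx
              exact Or.inr hb
            · exact ext x (h6 x (Or.inl hx))
          · exact ext x (h6 x (Or.inr ⟨r, h7, hx⟩))

/-- Cutting at all turns. -/
theorem buildT {k : L → κ} (hk : Function.Injective k) {p : List L} (hp : Rd p)
    (h2 : 2 ≤ p.length) : ∃ D, Dec D p ∧ Alt k D ∧ D.length = turns k p + 1 ∧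
      ∀ q ∈ D, ∀ x, (q.head? = some x ∨ q.getLast? = some x) → EndT k p x := by
  rcases p with _ | ⟨a, _ | ⟨b, l⟩⟩
  · simp at h2
  · simp at h2
  obtain ⟨q, D, h3, h4, h5, h6⟩ := buildT_aux_LsBasic hk l a b hp
  refine ⟨_, h3, h4, by rw [List.length_cons, h5], fun r hr x hx => ?_⟩
  rcases List.mem_cons.1 hr with rfl | h7
  · exact hx.elim Or.inl fun hx => Or.inr (h6 x (Or.inl hx))
  · exact Or.inr (h6 x (Or.inr ⟨r, h7, hx⟩))

theorem buildL_aux_LsBasic {k : L → κ} (hk : Function.Injective k) {ρ : L → ℝ} {g l : ℝ}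
    (hg : 0 ≤ g) (hl : 0 < l) (t : List L) : ∀ a b, Rd (a :: b :: t) →
      (∀ x ∈ a :: b :: t, ∀ y ∈ a :: b :: t, k x < k y → ρ x ≤ ρ y) →
      (a :: b :: t).IsChain (fun x y => |ρ y - ρ x| ≤ g) →
      ∃ q D, Dec ((a :: b :: q) :: D) (a :: b :: t) ∧ Var ((a :: b :: q).map ρ) ≤ l + g ∧
        Var ((a :: b :: t).map ρ) ≤ Var ((a :: b :: q).map ρ) + (l + g) *
          ((D.countP (fun q => decide ((∃ d, Mono k d q) ∧ l ≤ extn ρ q)) : ℝ) +
            turns k (a :: b :: t) - if ∃ d, Mono k d (a :: b :: q) then 0 else 1) := by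
  induction t with
  | nil =>
    intro a b hp _ hc
    refine ⟨[], [], dec_single_LsBasic le_rfl, ?_, ?_⟩
    · have := (List.isChain_cons_cons.1 hc).1
      simp only [List.map_cons, List.map_nil, Var]
      linarith
    · rw [if_pos ⟨_, mono_two_LsBasic hk (List.isChain_cons_cons.1 hp).1⟩]
      simp [turns]
  | cons c t ih =>
    intro a b hp h hc
    obtain ⟨h1, h2⟩ := List.isChain_cons_cons.1 hp
    obtain ⟨h3, h4⟩ := List.isChain_cons_cons.1 hc
    have h' : ∀ x ∈ b :: c :: t, ∀ y ∈ b :: c :: t, k x < k y → ρ x ≤ ρ y :=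
      fun x hx y hy => h x (List.mem_cons_of_mem _ hx) y (List.mem_cons_of_mem _ hy)
    obtain ⟨q, D, h5, h6, h7⟩ := ih b c h2 h' h4
    have hlg : 0 < l + g := by linarith
    by_cases h8 : l ≤ Var ((b :: c :: q).map ρ)
    · refine ⟨[], (b :: c :: q) :: D, dec_cut_LsBasic h5 a, ?_, ?_⟩
      · simp only [List.map_cons, List.map_nil, Var]
        linarith
      · have h9 : (turns k (b :: c :: t) : ℝ) ≤ turns k (a :: b :: c :: t) := by
          rw [turns]
          exact_mod_cast Nat.le_add_left _ _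
        have h10 := mul_le_mul_of_nonneg_left h9 hlg.le
        have h11 : Var ([a, b].map ρ) = |ρ b - ρ a| := add_zero _
        rw [if_pos ⟨_, mono_two_LsBasic hk h1⟩, var_cons_LsBasic, h11, List.countP_cons]
        by_cases h12 : ∃ d, Mono k d (b :: c :: q)
        · obtain ⟨d, hd⟩ := h12
          have h14 := (dec_inf h5 List.mem_cons_self).subset
          rw [if_pos ⟨d, hd⟩] at h7
          rw [if_pos (decide_eq_true ⟨⟨d, hd⟩, by
            rwa [← var_mono hd fun x hx y hy => h' x (h14 hx) y (h14 hy)]⟩)]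
          push_cast
          linarith
        · rw [if_neg h12] at h7
          rw [if_neg fun h13 => h12 (of_decide_eq_true h13).1]
          push_cast
          linarith
    · refine ⟨c :: q, D, dec_push_LsBasic h5 a, ?_, ?_⟩
      · rw [var_cons_LsBasic]
        linarith
      · rw [var_cons_LsBasic, var_cons_LsBasic ρ a b (c :: q), turns]
        push_cast
        by_cases h9 : (∃ d, Mono k d (b :: c :: q)) ∧ (k a < k b ↔ k b < k c)
        · obtain ⟨⟨d, hd⟩, h10⟩ := h9
          rw [if_pos ⟨d, hd⟩] at h7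
          rw [if_pos h10, if_pos ⟨d, mono_push_LsBasic hk h1 h10 hd⟩]
          linarith
        · split_ifs at h7 ⊢
          all_goals first
            | linarith
            | tauto

/-- Cutting into long pieces. -/
theorem buildL {k : L → κ} (hk : Function.Injective k) {ρ : L → ℝ} {p : List L} (hp : Rd p)
    (h2 : 2 ≤ p.length) (h : ∀ x ∈ p, ∀ y ∈ p, k x < k y → ρ x ≤ ρ y) {g l : ℝ} (hg : 0 ≤ g)
    (hl : 0 < l) (hc : p.IsChain (fun x y => |ρ y - ρ x| ≤ g)) :
    ∃ D, Dec D p ∧ Var (p.map ρ) / (l + g) - 1 - turns k p ≤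
      (D.countP (fun q => decide ((∃ d, Mono k d q) ∧ l ≤ extn ρ q)) : ℝ) := by
  rcases p with _ | ⟨a, _ | ⟨b, t⟩⟩
  · simp at h2
  · simp at h2
  obtain ⟨q, D, h3, h4, h5⟩ := buildL_aux_LsBasic hk hg hl t a b hp h hc
  have hlg : 0 < l + g := by linarith
  refine ⟨_, h3, ?_⟩
  rw [sub_le_iff_le_add, sub_le_iff_le_add, div_le_iff₀ hlg, List.countP_cons]
  push_cast
  split_ifs at h5 ⊢ <;> linarith

end Pool.Agent.E5f
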