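import Pool.Agent.E5f.LsGain

set_option autoImplicit false

namespace Pool.Agent.E5f

open Classical

variable {L κ : Type} [LinearOrder κ]

theorem act_append (c c' : List (L × L)) (p : List L) : act (c ++ c') p = act c' (act c p) := by
  induction c generalizing p with
  | nil => rfl
  | cons e c ih => exact ih _

theorem kend_append (k : L → κ) (c c' : List (L × L)) :
    kend k (c ++ c') = kend (kend k c) c' := by
  induction c generalizing k with
  | nil => rfl
  | cons e c ih => exact ih _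

theorem act_head (c : List (L × L)) (p : List L) : (act c p).head? = p.head? := by
  induction c generalizing p with
  | nil => rfl
  | cons e c ih => exact (ih _).trans (swL_head _ _ p)

theorem act_last (c : List (L × L)) (p : List L) : (act c p).getLast? = p.getLast? := by
  induction c generalizing p with
  | nil => rfl
  | cons e c ih => exact (ih _).trans (swL_last _ _ p)

theorem act_two (c : List (L × L)) {p : List L} (h : 2 ≤ p.length) : 2 ≤ (act c p).length := by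
  induction c generalizing p with
  | nil => exact h
  | cons e c ih => exact ih (swL_two _ _ h)

theorem flip_LsChain {k : L → κ} (hk : Function.Injective k) {x y : L} (h : x ≠ y) :
    k y < k x ↔ ¬ k x < k y :=
  ⟨fun h1 => lt_asymm h1, fun h1 => lt_of_le_of_ne (not_lt.1 h1) fun e => h (hk e).symm⟩

theorem ks_ne_LsChain {S : Set L} {k : L → κ} {a b : L} (hk : Function.Injective k)
    (hA : Adjc S k a b) {x y : L} (hx : x ∈ S) (hy : y ∈ S) (h1 : (x, y) ≠ (a, b))
    (h2 : (y, x) ≠ (a, b)) : ks k a b x < ks k a b y ↔ k x < k y := by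
  have up : ∀ c ∈ S, c ≠ a → c ≠ b → (k a < k c ↔ k b < k c) := fun c hc ha hb => by
    rw [flip_LsChain hk ha, flip_LsChain hk hb, hA.adj c hc ha hb]
  simp only [ks, Function.comp_apply]
  by_cases xa : x = a
  · subst xa
    by_cases ya : y = x
    · subst ya
      simp
    have yb : y ≠ b := fun e => h1 (by rw [e])
    rw [Equiv.swap_apply_left, Equiv.swap_apply_of_ne_of_ne ya yb, up y hy ya yb]
  by_cases xb : x = b
  · subst xb
    by_cases yb : y = x
    · subst yb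
      simp
    have ya : y ≠ a := fun e => h2 (by rw [e])
    rw [Equiv.swap_apply_right, Equiv.swap_apply_of_ne_of_ne ya yb, up y hy ya yb]
  rw [Equiv.swap_apply_of_ne_of_ne xa xb]
  by_cases ya : y = a
  · subst ya
    rw [Equiv.swap_apply_left, hA.adj x hx xa xb]
  by_cases yb : y = b
  · subst yb
    rw [Equiv.swap_apply_right, hA.adj x hx xa xb]
  rw [Equiv.swap_apply_of_ne_of_ne ya yb]

theorem ks_eq_LsChain (k : L → κ) {a b x y : L} (h : (x, y) = (a, b) ∨ (y, x) = (a, b)) :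
    ks k a b x < ks k a b y ↔ k y < k x := by
  simp only [ks, Function.comp_apply]
  rcases h with h | h <;> obtain ⟨rfl, rfl⟩ := Prod.ext_iff.1 h <;>
    rw [Equiv.swap_apply_left, Equiv.swap_apply_right]

theorem chn_append_LsChain {S : Set L} {k0 k1 : L → κ} (k : L → κ) (c c' : List (L × L)) :
    Chn S k0 k1 k (c ++ c') ↔ Chn S k0 k1 k c ∧ Chn S k0 k1 (kend k c) c' := by
  induction c generalizing k with
  | nil => simp [Chn, kend]
  | cons e c ih =>
    simp only [List.cons_append, Chn, kend, ih, and_assoc]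

theorem chn_mem_LsChain {S : Set L} {k0 k1 k : L → κ} {c : List (L × L)} (h : Chn S k0 k1 k c)
    {e : L × L} (he : e ∈ c) : e.1 ∈ S ∧ e.2 ∈ S ∧ e.1 ≠ e.2 := by
  induction c generalizing k with
  | nil => simp at he
  | cons e' c ih =>
    rcases List.mem_cons.1 he with rfl | he
    · exact ⟨h.1.ha, h.1.hb, h.1.ne⟩
    · exact ih h.2.2.2 he

theorem chn_stage_LsChain {S : Set L} {k0 k1 k : L → κ} (h0 : Function.Injective k0)
    (h1 : Function.Injective k1) (hk : Function.Injective k) {c : List (L × L)}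
    (h : Chn S k0 k1 k c) {x y : L} (hx : x ∈ S) (hy : y ∈ S) (hne : x ≠ y) :
    ((x, y) ∈ c ∨ (y, x) ∈ c → (k x < k y ↔ k0 x < k0 y) ∧ (k x < k y ↔ k1 y < k1 x) ∧
      (kend k c x < kend k c y ↔ k y < k x) ∧ ¬ ((x, y) ∈ c ∧ (y, x) ∈ c)) ∧
    (¬ ((x, y) ∈ c ∨ (y, x) ∈ c) → (kend k c x < kend k c y ↔ k x < k y)) := by
  induction c generalizing k with
  | nil => simp [kend]
  | cons e c ih =>
    obtain ⟨a, b⟩ := e
    obtain ⟨hA, e0, e1, hc⟩ := h
    obtain ⟨i1, i2⟩ := ih (ks_inj hk a b) hc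
    have f := flip_LsChain hk hne
    have f0 := flip_LsChain h0 hne
    have f1 := flip_LsChain h1 hne
    simp only [List.mem_cons, kend]
    by_cases he : (x, y) = (a, b) ∨ (y, x) = (a, b)
    · have e2 := ks_eq_LsChain k he
      have e3 : (k x < k y ↔ k0 x < k0 y) ∧ (k x < k y ↔ k1 y < k1 x) := by
        rcases he with he | he <;> obtain ⟨rfl, rfl⟩ := Prod.ext_iff.1 he
        · exact ⟨e0, e1⟩
        · simp only at e0 e1
          rw [f, f0, not_iff_not] at e0
          rw [f, not_iff_comm, ← f1] at e1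
          exact ⟨e0, e1.symm⟩
      have e4 : ¬ ((x, y) ∈ c ∨ (y, x) ∈ c) := fun h => by
        have h2 := (i1 h).1
        rw [e2, f, ← e3.1] at h2
        exact not_iff_self h2
      have e5 : ¬ ((x, y) = (a, b) ∧ (y, x) = (a, b)) := fun h =>
        hne (congrArg Prod.fst (h.1.trans h.2.symm))
      refine ⟨fun _ => ⟨e3.1, e3.2, (i2 e4).trans e2, ?_⟩, fun h => (h (he.imp .inl .inl)).elim⟩
      rintro ⟨h2 | h2, h3 | h3⟩
      exacts [e5 ⟨h2, h3⟩, e4 (.inr h3), e4 (.inl h2), e4 (.inl h2)]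
    · have e2 := ks_ne_LsChain hk hA hx hy (fun h => he (Or.inl h)) fun h => he (Or.inr h)
      have e3 := ks_ne_LsChain hk hA hy hx (fun h => he (Or.inr h)) fun h => he (Or.inl h)
      simp only at e2 e3
      rw [e2, e3] at i1
      rw [e2] at i2
      rw [not_or] at he
      simp only [he.1, he.2, false_or]
      exact ⟨i1, i2⟩

theorem adj_ex_LsChain (S : Finset L) {k k1 : L → κ} (hk : Function.Injective k)
    (h1 : Function.Injective k1) (h : ∃ y ∈ S, ∃ x ∈ S, k x < k y ∧ k1 y < k1 x) :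
    ∃ x y, Adjc (S : Set L) k x y ∧ k x < k y ∧ k1 y < k1 x := by
  obtain ⟨y, hy, hmin⟩ := (S.filter fun y => ∃ x ∈ S, k x < k y ∧ k1 y < k1 x).exists_min_image k
    (by simpa only [Finset.filter_nonempty_iff] using h)
  obtain ⟨hyS, hy⟩ := Finset.mem_filter.1 hy
  obtain ⟨x, hx, hmax⟩ := (S.filter fun x => k x < k y ∧ k1 y < k1 x).exists_max_image k
    (by simpa only [Finset.filter_nonempty_iff] using hy)
  obtain ⟨hxS, hx1, hx2⟩ := Finset.mem_filter.1 hx
  refine ⟨x, y, ⟨hxS, hyS, fun e => hx1.ne (by rw [e]), fun c hc cx _ =>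
    ⟨fun h => h.trans hx1, fun h => ?_⟩⟩, hx1, hx2⟩
  by_contra h2
  rw [← flip_LsChain hk cx] at h2
  by_cases h3 : k1 c < k1 x
  · exact absurd (hmin c (Finset.mem_filter.2 ⟨hc, x, hxS, h2, h3⟩)) (not_le.2 h)
  · rw [← flip_LsChain h1 cx] at h3
    exact absurd (hmax c (Finset.mem_filter.2 ⟨hc, h, hx2.trans h3⟩)) (not_le.2 h2)

theorem sort_LsChain (S : Finset L) {k0 k1 : L → κ} (h0 : Function.Injective k0)
    (h1 : Function.Injective k1) (up : L → L → Prop) (n : ℕ) :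
    ∀ k : L → κ, Function.Injective k →
      ((S ×ˢ S).filter fun e => k e.1 < k e.2 ∧ k1 e.2 < k1 e.1).card = n →
      (∀ x ∈ S, ∀ y ∈ S, k0 x < k0 y → k1 x < k1 y → k x < k y) →
      ∃ c, Chn (S : Set L) k0 k1 k c ∧
        (∀ x ∈ S, ∀ y ∈ S, (kend k c x < kend k c y ↔ k1 x < k1 y)) ∧
        ∀ e ∈ c, up e.1 e.2 ∨ ¬ up e.2 e.1 := by
  induction n using Nat.strong_induction_on with
  | _ n ih =>
  intro k hk hn hI
  by_cases h : ∃ y ∈ S, ∃ x ∈ S, k x < k y ∧ k1 y < k1 x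
  swap
  · refine ⟨[], trivial, fun x hx y hy => ?_, by simp⟩
    change k x < k y ↔ _
    by_cases e : x = y
    · simp [e]
    constructor
    · intro h2
      by_contra h3
      exact h ⟨y, hy, x, hx, h2, (flip_LsChain h1 e).2 h3⟩
    · intro h2
      by_contra h3
      exact h ⟨x, hx, y, hy, (flip_LsChain hk e).2 h3, h2⟩
  obtain ⟨a, b, hA, a1, a2⟩ := adj_ex_LsChain S hk h1 h
  have a0 : k0 a < k0 b := by
    by_contra h2
    exact lt_asymm a1 (hI b hA.hb a hA.ha ((flip_LsChain h0 hA.ne).2 h2) a2)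
  have b1 : ¬ ks k a b a < ks k a b b := by
    rw [ks_eq_LsChain k (Or.inl rfl)]
    exact lt_asymm a1
  obtain ⟨c, c1, c2, c3⟩ := ih _ (by
      rw [← hn]
      refine Finset.card_lt_card ⟨fun e he => ?_, fun hs => ?_⟩
      · obtain ⟨e1, e2, e3⟩ := Finset.mem_filter.1 he
        obtain ⟨e4, e5⟩ := Finset.mem_product.1 e1
        refine Finset.mem_filter.2 ⟨e1, (ks_ne_LsChain hk hA e4 e5 (fun h => ?_) fun h => ?_).1 e2,
          e3⟩ <;> obtain ⟨h2, h3⟩ := Prod.ext_iff.1 h <;> simp only at h2 h3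
        · rw [h2, h3] at e2
          exact b1 e2
        · rw [h2, h3] at e3
          exact lt_asymm a2 e3
      · exact b1 (Finset.mem_filter.1 (hs (x := (a, b)) (Finset.mem_filter.2
          ⟨Finset.mem_product.2 ⟨hA.ha, hA.hb⟩, a1, a2⟩))).2.1)
    (ks k a b) (ks_inj hk a b) rfl fun x hx y hy x0 x1 => by
      refine (ks_ne_LsChain hk hA hx hy (fun h => ?_) fun h => ?_).2 (hI x hx y hy x0 x1) <;>
        obtain ⟨rfl, rfl⟩ := Prod.ext_iff.1 h
      · exact lt_asymm a2 x1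
      · exact lt_asymm a0 x0
  by_cases hu : up a b
  · refine ⟨(a, b) :: c, ⟨hA, iff_of_true a1 a0, iff_of_true a1 a2, c1⟩, c2, fun e he => ?_⟩
    rcases List.mem_cons.1 he with rfl | he
    · exact Or.inl hu
    · exact c3 e he
  · have e0 : ks k a b = ks k b a := by rw [ks, ks, Equiv.swap_comm]
    rw [e0] at c1 c2
    refine ⟨(b, a) :: c, ⟨⟨hA.hb, hA.ha, hA.ne.symm, fun z hz zb za => (hA.adj z hz za zb).symm⟩,
      iff_of_false (lt_asymm a1) (lt_asymm a0), iff_of_false (lt_asymm a1) (lt_asymm a2), c1⟩, c2,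
      fun e he => ?_⟩
    rcases List.mem_cons.1 he with rfl | he
    · exact Or.inr hu
    · exact c3 e he

theorem chn_left_LsChain {S : Set L} {k0 k1 k2 k : L → κ} (h0 : Function.Injective k0)
    (h1 : Function.Injective k1)
    (hm : ∀ x ∈ S, ∀ y ∈ S, k0 x < k0 y → k1 y < k1 x → k2 y < k2 x) {c : List (L × L)}
    (h : Chn S k0 k1 k c) : Chn S k0 k2 k c := by
  induction c generalizing k with
  | nil => trivial
  | cons e c ih =>
    obtain ⟨hA, e0, e1, hc⟩ := h
    refine ⟨hA, e0, ⟨fun h => hm _ hA.ha _ hA.hb (e0.1 h) (e1.1 h), fun h => ?_⟩, ih hc⟩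
    by_contra h2
    exact lt_asymm h (hm _ hA.hb _ hA.ha ((flip_LsChain h0 hA.ne).2 fun h3 => h2 (e0.2 h3))
      ((flip_LsChain h1 hA.ne.symm).2 fun h3 => h2 (e1.2 h3)))

theorem chn_right_LsChain {S : Set L} {k0 k1 k2 k k' : L → κ} (h0 : Function.Injective k0)
    (h1 : Function.Injective k1)
    (hm : ∀ x ∈ S, ∀ y ∈ S, k0 x < k0 y → k1 y < k1 x → k2 y < k2 x) {c : List (L × L)}
    (h : Chn S k1 k2 k' c) (hs : ∀ x ∈ S, ∀ y ∈ S, (k x < k y ↔ k' x < k' y)) :
    Chn S k0 k2 k c ∧ ∀ x ∈ S, ∀ y ∈ S, (kend k c x < kend k c y ↔ kend k' c x < kend k' c y) := by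
  induction c generalizing k k' with
  | nil => exact ⟨trivial, hs⟩
  | cons e c ih =>
    obtain ⟨hA, e0, e1, hc⟩ := h
    have hw : ∀ x ∈ S, Equiv.swap e.1 e.2 x ∈ S := fun x hx => by
      rw [Equiv.swap_apply_def]
      split_ifs
      exacts [hA.hb, hA.ha, hx]
    obtain ⟨i1, i2⟩ := ih (k := ks k e.1 e.2) hc fun x hx y hy => hs _ (hw x hx) _ (hw y hy)
    rw [← hs _ hA.ha _ hA.hb] at e0 e1
    refine ⟨⟨⟨hA.ha, hA.hb, hA.ne, fun z hz za zb => ?_⟩, ⟨fun h => ?_, fun h => ?_⟩, e1, i1⟩, i2⟩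
    · rw [hs _ hz _ hA.ha, hs _ hz _ hA.hb]
      exact hA.adj z hz za zb
    · by_contra h2
      exact lt_asymm (e1.1 h) (hm _ hA.hb _ hA.ha ((flip_LsChain h0 hA.ne).2 h2) (e0.1 h))
    · by_contra h2
      exact h2 (e1.2 (hm _ hA.ha _ hA.hb h ((flip_LsChain h1 hA.ne).2 fun h3 => h2 (e0.2 h3))))

theorem chn_pth_LsChain {S : Set L} {k0 k1 k : L → κ} {c : List (L × L)} (h : Chn S k0 k1 k c)
    {p : List L} (hp : Pth S p) : Pth S (act c p) := by
  induction c generalizing k p with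
  | nil => exact hp
  | cons e c ih => exact ih h.2.2.2 (swL_pth h.1.ha h.1.ne hp)

theorem gn_nonneg_LsChain {S : Set L} {k : L → κ} {a b : L} (hk : Function.Injective k)
    (hA : Adjc S k a b) {p : List L} (hp : Pth S p) : 0 ≤ gn k a b p := by
  rcases gn_cases hk hA hp with h | h <;> linarith

theorem chn_gains_LsChain {S : Set L} {k0 k1 k : L → κ} (hk : Function.Injective k)
    {c : List (L × L)} (h : Chn S k0 k1 k c) {p : List L} (hp : Pth S p) : 0 ≤ gains k c p := by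
  induction c generalizing k p with
  | nil => exact le_rfl
  | cons e c ih =>
    exact add_nonneg (gn_nonneg_LsChain hk h.1 hp)
      (ih (ks_inj hk _ _) h.2.2.2 (swL_pth h.1.ha h.1.ne hp))

theorem chn_lin_LsChain {S : Set L} {k0 k1 k : L → κ} (h0 : Function.Injective k0)
    (h1 : Function.Injective k1) (hk : Function.Injective k) {c : List (L × L)}
    (h : Chn S k0 k1 k c) {p : List L} (hp : Pth S p) {ρ : L → ℝ} {δ : ℝ}
    (hρ : ∀ x ∈ S, ∀ y ∈ S, k0 x < k0 y → k1 y < k1 x → δ ≤ ρ x - ρ y) :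
    lin k ρ p + δ * gains k c p ≤ lin (kend k c) ρ (act c p) := by
  induction c generalizing k p with
  | nil => simp [gains, kend, act]
  | cons e c ih =>
    obtain ⟨hA, e0, e1, hc⟩ := h
    have i1 := ih (ks_inj hk _ _) hc (swL_pth hA.ha hA.ne hp)
    have i2 : δ ≤ ρ (fw k e.1 e.2) - ρ (bw k e.1 e.2) := by
      unfold fw bw
      split_ifs with h2
      · exact hρ _ hA.ha _ hA.hb (e0.1 h2) (e1.1 h2)
      · exact hρ _ hA.hb _ hA.ha ((flip_LsChain h0 hA.ne).2 fun h3 => h2 (e0.2 h3))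
          ((flip_LsChain h1 hA.ne.symm).2 fun h3 => h2 (e1.2 h3))
    have i3 := mul_le_mul_of_nonneg_left i2 (gn_nonneg_LsChain hk hA hp)
    rw [gain_eq hk hA hp] at i1
    simp only [gains, kend, act]
    linarith

theorem chn_turns_LsChain {S : Set L} {k0 k1 k : L → κ} (hk : Function.Injective k)
    {c : List (L × L)} (h : Chn S k0 k1 k c) {p : List L} (hp : Pth S p) :
    (turns k p : ℝ) - 3 * gains k c p ≤ turns (kend k c) (act c p) := by
  induction c generalizing k p with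
  | nil => simp [gains, kend, act]
  | cons e c ih =>
    have i1 := ih (ks_inj hk _ _) h.2.2.2 (swL_pth h.1.ha h.1.ne hp)
    have i2 := turns_swL hk h.1 hp
    simp only [gains, kend, act]
    linarith

theorem chn_rev_LsChain {S : Set L} {k0 k1 k : L → κ} {c : List (L × L)} (h : Chn S k0 k1 k c)
    {p : List L} (hp : Pth S p) : act c p.reverse = (act c p).reverse := by
  induction c generalizing k p with
  | nil => rfl
  | cons e c ih =>
    simp only [act]
    rw [swL_reverse h.1.ne hp.rd]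
    exact ih h.2.2.2 (swL_pth h.1.ha h.1.ne hp)

/-- Bubble sort. -/
theorem fch_exists (S : Finset L) {k0 k1 : L → κ} (h0 : Function.Injective k0)
    (h1 : Function.Injective k1) (up : L → L → Prop) :
    ∃ c, FCh (S : Set L) k0 k1 c ∧ ∀ e ∈ c, up e.1 e.2 ∨ ¬ up e.2 e.1 := by
  obtain ⟨c, c1, c2, c3⟩ := sort_LsChain S h0 h1 up _ k0 h0 rfl fun _ _ _ _ h _ => h
  exact ⟨c, ⟨h0, h1, c1, c2⟩, c3⟩

/-- Concatenation of forward chains when no pair is inverted twice. -/
theorem fch_append {S : Set L} {k0 k1 k2 : L → κ} {c c' : List (L × L)} (h : FCh S k0 k1 c)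
    (h' : FCh S k1 k2 c')
    (hm : ∀ x ∈ S, ∀ y ∈ S, k0 x < k0 y → k1 y < k1 x → k2 y < k2 x) :
    FCh S k0 k2 (c ++ c') := by
  obtain ⟨i1, i2⟩ := chn_right_LsChain h.inj0 h.inj1 hm h'.chn h.fin
  refine ⟨h.inj0, h'.inj1, (chn_append_LsChain _ _ _).2
    ⟨chn_left_LsChain h.inj0 h.inj1 hm h.chn, i1⟩, fun x hx y hy => ?_⟩
  rw [kend_append, i2 x hx y hy, h'.fin x hx y hy]

section
variable {S : Set L} {k0 k1 : L → κ} {c : List (L × L)} (h : FCh S k0 k1 c)
include h

theorem fch_pth {p : List L} (hp : Pth S p) : Pth S (act c p) := chn_pth_LsChain h.chn hp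

theorem fch_mem {e : L × L} (he : e ∈ c) : e.1 ∈ S ∧ e.2 ∈ S ∧ e.1 ≠ e.2 ∧
    (k0 e.1 < k0 e.2 ↔ k1 e.2 < k1 e.1) := by
  obtain ⟨h1, h2, h3⟩ := chn_mem_LsChain h.chn he
  exact ⟨h1, h2, h3, ((chn_stage_LsChain h.inj0 h.inj1 h.inj0 h.chn h1 h2 h3).1 (Or.inl he)).2.1⟩

theorem fch_inv {x y : L} (hx : x ∈ S) (hy : y ∈ S) (h0 : k0 x < k0 y) (h1 : k1 y < k1 x) :
    ((x, y) ∈ c ∨ (y, x) ∈ c) ∧ ¬ ((x, y) ∈ c ∧ (y, x) ∈ c) := by
  obtain ⟨i1, i2⟩ := chn_stage_LsChain h.inj0 h.inj1 h.inj0 h.chn hx hy fun e => h0.ne (by rw [e])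
  have h2 : (x, y) ∈ c ∨ (y, x) ∈ c := by
    by_contra h3
    exact lt_asymm h1 ((h.fin x hx y hy).1 ((i2 h3).2 h0))
  exact ⟨h2, (i1 h2).2.2.2⟩

/-- The order at an intermediate stage. -/
theorem fch_stage {c1 c2 : List (L × L)} (hc : c = c1 ++ c2) {x y : L} (hx : x ∈ S) (hy : y ∈ S)
    (h0 : k0 x < k0 y) :
    (kend k0 c1 x < kend k0 c1 y ↔ ¬ ((x, y) ∈ c1 ∨ (y, x) ∈ c1)) := by
  obtain ⟨i1, i2⟩ := chn_stage_LsChain h.inj0 h.inj1 h.inj0
    ((chn_append_LsChain _ _ _).1 (hc ▸ h.chn)).1 hx hy fun e => h0.ne (by rw [e])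
  exact ⟨fun h1 h2 => lt_asymm h0 ((i1 h2).2.2.1.1 h1), fun h1 => (i2 h1).2 h0⟩

theorem gains_nonneg {p : List L} (hp : Pth S p) : 0 ≤ gains k0 c p :=
  chn_gains_LsChain h.inj0 h.chn hp

theorem fch_lin {p : List L} (hp : Pth S p) {ρ : L → ℝ} {δ : ℝ}
    (hρ : ∀ x ∈ S, ∀ y ∈ S, k0 x < k0 y → k1 y < k1 x → δ ≤ ρ x - ρ y) :
    lin k0 ρ p + δ * gains k0 c p ≤ lin k1 ρ (act c p) := by
  have hq := (fch_pth h hp).sub
  rw [← lin_congr ρ fun x hx y hy => h.fin x (hq x hx) y (hq y hy)]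
  exact chn_lin_LsChain h.inj0 h.inj1 h.inj0 h.chn hp hρ

theorem fch_turns {p : List L} (hp : Pth S p) :
    (turns k0 p : ℝ) - 3 * gains k0 c p ≤ turns k1 (act c p) := by
  have hq := (fch_pth h hp).sub
  rw [← turns_congr fun x hx y hy => h.fin x (hq x hx) y (hq y hy)]
  exact chn_turns_LsChain h.inj0 h.chn hp

theorem pers_reverse {q : List L} (hq : Pth S q) {d : Bool} (hp : Pers k0 d c q) :
    Pers k0 (!d) c q.reverse := by
  intro c1 c2 hc
  rw [chn_rev_LsChain ((chn_append_LsChain _ _ _).1 (hc ▸ h.chn)).1 hq, mono_reverse, Bool.not_not]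
  exact hp c1 c2 hc

end

end Pool.Agent.E5f
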