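import Pool.Agent.E5f.WDefs

/-!
Paths as lists of labels: signed variation, monotone paths, turns, the swap move on paths,
chains of adjacent swaps, decompositions, passes and touches.
-/

set_option autoImplicit false

namespace Pool.Agent.E5f

open Classical

section
variable {L κ : Type} [LinearOrder κ]

/-- Adjacent entries are distinct. -/
def Rd (p : List L) : Prop := p.IsChain (· ≠ ·)

/-- A reduced nonempty path with entries in `S`. -/
structure Pth (S : Set L) (p : List L) : Prop where
  rd : Rd p
  ne : p ≠ []
  sub : ∀ x ∈ p, x ∈ S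

/-- Signed variation of `ρ`, the signs being read off from the order `k`. -/
noncomputable def lin (k : L → κ) (ρ : L → ℝ) : List L → ℝ
  | a :: b :: l => (if k a < k b then ρ b - ρ a else ρ a - ρ b) + lin k ρ (b :: l)
  | _ => 0

/-- Strictly monotone path, increasing if `d = true`. -/
def Mono (k : L → κ) (d : Bool) (p : List L) : Prop :=
  p.IsChain (fun x y => if d = true then k x < k y else k y < k x)

/-- The number of turns. -/
noncomputable def turns (k : L → κ) : List L → ℕ
  | a :: b :: c :: l => (if (k a < k b ↔ k b < k c) then 0 else 1) + turns k (b :: c :: l)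
  | _ => 0

/-- The label `x` is a turn of the path. -/
def TurnAt (k : L → κ) (p : List L) (x : L) : Prop :=
  ∃ A B a c, p = A ++ a :: x :: c :: B ∧ ¬ (k a < k x ↔ k x < k c)

/-- The label `x` is an end or a turn of the path. -/
def EndT (k : L → κ) (p : List L) (x : L) : Prop :=
  p.head? = some x ∨ p.getLast? = some x ∨ TurnAt k p x

/-- The label `x` lies strictly between two consecutive entries of the path. -/
def Skip (k : L → κ) (p : List L) (x : L) : Prop :=
  ∃ A B a c, p = A ++ a :: c :: B ∧ ((k a < k x ∧ k x < k c) ∨ (k c < k x ∧ k x < k a))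

/-- The swap move: the letters `b` are conjugated by the letter `a`. -/
noncomputable def swL (a b : L) : List L → List L
  | x :: y :: z :: l =>
      if x = a then x :: swL a b (y :: z :: l)
      else if y = a then
        (if (x = b ↔ z = b) then x :: a :: swL a b (z :: l) else x :: swL a b (z :: l))
      else (if (x = b ↔ y = b) then x :: swL a b (y :: z :: l)
        else x :: a :: swL a b (y :: z :: l))
  | [x, y] => if x = a ∨ y = a ∨ (x = b ↔ y = b) then [x, y] else [x, a, y]
  | l => l

theorem swL_not {a b : L} (p : List L) (hb : b ∉ p) : swL a b p = p := by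
  fun_induction swL a b p <;> grind

/-- The order after exchanging `a` and `b`. -/
noncomputable def ks (k : L → κ) (a b : L) : L → κ := k ∘ Equiv.swap a b

/-- The label that moves to the right. -/
noncomputable def fw (k : L → κ) (a b : L) : L := if k a < k b then a else b

/-- The label that moves to the left. -/
noncomputable def bw (k : L → κ) (a b : L) : L := if k a < k b then b else a

/-- The gain of one swap. -/
noncomputable def gn (k : L → κ) (a b : L) (p : List L) : ℝ :=
  lin (ks k a b) (fun x => if x = fw k a b then 1 else 0) (swL a b p) -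
    lin k (fun x => if x = fw k a b then 1 else 0) p

/-- The labels `a`, `b` are adjacent in `S` for the order `k`. -/
structure Adjc (S : Set L) (k : L → κ) (a b : L) : Prop where
  ha : a ∈ S
  hb : b ∈ S
  ne : a ≠ b
  adj : ∀ c ∈ S, c ≠ a → c ≠ b → (k c < k a ↔ k c < k b)

/-- The order at the end of a list of swaps. -/
noncomputable def kend (k : L → κ) : List (L × L) → L → κ
  | [] => k
  | e :: c => kend (ks k e.1 e.2) c

/-- The action of a list of swaps on paths. -/
noncomputable def act : List (L × L) → List L → List L
  | [], p => p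
  | e :: c, p => act c (swL e.1 e.2 p)

/-- The total gain of a list of swaps. -/
noncomputable def gains (k : L → κ) : List (L × L) → List L → ℝ
  | [], _ => 0
  | e :: c, p => gn k e.1 e.2 p + gains (ks k e.1 e.2) c (swL e.1 e.2 p)

/-- A list of adjacent swaps starting at `k`, each of which goes from `k0` towards `k1`. -/
def Chn (S : Set L) (k0 k1 : L → κ) : (L → κ) → List (L × L) → Prop
  | _, [] => True
  | k, e :: c => Adjc S k e.1 e.2 ∧ (k e.1 < k e.2 ↔ k0 e.1 < k0 e.2) ∧
      (k e.1 < k e.2 ↔ k1 e.2 < k1 e.1) ∧ Chn S k0 k1 (ks k e.1 e.2) c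

/-- A forward chain of adjacent swaps from the order `k0` to the order `k1` on `S`. -/
structure FCh (S : Set L) (k0 k1 : L → κ) (c : List (L × L)) : Prop where
  inj0 : Function.Injective k0
  inj1 : Function.Injective k1
  chn : Chn S k0 k1 k0 c
  fin : ∀ x ∈ S, ∀ y ∈ S, (kend k0 c x < kend k0 c y ↔ k1 x < k1 y)

/-- The path stays monotone at every stage of the chain. -/
def Pers (k : L → κ) (d : Bool) (c : List (L × L)) (q : List L) : Prop :=
  ∀ c1 c2, c = c1 ++ c2 → Mono (kend k c1) d (act c1 q)

/-- Gluing paths along common ends. -/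
def glue : List (List L) → List L
  | [] => []
  | [q] => q
  | q :: q' :: D => q ++ (glue (q' :: D)).tail

/-- A decomposition of a path into pieces with at least two entries. -/
structure Dec (D : List (List L)) (p : List L) : Prop where
  eq : glue D = p
  ne : D ≠ []
  two : ∀ q ∈ D, 2 ≤ q.length
  ch : D.IsChain (fun q q' => q.getLast? = q'.head?)

/-- Consecutive pieces are monotone in opposite directions. -/
def Alt (k : L → κ) (D : List (List L)) : Prop :=
  (∀ q ∈ D, ∃ d, Mono k d q) ∧ D.IsChain (fun q q' => ∃ d, Mono k d q ∧ Mono k (!d) q')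

/-- The monotone path `q` has one end left of `bl` and the other end right of `br`. -/
def Spans (k : L → κ) (bl br : L) (q : List L) : Prop :=
  ∃ d x y, Mono k d q ∧ q.head? = some x ∧ q.getLast? = some y ∧
    ((k x < k bl ∧ k br < k y) ∨ (k y < k bl ∧ k br < k x))

/-- Barriers: nobody overtakes `bl` from the left and `br` overtakes nobody. -/
structure Bar (S : Set L) (k0 k1 : L → κ) (bl br : L) : Prop where
  hl : bl ∈ S
  hr : br ∈ S
  lt0 : k0 bl < k0 br
  lt1 : k1 bl < k1 br
  left : ∀ x ∈ S, k0 x < k0 bl → k1 x < k1 bl
  right : ∀ x ∈ S, k0 br < k0 x → k1 br < k1 x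

/-- Labels between the barriers at the last stage. -/
def Deep (S : Set L) (k1 : L → κ) (bl br x : L) : Prop := x ∈ S ∧ k1 bl < k1 x ∧ k1 x < k1 br

/-- The piece `q` survives the chain and becomes `q'`. -/
structure GoodL (S : Set L) (k1 : L → κ) (c : List (L × L)) (bl br : L) (q q' : List L) :
    Prop where
  sp : Spans k1 bl br q'
  mem : ∀ x, Deep S k1 bl br x → (x ∈ q' ↔ x ∈ q)
  imp : ∀ e ∈ c, Deep S k1 bl br e.1 → Deep S k1 bl br e.2 → e.2 ∈ q → e.1 ∈ q

/-- The extent of a path for the position function `ρ`. -/
noncomputable def extn (ρ : L → ℝ) (q : List L) : ℝ :=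
  match q.head?, q.getLast? with
  | some x, some y => |ρ y - ρ x|
  | _, _ => 0

/-- Block data at a collision: `kk false`, `kk true` are the orders on the two sides, `ty` is the
type (0 slow, 1 middle, 2 fast) and `bk` the block of a label. -/
structure Blk {B : Type} (kk : Bool → L → κ) (ty : L → Fin 3) (bk : L → B) : Prop where
  uniq : ∀ x y, bk x = bk y → ty x = ty y → x = y
  out : ∀ s s' x x' y y', bk x = bk x' → bk y = bk y' → bk x ≠ bk y →
    (kk s x < kk s y ↔ kk s' x' < kk s' y')
  plus : ∀ x y, bk x = bk y → (kk true x < kk true y ↔ ty x < ty y)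
  minus : ∀ x y, bk x = bk y → (kk false x < kk false y ↔ ty y < ty x)

/-- The height order of the three types above the collision point: slow, fast, middle. -/
def hgt : Fin 3 → ℕ := ![0, 2, 1]

/-- The block of `x` has all three types in `S`. -/
def Full {B : Type} (S : Set L) (ty : L → Fin 3) (bk : L → B) (x : L) : Prop :=
  ∀ i, ∃ y ∈ S, bk y = bk x ∧ ty y = i

/-- One pass from the side `sd` to the other side with status `σ`. -/
def Pass (S : Set L) (kk : Bool → L → κ) (ty : L → Fin 3) (sd σ : Bool) (p p' : List L) : Prop :=
  ∃ c, FCh S (kk sd) (kk (!sd)) c ∧ (∀ e ∈ c, (hgt (ty e.2) < hgt (ty e.1) ↔ σ = true)) ∧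
    p' = act c p

/-- A sequence of `n` passes with alternating status, from the side `sd` to the side `sd'`. -/
def Tou (S : Set L) (kk : Bool → L → κ) (ty : L → Fin 3) :
    ℕ → Bool → Bool → List L → Bool → List L → Prop
  | 0, sd, _, p, sd', p' => sd' = sd ∧ p' = p
  | n + 1, sd, σ, p, sd', p' => ∃ p1, Pass S kk ty sd σ p p1 ∧ Tou S kk ty n (!sd) (!σ) p1 sd' p'

/-- The slope when moving away from the collision on the side `sd`. -/
noncomputable def asl (kk : Bool → L → κ) (m : L → ℝ) (sd : Bool) (p : List L) : ℝ :=
  (if sd = true then 1 else -1) * lin (kk sd) m p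

/-- A monotone piece which contains some but not all labels of a full block in its interior. -/
def Mixed {B : Type} (S : Set L) (k : L → κ) (ty : L → Fin 3) (bk : L → B) (q : List L) : Prop :=
  (∃ d, Mono k d q) ∧ ∃ x y, Full S ty bk x ∧ y ∈ S ∧ bk y = bk x ∧ x ∈ q ∧ y ∉ q ∧
    (∀ z, q.head? = some z → bk z ≠ bk x) ∧ (∀ z, q.getLast? = some z → bk z ≠ bk x)

end

section
variable {L : Type}

/-- The generator of the group of order two. -/
def c2 : C2 := Multiplicative.ofAdd 1

/-- The path of labels between two pointed letters. -/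
noncomputable def cpl (P Q : L × W L C2) : List L :=
  (P.1 :: lab (P.2⁻¹ * Q.2) ++ [Q.1]).destutter (· ≠ ·)

/-- The swap map on pointed letters. -/
noncomputable def tp (a b : L) (P : L × W L C2) : L × W L C2 :=
  (P.1, sw a b c2 P.2 * (if P.1 = b then lt a c2 else 1))

end

end Pool.Agent.E5f
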