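import Pool.Agent.E5f.LsBasic

set_option autoImplicit false

namespace Pool.Agent.E5f

open Classical

variable {L κ : Type} [LinearOrder κ]

namespace LsGain

theorem gap_ind {a : L} {P : List L → Prop} (h0 : P []) (h1 : ∀ x, P [x])
    (h2 : ∀ y l, P (y :: l) → P (a :: y :: l)) (h3 : ∀ x, x ≠ a → P [x, a])
    (h4 : ∀ x z l, x ≠ a → P (z :: l) → P (x :: a :: z :: l))
    (h5 : ∀ x y l, x ≠ a → y ≠ a → P (y :: l) → P (x :: y :: l)) (p : List L) : P p := by
  suffices h : P p ∧ ∀ x, P (x :: p) from h.1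
  induction p with
  | nil => exact ⟨h0, h1⟩
  | cons y l ih =>
    refine ⟨ih.2 y, fun x => ?_⟩
    by_cases hx : x = a
    · rw [hx]; exact h2 y l (ih.2 y)
    by_cases hy : y = a
    · rw [hy]
      cases l with
      | nil => exact h3 x hx
      | cons z l => exact h4 x z l hx ih.1
    · exact h5 x y l hx hy (ih.2 y)

variable {a b x y z : L}

theorem swL_nil : swL a b [] = [] := by simp [swL]

theorem swL_one : swL a b [x] = [x] := by simp [swL]

theorem swL_a (l : List L) : swL a b (a :: y :: l) = a :: swL a b (y :: l) := by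
  cases l <;> simp [swL]

theorem swL_xa : swL a b [x, a] = [x, a] := by simp [swL]

theorem swL_xaz (hx : x ≠ a) (l : List L) : swL a b (x :: a :: z :: l) =
    if (x = b ↔ z = b) then x :: a :: swL a b (z :: l) else x :: swL a b (z :: l) := by
  simp [swL, hx]

theorem swL_xy (hx : x ≠ a) (hy : y ≠ a) (l : List L) : swL a b (x :: y :: l) =
    if (x = b ↔ y = b) then x :: swL a b (y :: l) else x :: a :: swL a b (y :: l) := by
  cases l <;> simp [swL, hx, hy]

theorem swL_cons (a b x : L) (l : List L) : ∃ t, swL a b (x :: l) = x :: t := by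
  by_cases hx : x = a
  · rw [hx]
    cases l with
    | nil => exact ⟨_, swL_one⟩
    | cons y l => exact ⟨_, swL_a l⟩
  rcases l with _ | ⟨y, l⟩
  · exact ⟨_, swL_one⟩
  by_cases hy : y = a
  · rw [hy]
    cases l with
    | nil => exact ⟨_, swL_xa⟩
    | cons z l => rw [swL_xaz hx]; split_ifs <;> exact ⟨_, rfl⟩
  · rw [swL_xy hx hy]; split_ifs <;> exact ⟨_, rfl⟩

theorem swL_tail (a b x : L) (l : List L) : x :: (swL a b (x :: l)).tail = swL a b (x :: l) := by
  obtain ⟨t, ht⟩ := swL_cons a b x l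
  rw [ht, List.tail_cons]

/-- Cutting at a letter different from `a`. -/
theorem swL_cut (hy : y ≠ a) (A B : List L) :
    swL a b (A ++ y :: B) = swL a b (A ++ [y]) ++ (swL a b (y :: B)).tail := by
  induction A using gap_ind (a := a) with
  | h0 => simp [swL_one, swL_tail]
  | h1 x =>
    by_cases hx : x = a
    · simp [hx, swL_a, swL_one, swL_tail]
    · simp only [List.cons_append, List.nil_append, swL_xy hx hy, swL_one]
      split_ifs <;> simp [swL_tail]
  | h2 x l ih =>
    simp only [List.cons_append, swL_a] at ih ⊢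
    rw [ih]
  | h3 x hx =>
    simp only [List.cons_append, List.nil_append, swL_xaz hx, swL_one]
    split_ifs <;> simp [swL_tail]
  | h4 x z l hx ih =>
    simp only [List.cons_append, swL_xaz hx] at ih ⊢
    split_ifs <;> simp [ih]
  | h5 x z l hx hz ih =>
    simp only [List.cons_append, swL_xy hx hz] at ih ⊢
    split_ifs <;> simp [ih]

theorem rd_cons {l : List L} : Rd (x :: y :: l) ↔ x ≠ y ∧ Rd (y :: l) := List.isChain_cons_cons

theorem rd_one : Rd [x] := List.isChain_singleton x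

theorem pth_tail {S : Set L} {l : List L} (h : Pth S (x :: y :: l)) : Pth S (y :: l) :=
  ⟨(rd_cons.1 h.rd).2, List.cons_ne_nil _ _, fun w hw => h.sub w (List.mem_cons_of_mem _ hw)⟩

theorem lin_cut (k : L → κ) (ρ : L → ℝ) (A : List L) (y : L) (B : List L) :
    lin k ρ (A ++ y :: B) = lin k ρ (A ++ [y]) + lin k ρ (y :: B) := by
  induction A with
  | nil => simp [lin]
  | cons x A ih =>
    cases A with
    | nil => simp [lin]
    | cons w A =>
      simp only [List.cons_append, lin] at ih ⊢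
      rw [ih, add_assoc]

theorem lin_reverse {k : L → κ} (hk : Function.Injective k) (ρ : L → ℝ) {p : List L}
    (hp : Rd p) : lin k ρ p.reverse = lin k ρ p := by
  induction p with
  | nil => rfl
  | cons x p ih =>
    cases p with
    | nil => rfl
    | cons y l =>
      obtain ⟨h1, h2⟩ := rd_cons.1 hp
      have e := ih h2
      rw [List.reverse_cons] at e
      rw [List.reverse_cons, List.reverse_cons, List.append_assoc, List.singleton_append, lin_cut,
        e]
      simp only [lin]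
      rcases lt_or_gt_of_ne (hk.ne h1) with h | h
      · rw [if_pos h, if_neg h.not_gt]; ring
      · rw [if_pos h, if_neg h.not_gt]; ring

end LsGain

open LsGain

theorem swL_pth {S : Set L} {a b : L} (ha : a ∈ S) (hab : a ≠ b) {p : List L} (hp : Pth S p) :
    Pth S (swL a b p) := by
  have key : ∀ {x y : L} {l : List L}, x ∈ S → x ≠ y → Pth S (swL a b (y :: l)) →
      Pth S (x :: swL a b (y :: l)) := fun {x y l} hx hxy h => by
    obtain ⟨t, ht⟩ := swL_cons a b y l
    rw [ht] at h ⊢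
    exact ⟨rd_cons.2 ⟨hxy, h.rd⟩, List.cons_ne_nil _ _, fun w hw =>
      (List.mem_cons.1 hw).elim (fun e => e ▸ hx) (h.sub w)⟩
  have key2 : ∀ {x : L} {l : List L}, x ∈ S → x ≠ a → Pth S (a :: l) → Pth S (x :: a :: l) :=
    fun {x l} hx hxy h => ⟨rd_cons.2 ⟨hxy, h.rd⟩, List.cons_ne_nil _ _, fun w hw =>
      (List.mem_cons.1 hw).elim (fun e => e ▸ hx) (h.sub w)⟩
  induction p using gap_ind (a := a) with
  | h0 => exact absurd rfl hp.ne
  | h1 x => rwa [swL_one]
  | h2 y l ih =>
    rw [swL_a]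
    exact key ha (rd_cons.1 hp.rd).1 (ih (pth_tail hp))
  | h3 x hx => rwa [swL_xa]
  | h4 x z l hx ih =>
    have h1 := ih (pth_tail (pth_tail hp))
    have h2 := hp.sub x List.mem_cons_self
    rw [swL_xaz hx]
    split_ifs with h
    · exact key2 h2 hx (key ha (rd_cons.1 (pth_tail hp).rd).1 h1)
    · exact key h2 (fun e => h (by rw [e])) h1
  | h5 x y l hx hy ih =>
    have h1 := ih (pth_tail hp)
    have h2 := hp.sub x List.mem_cons_self
    rw [swL_xy hx hy]
    split_ifs with h
    · exact key h2 (rd_cons.1 hp.rd).1 h1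
    · exact key2 h2 hx (key ha hy.symm h1)

theorem swL_head (a b : L) (p : List L) : (swL a b p).head? = p.head? := by
  cases p with
  | nil => rw [swL_nil]
  | cons x l =>
    obtain ⟨t, ht⟩ := swL_cons a b x l
    rw [ht, List.head?_cons, List.head?_cons]

theorem swL_last (a b : L) (p : List L) : (swL a b p).getLast? = p.getLast? := by
  have key : ∀ (x y : L) (l : List L), (x :: swL a b (y :: l)).getLast? =
      (swL a b (y :: l)).getLast? := fun x y l => by
    obtain ⟨t, ht⟩ := swL_cons a b y l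
    rw [ht, List.getLast?_cons_cons]
  induction p using gap_ind (a := a) with
  | h0 => rw [swL_nil]
  | h1 x => rw [swL_one]
  | h2 y l ih => rw [swL_a, key, ih, List.getLast?_cons_cons]
  | h3 x hx => rw [swL_xa]
  | h4 x z l hx ih =>
    rw [swL_xaz hx]
    split_ifs <;> simp only [List.getLast?_cons_cons, key, ih]
  | h5 x y l hx hy ih =>
    rw [swL_xy hx hy]
    split_ifs <;> simp only [List.getLast?_cons_cons, key, ih]

theorem swL_two (a b : L) {p : List L} (h : 2 ≤ p.length) : 2 ≤ (swL a b p).length := by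
  have key : ∀ (y : L) (l : List L), 1 ≤ (swL a b (y :: l)).length := fun y l => by
    obtain ⟨t, ht⟩ := swL_cons a b y l
    rw [ht]; simp
  induction p using gap_ind (a := a) with
  | h0 => simp at h
  | h1 x => simp at h
  | h2 y l _ => have := key y l; rw [swL_a, List.length_cons]; omega
  | h3 x hx => rwa [swL_xa]
  | h4 x z l hx _ =>
    have := key z l
    rw [swL_xaz hx]
    split_ifs <;> simp only [List.length_cons] <;> omega
  | h5 x y l hx hy _ =>
    have := key y l
    rw [swL_xy hx hy]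
    split_ifs <;> simp only [List.length_cons] <;> omega

theorem swL_mem {a b x : L} (hx : x ≠ a) (p : List L) : x ∈ swL a b p ↔ x ∈ p := by
  induction p using gap_ind (a := a) with
  | h0 => rw [swL_nil]
  | h1 x => rw [swL_one]
  | h2 y l ih => rw [swL_a, List.mem_cons, ih, List.mem_cons (l := y :: l)]
  | h3 w hw => rw [swL_xa]
  | h4 w z l hw ih =>
    rw [swL_xaz hw]
    split_ifs <;> simp only [List.mem_cons (l := swL a b _), List.mem_cons (l := _ :: _), ih, hx,
      false_or]
  | h5 w y l hw hy ih =>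
    rw [swL_xy hw hy]
    split_ifs <;> simp only [List.mem_cons (l := swL a b _), List.mem_cons (l := _ :: _), ih, hx,
      false_or]

theorem swL_reverse {a b : L} (hab : a ≠ b) {p : List L} (hp : Rd p) :
    swL a b p.reverse = (swL a b p).reverse := by
  induction p using gap_ind (a := a) with
  | h0 => simp [swL_nil]
  | h1 x => simp [swL_one]
  | h2 y l ih =>
    obtain ⟨h1, h2⟩ := rd_cons.1 hp
    have e := ih h2
    rw [List.reverse_cons] at e
    rw [List.reverse_cons, List.reverse_cons, List.append_assoc, List.singleton_append,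
      swL_cut h1.symm, e, swL_xa, swL_a, List.reverse_cons, List.tail_cons]
  | h3 x hx => simp [swL_xa, swL_a, swL_one]
  | h4 x z l hx ih =>
    obtain ⟨h1, h2⟩ := rd_cons.1 (rd_cons.1 hp).2
    have e := ih h2
    rw [List.reverse_cons] at e
    have e2 : (x :: a :: z :: l).reverse = l.reverse ++ z :: [a, x] := by simp
    rw [e2, swL_cut h1.symm, e, swL_xaz h1.symm, swL_xaz hx, swL_one]
    by_cases h : (x = b ↔ z = b)
    · rw [if_pos h, if_pos h.symm]; simp
    · rw [if_neg h, if_neg fun h' => h h'.symm]; simp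
  | h5 x y l hx hy ih =>
    have e := ih (rd_cons.1 hp).2
    rw [List.reverse_cons] at e
    have e2 : (x :: y :: l).reverse = l.reverse ++ y :: [x] := by simp
    rw [e2, swL_cut hy, e, swL_xy hy hx, swL_xy hx hy, swL_one]
    by_cases h : (x = b ↔ y = b)
    · rw [if_pos h, if_pos h.symm]; simp
    · rw [if_neg h, if_neg fun h' => h h'.symm]; simp

theorem swL_swL {a b : L} (hab : a ≠ b) {p : List L} (hp : Rd p) : swL a b (swL a b p) = p := by
  induction p using gap_ind (a := a) with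
  | h0 => simp [swL_nil]
  | h1 x => simp [swL_one]
  | h2 y l ih =>
    have e := ih (rd_cons.1 hp).2
    obtain ⟨t, ht⟩ := swL_cons a b y l
    rw [ht] at e
    rw [swL_a, ht, swL_a, e]
  | h3 x hx => simp [swL_xa]
  | h4 x z l hx ih =>
    obtain ⟨h1, h2⟩ := rd_cons.1 (rd_cons.1 hp).2
    have e := ih h2
    obtain ⟨t, ht⟩ := swL_cons a b z l
    rw [ht] at e
    rw [swL_xaz hx, ht]
    split_ifs with h
    · rw [swL_xaz hx, if_pos h, e]
    · rw [swL_xy hx h1.symm, if_neg h, e]
  | h5 x y l hx hy ih =>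
    have e := ih (rd_cons.1 hp).2
    obtain ⟨t, ht⟩ := swL_cons a b y l
    rw [ht] at e
    rw [swL_xy hx hy, ht]
    split_ifs with h
    · rw [swL_xy hx hy, if_pos h, e]
    · rw [swL_xaz hx, if_neg h, e]

/-- Gluing at a letter which is not `a`, or is `a` with both or no neighbours equal to `b`. -/
theorem swL_glue {a b : L} (hab : a ≠ b) {A B : List L} {x y z : L}
    (hp : Rd (A ++ x :: y :: z :: B)) (h : y ≠ a ∨ (x = b ↔ z = b)) :
    swL a b (A ++ x :: y :: z :: B) = swL a b (A ++ [x, y]) ++ (swL a b (y :: z :: B)).tail := by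
  by_cases hy : y = a
  · subst hy
    have hx : x ≠ y := (rd_cons.1 (List.isChain_append.1 hp).2.1).1
    rw [swL_cut hx, swL_cut hx A [y], swL_xaz hx, if_pos (h.resolve_left fun e => e rfl), swL_xa,
      swL_a]
    simp
  · have := swL_cut (b := b) hy (A ++ [x]) (z :: B)
    simpa only [List.append_assoc, List.cons_append, List.nil_append] using this

theorem ks_inj {k : L → κ} (hk : Function.Injective k) (a b : L) :
    Function.Injective (ks k a b) := hk.comp (Equiv.swap a b).injective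

namespace LsGain

variable {S : Set L} {k : L → κ} {a b x y z : L}

theorem ks_a : ks k a b a = k b := by simp [ks]

theorem ks_b : ks k a b b = k a := by simp [ks]

theorem ks_c (h : x ≠ a) (h' : x ≠ b) : ks k a b x = k x := by
  simp [ks, Equiv.swap_apply_of_ne_of_ne h h']

/-- The gain is `N` for all position functions. -/
def Gn (k : L → κ) (a b : L) (p : List L) (N : ℝ) : Prop :=
  ∀ ρ : L → ℝ, lin (ks k a b) ρ (swL a b p) = lin k ρ p + N * (ρ (fw k a b) - ρ (bw k a b))

theorem Gn.eq {p : List L} {N : ℝ} (hab : a ≠ b) (h : Gn k a b p N) : gn k a b p = N := by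
  have : bw k a b ≠ fw k a b := by
    unfold bw fw
    split_ifs
    exacts [hab.symm, hab]
  rw [gn, h, if_pos rfl, if_neg this]
  ring

theorem lin_swL_cut (hy : y ≠ a) (k : L → κ) (ρ : L → ℝ) (A B : List L) :
    lin k ρ (swL a b (A ++ y :: B)) =
      lin k ρ (swL a b (A ++ [y])) + lin k ρ (swL a b (y :: B)) := by
  have h := swL_last a b (A ++ [y])
  rw [List.getLast?_concat] at h
  obtain ⟨A', hA'⟩ := List.getLast?_eq_some_iff.1 h
  rw [swL_cut hy, hA', List.append_assoc, List.singleton_append, lin_cut, swL_tail]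

theorem Gn.cut (hy : y ≠ a) {A B : List L} {N N' : ℝ} (h : Gn k a b (A ++ [y]) N)
    (h' : Gn k a b (y :: B) N') : Gn k a b (A ++ y :: B) (N + N') := fun ρ => by
  rw [lin_swL_cut hy, h, h', lin_cut k ρ A y B]
  ring

theorem gn_cut (hy : y ≠ a) (A B : List L) :
    gn k a b (A ++ y :: B) = gn k a b (A ++ [y]) + gn k a b (y :: B) := by
  rw [gn, gn, gn, lin_swL_cut hy, lin_cut k _ A y B]
  ring

theorem gn_one : gn k a b [x] = 0 := by simp [gn, swL_one, lin]

theorem Gn_one : Gn k a b [x] 0 := fun ρ => by simp [swL_one, lin]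

variable (hk : Function.Injective k) (hA : Adjc S k a b)
include hk hA

theorem o_ba : k b < k a ↔ ¬ k a < k b :=
  ⟨fun h => h.not_gt, fun h => (lt_or_gt_of_ne (hk.ne hA.ne)).resolve_left h⟩

omit hA in
theorem o_ca (h : x ≠ a) : k x < k a ↔ ¬ k a < k x :=
  ⟨fun h => h.not_gt, fun h' => (lt_or_gt_of_ne (hk.ne h)).resolve_right h'⟩

theorem o_cb (hx : x ∈ S) (h : x ≠ a) (h' : x ≠ b) : k x < k b ↔ ¬ k a < k x := by
  rw [← hA.adj x hx h h', o_ca hk h]

theorem o_bc (hx : x ∈ S) (h : x ≠ a) (h' : x ≠ b) : k b < k x ↔ k a < k x := by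
  rw [o_ca hk h'.symm, o_cb hk hA hx h h', not_not]

theorem Gn_ay (hS : y ∈ S) (hy : y ≠ a) : Gn k a b [a, y] (if y = b then 2 else 0) := by
  intro ρ
  by_cases h : y = b
  · subst h
    by_cases c : k a < k y <;>
      simp [swL_a, swL_one, lin, ks_a, ks_b, fw, bw, o_ba hk hA, c] <;> ring
  · simp [swL_a, swL_one, lin, ks_a, ks_c hy h, h, o_bc hk hA hS hy h]

theorem Gn_xa (hS : x ∈ S) (hx : x ≠ a) : Gn k a b [x, a] (if x = b then 2 else 0) := by
  intro ρ
  by_cases h : x = b
  · subst h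
    by_cases c : k a < k x <;>
      simp [swL_xa, lin, ks_a, ks_b, fw, bw, o_ba hk hA, c] <;> ring
  · simp [swL_xa, lin, ks_a, ks_c hx h, h, hA.adj x hS hx h]

theorem Gn_xaz (hS : x ∈ S) (hS' : z ∈ S) (hx : x ≠ a) (hz : z ≠ a) :
    Gn k a b [x, a, z] (if x = b ∧ z = b then 4 else if x ≠ b ∧ z ≠ b then 0
      else if (k x < k a ↔ k a < k z) then 0 else 2) := by
  intro ρ
  by_cases h : x = b <;> by_cases h' : z = b
  · subst h h'
    by_cases c : k a < k z <;>
      simp [swL_xaz hx, swL_one, lin, ks_a, ks_b, fw, bw, o_ba hk hA, c] <;> ring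
  · subst h
    by_cases c : k a < k x <;> by_cases c' : k a < k z <;>
      simp [swL_xaz hx, swL_one, lin, ks_b, ks_c hz h', fw, bw, o_ba hk hA, c, c', h'] <;> ring
  · subst h'
    by_cases c : k a < k z <;> by_cases c' : k a < k x <;>
      simp [swL_xaz hx, swL_one, lin, ks_b, ks_c hx h, fw, bw, o_ca hk hx, c, c', h] <;> ring
  · simp [swL_xaz hx, swL_one, lin, ks_a, ks_c hx h, ks_c hz h', h, h', hA.adj x hS hx h,
      o_bc hk hA hS' hz h']

theorem Gn_xy (hS : x ∈ S) (hS' : y ∈ S) (hx : x ≠ a) (hy : y ≠ a) (hxy : x ≠ y) :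
    Gn k a b [x, y] (if x ≠ b ∧ y ≠ b then 0
      else if (ks k a b x < ks k a b a ↔ ks k a b a < ks k a b y) then 0 else 2) := by
  intro ρ
  by_cases h : x = b <;> by_cases h' : y = b
  · exact absurd (h.trans h'.symm) hxy
  · subst h
    by_cases c : k a < k x <;> by_cases c' : k a < k y <;>
      simp [swL_xy hx hy, swL_one, lin, ks_a, ks_b, ks_c hy h', fw, bw, o_bc hk hA hS' hy h', c, c',
        h'] <;> ring
  · subst h'
    by_cases c : k a < k y <;> by_cases c' : k a < k x <;>
      simp [swL_xy hx hy, swL_one, lin, ks_a, ks_b, ks_c hx h, fw, bw, o_cb hk hA hS hx h,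
        o_ba hk hA, c, c', h] <;> ring
  · simp [swL_xy hx hy, swL_one, lin, ks_c hx h, ks_c hy h', h, h']

theorem exists_Gn {p : List L} (hp : Pth S p) : ∃ N, (N = 0 ∨ 2 ≤ N) ∧ Gn k a b p N := by
  have key : ∀ {u N : ℝ}, (u = 0 ∨ 2 ≤ u) → (N = 0 ∨ 2 ≤ N) → (u + N = 0 ∨ 2 ≤ u + N) := by
    rintro u N (h | h) (h' | h')
    · left; linarith
    all_goals right; linarith
  induction p using gap_ind (a := a) with
  | h0 => exact absurd rfl hp.ne
  | h1 x => exact ⟨0, .inl rfl, Gn_one⟩
  | h2 y l ih =>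
    obtain ⟨N, h1, h2⟩ := ih (pth_tail hp)
    have hy := (rd_cons.1 hp.rd).1.symm
    refine ⟨_, key ?_ h1, Gn.cut (A := [a]) hy (Gn_ay hk hA (hp.sub y (by simp)) hy) h2⟩
    split_ifs <;> simp
  | h3 x hx =>
    refine ⟨_, ?_, Gn_xa hk hA (hp.sub x (by simp)) hx⟩
    split_ifs <;> simp
  | h4 x z l hx ih =>
    obtain ⟨N, h1, h2⟩ := ih (pth_tail (pth_tail hp))
    have hz := (rd_cons.1 (pth_tail hp).rd).1.symm
    refine ⟨_, key ?_ h1, Gn.cut (A := [x, a]) hz
      (Gn_xaz hk hA (hp.sub x (by simp)) (hp.sub z (by simp)) hx hz) h2⟩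
    split_ifs <;> norm_num
  | h5 x y l hx hy ih =>
    obtain ⟨N, h1, h2⟩ := ih (pth_tail hp)
    refine ⟨_, key ?_ h1, Gn.cut (A := [x]) hy
      (Gn_xy hk hA (hp.sub x (by simp)) (hp.sub y (by simp)) hx hy (rd_cons.1 hp.rd).1) h2⟩
    split_ifs <;> norm_num

theorem gn_nonneg {p : List L} (hp : Pth S p) : 0 ≤ gn k a b p := by
  obtain ⟨N, h1, h2⟩ := exists_Gn hk hA hp
  rw [h2.eq hA.ne]
  rcases h1 with h | h <;> linarith

theorem gn_a {l : List L} (hp : Pth S (a :: y :: l)) :
    gn k a b (a :: y :: l) = (if y = b then 2 else 0) + gn k a b (y :: l) := by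
  have hy := (rd_cons.1 hp.rd).1.symm
  rw [← (Gn_ay hk hA (hp.sub y (by simp)) hy).eq hA.ne]
  exact gn_cut hy [a] l

theorem gn_xa (hx : x ≠ a) (hS : x ∈ S) : gn k a b [x, a] = if x = b then 2 else 0 :=
  (Gn_xa hk hA hS hx).eq hA.ne

theorem gn_xaz {l : List L} (hp : Pth S (x :: a :: z :: l)) :
    gn k a b (x :: a :: z :: l) = (if x = b ∧ z = b then 4 else if x ≠ b ∧ z ≠ b then 0
      else if (k x < k a ↔ k a < k z) then 0 else 2) + gn k a b (z :: l) := by
  have hz := (rd_cons.1 (pth_tail hp).rd).1.symm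
  rw [← (Gn_xaz hk hA (hp.sub x (by simp)) (hp.sub z (by simp)) (rd_cons.1 hp.rd).1 hz).eq hA.ne]
  exact gn_cut hz [x, a] l

theorem gn_xy {l : List L} (hx : x ≠ a) (hy : y ≠ a) (hp : Pth S (x :: y :: l)) :
    gn k a b (x :: y :: l) = (if x ≠ b ∧ y ≠ b then 0
      else if (ks k a b x < ks k a b a ↔ ks k a b a < ks k a b y) then 0 else 2) +
        gn k a b (y :: l) := by
  rw [← (Gn_xy hk hA (hp.sub x (by simp)) (hp.sub y (by simp)) hx hy (rd_cons.1 hp.rd).1).eq hA.ne]
  exact gn_cut hy [x] l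

theorem d_ay (hS : y ∈ S) (hy : y ≠ a) (h : y ≠ b) : ks k a b a < ks k a b y ↔ k a < k y := by
  rw [ks_a, ks_c hy h, o_bc hk hA hS hy h]

omit hk in
theorem d_xa (hS : x ∈ S) (hx : x ≠ a) (h : x ≠ b) : ks k a b x < ks k a b a ↔ k x < k a := by
  rw [ks_a, ks_c hx h, hA.adj x hS hx h]

omit hk hA in
theorem d_xaz (hx : x ≠ a) (hz : z ≠ a) (h : ¬ (x = b ↔ z = b)) (h' : k x < k a ↔ k a < k z) :
    ks k a b x < ks k a b z ↔ k x < k a := by
  by_cases e : x = b
  · rw [h', e, ks_b, ks_c hz fun e' => h (iff_of_true e e')]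
  · have e' : z = b := by tauto
    rw [e', ks_b, ks_c hx e]

omit hk hA in
theorem d_xy (hx : x ≠ a) (hy : y ≠ a) (h : ¬ (x = b ↔ y = b))
    (h' : ks k a b x < ks k a b a ↔ ks k a b a < ks k a b y) :
    ks k a b x < ks k a b a ↔ k x < k y := by
  by_cases e : x = b
  · rw [h', e, ks_a, ks_c hy fun e' => h (iff_of_true e e')]
  · have e' : y = b := by tauto
    rw [e', ks_a, ks_c hx e]

/-- The first gap is `x, a, z`. -/
theorem gap_xaz {l : List L} (hp : Pth S (x :: a :: z :: l)) :
    2 + gn k a b (z :: l) ≤ gn k a b (x :: a :: z :: l) ∨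
      gn k a b (x :: a :: z :: l) = gn k a b (z :: l) ∧
      ((swL a b (x :: a :: z :: l) = x :: a :: swL a b (z :: l) ∧
        (ks k a b x < ks k a b a ↔ k x < k a) ∧ (ks k a b a < ks k a b z ↔ k a < k z)) ∨
      (swL a b (x :: a :: z :: l) = x :: swL a b (z :: l) ∧
        (ks k a b x < ks k a b z ↔ k x < k a) ∧ (k x < k a ↔ k a < k z))) := by
  have hx := (rd_cons.1 hp.rd).1
  have hz := (rd_cons.1 (pth_tail hp).rd).1.symm
  rw [gn_xaz hk hA hp, swL_xaz hx]
  by_cases c1 : x = b ∧ z = b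
  · left; rw [if_pos c1]; linarith
  by_cases c2 : x ≠ b ∧ z ≠ b
  · rw [if_neg c1, if_pos c2, if_pos (iff_of_false c2.1 c2.2)]
    exact .inr ⟨zero_add _, .inl ⟨rfl, d_xa hA (hp.sub x (by simp)) hx c2.1,
      d_ay hk hA (hp.sub z (by simp)) hz c2.2⟩⟩
  have c3 : ¬ (x = b ↔ z = b) := by tauto
  rw [if_neg c1, if_neg c2, if_neg c3]
  by_cases c : k x < k a ↔ k a < k z
  · rw [if_pos c]
    exact .inr ⟨zero_add _, .inr ⟨rfl, d_xaz hx hz c3 c, c⟩⟩
  · rw [if_neg c]
    exact .inl le_rfl

/-- The first gap is `x, y`. -/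
theorem gap_xy {l : List L} (hx : x ≠ a) (hy : y ≠ a) (hp : Pth S (x :: y :: l)) :
    2 + gn k a b (y :: l) ≤ gn k a b (x :: y :: l) ∨
      gn k a b (x :: y :: l) = gn k a b (y :: l) ∧
      ((swL a b (x :: y :: l) = x :: swL a b (y :: l) ∧ (ks k a b x < ks k a b y ↔ k x < k y)) ∨
      (swL a b (x :: y :: l) = x :: a :: swL a b (y :: l) ∧
        (ks k a b x < ks k a b a ↔ k x < k y) ∧ (ks k a b a < ks k a b y ↔ k x < k y))) := by
  rw [gn_xy hk hA hx hy hp, swL_xy hx hy]
  by_cases c2 : x ≠ b ∧ y ≠ b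
  · rw [if_pos c2, if_pos (iff_of_false c2.1 c2.2), ks_c hx c2.1, ks_c hy c2.2]
    exact .inr ⟨zero_add _, .inl ⟨rfl, Iff.rfl⟩⟩
  have c3 : ¬ (x = b ↔ y = b) := fun h => by
    have : x = b ∧ y = b := by tauto
    exact (rd_cons.1 hp.rd).1 (this.1.trans this.2.symm)
  rw [if_neg c2, if_neg c3]
  by_cases c : ks k a b x < ks k a b a ↔ ks k a b a < ks k a b y
  · rw [if_pos c]
    exact .inr ⟨zero_add _, .inr ⟨rfl, d_xy hx hy c3 c, c.symm.trans (d_xy hx hy c3 c)⟩⟩
  · rw [if_neg c]
    exact .inl le_rfl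

/-- The first gap is `a, y`. -/
theorem gap_ay {l : List L} (hp : Pth S (a :: y :: l)) :
    2 + gn k a b (y :: l) ≤ gn k a b (a :: y :: l) ∨
      gn k a b (a :: y :: l) = gn k a b (y :: l) ∧ (ks k a b a < ks k a b y ↔ k a < k y) := by
  rw [gn_a hk hA hp]
  split_ifs with h
  · exact .inl le_rfl
  · exact .inr ⟨zero_add _, d_ay hk hA (hp.sub y (by simp)) (rd_cons.1 hp.rd).1.symm h⟩

/-- The last gap is `x, a`. -/
theorem gap_xa (hp : Pth S [x, a]) :
    2 ≤ gn k a b [x, a] ∨ gn k a b [x, a] = 0 ∧ (ks k a b x < ks k a b a ↔ k x < k a) := by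
  have hx := (rd_cons.1 hp.rd).1
  rw [gn_xa hk hA hx (hp.sub x (by simp))]
  split_ifs with h
  · exact .inl le_rfl
  · exact .inr ⟨rfl, d_xa hA (hp.sub x (by simp)) hx h⟩

omit hA in
theorem mono_cons {d : Bool} {l : List L} (h : x ≠ y) :
    Mono k d (x :: y :: l) ↔ (k x < k y ↔ d = true) ∧ Mono k d (y :: l) := by
  refine List.isChain_cons_cons.trans (and_congr_left fun _ => ?_)
  cases d
  · simp only [Bool.false_eq_true, if_false, iff_false, o_ca hk h.symm]
  · simp only [if_true, iff_true]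

omit hk hA

/-- The indicator of a change of direction. -/
noncomputable def J (d e : Prop) : ℕ := if (d ↔ e) then 0 else 1

theorem J_le (d e : Prop) : J d e ≤ 1 := by unfold J; split_ifs <;> simp

theorem J_self (d : Prop) : J d d = 0 := if_pos Iff.rfl

/-- The number of turns with a weight for the first direction. -/
noncomputable def T (k : L → κ) : (Prop → ℕ) → List L → ℕ
  | f, x :: y :: l => f (k x < k y) + T k (J (k x < k y)) (y :: l)
  | _, _ => 0

theorem T_J (l : List L) : T k (J (k x < k y)) (y :: l) = turns k (x :: y :: l) := by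
  induction l generalizing x y with
  | nil => simp [T, turns]
  | cons z l ih => rw [T, ih, turns, J]; congr

theorem T_zero (p : List L) : T k (fun _ => 0) p = turns k p := by
  rcases p with _ | ⟨x, _ | ⟨y, l⟩⟩
  · simp [T, turns]
  · simp [T, turns]
  · rw [T, T_J, zero_add]

theorem T_le (d e : Prop) (p : List L) : T k (J d) p ≤ T k (J e) p + 1 := by
  rcases p with _ | ⟨x, _ | ⟨y, l⟩⟩
  · simp [T]
  · simp [T]
  · have := J_le d (k x < k y)
    rw [T, T]
    omega

theorem T_tail (f : Prop → ℕ) (x y : L) (l : List L) :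
    ∃ e, T k (J e) (y :: l) ≤ T k f (x :: y :: l) := ⟨_, by rw [T]; exact Nat.le_add_left _ _⟩

include hk hA in
theorem T_swL {p : List L} (hp : Pth S p) (f : Prop → ℕ) (hf : ∀ e, f e ≤ 1) :
    (T k f p : ℝ) - 3 * gn k a b p ≤ T (ks k a b) f (swL a b p) := by
  have big : ∀ {u v g g' : ℝ} {n n' m m' : ℕ}, u - 3 * g' ≤ n → 2 + g' ≤ g → v ≤ u + 2 →
      n ≤ n' + 1 → n' ≤ m → m ≤ m' → v - 3 * g ≤ m' := by
    intro u v g g' n n' m m' h1 h2 h3 h4 h5 h6
    have : (n : ℝ) ≤ m' + 1 := by exact_mod_cast (by omega : n ≤ m' + 1)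
    linarith
  induction p using gap_ind (a := a) generalizing f with
  | h0 => exact absurd rfl hp.ne
  | h1 x => simp [T, swL_one, gn_one]
  | h2 y l ih =>
    have i := ih (pth_tail hp) (J (k a < k y)) (J_le _)
    obtain ⟨t, ht⟩ := swL_cons a b y l
    rw [swL_a]
    rw [ht] at i ⊢
    rcases gap_ay hk hA hp with h | ⟨h, e⟩
    · obtain ⟨e, he⟩ := T_tail (k := ks k a b) f a y t
      refine big i h ?_ (T_le _ e _) he le_rfl
      have := hf (k a < k y)
      rw [T]
      exact_mod_cast (by omega)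
    · rw [h, T, T, propext e]
      push_cast
      linarith
  | h3 x hx =>
    rw [swL_xa]
    rcases gap_xa hk hA hp with h | ⟨h, e⟩
    · have h1 : (T k f [x, a] : ℝ) ≤ 1 := by
        have := hf (k x < k a)
        simp only [T]
        exact_mod_cast (by omega)
      have h2 : (0 : ℝ) ≤ T (ks k a b) f [x, a] := Nat.cast_nonneg _
      linarith
    · simp only [h, T, propext e]
      simp
  | h4 x z l hx ih =>
    have i := ih (pth_tail (pth_tail hp)) (J (k a < k z)) (J_le _)
    obtain ⟨t, ht⟩ := swL_cons a b z l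
    rcases gap_xaz hk hA hp with h | ⟨h, ⟨e, e1, e2⟩ | ⟨e, e1, e2⟩⟩
    · have h3 : (T k f (x :: a :: z :: l) : ℝ) ≤ T k (J (k a < k z)) (z :: l) + 2 := by
        have := hf (k x < k a)
        have := J_le (k x < k a) (k a < k z)
        rw [T, T]
        exact_mod_cast (by omega)
      rw [swL_xaz hx]
      rw [ht] at i ⊢
      split_ifs
      · obtain ⟨e, he⟩ := T_tail (k := ks k a b) f x a (z :: t)
        obtain ⟨e', he'⟩ := T_tail (k := ks k a b) (J e) a z t
        exact big i h h3 (T_le _ e' _) he' he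
      · obtain ⟨e, he⟩ := T_tail (k := ks k a b) f x z t
        exact big i h h3 (T_le _ e _) he le_rfl
    · rw [e]
      rw [ht] at i ⊢
      rw [h, T, T, T, T, propext e1, propext e2]
      push_cast
      linarith
    · rw [e]
      rw [ht] at i ⊢
      rw [h, T, T, T, propext e1, propext e2, J_self]
      push_cast
      linarith
  | h5 x y l hx hy ih =>
    have i := ih (pth_tail hp) (J (k x < k y)) (J_le _)
    obtain ⟨t, ht⟩ := swL_cons a b y l
    rcases gap_xy hk hA hx hy hp with h | ⟨h, ⟨e, e1⟩ | ⟨e, e1, e2⟩⟩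
    · have h3 : (T k f (x :: y :: l) : ℝ) ≤ T k (J (k x < k y)) (y :: l) + 2 := by
        have := hf (k x < k y)
        rw [T]
        exact_mod_cast (by omega)
      rw [swL_xy hx hy]
      rw [ht] at i ⊢
      split_ifs
      · obtain ⟨e, he⟩ := T_tail (k := ks k a b) f x y t
        exact big i h h3 (T_le _ e _) he le_rfl
      · obtain ⟨e, he⟩ := T_tail (k := ks k a b) f x a (y :: t)
        obtain ⟨e', he'⟩ := T_tail (k := ks k a b) (J e) a y t
        exact big i h h3 (T_le _ e' _) he' he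
    · rw [e]
      rw [ht] at i ⊢
      rw [h, T, T, propext e1]
      push_cast
      linarith
    · rw [e]
      rw [ht] at i ⊢
      rw [h, T, T, T, propext e1, propext e2, J_self]
      push_cast
      linarith

end LsGain

section
variable {S : Set L} {k : L → κ} {a b : L} (hk : Function.Injective k) (hA : Adjc S k a b)
include hk hA

theorem gain_eq {p : List L} (hp : Pth S p) (ρ : L → ℝ) :
    lin (ks k a b) ρ (swL a b p) = lin k ρ p + gn k a b p * (ρ (fw k a b) - ρ (bw k a b)) := by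
  obtain ⟨N, -, h⟩ := exists_Gn hk hA hp
  rw [h.eq hA.ne, h]

theorem gn_cases {p : List L} (hp : Pth S p) : gn k a b p = 0 ∨ 2 ≤ gn k a b p := by
  obtain ⟨N, h1, h⟩ := exists_Gn hk hA hp
  rwa [h.eq hA.ne]

theorem gn_reverse {p : List L} (hp : Pth S p) : gn k a b p.reverse = gn k a b p := by
  rw [gn, gn, swL_reverse hA.ne hp.rd, lin_reverse hk _ hp.rd,
    lin_reverse (ks_inj hk a b) _ (swL_pth hA.ha hA.ne hp).rd]

theorem gn_mono {p : List L} (hp : Pth S p) {d : Bool} (hm : Mono k d p) (h0 : gn k a b p = 0) :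
    Mono (ks k a b) d (swL a b p) := by
  have hk' := ks_inj hk a b
  have rd := (swL_pth hA.ha hA.ne hp).rd
  induction p using gap_ind (a := a) with
  | h0 => exact absurd rfl hp.ne
  | h1 x => rw [swL_one]; exact List.isChain_singleton x
  | h2 y l ih =>
    have n := gn_nonneg hk hA (pth_tail hp)
    obtain ⟨m1, m2⟩ := (mono_cons hk (rd_cons.1 hp.rd).1).1 hm
    obtain ⟨t, ht⟩ := swL_cons a b y l
    rcases gap_ay hk hA hp with h | ⟨h, e⟩
    · linarith
    have i := ih (pth_tail hp) m2 (h ▸ h0) (swL_pth hA.ha hA.ne (pth_tail hp)).rd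
    rw [swL_a]
    rw [ht] at i ⊢
    exact (mono_cons hk' (rd_cons.1 hp.rd).1).2 ⟨e.trans m1, i⟩
  | h3 x hx =>
    rcases gap_xa hk hA hp with h | ⟨h, e⟩
    · linarith
    rw [swL_xa]
    exact (mono_cons hk' hx).2 ⟨e.trans ((mono_cons hk hx).1 hm).1, List.isChain_singleton a⟩
  | h4 x z l hx ih =>
    have hp2 := pth_tail (pth_tail hp)
    have hz := (rd_cons.1 (pth_tail hp).rd).1
    have n := gn_nonneg hk hA hp2
    obtain ⟨m1, m2⟩ := (mono_cons hk hx).1 hm
    obtain ⟨m2, m3⟩ := (mono_cons hk hz).1 m2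
    obtain ⟨t, ht⟩ := swL_cons a b z l
    rcases gap_xaz hk hA hp with h | ⟨h, e⟩
    · linarith
    have i := ih hp2 m3 (h ▸ h0) (swL_pth hA.ha hA.ne hp2).rd
    rcases e with ⟨e, e1, e2⟩ | ⟨e, e1, -⟩
    · rw [e]
      rw [ht] at i ⊢
      exact (mono_cons hk' hx).2 ⟨e1.trans m1, (mono_cons hk' hz).2 ⟨e2.trans m2, i⟩⟩
    · rw [e] at rd ⊢
      rw [ht] at i rd ⊢
      exact (mono_cons hk' (rd_cons.1 rd).1).2 ⟨e1.trans m1, i⟩
  | h5 x y l hx hy ih =>
    have n := gn_nonneg hk hA (pth_tail hp)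
    obtain ⟨m1, m2⟩ := (mono_cons hk (rd_cons.1 hp.rd).1).1 hm
    obtain ⟨t, ht⟩ := swL_cons a b y l
    rcases gap_xy hk hA hx hy hp with h | ⟨h, e⟩
    · linarith
    have i := ih (pth_tail hp) m2 (h ▸ h0) (swL_pth hA.ha hA.ne (pth_tail hp)).rd
    rcases e with ⟨e, e1⟩ | ⟨e, e1, e2⟩
    · rw [e]
      rw [ht] at i ⊢
      exact (mono_cons hk' (rd_cons.1 hp.rd).1).2 ⟨e1.trans m1, i⟩
    · rw [e]
      rw [ht] at i ⊢
      exact (mono_cons hk' hx).2 ⟨e1.trans m1, (mono_cons hk' hy.symm).2 ⟨e2.trans m1, i⟩⟩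

/-- A path of gain zero does not start with `a, b`. -/
theorem gn_start {B : List L} (hp : Pth S (a :: b :: B)) : 2 ≤ gn k a b (a :: b :: B) := by
  have n := gn_nonneg hk hA (pth_tail hp)
  rw [gn_a hk hA hp, if_pos rfl]
  linarith

/-- The first direction is kept if an initial piece has gain zero. -/
theorem gn_dir {x y : L} {A B : List L} (hp : Pth S (x :: y :: A ++ B))
    (h0 : gn k a b (x :: y :: A) = 0) :
    ∃ y' C, swL a b (x :: y :: A ++ B) = x :: y' :: C ∧
      (ks k a b x < ks k a b y' ↔ k x < k y) := by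
  have hq : Pth S (x :: y :: A) := ⟨(List.isChain_append.1 hp.rd).1, List.cons_ne_nil _ _,
    fun w hw => hp.sub w (List.mem_append_left _ hw)⟩
  have n := gn_nonneg hk hA (pth_tail hq)
  simp only [List.cons_append] at hp ⊢
  obtain ⟨t, ht⟩ := swL_cons a b y (A ++ B)
  by_cases hx : x = a
  · subst hx
    rcases gap_ay hk hA hq with h | ⟨-, e⟩
    · linarith
    exact ⟨y, t, by rw [swL_a, ht], e⟩
  by_cases hy : y = a
  · subst hy
    have nb : x ≠ b → ∃ y' C, swL y b (x :: y :: (A ++ B)) = x :: y' :: C ∧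
        (ks k y b x < ks k y b y' ↔ k x < k y) := fun h => by
      have e := d_xa hA (hp.sub x (by simp)) hx h
      generalize A ++ B = C
      rcases C with _ | ⟨z, C⟩
      · exact ⟨y, [], swL_xa, e⟩
      rw [swL_xaz hx]
      split_ifs with c
      · exact ⟨y, _, rfl, e⟩
      · have e' : z = b := by tauto
        obtain ⟨t, ht⟩ := swL_cons y b z C
        exact ⟨z, t, by rw [ht], by rw [e', ks_b, ks_c hx h]⟩
    by_cases h : x = b
    swap
    · exact nb h
    rcases A with _ | ⟨z, A⟩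
    · rw [gn_xa hk hA hx (hp.sub x (by simp)), if_pos h] at h0
      norm_num at h0
    have n := gn_nonneg hk hA (pth_tail (pth_tail hq))
    have hz := (rd_cons.1 (pth_tail hq).rd).1.symm
    rw [gn_xaz hk hA hq] at h0
    have c : ¬ (x = b ∧ z = b) := fun c => by rw [if_pos c] at h0; linarith
    have c' : ¬ (x = b ↔ z = b) := by tauto
    rw [if_neg c, if_neg fun c => c.1 h] at h0
    obtain ⟨t, ht⟩ := swL_cons y b z (A ++ B)
    refine ⟨z, t, by rw [List.cons_append, swL_xaz hx, if_neg c', ht], d_xaz hx hz c' ?_⟩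
    by_contra c''
    rw [if_neg c''] at h0
    linarith
  · rw [swL_xy hx hy]
    rcases gap_xy hk hA hx hy hq with h | ⟨-, ⟨e, e1⟩ | ⟨e, e1, -⟩⟩
    · linarith
    · split_ifs with c
      · exact ⟨y, t, by rw [ht], e1⟩
      · obtain ⟨t, ht⟩ := swL_cons a b y A
        rw [swL_xy hx hy, if_neg c, ht] at e
        exact (hy (List.cons.inj (List.cons.inj e).2).1.symm).elim
    · split_ifs with c
      · obtain ⟨t, ht⟩ := swL_cons a b y A
        rw [swL_xy hx hy, if_pos c, ht] at e
        exact (hy (List.cons.inj (List.cons.inj e).2).1).elim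
      · exact ⟨a, _, rfl, e1⟩

omit hk in
theorem gn_glue_LsGain {A B : List L} {x y z : L} (hp : Pth S (A ++ x :: y :: z :: B))
    (h : y ≠ a ∨ (x = b ↔ z = b)) :
    gn k a b (A ++ x :: y :: z :: B) = gn k a b (A ++ [x, y]) + gn k a b (y :: z :: B) := by
  have h1 := swL_last a b (A ++ [x, y])
  have e : A ++ [x, y] = (A ++ [x]) ++ [y] := by simp
  rw [e, List.getLast?_concat, ← e] at h1
  obtain ⟨A', hA'⟩ := List.getLast?_eq_some_iff.1 h1
  have e2 := lin_cut k (fun x => if x = fw k a b then 1 else 0) (A ++ [x]) y (z :: B)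
  rw [← e, List.append_assoc, List.singleton_append] at e2
  rw [gn, gn, gn, swL_glue hA.ne hp.rd h, hA', List.append_assoc, List.singleton_append, lin_cut,
    swL_tail, e2]
  ring

/-- The gain is additive when cutting at a turn. -/
theorem gn_turn {A B : List L} {x y z : L} (hp : Pth S (A ++ x :: y :: z :: B))
    (h : ¬ (k x < k y ↔ k y < k z)) :
    gn k a b (A ++ x :: y :: z :: B) = gn k a b (A ++ [x, y]) + gn k a b (y :: z :: B) := by
  by_cases c0 : y ≠ a ∨ (x = b ↔ z = b)
  · exact gn_glue_LsGain hA hp c0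
  obtain ⟨hy, c⟩ := not_or.1 c0
  clear c0
  rw [not_not] at hy
  subst hy
  have hq : Pth S (x :: y :: z :: B) := ⟨(List.isChain_append.1 hp.rd).2.1, List.cons_ne_nil _ _,
    fun w hw => hp.sub w (List.mem_append_right _ hw)⟩
  have hx := (rd_cons.1 hq.rd).1
  rw [gn_cut hx, gn_cut hx A [y], gn_xaz hk hA hq, gn_a hk hA (pth_tail hq),
    gn_xa hk hA hx (hq.sub x (by simp)), if_neg h, if_neg (by tauto), if_neg (by tauto)]
  by_cases e : x = b
  · rw [if_pos e, if_neg fun e' => c (iff_of_true e e')]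
    ring
  · rw [if_neg e, if_pos (by tauto)]
    ring

/-- The gain is additive when cutting at a letter that survives. -/
theorem gn_glue {A B : List L} {x y z : L} (hp : Pth S (A ++ x :: y :: z :: B))
    (h : y ≠ a ∨ (x = b ↔ z = b)) :
    gn k a b (A ++ x :: y :: z :: B) = gn k a b (A ++ [x, y]) + gn k a b (y :: z :: B) :=
  (fun _ => gn_glue_LsGain hA hp h) hk

theorem turns_swL {p : List L} (hp : Pth S p) :
    (turns k p : ℝ) - 3 * gn k a b p ≤ turns (ks k a b) (swL a b p) := by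
  have := T_swL hk hA hp (fun _ => 0) fun _ => Nat.zero_le _
  rwa [T_zero, T_zero] at this

/-- In a path monotone before and after, an interior `b` forces an `a`. -/
theorem mono_imp {p : List L} (hp : Pth S p) {d : Bool} (hm : Mono k d p)
    (hm' : Mono (ks k a b) d (swL a b p)) (h1 : p.head? ≠ some b) (h2 : p.getLast? ≠ some b)
    (hb : b ∈ p) : a ∈ p := by
  by_contra ha
  obtain ⟨A, B, rfl⟩ := List.append_of_mem hb
  rcases B with _ | ⟨z, B⟩
  · exact h2 List.getLast?_concat
  rcases List.eq_nil_or_concat' A with rfl | ⟨A, x, rfl⟩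
  · exact h1 rfl
  have hx : x ≠ a := fun e => ha (by simp [e])
  have hz : z ≠ a := fun e => ha (by simp [e])
  rw [List.append_assoc, List.singleton_append] at hp hm'
  have r := rd_cons.1 (List.isChain_append.1 hp.rd).2.1
  have r' := (rd_cons.1 r.2).1
  rw [swL_cut hx, swL_xy hx hA.ne.symm, if_neg (by simp [r.1]), swL_xy hA.ne.symm hz,
    if_neg (by simp [r'.symm]), List.tail_cons] at hm'
  have m := (List.isChain_append.1 hm').2.1
  have hk' := ks_inj hk a b
  obtain ⟨m1, m2⟩ := (mono_cons hk' hA.ne).1 m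
  have m3 := ((mono_cons hk' hA.ne.symm).1 m2).1
  rw [o_ca hk' hA.ne.symm, m1] at m3
  tauto

end

end Pool.Agent.E5f
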