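import Pool.Agent.E5f.LsDefs

/-!
Block decompositions of reduced words and the signed variation as a sum over block syllables.
-/

set_option autoImplicit false

namespace Pool.Agent.E5f.Wall

section dec
variable {L C B : Type} [CommGroup C]

theorem red_nil_W : Red ([] : List (L × C)) := ⟨by simp, by simp⟩

theorem _root_.Pool.Agent.E5f.Red.tail_W {e : L × C} {w : List (L × C)} (h : Red (e :: w)) : Red w :=
  ⟨fun x hx => h.1 x (List.mem_cons_of_mem _ hx), h.2.tail⟩

theorem red_append_W {w w' : List (L × C)} (h : Red w) (h' : Red w')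
    (hj : ∀ e ∈ w.getLast?, ∀ e' ∈ w'.head?, e.1 ≠ e'.1) : Red (w ++ w') := by
  refine ⟨?_, ?_⟩
  · intro e he
    rcases List.mem_append.1 he with he | he
    · exact h.1 e he
    · exact h'.1 e he
  · rw [List.isChain_append]
    exact ⟨h.2, h'.2, hj⟩

theorem eq_one_of_wd_nil {g : W L C} (h : wd g = []) : g = 1 := by
  rw [← ev_wd g, h, ev_nil]

theorem lab_eq_nil {g : W L C} : lab g = [] ↔ g = 1 := by
  constructor
  · intro h
    apply eq_one_of_wd_nil
    simpa [lab] using h
  · rintro rfl
    simp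

theorem wd_mul_W {g h : W L C}
    (hj : ∀ a ∈ (lab g).getLast?, ∀ b ∈ (lab h).head?, a ≠ b) : wd (g * h) = wd g ++ wd h := by
  have : g * h = ev (wd g ++ wd h) := by rw [ev_append, ev_wd, ev_wd]
  rw [this]
  apply wd_ev
  apply red_append_W (red_wd g) (red_wd h)
  intro e he e' he'
  apply hj
  · simp only [lab, List.getLast?_map, Option.mem_def, Option.map_eq_some_iff]
    exact ⟨e, he, rfl⟩
  · simp only [lab, List.head?_map, Option.mem_def, Option.map_eq_some_iff]
    exact ⟨e', he', rfl⟩

theorem lab_mul_W {g h : W L C}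
    (hj : ∀ a ∈ (lab g).getLast?, ∀ b ∈ (lab h).head?, a ≠ b) : lab (g * h) = lab g ++ lab h := by
  simp only [lab] at *
  rw [wd_mul_W hj, List.map_append]

theorem lab_ev {w : List (L × C)} (h : Red w) : lab (ev w) = w.map Prod.fst := by
  rw [lab, wd_ev h]

theorem lab_chain (g : W L C) : (lab g).IsChain (· ≠ ·) := by
  rw [lab, List.isChain_map]
  exact (red_wd g).2

/-- Support and retraction. -/
theorem ret_ev_of_mem {S : Set L} {w : List (L × C)} (h : ∀ e ∈ w, e.1 ∈ S) :
    ret S (ev w) = ev w := by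
  induction w with
  | nil => simp
  | cons e w ih =>
    rw [ev_cons, map_mul, ret_lt, if_pos (h e (by simp)), ih (fun x hx => h x (by simp [hx]))]

theorem _root_.Pool.Agent.E5f.Sup.ret_eq_W {S : Set L} {g : W L C} (h : Sup S g) : ret S g = g := by
  conv_lhs => rw [← ev_wd g]
  rw [ret_ev_of_mem, ev_wd]
  intro e he
  exact h _ (List.mem_map.2 ⟨e, he, rfl⟩)

theorem sup_lt_mul {S : Set L} {l : L} (x : C) {g : W L C} (hl : l ∈ S) (h : Sup S g) :
    Sup S (lt l x * g) := by
  classical
  by_cases hx : x = 1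
  · simpa [hx] using h
  rcases hw : wd g with _ | ⟨e, w⟩
  · have hg := eq_one_of_wd_nil hw
    intro a ha
    rw [hg, mul_one, lab, wd_lt l hx] at ha
    simp at ha
    exact ha ▸ hl
  · have hr : Red (e :: w) := hw ▸ red_wd g
    have hg : g = lt e.1 e.2 * ev w := by rw [← ev_cons, ← hw, ev_wd]
    have hS : ∀ a ∈ (e :: w).map Prod.fst, a ∈ S := by
      intro a ha
      apply h
      rw [lab, hw]
      exact ha
    by_cases he : e.1 = l
    · by_cases hxe : x * e.2 = 1
      · have : lt l x * g = ev w := by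
          rw [hg, he, ← mul_assoc, ← lt_mul, hxe, lt_one, one_mul]
        intro a ha
        rw [this, lab_ev hr.tail_W] at ha
        exact hS a (by simp only [List.map_cons, List.mem_cons]; exact Or.inr ha)
      · have h1 : lt l x * g = ev ((l, x * e.2) :: w) := by
          rw [hg, he, ← mul_assoc, ← lt_mul, ev_cons]
        have h2 : Red ((l, x * e.2) :: w) := by
          refine ⟨?_, ?_⟩
          · intro y hy
            rcases List.mem_cons.1 hy with rfl | hy
            · exact hxe
            · exact hr.1 y (by simp [hy])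
          · have := hr.2
            rw [List.isChain_cons] at this ⊢
            refine ⟨fun y hy => ?_, this.2⟩
            have := this.1 y hy
            rwa [he] at this
        intro a ha
        rw [h1, lab_ev h2] at ha
        rcases List.mem_cons.1 ha with rfl | ha
        · exact hl
        · exact hS a (by simp only [List.map_cons, List.mem_cons]; exact Or.inr ha)
    · have h1 : lt l x * g = ev ((l, x) :: e :: w) := by
        rw [ev_cons, ← hw, ev_wd]
      have h2 : Red ((l, x) :: e :: w) := by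
        refine ⟨?_, ?_⟩
        · intro y hy
          rcases List.mem_cons.1 hy with rfl | hy
          · exact hx
          · exact hr.1 y hy
        · rw [List.isChain_cons_cons]
          exact ⟨fun h => he h.symm, hr.2⟩
      intro a ha
      rw [h1, lab_ev h2] at ha
      rcases List.mem_cons.1 ha with rfl | ha
      · exact hl
      · exact hS a ha

theorem sup_one_W (S : Set L) : Sup S (1 : W L C) := by
  intro a ha
  simp at ha

theorem sup_ret (S : Set L) (g : W L C) : Sup S (ret S g) := by
  classical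
  induction g using W_ind with
  | h1 => simpa using sup_one_W S
  | h l x g ih =>
    rw [map_mul, ret_lt]
    split_ifs with hl
    · exact sup_lt_mul x hl ih
    · simpa using ih

theorem sup_iff_ret {S : Set L} {g : W L C} : Sup S g ↔ ret S g = g :=
  ⟨Sup.ret_eq_W, fun h => h ▸ sup_ret S g⟩

theorem _root_.Pool.Agent.E5f.Sup.mul_W {S : Set L} {g h : W L C} (hg : Sup S g) (hh : Sup S h) : Sup S (g * h) := by
  rw [sup_iff_ret] at *
  rw [map_mul, hg, hh]

theorem _root_.Pool.Agent.E5f.Sup.inv_W {S : Set L} {g : W L C} (hg : Sup S g) : Sup S g⁻¹ := by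
  rw [sup_iff_ret] at *
  rw [map_inv, hg]

theorem sup_lt {S : Set L} {l : L} (x : C) (hl : l ∈ S) : Sup S (lt l x : W L C) := by
  simpa using sup_lt_mul x hl (sup_one_W S)

theorem _root_.Pool.Agent.E5f.Sup.mono_W {S S' : Set L} {g : W L C} (hg : Sup S g) (h : S ⊆ S') : Sup S' g :=
  fun a ha => h (hg a ha)

theorem sup_ev {S : Set L} {w : List (L × C)} (h : ∀ e ∈ w, e.1 ∈ S) : Sup S (ev w) :=
  sup_iff_ret.2 (ret_ev_of_mem h)

/-- A homomorphism that maps the letters of `S` into the subgroup of `S'`. -/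
theorem _root_.Pool.Agent.E5f.Sup.map_W {L' : Type} {S : Set L} {S' : Set L'} (τ : W L C →* W L' C)
    (hτ : ∀ l ∈ S, ∀ x, Sup S' (τ (lt l x))) {g : W L C} (hg : Sup S g) : Sup S' (τ g) := by
  have key : ∀ w : List (L × C), (∀ e ∈ w, e.1 ∈ S) → Sup S' (τ (ev w)) := by
    intro w
    induction w with
    | nil => intro _; simpa using sup_one_W S'
    | cons e w ih =>
      intro h
      rw [ev_cons, map_mul]
      exact (hτ _ (h e (by simp)) _).mul_W (ih (fun x hx => h x (by simp [hx])))
  have := key (wd g) (fun e he => hg _ (List.mem_map.2 ⟨e, he, rfl⟩))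
  rwa [ev_wd] at this

/-- Decomposition into nontrivial block syllables. -/
def BDec (blk : L → B) (d : List (B × W L C)) : Prop :=
  (∀ e ∈ d, e.2 ≠ 1 ∧ Sup (blk ⁻¹' {e.1}) e.2) ∧ d.IsChain (fun e e' => e.1 ≠ e'.1)

theorem BDec.tail {blk : L → B} {e : B × W L C} {d : List (B × W L C)} (h : BDec blk (e :: d)) :
    BDec blk d := ⟨fun x hx => h.1 x (List.mem_cons_of_mem _ hx), h.2.tail⟩

theorem BDec.lab_prod {blk : L → B} {d : List (B × W L C)} (h : BDec blk d) :
    lab (d.map Prod.snd).prod = (d.map (fun e => lab e.2)).flatten ∧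
      ∀ a ∈ (lab (d.map Prod.snd).prod).head?, ∃ e ∈ d.head?, blk a = e.1 := by
  induction d with
  | nil => simp
  | cons e d ih =>
    obtain ⟨ih1, ih2⟩ := ih h.tail
    have he := h.1 e (by simp)
    have hl : lab (e.2 * (d.map Prod.snd).prod) = lab e.2 ++ lab (d.map Prod.snd).prod := by
      apply lab_mul_W
      intro a ha b hb hab
      obtain ⟨e', he', hb'⟩ := ih2 b hb
      have ha' : blk a = e.1 := he.2 a (List.mem_of_mem_getLast? ha)
      have := (List.isChain_cons.1 h.2).1 e' he'
      exact this (by rw [← ha', ← hb', hab])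
    refine ⟨by simp only [List.map_cons, List.prod_cons, List.flatten_cons]; rw [hl, ih1], ?_⟩
    intro a ha
    simp only [List.map_cons, List.prod_cons] at ha
    rw [hl] at ha
    have hne : lab e.2 ≠ [] := fun h0 => he.1 (lab_eq_nil.1 h0)
    rcases hq : lab e.2 with _ | ⟨c, t⟩
    · exact absurd hq hne
    · rw [hq] at ha
      simp at ha
      refine ⟨e, by simp, ?_⟩
      exact he.2 a (by rw [hq, ← ha]; simp)

theorem exists_bdec (blk : L → B) (g : W L C) :
    ∃ d : List (B × W L C), BDec blk d ∧ g = (d.map Prod.snd).prod := by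
  classical
  induction g using W_ind with
  | h1 => exact ⟨[], ⟨by simp, by simp⟩, by simp⟩
  | h l x g ih =>
    obtain ⟨d, hd, rfl⟩ := ih
    by_cases hx : x = 1
    · exact ⟨d, hd, by simp [hx]⟩
    have hlt : (lt l x : W L C) ≠ 1 := by
      intro h0
      have := wd_lt l hx
      rw [h0] at this
      simp at this
    have hs : Sup (blk ⁻¹' {blk l}) (lt l x : W L C) := sup_lt x (by simp)
    rcases d with _ | ⟨e, d⟩
    · exact ⟨[(blk l, lt l x)], ⟨by simpa using ⟨hlt, hs⟩, by simp⟩, by simp⟩
    by_cases he : e.1 = blk l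
    · by_cases h1 : lt l x * e.2 = 1
      · refine ⟨d, hd.tail, ?_⟩
        simp only [List.map_cons, List.prod_cons]
        rw [← mul_assoc, h1, one_mul]
      · refine ⟨(e.1, lt l x * e.2) :: d, ⟨?_, ?_⟩, by simp [mul_assoc]⟩
        · intro y hy
          rcases List.mem_cons.1 hy with rfl | hy
          · exact ⟨h1, (he ▸ hs).mul_W (hd.1 e (by simp)).2⟩
          · exact hd.1 y (by simp [hy])
        · have := hd.2
          rw [List.isChain_cons] at this ⊢
          exact this
    · refine ⟨(blk l, lt l x) :: e :: d, ⟨?_, ?_⟩, by simp⟩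
      · intro y hy
        rcases List.mem_cons.1 hy with rfl | hy
        · exact ⟨hlt, hs⟩
        · exact hd.1 y hy
      · rw [List.isChain_cons_cons]
        exact ⟨fun h => he h.symm, hd.2⟩

/-- The image of a decomposition under an injective block preserving homomorphism. -/
theorem BDec.map {blk : L → B} {d : List (B × W L C)} (h : BDec blk d) (τ : W L C →* W L C)
    (hinj : Function.Injective τ) (hτ : ∀ l x, Sup (blk ⁻¹' {blk l}) (τ (lt l x))) :
    BDec blk (d.map (fun e => (e.1, τ e.2))) := by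
  refine ⟨?_, ?_⟩
  · intro e he
    obtain ⟨e', he', rfl⟩ := List.mem_map.1 he
    refine ⟨fun h0 => (h.1 e' he').1 (hinj (by simpa using h0)), ?_⟩
    refine Sup.map_W τ (fun l hl x => ?_) (h.1 e' he').2
    have : blk l = e'.1 := hl
    exact this ▸ hτ l x
  · rw [List.isChain_map]
    exact h.2

end dec


/-- The sequence of labels visited between two pointed points. -/
noncomputable def wsq {L C : Type} [CommGroup C] (l : L) (g : W L C) (m : L) : List L :=
  l :: (lab g ++ [m])

/-- Signed variation of `ρ` along a list, the signs being given by the order `k`. -/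
noncomputable def wLin {L K : Type} [LinearOrder K] (k : L → K) (ρ : L → ℝ) : List L → ℝ
  | a :: b :: s => (if k a < k b then ρ b - ρ a else ρ a - ρ b) + wLin k ρ (b :: s)
  | _ => 0

/-- Value at the first entry. -/
def hdv {L : Type} (ρ : L → ℝ) (s : List L) : ℝ := s.head?.elim 0 ρ

/-- Value at the last entry. -/
def lsv {L : Type} (ρ : L → ℝ) (s : List L) : ℝ := s.getLast?.elim 0 ρ

/-- The local term of a syllable; `e1`, `e2` are `1` for a neighbour on the left, `-1` for a
neighbour on the right and `0` for no neighbour. -/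
noncomputable def loc {L K : Type} [LinearOrder K] (k : L → K) (ρ : L → ℝ) (e1 e2 : ℝ)
    (s : List L) : ℝ := e1 * hdv ρ s + wLin k ρ s + e2 * lsv ρ s

/-- Sum of local terms along a list of syllables. -/
noncomputable def sumE {α K : Type} [LinearOrder K] (κ : α → K) (F : ℝ → ℝ → α → ℝ) :
    ℝ → List α → ℝ
  | _, [] => 0
  | e, [x] => F e 0 x
  | e, x :: y :: D => F e (-(if κ x < κ y then 1 else -1)) x +
      sumE κ F (if κ x < κ y then 1 else -1) (y :: D)

section
variable {L K : Type} [LinearOrder K]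

@[simp] theorem wLin_nil (k : L → K) (ρ : L → ℝ) : wLin k ρ [] = 0 := by simp [wLin]
@[simp] theorem wLin_one (k : L → K) (ρ : L → ℝ) (a : L) : wLin k ρ [a] = 0 := by simp [wLin]
theorem wLin_cons (k : L → K) (ρ : L → ℝ) (a b : L) (s : List L) :
    wLin k ρ (a :: b :: s) = (if k a < k b then ρ b - ρ a else ρ a - ρ b) + wLin k ρ (b :: s) := by
  simp [wLin]

@[simp] theorem hdv_cons (ρ : L → ℝ) (a : L) (s : List L) : hdv ρ (a :: s) = ρ a := rfl
@[simp] theorem lsv_one (ρ : L → ℝ) (a : L) : lsv ρ [a] = ρ a := rfl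
@[simp] theorem lsv_cons (ρ : L → ℝ) (a b : L) (s : List L) :
    lsv ρ (a :: b :: s) = lsv ρ (b :: s) := by simp [lsv, List.getLast?_cons_cons]
theorem lsv_concat (ρ : L → ℝ) (a : L) (s : List L) : lsv ρ (s ++ [a]) = ρ a := by simp [lsv]

theorem wLin_append (k : L → K) (ρ : L → ℝ) (s : List L) (a b : L) (t : List L) :
    wLin k ρ (s ++ a :: b :: t) = wLin k ρ (s ++ [a]) +
      (if k a < k b then ρ b - ρ a else ρ a - ρ b) + wLin k ρ (b :: t) := by
  induction s with
  | nil => simp [wLin_cons]
  | cons c s ih =>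
    rcases s with _ | ⟨d, s⟩
    · simp only [List.cons_append, List.nil_append, wLin_cons, wLin_one]; ring
    · simp only [List.cons_append, wLin_cons] at ih ⊢
      rw [ih]; ring

theorem wLin_lin (k : L → K) (ρ ρ' : L → ℝ) (x y : ℝ) (s : List L) :
    wLin k (fun l => x * ρ l + y * ρ' l) s = x * wLin k ρ s + y * wLin k ρ' s := by
  induction s with
  | nil => simp
  | cons a s ih =>
    rcases s with _ | ⟨b, s⟩
    · simp
    · rw [wLin_cons, wLin_cons, wLin_cons, ih]
      split_ifs <;> ring

theorem wLin_congr (k : L → K) {ρ ρ' : L → ℝ} {s : List L} (h : ∀ a ∈ s, ρ a = ρ' a) :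
    wLin k ρ s = wLin k ρ' s := by
  induction s with
  | nil => simp
  | cons a s ih =>
    rcases s with _ | ⟨b, s⟩
    · simp
    · rw [wLin_cons, wLin_cons, ih (fun x hx => h x (by simp [hx])), h a (by simp), h b (by simp)]

theorem wLin_congr_k {K' : Type} [LinearOrder K'] {k : L → K} {k' : L → K'} (ρ : L → ℝ)
    {s : List L} (h : ∀ a ∈ s, ∀ b ∈ s, a ≠ b → (k a < k b ↔ k' a < k' b)) :
    wLin k ρ s = wLin k' ρ s := by
  induction s with
  | nil => simp
  | cons a s ih =>
    rcases s with _ | ⟨b, s⟩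
    · simp
    · rw [wLin_cons, wLin_cons,
        ih (fun x hx y hy => h x (List.mem_cons_of_mem _ hx) y (List.mem_cons_of_mem _ hy))]
      by_cases hab : a = b
      · subst hab; simp
      · simp only [h a (by simp) b (by simp) hab]

theorem wLin_neg (k : L → K) (ρ : L → ℝ) (s : List L) :
    wLin k (fun l => -ρ l) s = -wLin k ρ s := by
  have := wLin_lin k ρ ρ (-1) 0 s
  simpa using this

/-- If the order refines the positions, the signed variation is the variation. -/
theorem wLin_eq_var (k : L → K) (ρ : L → ℝ) {s : List L}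
    (h : ∀ a ∈ s, ∀ b ∈ s, (k a < k b → ρ a ≤ ρ b) ∧ (¬ k a < k b → ρ b ≤ ρ a)) :
    wLin k ρ s = Var (s.map ρ) := by
  induction s with
  | nil => simp [Var]
  | cons a s ih =>
    rcases s with _ | ⟨b, s⟩
    · simp [Var]
    · rw [wLin_cons,
        ih (fun x hx y hy => h x (List.mem_cons_of_mem _ hx) y (List.mem_cons_of_mem _ hy))]
      simp only [List.map_cons, Var]
      have := h a (by simp) b (by simp)
      split_ifs with hab
      · rw [abs_of_nonneg (by linarith [this.1 hab])]
      · rw [abs_of_nonpos (by linarith [this.2 hab])]; ring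

theorem loc_congr (k : L → K) {ρ ρ' : L → ℝ} (e1 e2 : ℝ) {s : List L}
    (h : ∀ a ∈ s, ρ a = ρ' a) : loc k ρ e1 e2 s = loc k ρ' e1 e2 s := by
  unfold loc
  rw [wLin_congr k h]
  have h1 : hdv ρ s = hdv ρ' s := by
    rcases s with _ | ⟨a, s⟩
    · rfl
    · simp [h a (by simp)]
  have h2 : lsv ρ s = lsv ρ' s := by
    rcases List.eq_nil_or_concat s with rfl | ⟨t, a, rfl⟩
    · rfl
    · simp only [List.concat_eq_append] at h ⊢
      rw [lsv_concat, lsv_concat, h a (by simp)]
  rw [h1, h2]

theorem loc_lin (k : L → K) (ρ ρ' : L → ℝ) (x y e1 e2 : ℝ) (s : List L) :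
    loc k (fun l => x * ρ l + y * ρ' l) e1 e2 s =
      x * loc k ρ e1 e2 s + y * loc k ρ' e1 e2 s := by
  unfold loc
  rw [wLin_lin]
  have h1 : hdv (fun l => x * ρ l + y * ρ' l) s = x * hdv ρ s + y * hdv ρ' s := by
    rcases s with _ | ⟨a, s⟩
    · simp [hdv]
    · simp
  have h2 : lsv (fun l => x * ρ l + y * ρ' l) s = x * lsv ρ s + y * lsv ρ' s := by
    rcases List.eq_nil_or_concat s with rfl | ⟨t, a, rfl⟩
    · simp [lsv]
    · simp only [List.concat_eq_append]
      rw [lsv_concat, lsv_concat, lsv_concat]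
  rw [h1, h2]; ring

/-- The sum formula. -/
theorem wLin_flatten {α K' : Type} [LinearOrder K'] (k : L → K) (ρ : L → ℝ) (κ : α → K')
    (f : α → List L) (D : List α) (hne : ∀ x ∈ D, f x ≠ [])
    (hk : D.IsChain (fun x y => ∀ a ∈ f x, ∀ b ∈ f y, (k a < k b ↔ κ x < κ y))) (e : ℝ) :
    e * hdv ρ (D.map f).flatten + wLin k ρ (D.map f).flatten =
      sumE κ (fun e1 e2 x => loc k ρ e1 e2 (f x)) e D := by
  induction D generalizing e with
  | nil => simp [sumE, hdv]
  | cons x D ih =>
    rcases D with _ | ⟨y, D⟩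
    · simp [sumE, loc]
    · have ih' := ih (fun z hz => hne z (List.mem_cons_of_mem _ hz)) hk.tail
        (if κ x < κ y then 1 else -1)
      rw [sumE, ← ih']
      have hx := hne x (by simp)
      have hy := hne y (by simp)
      obtain ⟨s, a, hs⟩ : ∃ s a, f x = s ++ [a] := by
        rcases List.eq_nil_or_concat (f x) with h | ⟨t, a, h⟩
        · exact absurd h hx
        · exact ⟨t, a, by simpa using h⟩
      obtain ⟨b, t, ht⟩ : ∃ b t, f y = b :: t := List.exists_cons_of_ne_nil hy
      have hab : k a < k b ↔ κ x < κ y :=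
        (List.isChain_cons_cons.1 hk).1 a (by simp [hs]) b (by simp [ht])
      have h1 : ((x :: y :: D).map f).flatten = s ++ a :: b :: (t ++ (D.map f).flatten) := by
        simp [hs, ht]
      have h2 : ((y :: D).map f).flatten = b :: (t ++ (D.map f).flatten) := by simp [ht]
      have h3 : hdv ρ (s ++ a :: b :: (t ++ (D.map f).flatten)) = hdv ρ (s ++ [a]) := by
        rcases s with _ | ⟨c, s⟩ <;> simp
      rw [h1, h2, wLin_append, h3]
      simp only [loc, hs, lsv_concat, hdv_cons, hab]
      split_ifs <;> ring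

end

theorem sumE_add {α K : Type} [LinearOrder K] (κ : α → K) (F F' : ℝ → ℝ → α → ℝ) (e : ℝ)
    (D : List α) : sumE κ F e D + sumE κ F' e D =
      sumE κ (fun e1 e2 x => F e1 e2 x + F' e1 e2 x) e D := by
  induction D generalizing e with
  | nil => simp [sumE]
  | cons x D ih =>
    rcases D with _ | ⟨y, D⟩
    · simp [sumE]
    · simp only [sumE]
      rw [← ih]; ring

theorem sumE_ge {α K : Type} [LinearOrder K] (κ : α → K) (F : ℝ → ℝ → α → ℝ) (c : ℝ)
    (D : List α) (z : α)
    (hD : ∀ x ∈ D, ∀ e1 e2 : ℝ, (e1 = 1 ∨ e1 = -1) → (e2 = 1 ∨ e2 = -1) → 0 ≤ F e1 e2 x)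
    (hz : ∀ e1 : ℝ, (e1 = 1 ∨ e1 = -1) → -c ≤ F e1 0 z) (e : ℝ) (he : e = 1 ∨ e = -1) :
    -c ≤ sumE κ F e (D ++ [z]) := by
  induction D generalizing e with
  | nil => simpa [sumE] using hz e he
  | cons x D ih =>
    obtain ⟨y, D', hy⟩ : ∃ y D', D ++ [z] = y :: D' := List.exists_cons_of_ne_nil (by simp)
    have h1 := ih (fun w hw => hD w (List.mem_cons_of_mem _ hw)) (if κ x < κ y then 1 else -1)
      (by split_ifs <;> simp)
    rw [List.cons_append, hy, sumE, ← hy]
    have h2 := hD x (by simp) e (-(if κ x < κ y then 1 else -1)) he (by split_ifs <;> simp)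
    linarith

section cmp
variable {L C B : Type} [CommGroup C]

/-- Pointed block decomposition. -/
theorem exists_pdec (blk : L → B) (l m : L) (g : W L C) :
    (blk l = blk m ∧ Sup (blk ⁻¹' {blk l}) g) ∨
    ∃ (h0 : W L C) (d : List (B × W L C)) (h1 : W L C), Sup (blk ⁻¹' {blk l}) h0 ∧
      Sup (blk ⁻¹' {blk m}) h1 ∧ BDec blk d ∧
      (blk l :: (d.map Prod.fst ++ [blk m])).IsChain (· ≠ ·) ∧
      g = h0 * (d.map Prod.snd).prod * h1 := by
  classical
  -- first split off the head
  have key : ∀ g : W L C, ∃ (h0 : W L C) (d : List (B × W L C)), Sup (blk ⁻¹' {blk l}) h0 ∧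
      BDec blk d ∧ (blk l :: d.map Prod.fst).IsChain (· ≠ ·) ∧ g = h0 * (d.map Prod.snd).prod := by
    intro g
    obtain ⟨d, hd, rfl⟩ := exists_bdec blk g
    have hc : (d.map Prod.fst).IsChain (· ≠ ·) := by rw [List.isChain_map]; exact hd.2
    rcases d with _ | ⟨e, d⟩
    · exact ⟨1, [], sup_one_W _, hd, by simp, by simp⟩
    by_cases he : e.1 = blk l
    · exact ⟨e.2, d, he ▸ (hd.1 e (by simp)).2, hd.tail, he ▸ hc, by simp⟩
    · refine ⟨1, e :: d, sup_one_W _, hd, ?_, by simp⟩
      simp only [List.map_cons] at hc ⊢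
      exact List.isChain_cons_cons.2 ⟨fun h => he h.symm, hc⟩
  obtain ⟨h0, d, hh0, hd, hc, rfl⟩ := key g
  rcases List.eq_nil_or_concat d with rfl | ⟨d', e, rfl⟩
  · by_cases hlm : blk l = blk m
    · exact Or.inl ⟨hlm, by simpa using hh0⟩
    · exact Or.inr ⟨h0, [], 1, hh0, sup_one_W _, hd, by simpa using hlm, by simp⟩
  · simp only [List.concat_eq_append] at *
    right
    by_cases he : e.1 = blk m
    · refine ⟨h0, d', e.2, hh0, he ▸ (hd.1 e (by simp)).2,
        ⟨fun x hx => hd.1 x (by simp [hx]), hd.2.left_of_append⟩, ?_, by simp [mul_assoc]⟩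
      rw [← he]
      simpa using hc
    · refine ⟨h0, d' ++ [e], 1, hh0, sup_one_W _, hd, ?_, by simp⟩
      have : blk l :: ((d' ++ [e]).map Prod.fst ++ [blk m]) =
          (blk l :: (d' ++ [e]).map Prod.fst) ++ [blk m] := by simp
      rw [this, List.isChain_append]
      refine ⟨hc, by simp, ?_⟩
      intro x hx y hy
      have hx' : x = e.1 := by
        have : (blk l :: (d' ++ [e]).map Prod.fst) = (blk l :: d'.map Prod.fst) ++ [e.1] := by simp
        rw [this, List.getLast?_concat] at hx
        simpa using hx.symm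
      have hy' : y = blk m := by simpa using hy.symm
      rw [hx', hy']
      exact he

theorem lab_pdec {blk : L → B} {bl bm : B} {h0 h1 : W L C} {d : List (B × W L C)}
    (hh0 : Sup (blk ⁻¹' {bl}) h0) (hh1 : Sup (blk ⁻¹' {bm}) h1) (hd : BDec blk d)
    (hc : (bl :: (d.map Prod.fst ++ [bm])).IsChain (· ≠ ·)) :
    lab (h0 * (d.map Prod.snd).prod * h1) =
      lab h0 ++ (d.map (fun e => lab e.2)).flatten ++ lab h1 := by
  classical
  have hA : ∀ (b : B) (h : W L C), Sup (blk ⁻¹' {b}) h →
      ∃ dd : List (B × W L C), (dd = [] ∨ dd = [(b, h)]) ∧ (∀ e ∈ dd, e.2 ≠ 1) ∧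
        (dd.map Prod.snd).prod = h ∧ (dd.map (fun e => lab e.2)).flatten = lab h := by
    intro b h _
    by_cases h1 : h = 1
    · exact ⟨[], Or.inl rfl, by simp, by simp [h1], by simp [h1]⟩
    · exact ⟨[(b, h)], Or.inr rfl, by simpa using h1, by simp, by simp⟩
  obtain ⟨d0, hd0, hn0, hp0, hl0⟩ := hA bl h0 hh0
  obtain ⟨d1, hd1, hn1, hp1, hl1⟩ := hA bm h1 hh1
  have hB : BDec blk (d0 ++ d ++ d1) := by
    refine ⟨?_, ?_⟩
    · intro e he
      rcases List.mem_append.1 he with he | he
      · rcases List.mem_append.1 he with he | he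
        · refine ⟨hn0 e he, ?_⟩
          rcases hd0 with rfl | rfl
          · simp at he
          · rw [List.mem_singleton.1 he]; exact hh0
        · exact hd.1 e he
      · refine ⟨hn1 e he, ?_⟩
        rcases hd1 with rfl | rfl
        · simp at he
        · rw [List.mem_singleton.1 he]; exact hh1
    · have hfull : ((bl, h0) :: (d ++ [(bm, h1)])).IsChain
          (fun e e' : B × W L C => e.1 ≠ e'.1) := by
        have : bl :: (d.map Prod.fst ++ [bm]) = ((bl, h0) :: (d ++ [(bm, h1)])).map Prod.fst := by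
          simp
        rw [this, List.isChain_map] at hc
        exact hc
      rcases hd0 with rfl | rfl <;> rcases hd1 with rfl | rfl
      · simpa using hd.2
      · simpa using hfull.tail
      · have : ((bl, h0) :: (d ++ [(bm, h1)])) = ((bl, h0) :: d) ++ [(bm, h1)] := by simp
        rw [this] at hfull
        simpa using hfull.left_of_append
      · simpa using hfull
  have := hB.lab_prod.1
  simpa [hp0, hp1, hl0, hl1, mul_assoc] using this

end cmp

end Pool.Agent.E5f.Wall
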