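import Pool.Agent.E5f.LsTouchA

/-!
Local wall inequalities for lists.
-/

set_option autoImplicit false

namespace Pool.Agent.E5f.Wall

theorem var_cons_W (a b : ℝ) (s : List ℝ) : Var (a :: b :: s) = |b - a| + Var (b :: s) := by
  simp [Var]

theorem var_nonneg_W (s : List ℝ) : 0 ≤ Var s := by
  induction s with
  | nil => simp [Var]
  | cons a s ih =>
    rcases s with _ | ⟨b, s⟩
    · simp [Var]
    · rw [var_cons_W]; positivity

theorem var_tri_W (x a : ℝ) (s : List ℝ) : Var (x :: s) ≤ |a - x| + Var (a :: s) := by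
  rcases s with _ | ⟨b, s⟩
  · simp [Var]
  · rw [var_cons_W, var_cons_W]
    have := abs_sub_le b a x
    linarith

theorem var_sublist_cons {s' s : List ℝ} (h : s'.Sublist s) (x : ℝ) :
    Var (x :: s') ≤ Var (x :: s) := by
  induction h generalizing x with
  | slnil => exact le_rfl
  | cons a _ ih =>
    rw [var_cons_W]
    exact (ih x).trans (var_tri_W x a _)
  | cons_cons a _ ih =>
    rw [var_cons_W, var_cons_W]
    linarith [ih a]

theorem var_concat_same (s : List ℝ) (a : ℝ) : Var (s ++ [a, a]) = Var (s ++ [a]) := by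
  induction s with
  | nil => simp [Var]
  | cons b s ih =>
    rcases s with _ | ⟨c, s⟩
    · simp [Var]
    · simp only [List.cons_append, var_cons_W] at ih ⊢
      rw [ih]

section
variable {L : Type}

/-- The variation dominates the variation along any sublist extended by the two ends. -/
theorem var_sub_ends (u : L → ℝ) {s t : List L} (hs : s ≠ []) (ht : t.Sublist s) :
    Var (hdv u s :: (t.map u ++ [lsv u s])) ≤ Var (s.map u) := by
  have h1 : Var (hdv u s :: (t.map u ++ [lsv u s])) ≤ Var (hdv u s :: (s.map u ++ [lsv u s])) :=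
    var_sublist_cons ((ht.map u).append_right _) _
  refine h1.trans (le_of_eq ?_)
  obtain ⟨a, s1, rfl⟩ := List.exists_cons_of_ne_nil hs
  have h2 : Var (hdv u (a :: s1) :: ((a :: s1).map u ++ [lsv u (a :: s1)])) =
      Var ((a :: s1).map u ++ [lsv u (a :: s1)]) := by
    simp [var_cons_W]
  rw [h2]
  rcases List.eq_nil_or_concat (a :: s1) with h | ⟨t1, c, h⟩
  · exact absurd h hs
  · simp only [List.concat_eq_append] at h
    rw [h, lsv_concat]
    have := var_concat_same (t1.map u) (u c)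
    simpa using this

theorem var_ge_one (u : L → ℝ) {s : List L} {p : L} (hp : p ∈ s) :
    |u p - hdv u s| + |lsv u s - u p| ≤ Var (s.map u) := by
  have := var_sub_ends u (List.ne_nil_of_mem hp) (List.singleton_sublist.2 hp)
  simpa [Var] using this

theorem var_ge_zero (u : L → ℝ) {s : List L} (hs : s ≠ []) :
    |lsv u s - hdv u s| ≤ Var (s.map u) := by
  have := var_sub_ends u hs (List.nil_sublist s)
  simpa [Var] using this

theorem hdv_mem (u : L → ℝ) {s : List L} (hs : s ≠ []) : ∃ a ∈ s, hdv u s = u a := by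
  obtain ⟨a, s1, rfl⟩ := List.exists_cons_of_ne_nil hs
  exact ⟨a, by simp, rfl⟩

theorem lsv_mem (u : L → ℝ) {s : List L} (hs : s ≠ []) : ∃ a ∈ s, lsv u s = u a := by
  rcases List.eq_nil_or_concat s with h | ⟨t1, c, h⟩
  · exact absurd h hs
  · simp only [List.concat_eq_append] at h
    exact ⟨c, by simp [h], by rw [h, lsv_concat]⟩

theorem var_map_sign (u : L → ℝ) {ε : ℝ} (hε : ε = 1 ∨ ε = -1) (s : List L) :
    Var (s.map (fun l => ε * u l)) = Var (s.map u) := by
  induction s with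
  | nil => simp
  | cons a s ih =>
    rcases s with _ | ⟨b, s⟩
    · simp [Var]
    · simp only [List.map_cons, var_cons_W] at ih ⊢
      rw [ih, ← mul_sub, abs_mul]
      rcases hε with rfl | rfl <;> simp

variable {K : Type} [LinearOrder K]

/-- The order `k` refines the function `ρ` on the set `A`. -/
def Refi (k : L → K) (ρ : L → ℝ) (A : Set L) : Prop :=
  ∀ a ∈ A, ∀ b ∈ A, (k a < k b → ρ a ≤ ρ b) ∧ (¬ k a < k b → ρ b ≤ ρ a)

theorem loc_sign {k : L → K} {u : L → ℝ} {ε : ℝ} (hε : ε = 1 ∨ ε = -1) {A : Set L}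
    (h : Refi k (fun l => ε * u l) A) {s : List L} (hs : ∀ a ∈ s, a ∈ A) (e1 e2 : ℝ) :
    loc k (fun l => ε * u l) e1 e2 s =
      ε * e1 * hdv u s + Var (s.map u) + ε * e2 * lsv u s := by
  have h1 := loc_lin k u u ε 0 e1 e2 s
  have h2 := wLin_lin k u u ε 0 s
  simp only [zero_mul, add_zero] at h1 h2
  have h3 := wLin_eq_var k (fun l => ε * u l) (s := s) (fun a ha b hb => h a (hs a ha) b (hs b hb))
  rw [var_map_sign u hε] at h3
  rw [h1, loc, ← h3, h2]
  ring

theorem loc_odd {k k' : L → K} {u : L → ℝ} {ε : ℝ} (hε : ε = 1 ∨ ε = -1) {A : Set L}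
    (h : Refi k (fun l => ε * u l) A) (h' : Refi k' (fun l => (-ε) * u l) A) {s s' : List L}
    (hs : ∀ a ∈ s, a ∈ A) (hs' : ∀ a ∈ s', a ∈ A) {p p' : L} (hp : p ∈ s) (hp' : p' ∈ s')
    (hpp : u p = u p') {e1 e2 : ℝ} (he1 : |e1| ≤ 1) (he2 : |e2| ≤ 1) :
    0 ≤ loc k (fun l => ε * u l) e1 e2 s + loc k' (fun l => (-ε) * u l) e1 e2 s' := by
  rw [loc_sign hε h hs, loc_sign (by rcases hε with rfl | rfl <;> simp) h' hs']
  have h1 := var_ge_one u hp
  have h2 := var_ge_one u hp'
  rw [← hpp] at h2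
  have hε1 : |ε| = 1 := by rcases hε with rfl | rfl <;> simp
  have b1 : ∀ e x : ℝ, |e| ≤ 1 → -|x| ≤ ε * e * x := by
    intro e x he
    have : |ε * e * x| ≤ |x| := by
      rw [abs_mul, abs_mul, hε1, one_mul]
      exact mul_le_of_le_one_left (abs_nonneg _) he
    linarith [neg_abs_le (ε * e * x)]
  have c1 := b1 e1 (hdv u s - u p) he1
  have c2 := b1 e1 (u p - hdv u s') he1
  have c3 := b1 e2 (lsv u s - u p) he2
  have c4 := b1 e2 (u p - lsv u s') he2
  rw [abs_sub_comm] at c1 c4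
  nlinarith

theorem loc_even {k k' : L → K} {u : L → ℝ} (hu : ∀ a, u a = 0 ∨ u a = 1) {ε : ℝ}
    (hε : ε = 1 ∨ ε = -1) {A : Set L}
    (h : Refi k (fun l => ε * u l) A) (h' : Refi k' (fun l => ε * u l) A) {s s' : List L}
    (hs : ∀ a ∈ s, a ∈ A) (hs' : ∀ a ∈ s', a ∈ A) (hn : s ≠ []) (hn' : s' ≠ [])
    (hq : (∀ a ∈ s, u a = 1) → ∃ a b c, [a, b, c].Sublist s' ∧ u a = 0 ∧ u b = 1 ∧ u c = 0)
    (hq' : (∀ a ∈ s', u a = 1) → ∃ a b c, [a, b, c].Sublist s ∧ u a = 0 ∧ u b = 1 ∧ u c = 0)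
    {e1 e2 : ℝ} (he1 : e1 = 1 ∨ e1 = -1) (he2 : e2 = 1 ∨ e2 = -1) :
    0 ≤ loc k (fun l => ε * u l) e1 e2 s + loc k' (fun l => ε * u l) e1 e2 s' := by
  rw [loc_sign hε h hs, loc_sign hε h' hs']
  have r : ∀ t : List L, t ≠ [] → (0 ≤ hdv u t ∧ hdv u t ≤ 1) ∧ (0 ≤ lsv u t ∧ lsv u t ≤ 1) := by
    intro t ht
    obtain ⟨a, -, ha⟩ := hdv_mem u ht
    obtain ⟨b, -, hb⟩ := lsv_mem u ht
    rw [ha, hb]
    rcases hu a with h | h <;> rcases hu b with h' | h' <;> simp [h, h']
  have z : ∀ t : List L, t ≠ [] → (∀ a ∈ t, u a = 1) ∨ hdv u t + lsv u t ≤ Var (t.map u) := by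
    intro t ht
    by_cases h1 : ∀ a ∈ t, u a = 1
    · exact Or.inl h1
    · right
      push Not at h1
      obtain ⟨p, hp, hp1⟩ := h1
      have hp0 : u p = 0 := (hu p).resolve_right hp1
      have := var_ge_one u hp
      rw [hp0, zero_sub, sub_zero, abs_neg] at this
      linarith [le_abs_self (hdv u t), le_abs_self (lsv u t)]
  have y : ∀ t : List L, t ≠ [] →
      (∃ a b c, [a, b, c].Sublist t ∧ u a = 0 ∧ u b = 1 ∧ u c = 0) →
      hdv u t + lsv u t + 2 ≤ Var (t.map u) := by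
    rintro t ht ⟨a, b, c, h1, ha, hb, hc⟩
    have := var_sub_ends u ht h1
    simp only [List.map_cons, List.map_nil, ha, hb, hc, List.cons_append, List.nil_append,
      Var] at this
    norm_num at this
    linarith [le_abs_self (hdv u t), le_abs_self (lsv u t)]
  have r1 := r s hn
  have r2 := r s' hn'
  have v1 := abs_le.1 (var_ge_zero u hn)
  have v2 := abs_le.1 (var_ge_zero u hn')
  have w1 := var_nonneg_W (s.map u)
  have w2 := var_nonneg_W (s'.map u)
  have key : hdv u s + lsv u s + (hdv u s' + lsv u s') ≤ Var (s.map u) + Var (s'.map u) := by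
    rcases z s hn with h1 | h1
    · have := y s' hn' (hq h1)
      linarith [r1.1.2, r1.2.2]
    · rcases z s' hn' with h2 | h2
      · have := y s hn (hq' h2)
        linarith [r2.1.2, r2.2.2]
      · linarith
  rcases hε with rfl | rfl <;> rcases he1 with rfl | rfl <;> rcases he2 with rfl | rfl <;>
    linarith [r1.1.1, r1.2.1, r2.1.1, r2.2.1, v1.1, v1.2, v2.1, v2.2]

theorem loc_end {k : L → K} {u : L → ℝ} (hu : ∀ a, u a = 0 ∨ u a = 1) {ε : ℝ}
    (hε : ε = 1 ∨ ε = -1) {A : Set L} (h : Refi k (fun l => ε * u l) A) {s : List L}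
    (hs : ∀ a ∈ s, a ∈ A) (hn : s ≠ []) {e : ℝ} (he : e = 1 ∨ e = -1) :
    -1 ≤ loc k (fun l => ε * u l) 0 e s ∧ -1 ≤ loc k (fun l => ε * u l) e 0 s := by
  rw [loc_sign hε h hs, loc_sign hε h hs]
  obtain ⟨a, -, ha⟩ := hdv_mem u hn
  obtain ⟨b, -, hb⟩ := lsv_mem u hn
  have w1 := var_nonneg_W (s.map u)
  rw [ha, hb]
  clear h
  rcases hu a with h | h <;> rcases hu b with h' | h' <;> rcases hε with rfl | rfl <;>
    rcases he with rfl | rfl <;> simp only [h, h'] <;> constructor <;> linarith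

end

section grp
variable {L C B : Type} [CommGroup C]

theorem expo_of_not_mem {a : L} {h : W L C} (ha : a ∉ lab h) : expo a h = 1 := by
  classical
  have key : ∀ w : List (L × C), (∀ e ∈ w, e.1 ≠ a) → expo a (ev w) = 1 := by
    intro w
    induction w with
    | nil => intro _; simp
    | cons e w ih =>
      intro hw
      rw [ev_cons, map_mul, expo_lt, if_neg (hw e (by simp)), ih (fun x hx => hw x (by simp [hx])),
        one_mul]
  have := key (wd h) (fun e he hea => ha (hea ▸ List.mem_map.2 ⟨e, he, rfl⟩))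
  rwa [ev_wd] at this

theorem eq_lt_of_sup {a : L} {h : W L C} (hh : ∀ b ∈ lab h, b = a) : h = lt a (expo a h) := by
  classical
  have key : ∀ w : List (L × C), (∀ e ∈ w, e.1 = a) → ev w = lt a (expo a (ev w)) := by
    intro w
    induction w with
    | nil => intro _; simp
    | cons e w ih =>
      intro hw
      rw [ev_cons, map_mul, expo_lt, if_pos (hw e (by simp)), lt_mul,
        ← ih (fun x hx => hw x (by simp [hx])), hw e (by simp)]
  have := key (wd h) (fun e he => hh _ (List.mem_map.2 ⟨e, he, rfl⟩))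
  rwa [ev_wd] at this

theorem zo_eq {x y z : ℝ} (hx : x = 0 ∨ x = 1) (hy : y = 0 ∨ y = 1) (hz : z = 0 ∨ z = 1)
    (h1 : x ≠ y) (h2 : z ≠ y) : z = x := by
  rcases hx with rfl | rfl <;> rcases hy with rfl | rfl <;> rcases hz with rfl | rfl <;>
    first | rfl | exact absurd rfl h1 | exact absurd rfl h2

/-- Two nontrivial elements with the same exponents have labels with a common value of a zero-one
function, one of whose values is taken only once. -/
theorem common_val {u : L → ℝ} (hu : ∀ a, u a = 0 ∨ u a = 1) {A : Set L} {p0 : ℝ}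
    (hA : ∀ a ∈ A, ∀ b ∈ A, u a = p0 → u b = p0 → a = b) (hp0 : p0 = 0 ∨ p0 = 1) {h h' : W L C}
    (hh : Sup A h) (hh' : Sup A h') (h1 : h ≠ 1) (h1' : h' ≠ 1)
    (he : ∀ a, expo a h' = expo a h) : ∃ p ∈ lab h, ∃ p' ∈ lab h', u p = u p' := by
  by_contra hc
  push Not at hc
  have key : ∀ h h' : W L C, Sup A h → h ≠ 1 → (∀ a, expo a h' = expo a h) →
      (∀ p ∈ lab h, u p = p0) → (∀ p ∈ lab h', u p ≠ p0) → False := by
    intro h h' hh h1 he hp hp'
    obtain ⟨a, ha⟩ := List.exists_mem_of_ne_nil _ (fun h0 => h1 (lab_eq_nil.1 h0))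
    have h2 := eq_lt_of_sup (a := a) (h := h)
      (fun b hb => hA b (hh b hb) a (hh a ha) (hp b hb) (hp a ha))
    rw [← he, expo_of_not_mem (fun h3 => hp' a h3 (hp a ha)), lt_one] at h2
    exact h1 h2
  obtain ⟨a, ha⟩ := List.exists_mem_of_ne_nil _ (fun h0 => h1 (lab_eq_nil.1 h0))
  obtain ⟨a', ha'⟩ := List.exists_mem_of_ne_nil _ (fun h0 => h1' (lab_eq_nil.1 h0))
  by_cases hap : u a = p0
  · refine key h h' hh h1 he (fun p hp => ?_) (fun p hp h3 => hc a ha p hp (hap.trans h3.symm))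
    exact (zo_eq (hu a) (hu a') (hu p) (hc a ha a' ha') (hc p hp a' ha')).trans hap
  · have hap' : u a' = p0 := zo_eq hp0 (hu a) (hu a') (Ne.symm hap) (hc a ha a' ha').symm
    refine key h' h hh' h1' (fun a => (he a).symm) (fun p hp => ?_)
      (fun p hp h3 => hc p hp a' ha' (h3.trans hap'.symm))
    exact (zo_eq (hu a') (hu a) (hu p) (hc a ha a' ha').symm (hc a ha p hp).symm).trans hap'

end grp

end Pool.Agent.E5f.Wall
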