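import Pool.Agent.E5f.WDefs

/-!
Ordered products of letters, supports, and the change of basis between the generators read off
vertical rays and those read off horizontal rays.
-/

set_option autoImplicit false

namespace Pool.Agent.E5f

open Monoid

section defs
variable {L C K : Type} [CommGroup C] [LinearOrder K]

/-- The product of the letters `c` along a list of labels. -/
def pl (c : C) (w : List L) : W L C := (w.map (fun l => lt l c)).prod

open Classical in
/-- The elements of `D` listed by increasing key. -/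
noncomputable def srt (k : L → K) (D : Finset L) : List L :=
  D.toList.mergeSort (fun a b => decide (k a ≤ k b))

/-- The product of the letters `c` over `D`, ordered by increasing key. -/
noncomputable def op (k : L → K) (c : C) (D : Finset L) : W L C := pl c (srt k D)

open Classical in
/-- The labels of `S` south-west of `l`. -/
noncomputable def SW (X Y : L → K) (S : Finset L) (l : L) : Finset L :=
  S.filter (fun m => X m < X l ∧ Y m < Y l)

/-- The change of basis. -/
noncomputable def Phi (X Y : L → K) (c : C) (S : Finset L) : W L C →* W L C :=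
  lf (fun l => (MulAut.conj (op X c (SW X Y S l))).toMonoidHom.comp
    ((ltH l).comp invMonoidHom))

/-- `D` is a lower part of `S` for the product of the two orders. -/
def LowerIn (X Y : L → K) (S D : Finset L) : Prop :=
  D ⊆ S ∧ ∀ m ∈ S, ∀ l ∈ D, X m < X l → Y m < Y l → m ∈ D

end defs

section sup
variable {L C : Type} [CommGroup C]

theorem red_tail {e : L × C} {w : List (L × C)} (h : Red (e :: w)) : Red w :=
  ⟨fun e' he' => h.1 e' (List.mem_cons_of_mem _ he'), h.2.tail⟩

theorem red_cons {l : L} {x : C} {w : List (L × C)} (hx : x ≠ 1) (h : Red w)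
    (hl : ∀ e ∈ w.head?, l ≠ e.1) : Red ((l, x) :: w) := by
  refine ⟨?_, ?_⟩
  · intro e he
    rcases List.mem_cons.1 he with rfl | he
    · exact hx
    · exact h.1 e he
  · cases w with
    | nil => simp
    | cons e w => exact List.IsChain.cons_cons (hl e (by simp)) h.2

theorem lab_lt_mul_sub (l : L) (x : C) (g : W L C) :
    ∀ m ∈ lab (lt l x * g), m = l ∨ m ∈ lab g := by
  classical
  have hg := ev_wd g
  have hr := red_wd g
  unfold lab
  by_cases hx : x = 1
  · subst hx
    intro m hm
    right
    simpa using hm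
  cases hw : wd g with
  | nil =>
    rw [hw] at hg
    have : g = 1 := by simpa using hg.symm
    subst this
    intro m hm
    rw [mul_one, wd_lt l hx] at hm
    left
    simpa using hm
  | cons e w =>
    rw [hw] at hg hr
    by_cases he : e.1 = l
    · by_cases hy : x * e.2 = 1
      · have : lt l x * g = ev w := by
          rw [← hg, ev_cons, he, ← mul_assoc, ← lt_mul, hy, lt_one, one_mul]
        rw [this, wd_ev (red_tail hr)]
        intro m hm
        right
        simp only [List.map_cons, List.mem_cons]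
        exact Or.inr hm
      · have : lt l x * g = ev ((l, x * e.2) :: w) := by
          rw [← hg, ev_cons, ev_cons, he, ← mul_assoc, ← lt_mul]
        have hr2 : Red ((l, x * e.2) :: w) := by
          refine red_cons hy (red_tail hr) ?_
          intro e' he'
          cases w with
          | nil => simp at he'
          | cons e2 w =>
            have h1 : e.1 ≠ e2.1 := (List.isChain_cons_cons.1 hr.2).1
            have h2 : e2 = e' := by simpa using he'
            rw [← h2, ← he]
            exact h1
        rw [this, wd_ev hr2]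
        intro m hm
        simp only [List.map_cons, List.mem_cons] at hm ⊢
        rcases hm with hm | hm
        · exact Or.inl hm
        · exact Or.inr (Or.inr hm)
    · have : lt l x * g = ev ((l, x) :: e :: w) := by rw [← hg]; simp
      have hr2 : Red ((l, x) :: e :: w) := by
        refine red_cons hx hr ?_
        intro e' he'
        have h2 : e = e' := by simpa using he'
        rw [← h2]
        exact fun h => he h.symm
      rw [this, wd_ev hr2]
      intro m hm
      simp only [List.map_cons, List.mem_cons] at hm ⊢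
      exact hm

theorem sup_one (S : Set L) : Sup S (1 : W L C) := by
  intro l hl
  simp at hl

theorem sup_lt_mul {S : Set L} {l : L} (hl : l ∈ S) (x : C) {g : W L C} (hg : Sup S g) :
    Sup S (lt l x * g) := by
  intro m hm
  rcases lab_lt_mul_sub l x g m hm with rfl | h
  · exact hl
  · exact hg m h

theorem sup_ret (S : Set L) (g : W L C) : Sup S (ret S g) := by
  classical
  induction g using W_ind with
  | h1 => rw [map_one]; exact sup_one S
  | h l x g ih =>
    rw [map_mul, ret_lt]
    split_ifs with hl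
    · exact sup_lt_mul hl x ih
    · rw [one_mul]; exact ih

theorem W_ext_sup {G : Type} [Group G] {f f' : W L C →* G} {S : Set L}
    (h : ∀ l ∈ S, ∀ x, f (lt l x) = f' (lt l x)) {g : W L C} (hg : Sup S g) : f g = f' g := by
  have key : ∀ w : List (L × C), (∀ e ∈ w, e.1 ∈ S) → f (ev w) = f' (ev w) := by
    intro w
    induction w with
    | nil => intro _; simp
    | cons e w ih =>
      intro hw
      rw [ev_cons, map_mul, map_mul, h e.1 (hw e (by simp)),
        ih (fun e' he' => hw e' (List.mem_cons_of_mem _ he'))]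
  have := key (wd g) (fun e he => hg e.1 (List.mem_map.2 ⟨e, he, rfl⟩))
  rwa [ev_wd] at this

theorem sup_iff {S : Set L} {g : W L C} : Sup S g ↔ ret S g = g := by
  classical
  constructor
  · intro hg
    have := W_ext_sup (f := ret S) (f' := MonoidHom.id _) (S := S)
      (fun l hl x => by rw [ret_lt, if_pos hl]; rfl) hg
    exact this
  · intro h
    rw [← h]
    exact sup_ret S g

theorem sup_mul {S : Set L} {g h : W L C} (hg : Sup S g) (hh : Sup S h) : Sup S (g * h) := by
  rw [sup_iff] at *
  rw [map_mul, hg, hh]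

theorem sup_inv {S : Set L} {g : W L C} (hg : Sup S g) : Sup S g⁻¹ := by
  rw [sup_iff] at *
  rw [map_inv, hg]

theorem sup_lt {S : Set L} {l : L} (hl : l ∈ S) (x : C) : Sup S (lt l x : W L C) := by
  have := sup_lt_mul hl x (sup_one (C := C) S)
  rwa [mul_one] at this

theorem sup_mono {S T : Set L} (h : S ⊆ T) {g : W L C} (hg : Sup S g) : Sup T g :=
  fun l hl => h (hg l hl)

theorem sup_ind {S : Set L} {p : W L C → Prop} (h1 : p 1)
    (h : ∀ l ∈ S, ∀ x g, p g → p (lt l x * g)) {g : W L C} (hg : Sup S g) : p g := by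
  have key : ∀ w : List (L × C), (∀ e ∈ w, e.1 ∈ S) → p (ev w) := by
    intro w
    induction w with
    | nil => intro _; exact h1
    | cons e w ih =>
      intro hw
      rw [ev_cons]
      exact h e.1 (hw e (by simp)) _ _ (ih (fun e' he' => hw e' (List.mem_cons_of_mem _ he')))
  have := key (wd g) (fun e he => hg e.1 (List.mem_map.2 ⟨e, he, rfl⟩))
  rwa [ev_wd] at this

theorem sup_map {S T : Set L} {f : W L C →* W L C} (h : ∀ l ∈ S, ∀ x, Sup T (f (lt l x)))
    {g : W L C} (hg : Sup S g) : Sup T (f g) := by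
  refine sup_ind (p := fun g => Sup T (f g)) ?_ ?_ hg
  · rw [map_one]; exact sup_one T
  · intro l hl x g ih
    rw [map_mul]
    exact sup_mul (h l hl x) ih

theorem sup_sw {S : Set L} {a : L} (ha : a ∈ S) (b : L) (x : C) {g : W L C} (hg : Sup S g) :
    Sup S (sw a b x g) := by
  classical
  refine sup_map (fun l hl y => ?_) hg
  rw [sw_lt]
  split_ifs with h
  · exact sup_mul (sup_mul (sup_lt ha x) (sup_lt (h ▸ hl) y)) (sup_inv (sup_lt ha x))
  · exact sup_lt hl y

theorem ret_ret (S T : Set L) (g : W L C) : ret S (ret T g) = ret (S ∩ T) g := by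
  classical
  have : (ret S).comp (ret T) = (ret (S ∩ T) : W L C →* W L C) := by
    refine W_ext (fun l x => ?_)
    simp only [MonoidHom.comp_apply, ret_lt, Set.mem_inter_iff]
    by_cases h1 : l ∈ T <;> by_cases h2 : l ∈ S <;> simp [h1, h2]
  exact DFunLike.congr_fun this g

end sup

section ops
variable {L C K : Type} [CommGroup C] [LinearOrder K]

@[simp] theorem pl_nil (c : C) : pl c ([] : List L) = 1 := rfl

@[simp] theorem pl_cons (c : C) (l : L) (w : List L) : pl c (l :: w) = lt l c * pl c w := by
  simp [pl]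

@[simp] theorem pl_append (c : C) (w w' : List L) : pl c (w ++ w') = pl c w * pl c w' := by
  simp [pl]

theorem srt_perm (k : L → K) (D : Finset L) : (srt k D).Perm D.toList :=
  List.mergeSort_perm _ _

theorem mem_srt {k : L → K} {D : Finset L} {l : L} : l ∈ srt k D ↔ l ∈ D := by
  rw [(srt_perm k D).mem_iff, Finset.mem_toList]

theorem srt_nodup (k : L → K) (D : Finset L) : (srt k D).Nodup :=
  (srt_perm k D).nodup_iff.2 D.nodup_toList

theorem srt_le (k : L → K) (D : Finset L) : (srt k D).Pairwise (fun a b => k a ≤ k b) := by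
  classical
  have := List.pairwise_mergeSort (le := fun a b : L => decide (k a ≤ k b))
    (fun a b c h1 h2 => by simp only [decide_eq_true_eq] at *; exact le_trans h1 h2)
    (fun a b => by simpa using le_total (k a) (k b)) D.toList
  exact this.imp (fun h => by simpa using h)

theorem srt_lt {k : L → K} {D : Finset L} (hk : Set.InjOn k D) :
    (srt k D).Pairwise (fun a b => k a < k b) := by
  have h1 := (srt_le k D).and (srt_nodup k D)
  refine List.Pairwise.imp_of_mem ?_ h1
  intro a b ha hb h
  exact lt_of_le_of_ne h.1 (fun he => h.2 (hk (mem_srt.1 ha) (mem_srt.1 hb) he))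

theorem srt_eq {k : L → K} {D : Finset L} {w : List L}
    (hw : w.Pairwise (fun a b => k a < k b)) (hD : ∀ l, l ∈ w ↔ l ∈ D) : srt k D = w := by
  have hnd : w.Nodup := hw.imp (fun {a b} h he => by subst he; exact lt_irrefl _ h)
  have hk : Set.InjOn k D := by
    have h1 : (w.map k).Nodup := by
      unfold List.Nodup
      rw [List.pairwise_map]
      exact hw.imp (fun h => ne_of_lt h)
    intro a ha b hb he
    exact List.inj_on_of_nodup_map h1 ((hD a).2 ha) ((hD b).2 hb) he
  have hp : (srt k D).Perm w :=
    (List.perm_ext_iff_of_nodup (srt_nodup k D) hnd).2 (fun l => by rw [mem_srt, hD])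
  exact hp.eq_of_pairwise (fun a b _ _ h1 h2 => absurd h1 (not_lt.2 h2.le)) (srt_lt hk) hw

theorem op_eq_pl {k : L → K} (c : C) {D : Finset L} {w : List L}
    (hw : w.Pairwise (fun a b => k a < k b)) (hD : ∀ l, l ∈ w ↔ l ∈ D) : op k c D = pl c w := by
  unfold op
  rw [srt_eq hw hD]

@[simp] theorem op_empty (k : L → K) (c : C) : op k c (∅ : Finset L) = 1 := by
  rw [op_eq_pl (w := []) c (by simp) (by simp)]
  rfl

theorem op_singleton (k : L → K) (c : C) (l : L) : op k c {l} = lt l c := by
  rw [op_eq_pl (w := [l]) c (by simp) (by simp)]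
  simp

/-- Splitting into a lower and an upper part. -/
theorem op_split {k : L → K} (c : C) {D D1 D2 : Finset L} (hk : Set.InjOn k D)
    (hD : ∀ l, l ∈ D ↔ l ∈ D1 ∨ l ∈ D2) (h : ∀ a ∈ D1, ∀ b ∈ D2, k a < k b) :
    op k c D = op k c D1 * op k c D2 := by
  have h1 : Set.InjOn k D1 := hk.mono (fun l hl => (hD l).2 (Or.inl hl))
  have h2 : Set.InjOn k D2 := hk.mono (fun l hl => (hD l).2 (Or.inr hl))
  rw [op_eq_pl (w := srt k D1 ++ srt k D2) c]
  · rw [pl_append]; rfl
  · rw [List.pairwise_append]
    exact ⟨srt_lt h1, srt_lt h2, fun a ha b hb => h a (mem_srt.1 ha) b (mem_srt.1 hb)⟩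
  · intro l
    rw [List.mem_append, mem_srt, mem_srt, hD]

theorem op_max {k : L → K} (c : C) {D D' : Finset L} {l : L} (hk : Set.InjOn k D)
    (hD : ∀ m, m ∈ D ↔ m ∈ D' ∨ m = l) (h : ∀ a ∈ D', k a < k l) :
    op k c D = op k c D' * lt l c := by
  rw [op_split c (D1 := D') (D2 := {l}) hk (by simpa using hD) (by simpa using h), op_singleton]

theorem op_min {k : L → K} (c : C) {D D' : Finset L} {l : L} (hk : Set.InjOn k D)
    (hD : ∀ m, m ∈ D ↔ m = l ∨ m ∈ D') (h : ∀ a ∈ D', k l < k a) :
    op k c D = lt l c * op k c D' := by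
  rw [op_split c (D1 := {l}) (D2 := D') hk (by simpa using hD) (by simpa using h), op_singleton]

open Classical in
theorem op_filter_split {k : L → K} (c : C) {D : Finset L} (hk : Set.InjOn k D) (p : L → Prop)
    (h : ∀ a ∈ D, ∀ b ∈ D, p a → ¬ p b → k a < k b) :
    op k c D = op k c (D.filter p) * op k c (D.filter (fun l => ¬ p l)) := by
  refine op_split c hk (fun l => ?_) (fun a ha b hb => ?_)
  · simp only [Finset.mem_filter]
    tauto
  · rw [Finset.mem_filter] at ha hb
    exact h a ha.1 b hb.1 ha.2 hb.2

theorem op_congr {K' : Type} [LinearOrder K'] {k : L → K} {k' : L → K'} (c : C) {D : Finset L}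
    (hk : Set.InjOn k D) (h : ∀ a ∈ D, ∀ b ∈ D, k a < k b → k' a < k' b) :
    op k c D = op k' c D := by
  rw [op_eq_pl (k := k') (w := srt k D) c ?_ (fun l => mem_srt)]
  · rfl
  · exact List.Pairwise.imp_of_mem
      (fun {a b} ha hb hab => h a (mem_srt.1 ha) b (mem_srt.1 hb) hab) (srt_lt hk)

open Classical in
theorem ret_pl (T : Set L) (c : C) (w : List L) :
    ret T (pl c w) = pl c (w.filter (fun l => decide (l ∈ T))) := by
  induction w with
  | nil => simp
  | cons l w ih =>
    rw [pl_cons, map_mul, ih, ret_lt]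
    by_cases h : l ∈ T
    · simp [h]
    · simp [h]

open Classical in
theorem ret_op {k : L → K} (c : C) {D : Finset L} (hk : Set.InjOn k D) (T : Set L) :
    ret T (op k c D) = op k c (D.filter (fun l => l ∈ T)) := by
  rw [op_eq_pl (D := D.filter (fun l => l ∈ T)) (w := (srt k D).filter (fun l => decide (l ∈ T))) c
    ((srt_lt hk).filter _) (fun l => by simp [mem_srt])]
  exact ret_pl T c _

theorem sup_op {k : L → K} (c : C) {D : Finset L} {T : Set L} (h : ∀ l ∈ D, l ∈ T) :
    Sup T (op k c D) := by
  have key : ∀ w : List L, (∀ l ∈ w, l ∈ T) → Sup T (pl c w) := by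
    intro w
    induction w with
    | nil => intro _; exact sup_one T
    | cons l w ih =>
      intro hw
      rw [pl_cons]
      exact sup_lt_mul (hw l (by simp)) c (ih (fun m hm => hw m (List.mem_cons_of_mem _ hm)))
  exact key _ (fun l hl => h l (mem_srt.1 hl))

theorem rl_pl {L' : Type} (σ : L → L') (c : C) (w : List L) :
    rl σ (pl c w) = pl c (w.map σ) := by
  induction w with
  | nil => simp
  | cons l w ih => rw [pl_cons, map_mul, ih, rl_lt, List.map_cons, pl_cons]

theorem rl_op {L' K' : Type} [LinearOrder K'] {k : L → K} {k' : L' → K'} (σ : L → L') (c : C)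
    {D : Finset L} {D' : Finset L'} (hk : Set.InjOn k D)
    (h : ∀ a ∈ D, ∀ b ∈ D, k a < k b → k' (σ a) < k' (σ b))
    (hD : ∀ l', l' ∈ D' ↔ ∃ l ∈ D, σ l = l') : rl σ (op k c D) = op k' c D' := by
  rw [op_eq_pl (k := k') (D := D') (w := (srt k D).map σ) c]
  · exact rl_pl σ c _
  · rw [List.pairwise_map]
    exact List.Pairwise.imp_of_mem
      (fun {a b} ha hb hab => h a (mem_srt.1 ha) b (mem_srt.1 hb) hab) (srt_lt hk)
  · intro l'
    rw [hD, List.mem_map]
    simp only [mem_srt]

open Classical in
theorem expo_pl (l : L) (c : C) {w : List L} (hw : w.Nodup) :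
    expo l (pl c w) = if l ∈ w then c else 1 := by
  induction w with
  | nil => simp
  | cons m w ih =>
    rw [List.nodup_cons] at hw
    rw [pl_cons, map_mul, ih hw.2, expo_lt]
    by_cases h : m = l
    · subst h
      simp [hw.1]
    · have h' : ¬ l = m := fun h2 => h h2.symm
      simp [h, h']

open Classical in
theorem expo_op (k : L → K) (l : L) (c : C) (D : Finset L) :
    expo l (op k c D) = if l ∈ D then c else 1 := by
  unfold op
  rw [expo_pl l c (srt_nodup k D)]
  simp only [mem_srt]

/-- Induction on a finite set by removing the element with the largest key. -/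
theorem finset_ind_max {k : L → K} {p : Finset L → Prop} (S : Finset L) (hk : Set.InjOn k S)
    (h0 : p ∅) (h : ∀ D D' : Finset L, ∀ l, D ⊆ S → (∀ m, m ∈ D ↔ m ∈ D' ∨ m = l) →
      (∀ a ∈ D', k a < k l) → p D' → p D) : ∀ D ⊆ S, p D := by
  classical
  intro D
  induction D using Finset.induction_on_max_value k with
  | empty => intro _; exact h0
  | insert a s ha hle ih =>
    intro hs
    refine h _ s a hs (fun m => by simp only [Finset.mem_insert]; tauto) (fun b hb => ?_)
      (ih (fun x hx => hs (Finset.mem_insert_of_mem hx)))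
    refine lt_of_le_of_ne (hle b hb) (fun he => ha ?_)
    have := hk (hs (Finset.mem_insert_of_mem hb)) (hs (Finset.mem_insert_self a s)) he
    exact this ▸ hb

theorem mem_SW {X Y : L → K} {S : Finset L} {l m : L} :
    m ∈ SW X Y S l ↔ m ∈ S ∧ X m < X l ∧ Y m < Y l := by
  unfold SW
  simp only [Finset.mem_filter]

theorem SW_comm (X Y : L → K) (S : Finset L) (l : L) : SW X Y S l = SW Y X S l := by
  ext m
  simp only [mem_SW]
  tauto

theorem SW_sub (X Y : L → K) (S : Finset L) (l : L) : SW X Y S l ⊆ S :=
  fun _ hm => (mem_SW.1 hm).1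

theorem lowerIn_SW (X Y : L → K) (S : Finset L) (l : L) : LowerIn X Y S (SW X Y S l) :=
  ⟨SW_sub X Y S l, fun _ hm _ hn h1 h2 => mem_SW.2
    ⟨hm, h1.trans (mem_SW.1 hn).2.1, h2.trans (mem_SW.1 hn).2.2⟩⟩

theorem LowerIn.symm {X Y : L → K} {S D : Finset L} (h : LowerIn X Y S D) : LowerIn Y X S D :=
  ⟨h.1, fun m hm l hl h1 h2 => h.2 m hm l hl h2 h1⟩

theorem Phi_lt (X Y : L → K) (c : C) (S : Finset L) (l : L) (x : C) :
    Phi X Y c S (lt l x) = op X c (SW X Y S l) * (lt l x)⁻¹ * (op X c (SW X Y S l))⁻¹ := by
  unfold Phi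
  rw [lf_lt, ← lt_inv]
  rfl

/-- The key identity. -/
theorem Phi_op {X Y : L → K} (c : C) {S : Finset L} (hX : Set.InjOn X S) (hY : Set.InjOn Y S)
    {D : Finset L} (hD : LowerIn X Y S D) : Phi X Y c S (op Y c D) = (op X c D)⁻¹ := by
  classical
  have key : ∀ D ⊆ S, LowerIn X Y S D → Phi X Y c S (op Y c D) = (op X c D)⁻¹ := by
    refine finset_ind_max (k := Y) S hY (fun _ => by simp) ?_
    intro D D' l hDS hm hlt ih hD
    have hl : l ∈ D := (hm l).2 (Or.inr rfl)
    have hD'D : D' ⊆ D := fun m h => (hm m).2 (Or.inl h)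
    have hD' : LowerIn X Y S D' := by
      refine ⟨hD'D.trans hDS, fun m hmS n hn h1 h2 => ?_⟩
      rcases (hm m).1 (hD.2 m hmS n (hD'D hn) h1 h2) with h | h
      · exact h
      · subst h
        exact absurd (h2.trans (hlt n hn)) (lt_irrefl _)
    have hXD : Set.InjOn X D := hX.mono hDS
    set B := D'.filter (fun m => X l < X m) with hB
    have e1 : op X c D' = op X c (SW X Y S l) * op X c B := by
      refine op_split c (hXD.mono hD'D) (fun m => ?_) (fun a ha b hb => ?_)
      · simp only [mem_SW, hB, Finset.mem_filter]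
        constructor
        · intro h
          rcases lt_trichotomy (X m) (X l) with h1 | h1 | h1
          · exact Or.inl ⟨hDS (hD'D h), h1, hlt m h⟩
          · have := hXD (hD'D h) hl h1
            subst this
            exact absurd (hlt m h) (lt_irrefl _)
          · exact Or.inr ⟨h, h1⟩
        · rintro (h | h)
          · rcases (hm m).1 (hD.2 m h.1 l hl h.2.1 h.2.2) with h3 | h3
            · exact h3
            · subst h3
              exact absurd h.2.1 (lt_irrefl _)
          · exact h.1
      · exact (mem_SW.1 ha).2.1.trans (Finset.mem_filter.1 hb).2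
    have e2 : op X c D = op X c (SW X Y S l) * (lt l c * op X c B) := by
      rw [← op_min c (D := insert l B) (D' := B) (l := l) (hXD.mono ?_) (by simp)
        (fun a ha => (Finset.mem_filter.1 ha).2)]
      · refine op_split c hXD (fun m => ?_) (fun a ha b hb => ?_)
        · simp only [mem_SW, hB, Finset.mem_filter, Finset.mem_insert]
          constructor
          · intro h
            rcases (hm m).1 h with h0 | h0
            · rcases lt_trichotomy (X m) (X l) with h1 | h1 | h1
              · exact Or.inl ⟨hDS h, h1, hlt m h0⟩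
              · exact Or.inr (Or.inl (hXD h hl h1))
              · exact Or.inr (Or.inr ⟨h0, h1⟩)
            · exact Or.inr (Or.inl h0)
          · rintro (h | h | h)
            · exact hD.2 m h.1 l hl h.2.1 h.2.2
            · exact h ▸ hl
            · exact hD'D h.1
        · rcases Finset.mem_insert.1 hb with rfl | hb
          · exact (mem_SW.1 ha).2.1
          · exact (mem_SW.1 ha).2.1.trans (Finset.mem_filter.1 hb).2
      · intro m hm'
        rcases Finset.mem_insert.1 hm' with rfl | h
        · exact hl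
        · exact hD'D (Finset.mem_filter.1 h).1
    rw [op_max c (hY.mono hDS) hm hlt, map_mul, ih hD', Phi_lt, e1, e2]
    group
  exact key D hD.1 hD

theorem Phi_Phi {X Y : L → K} (c : C) {S : Finset L} (hX : Set.InjOn X S) (hY : Set.InjOn Y S)
    (g : W L C) : Phi Y X c S (Phi X Y c S g) = g := by
  have : (Phi Y X c S).comp (Phi X Y c S) = MonoidHom.id _ := by
    refine W_ext (fun l x => ?_)
    rw [MonoidHom.comp_apply, Phi_lt, map_mul, map_mul, map_inv, map_inv,
      Phi_op c hY hX (lowerIn_SW X Y S l).symm, Phi_lt, SW_comm Y X]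
    simp only [MonoidHom.id_apply]
    group
  exact DFunLike.congr_fun this g

theorem Phi_injective {X Y : L → K} (c : C) {S : Finset L} (hX : Set.InjOn X S)
    (hY : Set.InjOn Y S) : Function.Injective (Phi X Y c S) :=
  Function.LeftInverse.injective (Phi_Phi c hX hY)

theorem sup_Phi (X Y : L → K) (c : C) {S : Finset L} {T : Set L} (hS : ∀ l ∈ S, l ∈ T)
    {g : W L C} (hg : Sup T g) : Sup T (Phi X Y c S g) := by
  refine sup_map (fun l hl x => ?_) hg
  have h := sup_op (k := X) c (D := SW X Y S l) (T := T) (fun m hm => hS m (SW_sub X Y S l hm))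
  rw [Phi_lt]
  exact sup_mul (sup_mul h (sup_inv (sup_lt hl x))) (sup_inv h)

theorem expo_Phi (X Y : L → K) (c : C) (S : Finset L) (l : L) (g : W L C) :
    expo l (Phi X Y c S g) = (expo l g)⁻¹ := by
  induction g using W_ind with
  | h1 => simp
  | h m x g ih =>
    rw [map_mul, map_mul, ih, Phi_lt, map_mul, map_mul, map_mul, map_inv, map_inv, mul_inv]
    congr 1
    rw [mul_comm (expo l (op X c (SW X Y S m))), mul_assoc, mul_inv_cancel, mul_one]

/-- Compatibility with the retractions. -/
theorem ret_Phi {X Y : L → K} (c : C) {S T : Finset L} (hX : Set.InjOn X S) (hT : T ⊆ S)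
    (g : W L C) : ret (T : Set L) (Phi X Y c S g) = Phi X Y c T (ret (T : Set L) g) := by
  classical
  have : (ret (T : Set L)).comp (Phi X Y c S) = (Phi X Y c T).comp (ret (T : Set L)) := by
    refine W_ext (fun l x => ?_)
    have e : ret (T : Set L) (op X c (SW X Y S l)) = op X c (SW X Y T l) := by
      rw [ret_op c (hX.mono (SW_sub X Y S l))]
      congr 1
      ext m
      simp only [Finset.mem_filter, mem_SW, Finset.mem_coe]
      exact ⟨fun h => ⟨h.2, h.1.2⟩, fun h => ⟨⟨hT h.1, h.2⟩, h.1⟩⟩
    rw [MonoidHom.comp_apply, MonoidHom.comp_apply, Phi_lt, map_mul, map_mul, map_inv, map_inv,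
      e, ret_lt]
    split_ifs with h
    · rw [Phi_lt]
    · simp
  exact DFunLike.congr_fun this g

/-- The change of basis depends only on the two orders. -/
theorem Phi_congr {K' : Type} [LinearOrder K'] {X Y : L → K} {X' Y' : L → K'} (c : C)
    {S : Finset L} {T : Set L} (hX : Set.InjOn X S)
    (h0 : ∀ a ∈ S, ∀ b ∈ S, X a < X b → X' a < X' b)
    (h1 : ∀ a ∈ S, ∀ b ∈ T, X a < X b ∧ Y a < Y b ↔ X' a < X' b ∧ Y' a < Y' b)
    {g : W L C} (hg : Sup T g) : Phi X Y c S g = Phi X' Y' c S g := by
  refine W_ext_sup (fun l hl x => ?_) hg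
  have e : SW X Y S l = SW X' Y' S l := by
    ext m
    simp only [mem_SW]
    exact ⟨fun h => ⟨h.1, (h1 m h.1 l hl).1 h.2⟩, fun h => ⟨h.1, (h1 m h.1 l hl).2 h.2⟩⟩
  rw [Phi_lt, Phi_lt, ← e, op_congr c (hX.mono (SW_sub X Y S l))
    (fun a ha b hb => h0 a (SW_sub X Y S l ha) b (SW_sub X Y S l hb))]

/-- Naturality under relabelling. -/
theorem rl_Phi {L' K' : Type} [LinearOrder K'] {X Y : L → K} {X' Y' : L' → K'} (σ : L → L')
    (c : C) {S : Finset L} {S' : Finset L'} (hX : Set.InjOn X S)
    (hx : ∀ a b, X a < X b ↔ X' (σ a) < X' (σ b)) (hy : ∀ a b, Y a < Y b ↔ Y' (σ a) < Y' (σ b))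
    (hS : ∀ l', l' ∈ S' ↔ ∃ l ∈ S, σ l = l') (g : W L C) :
    rl σ (Phi X Y c S g) = Phi X' Y' c S' (rl σ g) := by
  have : (rl σ).comp (Phi X Y c S) = (Phi X' Y' c S').comp (rl σ) := by
    refine W_ext (fun l x => ?_)
    have e : rl σ (op X c (SW X Y S l)) = op X' c (SW X' Y' S' (σ l)) := by
      refine rl_op σ c (hX.mono (SW_sub X Y S l)) (fun a _ b _ h => (hx a b).1 h) (fun l' => ?_)
      simp only [mem_SW, hS]
      constructor
      · rintro ⟨⟨m, hm, rfl⟩, h1, h2⟩
        exact ⟨m, ⟨hm, (hx m l).2 h1, (hy m l).2 h2⟩, rfl⟩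
      · rintro ⟨m, ⟨hm, h1, h2⟩, rfl⟩
        exact ⟨⟨m, hm, rfl⟩, (hx m l).1 h1, (hy m l).1 h2⟩
    rw [MonoidHom.comp_apply, MonoidHom.comp_apply, Phi_lt, map_mul, map_mul, map_inv, map_inv,
      e, rl_lt, Phi_lt]
  exact DFunLike.congr_fun this g

end ops

end Pool.Agent.E5f
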