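import Pool.Agent.E5f.LsTouchB
import Pool.Agent.E5f.LsChain
import Pool.Agent.E5f.WOp

/-!
The action of passes on a full block.
-/

set_option autoImplicit false
set_option linter.unusedSimpArgs false
set_option linter.unusedSectionVars false

namespace Pool.Agent.E5f.Wall

open Classical

variable {L : Type}

/-- The nontrivial letter at a label. -/
def lc (x : L) : W L C2 := lt x c2

theorem c2_ne : c2 ≠ 1 := by decide
theorem c2_cases (x : C2) : x = 1 ∨ x = c2 := by revert x; decide
theorem c2_mul : c2 * c2 = 1 := by decide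

@[simp] theorem lc_mul (x : L) : lc x * lc x = 1 := by rw [lc, ← lt_mul, c2_mul, lt_one]
@[simp] theorem lc_cancel (x : L) (g : W L C2) : lc x * (lc x * g) = g := by
  rw [← mul_assoc, lc_mul, one_mul]
@[simp] theorem lc_inv (x : L) : (lc x)⁻¹ = lc x := inv_eq_of_mul_eq_one_right (lc_mul x)
theorem lab_lc (x : L) : lab (lc x) = [x] := by rw [lab, lc, wd_lt x c2_ne]; rfl

theorem ext_lc {G : Type} [Group G] {f f' : W L C2 →* G} {S : Set L}
    (h : ∀ l ∈ S, f (lc l) = f' (lc l)) {g : W L C2} (hg : Sup S g) : f g = f' g := by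
  refine W_ext_sup (fun l hl x => ?_) hg
  rcases c2_cases x with rfl | rfl
  · simp
  · exact h l hl

theorem sup_map_lc {S T : Set L} {f : W L C2 →* W L C2} (h : ∀ l ∈ S, Sup T (f (lc l)))
    {g : W L C2} (hg : Sup S g) : Sup T (f g) := by
  refine sup_map (fun l hl x => ?_) hg
  rcases c2_cases x with rfl | rfl
  · simpa using sup_one T
  · exact h l hl

theorem sup_lc {S : Set L} {l : L} (hl : l ∈ S) : Sup S (lc l) := sup_lt c2 hl

theorem sw_lc (x y l : L) : sw x y c2 (lc l) = if l = y then lc x * lc y * lc x else lc l := by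
  unfold lc
  rw [sw_lt]
  split_ifs
  · rw [show (lt x c2 : W L C2)⁻¹ = lt x c2 from lc_inv x]
  · rfl

theorem eq_prod_lc (h : W L C2) : h = ((lab h).map lc).prod := by
  conv_lhs => rw [← ev_wd h]
  rw [lab, ev, List.map_map]
  congr 1
  refine List.map_congr_left (fun e he => ?_)
  have := (red_wd h).1 e he
  simp only [Function.comp, lc]
  rw [(c2_cases e.2).resolve_left this]

theorem lab_inv (h : W L C2) : lab h⁻¹ = (lab h).reverse := by
  have h1 : h⁻¹ = ev ((lab h).reverse.map (fun l => (l, c2))) := by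
    conv_lhs => rw [eq_prod_lc h]
    rw [List.prod_inv_reverse, ev]
    have e : (fun x : L => (lc x)⁻¹) = fun x => lt x c2 := funext (fun x => lc_inv x)
    simp only [List.map_reverse, List.map_map, Function.comp_def, e]
  rw [h1, lab_ev]
  · simp [List.map_map, Function.comp_def]
  · refine ⟨?_, ?_⟩
    · intro e he
      obtain ⟨l, -, rfl⟩ := List.mem_map.1 he
      exact c2_ne
    · rw [List.isChain_map, List.isChain_reverse]
      exact (lab_chain h).imp (fun _ _ h => h.symm)

/-- The homomorphism conjugating each letter. -/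
noncomputable def cjH (w : L → W L C2) : W L C2 →* W L C2 :=
  lf (fun l => (MulAut.conj (w l)).toMonoidHom.comp (ltH l))

theorem cjH_lc (w : L → W L C2) (l : L) : cjH w (lc l) = w l * lc l * (w l)⁻¹ := by
  unfold cjH lc
  rw [lf_lt]
  rfl

/-- The composite of a list of swap maps. -/
noncomputable def actH : List (L × L) → W L C2 →* W L C2
  | [] => MonoidHom.id _
  | e :: c => (actH c).comp (sw e.1 e.2 c2)

theorem actH_append (c c' : List (L × L)) (g : W L C2) : actH (c ++ c') g = actH c' (actH c g) := by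
  induction c generalizing g with
  | nil => rfl
  | cons e c ih => exact ih _

section three
variable (o a b : L)

/-- The map of one pass. -/
noncomputable def TP (σ : Bool) : W L C2 →* W L C2 :=
  cjH (fun l => if σ = true then (if l = o then lc b * lc a else if l = b then lc a else 1)
    else (if l = a then lc o * lc b else if l = b then lc o else 1))

/-- The map of `n` passes. -/
noncomputable def TT : ℕ → Bool → W L C2 →* W L C2
  | 0, _ => MonoidHom.id _
  | n + 1, σ => (TT n (!σ)).comp (TP o a b σ)

/-- The state of a pass; the propositions say which pairs have been exchanged. -/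
def Inv (σ : Bool) (s1 s2 s3 : Prop) (τ : W L C2 →* W L C2) : Prop :=
  if σ = true then
    τ (lc o) = (if s1 then (if s2 then (if s3 then lc b * lc a * lc o * lc a * lc b
      else lc a * lc b * lc o * lc b * lc a) else lc a * lc o * lc a)
      else (if s2 then lc b * lc o * lc b else lc o)) ∧ τ (lc a) = lc a ∧
    τ (lc b) = (if s3 then lc a * lc b * lc a else lc b)
  else
    τ (lc o) = lc o ∧
    τ (lc a) = (if s3 then (if s2 then (if s1 then lc o * lc b * lc a * lc b * lc o
      else lc o * lc b * lc o * lc a * lc o * lc b * lc o) else lc b * lc a * lc b)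
      else (if s1 then lc o * lc a * lc o else lc a)) ∧
    τ (lc b) = (if s2 then lc o * lc b * lc o else lc b)

variable {o a b} (hoa : o ≠ a) (hob : o ≠ b) (hab : a ≠ b)
include hoa hob hab

theorem inv_oa {σ : Bool} {s : Prop} {τ : W L C2 →* W L C2} (h : Inv o a b σ False s s τ) :
    Inv o a b σ True s s
      ((sw (if σ = true then a else o) (if σ = true then o else a) c2).comp τ) := by
  by_cases hs : s <;> cases σ <;> simp only [Inv, hs] at h ⊢ <;> simp at h ⊢ <;>
    simp [h.1, h.2.1, h.2.2, sw_lc, hoa, hob, hab, hoa.symm, hob.symm, hab.symm, mul_assoc]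

theorem inv_ob {σ : Bool} {s : Prop} {τ : W L C2 →* W L C2} (h : Inv o a b σ s False (¬ s) τ) :
    Inv o a b σ s True (¬ s)
      ((sw (if σ = true then b else o) (if σ = true then o else b) c2).comp τ) := by
  by_cases hs : s <;> cases σ <;> simp only [Inv, hs] at h ⊢ <;> simp at h ⊢ <;>
    simp [h.1, h.2.1, h.2.2, sw_lc, hoa, hob, hab, hoa.symm, hob.symm, hab.symm, mul_assoc]

theorem inv_ab {σ : Bool} {s : Prop} {τ : W L C2 →* W L C2} (h : Inv o a b σ s s False τ) :
    Inv o a b σ s s True
      ((sw (if σ = true then a else b) (if σ = true then b else a) c2).comp τ) := by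
  by_cases hs : s <;> cases σ <;> simp only [Inv, hs] at h ⊢ <;> simp at h ⊢ <;>
    simp [h.1, h.2.1, h.2.2, sw_lc, hoa, hob, hab, hoa.symm, hob.symm, hab.symm, mul_assoc]

omit hoa hob hab in
theorem inv_out {σ : Bool} {s1 s2 s3 : Prop} {τ : W L C2 →* W L C2} (h : Inv o a b σ s1 s2 s3 τ)
    {x y : L} (h1 : o ≠ y) (h2 : a ≠ y) (h3 : b ≠ y) :
    Inv o a b σ s1 s2 s3 ((sw x y c2).comp τ) := by
  by_cases e1 : s1 <;> by_cases e2 : s2 <;> by_cases e3 : s3 <;> cases σ <;>
    simp only [Inv, e1, e2, e3] at h ⊢ <;> simp at h ⊢ <;>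
    simp [h.1, h.2.1, h.2.2, sw_lc, h1, h2, h3]

omit hoa hob hab in
theorem pl1 {p d : Prop} (h : p ↔ d) : (¬ (p ↔ d)) = False := by rw [eq_iff_iff]; tauto

omit hoa hob hab in
theorem pl2 {p q d : Prop} (hq : q ↔ ¬ p) (h : p ↔ d) : (¬ (q ↔ d)) = True := by
  rw [eq_iff_iff]; tauto

omit hoa hob hab in
theorem pl3 {p q d : Prop} (hq : q ↔ ¬ p) : (¬ (q ↔ d)) = ¬ (¬ (p ↔ d)) := by
  rw [eq_iff_iff]; tauto

omit hoa hob hab in
theorem pl4 {p q r d : Prop} (hq : q ↔ ¬ r) (hr : r ↔ ¬ p) : (¬ (q ↔ d)) = (¬ (p ↔ d)) := by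
  rw [eq_iff_iff]; tauto

theorem inv_chain {κ : Type} [LinearOrder κ] {S : Set L} {k0 k1 : L → κ} (ho : o ∈ S) (ha : a ∈ S)
    (hb : b ∈ S) {d : Prop} (d1 : k0 o < k0 a ↔ d) (d2 : k0 o < k0 b ↔ d) (d3 : k0 a < k0 b ↔ d)
    (i0 : Function.Injective k0) {σ : Bool} (c : List (L × L))
    (hc : ∀ e ∈ c, (e.1 ≠ o ∧ e.1 ≠ a ∧ e.1 ≠ b ∧ e.2 ≠ o ∧ e.2 ≠ a ∧ e.2 ≠ b) ∨
      e = (if σ = true then a else o, if σ = true then o else a) ∨
      e = (if σ = true then b else o, if σ = true then o else b) ∨
      e = (if σ = true then a else b, if σ = true then b else a))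
    (k : L → κ) (hk : Function.Injective k) (hch : Chn S k0 k1 k c) (τ : W L C2 →* W L C2)
    (h : Inv o a b σ (¬ (k o < k a ↔ d)) (¬ (k o < k b ↔ d)) (¬ (k a < k b ↔ d)) τ) :
    Inv o a b σ (¬ (kend k c o < kend k c a ↔ d)) (¬ (kend k c o < kend k c b ↔ d))
      (¬ (kend k c a < kend k c b ↔ d)) ((actH c).comp τ) := by
  induction c generalizing k τ with
  | nil => exact h
  | cons e c ih =>
    obtain ⟨hA, hu, -, hch'⟩ := hch
    have flip : ∀ (k : L → κ), Function.Injective k → ∀ x y, x ≠ y → (k y < k x ↔ ¬ k x < k y) :=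
      fun k hk x y hxy => ⟨fun h1 => not_lt_of_gt h1,
        fun h1 => lt_of_le_of_ne (not_lt.1 h1) (fun h2 => hxy (hk h2).symm)⟩
    have f1 := flip k hk o a hoa
    have f2 := flip k hk o b hob
    have f3 := flip k hk a b hab
    have g1 := flip k0 i0 o a hoa
    have g2 := flip k0 i0 o b hob
    have g3 := flip k0 i0 a b hab
    refine ih (fun e' he' => hc e' (List.mem_cons_of_mem _ he')) (ks k e.1 e.2) (ks_inj hk _ _)
      hch' ((sw e.1 e.2 c2).comp τ) ?_
    rcases hc e (by simp) with h1 | rfl | rfl | rfl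
    · have q : ∀ x, x ≠ e.1 → x ≠ e.2 → ks k e.1 e.2 x = k x := fun x h1 h2 => by
        simp [ks, Equiv.swap_apply_of_ne_of_ne h1 h2]
      rw [q o h1.1.symm h1.2.2.2.1.symm, q a h1.2.1.symm h1.2.2.2.2.1.symm,
        q b h1.2.2.1.symm h1.2.2.2.2.2.symm]
      exact inv_out h h1.2.2.2.1.symm h1.2.2.2.2.1.symm h1.2.2.2.2.2.symm
    · have q : ks k (if σ = true then a else o) (if σ = true then o else a) o = k a ∧
          ks k (if σ = true then a else o) (if σ = true then o else a) a = k o ∧
          ks k (if σ = true then a else o) (if σ = true then o else a) b = k b := by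
        cases σ <;> simp [ks, Equiv.swap_apply_of_ne_of_ne hob.symm hab.symm,
          Equiv.swap_apply_of_ne_of_ne hab.symm hob.symm]
      have adj : (k o < k b ↔ k a < k b) ∧ (k o < k a ↔ d) := by
        cases σ
        · have := hA.adj b hb hob.symm hab.symm
          simp only [Bool.false_eq_true, if_false] at this hu
          rw [f2, f3, not_iff_not] at this
          exact ⟨this, hu.trans d1⟩
        · have := hA.adj b hb hab.symm hob.symm
          simp only [if_true] at this hu
          rw [f2, f3, not_iff_not] at this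
          rw [f1, g1, not_iff_not] at hu
          exact ⟨this.symm, hu.trans d1⟩
      simp only [q.1, q.2.1, q.2.2]
      have e1 : (¬ (k o < k a ↔ d)) = False := pl1 adj.2
      have e2 : (¬ (k a < k o ↔ d)) = True := pl2 f1 adj.2
      have e3 : (¬ (k o < k b ↔ d)) = (¬ (k a < k b ↔ d)) := by rw [adj.1]
      rw [e1, e3] at h
      rw [e2, e3]
      exact inv_oa hoa hob hab h
    · have q : ks k (if σ = true then b else o) (if σ = true then o else b) o = k b ∧
          ks k (if σ = true then b else o) (if σ = true then o else b) a = k a ∧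
          ks k (if σ = true then b else o) (if σ = true then o else b) b = k o := by
        cases σ <;> simp [ks, Equiv.swap_apply_of_ne_of_ne hoa.symm hab,
          Equiv.swap_apply_of_ne_of_ne hab hoa.symm]
      have adj : (k a < k o ↔ k a < k b) ∧ (k o < k b ↔ d) := by
        cases σ
        · have := hA.adj a ha hoa.symm hab
          simp only [Bool.false_eq_true, if_false] at this hu
          exact ⟨this, hu.trans d2⟩
        · have := hA.adj a ha hab hoa.symm
          simp only [if_true] at this hu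
          rw [f2, g2, not_iff_not] at hu
          exact ⟨this.symm, hu.trans d2⟩
      simp only [q.1, q.2.1, q.2.2]
      have e1 : (¬ (k o < k b ↔ d)) = False := pl1 adj.2
      have e2 : (¬ (k b < k o ↔ d)) = True := pl2 f2 adj.2
      have e3 : (¬ (k a < k b ↔ d)) = ¬ (¬ (k o < k a ↔ d)) := pl3 (adj.1.symm.trans f1)
      have e4 : (¬ (k b < k a ↔ d)) = (¬ (k o < k a ↔ d)) := pl4 f3 (adj.1.symm.trans f1)
      have e5 : (¬ (k a < k o ↔ d)) = ¬ (¬ (k o < k a ↔ d)) := pl3 f1
      rw [e1, e3] at h
      rw [e2, e4, e5]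
      exact inv_ob hoa hob hab h
    · have q : ks k (if σ = true then a else b) (if σ = true then b else a) o = k o ∧
          ks k (if σ = true then a else b) (if σ = true then b else a) a = k b ∧
          ks k (if σ = true then a else b) (if σ = true then b else a) b = k a := by
        cases σ <;> simp [ks, Equiv.swap_apply_of_ne_of_ne hoa hob,
          Equiv.swap_apply_of_ne_of_ne hob hoa]
      have adj : (k o < k a ↔ k o < k b) ∧ (k a < k b ↔ d) := by
        cases σ
        · have := hA.adj o ho hob hoa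
          simp only [Bool.false_eq_true, if_false] at this hu
          rw [f3, g3, not_iff_not] at hu
          exact ⟨this.symm, hu.trans d3⟩
        · have := hA.adj o ho hoa hob
          simp only [if_true] at this hu
          exact ⟨this, hu.trans d3⟩
      simp only [q.1, q.2.1, q.2.2]
      have e1 : (¬ (k a < k b ↔ d)) = False := pl1 adj.2
      have e2 : (¬ (k b < k a ↔ d)) = True := pl2 f3 adj.2
      have e3 : (¬ (k o < k a ↔ d)) = (¬ (k o < k b ↔ d)) := by rw [adj.1]
      rw [e1, e3] at h
      rw [e2, e3]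
      exact inv_ab hoa hob hab h

theorem TP_o (σ : Bool) : TP o a b σ (lc o) =
    if σ = true then lc b * lc a * lc o * lc a * lc b else lc o := by
  cases σ <;> simp [TP, cjH_lc, hoa, hob, mul_assoc]

omit hob in
theorem TP_a (σ : Bool) : TP o a b σ (lc a) =
    if σ = true then lc a else lc o * lc b * lc a * lc b * lc o := by
  cases σ <;> simp [TP, cjH_lc, hoa.symm, hab, mul_assoc]

omit hoa in
theorem TP_b (σ : Bool) : TP o a b σ (lc b) =
    if σ = true then lc a * lc b * lc a else lc o * lc b * lc o := by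
  cases σ <;> simp [TP, cjH_lc, hob.symm, hab.symm, mul_assoc]

/-- One pass acts on a full block by `TP`. -/
theorem pass_eq {κ : Type} [LinearOrder κ] {S : Set L} {k0 k1 : L → κ} (ho : o ∈ S) (ha : a ∈ S)
    (hb : b ∈ S) {d : Prop} (d1 : k0 o < k0 a ↔ d) (d2 : k0 o < k0 b ↔ d) (d3 : k0 a < k0 b ↔ d)
    (d1' : k1 o < k1 a ↔ ¬ d) (d2' : k1 o < k1 b ↔ ¬ d) (d3' : k1 a < k1 b ↔ ¬ d)
    {σ : Bool} {c : List (L × L)} (hF : FCh S k0 k1 c)
    (hc : ∀ e ∈ c, (e.1 ≠ o ∧ e.1 ≠ a ∧ e.1 ≠ b ∧ e.2 ≠ o ∧ e.2 ≠ a ∧ e.2 ≠ b) ∨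
      e = (if σ = true then a else o, if σ = true then o else a) ∨
      e = (if σ = true then b else o, if σ = true then o else b) ∨
      e = (if σ = true then a else b, if σ = true then b else a))
    {g : W L C2} (hg : Sup {o, a, b} g) : actH c g = TP o a b σ g := by
  have h := inv_chain hoa hob hab ho ha hb d1 d2 d3 hF.inj0 c hc k0 hF.inj0 hF.chn
    (MonoidHom.id _) (by cases σ <;> simp [Inv, d1, d2, d3])
  rw [hF.fin o ho a ha, hF.fin o ho b hb, hF.fin a ha b hb, d1', d2', d3'] at h
  have e : (¬ (¬ d ↔ d)) = True := pl2 Iff.rfl Iff.rfl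
  rw [e] at h
  refine ext_lc (fun l hl => ?_) hg
  rcases hl with rfl | rfl | rfl
  · rw [TP_o hoa hob hab]; cases σ <;> simp [Inv] at h ⊢ <;> exact h.1
  · rw [TP_a hoa hab]; cases σ <;> simp [Inv] at h ⊢ <;> exact h.2.1
  · rw [TP_b hob hab]; cases σ <;> simp [Inv] at h ⊢ <;> exact h.2.2

theorem sup_TP (σ : Bool) {g : W L C2} (hg : Sup {o, a, b} g) : Sup {o, a, b} (TP o a b σ g) := by
  have qo : Sup {o, a, b} (lc o) := sup_lc (by simp)
  have qa : Sup {o, a, b} (lc a) := sup_lc (by simp)
  have qb : Sup {o, a, b} (lc b) := sup_lc (by simp)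
  refine sup_map_lc (fun l hl => ?_) hg
  rcases hl with rfl | rfl | rfl
  · rw [TP_o hoa hob hab]; split_ifs <;> repeat first | assumption | apply sup_mul
  · rw [TP_a hoa hab]; split_ifs <;> repeat first | assumption | apply sup_mul
  · rw [TP_b hob hab]; split_ifs <;> repeat first | assumption | apply sup_mul

theorem TP_TP (σ : Bool) {g : W L C2} (hg : Sup {o, a, b} g) :
    TP o a b σ (TP o a b σ g) = g := by
  refine ext_lc (f := (TP o a b σ).comp (TP o a b σ)) (f' := MonoidHom.id _) (fun l hl => ?_) hg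
  rcases hl with rfl | rfl | rfl <;> cases σ <;>
    simp [TP_o hoa hob hab, TP_a hoa hab, TP_b hob hab, mul_assoc]

theorem sup_TT (n : ℕ) (σ : Bool) {g : W L C2} (hg : Sup {o, a, b} g) :
    Sup {o, a, b} (TT o a b n σ g) := by
  induction n generalizing σ g with
  | zero => exact hg
  | succ n ih => exact ih _ (sup_TP hoa hob hab σ hg)

omit hoa hob hab in
theorem TT_snoc (n : ℕ) (σ : Bool) (g : W L C2) :
    TT o a b (n + 1) σ g = TP o a b (if Even n then σ else !σ) (TT o a b n σ g) := by
  induction n generalizing σ g with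
  | zero => simp [TT]
  | succ n ih =>
    have := ih (!σ) (TP o a b σ g)
    have e : (if Even n then !σ else !!σ) = (if Even (n + 1) then σ else !σ) := by
      by_cases h : Even n <;> simp [h, Nat.even_add_one]
    rw [e] at this
    exact this

theorem TT_inv (n : ℕ) (σ : Bool) {g : W L C2} (hg : Sup {o, a, b} g) :
    TT o a b n (if Even n then !σ else σ) (TT o a b n σ g) = g := by
  induction n with
  | zero => rfl
  | succ n ih =>
    rw [TT_snoc n σ]
    have e : (if Even (n + 1) then !σ else σ) = (if Even n then σ else !σ) := by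
      by_cases h : Even n <;> simp [h, Nat.even_add_one]
    have e' : (!(if Even n then σ else !σ)) = (if Even n then !σ else σ) := by
      by_cases h : Even n <;> simp [h]
    rw [e]
    show TT o a b n (!(if Even n then σ else !σ)) (TP o a b _ (TP o a b _ _)) = g
    rw [TP_TP hoa hob hab _ (sup_TT hoa hob hab n σ hg), e', ih]

omit hoa hob hab in
/-- The images of the two factors are conjugates by powers of the boundary element. -/
def Stc (o a b : L) (τ : W L C2 →* W L C2) (i i' : ℤ) : Prop :=
  τ (lc o) = (lc o * lc a * lc b) ^ i * lc o * (lc o * lc a * lc b) ^ (-i) ∧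
  ∀ h, Sup {a, b} h → ∃ h', Sup {a, b} h' ∧
    τ h = (lc o * lc a * lc b) ^ i' * h' * (lc o * lc a * lc b) ^ (-i')

theorem TT_stc (n : ℕ) (σ : Bool) :
    TT o a b n σ (lc o * lc a * lc b) = (lc o * lc a * lc b) ^ (if Even n then 1 else -1 : ℤ) ∧
    ∃ j : ℕ, (n = 2 * j ∧ Stc o a b (TT o a b n σ) (if σ = true then j else -j)
        (if σ = true then j else -j)) ∨
      (n = 2 * j + 1 ∧ Stc o a b (TT o a b n σ) (if σ = true then -j - 1 else j)
        (if σ = true then -j else j + 1)) := by
  have qa : Sup {a, b} (lc a) := sup_lc (by simp)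
  have qb : Sup {a, b} (lc b) := sup_lc (by simp)
  induction n generalizing σ with
  | zero => exact ⟨by simp [TT], 0, Or.inl ⟨rfl, by simp [TT], fun h hh => ⟨h, hh, by simp [TT]⟩⟩⟩
  | succ n ih =>
    obtain ⟨hd, j, hj⟩ := ih (!σ)
    set δ : W L C2 := lc o * lc a * lc b with hδ
    have hP : TP o a b σ δ = δ⁻¹ := by
      cases σ <;> simp [hδ, TP_o hoa hob hab, TP_a hoa hab, TP_b hob hab, mul_assoc]
    have stepA : ∀ (τ : W L C2 →* W L C2) (ε i i' : ℤ), τ δ = δ ^ ε → Stc o a b τ i i' →
        Stc o a b (τ.comp (TP o a b true)) (i - ε) i' := by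
      intro τ ε i i' h1 h2
      refine ⟨?_, fun h hh => ?_⟩
      · have : TP o a b true (lc o) = δ⁻¹ * lc o * δ := by
          simp [hδ, TP_o hoa hob hab, mul_assoc]
        rw [MonoidHom.comp_apply, this, map_mul, map_mul, map_inv, h1, h2.1, ← hδ]
        group
      · refine h2.2 (TP o a b true h) (sup_map_lc (fun l hl => ?_) hh)
        rcases hl with rfl | rfl
        · rw [TP_a hoa hab]; simpa using qa
        · rw [TP_b hob hab]; simpa using sup_mul (sup_mul qa qb) qa
    have stepB : ∀ (τ : W L C2 →* W L C2) (ε i i' : ℤ), τ δ = δ ^ ε → Stc o a b τ i i' →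
        Stc o a b (τ.comp (TP o a b false)) i (i' + ε) := by
      intro τ ε i i' h1 h2
      refine ⟨?_, fun h hh => ?_⟩
      · rw [MonoidHom.comp_apply, TP_o hoa hob hab]
        exact h2.1
      · have q : Sup {a, b} (((MulAut.conj δ⁻¹).toMonoidHom.comp (TP o a b false)) h) := by
          refine sup_map_lc (fun l hl => ?_) hh
          rcases hl with rfl | rfl
          · have : ((MulAut.conj δ⁻¹).toMonoidHom.comp (TP o l b false)) (lc l) =
                lc b * lc l * lc b * lc l * lc b * lc l * lc b := by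
              simp [hδ, TP_a hoa hab, mul_assoc]
            rw [this]
            repeat first | assumption | apply sup_mul
          · have : ((MulAut.conj δ⁻¹).toMonoidHom.comp (TP o a l false)) (lc l) =
                lc l * lc a * lc l * lc a * lc l := by
              simp [hδ, TP_b hob hab, mul_assoc]
            rw [this]
            repeat first | assumption | apply sup_mul
        obtain ⟨h', hh', e⟩ := h2.2 _ q
        refine ⟨h', hh', ?_⟩
        have e2 : TP o a b false h =
            δ * (((MulAut.conj δ⁻¹).toMonoidHom.comp (TP o a b false)) h) * δ⁻¹ := by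
          simp [mul_assoc]
        rw [MonoidHom.comp_apply, e2, map_mul, map_mul, e, map_inv τ, h1, ← hδ]
        group
    refine ⟨?_, ?_⟩
    · show TT o a b n (!σ) (TP o a b σ δ) = _
      rw [hP, map_inv, hd]
      by_cases h : Even n <;> simp [h, Nat.even_add_one]
    · rcases hj with ⟨rfl, hj⟩ | ⟨rfl, hj⟩
      · rw [if_pos (by simp)] at hd
        refine ⟨j, Or.inr ⟨rfl, ?_⟩⟩
        cases σ
        · exact stepB _ _ _ _ hd hj
        · exact stepA _ _ _ _ hd hj
      · rw [if_neg (by simp)] at hd
        refine ⟨j + 1, Or.inl ⟨by ring, ?_⟩⟩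
        cases σ
        · have := stepB _ _ _ _ hd hj
          simp only [Bool.not_false, if_true] at this
          simp only [Bool.false_eq_true, if_false]
          have e : (-((j + 1 : ℕ) : ℤ)) = -j - 1 := by push_cast; ring
          rw [e]
          exact this
        · have := stepA _ _ _ _ hd hj
          simp only [Bool.not_true, Bool.false_eq_true, if_false, sub_neg_eq_add] at this
          simp only [if_true]
          push_cast
          exact this

end three

end Pool.Agent.E5f.Wall
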