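import Pool.Agent.E5f.LsTouchC

/-!
Patterns in the reduced words of conjugates by powers of the boundary element.
-/

set_option autoImplicit false
set_option linter.unusedSimpArgs false
set_option linter.unusedSectionVars false

namespace Pool.Agent.E5f.Wall

open Classical

variable {L : Type}

/-- The reduced word starts and ends with `o`. -/
def CA (o : L) (g : W L C2) : Prop := (lab g).head? = some o ∧ (lab g).getLast? = some o

/-- The reduced word is nonempty and neither starts nor ends with `o`. -/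
def CB (o : L) (g : W L C2) : Prop :=
  lab g ≠ [] ∧ (∀ x ∈ (lab g).head?, x ≠ o) ∧ (∀ x ∈ (lab g).getLast?, x ≠ o)

theorem lab_sand {u g v : W L C2} (hg : lab g ≠ [])
    (h1 : ∀ x ∈ (lab u).getLast?, ∀ y ∈ (lab g).head?, x ≠ y)
    (h2 : ∀ x ∈ (lab g).getLast?, ∀ y ∈ (lab v).head?, x ≠ y) :
    lab (u * g * v) = lab u ++ lab g ++ lab v := by
  have e := lab_mul_W h1
  rw [lab_mul_W, e]
  rw [e, List.getLast?_append_of_ne_nil _ hg]
  exact h2

theorem lab_lc2 {x y : L} (h : x ≠ y) : lab (lc x * lc y) = [x, y] := by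
  rw [lab_mul_W] <;> simp [lab_lc, h]

theorem lab_lc3 {x y z : L} (h : x ≠ y) (h' : y ≠ z) : lab (lc x * lc y * lc z) = [x, y, z] := by
  rw [lab_mul_W] <;> simp [lab_lc, lab_lc2 h, h']

section three
variable {o a b : L} (hoa : o ≠ a) (hob : o ≠ b) (hab : a ≠ b)
include hoa hob hab

theorem conjA {g : W L C2} (h : CA o g) :
    lab ((lc o * lc a * lc b) * g * (lc o * lc a * lc b)⁻¹) = [o, a, b] ++ lab g ++ [b, a, o] := by
  have e : (lc o * lc a * lc b)⁻¹ = lc b * lc a * lc o := by simp [mul_assoc]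
  rw [e, lab_sand, lab_lc3 hoa hab, lab_lc3 hab.symm hoa.symm]
  · intro h0; have := h.1; simp [h0] at this
  · rw [lab_lc3 hoa hab, h.1]; simpa using hob.symm
  · rw [lab_lc3 hab.symm hoa.symm, h.2]; simpa using hob

theorem conjB {g : W L C2} (h : CB o g) :
    lab ((lc o * lc a * lc b)⁻¹ * g * (lc o * lc a * lc b)) = [b, a, o] ++ lab g ++ [o, a, b] := by
  have e : (lc o * lc a * lc b)⁻¹ = lc b * lc a * lc o := by simp [mul_assoc]
  rw [e, lab_sand h.1, lab_lc3 hoa hab, lab_lc3 hab.symm hoa.symm]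
  · rw [lab_lc3 hab.symm hoa.symm]
    intro x hx y hy
    have : x = o := by simpa using hx.symm
    exact this ▸ (h.2.1 y hy).symm
  · rw [lab_lc3 hoa hab]
    intro x hx y hy
    have : y = o := by simpa using hy.symm
    exact this ▸ h.2.2 x hx

theorem powA {g : W L C2} (h : CA o g) (j : ℕ) :
    CA o ((lc o * lc a * lc b) ^ (j : ℤ) * g * (lc o * lc a * lc b) ^ (-(j : ℤ))) ∧
      (lab g).Sublist
        (lab ((lc o * lc a * lc b) ^ (j : ℤ) * g * (lc o * lc a * lc b) ^ (-(j : ℤ)))) := by
  induction j with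
  | zero => simpa using h
  | succ j ih =>
    have e : (lc o * lc a * lc b) ^ ((j + 1 : ℕ) : ℤ) * g *
        (lc o * lc a * lc b) ^ (-((j + 1 : ℕ) : ℤ)) = (lc o * lc a * lc b) *
        ((lc o * lc a * lc b) ^ (j : ℤ) * g * (lc o * lc a * lc b) ^ (-(j : ℤ))) *
        (lc o * lc a * lc b)⁻¹ := by
      generalize (lc o * lc a * lc b : W L C2) = δ
      push_cast
      group
    rw [e]
    have := conjA hoa hob hab ih.1
    refine ⟨⟨by rw [this]; simp,
      by rw [this, List.getLast?_append_of_ne_nil _ (by simp)]; simp⟩, ?_⟩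
    rw [this]
    exact ih.2.trans ((List.sublist_append_right _ _).trans (List.sublist_append_left _ _))

theorem powB {g : W L C2} (h : CB o g) (j : ℕ) :
    CB o ((lc o * lc a * lc b) ^ (-(j : ℤ)) * g * (lc o * lc a * lc b) ^ (j : ℤ)) ∧
      (lab g).Sublist
        (lab ((lc o * lc a * lc b) ^ (-(j : ℤ)) * g * (lc o * lc a * lc b) ^ (j : ℤ))) := by
  induction j with
  | zero => simpa using h
  | succ j ih =>
    have e : (lc o * lc a * lc b) ^ (-((j + 1 : ℕ) : ℤ)) * g *
        (lc o * lc a * lc b) ^ ((j + 1 : ℕ) : ℤ) = (lc o * lc a * lc b)⁻¹ *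
        ((lc o * lc a * lc b) ^ (-(j : ℤ)) * g * (lc o * lc a * lc b) ^ (j : ℤ)) *
        (lc o * lc a * lc b) := by
      generalize (lc o * lc a * lc b : W L C2) = δ
      push_cast
      group
    rw [e]
    have := conjB hoa hob hab ih.1
    refine ⟨⟨by rw [this]; simp, by rw [this]; simpa using hob.symm,
      by rw [this, List.getLast?_append_of_ne_nil _ (by simp)]; simpa using hob.symm⟩, ?_⟩
    rw [this]
    exact ih.2.trans ((List.sublist_append_right _ _).trans (List.sublist_append_left _ _))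

/-- Conjugation by a positive power, after peeling off `r` factors. -/
theorem subA {g g1 : W L C2} {i : ℤ} (r : ℕ) (hi : (r : ℤ) ≤ i) (h : CA o g1)
    (e : g1 = (lc o * lc a * lc b) ^ (r : ℤ) * g * (lc o * lc a * lc b) ^ (-(r : ℤ))) :
    (lab g1).Sublist (lab ((lc o * lc a * lc b) ^ i * g * (lc o * lc a * lc b) ^ (-i))) := by
  obtain ⟨j, rfl⟩ : ∃ j : ℕ, i = j + r := ⟨(i - r).toNat, by omega⟩
  have := (powA hoa hob hab h j).2
  have e2 : (lc o * lc a * lc b) ^ ((j : ℤ) + r) * g * (lc o * lc a * lc b) ^ (-((j : ℤ) + r)) =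
      (lc o * lc a * lc b) ^ (j : ℤ) * g1 * (lc o * lc a * lc b) ^ (-(j : ℤ)) := by
    rw [e]
    generalize (lc o * lc a * lc b : W L C2) = δ
    group
  rwa [e2]

/-- Conjugation by a negative power, after peeling off `r` factors. -/
theorem subB {g g1 : W L C2} {i : ℤ} (r : ℕ) (hi : i ≤ -(r : ℤ)) (h : CB o g1)
    (e : g1 = (lc o * lc a * lc b) ^ (-(r : ℤ)) * g * (lc o * lc a * lc b) ^ (r : ℤ)) :
    (lab g1).Sublist (lab ((lc o * lc a * lc b) ^ i * g * (lc o * lc a * lc b) ^ (-i))) := by
  obtain ⟨j, rfl⟩ : ∃ j : ℕ, i = -((j : ℤ) + r) := ⟨(-i - r).toNat, by omega⟩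
  have := (powB hoa hob hab h j).2
  have e2 : (lc o * lc a * lc b) ^ (-((j : ℤ) + r)) * g *
      (lc o * lc a * lc b) ^ (-(-((j : ℤ) + r))) =
      (lc o * lc a * lc b) ^ (-(j : ℤ)) * g1 * (lc o * lc a * lc b) ^ (j : ℤ) := by
    rw [e]
    generalize (lc o * lc a * lc b : W L C2) = δ
    group
  rwa [e2]

omit hab in
theorem cb_of_sup {h : W L C2} (hh : Sup {a, b} h) (h1 : h ≠ 1) : CB o h := by
  have q : ∀ x ∈ lab h, x ≠ o := by
    intro x hx
    rcases hh x hx with rfl | rfl
    · exact hoa.symm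
    · exact hob.symm
  exact ⟨fun h0 => h1 (lab_eq_nil.1 h0), fun x hx => q x (List.mem_of_mem_head? hx),
    fun x hx => q x (List.mem_of_mem_getLast? hx)⟩

omit hoa hob hab in
theorem lab_oho {h : W L C2} (hh : CB o h) : lab (lc o * h * lc o) = o :: (lab h ++ [o]) := by
  rw [lab_sand hh.1, lab_lc]
  · simp
  · rw [lab_lc]
    intro x hx y hy
    have : x = o := by simpa using hx.symm
    exact this ▸ (hh.2.1 y hy).symm
  · rw [lab_lc]
    intro x hx y hy
    have : y = o := by simpa using hy.symm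
    exact this ▸ hh.2.2 x hx

omit hoa hob hab in
theorem ca_oho {h : W L C2} (hh : CB o h) : CA o (lc o * h * lc o) := by
  unfold CA
  rw [lab_oho hh]
  refine ⟨by simp, ?_⟩
  rw [← List.cons_append, List.getLast?_concat]

theorem F1a {h : W L C2} (hh : Sup {a, b} h) (h1 : h ≠ 1) {i : ℤ} (hi : i ≠ 0) :
    ∃ h', Sup {a, b} h' ∧ h' ≠ 1 ∧ (∀ x, expo x h' = expo x h) ∧ (o :: (lab h' ++ [o])).Sublist
      (lab ((lc o * lc a * lc b) ^ i * h * (lc o * lc a * lc b) ^ (-i))) := by
  have qa : Sup {a, b} (lc a) := sup_lc (by simp)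
  have qb : Sup {a, b} (lc b) := sup_lc (by simp)
  rcases lt_or_gt_of_ne hi with hi | hi
  · refine ⟨h, hh, h1, fun _ => rfl, ?_⟩
    have hc := cb_of_sup hoa hob hh h1
    have e := conjB hoa hob hab hc
    have hc' := (powB hoa hob hab hc 1).1
    refine List.Sublist.trans ?_ (subB hoa hob hab 1 (by omega) hc' rfl)
    simp only [Nat.cast_one, zpow_neg, zpow_one]
    rw [e]
    simp only [List.cons_append, List.nil_append, List.append_assoc]
    exact (((List.Sublist.append_left (by simp) _).cons_cons o).cons a).cons b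
  · have hs : Sup {a, b} (lc a * lc b * h * (lc a * lc b)⁻¹) :=
      sup_mul (sup_mul (sup_mul qa qb) hh) (sup_inv (sup_mul qa qb))
    have hn : lc a * lc b * h * (lc a * lc b)⁻¹ ≠ 1 := fun h0 => h1 (by
      have := congrArg (fun g => (lc a * lc b)⁻¹ * g * (lc a * lc b)) h0
      simpa [mul_assoc] using this)
    refine ⟨_, hs, hn, fun x => by
      rw [map_mul, map_mul, map_inv, mul_inv_cancel_comm], ?_⟩
    have hc := cb_of_sup hoa hob hs hn
    rw [← lab_oho hc]
    exact subA hoa hob hab 1 (by omega) (ca_oho hc) (by simp [mul_assoc])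

theorem F1b {h : W L C2} (hh : Sup {a, b} h) (h1 : h ≠ 1) {i : ℤ} (hi : i ≠ 0) (hi' : i ≠ 1) :
    ∃ x y, x ≠ o ∧ y ≠ o ∧ [x, o, y].Sublist
      (lab ((lc o * lc a * lc b) ^ i * h * (lc o * lc a * lc b) ^ (-i))) := by
  rcases lt_or_gt_of_ne hi with hi | hi
  · have hc := cb_of_sup hoa hob hh h1
    have e := conjB hoa hob hab hc
    have hc' := (powB hoa hob hab hc 1).1
    refine ⟨b, b, hob.symm, hob.symm,
      List.Sublist.trans ?_ (subB hoa hob hab 1 (by omega) hc' rfl)⟩
    simp only [Nat.cast_one, zpow_neg, zpow_one]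
    rw [e]
    simp only [List.cons_append, List.nil_append, List.append_assoc]
    exact ((((List.Sublist.trans (by simp) (List.sublist_append_right _ _)).cons_cons o).cons
      a).cons_cons b)
  · have qa : Sup {a, b} (lc a) := sup_lc (by simp)
    have qb : Sup {a, b} (lc b) := sup_lc (by simp)
    have hs : Sup {a, b} (lc a * lc b * h * (lc a * lc b)⁻¹) :=
      sup_mul (sup_mul (sup_mul qa qb) hh) (sup_inv (sup_mul qa qb))
    have hn : lc a * lc b * h * (lc a * lc b)⁻¹ ≠ 1 := fun h0 => h1 (by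
      have := congrArg (fun g => (lc a * lc b)⁻¹ * g * (lc a * lc b)) h0
      simpa [mul_assoc] using this)
    have hc := ca_oho (cb_of_sup hoa hob hs hn)
    have e := conjA hoa hob hab hc
    have hc' := (powA hoa hob hab hc 1).1
    refine ⟨a, a, hoa.symm, hoa.symm, List.Sublist.trans ?_ (subA hoa hob hab 2 (by omega) hc'
      (by simp [mul_assoc, zpow_ofNat, pow_two]))⟩
    simp only [Nat.cast_one, zpow_neg, zpow_one]
    rw [e, lab_oho (cb_of_sup hoa hob hs hn)]
    simp only [List.cons_append, List.nil_append, List.append_assoc]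
    exact ((((List.Sublist.trans (by simp) (List.sublist_append_right _ _)).cons_cons o).cons
      b).cons_cons a).cons o

theorem F2a {i : ℤ} (hi : i ≠ 0) : [a, a].Sublist
      (lab ((lc o * lc a * lc b) ^ i * lc o * (lc o * lc a * lc b) ^ (-i))) := by
  rcases lt_or_gt_of_ne hi with hi | hi
  · have e : lab (lc b * lc a * lc o * (lc a * lc b)) = [b, a, o, a, b] := by
      rw [lab_mul_W] <;> simp [lab_lc3 hab.symm hoa.symm, lab_lc2 hab, hoa]
    have hc : CB o (lc b * lc a * lc o * (lc a * lc b)) := by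
      unfold CB; rw [e]; simpa using hob.symm
    refine List.Sublist.trans ?_ (subB hoa hob hab 1 (by omega) hc (by simp [mul_assoc]))
    rw [e]
    exact (((List.Sublist.cons_cons a (by simp)).cons o).cons_cons a).cons b
  · have hc : CA o (lc o) := by unfold CA; simp [lab_lc]
    have e := conjA hoa hob hab hc
    have hc' := (powA hoa hob hab hc 1).1
    refine List.Sublist.trans ?_ (subA hoa hob hab 1 (by omega) hc' rfl)
    simp only [Nat.cast_one, zpow_neg, zpow_one]
    rw [e, lab_lc]
    exact (((((List.Sublist.cons_cons a (by simp)).cons b).cons o).cons b).cons_cons a).cons o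

theorem F2b {i : ℤ} (hi : i ≠ 0) (hi' : i ≠ -1) : [o, a, o].Sublist
      (lab ((lc o * lc a * lc b) ^ i * lc o * (lc o * lc a * lc b) ^ (-i))) := by
  rcases lt_or_gt_of_ne hi with hi | hi
  · have e : lab (lc b * lc a * lc o * (lc a * lc b)) = [b, a, o, a, b] := by
      rw [lab_mul_W] <;> simp [lab_lc3 hab.symm hoa.symm, lab_lc2 hab, hoa]
    have hc : CB o (lc b * lc a * lc o * (lc a * lc b)) := by
      unfold CB; rw [e]; simpa using hob.symm
    have e' := conjB hoa hob hab hc
    have hc' := (powB hoa hob hab hc 1).1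
    refine List.Sublist.trans ?_ (subB hoa hob hab 2 (by omega) hc'
      (by simp [mul_assoc, zpow_ofNat, pow_two]))
    simp only [Nat.cast_one, zpow_neg, zpow_one]
    rw [e', e]
    exact ((((((List.Sublist.cons_cons o (by simp)).cons_cons a).cons b).cons_cons o).cons
      a).cons b)
  · have hc : CA o (lc o) := by unfold CA; simp [lab_lc]
    have e := conjA hoa hob hab hc
    have hc' := (powA hoa hob hab hc 1).1
    refine List.Sublist.trans ?_ (subA hoa hob hab 1 (by omega) hc' rfl)
    simp only [Nat.cast_one, zpow_neg, zpow_one]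
    rw [e, lab_lc]
    exact (((List.Sublist.cons_cons o (by simp)).cons b).cons_cons a).cons_cons o

theorem F3 {h : W L C2} (hh : Sup {a, b} h) (h1 : h ≠ lc a * lc b) {i : ℤ} (hi : i ≠ 0) :
    ¬ (lab ((lc o * lc a * lc b) ^ i * (lc o * h) * (lc o * lc a * lc b) ^ (-i))).Nodup := by
  have qa : Sup {a, b} (lc a) := sup_lc (by simp)
  have qb : Sup {a, b} (lc b) := sup_lc (by simp)
  intro hN
  rcases lt_or_gt_of_ne hi with hi | hi
  · have hs : Sup {a, b} (lc b * lc a * h) := sup_mul (sup_mul qb qa) hh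
    have hn : lc b * lc a * h ≠ 1 := fun h0 => h1 (by
      have := congrArg (fun g => lc a * lc b * g) h0
      simpa [mul_assoc] using this)
    have hc := cb_of_sup hoa hob hs hn
    have e : lab (lc b * lc a * h * (lc o * lc a * lc b)) = lab (lc b * lc a * h) ++ [o, a, b] := by
      rw [lab_mul_W, lab_lc3 hoa hab]
      rw [lab_lc3 hoa hab]
      intro x hx y hy
      have : y = o := by simpa using hy.symm
      exact this ▸ hc.2.2 x hx
    have hc' : CB o (lc b * lc a * h * (lc o * lc a * lc b)) := by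
      unfold CB
      rw [e]
      refine ⟨by simp, ?_, by simpa using hob.symm⟩
      rw [List.head?_append_of_ne_nil _ hc.1]
      exact hc.2.1
    have := (subB hoa hob hab (g := lc o * h) 1 (by omega) hc' (by simp [mul_assoc])).nodup hN
    rw [e, List.nodup_append] at this
    obtain ⟨x, hx⟩ := List.exists_mem_of_ne_nil _ hc.1
    rcases hs x hx with rfl | rfl
    · exact this.2.2 x hx x (by simp) rfl
    · exact this.2.2 x hx x (by simp) rfl
  · have hs : Sup {a, b} (h * (lc b * lc a)) := sup_mul hh (sup_mul qb qa)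
    have hn : h * (lc b * lc a) ≠ 1 := fun h0 => h1 (by
      have := congrArg (fun g => g * (lc a * lc b)) h0
      simpa [mul_assoc] using this)
    have hc := cb_of_sup hoa hob hs hn
    have hA := ca_oho hc
    have e : lab (lc o * lc a * lc b * (lc o * (h * (lc b * lc a)) * lc o)) =
        [o, a, b] ++ lab (lc o * (h * (lc b * lc a)) * lc o) := by
      rw [lab_mul_W, lab_lc3 hoa hab]
      rw [lab_lc3 hoa hab, hA.1]
      simpa using hob.symm
    have hc' : CA o (lc o * lc a * lc b * (lc o * (h * (lc b * lc a)) * lc o)) := by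
      unfold CA
      rw [e]
      refine ⟨by simp, ?_⟩
      rw [List.getLast?_append_of_ne_nil _ (by rw [lab_oho hc]; simp)]
      exact hA.2
    have := (subA hoa hob hab (g := lc o * h) 1 (by omega) hc' (by simp [mul_assoc])).nodup hN
    rw [e, lab_oho hc] at this
    simp at this

end three

end Pool.Agent.E5f.Wall
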