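import Pool.Agent.E5f.LsTouchD

/-!
Patterns in the images under at least two passes.
-/

set_option autoImplicit false
set_option linter.unusedSimpArgs false
set_option linter.unusedSectionVars false

namespace Pool.Agent.E5f.Wall

open Classical

variable {L : Type}

theorem expo_cjH (w : L → W L C2) (x : L) (g : W L C2) : expo x (cjH w g) = expo x g := by
  refine ext_lc (S := Set.univ) (f := (expo x).comp (cjH w)) (f' := expo x) (fun l _ => ?_)
    (fun _ _ => trivial)
  rw [MonoidHom.comp_apply, cjH_lc, map_mul, map_mul, map_inv, mul_inv_cancel_comm]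

theorem expo_TT (o a b : L) (n : ℕ) (σ : Bool) (x : L) (g : W L C2) :
    expo x (TT o a b n σ g) = expo x g := by
  induction n generalizing σ g with
  | zero => rfl
  | succ n ih => exact (ih (!σ) _).trans (expo_cjH _ x g)

theorem expo_conj (x : L) (d g : W L C2) (i : ℤ) : expo x (d ^ i * g * d ^ (-i)) = expo x g := by
  rw [zpow_neg, map_mul, map_mul, map_inv, mul_inv_cancel_comm]

theorem expo_lc (x y : L) : expo x (lc y) = if y = x then c2 else 1 := expo_lt x y c2

theorem eq_lc {x : L} {h : W L C2} (h1 : h ≠ 1) (hh : ∀ y ∈ lab h, y = x) : h = lc x := by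
  have := eq_lt_of_sup hh
  rcases c2_cases (expo x h) with e | e
  · rw [e, lt_one] at this; exact absurd this h1
  · rw [e] at this; exact this

section three
variable {o a b : L} (hoa : o ≠ a) (hob : o ≠ b) (hab : a ≠ b) {n : ℕ} (hn : 2 ≤ n) (σ : Bool)
include hoa hob hab hn

theorem stc2 : ∃ i i' : ℤ, Stc o a b (TT o a b n σ) i i' ∧ i ≠ 0 ∧ i' ≠ 0 ∧
    ((Even n ∧ i' = i) ∨ (¬ Even n ∧ i' = i + 1)) := by
  obtain ⟨-, j, ⟨rfl, h⟩ | ⟨rfl, h⟩⟩ := TT_stc hoa hob hab n σ
  · refine ⟨_, _, h, ?_, ?_, Or.inl ⟨by simp, rfl⟩⟩ <;> split_ifs <;> omega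
  · refine ⟨_, _, h, ?_, ?_, Or.inr ⟨by simp, ?_⟩⟩ <;> split_ifs <;> omega

omit hn in
theorem TT_ne {h : W L C2} (hh : Sup {o, a, b} h) (h1 : h ≠ 1) : TT o a b n σ h ≠ 1 := by
  intro h0
  have := TT_inv hoa hob hab n σ hh
  rw [h0, map_one] at this
  exact h1 this.symm

omit hoa hob hab hn in
theorem sup3 {h : W L C2} (hh : Sup {a, b} h) : Sup {o, a, b} h :=
  fun x hx => Or.inr (hh x hx)

omit hn in
theorem stc_ex {i i' : ℤ} (H : Stc o a b (TT o a b n σ) i i') {h : W L C2} (hh : Sup {a, b} h)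
    (h1 : h ≠ 1) : ∃ g, Sup {a, b} g ∧ g ≠ 1 ∧ (∀ x, expo x g = expo x h) ∧
      TT o a b n σ h = (lc o * lc a * lc b) ^ i' * g * (lc o * lc a * lc b) ^ (-i') := by
  obtain ⟨g, hg, e⟩ := H.2 h hh
  refine ⟨g, hg, ?_, fun x => ?_, e⟩
  · rintro rfl
    exact TT_ne hoa hob hab σ (sup3 hh) h1 (by rw [e]; group)
  · rw [← expo_TT o a b n σ x h, e, expo_conj]

theorem A1 {h : W L C2} (hh : Sup {a, b} h) (h1 : h ≠ 1) : ∃ g, Sup {a, b} g ∧ g ≠ 1 ∧
    (∀ x, expo x g = expo x h) ∧ (o :: (lab g ++ [o])).Sublist (lab (TT o a b n σ h)) := by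
  obtain ⟨i, i', H, -, hi', -⟩ := stc2 hoa hob hab hn σ
  obtain ⟨g, hg, g1, ge, e⟩ := stc_ex hoa hob hab σ H hh h1
  obtain ⟨g', hg', g1', ge', e'⟩ := F1a hoa hob hab hg g1 hi'
  exact ⟨g', hg', g1', fun x => (ge' x).trans (ge x), e ▸ e'⟩

theorem A2 : [a, a].Sublist (lab (TT o a b n σ (lc o))) := by
  obtain ⟨i, i', H, hi, -, -⟩ := stc2 hoa hob hab hn σ
  rw [H.1]
  exact F2a hoa hob hab hi

theorem A3 (ho : ¬ Even n) : [o, a, o].Sublist (lab (TT o a b n σ (lc o))) := by
  obtain ⟨i, i', H, hi, hi', h | h⟩ := stc2 hoa hob hab hn σ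
  · exact absurd h.1 ho
  rw [H.1]
  exact F2b hoa hob hab hi (by omega)

theorem A4 (ho : ¬ Even n) {h : W L C2} (hh : Sup {a, b} h) (h1 : h ≠ 1) :
    ∃ x y, x ≠ o ∧ y ≠ o ∧ [x, o, y].Sublist (lab (TT o a b n σ h)) := by
  obtain ⟨i, i', H, hi, hi', h | h⟩ := stc2 hoa hob hab hn σ
  · exact absurd h.1 ho
  obtain ⟨g, hg, g1, -, e⟩ := stc_ex hoa hob hab σ H hh h1
  rw [e]
  exact F1b hoa hob hab hg g1 hi' (by omega)

theorem A5 {x : L} (hx : x = a ∨ x = b) : ¬ (lab (TT o a b n σ (lc o * lc x))).Nodup := by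
  obtain ⟨i, i', H, hi, hi', hp⟩ := stc2 hoa hob hab hn σ
  have qa : Sup {a, b} (lc a) := sup_lc (by simp)
  have qb : Sup {a, b} (lc b) := sup_lc (by simp)
  have x1 : lc x ≠ 1 := fun h0 => by have := lab_lc x; rw [h0] at this; simp at this
  obtain ⟨g, hg, -, ge, e⟩ := stc_ex hoa hob hab σ H (h := lc x) (sup_lc hx) x1
  have ne : ∀ g' : W L C2, (∀ y, expo y g' = expo y (lc x)) → g' ≠ lc a * lc b := by
    rintro g' h rfl
    rcases hx with rfl | rfl
    · have := h b
      simp [expo_lc, hab, c2_ne] at this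
    · have := h a
      simp [expo_lc, hab.symm, c2_ne] at this
  rw [map_mul, H.1, e]
  rcases hp with ⟨-, rfl⟩ | ⟨-, rfl⟩
  · have := F3 hoa hob hab hg (ne g ge) hi
    intro hN
    refine this ?_
    convert hN using 2
    generalize (lc o * lc a * lc b : W L C2) = d
    group
  · have hs : Sup {a, b} (lc a * lc b * g * (lc a * lc b)⁻¹)⁻¹ :=
      sup_inv (sup_mul (sup_mul (sup_mul qa qb) hg) (sup_inv (sup_mul qa qb)))
    have := F3 hoa hob hab hs (ne _ (fun y => by
      rw [map_inv, map_mul, map_mul, map_inv, mul_inv_cancel_comm, ge y, ← map_inv, lc_inv])) hi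
    intro hN
    refine this ?_
    rw [← List.nodup_reverse, ← lab_inv]
    have e1 : (lc o * lc a * lc b) ^ i * lc o * (lc o * lc a * lc b) ^ (-i) *
        ((lc o * lc a * lc b) ^ (i + 1) * g * (lc o * lc a * lc b) ^ (-(i + 1))) =
        (lc o * lc a * lc b) ^ i * (lc o * (lc o * lc a * lc b) * g * (lc o * lc a * lc b)⁻¹) *
          (lc o * lc a * lc b) ^ (-i) := by
      generalize (lc o * lc a * lc b : W L C2) = d
      group
    have e2 : lc o * (lc o * lc a * lc b) * g * (lc o * lc a * lc b)⁻¹ =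
        (lc o * (lc a * lc b * g * (lc a * lc b)⁻¹)⁻¹)⁻¹ := by simp [mul_assoc]
    rw [e1, e2] at hN
    convert hN using 2
    generalize (lc o * lc a * lc b : W L C2) = d
    group

/-- A word without repetition that misses a label is mapped to a word with a repetition. -/
theorem MX {h : W L C2} (hh : Sup {o, a, b} h) (h1 : h ≠ 1) (hN : (lab h).Nodup) {y : L}
    (hy : y = o ∨ y = a ∨ y = b) (hy' : y ∉ lab h) : ¬ (lab (TT o a b n σ h)).Nodup := by
  by_cases ho : o ∈ lab h
  · obtain ⟨x, hx, hs⟩ : ∃ x, (x = a ∨ x = b) ∧ ∀ z ∈ lab h, z = o ∨ z = x := by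
      rcases hy with rfl | rfl | rfl
      · exact absurd ho hy'
      · refine ⟨b, Or.inr rfl, fun z hz => ?_⟩
        rcases hh z hz with e | e | e
        · exact Or.inl e
        · exact absurd (e ▸ hz) hy'
        · exact Or.inr e
      · refine ⟨a, Or.inl rfl, fun z hz => ?_⟩
        rcases hh z hz with e | e | e
        · exact Or.inl e
        · exact Or.inr e
        · exact absurd (e ▸ hz) hy'
    have e := eq_prod_lc h
    have k : lab h = [o] ∨ lab h = [o, x] ∨ lab h = [x, o] := by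
      generalize lab h = s at *
      rcases s with _ | ⟨p, _ | ⟨q, _ | ⟨r, t⟩⟩⟩
      · simp at ho
      · left; simpa using (List.mem_singleton.1 ho).symm
      · have h1 := hs p (by simp)
        have h2 := hs q (by simp)
        have h3 : p ≠ q := by simpa using hN
        rcases h1 with rfl | rfl <;> rcases h2 with rfl | rfl <;> simp at h3 ⊢
      · have h1 := hs p (by simp)
        have h2 := hs q (by simp)
        have h3 := hs r (by simp)
        simp only [List.nodup_cons, List.mem_cons, not_or] at hN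
        rcases h1 with rfl | rfl <;> rcases h2 with rfl | rfl <;> rcases h3 with rfl | rfl <;>
          simp at hN
    rcases k with k | k | k <;> rw [k] at e <;> simp only [List.map_cons, List.map_nil,
      List.prod_cons, List.prod_nil, mul_one] at e
    · rw [e]
      intro h2
      simpa using (A2 hoa hob hab hn σ).nodup h2
    · rw [e]
      exact A5 hoa hob hab hn σ hx
    · have e' : h = (lc o * lc x)⁻¹ := by simp [e]
      rw [e', map_inv, lab_inv, List.nodup_reverse]
      exact A5 hoa hob hab hn σ hx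
  · have hs : Sup {a, b} h := fun z hz => (hh z hz).resolve_left (fun e => ho (e ▸ hz))
    obtain ⟨g, -, -, -, e⟩ := A1 hoa hob hab hn σ hs h1
    intro h2
    simpa using e.nodup h2

/-- The pattern for the even case. -/
theorem EV {u : L → ℝ} (uo : u o = 0) (hu : u a = 1 ∨ u a = 0) (ub : u b = 1) {h : W L C2}
    (hh : Sup {o, a, b} h) (h1 : h ≠ 1) (h2 : ∀ x ∈ lab h, u x = 1) :
    ∃ x y z, [x, y, z].Sublist (lab (TT o a b n σ h)) ∧ u x = 0 ∧ u y = 1 ∧ u z = 0 := by
  have hs : Sup {a, b} h := fun z hz => (hh z hz).resolve_left (fun e => by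
    have := h2 z hz
    rw [e, uo] at this
    exact zero_ne_one this)
  obtain ⟨g, hg, g1, ge, e⟩ := A1 hoa hob hab hn σ hs h1
  obtain ⟨y, hy, uy⟩ : ∃ y ∈ lab g, u y = 1 := by
    rcases hu with hu | hu
    · obtain ⟨y, hy⟩ := List.exists_mem_of_ne_nil _ (fun h0 => g1 (lab_eq_nil.1 h0))
      refine ⟨y, hy, ?_⟩
      rcases hg y hy with rfl | rfl
      · exact hu
      · exact ub
    · refine ⟨b, ?_, ub⟩
      have hb : h = lc b := eq_lc h1 (fun z hz => (hs z hz).resolve_left (fun e => by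
        have := h2 z hz
        rw [e, hu] at this
        exact zero_ne_one this))
      by_contra h3
      have := expo_of_not_mem h3
      rw [ge, hb, expo_lc, if_pos rfl] at this
      exact c2_ne this
  exact ⟨o, y, o, (((List.singleton_sublist.2 hy).append_right [o]).cons_cons o).trans e,
    uo, uy, uo⟩

end three

section J
variable {u : L → ℝ} (hu : ∀ a, u a = 0 ∨ u a = 1) {s : List L}
include hu

theorem ends01 (hs : s ≠ []) : (0 ≤ hdv u s ∧ hdv u s ≤ 1) ∧ (0 ≤ lsv u s ∧ lsv u s ≤ 1) := by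
  obtain ⟨a, -, ha⟩ := hdv_mem u hs
  obtain ⟨b, -, hb⟩ := lsv_mem u hs
  rw [ha, hb]
  rcases hu a with h | h <;> rcases hu b with h' | h' <;> simp [h, h']

omit hu in
theorem J1 {x : L} (hx : x ∈ s) (ux : u x = 1) : 2 ≤ hdv u s + Var (s.map u) + lsv u s := by
  have := var_ge_one u hx
  rw [ux] at this
  linarith [le_abs_self (1 - hdv u s), neg_abs_le (lsv u s - 1)]

omit hu in
theorem J0 {x : L} (hx : x ∈ s) (ux : u x = 0) : 0 ≤ -hdv u s + Var (s.map u) - lsv u s := by
  have := var_ge_one u hx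
  rw [ux] at this
  linarith [neg_abs_le (0 - hdv u s), le_abs_self (lsv u s - 0)]

omit hu in
theorem J101 {x y z : L} (h : [x, y, z].Sublist s) (ux : u x = 1) (uy : u y = 0) (uz : u z = 1) :
    4 ≤ hdv u s + Var (s.map u) + lsv u s := by
  have := var_sub_ends u (fun h0 => by simp [h0] at h) h
  simp only [List.map_cons, List.map_nil, ux, uy, uz, List.cons_append, List.nil_append,
    Var] at this
  norm_num at this
  linarith [le_abs_self (1 - hdv u s), neg_abs_le (lsv u s - 1)]

omit hu in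
theorem J010 {x y z : L} (h : [x, y, z].Sublist s) (ux : u x = 0) (uy : u y = 1) (uz : u z = 0) :
    2 ≤ -hdv u s + Var (s.map u) - lsv u s := by
  have := var_sub_ends u (fun h0 => by simp [h0] at h) h
  simp only [List.map_cons, List.map_nil, ux, uy, uz, List.cons_append, List.nil_append,
    Var] at this
  norm_num at this
  linarith [le_abs_self (hdv u s), le_abs_self (lsv u s)]

end J

section good
variable {o a b : L} (hoa : o ≠ a) (hob : o ≠ b) (hab : a ≠ b) {n : ℕ} (hn : 2 ≤ n) (σ : Bool)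
  {u : L → ℝ} (hu : ∀ a, u a = 0 ∨ u a = 1) (uo : u o = 0) (ua : u a = 1) (ub : u b = 1)
  {h : W L C2} (hh : Sup {o, a, b} h) (h1 : h ≠ 1)
include hoa hob hab hn hu uo ua ub hh h1

theorem good_even : 2 ≤ hdv u (lab h) + Var ((lab h).map u) + lsv u (lab h) +
    (hdv u (lab (TT o a b n σ h)) + Var ((lab (TT o a b n σ h)).map u) +
      lsv u (lab (TT o a b n σ h))) := by
  have r := ends01 hu (s := lab h) (fun h0 => h1 (lab_eq_nil.1 h0))
  have r' := ends01 hu (s := lab (TT o a b n σ h))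
    (fun h0 => TT_ne hoa hob hab σ hh h1 (lab_eq_nil.1 h0))
  have v := var_nonneg_W ((lab h).map u)
  have v' := var_nonneg_W ((lab (TT o a b n σ h)).map u)
  by_cases hc : ∀ x ∈ lab h, x = o
  · have := J1 (u := u) ((A2 hoa hob hab hn σ).subset (List.mem_cons_self)) ua
    rw [← eq_lc h1 hc] at this
    linarith [r.1.1, r.2.1]
  · push Not at hc
    obtain ⟨x, hx, hxo⟩ := hc
    have := J1 (u := u) hx (by
      rcases hh x hx with e | e | e
      · exact absurd e hxo
      · rw [e, ua]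
      · rw [e, ub])
    linarith [r'.1.1, r'.2.1]

theorem good_odd (ho : ¬ Even n) : 2 ≤ hdv u (lab h) + Var ((lab h).map u) + lsv u (lab h) +
    (-hdv u (lab (TT o a b n σ h)) + Var ((lab (TT o a b n σ h)).map u) -
      lsv u (lab (TT o a b n σ h))) := by
  have r := ends01 hu (s := lab h) (fun h0 => h1 (lab_eq_nil.1 h0))
  have h1' := TT_ne hoa hob hab (n := n) σ hh h1
  have r' := ends01 hu (s := lab (TT o a b n σ h)) (fun h0 => h1' (lab_eq_nil.1 h0))
  have v := var_nonneg_W ((lab h).map u)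
  have v' := var_nonneg_W ((lab (TT o a b n σ h)).map u)
  have u1 : ∀ x ∈ lab h, x ≠ o → u x = 1 := fun x hx hxo => by
    rcases hh x hx with e | e | e
    · exact absurd e hxo
    · rw [e, ua]
    · rw [e, ub]
  by_cases hc : ∀ x ∈ lab h, x = o
  · have := J010 (u := u) (A3 hoa hob hab hn σ ho) uo ua uo
    rw [← eq_lc h1 hc] at this
    linarith [r.1.1, r.2.1]
  · push Not at hc
    obtain ⟨x, hx, hxo⟩ := hc
    have q := J1 (u := u) hx (u1 x hx hxo)
    by_cases hd : o ∈ lab (TT o a b n σ h)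
    · linarith [J0 (u := u) hd uo]
    · have hs : Sup {a, b} (TT o a b n σ h) := fun z hz =>
        (sup_TT hoa hob hab n σ hh z hz).resolve_left (fun e => hd (e ▸ hz))
      obtain ⟨y, z, hy, hz, e⟩ := A4 hoa hob hab hn (if Even n then !σ else σ) ho hs h1'
      rw [TT_inv hoa hob hab n σ hh] at e
      have := J101 (u := u) e (u1 y (e.subset (by simp)) hy) uo (u1 z (e.subset (by simp)) hz)
      linarith [r'.1.2, r'.2.2]

end good

end Pool.Agent.E5f.Wall
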