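import Pool.Agent.E5f.LsTouchB
import Pool.Agent.E5f.LsBasic

/-!
Sums over syllables with context, and counting of turns and mixed runs.
-/

set_option autoImplicit false
set_option linter.unusedSimpArgs false
set_option linter.unusedSectionVars false

namespace Pool.Agent.E5f.Wall

open Classical

section sums
variable {α K : Type} [LinearOrder K] (κ : α → K)

/-- The sign of a step. -/
noncomputable def sgx (x y : α) : ℝ := if κ x < κ y then 1 else -1

theorem sgx_cases (x y : α) : sgx κ x y = 1 ∨ sgx κ x y = -1 := by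
  unfold sgx; split_ifs <;> simp

theorem sumE_cons (F : ℝ → ℝ → α → ℝ) (e : ℝ) (x y : α) (D : List α) :
    sumE κ F e (x :: y :: D) = F e (-sgx κ x y) x + sumE κ F (sgx κ x y) (y :: D) := rfl

theorem sumE_one (F : ℝ → ℝ → α → ℝ) (e : ℝ) (x : α) : sumE κ F e [x] = F e 0 x := rfl

theorem sumE_tel (D : List α) (x : α) (e : ℝ) :
    sumE κ (fun e1 e2 _ => e1 + e2) e (x :: D) = e := by
  induction D generalizing x e with
  | nil => simp [sumE_one]
  | cons y D ih => rw [sumE_cons, ih]; ring

theorem sumE_lin (F F' F'' : ℝ → ℝ → α → ℝ) (s t : ℝ) (e : ℝ) (D : List α) :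
    sumE κ (fun e1 e2 x => F e1 e2 x - s * F' e1 e2 x - t * F'' e1 e2 x) e D =
      sumE κ F e D - s * sumE κ F' e D - t * sumE κ F'' e D := by
  induction D generalizing e with
  | nil => simp [sumE]
  | cons x D ih =>
    rcases D with _ | ⟨y, D⟩
    · simp [sumE]
    · rw [sumE_cons, sumE_cons, sumE_cons, sumE_cons, ih]; ring

theorem sumE_ctx_aux (F : ℝ → ℝ → α → ℝ) (c : ℝ) (D : List α) (x y : α)
    (hz : ∀ z ∈ y :: D, ∀ e : ℝ, (e = 1 ∨ e = -1) → -c ≤ F e 0 z)
    (hD : ∀ D1 x' y' z D2, x :: y :: D = D1 ++ x' :: y' :: z :: D2 →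
      0 ≤ F (sgx κ x' y') (-sgx κ y' z) y') : -c ≤ sumE κ F (sgx κ x y) (y :: D) := by
  induction D generalizing x y with
  | nil => exact hz y (by simp) _ (sgx_cases κ x y)
  | cons z D ih =>
    rw [sumE_cons]
    have h1 := ih y z (fun w hw => hz w (List.mem_cons_of_mem _ hw))
      (fun D1 x' y' z' D2 e => hD (x :: D1) x' y' z' D2 (by rw [e]; rfl))
    have h2 := hD [] x y z D rfl
    linarith

theorem sumE_ctx (F : ℝ → ℝ → α → ℝ) {c : ℝ} (hc : 0 ≤ c) (D : List α)
    (hz : ∀ z ∈ D, ∀ e : ℝ, (e = 1 ∨ e = -1 ∨ e = 0) → -c ≤ F e 0 z ∧ -c ≤ F 0 e z)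
    (hD : ∀ D1 x y z D2, D = D1 ++ x :: y :: z :: D2 → 0 ≤ F (sgx κ x y) (-sgx κ y z) y) :
    -(2 * c) ≤ sumE κ F 0 D := by
  rcases D with _ | ⟨x, _ | ⟨y, D⟩⟩
  · simp [sumE, hc]
  · have := (hz x (by simp) 0 (by simp)).1
    rw [sumE_one]; linarith
  · rw [sumE_cons]
    have h1 := sumE_ctx_aux κ F c D x y
      (fun z hz' e he => (hz z (List.mem_cons_of_mem _ hz') e (by tauto)).1) hD
    have h2 := (hz x (by simp) (-sgx κ x y) (by rcases sgx_cases κ x y with h | h <;> simp [h])).2
    linarith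

variable {L : Type}

theorem cnt_app {N : List L → ℕ} (h1 : ∀ a l, N (a :: l) ≤ 1 + N l) (s t : List L) :
    N (s ++ t) ≤ s.length + N t := by
  induction s with
  | nil => simp
  | cons a s ih =>
    have := h1 a (s ++ t)
    simp only [List.cons_append, List.length_cons]
    omega

theorem cnt_aux {N : List L → ℕ} (h1 : ∀ a l, N (a :: l) ≤ 1 + N l) (h0 : ∀ a, N [a] = 0)
    (f : α → List L) (Cl : ℝ → ℝ → α → Prop) (hC : ∀ e x, ¬ Cl e 0 x) (D : List α) (x y : α)
    (hne : ∀ z ∈ y :: D, f z ≠ [])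
    (h2 : ∀ D1 x' y' z D2, x :: y :: D = D1 ++ x' :: y' :: z :: D2 →
      Cl (sgx κ x' y') (-sgx κ y' z) y' → ∀ a ∈ f x', ∀ b ∈ f z, ∀ s l t, f y' = s ++ [l] →
      N (a :: (s ++ l :: b :: t)) ≤ N (l :: b :: t)) (a : L) (ha : a ∈ f x) :
    (N (a :: ((y :: D).map f).flatten) : ℝ) ≤
      sumE κ (fun e1 e2 z => if Cl e1 e2 z then 0 else ((f z).length : ℝ)) (sgx κ x y) (y :: D) := by
  induction D generalizing x y a with
  | nil =>
    obtain ⟨s, l, hs⟩ : ∃ s l, f y = s ++ [l] :=
      ⟨_, _, (List.dropLast_append_getLast (hne y (by simp))).symm⟩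
    rw [sumE_one, if_neg (hC _ _)]
    have := cnt_app h1 (a :: s) [l]
    rw [h0] at this
    simp only [List.map_cons, List.map_nil, List.flatten_cons, List.flatten_nil, List.append_nil,
      hs, List.length_append, List.length_singleton]
    exact_mod_cast this
  | cons z D ih =>
    obtain ⟨s, l, hs⟩ : ∃ s l, f y = s ++ [l] :=
      ⟨_, _, (List.dropLast_append_getLast (hne y (by simp))).symm⟩
    obtain ⟨b, t, ht⟩ := List.exists_cons_of_ne_nil (hne z (by simp))
    have h3 := ih y z (fun w hw => hne w (List.mem_cons_of_mem _ hw))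
      (fun D1 x' y' z' D2 e => h2 (x :: D1) x' y' z' D2 (by rw [e]; rfl)) l (by simp [hs])
    have e1 : ((z :: D).map f).flatten = b :: (t ++ (D.map f).flatten) := by simp [ht]
    have e2 : ((y :: z :: D).map f).flatten = s ++ l :: b :: (t ++ (D.map f).flatten) := by
      simp [hs, ht]
    rw [e1] at h3
    rw [sumE_cons, e2]
    split_ifs with hc
    · have := h2 [] x y z D rfl hc a ha b (by simp [ht]) s l (t ++ (D.map f).flatten) hs
      have : (N (a :: (s ++ l :: b :: (t ++ (D.map f).flatten))) : ℝ) ≤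
          N (l :: b :: (t ++ (D.map f).flatten)) := by exact_mod_cast this
      linarith
    · have := cnt_app h1 (a :: s) (l :: b :: (t ++ (D.map f).flatten))
      have : (N (a :: (s ++ l :: b :: (t ++ (D.map f).flatten))) : ℝ) ≤
          ((f y).length : ℝ) + N (l :: b :: (t ++ (D.map f).flatten)) := by
        rw [hs]
        simp only [List.length_append, List.length_singleton]
        exact_mod_cast this
      linarith

theorem cnt_le {N : List L → ℕ} (h1 : ∀ a l, N (a :: l) ≤ 1 + N l) (h0 : ∀ a, N [a] = 0)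
    (f : α → List L) (Cl : ℝ → ℝ → α → Prop) (hC : ∀ e x, ¬ Cl e 0 x) (hC' : ∀ e x, ¬ Cl 0 e x)
    (D : List α) (hD : D ≠ []) (hne : ∀ z ∈ D, f z ≠ [])
    (h2 : ∀ D1 x y z D2, D = D1 ++ x :: y :: z :: D2 →
      Cl (sgx κ x y) (-sgx κ y z) y → ∀ a ∈ f x, ∀ b ∈ f z, ∀ s l t, f y = s ++ [l] →
      N (a :: (s ++ l :: b :: t)) ≤ N (l :: b :: t)) :
    (N (D.map f).flatten : ℝ) ≤
      sumE κ (fun e1 e2 z => if Cl e1 e2 z then 0 else ((f z).length : ℝ)) 0 D := by
  obtain ⟨x, D, rfl⟩ := List.exists_cons_of_ne_nil hD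
  obtain ⟨s, l, hs⟩ : ∃ s l, f x = s ++ [l] :=
    ⟨_, _, (List.dropLast_append_getLast (hne x (by simp))).symm⟩
  have h4 := cnt_app h1 s (l :: (D.map f).flatten)
  have e : ((x :: D).map f).flatten = s ++ l :: (D.map f).flatten := by simp [hs]
  have h5 : (N ((x :: D).map f).flatten : ℝ) ≤ (f x).length + N (l :: (D.map f).flatten) := by
    rw [e, hs]
    simp only [List.length_append, List.length_singleton]
    exact_mod_cast (by omega)
  rcases D with _ | ⟨y, D⟩
  · rw [sumE_one, if_neg (hC _ _)]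
    simpa [h0] using h5
  · rw [sumE_cons, if_neg (hC' _ _)]
    have := cnt_aux κ h1 h0 f Cl hC D x y (fun w hw => hne w (List.mem_cons_of_mem _ hw)) h2 l
      (by simp [hs])
    linarith

theorem chain3 {R : α → α → Prop} {D D1 D2 : List α} {x y z : α} (h : D.IsChain R)
    (e : D = D1 ++ x :: y :: z :: D2) : R x y ∧ R y z := by
  rw [e] at h
  have := h.right_of_append
  exact ⟨(List.isChain_cons_cons.1 this).1, (List.isChain_cons_cons.1 this.tail).1⟩

end sums

section trn
variable {L κ : Type} [LinearOrder κ] {k : L → κ}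

theorem turns_cons (a : L) (l : List L) : turns k (a :: l) ≤ 1 + turns k l := by
  rcases l with _ | ⟨b, _ | ⟨c, l⟩⟩
  · simp [turns]
  · simp [turns]
  · rw [turns]; split_ifs <;> omega

theorem turns_mn {d : Prop} (A : List L) (l b : L) (t : List L)
    (h : (A ++ [l, b]).IsChain (fun x y => (k x < k y ↔ d))) :
    turns k (A ++ l :: b :: t) = turns k (l :: b :: t) := by
  induction A with
  | nil => rfl
  | cons a A ih =>
    rw [← ih h.tail]
    rcases A with _ | ⟨a1, _ | ⟨a2, A⟩⟩ <;>
      simp only [List.cons_append, List.nil_append, List.isChain_cons_cons] at h ⊢ <;>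
      rw [turns, if_pos (h.1.trans h.2.1.symm), zero_add]

theorem mono_mn {d : Bool} {s : List L} (h : Mono k d s) :
    s.IsChain (fun x y => (k x < k y ↔ d = true)) := by
  refine List.IsChain.imp (fun x y hxy => ?_) h
  cases d
  · simpa using le_of_lt hxy
  · simpa using hxy

theorem ex_turn (s : List L) (a l b : L) (t : List L)
    (h : ¬ (k a < k ((s ++ [l]).head (by simp)) ↔ k l < k b)) :
    ∃ x ∈ s ++ [l], TurnAt k (a :: (s ++ l :: b :: t)) x := by
  induction s generalizing a with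
  | nil => exact ⟨l, by simp, [], t, a, b, rfl, h⟩
  | cons x s ih =>
    by_cases h2 : k x < k ((s ++ [l]).head (by simp)) ↔ k l < k b
    · refine ⟨x, by simp, [], (s ++ l :: b :: t).tail, a, (s ++ [l]).head (by simp), ?_, ?_⟩
      · rcases s with _ | ⟨y, s⟩ <;> rfl
      · rw [h2]; exact h
    · obtain ⟨y, hy, A, B, a', c, e, h3⟩ := ih x h2
      exact ⟨y, List.mem_cons_of_mem _ hy, a :: A, B, a', c, by rw [List.cons_append, e]; rfl, h3⟩

end trn

section mix
variable {L B : Type} (bk : L → B) (P : List L → Prop)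

/-- After the first entry there is a complete run in one block with the property `P`. -/
def Qr (t : List L) : Prop := ∃ a r b rest β, t = a :: (r ++ b :: rest) ∧ r ≠ [] ∧
  (∀ z ∈ r, bk z = β) ∧ bk a ≠ β ∧ bk b ≠ β ∧ P r

/-- The number of complete runs with the property `P`. -/
noncomputable def cntM : List L → ℕ
  | [] => 0
  | a :: l => (if Qr bk P (a :: l) then 1 else 0) + cntM l

variable {bk P}

theorem cntM_cons (a : L) (l : List L) : cntM bk P (a :: l) ≤ 1 + cntM bk P l := by
  rw [cntM]; split_ifs <;> omega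

theorem cntM_one (a : L) : cntM bk P [a] = 0 := by
  rw [cntM, if_neg]
  · rfl
  · rintro ⟨a', r, b, rest, β, e, -⟩
    simp at e

theorem cntM_app (A l : List L) : cntM bk P l ≤ cntM bk P (A ++ l) := by
  induction A with
  | nil => exact le_rfl
  | cons a A ih => rw [List.cons_append, cntM]; omega

theorem cntM_app' (A1 : List L) (a : L) (A2 l : List L) (h : Qr bk P (a :: (A2 ++ l))) :
    1 + cntM bk P l ≤ cntM bk P (A1 ++ a :: (A2 ++ l)) := by
  refine le_trans ?_ (cntM_app A1 _)
  rw [cntM, if_pos h]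
  have := cntM_app (bk := bk) (P := P) A2 l
  omega

theorem run_unique {π : L → Prop} {r r' : List L} {b b' : L} {t t' : List L} (h : ∀ z ∈ r, π z)
    (h' : ∀ z ∈ r', π z) (hb : ¬ π b) (hb' : ¬ π b') (e : r ++ b :: t = r' ++ b' :: t') :
    r = r' := by
  induction r generalizing r' with
  | nil =>
    rcases r' with _ | ⟨x, r'⟩
    · rfl
    · simp only [List.nil_append, List.cons_append, List.cons.injEq] at e
      exact absurd (e.1 ▸ h' x (by simp)) hb
  | cons x r ih =>
    rcases r' with _ | ⟨y, r'⟩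
    · simp only [List.nil_append, List.cons_append, List.cons.injEq] at e
      exact absurd (e.1 ▸ h x (by simp)) hb'
    · simp only [List.cons_append, List.cons.injEq] at e
      rw [e.1, ih (fun z hz => h z (by simp [hz])) (fun z hz => h' z (by simp [hz])) e.2]

theorem cntM_run {β : B} (s : List L) (l : L) (t : List L) (h : ∀ z ∈ s ++ [l], bk z = β) :
    cntM bk P (s ++ l :: t) = cntM bk P (l :: t) := by
  induction s with
  | nil => rfl
  | cons x s ih =>
    rw [List.cons_append, cntM, if_neg, ih (fun z hz => h z (List.mem_cons_of_mem _ hz)), zero_add]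
    rintro ⟨a, r, b, rest, β', e, hr, h1, h2, -⟩
    obtain ⟨y, r, rfl⟩ := List.exists_cons_of_ne_nil hr
    simp only [List.cons_append, List.cons.injEq] at e
    have hy : y ∈ s ++ [l] := by
      rcases s with _ | ⟨w, s⟩ <;> simp only [List.nil_append, List.cons_append,
        List.cons.injEq] at e <;> simp [e.2.1]
    exact h2 (by rw [← e.1, h x (by simp), ← h1 y (by simp), h y (List.mem_cons_of_mem _ hy)])

theorem cntM_clean {β : B} (a : L) (s : List L) (l b : L) (t : List L)
    (h : ∀ z ∈ s ++ [l], bk z = β) (hb : bk b ≠ β) (hP : ¬ P (s ++ [l])) :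
    cntM bk P (a :: (s ++ l :: b :: t)) ≤ cntM bk P (l :: b :: t) := by
  rw [cntM, if_neg, cntM_run s l _ h, zero_add]
  rintro ⟨a', r, b', rest, β', e, hr, h1, -, h3, h4⟩
  simp only [List.cons.injEq] at e
  have e' : (s ++ [l]) ++ b :: t = r ++ b' :: rest := by simpa using e.2
  have hβ : β' = β := by
    obtain ⟨y, r, rfl⟩ := List.exists_cons_of_ne_nil hr
    have hy : y ∈ s ++ [l] := by
      rcases s with _ | ⟨w, s⟩ <;> simp only [List.nil_append, List.cons_append,
        List.cons.injEq] at e' <;> simp [e'.1]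
    rw [← h1 y (by simp), h y hy]
  subst hβ
  exact hP (run_unique (π := fun z => bk z = β') h h1 hb h3 e' ▸ h4)

theorem split_first (π : L → Prop) (A : List L) :
    (∀ z ∈ A, π z) ∨ ∃ r b t, A = r ++ b :: t ∧ ¬ π b ∧ ∀ z ∈ r, π z := by
  induction A with
  | nil => simp
  | cons a A ih =>
    by_cases ha : π a
    · rcases ih with h | ⟨r, b, t, rfl, h1, h2⟩
      · left; simpa using ⟨ha, h⟩
      · right; exact ⟨a :: r, b, t, rfl, h1, by simpa using ⟨ha, h2⟩⟩
    · exact Or.inr ⟨[], a, A, rfl, ha, by simp⟩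

theorem split_last (π : L → Prop) (A : List L) :
    (∀ z ∈ A, π z) ∨ ∃ t b r, A = t ++ b :: r ∧ ¬ π b ∧ ∀ z ∈ r, π z := by
  rcases split_first π A.reverse with h | ⟨r, b, t, e, h1, h2⟩
  · left; simpa using h
  · right
    refine ⟨t.reverse, b, r.reverse, ?_, h1, by simpa using h2⟩
    rw [← List.reverse_reverse A, e]; simp

/-- A piece whose ends lie outside the block of one of its entries contains a complete run. -/
theorem ex_run {q : List L} {x : L} (hx : x ∈ q) (h1 : ∀ z, q.head? = some z → bk z ≠ bk x)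
    (h2 : ∀ z, q.getLast? = some z → bk z ≠ bk x) : ∃ A a r b t, q = A ++ a :: (r ++ b :: t) ∧
      x ∈ r ∧ (∀ z ∈ r, bk z = bk x) ∧ bk a ≠ bk x ∧ bk b ≠ bk x := by
  obtain ⟨A, C, rfl⟩ := List.append_of_mem hx
  rcases split_last (fun z => bk z = bk x) A with h | ⟨A1, a, r1, rfl, ha, hr1⟩
  · rcases A with _ | ⟨z, A⟩
    · exact absurd rfl (h1 x rfl)
    · exact absurd (h z (by simp)) (h1 z rfl)
  rcases split_first (fun z => bk z = bk x) C with h | ⟨r2, b, t, rfl, hb, hr2⟩
  · rcases List.eq_nil_or_concat C with rfl | ⟨C, z, rfl⟩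
    · exact absurd rfl (h2 x List.getLast?_concat)
    · refine absurd (h z (by simp)) (h2 z ?_)
      rw [List.concat_eq_append, ← List.cons_append, ← List.append_assoc, List.getLast?_concat]
  refine ⟨A1, a, r1 ++ x :: r2, b, t, by simp, by simp, ?_, ha, hb⟩
  intro z hz
  rcases List.mem_append.1 hz with hz | hz
  · exact hr1 z hz
  · rcases List.mem_cons.1 hz with rfl | hz
    · rfl
    · exact hr2 z hz

theorem count_le_cntM {M : List L → Prop}
    (hM : ∀ q, M q → ∃ A a r b t β, q = A ++ a :: (r ++ b :: t) ∧ r ≠ [] ∧ (∀ z ∈ r, bk z = β) ∧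
      bk a ≠ β ∧ bk b ≠ β ∧ P r) {D : List (List L)} {p : List L} (h : Dec D p) :
    D.countP (fun q => decide (M q)) ≤ cntM bk P p := by
  refine dec_ind_LsBasic (P := fun D p => D.countP (fun q => decide (M q)) ≤ cntM bk P p)
    (fun q => ?_) (fun A x C D ih => ?_) h
  · rw [List.countP_cons]
    split_ifs with hq
    · obtain ⟨A, a, r, b, t, β, rfl, h⟩ := hM q (by simpa using hq)
      have := cntM_app' A a (r ++ b :: t) [] ⟨a, r, b, t, β, by simp, h⟩
      simpa [cntM] using this
    · simp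
  · rw [List.countP_cons]
    split_ifs with hq
    · obtain ⟨A1, a, r, b, t, β, e, h⟩ := hM _ (by simpa using hq)
      obtain ⟨A2, e2⟩ : ∃ A2, r ++ b :: t = A2 ++ [x] := by
        refine ⟨(r ++ b :: t).dropLast, ?_⟩
        have h3 := congrArg List.getLast? e
        rw [List.getLast?_concat, ← List.singleton_append, ← List.append_assoc,
          List.getLast?_append_of_ne_nil _ (by simp)] at h3
        exact (List.dropLast_append_getLast? x h3.symm).symm
      have e3 : A = A1 ++ a :: A2 := by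
        rw [e2, ← List.cons_append, ← List.append_assoc] at e
        exact List.append_cancel_right e
      have := cntM_app' (bk := bk) (P := P) A1 a A2 (x :: C) ⟨a, r, b, t ++ C, β, by
        rw [← List.singleton_append (l := C), ← List.append_assoc, ← e2]; simp, h⟩
      rw [e3, List.append_assoc, List.cons_append]
      omega
    · have := cntM_app (bk := bk) (P := P) A (x :: C)
      omega

end mix

section syl
variable {L C B : Type} [CommGroup C]

/-- Both lists of a syllable are nonempty and lie in its block. -/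
def Syl (S : Set L) (blk : L → B) (x : B × List L × List L) : Prop :=
  (x.2.1 ≠ [] ∧ ∀ a ∈ x.2.1, blk a = x.1 ∧ a ∈ S) ∧ (x.2.2 ≠ [] ∧ ∀ a ∈ x.2.2, blk a = x.1 ∧ a ∈ S)

theorem exists_syl (S : Set L) (blk : L → B)
    (τ : W L C →* W L C) (hinj : Function.Injective τ)
    (hτ : ∀ l x, Sup (blk ⁻¹' {blk l}) (τ (lt l x))) (hτS : ∀ l ∈ S, ∀ x, Sup S (τ (lt l x)))
    {l m : L} (hl : l ∈ S) (hm : m ∈ S) {g a1 a2 : W L C} (hg : Sup S g)
    (ha1 : Sup (blk ⁻¹' {blk l}) a1) (ha1S : Sup S a1)
    (ha2 : Sup (blk ⁻¹' {blk m}) a2) (ha2S : Sup S a2) :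
    ∃ D : List (B × List L × List L), D ≠ [] ∧ wsq l g m = (D.map (fun x => x.2.1)).flatten ∧
      wsq l (a1 * τ g * a2) m = (D.map (fun x => x.2.2)).flatten ∧ (∀ x ∈ D, Syl S blk x) ∧
      D.IsChain (fun x y => x.1 ≠ y.1) ∧ ∀ D1 x y z D2, D = D1 ++ x :: y :: z :: D2 →
        ∃ h : W L C, h ≠ 1 ∧ y.2.1 = lab h ∧ y.2.2 = lab (τ h) := by
  have hτb : ∀ (b : B) (h : W L C), Sup (blk ⁻¹' {b}) h → Sup (blk ⁻¹' {b}) (τ h) := by
    intro b h hh
    refine Sup.map_W τ (fun l hl x => ?_) hh
    have : blk l = b := hl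
    exact this ▸ hτ l x
  have hτS' : ∀ h : W L C, Sup S h → Sup S (τ h) := fun h hh => Sup.map_W τ hτS hh
  rcases exists_pdec blk l m g with ⟨hlm, hgb⟩ | ⟨h0, d, h1, hh0, hh1, hd, hc, rfl⟩
  · have hb' : Sup (blk ⁻¹' {blk l}) (a1 * τ g * a2) :=
      (ha1.mul_W (hτb _ _ hgb)).mul_W (hlm ▸ ha2)
    have hS' : Sup S (a1 * τ g * a2) := (ha1S.mul_W (hτS' _ hg)).mul_W ha2S
    refine ⟨[(blk l, wsq l g m, wsq l (a1 * τ g * a2) m)], by simp, by simp, by simp, ?_, by simp,
      fun D1 x y z D2 e => ?_⟩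
    · intro x hx
      rw [List.mem_singleton.1 hx]
      refine ⟨⟨by simp [wsq], fun a ha => ?_⟩, by simp [wsq], fun a ha => ?_⟩
      · simp only [wsq, List.mem_cons, List.mem_append, List.not_mem_nil, or_false] at ha
        rcases ha with rfl | ha | rfl
        · exact ⟨rfl, hl⟩
        · exact ⟨hgb a ha, hg a ha⟩
        · exact ⟨hlm.symm, hm⟩
      · simp only [wsq, List.mem_cons, List.mem_append, List.not_mem_nil, or_false] at ha
        rcases ha with rfl | ha | rfl
        · exact ⟨rfl, hl⟩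
        · exact ⟨hb' a ha, hS' a ha⟩
        · exact ⟨hlm.symm, hm⟩
    · have := congrArg List.length e
      simp at this
      omega
  · have hlab := lab_pdec hh0 hh1 hd hc
    have hS0 : Sup S h0 := fun a ha => hg a (by rw [hlab]; simp [ha])
    have hS1 : Sup S h1 := fun a ha => hg a (by rw [hlab]; simp [ha])
    have hSd : ∀ e ∈ d, Sup S e.2 := fun e he a ha => hg a (by
      rw [hlab]
      refine List.mem_append_left _ (List.mem_append_right _ ?_)
      exact List.mem_flatten.2 ⟨lab e.2, List.mem_map.2 ⟨e, he, rfl⟩, ha⟩)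
    have hd' := hd.map τ hinj hτ
    have hb0 : Sup (blk ⁻¹' {blk l}) (a1 * τ h0) := ha1.mul_W (hτb _ _ hh0)
    have hb1 : Sup (blk ⁻¹' {blk m}) (τ h1 * a2) := (hτb _ _ hh1).mul_W ha2
    have hlab' := lab_pdec hb0 hb1 hd' (by simpa [List.map_map, Function.comp_def] using hc)
    have hprod : a1 * τ (h0 * (d.map Prod.snd).prod * h1) * a2 =
        a1 * τ h0 * ((d.map (fun e => (e.1, τ e.2))).map Prod.snd).prod * (τ h1 * a2) := by
      simp [map_list_prod, List.map_map, Function.comp_def, mul_assoc]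
    let x0 : B × List L × List L := (blk l, l :: lab h0, l :: lab (a1 * τ h0))
    let x1 : B × List L × List L := (blk m, lab h1 ++ [m], lab (τ h1 * a2) ++ [m])
    let D : List (B × List L × List L) := d.map (fun e => (e.1, lab e.2, lab (τ e.2)))
    refine ⟨x0 :: (D ++ [x1]), by simp, ?_, ?_, ?_, ?_, fun D1 x y z D2 e => ?_⟩
    · simp [wsq, hlab, x0, x1, D, List.map_map, Function.comp_def]
    · rw [hprod]
      simp only [wsq]
      rw [hlab']
      simp [x0, x1, D, List.map_map, Function.comp_def]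
    · intro x hx
      simp only [List.mem_cons, List.mem_append, List.not_mem_nil, or_false] at hx
      rcases hx with rfl | hx | rfl
      · refine ⟨⟨by simp [x0], ?_⟩, by simp [x0], ?_⟩
        · intro a ha
          rcases List.mem_cons.1 ha with rfl | ha
          · exact ⟨rfl, hl⟩
          · exact ⟨hh0 a ha, hS0 a ha⟩
        · intro a ha
          rcases List.mem_cons.1 ha with rfl | ha
          · exact ⟨rfl, hl⟩
          · exact ⟨hb0 a ha, (ha1S.mul_W (hτS' _ hS0)) a ha⟩
      · obtain ⟨e, he, rfl⟩ := List.mem_map.1 hx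
        have h1 := hd.1 e he
        refine ⟨⟨fun h => h1.1 (lab_eq_nil.1 h), fun a ha => ⟨h1.2 a ha, hSd e he a ha⟩⟩,
          fun h => h1.1 (hinj (by simpa using lab_eq_nil.1 h)),
          fun a ha => ⟨hτb _ _ h1.2 a ha, hτS' _ (hSd e he) a ha⟩⟩
      · refine ⟨⟨by simp [x1], ?_⟩, by simp [x1], ?_⟩
        · intro a ha
          rcases List.mem_append.1 ha with ha | ha
          · exact ⟨hh1 a ha, hS1 a ha⟩
          · rw [List.mem_singleton.1 ha]; exact ⟨rfl, hm⟩
        · intro a ha
          rcases List.mem_append.1 ha with ha | ha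
          · exact ⟨hb1 a ha, ((hτS' _ hS1).mul_W ha2S) a ha⟩
          · rw [List.mem_singleton.1 ha]; exact ⟨rfl, hm⟩
    · have : blk l :: (d.map Prod.fst ++ [blk m]) = (x0 :: (D ++ [x1])).map Prod.fst := by
        simp [x0, x1, D, List.map_map, Function.comp_def]
      rw [this, List.isChain_map] at hc
      exact hc
    · have hy : y ∈ D := by
        obtain ⟨E, e'⟩ : ∃ E, D ++ [x1] = E ++ y :: z :: D2 := by
          rcases D1 with _ | ⟨w, D1⟩
          · exact ⟨[], (List.cons.inj e).2⟩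
          · exact ⟨D1 ++ [x], by simpa using (List.cons.inj e).2⟩
        have := congrArg List.dropLast e'
        rw [List.dropLast_concat, List.dropLast_append_cons, List.dropLast_cons_cons] at this
        rw [this]; simp
      obtain ⟨v, hv, rfl⟩ := List.mem_map.1 hy
      exact ⟨v.2, (hd.1 v hv).1, rfl, rfl⟩

end syl

end Pool.Agent.E5f.Wall
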