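import Pool.Agent.E5f.LsTouchE
import Pool.Agent.E5f.LsTouchF
import Pool.Agent.E5f.LsLink

/-!
The homomorphism of a touch and the local inequalities.
-/

set_option autoImplicit false
set_option linter.unusedSimpArgs false
set_option linter.unusedSectionVars false

namespace Pool.Agent.E5f.Wall

open Classical

variable {L κ B : Type} [LinearOrder κ]

theorem sw_invol {a b : L} (hab : a ≠ b) (g : W L C2) : sw a b c2 (sw a b c2 g) = g := by
  refine ext_lc (S := Set.univ) (f := (sw a b c2).comp (sw a b c2)) (f' := MonoidHom.id _)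
    (fun l _ => ?_) (fun _ _ => trivial)
  by_cases h : l = b <;> simp [sw_lc, h, hab, mul_assoc]

theorem actH_inj {c : List (L × L)} (h : ∀ e ∈ c, e.1 ≠ e.2) : Function.Injective (actH c) := by
  induction c with
  | nil => exact fun _ _ h => h
  | cons e c ih =>
    exact (ih (fun x hx => h x (List.mem_cons_of_mem _ hx))).comp
      (Function.LeftInverse.injective (sw_invol (h e (by simp))))

theorem actH_sup {T : Set L} {c : List (L × L)} (h : ∀ e ∈ c, e.2 ∈ T → e.1 ∈ T) {g : W L C2}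
    (hg : Sup T g) : Sup T (actH c g) := by
  induction c generalizing g with
  | nil => exact hg
  | cons e c ih =>
    refine ih (fun x hx => h x (List.mem_cons_of_mem _ hx)) (sup_map_lc (fun l hl => ?_) hg)
    rw [sw_lc]
    split_ifs with h1
    · have := sup_lc (h e (by simp) (h1 ▸ hl))
      exact sup_mul (sup_mul this (sup_lc (h1 ▸ hl))) this
    · exact sup_lc hl

theorem act_cpl {c : List (L × L)} (h : ∀ e ∈ c, e.1 ≠ e.2) {T T' : Set L}
    (hT : ∀ e ∈ c, e.2 ∈ T → e.1 ∈ T) (hT' : ∀ e ∈ c, e.2 ∈ T' → e.1 ∈ T') {l m : L} (hl : l ∈ T)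
    (hm : m ∈ T') (g g' : W L C2) : ∃ a1 a2, Sup T a1 ∧ Sup T' a2 ∧
      act c (cpl (l, g) (m, g')) = cpl (l, actH c g * a1) (m, actH c g' * a2) := by
  induction c generalizing g g' with
  | nil => exact ⟨1, 1, sup_one _, sup_one _, by simp [act, actH]⟩
  | cons e c ih =>
    have q : ∀ (T : Set L) (l : L), (e.2 ∈ T → e.1 ∈ T) → l ∈ T →
        Sup T (if l = e.2 then lt e.1 c2 else 1 : W L C2) := fun T l h1 h2 => by
      split_ifs with h3
      · exact sup_lc (h1 (h3 ▸ h2))
      · exact sup_one _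
    have i1 := fun x hx => hT x (List.mem_cons_of_mem _ hx)
    have i2 := fun x hx => hT' x (List.mem_cons_of_mem _ hx)
    obtain ⟨a1, a2, h1, h2, e1⟩ := ih (fun x hx => h x (List.mem_cons_of_mem _ hx)) i1 i2
      (sw e.1 e.2 c2 g * (if l = e.2 then lt e.1 c2 else 1))
      (sw e.1 e.2 c2 g' * (if m = e.2 then lt e.1 c2 else 1))
    refine ⟨_, _, sup_mul (actH_sup i1 (q T l (hT e (by simp)) hl)) h1,
      sup_mul (actH_sup i2 (q T' m (hT' e (by simp)) hm)) h2, ?_⟩
    rw [act, ← cpl_tp (h e (by simp))]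
    simp only [map_mul, mul_assoc] at e1
    exact e1

theorem act_one (c : List (L × L)) (l : L) : act c [l] = [l] := by
  induction c with
  | nil => rfl
  | cons e c ih => rw [act, show swL e.1 e.2 [l] = [l] by simp [swL], ih]

theorem wLin_eq (k : L → κ) (ρ : L → ℝ) (s : List L) : wLin k ρ s = lin k ρ s := by
  induction s with
  | nil => rfl
  | cons a s ih =>
    rcases s with _ | ⟨b, s⟩
    · rfl
    · rw [wLin_cons, lin, ih]

theorem lin_dst (k : L → κ) (ρ : L → ℝ) (w : List L) (a : L) :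
    lin k ρ (List.destutter' (· ≠ ·) a w) = lin k ρ (a :: w) := by
  induction w generalizing a with
  | nil => rfl
  | cons b w ih =>
    by_cases h : a = b
    · subst h
      rw [List.destutter'_cons_neg _ (by simp), ih, lin]
      simp
    · rw [List.destutter'_cons_pos _ h]
      obtain ⟨t, ht⟩ := (var_dst_link ρ w b).1
      have := ih b
      rw [ht] at this ⊢
      rw [lin, lin, this]

theorem lin_cpl (k : L → κ) (ρ : L → ℝ) (l m : L) (g g' : W L C2) :
    lin k ρ (cpl (l, g) (m, g')) = wLin k ρ (wsq l (g⁻¹ * g') m) := by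
  rw [wLin_eq, cpl, List.cons_append, List.destutter_cons', lin_dst, wsq]

variable {S : Set L} {kk : Bool → L → κ} {ty : L → Fin 3} {bk : L → B} (hB : Blk kk ty bk)
include hB

theorem blk_mem {o a b : L} (ha : bk a = bk o) (hb : bk b = bk o) (t0 : ty o = 0) (t1 : ty a = 1)
    (t2 : ty b = 2) {x : L} (hx : bk x = bk o) : x = o ∨ x = a ∨ x = b := by
  have : ty x = 0 ∨ ty x = 1 ∨ ty x = 2 := by generalize ty x = i; revert i; decide
  rcases this with h | h | h
  · exact Or.inl (hB.uniq _ _ hx (h.trans t0.symm))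
  · exact Or.inr (Or.inl (hB.uniq _ _ (hx.trans ha.symm) (h.trans t1.symm)))
  · exact Or.inr (Or.inr (hB.uniq _ _ (hx.trans hb.symm) (h.trans t2.symm)))

theorem blk_ord (s : Bool) {x y : L} (h : bk x = bk y) (ht : ty x < ty y) :
    (kk s x < kk s y ↔ s = true) := by
  cases s
  · rw [hB.minus x y h]; simpa using ht.le
  · rw [hB.plus x y h]; simpa using ht

theorem tou_chain {n : ℕ} {sd σ sd' : Bool} {p p' : List L} (h : Tou S kk ty n sd σ p sd' p') :
    ∃ c : List (L × L), (∀ e ∈ c, e.1 ∈ S ∧ e.2 ∈ S ∧ e.1 ≠ e.2 ∧ bk e.1 = bk e.2) ∧ p' = act c p ∧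
      sd' = (if Even n then sd else !sd) ∧ ∀ o ∈ S, ∀ a ∈ S, ∀ b ∈ S, bk a = bk o → bk b = bk o →
        ty o = 0 → ty a = 1 → ty b = 2 → ∀ g, Sup {o, a, b} g → actH c g = TT o a b n σ g := by
  induction n generalizing sd σ p with
  | zero => exact ⟨[], by simp, h.2, by simpa using h.1, fun _ _ _ _ _ _ _ _ _ _ _ _ _ => rfl⟩
  | succ n ih =>
    obtain ⟨p1, ⟨c1, hF, hσ, rfl⟩, h2⟩ := h
    obtain ⟨c, hc, rfl, hsd, hf⟩ := ih h2
    have hc1 : ∀ e ∈ c1, e.1 ∈ S ∧ e.2 ∈ S ∧ e.1 ≠ e.2 ∧ bk e.1 = bk e.2 := by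
      intro e he
      obtain ⟨h1, h2, h3, h4⟩ := fch_mem hF he
      refine ⟨h1, h2, h3, ?_⟩
      by_contra h5
      rw [hB.out sd (!sd) _ _ _ _ rfl rfl h5] at h4
      rcases lt_trichotomy (kk (!sd) e.1) (kk (!sd) e.2) with h6 | h6 | h6
      · exact lt_asymm h6 (h4.1 h6)
      · exact h3 (hF.inj1 h6)
      · exact lt_asymm h6 (h4.2 h6)
    refine ⟨c1 ++ c, fun e he => (List.mem_append.1 he).elim (hc1 e) (hc e),
      (act_append _ _ _).symm, ?_, fun o ho a ha b hb qa qb t0 t1 t2 g hg => ?_⟩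
    · rw [hsd]
      by_cases h : Even n <;> simp [h, Nat.even_add_one]
    · have hoa : o ≠ a := fun e => by rw [e, t1] at t0; exact absurd t0 (by decide)
      have hob : o ≠ b := fun e => by rw [e, t2] at t0; exact absurd t0 (by decide)
      have hab : a ≠ b := fun e => by rw [e, t2] at t1; exact absurd t1 (by decide)
      have l1 : ty o < ty a := by rw [t0, t1]; decide
      have l2 : ty o < ty b := by rw [t0, t2]; decide
      have l3 : ty a < ty b := by rw [t1, t2]; decide
      have nb : ((!sd) = true) ↔ ¬ sd = true := by cases sd <;> simp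
      have e1 := pass_eq hoa hob hab ho ha hb (d := sd = true) (blk_ord hB sd qa.symm l1)
        (blk_ord hB sd qb.symm l2) (blk_ord hB sd (qa.trans qb.symm) l3)
        ((blk_ord hB _ qa.symm l1).trans nb) ((blk_ord hB _ qb.symm l2).trans nb)
        ((blk_ord hB _ (qa.trans qb.symm) l3).trans nb) (σ := σ) hF (fun e he => ?_) hg
      · rw [actH_append, e1, hf o ho a ha b hb qa qb t0 t1 t2 _ (sup_TP hoa hob hab σ hg)]
        rfl
      · obtain ⟨-, -, h3, h4⟩ := hc1 e he
        have h5 := hσ e he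
        obtain ⟨x, y⟩ := e
        simp only at h3 h4 h5 ⊢
        by_cases h6 : bk x = bk o
        · right
          rcases blk_mem hB qa qb t0 t1 t2 h6 with e1 | e1 | e1 <;>
            rcases blk_mem hB qa qb t0 t1 t2 (h4.symm.trans h6) with e2 | e2 | e2 <;>
            rw [e1, e2] at h3 h5 ⊢ <;> simp only [t0, t1, t2] at h5 <;> cases σ <;>
            simp [hgt] at h3 h5 ⊢
        · left
          have h7 : bk y ≠ bk o := fun e => h6 (h4.trans e)
          exact ⟨fun e => h6 (e ▸ rfl), fun e => h6 (e ▸ qa), fun e => h6 (e ▸ qb),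
            fun e => h7 (e ▸ rfl), fun e => h7 (e ▸ qa), fun e => h7 (e ▸ qb)⟩

omit hB in
/-- The sign of a side. -/
noncomputable def sgb (d : Bool) : ℝ := if d = true then 1 else -1

omit hB in
theorem sgb_cases (d : Bool) : sgb d = 1 ∨ sgb d = -1 := by cases d <;> simp [sgb]

omit hB in
theorem sgb_not (d : Bool) : sgb (!d) = -sgb d := by cases d <;> simp [sgb]

theorem refi_blk {f : Fin 3 → ℝ} (hf : Monotone f) (sd : Bool) (β : B) :
    Refi (kk sd) (fun l => sgb sd * f (ty l)) (bk ⁻¹' {β}) := by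
  intro a ha b hb
  have e : bk a = bk b := ha.trans hb.symm
  cases sd
  · rw [hB.minus a b e]
    simp only [sgb, Bool.false_eq_true, if_false, neg_mul, one_mul, neg_le_neg_iff]
    exact ⟨fun h => hf h.le, fun h => hf (not_lt.1 h)⟩
  · rw [hB.plus a b e]
    simp only [sgb, if_true, one_mul]
    exact ⟨fun h => hf h.le, fun h => hf (not_lt.1 h)⟩

section wts
variable {w : Fin 3 → ℝ} (w0 : w 0 = 0) (w1 : 0 < w 1) (w2 : w 1 < w 2)
include w0 w1 w2

omit hB in
theorem w_mono : Monotone w := by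
  intro i j h
  fin_cases i <;> fin_cases j <;> simp at h ⊢ <;> linarith

omit hB in
theorem w_bd (i : Fin 3) : 0 ≤ w i ∧ w i ≤ w 2 :=
  ⟨w0 ▸ w_mono w0 w1 w2 (Fin.zero_le i), w_mono w0 w1 w2 (Fin.le_last i)⟩

theorem w_gap {x y : L} (h : bk x = bk y) (hn : x ≠ y) :
    min (w 1) (w 2 - w 1) ≤ |w (ty y) - w (ty x)| := by
  have h1 : ty x ≠ ty y := fun e => hn (hB.uniq x y h e)
  have a1 := min_le_left (w 1) (w 2 - w 1)
  have a2 := min_le_right (w 1) (w 2 - w 1)
  generalize min (w 1) (w 2 - w 1) = δ at *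
  rw [le_abs]
  generalize ty x = i at *
  generalize ty y = j at *
  fin_cases i <;> fin_cases j <;> simp only [Fin.zero_eta, Fin.mk_one, Fin.reduceFinMk] at h1 ⊢ <;>
    first | exact absurd rfl h1 | (left; linarith) | (right; linarith)

theorem var_len {β : B} {s : List L} (hr : Rd s) (hs : ∀ a ∈ s, bk a = β) :
    min (w 1) (w 2 - w 1) * (s.length - 1) ≤ Var (s.map (fun l => w (ty l))) := by
  induction s with
  | nil => simpa [Var] using ⟨w1.le, w2.le⟩
  | cons a s ih =>
    rcases s with _ | ⟨b, s⟩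
    · simp [Var]
    · have h1 := ih hr.tail (fun x hx => hs x (List.mem_cons_of_mem _ hx))
      have h2 := w_gap hB w0 w1 w2 ((hs a (by simp)).trans (hs b (by simp)).symm)
        (List.isChain_cons_cons.1 hr).1
      simp only [List.map_cons, var_cons_W, List.length_cons] at h1 ⊢
      push_cast at h1 ⊢
      linarith

theorem loc_crude (sd : Bool) {β : B} {s : List L} (hn : s ≠ []) (hs : ∀ a ∈ s, bk a = β)
    {e1 e2 : ℝ} (h1 : |e1| ≤ 1) (h2 : |e2| ≤ 1) :
    Var (s.map (fun l => w (ty l))) - 2 * w 2 ≤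
      loc (kk sd) (fun l => sgb sd * w (ty l)) e1 e2 s := by
  rw [loc_sign (u := fun l => w (ty l)) (sgb_cases sd) (refi_blk hB (w_mono w0 w1 w2) sd β) hs]
  obtain ⟨a, -, ha⟩ := hdv_mem (fun l => w (ty l)) hn
  obtain ⟨b, -, hb⟩ := lsv_mem (fun l => w (ty l)) hn
  rw [ha, hb]
  have q : ∀ (e : ℝ) (i : Fin 3), |e| ≤ 1 → -w 2 ≤ sgb sd * e * w i := fun e i he => by
    have := w_bd w0 w1 w2 i
    have := abs_le.1 he
    rcases sgb_cases sd with h | h <;> rw [h] <;> nlinarith
  linarith [q e1 (ty a) h1, q e2 (ty b) h2]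

theorem loc_lr (sd d : Bool) {β : B} {s : List L} (hn : s ≠ []) (hs : ∀ a ∈ s, bk a = β) :
    0 ≤ loc (kk sd) (fun l => sgb sd * w (ty l)) (sgb d) (-sgb d) s ∧
    (Rd s → ¬ Mono (kk sd) d s → 2 * min (w 1) (w 2 - w 1) ≤
      loc (kk sd) (fun l => sgb sd * w (ty l)) (sgb d) (-sgb d) s) := by
  have R := refi_blk hB (w_mono w0 w1 w2) sd β
  have gp : ∀ x ∈ s, ∀ y ∈ s, x ≠ y →
      min (w 1) (w 2 - w 1) ≤ |sgb sd * w (ty y) - sgb sd * w (ty x)| := fun x hx y hy h => by
    have := w_gap hB w0 w1 w2 ((hs x hx).trans (hs y hy).symm) h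
    rw [← mul_sub, abs_mul]
    rcases sgb_cases sd with h | h <;> rw [h] <;> simpa using this
  rw [loc, wLin_eq_var _ _ (fun a ha b hb => R a (hs a ha) b (hs b hb))]
  generalize hρ : (fun l => sgb sd * w (ty l)) = ρ at R ⊢
  have hρ' : ∀ l, sgb sd * w (ty l) = ρ l := fun l => congrFun hρ l
  simp only [hρ'] at gp
  refine ⟨?_, fun hr hm => ?_⟩
  · have := abs_le.1 (var_ge_zero ρ hn)
    rcases sgb_cases d with h | h <;> rw [h] <;> linarith [this.1, this.2]
  · rw [Mono, List.isChain_iff_forall_rel_of_append_cons_cons] at hm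
    push Not at hm
    obtain ⟨x, y, A, C, e, hm⟩ := hm
    have hx : x ∈ s := by simp [e]
    have hy : y ∈ s := by simp [e]
    have g1 := gp x hx y hy (List.isChain_iff_forall_rel_of_append_cons_cons.1 hr e)
    have v := var_sub_ends ρ hn (t := [x, y]) (by
      rw [e]
      exact List.Sublist.trans (by simp) (List.sublist_append_right _ _))
    simp only [List.map_cons, List.map_nil, List.cons_append, List.nil_append, Var] at v
    cases d
    · have := (R y (hs y hy) x (hs x hx)).2 (by simpa using hm)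
      rw [abs_of_nonneg (sub_nonneg.2 this)] at g1 v
      simp only [sgb, Bool.false_eq_true, if_false]
      linarith [neg_abs_le (ρ x - hdv ρ s), neg_abs_le (lsv ρ s - ρ y)]
    · have := (R x (hs x hx) y (hs y hy)).2 (by simpa using hm)
      rw [abs_of_nonpos (sub_nonpos.2 this)] at g1 v
      simp only [sgb, if_true]
      linarith [le_abs_self (ρ x - hdv ρ s), le_abs_self (lsv ρ s - ρ y)]

theorem loc_ll {o a b : L} (qa : bk a = bk o) (qb : bk b = bk o) (t0 : ty o = 0) (t1 : ty a = 1)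
    (t2 : ty b = 2) {n : ℕ} (hn : 2 ≤ n) (σ sd : Bool) {sd' : Bool}
    (hsd : sd' = if Even n then sd else !sd) {h : W L C2} (hh : Sup {o, a, b} h) (h1 : h ≠ 1)
    {e : ℝ} (he : e = 1 ∨ e = -1) :
    0 ≤ loc (kk sd) (fun l => sgb sd * w (ty l)) e e (lab h) +
      loc (kk sd') (fun l => sgb sd' * w (ty l)) e e (lab (TT o a b n σ h)) ∧
    (sgb sd * e = 1 → 2 * w 1 ≤ loc (kk sd) (fun l => sgb sd * w (ty l)) e e (lab h) +
      loc (kk sd') (fun l => sgb sd' * w (ty l)) e e (lab (TT o a b n σ h))) := by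
  have hoa : o ≠ a := fun e => by rw [e, t1] at t0; exact absurd t0 (by decide)
  have hob : o ≠ b := fun e => by rw [e, t2] at t0; exact absurd t0 (by decide)
  have hab : a ≠ b := fun e => by rw [e, t2] at t1; exact absurd t1 (by decide)
  let f1 : Fin 3 → ℝ := ![0, 1, 1]
  let f2 : Fin 3 → ℝ := ![0, 0, 1]
  have m1 : Monotone f1 := by
    intro i j h
    fin_cases i <;> fin_cases j <;> simp [f1] at h ⊢
  have m2 : Monotone f2 := by
    intro i j h
    fin_cases i <;> fin_cases j <;> simp [f2] at h ⊢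
  have z1 : ∀ l, f1 (ty l) = 0 ∨ f1 (ty l) = 1 := fun l => by
    generalize ty l = i; fin_cases i <;> simp [f1]
  have z2 : ∀ l, f2 (ty l) = 0 ∨ f2 (ty l) = 1 := fun l => by
    generalize ty l = i; fin_cases i <;> simp [f2]
  have dc : ∀ (s : Bool) (t : List L), loc (kk s) (fun l => sgb s * w (ty l)) e e t =
      w 1 * loc (kk s) (fun l => sgb s * f1 (ty l)) e e t +
        (w 2 - w 1) * loc (kk s) (fun l => sgb s * f2 (ty l)) e e t := fun s t => by
    rw [← loc_lin]
    refine loc_congr _ _ _ (fun l _ => ?_)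
    generalize ty l = i
    fin_cases i <;> simp [f1, f2, w0] <;> ring
  have hh' := sup_TT hoa hob hab n σ hh
  have h1' := TT_ne hoa hob hab (n := n) σ hh h1
  have bl : ∀ g : W L C2, Sup {o, a, b} g → ∀ x ∈ lab g, x ∈ bk ⁻¹' {bk o} := fun g hg x hx => by
    rcases hg x hx with rfl | rfl | rfl
    · rfl
    · exact qa
    · exact qb
  have n1 : lab h ≠ [] := fun h0 => h1 (lab_eq_nil.1 h0)
  have n2 : lab (TT o a b n σ h) ≠ [] := fun h0 => h1' (lab_eq_nil.1 h0)
  have N : ∀ f : Fin 3 → ℝ, Monotone f → (∀ l, f (ty l) = 0 ∨ f (ty l) = 1) → f 0 = 0 →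
      f 2 = 1 → 0 ≤ loc (kk sd) (fun l => sgb sd * f (ty l)) e e (lab h) +
      loc (kk sd') (fun l => sgb sd' * f (ty l)) e e (lab (TT o a b n σ h)) := by
    intro f mf zf f0 f2
    have uo : f (ty o) = 0 := by rw [t0, f0]
    have ub : f (ty b) = 1 := by rw [t2, f2]
    by_cases hev : Even n
    · rw [hsd, if_pos hev]
      refine loc_even (u := fun l => f (ty l)) zf (sgb_cases sd) (refi_blk hB mf sd (bk o))
        (refi_blk hB mf sd (bk o)) (bl _ hh) (bl _ hh') n1 n2
        (EV hoa hob hab hn σ (u := fun l => f (ty l)) uo (zf a).symm ub hh h1) (fun h2 => ?_) he he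
      have := EV hoa hob hab hn (if Even n then !σ else σ) (u := fun l => f (ty l)) uo (zf a).symm
        ub hh' h1' h2
      rwa [TT_inv hoa hob hab n σ hh] at this
    · have R' := refi_blk hB mf (!sd) (bk o)
      rw [hsd, if_neg hev]
      rw [sgb_not] at R' ⊢
      obtain ⟨p, hp, p', hp', hpp⟩ := common_val (u := fun l => f (ty l)) zf (A := {o, a, b})
        (p0 := 1 - f (ty a)) (by
          have za := zf a
          rintro x (rfl | rfl | rfl) y (rfl | rfl | rfl) e1 e2 <;>
            first | rfl | (exfalso; rcases za with h | h <;> linarith))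
        (by rcases zf a with h | h <;> simp [h]) hh hh' h1 h1' (fun x => expo_TT o a b n σ x h)
      exact loc_odd (u := fun l => f (ty l)) (sgb_cases sd) (refi_blk hB mf sd (bk o)) R'
        (bl _ hh) (bl _ hh') hp hp' hpp (by rcases he with rfl | rfl <;> simp)
        (by rcases he with rfl | rfl <;> simp)
  have N1 := N f1 m1 z1 rfl rfl
  have N2 := N f2 m2 z2 rfl rfl
  rw [dc, dc]
  refine ⟨by nlinarith [mul_nonneg w1.le N1, mul_nonneg (sub_nonneg.2 w2.le) N2], fun hg => ?_⟩
  have uo : f1 (ty o) = 0 := by rw [t0]; rfl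
  have ua : f1 (ty a) = 1 := by rw [t1]; rfl
  have ub : f1 (ty b) = 1 := by rw [t2]; rfl
  have G : 2 ≤ loc (kk sd) (fun l => sgb sd * f1 (ty l)) e e (lab h) +
      loc (kk sd') (fun l => sgb sd' * f1 (ty l)) e e (lab (TT o a b n σ h)) := by
    rw [loc_sign (u := fun l => f1 (ty l)) (sgb_cases sd) (refi_blk hB m1 sd (bk o)) (bl _ hh),
      loc_sign (u := fun l => f1 (ty l)) (sgb_cases sd') (refi_blk hB m1 sd' (bk o)) (bl _ hh'), hg]
    by_cases hev : Even n
    · rw [hsd, if_pos hev, hg]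
      linarith [good_even hoa hob hab hn σ (u := fun l => f1 (ty l)) z1 uo ua ub hh h1]
    · rw [hsd, if_neg hev, sgb_not, neg_mul, hg]
      linarith [good_odd hoa hob hab hn σ (u := fun l => f1 (ty l)) z1 uo ua ub hh h1 hev]
  nlinarith [mul_le_mul_of_nonneg_left G w1.le, mul_nonneg (sub_nonneg.2 w2.le) N2]

end wts

end Pool.Agent.E5f.Wall
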