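import Pool.Agent.E5f.MoPlan

/-!
Zigzags: steps, box words and touches are realised by moves.
-/

set_option autoImplicit false

namespace Pool.Agent.E5f

open Filter Classical

/-- Induction over the labels of a finite set between two markers. -/
theorem mk_ind {L : Type} {ρ : L → ℝ} (S : Finset L) {p : Mk → Mk → Prop} (lo hi : Mk)
    (htr : ∀ u u' u'', p u u' → p u' u'' → p u u'')
    (hgap : ∀ u u', toLex lo ≤ toLex u → toLex u ≤ toLex u' → toLex u' ≤ toLex hi →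
      (∀ l ∈ S, l ∈ Rs ρ u ↔ l ∈ Rs ρ u') → p u u')
    (hcr : ∀ l ∈ S, p (ρ l, false) (ρ l, true)) :
    ∀ u u', toLex lo ≤ toLex u → toLex u ≤ toLex u' → toLex u' ≤ toLex hi → p u u' := by
  have key : ∀ (n : ℕ) (u u' : Mk), toLex lo ≤ toLex u → toLex u ≤ toLex u' →
      toLex u' ≤ toLex hi → (cut S (Rs ρ u \ Rs ρ u')).card = n → p u u' := by
    intro n
    induction n using Nat.strong_induction_on with
    | _ n ih =>
    intro u u' h0 hle h1 hn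
    have hsub : Rs ρ u' ⊆ Rs ρ u := Rs_mono _ hle
    rcases (cut S (Rs ρ u \ Rs ρ u')).eq_empty_or_nonempty with he | he
    · refine hgap u u' h0 hle h1 fun l hl => ⟨fun h2 => ?_, fun h2 => hsub h2⟩
      by_contra h3
      have : l ∈ cut S (Rs ρ u \ Rs ρ u') := mem_cut.2 ⟨hl, h2, h3⟩
      rw [he] at this
      exact Finset.notMem_empty _ this
    obtain ⟨l, hl, hmin⟩ := Finset.exists_min_image _ ρ he
    obtain ⟨hlS, hl1, hl2⟩ := mem_cut.1 hl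
    have e1 : toLex u ≤ toLex ((ρ l, false) : Mk) := (rtP_iff _ _ _).1 hl1
    have e2 : toLex ((ρ l, true) : Mk) ≤ toLex u' := (not_rtP_iff _ _ _).1 hl2
    have e3 : toLex ((ρ l, false) : Mk) ≤ toLex ((ρ l, true) : Mk) := by
      rw [Prod.Lex.toLex_le_toLex]; simp
    refine htr _ _ _ (htr _ _ _ (hgap u (ρ l, false) h0 e1 (e3.trans (e2.trans h1))
      fun m hm => ⟨fun h2 => ?_, fun h2 => Rs_mono ρ e1 h2⟩) (hcr l hlS))
      (ih _ ?_ (ρ l, true) u' (h0.trans (e1.trans e3)) e2 h1 rfl)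
    · have : ρ l ≤ ρ m := by
        by_cases h3 : m ∈ Rs ρ u'
        · exact ((at_Rs ρ u' l).2 hl2).trans ((at_Rs ρ u' m).1 h3)
        · exact hmin m (mem_cut.2 ⟨hm, h2, h3⟩)
      rcases this.lt_or_eq with h3 | h3
      · exact Or.inl h3
      · exact Or.inr ⟨h3, rfl⟩
    · rw [← hn]
      refine Finset.card_lt_card ⟨fun m hm => ?_, fun hm => ?_⟩
      · rw [mem_cut] at hm ⊢
        exact ⟨hm.1, Rs_mono _ (e1.trans e3) hm.2.1, hm.2.2⟩
      · exact not_rtP_true _ _ (mem_cut.1 (hm hl)).2.1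
  exact fun u u' h0 h1 h2 => key _ u u' h0 h1 h2 rfl

theorem seq_of_rtg {X : Type} {r : X → X → Prop} {a b : X} (h : Relation.ReflTransGen r a b) :
    ∃ (s : ℕ → X) (n : ℕ), s 0 = a ∧ s n = b ∧ ∀ i < n, r (s i) (s (i + 1)) := by
  induction h with
  | refl => exact ⟨fun _ => a, 0, rfl, rfl, fun _ h => absurd h (Nat.not_lt_zero _)⟩
  | @tail b c _ h2 ih =>
    obtain ⟨s, n, h0, h1, h3⟩ := ih
    refine ⟨fun i => if i ≤ n then s i else c, n + 1, by simp [h0], by simp, fun i hi => ?_⟩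
    rcases (Nat.lt_succ_iff.1 hi).lt_or_eq with h4 | h4
    · simp only [h4.le, Nat.succ_le_of_lt h4, if_true]
      exact h3 i h4
    · subst h4
      simp only [le_refl, if_true, Nat.not_succ_le_self, if_false, h1]
      exact h2

theorem seq_between {X : Type} [Preorder X] {f : ℕ → X} {n : ℕ} (h : ∀ i < n, f i ≤ f (i + 1)) :
    ∀ i j, i ≤ j → j ≤ n → f i ≤ f j := by
  intro i j hij hj
  induction j, hij using Nat.le_induction with
  | base => exact le_rfl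
  | succ j _ ih => exact (ih (Nat.le_of_succ_le hj)).trans (h j hj)

namespace Plan
variable {L C : Type} [CommGroup C] {c : C} {Z : Cfg L} {Q : Type} {P : Plan c Z Q} {b : Bx}
  {p q r : Q} {D : Set L}

/-- A move which respects the status set. -/
def Zm (P : Plan c Z Q) (D : Set L) (a a' : Q) : Prop :=
  P.MV a a' ∨ (P.MH a a' ∧ ∀ l, ¬ (l ∈ P.R a ↔ l ∈ P.R a') → (l ∈ D ↔ l ∈ Rs Z.y (P.w a)))

/-- The point is on one of the two levels. -/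
def Lv (P : Plan c Z Q) (y0 y1 : ℝ) (a : Q) : Prop := P.w a = (y0, false) ∨ P.w a = (y1, true)

theorem Zm.step (hD : ∃ y0 y1, InB Z.y y0 y1 D) (h : P.Zm D p q) : P.Step D p q := by
  refine ⟨hD, ?_⟩
  rcases h with h | h
  · unfold R
    rw [h.1, h.2, stp_self, mul_one]
  · rw [h.1.g_eq, stp_congr c (P.up_R p) (P.up_R q) h.2]

theorem zig_core (hZ : Z.Gen) {y0 y1 : ℝ} (hD : InB Z.y y0 y1 D) {u u' : Mk}
    (hu : toLex u ≤ toLex u') :
    (∀ q, P.Lv y0 y1 q → P.u q = u → ∃ q', P.u q' = u' ∧ P.Lv y0 y1 q' ∧ Relation.ReflTransGen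
      (fun a a' => P.Zm D a a' ∧ P.Lv y0 y1 a' ∧ toLex (P.u a) ≤ toLex (P.u a')) q q') ∧
    (∀ q', P.Lv y0 y1 q' → P.u q' = u' → ∃ q, P.u q = u ∧ P.Lv y0 y1 q ∧ Relation.ReflTransGen
      (fun a a' => P.Zm D a a' ∧ P.Lv y0 y1 a' ∧ toLex (P.u a') ≤ toLex (P.u a)) q' q) := by
  refine mk_ind (ρ := Z.x) (Z.bl_fin ⟨u.1, u'.1, y0, y1⟩).toFinset (p := fun u u' =>
    (∀ q, P.Lv y0 y1 q → P.u q = u → ∃ q', P.u q' = u' ∧ P.Lv y0 y1 q' ∧ Relation.ReflTransGen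
      (fun a a' => P.Zm D a a' ∧ P.Lv y0 y1 a' ∧ toLex (P.u a) ≤ toLex (P.u a')) q q') ∧
    (∀ q', P.Lv y0 y1 q' → P.u q' = u' → ∃ q, P.u q = u ∧ P.Lv y0 y1 q ∧ Relation.ReflTransGen
      (fun a a' => P.Zm D a a' ∧ P.Lv y0 y1 a' ∧ toLex (P.u a') ≤ toLex (P.u a)) q' q))
    u u' ?_ ?_ ?_ u u' le_rfl hu le_rfl
  · intro v v' v'' h1 h2
    refine ⟨fun q a1 a2 => ?_, fun q a1 a2 => ?_⟩
    · obtain ⟨q1, b1, b2, b3⟩ := h1.1 q a1 a2
      obtain ⟨q2, c1, c2, c3⟩ := h2.1 q1 b2 b1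
      exact ⟨q2, c1, c2, b3.trans c3⟩
    · obtain ⟨q1, b1, b2, b3⟩ := h2.2 q a1 a2
      obtain ⟨q2, c1, c2, c3⟩ := h1.2 q1 b2 b1
      exact ⟨q2, c1, c2, b3.trans c3⟩
  · intro v v' h0 h1 h2 hg
    have key : ∀ l, ¬ (l ∈ Rs Z.x v ↔ l ∈ Rs Z.x v') → ∀ q, P.Lv y0 y1 q →
        (l ∈ D ↔ l ∈ Rs Z.y (P.w q)) := by
      intro l hl q hq
      have e1 : l ∈ Rs Z.x v := by
        by_contra h3
        exact hl ⟨fun h4 => absurd h4 h3, fun h4 => Rs_mono _ h1 h4⟩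
      have e2 : l ∉ Rs Z.x v' := fun h3 => hl ⟨fun _ => h3, fun _ => e1⟩
      have e3 : l ∉ Z.bl ⟨u.1, u'.1, y0, y1⟩ := fun h3 => hl (hg l (by simpa using h3))
      have x1 : u.1 ≤ Z.x l := (fst_mono h0).trans ((at_Rs _ _ l).1 e1)
      have x2 : Z.x l ≤ u'.1 := ((at_Rs _ _ l).2 e2).trans (fst_mono h2)
      have d1 := (hD l).1
      have d2 := (hD l).2
      rcases Z.not_bl e3 with (h3 | h3 | h3) | h3
      · exact absurd h3 (not_lt.2 x1)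
      · exact absurd h3 (not_lt.2 x2)
      · refine ⟨fun h4 => absurd h4 (d2 h3), fun h4 => ?_⟩
        rcases hq with hq | hq <;> rw [hq] at h4
        · exact absurd ((at_Rs _ _ l).1 h4) (not_le.2 h3)
        · exact d1 (by simpa [Rs] using h4)
      · refine ⟨fun h4 => ?_, fun _ => d1 h3⟩
        rcases hq with hq | hq <;> rw [hq]
        · by_contra h5
          exact d2 (by simpa [Rs, ← le_iff_lt_or_eq] using h5) h4
        · exact Or.inl h3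
    refine ⟨fun q a1 a2 => ?_, fun q a1 a2 => ?_⟩
    · obtain ⟨q', e1, e2⟩ := P.ex_mh q v'
      have hl : P.Lv y0 y1 q' := by unfold Lv; rw [← e1.2]; exact a1
      refine ⟨q', e2, hl, Relation.ReflTransGen.single ⟨Or.inr ⟨e1, fun l h => ?_⟩, hl, ?_⟩⟩
      · unfold R at h
        rw [a2, e2] at h
        exact key l h q a1
      · rw [a2, e2]; exact h1
    · obtain ⟨q', e1, e2⟩ := P.ex_mh q v
      have hl : P.Lv y0 y1 q' := by unfold Lv; rw [← e1.2]; exact a1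
      refine ⟨q', e2, hl, Relation.ReflTransGen.single ⟨Or.inr ⟨e1, fun l h => ?_⟩, hl, ?_⟩⟩
      · unfold R at h
        rw [a2, e2] at h
        exact key l (fun h3 => h h3.symm) q a1
      · rw [a2, e2]; exact h1
  · intro l _
    have e3 : toLex ((Z.x l, false) : Mk) ≤ toLex ((Z.x l, true) : Mk) := by
      rw [Prod.Lex.toLex_le_toLex]; simp
    have key : ∀ q (s t : Bool), P.u q = (Z.x l, s) → ∃ q1 q2, P.MV q q1 ∧ P.Lv y0 y1 q1 ∧
        P.Zm D q1 q2 ∧ P.Lv y0 y1 q2 ∧ P.u q2 = (Z.x l, t) := by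
      intro q s t hq
      obtain ⟨q1, e1, e2⟩ := P.ex_mv q (if l ∈ D then (y0, false) else (y1, true))
      obtain ⟨q2, f1, f2⟩ := P.ex_mh q1 (Z.x l, t)
      have hl : P.Lv y0 y1 q1 := by
        unfold Lv; rw [e2]
        split_ifs
        · exact Or.inl rfl
        · exact Or.inr rfl
      refine ⟨q1, q2, e1, hl, Or.inr ⟨f1, fun m hm => ?_⟩, by unfold Lv; rw [← f1.2]; exact hl, f2⟩
      have : m = l := by
        by_contra h3
        apply hm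
        unfold R
        rw [← e1.2, hq, f2]
        exact rtP_congr rfl (fun h4 => h3 (hZ.1 h4).symm)
      subst this
      rw [e2]
      split_ifs with h3
      · refine ⟨fun _ => ?_, fun _ => h3⟩
        by_contra h5
        exact (hD m).2 (by simpa [Rs, ← le_iff_lt_or_eq] using h5) h3
      · exact ⟨fun h4 => absurd h4 h3, fun h4 => (hD m).1 (by simpa [Rs] using h4)⟩
    refine ⟨fun q _ a2 => ?_, fun q _ a2 => ?_⟩
    · obtain ⟨q1, q2, b1, b2, b3, b4, b5⟩ := key q false true a2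
      exact ⟨q2, b5, b4, (Relation.ReflTransGen.single ⟨Or.inl b1, b2, by rw [b1.2]⟩).tail
        ⟨b3, b4, by rw [← b1.2, a2, b5]; exact e3⟩⟩
    · obtain ⟨q1, q2, b1, b2, b3, b4, b5⟩ := key q true false a2
      exact ⟨q2, b5, b4, (Relation.ReflTransGen.single ⟨Or.inl b1, b2, by rw [b1.2]⟩).tail
        ⟨b3, b4, by rw [← b1.2, a2, b5]; exact e3⟩⟩

/-- A step from `p` to any marker is realised by a monotone zigzag between the two levels
`(y0, false)` and `(y1, true)`. -/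
theorem zigzag (hZ : Z.Gen) (p : Q) {y0 y1 : ℝ} (hD : InB Z.y y0 y1 D) (u' w' : Mk) :
    ∃ (s : ℕ → Q) (n : ℕ), s 0 = p ∧ P.u (s n) = u' ∧ P.w (s n) = w' ∧ P.Step D p (s n) ∧
      (∀ i, 0 < i → i < n → P.w (s i) = (y0, false) ∨ P.w (s i) = (y1, true)) ∧
      (∀ i < n, P.MV (s i) (s (i + 1)) ∨ (P.MH (s i) (s (i + 1)) ∧
        ∀ a, ¬ (a ∈ P.R (s i) ↔ a ∈ P.R (s (i + 1))) → (a ∈ D ↔ a ∈ Rs Z.y (P.w (s i))))) ∧
      (toLex (P.u p) ≤ toLex u' → ∀ i < n, toLex (P.u (s i)) ≤ toLex (P.u (s (i + 1)))) ∧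
      (toLex u' ≤ toLex (P.u p) → ∀ i < n, toLex (P.u (s (i + 1))) ≤ toLex (P.u (s i))) := by
  obtain ⟨p1, a1, a2⟩ := P.ex_mv p (y1, true)
  let r : Q → Q → Prop := fun a a' => P.Zm D a a' ∧ P.Lv y0 y1 a' ∧
    (toLex (P.u p) ≤ toLex u' → toLex (P.u a) ≤ toLex (P.u a')) ∧
    (toLex u' ≤ toLex (P.u p) → toLex (P.u a') ≤ toLex (P.u a))
  obtain ⟨q, b1, b2⟩ : ∃ q, P.u q = u' ∧ Relation.ReflTransGen r p1 q := by
    rcases lt_trichotomy (toLex (P.u p)) (toLex u') with h | h | h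
    · obtain ⟨q, b1, -, b2⟩ := (zig_core (P := P) hZ hD h.le).1 p1 (Or.inr a2) a1.2.symm
      exact ⟨q, b1, Relation.ReflTransGen.mono
        (fun _ _ k => ⟨k.1, k.2.1, fun _ => k.2.2, fun h' => absurd h' (not_le.2 h)⟩) _ _ b2⟩
    · exact ⟨p1, a1.2.symm.trans (toLex.injective h), Relation.ReflTransGen.refl⟩
    · obtain ⟨q, b1, -, b2⟩ := (zig_core (P := P) hZ hD h.le).2 p1 (Or.inr a2) a1.2.symm
      exact ⟨q, b1, Relation.ReflTransGen.mono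
        (fun _ _ k => ⟨k.1, k.2.1, fun h' => absurd h' (not_le.2 h), fun _ => k.2.2⟩) _ _ b2⟩
  obtain ⟨s, n, c0, c1, c2⟩ := seq_of_rtg (Relation.ReflTransGen.head
    (show r p p1 from ⟨Or.inl a1, Or.inr a2, fun _ => by rw [a1.2], fun _ => by rw [a1.2]⟩) b2)
  obtain ⟨q', d1, d2⟩ := P.ex_mv q w'
  let s' : ℕ → Q := fun i => if i ≤ n then s i else q'
  have e1 : ∀ i ≤ n, s' i = s i := fun i hi => if_pos hi
  have e2 : s' (n + 1) = q' := if_neg (Nat.not_succ_le_self n)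
  have key : ∀ i < n + 1, P.Zm D (s' i) (s' (i + 1)) ∧
      (toLex (P.u p) ≤ toLex u' → toLex (P.u (s' i)) ≤ toLex (P.u (s' (i + 1)))) ∧
      (toLex u' ≤ toLex (P.u p) → toLex (P.u (s' (i + 1))) ≤ toLex (P.u (s' i))) := by
    intro i hi
    rcases (Nat.lt_succ_iff.1 hi).lt_or_eq with h | h
    · rw [e1 i h.le, e1 (i + 1) h]
      exact ⟨(c2 i h).1, (c2 i h).2.2⟩
    · subst h
      rw [e1 i le_rfl, e2, c1]
      exact ⟨Or.inl d1, fun _ => by rw [d1.2], fun _ => by rw [d1.2]⟩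
  have hst : ∀ i ≤ n + 1, P.Step D p (s' i) := by
    intro i hi
    induction i with
    | zero => rw [e1 0 (Nat.zero_le _), c0]; exact Zm.step ⟨_, _, hD⟩ (Or.inl ⟨rfl, rfl⟩)
    | succ i ih => exact (ih (Nat.le_of_succ_le hi)).trans (Zm.step ⟨_, _, hD⟩ (key i hi).1)
  refine ⟨s', n + 1, by rw [e1 0 (Nat.zero_le _), c0], by rw [e2, ← d1.2, b1], by rw [e2, d2],
    hst _ le_rfl, fun i h0 hi => ?_, fun i hi => (key i hi).1, fun h i hi => (key i hi).2.1 h,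
    fun h i hi => (key i hi).2.2 h⟩
  obtain ⟨j, rfl⟩ := Nat.exists_eq_succ_of_ne_zero h0.ne'
  rw [e1 _ (Nat.lt_succ_iff.1 hi)]
  exact (c2 j (Nat.lt_of_succ_lt_succ hi)).2.1

theorem step_ex (hZ : Z.Gen) (p : Q) (hD : ∃ y0 y1, InB Z.y y0 y1 D) (u' w' : Mk) :
    ∃ q, P.Step D p q ∧ P.u q = u' ∧ P.w q = w' := by
  obtain ⟨y0, y1, hD⟩ := hD
  obtain ⟨s, n, -, h1, h2, h3, -⟩ := zigzag (P := P) hZ p hD u' w'
  exact ⟨s n, h3, h1, h2⟩

theorem Step.mid (hZ : Z.Gen) (h : P.Step D p q) (u' w' : Mk) :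
    ∃ r, P.Step D p r ∧ P.Step D r q ∧ P.u r = u' ∧ P.w r = w' := by
  obtain ⟨r, h1, h2, h3⟩ := step_ex (P := P) hZ p h.1 u' w'
  exact ⟨r, h1, h1.symm.trans h, h2, h3⟩

theorem step_rch (hZ : Z.Gen) (hp : P.In b p) (hD : InB Z.y b.y0 b.y1 D) {u' w' : Mk}
    (h : b.Mem u'.1 w'.1) : ∃ q, P.Step D p q ∧ P.u q = u' ∧ P.w q = w' ∧ P.Rch b p q := by
  obtain ⟨s, n, h0, h1, h2, h3, h4, h5, h6, h7⟩ := zigzag (P := P) hZ p hD u' w'
  refine ⟨s n, h3, h1, h2, h0 ▸ chain_rch (fun i hi => (h5 i hi).imp id (fun k => k.1))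
    (fun i hi => ?_)⟩
  have hx : b.x0 ≤ (P.u (s i)).1 ∧ (P.u (s i)).1 ≤ b.x1 := by
    rcases le_total (toLex (P.u p)) (toLex u') with k | k
    · have k1 := seq_between (f := fun i => toLex (P.u (s i))) (h6 k) 0 i (Nat.zero_le _) hi
      have k2 := seq_between (f := fun i => toLex (P.u (s i))) (h6 k) i n hi le_rfl
      simp only [h0, h1] at k1 k2
      exact ⟨hp.1.trans (fst_mono k1), (fst_mono k2).trans h.2.1⟩
    · have k1 : toLex (P.u (s i)) ≤ toLex (P.u (s 0)) := seq_between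
        (f := fun i => OrderDual.toDual (toLex (P.u (s i)))) (h7 k) 0 i (Nat.zero_le _) hi
      have k2 : toLex (P.u (s n)) ≤ toLex (P.u (s i)) := seq_between
        (f := fun i => OrderDual.toDual (toLex (P.u (s i)))) (h7 k) i n hi le_rfl
      rw [h0] at k1
      rw [h1] at k2
      exact ⟨h.1.trans (fst_mono k2), (fst_mono k1).trans hp.2.1⟩
  refine ⟨hx.1, hx.2, ?_⟩
  rcases Nat.eq_zero_or_pos i with k | k
  · rw [k, h0]; exact hp.2.2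
  rcases hi.lt_or_eq with k' | k'
  · have := hp.2.2.1.trans hp.2.2.2
    rcases h4 i k k' with e | e <;> rw [e]
    · exact ⟨le_rfl, this⟩
    · exact ⟨this, le_rfl⟩
  · rw [k', h2]; exact h.2.2

theorem rch_of_boxW (hZ : Z.Gen) (hp : P.In b p) {R' : Set L} {ω : WL L C}
    (h : BoxW c Z b (P.R p) R' ω) : ∀ u' w' : Mk, R' = Rs Z.x u' → b.Mem u'.1 w'.1 →
    ∃ q, P.g q = P.g p * ω ∧ P.u q = u' ∧ P.w q = w' ∧ P.Rch b p q := by
  induction h with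
  | refl _ _ =>
    intro u' w' h1 h2
    obtain ⟨q, e1, e2, e3, e4⟩ := step_rch hZ hp ((at_Rs Z.y (P.w p)).inB hp.2.2.1 hp.2.2.2) h2
    refine ⟨q, ?_, e2, e3, e4⟩
    rw [e1.2, h1]
    unfold R
    rw [e2, stp_self]
  | @step R1 R2 D ω h0 _ _ h3 ih =>
    intro u' w' h1 h2
    obtain ⟨u1, f1, f2, f3⟩ := up_eq_Rs Z hZ.1 (hp.1.trans hp.2.1) h0.right.1 h0.right.2
    obtain ⟨q1, e1, e2, e3, e4⟩ := ih u1 w' f1 ⟨f2, f3, h2.2.2⟩
    obtain ⟨q, g1, g2, g3, g4⟩ := step_rch hZ e4.right h3 h2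
    refine ⟨q, ?_, g2, g3, e4.trans g4⟩
    rw [g1.2, e1, h1, f1, mul_assoc]
    unfold R
    rw [e2, g2]

theorem ex_of_box (hZ : Z.Gen) (p : Q) {u' : Mk} {ω : WL L C}
    (h : BoxW c Z b (P.R p) (Rs Z.x u') ω) (w' : Mk) :
    ∃ q, P.g q = P.g p * ω ∧ P.u q = u' ∧ P.w q = w' := by
  let b' := (b.sup (P.pt p)).sup ⟨u'.1, u'.1, w'.1, w'.1⟩
  obtain ⟨q, h1, h2, h3, -⟩ := rch_of_boxW (b := b') hZ
    ((P.in_pt p).mono ((Bx.sub_sup_right _ _).trans (Bx.sub_sup_left _ _)))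
    (h.mono ((Bx.sub_sup_left _ _).trans (Bx.sub_sup_left _ _))) u' w' rfl
    (Bx.Mem.mono (b := ⟨u'.1, u'.1, w'.1, w'.1⟩) ⟨le_rfl, le_rfl, le_rfl, le_rfl⟩
      (Bx.sub_sup_right _ _))
  exact ⟨q, h1, h2, h3⟩

theorem Box.rch (hZ : Z.Gen) (h : P.Box b p q) : P.Rch b p q := by
  obtain ⟨q', h1, h2, h3, h4⟩ := rch_of_boxW hZ h.1 h.2.2 (P.u q) (P.w q) rfl h.2.1
  rwa [P.ext q' q (by rw [h1, mul_inv_cancel_left]) h2 h3] at h4

theorem box_chain (hZ : Z.Gen) (h : P.Box b p q) :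
    ∃ (s : ℕ → Q) (n : ℕ), s 0 = p ∧ s n = q ∧ P.Chain s n ∧
      ∀ i ≤ n, b.Mem (P.u (s i)).1 (P.w (s i)).1 := by
  obtain ⟨s, n, h0, h1, h2⟩ := seq_of_rtg (h.rch hZ).2
  refine ⟨s, n, h0, h1, fun i hi => (h2 i hi).1, fun i hi => ?_⟩
  cases i with
  | zero => rw [h0]; exact h.1
  | succ i => exact (h2 i hi).2

theorem touch_box (hg : ∀ x : C, ∃ n : ℤ, x = c ^ n) (hZ : Z.Gen) {a : L} (ha : a ∈ Z.bl b)
    (x : C) (s t : Bool) :
    BoxW c Z b (Rs Z.x (Z.x a, s)) (Rs Z.x (Z.x a, t)) (emb (lt a x)) := by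
  have hI : ∀ s : Bool, InB Z.x b.x0 b.x1 (Rs Z.x (Z.x a, s)) := fun s =>
    (at_Rs _ _).inB ha.1 ha.2.1
  have hs : ∀ e : Bool, BoxW c Z b (Rs Z.x (Z.x a, false)) (Rs Z.x (Z.x a, true))
      (emb (lt a (if a ∈ Rs Z.y (Z.y a, e) then c else 1))) := fun e => by
    rw [← stp_cross hZ.1]
    exact BoxW.single (Z.up_Rs _) (hI _) (Z.up_Rs _) (hI _) ((at_Rs _ _).inB ha.2.2.1 ha.2.2.2)
  have h1 := hs false
  have h0 := hs true
  rw [if_pos (show a ∈ Rs Z.y (Z.y a, false) from rtP_false _ _)] at h1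
  rw [if_neg (show a ∉ Rs Z.y (Z.y a, true) from not_rtP_true _ _), lt_one, map_one] at h0
  have h2 : ∀ s : Bool, BoxW c Z b (Rs Z.x (Z.x a, false)) (Rs Z.x (Z.x a, s)) 1 := by
    intro s
    cases s
    · exact BoxW.refl (Z.up_Rs _) (hI _)
    · exact h0
  have h3 : BoxW c Z b (Rs Z.x (Z.x a, false)) (Rs Z.x (Z.x a, false)) (emb (lt a c)) := by
    simpa using h1.trans h0.symm
  have h4 : ∀ n : ℤ, BoxW c Z b (Rs Z.x (Z.x a, false)) (Rs Z.x (Z.x a, false))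
      (emb (lt a (c ^ n))) := by
    intro n
    induction n using Int.induction_on with
    | zero => simpa using h2 false
    | succ n ih => rw [zpow_add_one, lt_mul, map_mul]; exact ih.trans h3
    | pred n ih => rw [zpow_sub_one, lt_mul, lt_inv, map_mul, map_inv]; exact ih.trans h3.symm
  obtain ⟨n, rfl⟩ := hg x
  simpa using ((h2 s).symm.trans (h4 n)).trans (h2 t)

theorem touch_ex (hZ : Z.Gen) (hg : ∀ x : C, ∃ n : ℤ, x = c ^ n) {a : L} (hp : (P.u p).1 = Z.x a)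
    (x : C) (t : Bool) (w' : Mk) : ∃ q, P.Touch a x p q ∧ (P.u q).2 = t ∧ P.w q = w' := by
  have h := touch_box (b := ⟨Z.x a, Z.x a, Z.y a, Z.y a⟩) (a := a) hg hZ
    ⟨le_rfl, le_rfl, le_rfl, le_rfl⟩ x (P.u p).2 t
  rw [show ((Z.x a, (P.u p).2) : Mk) = P.u p from Prod.ext hp.symm rfl] at h
  obtain ⟨q, h1, h2, h3⟩ := ex_of_box (P := P) hZ p h w'
  exact ⟨q, ⟨hp, by rw [h2], h1⟩, by rw [h2], h3⟩

theorem Touch.box (hZ : Z.Gen) (hg : ∀ x : C, ∃ n : ℤ, x = c ^ n) {a : L} {x : C}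
    (h : P.Touch a x p q) (ha : a ∈ Z.bl b) (hp : P.In b p) (hq : P.In b q) : P.Box b p q := by
  refine ⟨hp, hq, ?_⟩
  have h1 := touch_box hg hZ ha x (P.u p).2 (P.u q).2
  rw [show ((Z.x a, (P.u p).2) : Mk) = P.u p from Prod.ext h.1.symm rfl,
    show ((Z.x a, (P.u q).2) : Mk) = P.u q from Prod.ext h.2.1.symm rfl] at h1
  rw [h.2.2, inv_mul_cancel_left]
  exact h1

/-- A touch between points at the level of the touched label has no vertical length. -/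
theorem Touch.dh (hZ : Z.Gen) (_hc : c ≠ 1) (hg : ∀ x : C, ∃ n : ℤ, x = c ^ n) {a : L} {x : C}
    (h : P.Touch a x p q) (hp : (P.w p).1 = Z.y a) (hq : (P.w q).1 = Z.y a) : P.dh p q = 0 := by
  have h1 := (h.box (b := ⟨Z.x a, Z.x a, Z.y a, Z.y a⟩) hZ hg ⟨le_rfl, le_rfl, le_rfl, le_rfl⟩
    ⟨h.1.ge, h.1.le, hp.ge, hp.le⟩ ⟨h.2.1.ge, h.2.1.le, hq.ge, hq.le⟩).tr
  have h2 := h1.dv_eq (S := {a}) (fun l hl => by
    simpa using hZ.2 (le_antisymm hl.2.1 hl.1))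
  change P.tr.dv p q = 0
  rw [h2, dT_eq_zero]
  refine ⟨hq.trans hp.symm, fun l hl => ?_⟩
  have : l = a := by simpa using sup_mul (sup_inv (sup_pj {a} _)) (sup_pj {a} _) l hl
  rw [this]; exact hp.symm

theorem hor (P : Plan c Z Q) (_hc : c ≠ 1) (q : Q) (T : ℝ) (hT : 0 ≤ T) :
    ∃ qm qp, P.dh q qm = 0 ∧ P.dh q qp = 0 ∧ P.dv q qm = T ∧ P.dv q qp = T ∧
      P.dv qm qp = 2 * T := by
  obtain ⟨qm, a1, a2⟩ := P.ex_mh q ((P.u q).1 - T, false)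
  obtain ⟨qp, b1, b2⟩ := P.ex_mh q ((P.u q).1 + T, false)
  refine ⟨qm, qp, P.dh_mh a1, P.dh_mh b1, ?_, ?_, ?_⟩
  · rw [P.dv_mh a1, a2]; simpa using hT
  · rw [P.dv_mh b1, b2]; simpa using hT
  · rw [P.dv_mh (a1.symm.trans b1), a2, b2, abs_of_nonneg (by simp only; linarith)]
    simp only; ring

theorem cusp_at (P : Plan c Z Q) (_hc : c ≠ 1) (q : Q) (a : L) :
    ∃ r, P.Cusp a r ∧ P.dv q r = |Z.x a - (P.u q).1| ∧ P.dh q r = |Z.y a - (P.w q).1| := by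
  obtain ⟨q1, a1, a2⟩ := P.ex_mh q (Z.x a, false)
  obtain ⟨r, b1, b2⟩ := P.ex_mv q1 (Z.y a, false)
  refine ⟨r, ⟨b1.2.symm.trans a2, b2⟩, ?_, ?_⟩
  · rw [P.pv.symm, ← congr_HypBi P.pv (P.dv_mv b1), P.pv.symm, P.dv_mh a1, a2]
  · rw [congr_HypBi P.ph (P.dh_mh a1), P.dh_mv b1, b2, a1.2]

end Plan

end Pool.Agent.E5f
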