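import Pool.Agent.E5f.MoPres
import Pool.Agent.E5f.MoZig

/-!
The action of the figure-eight group on a planar model of the base.
-/

set_option autoImplicit false

namespace Pool.Agent.E5f

open Filter Classical SemidirectProduct

namespace Act

theorem xi_eq (p : Zl) : E0.ξ p = p.re + p.im * Real.goldenRatio :=
  embR_apply _ (by rw [← sq, Real.goldenRatio_sq]) p

theorem eta_eq (p : Zl) : E0.η p = p.re + p.im * Real.goldenConj :=
  embR_apply _ (by rw [← sq, Real.goldenConj_sq]) p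

/-- The base configuration is a grid. -/
noncomputable def G0 : Grid E0.bc 1 where
  e := ⟨fun p => (0, p.re, p.im), fun t => ⟨t.2.1, t.2.2⟩, fun _ => rfl,
    fun t => Prod.ext (Subsingleton.elim _ _) rfl⟩
  ox := fun _ => 0
  oy := fun _ => 0
  hx := fun l => by simp [xi_eq, mul_comm]
  hy := fun l => by simp [eta_eq, mul_comm]
  ox0 := fun _ => le_rfl
  ox1 := fun _ => Real.goldenRatio_pos
  inj := E0.ξ_inj

theorem tv_eq (v : ℤ × ℤ) (p : Zl) : G0.tv v p = p + ⟨v.1, v.2⟩ := by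
  ext <;> simp [Grid.tv, G0]

theorem p1_eq (p : Zl) : G0.p1 p = p.re := rfl

/-- Multiplication by the square of the golden unit. -/
noncomputable def tau : Equiv.Perm Zl := Units.mulLeft (E0.uω ^ (2 * (1 : ℤ)))

theorem tau_eq (p : Zl) : tau p = ⟨p.re + p.im, p.re + 2 * p.im⟩ := by
  have : tau p = E0.ω * E0.ω * p := by
    show ((E0.uω ^ (2 * (1 : ℤ)) : Zlˣ) : Zl) * p = _
    rw [mul_one, zpow_ofNat, sq]
    rfl
  rw [this]
  ext
  · simp [E0]
  · simp [E0]; ring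

/-- The cut at a real number. -/
abbrev Rr (s : ℝ) : Set Zl := Rs E0.bc.x (s, false)

theorem mem_Rr (s : ℝ) (p : Zl) : p ∈ Rr s ↔ s ≤ p.re + p.im * Real.goldenRatio := by
  simp only [Rs, Set.mem_ofPred_eq, and_true, Emb.bc_x, xi_eq]
  exact le_iff_lt_or_eq.symm

theorem cross {s t : ℝ} (h : s ≤ t) {p : Zl} (hp : ¬ (p ∈ Rr s ↔ p ∈ Rr t)) :
    s ≤ p.re + p.im * Real.goldenRatio ∧ p.re + p.im * Real.goldenRatio < t := by
  rw [mem_Rr, mem_Rr] at hp
  by_contra k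
  rcases not_and_or.1 k with k | k
  · exact hp (iff_of_false k (fun k' => k (h.trans k')))
  · exact hp (iff_of_true (h.trans (not_lt.1 k)) (not_lt.1 k))

/-- Affine elements whose word is a box word. -/
def Good (z : Big Zl CZ) (k : ℤ) : Prop :=
  (∀ p, z.right p = ((E0.uω ^ (2 * k) : Zlˣ) : Zl) * p + z.right 0) ∧
    ∃ b, BoxW cz E0.bc b (Rr 0) (z.right '' Rr 0) z.left

theorem gpos (k : ℤ) : (0 : ℝ) < (Real.goldenRatio ^ 2) ^ k :=
  zpow_pos (pow_pos Real.goldenRatio_pos 2) k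

section aff
variable {σ : Equiv.Perm Zl} {k : ℤ}
  (h : ∀ p, σ p = ((E0.uω ^ (2 * k) : Zlˣ) : Zl) * p + σ 0)
include h

theorem aff_x (p : Zl) :
    E0.bc.x (σ p) = (Real.goldenRatio ^ 2) ^ k * E0.bc.x p + E0.ξ (σ 0) := by
  rw [h p, Emb.bc_x, map_add, map_mul, E0.ξ_uω2]

theorem aff_y (p : Zl) :
    E0.bc.y (σ p) = (Real.goldenRatio ^ 2) ^ (-k) * E0.bc.y p + E0.η (σ 0) := by
  rw [h p, Emb.bc_y, map_add, map_mul, E0.η_uω2]

theorem aff_X (a b : Zl) : E0.bc.X a < E0.bc.X b ↔ E0.bc.X (σ a) < E0.bc.X (σ b) := by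
  rw [E0.bc.X_iff E0.ξ_inj, E0.bc.X_iff E0.ξ_inj, aff_x h, aff_x h, add_lt_add_iff_right,
    mul_lt_mul_iff_right₀ (gpos k)]

theorem aff_box {b : Bx} {R R' : Set Zl} {ω : WL Zl CZ} (hb : BoxW cz E0.bc b R R' ω) :
    ∃ b', BoxW cz E0.bc b' (σ '' R) (σ '' R') (rlA σ ω) :=
  ⟨_, hb.aff σ (gpos k) (gpos (-k)) (aff_X h) (aff_x h) (aff_y h)⟩

theorem aff_inv (p : Zl) : σ⁻¹ p = ((E0.uω ^ (2 * (-k)) : Zlˣ) : Zl) * p + σ⁻¹ 0 := by
  have h1 := h (σ⁻¹ p)
  have h2 := h (σ⁻¹ 0)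
  rw [Equiv.Perm.coe_inv, Equiv.apply_symm_apply] at h1 h2
  have h3 : ((E0.uω ^ (2 * (-k)) : Zlˣ) : Zl) * ((E0.uω ^ (2 * k) : Zlˣ) : Zl) = 1 := by
    rw [← Units.val_mul, ← zpow_add]; simp
  rw [Equiv.Perm.coe_inv]
  linear_combination (-((E0.uω ^ (2 * (-k)) : Zlˣ) : Zl)) * (h1 - h2) -
    (σ.symm p - σ.symm 0) * h3

end aff

theorem Good.one : Good 1 0 :=
  ⟨fun p => by simp, ⟨0, 0, 0, 0⟩, by
    simpa [Rr] using BoxW.refl (E0.bc.up_Rs _) ((at_Rs E0.bc.x (0, false)).inB le_rfl le_rfl)⟩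

theorem Good.mul {z z' : Big Zl CZ} {k k' : ℤ} (h : Good z k) (h' : Good z' k') :
    Good (z * z') (k + k') := by
  obtain ⟨h1, b, h2⟩ := h
  obtain ⟨h3, b', h4⟩ := h'
  obtain ⟨b'', h5⟩ := aff_box h1 h4
  refine ⟨fun p => ?_, b.sup b'', ?_⟩
  · rw [mul_right, Equiv.Perm.mul_apply, Equiv.Perm.mul_apply, h1, h1 (z'.right 0), h3 p,
      mul_add 2, zpow_add, Units.val_mul]
    ring
  · rw [mul_left, mul_right, Equiv.Perm.coe_mul, Set.image_comp]
    exact (h2.mono (Bx.sub_sup_left _ _)).trans (h5.mono (Bx.sub_sup_right _ _))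

theorem Good.inv {z : Big Zl CZ} {k : ℤ} (h : Good z k) : Good z⁻¹ (-k) := by
  obtain ⟨h1, b, h2⟩ := h
  obtain ⟨b', h3⟩ := aff_box (aff_inv h1) h2.symm
  rw [← Set.image_comp, ← Equiv.Perm.coe_mul, inv_mul_cancel, Equiv.Perm.coe_one,
    Set.image_id] at h3
  exact ⟨aff_inv h1, b', h3⟩

theorem good_gam {z : Big Zl CZ} (h : z ∈ G0.Gam cz) : Good z 0 := by
  obtain ⟨v, b, h1, h2⟩ := h
  exact ⟨fun p => by simp [h1, tv_eq], b, h1 ▸ h2⟩

theorem tau_aff (p : Zl) : tau p = ((E0.uω ^ (2 * (1 : ℤ)) : Zlˣ) : Zl) * p + tau 0 := by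
  simp [tau]

theorem tau_zero : tau 0 = 0 := by simp [tau]

theorem tau_R (s : ℝ) : tau '' Rr s = Rr ((Real.goldenRatio + 1) * s) := by
  rw [Rs_image tau (gpos 1) (aff_x tau_aff), tau_zero, map_zero, add_zero, zpow_one,
    Real.goldenRatio_sq]

theorem good_t : Good (inr tau) 1 :=
  ⟨tau_aff, ⟨0, 0, 0, 0⟩, by
    rw [right_inr, tau_R, mul_zero]
    exact BoxW.refl (E0.bc.up_Rs _) ((at_Rs E0.bc.x (0, false)).inB le_rfl le_rfl)⟩

theorem mem_tau_A (r : ℤ) (p : Zl) : p ∈ tau '' G0.Ar r ↔ r ≤ 2 * p.re - p.im := by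
  obtain ⟨p, rfl⟩ := tau.surjective p
  rw [tau.injective.mem_set_image, tau_eq]
  show r ≤ p.re ↔ r ≤ 2 * (p.re + p.im) - (p.re + 2 * p.im)
  omega

theorem mem_A (r : ℤ) (p : Zl) : p ∈ G0.Ar r ↔ r ≤ p.re := Iff.rfl

/-- A step between two cuts. -/
noncomputable abbrev st (s t : ℝ) (D : Set Zl) : WL Zl CZ := stp cz E0.bc.X (Rr s) (Rr t) D

theorem rl_st (v : ℤ × ℤ) (s t : ℝ) (r : ℤ) : rlA (G0.tv v) (st s t (G0.Ar r)) =
    st (s + (v.1 + Real.goldenRatio * v.2)) (t + (v.1 + Real.goldenRatio * v.2))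
      (G0.Ar (r + v.1)) := by
  rw [rlA_stp cz _ (G0.X_tv v), Rs_image _ one_pos (G0.x_tv v), Rs_image _ one_pos (G0.x_tv v),
    one_mul, one_mul]
  congr 1
  ext p
  obtain ⟨p, rfl⟩ := (G0.tv v).surjective p
  rw [(G0.tv v).injective.mem_set_image]
  simp [Grid.Ar]

theorem pa_eq : G0.pa cz = ⟨st 0 1 (G0.Ar 1), G0.tv (1, 0)⟩ := rfl

theorem pb_eq : G0.pb cz = ⟨st 0 Real.goldenRatio (G0.Ar 0), G0.tv (0, 1)⟩ := rfl

theorem ab_eq : G0.pa cz * G0.pb cz = ⟨st 0 (Real.goldenRatio + 1) (G0.Ar 1), G0.tv (1, 1)⟩ := by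
  refine SemidirectProduct.ext ?_ (G0.tv_add (1, 0) (0, 1)).symm
  rw [mul_left, pa_eq, pb_eq]
  simp only [rl_st, Int.cast_one, Int.cast_zero, mul_zero, add_zero, zero_add, stp_mul]

theorem ba_eq : G0.pb cz * G0.pa cz = ⟨st 0 Real.goldenRatio (G0.Ar 0) *
    st Real.goldenRatio (Real.goldenRatio + 1) (G0.Ar 1), G0.tv (1, 1)⟩ := by
  refine SemidirectProduct.ext ?_ (G0.tv_add (0, 1) (1, 0)).symm
  rw [mul_left, pa_eq, pb_eq]
  simp only [rl_st, Int.cast_one, Int.cast_zero, mul_one, add_zero, zero_add,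
    add_comm (1 : ℝ) Real.goldenRatio]

theorem conj_t (k : WL Zl CZ) (v : ℤ × ℤ) : (inr tau * ⟨k, G0.tv v⟩ * (inr tau)⁻¹ : Big Zl CZ) =
    ⟨rlA tau k, G0.tv (v.1 + v.2, v.1 + 2 * v.2)⟩ := by
  refine SemidirectProduct.ext ?_ ?_
  · rw [← map_inv inr, mul_left, mul_left]
    simp only [left_inr, right_inr, one_mul, map_one, mul_one]
  · rw [← map_inv inr, mul_right, mul_right, right_inr, right_inr, mul_inv_eq_iff_eq_mul]
    ext p <;> simp [tv_eq, tau_eq] <;> ring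

theorem int_le {x : ℤ} {n : ℤ} (h : (x : ℝ) < n + 1) : x ≤ n := by
  have : x < n + 1 := by exact_mod_cast h
  omega

theorem int_ge {x : ℤ} {n : ℤ} (h : (n : ℝ) - 1 < x) : n ≤ x := by
  have : n - 1 < x := by exact_mod_cast h
  omega

theorem rel_a : (inr tau * G0.pa cz * (inr tau)⁻¹ : Big Zl CZ) = G0.pa cz * G0.pb cz := by
  have hg := Real.goldenRatio_pos
  rw [ab_eq, pa_eq, conj_t, rlA_stp cz _ (aff_X tau_aff), tau_R, tau_R, mul_zero, mul_one,
    stp_congr cz (E0.bc.up_Rs _) (E0.bc.up_Rs _) (D' := G0.Ar 1)]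
  · rfl
  · intro p hp
    obtain ⟨h1, h2⟩ := cross (by linarith) hp
    rw [mem_tau_A, mem_A]
    by_cases h : 1 ≤ p.re
    · have h3 : (1 : ℝ) ≤ p.re := by exact_mod_cast h
      have : p.im ≤ 0 := int_le (by push_cast; nlinarith)
      omega
    · have h3 : (p.re : ℝ) ≤ 0 := by exact_mod_cast (show p.re ≤ 0 by omega)
      have : 0 ≤ p.im := int_ge (by push_cast; nlinarith)
      omega

theorem rel_b :
    (inr tau * G0.pb cz * (inr tau)⁻¹ : Big Zl CZ) = G0.pb cz * G0.pa cz * G0.pb cz := by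
  have hg := Real.goldenRatio_pos
  have e : (Real.goldenRatio + 1) * Real.goldenRatio =
      Real.goldenRatio + (1 + Real.goldenRatio) := by linear_combination Real.goldenRatio_sq
  rw [ba_eq, pb_eq, conj_t, rlA_stp cz _ (aff_X tau_aff), tau_R, tau_R, mul_zero, e]
  refine SemidirectProduct.ext ?_ (G0.tv_add (1, 1) (0, 1))
  rw [mul_left]
  simp only [rl_st, Int.cast_one, mul_one, zero_add, add_comm (1 : ℝ) Real.goldenRatio]
  rw [mul_assoc, stp_mul, ← stp_mul cz _ _ (Rr Real.goldenRatio)]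
  congr 1
  · refine stp_congr cz (E0.bc.up_Rs _) (E0.bc.up_Rs _) fun p hp => ?_
    obtain ⟨h1, h2⟩ := cross hg.le hp
    rw [mem_tau_A, mem_A]
    by_cases h : 0 ≤ p.re
    · have h3 : (0 : ℝ) ≤ p.re := by exact_mod_cast h
      have : p.im ≤ 0 := int_le (by push_cast; nlinarith)
      omega
    · have h3 : (p.re : ℝ) ≤ -1 := by exact_mod_cast (show p.re ≤ -1 by omega)
      have : 0 ≤ p.im := int_ge (by push_cast; nlinarith)
      omega
  · refine stp_congr cz (E0.bc.up_Rs _) (E0.bc.up_Rs _) fun p hp => ?_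
    obtain ⟨h1, h2⟩ := cross (by linarith) hp
    rw [mem_tau_A, mem_A]
    by_cases h : 1 ≤ p.re
    · have h3 : (1 : ℝ) ≤ p.re := by exact_mod_cast h
      have : p.im ≤ 1 := int_le (by push_cast; nlinarith)
      omega
    · have h3 : (p.re : ℝ) ≤ 0 := by exact_mod_cast (show p.re ≤ 0 by omega)
      have : 1 ≤ p.im := int_ge (by push_cast; nlinarith)
      omega

theorem comm_eq : G0.pa cz * G0.pb cz * (G0.pa cz)⁻¹ * (G0.pb cz)⁻¹ = inl (emb (lt 0 cz⁻¹)) := by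
  have hg := Real.goldenRatio_pos
  have h0 : ∀ D, stp cz E0.bc.X (Rr 0) (Rs E0.bc.x (0, true)) D =
      emb (lt 0 (if (0 : Zl) ∈ D then cz else 1)) := fun D => by
    simpa [Rr] using stp_cross (Z := E0.bc) E0.ξ_inj cz 0 D
  have h1 : st 0 Real.goldenRatio (G0.Ar 0) = emb (lt 0 cz) * st 0 Real.goldenRatio (G0.Ar 1) := by
    unfold st
    rw [← stp_mul cz _ _ (Rs E0.bc.x (0, true)) _ (G0.Ar 0),
      ← stp_mul cz _ _ (Rs E0.bc.x (0, true)) _ (G0.Ar 1), h0, h0,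
      if_pos (by simp [mem_A]), if_neg (by simp [mem_A]), lt_one, map_one, one_mul]
    congr 1
    refine stp_congr cz (E0.bc.up_Rs _) (E0.bc.up_Rs _) fun p hp => ?_
    have h2 : p.re ≠ 0 := fun h => hp (by
      simp only [Rs, Set.mem_ofPred_eq, Emb.bc_x, xi_eq, h]
      by_cases k : 1 ≤ p.im
      · have k1 : (1 : ℝ) ≤ p.im := by exact_mod_cast k
        refine iff_of_true (Or.inl (by push_cast; nlinarith)) ?_
        rcases eq_or_lt_of_le k1 with k2 | k2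
        · exact Or.inr ⟨by rw [← k2]; simp, trivial⟩
        · exact Or.inl (by push_cast; nlinarith)
      · have k1 : (p.im : ℝ) ≤ 0 := by exact_mod_cast (show p.im ≤ 0 by omega)
        refine iff_of_false ?_ ?_
        · rintro (k2 | k2)
          · push_cast at k2; nlinarith
          · simp at k2
        · rintro (k2 | k2)
          · push_cast at k2; nlinarith
          · have := k2.1; push_cast at this; nlinarith)
    rw [mem_A, mem_A]
    omega
  rw [mul_assoc, ← mul_inv_rev, ab_eq, ba_eq, mul_inv_eq_iff_eq_mul, h1, mul_assoc, stp_mul]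
  refine SemidirectProduct.ext ?_ ?_
  · rw [mul_left, left_inl, right_inl, map_one, MulAut.one_apply, lt_inv, map_inv,
      inv_mul_cancel_left]
  · rw [mul_right, right_inl, one_mul]

/-- The representation of the figure-eight group. -/
noncomputable def rho : G8 →* Big Zl CZ :=
  PresentedGroup.toGroup (f := ![G0.pa cz, G0.pb cz, inr tau]) (by
    rintro r (rfl | rfl)
    · simpa [mul_inv_eq_one, -mul_inv_rev] using rel_a
    · simpa [mul_inv_eq_one, -mul_inv_rev] using rel_b)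

theorem rho_a : rho g8a = G0.pa cz := PresentedGroup.toGroup.of _
theorem rho_b : rho g8b = G0.pb cz := PresentedGroup.toGroup.of _
theorem rho_t : rho g8t = inr tau := PresentedGroup.toGroup.of _

theorem deg_one : g8deg 1 = 0 := by simp [g8deg]
theorem deg_mul (γ δ : G8) : g8deg (γ * δ) = g8deg γ + g8deg δ := by simp [g8deg]
theorem deg_inv (γ : G8) : g8deg γ⁻¹ = -g8deg γ := by simp [g8deg]
theorem deg_a : g8degHom g8a = 1 := PresentedGroup.toGroup.of _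
theorem deg_b : g8degHom g8b = 1 := PresentedGroup.toGroup.of _
theorem deg_t : g8degHom g8t = Multiplicative.ofAdd 1 := PresentedGroup.toGroup.of _

theorem g8_rel_a : g8t * g8a * g8t⁻¹ = g8a * g8b := by
  have := PresentedGroup.one_of_mem (rels := rel8) (Or.inl rfl)
  simp only [map_mul, map_inv] at this
  exact mul_inv_eq_one.1 this

theorem g8_rel_b : g8t * g8b * g8t⁻¹ = g8b * g8a * g8b := by
  have := PresentedGroup.one_of_mem (rels := rel8) (Or.inr rfl)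
  simp only [map_mul, map_inv] at this
  exact mul_inv_eq_one.1 this

theorem oc_eq : oc 0 (0 : Fin 1) = oa 1 0 * ob 1 0 * (oa 1 0)⁻¹ * (ob 1 0)⁻¹ := by
  have := og_rel (n := 1) (m := 0)
  simp only [List.ofFn_succ, List.ofFn_zero, List.prod_cons, List.prod_nil, mul_one] at this
  calc _ = (oc 0 (0 : Fin 1) * ob 1 0 * oa 1 0 * (ob 1 0)⁻¹ * (oa 1 0)⁻¹) *
      (oa 1 0 * ob 1 0 * (oa 1 0)⁻¹ * (ob 1 0)⁻¹) := by group
    _ = _ := by rw [this, one_mul]

theorem og_ext {H : Type} [Group H] {f f' : OG 1 0 →* H} (ha : f (oa 1 0) = f' (oa 1 0))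
    (hb : f (ob 1 0) = f' (ob 1 0)) : f = f' := by
  refine PresentedGroup.ext fun j => ?_
  rcases j with j | i
  · fin_cases j
    · exact ha
    · exact hb
  · rw [Subsingleton.elim i 0]
    show f (oc 0 0) = f' (oc 0 0)
    simp only [oc_eq, map_mul, map_inv, ha, hb]

/-- The fibre group in the figure-eight group. -/
def jo : OG 1 0 →* G8 :=
  PresentedGroup.toGroup (f := Sum.elim ![g8a, g8b] (fun _ => g8c)) (by
    rintro r (⟨i, rfl⟩ | rfl)
    · simp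
    · simp [g8c])

theorem jo_a : jo (oa 1 0) = g8a := PresentedGroup.toGroup.of _
theorem jo_b : jo (ob 1 0) = g8b := PresentedGroup.toGroup.of _

theorem deg_jo (o : OG 1 0) : g8deg (jo o) = 0 := by
  have : g8degHom.comp jo = 1 := og_ext (by simp [jo_a, deg_a]) (by simp [jo_b, deg_b])
  exact congrArg Multiplicative.toAdd (DFunLike.congr_fun this o)

theorem g8_ind {p : G8 → Prop} (h1 : p 1)
    (h : ∀ g, g = g8a ∨ g = g8b ∨ g = g8t → ∀ γ, p γ → p (g * γ) ∧ p (g⁻¹ * γ)) (γ : G8) :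
    p γ := by
  have ho : γ ∈ Subgroup.closure (Set.range (PresentedGroup.of : _ → G8)) := by
    rw [PresentedGroup.closure_range_of]; trivial
  have key : ∀ j : Fin 3, (PresentedGroup.of j : G8) = g8a ∨ (PresentedGroup.of j : G8) = g8b ∨
      (PresentedGroup.of j : G8) = g8t := fun j => by
    fin_cases j
    exacts [Or.inl rfl, Or.inr (Or.inl rfl), Or.inr (Or.inr rfl)]
  refine Subgroup.closure_induction_left (p := fun γ _ => p γ) h1 ?_ ?_ ho
  · rintro _ ⟨j, rfl⟩ y _ hy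
    exact (h _ (key j) y hy).1
  · rintro _ ⟨j, rfl⟩ y _ hy
    exact (h _ (key j) y hy).2

theorem jo_conj (g : G8) (ha : g * g8a * g⁻¹ ∈ jo.range) (hb : g * g8b * g⁻¹ ∈ jo.range)
    (o : OG 1 0) : g * jo o * g⁻¹ ∈ jo.range := by
  have ho : o ∈ Subgroup.closure (Set.range (PresentedGroup.of : _ → OG 1 0)) := by
    rw [PresentedGroup.closure_range_of]; trivial
  refine (Subgroup.closure_le
    (jo.range.comap ((MulAut.conj g).toMonoidHom.comp jo))).2 ?_ ho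
  have ha' : oa 1 0 ∈ jo.range.comap ((MulAut.conj g).toMonoidHom.comp jo) := by
    simpa [jo_a] using ha
  have hb' : ob 1 0 ∈ jo.range.comap ((MulAut.conj g).toMonoidHom.comp jo) := by
    simpa [jo_b] using hb
  rintro _ ⟨j, rfl⟩
  rcases j with j | i
  · fin_cases j
    · exact ha'
    · exact hb'
  · rw [Subsingleton.elim i 0]
    show oc 0 0 ∈ _
    rw [oc_eq]
    exact Subgroup.mul_mem _ (Subgroup.mul_mem _ (Subgroup.mul_mem _ ha' hb')
      (Subgroup.inv_mem _ ha')) (Subgroup.inv_mem _ hb')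

theorem g8_nf (γ : G8) : ∃ x ∈ jo.range, ∃ k : ℤ, γ = x * g8t ^ k := by
  have ha : g8a ∈ jo.range := ⟨_, jo_a⟩
  have hb : g8b ∈ jo.range := ⟨_, jo_b⟩
  have hb' : g8t⁻¹ * g8b * g8t⁻¹⁻¹ = g8b * g8a⁻¹ := by
    calc _ = g8t⁻¹ * ((g8b * g8a * g8b) * (g8a * g8b)⁻¹) * g8t := by group
      _ = _ := by rw [← g8_rel_b, ← g8_rel_a]; group
  have ha' : g8t⁻¹ * g8a * g8t⁻¹⁻¹ = g8a * g8a * g8b⁻¹ := by
    calc _ = g8t⁻¹ * ((g8a * g8b) * (g8a * g8b) * (g8b * g8a * g8b)⁻¹) * g8t := by group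
      _ = _ := by rw [← g8_rel_b, ← g8_rel_a]; group
  induction γ using g8_ind with
  | h1 => exact ⟨1, Subgroup.one_mem _, 0, by simp⟩
  | h g hg γ ih =>
    obtain ⟨x, hx, k, rfl⟩ := ih
    rcases hg with rfl | rfl | rfl
    · exact ⟨⟨_, Subgroup.mul_mem _ ha hx, k, by group⟩,
        ⟨_, Subgroup.mul_mem _ (Subgroup.inv_mem _ ha) hx, k, by group⟩⟩
    · exact ⟨⟨_, Subgroup.mul_mem _ hb hx, k, by group⟩,
        ⟨_, Subgroup.mul_mem _ (Subgroup.inv_mem _ hb) hx, k, by group⟩⟩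
    · obtain ⟨o, rfl⟩ := hx
      refine ⟨⟨_, jo_conj g8t ?_ ?_ o, k + 1, by group⟩, ⟨_, jo_conj g8t⁻¹ ?_ ?_ o, k - 1, by group⟩⟩
      · rw [g8_rel_a]; exact Subgroup.mul_mem _ ha hb
      · rw [g8_rel_b]; exact Subgroup.mul_mem _ (Subgroup.mul_mem _ hb ha) hb
      · rw [ha']; exact Subgroup.mul_mem _ (Subgroup.mul_mem _ ha ha) (Subgroup.inv_mem _ hb)
      · rw [hb']; exact Subgroup.mul_mem _ hb (Subgroup.inv_mem _ ha)

theorem ker_deg {γ : G8} (h : g8deg γ = 0) : ∃ o, jo o = γ := by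
  obtain ⟨_, ⟨o, rfl⟩, k, rfl⟩ := g8_nf γ
  have : g8deg (g8t ^ k) = k := by simp [g8deg, deg_t]
  rw [deg_mul, deg_jo, this, zero_add] at h
  exact ⟨o, by simp [h]⟩

theorem cz_gen0 (x : CZ) : ∃ k : ℤ, x = cz ^ k := ⟨x.toAdd, by simp [cz, ← ofAdd_zsmul]⟩

theorem pres0 : Function.Injective (rho.comp jo) ∧ Set.range (rho.comp jo) = G0.Gam cz := by
  obtain ⟨ψ, h1, h2, h3, h4⟩ := G0.pres one_pos cz 0 (pow_zero _) cz_gen0 cz_lift
  rw [og_ext (f := rho.comp jo) (f' := ψ) (by rw [MonoidHom.comp_apply, jo_a, rho_a]; exact h2.symm)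
    (by rw [MonoidHom.comp_apply, jo_b, rho_b]; exact h3.symm)]
  exact ⟨h1, h4⟩

theorem good_jo (o : OG 1 0) : Good (rho (jo o)) 0 := good_gam (pres0.2 ▸ ⟨o, rfl⟩)

theorem good_rho (γ : G8) : Good (rho γ) (g8deg γ) := by
  induction γ using g8_ind with
  | h1 => rw [map_one, deg_one]; exact Good.one
  | h g hg γ ih =>
    have : Good (rho g) (g8deg g) := by
      rcases hg with rfl | rfl | rfl
      · rw [← jo_a, deg_jo]; exact good_jo _
      · rw [← jo_b, deg_jo]; exact good_jo _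
      · rw [rho_t, g8deg, deg_t]; exact good_t
    rw [map_mul, map_mul, map_inv, deg_mul, deg_mul, deg_inv]
    exact ⟨this.mul ih, this.inv.mul ih⟩

section
variable {Q : Type} (B : Plan cz E0.bc Q) (P0 : Q) (h0 : B.g P0 = 1) (h1 : B.Cusp 0 P0)
include h0 h1

theorem box0 (q : Q) : ∃ b, BoxW cz E0.bc b (Rr 0) (B.R q) (B.g q) := by
  obtain ⟨b, -, -, h⟩ := B.box_ex P0 q
  rw [h0, inv_one, one_mul, Plan.R, h1.1, Emb.bc_x, map_zero] at h
  exact ⟨b, h⟩

theorem ex0 {u : Mk} {b : Bx} {ω : WL Zl CZ} (h : BoxW cz E0.bc b (Rr 0) (Rs E0.bc.x u) ω)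
    (w : Mk) : ∃ q, B.g q = ω ∧ B.u q = u ∧ B.w q = w := by
  have e : B.R P0 = Rr 0 := by rw [Plan.R, h1.1, Emb.bc_x, map_zero]; rfl
  obtain ⟨q, k1, k2⟩ := Plan.ex_of_box (P := B) ⟨E0.ξ_inj, E0.η_inj⟩ P0 (e ▸ h) w
  exact ⟨q, by rw [k1, h0, one_mul], k2⟩

theorem act_ex (γ : G8) (q : Q) : ∃ q', B.g q' = (rho γ).left * rlA (rho γ).right (B.g q) ∧
    B.u q' = ((Real.goldenRatio ^ 2) ^ (g8deg γ) * (B.u q).1 + E0.ξ ((rho γ).right 0),
      (B.u q).2) ∧
    B.w q' = ((Real.goldenRatio ^ 2) ^ (-g8deg γ) * (B.w q).1 + E0.η ((rho γ).right 0),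
      (B.w q).2) := by
  obtain ⟨k1, b, k2⟩ := good_rho γ
  obtain ⟨b', k3⟩ := box0 B P0 h0 h1 q
  obtain ⟨b'', k4⟩ := aff_box k1 k3
  have k5 := (k2.mono (Bx.sub_sup_left _ _)).trans (k4.mono (Bx.sub_sup_right _ _))
  rw [Plan.R, Rs_image _ (gpos _) (aff_x k1)] at k5
  exact ex0 B P0 h0 h1 k5 _

end

end Act

open Act in
theorem bact_ex {Q : Type} (B : Plan cz E0.bc Q) (P0 : Q) (h0 : B.g P0 = 1) (h1 : B.Cusp 0 P0) :
    ∃ inst : MulAction G8 Q, Nonempty (@BAct Q inst B P0) := by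
  choose f f1 f2 f3 using act_ex B P0 h0 h1
  have one : ∀ q, f 1 q = q := fun q =>
    B.ext _ _ (by rw [f1]; simp) (by rw [f2]; simp [deg_one]) (by rw [f3]; simp [deg_one])
  have mul : ∀ γ δ q, f (γ * δ) q = f γ (f δ q) := by
    intro γ δ q
    have hp : (Real.goldenRatio ^ 2 : ℝ) ≠ 0 := (pow_pos Real.goldenRatio_pos 2).ne'
    refine B.ext _ _ ?_ ?_ ?_
    · rw [f1, f1, f1, map_mul, mul_left, mul_right, map_mul, map_mul, MulAut.mul_apply, mul_assoc]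
    · rw [f2, f2, f2, map_mul, mul_right, Equiv.Perm.mul_apply, deg_mul, zpow_add₀ hp]
      have := aff_x (good_rho γ).1 ((rho δ).right 0)
      rw [Emb.bc_x] at this
      rw [this]
      exact Prod.ext (by ring) rfl
    · rw [f3, f3, f3, map_mul, mul_right, Equiv.Perm.mul_apply, deg_mul, neg_add, zpow_add₀ hp]
      have := aff_y (good_rho γ).1 ((rho δ).right 0)
      rw [Emb.bc_y] at this
      rw [this]
      exact Prod.ext (by ring) rfl
  have hc : rho g8c = inl (emb (lt 0 cz⁻¹)) := by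
    rw [g8c, map_mul, map_mul, map_mul, map_inv, map_inv, rho_a, rho_b, comm_eq]
  let inst : MulAction G8 Q := { smul := f, one_smul := one, mul_smul := mul }
  refine ⟨inst, ⟨⟨rho, fun γ => (rho γ).right 0, fun γ => (good_rho γ).1, f1, f2, f3, h0, h1,
    ⟨by rw [hc]; rfl, by rw [hc]; rfl⟩, ⟨by rw [rho_t]; rfl, by rw [rho_t]; exact tau_zero⟩,
    fun r a hr => ?_, fun γ k1 k2 => ?_⟩⟩⟩
  · obtain ⟨b, hb⟩ := box0 B P0 h0 h1 r
    have e : G0.tv (a.re, a.im) 0 = a := by rw [tv_eq, zero_add]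
    have : (⟨B.g r, G0.tv (a.re, a.im)⟩ : Big Zl CZ) ∈ G0.Gam cz := ⟨_, b, rfl, by
      rw [G0.Rs_tv]
      rw [Plan.R, hr.1, Emb.bc_x, xi_eq, mul_comm] at hb
      exact hb⟩
    rw [← pres0.2] at this
    obtain ⟨o, ho⟩ := this
    rw [MonoidHom.comp_apply] at ho
    refine ⟨jo o, deg_jo o, B.ext (f _ _) _ ?_ ?_ ?_⟩
    · rw [f1, ho, h0, map_one, mul_one]
    · rw [f2, ho, h1.1, hr.1, e]; simp
    · rw [f3, ho, h1.2, hr.2, e]; simp
  · obtain ⟨o, rfl⟩ := ker_deg k1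
    have k3 : f (jo o) P0 = P0 := k2
    have k4 := f1 (jo o) P0
    have k5 := congrArg Prod.fst (f2 (jo o) P0)
    rw [k3, h0, map_one, mul_one] at k4
    rw [k3, h1.1] at k5
    have k6 : (rho (jo o)).right 0 = 0 := E0.ξ_inj (by simpa using k5.symm)
    have k7 : rho (jo o) = 1 := SemidirectProduct.ext k4.symm (Equiv.ext fun p => by
      rw [(good_jo o).1 p, k6]; simp)
    rw [pres0.1 (k7.trans (map_one _).symm), map_one]

end Pool.Agent.E5f
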