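import Pool.Agent.E5f.MoGeo
import Pool.Agent.E5f.MoElem

/-!
Winding indices at a cusp and rays in a strip.
-/

set_option autoImplicit false

namespace Pool.Agent.E5f

open Filter Classical

section words
variable {L C : Type} [CommGroup C]

theorem hd_of_wd {g : W L C} {e : L × C} {t : List (L × C)} (h : wd g = e :: t) (a : L) :
    hd a g = if e.1 = a then e.2 else 1 := by unfold hd; rw [h]

theorem hd_one (a : L) : hd a (1 : W L C) = 1 := by unfold hd; rw [wd_one]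

theorem hd_lt (a : L) (x : C) : hd a (lt a x : W L C) = x := by
  by_cases hx : x = 1
  · rw [hx, lt_one, hd_one]
  · rw [hd_of_wd (wd_lt a hx), if_pos rfl]

theorem hd_lt_ne {a l : L} (h : l ≠ a) (x : C) : hd a (lt l x : W L C) = 1 := by
  by_cases hx : x = 1
  · rw [hx, lt_one, hd_one]
  · rw [hd_of_wd (wd_lt l hx), if_neg h]

theorem dT_lt_self (ρ : L → ℝ) (a : L) (x : C) : dT ρ (ρ a) (lt a x : W L C) (ρ a) = 0 := by
  by_cases hx : x = 1
  · rw [hx]; simp
  · rw [dT_lt _ _ _ _ hx]; simp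

/-- Different initial exponents: the geodesic passes through the vertex. -/
theorem dT_of_hd_ne (ρ : L → ℝ) {a : L} {g h : W L C} (hne : hd a g ≠ hd a h) (s t : ℝ) :
    dT ρ s (g⁻¹ * h) t = dT ρ (ρ a) g s + dT ρ (ρ a) h t := by
  have h1 : ∀ e ∈ (wd g).head?, ∀ e' ∈ (wd h).head?, e ≠ e' := by
    intro e he e' he' hee
    subst hee
    apply hne
    cases hg : wd g with
    | nil => rw [hg] at he; simp at he
    | cons x u =>
      cases hh : wd h with
      | nil => rw [hh] at he'; simp at he'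
      | cons y v =>
        rw [hg] at he; rw [hh] at he'
        simp only [List.head?_cons, Option.mem_def, Option.some.injEq] at he he'
        rw [hd_of_wd hg, hd_of_wd hh, he, he']
  have key : ∀ (g : W L C) (s : ℝ), hd a g ≠ 1 → fe ρ (wd g) s = ρ a := by
    intro g s hg
    cases hw : wd g with
    | nil => rw [wd_eq_nil hw, hd_one] at hg; exact absurd rfl hg
    | cons x u =>
      rw [hd_of_wd hw] at hg
      by_cases h2 : x.1 = a
      · simp [fe, h2]
      · rw [if_neg h2] at hg; exact absurd rfl hg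
  have h2 := gT_diff ρ (ρ a) s t h1
  unfold gT at h2
  by_cases h3 : hd a g = 1
  · rw [key h t (fun h4 => hne (h3.trans h4.symm)), abs_sub_comm (ρ a) (fe ρ (wd g) s)] at h2
    simp only [sub_self, abs_zero] at h2
    linarith
  · rw [key g s h3] at h2
    simp only [sub_self, abs_zero] at h2
    linarith

theorem hd_mul_lt {a l : L} (v : W L C) (x : C) (h : ¬ (l = a ∧ ∃ y, v = lt a y)) :
    hd a (v * lt l x) = hd a v := by
  by_contra hne
  -- use positions which separate `a` from the other labels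
  let ρ : L → ℝ := fun m => if m = a then 0 else 1
  have h1 := dT_of_hd_ne ρ (Ne.symm hne) (ρ l) (ρ l)
  rw [inv_mul_cancel_left, dT_lt_self] at h1
  have h2 := dT_nonneg ρ (ρ a) v (ρ l)
  have h3 := dT_nonneg ρ (ρ a) (v * lt l x) (ρ l)
  have h4 := dT_eq_zero.1 (show dT ρ (ρ a) v (ρ l) = 0 by linarith)
  have h5 : ∀ m, ρ m = ρ a → m = a := by
    intro m hm
    by_contra h6
    simp [ρ, h6] at hm
  exact h ⟨h5 l h4.1, sup_single (fun m hm => h5 m (h4.2 m hm))⟩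

end words

theorem chain_first {X Y : Type} {R : X → X → Prop} {P : X → Prop} {f : X → Y}
    (h : ∀ x y, R x y → ¬ P x → f y = f x) : ∀ (l : List X) (a : X), (a :: l).IsChain R →
    (∀ y ∈ a :: l, f y = f a) ∨ ∃ s x t, a :: l = s ++ x :: t ∧ P x ∧ f x = f a
  | [], a, _ => Or.inl (by simp)
  | b :: l, a, hc => by
    rw [List.isChain_cons_cons] at hc
    by_cases hP : P a
    · exact Or.inr ⟨[], a, b :: l, rfl, hP, rfl⟩
    have e := h a b hc.1 hP
    rcases chain_first h l b hc.2 with h1 | ⟨s, x, t, h1, h2, h3⟩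
    · left
      intro y hy
      rcases List.mem_cons.1 hy with rfl | hy
      · rfl
      · rw [h1 y hy, e]
    · exact Or.inr ⟨a :: s, x, t, by rw [h1]; rfl, h2, h3.trans e⟩

theorem chain_last {X Y : Type} {R : X → X → Prop} {P : X → Prop} {f : X → Y}
    (h : ∀ x y, R x y → ¬ P y → f y = f x) : ∀ (l : List X) (a : X), (a :: l).IsChain R →
    f ((a :: l).getLast (List.cons_ne_nil _ _)) = f a ∨
      ∃ s x t, l = s ++ x :: t ∧ P x ∧ f ((a :: l).getLast (List.cons_ne_nil _ _)) = f x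
  | [], a, _ => Or.inl rfl
  | b :: l, a, hc => by
    rw [List.isChain_cons_cons] at hc
    rw [List.getLast_cons_cons]
    rcases chain_last h l b hc.2 with h1 | ⟨s, x, t, h1, h2, h3⟩
    · by_cases hP : P b
      · exact Or.inr ⟨[], b, l, rfl, hP, h1⟩
      · exact Or.inl (h1.trans (h a b hc.1 hP))
    · exact Or.inr ⟨b :: s, x, t, by rw [h1]; rfl, h2, h3⟩

section idx
variable {L C St : Type} [CommGroup C] {S : Finset L} {A B : Cd L C St}

/-- The states on the leaf of a vertex. -/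
def OnV (A : Cd L C St) (a : L) (g0 : W L C) (s : St) : Prop :=
  (A.u s).1 = A.ρ a ∧ ∃ x, A.g s = g0 * lt a x

theorem PStp.hd_eq {a : L} {g0 : W L C} {s s' : St} (h : PStp S A B s s') (hs : ¬ OnV A a g0 s) :
    hd a (g0⁻¹ * A.g s') = hd a (g0⁻¹ * A.g s) := by
  have key : ∀ l x, (A.u s).1 = A.ρ l → A.g s' = A.g s * lt l x →
      hd a (g0⁻¹ * A.g s') = hd a (g0⁻¹ * A.g s) := by
    intro l x h1 h2
    rw [h2, ← mul_assoc]
    refine hd_mul_lt _ _ ?_
    rintro ⟨rfl, y, hy⟩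
    exact hs ⟨h1, y, by rw [← hy, mul_inv_cancel_left]⟩
  rcases h with h | h
  · rcases h.2.2 with h3 | ⟨l, hl, h3 | h3⟩
    · rw [h3.1]
    · exact key l _ (by rw [h3.1]) h3.2.2
    · exact key l (A.ex (rtP B.ρ (B.u s') l))⁻¹ (by rw [h3.2.1])
        (by rw [h3.2.2, lt_inv, mul_inv_cancel_right])
  · rw [h.2.1]

theorem mk_eq_of_rtP {L : Type} {ρ : L → ℝ} {u u' : Mk} {a : L} (h1 : u.1 = ρ a) (h2 : u'.1 = ρ a)
    (h : rtP ρ u a ↔ rtP ρ u' a) : u = u' := by
  refine Prod.ext (h1.trans h2.symm) ?_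
  unfold rtP at h
  rw [h1, h2] at h
  cases h3 : u.2 <;> cases h4 : u'.2 <;> simp_all

/-- A tight walk whose ends have indices that differ by more than one passage visits the level of
the label. -/
theorem idx_abs (hA : Set.InjOn A.ρ S) {p q : St} {w : List St} (hw : Wk S A B p q w)
    (ht : wlen A.d w = A.d p q) {a : L} (ha : a ∈ S) (g0 : W L C)
    (h0 : hd a (g0⁻¹ * A.g q) ≠ hd a (g0⁻¹ * A.g p))
    (h1 : ∀ t, hd a (g0⁻¹ * A.g q) ≠ hd a (g0⁻¹ * A.g p) * A.ex t)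
    (h2 : ∀ t, hd a (g0⁻¹ * A.g q) * A.ex t ≠ hd a (g0⁻¹ * A.g p)) :
    ∃ r ∈ w, OnV A a g0 r ∧ (B.u r).1 = B.ρ a := by
  obtain ⟨hc, e1, e2⟩ := hw
  cases w with
  | nil => simp at e1
  | cons p' l =>
  simp only [List.head?_cons, Option.some.injEq] at e1
  subst e1
  have e3 := e2
  rw [List.getLast?_eq_some_getLast (List.cons_ne_nil _ _), Option.some.injEq] at e3
  rcases chain_first (P := OnV A a g0) (f := fun s => hd a (g0⁻¹ * A.g s))
    (fun x y k1 k2 => PStp.hd_eq k1 k2) l p' hc with k | ⟨s, x, t, k1, k2, k3⟩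
  · exact absurd (k q (e3 ▸ List.getLast_mem _)) h0
  rw [k1] at hc e2 ht ⊢
  have hc1 : (x :: t).IsChain (PStp S A B) := hc.right_of_append
  have e4 : (x :: t).getLast (List.cons_ne_nil _ _) = q := by
    rw [List.getLast?_append, List.getLast?_eq_some_getLast (List.cons_ne_nil _ _)] at e2
    simpa using e2
  rcases chain_last (P := OnV A a g0) (f := fun s => hd a (g0⁻¹ * A.g s))
    (fun x y k1 k2 => (PStp.hd_eq k1.symm k2).symm) t x hc1 with k | ⟨m, y, t', k4, k5, k6⟩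
  · rw [e4] at k
    exact absurd (k.trans k3) h0
  rw [e4] at k6
  subst k4
  have pm := A.pm
  have hxy : A.d x y = 0 := by
    obtain ⟨x1, x2, x3⟩ := k2
    obtain ⟨y1, y2, y3⟩ := k5
    unfold Cd.d
    rw [x1, y1, x3, y3, show (g0 * lt a x2)⁻¹ * (g0 * lt a y2) = lt a (x2⁻¹ * y2) by
      rw [lt_mul, lt_inv]; group]
    exact dT_lt_self _ _ _
  have hz : wlen A.d (x :: m ++ [y]) = 0 := by
    have f1 := wlen_split A.d s x (m ++ y :: t')
    have f2 := wlen_split A.d (x :: m) y t'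
    have f3 : A.d p' x ≤ wlen A.d (s ++ [x]) := by
      cases s with
      | nil =>
        have : p' = x := by simpa using (List.cons.inj k1).1
        rw [this, pm.self]; simp
      | cons z s =>
        have : p' = z := by simpa using (List.cons.inj k1).1
        rw [this]; exact le_wlen pm z s x
    have f4 := le_wlen' pm y t'
    have f5 : (y :: t').getLast (List.cons_ne_nil _ _) = q := by
      have e5 : s ++ x :: (m ++ y :: t') = (s ++ x :: m) ++ y :: t' := by simp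
      rw [e5, List.getLast?_append, List.getLast?_eq_some_getLast (List.cons_ne_nil _ _)] at e2
      simpa using e2
    rw [f5] at f4
    have f6 := pm.tri p' x q
    have f7 := pm.tri x y q
    have f8 := wlen_nonneg pm (x :: m ++ [y])
    simp only [List.cons_append] at f2 f8 ⊢
    linarith
  have hc2 : (x :: (m ++ [y])).IsChain (PStp S A B) := by
    have : x :: (m ++ y :: t') = (x :: (m ++ [y])) ++ t' := by simp
    rw [this] at hc1
    exact hc1.left_of_append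
  by_contra hno
  push Not at hno
  have hsub : ∀ v ∈ x :: (m ++ [y]), v ∈ s ++ x :: (m ++ y :: t') := by
    intro v hv
    simp only [List.mem_append, List.mem_cons, List.not_mem_nil, or_false] at hv ⊢
    tauto
  let σ := rtP B.ρ (B.u x) a
  let φ : St → C := fun v => hd a (g0⁻¹ * A.g v) * (if (A.u v).2 = true then (A.ex σ)⁻¹ else 1)
  have inv := chain_inv (P := fun v => OnV A a g0 v ∧ (rtP B.ρ (B.u v) a ↔ σ) ∧ φ v = φ x)
    (m ++ [y]) x (isChain_and hc2 (chain_of_wlen_zero pm _ hz)) ⟨k2, Iff.rfl, rfl⟩ (by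
      rintro v hv v' - ⟨c1, c2⟩ ⟨⟨d1, z, d2⟩, d3, d4⟩
      have hu : (A.u v').1 = A.ρ a := by
        rw [← d1]; exact (dT_eq_zero.1 c2).1
      have same : A.g v' = A.g v → A.u v' = A.u v → (rtP B.ρ (B.u v') a ↔ σ) →
          OnV A a g0 v' ∧ (rtP B.ρ (B.u v') a ↔ σ) ∧ φ v' = φ x := by
        intro g1 g2 g3
        refine ⟨⟨hu, z, g1.trans d2⟩, g3, ?_⟩
        rw [← d4]
        simp only [φ, g1, g2]
      rcases c1 with c1 | c1
      · have hσ : rtP B.ρ (B.u v') a ↔ σ := by rw [c1.1]; exact d3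
        rcases c1.2.2 with c3 | ⟨l, hl, c3 | c3⟩
        · exact same c3.1 (mk_eq_of_rtP hu d1 (c3.2 a ha).symm) hσ
        · have : l = a := hA hl ha (by rw [← d1, c3.1])
          subst this
          have g1 : A.g v' = g0 * lt l (z * A.ex σ) := by
            rw [c3.2.2, d2, propext d3, lt_mul, mul_assoc]
          refine ⟨⟨hu, _, g1⟩, hσ, ?_⟩
          rw [← d4]
          simp only [φ, g1, d2, c3.1, c3.2.1, inv_mul_cancel_left, hd_lt]
          simp
        · have : l = a := hA hl ha (by rw [← d1, c3.2.1])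
          subst this
          have g1 : A.g v' = g0 * lt l (z * (A.ex σ)⁻¹) := by
            rw [lt_mul, lt_inv, ← mul_assoc, ← d2, c3.2.2, propext hσ, mul_inv_cancel_right]
          refine ⟨⟨hu, _, g1⟩, hσ, ?_⟩
          rw [← d4]
          simp only [φ, g1, d2, c3.1, c3.2.1, inv_mul_cancel_left, hd_lt]
          simp
      · have hn := hno v (hsub v hv) ⟨d1, z, d2⟩
        refine same c1.2.1 c1.1 (Iff.trans ?_ d3)
        rcases c1.elm with c3 | ⟨l, -, c3, c4⟩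
        · exact (c3 a ha).symm
        · exact (rtP_congr (c3.trans c4.symm) hn).symm) y (by simp)
  have fin := inv.2.2
  simp only [φ] at fin
  rw [← k6, k3] at fin
  cases g1 : (A.u y).2 <;> cases g2 : (A.u x).2 <;> simp only [g1, g2, if_true, mul_one,
    Bool.false_eq_true, if_false] at fin
  · exact h0 fin
  · exact h2 σ (by rw [fin, inv_mul_cancel_right])
  · exact h1 σ (by rw [← fin, inv_mul_cancel_right])
  · exact h0 (mul_right_cancel fin)

end idx

theorem wlen_btw {X : Type} {d : X → X → ℝ} (hd : PM d) {p q r : X} {w : List X}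
    (h1 : w.head? = some p) (h2 : w.getLast? = some q) (ht : wlen d w = d p q) (hr : r ∈ w) :
    d p r + d r q = d p q := by
  obtain ⟨s, t, rfl⟩ := List.append_of_mem hr
  have f1 := wlen_split d s r t
  have f3 : d p r ≤ wlen d (s ++ [r]) := by
    cases s with
    | nil =>
      have : r = p := by simpa using h1
      rw [this, hd.self]; simp
    | cons z s =>
      have : z = p := by simpa using h1
      rw [← this]; exact le_wlen hd z s r
  have f4 := le_wlen' hd r t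
  rw [List.getLast?_append, List.getLast?_eq_some_getLast (List.cons_ne_nil _ _)] at h2
  have f5 : (r :: t).getLast (List.cons_ne_nil _ _) = q := by simpa using h2
  rw [f5] at f4
  have := hd.tri p r q
  linarith

namespace Plan
variable {L C : Type} [CommGroup C] {c : C} {Z : Cfg L} {Q : Type} (P : Plan c Z Q)

/-- The index of a point seen from a cusp. -/
def Ix (a : L) (κ p : Q) (e : C) : Prop :=
  ∀ᶠ S : Finset L in atTop, hd a ((pj S (P.g κ))⁻¹ * pj S (P.g p)) = e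

theorem ix_of_box (hZ : Z.Gen) (hc : c ≠ 1) {a : L} {κ p : Q} (hκ : P.Cusp a κ) {b : Bx}
    (h : P.Box b κ p) {S : Finset L} (hS : Z.bl b ⊆ S) :
    P.Ix a κ p (hd a ((pj S (P.g κ))⁻¹ * pj S (P.g p))) := by
  have ha : a ∈ Z.bl b := by
    have := h.1
    rwa [hκ.1, hκ.2] at this
  refine (eventually_ge_atTop S).mono (fun S' hS' => ?_)
  rw [← map_inv, ← map_mul, ← map_inv, ← map_mul]
  refine h.2.2.hd_eq hc (fun ν hν => ?_) hS (hS ha) S' hS'
  unfold R
  rw [hκ.1, Z.X_iff hZ.1]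
  exact ⟨fun k => k.elim id (fun k => absurd (hZ.1 k.1).symm hν), Or.inl⟩

theorem ix_ex (hZ : Z.Gen) (hc : c ≠ 1) {a : L} {κ : Q} (hκ : P.Cusp a κ) (p : Q) :
    ∃ e, P.Ix a κ p e := by
  obtain ⟨b, hb⟩ := P.box_ex κ p
  exact ⟨_, P.ix_of_box hZ hc hκ hb (S := (Z.bl_fin b).toFinset) (by simp)⟩

theorem Ix.unique {a : L} {κ p : Q} {e e' : C} (h : P.Ix a κ p e) (h' : P.Ix a κ p e') :
    e = e' := by
  obtain ⟨S, h1, h2⟩ := (Filter.Eventually.and h h').exists
  exact h1.symm.trans h2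

theorem dv_of_ix {a : L} {κ p q : Q} (hκ : P.Cusp a κ) {e e' : C} (h : P.Ix a κ p e)
    (h' : P.Ix a κ q e') (hne : e ≠ e') : P.dv p q = P.dv κ p + P.dv κ q := by
  obtain ⟨S, ⟨h1, h2⟩, h3, h4, h5⟩ := ((Filter.Eventually.and h h').and ((P.dv_ev' p q).and
    ((P.dv_ev' κ p).and (P.dv_ev' κ q)))).exists
  rw [h3, h4, h5]
  unfold dL
  simp only [hκ.1]
  rw [← dT_of_hd_ne Z.x (by rw [h1, h2]; exact hne)]
  congr 1
  group

theorem cd_ex (S : Finset L) (T : Set Q) (t : Prop) : (P.cd S T).ex t = c ∨ (P.cd S T).ex t = 1 := by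
  unfold cd
  simp only
  split_ifs
  · exact Or.inl rfl
  · exact Or.inr rfl

theorem idx_pt (hZ : Z.Gen) {a : L} {κ : Q} {b : Bx} {S : Finset L}
    (hS : ∀ l, l ∈ S ↔ l ∈ Z.bl b) (ha : a ∈ S) (s t : P.rs b κ) (g0 : W L C)
    (h0 : hd a (g0⁻¹ * pj S (P.g t)) ≠ hd a (g0⁻¹ * pj S (P.g s)))
    (h1 : hd a (g0⁻¹ * pj S (P.g t)) ≠ hd a (g0⁻¹ * pj S (P.g s)) * c)
    (h2 : hd a (g0⁻¹ * pj S (P.g t)) * c ≠ hd a (g0⁻¹ * pj S (P.g s))) :
    ∃ r : P.rs b κ, (P.u r).1 = Z.x a ∧ (P.w r).1 = Z.y a ∧ (∃ x, pj S (P.g r) = g0 * lt a x) ∧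
      P.dv s r + P.dv r t = P.dv s t ∧ P.dh s r + P.dh r t = P.dh s t := by
  have hS' : Z.bl b ⊆ S := fun l hl => (hS l).2 hl
  obtain ⟨w, hw, t1, t2⟩ := P.tight_wk hZ hS s t
  have hA : Set.InjOn (P.cd S (P.rs b κ)).ρ S := hZ.1.injOn
  obtain ⟨r, r1, ⟨r2, r3⟩, r4⟩ := idx_abs hA hw t1 ha g0 h0
    (fun u => by
      rcases P.cd_ex S (P.rs b κ) u with k | k <;> rw [k]
      · exact h1
      · rw [mul_one]; exact h0)
    (fun u => by
      rcases P.cd_ex S (P.rs b κ) u with k | k <;> rw [k]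
      · exact h2
      · rw [mul_one]; exact h0)
  have b1 := wlen_btw (Cd.pm _) hw.2.1 hw.2.2 t1 r1
  have b2 := wlen_btw (Cd.pm _) hw.2.1 hw.2.2 t2 r1
  rw [P.cd_d hS' rfl] at b1
  rw [P.tr.cd_d (b := b.tr) (by rwa [Z.bl_tr]) (P.rs_tr b κ).symm] at b2
  exact ⟨r, r2, r4, r3, b1, b2⟩

theorem idx (hZ : Z.Gen) (hc : c ≠ 1) (hg : ∀ x : C, ∃ n : ℤ, x = c ^ n) {a : L} {κ p q : Q}
    (hκ : P.Cusp a κ) {e e' : C} (h : P.Ix a κ p e) (h' : P.Ix a κ q e') (h0 : e' ≠ e)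
    (h1 : e' ≠ e * c) (h2 : e' * c ≠ e) : Btw P.dv P.dh p κ q := by
  obtain ⟨b, hp, hq⟩ := P.exists_rch2 κ p q
  obtain ⟨S, hS⟩ : ∃ S : Finset L, ∀ l, l ∈ S ↔ l ∈ Z.bl b :=
    ⟨(Z.bl_fin b).toFinset, fun l => Set.Finite.mem_toFinset _⟩
  have hS' : Z.bl b ⊆ S := fun l hl => (hS l).2 hl
  have ha : a ∈ Z.bl b := by
    have := hp.1
    unfold In at this
    rwa [hκ.1, hκ.2] at this
  have e1 := (P.ix_of_box hZ hc hκ hp.box hS').unique P h
  have e2 := (P.ix_of_box hZ hc hκ hq.box hS').unique P h'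
  obtain ⟨⟨r, hr⟩, r2, r4, ⟨x, r3⟩, b1, b2⟩ := P.idx_pt hZ hS (hS' ha) ⟨p, hp⟩ ⟨q, hq⟩
    (pj S (P.g κ)) (by rw [e1, e2]; exact h0) (by rw [e1, e2]; exact h1)
    (by rw [e1, e2]; exact h2)
  simp only at r2 r3 r4 b1 b2
  have tch : P.Touch a x κ r := by
    refine ⟨by rw [hκ.1], r2, ?_⟩
    rw [← inv_mul_eq_iff_eq_mul]
    have k1 := touch_box hg hZ ha x false (P.u r).2
    rw [← hκ.1, show ((Z.x a, (P.u r).2) : Mk) = P.u r from Prod.ext r2.symm rfl] at k1
    refine (Rch.box hr).2.2.nf k1 hS' ?_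
    rw [map_mul, map_inv, r3, inv_mul_cancel_left, pj_emb_lt (hS' ha)]
  have z1 := tch.dv'
  have z2 := tch.dh hZ hc hg (by rw [hκ.2]) r4
  constructor
  · rw [P.pv.symm p κ, congr_HypBi P.pv z1, congr_HypBi P.pv z1, P.pv.symm _ p]; exact b1
  · rw [P.ph.symm p κ, congr_HypBi P.ph z2, congr_HypBi P.ph z2, P.ph.symm _ p]; exact b2

/-- Every word in the labels of a box is realised inside the box. -/
theorem realize (hZ : Z.Gen) (hg : ∀ x : C, ∃ n : ℤ, x = c ^ n) {b : Bx} {S : Finset L}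
    (hS : (S : Set L) = Z.bl b) {g : W L C} (hs : Sup (S : Set L) g) :
    ∀ (p : Q) (u' w' : Mk), P.In b p → b.Mem u'.1 w'.1 →
      ∃ q, P.Box b p q ∧ P.u q = u' ∧ P.w q = w' ∧ pj S (P.g q) = pj S (P.g p) * g := by
  have top : ∀ (p : Q) (u' w' : Mk), P.In b p → b.Mem u'.1 w'.1 →
      ∃ q, P.Box b p q ∧ P.u q = u' ∧ P.w q = w' ∧ pj S (P.g q) = pj S (P.g p) := by
    intro p u' w' hp hu
    have hD : InB Z.y b.y0 b.y1 {l | b.y1 < Z.y l} := fun l => ⟨id, fun k k' =>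
      absurd (k.le.trans (hp.2.2.1.trans hp.2.2.2)) (not_le.2 k')⟩
    obtain ⟨q, f1, f2, f3⟩ := step_ex (P := P) hZ p ⟨_, _, hD⟩ u' w'
    exact ⟨q, f1.box P hD hp (by unfold In; rw [f2, f3]; exact hu), f2, f3, f1.pj_top P hS⟩
  refine sup_ind (p := fun g => ∀ (p : Q) (u' w' : Mk), P.In b p → b.Mem u'.1 w'.1 →
      ∃ q, P.Box b p q ∧ P.u q = u' ∧ P.w q = w' ∧ pj S (P.g q) = pj S (P.g p) * g)
    (by simpa using top) ?_ hs
  intro l hl x g ih p u' w' hp hu
  have hb : l ∈ Z.bl b := hS ▸ hl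
  obtain ⟨q1, a1, a2, a3, a4⟩ := top p (Z.x l, false) (Z.y l, false) hp hb
  obtain ⟨q2, b1, -, b3⟩ := touch_ex (P := P) hZ hg (p := q1) (by rw [a2]) x false (Z.y l, false)
  have h2 : P.In b q2 := by
    unfold In
    rw [b1.2.1, b3]; exact hb
  obtain ⟨q, c1, c2, c3, c4⟩ := ih q2 u' w' h2 hu
  refine ⟨q, (a1.trans (b1.box hZ hg hb a1.2.1 h2)).trans c1, c2, c3, ?_⟩
  rw [c4, b1.2.2, map_mul, pj_emb_lt hl, a4, mul_assoc]

end Plan

theorem pigeon_fin {Y : Type} {J : Set ℕ} (hJ : J.Infinite) {T : Set Y} (hT : T.Finite)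
    (f : ℕ → Y) (h : ∀ k ∈ J, f k ∈ T) : ∃ y ∈ T, {k | k ∈ J ∧ f k = y}.Infinite := by
  by_contra h1
  push Not at h1
  refine hJ ((hT.biUnion (t := fun y => {k | k ∈ J ∧ f k = y}) h1).subset fun k hk => ?_)
  exact Set.mem_biUnion (h k hk) ⟨hk, rfl⟩

theorem pigeon_words {L C : Type} (S : Finset L) : ∀ (N : ℕ) (J : Set ℕ)
    (f : ℕ → List (L × C)), J.Infinite → (∀ k ∈ J, (f k).length ≤ N ∧ ∀ e ∈ f k, e.1 ∈ S) →
    (∃ w, {k | k ∈ J ∧ f k = w}.Infinite) ∨
      ∃ (pre : List (L × C)) (a : L) (J' : Set ℕ) (e : ℕ → C), J'.Infinite ∧ J' ⊆ J ∧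
        (∀ k ∈ J', ∃ rest, f k = pre ++ (a, e k) :: rest) ∧ ∀ x, {k | k ∈ J' ∧ e k = x}.Finite := by
  intro N
  induction N with
  | zero =>
    intro J f hJ h
    exact Or.inl ⟨[], hJ.mono fun k hk => ⟨hk, List.eq_nil_of_length_eq_zero
      (Nat.le_zero.1 (h k hk).1)⟩⟩
  | succ N ih =>
    intro J f hJ h
    obtain ⟨y, -, hy⟩ := pigeon_fin hJ (T := insert none (some '' (S : Set L)))
      ((S.finite_toSet.image _).insert _) (fun k => (f k).head?.map Prod.fst) (fun k hk => by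
        cases hf : f k with
        | nil => simp
        | cons e t => simpa using (h k hk).2 e (by rw [hf]; simp))
    cases y with
    | none =>
      refine Or.inl ⟨[], hy.mono fun k hk => ⟨hk.1, ?_⟩⟩
      simpa using hk.2
    | some a =>
      have hex : ∀ k, k ∈ {k | k ∈ J ∧ (f k).head?.map Prod.fst = some a} →
          ∃ x t, f k = (a, x) :: t := by
        intro k hk
        have h2 := hk.2
        cases hf : f k with
        | nil => rw [hf] at h2; simp at h2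
        | cons e t =>
          rw [hf] at h2
          have : e.1 = a := by simpa using h2
          exact ⟨e.2, t, by rw [← this]⟩
      obtain ⟨k0, hk0⟩ := hy.nonempty
      haveI : Nonempty C := ⟨(hex k0 hk0).choose⟩
      choose! e t het using hex
      by_cases hx : ∃ x, {k | k ∈ {k | k ∈ J ∧ (f k).head?.map Prod.fst = some a} ∧
          e k = x}.Infinite
      · obtain ⟨x, hx⟩ := hx
        rcases ih _ t hx (fun k hk => by
          have h1 := h k hk.1.1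
          rw [het k hk.1] at h1
          exact ⟨Nat.le_of_succ_le_succ h1.1, fun z hz => h1.2 z (List.mem_cons_of_mem _ hz)⟩)
          with ⟨w, hw⟩ | ⟨pre, a', J', e', g1, g2, g3, g4⟩
        · exact Or.inl ⟨(a, x) :: w, hw.mono fun k hk =>
            ⟨hk.1.1.1, by rw [het k hk.1.1, hk.1.2, hk.2]⟩⟩
        · refine Or.inr ⟨(a, x) :: pre, a', J', e', g1, fun k hk => (g2 hk).1.1, fun k hk => ?_, g4⟩
          obtain ⟨rest, hr⟩ := g3 k hk
          exact ⟨rest, by rw [het k (g2 hk).1, (g2 hk).2, hr]; rfl⟩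
      · push Not at hx
        exact Or.inr ⟨[], a, _, e, hy, fun k hk => hk.1, fun k hk => ⟨t k, het k hk⟩, hx⟩

theorem sparse_sub {J : Set ℕ} (hJ : J.Infinite) (e : ℕ → ℤ)
    (h : ∀ x, {k | k ∈ J ∧ e k = x}.Finite) : ∃ J' ⊆ J, J'.Infinite ∧
      ∀ k ∈ J', ∀ l ∈ J', k ≠ l → e l ≠ e k ∧ e l ≠ e k + 1 ∧ e l + 1 ≠ e k := by
  obtain ⟨y, -, hy⟩ := pigeon_fin hJ (Set.finite_Ico (0 : ℤ) 2) (fun k => e k % 2)
    (fun k _ => ⟨by omega, by omega⟩)
  have hi : (e '' {k | k ∈ J ∧ e k % 2 = y}).Infinite := by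
    intro hf
    refine hy ((hf.biUnion (t := fun x => {k | k ∈ J ∧ e k = x}) (fun x _ => h x)).subset
      fun k hk => Set.mem_biUnion (Set.mem_image_of_mem e hk) ⟨hk.1, rfl⟩)
  obtain ⟨J', h1, h2, h3⟩ := Set.exists_subset_bijOn {k | k ∈ J ∧ e k % 2 = y} e |>.imp
    (fun J' k => (⟨k.1, k.2.injOn, k.2.image_eq⟩ : J' ⊆ _ ∧ Set.InjOn e J' ∧ e '' J' = _))
  refine ⟨J', fun k hk => (h1 hk).1, Set.Infinite.of_image e (h3 ▸ hi), fun k hk l hl hne => ?_⟩
  have a1 := (h1 hk).2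
  have a2 := (h1 hl).2
  have a3 : e l ≠ e k := fun k' => hne (h2 hl hk k').symm
  exact ⟨a3, by omega, by omega⟩

theorem Plan.ray {L : Type} {Z : Cfg L} {Q : Type} (P : Plan cz Z Q) (hZ : Z.Gen) (p0 : Q)
    (p : ℕ → Q) (B M : ℝ) (hM : 0 ≤ M) (h1 : ∀ k, P.dh p0 (p k) ≤ B)
    (h2 : ∀ k, M ≤ P.dv p0 (p k)) :
    (∃ r, P.dv p0 r = M ∧ {k | P.dv p0 r + P.dv r (p k) = P.dv p0 (p k)}.Infinite) ∨
    (∃ a r, P.Cusp a r ∧ ∃ J : Set ℕ, J.Infinite ∧
      ∀ k ∈ J, ∀ l ∈ J, k ≠ l → Btw P.dv P.dh (p k) r (p l)) := by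
  have hc : cz ≠ 1 := by decide
  have hg : ∀ x : CZ, ∃ n : ℤ, x = cz ^ n := fun x =>
    ⟨Multiplicative.toAdd x, by rw [cz, ← ofAdd_zsmul]; simp⟩
  choose r hr hr' using fun k => geoV_HypBi (P.biTree' hZ) p0 (p k) hM (h2 k)
  set b := (P.pt p0).grow M B
  have hb : ∀ k, P.Box b p0 (r k) := fun k => (P.rch_dist hZ p0 (r k) (hr' k).le
    (by linarith [(hr k).2, P.ph.nn (r k) (p k), h1 k])).box
  set S := (Z.bl_fin b).toFinset
  have hS : (S : Set L) = Z.bl b := Set.Finite.coe_toFinset _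
  let v : ℕ → W L CZ := fun k => (pj S (P.g p0))⁻¹ * pj S (P.g (r k))
  have hv : ∀ k, Sup (S : Set L) (v k) := fun k => sup_mul (sup_inv (sup_pj _ _)) (sup_pj _ _)
  have hd' : ∀ k, dT Z.x (P.u p0).1 (v k) (P.u (r k)).1 = M := fun k => by
    rw [← hr' k, (hb k).dv_eq hS.ge]
  obtain ⟨N, hN⟩ := len_le (C := CZ) Z.x S hZ.1.injOn M
  have first : ∀ (z : Q) (J : Set ℕ), J.Infinite → P.dv p0 z = M → (∀ k ∈ J, P.dv z (r k) = 0) →
      ∃ r, P.dv p0 r = M ∧ {k | P.dv p0 r + P.dv r (p k) = P.dv p0 (p k)}.Infinite := by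
    intro z J j1 j2 j3
    refine ⟨z, j2, j1.mono fun k hk => ?_⟩
    change P.dv p0 z + P.dv z (p k) = P.dv p0 (p k)
    rw [congr_HypBi P.pv (j3 k hk), j2, ← hr' k, (hr k).1]
  rcases pigeon_words S N Set.univ (fun k => wd (v k)) Set.infinite_univ
    (fun k _ => ⟨hN _ _ _ (hv k) (hd' k).le, fun e he => hv k e.1 (List.mem_map_of_mem he)⟩)
    with ⟨w, hw⟩ | ⟨pre, a, J, e, g1, -, g3, g4⟩
  · left
    have hv' : ∀ k ∈ {k | k ∈ Set.univ ∧ wd (v k) = w}, v k = ev w := fun k hk => by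
      rw [← hk.2, ev_wd]
    set f := fe Z.x (wd (ev w : W L CZ)⁻¹) (P.u p0).1
    set K := M - dT Z.x f (ev w : W L CZ)⁻¹ (P.u p0).1
    obtain ⟨y, -, hy⟩ := pigeon_fin hw (T := {f - K, f + K}) (Set.toFinite _)
      (fun k => (P.u (r k)).1) (fun k hk => by
        have e1 := dT_fe Z.x (P.u (r k)).1 f (P.u p0).1 (ev w : W L CZ)⁻¹
        have e2 := hd' k
        rw [hv' k hk, ← dT_symm] at e2
        rw [e2, sub_self, abs_zero] at e1
        have e3 : |f - (P.u (r k)).1| = K := by linarith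
        rcases abs_cases (f - (P.u (r k)).1) with e4 | e4
        · left; linarith [e4.1]
        · right; simp only [Set.mem_singleton_iff]; linarith [e4.1])
    obtain ⟨k0, hk0⟩ := hy.nonempty
    refine first (r k0) _ hy (hr' k0) fun k hk => ?_
    rw [((hb k0).symm.trans (hb k)).dv_eq hS.ge,
      show (pj S (P.g (r k0)))⁻¹ * pj S (P.g (r k)) = (v k0)⁻¹ * v k by simp only [v]; group,
      hv' k hk.1, hv' k0 hk0.1, hk.2, hk0.2]
    simp
  obtain ⟨k0, hk0⟩ := g1.nonempty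
  obtain ⟨rest0, hr0⟩ := g3 k0 hk0
  have mem0 : ∀ z ∈ pre ++ (a, e k0) :: rest0, z.1 ∈ S := fun z hz =>
    hv k0 z.1 (List.mem_map_of_mem (by rw [hr0]; exact hz))
  have red0 : Red (pre ++ (a, e k0) :: rest0) := hr0 ▸ red_wd _
  have ha : a ∈ Z.bl b := hS ▸ mem0 (a, e k0) (by simp)
  obtain ⟨κ, k1, k2, k3, k4⟩ := P.realize hZ hg hS (g := ev pre) (fun l hl => by
    rw [lab_ev red0.left] at hl
    obtain ⟨z, hz, rfl⟩ := List.mem_map.1 hl
    exact mem0 z (List.mem_append_left _ hz)) p0 (Z.x a, false) (Z.y a, false) (hb 0).1 ha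
  have hκ : P.Cusp a κ := ⟨k2, k3⟩
  have key : ∀ k ∈ J, P.Ix a κ (r k) (e k) ∧ P.dv p0 κ + P.dv κ (r k) = M := by
    intro k hk
    obtain ⟨rest, h3⟩ := g3 k hk
    have red : Red (pre ++ (a, e k) :: rest) := h3 ▸ red_wd _
    have e1 : v k = ev (pre ++ (a, e k) :: rest) := by rw [← h3, ev_wd]
    have e2 : (pj S (P.g κ))⁻¹ * pj S (P.g (r k)) = ev ((a, e k) :: rest) := by
      rw [k4, mul_inv_rev, mul_assoc]
      change (ev pre)⁻¹ * v k = _
      rw [e1, ev_append, inv_mul_cancel_left]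
    have hbk := k1.symm.trans (hb k)
    constructor
    · have := P.ix_of_box hZ hc hκ hbk hS.ge
      rwa [e2, hd_of_wd (wd_ev red.right), if_pos rfl] at this
    · rw [← hd' k, e1, dT_split _ _ _ red, k1.dv_eq hS.ge, hbk.dv_eq hS.ge, e2, k4,
        inv_mul_cancel_left, k2, dT_of_wd _ _ _ (wd_ev red.right)]
      simp
  by_cases hz : P.dv p0 κ = M
  · exact Or.inl (first κ J g1 hz fun k hk => by linarith [(key k hk).2])
  right
  have key2 : ∀ k ∈ J, P.Ix a κ (p k) (e k) := by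
    intro k hk
    obtain ⟨x, hx⟩ := P.ix_ex hZ hc hκ (p k)
    by_cases h3 : e k = x
    · rwa [h3]
    exfalso
    have e1 := P.dv_of_ix hκ (key k hk).1 hx h3
    have e2 := (hr k).1
    have e3 := P.pv.tri p0 κ (p k)
    have e4 := P.pv.nn κ (r k)
    have e5 := (key k hk).2
    rw [hr' k] at e2
    exact hz (by linarith)
  obtain ⟨J', j1, j2, j3⟩ := sparse_sub g1 (fun k => Multiplicative.toAdd (e k))
    (fun x => (g4 (Multiplicative.ofAdd x)).subset fun k hk => ⟨hk.1, by rw [← hk.2]; rfl⟩)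
  refine ⟨a, κ, hκ, J', j2, fun k hk l hl hne => ?_⟩
  obtain ⟨i1, i2, i3⟩ := j3 k hk l hl hne
  exact P.idx hZ hc hg hκ (key2 k (j1 hk)) (key2 l (j1 hl)) (fun h => i1 (by rw [h]))
    (fun h => i2 (by rw [h]; rfl)) (fun h => i3 (by rw [← h]; rfl))

end Pool.Agent.E5f
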