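import Pool.Agent.E5f.MoDefs2
import Pool.Agent.E5f.MoFam
import Pool.Agent.E5f.MoRay

set_option autoImplicit false

namespace Pool.Agent.E5f

open Filter Classical

theorem deg_mul_MoBase (γ γ' : G8) : g8deg (γ * γ') = g8deg γ + g8deg γ' := by
  simp [g8deg]

theorem deg_one_MoBase : g8deg 1 = 0 := by simp [g8deg]

theorem deg_inv_MoBase (γ : G8) : g8deg γ⁻¹ = -g8deg γ := by simp [g8deg]

theorem deg_t_MoBase : g8deg g8t = 1 := by
  simp [g8deg, g8degHom, g8t]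

theorem deg_c_MoBase : g8deg g8c = 0 := by
  simp [g8c, deg_mul_MoBase, deg_inv_MoBase]

theorem deg_zpow_MoBase (γ : G8) (k : ℤ) : g8deg (γ ^ k) = k * g8deg γ := by
  simp [g8deg]

theorem lam_pos_MoBase (k : ℤ) : 0 < (Real.goldenRatio ^ 2) ^ k :=
  zpow_pos (pow_pos Real.goldenRatio_pos 2) k

theorem Plan.side_MoBase {L : Type} {Z : Cfg L} {Q : Type} [MulAction G8 Q] (P : Plan cz Z Q)
    (hZ : Z.Gen) (dg : G8 → ℤ) (P0 : Q)
    (hc : ∀ r a, P.Cusp a r → ∃ γ : G8, dg γ = 0 ∧ γ • P0 = r) : Side P.dv P.dh dg P0 where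
  hor := fun q R hR => by
    obtain ⟨qm, a1, a2⟩ := P.ex_mh q ((P.u q).1 - R, false)
    obtain ⟨qp, b1, b2⟩ := P.ex_mh q ((P.u q).1 + R, false)
    refine ⟨qm, qp, P.dh_mh a1, P.dh_mh b1, ?_, ?_, ?_⟩
    · rw [P.dv_mh a1, a2]
      simp [abs_of_nonneg hR]
    · rw [P.dv_mh b1, b2]
      simp [abs_of_nonneg hR]
    · rw [P.dv_mh (a1.symm.trans b1), a2, b2]
      have : (P.u q).1 + R - ((P.u q).1 - R) = 2 * R := by ring
      rw [this, abs_of_nonneg (by linarith)]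
  ray := fun p0 p B M hM h1 h2 => by
    rcases P.ray hZ p0 p B M hM h1 h2 with h | ⟨a, r, hr, h⟩
    · exact Or.inl h
    · obtain ⟨γ, g1, rfl⟩ := hc r a hr
      exact Or.inr ⟨γ, g1, h⟩

theorem Plan.cusp_at_MoBase {L C : Type} [CommGroup C] {c : C} {Z : Cfg L} {Q : Type}
    (P : Plan c Z Q) (q : Q) (a : L) : ∃ r, P.Cusp a r ∧ P.dv q r ≤ |Z.x a - (P.u q).1| ∧
      P.dh q r ≤ |Z.y a - (P.w q).1| := by
  obtain ⟨q1, a1, a2⟩ := P.ex_mh q (Z.x a, false)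
  obtain ⟨r, b1, b2⟩ := P.ex_mv q1 (Z.y a, false)
  refine ⟨r, ⟨b1.2 ▸ a2, b2⟩, ?_, ?_⟩
  · have := P.pv.tri q q1 r
    rw [P.dv_mh a1, P.dv_mv b1, a2] at this
    simpa using this
  · have := P.ph.tri q q1 r
    rw [P.dh_mh a1, P.dh_mv b1, b2, ← a1.2] at this
    simpa using this

namespace BAct
variable {Q : Type} [MulAction G8 Q] {B : Plan cz E0.bc Q} {P0 : Q} (A : BAct B P0)

theorem x_MoBase (γ : G8) (p : Zl) : E0.bc.x ((A.ρ γ).right p) =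
    (Real.goldenRatio ^ 2) ^ (g8deg γ) * E0.bc.x p + E0.ξ (A.e γ) := by
  rw [A.rt, Emb.bc_x, map_add, map_mul, E0.ξ_uω2]

theorem y_MoBase (γ : G8) (p : Zl) : E0.bc.y ((A.ρ γ).right p) =
    (Real.goldenRatio ^ 2) ^ (-g8deg γ) * E0.bc.y p + E0.η (A.e γ) := by
  rw [A.rt, Emb.bc_y, map_add, map_mul, E0.η_uω2]

theorem X_MoBase (γ : G8) (a b : Zl) :
    E0.bc.X a < E0.bc.X b ↔ E0.bc.X ((A.ρ γ).right a) < E0.bc.X ((A.ρ γ).right b) := by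
  rw [E0.bc.X_iff E0.bc_gen.1, E0.bc.X_iff E0.bc_gen.1, A.x_MoBase, A.x_MoBase,
    add_lt_add_iff_right, mul_lt_mul_iff_right₀ (lam_pos_MoBase _)]

theorem Y_MoBase (γ : G8) (a b : Zl) :
    E0.bc.Y a < E0.bc.Y b ↔ E0.bc.Y ((A.ρ γ).right a) < E0.bc.Y ((A.ρ γ).right b) := by
  have h := E0.bc.tr.X_iff E0.bc_gen.2
  simp only [Cfg.tr_X, Cfg.tr_x] at h
  rw [h, h, A.y_MoBase, A.y_MoBase, add_lt_add_iff_right,
    mul_lt_mul_iff_right₀ (lam_pos_MoBase _)]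

theorem R_MoBase (γ : G8) (q : Q) : (A.ρ γ).right '' B.R q = B.R (γ • q) := by
  unfold Plan.R
  rw [A.hu]
  exact Rs_image _ (lam_pos_MoBase _) (A.x_MoBase γ) _

theorem Rw_MoBase (γ : G8) (q : Q) :
    (A.ρ γ).right '' Rs E0.bc.y (B.w q) = Rs E0.bc.y (B.w (γ • q)) := by
  rw [A.hw]
  exact Rs_image _ (lam_pos_MoBase _) (A.y_MoBase γ) _

theorem hh (γ : G8) (q : Q) : B.h (γ • q) =
    Kh cz E0.bkey E0.tr.bkey (A.ρ γ).left * rlA (A.ρ γ).right (B.h q) := by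
  have e := rlA_opH (A.ρ γ).right cz (X := E0.bc.X) (X' := E0.bc.X)
    (A := Rs E0.bc.x (B.u q) ∩ Rs E0.bc.y (B.w q))
    (A' := Rs E0.bc.x (B.u (γ • q)) ∩ Rs E0.bc.y (B.w (γ • q)))
    (fun a _ b _ h => (A.X_MoBase γ a b).1 h) (fun l => by
      have h1 := A.R_MoBase γ q
      unfold Plan.R at h1
      rw [← h1, ← A.Rw_MoBase γ q, Set.mem_inter_iff, Set.mem_inter_iff,
        (A.ρ γ).right.injective.mem_set_image, (A.ρ γ).right.injective.mem_set_image])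
  rw [B.relv (γ • q), B.relv q, rlA_Kh _ cz (A.X_MoBase γ) (A.Y_MoBase γ), map_mul (rlA _), e,
    A.hg, mul_assoc, map_mul]
  rfl

include A in
theorem mv (γ : G8) {p q : Q} (h : B.MV p q) : B.MV (γ • p) (γ • q) :=
  ⟨by rw [A.hg, A.hg, h.1], by rw [A.hu, A.hu, h.2]⟩

include A in
theorem mh (γ : G8) {p q : Q} (h : B.MH p q) : B.MH (γ • p) (γ • q) :=
  ⟨by rw [A.hh, A.hh, h.1], by rw [A.hw, A.hw, h.2]⟩

include A in
theorem sv (γ : G8) (p q : Q) :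
    B.dv (γ • p) (γ • q) = (Real.goldenRatio ^ 2) ^ (g8deg γ) * B.dv p q := by
  obtain ⟨b, h⟩ := B.box_ex p q
  have e := h.2.2.dW_rl (B.at_R p) (B.at_R q) (A.ρ γ).right (lam_pos_MoBase _).le (A.x_MoBase γ)
  have e2 : (B.g (γ • p))⁻¹ * B.g (γ • q) = rlA (A.ρ γ).right ((B.g p)⁻¹ * B.g q) := by
    rw [A.hg, A.hg, map_mul, map_inv]
    group
  unfold Plan.dv
  rw [e2, A.hu, A.hu]
  exact e

include A in
theorem sh (γ : G8) (p q : Q) :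
    B.dh (γ • p) (γ • q) = (Real.goldenRatio ^ 2) ^ (-g8deg γ) * B.dh p q := by
  obtain ⟨b, h⟩ := B.tr.box_ex p q
  have e := h.2.2.dW_rl (B.tr.at_R p) (B.tr.at_R q) (A.ρ γ).right (lam_pos_MoBase _).le
    (A.y_MoBase γ)
  have e2 : (B.h (γ • p))⁻¹ * B.h (γ • q) = rlA (A.ρ γ).right ((B.h p)⁻¹ * B.h q) := by
    rw [A.hh, A.hh, map_mul, map_inv]
    group
  unfold Plan.dh
  rw [e2, A.hw, A.hw]
  exact e

theorem cusp_MoBase (γ : G8) {a : Zl} {r : Q} (h : B.Cusp a r) :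
    B.Cusp ((A.ρ γ).right a) (γ • r) :=
  ⟨by rw [A.hu, h.1, A.x_MoBase], by rw [A.hw, h.2, A.y_MoBase]⟩

theorem step_MoBase (γ : G8) {D : Set Zl} {p q : Q} (h : B.Step D p q) :
    B.Step ((A.ρ γ).right '' D) (γ • p) (γ • q) := by
  obtain ⟨⟨y0, y1, h1⟩, h2⟩ := h
  refine ⟨⟨_, _, h1.image _ (lam_pos_MoBase _) (A.y_MoBase γ)⟩, ?_⟩
  rw [A.hg, A.hg, h2, map_mul, rlA_stp cz _ (A.X_MoBase γ), A.R_MoBase, A.R_MoBase, mul_assoc]

theorem rt0_MoBase {γ : G8} (h : g8deg γ = 0) (p : Zl) : (A.ρ γ).right p = p + A.e γ := by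
  rw [A.rt, h]
  simp

omit [MulAction G8 Q] in
theorem uniq_MoBase {a a' : Zl} {r : Q} (h : B.Cusp a r) (h' : B.Cusp a' r) : a = a' :=
  E0.bc_gen.1 (Prod.mk.inj (h.1.symm.trans h'.1)).1

theorem rho_c_MoBase : A.ρ g8c = SemidirectProduct.inl (emb (lt 0 cz⁻¹)) := by
  refine SemidirectProduct.ext A.hc.1 ?_
  ext p : 1
  rw [A.rt0_MoBase deg_c_MoBase, A.hc.2]
  simp

include A in
theorem cpow_MoBase (k : ℤ) : B.Cusp 0 (g8c ^ k • P0) ∧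
    B.g (g8c ^ k • P0) = emb (lt 0 (cz⁻¹ ^ k)) := by
  have e : A.ρ (g8c ^ k) = SemidirectProduct.inl (emb (lt 0 (cz⁻¹ ^ k))) := by
    rw [map_zpow, A.rho_c_MoBase, ← map_zpow, ← map_zpow, ← ltH_apply, ← ltH_apply,
      map_zpow (ltH (0 : Zl))]
  constructor
  · have := A.cusp_MoBase (g8c ^ k) A.c0
    rw [e] at this
    exact this
  · rw [A.hg, A.g0, e]
    simp

include A in
theorem touch_MoBase {γ : G8} {a : Zl} {x : CZ} {r : Q} (h1 : B.Cusp a (γ • P0))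
    (h2 : B.Cusp a r) (h : B.Touch a x (γ • P0) r) : ∃ k : ℤ, (γ * g8c ^ k) • P0 = r := by
  obtain ⟨n, rfl⟩ := cz_gen x
  have ha : (A.ρ γ).right 0 = a := uniq_MoBase (A.cusp_MoBase γ A.c0) h1
  obtain ⟨c1, c2⟩ := A.cpow_MoBase (-n)
  have c3 := A.cusp_MoBase γ c1
  rw [ha] at c3
  refine ⟨-n, ?_⟩
  rw [mul_smul]
  refine B.ext _ _ ?_ (c3.1.trans h2.1.symm) (c3.2.trans h2.2.symm)
  rw [h.2.2, A.hg, A.hg γ P0, c2, A.g0, rlA_emb, rl_lt, ha]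
  simp

/-- The elements which move the base point by a top level step. -/
def F_MoBase (B : Plan cz E0.bc Q) (P0 : Q) (y1 : ℝ) (a a' : Zl) : Set G8 :=
  {f | g8deg f = 0 ∧ B.Cusp (a' - a) (f • P0) ∧
    B.Step {l | y1 - E0.η a < E0.η l} P0 (f • P0)}

include A in
theorem sub_MoBase (y1 : ℝ) (a a' : Zl) : (F_MoBase B P0 y1 a a').Subsingleton := by
  rintro f ⟨f1, f2, f3⟩ f' ⟨g1, g2, g3⟩
  have hu : B.u (f • P0) = B.u (f' • P0) := f2.1.trans g2.1.symm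
  have e : f • P0 = f' • P0 := by
    refine B.ext _ _ ?_ hu (f2.2.trans g2.2.symm)
    rw [f3.2, g3.2]
    unfold Plan.R
    rw [hu]
  have := A.free (f'⁻¹ * f) (by rw [deg_mul_MoBase, deg_inv_MoBase, f1, g1]; simp)
    (by rw [mul_smul, e, inv_smul_smul])
  exact (inv_mul_eq_one.1 this).symm

include A in
theorem mem_MoBase {y1 : ℝ} {a a' : Zl} {δ δ' : G8} (d1 : g8deg δ = 0) (d2 : g8deg δ' = 0)
    (h1 : B.Cusp a (δ • P0)) (h2 : B.Cusp a' (δ' • P0))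
    (h : B.Step {l | y1 < E0.bc.y l} (δ • P0) (δ' • P0)) : δ⁻¹ * δ' ∈ F_MoBase B P0 y1 a a' := by
  have d3 : g8deg δ⁻¹ = 0 := by rw [deg_inv_MoBase, d1, neg_zero]
  have k1 := A.cusp_MoBase δ⁻¹ h1
  have k2 := A.cusp_MoBase δ⁻¹ h2
  have k3 := A.step_MoBase δ⁻¹ h
  rw [inv_smul_smul] at k1 k3
  rw [A.rt0_MoBase d3] at k1 k2
  have he : A.e δ⁻¹ = -a := by
    have := uniq_MoBase k1 A.c0
    linear_combination this
  rw [he, ← sub_eq_add_neg, ← mul_smul] at k2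
  have hD : (A.ρ δ⁻¹).right '' {l | y1 < E0.bc.y l} = {l | y1 - E0.η a < E0.η l} := by
    ext l
    constructor
    · rintro ⟨m, hm, rfl⟩
      have hm' : y1 < E0.η m := hm
      change y1 - E0.η a < E0.η ((A.ρ δ⁻¹).right m)
      rw [A.rt0_MoBase d3, he, map_add, map_neg]
      linarith
    · intro hl
      have hl' : y1 - E0.η a < E0.η l := hl
      refine ⟨l + a, ?_, ?_⟩
      · change y1 < E0.η (l + a)
        rw [map_add]
        linarith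
      · rw [A.rt0_MoBase d3, he]
        ring
  rw [hD, ← mul_smul] at k3
  exact ⟨by rw [deg_mul_MoBase, d3, d2]; simp, k2, k3⟩

include A in
theorem elem (T : ℝ) : ∃ (F : Finset G8) (N : ℕ), ∀ γ : G8, g8deg γ = 0 →
    B.dv P0 (γ • P0) + B.dh P0 (γ • P0) ≤ T →
    ∃ l : List (ℤ × G8 × ℤ), l.length ≤ N ∧ (∀ e ∈ l, e.2.1 ∈ F) ∧
      γ = (l.map (fun e => g8c ^ e.1 * e.2.1 * g8c ^ e.2.2)).prod := by
  obtain ⟨S, N, y1, hS⟩ := B.elem E0.bc_gen cz_ne cz_gen A.c0 T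
  have hF : (⋃ a ∈ S, ⋃ a' ∈ S, F_MoBase B P0 y1 a a').Finite :=
    S.finite_toSet.biUnion fun a _ => S.finite_toSet.biUnion fun a' _ =>
      (A.sub_MoBase y1 a a').finite
  refine ⟨hF.toFinset, N, fun γ hγ hT => ?_⟩
  obtain ⟨n, hn, t, t', e, x, t0, tn, h1, h2⟩ := hS _ _ (A.cusp_MoBase γ A.c0) hT
  have key : ∀ m ≤ n, ∃ l : List (ℤ × G8 × ℤ), l.length = m ∧ (∀ e ∈ l, e.2.1 ∈ hF.toFinset) ∧
      g8deg (l.map (fun e => g8c ^ e.1 * e.2.1 * g8c ^ e.2.2)).prod = 0 ∧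
      (l.map (fun e => g8c ^ e.1 * e.2.1 * g8c ^ e.2.2)).prod • P0 = t m := by
    intro m
    induction m with
    | zero => exact fun _ => ⟨[], rfl, by simp, by simpa using deg_one_MoBase, by simp [t0]⟩
    | succ m ih =>
      intro hm
      obtain ⟨l, l1, l2, l3, l4⟩ := ih (by omega)
      generalize hδ : (l.map (fun e => g8c ^ e.1 * e.2.1 * g8c ^ e.2.2)).prod = δ at l3 l4
      obtain ⟨a1, a2, a3⟩ := h2 m (by omega)
      obtain ⟨b1, b2⟩ := h1 m (by omega)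
      obtain ⟨c1, c2⟩ := h1 (m + 1) hm
      rw [← l4] at a2 b2
      obtain ⟨k, hk⟩ := A.touch_MoBase b2 a1 a2
      obtain ⟨δ', d1, d2⟩ := A.cusp _ _ c2
      rw [← hk] at a1 a3
      rw [← d2] at a3 c2
      have hf := A.mem_MoBase (by rw [deg_mul_MoBase, deg_zpow_MoBase, deg_c_MoBase, l3]; simp)
        d1 a1 c2 a3
      have hp : ((l ++ [(k, (δ * g8c ^ k)⁻¹ * δ', (0 : ℤ))]).map
          (fun e : ℤ × G8 × ℤ => g8c ^ e.1 * e.2.1 * g8c ^ e.2.2)).prod = δ' := by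
        rw [List.map_append, List.prod_append, hδ]
        simp only [List.map_cons, List.map_nil, List.prod_cons, List.prod_nil]
        group
      refine ⟨l ++ [(k, (δ * g8c ^ k)⁻¹ * δ', 0)], by simp [l1], ?_, by rw [hp, d1],
        by rw [hp, d2]⟩
      intro z hz
      rcases List.mem_append.1 hz with hz | hz
      · exact l2 z hz
      · rw [List.mem_singleton.1 hz, Set.Finite.mem_toFinset]
        exact Set.mem_biUnion b1 (Set.mem_biUnion c1 hf)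
  obtain ⟨l, l1, l2, l3, l4⟩ := key n le_rfl
  refine ⟨l, by omega, l2, ?_⟩
  have := A.free (γ⁻¹ * (l.map (fun e => g8c ^ e.1 * e.2.1 * g8c ^ e.2.2)).prod)
    (by rw [deg_mul_MoBase, deg_inv_MoBase, hγ, l3]; simp)
    (by rw [mul_smul, l4, tn, inv_smul_smul])
  exact inv_mul_eq_one.1 this

include A in
theorem fixc_MoBase : B.dv (g8c • P0) P0 = 0 ∧ B.dh (g8c • P0) P0 = 0 := by
  obtain ⟨c1, c2⟩ := A.cpow_MoBase 1
  rw [zpow_one] at c1 c2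
  have h : B.Touch 0 (cz⁻¹ ^ (1 : ℤ)) P0 (g8c • P0) :=
    ⟨by rw [A.c0.1], by rw [c1.1], by rw [c2, A.g0, one_mul]⟩
  rw [B.pv.symm, B.ph.symm]
  exact ⟨h.dv', h.dh E0.bc_gen cz_ne cz_gen (by rw [A.c0.2]) (by rw [c1.2])⟩

include A in
theorem fixt_MoBase : g8t • P0 = P0 := by
  have h := A.cusp_MoBase g8t A.c0
  rw [A.rt, A.ht.2, mul_zero, add_zero] at h
  refine B.ext _ _ ?_ (h.1.trans A.c0.1.symm) (h.2.trans A.c0.2.symm)
  rw [A.hg, A.g0, A.ht.1]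
  simp

include A in
theorem dense_MoBase (q : Q) :
    ∃ γ : G8, g8deg γ = 0 ∧ B.dv q (γ • P0) + B.dh q (γ • P0) ≤ 6 := by
  obtain ⟨a, a1, a2, a3, a4⟩ := E0.bc_den (B.u q).1 (B.w q).1
  obtain ⟨r, r1, r2, r3⟩ := B.cusp_at_MoBase q a
  obtain ⟨γ, g1, rfl⟩ := A.cusp r a r1
  rw [abs_of_pos (by linarith)] at r2 r3
  exact ⟨γ, g1, by linarith⟩

include A in
theorem base_ex : ∃ S : Base Q, S.dv = B.dv ∧ S.dh = B.dh ∧ S.dg = g8deg ∧ S.P0 = P0 ∧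
    S.lam = Real.goldenRatio ^ 2 :=
  ⟨{ lam := Real.goldenRatio ^ 2
     lam1 := one_lt_pow₀ Real.one_lt_goldenRatio (by norm_num)
     dv := B.dv
     dh := B.dh
     dg := g8deg
     dg_mul := deg_mul_MoBase
     dg_t := Or.inl deg_t_MoBase
     dg_c := deg_c_MoBase
     bi := B.biTree E0.bc_gen cz_ne
     nr := ⟨4 * 3, by norm_num, B.noRect E0.bc_gen cz_ne (by norm_num) E0.bc_den⟩
     sv := A.sv
     sh := A.sh
     P0 := P0
     fix_c := A.fixc_MoBase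
     fix_t := by rw [A.fixt_MoBase]; exact ⟨B.pv.self _, B.ph.self _⟩
     dense := ⟨6, A.dense_MoBase⟩
     elem := A.elem
     sideV := B.side_MoBase E0.bc_gen _ _ A.cusp
     sideH := B.tr.side_MoBase E0.bc_gen.tr _ _ fun r a h => A.cusp r a ⟨h.2, h.1⟩ },
    rfl, rfl, rfl, rfl, rfl⟩

end BAct

end Pool.Agent.E5f
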