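import Pool.Agent.E5f.PlPlan
import Pool.Agent.E5f.LsLink

/-!
Elementary properties of steps and box words.
-/

set_option autoImplicit false

namespace Pool.Agent.E5f

open Filter Classical

section
variable {L C : Type} [CommGroup C] {c : C} {Z : Cfg L} {b : Bx} {R R' R'' : Set L}
  {ω ω' : WL L C}

theorem up_total {X : Od L} (hR : Up X R) (hR' : Up X R') : R ⊆ R' ∨ R' ⊆ R :=
  (hR.total hR').symm

theorem pj_emb_of_sup {S : Finset L} {g : W L C} (h : Sup (S : Set L) g) : pj S (emb g) = g := by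
  rw [pj_emb, sup_iff.1 h]

theorem sup_lab (g : W L C) : Sup ((lab g).toFinset : Set L) g := fun l hl => by simpa using hl

theorem emb_inj : Function.Injective (emb : W L C → WL L C) := by
  rw [injective_iff_map_eq_one]
  intro g hg
  rw [← pj_emb_of_sup (sup_lab g), hg, map_one]

theorem opH_congr (c : C) (X : Od L) {A A' : Set L} (h : ∀ l, l ∈ A ↔ l ∈ A') :
    opH c X A = opH c X A' := by rw [Set.ext h]

theorem opH_finset (c : C) (X : Od L) (T : Finset L) {A : Set L} (h : ∀ l, l ∈ A ↔ l ∈ T) :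
    opH c X A = emb (op X c T) :=
  WL_ext fun S => by
    rw [pj_opH, pj_emb, ret_op']
    congr 1
    ext l
    simp only [mem_cut, Finset.mem_coe, h]
    exact and_comm

theorem stp_sub (c : C) {X : Od L} (hR' : Up X R') (h : R' ⊆ R) (D : Set L) :
    stp c X R R' D = opH c X ((R \ R') ∩ D) := stp_of_sub c D hR' h

theorem stp_congr (c : C) {X : Od L} {D D' : Set L} (hR : Up X R) (hR' : Up X R')
    (h : ∀ l, ¬ (l ∈ R ↔ l ∈ R') → (l ∈ D ↔ l ∈ D')) : stp c X R R' D = stp c X R R' D' := by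
  rcases up_total hR hR' with h1 | h1
  · rw [← stp_inv, ← stp_inv c X R' R D', stp_sub c hR h1, stp_sub c hR h1]
    congr 1
    exact opH_congr c X fun l => and_congr_right fun k => h l fun k' => k.2 (k'.2 k.1)
  · rw [stp_sub c hR' h1, stp_sub c hR' h1]
    exact opH_congr c X fun l => and_congr_right fun k => h l fun k' => k.2 (k'.1 k.1)

theorem stp_agr (c : C) {X X' : Od L} (h : Agr Set.univ X X') (R R' D : Set L) :
    stp c X R R' D = stp c X' R R' D := by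
  unfold stp
  rw [opH_agr c (h.mono (Set.subset_univ _)), opH_agr c (X := X) (h.mono (Set.subset_univ _))]

theorem rlA_stp (c : C) (σ : Equiv.Perm L) {X X' : Od L}
    (h : ∀ a b, X a < X b ↔ X' (σ a) < X' (σ b)) (R R' D : Set L) :
    rlA σ (stp c X R R' D) = stp c X' (σ '' R) (σ '' R') (σ '' D) := by
  unfold stp
  rw [map_mul, map_inv,
    rlA_opH σ c (X' := X') (A := R ∩ D) (A' := σ '' R ∩ σ '' D) (fun a _ b _ k => (h a b).1 k)
      (fun l => by simp),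
    rlA_opH σ c (X' := X') (A := R' ∩ D) (A' := σ '' R' ∩ σ '' D) (fun a _ b _ k => (h a b).1 k)
      (fun l => by simp)]

theorem Cfg.bl_ev (Z : Cfg L) (b : Bx) : ∀ᶠ S : Finset L in atTop, Z.bl b ⊆ (S : Set L) :=
  (eventually_ge_atTop (Z.bl_fin b).toFinset).mono fun _ hS _ hl =>
    hS ((Z.bl_fin b).mem_toFinset.2 hl)

theorem Cfg.X_iff (Z : Cfg L) (h : Function.Injective Z.x) (l m : L) :
    Z.X l < Z.X m ↔ Z.x l < Z.x m :=
  ⟨fun k => lt_of_le_of_ne (Z.x_le k.le) (fun e => by rw [h e] at k; exact lt_irrefl _ k), Z.X_lt⟩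

theorem Cfg.Gen.tr (h : Z.Gen) : Z.tr.Gen := ⟨h.2, h.1⟩

theorem Cfg.Den.tr {Λ : ℝ} (h : Z.Den Λ) : Z.tr.Den Λ := fun a b => by
  obtain ⟨l, h1, h2, h3, h4⟩ := h b a
  exact ⟨l, h3, h4, h1, h2⟩

theorem Rs_eq_Rl (Z : Cfg L) (h : Function.Injective Z.x) (l : L) :
    Rs Z.x (Z.x l, true) = Rl Z.X l := by
  ext m
  simp only [Rs, Rl, Set.mem_ofPred_eq, Z.X_iff h]
  simp

theorem up_eq_Rs (Z : Cfg L) (h : Function.Injective Z.x) {lo hi : ℝ} (hl : lo ≤ hi)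
    (hR : Up Z.X R) (hB : InB Z.x lo hi R) : ∃ u : Mk, R = Rs Z.x u ∧ lo ≤ u.1 ∧ u.1 ≤ hi := by
  have hb : ∀ t ∈ insert lo (Z.x '' Rᶜ), t ≤ hi := by
    rintro t (rfl | ⟨l, h1, rfl⟩)
    · exact hl
    · exact not_lt.1 fun k => h1 ((hB l).1 k)
  have hne : (insert lo (Z.x '' Rᶜ)).Nonempty := ⟨lo, Or.inl rfl⟩
  have h1 : lo ≤ sSup (insert lo (Z.x '' Rᶜ)) := le_csSup ⟨hi, hb⟩ (Or.inl rfl)
  have h2 : sSup (insert lo (Z.x '' Rᶜ)) ≤ hi := csSup_le hne hb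
  have h3 : ∀ l, l ∉ R → Z.x l ≤ sSup (insert lo (Z.x '' Rᶜ)) :=
    fun l k => le_csSup ⟨hi, hb⟩ (Or.inr ⟨l, k, rfl⟩)
  have h4 : ∀ l, l ∈ R → sSup (insert lo (Z.x '' Rᶜ)) ≤ Z.x l := by
    intro l k
    refine csSup_le hne ?_
    rintro t (rfl | ⟨m, k1, rfl⟩)
    · exact not_lt.1 fun k2 => (hB l).2 k2 k
    · exact not_lt.1 fun k2 => k1 (hR l m k (Z.X_lt k2))
  generalize sSup (insert lo (Z.x '' Rᶜ)) = a at h1 h2 h3 h4
  by_cases he : ∃ m, m ∉ R ∧ Z.x m = a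
  · obtain ⟨m, k1, k2⟩ := he
    refine ⟨(a, true), ?_, h1, h2⟩
    ext l
    simp only [Rs, Set.mem_ofPred_eq, Bool.true_eq_false, and_false, or_false]
    refine ⟨fun k => lt_of_le_of_ne (h4 l k) fun e => k1 ?_, fun k => ?_⟩
    · rw [h (k2.trans e)]; exact k
    · by_contra k3
      exact absurd (h3 l k3) (not_le.2 k)
  · refine ⟨(a, false), ?_, h1, h2⟩
    ext l
    simp only [Rs, Set.mem_ofPred_eq, and_true]
    refine ⟨fun k => (h4 l k).lt_or_eq, fun k => ?_⟩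
    by_contra k3
    rcases k with k | k
    · exact absurd (h3 l k3) (not_le.2 k)
    · exact he ⟨l, k3, k.symm⟩

/-- Crossed labels lie in the band. -/
theorem InB.band {ρ : L → ℝ} {lo hi : ℝ} (h : InB ρ lo hi R) (h' : InB ρ lo hi R') {l : L}
    (hl : ¬ (l ∈ R ↔ l ∈ R')) : lo ≤ ρ l ∧ ρ l ≤ hi := by
  constructor
  · by_contra k
    have := (h l).2 (not_le.1 k)
    have := (h' l).2 (not_le.1 k)
    tauto
  · by_contra k
    have := (h l).1 (not_le.1 k)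
    have := (h' l).1 (not_le.1 k)
    tauto

theorem Up.agr {X X' : Od L} (h : Up X R) (hX : Agr Set.univ X X') : Up X' R :=
  fun l m h1 h2 => h l m h1 ((hX l trivial m trivial).2 h2)

/-- Transfer to a configuration with the same order of abscissae. -/
theorem BoxW.transfer {Z' : Cfg L} {b' : Bx} (h : BoxW c Z b R R' ω) (hX : Agr Set.univ Z.X Z'.X)
    (hx : ∀ T, Up Z.X T → InB Z.x b.x0 b.x1 T → InB Z'.x b'.x0 b'.x1 T)
    (hy : ∀ D, InB Z.y b.y0 b.y1 D → ∃ D', InB Z'.y b'.y0 b'.y1 D' ∧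
      ∀ l, b.x0 ≤ Z.x l → Z.x l ≤ b.x1 → (l ∈ D ↔ l ∈ D')) : BoxW c Z' b' R R' ω := by
  induction h with
  | refl h1 h2 => exact BoxW.refl (h1.agr hX) (hx _ h1 h2)
  | step h0 h1 h2 h3 ih =>
    obtain ⟨D', k1, k2⟩ := hy _ h3
    rw [stp_congr c h0.right.1 h1 (D' := D')
      (fun l hl => k2 l (h0.right.2.band h2 hl).1 (h0.right.2.band h2 hl).2), stp_agr c hX]
    exact BoxW.step ih (h1.agr hX) (hx _ h1 h2) k1

theorem Up.image {X X' : Od L} (σ : Equiv.Perm L) (hx : ∀ a b, X a < X b ↔ X' (σ a) < X' (σ b))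
    (h : Up X R) : Up X' (σ '' R) := by
  rintro _ m ⟨l, hl, rfl⟩ h1
  obtain ⟨m, rfl⟩ := σ.surjective m
  exact ⟨m, h l m hl ((hx l m).2 h1), rfl⟩

/-- Relabelling. -/
theorem BoxW.rl {Z' : Cfg L} {b' : Bx} (h : BoxW c Z b R R' ω) (σ : Equiv.Perm L)
    (hX : ∀ l m, Z.X l < Z.X m ↔ Z'.X (σ l) < Z'.X (σ m))
    (hx : ∀ T, InB Z.x b.x0 b.x1 T → InB Z'.x b'.x0 b'.x1 (σ '' T))
    (hy : ∀ D, InB Z.y b.y0 b.y1 D → InB Z'.y b'.y0 b'.y1 (σ '' D)) :
    BoxW c Z' b' (σ '' R) (σ '' R') (rlA σ ω) := by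
  induction h with
  | refl h1 h2 =>
    rw [map_one]
    exact BoxW.refl (h1.image σ hX) (hx _ h2)
  | step _ h1 h2 h3 ih =>
    rw [map_mul, rlA_stp c σ hX]
    exact BoxW.step ih (h1.image σ hX) (hx _ h2) (hy _ h3)

theorem InB.image {ρ ρ' : L → ℝ} (σ : Equiv.Perm L) {α β : ℝ} (hα : 0 < α)
    (h : ∀ l, ρ' (σ l) = α * ρ l + β) {lo hi : ℝ} (hR : InB ρ lo hi R) :
    InB ρ' (α * lo + β) (α * hi + β) (σ '' R) := by
  intro l
  obtain ⟨l, rfl⟩ := σ.surjective l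
  rw [h, σ.injective.mem_set_image]
  exact ⟨fun k => (hR l).1 (lt_of_mul_lt_mul_left (by linarith) hα.le),
    fun k => (hR l).2 (lt_of_mul_lt_mul_left (by linarith) hα.le)⟩

theorem Rs_image {ρ ρ' : L → ℝ} (σ : Equiv.Perm L) {α β : ℝ} (hα : 0 < α)
    (h : ∀ l, ρ' (σ l) = α * ρ l + β) (u : Mk) :
    σ '' Rs ρ u = Rs ρ' (α * u.1 + β, u.2) := by
  ext l
  obtain ⟨l, rfl⟩ := σ.surjective l
  rw [σ.injective.mem_set_image]
  simp only [Rs, Set.mem_ofPred_eq, h, add_lt_add_iff_right, add_left_inj,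
    mul_lt_mul_iff_right₀ hα, mul_right_inj' hα.ne']

theorem Rl_image {X X' : Od L} (σ : Equiv.Perm L) (hx : ∀ a b, X a < X b ↔ X' (σ a) < X' (σ b))
    (l : L) : σ '' Rl X l = Rl X' (σ l) := by
  ext m
  obtain ⟨m, rfl⟩ := σ.surjective m
  rw [σ.injective.mem_set_image]
  exact hx l m

/-- The image of a box under a positive affine map. -/
def Bx.aff (b : Bx) (α β α' β' : ℝ) : Bx :=
  ⟨α * b.x0 + β, α * b.x1 + β, α' * b.y0 + β', α' * b.y1 + β'⟩

/-- Relabelling by an affine map. -/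
theorem BoxW.aff {Z' : Cfg L} (h : BoxW c Z b R R' ω) (σ : Equiv.Perm L) {α β α' β' : ℝ}
    (hα : 0 < α) (hα' : 0 < α') (hX : ∀ l m, Z.X l < Z.X m ↔ Z'.X (σ l) < Z'.X (σ m))
    (hx : ∀ l, Z'.x (σ l) = α * Z.x l + β) (hy : ∀ l, Z'.y (σ l) = α' * Z.y l + β') :
    BoxW c Z' (b.aff α β α' β') (σ '' R) (σ '' R') (rlA σ ω) :=
  h.rl σ hX (fun _ k => k.image σ hα hx) (fun _ k => k.image σ hα' hy)

/-- A step whose status set is bounded in the band of the crossed labels is a box word. -/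
theorem BoxW.band {D : Set L} (h1 : Up Z.X R) (h2 : InB Z.x b.x0 b.x1 R) (h3 : Up Z.X R')
    (h4 : InB Z.x b.x0 b.x1 R') (hb : b.y0 ≤ b.y1)
    (hD : ∀ l, b.x0 ≤ Z.x l → Z.x l ≤ b.x1 → (b.y1 < Z.y l → l ∈ D) ∧ (Z.y l < b.y0 → l ∉ D)) :
    BoxW c Z b R R' (stp c Z.X R R' D) := by
  rw [stp_congr c h1 h3 (D := D)
    (D' := {l | (b.x0 ≤ Z.x l ∧ Z.x l ≤ b.x1 ∧ l ∈ D) ∨ b.y1 < Z.y l})]
  · refine BoxW.single h1 h2 h3 h4 fun l => ⟨fun k => Or.inr k, fun k k' => ?_⟩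
    rcases k' with ⟨k1, k2, k3⟩ | k1
    · exact (hD l k1 k2).2 k k3
    · linarith
  · intro l hl
    obtain ⟨k1, k2⟩ := h2.band h4 hl
    exact ⟨fun k => Or.inl ⟨k1, k2, k⟩, fun k => k.elim (fun k => k.2.2) (hD l k1 k2).1⟩

theorem expo_stp (c : C) (X : Od L) (R R' D : Set L) {ν : L} {S : Finset L} (hS : ν ∈ S) :
    expo ν (pj S (stp c X R R' D)) =
      (if ν ∈ R ∩ D then c else 1) * (if ν ∈ R' ∩ D then c else 1)⁻¹ := by
  rw [pj_stp, map_mul, map_inv, expo_op, expo_op]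
  simp only [mem_cut, hS, true_and]

/-- The exponent of a label outside the box. -/
theorem BoxW.expo_out (h : BoxW c Z b R R' ω) {ν : L} (hν : ν ∉ Z.bl b) {S : Finset L}
    (hS : ν ∈ S) : expo ν (pj S ω) =
      if b.y1 < Z.y ν then (if ν ∈ R then c else 1) * (if ν ∈ R' then c else 1)⁻¹ else 1 := by
  induction h with
  | refl _ _ => simp
  | @step R1 R2 D ω h0 h1 h2 h3 ih =>
    rw [map_mul, map_mul, ih, expo_stp c Z.X R1 R2 D hS]
    by_cases hy : b.y1 < Z.y ν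
    · have := (h3 ν).1 hy
      by_cases k : ν ∈ R1 <;> simp [hy, this, k]
    · rcases Z.not_bl hν with (k | k | k) | k
      · simp [hy, (h0.right.2 ν).2 k, (h2 ν).2 k]
      · simp [hy, (h0.right.2 ν).1 k, (h2 ν).1 k]
      · simp [hy, (h3 ν).2 k]
      · exact absurd k hy

theorem rl_ev {L' : Type} (σ : L → L') (w : List (L × C)) :
    rl σ (ev w) = ev (w.map (fun e => (σ e.1, e.2))) := by
  induction w with
  | nil => simp
  | cons e w ih => simp [ih]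

theorem wd_rl {L' : Type} {σ : L → L'} (hσ : Function.Injective σ) (g : W L C) :
    wd (rl σ g) = (wd g).map (fun e => (σ e.1, e.2)) := by
  conv_lhs => rw [← ev_wd g, rl_ev]
  refine wd_ev ⟨fun e he => ?_, ?_⟩
  · obtain ⟨e', he', rfl⟩ := List.mem_map.1 he
    exact (red_wd g).1 e' he'
  · rw [List.isChain_map]
    exact (red_wd g).2.imp (fun _ _ k k' => k (hσ k'))

theorem lab_rl {L' : Type} {σ : L → L'} (hσ : Function.Injective σ) (g : W L C) :
    lab (rl σ g) = (lab g).map σ := by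
  unfold lab
  rw [wd_rl hσ, List.map_map, List.map_map]
  rfl

theorem Var_aff {s : ℝ} (hs : 0 ≤ s) (t : ℝ) : ∀ l : List ℝ,
    Var (l.map (fun x => s * x + t)) = s * Var l
  | [] => by simp
  | [_] => by simp
  | x :: y :: l => by
    have := Var_aff hs t (y :: l)
    simp only [List.map_cons] at this ⊢
    rw [Var_cons2, Var_cons2, this, show s * y + t - (s * x + t) = s * (y - x) by ring, abs_mul,
      abs_of_nonneg hs]
    ring

theorem dT_rl {L' : Type} {σ : L → L'} (hσ : Function.Injective σ) {ρ : L → ℝ} {ρ' : L' → ℝ}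
    {s t : ℝ} (hs : 0 ≤ s) (hρ : ∀ l, ρ' (σ l) = s * ρ l + t) (a a' : ℝ) (g : W L C) :
    dT ρ' (s * a + t) (rl σ g) (s * a' + t) = s * dT ρ a g a' := by
  unfold dT
  rw [← Var_aff hs t, lab_rl hσ]
  simp [List.map_map, Function.comp_def, hρ]

/-- Scaling and relabelling of the eventual distance. -/
theorem BoxW.dW_rl (h : BoxW c Z b R R' ω) {a a' : ℝ} (ha : At Z.x R a)
    (ha' : At Z.x R' a') (σ : Equiv.Perm L) {ρ' : L → ℝ} {s t : ℝ} (hs : 0 ≤ s)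
    (hρ : ∀ l, ρ' (σ l) = s * Z.x l + t) :
    dW ρ' (s * a + t) (rlA σ ω) (s * a' + t) = s * dW Z.x a ω a' := by
  refine dW_eq ((Z.bl_fin b).toFinset.map σ.toEmbedding) fun S hS => ?_
  rw [rlA_apply, pj_rlH, dT_rl σ.injective hs hρ, h.att ha ha']
  intro l hl
  have : σ l ∈ S := hS (Finset.mem_map_of_mem _ ((Z.bl_fin b).mem_toFinset.2 hl))
  simpa using this

end

end Pool.Agent.E5f
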