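import Pool.Agent.E5f.MoLat
import Pool.Agent.E5f.SysDefs
import Pool.Agent.E5f.WOp
import Pool.Agent.E5f.PlTree
import Pool.Agent.E5f.LsDefs

/-!
The model: ordered products, change of generators, compatible families of words, box words,
planar models, routes and families of fibres.

Conventions.  V-generators: a slit goes down from every label, passing below `l` from left to
right reads `lt l c`.  H-generators: a slit goes left from every label, passing left of `l` from
bottom to top reads `lt l c`.  The base point is at the north east infinity.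
-/

set_option autoImplicit false

namespace Pool.Agent.E5f

open Filter

section words
variable {L C : Type} [CommGroup C]

open Classical in
/-- The elements of `S` in `A`. -/
noncomputable def cut (S : Finset L) (A : Set L) : Finset L := S.filter (fun l => l ∈ A)

@[simp] theorem mem_cut {S : Finset L} {A : Set L} {l : L} : l ∈ cut S A ↔ l ∈ S ∧ l ∈ A := by
  unfold cut; simp

theorem ret_op' (A : Set L) (X : Od L) (c : C) (T : Finset L) :
    ret A (op X c T) = op X c (cut T A) := by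
  rw [ret_op c X.injective.injOn]
  congr 1

/-- Labels to the right of a label. -/
def Rl (X : Od L) (l : L) : Set L := {m | X l < X m}

/-- Labels up and right of a label. -/
def UR (X Y : Od L) (l : L) : Set L := Rl X l ∩ Rl Y l

/-- Change of generators at the finite level `S`: from the generators ordered by `X` to those
ordered by `Y`. -/
noncomputable def Kf (c : C) (X Y : Od L) (S : Finset L) : W L C →* W L C :=
  lf (fun l => (MulAut.conj (op Y c (cut S (UR X Y l)))⁻¹).toMonoidHom.comp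
    ((ltH l).comp invMonoidHom))

theorem Kf_lt (c : C) (X Y : Od L) (S : Finset L) (l : L) (x : C) :
    Kf c X Y S (lt l x) =
      (op Y c (cut S (UR X Y l)))⁻¹ * lt l x⁻¹ * op Y c (cut S (UR X Y l)) := by
  unfold Kf; rw [lf_lt]; simp

theorem cut_cut_sub {S S' : Finset L} (h : S ⊆ S') (A : Set L) :
    cut (cut S' A) (S : Set L) = cut S A := by
  ext l
  simp only [mem_cut, Finset.mem_coe]
  exact ⟨fun h' => ⟨h'.2, h'.1.2⟩, fun h' => ⟨⟨h h'.1, h'.2⟩, h'.1⟩⟩

theorem ret_Kf (c : C) (X Y : Od L) {S S' : Finset L} (h : S ⊆ S') (g : W L C) :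
    ret (S : Set L) (Kf c X Y S' g) = Kf c X Y S (ret (S : Set L) g) := by
  have : (ret (S : Set L)).comp (Kf c X Y S') = (Kf c X Y S).comp (ret (S : Set L)) := by
    refine W_ext fun l x => ?_
    simp only [MonoidHom.comp_apply, Kf_lt, map_mul, map_inv, ret_op', cut_cut_sub h, ret_lt]
    split_ifs
    · rw [Kf_lt]
    · simp
  exact DFunLike.congr_fun this g

theorem ret_rl {L' : Type} (σ : L → L') (A : Set L') (g : W L C) :
    ret A (rl σ g) = rl σ (ret (σ ⁻¹' A) g) := by
  have : (ret A).comp (rl σ) = (rl σ : W L C →* W L' C).comp (ret (σ ⁻¹' A)) := by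
    refine W_ext fun l x => ?_
    simp only [MonoidHom.comp_apply, rl_lt, ret_lt, Set.mem_preimage]
    by_cases h1 : σ l ∈ A <;> simp [h1]
  exact DFunLike.congr_fun this g

theorem rl_rl {L' L'' : Type} (σ : L → L') (τ : L' → L'') (g : W L C) :
    rl τ (rl σ g) = rl (τ ∘ σ) g := by
  have : (rl τ).comp (rl σ) = (rl (τ ∘ σ) : W L C →* W L'' C) := W_ext fun l x => by simp
  exact DFunLike.congr_fun this g

theorem rl_id (g : W L C) : rl id g = g := by
  have : (rl id : W L C →* W L C) = MonoidHom.id _ := W_ext fun l x => by simp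
  exact DFunLike.congr_fun this g

/-- Compatible families of words over the finite sets of labels. -/
def WLs (L C : Type) [CommGroup C] : Subgroup (Finset L → W L C) where
  carrier := {f | ∀ S S' : Finset L, S ⊆ S' → ret (S : Set L) (f S') = f S}
  mul_mem' := fun {a b} ha hb S S' h => by simp [ha S S' h, hb S S' h]
  one_mem' := fun S S' _ => by simp
  inv_mem' := fun {a} ha S S' h => by simp [ha S S' h]

/-- The group of compatible families. -/
abbrev WL (L C : Type) [CommGroup C] : Type := WLs L C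

/-- The word at the finite level `S`. -/
def pj (S : Finset L) : WL L C →* W L C :=
  (Pi.evalMonoidHom (fun _ : Finset L => W L C) S).comp (WLs L C).subtype

theorem ret_pj {S S' : Finset L} (h : S ⊆ S') (ω : WL L C) :
    ret (S : Set L) (pj S' ω) = pj S ω := ω.2 S S' h

theorem ret_pj_self (S : Finset L) (ω : WL L C) : ret (S : Set L) (pj S ω) = pj S ω :=
  ret_pj (Finset.Subset.refl S) ω

theorem WL_ext {ω ω' : WL L C} (h : ∀ S, pj S ω = pj S ω') : ω = ω' :=
  Subtype.ext (funext h)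

/-- A compatible family from its levels. -/
def mkW (f : Finset L → W L C) (h : ∀ S S' : Finset L, S ⊆ S' → ret (S : Set L) (f S') = f S) :
    WL L C := ⟨f, h⟩

@[simp] theorem pj_mkW (f : Finset L → W L C)
    (h : ∀ S S' : Finset L, S ⊆ S' → ret (S : Set L) (f S') = f S) (S : Finset L) :
    pj S (mkW f h) = f S := rfl

/-- Finite words as compatible families. -/
noncomputable def emb : W L C →* WL L C where
  toFun g := mkW (fun S => ret (S : Set L) g) (fun S S' h => by
    rw [ret_ret, Set.inter_eq_left.2 (Finset.coe_subset.2 h)])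
  map_one' := WL_ext fun S => by simp
  map_mul' a b := WL_ext fun S => by simp

@[simp] theorem pj_emb (S : Finset L) (g : W L C) : pj S (emb g) = ret (S : Set L) g := rfl

/-- The ordered product of the letters `c` over an arbitrary set. -/
noncomputable def opH (c : C) (X : Od L) (A : Set L) : WL L C :=
  mkW (fun S => op X c (cut S A)) (fun S S' h => by rw [ret_op', cut_cut_sub h])

@[simp] theorem pj_opH (c : C) (X : Od L) (A : Set L) (S : Finset L) :
    pj S (opH c X A) = op X c (cut S A) := rfl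

/-- Change of generators on compatible families. -/
noncomputable def Kh (c : C) (X Y : Od L) : WL L C →* WL L C where
  toFun ω := mkW (fun S => Kf c X Y S (pj S ω)) (fun S S' h => by rw [ret_Kf c X Y h, ret_pj h])
  map_one' := WL_ext fun S => by simp
  map_mul' a b := WL_ext fun S => by simp

@[simp] theorem pj_Kh (c : C) (X Y : Od L) (S : Finset L) (ω : WL L C) :
    pj S (Kh c X Y ω) = Kf c X Y S (pj S ω) := rfl

/-- Change of coordinates of the point north east adjacent to the label `l`, finite level. -/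
noncomputable def kapf (c : C) (X Y : Od L) (S : Finset L) (l : L) (g : W L C) : W L C :=
  Kf c X Y S (g * op X c (cut S (UR X Y l)))

/-- Change of coordinates of the point north east adjacent to the label `l`. -/
noncomputable def kap (c : C) (X Y : Od L) (l : L) (g : WL L C) : WL L C :=
  Kh c X Y (g * opH c X (UR X Y l))

theorem pj_kap (c : C) (X Y : Od L) (S : Finset L) (l : L) (g : WL L C) :
    pj S (kap c X Y l g) = kapf c X Y S l (pj S g) := by
  simp [kap, kapf]

/-- Relabelling of compatible families. -/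
noncomputable def rlH (σ : Equiv.Perm L) : WL L C →* WL L C where
  toFun ω := mkW (fun S => rl σ (pj (S.map σ.symm.toEmbedding) ω)) (fun S S' h => by
    have e : (σ ⁻¹' (S : Set L)) = ((S.map σ.symm.toEmbedding : Finset L) : Set L) := by
      ext l; simp
    rw [ret_rl, e, ret_pj (Finset.map_subset_map.2 h)])
  map_one' := WL_ext fun S => by simp
  map_mul' a b := WL_ext fun S => by simp

theorem pj_rlH (σ : Equiv.Perm L) (S : Finset L) (ω : WL L C) :
    pj S (rlH σ ω) = rl σ (pj (S.map σ.symm.toEmbedding) ω) := rfl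

theorem rlH_one (ω : WL L C) : rlH 1 ω = ω := WL_ext fun S => by
  have e : S.map (1 : Equiv.Perm L).symm.toEmbedding = S := by ext l; simp [Finset.mem_map_equiv]
  rw [pj_rlH, e]
  exact rl_id _

theorem rlH_mul (σ τ : Equiv.Perm L) (ω : WL L C) : rlH (σ * τ) ω = rlH σ (rlH τ ω) :=
  WL_ext fun S => by
    have e : S.map (σ * τ).symm.toEmbedding =
        (S.map σ.symm.toEmbedding).map τ.symm.toEmbedding := by
      ext l; simp [Finset.mem_map_equiv]
    rw [pj_rlH, pj_rlH, pj_rlH, rl_rl, e]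
    rfl

/-- Relabelling as an action by automorphisms. -/
noncomputable def rlA : Equiv.Perm L →* MulAut (WL L C) where
  toFun σ := MonoidHom.toMulEquiv (rlH σ) (rlH σ⁻¹)
    (MonoidHom.ext fun ω => by simp [← rlH_mul, rlH_one])
    (MonoidHom.ext fun ω => by simp [← rlH_mul, rlH_one])
  map_one' := MulEquiv.ext fun ω => rlH_one ω
  map_mul' σ τ := MulEquiv.ext fun ω => rlH_mul σ τ ω

theorem rlA_apply (σ : Equiv.Perm L) (ω : WL L C) : rlA σ ω = rlH σ ω := rfl

/-- Left multiplications and relabellings. -/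
abbrev Big (L C : Type) [CommGroup C] : Type := WL L C ⋊[rlA] Equiv.Perm L

open Classical in
/-- The swap map on the coordinate of the point adjacent to the label `l`. -/
noncomputable def psw (a b : L) (x : C) (l : L) (g : W L C) : W L C :=
  sw a b x g * (if l = b then lt a x else 1)

/-- On `S` the order `X'` arises from `X` by the transposition of `f` (which moves right) and `s`
(which moves left). -/
structure Swp (S : Finset L) (X X' : Od L) (f s : L) : Prop where
  hf : f ∈ S
  hs : s ∈ S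
  bef : X f < X s
  aft : X' s < X' f
  oth : ∀ a ∈ S, ∀ b ∈ S, ¬ (a = f ∧ b = s) → ¬ (a = s ∧ b = f) → (X a < X b ↔ X' a < X' b)

/-- The orders agree on `S`. -/
def Agr (S : Set L) (X X' : Od L) : Prop := ∀ a ∈ S, ∀ b ∈ S, (X a < X b ↔ X' a < X' b)

/-- Upper sets. -/
def Up (X : Od L) (R : Set L) : Prop := ∀ l m, l ∈ R → X l < X m → m ∈ R

/-- The set contains the labels above `hi` and no label below `lo`. -/
def InB (ρ : L → ℝ) (lo hi : ℝ) (R : Set L) : Prop :=
  ∀ l, (hi < ρ l → l ∈ R) ∧ (ρ l < lo → l ∉ R)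

/-- The cut `R` is at the real position `a`. -/
def At (ρ : L → ℝ) (R : Set L) (a : ℝ) : Prop := ∀ l, (l ∈ R → a ≤ ρ l) ∧ (l ∉ R → ρ l ≤ a)

/-- Labels to the right of a marker. -/
def Rs (ρ : L → ℝ) (u : Mk) : Set L := {l | u.1 < ρ l ∨ (u.1 = ρ l ∧ u.2 = false)}

/-- The word of a straight step from the cut `R` to the cut `R'` passing below the labels of
`D` and above the others. -/
noncomputable def stp (c : C) (X : Od L) (R R' D : Set L) : WL L C :=
  opH c X (R ∩ D) * (opH c X (R' ∩ D))⁻¹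

open Classical in
/-- Insertion of a high label `ν`. -/
noncomputable def ins (c : C) (X : Od L) (ν : L) : W L C →* W L C :=
  lf (fun l => if X l < X ν then (MulAut.conj (lt ν c : W L C)⁻¹).toMonoidHom.comp (ltH l)
    else ltH l)

open Classical in
/-- The end correction of the insertion of `ν`. -/
noncomputable def jj (c : C) (ν : L) (R : Set L) : W L C := if ν ∈ R then lt ν c else 1

open Classical in
/-- The letter inserted between an entry with side `s` and an entry with side `t`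
(the side says that the entry is left of `ν`). -/
noncomputable def wv (c : C) (ν : L) (s t : Prop) : List (L × C) :=
  if s ↔ t then [] else [(ν, if s then c else c⁻¹)]

/-- The reduced word after the insertion of `ν`. -/
noncomputable def weave (c : C) (X : Od L) (ν : L) : Prop → List (L × C) → Prop → List (L × C)
  | s, [], t => wv c ν s t
  | s, e :: w, t => wv c ν s (X e.1 < X ν) ++ e :: weave c X ν (X e.1 < X ν) w t

/-- Distance in the tree of lines: the eventual value. -/
noncomputable def dW (ρ : L → ℝ) (a : ℝ) (ω : WL L C) (b : ℝ) : ℝ :=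
  limUnder atTop (fun S : Finset L => dT ρ a (pj S ω) b)

end words

/-- A configuration of labels in the plane. -/
structure Cfg (L : Type) where
  X : Od L
  Y : Od L
  fin : ∀ B : ℝ, {l | |(ofLex (X l)).1| ≤ B ∧ |(ofLex (Y l)).1| ≤ B}.Finite

/-- A box. -/
structure Bx where
  x0 : ℝ
  x1 : ℝ
  y0 : ℝ
  y1 : ℝ

/-- The transposed box. -/
def Bx.tr (b : Bx) : Bx := ⟨b.y0, b.y1, b.x0, b.x1⟩

/-- Inclusion of boxes. -/
def Bx.Sub (b b' : Bx) : Prop := b'.x0 ≤ b.x0 ∧ b.x1 ≤ b'.x1 ∧ b'.y0 ≤ b.y0 ∧ b.y1 ≤ b'.y1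

/-- The enlarged box. -/
def Bx.grow (b : Bx) (r s : ℝ) : Bx := ⟨b.x0 - r, b.x1 + r, b.y0 - s, b.y1 + s⟩

/-- The point lies in the box. -/
def Bx.Mem (b : Bx) (s t : ℝ) : Prop := b.x0 ≤ s ∧ s ≤ b.x1 ∧ b.y0 ≤ t ∧ t ≤ b.y1

section planar
variable {L C : Type} [CommGroup C]

/-- Real abscissa. -/
def Cfg.x (Z : Cfg L) (l : L) : ℝ := (ofLex (Z.X l)).1
/-- Real ordinate. -/
def Cfg.y (Z : Cfg L) (l : L) : ℝ := (ofLex (Z.Y l)).1

/-- The transposed configuration. -/
def Cfg.tr (Z : Cfg L) : Cfg L :=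
  ⟨Z.Y, Z.X, fun B => (Z.fin B).subset (fun _ h => ⟨h.2, h.1⟩)⟩

@[simp] theorem Cfg.tr_X (Z : Cfg L) : Z.tr.X = Z.Y := rfl
@[simp] theorem Cfg.tr_Y (Z : Cfg L) : Z.tr.Y = Z.X := rfl
@[simp] theorem Cfg.tr_x (Z : Cfg L) : Z.tr.x = Z.y := rfl
@[simp] theorem Cfg.tr_y (Z : Cfg L) : Z.tr.y = Z.x := rfl
@[simp] theorem Cfg.tr_tr (Z : Cfg L) : Z.tr.tr = Z := rfl

/-- Generic configurations. -/
def Cfg.Gen (Z : Cfg L) : Prop := Function.Injective Z.x ∧ Function.Injective Z.y

/-- Every open square of side `Λ` contains a label. -/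
def Cfg.Den (Z : Cfg L) (Λ : ℝ) : Prop :=
  ∀ a b : ℝ, ∃ l, a < Z.x l ∧ Z.x l < a + Λ ∧ b < Z.y l ∧ Z.y l < b + Λ

/-- The labels of a box. -/
def Cfg.bl (Z : Cfg L) (b : Bx) : Set L := {l | b.Mem (Z.x l) (Z.y l)}

/-- Words of paths inside a box from the cut `R` to another cut. -/
inductive BoxW (c : C) (Z : Cfg L) (b : Bx) (R : Set L) : Set L → WL L C → Prop
  | refl : Up Z.X R → InB Z.x b.x0 b.x1 R → BoxW c Z b R R 1
  | step {R' R'' D : Set L} {ω : WL L C} : BoxW c Z b R R' ω → Up Z.X R'' →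
      InB Z.x b.x0 b.x1 R'' → InB Z.y b.y0 b.y1 D →
      BoxW c Z b R R'' (ω * stp c Z.X R' R'' D)

/-- A planar model: a connected set of points with V-word `g`, H-word `h` and markers `u`, `w`,
closed under vertical and horizontal moves. -/
structure Plan (c : C) (Z : Cfg L) (Q : Type) where
  g : Q → WL L C
  h : Q → WL L C
  u : Q → Mk
  w : Q → Mk
  relv : ∀ q, h q = Kh c Z.X Z.Y (g q * opH c Z.X (Rs Z.x (u q) ∩ Rs Z.y (w q)))
  relh : ∀ q, g q = Kh c Z.Y Z.X (h q * opH c Z.Y (Rs Z.y (w q) ∩ Rs Z.x (u q)))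
  mvv : ∀ q w', ∃ q', g q' = g q ∧ u q' = u q ∧ w q' = w'
  mvh : ∀ q u', ∃ q', h q' = h q ∧ w q' = w q ∧ u q' = u'
  conn : ∀ p q, Relation.ReflTransGen
    (fun a b => (g a = g b ∧ u a = u b) ∨ (h a = h b ∧ w a = w b)) p q
  ext : ∀ p q, g p = g q → u p = u q → w p = w q → p = q

namespace Plan
variable {c : C} {Z : Cfg L} {Q : Type} (P : Plan c Z Q)

/-- The transposed model. -/
def tr : Plan c Z.tr Q where
  g := P.h
  h := P.g
  u := P.w
  w := P.u
  relv := P.relh
  relh := P.relv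
  mvv := P.mvh
  mvh := P.mvv
  conn := fun p q => Relation.ReflTransGen.mono (fun _ _ => Or.symm) _ _ (P.conn p q)
  ext := fun p q h1 h2 h3 => P.ext p q (by rw [P.relh p, P.relh q, h1, h2, h3]) h3 h2

/-- The cut of a point. -/
def R (q : Q) : Set L := Rs Z.x (P.u q)

/-- Distance in the tree of vertical leaves. -/
noncomputable def dv (p q : Q) : ℝ := dW Z.x (P.u p).1 ((P.g p)⁻¹ * P.g q) (P.u q).1

/-- Distance in the tree of horizontal leaves. -/
noncomputable def dh (p q : Q) : ℝ := dW Z.y (P.w p).1 ((P.h p)⁻¹ * P.h q) (P.w q).1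

@[simp] theorem tr_g : P.tr.g = P.h := rfl
@[simp] theorem tr_h : P.tr.h = P.g := rfl
@[simp] theorem tr_u : P.tr.u = P.w := rfl
@[simp] theorem tr_w : P.tr.w = P.u := rfl
@[simp] theorem tr_dv : P.tr.dv = P.dh := rfl
@[simp] theorem tr_dh : P.tr.dh = P.dv := rfl

/-- A vertical move. -/
def MV (p q : Q) : Prop := P.g p = P.g q ∧ P.u p = P.u q

/-- A horizontal move. -/
def MH (p q : Q) : Prop := P.h p = P.h q ∧ P.w p = P.w q

/-- A chain of moves. -/
def Chain (s : ℕ → Q) (n : ℕ) : Prop := ∀ i < n, P.MV (s i) (s (i + 1)) ∨ P.MH (s i) (s (i + 1))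

/-- The horizontal length of a chain. -/
def lenV (s : ℕ → Q) (n : ℕ) : ℝ :=
  ∑ i ∈ Finset.range n, |(P.u (s (i + 1))).1 - (P.u (s i)).1|

/-- The vertical length of a chain. -/
def lenH (s : ℕ → Q) (n : ℕ) : ℝ :=
  ∑ i ∈ Finset.range n, |(P.w (s (i + 1))).1 - (P.w (s i)).1|

/-- A straight step passing below the labels of `D`. -/
def Step (D : Set L) (p q : Q) : Prop :=
  (∃ y0 y1, InB Z.y y0 y1 D) ∧ P.g q = P.g p * stp c Z.X (P.R p) (P.R q) D

/-- A touch of the label `a` with letter `x`. -/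
def Touch (a : L) (x : C) (p q : Q) : Prop :=
  (P.u p).1 = Z.x a ∧ (P.u q).1 = Z.x a ∧ P.g q = P.g p * emb (lt a x)

/-- The two points are joined inside the box. -/
def Box (b : Bx) (p q : Q) : Prop :=
  b.Mem (P.u p).1 (P.w p).1 ∧ b.Mem (P.u q).1 (P.w q).1 ∧
    BoxW c Z b (P.R p) (P.R q) ((P.g p)⁻¹ * P.g q)

/-- The point is south west adjacent to the label `a`. -/
def Cusp (a : L) (r : Q) : Prop := P.u r = (Z.x a, false) ∧ P.w r = (Z.y a, false)

end Plan

/-- A touch from the side `s` to the side `t` with letter `x` is essential: it is not a straight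
passage. -/
def Ess (c : C) (s t : Bool) (x : C) : Prop :=
  x ≠ 1 ∧ (s = false → t = true → x ≠ c) ∧ (s = true → t = false → x ≠ c⁻¹)

/-- A route: steps `p i → q i` for `i ≤ k` alternate with essential touches `q i → p (i + 1)` of
the labels `a i` for `i < k`; the steps next to a touch do not cross the touched label. -/
structure Route {c : C} {Z : Cfg L} {Q : Type} (P : Plan c Z Q) (k : ℕ) (p q : ℕ → Q)
    (D : ℕ → Set L) (a : ℕ → L) (x : ℕ → C) : Prop where
  step : ∀ i ≤ k, P.Step (D i) (p i) (q i)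
  touch : ∀ i < k, P.Touch (a i) (x i) (q i) (p (i + 1))
  ess : ∀ i < k, Ess c (P.u (q i)).2 (P.u (p (i + 1))).2 (x i)
  arr : ∀ i < k, (a i ∈ P.R (p i) ↔ a i ∈ P.R (q i))
  dep : ∀ i < k, (a i ∈ P.R (p (i + 1)) ↔ a i ∈ P.R (q (i + 1)))
  ne : ∀ i, i + 1 < k → a i ≠ a (i + 1)

end planar

/-- The generator of the infinite cyclic group. -/
def cz : CZ := Multiplicative.ofAdd 1

/-- The base configuration. -/
noncomputable def Emb.bc (E : Emb) : Cfg Zl := ⟨E.bkey, E.tr.bkey, E.box_fin⟩

/-- The fibre configuration over the markers `u`, `w`. -/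
noncomputable def Emb.fc (E : Emb) (u w : Mk) : Cfg Lam :=
  ⟨E.key u, E.tr.key w, E.pos_fin u.1 w.1⟩

@[simp] theorem Emb.bc_x (E : Emb) : E.bc.x = E.ξ := rfl
@[simp] theorem Emb.bc_y (E : Emb) : E.bc.y = E.η := rfl
@[simp] theorem Emb.bc_X (E : Emb) : E.bc.X = E.bkey := rfl
@[simp] theorem Emb.bc_Y (E : Emb) : E.bc.Y = E.tr.bkey := rfl
theorem Emb.tr_bc (E : Emb) : E.tr.bc = E.bc.tr := rfl
@[simp] theorem Emb.fc_x (E : Emb) (u w : Mk) : (E.fc u w).x = E.pos u.1 := rfl
@[simp] theorem Emb.fc_y (E : Emb) (u w : Mk) : (E.fc u w).y = E.tr.pos w.1 := rfl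
@[simp] theorem Emb.fc_X (E : Emb) (u w : Mk) : (E.fc u w).X = E.key u := rfl
@[simp] theorem Emb.fc_Y (E : Emb) (u w : Mk) : (E.fc u w).Y = E.tr.key w := rfl
theorem Emb.tr_fc (E : Emb) (u w : Mk) : E.tr.fc w u = (E.fc u w).tr := rfl
@[simp] theorem Emb.tr_tr_key (E : Emb) : E.tr.tr.key = E.key := rfl
@[simp] theorem Emb.tr_tr_kinf (E : Emb) : E.tr.tr.kinf = E.kinf := rfl
@[simp] theorem Emb.tr_tr_bkey (E : Emb) : E.tr.tr.bkey = E.bkey := rfl
@[simp] theorem Emb.tr_tr_pos (E : Emb) : E.tr.tr.pos = E.pos := rfl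
@[simp] theorem Emb.tr_tr_m (E : Emb) : E.tr.tr.m = E.m := rfl

/-- A family of fibres over a planar model of the base.  A fibre point `x` is the point north east
adjacent to the label `lb x`; over the base point `q` it has V-word `gv q x` and H-word
`gh q x`. -/
structure Fam (E : Emb) (Q P : Type) where
  B : Plan cz E.bc Q
  lb : P → Lam
  gv : Q → P → WL Lam C2
  gh : Q → P → WL Lam C2
  relv : ∀ q x, gh q x = kap c2 (E.key (B.u q)) (E.tr.key (B.w q)) (lb x) (gv q x)
  relh : ∀ q x, gv q x = kap c2 (E.tr.key (B.w q)) (E.key (B.u q)) (lb x) (gh q x)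
  mv : ∀ q q' x, B.MV q q' → gv q x = gv q' x
  mh : ∀ q q' x, B.MH q q' → gh q x = gh q' x
  cv : ∀ q x y, ∃ b, BoxW c2 (E.fc (B.u q) (B.w q)) b (Rl (E.key (B.u q)) (lb x))
    (Rl (E.key (B.u q)) (lb y)) ((gv q x)⁻¹ * gv q y)
  ch : ∀ q x y, ∃ b, BoxW c2 (E.tr.fc (B.w q) (B.u q)) b (Rl (E.tr.key (B.w q)) (lb x))
    (Rl (E.tr.key (B.w q)) (lb y)) ((gh q x)⁻¹ * gh q y)
  clv : ∀ q x l b ω, BoxW c2 (E.fc (B.u q) (B.w q)) b (Rl (E.key (B.u q)) (lb x))
    (Rl (E.key (B.u q)) l) ω → ∃ y, lb y = l ∧ gv q y = gv q x * ω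
  clh : ∀ q x l b ω, BoxW c2 (E.tr.fc (B.w q) (B.u q)) b (Rl (E.tr.key (B.w q)) (lb x))
    (Rl (E.tr.key (B.w q)) l) ω → ∃ y, lb y = l ∧ gh q y = gh q x * ω
  ext : ∀ q x y, lb x = lb y → gv q x = gv q y → x = y

namespace Fam
variable {E : Emb} {Q P : Type} (F : Fam E Q P)

/-- The transposed family. -/
noncomputable def tr : Fam E.tr Q P where
  B := F.B.tr
  lb := F.lb
  gv := F.gh
  gh := F.gv
  relv := F.relh
  relh := F.relv
  mv := F.mh
  mh := F.mv
  cv := F.ch
  ch := F.cv
  clv := F.clh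
  clh := F.clv
  ext := fun q x y h1 h2 => F.ext q x y h1 (by rw [F.relh q x, F.relh q y, h1, h2])

/-- The fibre configuration over a base point. -/
noncomputable def Z (q : Q) : Cfg Lam := E.fc (F.B.u q) (F.B.w q)

/-- The two fibre points are joined inside the box in the fibre over `q`. -/
def Box (q : Q) (b : Bx) (x y : P) : Prop :=
  F.lb x ∈ (F.Z q).bl b ∧ F.lb y ∈ (F.Z q).bl b ∧
    BoxW c2 (F.Z q) b (Rl (F.Z q).X (F.lb x)) (Rl (F.Z q).X (F.lb y)) ((F.gv q x)⁻¹ * F.gv q y)

/-- Distance in the tree of vertical leaves of the fibre. -/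
noncomputable def dv (q : Q) (x y : P) : ℝ :=
  dW (E.pos (F.B.u q).1) (E.pos (F.B.u q).1 (F.lb x)) ((F.gv q x)⁻¹ * F.gv q y)
    (E.pos (F.B.u q).1 (F.lb y))

/-- Distance in the tree of horizontal leaves of the fibre. -/
noncomputable def dh (q : Q) (x y : P) : ℝ :=
  dW (E.tr.pos (F.B.w q).1) (E.tr.pos (F.B.w q).1 (F.lb x)) ((F.gh q x)⁻¹ * F.gh q y)
    (E.tr.pos (F.B.w q).1 (F.lb y))

@[simp] theorem tr_dv : F.tr.dv = F.dh := rfl
@[simp] theorem tr_dh : F.tr.dh = F.dv := rfl
@[simp] theorem tr_B_dv : F.tr.B.dv = F.B.dh := rfl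
@[simp] theorem tr_B_dh : F.tr.B.dh = F.B.dv := rfl
@[simp] theorem tr_lb : F.tr.lb = F.lb := rfl
@[simp] theorem tr_gv : F.tr.gv = F.gh := rfl
@[simp] theorem tr_gh : F.tr.gh = F.gv := rfl
theorem tr_Z (q : Q) : F.tr.Z q = (F.Z q).tr := rfl

end Fam

end Pool.Agent.E5f
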