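import Pool.Agent.E5f.WDefs

/-!
The golden lattice with its two real embeddings, the fibre labels and their orders.
-/

set_option autoImplicit false

namespace Pool.Agent.E5f

/-- Keys of orders. -/
abbrev Key : Type := ℝ ×ₗ ℝ

/-- Linear orders on labels, given by injective keys. -/
abbrev Od (L : Type) : Type := L ↪ Key

/-- Markers on the real line: a real number and a side (`false` = just left, `true` = just
right). -/
abbrev Mk : Type := ℝ × Bool

/-- The golden ring. -/
abbrev Zl : Type := QuadraticAlgebra ℤ 1 1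

/-- Fibre labels: a type and a lattice point. -/
abbrev Lam : Type := Fin 3 × Zl

/-- One-sided lattice data.  The label `(i, p)` sits at `p + μ i * z`.  In the `ξ` direction the
type `0` is slow, `md` is the middle type and `fs` is the fast type. -/
structure Emb where
  ξ : Zl →+* ℝ
  η : Zl →+* ℝ
  ω : Zl
  span : ∀ p : Zl, ∃ a b : ℤ, p = (a : Zl) + (b : Zl) * ω
  ωω : ω * ω = ω + 1
  ξω : ξ ω = Real.goldenRatio
  ηω : η ω = Real.goldenConj
  μ : Fin 3 → Zl
  md : Fin 3
  fs : Fin 3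
  μ0 : μ 0 = 0
  md0 : md ≠ 0
  fs0 : fs ≠ 0
  mf : md ≠ fs
  μf : μ fs = ω * ω * μ md
  μ1 : μ md = 1 ∨ μ fs = 1

/-- The transposed data. -/
def Emb.tr (E : Emb) : Emb where
  ξ := E.η
  η := E.ξ
  ω := 1 - E.ω
  span := fun p => by
    obtain ⟨a, b, h⟩ := E.span p
    exact ⟨a + b, -b, by rw [h]; push_cast; ring⟩
  ωω := by linear_combination E.ωω
  ξω := by rw [map_sub, map_one, E.ηω, Real.one_sub_goldenRatio]
  ηω := by rw [map_sub, map_one, E.ξω, Real.one_sub_goldenConj]
  μ := E.μ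
  md := E.fs
  fs := E.md
  μ0 := E.μ0
  md0 := E.fs0
  fs0 := E.md0
  mf := E.mf.symm
  μf := by rw [E.μf]; linear_combination (-(E.ω * E.ω - E.ω + 1) * E.μ E.md) * E.ωω
  μ1 := E.μ1.symm

@[simp] theorem Emb.tr_ξ (E : Emb) : E.tr.ξ = E.η := rfl
@[simp] theorem Emb.tr_η (E : Emb) : E.tr.η = E.ξ := rfl
@[simp] theorem Emb.tr_μ (E : Emb) : E.tr.μ = E.μ := rfl
@[simp] theorem Emb.tr_md (E : Emb) : E.tr.md = E.fs := rfl
@[simp] theorem Emb.tr_fs (E : Emb) : E.tr.fs = E.md := rfl

theorem Emb.ξ_inj (E : Emb) : Function.Injective E.ξ := by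
  rw [injective_iff_map_eq_zero]
  intro p hp
  obtain ⟨a, b, rfl⟩ := E.span p
  simp only [map_add, map_mul, map_intCast, E.ξω] at hp
  by_cases hb : b = 0
  · subst hb
    have : a = 0 := by simpa using hp
    simp [this]
  · exfalso
    have h1 := (Real.goldenRatio_irrational.intCast_mul hb).intCast_add a
    rw [hp] at h1
    exact h1 ⟨0, by simp⟩

theorem Emb.η_inj (E : Emb) : Function.Injective E.η := E.tr.ξ_inj

/-- The speed of type `i`. -/
def Emb.m (E : Emb) (i : Fin 3) : ℝ := E.ξ (E.μ i)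

theorem Emb.m_zero (E : Emb) : E.m 0 = 0 := by simp [Emb.m, E.μ0]

theorem Emb.m_fs (E : Emb) : E.m E.fs = Real.goldenRatio ^ 2 * E.m E.md := by
  simp only [Emb.m, E.μf, map_mul, E.ξω, sq]

theorem Emb.m_md_pos (E : Emb) : 0 < E.m E.md := by
  have hg := Real.goldenRatio_pos
  rcases E.μ1 with h | h
  · simp [Emb.m, h]
  · have h1 : E.m E.fs = 1 := by simp [Emb.m, h]
    rw [E.m_fs] at h1
    by_contra h2
    have := mul_nonpos_of_nonneg_of_nonpos (sq_nonneg Real.goldenRatio) (not_lt.1 h2)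
    linarith

theorem Emb.m_md_lt (E : Emb) : E.m E.md < E.m E.fs := by
  have h1 := E.m_md_pos
  have h2 := Real.one_lt_goldenRatio
  rw [E.m_fs]
  nlinarith [mul_pos h1 (show 0 < Real.goldenRatio ^ 2 - 1 by nlinarith)]

theorem Emb.types (E : Emb) (i : Fin 3) : i = 0 ∨ i = E.md ∨ i = E.fs := by
  have h1 := E.md0
  have h2 := E.fs0
  have h3 := E.mf
  omega

theorem Emb.m_inj (E : Emb) : Function.Injective E.m := by
  intro i j h
  have h1 := E.m_md_pos
  have h2 := E.m_md_lt
  have h3 := E.m_zero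
  rcases E.types i with rfl | rfl | rfl <;> rcases E.types j with rfl | rfl | rfl <;>
    first | rfl | (exfalso; linarith)

/-- The position of a fibre label when the base coordinate is `t`. -/
def Emb.pos (E : Emb) (t : ℝ) (l : Lam) : ℝ := E.ξ l.2 + E.m l.1 * t

/-- The order of the fibre labels at the base marker `u`. -/
noncomputable def Emb.key (E : Emb) (u : Mk) : Od Lam :=
  ⟨fun l => toLex (E.pos u.1 l, if u.2 = true then E.m l.1 else -E.m l.1), by
    intro l l' h
    have h0 := toLex.injective h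
    have h1 : E.pos u.1 l = E.pos u.1 l' := congrArg Prod.fst h0
    have h2 : (if u.2 = true then E.m l.1 else -E.m l.1) =
      (if u.2 = true then E.m l'.1 else -E.m l'.1) := congrArg Prod.snd h0
    have h3 : l.1 = l'.1 := by
      apply E.m_inj
      split_ifs at h2
      · exact h2
      · exact neg_injective h2
    refine Prod.ext h3 (E.ξ_inj ?_)
    unfold Emb.pos at h1
    rw [h3] at h1
    linarith⟩

/-- The order of the fibre labels at plus infinity (`true`) or minus infinity (`false`). -/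
noncomputable def Emb.kinf (E : Emb) (b : Bool) : Od Lam :=
  ⟨fun l => toLex (if b = true then E.m l.1 else -E.m l.1, E.ξ l.2), by
    intro l l' h
    have h0 := toLex.injective h
    have h1 : E.ξ l.2 = E.ξ l'.2 := congrArg Prod.snd h0
    have h2 : (if b = true then E.m l.1 else -E.m l.1) =
      (if b = true then E.m l'.1 else -E.m l'.1) := congrArg Prod.fst h0
    refine Prod.ext (E.m_inj ?_) (E.ξ_inj h1)
    split_ifs at h2
    · exact h2
    · exact neg_injective h2⟩

/-- The order of the lattice points. -/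
noncomputable def Emb.bkey (E : Emb) : Od Zl :=
  ⟨fun a => toLex (E.ξ a, 0), fun _ _ h => E.ξ_inj (congrArg Prod.fst (toLex.injective h))⟩

/-- The lattice point at which two labels of different types collide. -/
noncomputable def Emb.col (E : Emb) (l l' : Lam) : Zl :=
  (l.2 - l'.2) * Ring.inverse (E.μ l'.1 - E.μ l.1)

theorem Emb.box_fin (E : Emb) (B : ℝ) : {p : Zl | |E.ξ p| ≤ B ∧ |E.η p| ≤ B}.Finite := by
  obtain ⟨N, hN⟩ := exists_nat_ge (4 * B)
  refine (((Set.finite_Icc (-(N : ℤ)) N).prod (Set.finite_Icc (-(N : ℤ)) N)).image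
    (fun e : ℤ × ℤ => (e.1 : Zl) + (e.2 : Zl) * E.ω)).subset ?_
  rintro p ⟨h1, h2⟩
  obtain ⟨a, b, rfl⟩ := E.span p
  simp only [map_add, map_mul, map_intCast, E.ξω, E.ηω] at h1 h2
  have hB : 0 ≤ B := (abs_nonneg _).trans h1
  obtain ⟨h1a, h1b⟩ := abs_le.1 h1
  obtain ⟨h2a, h2b⟩ := abs_le.1 h2
  have g1 := Real.one_lt_goldenRatio
  have g2 := Real.goldenConj_neg
  have g3 := Real.neg_one_lt_goldenConj
  have hb1 : (b : ℝ) ≤ 2 * B := by
    by_contra h
    have h' : 2 * B < (b : ℝ) := not_le.1 h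
    nlinarith
  have hb2 : -(2 * B) ≤ (b : ℝ) := by
    by_contra h
    have h' : (b : ℝ) < -(2 * B) := not_le.1 h
    nlinarith
  have ha1 : (a : ℝ) ≤ 3 * B := by nlinarith
  have ha2 : -(3 * B) ≤ (a : ℝ) := by nlinarith
  refine ⟨(a, b), ⟨⟨?_, ?_⟩, ?_, ?_⟩, rfl⟩
  · have : (-(N : ℝ)) ≤ (a : ℝ) := by linarith
    exact_mod_cast this
  · have : (a : ℝ) ≤ (N : ℝ) := by linarith
    exact_mod_cast this
  · have : (-(N : ℝ)) ≤ (b : ℝ) := by linarith
    exact_mod_cast this
  · have : (b : ℝ) ≤ (N : ℝ) := by linarith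
    exact_mod_cast this

theorem Emb.pos_fin (E : Emb) (s t B : ℝ) :
    {l : Lam | |E.pos s l| ≤ B ∧ |E.tr.pos t l| ≤ B}.Finite := by
  refine (Set.finite_iUnion (fun i : Fin 3 =>
    (E.box_fin (B + |E.m i * s| + |E.tr.m i * t|)).image (fun p => ((i, p) : Lam)))).subset ?_
  rintro ⟨i, p⟩ ⟨h1, h2⟩
  refine Set.mem_iUnion.2 ⟨i, p, ⟨?_, ?_⟩, rfl⟩
  · have : E.ξ p = E.pos s (i, p) - E.m i * s := by simp [Emb.pos]
    rw [this]
    have := abs_sub (E.pos s (i, p)) (E.m i * s)
    have := abs_nonneg (E.tr.m i * t)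
    linarith
  · have : E.η p = E.tr.pos t (i, p) - E.tr.m i * t := by simp [Emb.pos]
    rw [this]
    have := abs_sub (E.tr.pos t (i, p)) (E.tr.m i * t)
    have := abs_nonneg (E.m i * s)
    linarith

/-- The real embedding of the golden ring given by a root. -/
noncomputable def embR (r : ℝ) (h : r * r = r + 1) : Zl →+* ℝ :=
  (QuadraticAlgebra.lift (R := ℤ) (a := 1) (b := 1) (A := ℝ)
    ⟨r, by rw [h]; simp [add_comm]⟩).toRingHom

theorem embR_apply (r : ℝ) (h : r * r = r + 1) (p : Zl) : embR r h p = p.re + p.im * r := by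
  simp [embR, QuadraticAlgebra.lift]

/-- The standard data: `ω` the golden unit, `μ = (0, 1, ω ^ 2)`. -/
noncomputable def E0 : Emb where
  ξ := embR Real.goldenRatio (by rw [← sq, Real.goldenRatio_sq])
  η := embR Real.goldenConj (by rw [← sq, Real.goldenConj_sq])
  ω := ⟨0, 1⟩
  span := fun p => ⟨p.re, p.im, by ext <;> simp⟩
  ωω := by ext <;> simp [QuadraticAlgebra.re_one, QuadraticAlgebra.im_one]
  ξω := by simp [embR_apply]
  ηω := by simp [embR_apply]
  μ := ![0, 1, ⟨1, 1⟩]
  md := 1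
  fs := 2
  μ0 := rfl
  md0 := by decide
  fs0 := by decide
  mf := by decide
  μf := by ext <;> simp
  μ1 := Or.inl rfl

end Pool.Agent.E5f
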