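import Pool.Agent.E5f.MoDefs2
import Pool.Agent.E5f.MoBox

set_option autoImplicit false

namespace Pool.Agent.E5f

open Filter Classical

namespace Hol

/-- The change of coordinates as a permutation. -/
noncomputable def kp (X Y : Od Lam) (l : Lam) : Equiv.Perm (WL Lam C2) :=
  ⟨kap c2 X Y l, kap c2 Y X l, kap_kap c2 X Y l, kap_kap c2 Y X l⟩

/-- Permutations which descend to the level `S`. -/
def Dn (S : Finset Lam) : Subgroup (Equiv.Perm (WL Lam C2)) where
  carrier := {π | ∀ γ γ', pj S γ = pj S γ' ↔ pj S (π γ) = pj S (π γ')}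
  mul_mem' := fun {a b} ha hb γ γ' => (hb γ γ').trans (ha _ _)
  one_mem' := fun _ _ => Iff.rfl
  inv_mem' := fun {a} ha γ γ' => by
    have := ha (a⁻¹ γ) (a⁻¹ γ')
    simpa using this.symm

/-- Permutations which are trivial at the level `S`. -/
def Tv (S : Finset Lam) : Subgroup (Equiv.Perm (WL Lam C2)) where
  carrier := {π | ∀ γ, pj S (π γ) = pj S γ}
  mul_mem' := fun {a b} ha hb γ => (ha _).trans (hb γ)
  one_mem' := fun _ => rfl
  inv_mem' := fun {a} ha γ => by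
    have := ha (a⁻¹ γ)
    simpa using this.symm

theorem kp_dn (X Y : Od Lam) (l : Lam) (S : Finset Lam) : kp X Y l ∈ Dn S := fun γ γ' => by
  change _ ↔ pj S (kap c2 X Y l γ) = pj S (kap c2 X Y l γ')
  rw [pj_kap, pj_kap]
  refine ⟨fun h => by rw [h], fun h => ?_⟩
  rw [← kapf_kapf c2 X Y S l (pj S γ), h, kapf_kapf]

variable (E : Emb)

/-- The collision points of the pairs of labels of `S`. -/
noncomputable def cols (S : Finset Lam) : Finset Zl := (S ×ˢ S).image (fun e => E.col e.1 e.2)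

theorem mem_cols {S : Finset Lam} {l l' : Lam} (h : l ∈ S) (h' : l' ∈ S) :
    E.col l l' ∈ cols E S := Finset.mem_image.2 ⟨(l, l'), Finset.mem_product.2 ⟨h, h'⟩, rfl⟩

theorem cols_mono {S S' : Finset Lam} (h : S ⊆ S') : cols E S ⊆ cols E S' :=
  Finset.image_subset_image (Finset.product_subset_product h h)

theorem key_iff (u : Mk) {l l' : Lam} (h : l.1 ≠ l'.1) :
    E.key u l < E.key u l' ↔ (E.col l l' ∈ Rs E.ξ u ↔ E.m l'.1 < E.m l.1) := by
  rcases lt_or_gt_of_ne (E.m_ne h) with h1 | h1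
  · rw [E.key_lt_slow u h1]
    exact ⟨fun h2 => iff_of_false h2 h1.not_gt, fun h2 h3 => h1.not_gt (h2.1 h3)⟩
  · rw [E.key_lt_fast u h1, E.col_symm h.symm]
    exact ⟨fun h2 => iff_of_true h2 h1, fun h2 => h2.2 h1⟩

theorem agr_key {S : Finset Lam} {u u' : Mk}
    (h : ∀ a ∈ cols E S, (a ∈ Rs E.ξ u ↔ a ∈ Rs E.ξ u')) :
    Agr (S : Set Lam) (E.key u) (E.key u') := fun l hl l' hl' => by
  by_cases e : l.1 = l'.1
  · rw [E.key_lt_same u e, E.key_lt_same u' e]
  · rw [key_iff E u e, key_iff E u' e, h _ (mem_cols E hl hl')]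

theorem agr_inf {S : Finset Lam} {u : Mk} (h : ∀ a ∈ cols E S, a ∉ Rs E.ξ u) :
    Agr (S : Set Lam) (E.key u) (E.kinf true) := fun l hl l' hl' => by
  by_cases e : l.1 = l'.1
  · rw [E.key_lt_same u e, E.kinf_lt_same true e]
  · rw [key_iff E u e, E.kinf_true_lt e]
    have h1 := h _ (mem_cols E hl hl')
    have h2 := E.m_ne e
    exact ⟨fun h3 => lt_of_le_of_ne (not_lt.1 fun h4 => h1 (h3.2 h4)) h2,
      fun h3 => iff_of_false h1 h3.not_gt⟩

theorem inv_col {a : Zl} {l l' : Lam} (h1 : E.key (E.ξ a, true) l < E.key (E.ξ a, true) l')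
    (h2 : E.key (E.ξ a, false) l' < E.key (E.ξ a, false) l) : l.1 ≠ l'.1 ∧ E.col l l' = a := by
  have e : l.1 ≠ l'.1 := fun e => by
    rw [E.key_lt_same _ e] at h1
    rw [E.key_lt_same _ e.symm] at h2
    exact lt_asymm h1 h2
  refine ⟨e, ?_⟩
  by_contra h
  have h3 : E.ξ a ≠ E.ξ (E.col l l') := fun h' => h (E.ξ_inj h').symm
  have h4 := lt_asymm h2
  rw [key_iff E _ e] at h1 h4
  simp only [Rs, Set.mem_setOf_eq, h3, false_and, or_false] at h1 h4
  exact h4 h1

/-- The holonomy around a lattice point. -/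
noncomputable def eta (l : Lam) (a : Zl) : Equiv.Perm (WL Lam C2) :=
  kp (E.key (E.ξ a, false)) (E.tr.kinf true) l * kp (E.tr.kinf false) (E.key (E.ξ a, false)) l *
    kp (E.key (E.ξ a, true)) (E.tr.kinf false) l * kp (E.tr.kinf true) (E.key (E.ξ a, true)) l

theorem eta_dn (l : Lam) (a : Zl) (S : Finset Lam) : eta E l a ∈ Dn S :=
  mul_mem (mul_mem (mul_mem (kp_dn _ _ _ _) (kp_dn _ _ _ _)) (kp_dn _ _ _ _)) (kp_dn _ _ _ _)

theorem eta_tv {l : Lam} {a : Zl} {S : Finset Lam} (h : a ∉ cols E (insert l S)) :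
    eta E l a ∈ Tv S := fun γ => by
  have hA : Agr ((insert l S : Finset Lam) : Set Lam) (E.key (E.ξ a, true))
      (E.key (E.ξ a, false)) := agr_key E fun b hb => by
    have h3 : E.ξ a ≠ E.ξ b := fun h' => h (E.ξ_inj h' ▸ hb)
    simp [Rs, h3]
  have hl : l ∈ insert l S := Finset.mem_insert_self l S
  have h1 : pj (insert l S) (eta E l a γ) = pj (insert l S) γ := by
    change pj _ (kap _ _ _ _ (kap _ _ _ _ (kap _ _ _ _ (kap _ _ _ _ γ)))) = _
    have hs := sup_kapf c2 (E.tr.kinf true) (E.key (E.ξ a, true)) l (sup_pj (insert l S) γ)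
    rw [pj_kap, pj_kap, pj_kap, pj_kap, kapf_same c2 _ hA hl hs,
      kapf_congr c2 hA.symm (Agr.refl _ _) hl hs, kapf_kapf]
  rw [← ret_pj (Finset.subset_insert l S), h1, ret_pj (Finset.subset_insert l S)]

/-- The holonomy of finite words. -/
noncomputable def hol (l : Lam) : W Zl CZ →* Equiv.Perm (WL Lam C2) :=
  lf (fun a => zpowersHom _ (eta E l a))

theorem hol_lt (l : Lam) (a : Zl) (x : CZ) :
    hol E l (lt a x) = eta E l a ^ (Multiplicative.toAdd x) := by
  unfold hol; rw [lf_lt]; rfl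

theorem hol_dn (l : Lam) (S : Finset Lam) (w : W Zl CZ) : hol E l w ∈ Dn S := by
  induction w using W_ind with
  | h1 => rw [map_one]; exact one_mem _
  | h a x g ih => rw [map_mul, hol_lt]; exact mul_mem (zpow_mem (eta_dn E l a S) _) ih

theorem hol_ret (l : Lam) {S : Finset Lam} {A : Finset Zl} (hA : cols E (insert l S) ⊆ A)
    (γ : WL Lam C2) (w : W Zl CZ) :
    pj S (hol E l (ret (A : Set Zl) w) γ) = pj S (hol E l w γ) := by
  induction w using W_ind with
  | h1 => rw [map_one]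
  | h a x g ih =>
    rw [map_mul, map_mul, map_mul, ret_lt, Equiv.Perm.mul_apply, Equiv.Perm.mul_apply]
    split_ifs with h
    · exact (hol_dn E l S _ _ _).1 ih
    · have h2 : hol E l (lt a x) ∈ Tv S := by
        rw [hol_lt]
        exact zpow_mem (eta_tv E fun h' => h (hA h')) _
      rw [h2, map_one, Equiv.Perm.one_apply, ih]

theorem hol_pj (l : Lam) {S : Finset Lam} {A : Finset Zl} (hA : cols E (insert l S) ⊆ A)
    (γ : WL Lam C2) (g : WL Zl CZ) :
    pj S (hol E l (pj (cols E (insert l S)) g) γ) = pj S (hol E l (pj A g) γ) := by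
  rw [← ret_pj hA, hol_ret E l (Finset.Subset.refl _)]

/-- The holonomy of compatible families. -/
noncomputable def hf (l : Lam) (g : WL Zl CZ) (γ : WL Lam C2) : WL Lam C2 :=
  mkW (fun S => pj S (hol E l (pj (cols E (insert l S)) g) γ)) (fun S S' h => by
    rw [ret_pj h, hol_pj E l (cols_mono E (Finset.insert_subset_insert l h))])

theorem pj_hf (l : Lam) (S : Finset Lam) (g : WL Zl CZ) (γ : WL Lam C2) :
    pj S (hf E l g γ) = pj S (hol E l (pj (cols E (insert l S)) g) γ) := rfl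

/-- The holonomy as a homomorphism. -/
noncomputable def hh (l : Lam) : WL Zl CZ →* Equiv.Perm (WL Lam C2) :=
  MonoidHom.toHomPerm
    { toFun := hf E l
      map_one' := funext fun γ => WL_ext fun S => by
        rw [pj_hf, map_one, map_one]; rfl
      map_mul' := fun g g' => funext fun γ => WL_ext fun S => by
        change _ = pj S (hf E l g (hf E l g' γ))
        rw [pj_hf, pj_hf, map_mul, map_mul, Equiv.Perm.mul_apply]
        exact (hol_dn E l S _ _ _).1 (pj_hf E l S g' γ).symm }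

theorem hh_apply (l : Lam) (g : WL Zl CZ) (γ : WL Lam C2) : hh E l g γ = hf E l g γ := rfl

/-- From the reference coordinates to the H-coordinates at the level `w` through the order `X`. -/
noncomputable def Ps (l : Lam) (w : Mk) (X : Od Lam) : Equiv.Perm (WL Lam C2) :=
  kp X (E.tr.key w) l * kp (E.tr.kinf true) X l

theorem Ps_dn (l : Lam) (w : Mk) (X : Od Lam) (S : Finset Lam) : Ps E l w X ∈ Dn S :=
  mul_mem (kp_dn _ _ _ _) (kp_dn _ _ _ _)

theorem Ps_agr {l : Lam} (w : Mk) {X X' : Od Lam} {S : Finset Lam} (hl : l ∈ S)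
    (h : Agr (S : Set Lam) X X') (γ : WL Lam C2) :
    pj S (Ps E l w X γ) = pj S (Ps E l w X' γ) := by
  change pj _ (kap _ _ _ _ (kap _ _ _ _ γ)) = pj _ (kap _ _ _ _ (kap _ _ _ _ γ))
  rw [pj_kap, pj_kap, pj_kap, pj_kap, kapf_congr c2 (Agr.refl _ _) h hl (sup_pj S γ),
    kapf_congr c2 h (Agr.refl _ _) hl (sup_kapf c2 _ _ l (sup_pj S γ))]

theorem Ps_up (l : Lam) {w : Mk} {a : Zl} (h : a ∉ Rs E.η w) (γ : WL Lam C2) :
    Ps E l w (E.key (E.ξ a, false)) γ = Ps E l w (E.key (E.ξ a, true)) γ := by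
  change kap _ _ _ _ (kap _ _ _ _ γ) = kap _ _ _ _ (kap _ _ _ _ γ)
  have := kap_R c2 (E.key (E.ξ a, true)) (E.key (E.ξ a, false)) (E.tr.kinf true) (E.tr.key w)
    (fun p q h1 h2 => by
      obtain ⟨e, e'⟩ := inv_col E h1 h2
      rw [key_iff E.tr w e, E.tr.kinf_true_lt e, E.tr_col, e']
      have h2 := E.tr.m_ne e
      exact ⟨fun h3 => iff_of_false h h3.not_gt,
        fun h3 => lt_of_le_of_ne (not_lt.1 fun h4 => h (h3.2 h4)) h2⟩) l
    (kap c2 (E.tr.kinf true) (E.key (E.ξ a, true)) l γ)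
  rw [kap_kap] at this
  rw [this, kap_kap]

theorem Ps_down (l : Lam) {w : Mk} {a : Zl} (h : a ∈ Rs E.η w) (γ : WL Lam C2) :
    Ps E l w (E.key (E.ξ a, false)) (eta E l a γ) = Ps E l w (E.key (E.ξ a, true)) γ := by
  change kap _ _ _ _ (kap _ _ _ _ (kap _ _ _ _ (kap _ _ _ _ (kap _ _ _ _ (kap _ _ _ _ γ))))) =
    kap _ _ _ _ (kap _ _ _ _ γ)
  rw [kap_kap, kap_R c2 (E.key (E.ξ a, true)) (E.key (E.ξ a, false)) (E.tr.kinf false) (E.tr.key w)
    (fun p q h1 h2 => by
      obtain ⟨e, e'⟩ := inv_col E h1 h2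
      rw [key_iff E.tr w e, E.tr.kinf_false_lt e, E.tr_col, e']
      exact ⟨fun h3 => iff_of_true h h3, fun h3 => h3.1 h⟩), kap_kap]

theorem Ps_fin {l : Lam} (w : Mk) {S : Finset Lam} (hl : l ∈ S) (γ : WL Lam C2) :
    ∀ (n : ℕ) (u : Mk), (cut (cols E S) (Rs E.ξ u)).card = n →
      pj S (Ps E l w (E.key u) (hol E l (op E.bkey cz (cut (cols E S) (Rs E.ξ u ∩ Rs E.η w))) γ))
        = pj S (Ps E l w (E.kinf true) γ) := by
  intro n
  induction n with
  | zero =>
    intro u hn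
    have h0 : ∀ a ∈ cols E S, a ∉ Rs E.ξ u := fun a ha h => by
      have : a ∈ cut (cols E S) (Rs E.ξ u) := mem_cut.2 ⟨ha, h⟩
      rw [Finset.card_eq_zero.1 hn] at this
      exact absurd this (Finset.notMem_empty a)
    have h1 : op E.bkey cz (cut (cols E S) (Rs E.ξ u ∩ Rs E.η w)) = 1 :=
      op_eq_pl (w := []) cz List.Pairwise.nil fun a =>
        iff_of_false (by simp) fun h => h0 a (mem_cut.1 h).1 (mem_cut.1 h).2.1
    rw [h1, map_one, Equiv.Perm.one_apply, Ps_agr E w hl (agr_inf E h0)]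
  | succ n ih =>
    intro u hn
    obtain ⟨a, ha, hm⟩ := Finset.exists_min_image (cut (cols E S) (Rs E.ξ u)) E.ξ
      (Finset.card_pos.1 (by omega))
    obtain ⟨ha1, ha2⟩ := mem_cut.1 ha
    have k1 : ∀ b, b ∈ Rs E.ξ (E.ξ a, true) ↔ E.ξ a < E.ξ b := fun b => by simp [Rs]
    have k2 : ∀ b, E.ξ a ≤ E.ξ b → b ∈ Rs E.ξ u := fun b hb => by
      rcases hb.lt_or_eq with hb | hb
      · rcases ha2 with h | h
        · exact Or.inl (h.trans hb)
        · exact Or.inl (h.1.trans_lt hb)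
      · rwa [← E.ξ_inj hb]
    have k3 : ∀ b ∈ cols E S, (b ∈ Rs E.ξ u ↔ b = a ∨ E.ξ a < E.ξ b) := fun b hb =>
      ⟨fun h => (hm b (mem_cut.2 ⟨hb, h⟩)).eq_or_lt.imp (fun e => (E.ξ_inj e).symm) id,
        fun h => h.elim (fun e => e ▸ ha2) fun e => k2 b e.le⟩
    have hA : Agr (S : Set Lam) (E.key u) (E.key (E.ξ a, false)) := agr_key E fun b hb => by
      rw [k3 b hb]
      simp only [Rs, Set.mem_setOf_eq, and_true]
      exact ⟨fun h => h.elim (fun e => Or.inr (e ▸ rfl)) Or.inl,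
        fun h => h.elim Or.inr fun e => Or.inl (E.ξ_inj e).symm⟩
    have hc : (cut (cols E S) (Rs E.ξ (E.ξ a, true))).card = n := by
      have : cut (cols E S) (Rs E.ξ (E.ξ a, true)) = (cut (cols E S) (Rs E.ξ u)).erase a := by
        ext b
        rw [Finset.mem_erase, mem_cut, mem_cut, k1]
        exact ⟨fun h => ⟨fun e => by rw [e] at h; exact lt_irrefl _ h.2, h.1, k2 b h.2.le⟩,
          fun h => ⟨h.2.1, ((k3 b h.2.1).1 h.2.2).resolve_left h.1⟩⟩
      rw [this, Finset.card_erase_of_mem ha, hn]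
      rfl
    rw [Ps_agr E w hl hA, ← ih _ hc]
    by_cases hD : a ∈ Rs E.η w
    · rw [op_min (D' := cut (cols E S) (Rs E.ξ (E.ξ a, true) ∩ Rs E.η w)) (l := a) cz
        E.bkey.injective.injOn (fun b => by
          simp only [mem_cut, Set.mem_inter_iff, k1]
          exact ⟨fun h => ((k3 b h.1).1 h.2.1).imp id fun e => ⟨h.1, e, h.2.2⟩,
            fun h => h.elim (fun e => e ▸ ⟨ha1, ha2, hD⟩) fun e => ⟨e.1, k2 b e.2.1.le, e.2.2⟩⟩)
        (fun b hb => (E.bkey_lt_iff a b).2 ((k1 b).1 (mem_cut.1 hb).2.1)),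
        map_mul, Equiv.Perm.mul_apply, hol_lt]
      have : Multiplicative.toAdd cz = 1 := rfl
      rw [this, zpow_one, Ps_down E l hD]
    · have : cut (cols E S) (Rs E.ξ u ∩ Rs E.η w) =
          cut (cols E S) (Rs E.ξ (E.ξ a, true) ∩ Rs E.η w) := by
        ext b
        simp only [mem_cut, Set.mem_inter_iff, k1]
        exact ⟨fun h => ⟨h.1, ((k3 b h.1).1 h.2.1).resolve_left fun e => hD (e ▸ h.2.2), h.2.2⟩,
          fun h => ⟨h.1, k2 b h.2.1.le, h.2.2⟩⟩
      rw [this, Ps_up E l hD]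

theorem Ps_op (l : Lam) (u w : Mk) (γ : WL Lam C2) :
    Ps E l w (E.key u) (hh E l (opH cz E.bkey (Rs E.ξ u ∩ Rs E.η w)) γ) =
      Ps E l w (E.kinf true) γ := by
  refine WL_ext_of {l} fun S hS => ?_
  have hl : l ∈ S := hS (Finset.mem_singleton_self l)
  rw [← Ps_fin E w hl γ _ u rfl]
  refine (Ps_dn E l w _ S _ _).1 ?_
  rw [hh_apply, pj_hf, pj_opH, Finset.insert_eq_of_mem hl]

end Hol

/-- Transport of pointed words over the base. -/
theorem amb_ex (E : Emb) {Q : Type} (B : Plan cz E.bc Q) :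
    ∃ Θ : Q → Lam → Equiv.Perm (WL Lam C2),
      (∀ q q', B.MV q q' → Θ q = Θ q') ∧
      (∀ q q', B.MH q q' → ∀ l g,
        kap c2 (E.key (B.u q)) (E.tr.key (B.w q)) l (Θ q l g) =
          kap c2 (E.key (B.u q')) (E.tr.key (B.w q')) l (Θ q' l g)) := by
  refine ⟨fun q l => Hol.kp (E.tr.kinf true) (E.key (B.u q)) l * (Hol.hh E l (B.g q))⁻¹,
    fun q q' h => by simp only [h.1, h.2], fun q q' h l γ => ?_⟩
  have key : ∀ p : Q, kap c2 (E.key (B.u p)) (E.tr.key (B.w p)) l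
      ((Hol.kp (E.tr.kinf true) (E.key (B.u p)) l * (Hol.hh E l (B.g p))⁻¹) γ) =
      Hol.Ps E l (B.w p) (E.kinf true)
        (Hol.hh E l (B.g p * opH cz E.bkey (Rs E.ξ (B.u p) ∩ Rs E.η (B.w p)))⁻¹ γ) := fun p => by
    rw [← Hol.Ps_op E l (B.u p) (B.w p), ← Equiv.Perm.mul_apply (Hol.hh E l _), ← map_mul,
      mul_inv_rev, mul_inv_cancel_left, map_inv]
    rfl
  have e : B.g q * opH cz E.bkey (Rs E.ξ (B.u q) ∩ Rs E.η (B.w q)) =
      B.g q' * opH cz E.bkey (Rs E.ξ (B.u q') ∩ Rs E.η (B.w q')) :=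
    Kh_injective cz E.bc.X E.bc.Y ((B.relv q).symm.trans (h.1.trans (B.relv q')))
  rw [key q, key q', e, h.2]

end Pool.Agent.E5f
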