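import Pool.Agent.E5f.MoEmb

/-!
Lattice facts: norms, density in boxes, collisions, the orders of the fibre labels, equivariance.
-/

set_option autoImplicit false

namespace Pool.Agent.E5f

open Real

theorem gr_bounds : (1.6 : ℝ) < goldenRatio ∧ goldenRatio < 1.62 := by
  have h1 := goldenRatio_sq
  have h2 := one_lt_goldenRatio
  constructor <;> nlinarith

theorem gc_eq : goldenConj = 1 - goldenRatio := by
  have := goldenRatio_add_goldenConj
  linarith

namespace Emb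
variable (E : Emb)

theorem norm_int (p : Zl) : ∃ n : ℤ, E.ξ p * E.η p = n := by
  obtain ⟨a, b, rfl⟩ := E.span p
  refine ⟨a ^ 2 + a * b - b ^ 2, ?_⟩
  simp only [map_add, map_mul, map_intCast, E.ξω, E.ηω, gc_eq]
  push_cast
  linear_combination (-(b : ℝ) ^ 2) * goldenRatio_sq

theorem ξ_ne {p : Zl} (hp : p ≠ 0) : E.ξ p ≠ 0 := fun h => hp (E.ξ_inj (by rw [h, map_zero]))

theorem η_ne {p : Zl} (hp : p ≠ 0) : E.η p ≠ 0 := E.tr.ξ_ne hp

theorem norm_ge {p : Zl} (hp : p ≠ 0) : 1 ≤ |E.ξ p * E.η p| := by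
  obtain ⟨n, hn⟩ := E.norm_int p
  have h0 : n ≠ 0 := by
    rintro rfl
    exact mul_ne_zero (E.ξ_ne hp) (E.η_ne hp) (by simpa using hn)
  rw [hn, ← Int.cast_abs]
  exact_mod_cast Int.one_le_abs h0

theorem norm_ge' {p : Zl} (hp : p ≠ 0) : 1 ≤ |E.ξ p| * |E.η p| := by
  rw [← abs_mul]; exact E.norm_ge hp

theorem eq_zero_of_small {p : Zl} (h : |E.ξ p| * |E.η p| < 1) : p = 0 := by
  by_contra hp
  exact absurd (E.norm_ge' hp) (not_le.2 h)

/-- Every open square of side three contains a lattice point. -/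
theorem den (a b : ℝ) : ∃ p : Zl, a < E.ξ p ∧ E.ξ p < a + 3 ∧ b < E.η p ∧ E.η p < b + 3 := by
  obtain ⟨g1, g2⟩ := gr_bounds
  set s : ℝ := 2 * goldenRatio - 1 with hs
  have hs0 : 0 < s := by linarith
  set y : ℤ := round ((a - b) / s) with hy
  have h1 : |(a - b) / s - y| ≤ 1 / 2 := abs_sub_round _
  have h2 : |(a - b) - y * s| ≤ s / 2 := by
    have : (a - b) - y * s = ((a - b) / s - y) * s := by field_simp
    rw [this, abs_mul, abs_of_pos hs0]
    nlinarith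
  obtain ⟨h3, h4⟩ := abs_le.1 h2
  set c : ℝ := max (a - y * goldenRatio) (b - y * (1 - goldenRatio)) with hc
  have c1 : a - y * goldenRatio ≤ c := le_max_left _ _
  have c2 : b - y * (1 - goldenRatio) ≤ c := le_max_right _ _
  have c3 : c ≤ a - y * goldenRatio + s / 2 := max_le (by linarith) (by rw [hs] at *; linarith)
  have c4 : c ≤ b - y * (1 - goldenRatio) + s / 2 :=
    max_le (by rw [hs] at *; linarith) (by linarith)
  have f1 := Int.lt_floor_add_one c
  have f2 := Int.floor_le c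
  refine ⟨((⌊c⌋ + 1 : ℤ) : Zl) + (y : Zl) * E.ω, ?_⟩
  simp only [map_add, map_mul, map_intCast, E.ξω, E.ηω, gc_eq]
  push_cast
  refine ⟨by linarith, by linarith, by linarith, by linarith⟩

/-- The golden unit. -/
def uω : Zlˣ := ⟨E.ω, E.ω - 1, by linear_combination E.ωω, by linear_combination E.ωω⟩

@[simp] theorem uω_val : (E.uω : Zl) = E.ω := rfl

theorem ξ_uω (k : ℤ) : E.ξ ((E.uω ^ k : Zlˣ) : Zl) = goldenRatio ^ k := by
  rw [← E.ξω]
  exact map_zpow ((Units.coeHom ℝ).comp (Units.map (E.ξ : Zl →* ℝ))) E.uω k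

theorem η_uω (k : ℤ) : E.η ((E.uω ^ k : Zlˣ) : Zl) = goldenConj ^ k := by
  rw [← E.ηω]
  exact map_zpow ((Units.coeHom ℝ).comp (Units.map (E.η : Zl →* ℝ))) E.uω k

theorem ξ_uω2 (k : ℤ) : E.ξ ((E.uω ^ (2 * k) : Zlˣ) : Zl) = (goldenRatio ^ 2) ^ k := by
  rw [E.ξ_uω, zpow_mul, zpow_ofNat]

theorem η_uω2 (k : ℤ) : E.η ((E.uω ^ (2 * k) : Zlˣ) : Zl) = (goldenRatio ^ 2) ^ (-k) := by
  rw [E.η_uω, zpow_mul, zpow_ofNat, zpow_neg, ← inv_zpow]
  congr 1
  have h := goldenRatio_mul_goldenConj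
  refine eq_inv_of_mul_eq_one_left ?_
  calc goldenConj ^ 2 * goldenRatio ^ 2 = (goldenRatio * goldenConj) ^ 2 := by ring
    _ = 1 := by rw [h]; norm_num

/-- Every open box of area at least `27` contains a lattice point. -/
theorem den_box (a b A B : ℝ) (hA : 0 < A) (hAB : 27 ≤ A * B) :
    ∃ p : Zl, a < E.ξ p ∧ E.ξ p < a + A ∧ b < E.η p ∧ E.η p < b + B := by
  obtain ⟨g1, g2⟩ := gr_bounds
  set l : ℝ := goldenRatio ^ 2 with hl
  have l1 : 1 < l := by nlinarith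
  have l3 : l < 3 := by nlinarith
  obtain ⟨k, hk1, hk2⟩ := exists_mem_Ico_zpow (x := A / 3) (by positivity) l1
  have hq : 0 < l ^ k := zpow_pos (by linarith) k
  have hq' : l ^ (-k) = (l ^ k)⁻¹ := zpow_neg l k
  rw [zpow_add_one₀ (by linarith)] at hk2
  obtain ⟨p, h1, h2, h3, h4⟩ := E.den (a / l ^ k) (b * l ^ k)
  refine ⟨((E.uω ^ (2 * k) : Zlˣ) : Zl) * p, ?_⟩
  simp only [map_mul, E.ξ_uω2, E.η_uω2, ← hl, hq']
  have hB : 3 ≤ B * l ^ k := by
    by_contra h
    have h' : B * l ^ k < 3 := not_le.1 h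
    have hB0 : 0 < B := by
      by_contra h0
      nlinarith
    have : A * B < 9 * (l ^ k * B) := by nlinarith [mul_pos hq hB0]
    nlinarith
  refine ⟨?_, ?_, ?_, ?_⟩
  · rw [div_lt_iff₀ hq] at h1
    linarith
  · have : E.ξ p * l ^ k < (a / l ^ k + 3) * l ^ k := mul_lt_mul_of_pos_right h2 hq
    rw [add_mul, div_mul_cancel₀ _ hq.ne'] at this
    linarith
  · rw [inv_mul_eq_div, lt_div_iff₀ hq]
    exact h3
  · rw [inv_mul_eq_div, div_lt_iff₀ hq]
    nlinarith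

theorem den_lab (i : Fin 3) (s t a b : ℝ) : ∃ l : Lam, l.1 = i ∧ a < E.pos s l ∧
    E.pos s l < a + 3 ∧ b < E.tr.pos t l ∧ E.tr.pos t l < b + 3 := by
  obtain ⟨p, h1, h2, h3, h4⟩ := E.den (a - E.m i * s) (b - E.tr.m i * t)
  refine ⟨(i, p), rfl, ?_⟩
  simp only [Emb.pos, tr_ξ]
  exact ⟨by linarith, by linarith, by linarith, by linarith⟩

theorem den_lab_box (i : Fin 3) (s t a b A B : ℝ) (hA : 0 < A) (hAB : 27 ≤ A * B) :
    ∃ l : Lam, l.1 = i ∧ a < E.pos s l ∧ E.pos s l < a + A ∧ b < E.tr.pos t l ∧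
      E.tr.pos t l < b + B := by
  obtain ⟨p, h1, h2, h3, h4⟩ := E.den_box (a - E.m i * s) (b - E.tr.m i * t) A B hA hAB
  refine ⟨(i, p), rfl, ?_⟩
  simp only [Emb.pos, tr_ξ]
  exact ⟨by linarith, by linarith, by linarith, by linarith⟩

theorem unit_ω : IsUnit E.ω := E.uω.isUnit

theorem unit_md : IsUnit (E.μ E.md) := by
  rcases E.μ1 with h | h
  · rw [h]; exact isUnit_one
  · rw [E.μf] at h
    exact IsUnit.of_mul_eq_one_right _ h

theorem unit_fs : IsUnit (E.μ E.fs) := by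
  rw [E.μf]
  exact (E.unit_ω.mul E.unit_ω).mul E.unit_md

theorem μ_fs_sub : E.μ E.fs - E.μ E.md = E.ω * E.μ E.md := by
  rw [E.μf]; linear_combination (E.μ E.md) * E.ωω

theorem unit_sub {i j : Fin 3} (h : i ≠ j) : IsUnit (E.μ i - E.μ j) := by
  have h1 := E.unit_md
  have h2 := E.unit_fs
  have h3 : IsUnit (E.μ E.fs - E.μ E.md) := by rw [E.μ_fs_sub]; exact E.unit_ω.mul h1
  rcases E.types i with rfl | rfl | rfl <;> rcases E.types j with rfl | rfl | rfl
  · exact absurd rfl h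
  · rw [E.μ0, zero_sub]; exact h1.neg
  · rw [E.μ0, zero_sub]; exact h2.neg
  · rw [E.μ0, sub_zero]; exact h1
  · exact absurd rfl h
  · rw [← neg_sub]; exact h3.neg
  · rw [E.μ0, sub_zero]; exact h2
  · exact h3
  · exact absurd rfl h

theorem norm_unit {u : Zl} (hu : IsUnit u) : |E.ξ u| * |E.η u| = 1 := by
  obtain ⟨v, hv⟩ := hu.exists_right_inv
  have h1 := E.norm_ge' hu.ne_zero
  have h2 := E.norm_ge' (right_ne_zero_of_mul_eq_one hv)
  have h3 : |E.ξ u| * |E.η u| * (|E.ξ v| * |E.η v|) = 1 := by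
    have a1 : E.ξ u * E.ξ v = 1 := by rw [← map_mul, hv, map_one]
    have a2 : E.η u * E.η v = 1 := by rw [← map_mul, hv, map_one]
    calc |E.ξ u| * |E.η u| * (|E.ξ v| * |E.η v|) = |E.ξ u * E.ξ v| * |E.η u * E.η v| := by
          rw [abs_mul, abs_mul]; ring
      _ = 1 := by rw [a1, a2]; simp
  nlinarith

theorem m_nonneg (i : Fin 3) : 0 ≤ E.m i := by
  have h1 := E.m_md_pos
  have h2 := E.m_md_lt
  have h3 := E.m_zero
  rcases E.types i with rfl | rfl | rfl <;> linarith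

theorem m_le_fs (i : Fin 3) : E.m i ≤ E.m E.fs := by
  have h1 := E.m_md_pos
  have h2 := E.m_md_lt
  have h3 := E.m_zero
  rcases E.types i with rfl | rfl | rfl <;> linarith

theorem m_fs_sub : E.m E.fs - E.m E.md = goldenRatio * E.m E.md := by
  rw [E.m_fs]; linear_combination (E.m E.md) * goldenRatio_sq

theorem m_md_ge : 1 / 3 ≤ E.m E.md := by
  obtain ⟨g1, g2⟩ := gr_bounds
  have h0 := E.m_md_pos
  rcases E.μ1 with h | h
  · have : E.m E.md = 1 := by simp [Emb.m, h]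
    linarith
  · have h1 : E.m E.fs = 1 := by simp [Emb.m, h]
    rw [E.m_fs] at h1
    nlinarith

theorem m_fs_le : E.m E.fs ≤ 3 := by
  obtain ⟨g1, g2⟩ := gr_bounds
  rcases E.μ1 with h | h
  · have : E.m E.md = 1 := by simp [Emb.m, h]
    rw [E.m_fs, this]
    nlinarith
  · have h1 : E.m E.fs = 1 := by simp [Emb.m, h]
    linarith

theorem m_le (i : Fin 3) : E.m i ≤ 3 := (E.m_le_fs i).trans E.m_fs_le

theorem m_gap {i j : Fin 3} (h : E.m i < E.m j) : E.m i + 1 / 3 ≤ E.m j := by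
  have h1 := E.m_md_ge
  have h2 := E.m_fs_sub
  have h3 := E.m_zero
  have h4 := one_lt_goldenRatio
  have h5 : E.m E.md ≤ goldenRatio * E.m E.md := by nlinarith
  rcases E.types i with rfl | rfl | rfl <;> rcases E.types j with rfl | rfl | rfl <;> linarith

theorem m_ne {i j : Fin 3} (h : i ≠ j) : E.m i ≠ E.m j := fun h' => h (E.m_inj h')

/-- The orders of the speeds in the two directions agree unless the types are `md` and `fs`. -/
theorem tr_m_lt {i j : Fin 3} (h : E.m i < E.m j) :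
    (i = 0 ∧ E.tr.m i < E.tr.m j) ∨ (i = E.md ∧ j = E.fs ∧ E.tr.m j < E.tr.m i) := by
  have h1 := E.m_md_pos
  have h2 := E.m_md_lt
  have h3 := E.m_zero
  have k1 : 0 < E.tr.m E.fs := E.tr.m_md_pos
  have k2 : E.tr.m E.fs < E.tr.m E.md := E.tr.m_md_lt
  have k3 := E.tr.m_zero
  rcases E.types i with rfl | rfl | rfl <;> rcases E.types j with rfl | rfl | rfl <;>
    first
    | (exfalso; linarith)
    | exact Or.inl ⟨rfl, by linarith⟩
    | exact Or.inr ⟨rfl, rfl, by linarith⟩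

@[simp] theorem tr_col : E.tr.col = E.col := rfl

theorem col_spec {l l' : Lam} (h : l.1 ≠ l'.1) :
    l.2 + E.μ l.1 * E.col l l' = l'.2 + E.μ l'.1 * E.col l l' := by
  have h1 := Ring.inverse_mul_cancel _ (E.unit_sub h.symm)
  unfold Emb.col
  linear_combination (-(l.2 - l'.2)) * h1

theorem col_eq_iff {l l' : Lam} (h : l.1 ≠ l'.1) (a : Zl) :
    E.col l l' = a ↔ l.2 + E.μ l.1 * a = l'.2 + E.μ l'.1 * a := by
  constructor
  · rintro rfl
    exact E.col_spec h
  · intro h1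
    have h2 := E.col_spec h
    refine (E.unit_sub h).mul_left_cancel ?_
    linear_combination h2 - h1

theorem col_symm {l l' : Lam} (h : l.1 ≠ l'.1) : E.col l l' = E.col l' l := by
  rw [E.col_eq_iff h]
  exact (E.col_spec h.symm).symm

/-- Collisions are triple collisions. -/
theorem col_trans {l l' l'' : Lam} (h : l.1 ≠ l'.1) (h' : l'.1 ≠ l''.1) (h'' : l.1 ≠ l''.1)
    (e : E.col l l' = E.col l' l'') : E.col l l'' = E.col l l' := by
  rw [E.col_eq_iff h'']
  have h1 := E.col_spec h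
  have h2 := E.col_spec h'
  rw [← e] at h2
  exact h1.trans h2

theorem pos_sub {l l' : Lam} (h : l.1 ≠ l'.1) (t : ℝ) :
    E.pos t l' - E.pos t l = (E.m l'.1 - E.m l.1) * (t - E.ξ (E.col l l')) := by
  have h1 := congrArg E.ξ (E.col_spec h)
  simp only [map_add, map_mul] at h1
  unfold Emb.pos Emb.m
  linear_combination -h1

theorem pos_eq_iff {l l' : Lam} (h : l.1 ≠ l'.1) (t : ℝ) :
    E.pos t l = E.pos t l' ↔ t = E.ξ (E.col l l') := by
  have h1 := E.pos_sub h t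
  have h2 : E.m l'.1 - E.m l.1 ≠ 0 := sub_ne_zero.2 (E.m_ne h.symm)
  constructor
  · intro h3
    rw [h3, sub_self] at h1
    exact sub_eq_zero.1 ((mul_eq_zero.1 h1.symm).resolve_left h2)
  · intro h3
    rw [← h3, sub_self, mul_zero] at h1
    linarith

theorem pos_same {l l' : Lam} (h : l.1 = l'.1) (t : ℝ) :
    E.pos t l' - E.pos t l = E.ξ l'.2 - E.ξ l.2 := by
  unfold Emb.pos
  rw [h]
  ring

theorem pos_move (l : Lam) (s t : ℝ) : E.pos t l = E.pos s l + E.m l.1 * (t - s) := by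
  unfold Emb.pos
  ring

theorem key_lt_iff (u : Mk) (l l' : Lam) : E.key u l < E.key u l' ↔
    E.pos u.1 l < E.pos u.1 l' ∨ (E.pos u.1 l = E.pos u.1 l' ∧
      (if u.2 = true then E.m l.1 < E.m l'.1 else E.m l'.1 < E.m l.1)) := by
  change toLex (_, _) < toLex (_, _) ↔ _
  rw [Prod.Lex.toLex_lt_toLex]
  cases u.2 <;> simp

theorem pos_le_of_key {u : Mk} {l l' : Lam} (h : E.key u l < E.key u l') :
    E.pos u.1 l ≤ E.pos u.1 l' := by
  rcases (E.key_lt_iff u l l').1 h with h | h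
  · exact h.le
  · exact h.1.le

theorem key_of_pos {u : Mk} {l l' : Lam} (h : E.pos u.1 l < E.pos u.1 l') :
    E.key u l < E.key u l' := (E.key_lt_iff u l l').2 (Or.inl h)

/-- The faster label is to the left exactly when the collision point is to the right of the
marker. -/
theorem key_lt_fast (u : Mk) {l l' : Lam} (h : E.m l.1 < E.m l'.1) :
    E.key u l' < E.key u l ↔
      u.1 < E.ξ (E.col l l') ∨ (u.1 = E.ξ (E.col l l') ∧ u.2 = false) := by
  have hne : l.1 ≠ l'.1 := fun h0 => by rw [h0] at h; exact lt_irrefl _ h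
  have h1 := E.pos_sub hne u.1
  have h2 : 0 < E.m l'.1 - E.m l.1 := sub_pos.2 h
  rw [E.key_lt_iff, eq_comm, E.pos_eq_iff hne]
  refine or_congr ?_ (and_congr Iff.rfl ?_)
  · rw [← sub_neg, h1]
    constructor
    · intro h3
      by_contra h4
      nlinarith [mul_nonneg h2.le (sub_nonneg.2 (not_lt.1 h4))]
    · intro h3
      exact mul_neg_of_pos_of_neg h2 (sub_neg.2 h3)
  · cases u.2 <;> simp [h, h.le]

theorem key_lt_slow (u : Mk) {l l' : Lam} (h : E.m l.1 < E.m l'.1) :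
    E.key u l < E.key u l' ↔
      ¬ (u.1 < E.ξ (E.col l l') ∨ (u.1 = E.ξ (E.col l l') ∧ u.2 = false)) := by
  have hne : l ≠ l' := fun h0 => by rw [h0] at h; exact lt_irrefl _ h
  rw [← E.key_lt_fast u h, not_lt]
  exact ⟨le_of_lt, fun h1 => lt_of_le_of_ne h1 (fun h2 => hne ((E.key u).injective h2))⟩

theorem key_lt_same (u : Mk) {l l' : Lam} (h : l.1 = l'.1) :
    E.key u l < E.key u l' ↔ E.ξ l.2 < E.ξ l'.2 := by
  have h1 := E.pos_same h u.1
  rw [E.key_lt_iff, h]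
  constructor
  · rintro (h2 | ⟨_, h2⟩)
    · linarith
    · split_ifs at h2 <;> exact absurd h2 (lt_irrefl _)
  · intro h2
    left
    linarith

theorem kinf_lt_iff (b : Bool) (l l' : Lam) : E.kinf b l < E.kinf b l' ↔
    (if b = true then E.m l.1 < E.m l'.1 else E.m l'.1 < E.m l.1) ∨
      (l.1 = l'.1 ∧ E.ξ l.2 < E.ξ l'.2) := by
  change toLex (_, _) < toLex (_, _) ↔ _
  rw [Prod.Lex.toLex_lt_toLex]
  cases b <;> simp [E.m_inj.eq_iff]

theorem kinf_lt_same (b : Bool) {l l' : Lam} (h : l.1 = l'.1) :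
    E.kinf b l < E.kinf b l' ↔ E.ξ l.2 < E.ξ l'.2 := by
  rw [E.kinf_lt_iff, h]
  cases b <;> simp

theorem kinf_true_lt {l l' : Lam} (h : l.1 ≠ l'.1) :
    E.kinf true l < E.kinf true l' ↔ E.m l.1 < E.m l'.1 := by
  rw [E.kinf_lt_iff]; simp [h]

theorem kinf_false_lt {l l' : Lam} (h : l.1 ≠ l'.1) :
    E.kinf false l < E.kinf false l' ↔ E.m l'.1 < E.m l.1 := by
  rw [E.kinf_lt_iff]; simp [h]

theorem bkey_lt_iff (a a' : Zl) : E.bkey a < E.bkey a' ↔ E.ξ a < E.ξ a' := by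
  change toLex (_, _) < toLex (_, _) ↔ _
  rw [Prod.Lex.toLex_lt_toLex]
  simp

/-- Inverted pairs between two markers. -/
theorem key_inverted {u u' : Mk} {l l' : Lam} (h1 : E.key u l < E.key u l')
    (h2 : E.key u' l' < E.key u' l) : l.1 ≠ l'.1 ∧
    ((E.m l.1 < E.m l'.1 ∧
      ¬ (u.1 < E.ξ (E.col l l') ∨ (u.1 = E.ξ (E.col l l') ∧ u.2 = false)) ∧
      (u'.1 < E.ξ (E.col l l') ∨ (u'.1 = E.ξ (E.col l l') ∧ u'.2 = false))) ∨
    (E.m l'.1 < E.m l.1 ∧
      (u.1 < E.ξ (E.col l l') ∨ (u.1 = E.ξ (E.col l l') ∧ u.2 = false)) ∧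
      ¬ (u'.1 < E.ξ (E.col l l') ∨ (u'.1 = E.ξ (E.col l l') ∧ u'.2 = false)))) := by
  have hne : l.1 ≠ l'.1 := by
    intro h
    rw [E.key_lt_same u h] at h1
    rw [E.key_lt_same u' h.symm] at h2
    exact lt_asymm h1 h2
  refine ⟨hne, ?_⟩
  rcases lt_or_gt_of_ne (E.m_ne hne) with h | h
  · exact Or.inl ⟨h, (E.key_lt_slow u h).1 h1, (E.key_lt_fast u' h).1 h2⟩
  · rw [E.col_symm hne]
    exact Or.inr ⟨h, (E.key_lt_fast u h).1 h1, (E.key_lt_slow u' h).1 h2⟩

theorem pos_inj {t : ℝ} (ht : t ∉ Set.range E.ξ) : Function.Injective (E.pos t) := by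
  intro l l' h
  by_cases h0 : l.1 = l'.1
  · have := E.pos_same h0 t
    exact Prod.ext h0 (E.ξ_inj (by linarith))
  · exact absurd ⟨_, ((E.pos_eq_iff h0 t).1 h).symm⟩ ht

theorem key_lt_generic {u : Mk} (hu : u.1 ∉ Set.range E.ξ) (l l' : Lam) :
    E.key u l < E.key u l' ↔ E.pos u.1 l < E.pos u.1 l' := by
  refine ⟨fun h => lt_of_le_of_ne (E.pos_le_of_key h) (fun h2 => ?_), E.key_of_pos⟩
  rw [E.pos_inj hu h2] at h
  exact lt_irrefl _ h

instance : Countable Zl :=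
  Function.Injective.countable (f := fun p : Zl => (p.re, p.im))
    (fun _ _ h => QuadraticAlgebra.ext (congrArg Prod.fst h) (congrArg Prod.snd h))

theorem exists_generic {a b : ℝ} (h : a < b) : ∃ t, a < t ∧ t < b ∧ t ∉ Set.range E.ξ := by
  have h1 : Dense (Set.range E.ξ)ᶜ := Set.Countable.dense_compl ℝ (Set.countable_range E.ξ)
  obtain ⟨t, ht1, ht2⟩ := h1.exists_between h
  exact ⟨t, ht2.1, ht2.2, ht1⟩

/-- The affine relabelling attached to `z ↦ ε z + e`. -/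
def aff (ε e : Zl) (l : Lam) : Lam := (l.1, ε * l.2 - E.μ l.1 * e)

@[simp] theorem aff_fst (ε e : Zl) (l : Lam) : (E.aff ε e l).1 = l.1 := rfl

@[simp] theorem aff_snd (ε e : Zl) (l : Lam) : (E.aff ε e l).2 = ε * l.2 - E.μ l.1 * e := rfl

@[simp] theorem tr_aff : E.tr.aff = E.aff := rfl

theorem pos_aff (ε e : Zl) (t : ℝ) (l : Lam) :
    E.pos (E.ξ ε * t + E.ξ e) (E.aff ε e l) = E.ξ ε * E.pos t l := by
  simp only [Emb.pos, Emb.m, aff_fst, aff_snd, map_sub, map_mul]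
  ring

theorem key_aff {ε : Zl} (hε : 0 < E.ξ ε) (e : Zl) (u : Mk) (l l' : Lam) :
    E.key (E.ξ ε * u.1 + E.ξ e, u.2) (E.aff ε e l) < E.key (E.ξ ε * u.1 + E.ξ e, u.2) (E.aff ε e l')
      ↔ E.key u l < E.key u l' := by
  simp only [E.key_lt_iff, E.pos_aff, aff_fst, mul_lt_mul_iff_right₀ hε,
    mul_right_inj' hε.ne']

theorem kinf_aff {ε : Zl} (hε : 0 < E.ξ ε) (e : Zl) (b : Bool) (l l' : Lam) :
    E.kinf b (E.aff ε e l) < E.kinf b (E.aff ε e l') ↔ E.kinf b l < E.kinf b l' := by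
  simp only [E.kinf_lt_iff, aff_fst, aff_snd, map_sub, map_mul]
  refine or_congr Iff.rfl (and_congr_right (fun h => ?_))
  rw [h, sub_lt_sub_iff_right, mul_lt_mul_iff_right₀ hε]

theorem col_aff (ε e : Zl) {l l' : Lam} (h : l.1 ≠ l'.1) :
    E.col (E.aff ε e l) (E.aff ε e l') = ε * E.col l l' + e := by
  rw [E.col_eq_iff (by simpa using h)]
  simp only [aff_fst, aff_snd]
  linear_combination ε * E.col_spec h

theorem aff_aff (ε e ε' e' : Zl) (l : Lam) :
    E.aff ε e (E.aff ε' e' l) = E.aff (ε * ε') (ε * e' + e) l := by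
  refine Prod.ext rfl ?_
  simp only [aff_fst, aff_snd]
  ring

theorem aff_one (l : Lam) : E.aff 1 0 l = l := by
  refine Prod.ext rfl ?_
  simp

end Emb

/-- Translation of fibre labels. -/
def trl (v : Zl) (l : Lam) : Lam := (l.1, l.2 + v)

@[simp] theorem trl_fst (v : Zl) (l : Lam) : (trl v l).1 = l.1 := rfl

@[simp] theorem trl_snd (v : Zl) (l : Lam) : (trl v l).2 = l.2 + v := rfl

theorem trl_trl (v v' : Zl) (l : Lam) : trl v (trl v' l) = trl (v + v') l := by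
  refine Prod.ext rfl ?_
  simp only [trl_snd]
  ring

theorem trl_zero (l : Lam) : trl 0 l = l := by
  refine Prod.ext rfl ?_
  simp

namespace Emb
variable (E : Emb)

theorem pos_trl (v : Zl) (t : ℝ) (l : Lam) : E.pos t (trl v l) = E.pos t l + E.ξ v := by
  simp only [Emb.pos, trl_fst, trl_snd, map_add]
  ring

theorem key_trl (v : Zl) (u : Mk) (l l' : Lam) :
    E.key u (trl v l) < E.key u (trl v l') ↔ E.key u l < E.key u l' := by
  simp only [E.key_lt_iff, E.pos_trl, trl_fst, add_lt_add_iff_right, add_left_inj]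

theorem kinf_trl (v : Zl) (b : Bool) (l l' : Lam) :
    E.kinf b (trl v l) < E.kinf b (trl v l') ↔ E.kinf b l < E.kinf b l' := by
  simp only [E.kinf_lt_iff, trl_fst, trl_snd, map_add, add_lt_add_iff_right]

theorem col_trl (v : Zl) (l l' : Lam) : E.col (trl v l) (trl v l') = E.col l l' := by
  simp only [Emb.col, trl_fst, trl_snd, add_sub_add_right_eq_sub]

theorem aff_trl (ε e v : Zl) (l : Lam) : E.aff ε e (trl v l) = trl (ε * v) (E.aff ε e l) := by
  refine Prod.ext rfl ?_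
  simp only [aff_snd, trl_fst, trl_snd]
  ring

end Emb

end Pool.Agent.E5f
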