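import Pool.Agent.E5f.WOp

/-!
Transitions between two orders in one direction: adjacent swaps, bubble sort, dependence on the
transverse order.
-/

set_option autoImplicit false

namespace Pool.Agent.E5f

variable {L C K : Type} [CommGroup C] [LinearOrder K]

/-- The transition from the basis of the order `X` to the basis of the order `X'`, the transverse
order being `Y`. -/
noncomputable def Tr (X X' Y : L → K) (c : C) (S : Finset L) : W L C →* W L C :=
  (Phi X' Y c S).comp (Phi Y X c S)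

theorem Tr_apply (X X' Y : L → K) (c : C) (S : Finset L) (g : W L C) :
    Tr X X' Y c S g = Phi X' Y c S (Phi Y X c S g) := rfl

theorem Tr_self {X Y : L → K} (c : C) {S : Finset L} (hX : Set.InjOn X S) (hY : Set.InjOn Y S)
    (g : W L C) : Tr X X Y c S g = g := Phi_Phi c hY hX g

theorem Tr_Tr {X X' X'' Y : L → K} (c : C) {S : Finset L} (hX : Set.InjOn X' S)
    (hY : Set.InjOn Y S) (g : W L C) : Tr X' X'' Y c S (Tr X X' Y c S g) = Tr X X'' Y c S g := by
  rw [Tr_apply, Tr_apply, Phi_Phi c hX hY, Tr_apply]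

theorem sup_Tr (X X' Y : L → K) (c : C) {S : Finset L} {T : Set L} (hS : ∀ l ∈ S, l ∈ T)
    {g : W L C} (hg : Sup T g) : Sup T (Tr X X' Y c S g) :=
  sup_Phi X' Y c hS (sup_Phi Y X c hS hg)

theorem expo_Tr (X X' Y : L → K) (c : C) (S : Finset L) (l : L) (g : W L C) :
    expo l (Tr X X' Y c S g) = expo l g := by
  rw [Tr_apply, expo_Phi, expo_Phi, inv_inv]

theorem ret_Tr {X X' Y : L → K} (c : C) {S T : Finset L} (hX : Set.InjOn X' S)
    (hY : Set.InjOn Y S) (hT : T ⊆ S) (g : W L C) :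
    ret (T : Set L) (Tr X X' Y c S g) = Tr X X' Y c T (ret (T : Set L) g) := by
  rw [Tr_apply, ret_Phi c hX hT, ret_Phi c hY hT, Tr_apply]

/-- An ordered product over a set which is a lower part for both orders is carried to the ordered
product for the new order. -/
theorem Tr_op {X X' Y : L → K} (c : C) {S : Finset L} (hX : Set.InjOn X S) (hX' : Set.InjOn X' S)
    (hY : Set.InjOn Y S) {D : Finset L} (h : LowerIn X Y S D) (h' : LowerIn X' Y S D) :
    Tr X X' Y c S (op X c D) = op X' c D := by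
  rw [Tr_apply, Phi_op c hY hX h.symm, map_inv, Phi_op c hX' hY h', inv_inv]

theorem Tr_lt {X X' Y : L → K} (c : C) {S : Finset L} (hX' : Set.InjOn X' S)
    (hY : Set.InjOn Y S) (l : L) (x : C) (h : LowerIn X' Y S (SW X Y S l)) :
    Tr X X' Y c S (lt l x) = (op X' c (SW X Y S l))⁻¹ * op X' c (SW X' Y S l) * lt l x *
      ((op X' c (SW X Y S l))⁻¹ * op X' c (SW X' Y S l))⁻¹ := by
  rw [Tr_apply, Phi_lt, SW_comm Y X, map_mul, map_mul, map_inv, map_inv, Phi_op c hX' hY h,
    Phi_lt]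
  group

/-- The transition is trivial when the two orders agree. -/
theorem Tr_same {X X' Y : L → K} (c : C) {S : Finset L} (hX' : Set.InjOn X' S)
    (hY : Set.InjOn Y S) (h : ∀ a ∈ S, ∀ b ∈ S, X a < X b ↔ X' a < X' b) {g : W L C}
    (hg : Sup (S : Set L) g) : Tr X X' Y c S g = g := by
  refine W_ext_sup (f' := MonoidHom.id _) (fun l hl x => ?_) hg
  have e : SW X Y S l = SW X' Y S l := by
    ext m
    simp only [mem_SW]
    exact ⟨fun h1 => ⟨h1.1, (h m h1.1 l hl).1 h1.2.1, h1.2.2⟩,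
      fun h1 => ⟨h1.1, (h m h1.1 l hl).2 h1.2.1, h1.2.2⟩⟩
  rw [Tr_lt c hX' hY l x (e ▸ lowerIn_SW X' Y S l), e]
  simp

/-- The orders `X` and `X'` agree on `S` except for the pair `a`, `b`. -/
def AgreeOff (X X' : L → K) (S : Finset L) (a b : L) : Prop :=
  ∀ m ∈ S, ∀ l ∈ S, ¬ (m = a ∧ l = b) → ¬ (m = b ∧ l = a) → (X m < X l ↔ X' m < X' l)

theorem AgreeOff.symm {X X' : L → K} {S : Finset L} {a b : L} (h : AgreeOff X X' S a b) :
    AgreeOff X' X S a b := fun m hm l hl h1 h2 => (h m hm l hl h1 h2).symm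

theorem AgreeOff.swap {X X' : L → K} {S : Finset L} {a b : L} (h : AgreeOff X X' S a b) :
    AgreeOff X X' S b a := fun m hm l hl h1 h2 => h m hm l hl h2 h1

theorem wtr_other {X X' Y : L → K} (c : C) {S : Finset L} (hX' : Set.InjOn X' S)
    (hY : Set.InjOn Y S) {a b : L} (hab : Y a < Y b) (h : AgreeOff X X' S a b) {l : L}
    (hl : l ∈ S) (hb : l ≠ b) (x : C) : Tr X X' Y c S (lt l x) = lt l x := by
  have e : SW X Y S l = SW X' Y S l := by
    ext m
    simp only [mem_SW]
    have key : m ∈ S → Y m < Y l → (X m < X l ↔ X' m < X' l) := fun hm hy =>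
      h m hm l hl (fun h1 => hb h1.2) (fun h1 => by
        rw [h1.1, h1.2] at hy
        exact lt_asymm hy hab)
    exact ⟨fun h1 => ⟨h1.1, (key h1.1 h1.2.2).1 h1.2.1, h1.2.2⟩,
      fun h1 => ⟨h1.1, (key h1.1 h1.2.2).2 h1.2.1, h1.2.2⟩⟩
  rw [Tr_lt c hX' hY l x (e ▸ lowerIn_SW X' Y S l), e]
  simp

/-- Adjacent swap, the upper label `b` moves to the right over the lower label `a`. -/
theorem Tr_swap_right {X X' Y : L → K} (c : C) {S : Finset L} (hX' : Set.InjOn X' S)
    (hY : Set.InjOn Y S) {a b : L} (ha : a ∈ S) (hb : b ∈ S) (hab : Y a < Y b)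
    (h : AgreeOff X X' S a b) (h1 : X b < X a) (h2 : X' a < X' b) {g : W L C}
    (hg : Sup (S : Set L) g) : Tr X X' Y c S g = sw a b c g := by
  classical
  refine W_ext_sup (fun l hl x => ?_) hg
  rw [sw_lt]
  split_ifs with hlb
  · subst hlb
    have hlt : ∀ m ∈ SW X Y S l, X' m < X' a := by
      intro m hm
      obtain ⟨m1, m2, m3⟩ := mem_SW.1 hm
      have hml : m ≠ l := fun e => by rw [e] at m2; exact lt_irrefl _ m2
      exact (h m m1 a ha (fun e => by rw [e.2] at hab; exact lt_irrefl _ hab)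
        (fun e => hml e.1)).1 (m2.trans h1)
    have hD : ∀ m, m ∈ SW X' Y S l ↔ m ∈ SW X Y S l ∨ m = a := by
      intro m
      simp only [mem_SW]
      constructor
      · intro hm
        by_cases e : m = a
        · exact Or.inr e
        · exact Or.inl ⟨hm.1, (h m hm.1 l hb (fun e' => e e'.1)
            (fun e' => by rw [e'.1] at hm; exact lt_irrefl _ hm.2.1)).2 hm.2.1, hm.2.2⟩
      · rintro (hm | rfl)
        · exact ⟨hm.1, (hlt m (mem_SW.2 hm)).trans h2, hm.2.2⟩
        · exact ⟨ha, h2, hab⟩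
    have hlow : LowerIn X' Y S (SW X Y S l) := by
      refine ⟨SW_sub X Y S l, fun m hm n hn k1 k2 => ?_⟩
      rcases (hD m).1 ((lowerIn_SW X' Y S l).2 m hm n ((hD n).2 (Or.inl hn)) k1 k2) with e | e
      · exact e
      · subst e
        exact absurd (k1.trans (hlt n hn)) (lt_irrefl _)
    rw [Tr_lt c hX' hY l x hlow, op_max c (hX'.mono (SW_sub X' Y S l)) hD hlt]
    group
  · exact wtr_other c hX' hY hab h hl hlb x

theorem sw_sw (a b : L) (hab : a ≠ b) (x y : C) (g : W L C) :
    sw a b x (sw a b y g) = sw a b (x * y) g := by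
  classical
  have : (sw a b x).comp (sw a b y) = (sw a b (x * y) : W L C →* W L C) := by
    refine W_ext (fun l z => ?_)
    rw [MonoidHom.comp_apply, sw_lt, sw_lt]
    split_ifs with h
    · simp only [map_mul, map_inv, sw_lt, if_neg hab, if_true, mul_comm x y, lt_mul]
      group
    · rw [sw_lt, if_neg h]
  exact DFunLike.congr_fun this g

theorem sw_one (a b : L) (g : W L C) : sw a b (1 : C) g = g := by
  classical
  have : sw a b (1 : C) = MonoidHom.id (W L C) := by
    refine W_ext (fun l z => ?_)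
    rw [sw_lt]
    split_ifs with h
    · subst h; simp
    · rfl
  rw [this]; rfl

/-- Adjacent swap, the upper label `b` moves to the left over the lower label `a`. -/
theorem Tr_swap_left {X X' Y : L → K} (c : C) {S : Finset L} (hX : Set.InjOn X S)
    (hX' : Set.InjOn X' S) (hY : Set.InjOn Y S) {a b : L} (ha : a ∈ S) (hb : b ∈ S)
    (hab : Y a < Y b) (h : AgreeOff X X' S a b) (h1 : X a < X b) (h2 : X' b < X' a) {g : W L C}
    (hg : Sup (S : Set L) g) : Tr X X' Y c S g = sw a b c⁻¹ g := by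
  have hne : a ≠ b := fun e => by rw [e] at hab; exact lt_irrefl _ hab
  have e1 := Tr_swap_right c hX hY ha hb hab h.symm h2 h1
    (sup_Tr X X' Y c (fun l hl => hl) hg)
  rw [Tr_Tr c hX' hY, Tr_self c hX hY] at e1
  conv_rhs => rw [e1]
  rw [sw_sw a b hne, inv_mul_cancel, sw_one]

open Classical in
theorem agreeOff_swap {X : L → K} {S : Finset L} (hX : Set.InjOn X S) {a b : L} (ha : a ∈ S)
    (hb : b ∈ S) (hab : X a < X b) (hadj : ∀ m ∈ S, X a < X m → X m < X b → False) :
    AgreeOff X (X ∘ Equiv.swap a b) S a b := by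
  have k1 : ∀ m ∈ S, m ≠ a → m ≠ b → (X m < X a ∧ X m < X b) ∨ (X a < X m ∧ X b < X m) := by
    intro m hm h1 h2
    rcases lt_trichotomy (X m) (X a) with h | h | h
    · exact Or.inl ⟨h, h.trans hab⟩
    · exact absurd (hX hm ha h) h1
    · rcases lt_trichotomy (X m) (X b) with h' | h' | h'
      · exact (hadj m hm h h').elim
      · exact absurd (hX hm hb h') h2
      · exact Or.inr ⟨h, h'⟩
  intro m hm l hl h1 h2
  simp only [Function.comp_apply]
  by_cases ma : m = a
  · subst ma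
    rw [Equiv.swap_apply_left]
    by_cases la : l = m
    · subst la; simp
    · have lb : l ≠ b := fun e => h1 ⟨rfl, e⟩
      rw [Equiv.swap_apply_of_ne_of_ne la lb]
      rcases k1 l hl la lb with k | k
      · exact iff_of_false (lt_asymm k.1) (lt_asymm k.2)
      · exact iff_of_true k.1 k.2
  by_cases mb : m = b
  · subst mb
    rw [Equiv.swap_apply_right]
    by_cases lb : l = m
    · subst lb; simp
    · have la : l ≠ a := fun e => h2 ⟨rfl, e⟩
      rw [Equiv.swap_apply_of_ne_of_ne la lb]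
      rcases k1 l hl la lb with k | k
      · exact iff_of_false (lt_asymm k.2) (lt_asymm k.1)
      · exact iff_of_true k.2 k.1
  rw [Equiv.swap_apply_of_ne_of_ne ma mb]
  by_cases la : l = a
  · subst la
    rw [Equiv.swap_apply_left]
    rcases k1 m hm ma mb with k | k
    · exact iff_of_true k.1 k.2
    · exact iff_of_false (lt_asymm k.1) (lt_asymm k.2)
  by_cases lb : l = b
  · subst lb
    rw [Equiv.swap_apply_right]
    rcases k1 m hm ma mb with k | k
    · exact iff_of_true k.2 k.1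
    · exact iff_of_false (lt_asymm k.2) (lt_asymm k.1)
  rw [Equiv.swap_apply_of_ne_of_ne la lb]

omit [LinearOrder K] in
open Classical in
theorem injOn_swap {X : L → K} {S : Finset L} (hX : Set.InjOn X S) {a b : L} (ha : a ∈ S)
    (hb : b ∈ S) : Set.InjOn (X ∘ Equiv.swap a b) S := by
  have hm : ∀ m ∈ S, Equiv.swap a b m ∈ S := by
    intro m hm
    rw [Equiv.swap_apply_def]
    split_ifs <;> assumption
  intro m h1 l h2 e
  exact (Equiv.swap a b).injective (hX (hm m h1) (hm l h2) e)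

theorem exists_adjacent {K' : Type} [LinearOrder K'] {X : L → K} {X1 : L → K'} {S : Finset L}
    (hX1 : Set.InjOn X1 S) (h : ∃ a ∈ S, ∃ b ∈ S, X a < X b ∧ X1 b < X1 a) :
    ∃ a ∈ S, ∃ b ∈ S, X a < X b ∧ X1 b < X1 a ∧ ∀ m ∈ S, X a < X m → X m < X b → False := by
  classical
  have key : ∀ n : ℕ, ∀ a ∈ S, ∀ b ∈ S, X a < X b → X1 b < X1 a →
      (S.filter (fun m => X a < X m ∧ X m < X b)).card ≤ n →
      ∃ a ∈ S, ∃ b ∈ S, X a < X b ∧ X1 b < X1 a ∧ ∀ m ∈ S, X a < X m → X m < X b → False := by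
    intro n
    induction n with
    | zero =>
      intro a ha b hb h1 h2 hc
      refine ⟨a, ha, b, hb, h1, h2, fun m hm k1 k2 => ?_⟩
      have := Finset.card_pos.2 ⟨m, (Finset.mem_filter (p := fun m => X a < X m ∧ X m < X b)).2
        ⟨hm, k1, k2⟩⟩
      omega
    | succ n ih =>
      intro a ha b hb h1 h2 hc
      by_cases hex : ∃ m ∈ S, X a < X m ∧ X m < X b
      · obtain ⟨m, hm, k1, k2⟩ := hex
        have hmem : m ∈ S.filter (fun m => X a < X m ∧ X m < X b) :=
          Finset.mem_filter.2 ⟨hm, k1, k2⟩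
        rcases lt_trichotomy (X1 m) (X1 a) with k | k | k
        · refine ih a ha m hm k1 k (Nat.lt_succ_iff.1 (lt_of_lt_of_le (Finset.card_lt_card ?_) hc))
          refine ⟨fun x hx => ?_, fun hs => ?_⟩
          · rw [Finset.mem_filter] at hx ⊢
            exact ⟨hx.1, hx.2.1, hx.2.2.trans k2⟩
          · exact lt_irrefl _ (Finset.mem_filter.1 (hs hmem)).2.2
        · rw [hX1 hm ha k] at k1
          exact absurd k1 (lt_irrefl _)
        · refine ih m hm b hb k2 (h2.trans k)
            (Nat.lt_succ_iff.1 (lt_of_lt_of_le (Finset.card_lt_card ?_) hc))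
          refine ⟨fun x hx => ?_, fun hs => ?_⟩
          · rw [Finset.mem_filter] at hx ⊢
            exact ⟨hx.1, k1.trans hx.2.1, hx.2.2⟩
          · exact lt_irrefl _ (Finset.mem_filter.1 (hs hmem)).2.1
      · exact ⟨a, ha, b, hb, h1, h2, fun m hm k1 k2 => hex ⟨m, hm, k1, k2⟩⟩
  obtain ⟨a, ha, b, hb, h1, h2⟩ := h
  exact key _ a ha b hb h1 h2 le_rfl

/-- Bubble sort towards the order `X1`. -/
theorem bubble {K' : Type} [LinearOrder K'] {S : Finset L} {X1 : L → K'} (hX1 : Set.InjOn X1 S)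
    {P : (L → K) → Prop}
    (h0 : ∀ X : L → K, Set.InjOn X S → (∀ a ∈ S, ∀ b ∈ S, X a < X b ↔ X1 a < X1 b) → P X)
    (hs : ∀ X X' : L → K, Set.InjOn X S → Set.InjOn X' S → ∀ a ∈ S, ∀ b ∈ S, X a < X b →
      X' b < X' a → X1 b < X1 a → AgreeOff X X' S a b → P X' → P X)
    (X : L → K) (hX : Set.InjOn X S) : P X := by
  classical
  have key : ∀ n : ℕ, ∀ X : L → K, Set.InjOn X S →
      ((S ×ˢ S).filter (fun e => X e.1 < X e.2 ∧ X1 e.2 < X1 e.1)).card ≤ n → P X := by
    intro n
    induction n using Nat.strong_induction_on with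
    | _ n ih =>
      intro X hX hc
      by_cases hex : ∃ a ∈ S, ∃ b ∈ S, X a < X b ∧ X1 b < X1 a
      · obtain ⟨a, ha, b, hb, h1, h2, hadj⟩ := exists_adjacent hX1 hex
        have hag := agreeOff_swap hX ha hb h1 hadj
        have h3 : (X ∘ Equiv.swap a b) b < (X ∘ Equiv.swap a b) a := by simpa using h1
        refine hs X (X ∘ Equiv.swap a b) hX (injOn_swap hX ha hb) a ha b hb h1 h3 h2 hag ?_
        refine ih _ (lt_of_lt_of_le (Finset.card_lt_card ?_) hc) _ (injOn_swap hX ha hb) le_rfl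
        refine ⟨fun e he => ?_, fun hsub => ?_⟩
        · rw [Finset.mem_filter, Finset.mem_product] at he ⊢
          refine ⟨he.1, (hag e.1 he.1.1 e.2 he.1.2 (fun k => ?_) (fun k => ?_)).2 he.2.1, he.2.2⟩
          · rw [k.1, k.2] at he
            exact lt_asymm he.2.1 h3
          · rw [k.1, k.2] at he
            exact lt_asymm he.2.2 h2
        · have : (a, b) ∈ (S ×ˢ S).filter (fun e => X e.1 < X e.2 ∧ X1 e.2 < X1 e.1) :=
            Finset.mem_filter.2 ⟨Finset.mem_product.2 ⟨ha, hb⟩, h1, h2⟩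
          exact lt_asymm (Finset.mem_filter.1 (hsub this)).2.1 h3
      · refine h0 X hX (fun a ha b hb => ⟨fun h => ?_, fun h => ?_⟩)
        · rcases lt_trichotomy (X1 a) (X1 b) with k | k | k
          · exact k
          · rw [hX1 ha hb k] at h
            exact absurd h (lt_irrefl _)
          · exact absurd ⟨a, ha, b, hb, h, k⟩ hex
        · rcases lt_trichotomy (X a) (X b) with k | k | k
          · exact k
          · rw [hX ha hb k] at h
            exact absurd h (lt_irrefl _)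
          · exact absurd ⟨b, hb, a, ha, k, h⟩ hex
  exact key _ X hX le_rfl

/-- The transition depends only on the transverse order of the inverted pairs. -/
theorem Tr_congr {X X1 Y Y' : L → K} (c : C) {S : Finset L} (hX : Set.InjOn X S)
    (hX1 : Set.InjOn X1 S) (hY : Set.InjOn Y S) (hY' : Set.InjOn Y' S)
    (h : ∀ a ∈ S, ∀ b ∈ S, X a < X b → X1 b < X1 a → (Y a < Y b ↔ Y' a < Y' b)) {g : W L C}
    (hg : Sup (S : Set L) g) : Tr X X1 Y c S g = Tr X X1 Y' c S g := by
  revert g h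
  refine bubble hX1 (P := fun X => (∀ a ∈ S, ∀ b ∈ S, X a < X b → X1 b < X1 a →
      (Y a < Y b ↔ Y' a < Y' b)) → ∀ {g : W L C}, Sup (S : Set L) g →
      Tr X X1 Y c S g = Tr X X1 Y' c S g) ?_ ?_ X hX
  · intro X _ hag _ g hg
    rw [Tr_same c hX1 hY hag hg, Tr_same c hX1 hY' hag hg]
  · intro X X' hX hX' a ha b hb h1 h2 h3 hag ih h g hg
    have hne : a ≠ b := fun e => by rw [e] at h1; exact lt_irrefl _ h1
    have hyy := h a ha b hb h1 h3
    have e : Tr X X' Y c S g = Tr X X' Y' c S g := by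
      rcases lt_trichotomy (Y a) (Y b) with k | k | k
      · rw [Tr_swap_left c hX hX' hY ha hb k hag h1 h2 hg,
          Tr_swap_left c hX hX' hY' ha hb (hyy.1 k) hag h1 h2 hg]
      · exact absurd (hY ha hb k) hne
      · have k' : Y' b < Y' a := by
          rcases lt_trichotomy (Y' a) (Y' b) with k2 | k2 | k2
          · exact absurd (hyy.2 k2) (lt_asymm k)
          · exact absurd (hY' ha hb k2) hne
          · exact k2
        rw [Tr_swap_right c hX' hY hb ha k hag.swap h1 h2 hg,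
          Tr_swap_right c hX' hY' hb ha k' hag.swap h1 h2 hg]
    rw [← Tr_Tr (X' := X') c hX' hY, ← Tr_Tr (X' := X') (Y := Y') c hX' hY', ← e]
    refine ih (fun m hm l hl k1 k2 => h m hm l hl ?_ k2) (sup_Tr X X' Y c (fun l hl => hl) hg)
    refine (hag m hm l hl (fun k => ?_) (fun k => ?_)).2 k1
    · rw [k.1, k.2] at k1
      exact lt_asymm k1 h2
    · rw [k.1, k.2] at k2
      exact lt_asymm k2 h3

/-- The transition depends only on the orders. -/
theorem Tr_congr_ord {K' : Type} [LinearOrder K'] {X X' Y : L → K} {Z Z' V : L → K'} (c : C)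
    {S : Finset L} (hX' : Set.InjOn X' S) (hY : Set.InjOn Y S)
    (h1 : ∀ a ∈ S, ∀ b ∈ S, X a < X b ↔ Z a < Z b)
    (h2 : ∀ a ∈ S, ∀ b ∈ S, X' a < X' b ↔ Z' a < Z' b)
    (h3 : ∀ a ∈ S, ∀ b ∈ S, Y a < Y b ↔ V a < V b) {g : W L C} (hg : Sup (S : Set L) g) :
    Tr X X' Y c S g = Tr Z Z' V c S g := by
  rw [Tr_apply, Tr_apply, Phi_congr (X' := V) (Y' := Z) c hY (fun a ha b hb => (h3 a ha b hb).1)
    (fun a ha b hb => and_congr (h3 a ha b hb) (h1 a ha b hb)) hg]
  exact Phi_congr c hX' (fun a ha b hb => (h2 a ha b hb).1)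
    (fun a ha b hb => and_congr (h2 a ha b hb) (h3 a ha b hb)) (sup_Phi V Z c (fun l hl => hl) hg)

theorem rl_Tr {L' K' : Type} [LinearOrder K'] {X X1 Y : L → K} {X' X1' Y' : L' → K'} (σ : L → L')
    (c : C) {S : Finset L} {S' : Finset L'} (hX1 : Set.InjOn X1 S) (hY : Set.InjOn Y S)
    (hx : ∀ a b, X a < X b ↔ X' (σ a) < X' (σ b))
    (hx1 : ∀ a b, X1 a < X1 b ↔ X1' (σ a) < X1' (σ b))
    (hy : ∀ a b, Y a < Y b ↔ Y' (σ a) < Y' (σ b))
    (hS : ∀ l', l' ∈ S' ↔ ∃ l ∈ S, σ l = l') (g : W L C) :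
    rl σ (Tr X X1 Y c S g) = Tr X' X1' Y' c S' (rl σ g) := by
  rw [Tr_apply, Tr_apply, rl_Phi σ c hX1 hx1 hy hS, rl_Phi σ c hY hy hx hS]

end Pool.Agent.E5f
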