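import Pool.Agent.E5f.MoDefs
import Pool.Agent.E5f.WTr

/-!
The change of generators of the model: key identity, inverse, naturality, swaps, bubble sort.
-/

set_option autoImplicit false

namespace Pool.Agent.E5f

open OrderDual

variable {L C : Type} [CommGroup C]

theorem pl_reverse (c : C) (w : List L) : pl c⁻¹ w.reverse = (pl c w)⁻¹ := by
  induction w with
  | nil => simp
  | cons l w ih => rw [List.reverse_cons, pl_append, ih, pl_cons, pl_cons, lt_inv]; simp

theorem op_dual {K : Type} [LinearOrder K] {k : L → K} (c : C) {D : Finset L}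
    (hk : Set.InjOn k D) : op (toDual ∘ k) c⁻¹ D = (op k c D)⁻¹ := by
  rw [op_eq_pl (k := toDual ∘ k) (w := (srt k D).reverse) c⁻¹]
  · exact pl_reverse c _
  · rw [List.pairwise_reverse]
    exact (srt_lt hk).imp (fun h => h)
  · intro l
    rw [List.mem_reverse, mem_srt]

theorem dual_inj (X : Od L) (S : Set L) : Set.InjOn (toDual ∘ X) S :=
  (toDual.injective.comp X.injective).injOn

theorem mem_UR {X Y : Od L} {l m : L} : m ∈ UR X Y l ↔ X l < X m ∧ Y l < Y m := Iff.rfl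

theorem UR_comm (X Y : Od L) (l : L) : UR X Y l = UR Y X l := Set.inter_comm _ _

theorem up_Rl (X : Od L) (l : L) : Up X (Rl X l) := fun _ _ h1 h2 => lt_trans h1 h2

theorem SW_dual (X Y : Od L) (S : Finset L) (l : L) :
    SW (toDual ∘ Y) (toDual ∘ X) S l = cut S (UR X Y l) := by
  ext m
  rw [mem_SW, mem_cut, mem_UR]
  exact ⟨fun h => ⟨h.1, h.2.2, h.2.1⟩, fun h => ⟨h.1, h.2.2, h.2.1⟩⟩

theorem Kf_eq_Phi (c : C) (X Y : Od L) (S : Finset L) :
    Kf c X Y S = Phi (toDual ∘ Y) (toDual ∘ X) c⁻¹ S := by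
  refine W_ext (fun l x => ?_)
  rw [Kf_lt, Phi_lt, SW_dual, op_dual c Y.injective.injOn, inv_inv, lt_inv]

/-- The key identity for a set which is an upper part of `S` for the product order. -/
theorem Kf_op_of_upper (c : C) (X Y : Od L) {S D : Finset L} (hD : D ⊆ S)
    (h : ∀ m ∈ S, ∀ l ∈ D, X l < X m → Y l < Y m → m ∈ D) :
    Kf c X Y S (op X c D) = (op Y c D)⁻¹ := by
  have := Phi_op c⁻¹ (dual_inj Y S) (dual_inj X S) (D := D)
    ⟨hD, fun m hm l hl h1 h2 => h m hm l hl h2 h1⟩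
  rw [op_dual c X.injective.injOn, op_dual c Y.injective.injOn, map_inv, inv_inj,
    ← Kf_eq_Phi] at this
  exact this

theorem cut_sub (S : Finset L) (A : Set L) : cut S A ⊆ S := fun _ h => (mem_cut.1 h).1

/-- The key identity. -/
theorem Kf_op (c : C) {X Y : Od L} (S : Finset L) {R A : Set L} (hR : Up X R) (hA : Up Y A) :
    Kf c X Y S (op X c (cut S (R ∩ A))) = (op Y c (cut S (R ∩ A)))⁻¹ :=
  Kf_op_of_upper c X Y (cut_sub S _) (fun m hm l hl h1 h2 =>
    mem_cut.2 ⟨hm, hR l m (mem_cut.1 hl).2.1 h1, hA l m (mem_cut.1 hl).2.2 h2⟩)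

theorem Kf_UR (c : C) (X Y : Od L) (S : Finset L) (l : L) :
    Kf c X Y S (op X c (cut S (UR X Y l))) = (op Y c (cut S (UR X Y l)))⁻¹ :=
  Kf_op c S (up_Rl X l) (up_Rl Y l)

theorem Kf_Kf (c : C) (X Y : Od L) (S : Finset L) (g : W L C) :
    Kf c Y X S (Kf c X Y S g) = g := by
  rw [Kf_eq_Phi, Kf_eq_Phi]
  exact Phi_Phi c⁻¹ (dual_inj Y S) (dual_inj X S) g

theorem Kf_injective (c : C) (X Y : Od L) (S : Finset L) : Function.Injective (Kf c X Y S) :=
  Function.LeftInverse.injective (Kf_Kf c X Y S)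

theorem expo_Kf (c : C) (X Y : Od L) (S : Finset L) (l : L) (g : W L C) :
    expo l (Kf c X Y S g) = (expo l g)⁻¹ := by
  rw [Kf_eq_Phi, expo_Phi]

theorem sup_Kf (c : C) (X Y : Od L) {S : Finset L} {T : Set L} (hS : ∀ l ∈ S, l ∈ T)
    {g : W L C} (hg : Sup T g) : Sup T (Kf c X Y S g) := by
  rw [Kf_eq_Phi]
  exact sup_Phi _ _ _ hS hg

theorem sup_op_cut (X : Od L) (c : C) (S : Finset L) (A : Set L) :
    Sup (S : Set L) (op X c (cut S A)) := sup_op c (fun _ hl => (mem_cut.1 hl).1)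

theorem sup_kapf (c : C) (X Y : Od L) {S : Finset L} (l : L) {g : W L C}
    (hg : Sup (S : Set L) g) : Sup (S : Set L) (kapf c X Y S l g) :=
  sup_Kf c X Y (fun _ h => h) (sup_mul hg (sup_op_cut X c S _))

theorem sup_pj (S : Finset L) (ω : WL L C) : Sup (S : Set L) (pj S ω) :=
  sup_iff.2 (ret_pj_self S ω)

theorem Agr.refl (S : Set L) (X : Od L) : Agr S X X := fun _ _ _ _ => Iff.rfl

theorem Agr.symm {S : Set L} {X X' : Od L} (h : Agr S X X') : Agr S X' X :=
  fun a ha b hb => (h a ha b hb).symm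

theorem Agr.trans {S : Set L} {X X' X'' : Od L} (h : Agr S X X') (h' : Agr S X' X'') :
    Agr S X X'' := fun a ha b hb => (h a ha b hb).trans (h' a ha b hb)

theorem Agr.mono {S T : Set L} {X X' : Od L} (h : Agr S X X') (hT : T ⊆ S) : Agr T X X' :=
  fun a ha b hb => h a (hT ha) b (hT hb)

theorem op_agr (c : C) {X X' : Od L} {D : Finset L} (h : Agr (D : Set L) X X') :
    op X c D = op X' c D :=
  op_congr c X.injective.injOn (fun a ha b hb => (h a ha b hb).1)

theorem Kf_congr (c : C) {X Y X' Y' : Od L} {S : Finset L} (hX : Agr (S : Set L) X X')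
    (hY : Agr (S : Set L) Y Y') {g : W L C} (hg : Sup (S : Set L) g) :
    Kf c X Y S g = Kf c X' Y' S g := by
  rw [Kf_eq_Phi, Kf_eq_Phi]
  exact Phi_congr (X' := toDual ∘ Y') (Y' := toDual ∘ X') c⁻¹ (dual_inj Y S)
    (fun a ha b hb => (hY b hb a ha).1)
    (fun a ha b hb => and_congr (hY b hb a ha) (hX b hb a ha)) hg

theorem cut_UR_congr {X Y X' Y' : Od L} {S : Finset L} (hX : Agr (S : Set L) X X')
    (hY : Agr (S : Set L) Y Y') {l : L} (hl : l ∈ S) : cut S (UR X Y l) = cut S (UR X' Y' l) := by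
  ext m
  simp only [mem_cut, mem_UR]
  exact and_congr_right (fun hm => and_congr (hX l hl m hm) (hY l hl m hm))

theorem kapf_congr (c : C) {X Y X' Y' : Od L} {S : Finset L} (hX : Agr (S : Set L) X X')
    (hY : Agr (S : Set L) Y Y') {l : L} (hl : l ∈ S) {g : W L C} (hg : Sup (S : Set L) g) :
    kapf c X Y S l g = kapf c X' Y' S l g := by
  unfold kapf
  rw [Kf_congr c hX hY (sup_mul hg (sup_op_cut X c S _)), cut_UR_congr hX hY hl,
    op_agr c (hX.mono (cut_sub S _))]

theorem rl_Kf {L' : Type} (σ : L → L') (c : C) {X Y : Od L} {X' Y' : Od L'} {S : Finset L}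
    {S' : Finset L'} (hx : ∀ a b, X a < X b ↔ X' (σ a) < X' (σ b))
    (hy : ∀ a b, Y a < Y b ↔ Y' (σ a) < Y' (σ b)) (hS : ∀ l', l' ∈ S' ↔ ∃ l ∈ S, σ l = l')
    (g : W L C) : rl σ (Kf c X Y S g) = Kf c X' Y' S' (rl σ g) := by
  rw [Kf_eq_Phi, Kf_eq_Phi]
  exact rl_Phi (X' := toDual ∘ Y') (Y' := toDual ∘ X') σ c⁻¹ (dual_inj Y S) (fun a b => hy b a)
    (fun a b => hx b a) hS g

theorem kapf_mul (c : C) (X Y : Od L) (S : Finset L) (l : L) (k g : W L C) :
    kapf c X Y S l (k * g) = Kf c X Y S k * kapf c X Y S l g := by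
  unfold kapf
  rw [mul_assoc, map_mul]

theorem kapf_eq (c : C) (X Y : Od L) (S : Finset L) (l : L) (g : W L C) :
    kapf c X Y S l g = Kf c X Y S g * (op Y c (cut S (UR X Y l)))⁻¹ := by
  unfold kapf
  rw [map_mul, Kf_UR]

theorem kapf_kapf (c : C) (X Y : Od L) (S : Finset L) (l : L) (g : W L C) :
    kapf c Y X S l (kapf c X Y S l g) = g := by
  rw [kapf_eq c X Y]
  unfold kapf
  rw [UR_comm Y X, inv_mul_cancel_right, Kf_Kf]

theorem ret_kapf (c : C) (X Y : Od L) {S S' : Finset L} (h : S ⊆ S') (l : L) (g : W L C) :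
    ret (S : Set L) (kapf c X Y S' l g) = kapf c X Y S l (ret (S : Set L) g) := by
  unfold kapf
  rw [ret_Kf c X Y h, map_mul, ret_op', cut_cut_sub h]

/-! Compatible families. -/

theorem Kh_opH (c : C) {X Y : Od L} {R A : Set L} (hR : Up X R) (hA : Up Y A) :
    Kh c X Y (opH c X (R ∩ A)) = (opH c Y (R ∩ A))⁻¹ :=
  WL_ext fun S => by rw [pj_Kh, map_inv, pj_opH, pj_opH, Kf_op c S hR hA]

theorem Kh_Kh (c : C) (X Y : Od L) (ω : WL L C) : Kh c Y X (Kh c X Y ω) = ω :=
  WL_ext fun S => by rw [pj_Kh, pj_Kh, Kf_Kf]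

theorem Kh_injective (c : C) (X Y : Od L) : Function.Injective (Kh c X Y) :=
  Function.LeftInverse.injective (Kh_Kh c X Y)

theorem kap_kap (c : C) (X Y : Od L) (l : L) (g : WL L C) : kap c Y X l (kap c X Y l g) = g :=
  WL_ext fun S => by rw [pj_kap, pj_kap, kapf_kapf]

theorem kap_mul (c : C) (X Y : Od L) (l : L) (k g : WL L C) :
    kap c X Y l (k * g) = Kh c X Y k * kap c X Y l g := by
  unfold kap
  rw [mul_assoc, map_mul]

theorem kap_eq (c : C) (X Y : Od L) (l : L) (g : WL L C) :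
    kap c X Y l g = Kh c X Y g * (opH c Y (UR X Y l))⁻¹ := by
  unfold kap
  rw [map_mul]
  congr 1
  exact Kh_opH c (up_Rl X l) (up_Rl Y l)

theorem opH_empty (c : C) (X : Od L) : opH c X (∅ : Set L) = 1 :=
  WL_ext fun S => by
    have : cut S (∅ : Set L) = ∅ := by ext l; simp
    rw [pj_opH, this, op_empty, map_one]

theorem opH_singleton (c : C) (X : Od L) (l : L) : opH c X {l} = emb (lt l c) :=
  WL_ext fun S => by
    rw [pj_opH, pj_emb, ← op_singleton X c l, ret_op']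
    congr 1
    ext m
    simp only [mem_cut, Set.mem_singleton_iff, Finset.mem_singleton, Finset.mem_coe]
    exact and_comm

theorem opH_split (c : C) (X : Od L) {A A1 A2 : Set L} (hA : ∀ l, l ∈ A ↔ l ∈ A1 ∨ l ∈ A2)
    (h : ∀ a ∈ A1, ∀ b ∈ A2, X a < X b) : opH c X A = opH c X A1 * opH c X A2 :=
  WL_ext fun S => by
    rw [map_mul, pj_opH, pj_opH, pj_opH]
    refine op_split c X.injective.injOn (fun l => ?_)
      (fun a ha b hb => h a (mem_cut.1 ha).2 b (mem_cut.1 hb).2)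
    simp only [mem_cut, hA]
    tauto

theorem opH_agr (c : C) {X X' : Od L} {A : Set L} (h : Agr A X X') : opH c X A = opH c X' A :=
  WL_ext fun S => by
    rw [pj_opH, pj_opH]
    exact op_agr c (h.mono (fun l hl => (mem_cut.1 hl).2))

theorem Kh_congr (c : C) {X Y X' Y' : Od L} (hX : Agr Set.univ X X') (hY : Agr Set.univ Y Y')
    (ω : WL L C) : Kh c X Y ω = Kh c X' Y' ω :=
  WL_ext fun S => by
    rw [pj_Kh, pj_Kh]
    exact Kf_congr c (hX.mono (Set.subset_univ _)) (hY.mono (Set.subset_univ _)) (sup_pj S ω)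

theorem mem_map_symm (σ : Equiv.Perm L) (S : Finset L) (l' : L) :
    l' ∈ S ↔ ∃ l ∈ S.map σ.symm.toEmbedding, σ l = l' := by
  constructor
  · intro h
    exact ⟨σ.symm l', by simpa using h, by simp⟩
  · rintro ⟨l, hl, rfl⟩
    simpa using hl

theorem rlA_opH (σ : Equiv.Perm L) (c : C) {X X' : Od L} {A A' : Set L}
    (hx : ∀ a ∈ A, ∀ b ∈ A, X a < X b → X' (σ a) < X' (σ b)) (hA : ∀ l, σ l ∈ A' ↔ l ∈ A) :
    rlA σ (opH c X A) = opH c X' A' :=
  WL_ext fun S => by
    rw [rlA_apply, pj_rlH, pj_opH, pj_opH]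
    refine rl_op σ c X.injective.injOn
      (fun a ha b hb => hx a (mem_cut.1 ha).2 b (mem_cut.1 hb).2) (fun l' => ?_)
    simp only [mem_cut]
    constructor
    · intro h
      refine ⟨σ.symm l', ⟨by simpa using h.1, (hA _).1 (by simpa using h.2)⟩, by simp⟩
    · rintro ⟨l, hl, rfl⟩
      exact ⟨by simpa using hl.1, (hA l).2 hl.2⟩

theorem rlA_emb (σ : Equiv.Perm L) (g : W L C) : rlA σ (emb g) = emb (rl σ g) :=
  WL_ext fun S => by
    have e : (σ ⁻¹' (S : Set L)) = ((S.map σ.symm.toEmbedding : Finset L) : Set L) := by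
      ext l; simp
    rw [rlA_apply, pj_rlH, pj_emb, pj_emb, ret_rl, e]

theorem rlA_Kh (σ : Equiv.Perm L) (c : C) {X Y X' Y' : Od L}
    (hx : ∀ a b, X a < X b ↔ X' (σ a) < X' (σ b)) (hy : ∀ a b, Y a < Y b ↔ Y' (σ a) < Y' (σ b))
    (ω : WL L C) : rlA σ (Kh c X Y ω) = Kh c X' Y' (rlA σ ω) :=
  WL_ext fun S => by
    rw [rlA_apply, rlA_apply, pj_rlH, pj_Kh, pj_Kh, pj_rlH]
    exact rl_Kf σ c hx hy (mem_map_symm σ S) _

theorem rlA_kap (σ : Equiv.Perm L) (c : C) {X Y X' Y' : Od L}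
    (hx : ∀ a b, X a < X b ↔ X' (σ a) < X' (σ b)) (hy : ∀ a b, Y a < Y b ↔ Y' (σ a) < Y' (σ b))
    (l : L) (ω : WL L C) : rlA σ (kap c X Y l ω) = kap c X' Y' (σ l) (rlA σ ω) := by
  unfold kap
  rw [rlA_Kh σ c hx hy, map_mul, rlA_opH σ c (X' := X') (A := UR X Y l) (A' := UR X' Y' (σ l))
    (fun a _ b _ h => (hx a b).1 h) (fun m => and_congr (hx l m).symm (hy l m).symm)]

/-! Swaps. -/

theorem Swp.ne {S : Finset L} {X X' : Od L} {f s : L} (h : Swp S X X' f s) : f ≠ s :=
  fun e => by have := h.bef; rw [e] at this; exact lt_irrefl _ this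

theorem Swp.symm {S : Finset L} {X X' : Od L} {f s : L} (h : Swp S X X' f s) : Swp S X' X s f :=
  ⟨h.hs, h.hf, h.aft, h.bef, fun a ha b hb h1 h2 => (h.oth a ha b hb h2 h1).symm⟩

theorem Swp.dual {S : Finset L} {X X' : Od L} {f s : L} (h : Swp S X X' f s) :
    AgreeOff (toDual ∘ X) (toDual ∘ X') S f s :=
  fun m hm l hl h1 h2 => h.oth l hl m hm (fun k => h2 ⟨k.2, k.1⟩) (fun k => h1 ⟨k.2, k.1⟩)

theorem Kf_Kf_eq_Tr (c : C) (X X' Y : Od L) (S : Finset L) (g : W L C) :
    Kf c Y X' S (Kf c X Y S g) = Tr (toDual ∘ X) (toDual ∘ X') (toDual ∘ Y) c⁻¹ S g := by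
  rw [Kf_eq_Phi, Kf_eq_Phi, Tr_apply]

/-- The label moving right is the upper one. -/
theorem Kf_swap_up (c : C) {S : Finset L} {X X' : Od L} (Y : Od L) {f s : L} (h : Swp S X X' f s)
    (hY : Y s < Y f) {g : W L C} (hg : Sup (S : Set L) g) :
    Kf c Y X' S (Kf c X Y S g) = sw f s c⁻¹ g := by
  rw [Kf_Kf_eq_Tr]
  exact Tr_swap_right c⁻¹ (dual_inj X' S) (dual_inj Y S) h.hf h.hs hY h.dual h.bef h.aft hg

/-- The label moving right is the lower one. -/
theorem Kf_swap_down (c : C) {S : Finset L} {X X' : Od L} (Y : Od L) {f s : L}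
    (h : Swp S X X' f s) (hY : Y f < Y s) {g : W L C} (hg : Sup (S : Set L) g) :
    Kf c Y X' S (Kf c X Y S g) = sw s f c g := by
  rw [Kf_Kf_eq_Tr, Tr_swap_left c⁻¹ (dual_inj X S) (dual_inj X' S) (dual_inj Y S) h.hs h.hf hY
    h.dual.swap h.bef h.aft hg, inv_inv]

theorem kapf_trans (c : C) (X X' Y : Od L) (S : Finset L) (l : L) (g : W L C)
    (h : ∀ m ∈ S, ∀ n ∈ cut S (UR X Y l), X' n < X' m → Y n < Y m → m ∈ cut S (UR X Y l)) :
    kapf c Y X' S l (kapf c X Y S l g) = Kf c Y X' S (Kf c X Y S g) *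
      (op X' c (cut S (UR X Y l)) * (op X' c (cut S (UR X' Y l)))⁻¹) := by
  rw [kapf_eq c Y X', kapf_eq c X Y, map_mul, map_inv,
    Kf_op_of_upper c Y X' (cut_sub S _) (fun m hm n hn h1 h2 => h m hm n hn h2 h1), inv_inv,
    UR_comm Y X', mul_assoc]

theorem kapf_swap_up (c : C) {S : Finset L} {X X' : Od L} (Y : Od L) {f s : L}
    (h : Swp S X X' f s) (hY : Y s < Y f) {l : L} (hl : l ∈ S) {g : W L C}
    (hg : Sup (S : Set L) g) : kapf c Y X' S l (kapf c X Y S l g) = psw f s c⁻¹ l g := by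
  classical
  unfold psw
  by_cases e : l = s
  · subst e
    have hlt : ∀ m ∈ cut S (UR X Y l), X' f < X' m := by
      intro m hm
      obtain ⟨m1, m2, _⟩ := mem_cut.1 hm
      exact (h.oth f h.hf m m1 (fun k => by rw [k.2] at m2; exact lt_irrefl (X l) m2)
        (fun k => h.ne k.1)).1 (h.bef.trans m2)
    have hD : ∀ m, m ∈ cut S (UR X' Y l) ↔ m = f ∨ m ∈ cut S (UR X Y l) := by
      intro m
      constructor
      · intro hm
        obtain ⟨m1, m2, m3⟩ := mem_cut.1 hm
        by_cases k : m = f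
        · exact Or.inl k
        · exact Or.inr (mem_cut.2 ⟨m1, (h.oth l hl m m1 (fun k' => h.ne k'.1.symm)
            (fun k' => k k'.2)).2 m2, m3⟩)
      · rintro (rfl | hm)
        · exact mem_cut.2 ⟨h.hf, h.aft, hY⟩
        · exact mem_cut.2 ⟨(mem_cut.1 hm).1, h.aft.trans (hlt m hm), (mem_cut.1 hm).2.2⟩
    rw [kapf_trans c X X' Y S l g, Kf_swap_up c Y h hY hg,
      op_min c X'.injective.injOn hD hlt, if_pos rfl, lt_inv]
    · group
    · intro m hm n hn k1 k2
      have hn' := mem_cut.1 ((hD n).2 (Or.inr hn))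
      rcases (hD m).1 (mem_cut.2 ⟨hm, lt_trans hn'.2.1 k1, lt_trans hn'.2.2 k2⟩) with k | k
      · subst k
        exact absurd (k1.trans (hlt n hn)) (lt_irrefl _)
      · exact k
  · have hD : cut S (UR X Y l) = cut S (UR X' Y l) := by
      ext m
      simp only [mem_cut, mem_UR]
      refine and_congr_right (fun hm => and_congr_left (fun hy => ?_))
      exact h.oth l hl m hm (fun k => by rw [k.1, k.2] at hy; exact lt_asymm hy hY)
        (fun k => e k.1)
    rw [kapf_trans c X X' Y S l g, Kf_swap_up c Y h hY hg, hD, if_neg e, mul_inv_cancel]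
    intro m hm n hn k1 k2
    rw [hD] at hn ⊢
    exact mem_cut.2 ⟨hm, lt_trans (mem_cut.1 hn).2.1 k1, lt_trans (mem_cut.1 hn).2.2 k2⟩

theorem kapf_swap_down (c : C) {S : Finset L} {X X' : Od L} (Y : Od L) {f s : L}
    (h : Swp S X X' f s) (hY : Y f < Y s) {l : L} (hl : l ∈ S) {g : W L C}
    (hg : Sup (S : Set L) g) : kapf c Y X' S l (kapf c X Y S l g) = psw s f c l g := by
  classical
  unfold psw
  by_cases e : l = f
  · subst e
    have hlt : ∀ m ∈ cut S (UR X' Y l), X' s < X' m := fun m hm =>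
      h.aft.trans (mem_cut.1 hm).2.1
    have hD : ∀ m, m ∈ cut S (UR X Y l) ↔ m = s ∨ m ∈ cut S (UR X' Y l) := by
      intro m
      constructor
      · intro hm
        obtain ⟨m1, m2, m3⟩ := mem_cut.1 hm
        by_cases k : m = s
        · exact Or.inl k
        · exact Or.inr (mem_cut.2 ⟨m1, (h.oth l hl m m1 (fun k' => k k'.2)
            (fun k' => h.ne k'.1)).1 m2, m3⟩)
      · rintro (rfl | hm)
        · exact mem_cut.2 ⟨h.hs, h.bef, hY⟩
        · obtain ⟨m1, m2, m3⟩ := mem_cut.1 hm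
          exact mem_cut.2 ⟨m1, (h.oth l hl m m1
            (fun k => by rw [k.2] at m2; exact lt_asymm m2 h.aft) (fun k => h.ne k.1)).2 m2, m3⟩
    rw [kapf_trans c X X' Y S l g, Kf_swap_down c Y h hY hg,
      op_min c X'.injective.injOn hD hlt, if_pos rfl]
    · group
    · intro m hm n hn k1 k2
      rcases (hD n).1 hn with k | k
      · subst k
        have hmf : m ≠ l := fun k => by rw [k] at k2; exact lt_asymm k2 hY
        exact mem_cut.2 ⟨hm, lt_trans h.bef ((h.oth n h.hs m hm (fun k => h.ne k.1.symm)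
          (fun k => hmf k.2)).2 k1), lt_trans hY k2⟩
      · exact (hD m).2 (Or.inr (mem_cut.2
          ⟨hm, lt_trans (mem_cut.1 k).2.1 k1, lt_trans (mem_cut.1 k).2.2 k2⟩))
  · have hD : cut S (UR X Y l) = cut S (UR X' Y l) := by
      ext m
      simp only [mem_cut, mem_UR]
      refine and_congr_right (fun hm => and_congr_left (fun hy => ?_))
      exact h.oth l hl m hm (fun k => e k.1)
        (fun k => by rw [k.1, k.2] at hy; exact lt_asymm hy hY)
    rw [kapf_trans c X X' Y S l g, Kf_swap_down c Y h hY hg, hD, if_neg e, mul_inv_cancel]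
    intro m hm n hn k1 k2
    rw [hD] at hn ⊢
    exact mem_cut.2 ⟨hm, lt_trans (mem_cut.1 hn).2.1 k1, lt_trans (mem_cut.1 hn).2.2 k2⟩

/-- An adjacent swap acts on the coordinates of pointed letters by the swap map. -/
theorem kapf_swap (c : C) {S : Finset L} {X X' : Od L} (Y : Od L) {f s : L}
    (h : Swp S X X' f s) {l : L} (hl : l ∈ S) {g : W L C} (hg : Sup (S : Set L) g) :
    kapf c Y X' S l (kapf c X Y S l g) =
      if Y s < Y f then psw f s c⁻¹ l g else psw s f c l g := by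
  split_ifs with hY
  · exact kapf_swap_up c Y h hY hl hg
  · exact kapf_swap_down c Y h
      (lt_of_le_of_ne (not_lt.1 hY) (fun e => h.ne (Y.injective e))) hl hg

theorem sup_psw {S : Set L} {a : L} (ha : a ∈ S) (b : L) (x : C) (l : L) {g : W L C}
    (hg : Sup S g) : Sup S (psw a b x l g) := by
  unfold psw
  refine sup_mul (sup_sw ha b x hg) ?_
  split_ifs
  · exact sup_lt ha x
  · exact sup_one S

open Classical in
/-- The order after exchanging two labels. -/
noncomputable def odSwap (X : Od L) (a b : L) : Od L := (Equiv.swap a b).toEmbedding.trans X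

open Classical in
theorem odSwap_coe (X : Od L) (a b : L) : (odSwap X a b : L → Key) = X ∘ Equiv.swap a b := rfl

theorem swp_odSwap {X : Od L} {S : Finset L} {f s : L} (hf : f ∈ S) (hs : s ∈ S) (h : X f < X s)
    (hadj : ∀ m ∈ S, X f < X m → X m < X s → False) : Swp S X (odSwap X f s) f s :=
  ⟨hf, hs, h, by rw [odSwap_coe]; simpa using h,
    agreeOff_swap X.injective.injOn hf hs h hadj⟩

/-- Bubble sort towards the order `X1`. -/
theorem bubble_od {S : Finset L} (X1 : Od L) {P : Od L → Prop}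
    (h0 : ∀ X : Od L, Agr (S : Set L) X X1 → P X)
    (hs : ∀ (X : Od L) (f s : L), Swp S X (odSwap X f s) f s → X1 s < X1 f →
      (∀ m ∈ S, X f < X m → X m < X s → False) → P (odSwap X f s) → P X) (X : Od L) : P X := by
  classical
  have key : ∀ n : ℕ, ∀ X : Od L,
      ((S ×ˢ S).filter (fun e => X e.1 < X e.2 ∧ X1 e.2 < X1 e.1)).card ≤ n → P X := by
    intro n
    induction n using Nat.strong_induction_on with
    | _ n ih =>
      intro X hc
      by_cases hex : ∃ a ∈ S, ∃ b ∈ S, X a < X b ∧ X1 b < X1 a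
      · obtain ⟨a, ha, b, hb, h1, h2, hadj⟩ := exists_adjacent X1.injective.injOn hex
        have hw := swp_odSwap ha hb h1 hadj
        refine hs X a b hw h2 hadj ?_
        refine ih _ (lt_of_lt_of_le (Finset.card_lt_card ?_) hc) _ le_rfl
        refine ⟨fun e he => ?_, fun hsub => ?_⟩
        · rw [Finset.mem_filter, Finset.mem_product] at he ⊢
          refine ⟨he.1, (hw.oth e.1 he.1.1 e.2 he.1.2 (fun k => ?_) (fun k => ?_)).2 he.2.1,
            he.2.2⟩
          · rw [k.1, k.2] at he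
            exact lt_asymm he.2.1 hw.aft
          · rw [k.1, k.2] at he
            exact lt_asymm he.2.2 h2
        · have : (a, b) ∈ (S ×ˢ S).filter (fun e => X e.1 < X e.2 ∧ X1 e.2 < X1 e.1) :=
            Finset.mem_filter.2 ⟨Finset.mem_product.2 ⟨ha, hb⟩, h1, h2⟩
          exact lt_asymm (Finset.mem_filter.1 (hsub this)).2.1 hw.aft
      · refine h0 X (fun a ha b hb => ⟨fun h => ?_, fun h => ?_⟩)
        · rcases lt_trichotomy (X1 a) (X1 b) with k | k | k
          · exact k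
          · rw [X1.injective k] at h
            exact absurd h (lt_irrefl _)
          · exact absurd ⟨a, ha, b, hb, h, k⟩ hex
        · rcases lt_trichotomy (X a) (X b) with k | k | k
          · exact k
          · rw [X.injective k] at h
            exact absurd h (lt_irrefl _)
          · exact absurd ⟨b, hb, a, ha, k, h⟩ hex
  exact key _ X le_rfl

/-- Inverted pairs after a swap towards `X1` were inverted before. -/
theorem Swp.inv_sub {S : Finset L} {X X' X1 : Od L} {f s : L} (h : Swp S X X' f s)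
    (h1 : X1 s < X1 f) {a b : L} (ha : a ∈ S) (hb : b ∈ S) (k1 : X' a < X' b)
    (k2 : X1 b < X1 a) : X a < X b := by
  refine (h.oth a ha b hb (fun k => ?_) (fun k => ?_)).2 k1
  · rw [k.1, k.2] at k1
    exact lt_asymm k1 h.aft
  · rw [k.1, k.2] at k2
    exact lt_asymm k2 h1

theorem kapf_same (c : C) {S : Finset L} {X X' : Od L} (Y : Od L) (h : Agr (S : Set L) X X')
    {l : L} (hl : l ∈ S) {g : W L C} (hg : Sup (S : Set L) g) :
    kapf c Y X' S l (kapf c X Y S l g) = g := by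
  rw [kapf_congr c h (Agr.refl _ Y) hl hg, kapf_kapf]

/-- The transition of pointed coordinates depends only on the transverse order of the inverted
pairs. -/
theorem kapf_R (c : C) {S : Finset L} (X X1 Y Y' : Od L)
    (h : ∀ a ∈ S, ∀ b ∈ S, X a < X b → X1 b < X1 a → (Y a < Y b ↔ Y' a < Y' b)) {l : L}
    (hl : l ∈ S) {g : W L C} (hg : Sup (S : Set L) g) :
    kapf c Y X1 S l (kapf c X Y S l g) = kapf c Y' X1 S l (kapf c X Y' S l g) := by
  revert g h
  refine bubble_od (S := S) X1 (P := fun X => (∀ a ∈ S, ∀ b ∈ S, X a < X b → X1 b < X1 a →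
      (Y a < Y b ↔ Y' a < Y' b)) → ∀ {g : W L C}, Sup (S : Set L) g →
      kapf c Y X1 S l (kapf c X Y S l g) = kapf c Y' X1 S l (kapf c X Y' S l g)) ?_ ?_ X
  · intro X hag _ g hg
    rw [kapf_same c Y hag hl hg, kapf_same c Y' hag hl hg]
  · intro X f s hw h1 _ ih h g hg
    have hyy := h f hw.hf s hw.hs hw.bef h1
    have hy2 : Y s < Y f ↔ Y' s < Y' f := by
      have n1 : Y f ≠ Y s := fun e => hw.ne (Y.injective e)
      have n2 : Y' f ≠ Y' s := fun e => hw.ne (Y'.injective e)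
      rw [← not_iff_not, not_lt, not_lt, le_iff_lt_or_eq, le_iff_lt_or_eq, hyy]
      simp [n1, n2]
    have e : kapf c Y (odSwap X f s) S l (kapf c X Y S l g) =
        kapf c Y' (odSwap X f s) S l (kapf c X Y' S l g) := by
      rw [kapf_swap c Y hw hl hg, kapf_swap c Y' hw hl hg]
      simp only [hy2]
    have := ih (fun a ha b hb k1 k2 => h a ha b hb (hw.inv_sub h1 ha hb k1 k2) k2)
      (sup_kapf c Y (odSwap X f s) l (sup_kapf c X Y l hg))
    rw [kapf_kapf, e, kapf_kapf] at this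
    exact this

theorem Kf_R (c : C) {S : Finset L} (X X1 Y Y' : Od L)
    (h : ∀ a ∈ S, ∀ b ∈ S, X a < X b → X1 b < X1 a → (Y a < Y b ↔ Y' a < Y' b))
    {g : W L C} (hg : Sup (S : Set L) g) :
    Kf c Y X1 S (Kf c X Y S g) = Kf c Y' X1 S (Kf c X Y' S g) := by
  rw [Kf_Kf_eq_Tr, Kf_Kf_eq_Tr]
  exact Tr_congr c⁻¹ (dual_inj X S) (dual_inj X1 S) (dual_inj Y S) (dual_inj Y' S)
    (fun a ha b hb k1 k2 => h b hb a ha k1 k2) hg

theorem kap_R (c : C) (X X1 Y Y' : Od L)
    (h : ∀ a b, X a < X b → X1 b < X1 a → (Y a < Y b ↔ Y' a < Y' b)) (l : L) (g : WL L C) :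
    kap c Y X1 l (kap c X Y l g) = kap c Y' X1 l (kap c X Y' l g) :=
  WL_ext fun S => by
    classical
    have hS : S ⊆ insert l S := Finset.subset_insert l S
    rw [← ret_pj hS, ← ret_pj hS (kap c Y' X1 l _), pj_kap, pj_kap, pj_kap, pj_kap,
      kapf_R c X X1 Y Y' (fun a _ b _ => h a b) (Finset.mem_insert_self l S) (sup_pj _ g)]

theorem Kh_R (c : C) (X X1 Y Y' : Od L)
    (h : ∀ a b, X a < X b → X1 b < X1 a → (Y a < Y b ↔ Y' a < Y' b)) (g : WL L C) :
    Kh c Y X1 (Kh c X Y g) = Kh c Y' X1 (Kh c X Y' g) :=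
  WL_ext fun S => by
    rw [pj_Kh, pj_Kh, pj_Kh, pj_Kh]
    exact Kf_R c X X1 Y Y' (fun a _ b _ => h a b) (sup_pj S g)

theorem kap_congr (c : C) {X Y X' Y' : Od L} (hX : Agr Set.univ X X') (hY : Agr Set.univ Y Y')
    (l : L) (g : WL L C) : kap c X Y l g = kap c X' Y' l g :=
  WL_ext fun S => by
    classical
    have hS : S ⊆ insert l S := Finset.subset_insert l S
    rw [← ret_pj hS, ← ret_pj hS (kap c X' Y' l _), pj_kap, pj_kap,
      kapf_congr c (hX.mono (Set.subset_univ _)) (hY.mono (Set.subset_univ _))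
        (Finset.mem_insert_self l S) (sup_pj _ g)]

end Pool.Agent.E5f
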