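import Pool.Agent.E5f.HypDefs

/-!
Walks in a `0`-hyperbolic pseudo-metric space: a walk that is longer than the distance of its ends
contains a backtracking piece with a middle part of length zero.
-/

set_option autoImplicit false

namespace Pool.Agent.E5f

variable {X : Type}

/-- The length of a walk. -/
noncomputable def wlen (d : X → X → ℝ) : List X → ℝ
  | a :: b :: l => d a b + wlen d (b :: l)
  | _ => 0

@[simp] theorem wlen_nil (d : X → X → ℝ) : wlen d [] = 0 := rfl

@[simp] theorem wlen_single (d : X → X → ℝ) (a : X) : wlen d [a] = 0 := rfl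

theorem wlen_cons2 (d : X → X → ℝ) (a b : X) (l : List X) :
    wlen d (a :: b :: l) = d a b + wlen d (b :: l) := rfl

theorem PM.nn {d : X → X → ℝ} (h : PM d) (x y : X) : 0 ≤ d x y := by
  have h1 := h.tri x y x
  rw [h.self, h.symm y x] at h1
  linarith

theorem wlen_nonneg {d : X → X → ℝ} (h : PM d) : ∀ l : List X, 0 ≤ wlen d l
  | [] => le_rfl
  | [_] => le_rfl
  | a :: b :: l => by
    rw [wlen_cons2]
    exact add_nonneg (h.nn _ _) (wlen_nonneg h (b :: l))

theorem wlen_split (d : X → X → ℝ) : ∀ (l : List X) (a : X) (l' : List X),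
    wlen d (l ++ a :: l') = wlen d (l ++ [a]) + wlen d (a :: l')
  | [], a, l' => by simp
  | [x], a, l' => by simp [wlen_cons2]
  | x :: y :: l, a, l' => by
    have := wlen_split d (y :: l) a l'
    simp only [List.cons_append] at this ⊢
    rw [wlen_cons2, wlen_cons2, this]; ring

theorem le_wlen {d : X → X → ℝ} (h : PM d) : ∀ (a : X) (l : List X) (b : X),
    d a b ≤ wlen d (a :: l ++ [b])
  | a, [], b => by simp [wlen_cons2]
  | a, x :: l, b => by
    have := le_wlen h x l b
    simp only [List.cons_append] at this ⊢
    rw [wlen_cons2]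
    have := h.tri a x b
    linarith

theorem le_wlen' {d : X → X → ℝ} (h : PM d) (a : X) (l : List X) :
    d a ((a :: l).getLast (List.cons_ne_nil _ _)) ≤ wlen d (a :: l) := by
  rcases List.eq_nil_or_concat l with rfl | ⟨s, b, rfl⟩
  · simp [h.self]
  · simpa using le_wlen h a s b

theorem wlen_add (d d' : X → X → ℝ) : ∀ l : List X,
    wlen (fun x y => d x y + d' x y) l = wlen d l + wlen d' l
  | [] => by simp
  | [_] => by simp
  | a :: b :: l => by
    rw [wlen_cons2, wlen_cons2, wlen_cons2, wlen_add d d' (b :: l)]; ring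

theorem wlen_congr {d d' : X → X → ℝ} {R : X → X → Prop} (h : ∀ x y, R x y → d x y = d' x y) :
    ∀ l : List X, l.IsChain R → wlen d l = wlen d' l
  | [], _ => rfl
  | [_], _ => rfl
  | a :: b :: l, hl => by
    rw [List.isChain_cons_cons] at hl
    rw [wlen_cons2, wlen_cons2, h a b hl.1, wlen_congr h (b :: l) hl.2]

theorem wlen_map {Y : Type} (d : Y → Y → ℝ) (f : X → Y) : ∀ l : List X,
    wlen d (l.map f) = wlen (fun x y => d (f x) (f y)) l
  | [] => rfl
  | [_] => rfl
  | a :: b :: l => by
    have := wlen_map d f (b :: l)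
    simp only [List.map_cons] at this ⊢
    rw [wlen_cons2, wlen_cons2, this]

/-- In a walk of length zero all steps have length zero. -/
theorem chain_of_wlen_zero {d : X → X → ℝ} (h : PM d) : ∀ l : List X, wlen d l = 0 →
    l.IsChain (fun x y => d x y = 0)
  | [], _ => by simp
  | [_], _ => by simp
  | a :: b :: l, hl => by
    rw [wlen_cons2] at hl
    have h1 := h.nn a b
    have h2 := wlen_nonneg h (b :: l)
    rw [List.isChain_cons_cons]
    exact ⟨by linarith, chain_of_wlen_zero h (b :: l) (by linarith)⟩

/-- Pieces of a tight walk are tight. -/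
theorem tight_mid {d : X → X → ℝ} (h : PM d) {a b x y : X} {s m t : List X}
    (ht : wlen d (a :: s ++ x :: m ++ y :: t ++ [b]) = d a b) :
    wlen d (x :: m ++ [y]) = d x y := by
  have h1 := wlen_split d (a :: s) x (m ++ y :: t ++ [b])
  have h2 := wlen_split d (x :: m) y (t ++ [b])
  have h3 := le_wlen h a s x
  have h4 := le_wlen h x m y
  have h5 := le_wlen h y t b
  have h6 := h.tri a x b
  have h7 := h.tri x y b
  simp only [List.cons_append, List.append_assoc] at *
  linarith

/-- A vertex of a tight walk lies between the ends. -/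
theorem tight_vertex {d : X → X → ℝ} (h : PM d) {a b x : X} {s t : List X}
    (ht : wlen d (a :: s ++ x :: t ++ [b]) = d a b) :
    d a x + d x b = d a b ∧ wlen d (a :: s ++ [x]) = d a x ∧ wlen d (x :: t ++ [b]) = d x b := by
  have h1 := wlen_split d (a :: s) x (t ++ [b])
  have h3 := le_wlen h a s x
  have h5 := le_wlen h x t b
  have h6 := h.tri a x b
  simp only [List.cons_append, List.append_assoc] at *
  exact ⟨by linarith, by linarith, by linarith⟩

/-- A walk that is not tight contains a backtracking piece. -/
theorem exists_back {d : X → X → ℝ} (h : PM d) (hh : Hyp d 0) : ∀ (n : ℕ) (a : X) (l : List X)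
    (b : X), l.length = n → d a b < wlen d (a :: l ++ [b]) →
    ∃ (s : List X) (x y : X) (m : List X) (z : X) (t : List X),
      a :: l ++ [b] = s ++ x :: y :: m ++ z :: t ∧ wlen d (y :: m) = 0 ∧ 0 < d x y ∧ 0 < d y z ∧
      d x z < d x y + d y z := by
  intro n
  induction n using Nat.strong_induction_on with
  | _ n ih =>
  intro a l b hn hl
  cases l with
  | nil => simp [wlen_cons2] at hl
  | cons y m =>
    by_cases h1 : d y b < wlen d (y :: m ++ [b])
    · obtain ⟨s, x', y', m', z', t, e1, e2⟩ := ih m.length (by rw [← hn]; simp) y m b rfl h1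
      exact ⟨a :: s, x', y', m', z', t, by rw [List.cons_append, e1]; simp, e2⟩
    obtain ⟨m0, y', hm⟩ : ∃ m0 y', y :: m = m0 ++ [y'] := by
      rcases List.eq_nil_or_concat (y :: m) with h2 | ⟨s, x, h2⟩
      · simp at h2
      · exact ⟨s, x, by simpa using h2⟩
    by_cases h2 : d a y' < wlen d (a :: m0 ++ [y'])
    · obtain ⟨s, x', y'', m', z', t, e1, e2⟩ := ih m0.length (by
        rw [← hn, hm]; simp) a m0 y' rfl h2
      refine ⟨s, x', y'', m', z', t ++ [b], ?_, e2⟩
      rw [hm, ← List.cons_append, e1]; simp
    have e1 : wlen d (y :: m ++ [b]) = wlen d (y :: m) + d y' b := by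
      rw [hm, List.append_assoc, List.singleton_append, wlen_split]; simp [wlen_cons2]
    have e2 : wlen d (a :: m0 ++ [y']) = d a y + wlen d (y :: m) := by
      rw [List.cons_append, ← hm, wlen_cons2]
    have e3 : wlen d (a :: (y :: m) ++ [b]) = d a y + (wlen d (y :: m) + d y' b) := by
      rw [← e1]; rfl
    have e4 : d y y' ≤ wlen d (y :: m) := by
      have := le_wlen' h y m
      simpa [hm] using this
    rw [e1] at h1
    rw [e2] at h2
    rw [e3] at hl
    have t1 := h.tri y y' b
    have t2 := h.tri a y y'
    have t3 := h.tri a y b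
    have t4 := h.tri a y' b
    have t5 := h.nn y y'
    have hy := hh y a y' b
    unfold gp at hy
    rw [h.symm y' y, h.symm b y, sub_zero] at hy
    have e5 : d y y' = wlen d (y :: m) := by linarith
    have e6 : d y y' = 0 := by
      have hz := hh y' a y b
      have hw := hh y a b y'
      unfold gp at hz hw
      rw [h.symm b y', sub_zero] at hz
      rw [h.symm y' y, h.symm b y, h.symm b y', sub_zero] at hw
      rcases min_le_iff.1 hw with h3 | h3 <;> linarith
    have e7 : d y b = d y' b := by
      have := h.tri y' y b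
      rw [h.symm y' y] at this
      linarith
    refine ⟨[], a, y, m, b, [], by simp, by linarith, ?_, ?_, by linarith⟩
    · by_contra h3
      have h4 := h.tri y a b
      rw [h.symm y a] at h4
      have := h.nn a y
      linarith
    · by_contra h3
      have h4 := h.tri a b y'
      rw [h.symm b y'] at h4
      have := h.nn y b
      linarith

end Pool.Agent.E5f
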