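import Pool.Agent.E5f.PlTree
import Pool.Agent.E5f.PlWalk
import Pool.Agent.E5f.MoEmb

/-!
Finite planar systems: a shortest walk of elementary steps is tight for both trees.
-/

set_option autoImplicit false

namespace Pool.Agent.E5f

variable {L C St : Type} [CommGroup C]

/-- The label `l` is to the right of the marker `u`. -/
def rtP (ρ : L → ℝ) (u : Mk) (l : L) : Prop := u.1 < ρ l ∨ (u.1 = ρ l ∧ u.2 = false)

theorem rtP_iff (ρ : L → ℝ) (u : Mk) (l : L) :
    rtP ρ u l ↔ toLex u ≤ toLex ((ρ l, false) : Mk) := by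
  rw [Prod.Lex.toLex_le_toLex]
  unfold rtP
  cases h : u.2 <;> simp

theorem not_rtP_iff (ρ : L → ℝ) (u : Mk) (l : L) :
    ¬ rtP ρ u l ↔ toLex ((ρ l, true) : Mk) ≤ toLex u := by
  rw [Prod.Lex.toLex_le_toLex]
  unfold rtP
  obtain ⟨a, b⟩ := u
  rcases lt_trichotomy a (ρ l) with h | h | h
  · simp [h, h.ne', not_lt.2 h.le]
  · subst h; cases b <;> simp
  · simp [h, h.ne', not_lt.2 h.le]

theorem rtP_false (ρ : L → ℝ) (l : L) : rtP ρ (ρ l, false) l := Or.inr ⟨rfl, rfl⟩

theorem not_rtP_true (ρ : L → ℝ) (l : L) : ¬ rtP ρ (ρ l, true) l := by simp [rtP]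

theorem rtP_congr {ρ : L → ℝ} {u u' : Mk} {l : L} (h : u.1 = u'.1) (h2 : u.1 ≠ ρ l) :
    rtP ρ u l ↔ rtP ρ u' l := by
  unfold rtP
  rw [← h]
  simp [h2]

/-- No label of `S` separates the two markers. -/
def Gap (ρ : L → ℝ) (S : Finset L) (u u' : Mk) : Prop := ∀ l ∈ S, rtP ρ u l ↔ rtP ρ u' l

theorem Gap.refl (ρ : L → ℝ) (S : Finset L) (u : Mk) : Gap ρ S u u := fun _ _ => Iff.rfl

theorem Gap.symm {ρ : L → ℝ} {S : Finset L} {u u' : Mk} (h : Gap ρ S u u') : Gap ρ S u' u :=
  fun l hl => (h l hl).symm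

theorem Gap.trans {ρ : L → ℝ} {S : Finset L} {u u' u'' : Mk} (h : Gap ρ S u u')
    (h' : Gap ρ S u' u'') : Gap ρ S u u'' := fun l hl => (h l hl).trans (h' l hl)

/-- One coordinate of a planar system: positions, marker, word, and the letter read when a label
is crossed (it depends on the side in the other coordinate). -/
structure Cd (L C St : Type) [CommGroup C] where
  ρ : L → ℝ
  u : St → Mk
  g : St → W L C
  ex : Prop → C

/-- The tree distance of a coordinate. -/
noncomputable def Cd.d (A : Cd L C St) (s s' : St) : ℝ :=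
  dT A.ρ (A.u s).1 ((A.g s)⁻¹ * A.g s') (A.u s').1

theorem Cd.pm (A : Cd L C St) : PM A.d :=
  ⟨fun s => (dL_pm A.ρ).self ((A.u s).1, A.g s),
    fun s t => (dL_pm A.ρ).symm ((A.u s).1, A.g s) ((A.u t).1, A.g t),
    fun s t r => (dL_pm A.ρ).tri ((A.u s).1, A.g s) ((A.u t).1, A.g t) ((A.u r).1, A.g r)⟩

theorem Cd.hyp (A : Cd L C St) : Hyp A.d 0 := fun w x y z =>
  dL_hyp A.ρ ((A.u w).1, A.g w) ((A.u x).1, A.g x) ((A.u y).1, A.g y) ((A.u z).1, A.g z)

/-- Crossing the label `l` in the increasing direction. -/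
def Crs (A B : Cd L C St) (l : L) (s s' : St) : Prop :=
  A.u s = (A.ρ l, false) ∧ A.u s' = (A.ρ l, true) ∧
    A.g s' = A.g s * lt l (A.ex (rtP B.ρ (B.u s) l))

/-- An elementary step in the coordinate `A`. -/
def Step (S : Finset L) (A B : Cd L C St) (s s' : St) : Prop :=
  B.u s' = B.u s ∧ B.g s' = B.g s ∧
    ((A.g s' = A.g s ∧ Gap A.ρ S (A.u s) (A.u s')) ∨ ∃ l ∈ S, Crs A B l s s' ∨ Crs A B l s' s)

theorem Step.symm {S : Finset L} {A B : Cd L C St} {s s' : St} (h : Step S A B s s') :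
    Step S A B s' s := by
  obtain ⟨h1, h2, h3⟩ := h
  refine ⟨h1.symm, h2.symm, ?_⟩
  rcases h3 with ⟨h3, h4⟩ | ⟨l, hl, h3⟩
  · exact Or.inl ⟨h3.symm, h4.symm⟩
  · exact Or.inr ⟨l, hl, h3.symm⟩

/-- An elementary step in one of the two coordinates. -/
def PStp (S : Finset L) (A B : Cd L C St) (s s' : St) : Prop := Step S A B s s' ∨ Step S B A s s'

theorem PStp.symm {S : Finset L} {A B : Cd L C St} {s s' : St} (h : PStp S A B s s') :
    PStp S A B s' s := h.imp Step.symm Step.symm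

theorem PStp.swap {S : Finset L} {A B : Cd L C St} {s s' : St} (h : PStp S A B s s') :
    PStp S B A s s' := Or.symm h

/-- Two markers that can be joined by an elementary step. -/
def Elm (ρ : L → ℝ) (S : Finset L) (u u' : Mk) : Prop :=
  Gap ρ S u u' ∨ ∃ l ∈ S, u.1 = ρ l ∧ u'.1 = ρ l

theorem Step.elm {S : Finset L} {A B : Cd L C St} {s s' : St} (h : Step S A B s s') :
    Elm A.ρ S (A.u s) (A.u s') := by
  rcases h.2.2 with ⟨-, h4⟩ | ⟨l, hl, h3 | h3⟩
  · exact Or.inl h4
  · exact Or.inr ⟨l, hl, by rw [h3.1], by rw [h3.2.1]⟩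
  · exact Or.inr ⟨l, hl, by rw [h3.2.1], by rw [h3.1]⟩

theorem Step.of_gap {S : Finset L} {A B : Cd L C St} {s s' : St} (h : Step S A B s s')
    (hg : Gap A.ρ S (A.u s) (A.u s')) : A.g s' = A.g s := by
  rcases h.2.2 with ⟨h4, -⟩ | ⟨l, hl, h3 | h3⟩
  · exact h4
  · have := hg l hl
    rw [h3.1, h3.2.1] at this
    exact absurd (this.1 (rtP_false _ _)) (not_rtP_true _ _)
  · have := hg l hl
    rw [h3.1, h3.2.1] at this
    exact absurd (this.2 (rtP_false _ _)) (not_rtP_true _ _)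

/-- One-sided axioms of a finite planar system. -/
structure Pl1 (S : Finset L) (A B : Cd L C St) : Prop where
  inj : Set.InjOn A.ρ S
  ext : ∀ s s', A.u s = A.u s' → B.u s = B.u s' → A.g s = A.g s' → s = s'
  mv : ∀ s t, Elm A.ρ S (A.u s) (A.u t) → ∃ s', Step S A B s s' ∧ A.u s' = A.u t

/-- Walks from `p` to `q`. -/
def Wk (S : Finset L) (A B : Cd L C St) (p q : St) (w : List St) : Prop :=
  w.IsChain (PStp S A B) ∧ w.head? = some p ∧ w.getLast? = some q

theorem Wk.swap {S : Finset L} {A B : Cd L C St} {p q : St} {w : List St} (h : Wk S A B p q w) :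
    Wk S B A p q w := ⟨h.1.imp (fun _ _ h => h.swap), h.2⟩

theorem replay {S : Finset L} {A B : Cd L C St} (hB : Pl1 S B A) : ∀ (m : List St) (x y : St),
    (y :: m).IsChain (PStp S A B) → B.u x = B.u y →
    ∃ n : List St, (x :: n).IsChain (PStp S A B) ∧ n.length ≤ m.length ∧
      B.u ((x :: n).getLast (List.cons_ne_nil _ _)) =
        B.u ((y :: m).getLast (List.cons_ne_nil _ _)) ∧
      A.u ((x :: n).getLast (List.cons_ne_nil _ _)) = A.u x ∧
      A.g ((x :: n).getLast (List.cons_ne_nil _ _)) = A.g x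
  | [], x, y, _, h => ⟨[], by simp, le_rfl, by simpa using h, rfl, rfl⟩
  | v :: m, x, y, hc, h => by
    rw [List.isChain_cons_cons] at hc
    rcases hc.1 with h1 | h1
    · obtain ⟨n, e1, e2, e3, e4⟩ := replay hB m x v hc.2 (h.trans h1.1.symm)
      exact ⟨n, e1, e2.trans (by simp), by rw [e3, List.getLast_cons_cons], e4⟩
    · obtain ⟨x', e0, e0'⟩ := hB.mv x v (by rw [h]; exact h1.elm)
      obtain ⟨n, e1, e2, e3, e4, e5⟩ := replay hB m x' v hc.2 e0'
      refine ⟨x' :: n, List.isChain_cons_cons.2 ⟨Or.inr e0, e1⟩, by simpa using e2, ?_, ?_, ?_⟩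
      · rw [List.getLast_cons_cons, e3, List.getLast_cons_cons]
      · rw [List.getLast_cons_cons, e4, e0.1]
      · rw [List.getLast_cons_cons, e5, e0.2.1]

/-- The tree distance for a modified position function. -/
noncomputable def Cd.df (A : Cd L C St) (f : Mk → ℝ) (s s' : St) : ℝ :=
  dT (fun l => f (A.ρ l, false)) (f (A.u s)) ((A.g s)⁻¹ * A.g s') (f (A.u s'))

theorem Cd.pmf (A : Cd L C St) (f : Mk → ℝ) : PM (A.df f) :=
  ⟨fun s => (dL_pm _).self (f (A.u s), A.g s),
    fun s t => (dL_pm _).symm (f (A.u s), A.g s) (f (A.u t), A.g t),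
    fun s t r => (dL_pm _).tri (f (A.u s), A.g s) (f (A.u t), A.g t) (f (A.u r), A.g r)⟩

theorem Cd.hypf (A : Cd L C St) (f : Mk → ℝ) : Hyp (A.df f) 0 := fun w x y z =>
  dL_hyp _ (f (A.u w), A.g w) (f (A.u x), A.g x) (f (A.u y), A.g y) (f (A.u z), A.g z)

theorem Cd.df_of_eq (A : Cd L C St) (f : Mk → ℝ) {s s' : St} (h : A.g s' = A.g s) :
    A.df f s s' = |f (A.u s') - f (A.u s)| := by
  unfold Cd.df; rw [h]; simp

theorem Cd.df_lt (A : Cd L C St) (f : Mk → ℝ) {s s' : St} {l : L} {x : C}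
    (h : A.g s' = A.g s * lt l x) (h1 : f (A.u s) = f (A.ρ l, false))
    (h2 : f (A.u s') = f (A.ρ l, false)) : A.df f s s' = 0 := by
  unfold Cd.df
  rw [h, inv_mul_cancel_left, h1, h2]
  by_cases hx : x = 1
  · subst hx; simp
  · rw [dT_lt _ _ _ _ hx]; simp

/-- A step of positive length is a gap step. -/
theorem PStp.gap_of_pos {S : Finset L} {A B : Cd L C St} {f : Mk → ℝ}
    (hcr : ∀ l ∈ S, f (A.ρ l, true) = f (A.ρ l, false)) {s s' : St} (h : PStp S A B s s')
    (hp : 0 < A.df f s s') : B.u s' = B.u s ∧ A.g s' = A.g s ∧ Gap A.ρ S (A.u s) (A.u s') := by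
  rcases h with h | h
  · rcases h.2.2 with h3 | ⟨l, hl, h3 | h3⟩
    · exact ⟨h.1, h3⟩
    · rw [A.df_lt f h3.2.2 (by rw [h3.1]) (by rw [h3.2.1, hcr l hl])] at hp
      exact absurd hp (lt_irrefl _)
    · rw [(A.pmf f).symm, A.df_lt f h3.2.2 (by rw [h3.1]) (by rw [h3.2.1, hcr l hl])] at hp
      exact absurd hp (lt_irrefl _)
  · rw [A.df_of_eq f h.2.1, h.1] at hp
    simp at hp

/-- The states reached from `y` by steps of length zero. -/
def Mid (S : Finset L) (A : Cd L C St) (y v : St) : Prop :=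
  (A.g v = A.g y ∧ A.u v = A.u y) ∨
    ∃ l ∈ S, (A.u y).1 = A.ρ l ∧ (A.u v).1 = A.ρ l ∧ ∃ x, A.g v = A.g y * lt l x

theorem Mid.step {S : Finset L} {A B : Cd L C St} (hA : Set.InjOn A.ρ S) {y v v' : St}
    (h : Mid S A y v) (hs : PStp S A B v v')
    (h0 : Gap A.ρ S (A.u v) (A.u v') → A.g v' = A.g v → A.u v' = A.u v) : Mid S A y v' := by
  have key : A.g v' = A.g v → A.u v' = A.u v → Mid S A y v' := by
    intro h1 h2
    unfold Mid at h ⊢
    rw [h1, h2]; exact h
  have key2 : ∀ l ∈ S, ∀ x, (A.u v).1 = A.ρ l → (A.u v').1 = A.ρ l → A.g v' = A.g v * lt l x →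
      Mid S A y v' := by
    intro l hl x h1 h2 h3
    rcases h with ⟨h4, h5⟩ | ⟨l', hl', h4, h5, x', h6⟩
    · exact Or.inr ⟨l, hl, by rw [← h5, h1], h2, x, by rw [h3, h4]⟩
    · have : l' = l := hA hl' hl (h5.symm.trans h1)
      subst this
      exact Or.inr ⟨l', hl, h4, h2, x' * x, by rw [h3, h6, lt_mul, mul_assoc]⟩
  rcases hs with hs | hs
  · rcases hs.2.2 with h3 | ⟨l, hl, h3 | h3⟩
    · exact key h3.1 (h0 h3.2 h3.1)
    · exact key2 l hl _ (by rw [h3.1]) (by rw [h3.2.1]) h3.2.2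
    · refine key2 l hl (A.ex (rtP B.ρ (B.u v') l))⁻¹ (by rw [h3.2.1]) (by rw [h3.1]) ?_
      rw [h3.2.2, lt_inv, mul_inv_cancel_right]
  · exact key hs.2.1 hs.1

theorem chain_inv {X : Type} {R : X → X → Prop} {P : X → Prop} : ∀ (m : List X) (y : X),
    (y :: m).IsChain R → P y → (∀ a ∈ y :: m, ∀ b ∈ y :: m, R a b → P a → P b) →
    ∀ v ∈ y :: m, P v
  | [], y, _, h, _ => by simpa using h
  | v :: m, y, hc, h, hs => by
    rw [List.isChain_cons_cons] at hc
    have := chain_inv m v hc.2 (hs y (by simp) v (by simp) hc.1 h)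
      (fun a ha b hb => hs a (List.mem_cons_of_mem _ ha) b (List.mem_cons_of_mem _ hb))
    intro z hz
    rcases List.mem_cons.1 hz with rfl | hz
    · exact h
    · exact this z hz

theorem isChain_and {X : Type} {R R' : X → X → Prop} : ∀ {l : List X}, l.IsChain R →
    l.IsChain R' → l.IsChain (fun a b => R a b ∧ R' a b)
  | [], _, _ => by simp
  | [_], _, _ => by simp
  | a :: b :: l, h, h' => by
    rw [List.isChain_cons_cons] at h h' ⊢
    exact ⟨⟨h.1, h'.1⟩, isChain_and h.2 h'.2⟩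

/-- A walk that is not tight can be shortened. -/
theorem shorten {S : Finset L} {A B : Cd L C St} (hA : Pl1 S A B) (hB : Pl1 S B A)
    {f : Mk → ℝ} (hm : ∀ u u' : Mk, toLex u ≤ toLex u' → f u ≤ f u')
    (hcr : ∀ l ∈ S, f (A.ρ l, true) = f (A.ρ l, false)) {p q : St} {w : List St}
    (hw : Wk S A B p q w)
    (hsep : ∀ s ∈ w, ∀ s' ∈ w, Gap A.ρ S (A.u s) (A.u s') → f (A.u s') = f (A.u s) →
      A.u s' = A.u s)
    (hl : A.df f p q < wlen (A.df f) w) : ∃ w', Wk S A B p q w' ∧ w'.length < w.length := by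
  obtain ⟨hc, h1, h2⟩ := hw
  have pm := A.pmf f
  obtain ⟨l, rfl⟩ : ∃ l, w = p :: l ++ [q] := by
    cases w with
    | nil => simp at h1
    | cons a l =>
      simp only [List.head?_cons, Option.some.injEq] at h1
      subst h1
      rcases List.eq_nil_or_concat l with rfl | ⟨l', b, rfl⟩
      · have := pm.nn a q
        simp only [wlen_single] at hl
        linarith
      · rw [List.concat_eq_append, ← List.cons_append, List.getLast?_concat] at h2
        simp only [Option.some.injEq] at h2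
        subst h2
        exact ⟨l', by simp⟩
  obtain ⟨s, x, y, m, z, t, e, e0, e1, e2, e3⟩ := exists_back pm (A.hypf f) _ p l q rfl hl
  rw [e] at hc h1 h2 hsep ⊢
  set y' := (y :: m).getLast (List.cons_ne_nil _ _) with hy'
  have hc1 : (x :: y :: m ++ z :: t).IsChain (PStp S A B) := by
    rw [List.append_assoc] at hc
    exact hc.right_of_append
  have hxy : PStp S A B x y := (List.isChain_cons_cons.1 hc1).1
  have hc2 : (y :: m ++ z :: t).IsChain (PStp S A B) := (List.isChain_cons_cons.1 hc1).2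
  have hc3 : (y :: m).IsChain (PStp S A B) := hc2.left_of_append
  have hyz : PStp S A B y' z := by
    have := (List.isChain_append.1 hc2).2.2 y' (by
      rw [hy']; exact List.getLast?_eq_some_getLast _) z (by simp)
    exact this
  have hy'm : y' ∈ y :: m := List.getLast_mem _
  have hz0 := chain_of_wlen_zero pm _ e0
  have hsub : ∀ v ∈ y :: m, v ∈ s ++ x :: y :: m ++ z :: t := by
    intro v hv
    simp only [List.mem_append, List.mem_cons] at hv ⊢
    tauto
  have hmid : Mid S A y y' := by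
    refine chain_inv (P := Mid S A y) m y (isChain_and hc3 hz0) (Or.inl ⟨rfl, rfl⟩) ?_ y' hy'm
    intro a ha b hb hab hP
    refine hP.step hA.inj hab.1 (fun g1 g2 => hsep a (hsub a ha) b (hsub b hb) g1 ?_)
    have := hab.2
    rw [A.df_of_eq f g2] at this
    exact sub_eq_zero.1 (abs_eq_zero.1 this)
  have hyy : A.df f y y' = 0 := by
    have := le_wlen' pm y m
    rw [e0] at this
    exact le_antisymm this (pm.nn _ _)
  have e4 : A.df f y z = A.df f y' z := by
    have t1 := pm.tri y y' z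
    have t2 := pm.tri y' y z
    rw [pm.symm y' y] at t2
    linarith
  rw [e4] at e2 e3
  obtain ⟨a1, a2, a3⟩ := hxy.gap_of_pos hcr e1
  obtain ⟨b1, b2, b3⟩ := hyz.gap_of_pos hcr e2
  rw [A.df_of_eq f a2, A.df_of_eq f b2] at e3
  have hfl : ∀ l ∈ S, ∀ u : Mk, u.1 = A.ρ l → f u = f (A.ρ l, false) := by
    rintro l hl ⟨a, b⟩ h
    simp only at h
    subst h
    cases b
    · rfl
    · exact hcr l hl
  have hfin : A.g z = A.g x ∧ Gap A.ρ S (A.u x) (A.u z) := by
    rcases hmid with ⟨c1, c2⟩ | ⟨l, hl, c1, c2, e, c3⟩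
    · exact ⟨by rw [b2, c1, a2], a3.trans (c2 ▸ b3)⟩
    have f1 := hfl l hl _ c1
    have f2 := hfl l hl _ c2
    rw [f1, f2] at e3
    have he : e = 1 := by
      by_contra he
      unfold Cd.df at e3
      rw [b2, c3, a2, inv_mul_cancel_left, dT_lt _ _ _ _ he] at e3
      exact lt_irrefl _ e3
    have hg : A.g z = A.g x := by rw [b2, c3, he, lt_one, mul_one, a2]
    refine ⟨hg, ?_⟩
    rw [A.df_of_eq f hg] at e3
    by_cases hu : A.u y' = A.u y
    · exact a3.trans (hu ▸ b3)
    exfalso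
    have side : ∀ u : Mk, (rtP A.ρ u l → f u ≤ f (A.ρ l, false)) ∧
        (¬ rtP A.ρ u l → f (A.ρ l, false) ≤ f u) := fun u =>
      ⟨fun h => hm _ _ ((rtP_iff _ _ _).1 h),
        fun h => (hcr l hl) ▸ hm _ _ ((not_rtP_iff _ _ _).1 h)⟩
    have hne : ¬ (rtP A.ρ (A.u y) l ↔ rtP A.ρ (A.u y') l) := by
      intro h
      apply hu
      refine Prod.ext (c2.trans c1.symm) ?_
      unfold rtP at h
      rw [c1, c2] at h
      cases h3 : (A.u y).2 <;> cases h4 : (A.u y').2 <;> simp_all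
    have k1 := a3 l hl
    have k2 := b3 l hl
    by_cases hx : rtP A.ρ (A.u x) l
    · have hz : ¬ rtP A.ρ (A.u z) l := fun h => hne ⟨fun _ => k2.2 h, fun _ => k1.1 hx⟩
      have t1 := (side _).1 hx
      have t2 := (side _).2 hz
      rw [abs_of_nonneg (by linarith), abs_of_nonneg (by linarith),
        abs_of_nonneg (by linarith)] at e3
      linarith
    · have hz : rtP A.ρ (A.u z) l := by
        by_contra h
        exact hne ⟨fun h' => absurd (k1.2 h') hx, fun h' => absurd (k2.1 h') h⟩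
      have t1 := (side _).2 hx
      have t2 := (side _).1 hz
      rw [abs_of_nonpos (by linarith), abs_of_nonpos (by linarith),
        abs_of_nonpos (by linarith)] at e3
      linarith
  obtain ⟨n, n1, n2, n3, n4, n5⟩ := replay hB m x y hc3 a1.symm
  set v := (x :: n).getLast (List.cons_ne_nil _ _) with hv
  have hgap : Gap A.ρ S (A.u v) (A.u z) := n4 ▸ hfin.2
  obtain ⟨z', z1, z2⟩ := hA.mv v z (Or.inl hgap)
  have hz : z' = z := by
    refine hA.ext _ _ z2 ?_ ?_
    · rw [z1.1, n3, b1]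
    · rw [z1.of_gap (z2 ▸ hgap), n5, hfin.1]
  subst hz
  refine ⟨s ++ x :: n ++ z' :: t, ⟨?_, ?_, ?_⟩, ?_⟩
  · rw [List.append_assoc] at hc ⊢
    rw [List.isChain_append] at hc ⊢
    refine ⟨hc.1, ?_, by simpa using hc.2.2⟩
    rw [List.isChain_append]
    refine ⟨n1, hc2.right_of_append, ?_⟩
    intro a ha b hb
    rw [List.getLast?_eq_some_getLast (List.cons_ne_nil _ _)] at ha
    simp only [List.head?_cons, Option.mem_def, Option.some.injEq] at ha hb
    subst ha hb
    exact Or.inl z1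
  · cases s <;> simpa using h1
  · rw [List.getLast?_append] at h2 ⊢
    simpa using h2
  · simp only [List.length_append, List.length_cons]
    omega

open Classical in
/-- The rank of a marker among the markers of a finite set. -/
noncomputable def rk (T : Finset Mk) (u : Mk) : ℝ := ((T.filter (fun m => toLex m ≤ toLex u)).card : ℝ)

theorem rk_mono (T : Finset Mk) {u u' : Mk} (h : toLex u ≤ toLex u') : rk T u ≤ rk T u' := by
  classical
  unfold rk
  refine Nat.cast_le.2 (Finset.card_le_card (fun m hm => ?_))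
  rw [Finset.mem_filter] at hm ⊢
  exact ⟨hm.1, hm.2.trans h⟩

theorem rk_lt (T : Finset Mk) {u u' : Mk} (h : toLex u < toLex u') (h' : u' ∈ T) :
    rk T u < rk T u' := by
  classical
  unfold rk
  refine Nat.cast_lt.2 (Finset.card_lt_card ⟨fun m hm => ?_, fun hs => ?_⟩)
  · rw [Finset.mem_filter] at hm ⊢
    exact ⟨hm.1, hm.2.trans h.le⟩
  · have := hs (Finset.mem_filter.2 ⟨h', le_rfl⟩)
    exact absurd (Finset.mem_filter.1 this).2 (not_le.2 h)

theorem fst_mono {u u' : Mk} (h : toLex u ≤ toLex u') : u.1 ≤ u'.1 := by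
  rw [Prod.Lex.toLex_le_toLex] at h
  rcases h with h | h
  · exact h.le
  · exact h.1.le

theorem Wk.le_wlen {S : Finset L} {A B : Cd L C St} {p q : St} {w : List St} (hw : Wk S A B p q w)
    {d : St → St → ℝ} (hd : PM d) : d p q ≤ wlen d w := by
  obtain ⟨-, h1, h2⟩ := hw
  cases w with
  | nil => simp at h1
  | cons a l =>
    simp only [List.head?_cons, Option.some.injEq] at h1
    subst h1
    rw [List.getLast?_eq_some_getLast (List.cons_ne_nil _ _), Option.some.injEq] at h2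
    rw [← h2]
    exact le_wlen' hd a l

theorem tight_of_min {S : Finset L} {A B : Cd L C St} (hA : Pl1 S A B) (hB : Pl1 S B A)
    {p q : St} {w : List St} (hw : Wk S A B p q w)
    (hmin : ∀ w', Wk S A B p q w' → w.length ≤ w'.length) : wlen A.d w = A.d p q := by
  classical
  set T : Finset Mk := (w.map A.u).toFinset.filter (fun m => ∀ l ∈ S, m ≠ (A.ρ l, true)) with hT
  have hadd : A.df (fun m => m.1 + rk T m) = fun s s' => A.d s s' + A.df (rk T) s s' := by
    funext s s'
    refine dT_add (fun m : Mk => m.1) (rk T) (fun l => (A.ρ l, false)) (A.u s) (A.u s') _ ?_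
    intro a b
    rcases le_total (toLex a) (toLex b) with h | h
    · exact mul_nonneg_of_nonpos_of_nonpos (sub_nonpos.2 (fst_mono h)) (sub_nonpos.2 (rk_mono T h))
    · exact mul_nonneg (sub_nonneg.2 (fst_mono h)) (sub_nonneg.2 (rk_mono T h))
  have hlt : ∀ s ∈ w, ∀ s' ∈ w, Gap A.ρ S (A.u s) (A.u s') → toLex (A.u s) < toLex (A.u s') →
      (A.u s).1 + rk T (A.u s) < (A.u s').1 + rk T (A.u s') := by
    intro s _ s' hs' hg h
    refine add_lt_add_of_le_of_lt (fst_mono h.le) (rk_lt T h ?_)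
    rw [hT, Finset.mem_filter]
    refine ⟨List.mem_toFinset.2 (List.mem_map_of_mem hs'), fun l hl he => ?_⟩
    have h1 := hg l hl
    rw [he] at h1 h
    exact absurd ((not_rtP_iff _ _ _).1 (fun h2 => not_rtP_true _ _ (h1.1 h2))) (not_le.2 h)
  by_contra hne
  have h1 := hw.le_wlen A.pm
  have h2 := hw.le_wlen (A.pmf (rk T))
  obtain ⟨w', e1, e2⟩ := shorten hA hB (f := fun m => m.1 + rk T m)
    (fun u u' h => add_le_add (fst_mono h) (rk_mono T h)) (fun l hl => by
      simp only [add_right_inj]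
      unfold rk
      congr 2
      ext m
      simp only [Finset.mem_filter, and_congr_right_iff]
      intro hm
      have h3 := (Finset.mem_filter.1 hm).2 l hl
      rw [← rtP_iff]
      constructor
      · intro h4
        by_contra h5
        exact h3 (toLex.injective (le_antisymm h4 ((not_rtP_iff _ _ _).1 h5)))
      · intro h4
        exact ((rtP_iff _ _ _).1 h4).trans (by rw [Prod.Lex.toLex_le_toLex]; simp)) hw
    (fun s hs s' hs' hg he => by
      rcases lt_trichotomy (toLex (A.u s)) (toLex (A.u s')) with h | h | h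
      · exact absurd he (hlt s hs s' hs' hg h).ne'
      · exact (toLex.injective h).symm
      · exact absurd he (hlt s' hs' s hs hg.symm h).ne)
    (by
      rw [hadd, wlen_add]
      exact add_lt_add_of_lt_of_le (lt_of_le_of_ne h1 (Ne.symm hne)) h2)
  exact absurd (hmin w' e1) (not_le.2 e2)

/-- Common geodesics. -/
theorem exists_tight {S : Finset L} {A B : Cd L C St} (hA : Pl1 S A B) (hB : Pl1 S B A)
    {p q : St} (h : ∃ w, Wk S A B p q w) :
    ∃ w, Wk S A B p q w ∧ wlen A.d w = A.d p q ∧ wlen B.d w = B.d p q := by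
  classical
  have hex : ∃ n, ∃ w, Wk S A B p q w ∧ w.length = n := by
    obtain ⟨w, hw⟩ := h
    exact ⟨_, w, hw, rfl⟩
  obtain ⟨w, hw, hn⟩ := Nat.find_spec hex
  have hmin : ∀ w', Wk S A B p q w' → w.length ≤ w'.length := fun w' hw' =>
    hn ▸ Nat.find_min' hex ⟨w', hw', rfl⟩
  exact ⟨w, hw, tight_of_min hA hB hw hmin,
    tight_of_min hB hA hw.swap (fun w' hw' => hmin w' hw'.swap)⟩

end Pool.Agent.E5f
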