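import Pool.Agent.E5f.PlBox
import Pool.Agent.E5f.PlGeo
import Pool.Agent.E5f.HypBi

/-!
Planar models: moves, boxes, the two trees and their common geodesics.
-/

set_option autoImplicit false

namespace Pool.Agent.E5f

open Filter

section
variable {L C : Type} [CommGroup C]

theorem Var_of_le : ∀ (a : ℝ) (l : List ℝ) (b : ℝ), (a :: l ++ [b]).IsChain (· ≤ ·) →
    Var (a :: l ++ [b]) = b - a
  | a, [], b, h => by
    have : a ≤ b := by simpa using h
    simp [Var_cons2, abs_of_nonneg (sub_nonneg.2 this)]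
  | a, x :: l, b, h => by
    simp only [List.cons_append] at h ⊢
    rw [List.isChain_cons_cons] at h
    have := Var_of_le x l b h.2
    simp only [List.cons_append] at this
    rw [Var_cons2, this, abs_of_nonneg (sub_nonneg.2 h.1)]; ring

theorem pl_eq_ev (c : C) (w : List L) : pl c w = ev (w.map (fun l => (l, c))) := by
  simp [pl, ev, List.map_map, Function.comp_def]

theorem Up.total {X : Od L} {R R' : Set L} (h : Up X R) (h' : Up X R') : R' ⊆ R ∨ R ⊆ R' := by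
  by_contra h1
  rw [not_or, Set.not_subset, Set.not_subset] at h1
  obtain ⟨⟨a, a1, a2⟩, b, b1, b2⟩ := h1
  rcases lt_trichotomy (X a) (X b) with h2 | h2 | h2
  · exact b2 (h' a b a1 h2)
  · exact a2 (X.injective h2 ▸ b1)
  · exact a2 (h b a b1 h2)

theorem stp_of_sub (c : C) {X : Od L} {R R' : Set L} (D : Set L) (h' : Up X R') (hs : R' ⊆ R) :
    stp c X R R' D = opH c X ((R \ R') ∩ D) := by
  unfold stp
  rw [opH_split c X (A := R ∩ D) (A1 := (R \ R') ∩ D) (A2 := R' ∩ D)]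
  · simp
  · intro l
    constructor
    · intro h
      by_cases h1 : l ∈ R'
      · exact Or.inr ⟨h1, h.2⟩
      · exact Or.inl ⟨⟨h.1, h1⟩, h.2⟩
    · rintro (h | h)
      · exact ⟨h.1.1, h.2⟩
      · exact ⟨hs h.1, h.2⟩
  · intro a ha b hb
    rcases lt_trichotomy (X a) (X b) with h2 | h2 | h2
    · exact h2
    · exact absurd (X.injective h2 ▸ hb.1) ha.1.2
    · exact absurd (h' b a hb.1 h2) ha.1.2

theorem dT_op (Z : Cfg L) (c : C) (D : Finset L) {a a' : ℝ} (haa : a ≤ a')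
    (h : ∀ l ∈ D, a ≤ Z.x l ∧ Z.x l ≤ a') : dT Z.x a (op Z.X c D) a' = |a' - a| := by
  refine le_antisymm ?_ (abs_le_dT _ _ _ _)
  unfold op
  rw [pl_eq_ev]
  refine (dT_ev_le _ _ _ _).trans (le_of_eq ?_)
  rw [abs_of_nonneg (sub_nonneg.2 haa), List.map_map]
  refine Var_of_le _ _ _ (List.Pairwise.isChain ?_)
  rw [List.cons_append, List.pairwise_cons, List.pairwise_append]
  refine ⟨fun x hx => ?_, ?_, by simp, fun x hx y hy => ?_⟩
  · rcases List.mem_append.1 hx with hx | hx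
    · obtain ⟨l, hl, rfl⟩ := List.mem_map.1 hx
      exact (h l (mem_srt.1 hl)).1
    · rw [List.mem_singleton.1 hx]; exact haa
  · rw [List.pairwise_map]
    exact (srt_le Z.X D).imp (fun h => Z.x_le h)
  · obtain ⟨l, hl, rfl⟩ := List.mem_map.1 hx
    rw [List.mem_singleton.1 hy]
    exact (h l (mem_srt.1 hl)).2

theorem dT_stp (Z : Cfg L) (c : C) (S : Finset L) {R R' : Set L} (D : Set L) {a a' : ℝ}
    (h : Up Z.X R) (h' : Up Z.X R') (ha : At Z.x R a) (ha' : At Z.x R' a') :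
    dT Z.x a (pj S (stp c Z.X R R' D)) a' = |a' - a| := by
  have key : ∀ {R R' : Set L} {a a' : ℝ}, Up Z.X R' → At Z.x R a → At Z.x R' a' → R' ⊆ R →
      dT Z.x a (pj S (stp c Z.X R R' D)) a' = |a' - a| := by
    intro R R' a a' h' ha ha' hs
    rw [stp_of_sub c D h' hs, pj_opH]
    have hb : ∀ l ∈ cut S ((R \ R') ∩ D), a ≤ Z.x l ∧ Z.x l ≤ a' := fun l hl =>
      ⟨(ha l).1 (mem_cut.1 hl).2.1.1, (ha' l).2 (mem_cut.1 hl).2.1.2⟩
    by_cases haa : a ≤ a'
    · exact dT_op Z c _ haa hb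
    · have : cut S ((R \ R') ∩ D) = ∅ := by
        ext l
        simp only [Finset.notMem_empty, iff_false]
        exact fun hl => haa ((hb l hl).1.trans (hb l hl).2)
      rw [this, op_empty, dT_one]
  rcases h.total h' with hs | hs
  · exact key h' ha ha' hs
  · rw [← stp_inv, map_inv, dT_symm, key h ha' ha hs, abs_sub_comm]

theorem dW_stp (Z : Cfg L) (c : C) {R R' : Set L} (D : Set L) {a a' : ℝ}
    (h : Up Z.X R) (h' : Up Z.X R') (ha : At Z.x R a) (ha' : At Z.x R' a') :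
    dW Z.x a (stp c Z.X R R' D) a' = |a' - a| :=
  dW_eq ∅ (fun S _ => dT_stp Z c S D h h' ha ha')

open Classical in
theorem stp_cross {Z : Cfg L} (hx : Function.Injective Z.x) (c : C) (l : L) (D : Set L) :
    stp c Z.X (Rs Z.x (Z.x l, false)) (Rs Z.x (Z.x l, true)) D =
      emb (lt l (if l ∈ D then c else 1)) := by
  have e : Rs Z.x (Z.x l, false) \ Rs Z.x (Z.x l, true) = {l} := by
    ext m
    simp only [Rs, Set.mem_diff, Set.mem_setOf_eq, and_true, Bool.true_eq_false, and_false,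
      or_false, Set.mem_singleton_iff]
    constructor
    · rintro ⟨h | h, h'⟩
      · exact absurd h h'
      · exact (hx h).symm
    · rintro rfl
      exact ⟨Or.inr rfl, lt_irrefl _⟩
  rw [stp_of_sub c D (Z.up_Rs _) (fun m hm => by
    rcases hm with hm | hm
    · exact Or.inl hm
    · simp at hm), e]
  split_ifs with h
  · rw [Set.inter_eq_left.2 (Set.singleton_subset_iff.2 h), opH_singleton]
  · rw [Set.singleton_inter_eq_empty.2 h, opH_empty, lt_one, map_one]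

theorem pj_emb_lt {S : Finset L} {l : L} (hl : l ∈ S) (x : C) :
    pj S (emb (lt l x : W L C)) = lt l x := by
  rw [pj_emb, ret_lt, if_pos (Finset.mem_coe.2 hl)]

theorem Rs_mono (ρ : L → ℝ) {u u' : Mk} (h : toLex u ≤ toLex u') : Rs ρ u' ⊆ Rs ρ u :=
  fun l hl => (rtP_iff ρ u l).2 (h.trans ((rtP_iff ρ u' l).1 hl))

theorem rtg_symm {X : Type} {r : X → X → Prop} (hr : ∀ a b, r a b → r b a) {a b : X}
    (h : Relation.ReflTransGen r a b) : Relation.ReflTransGen r b a := by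
  induction h with
  | refl => exact Relation.ReflTransGen.refl
  | tail _ h2 ih => exact Relation.ReflTransGen.head (hr _ _ h2) ih

namespace Plan
variable {c : C} {Z : Cfg L} {Q : Type} (P : Plan c Z Q)

theorem MV.symm {P : Plan c Z Q} {p q : Q} (h : P.MV p q) : P.MV q p := ⟨h.1.symm, h.2.symm⟩

theorem MH.symm {P : Plan c Z Q} {p q : Q} (h : P.MH p q) : P.MH q p := ⟨h.1.symm, h.2.symm⟩

theorem MH.trans {P : Plan c Z Q} {p q r : Q} (h : P.MH p q) (h' : P.MH q r) : P.MH p r :=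
  ⟨h.1.trans h'.1, h.2.trans h'.2⟩

theorem MV.trans {P : Plan c Z Q} {p q r : Q} (h : P.MV p q) (h' : P.MV q r) : P.MV p r :=
  ⟨h.1.trans h'.1, h.2.trans h'.2⟩

theorem ex_mh (q : Q) (u' : Mk) : ∃ q', P.MH q q' ∧ P.u q' = u' := by
  obtain ⟨q', h1, h2, h3⟩ := P.mvh q u'
  exact ⟨q', ⟨h1.symm, h2.symm⟩, h3⟩

theorem ex_mv (q : Q) (w' : Mk) : ∃ q', P.MV q q' ∧ P.w q' = w' := P.tr.ex_mh q w'

/-- The word of a horizontal move. -/
theorem mh_g {p q : Q} (h : P.MH p q) :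
    P.g q = P.g p * stp c Z.X (P.R p) (P.R q) (Rs Z.y (P.w p)) := by
  have e : ∀ r, P.g r = Kh c Z.Y Z.X (P.h r) * (opH c Z.X (P.R r ∩ Rs Z.y (P.w r)))⁻¹ := by
    intro r
    rw [P.relh r, map_mul, Kh_opH c (X := Z.Y) (R := Rs Z.y (P.w r)) (Z.tr.up_Rs _) (Z.up_Rs _),
      Set.inter_comm]
    rfl
  rw [e q, e p, h.1, h.2]
  unfold stp
  group

theorem at_R (q : Q) : At Z.x (P.R q) (P.u q).1 := at_Rs _ _

theorem up_R (q : Q) : Up Z.X (P.R q) := Z.up_Rs _

theorem dv_of_g {p q : Q} {D : Set L} (h : P.g q = P.g p * stp c Z.X (P.R p) (P.R q) D) :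
    P.dv p q = |(P.u q).1 - (P.u p).1| := by
  unfold dv
  rw [h, inv_mul_cancel_left]
  exact dW_stp Z c D (P.up_R p) (P.up_R q) (P.at_R p) (P.at_R q)

theorem dv_mh {p q : Q} (h : P.MH p q) : P.dv p q = |(P.u q).1 - (P.u p).1| :=
  P.dv_of_g (P.mh_g h)

theorem dv_mv {p q : Q} (h : P.MV p q) : P.dv p q = 0 := by
  have : P.g q = P.g p * stp c Z.X (P.R p) (P.R q) ∅ := by
    unfold R
    rw [h.1, h.2, stp_self, mul_one]
  rw [P.dv_of_g this, h.2, sub_self, abs_zero]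

theorem dh_mv {p q : Q} (h : P.MV p q) : P.dh p q = |(P.w q).1 - (P.w p).1| := P.tr.dv_mh h

theorem dh_mh {p q : Q} (h : P.MH p q) : P.dh p q = 0 := P.tr.dv_mv h

/-- A move. -/
def Mv (p q : Q) : Prop := P.MV p q ∨ P.MH p q

theorem Mv.symm {P : Plan c Z Q} {p q : Q} (h : P.Mv p q) : P.Mv q p := h.imp MV.symm MH.symm

theorem dv_move {p q : Q} (h : P.Mv p q) : P.dv p q = |(P.u q).1 - (P.u p).1| := by
  rcases h with h | h
  · rw [P.dv_mv h, h.2, sub_self, abs_zero]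
  · exact P.dv_mh h

theorem dh_move {p q : Q} (h : P.Mv p q) : P.dh p q = |(P.w q).1 - (P.w p).1| :=
  P.tr.dv_move (Or.symm h)

/-- The point lies in the box. -/
def In (b : Bx) (q : Q) : Prop := b.Mem (P.u q).1 (P.w q).1

/-- Joined by moves inside the box. -/
def Rch (b : Bx) (p q : Q) : Prop :=
  P.In b p ∧ Relation.ReflTransGen (fun a a' => P.Mv a a' ∧ P.In b a') p q

variable {P}

theorem Rch.refl {b : Bx} {p : Q} (h : P.In b p) : P.Rch b p p := ⟨h, Relation.ReflTransGen.refl⟩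

theorem Rch.tail {b : Bx} {p q r : Q} (h : P.Rch b p q) (h1 : P.Mv q r) (h2 : P.In b r) :
    P.Rch b p r := ⟨h.1, h.2.tail ⟨h1, h2⟩⟩

theorem Rch.right {b : Bx} {p q : Q} (h : P.Rch b p q) : P.In b q := by
  obtain ⟨h1, h2⟩ := h
  induction h2 with
  | refl => exact h1
  | tail _ h3 _ => exact h3.2

theorem Rch.trans {b : Bx} {p q r : Q} (h : P.Rch b p q) (h' : P.Rch b q r) : P.Rch b p r :=
  ⟨h.1, h.2.trans h'.2⟩

theorem Rch.symm {b : Bx} {p q : Q} (h : P.Rch b p q) : P.Rch b q p := by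
  obtain ⟨h1, h2⟩ := h
  induction h2 with
  | refl => exact Rch.refl h1
  | tail h0 h3 ih => exact ((Rch.refl h3.2).tail h3.1.symm ih.1).trans ih

theorem Rch.tr {b : Bx} {p q : Q} (h : P.Rch b p q) : P.tr.Rch b.tr p q :=
  ⟨h.1.tr, Relation.ReflTransGen.mono (fun _ _ h => ⟨Or.symm h.1, h.2.tr⟩) _ _ h.2⟩

theorem Rch.mono {b b' : Bx} {p q : Q} (h : P.Rch b p q) (hb : b.Sub b') : P.Rch b' p q :=
  ⟨h.1.mono hb, Relation.ReflTransGen.mono (fun _ _ h => ⟨h.1, h.2.mono hb⟩) _ _ h.2⟩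

theorem In.inB {b : Bx} {q : Q} (h : P.In b q) : InB Z.x b.x0 b.x1 (P.R q) :=
  (P.at_R q).inB h.1 h.2.1

theorem Rch.box {b : Bx} {p q : Q} (h : P.Rch b p q) : P.Box b p q := by
  obtain ⟨h1, h2⟩ := h
  refine ⟨h1, Rch.right ⟨h1, h2⟩, ?_⟩
  induction h2 with
  | refl => rw [inv_mul_cancel]; exact BoxW.refl (P.up_R p) h1.inB
  | @tail q r h0 h3 ih =>
    rcases h3.1 with h4 | h4
    · unfold R at ih ⊢
      rw [← h4.1, ← h4.2]; exact ih
    · have hq : P.In b q := Rch.right ⟨h1, h0⟩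
      rw [P.mh_g h4, ← mul_assoc]
      exact ih.step (P.up_R r) h3.2.inB ((at_Rs _ _).inB hq.2.2.1 hq.2.2.2)

variable (P)

/-- The box of a point. -/
def pt (q : Q) : Bx := ⟨(P.u q).1, (P.u q).1, (P.w q).1, (P.w q).1⟩

theorem in_pt (q : Q) : P.In (P.pt q) q := ⟨le_rfl, le_rfl, le_rfl, le_rfl⟩

theorem exists_rch (p q : Q) : ∃ b, P.Rch b p q := by
  have h := P.conn p q
  induction h with
  | refl => exact ⟨_, Rch.refl (P.in_pt p)⟩
  | @tail q r _ h3 ih =>
    obtain ⟨b, hb⟩ := ih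
    exact ⟨b.sup (P.pt r), (hb.mono (Bx.sub_sup_left _ _)).tail h3
      ((P.in_pt r).mono (Bx.sub_sup_right _ _))⟩

theorem exists_rch2 (p q r : Q) : ∃ b, P.Rch b p q ∧ P.Rch b p r := by
  obtain ⟨b, hb⟩ := P.exists_rch p q
  obtain ⟨b', hb'⟩ := P.exists_rch p r
  exact ⟨b.sup b', hb.mono (Bx.sub_sup_left _ _), hb'.mono (Bx.sub_sup_right _ _)⟩

variable {P}

theorem Box.dv_eq {b : Bx} {p q : Q} (h : P.Box b p q) {S : Finset L} (hS : Z.bl b ⊆ S) :
    P.dv p q = dT Z.x (P.u p).1 ((pj S (P.g p))⁻¹ * pj S (P.g q)) (P.u q).1 := by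
  rw [← map_inv, ← map_mul]
  exact h.2.2.att (P.at_R p) (P.at_R q) hS

variable (P)

theorem dv_ev' (p q : Q) : ∀ᶠ S : Finset L in atTop,
    P.dv p q = dL Z.x ((P.u p).1, pj S (P.g p)) ((P.u q).1, pj S (P.g q)) := by
  obtain ⟨b, hb⟩ := P.exists_rch p q
  refine (eventually_ge_atTop (Z.bl_fin b).toFinset).mono (fun S hS => hb.box.dv_eq ?_)
  intro l hl
  exact hS ((Z.bl_fin b).mem_toFinset.2 hl)

theorem pv : PM P.dv := by
  classical
  refine ⟨fun x => P.dv_mv ⟨rfl, rfl⟩, fun x y => ?_, fun x y z => ?_⟩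
  · obtain ⟨S, h1, h2⟩ := ((P.dv_ev' x y).and (P.dv_ev' y x)).exists
    rw [h1, h2, (dL_pm _).symm]
  · obtain ⟨S, h1, h2, h3⟩ := ((P.dv_ev' x z).and ((P.dv_ev' x y).and (P.dv_ev' y z))).exists
    rw [h1, h2, h3]
    exact (dL_pm _).tri _ _ _

theorem ph : PM P.dh := P.tr.pv

theorem hv : Hyp P.dv 0 := by
  classical
  intro w x y z
  obtain ⟨S, ⟨h1, h2, h3⟩, h4, h5, h6⟩ := (((P.dv_ev' x w).and ((P.dv_ev' y w).and
    (P.dv_ev' z w))).and ((P.dv_ev' x y).and ((P.dv_ev' y z).and (P.dv_ev' x z)))).exists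
  unfold gp
  rw [h1, h2, h3, h4, h5, h6]
  exact dL_hyp Z.x _ _ _ _

theorem hh : Hyp P.dh 0 := P.tr.hv

theorem abs_le_dv' (p q : Q) : |(P.u q).1 - (P.u p).1| ≤ P.dv p q := by
  classical
  obtain ⟨S, h⟩ := (P.dv_ev' p q).exists
  rw [h]
  exact abs_le_dT _ _ _ _

theorem abs_le_dh (p q : Q) : |(P.w q).1 - (P.w p).1| ≤ P.dh p q := P.tr.abs_le_dv' p q

open Classical in
/-- The coordinate at a finite level on a set of points. -/
noncomputable def cd (S : Finset L) (T : Set Q) : Cd L C T :=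
  ⟨Z.x, fun s => P.u s, fun s => pj S (P.g s), fun t => if t then c else 1⟩

/-- The points that can be reached inside the box. -/
def rs (b : Bx) (p : Q) : Set Q := {q | P.Rch b p q}

theorem rs_tr (b : Bx) (p : Q) : P.tr.rs b.tr p = P.rs b p :=
  Set.ext fun _ => ⟨fun h => Rch.tr h, fun h => Rch.tr h⟩

theorem step_of_mh (hx : Function.Injective Z.x) {S : Finset L} {T : Set Q} {s s' : T}
    (h : P.MH s s') (he : Elm Z.x S (P.u s) (P.u s')) :
    E5f.Step S (P.cd S T) (P.tr.cd S T) s s' := by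
  classical
  have gap : Gap Z.x S (P.u s) (P.u s') → E5f.Step S (P.cd S T) (P.tr.cd S T) s s' := by
    intro hg
    refine ⟨h.2.symm, congrArg (pj S) h.1.symm, Or.inl ⟨?_, hg⟩⟩
    change pj S (P.g s') = pj S (P.g s)
    have e : cut S (P.R s ∩ Rs Z.y (P.w s)) = cut S (P.R s' ∩ Rs Z.y (P.w s)) := by
      ext l
      simp only [mem_cut, Set.mem_inter_iff]
      exact ⟨fun h1 => ⟨h1.1, (hg l h1.1).1 h1.2.1, h1.2.2⟩,
        fun h1 => ⟨h1.1, (hg l h1.1).2 h1.2.1, h1.2.2⟩⟩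
    rw [P.mh_g h, map_mul, pj_stp, e, mul_inv_cancel, mul_one]
  have crs : ∀ {s s' : T}, P.MH s s' → ∀ l ∈ S, P.u s = (Z.x l, false) → P.u s' = (Z.x l, true) →
      Crs (P.cd S T) (P.tr.cd S T) l s s' := by
    intro s s' h l hl h1 h2
    refine ⟨h1, h2, ?_⟩
    change pj S (P.g s') = pj S (P.g s) * lt l (if l ∈ Rs Z.y (P.w s) then c else 1)
    rw [P.mh_g h, map_mul]
    unfold R
    rw [h1, h2, stp_cross hx, pj_emb_lt hl]
  rcases he with he | ⟨l, hl, h1, h2⟩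
  · exact gap he
  · cases e1 : (P.u s).2 <;> cases e2 : (P.u s').2
    · refine gap ?_
      rw [Prod.ext (h1.trans h2.symm) (e1.trans e2.symm)]
      exact Gap.refl _ _ _
    · exact ⟨h.2.symm, congrArg (pj S) h.1.symm, Or.inr ⟨l, hl, Or.inl
        (crs h l hl (Prod.ext h1 e1) (Prod.ext h2 e2))⟩⟩
    · exact ⟨h.2.symm, congrArg (pj S) h.1.symm, Or.inr ⟨l, hl, Or.inr
        (crs h.symm l hl (Prod.ext h2 e2) (Prod.ext h1 e1))⟩⟩
    · refine gap ?_
      rw [Prod.ext (h1.trans h2.symm) (e1.trans e2.symm)]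
      exact Gap.refl _ _ _

theorem g_eq_of_box {b : Bx} {S : Finset L} (hS : Z.bl b ⊆ S) {p q : Q} (h : P.Box b p q)
    (hu : P.u p = P.u q) (hg : pj S (P.g p) = pj S (P.g q)) : P.g p = P.g q := by
  have h1 := h.2.2
  have e : P.R q = P.R p := by unfold R; rw [hu]
  rw [e] at h1
  have := h1.nf (BoxW.refl h1.left.1 h1.left.2) hS (by rw [map_mul, map_inv, hg]; simp)
  exact inv_mul_eq_one.1 this

theorem pl1 (hx : Function.Injective Z.x) {b : Bx} {S : Finset L} (hS : Z.bl b ⊆ S) (p : Q)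
    {T : Set Q} (hT : T = P.rs b p) : Pl1 S (P.cd S T) (P.tr.cd S T) := by
  subst hT
  refine ⟨hx.injOn, fun s s' h1 h2 h3 => Subtype.ext (P.ext _ _ ?_ h1 h2), fun s t he => ?_⟩
  · exact P.g_eq_of_box hS (Rch.trans (Rch.symm s.2) s'.2).box h1 h3
  · obtain ⟨q, h1, h2⟩ := P.ex_mh s (P.u t)
    have hs := Rch.right s.2
    have ht := Rch.right t.2
    have hq : P.In b q := by
      unfold In
      rw [h2, ← h1.2]
      exact ⟨ht.1, ht.2.1, hs.2.2.1, hs.2.2.2⟩
    refine ⟨⟨q, Rch.tail s.2 (Or.inr h1) hq⟩, P.step_of_mh hx h1 ?_, h2⟩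
    change Elm Z.x S (P.u s) (P.u q)
    rw [h2]; exact he

theorem mv_of_step {b : Bx} {S : Finset L} (hS : Z.bl b ⊆ S) {p : Q} {T : Set Q}
    (hT : T = P.rs b p) {B : Cd L C T} {s s' : T} (h : E5f.Step S B (P.cd S T) s s') :
    P.MV s s' := by
  subst hT
  exact ⟨P.g_eq_of_box hS (Rch.trans (Rch.symm s.2) s'.2).box h.1.symm h.2.1.symm, h.1.symm⟩

theorem steps_of_mh (hx : Function.Injective Z.x) {b : Bx} {S : Finset L}
    (hS : ∀ l ∈ S, l ∈ Z.bl b) {p : Q} {T : Set Q} (hT : T = P.rs b p) {s s' : T}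
    (h : P.MH s s') : Relation.ReflTransGen (E5f.Step S (P.cd S T) (P.tr.cd S T)) s s' := by
  classical
  subst hT
  have key : ∀ (n : ℕ) (s s' : P.rs b p), P.MH s s' → toLex (P.u s) ≤ toLex (P.u s') →
      (cut S (P.R s \ P.R s')).card = n →
      Relation.ReflTransGen (E5f.Step S (P.cd S _) (P.tr.cd S _)) s s' := by
    intro n
    induction n using Nat.strong_induction_on with
    | _ n ih =>
    intro s s' h hle hn
    have hsub : P.R s' ⊆ P.R s := Rs_mono _ hle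
    rcases (cut S (P.R s \ P.R s')).eq_empty_or_nonempty with he | he
    · refine Relation.ReflTransGen.single (P.step_of_mh hx h (Or.inl fun l hl => ⟨fun h1 => ?_,
        fun h1 => hsub h1⟩))
      by_contra h2
      have : l ∈ cut S (P.R s \ P.R s') := mem_cut.2 ⟨hl, h1, h2⟩
      rw [he] at this
      exact Finset.notMem_empty _ this
    obtain ⟨l, hl, hmin⟩ := Finset.exists_min_image _ Z.x he
    obtain ⟨hlS, hl1, hl2⟩ := mem_cut.1 hl
    have hs := Rch.right s.2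
    have hb := hS l hlS
    have mk : ∀ e : Bool, ∃ q : P.rs b p, P.MH s q ∧ P.u q = (Z.x l, e) := by
      intro e
      obtain ⟨q, h1, h2⟩ := P.ex_mh s (Z.x l, e)
      refine ⟨⟨q, Rch.tail s.2 (Or.inr h1) ?_⟩, h1, h2⟩
      unfold In
      rw [h2, ← h1.2]
      exact ⟨hb.1, hb.2.1, hs.2.2.1, hs.2.2.2⟩
    obtain ⟨s1, a1, a2⟩ := mk false
    obtain ⟨s2, b1, b2⟩ := mk true
    have st1 : E5f.Step S (P.cd S _) (P.tr.cd S _) s s1 := by
      refine P.step_of_mh hx a1 (Or.inl fun m hm => ⟨fun h1 => ?_, fun h1 => ?_⟩)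
      · rw [a2]
        have : Z.x l ≤ Z.x m := by
          by_cases h2 : m ∈ P.R s'
          · by_contra h3
            exact hl2 (P.up_R s' m l h2 (Z.X_lt (not_le.1 h3)))
          · exact hmin m (mem_cut.2 ⟨hm, h1, h2⟩)
        rcases this.lt_or_eq with h3 | h3
        · exact Or.inl h3
        · exact Or.inr ⟨h3, rfl⟩
      · exact Rs_mono Z.x (a2 ▸ (rtP_iff _ _ _).1 hl1) h1
    have st2 : E5f.Step S (P.cd S _) (P.tr.cd S _) s1 s2 :=
      P.step_of_mh hx (a1.symm.trans b1) (Or.inr ⟨l, hlS, by rw [a2], by rw [b2]⟩)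
    have hle1 : toLex (P.u s) ≤ toLex (P.u s2) := by
      rw [b2]
      exact ((rtP_iff _ _ _).1 hl1).trans (by rw [Prod.Lex.toLex_le_toLex]; simp)
    refine ((Relation.ReflTransGen.single st1).tail st2).trans
      (ih _ ?_ s2 s' (b1.symm.trans h) (b2 ▸ (not_rtP_iff _ _ _).1 hl2) rfl)
    rw [← hn]
    refine Finset.card_lt_card ⟨fun m hm => ?_, fun hm => ?_⟩
    · rw [mem_cut] at hm ⊢
      exact ⟨hm.1, Rs_mono _ hle1 hm.2.1, hm.2.2⟩
    · have := (mem_cut.1 (hm hl)).2.1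
      unfold R at this
      rw [b2] at this
      exact not_rtP_true _ _ this
  rcases le_total (toLex (P.u s)) (toLex (P.u s')) with h1 | h1
  · exact key _ s s' h h1 rfl
  · exact rtg_symm (fun _ _ h => E5f.Step.symm h) (key _ s' s h.symm h1 rfl)

theorem exists_wk (hZ : Z.Gen) {b : Bx} {S : Finset L} (hS : ∀ l ∈ S, l ∈ Z.bl b) {p : Q}
    (s t : P.rs b p) : ∃ w, Wk S (P.cd S _) (P.tr.cd S _) s t w := by
  have key : ∀ (q : Q) (h : P.Rch b p q), Relation.ReflTransGen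
      (PStp S (P.cd S (P.rs b p)) (P.tr.cd S _)) ⟨p, Rch.refl h.1⟩ ⟨q, h⟩ := by
    rintro q ⟨h1, h2⟩
    induction h2 with
    | refl => exact Relation.ReflTransGen.refl
    | @tail q r h0 h3 ih =>
      refine ih.trans ?_
      rcases h3.1 with h4 | h4
      · exact Relation.ReflTransGen.mono (fun _ _ h => Or.inr h) _ _
          (P.tr.steps_of_mh hZ.2 (b := b.tr) (fun l hl => by rw [Z.bl_tr]; exact hS l hl)
            (P.rs_tr b p).symm (s := ⟨q, h1, h0⟩) (s' := ⟨r, h1, h0.tail h3⟩) h4)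
      · exact Relation.ReflTransGen.mono (fun _ _ h => Or.inl h) _ _
          (P.steps_of_mh hZ.1 hS rfl (s := ⟨q, h1, h0⟩) (s' := ⟨r, h1, h0.tail h3⟩) h4)
  have h := (rtg_symm (fun _ _ h => PStp.symm h) (key s s.2)).trans
    (key t t.2)
  obtain ⟨l, h1, h2⟩ := List.exists_isChain_cons_of_relationReflTransGen h
  exact ⟨s :: l, h1, rfl, by rw [List.getLast?_eq_some_getLast (List.cons_ne_nil _ _), h2]⟩

theorem cd_d {b : Bx} {S : Finset L} (hS : Z.bl b ⊆ S) {p : Q} {T : Set Q} (hT : T = P.rs b p) :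
    (P.cd S T).d = fun s s' : T => P.dv s s' := by
  subst hT
  funext s s'
  exact ((Rch.trans (Rch.symm s.2) s'.2).box.dv_eq hS).symm

/-- Tight walks at the level of a box. -/
theorem tight_wk (hZ : Z.Gen) {b : Bx} {S : Finset L} (hS : ∀ l, l ∈ S ↔ l ∈ Z.bl b) {p : Q}
    (s t : P.rs b p) : ∃ w, Wk S (P.cd S _) (P.tr.cd S _) s t w ∧
      wlen (P.cd S _).d w = (P.cd S _).d s t ∧ wlen (P.tr.cd S _).d w = (P.tr.cd S _).d s t :=
  exists_tight (P.pl1 hZ.1 (fun l hl => (hS l).2 hl) p rfl)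
    (P.tr.pl1 hZ.2 (b := b.tr) (fun l hl => (hS l).2 (by rwa [Z.bl_tr] at hl)) p
      (P.rs_tr b p).symm)
    (P.exists_wk hZ (fun l hl => (hS l).1 hl) s t)

theorem mv_of_pstp {b : Bx} {S : Finset L} (hS : Z.bl b ⊆ S) {p : Q} {s s' : P.rs b p}
    (h : PStp S (P.cd S _) (P.tr.cd S _) s s') : P.Mv s s' := by
  rcases h with h | h
  · exact Or.inr (P.tr.mv_of_step (b := b.tr) (by rwa [Z.bl_tr]) (P.rs_tr b p).symm h)
  · exact Or.inl (P.mv_of_step hS rfl h)

/-- Common geodesics as lists of moves. -/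
theorem geo_list (hZ : Z.Gen) (p q : Q) : ∃ l : List Q, (p :: l).IsChain P.Mv ∧
    (p :: l).getLast (List.cons_ne_nil _ _) = q ∧ wlen P.dv (p :: l) = P.dv p q ∧
    wlen P.dh (p :: l) = P.dh p q := by
  obtain ⟨b, hb⟩ := P.exists_rch p q
  have hS : ∀ l, l ∈ (Z.bl_fin b).toFinset ↔ l ∈ Z.bl b := fun l => Set.Finite.mem_toFinset _
  have hS' : Z.bl b ⊆ (Z.bl_fin b).toFinset := fun l hl => (hS l).2 hl
  obtain ⟨w, ⟨h1, h2, h3⟩, h4, h5⟩ := P.tight_wk hZ hS ⟨p, Rch.refl hb.1⟩ ⟨q, hb⟩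
  rw [P.cd_d hS' rfl] at h4
  rw [P.tr.cd_d (b := b.tr) (by rwa [Z.bl_tr]) (P.rs_tr b p).symm] at h5
  cases w with
  | nil => simp at h2
  | cons a w =>
    simp only [List.head?_cons, Option.some.injEq] at h2
    subst h2
    rw [List.getLast?_eq_some_getLast (List.cons_ne_nil _ _), Option.some.injEq] at h3
    refine ⟨w.map Subtype.val, ?_, ?_, ?_, ?_⟩
    · exact (List.isChain_map (Subtype.val : P.rs b p → Q)).2
        (h1.imp (fun _ _ h => P.mv_of_pstp hS' h))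
    · exact (List.getLast_map (f := (Subtype.val : P.rs b p → Q))
        (l := ⟨p, Rch.refl hb.1⟩ :: w) (by simp)).trans (congrArg Subtype.val h3)
    · exact (wlen_map P.dv Subtype.val (⟨p, Rch.refl hb.1⟩ :: w)).trans h4
    · exact (wlen_map P.dh Subtype.val (⟨p, Rch.refl hb.1⟩ :: w)).trans h5

theorem mid_mh {p q : Q} (h : P.MH p q) {t : ℝ} (h0 : 0 ≤ t) (h1 : t ≤ P.dv p q) :
    ∃ r, P.MH p r ∧ P.dv p r = t ∧ P.dv r q = P.dv p q - t := by
  rw [P.dv_mh h] at h1 ⊢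
  rcases le_total (P.u p).1 (P.u q).1 with h2 | h2
  · obtain ⟨r, e1, e2⟩ := P.ex_mh p ((P.u p).1 + t, false)
    rw [abs_of_nonneg (sub_nonneg.2 h2)] at h1 ⊢
    refine ⟨r, e1, ?_, ?_⟩
    · rw [P.dv_mh e1, e2]; simpa using h0
    · rw [P.dv_mh (e1.symm.trans h), e2, abs_of_nonneg (by simp only; linarith)]
      simp only; ring
  · obtain ⟨r, e1, e2⟩ := P.ex_mh p ((P.u p).1 - t, false)
    rw [abs_of_nonpos (sub_nonpos.2 h2)] at h1 ⊢
    refine ⟨r, e1, ?_, ?_⟩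
    · rw [P.dv_mh e1, e2]; simpa using h0
    · rw [P.dv_mh (e1.symm.trans h), e2, abs_of_nonpos (by simp only; linarith)]
      simp only; ring

theorem geo_mh {p q : Q} (h : P.MH p q) {α β s : ℝ} (hα : 0 ≤ α) (h0 : 0 ≤ s)
    (h1 : s ≤ α * P.dv p q + β * P.dh p q) :
    ∃ r, Btw P.dv P.dh p r q ∧ α * P.dv p r + β * P.dh p r = s := by
  rw [P.dh_mh h, mul_zero, add_zero] at h1
  rcases hα.eq_or_lt with hα | hα
  · refine ⟨p, ⟨by rw [P.pv.self, zero_add], by rw [P.ph.self, zero_add]⟩, ?_⟩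
    rw [P.pv.self, P.ph.self]
    rw [← hα] at h1
    linarith
  · obtain ⟨r, e1, e2, e3⟩ := P.mid_mh h (div_nonneg h0 hα.le) ((div_le_iff₀' hα).2 h1)
    refine ⟨r, ⟨by rw [e2, e3]; ring, ?_⟩, ?_⟩
    · rw [P.dh_mh e1, P.dh_mh (e1.symm.trans h), P.dh_mh h, add_zero]
    · rw [e2, P.dh_mh e1, mul_div_cancel₀ _ hα.ne']; ring

theorem geo_chain {α β : ℝ} (hα : 0 ≤ α) (hβ : 0 ≤ β) (q : Q) : ∀ (l : List Q) (p : Q) (s : ℝ),
    (p :: l).IsChain P.Mv → (p :: l).getLast (List.cons_ne_nil _ _) = q →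
    wlen P.dv (p :: l) = P.dv p q → wlen P.dh (p :: l) = P.dh p q → 0 ≤ s →
    s ≤ α * P.dv p q + β * P.dh p q →
    ∃ r, Btw P.dv P.dh p r q ∧ α * P.dv p r + β * P.dh p r = s
  | [], p, s, _, h2, _, _, h0, h1 => by
    have : p = q := by simpa using h2
    subst this
    exact P.geo_mh ⟨rfl, rfl⟩ hα h0 h1
  | a :: l, p, s, h1, h2, h3, h4, h0, h5 => by
    rw [List.isChain_cons_cons] at h1
    rw [List.getLast_cons_cons] at h2
    rw [wlen_cons2] at h3 h4
    have t1 := le_wlen' P.pv a l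
    have t2 := le_wlen' P.ph a l
    rw [h2] at t1 t2
    have t3 := P.pv.tri p a q
    have t4 := P.ph.tri p a q
    have e1 : P.dv p a + P.dv a q = P.dv p q := by linarith
    have e2 : P.dh p a + P.dh a q = P.dh p q := by linarith
    by_cases hs : s ≤ α * P.dv p a + β * P.dh p a
    · obtain ⟨r, b1, b2⟩ : ∃ r, Btw P.dv P.dh p r a ∧ α * P.dv p r + β * P.dh p r = s := by
        rcases h1.1 with h6 | h6
        · obtain ⟨r, b1, b2⟩ := P.tr.geo_mh (α := β) (β := α) h6 hβ h0 (by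
            rw [add_comm]; exact hs)
          exact ⟨r, ⟨b1.2, b1.1⟩, by rw [add_comm]; exact b2⟩
        · exact P.geo_mh h6 hα h0 hs
      have t5 := P.pv.tri r a q
      have t6 := P.ph.tri r a q
      have t7 := P.pv.tri p r q
      have t8 := P.ph.tri p r q
      exact ⟨r, ⟨by linarith [b1.1], by linarith [b1.2]⟩, b2⟩
    · obtain ⟨r, b1, b2⟩ := geo_chain hα hβ q l a (s - (α * P.dv p a + β * P.dh p a)) h1.2 h2
        (by linarith) (by linarith) (by linarith) (by rw [← e1, ← e2] at h5; linarith)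
      have t5 := P.pv.tri p a r
      have t6 := P.ph.tri p a r
      have t7 := P.pv.tri p r q
      have t8 := P.ph.tri p r q
      have e3 : P.dv p r = P.dv p a + P.dv a r := by linarith [b1.1]
      have e4 : P.dh p r = P.dh p a + P.dh a r := by linarith [b1.2]
      exact ⟨r, ⟨by linarith [b1.1], by linarith [b1.2]⟩, by rw [e3, e4]; linarith⟩

theorem biTree' (hZ : Z.Gen) : BiTree P.dv P.dh where
  pv := P.pv
  ph := P.ph
  hv := P.hv
  hh := P.hh
  geo := fun _ _ p q s hα hβ h0 h1 => by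
    obtain ⟨l, e1, e2, e3, e4⟩ := P.geo_list hZ p q
    exact P.geo_chain hα hβ q l p s e1 e2 e3 e4 h0 h1

theorem rch_of_chain {b : Bx} : ∀ (l : List Q) (p : Q), (p :: l).IsChain P.Mv →
    (∀ r ∈ p :: l, P.In b r) → P.Rch b p ((p :: l).getLast (List.cons_ne_nil _ _))
  | [], p, _, h => Rch.refl (h p (by simp))
  | a :: l, p, h1, h => by
    rw [List.isChain_cons_cons] at h1
    rw [List.getLast_cons_cons]
    exact ((Rch.refl (h p (by simp))).tail h1.1 (h a (by simp))).trans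
      (rch_of_chain l a h1.2 (fun r hr => h r (List.mem_cons_of_mem _ hr)))

theorem le_wlen_mem {X : Type} {d : X → X → ℝ} (h : PM d) (a : X) (l : List X) {r : X}
    (hr : r ∈ a :: l) : d a r ≤ wlen d (a :: l) := by
  rcases List.mem_cons.1 hr with rfl | hr
  · rw [h.self]; exact wlen_nonneg h _
  · obtain ⟨s, t, rfl⟩ := List.append_of_mem hr
    have h1 := wlen_split d (a :: s) r t
    have h2 := le_wlen h a s r
    have h3 := wlen_nonneg h (r :: t)
    simp only [List.cons_append] at h1 h2 ⊢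
    linarith

/-- Two points are joined inside the box given by their distances. -/
theorem rch_dist (hZ : Z.Gen) (p q : Q) {A B : ℝ} (hA : P.dv p q ≤ A) (hB : P.dh p q ≤ B) :
    P.Rch ((P.pt p).grow A B) p q := by
  obtain ⟨l, e1, e2, e3, e4⟩ := P.geo_list hZ p q
  rw [← e2]
  refine P.rch_of_chain l p e1 (fun r hr => ?_)
  have h1 := (P.abs_le_dv' p r).trans ((le_wlen_mem P.pv p l hr).trans (e3.le.trans hA))
  have h2 := (P.abs_le_dh p r).trans ((le_wlen_mem P.ph p l hr).trans (e4.le.trans hB))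
  rw [abs_le] at h1 h2
  exact ⟨by change (P.u p).1 - A ≤ _; linarith [h1.1], by change _ ≤ (P.u p).1 + A; linarith [h1.2],
    by change (P.w p).1 - B ≤ _; linarith [h2.1], by change _ ≤ (P.w p).1 + B; linarith [h2.2]⟩

end Plan

end

end Pool.Agent.E5f
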