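import Pool.Agent.E5f.MoVH
import Pool.Agent.E5f.PlGeo
import Pool.Agent.E5f.PlPlan

/-!
Existence of planar models and their elementary properties.
-/

set_option autoImplicit false

namespace Pool.Agent.E5f

open Filter Classical

/-- The H-word of a triple of a V-word and two markers. -/
noncomputable def hOf {L C : Type} [CommGroup C] (c : C) (Z : Cfg L) (s : WL L C × Mk × Mk) :
    WL L C := Kh c Z.X Z.Y (s.1 * opH c Z.X (Rs Z.x s.2.1 ∩ Rs Z.y s.2.2))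

/-- Moves between triples. -/
def mvOf {L C : Type} [CommGroup C] (c : C) (Z : Cfg L) (a b : WL L C × Mk × Mk) : Prop :=
  (a.1 = b.1 ∧ a.2.1 = b.2.1) ∨ (hOf c Z a = hOf c Z b ∧ a.2.2 = b.2.2)

theorem plan_ex {L C : Type} [CommGroup C] (c : C) (Z : Cfg L) (g0 : WL L C) (u0 w0 : Mk) :
    ∃ (Q : Type) (P : Plan c Z Q) (q0 : Q), P.g q0 = g0 ∧ P.u q0 = u0 ∧ P.w q0 = w0 := by
  let Q := {s : WL L C × Mk × Mk // Relation.ReflTransGen (mvOf c Z) (g0, u0, w0) s}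
  let r : Q → Q → Prop := fun a b => mvOf c Z a.1 b.1
  have hr : ∀ a b, r a b → r b a := fun a b h =>
    h.imp (fun h => ⟨h.1.symm, h.2.symm⟩) (fun h => ⟨h.1.symm, h.2.symm⟩)
  have key : ∀ s (h : Relation.ReflTransGen (mvOf c Z) (g0, u0, w0) s),
      Relation.ReflTransGen r ⟨(g0, u0, w0), Relation.ReflTransGen.refl⟩ ⟨s, h⟩ := by
    intro s h
    induction h with
    | refl => exact Relation.ReflTransGen.refl
    | tail h1 h2 ih => exact ih.tail h2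
  refine ⟨Q, ⟨fun q => q.1.1, fun q => hOf c Z q.1, fun q => q.1.2.1, fun q => q.1.2.2,
    fun _ => rfl, fun q => ?_, fun q w' => ?_, fun q u' => ?_, fun p q => ?_, fun p q h1 h2 h3 => ?_⟩,
    ⟨(g0, u0, w0), Relation.ReflTransGen.refl⟩, rfl, rfl, rfl⟩
  · unfold hOf
    rw [map_mul, Kh_Kh, Kh_opH c (X := Z.Y) (R := Rs Z.y q.1.2.2) (Z.tr.up_Rs _) (Z.up_Rs _),
      Set.inter_comm, mul_inv_cancel_right]
  · exact ⟨⟨(q.1.1, q.1.2.1, w'), q.2.tail (Or.inl ⟨rfl, rfl⟩)⟩, rfl, rfl, rfl⟩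
  · have e : hOf c Z (q.1.1 * stp c Z.X (Rs Z.x q.1.2.1) (Rs Z.x u') (Rs Z.y q.1.2.2), u',
        q.1.2.2) = hOf c Z q.1 := by
      unfold hOf stp
      simp only [mul_assoc, inv_mul_cancel, mul_one]
    exact ⟨⟨_, q.2.tail (Or.inr ⟨e.symm, rfl⟩)⟩, e, rfl, rfl⟩
  · exact (rtg_symm hr (key p.1 p.2)).trans (key q.1 q.2)
  · exact Subtype.ext (Prod.ext h1 (Prod.ext h2 h3))

theorem sup_single {L C : Type} [CommGroup C] {a : L} {g : W L C} (h : Sup {a} g) :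
    ∃ x, g = lt a x := by
  refine sup_ind (p := fun g => ∃ x, g = lt a x) ⟨1, by simp⟩ ?_ h
  rintro l hl x g ⟨y, rfl⟩
  rw [Set.mem_singleton_iff.1 hl]
  exact ⟨x * y, (lt_mul a x y).symm⟩

theorem dT_ret_lt {L C : Type} [CommGroup C] (ρ : L → ℝ) (S : Set L) (a : L) (x : C) :
    dT ρ (ρ a) (ret S (lt a x)) (ρ a) = 0 := by
  rw [ret_lt]
  split_ifs
  · by_cases hx : x = 1
    · rw [hx]; simp
    · rw [dT_lt _ _ _ _ hx]; simp
  · simp

namespace Plan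
variable {L C : Type} [CommGroup C] {c : C} {Z : Cfg L} {Q : Type} {P : Plan c Z Q} {b : Bx}
  {p q r : Q} {D : Set L}

theorem MH.g_eq (h : P.MH p q) :
    P.g q = P.g p * stp c Z.X (P.R p) (P.R q) (Rs Z.y (P.w p)) := P.mh_g h

theorem MH.step (h : P.MH p q) : P.Step (Rs Z.y (P.w p)) p q :=
  ⟨⟨_, _, (at_Rs Z.y (P.w p)).inB le_rfl le_rfl⟩, h.g_eq⟩

theorem mh_of (hw : P.w p = P.w q)
    (hg : P.g q = P.g p * stp c Z.X (P.R p) (P.R q) (Rs Z.y (P.w p))) : P.MH p q := by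
  refine ⟨?_, hw⟩
  rw [P.relv p, P.relv q, hg, ← hw]
  unfold stp R
  simp only [mul_assoc, inv_mul_cancel, mul_one]

theorem Step.symm (h : P.Step D p q) : P.Step D q p :=
  ⟨h.1, by rw [h.2, mul_assoc, stp_mul, stp_self, mul_one]⟩

theorem Step.trans (h : P.Step D p q) (h' : P.Step D q r) : P.Step D p r :=
  ⟨h.1, by rw [h'.2, h.2, mul_assoc, stp_mul]⟩

theorem Step.mv (h : P.Step D p q) (hu : P.u p = P.u q) : P.MV p q := by
  refine ⟨?_, hu⟩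
  have := h.2
  unfold R at this
  rw [this, hu, stp_self, mul_one]

theorem Box.tr (h : P.Box b p q) : P.tr.Box b.tr p q := by
  refine ⟨h.1.tr, h.2.1.tr, ?_⟩
  have h1 := BoxW.vh (Z := Z.tr) (b := b.tr) (R := Rs Z.y (P.w p)) (R' := Rs Z.y (P.w q)) h.2.2
    (Z.tr.up_Rs _) ((at_Rs _ _).inB h.1.2.2.1 h.1.2.2.2) (Z.tr.up_Rs _)
    ((at_Rs _ _).inB h.2.1.2.2.1 h.2.1.2.2.2)
  have e : (P.h p)⁻¹ * P.h q = opH c Z.Y (Rs Z.y (P.w p) ∩ P.R p) *
      Kh c Z.X Z.Y ((P.g p)⁻¹ * P.g q) * (opH c Z.Y (Rs Z.y (P.w q) ∩ P.R q))⁻¹ := by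
    rw [P.relv p, P.relv q, map_mul, map_mul, map_mul, map_inv,
      Kh_opH c (Y := Z.Y) (A := Rs Z.y (P.w p)) (Z.up_Rs _) (Z.tr.up_Rs _),
      Kh_opH c (Y := Z.Y) (A := Rs Z.y (P.w q)) (Z.up_Rs _) (Z.tr.up_Rs _),
      Set.inter_comm (Rs Z.y (P.w p)), Set.inter_comm (Rs Z.y (P.w q))]
    unfold R
    group
  change BoxW c Z.tr b.tr _ _ ((P.h p)⁻¹ * P.h q)
  rw [e]
  exact h1

theorem Box.mono {b' : Bx} (h : P.Box b p q) (hb : b.Sub b') : P.Box b' p q :=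
  ⟨h.1.mono hb, h.2.1.mono hb, h.2.2.mono hb⟩

theorem Box.symm (h : P.Box b p q) : P.Box b q p :=
  ⟨h.2.1, h.1, by simpa using h.2.2.symm⟩

theorem Box.trans (h : P.Box b p q) (h' : P.Box b q r) : P.Box b p r :=
  ⟨h.1, h'.2.1, by simpa [mul_assoc] using h.2.2.trans h'.2.2⟩

theorem chain_rch {s : ℕ → Q} {n : ℕ} (hs : P.Chain s n)
    (hb : ∀ i ≤ n, b.Mem (P.u (s i)).1 (P.w (s i)).1) : P.Rch b (s 0) (s n) := by
  induction n with
  | zero => exact Rch.refl (hb 0 le_rfl)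
  | succ n ih =>
    exact (ih (fun i hi => hs i (Nat.lt_succ_of_lt hi))
      (fun i hi => hb i (Nat.le_succ_of_le hi))).tail (hs n (Nat.lt_succ_self n)) (hb _ le_rfl)

theorem chain_box {s : ℕ → Q} {n : ℕ} (hs : P.Chain s n)
    (hb : ∀ i ≤ n, b.Mem (P.u (s i)).1 (P.w (s i)).1) : P.Box b (s 0) (s n) :=
  (chain_rch hs hb).box

theorem box_ex (P : Plan c Z Q) (p q : Q) : ∃ b, P.Box b p q :=
  (P.exists_rch p q).imp (fun _ h => h.box)

theorem dv_eq (_hc : c ≠ 1) (h : P.Box b p q) {S : Finset L} (hS : Z.bl b ⊆ (S : Set L)) :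
    P.dv p q = dT Z.x (P.u p).1 ((pj S (P.g p))⁻¹ * pj S (P.g q)) (P.u q).1 := h.dv_eq hS

theorem dv_ev (_hc : c ≠ 1) (p q : Q) : ∀ᶠ S : Finset L in atTop,
    P.dv p q = dL Z.x ((P.u p).1, pj S (P.g p)) ((P.u q).1, pj S (P.g q)) := P.dv_ev' p q

theorem dv_pm (P : Plan c Z Q) (_hc : c ≠ 1) : PM P.dv := P.pv

theorem dv_hyp (P : Plan c Z Q) (_hc : c ≠ 1) : Hyp P.dv 0 := P.hv

theorem abs_le_dv (_hc : c ≠ 1) (p q : Q) : |(P.u q).1 - (P.u p).1| ≤ P.dv p q :=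
  P.abs_le_dv' p q

theorem Step.dv (_hc : c ≠ 1) (h : P.Step D p q) : P.dv p q = |(P.u q).1 - (P.u p).1| :=
  P.dv_of_g h.2

theorem MV.dv (_hc : c ≠ 1) (h : P.MV p q) : P.dv p q = 0 := P.dv_mv h

theorem MV.dh (_hc : c ≠ 1) (h : P.MV p q) : P.dh p q = |(P.w q).1 - (P.w p).1| := P.dh_mv h

theorem MH.dv (_hc : c ≠ 1) (h : P.MH p q) : P.dv p q = |(P.u q).1 - (P.u p).1| := P.dv_mh h

theorem MH.dh (_hc : c ≠ 1) (h : P.MH p q) : P.dh p q = 0 := P.dh_mh h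

theorem Touch.dv' {a : L} {x : C} (h : P.Touch a x p q) : P.dv p q = 0 := by
  unfold Plan.dv
  rw [h.2.2, inv_mul_cancel_left, h.1, h.2.1]
  exact dW_eq ∅ (fun S _ => dT_ret_lt _ _ _ _)

theorem Touch.dv (_hc : c ≠ 1) {a : L} {x : C} (h : P.Touch a x p q) : P.dv p q = 0 := h.dv'

theorem dv_le_lenV (_hc : c ≠ 1) {s : ℕ → Q} {n : ℕ} (hs : P.Chain s n) :
    P.dv (s 0) (s n) ≤ P.lenV s n := by
  unfold lenV
  induction n with
  | zero => simp [P.pv.self]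
  | succ n ih =>
    rw [Finset.sum_range_succ, ← P.dv_move (hs n (Nat.lt_succ_self n))]
    have := ih (fun i hi => hs i (Nat.lt_succ_of_lt hi))
    have := P.pv.tri (s 0) (s n) (s (n + 1))
    linarith

theorem dv_zero' (hx : Function.Injective Z.x) (h : P.dv p q = 0) :
    (P.u p).1 = (P.u q).1 ∧ (P.g p = P.g q ∨ ∃ a x, P.Touch a x p q) := by
  have hu : (P.u p).1 = (P.u q).1 := by
    have := P.abs_le_dv' p q
    rw [h] at this
    exact (sub_eq_zero.1 (abs_nonpos_iff.1 this)).symm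
  refine ⟨hu, ?_⟩
  obtain ⟨S0, hS0⟩ := eventually_atTop.1 (P.dv_ev' p q)
  have key : ∀ S, S0 ⊆ S → ∀ l ∈ lab (pj S ((P.g p)⁻¹ * P.g q)), Z.x l = (P.u p).1 := by
    intro S hS
    have h1 := hS0 S hS
    rw [h] at h1
    rw [map_mul, map_inv]
    exact (dT_eq_zero.1 h1.symm).2
  by_cases ha : ∃ a, Z.x a = (P.u p).1
  · obtain ⟨a, ha⟩ := ha
    obtain ⟨x, hx'⟩ := sup_single (a := a) (g := pj {a} ((P.g p)⁻¹ * P.g q))
      (by simpa using sup_pj {a} ((P.g p)⁻¹ * P.g q))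
    refine Or.inr ⟨a, x, ha.symm, hu ▸ ha.symm, ?_⟩
    rw [← inv_mul_eq_iff_eq_mul]
    refine WL_ext_of (insert a S0) (fun S hS => ?_)
    have haS : a ∈ S := hS (Finset.mem_insert_self _ _)
    have h1 : Sup (({a} : Finset L) : Set L) (pj S ((P.g p)⁻¹ * P.g q)) := fun l hl => by
      have := key S ((Finset.subset_insert _ _).trans hS) l hl
      simpa using hx (this.trans ha.symm)
    rw [← sup_iff.1 h1, ret_pj (Finset.singleton_subset_iff.2 haS), hx', pj_emb_lt haS]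
  · left
    rw [← inv_mul_eq_one]
    refine WL_ext_of S0 (fun S hS => ?_)
    rw [map_one]
    apply wd_eq_nil
    cases hw : wd (pj S ((P.g p)⁻¹ * P.g q)) with
    | nil => rfl
    | cons e t => exact absurd ⟨e.1, key S hS e.1 (by unfold lab; rw [hw]; simp)⟩ ha

theorem dv_zero (hZ : Z.Gen) (_hc : c ≠ 1) (h : P.dv p q = 0) :
    (P.u p).1 = (P.u q).1 ∧ (P.g p = P.g q ∨ ∃ a x, P.Touch a x p q) := dv_zero' hZ.1 h

end Plan

end Pool.Agent.E5f
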