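import Pool.Agent.E5f.HypDefs

/-!
Free products of copies of a commutative group `C` indexed by labels: reduced words, labels,
retractions, exponents, total variation, swap maps.
-/

set_option autoImplicit false

namespace Pool.Agent.E5f

open Monoid

/-- The free product of copies of `C` indexed by `L`. -/
abbrev W (L C : Type) [CommGroup C] : Type := CoprodI (fun _ : L => C)

/-- The group of order two. -/
abbrev C2 : Type := Multiplicative (ZMod 2)

/-- The infinite cyclic group. -/
abbrev CZ : Type := Multiplicative ℤ

section
variable {L C : Type} [CommGroup C]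

/-- The letter `x` at the label `l`. -/
def lt (l : L) (x : C) : W L C := CoprodI.of (M := fun _ : L => C) (i := l) x

/-- The value of a list of letters. -/
def ev (w : List (L × C)) : W L C := (w.map (fun e => lt e.1 e.2)).prod

/-- Reduced lists of letters. -/
def Red (w : List (L × C)) : Prop := (∀ e ∈ w, e.2 ≠ 1) ∧ w.IsChain (fun e e' => e.1 ≠ e'.1)

open Classical in
/-- The reduced word of an element. -/
noncomputable def wd (g : W L C) : List (L × C) :=
  (CoprodI.Word.equiv g).toList.map (fun e => (e.1, e.2))

/-- The labels of the reduced word. -/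
noncomputable def lab (g : W L C) : List L := (wd g).map Prod.fst

/-- The homomorphism given on letters. -/
def lf {G : Type} [Group G] (f : L → C →* G) : W L C →* G := CoprodI.lift (M := fun _ : L => C) f

/-- The letters at `l` as a homomorphism. -/
def ltH (l : L) : C →* W L C := CoprodI.of (M := fun _ : L => C) (i := l)

open Classical in
/-- The retraction killing the letters with label outside `S`. -/
noncomputable def ret (S : Set L) : W L C →* W L C := lf (fun l => if l ∈ S then ltH l else 1)

open Classical in
/-- The total exponent of the label `l`. -/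
noncomputable def expo (l : L) : W L C →* C := lf (fun m => if m = l then MonoidHom.id C else 1)

open Classical in
/-- The initial exponent of the label `l`. -/
noncomputable def hd (l : L) (g : W L C) : C :=
  match wd g with
  | [] => 1
  | e :: _ => if e.1 = l then e.2 else 1

/-- Relabelling. -/
def rl {L' : Type} (σ : L → L') : W L C →* W L' C := lf (fun l => ltH (σ l))

open Classical in
/-- The swap map: the letters at `b` are conjugated by the letter `x` at `a`. -/
noncomputable def sw (a b : L) (x : C) : W L C →* W L C :=
  lf (fun l => if l = b then (MulAut.conj (lt a x : W L C)).toMonoidHom.comp (ltH b) else ltH l)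

/-- The support of an element lies in `S`. -/
def Sup (S : Set L) (g : W L C) : Prop := ∀ l ∈ lab g, l ∈ S

end

/-- Total variation of a list of reals. -/
noncomputable def Var : List ℝ → ℝ
  | a :: b :: l => |b - a| + Var (b :: l)
  | _ => 0

section api
variable {L C : Type} [CommGroup C]

@[simp] theorem ltH_apply (l : L) (x : C) : (ltH l x : W L C) = lt l x := rfl

@[simp] theorem lf_lt {G : Type} [Group G] (f : L → C →* G) (l : L) (x : C) :
    lf f (lt l x) = f l x := CoprodI.lift_of _ _

@[simp] theorem lt_one (l : L) : (lt l (1 : C) : W L C) = 1 := map_one (ltH l : C →* W L C)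

theorem lt_mul (l : L) (x y : C) : (lt l (x * y) : W L C) = lt l x * lt l y :=
  map_mul (ltH l : C →* W L C) x y

theorem lt_inv (l : L) (x : C) : (lt l x⁻¹ : W L C) = (lt l x)⁻¹ :=
  map_inv (ltH l : C →* W L C) x

theorem W_ext {G : Type} [Group G] {f g : W L C →* G} (h : ∀ l x, f (lt l x) = g (lt l x)) :
    f = g := CoprodI.ext_hom _ _ (fun l => MonoidHom.ext (h l))

@[simp] theorem ev_nil : ev ([] : List (L × C)) = 1 := rfl

@[simp] theorem ev_cons (e : L × C) (w : List (L × C)) : ev (e :: w) = lt e.1 e.2 * ev w := by
  simp [ev]

@[simp] theorem ev_append (w w' : List (L × C)) : ev (w ++ w') = ev w * ev w' := by simp [ev]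

theorem ev_wd (g : W L C) : ev (wd g) = g := by
  classical
  have h := (CoprodI.Word.equiv (M := fun _ : L => C)).symm_apply_apply g
  have h2 : ∀ w : CoprodI.Word (fun _ : L => C),
      (CoprodI.Word.equiv (M := fun _ : L => C)).symm w = w.prod := fun _ => rfl
  rw [h2] at h
  rw [← h]
  unfold ev wd
  simp only [h, List.map_map]
  conv_rhs => rw [← h]
  unfold CoprodI.Word.prod
  congr 1

theorem red_wd (g : W L C) : Red (wd g) := by
  classical
  unfold wd
  refine ⟨?_, ?_⟩
  · intro e he
    obtain ⟨e', he', rfl⟩ := List.mem_map.1 he
    exact CoprodI.Word.ne_one _ e' he'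
  · rw [List.isChain_map]
    exact CoprodI.Word.chain_ne _

theorem wd_ev {w : List (L × C)} (h : Red w) : wd (ev w) = w := by
  classical
  let v : CoprodI.Word (fun _ : L => C) :=
    ⟨w.map (fun e => ⟨e.1, e.2⟩), by
      intro e he
      obtain ⟨e', he', rfl⟩ := List.mem_map.1 he
      exact h.1 e' he', by
      rw [List.isChain_map]
      exact h.2⟩
  have hv : v.prod = ev w := by
    unfold CoprodI.Word.prod ev
    simp only [v, List.map_map]
    congr 1
  have h3 : CoprodI.Word.equiv (M := fun _ : L => C) (ev w) = v := by
    rw [← hv]
    exact (CoprodI.Word.equiv (M := fun _ : L => C)).apply_symm_apply v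
  unfold wd
  have h4 : ∀ (i1 : DecidableEq L) (i2 : ∀ _ : L, DecidableEq C),
      @CoprodI.Word.equiv L (fun _ : L => C) _ i1 i2 (ev w) = v := by
    intro i1 i2
    rw [Subsingleton.elim i1 (fun a b => Classical.propDecidable (a = b)),
      Subsingleton.elim i2 (fun _ a b => Classical.propDecidable (a = b))]
    exact h3
  rw [h4]
  simp [v, List.map_map, Function.comp_def]

@[simp] theorem wd_one : wd (1 : W L C) = [] := wd_ev (w := []) ⟨by simp, by simp⟩

@[simp] theorem lab_one : lab (1 : W L C) = [] := by simp [lab]

theorem wd_lt (l : L) {x : C} (hx : x ≠ 1) : wd (lt l x : W L C) = [(l, x)] := by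
  have := wd_ev (w := [(l, x)]) ⟨by simpa using hx, by simp⟩
  simpa using this

theorem W_ind {p : W L C → Prop} (h1 : p 1) (h : ∀ l x g, p g → p (lt l x * g)) (g : W L C) :
    p g := CoprodI.induction_left g h1 (fun {l} x g hg => h l x g hg)

open Classical in
@[simp] theorem ret_lt (S : Set L) (l : L) (x : C) :
    ret S (lt l x : W L C) = if l ∈ S then lt l x else 1 := by
  unfold ret; rw [lf_lt]; split_ifs <;> rfl

open Classical in
@[simp] theorem expo_lt (l m : L) (x : C) : expo l (lt m x : W L C) = if m = l then x else 1 := by
  unfold expo; rw [lf_lt]; split_ifs <;> rfl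

@[simp] theorem rl_lt {L' : Type} (σ : L → L') (l : L) (x : C) :
    rl σ (lt l x : W L C) = lt (σ l) x := by
  unfold rl; rw [lf_lt]; rfl

open Classical in
theorem sw_lt (a b l : L) (x y : C) :
    sw a b x (lt l y : W L C) = if l = b then lt a x * lt b y * (lt a x)⁻¹ else lt l y := by
  unfold sw; rw [lf_lt]; split_ifs <;> rfl

end api

end Pool.Agent.E5f
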